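import Pool.Agent.Hyp6.Cseg2
import Pool.Agent.Hyp6.Ins.E01

/-!
# HYP6: instance 1 of the list: n = 0, bounds [2, 8], inner blocks []

632 base clauses, 521 gadgets, 1059 learned clauses.
-/

set_option autoImplicit false
set_option maxRecDepth 100000

namespace Pool.Agent.Hyp6

open Rup

universe u v

namespace D01

noncomputable def base : List Rs := [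
.join 0 16 5 3 2 1 [(4, 0)],
.join 0 12 5 4 3 1 [(2, 0), (3, 0)],
.join 0 4 5 3 2 1 [(2, 0)],
.part [5, 2] [0, 0] [56] [],
.join 1 5 3 5 4 3 [(0, 0), (2, 2)],
.ordE 0 2 1,
.join 0 18 5 4 2 2 [(1, 0), (4, 0)],
.ab2 0 9,
.join 0 1 2 4 1 3 [(0, 0)],
.join 1 8 5 4 1 3 [(3, 0)],
.join 0 1 5 3 1 2 [(0, 0)],
.le 1 33 1 0 3,
.part [18, 33] [0, 0] [] [(0, 12)],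
.le 1 12 4 2 4,
.mono 0 2 10 1,
.ab2 0 6,
.part [18, 5] [0, 0] [40] [],
.part [12, 18] [0, 0] [] [(1, 33)],
.deg 1 [2, 1],
.part [10, 17] [0, 0] [] [(1, 36)],
.join 1 4 4 4 3 3 [(2, 2)],
.part [51, 12] [1, 0] [] [],
.lip 0 32 37 7,
.join 0 1 1 4 3 1 [(0, 0)],
.join 0 8 5 4 2 2 [(3, 0)],
.le 1 20 16 4 4,
.part [12, 17] [0, 0] [] [(0, 34)],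
.join 0 1 5 4 3 1 [(0, 0)],
.join 1 1 3 4 3 1 [(0, 0)],
.ab2 1 36,
.ordE 0 32 1,
.part [43, 20] [1, 0] [] [],
.mono 1 40 44 1,
.hall [0] [1, 2],
.mono 1 48 50 1,
.part [33, 20] [0, 0] [] [(1, 10)],
.part [20, 33] [0, 0] [] [(0, 10)],
.join 1 1 4 4 2 4 [(0, 2)],
.join 0 1 5 3 4 1 [(0, 2)],
.join 0 4 3 3 2 1 [(2, 0)],
.mono 1 3 35 1,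
.le 0 18 16 4 2,
.part [9, 6] [0, 0] [48] [],
.part [54, 9] [1, 0] [] [],
.ab2 1 40,
.part [36, 3] [0, 0] [24] [],
.join 0 5 4 4 2 2 [(0, 0), (2, 0)],
.hall [1] [0, 1],
.join 1 1 5 5 3 2 [(0, 0)],
.part [12, 33] [0, 0] [] [(1, 18)],
.join 1 1 5 4 3 3 [(0, 2)],
.part [8, 48] [0, 0] [7] [],
.join 0 4 5 4 2 2 [(2, 0)],
.join 0 6 3 4 2 2 [(1, 0), (2, 0)],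
.join 1 1 1 4 2 2 [(0, 0)],
.join 0 2 4 4 3 1 [(1, 0)],
.part [17, 10] [0, 0] [] [(0, 36)],
.part [9, 36] [0, 0] [] [(0, 18)],
.join 0 1 2 2 2 0 [(0, 0)],
.deg 4 [2, 1],
.join 1 4 4 4 1 3 [(2, 0)],
.join 0 6 5 4 3 1 [(1, 0), (2, 0)],
.part [20, 9] [0, 0] [] [(0, 34)],
.le 0 33 32 5 2,
.deg 1 [1, 2],
.le 0 33 32 5 3,
.join 1 4 3 4 2 2 [(2, 0)],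
.join 0 6 4 4 2 2 [(1, 0), (2, 0)],
.mono 0 1 33 1,
.ab 1 2,
.un 0 3,
.join 1 8 4 4 1 3 [(3, 0)],
.join 0 9 4 4 2 2 [(0, 0), (3, 0)],
.part [18, 45] [0, 1] [] [],
.join 1 2 3 4 2 2 [(1, 0)],
.ab2 0 18,
.join 1 2 2 4 2 2 [(1, 0)],
.part [4, 3] [0, 0] [56] [],
.mono 1 5 13 1,
.part [30, 33] [1, 0] [] [],
.mono 1 6 38 1,
.join 0 1 1 4 2 2 [(0, 0)],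
.deg 1 [3, 0],
.un 0 2,
.join 0 2 2 3 1 2 [(1, 0)],
.join 1 16 5 5 2 3 [(4, 0)],
.mono 1 48 52 1,
.ordE 0 4 2,
.ordE 1 32 1,
.join 1 4 5 4 1 3 [(2, 0)],
.part [2, 5] [0, 0] [56] [],
.ab 0 1,
.ab 0 5,
.join 1 2 4 4 2 2 [(1, 0)],
.part [18, 36] [0, 0] [] [(1, 9)],
.join 0 4 4 2 1 1 [(2, 0)],
.mono 1 40 56 1,
.hall [0] [0, 2],
.part [45, 18] [1, 0] [] [],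
.join 1 8 5 5 2 3 [(3, 0)],
.join 1 2 3 4 1 3 [(1, 0)],
.join 1 4 4 4 3 1 [(2, 0)],
.join 0 1 3 3 2 1 [(0, 0)],
.part [9, 20] [0, 0] [] [(0, 34)],
.le 1 34 32 5 4,
.ordE 0 16 2,
.join 0 9 5 4 3 1 [(0, 0), (3, 0)],
.part [10, 17] [0, 0] [] [(0, 36)],
.join 0 8 4 4 3 1 [(3, 0)],
.join 0 9 5 4 2 2 [(0, 0), (3, 0)],
.join 1 6 4 5 4 3 [(1, 2), (2, 0)],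
.ab2 1 3,
.join 0 1 1 3 1 2 [(0, 0)],
.join 1 1 4 4 4 2 [(0, 2)],
.join 0 4 5 4 1 3 [(2, 0)],
.join 0 12 4 4 3 1 [(2, 0), (3, 0)],
.join 0 2 3 4 1 3 [(1, 0)],
.ab2 0 40,
.join 0 4 5 3 3 1 [(2, 1)],
.ordE 1 16 3,
.hall [0] [0, 1],
.part [37, 26] [1, 0] [] [],
.join 0 4 5 3 0 3 [(2, 0)],
.part [12, 34] [0, 0] [] [(1, 17)],
.le 0 9 1 0 1,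
.part [17, 40] [0, 0] [6] [],
.part [24, 32] [0, 0] [7] [],
.join 0 1 4 3 0 3 [(0, 0)],
.part [33, 20] [0, 0] [] [(0, 10)],
.part [20, 9] [0, 0] [] [(1, 34)],
.part [9, 20] [0, 0] [] [(1, 34)],
.join 0 2 4 4 2 2 [(1, 0)],
.join 1 6 5 5 4 3 [(1, 2), (2, 0)],
.join 0 1 2 4 3 1 [(0, 0)],
.ab2 1 5,
.ordL 1 40 1,
.ordE 1 1 2,
.mono 1 2 3 1,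
.join 0 2 3 3 3 0 [(1, 0)],
.join 1 4 5 4 4 3 [(2, 3)],
.join 0 3 3 4 2 2 [(0, 0), (1, 0)],
.join 1 2 4 5 2 3 [(1, 0)],
.join 1 8 4 4 3 3 [(3, 2)],
.join 1 2 4 4 2 3 [(1, 1)],
.join 1 2 4 4 2 4 [(1, 2)],
.part [33, 30] [0, 1] [] [],
.join 1 8 4 4 3 2 [(3, 1)],
.join 1 2 4 4 4 2 [(1, 2)],
.join 1 1 2 5 3 2 [(0, 0)],
.part [1, 62] [0, 1] [] [],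
.mono 0 1 3 1,
.deg 4 [1, 2],
.ab 1 5,
.ordE 1 16 1,
.join 1 2 5 4 2 3 [(1, 1)],
.join 1 1 1 4 2 3 [(0, 1)],
.part [36, 17] [0, 0] [] [(0, 10)],
.join 0 6 4 4 3 1 [(1, 0), (2, 0)],
.join 1 4 5 4 3 1 [(2, 0)],
.join 0 2 5 4 1 3 [(1, 0)],
.mono 1 6 7 1,
.join 0 10 4 4 2 2 [(1, 0), (3, 0)],
.part [17, 10] [0, 0] [] [(1, 36)],
.join 1 8 5 4 3 2 [(3, 1)],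
.part [9, 34] [0, 0] [] [(0, 20)],
.join 0 8 5 3 1 2 [(3, 0)],
.mono 1 48 56 1,
.join 0 1 4 3 1 3 [(0, 1)],
.join 1 1 5 4 2 3 [(0, 1)],
.mono 1 6 14 1,
.deg 5 [0, 3],
.mono 0 2 18 1,
.join 1 1 1 4 3 2 [(0, 1)],
.part [16, 47] [0, 1] [] [],
.join 1 12 4 5 3 2 [(2, 0), (3, 0)],
.part [4, 59] [0, 1] [] [],
.mono 0 4 36 1,
.ordE 1 8 1,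
.ab2 0 20,
.part [10, 20] [0, 0] [] [(0, 33)],
.join 0 10 5 4 3 1 [(1, 0), (3, 0)],
.part [48, 8] [0, 0] [7] [],
.ab 1 3,
.join 0 4 5 4 4 1 [(2, 1)],
.ordE 0 1 2,
.ordE 0 2 2,
.le 0 17 1 0 2,
.join 0 1 2 3 1 2 [(0, 0)],
.ordE 0 1 1,
.part [46, 17] [1, 0] [] [],
.join 1 8 5 3 2 2 [(3, 1)],
.join 1 2 4 4 3 3 [(1, 2)],
.le 0 33 1 0 1,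
.part [9, 36] [0, 0] [] [(1, 18)],
.join 0 24 5 3 2 1 [(3, 0), (4, 0)],
.part [9, 54] [0, 1] [] [],
.part [33, 6] [0, 0] [24] [],
.join 0 1 4 4 3 1 [(0, 0)],
.part [12, 51] [0, 1] [] [],
.join 0 3 4 4 2 2 [(0, 0), (1, 0)],
.part [34, 17] [0, 0] [] [(1, 12)],
.part [32, 31] [0, 1] [] [],
.join 1 2 2 5 3 2 [(1, 0)],
.part [40, 16] [0, 0] [7] [],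
.join 1 4 5 4 3 2 [(2, 1)],
.ab2 1 20,
.join 0 2 4 4 4 1 [(1, 1)],
.hall [0] [3, 4],
.join 0 16 5 2 1 1 [(4, 0)],
.mono 0 8 10 1,
.le 0 33 1 0 2,
.join 1 4 4 4 4 3 [(2, 3)],
.mono 1 3 7 1,
.join 1 1 5 4 2 2 [(0, 0)],
.join 1 2 2 3 1 2 [(1, 0)],
.le 0 36 4 2 1,
.join 1 4 3 3 3 2 [(2, 2)],
.ordE 1 1 3,
.ordL 1 6 1,
.join 0 4 5 3 3 0 [(2, 0)],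
.part [27, 36] [1, 0] [] [],
.join 1 2 5 4 2 2 [(1, 0)],
.join 0 8 4 2 2 0 [(3, 0)],
.join 0 1 2 2 1 1 [(0, 0)],
.part [20, 34] [0, 0] [] [(1, 9)],
.part [1, 6] [0, 0] [56] [],
.join 0 8 5 2 0 2 [(3, 0)],
.join 1 1 3 4 1 3 [(0, 0)],
.join 1 1 5 4 1 3 [(0, 0)],
.mono 0 1 17 1,
.join 0 5 5 4 2 2 [(0, 0), (2, 0)],
.ab2 0 36,
.join 1 1 1 4 1 3 [(0, 0)],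
.join 0 3 4 4 3 1 [(0, 0), (1, 0)],
.join 1 2 5 4 3 3 [(1, 2)],
.part [17, 12] [0, 0] [] [(1, 34)],
.le 0 33 32 5 1,
.part [20, 33] [0, 0] [] [(1, 10)],
.le 0 34 32 5 1,
.join 0 12 4 4 2 2 [(2, 0), (3, 0)],
.join 0 1 5 3 1 3 [(0, 1)],
.part [34, 9] [0, 0] [] [(1, 20)],
.part [34, 24] [0, 0] [5] [],
.join 0 1 3 1 0 1 [(0, 0)],
.join 0 2 3 2 1 1 [(1, 0)],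
.join 1 4 5 4 2 2 [(2, 0)],
.mono 0 1 5 1,
.join 1 3 3 5 4 3 [(0, 0), (1, 2)],
.join 0 4 3 3 0 3 [(2, 0)],
.join 1 1 4 4 3 1 [(0, 0)],
.part [5, 58] [1, 0] [] [],
.le 0 12 4 2 1,
.ab 0 0,
.ab2 1 12,
.mono 1 3 19 1,
.part [38, 25] [1, 0] [] [],
.ab2 0 10,
.join 0 5 3 4 2 2 [(0, 0), (2, 0)],
.part [10, 36] [0, 0] [] [(1, 17)],
.part [10, 20] [0, 0] [] [(1, 33)],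
.join 0 1 5 3 3 1 [(0, 1)],
.join 1 16 5 4 3 3 [(4, 2)],
.join 1 1 2 4 1 3 [(0, 0)],
.part [8, 55] [0, 1] [] [],
.ab2 0 48,
.part [36, 10] [0, 0] [] [(0, 17)],
.lip 0 32 38 7,
.join 1 1 4 4 3 2 [(0, 1)],
.join 0 4 4 3 2 1 [(2, 0)],
.le 0 9 1 0 2,
.deg 2 [0, 3],
.join 0 1 2 2 0 2 [(0, 0)],
.join 1 2 5 4 3 2 [(1, 1)],
.join 1 8 4 4 2 3 [(3, 1)],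
.join 1 4 3 4 3 2 [(2, 1)],
.join 0 5 5 4 3 1 [(0, 0), (2, 0)],
.part [34, 20] [0, 0] [] [(1, 9)],
.hall [0, 1] [4],
.part [33, 10] [0, 0] [] [(1, 20)],
.le 1 36 32 5 4,
.join 1 16 5 3 1 2 [(4, 0)],
.join 1 2 3 5 2 3 [(1, 0)],
.join 0 8 4 2 0 2 [(3, 0)],
.ordE 1 1 1,
.deg 3 [1, 2],
.join 0 2 4 2 1 1 [(1, 0)],
.deg 1 [0, 3],
.join 0 2 2 2 2 0 [(1, 0)],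
.join 0 2 2 4 3 1 [(1, 0)],
.join 0 4 3 4 3 1 [(2, 0)],
.join 0 3 3 4 3 1 [(0, 0), (1, 0)],
.join 1 2 3 4 4 2 [(1, 2)],
.join 0 5 4 4 3 1 [(0, 0), (2, 0)],
.part [53, 10] [1, 0] [] [],
.ab2 1 48,
.join 0 2 3 3 3 1 [(1, 1)],
.join 0 6 3 4 3 1 [(1, 0), (2, 0)],
.deg 0 [2, 1],
.part [34, 12] [0, 0] [] [(1, 17)],
.le 1 36 32 5 3,
.part [20, 43] [0, 1] [] [],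
.ordE 1 4 2,
.join 0 17 5 4 3 1 [(0, 0), (4, 0)],
.join 0 8 4 3 1 2 [(3, 0)],
.deg 5 [3, 0],
.join 0 2 4 3 2 1 [(1, 0)],
.ab 1 1,
.un 0 4,
.join 1 16 5 4 2 2 [(4, 0)],
.join 0 1 3 3 0 3 [(0, 0)],
.deg 3 [2, 1],
.join 0 8 5 2 1 1 [(3, 0)],
.part [18, 9] [0, 0] [] [(1, 36)],
.join 0 4 5 4 3 1 [(2, 0)],
.part [40, 23] [1, 0] [] [],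
.join 0 2 2 4 2 2 [(1, 0)],
.join 1 4 3 5 3 2 [(2, 0)],
.join 0 1 5 3 0 3 [(0, 0)],
.join 0 2 4 4 1 3 [(1, 0)],
.join 0 1 4 4 2 2 [(0, 0)],
.join 0 2 3 3 2 1 [(1, 0)],
.part [18, 9] [0, 0] [] [(0, 36)],
.le 0 9 8 3 2,
.ab2 0 24,
.join 1 4 4 4 2 3 [(2, 1)],
.join 1 8 5 4 2 3 [(3, 1)],
.deg 5 [1, 2],
.le 1 17 1 0 3,
.ab2 1 24,
.join 1 1 2 4 3 2 [(0, 1)],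
.mono 0 16 20 1,
.le 1 18 16 4 3,
.join 0 4 3 4 2 2 [(2, 0)],
.join 0 9 4 4 3 1 [(0, 0), (3, 0)],
.join 0 2 5 3 1 2 [(1, 0)],
.hall [0] [3, 5],
.join 0 1 1 3 2 1 [(0, 0)],
.ab2 1 17,
.le 0 36 32 5 1,
.mono 1 40 42 1,
.mono 0 40 56 2,
.join 1 12 5 5 5 2 [(2, 2), (3, 0)],
.join 0 10 5 4 2 2 [(1, 0), (3, 0)],
.part [34, 17] [0, 0] [] [(0, 12)],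
.part [12, 18] [0, 0] [] [(0, 33)],
.join 0 1 1 4 1 3 [(0, 0)],
.ab 0 2,
.part [36, 10] [0, 0] [] [(1, 17)],
.le 1 18 2 1 3,
.ab 0 3,
.join 0 1 3 4 3 1 [(0, 0)],
.join 1 8 4 3 2 1 [(3, 0)],
.part [17, 34] [0, 0] [] [(1, 12)],
.mono 1 5 37 1,
.part [17, 46] [0, 1] [] [],
.join 0 1 3 2 0 2 [(0, 0)],
.join 1 4 5 4 3 3 [(2, 2)],
.join 0 5 3 4 3 1 [(0, 0), (2, 0)],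
.le 0 36 32 5 2,
.join 0 4 3 4 1 3 [(2, 0)],
.part [20, 10] [0, 0] [] [(0, 33)],
.part [34, 12] [0, 0] [] [(0, 17)],
.mono 0 6 7 2,
.join 0 2 5 3 3 0 [(1, 0)],
.part [36, 18] [0, 0] [] [(0, 9)],
.join 1 20 5 5 3 2 [(2, 0), (4, 0)],
.ab2 1 6,
.le 1 10 2 1 3,
.part [10, 33] [0, 0] [] [(0, 20)],
.ab2 0 17,
.part [17, 34] [0, 0] [] [(0, 12)],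
.join 1 1 2 4 2 2 [(0, 0)],
.join 1 2 5 5 3 2 [(1, 0)],
.join 0 4 4 4 3 1 [(2, 0)],
.join 1 2 3 4 2 3 [(1, 1)],
.join 1 4 5 4 2 3 [(2, 1)],
.deg 2 [2, 1],
.join 1 4 4 5 2 3 [(2, 0)],
.join 1 1 2 5 2 3 [(0, 0)],
.ab 0 4,
.ordE 1 4 3,
.join 0 3 2 3 1 2 [(0, 0), (1, 0)],
.part [2, 61] [0, 1] [] [],
.join 1 1 4 4 1 3 [(0, 0)],
.mono 0 3 7 2,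
.le 0 9 8 3 3,
.join 0 1 5 4 1 3 [(0, 0)],
.join 1 1 2 4 3 1 [(0, 0)],
.join 1 4 4 5 3 2 [(2, 0)],
.join 1 2 5 4 1 3 [(1, 0)],
.join 1 4 3 4 3 3 [(2, 2)],
.join 1 1 3 5 3 2 [(0, 0)],
.part [18, 12] [0, 0] [] [(0, 33)],
.join 1 2 2 4 3 2 [(1, 1)],
.deg 2 [3, 0],
.join 0 4 4 3 1 2 [(2, 0)],
.deg 0 [0, 3],
.mono 1 3 11 1,
.join 0 10 4 4 3 1 [(1, 0), (3, 0)],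
.mono 0 5 7 2,
.join 0 4 5 3 1 2 [(2, 0)],
.join 0 1 3 4 1 4 [(0, 1)],
.join 1 2 2 5 2 3 [(1, 0)],
.join 1 1 2 3 2 2 [(0, 1)],
.deg 3 [3, 0],
.le 0 10 8 3 2,
.hall [1] [3, 4],
.join 0 1 5 3 2 1 [(0, 0)],
.join 1 1 1 5 3 2 [(0, 0)],
.join 1 4 5 4 2 4 [(2, 2)],
.join 1 1 5 5 2 3 [(0, 0)],
.join 1 4 5 4 4 2 [(2, 2)],
.part [33, 12] [0, 0] [] [(0, 18)],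
.join 0 1 4 3 1 2 [(0, 0)],
.part [20, 3] [0, 0] [40] [],
.join 0 3 2 3 3 0 [(0, 0), (1, 0)],
.deg 5 [2, 1],
.ab2 1 33,
.ab 1 0,
.deg 0 [3, 0],
.part [33, 10] [0, 0] [] [(0, 20)],
.join 1 2 5 4 3 1 [(1, 0)],
.join 0 2 2 4 1 3 [(1, 0)],
.join 1 4 4 4 3 2 [(2, 1)],
.un 0 0,
.ab2 0 12,
.join 1 2 4 5 3 2 [(1, 0)],
.deg 4 [0, 3],
.part [6, 57] [1, 0] [] [],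
.join 1 1 5 4 3 2 [(0, 1)],
.ordE 1 4 1,
.join 0 2 3 4 3 1 [(1, 0)],
.ordE 1 8 3,
.join 0 2 5 3 0 3 [(1, 0)],
.join 1 16 5 4 2 3 [(4, 1)],
.join 0 8 5 4 1 3 [(3, 0)],
.join 0 1 3 3 3 1 [(0, 1)],
.le 1 12 4 2 3,
.part [18, 33] [0, 0] [] [(1, 12)],
.deg 3 [0, 3],
.join 0 2 3 3 1 2 [(1, 0)],
.join 0 17 5 4 2 2 [(0, 0), (4, 0)],
.mono 1 48 49 1,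
.mono 0 2 34 1,
.join 1 8 4 4 3 1 [(3, 0)],
.join 0 2 3 4 2 2 [(1, 0)],
.join 0 1 4 4 1 3 [(0, 0)],
.part [17, 36] [0, 0] [] [(1, 10)],
.join 0 24 5 3 3 0 [(3, 0), (4, 0)],
.join 1 2 3 5 3 2 [(1, 0)],
.join 0 1 4 3 2 1 [(0, 0)],
.join 1 4 4 3 3 2 [(2, 2)],
.join 0 8 4 4 1 3 [(3, 0)],
.part [10, 36] [0, 0] [] [(0, 17)],
.join 0 4 4 4 2 2 [(2, 0)],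
.join 1 16 5 5 3 2 [(4, 0)],
.mono 1 5 21 1,
.join 1 2 2 3 2 1 [(1, 0)],
.lip 0 0 7 7,
.join 1 1 1 5 2 3 [(0, 0)],
.join 0 3 2 3 2 1 [(0, 0), (1, 0)],
.part [20, 10] [0, 0] [] [(1, 33)],
.join 1 2 4 4 1 3 [(1, 0)],
.lip 1 7 55 56,
.join 0 1 1 2 2 0 [(0, 0)],
.join 1 1 3 4 2 3 [(0, 1)],
.mono 1 24 28 1,
.part [32, 24] [0, 0] [7] [],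
.mono 0 24 56 2,
.join 1 1 2 4 3 3 [(0, 2)],
.ab2 0 5,
.le 1 10 8 3 3,
.part [18, 36] [0, 0] [] [(0, 9)],
.ab2 1 10,
.join 1 2 2 4 3 1 [(1, 0)],
.part [29, 34] [1, 0] [] [],
.part [36, 9] [0, 0] [] [(0, 18)],
.ordE 1 2 1,
.ab2 1 18,
.join 0 1 5 3 3 0 [(0, 0)],
.join 1 4 3 4 3 4 [(2, 3)],
.join 0 2 5 4 2 2 [(1, 0)],
.ab 1 4,
.ordE 0 8 2,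
.join 0 9 4 3 2 1 [(0, 0), (3, 0)],
.part [16, 40] [0, 0] [7] [],
.part [20, 34] [0, 0] [] [(0, 9)],
.join 0 1 4 2 1 1 [(0, 0)],
.part [12, 3] [0, 0] [48] [],
.part [36, 9] [0, 0] [] [(1, 18)],
.join 1 1 3 4 3 3 [(0, 2)],
.part [3, 60] [1, 0] [] [],
.join 1 1 3 4 3 2 [(0, 1)],
.lipl 1 17 27 1 10,
.join 1 1 1 3 1 2 [(0, 0)],
.join 1 1 4 5 3 2 [(0, 0)],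
.join 1 1 5 4 3 1 [(0, 0)],
.join 1 8 5 4 3 1 [(3, 0)],
.join 1 1 4 5 2 3 [(0, 0)],
.mono 1 40 41 1,
.join 0 2 2 3 2 1 [(1, 0)],
.part [20, 40] [0, 0] [3] [],
.ab2 0 3,
.join 1 16 5 4 1 3 [(4, 0)],
.part [12, 33] [0, 0] [] [(0, 18)],
.join 1 4 3 4 2 4 [(2, 2)],
.part [17, 36] [0, 0] [] [(0, 10)],
.part [17, 12] [0, 0] [] [(0, 34)],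
.ordE 0 4 1,
.join 1 2 5 4 4 2 [(1, 2)],
.join 0 2 2 2 1 1 [(1, 0)],
.le 1 36 4 2 3,
.join 1 3 4 5 4 3 [(0, 0), (1, 2)],
.ordE 1 32 3,
.join 1 8 5 4 3 3 [(3, 2)],
.join 0 1 1 1 0 1 [(0, 0)],
.part [12, 17] [0, 0] [] [(1, 34)],
.join 0 1 3 3 1 2 [(0, 0)],
.part [17, 6] [0, 0] [40] [],
.ordE 0 32 2,
.join 0 16 5 4 3 1 [(4, 0)],
.join 1 2 3 4 3 2 [(1, 1)],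
.join 0 18 5 4 3 1 [(1, 0), (4, 0)],
.part [33, 18] [0, 0] [] [(1, 12)],
.join 0 3 5 4 2 2 [(0, 0), (1, 0)],
.part [36, 24] [0, 0] [3] [],
.part [34, 20] [0, 0] [] [(0, 9)],
.mono 0 8 12 1,
.deg 4 [3, 0],
.part [34, 9] [0, 0] [] [(0, 20)],
.join 1 2 2 4 3 3 [(1, 2)],
.ab2 1 9,
.join 1 8 5 5 3 2 [(3, 0)],
.join 1 8 4 4 2 2 [(3, 0)],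
.join 0 9 4 3 1 2 [(0, 0), (3, 0)],
.join 1 2 3 4 3 1 [(1, 0)],
.part [10, 33] [0, 0] [] [(1, 20)],
.join 0 4 4 4 1 3 [(2, 0)],
.join 0 1 1 2 1 1 [(0, 0)],
.join 1 1 5 4 2 4 [(0, 2)],
.join 0 1 1 2 0 2 [(0, 0)],
.join 1 4 3 4 3 1 [(2, 0)],
.join 0 8 4 3 2 1 [(3, 0)],
.join 0 1 3 3 1 3 [(0, 1)],
.join 1 4 3 4 1 3 [(2, 0)],
.join 0 8 4 2 1 1 [(3, 0)],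
.join 0 1 3 2 1 1 [(0, 0)],
.join 1 2 5 5 2 3 [(1, 0)],
.l2 1 9 10 3 2 2,
.join 0 4 3 2 1 1 [(2, 0)],
.join 0 2 2 2 0 2 [(1, 0)],
.ab2 1 34,
.join 1 1 2 4 2 3 [(0, 1)],
.join 1 2 2 4 1 3 [(1, 0)],
.mono 1 6 22 1,
.mono 0 8 9 1,
.join 1 2 2 4 2 3 [(1, 1)],
.part [33, 12] [0, 0] [] [(1, 18)],
.deg 2 [1, 2],
.join 0 8 5 4 3 1 [(3, 0)],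
.join 0 1 3 3 3 2 [(0, 2)],
.join 1 8 5 4 2 2 [(3, 0)],
.ordE 1 2 2,
.part [9, 34] [0, 0] [] [(1, 20)],
.join 0 1 2 3 2 1 [(0, 0)],
.join 1 1 4 4 2 3 [(0, 1)],
.mono 0 48 56 2,
.join 0 1 2 4 2 2 [(0, 0)],
.join 0 1 3 4 0 4 [(0, 0)],
.le 1 17 16 4 3,
.join 0 1 3 4 2 2 [(0, 0)],
.join 1 1 1 3 2 1 [(0, 0)],
.join 1 8 5 3 1 2 [(3, 0)],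
.join 1 4 4 4 2 2 [(2, 0)],
.join 0 16 5 4 2 2 [(4, 0)],
.part [24, 39] [1, 0] [] [],
.part [34, 29] [0, 1] [] [],
.lip 0 0 56 56,
.part [36, 27] [0, 1] [] [],
.join 1 2 5 4 4 3 [(1, 3)],
.part [12, 34] [0, 0] [] [(0, 17)],
.deg 0 [1, 2],
.join 1 4 3 4 2 3 [(2, 1)],
.join 0 2 4 3 1 2 [(1, 0)],
.join 0 16 5 2 0 2 [(4, 0)],
.part [18, 40] [0, 0] [5] [],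
.join 0 2 5 4 3 1 [(1, 0)],
.un 0 1,
.part [36, 17] [0, 0] [] [(1, 10)],
.join 0 1 3 4 1 3 [(0, 0)],
.join 0 1 4 4 4 0 [(0, 0)],
.part [18, 12] [0, 0] [] [(1, 33)],
.part [33, 18] [0, 0] [] [(0, 12)],
.join 0 20 5 4 3 1 [(2, 0), (4, 0)],
.part [10, 5] [0, 0] [48] [],
.join 1 1 4 4 3 3 [(0, 2)],
.mono 0 16 18 1,
.part [34, 5] [0, 0] [24] [],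
.part [6, 1] [0, 0] [56] [],
.join 1 1 4 4 2 2 [(0, 0)],
.part [9, 18] [0, 0] [] [(0, 36)],
.join 1 1 2 3 1 2 [(0, 0)],
.ordE 1 8 2,
.ab2 0 33,
.join 0 1 5 4 2 2 [(0, 0)],
.ordE 1 2 3,
.join 0 8 4 4 2 2 [(3, 0)],
.join 1 16 5 4 3 1 [(4, 0)],
.join 1 2 3 4 3 3 [(1, 2)],
.le 1 34 32 5 3,
.join 0 2 5 3 2 1 [(1, 0)],
.join 0 1 3 3 3 0 [(0, 0)],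
.join 1 1 1 4 3 3 [(0, 2)],
.join 0 2 5 4 4 0 [(1, 0)],
.part [9, 18] [0, 0] [] [(1, 36)],
.part [36, 18] [0, 0] [] [(1, 9)],
.ab2 0 34,
.join 0 20 5 4 2 2 [(2, 0), (4, 0)],
.join 0 3 5 4 3 1 [(0, 0), (1, 0)],
.part [3, 4] [0, 0] [56] [],
.join 1 2 3 4 2 4 [(1, 2)],
.ordE 0 16 1,
.join 1 2 4 4 3 2 [(1, 1)],
.join 1 8 4 5 3 2 [(3, 0)],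
.part [10, 53] [0, 1] [] [],
.part [48, 15] [1, 0] [] [],
.join 1 1 3 4 2 2 [(0, 0)],
.join 1 1 1 4 3 1 [(0, 0)],
.join 1 16 5 4 3 2 [(4, 1)],
.join 0 4 3 4 4 0 [(2, 0)],
.join 1 8 4 5 2 3 [(3, 0)],
.join 0 4 3 3 1 2 [(2, 0)]]

noncomputable def gads : List Gt := [
⟨0, [⟨12, 4, []⟩, ⟨16, 2, []⟩], [3, 2, 2], 1, [(20, 1), (24, 1)]⟩,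
⟨0, [⟨18, 4, []⟩, ⟨8, 2, []⟩], [3, 2, 2], 1, [(10, 1), (24, 1)]⟩,
⟨0, [⟨9, 3, []⟩, ⟨20, 3, []⟩], [3, 3], 1, [(5, 1), (12, 1), (17, 1), (24, 1)]⟩,
⟨0, [⟨1, 3, []⟩, ⟨2, 3, []⟩], [3, 3], 1, [(3, 1)]⟩,
⟨1, [⟨32, 4, []⟩, ⟨24, 4, []⟩], [3], 1, [(40, 1), (48, 1)]⟩,
⟨0, [⟨1, 2, []⟩, ⟨4, 2, []⟩, ⟨8, 2, []⟩, ⟨32, 2, []⟩], [3, 3, 3, 12, 12, 12], 2, [(5, 1), (40, 1), (45, 2)]⟩,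
⟨1, [⟨1, 3, []⟩, ⟨2, 3, []⟩, ⟨16, 4, []⟩, ⟨0, 0, [(40, 2)]⟩], [3, 3, 12, 8, 8], 2, [(3, 1), (56, 1), (59, 2)]⟩,
⟨1, [⟨1, 3, []⟩, ⟨2, 3, []⟩, ⟨0, 0, [(20, 2)]⟩, ⟨40, 4, []⟩], [3, 3, 12, 4, 4], 2, [(3, 1), (28, 1), (31, 2), (52, 1), (55, 2)]⟩,
⟨1, [⟨3, 5, []⟩, ⟨4, 3, []⟩, ⟨16, 2, []⟩, ⟨32, 2, []⟩], [2, 2, 12, 12, 12], 2, [(5, 1), (6, 1), (49, 1), (50, 1), (53, 2), (54, 2)]⟩,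
⟨0, [⟨13, 4, []⟩, ⟨16, 2, []⟩], [3, 2, 2], 1, [(17, 1), (20, 1), (24, 1)]⟩,
⟨0, [⟨33, 4, []⟩, ⟨2, 2, []⟩], [3, 2, 2], 1, [(3, 1), (34, 1)]⟩,
⟨0, [⟨32, 4, []⟩, ⟨8, 2, []⟩], [3, 2, 2], 1, [(40, 1)]⟩,
⟨0, [⟨33, 4, []⟩, ⟨8, 2, []⟩], [3, 2, 2], 1, [(9, 1), (40, 1)]⟩,
⟨0, [⟨48, 3, []⟩, ⟨8, 3, []⟩], [3, 3], 1, [(24, 1), (40, 1)]⟩,
⟨1, [⟨16, 4, []⟩, ⟨32, 4, []⟩], [3], 1, [(48, 1)]⟩,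
⟨1, [⟨8, 3, []⟩, ⟨16, 3, []⟩, ⟨4, 4, []⟩, ⟨2, 2, []⟩], [3, 3, 12, 8, 8], 2, [(6, 1), (24, 1), (30, 2)]⟩,
⟨1, [⟨32, 3, []⟩, ⟨0, 0, [(24, 3)]⟩, ⟨4, 4, []⟩, ⟨1, 2, []⟩], [3, 3, 12, 8, 8], 2, [(5, 1), (56, 1), (61, 2)]⟩,
⟨0, [⟨52, 4, []⟩, ⟨8, 2, []⟩], [3, 2, 2], 1, [(12, 1), (24, 1), (40, 1)]⟩,
⟨1, [⟨8, 3, []⟩, ⟨32, 3, []⟩, ⟨2, 4, []⟩, ⟨1, 2, []⟩], [3, 3, 12, 8, 8], 2, [(3, 1), (40, 1), (43, 2)]⟩,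
⟨1, [⟨32, 2, []⟩, ⟨20, 5, []⟩, ⟨2, 3, []⟩, ⟨0, 0, [(17, 2)]⟩], [9, 9, 9, 4, 4], 2, [(6, 1), (18, 1), (49, 1), (51, 2)]⟩,
⟨0, [⟨8, 4, []⟩, ⟨16, 2, []⟩], [3, 2, 2], 1, [(24, 1)]⟩,
⟨1, [⟨8, 3, []⟩, ⟨32, 3, []⟩, ⟨1, 4, []⟩, ⟨0, 0, [(6, 2)]⟩], [3, 3, 12, 8, 8], 2, [(7, 1), (40, 1), (47, 2)]⟩,
⟨0, [⟨1, 4, []⟩, ⟨2, 2, []⟩], [3, 2, 2], 1, [(3, 1)]⟩,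
⟨1, [⟨16, 3, []⟩, ⟨32, 3, []⟩, ⟨6, 4, []⟩, ⟨1, 2, []⟩], [3, 3, 12, 8, 8], 2, [(3, 1), (5, 1), (48, 1), (51, 2), (53, 2)]⟩,
⟨1, [⟨1, 3, []⟩, ⟨2, 3, []⟩, ⟨40, 4, []⟩, ⟨16, 2, []⟩], [3, 3, 12, 8, 8], 2, [(3, 1), (24, 1), (27, 2), (48, 1), (51, 2)]⟩,
⟨1, [⟨1, 4, []⟩, ⟨16, 4, []⟩], [3], 1, [(17, 1)]⟩,
⟨1, [⟨1, 3, []⟩, ⟨4, 3, []⟩, ⟨40, 4, []⟩, ⟨16, 2, []⟩], [3, 3, 12, 8, 8], 2, [(5, 1), (24, 1), (29, 2), (48, 1), (53, 2)]⟩,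
⟨0, [⟨14, 4, []⟩, ⟨16, 2, []⟩], [3, 2, 2], 1, [(18, 1), (20, 1), (24, 1)]⟩,
⟨0, [⟨20, 4, []⟩, ⟨8, 2, []⟩], [3, 2, 2], 1, [(12, 1), (24, 1)]⟩,
⟨0, [⟨10, 4, []⟩, ⟨4, 2, []⟩], [3, 2, 2], 1, [(6, 1), (12, 1)]⟩,
⟨0, [⟨1, 2, []⟩, ⟨2, 2, []⟩, ⟨8, 2, []⟩, ⟨32, 2, []⟩], [3, 3, 3, 12, 12, 12], 2, [(3, 1), (40, 1), (43, 2)]⟩,
⟨1, [⟨1, 3, []⟩, ⟨0, 0, [(6, 3)]⟩, ⟨32, 4, []⟩, ⟨16, 2, []⟩], [3, 3, 12, 8, 8], 2, [(7, 1), (48, 1), (55, 2)]⟩,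
⟨0, [⟨3, 3, []⟩, ⟨4, 3, []⟩], [3, 3], 1, [(5, 1), (6, 1)]⟩,
⟨1, [⟨9, 4, []⟩, ⟨16, 4, []⟩], [3], 1, [(17, 1), (24, 1)]⟩,
⟨1, [⟨18, 4, []⟩, ⟨5, 4, []⟩], [3], 1, [(3, 1), (6, 1), (17, 1), (20, 1)]⟩,
⟨0, [⟨34, 4, []⟩, ⟨24, 2, []⟩], [3, 2, 2], 1, [(10, 1), (18, 1), (40, 1), (48, 1)]⟩,
⟨0, [⟨2, 2, []⟩, ⟨4, 2, []⟩, ⟨8, 2, []⟩, ⟨16, 2, []⟩], [3, 3, 3, 12, 12, 12], 2, [(6, 1), (24, 1), (30, 2)]⟩,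
⟨0, [⟨17, 4, []⟩, ⟨2, 2, []⟩], [3, 2, 2], 1, [(3, 1), (18, 1)]⟩,
⟨1, [⟨8, 3, []⟩, ⟨32, 3, []⟩, ⟨4, 4, []⟩, ⟨1, 2, []⟩], [3, 3, 12, 8, 8], 2, [(5, 1), (40, 1), (45, 2)]⟩,
⟨0, [⟨1, 2, []⟩, ⟨4, 2, []⟩, ⟨16, 2, []⟩, ⟨32, 2, []⟩], [3, 3, 3, 12, 12, 12], 2, [(5, 1), (48, 1), (53, 2)]⟩,
⟨1, [⟨2, 3, []⟩, ⟨4, 3, []⟩, ⟨8, 4, []⟩, ⟨0, 0, [(48, 2)]⟩], [3, 3, 12, 8, 8], 2, [(6, 1), (56, 1), (62, 2)]⟩,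
⟨1, [⟨16, 3, []⟩, ⟨32, 3, []⟩, ⟨1, 4, []⟩, ⟨2, 2, []⟩], [3, 3, 12, 8, 8], 2, [(3, 1), (48, 1), (51, 2)]⟩,
⟨1, [⟨1, 3, []⟩, ⟨4, 3, []⟩, ⟨32, 4, []⟩, ⟨0, 0, [(24, 2)]⟩], [3, 3, 12, 8, 8], 2, [(5, 1), (56, 1), (61, 2)]⟩,
⟨1, [⟨6, 5, []⟩, ⟨1, 3, []⟩, ⟨8, 2, []⟩, ⟨16, 2, []⟩], [2, 2, 12, 12, 12], 2, [(3, 1), (5, 1), (26, 1), (27, 2), (28, 1), (29, 2)]⟩,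
⟨0, [⟨33, 3, []⟩, ⟨4, 3, []⟩], [3, 3], 1, [(5, 1), (36, 1)]⟩,
⟨0, [⟨32, 4, []⟩, ⟨16, 2, []⟩], [3, 2, 2], 1, [(48, 1)]⟩,
⟨1, [⟨8, 3, []⟩, ⟨0, 0, [(48, 3)]⟩, ⟨2, 4, []⟩, ⟨4, 2, []⟩], [3, 3, 12, 8, 8], 2, [(6, 1), (56, 1), (62, 2)]⟩,
⟨1, [⟨1, 3, []⟩, ⟨4, 3, []⟩, ⟨8, 3, []⟩, ⟨32, 3, []⟩], [3, 3, 12, 12], 2, [(5, 1), (40, 1), (45, 2)]⟩,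
⟨1, [⟨36, 4, []⟩, ⟨1, 4, []⟩], [3], 1, [(5, 1), (33, 1)]⟩,
⟨1, [⟨4, 4, []⟩, ⟨3, 4, []⟩], [3], 1, [(5, 1), (6, 1)]⟩,
⟨0, [⟨6, 2, []⟩, ⟨48, 4, []⟩], [3, 1, 1], 1, [(18, 1), (20, 1), (34, 1), (36, 1)]⟩,
⟨0, [⟨25, 4, []⟩, ⟨4, 2, []⟩], [3, 2, 2], 1, [(5, 1), (12, 1), (20, 1)]⟩,
⟨0, [⟨36, 4, []⟩, ⟨2, 2, []⟩], [3, 2, 2], 1, [(6, 1), (34, 1)]⟩,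
⟨1, [⟨10, 4, []⟩, ⟨5, 4, []⟩], [3], 1, [(3, 1), (6, 1), (9, 1), (12, 1)]⟩,
⟨0, [⟨24, 3, []⟩, ⟨32, 3, []⟩], [3, 3], 1, [(40, 1), (48, 1)]⟩,
⟨0, [⟨17, 3, []⟩, ⟨8, 3, []⟩], [3, 3], 1, [(9, 1), (24, 1)]⟩,
⟨1, [⟨8, 3, []⟩, ⟨32, 3, []⟩, ⟨4, 3, []⟩, ⟨3, 3, []⟩], [3, 3, 12, 12], 2, [(5, 1), (6, 1), (40, 1), (45, 2), (46, 2)]⟩,
⟨0, [⟨24, 2, []⟩, ⟨5, 4, []⟩], [3, 1, 1], 1, [(9, 1), (12, 1), (17, 1), (20, 1)]⟩,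
⟨0, [⟨17, 3, []⟩, ⟨2, 3, []⟩], [3, 3], 1, [(3, 1), (18, 1)]⟩,
⟨0, [⟨10, 3, []⟩, ⟨36, 3, []⟩], [3, 3], 1, [(6, 1), (12, 1), (34, 1), (40, 1)]⟩,
⟨0, [⟨33, 4, []⟩, ⟨6, 2, []⟩], [3, 2, 2], 1, [(3, 1), (5, 1), (34, 1), (36, 1)]⟩,
⟨0, [⟨9, 4, []⟩, ⟨16, 2, []⟩], [3, 2, 2], 1, [(17, 1), (24, 1)]⟩,
⟨1, [⟨8, 3, []⟩, ⟨16, 3, []⟩, ⟨5, 4, []⟩, ⟨2, 2, []⟩], [3, 3, 12, 8, 8], 2, [(3, 1), (6, 1), (24, 1), (27, 2), (30, 2)]⟩,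
⟨0, [⟨20, 3, []⟩, ⟨8, 3, []⟩], [3, 3], 1, [(12, 1), (24, 1)]⟩,
⟨1, [⟨1, 3, []⟩, ⟨4, 3, []⟩, ⟨32, 4, []⟩, ⟨16, 2, []⟩], [3, 3, 12, 8, 8], 2, [(5, 1), (48, 1), (53, 2)]⟩,
⟨0, [⟨4, 4, []⟩, ⟨1, 2, []⟩], [3, 2, 2], 1, [(5, 1)]⟩,
⟨1, [⟨2, 2, []⟩, ⟨44, 5, []⟩, ⟨16, 3, []⟩, ⟨0, 0, [(36, 2)]⟩], [9, 9, 9, 4, 4], 2, [(20, 1), (24, 1), (38, 1), (48, 1), (54, 2)]⟩,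
⟨1, [⟨33, 4, []⟩, ⟨2, 4, []⟩], [3], 1, [(3, 1), (34, 1)]⟩,
⟨1, [⟨4, 2, []⟩, ⟨18, 5, []⟩, ⟨8, 3, []⟩, ⟨0, 0, [(34, 2)]⟩], [9, 9, 9, 4, 4], 2, [(10, 1), (24, 1), (38, 1), (46, 2)]⟩,
⟨1, [⟨8, 3, []⟩, ⟨32, 3, []⟩, ⟨4, 4, []⟩, ⟨0, 0, [(3, 2)]⟩], [3, 3, 12, 8, 8], 2, [(7, 1), (40, 1), (47, 2)]⟩,
⟨0, [⟨8, 3, []⟩, ⟨32, 3, []⟩], [3, 3], 1, [(40, 1)]⟩,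
⟨1, [⟨33, 4, []⟩, ⟨18, 4, []⟩], [3], 1, [(3, 1), (17, 1), (34, 1), (48, 1)]⟩,
⟨1, [⟨32, 2, []⟩, ⟨19, 5, []⟩, ⟨4, 3, []⟩, ⟨0, 0, [(18, 2)]⟩], [9, 9, 9, 4, 4], 2, [(5, 1), (6, 1), (20, 1), (50, 1), (54, 2)]⟩,
⟨1, [⟨33, 4, []⟩, ⟨10, 4, []⟩], [3], 1, [(3, 1), (9, 1), (34, 1), (40, 1)]⟩,
⟨1, [⟨12, 4, []⟩, ⟨3, 4, []⟩], [3], 1, [(5, 1), (6, 1), (9, 1), (10, 1)]⟩,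
⟨1, [⟨32, 2, []⟩, ⟨22, 5, []⟩, ⟨1, 3, []⟩, ⟨0, 0, [(18, 2)]⟩], [9, 9, 9, 4, 4], 2, [(3, 1), (5, 1), (17, 1), (50, 1), (51, 2)]⟩,
⟨1, [⟨2, 3, []⟩, ⟨4, 3, []⟩, ⟨16, 4, []⟩, ⟨32, 2, []⟩], [3, 3, 12, 8, 8], 2, [(6, 1), (48, 1), (54, 2)]⟩,
⟨1, [⟨34, 4, []⟩, ⟨1, 4, []⟩], [3], 1, [(3, 1), (33, 1)]⟩,
⟨0, [⟨18, 3, []⟩, ⟨36, 3, []⟩], [3, 3], 1, [(6, 1), (20, 1), (34, 1), (48, 1)]⟩,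
⟨0, [⟨49, 4, []⟩, ⟨2, 2, []⟩], [3, 2, 2], 1, [(3, 1), (18, 1), (34, 1)]⟩,
⟨1, [⟨2, 3, []⟩, ⟨4, 3, []⟩, ⟨40, 4, []⟩, ⟨16, 2, []⟩], [3, 3, 12, 8, 8], 2, [(6, 1), (24, 1), (30, 2), (48, 1), (54, 2)]⟩,
⟨1, [⟨1, 3, []⟩, ⟨4, 3, []⟩, ⟨16, 4, []⟩, ⟨0, 0, [(40, 2)]⟩], [3, 3, 12, 8, 8], 2, [(5, 1), (56, 1), (61, 2)]⟩,
⟨1, [⟨2, 4, []⟩, ⟨16, 4, []⟩], [3], 1, [(18, 1)]⟩,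
⟨1, [⟨1, 3, []⟩, ⟨2, 3, []⟩, ⟨16, 3, []⟩, ⟨32, 3, []⟩], [3, 3, 12, 12], 2, [(3, 1), (48, 1), (51, 2)]⟩,
⟨0, [⟨24, 4, []⟩, ⟨32, 2, []⟩], [3, 2, 2], 1, [(40, 1), (48, 1)]⟩,
⟨0, [⟨40, 2, []⟩, ⟨6, 4, []⟩], [3, 1, 1], 1, [(10, 1), (12, 1), (34, 1), (36, 1)]⟩,
⟨1, [⟨2, 4, []⟩, ⟨8, 4, []⟩], [3], 1, [(10, 1)]⟩,
⟨0, [⟨19, 4, []⟩, ⟨4, 2, []⟩], [3, 2, 2], 1, [(5, 1), (6, 1), (20, 1)]⟩,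
⟨1, [⟨9, 4, []⟩, ⟨18, 4, []⟩], [3], 1, [(3, 1), (10, 1), (17, 1), (24, 1)]⟩,
⟨1, [⟨16, 3, []⟩, ⟨40, 3, []⟩, ⟨1, 4, []⟩, ⟨0, 0, [(6, 2)]⟩], [3, 3, 12, 8, 8], 2, [(7, 1), (24, 1), (31, 2), (48, 1), (55, 2)]⟩,
⟨1, [⟨8, 3, []⟩, ⟨16, 3, []⟩, ⟨4, 3, []⟩, ⟨3, 3, []⟩], [3, 3, 12, 12], 2, [(5, 1), (6, 1), (24, 1), (29, 2), (30, 2)]⟩,
⟨0, [⟨17, 3, []⟩, ⟨32, 3, []⟩], [3, 3], 1, [(33, 1), (48, 1)]⟩,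
⟨0, [⟨21, 4, []⟩, ⟨8, 2, []⟩], [3, 2, 2], 1, [(9, 1), (12, 1), (24, 1)]⟩,
⟨0, [⟨33, 3, []⟩, ⟨8, 3, []⟩], [3, 3], 1, [(9, 1), (40, 1)]⟩,
⟨1, [⟨4, 2, []⟩, ⟨33, 5, []⟩, ⟨8, 3, []⟩, ⟨0, 0, [(17, 2)]⟩], [9, 9, 9, 4, 4], 2, [(9, 1), (21, 1), (29, 2), (40, 1)]⟩,
⟨0, [⟨3, 4, []⟩, ⟨4, 2, []⟩], [3, 2, 2], 1, [(5, 1), (6, 1)]⟩,
⟨0, [⟨40, 2, []⟩, ⟨5, 4, []⟩], [3, 1, 1], 1, [(9, 1), (12, 1), (33, 1), (36, 1)]⟩,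
⟨1, [⟨0, 0, [(34, 3)]⟩, ⟨24, 5, []⟩, ⟨1, 2, []⟩, ⟨4, 2, []⟩], [1, 1, 12, 12, 12], 2, [(13, 1), (21, 1), (42, 1), (47, 2), (50, 1), (55, 2)]⟩,
⟨1, [⟨17, 4, []⟩, ⟨8, 4, []⟩], [3], 1, [(9, 1), (24, 1)]⟩,
⟨1, [⟨4, 3, []⟩, ⟨2, 2, []⟩, ⟨40, 4, []⟩, ⟨16, 3, []⟩], [3, 3, 6, 8, 8], 2, [(14, 1), (20, 1), (24, 1), (30, 2), (38, 1), (48, 1), (54, 2)]⟩,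
⟨1, [⟨8, 3, []⟩, ⟨32, 3, []⟩, ⟨0, 0, [(20, 2)]⟩, ⟨3, 4, []⟩], [3, 3, 12, 4, 4], 2, [(21, 1), (22, 1), (40, 1), (61, 2), (62, 2)]⟩,
⟨1, [⟨4, 3, []⟩, ⟨3, 3, []⟩, ⟨8, 4, []⟩, ⟨0, 0, [(48, 2)]⟩], [3, 3, 12, 8, 8], 2, [(5, 1), (6, 1), (56, 1), (61, 2), (62, 2)]⟩,
⟨1, [⟨16, 3, []⟩, ⟨0, 0, [(40, 3)]⟩, ⟨1, 4, []⟩, ⟨4, 2, []⟩], [3, 3, 12, 8, 8], 2, [(5, 1), (56, 1), (61, 2)]⟩,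
⟨1, [⟨17, 4, []⟩, ⟨34, 4, []⟩], [3], 1, [(3, 1), (18, 1), (33, 1), (48, 1)]⟩,
⟨0, [⟨34, 4, []⟩, ⟨8, 2, []⟩], [3, 2, 2], 1, [(10, 1), (40, 1)]⟩,
⟨0, [⟨13, 4, []⟩, ⟨32, 2, []⟩], [3, 2, 2], 1, [(33, 1), (36, 1), (40, 1)]⟩,
⟨1, [⟨18, 4, []⟩, ⟨12, 4, []⟩], [3], 1, [(6, 1), (10, 1), (20, 1), (24, 1)]⟩,
⟨0, [⟨34, 3, []⟩, ⟨8, 3, []⟩], [3, 3], 1, [(10, 1), (40, 1)]⟩,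
⟨1, [⟨20, 4, []⟩, ⟨3, 4, []⟩], [3], 1, [(5, 1), (6, 1), (17, 1), (18, 1)]⟩,
⟨1, [⟨1, 3, []⟩, ⟨2, 3, []⟩, ⟨8, 4, []⟩, ⟨32, 2, []⟩], [3, 3, 12, 8, 8], 2, [(3, 1), (40, 1), (43, 2)]⟩,
⟨1, [⟨0, 0, [(18, 3)]⟩, ⟨5, 5, []⟩, ⟨8, 2, []⟩, ⟨32, 2, []⟩], [1, 1, 12, 12, 12], 2, [(19, 1), (22, 1), (41, 1), (44, 1), (59, 2), (62, 2)]⟩,
⟨1, [⟨0, 0, [(33, 3)]⟩, ⟨24, 5, []⟩, ⟨2, 2, []⟩, ⟨4, 2, []⟩], [1, 1, 12, 12, 12], 2, [(14, 1), (22, 1), (41, 1), (47, 2), (49, 1), (55, 2)]⟩,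
⟨1, [⟨33, 4, []⟩, ⟨4, 4, []⟩], [3], 1, [(5, 1), (36, 1)]⟩,
⟨1, [⟨0, 0, [(36, 3)]⟩, ⟨24, 5, []⟩, ⟨1, 2, []⟩, ⟨2, 2, []⟩], [1, 1, 12, 12, 12], 2, [(11, 1), (19, 1), (44, 1), (47, 2), (52, 1), (55, 2)]⟩,
⟨0, [⟨18, 4, []⟩, ⟨32, 2, []⟩], [3, 2, 2], 1, [(34, 1), (48, 1)]⟩,
⟨0, [⟨3, 2, []⟩, ⟨40, 4, []⟩], [3, 1, 1], 1, [(9, 1), (10, 1), (33, 1), (34, 1)]⟩,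
⟨1, [⟨1, 3, []⟩, ⟨2, 3, []⟩, ⟨8, 3, []⟩, ⟨32, 3, []⟩], [3, 3, 12, 12], 2, [(3, 1), (40, 1), (43, 2)]⟩,
⟨1, [⟨10, 4, []⟩, ⟨16, 4, []⟩], [3], 1, [(18, 1), (24, 1)]⟩,
⟨0, [⟨16, 3, []⟩, ⟨7, 3, []⟩], [3, 3], 1, [(17, 1), (18, 1), (20, 1)]⟩,
⟨0, [⟨9, 4, []⟩, ⟨2, 2, []⟩], [3, 2, 2], 1, [(3, 1), (10, 1)]⟩,
⟨0, [⟨34, 3, []⟩, ⟨16, 3, []⟩], [3, 3], 1, [(18, 1), (48, 1)]⟩,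
⟨1, [⟨4, 3, []⟩, ⟨0, 0, [(3, 3)]⟩, ⟨8, 4, []⟩, ⟨16, 2, []⟩], [3, 3, 12, 8, 8], 2, [(7, 1), (24, 1), (31, 2)]⟩,
⟨0, [⟨19, 4, []⟩, ⟨8, 2, []⟩], [3, 2, 2], 1, [(9, 1), (10, 1), (24, 1)]⟩,
⟨1, [⟨2, 2, []⟩, ⟨12, 5, []⟩, ⟨32, 3, []⟩, ⟨0, 0, [(20, 2)]⟩], [9, 9, 9, 4, 4], 2, [(22, 1), (36, 1), (40, 1), (54, 2)]⟩,
⟨1, [⟨17, 4, []⟩, ⟨6, 4, []⟩], [3], 1, [(3, 1), (5, 1), (18, 1), (20, 1)]⟩,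
⟨0, [⟨33, 4, []⟩, ⟨4, 2, []⟩], [3, 2, 2], 1, [(5, 1), (36, 1)]⟩,
⟨0, [⟨41, 4, []⟩, ⟨2, 2, []⟩], [3, 2, 2], 1, [(3, 1), (10, 1), (34, 1)]⟩,
⟨1, [⟨2, 3, []⟩, ⟨4, 3, []⟩, ⟨48, 4, []⟩, ⟨8, 2, []⟩], [3, 3, 12, 8, 8], 2, [(6, 1), (24, 1), (30, 2), (40, 1), (46, 2)]⟩,
⟨0, [⟨13, 4, []⟩, ⟨2, 2, []⟩], [3, 2, 2], 1, [(3, 1), (6, 1), (10, 1)]⟩,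
⟨1, [⟨9, 4, []⟩, ⟨32, 4, []⟩], [3], 1, [(33, 1), (40, 1)]⟩,
⟨1, [⟨9, 4, []⟩, ⟨34, 4, []⟩], [3], 1, [(3, 1), (10, 1), (33, 1), (40, 1)]⟩,
⟨1, [⟨16, 2, []⟩, ⟨33, 5, []⟩, ⟨2, 3, []⟩, ⟨0, 0, [(36, 2)]⟩], [9, 9, 9, 4, 4], 2, [(3, 1), (34, 1), (52, 1), (54, 2)]⟩,
⟨0, [⟨20, 4, []⟩, ⟨32, 2, []⟩], [3, 2, 2], 1, [(36, 1), (48, 1)]⟩,
⟨0, [⟨1, 2, []⟩, ⟨2, 2, []⟩, ⟨16, 2, []⟩, ⟨32, 2, []⟩], [3, 3, 3, 12, 12, 12], 2, [(3, 1), (48, 1), (51, 2)]⟩,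
⟨0, [⟨40, 3, []⟩, ⟨16, 3, []⟩], [3, 3], 1, [(24, 1), (48, 1)]⟩,
⟨0, [⟨17, 3, []⟩, ⟨4, 3, []⟩], [3, 3], 1, [(5, 1), (20, 1)]⟩,
⟨1, [⟨0, 0, [(20, 3)]⟩, ⟨3, 5, []⟩, ⟨8, 2, []⟩, ⟨32, 2, []⟩], [1, 1, 12, 12, 12], 2, [(21, 1), (22, 1), (41, 1), (42, 1), (61, 2), (62, 2)]⟩,
⟨1, [⟨12, 4, []⟩, ⟨32, 4, []⟩], [3], 1, [(36, 1), (40, 1)]⟩,
⟨1, [⟨2, 3, []⟩, ⟨0, 0, [(5, 3)]⟩, ⟨32, 4, []⟩, ⟨16, 2, []⟩], [3, 3, 12, 8, 8], 2, [(7, 1), (48, 1), (55, 2)]⟩,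
⟨0, [⟨18, 4, []⟩, ⟨5, 2, []⟩], [3, 2, 2], 1, [(3, 1), (6, 1), (17, 1), (20, 1)]⟩,
⟨1, [⟨8, 3, []⟩, ⟨48, 3, []⟩, ⟨2, 4, []⟩, ⟨0, 0, [(5, 2)]⟩], [3, 3, 12, 8, 8], 2, [(7, 1), (24, 1), (31, 2), (40, 1), (47, 2)]⟩,
⟨1, [⟨3, 5, []⟩, ⟨4, 3, []⟩, ⟨8, 2, []⟩, ⟨16, 2, []⟩], [2, 2, 12, 12, 12], 2, [(5, 1), (6, 1), (25, 1), (26, 1), (29, 2), (30, 2)]⟩,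
⟨1, [⟨8, 3, []⟩, ⟨0, 0, [(48, 3)]⟩, ⟨4, 4, []⟩, ⟨2, 2, []⟩], [3, 3, 12, 8, 8], 2, [(6, 1), (56, 1), (62, 2)]⟩,
⟨1, [⟨2, 2, []⟩, ⟨33, 5, []⟩, ⟨16, 3, []⟩, ⟨0, 0, [(9, 2)]⟩], [9, 9, 9, 4, 4], 2, [(11, 1), (17, 1), (27, 2), (48, 1)]⟩,
⟨1, [⟨4, 2, []⟩, ⟨10, 5, []⟩, ⟨32, 3, []⟩, ⟨0, 0, [(18, 2)]⟩], [9, 9, 9, 4, 4], 2, [(22, 1), (34, 1), (40, 1), (54, 2)]⟩,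
⟨0, [⟨8, 4, []⟩, ⟨32, 2, []⟩], [3, 2, 2], 1, [(40, 1)]⟩,
⟨0, [⟨36, 3, []⟩, ⟨8, 3, []⟩], [3, 3], 1, [(12, 1), (40, 1)]⟩,
⟨0, [⟨34, 4, []⟩, ⟨16, 2, []⟩], [3, 2, 2], 1, [(18, 1), (48, 1)]⟩,
⟨1, [⟨8, 3, []⟩, ⟨16, 3, []⟩, ⟨2, 4, []⟩, ⟨0, 0, [(5, 2)]⟩], [3, 3, 12, 8, 8], 2, [(7, 1), (24, 1), (31, 2)]⟩,
⟨0, [⟨40, 4, []⟩, ⟨16, 2, []⟩], [3, 2, 2], 1, [(24, 1), (48, 1)]⟩,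
⟨1, [⟨4, 2, []⟩, ⟨17, 5, []⟩, ⟨32, 3, []⟩, ⟨0, 0, [(9, 2)]⟩], [9, 9, 9, 4, 4], 2, [(13, 1), (33, 1), (45, 2), (48, 1)]⟩,
⟨1, [⟨2, 3, []⟩, ⟨0, 0, [(5, 3)]⟩, ⟨16, 4, []⟩, ⟨8, 2, []⟩], [3, 3, 12, 8, 8], 2, [(7, 1), (24, 1), (31, 2)]⟩,
⟨1, [⟨34, 4, []⟩, ⟨24, 4, []⟩], [3], 1, [(10, 1), (18, 1), (40, 1), (48, 1)]⟩,
⟨1, [⟨32, 2, []⟩, ⟨13, 5, []⟩, ⟨2, 3, []⟩, ⟨0, 0, [(12, 2)]⟩], [9, 9, 9, 4, 4], 2, [(3, 1), (6, 1), (10, 1), (44, 1), (46, 2)]⟩,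
⟨1, [⟨0, 0, [(9, 3)]⟩, ⟨48, 5, []⟩, ⟨2, 2, []⟩, ⟨4, 2, []⟩], [1, 1, 12, 12, 12], 2, [(22, 1), (25, 1), (31, 2), (38, 1), (41, 1), (47, 2)]⟩,
⟨1, [⟨18, 4, []⟩, ⟨8, 4, []⟩], [3], 1, [(10, 1), (24, 1)]⟩,
⟨0, [⟨12, 4, []⟩, ⟨3, 2, []⟩], [3, 2, 2], 1, [(5, 1), (6, 1), (9, 1), (10, 1)]⟩,
⟨1, [⟨36, 4, []⟩, ⟨8, 4, []⟩], [3], 1, [(12, 1), (40, 1)]⟩,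
⟨1, [⟨8, 3, []⟩, ⟨32, 3, []⟩, ⟨3, 4, []⟩, ⟨4, 2, []⟩], [3, 3, 12, 8, 8], 2, [(5, 1), (6, 1), (40, 1), (45, 2), (46, 2)]⟩,
⟨1, [⟨0, 0, [(9, 3)]⟩, ⟨6, 5, []⟩, ⟨16, 2, []⟩, ⟨32, 2, []⟩], [1, 1, 12, 12, 12], 2, [(11, 1), (13, 1), (50, 1), (52, 1), (59, 2), (61, 2)]⟩,
⟨1, [⟨32, 2, []⟩, ⟨17, 5, []⟩, ⟨2, 3, []⟩, ⟨0, 0, [(20, 2)]⟩], [9, 9, 9, 4, 4], 2, [(3, 1), (18, 1), (52, 1), (54, 2)]⟩,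
⟨0, [⟨36, 4, []⟩, ⟨8, 2, []⟩], [3, 2, 2], 1, [(12, 1), (40, 1)]⟩,
⟨0, [⟨9, 4, []⟩, ⟨48, 2, []⟩], [3, 2, 2], 1, [(17, 1), (24, 1), (33, 1), (40, 1)]⟩,
⟨0, [⟨22, 4, []⟩, ⟨1, 2, []⟩], [3, 2, 2], 1, [(3, 1), (5, 1), (17, 1)]⟩,
⟨1, [⟨33, 4, []⟩, ⟨24, 4, []⟩], [3], 1, [(9, 1), (17, 1), (40, 1), (48, 1)]⟩,
⟨0, [⟨33, 3, []⟩, ⟨16, 3, []⟩], [3, 3], 1, [(17, 1), (48, 1)]⟩,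
⟨1, [⟨8, 3, []⟩, ⟨16, 3, []⟩, ⟨32, 3, []⟩, ⟨3, 5, []⟩, ⟨4, 3, []⟩], [7, 7, 16, 16], 2, [(5, 1), (6, 1), (57, 1), (58, 1), (61, 2), (62, 2)]⟩,
⟨1, [⟨4, 3, []⟩, ⟨3, 3, []⟩, ⟨16, 4, []⟩, ⟨0, 0, [(40, 2)]⟩], [3, 3, 12, 8, 8], 2, [(5, 1), (6, 1), (56, 1), (61, 2), (62, 2)]⟩,
⟨0, [⟨8, 3, []⟩, ⟨7, 3, []⟩], [3, 3], 1, [(9, 1), (10, 1), (12, 1)]⟩,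
⟨0, [⟨2, 4, []⟩, ⟨4, 2, []⟩], [3, 2, 2], 1, [(6, 1)]⟩,
⟨1, [⟨36, 4, []⟩, ⟨16, 4, []⟩], [3], 1, [(20, 1), (48, 1)]⟩,
⟨1, [⟨32, 3, []⟩, ⟨24, 3, []⟩, ⟨2, 4, []⟩, ⟨0, 0, [(5, 2)]⟩], [3, 3, 12, 8, 8], 2, [(7, 1), (40, 1), (47, 2), (48, 1), (55, 2)]⟩,
⟨1, [⟨16, 3, []⟩, ⟨32, 3, []⟩, ⟨4, 4, []⟩, ⟨1, 2, []⟩], [3, 3, 12, 8, 8], 2, [(5, 1), (48, 1), (53, 2)]⟩,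
⟨0, [⟨10, 4, []⟩, ⟨16, 2, []⟩], [3, 2, 2], 1, [(18, 1), (24, 1)]⟩,
⟨1, [⟨1, 3, []⟩, ⟨4, 3, []⟩, ⟨16, 3, []⟩, ⟨32, 3, []⟩], [3, 3, 12, 12], 2, [(5, 1), (48, 1), (53, 2)]⟩,
⟨1, [⟨17, 4, []⟩, ⟨36, 4, []⟩], [3], 1, [(5, 1), (20, 1), (33, 1), (48, 1)]⟩,
⟨1, [⟨8, 3, []⟩, ⟨32, 3, []⟩, ⟨1, 4, []⟩, ⟨4, 2, []⟩], [3, 3, 12, 8, 8], 2, [(5, 1), (40, 1), (45, 2)]⟩,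
⟨1, [⟨9, 4, []⟩, ⟨36, 4, []⟩], [3], 1, [(5, 1), (12, 1), (33, 1), (40, 1)]⟩,
⟨1, [⟨18, 4, []⟩, ⟨32, 4, []⟩], [3], 1, [(34, 1), (48, 1)]⟩,
⟨1, [⟨8, 3, []⟩, ⟨32, 3, []⟩, ⟨6, 4, []⟩, ⟨1, 2, []⟩], [3, 3, 12, 8, 8], 2, [(3, 1), (5, 1), (40, 1), (43, 2), (45, 2)]⟩,
⟨0, [⟨22, 4, []⟩, ⟨8, 2, []⟩], [3, 2, 2], 1, [(10, 1), (12, 1), (24, 1)]⟩,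
⟨1, [⟨2, 3, []⟩, ⟨0, 0, [(5, 3)]⟩, ⟨8, 4, []⟩, ⟨32, 2, []⟩], [3, 3, 12, 8, 8], 2, [(7, 1), (40, 1), (47, 2)]⟩,
⟨0, [⟨12, 4, []⟩, ⟨2, 2, []⟩], [3, 2, 2], 1, [(6, 1), (10, 1)]⟩,
⟨1, [⟨32, 2, []⟩, ⟨18, 5, []⟩, ⟨4, 3, []⟩, ⟨0, 0, [(17, 2)]⟩], [9, 9, 9, 4, 4], 2, [(6, 1), (20, 1), (49, 1), (53, 2)]⟩,
⟨0, [⟨38, 4, []⟩, ⟨8, 2, []⟩], [3, 2, 2], 1, [(10, 1), (12, 1), (40, 1)]⟩,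
⟨1, [⟨17, 4, []⟩, ⟨32, 4, []⟩], [3], 1, [(33, 1), (48, 1)]⟩,
⟨1, [⟨16, 3, []⟩, ⟨0, 0, [(40, 3)]⟩, ⟨4, 4, []⟩, ⟨2, 2, []⟩], [3, 3, 12, 8, 8], 2, [(6, 1), (56, 1), (62, 2)]⟩,
⟨0, [⟨9, 4, []⟩, ⟨4, 2, []⟩], [3, 2, 2], 1, [(5, 1), (12, 1)]⟩,
⟨1, [⟨1, 3, []⟩, ⟨0, 0, [(6, 3)]⟩, ⟨32, 4, []⟩, ⟨8, 2, []⟩], [3, 3, 12, 8, 8], 2, [(7, 1), (40, 1), (47, 2)]⟩,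
⟨0, [⟨36, 3, []⟩, ⟨16, 3, []⟩], [3, 3], 1, [(20, 1), (48, 1)]⟩,
⟨0, [⟨38, 4, []⟩, ⟨1, 2, []⟩], [3, 2, 2], 1, [(3, 1), (5, 1), (33, 1)]⟩,
⟨1, [⟨2, 3, []⟩, ⟨4, 3, []⟩, ⟨16, 4, []⟩, ⟨8, 2, []⟩], [3, 3, 12, 8, 8], 2, [(6, 1), (24, 1), (30, 2)]⟩,
⟨0, [⟨18, 3, []⟩, ⟨8, 3, []⟩], [3, 3], 1, [(10, 1), (24, 1)]⟩,
⟨1, [⟨16, 2, []⟩, ⟨13, 5, []⟩, ⟨2, 3, []⟩, ⟨0, 0, [(12, 2)]⟩], [9, 9, 9, 4, 4], 2, [(3, 1), (6, 1), (10, 1), (28, 1), (30, 2)]⟩,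
⟨1, [⟨1, 3, []⟩, ⟨2, 3, []⟩, ⟨0, 0, [(36, 2)]⟩, ⟨24, 4, []⟩], [3, 3, 12, 4, 4], 2, [(3, 1), (44, 1), (47, 2), (52, 1), (55, 2)]⟩,
⟨0, [⟨16, 3, []⟩, ⟨32, 3, []⟩], [3, 3], 1, [(48, 1)]⟩,
⟨0, [⟨35, 4, []⟩, ⟨16, 2, []⟩], [3, 2, 2], 1, [(17, 1), (18, 1), (48, 1)]⟩,
⟨1, [⟨1, 3, []⟩, ⟨6, 3, []⟩, ⟨32, 4, []⟩, ⟨0, 0, [(24, 2)]⟩], [3, 3, 12, 8, 8], 2, [(3, 1), (5, 1), (56, 1), (59, 2), (61, 2)]⟩,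
⟨1, [⟨8, 2, []⟩, ⟨38, 5, []⟩, ⟨1, 3, []⟩, ⟨0, 0, [(34, 2)]⟩], [9, 9, 9, 4, 4], 2, [(3, 1), (5, 1), (33, 1), (42, 1), (43, 2)]⟩,
⟨1, [⟨33, 4, []⟩, ⟨12, 4, []⟩], [3], 1, [(5, 1), (9, 1), (36, 1), (40, 1)]⟩,
⟨0, [⟨42, 4, []⟩, ⟨1, 2, []⟩], [3, 2, 2], 1, [(3, 1), (9, 1), (33, 1)]⟩,
⟨0, [⟨14, 4, []⟩, ⟨1, 2, []⟩], [3, 2, 2], 1, [(3, 1), (5, 1), (9, 1)]⟩,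
⟨1, [⟨8, 3, []⟩, ⟨0, 0, [(48, 3)]⟩, ⟨1, 4, []⟩, ⟨2, 2, []⟩], [3, 3, 12, 8, 8], 2, [(3, 1), (56, 1), (59, 2)]⟩,
⟨1, [⟨24, 5, []⟩, ⟨32, 3, []⟩, ⟨2, 2, []⟩, ⟨4, 2, []⟩], [2, 2, 12, 12, 12], 2, [(14, 1), (22, 1), (40, 1), (46, 2), (48, 1), (54, 2)]⟩,
⟨1, [⟨16, 3, []⟩, ⟨32, 3, []⟩, ⟨4, 4, []⟩, ⟨0, 0, [(3, 2)]⟩], [3, 3, 12, 8, 8], 2, [(7, 1), (48, 1), (55, 2)]⟩,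
⟨0, [⟨25, 4, []⟩, ⟨32, 2, []⟩], [3, 2, 2], 1, [(33, 1), (40, 1), (48, 1)]⟩,
⟨1, [⟨33, 4, []⟩, ⟨8, 4, []⟩], [3], 1, [(9, 1), (40, 1)]⟩,
⟨1, [⟨34, 4, []⟩, ⟨5, 4, []⟩], [3], 1, [(3, 1), (6, 1), (33, 1), (36, 1)]⟩,
⟨1, [⟨8, 3, []⟩, ⟨16, 3, []⟩, ⟨32, 3, []⟩, ⟨6, 5, []⟩, ⟨1, 3, []⟩], [7, 7, 16, 16], 2, [(3, 1), (5, 1), (58, 1), (59, 2), (60, 1), (61, 2)]⟩,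
⟨1, [⟨1, 3, []⟩, ⟨2, 3, []⟩, ⟨8, 4, []⟩, ⟨0, 0, [(48, 2)]⟩], [3, 3, 12, 8, 8], 2, [(3, 1), (56, 1), (59, 2)]⟩,
⟨0, [⟨36, 4, []⟩, ⟨1, 2, []⟩], [3, 2, 2], 1, [(5, 1), (33, 1)]⟩,
⟨1, [⟨32, 3, []⟩, ⟨8, 2, []⟩, ⟨5, 4, []⟩, ⟨2, 3, []⟩], [3, 3, 6, 8, 8], 2, [(3, 1), (6, 1), (34, 1), (41, 1), (43, 2), (44, 1), (46, 2)]⟩,
⟨0, [⟨2, 2, []⟩, ⟨4, 2, []⟩, ⟨16, 2, []⟩, ⟨32, 2, []⟩], [3, 3, 3, 12, 12, 12], 2, [(6, 1), (48, 1), (54, 2)]⟩,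
⟨0, [⟨34, 3, []⟩, ⟨20, 3, []⟩], [3, 3], 1, [(6, 1), (18, 1), (36, 1), (48, 1)]⟩,
⟨1, [⟨5, 5, []⟩, ⟨2, 3, []⟩, ⟨8, 2, []⟩, ⟨16, 2, []⟩], [2, 2, 12, 12, 12], 2, [(3, 1), (6, 1), (25, 1), (27, 2), (28, 1), (30, 2)]⟩,
⟨1, [⟨12, 4, []⟩, ⟨16, 4, []⟩], [3], 1, [(20, 1), (24, 1)]⟩,
⟨1, [⟨2, 3, []⟩, ⟨4, 3, []⟩, ⟨32, 4, []⟩, ⟨8, 2, []⟩], [3, 3, 12, 8, 8], 2, [(6, 1), (40, 1), (46, 2)]⟩,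
⟨1, [⟨1, 2, []⟩, ⟨10, 5, []⟩, ⟨16, 3, []⟩, ⟨0, 0, [(34, 2)]⟩], [9, 9, 9, 4, 4], 2, [(18, 1), (24, 1), (35, 1), (51, 2)]⟩,
⟨1, [⟨8, 3, []⟩, ⟨16, 3, []⟩, ⟨6, 4, []⟩, ⟨1, 2, []⟩], [3, 3, 12, 8, 8], 2, [(3, 1), (5, 1), (24, 1), (27, 2), (29, 2)]⟩,
⟨1, [⟨8, 3, []⟩, ⟨16, 3, []⟩, ⟨2, 4, []⟩, ⟨4, 2, []⟩], [3, 3, 12, 8, 8], 2, [(6, 1), (24, 1), (30, 2)]⟩,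
⟨0, [⟨3, 2, []⟩, ⟨24, 4, []⟩], [3, 1, 1], 1, [(9, 1), (10, 1), (17, 1), (18, 1)]⟩,
⟨1, [⟨0, 0, [(18, 3)]⟩, ⟨40, 5, []⟩, ⟨1, 2, []⟩, ⟨4, 2, []⟩], [1, 1, 12, 12, 12], 2, [(13, 1), (26, 1), (31, 2), (37, 1), (50, 1), (55, 2)]⟩,
⟨0, [⟨36, 3, []⟩, ⟨2, 3, []⟩], [3, 3], 1, [(6, 1), (34, 1)]⟩,
⟨1, [⟨1, 3, []⟩, ⟨4, 3, []⟩, ⟨16, 4, []⟩, ⟨32, 2, []⟩], [3, 3, 12, 8, 8], 2, [(5, 1), (48, 1), (53, 2)]⟩,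
⟨1, [⟨32, 3, []⟩, ⟨0, 0, [(24, 3)]⟩, ⟨2, 4, []⟩, ⟨4, 2, []⟩], [3, 3, 12, 8, 8], 2, [(6, 1), (56, 1), (62, 2)]⟩,
⟨1, [⟨4, 3, []⟩, ⟨0, 0, [(3, 3)]⟩, ⟨32, 4, []⟩, ⟨8, 2, []⟩], [3, 3, 12, 8, 8], 2, [(7, 1), (40, 1), (47, 2)]⟩,
⟨1, [⟨6, 5, []⟩, ⟨1, 3, []⟩, ⟨8, 2, []⟩, ⟨32, 2, []⟩], [2, 2, 12, 12, 12], 2, [(3, 1), (5, 1), (42, 1), (43, 2), (44, 1), (45, 2)]⟩,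
⟨1, [⟨4, 2, []⟩, ⟨18, 5, []⟩, ⟨32, 3, []⟩, ⟨0, 0, [(10, 2)]⟩], [9, 9, 9, 4, 4], 2, [(14, 1), (34, 1), (46, 2), (48, 1)]⟩,
⟨1, [⟨1, 3, []⟩, ⟨4, 2, []⟩, ⟨40, 4, []⟩, ⟨16, 3, []⟩], [3, 3, 6, 8, 8], 2, [(13, 1), (17, 1), (24, 1), (29, 2), (37, 1), (48, 1), (53, 2)]⟩,
⟨0, [⟨10, 3, []⟩, ⟨32, 3, []⟩], [3, 3], 1, [(34, 1), (40, 1)]⟩,
⟨1, [⟨18, 4, []⟩, ⟨4, 4, []⟩], [3], 1, [(6, 1), (20, 1)]⟩,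
⟨1, [⟨0, 0, [(12, 3)]⟩, ⟨3, 5, []⟩, ⟨16, 2, []⟩, ⟨32, 2, []⟩], [1, 1, 12, 12, 12], 2, [(13, 1), (14, 1), (49, 1), (50, 1), (61, 2), (62, 2)]⟩,
⟨1, [⟨8, 3, []⟩, ⟨32, 3, []⟩, ⟨0, 0, [(18, 2)]⟩, ⟨5, 4, []⟩], [3, 3, 12, 4, 4], 2, [(19, 1), (22, 1), (40, 1), (59, 2), (62, 2)]⟩,
⟨1, [⟨12, 4, []⟩, ⟨1, 4, []⟩], [3], 1, [(5, 1), (9, 1)]⟩,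
⟨1, [⟨16, 3, []⟩, ⟨32, 3, []⟩, ⟨0, 0, [(10, 2)]⟩, ⟨5, 4, []⟩], [3, 3, 12, 4, 4], 2, [(11, 1), (14, 1), (48, 1), (59, 2), (62, 2)]⟩,
⟨1, [⟨36, 4, []⟩, ⟨24, 4, []⟩], [3], 1, [(12, 1), (20, 1), (40, 1), (48, 1)]⟩,
⟨1, [⟨1, 3, []⟩, ⟨2, 3, []⟩, ⟨32, 4, []⟩, ⟨16, 2, []⟩], [3, 3, 12, 8, 8], 2, [(3, 1), (48, 1), (51, 2)]⟩,
⟨0, [⟨12, 4, []⟩, ⟨32, 2, []⟩], [3, 2, 2], 1, [(36, 1), (40, 1)]⟩,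
⟨0, [⟨1, 2, []⟩, ⟨4, 2, []⟩, ⟨8, 2, []⟩, ⟨16, 2, []⟩], [3, 3, 3, 12, 12, 12], 2, [(5, 1), (24, 1), (29, 2)]⟩,
⟨1, [⟨20, 4, []⟩, ⟨2, 4, []⟩], [3], 1, [(6, 1), (18, 1)]⟩,
⟨0, [⟨42, 4, []⟩, ⟨16, 2, []⟩], [3, 2, 2], 1, [(18, 1), (24, 1), (48, 1)]⟩,
⟨1, [⟨32, 2, []⟩, ⟨11, 5, []⟩, ⟨4, 3, []⟩, ⟨0, 0, [(10, 2)]⟩], [9, 9, 9, 4, 4], 2, [(5, 1), (6, 1), (12, 1), (42, 1), (46, 2)]⟩,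
⟨1, [⟨20, 4, []⟩, ⟨1, 4, []⟩], [3], 1, [(5, 1), (17, 1)]⟩,
⟨0, [⟨1, 3, []⟩, ⟨4, 3, []⟩], [3, 3], 1, [(5, 1)]⟩,
⟨1, [⟨6, 5, []⟩, ⟨1, 3, []⟩, ⟨16, 2, []⟩, ⟨32, 2, []⟩], [2, 2, 12, 12, 12], 2, [(3, 1), (5, 1), (50, 1), (51, 2), (52, 1), (53, 2)]⟩,
⟨1, [⟨2, 3, []⟩, ⟨5, 3, []⟩, ⟨16, 4, []⟩, ⟨0, 0, [(40, 2)]⟩], [3, 3, 12, 8, 8], 2, [(3, 1), (6, 1), (56, 1), (59, 2), (62, 2)]⟩,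
⟨1, [⟨2, 3, []⟩, ⟨4, 3, []⟩, ⟨8, 3, []⟩, ⟨32, 3, []⟩], [3, 3, 12, 12], 2, [(6, 1), (40, 1), (46, 2)]⟩,
⟨1, [⟨1, 3, []⟩, ⟨4, 3, []⟩, ⟨8, 4, []⟩, ⟨16, 2, []⟩], [3, 3, 12, 8, 8], 2, [(5, 1), (24, 1), (29, 2)]⟩,
⟨1, [⟨8, 3, []⟩, ⟨32, 3, []⟩, ⟨4, 4, []⟩, ⟨2, 2, []⟩], [3, 3, 12, 8, 8], 2, [(6, 1), (40, 1), (46, 2)]⟩,
⟨1, [⟨18, 4, []⟩, ⟨40, 4, []⟩], [3], 1, [(10, 1), (24, 1), (34, 1), (48, 1)]⟩,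
⟨0, [⟨9, 3, []⟩, ⟨32, 3, []⟩], [3, 3], 1, [(33, 1), (40, 1)]⟩,
⟨1, [⟨2, 3, []⟩, ⟨4, 3, []⟩, ⟨0, 0, [(9, 2)]⟩, ⟨48, 4, []⟩], [3, 3, 12, 4, 4], 2, [(6, 1), (25, 1), (31, 2), (41, 1), (47, 2)]⟩,
⟨1, [⟨4, 2, []⟩, ⟨9, 5, []⟩, ⟨16, 3, []⟩, ⟨0, 0, [(33, 2)]⟩], [9, 9, 9, 4, 4], 2, [(17, 1), (24, 1), (37, 1), (53, 2)]⟩,
⟨1, [⟨16, 3, []⟩, ⟨32, 3, []⟩, ⟨1, 4, []⟩, ⟨4, 2, []⟩], [3, 3, 12, 8, 8], 2, [(5, 1), (48, 1), (53, 2)]⟩,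
⟨1, [⟨32, 3, []⟩, ⟨24, 3, []⟩, ⟨4, 4, []⟩, ⟨0, 0, [(3, 2)]⟩], [3, 3, 12, 8, 8], 2, [(7, 1), (40, 1), (47, 2), (48, 1), (55, 2)]⟩,
⟨0, [⟨24, 2, []⟩, ⟨3, 4, []⟩], [3, 1, 1], 1, [(9, 1), (10, 1), (17, 1), (18, 1)]⟩,
⟨1, [⟨9, 4, []⟩, ⟨4, 4, []⟩], [3], 1, [(5, 1), (12, 1)]⟩,
⟨0, [⟨36, 4, []⟩, ⟨16, 2, []⟩], [3, 2, 2], 1, [(20, 1), (48, 1)]⟩,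
⟨1, [⟨8, 3, []⟩, ⟨16, 3, []⟩, ⟨1, 4, []⟩, ⟨4, 2, []⟩], [3, 3, 12, 8, 8], 2, [(5, 1), (24, 1), (29, 2)]⟩,
⟨1, [⟨8, 3, []⟩, ⟨0, 0, [(48, 3)]⟩, ⟨1, 4, []⟩, ⟨4, 2, []⟩], [3, 3, 12, 8, 8], 2, [(5, 1), (56, 1), (61, 2)]⟩,
⟨0, [⟨34, 3, []⟩, ⟨4, 3, []⟩], [3, 3], 1, [(6, 1), (36, 1)]⟩,
⟨1, [⟨2, 3, []⟩, ⟨4, 3, []⟩, ⟨0, 0, [(17, 2)]⟩, ⟨40, 4, []⟩], [3, 3, 12, 4, 4], 2, [(6, 1), (25, 1), (31, 2), (49, 1), (55, 2)]⟩,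
⟨1, [⟨8, 3, []⟩, ⟨32, 3, []⟩, ⟨1, 4, []⟩, ⟨2, 2, []⟩], [3, 3, 12, 8, 8], 2, [(3, 1), (40, 1), (43, 2)]⟩,
⟨1, [⟨8, 3, []⟩, ⟨0, 0, [(48, 3)]⟩, ⟨2, 4, []⟩, ⟨1, 2, []⟩], [3, 3, 12, 8, 8], 2, [(3, 1), (56, 1), (59, 2)]⟩,
⟨1, [⟨1, 3, []⟩, ⟨4, 3, []⟩, ⟨8, 4, []⟩, ⟨32, 2, []⟩], [3, 3, 12, 8, 8], 2, [(5, 1), (40, 1), (45, 2)]⟩,
⟨1, [⟨1, 3, []⟩, ⟨4, 3, []⟩, ⟨16, 4, []⟩, ⟨8, 2, []⟩], [3, 3, 12, 8, 8], 2, [(5, 1), (24, 1), (29, 2)]⟩,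
⟨1, [⟨4, 4, []⟩, ⟨32, 4, []⟩], [3], 1, [(36, 1)]⟩,
⟨0, [⟨9, 3, []⟩, ⟨16, 3, []⟩], [3, 3], 1, [(17, 1), (24, 1)]⟩,
⟨1, [⟨10, 4, []⟩, ⟨32, 4, []⟩], [3], 1, [(34, 1), (40, 1)]⟩,
⟨1, [⟨10, 4, []⟩, ⟨48, 4, []⟩], [3], 1, [(18, 1), (24, 1), (34, 1), (40, 1)]⟩,
⟨0, [⟨52, 4, []⟩, ⟨1, 2, []⟩], [3, 2, 2], 1, [(5, 1), (17, 1), (33, 1)]⟩,
⟨1, [⟨24, 5, []⟩, ⟨32, 3, []⟩, ⟨1, 2, []⟩, ⟨2, 2, []⟩], [2, 2, 12, 12, 12], 2, [(11, 1), (19, 1), (40, 1), (43, 2), (48, 1), (51, 2)]⟩,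
⟨0, [⟨36, 4, []⟩, ⟨24, 2, []⟩], [3, 2, 2], 1, [(12, 1), (20, 1), (40, 1), (48, 1)]⟩,
⟨1, [⟨40, 5, []⟩, ⟨16, 3, []⟩, ⟨1, 2, []⟩, ⟨4, 2, []⟩], [2, 2, 12, 12, 12], 2, [(13, 1), (24, 1), (29, 2), (37, 1), (48, 1), (53, 2)]⟩,
⟨1, [⟨16, 3, []⟩, ⟨0, 0, [(40, 3)]⟩, ⟨2, 4, []⟩, ⟨4, 2, []⟩], [3, 3, 12, 8, 8], 2, [(6, 1), (56, 1), (62, 2)]⟩,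
⟨1, [⟨18, 4, []⟩, ⟨36, 4, []⟩], [3], 1, [(6, 1), (20, 1), (34, 1), (48, 1)]⟩,
⟨1, [⟨2, 3, []⟩, ⟨4, 3, []⟩, ⟨8, 4, []⟩, ⟨16, 2, []⟩], [3, 3, 12, 8, 8], 2, [(6, 1), (24, 1), (30, 2)]⟩,
⟨1, [⟨2, 3, []⟩, ⟨4, 3, []⟩, ⟨32, 4, []⟩, ⟨16, 2, []⟩], [3, 3, 12, 8, 8], 2, [(6, 1), (48, 1), (54, 2)]⟩,
⟨1, [⟨48, 5, []⟩, ⟨8, 3, []⟩, ⟨2, 2, []⟩, ⟨4, 2, []⟩], [2, 2, 12, 12, 12], 2, [(22, 1), (24, 1), (30, 2), (38, 1), (40, 1), (46, 2)]⟩,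
⟨0, [⟨48, 2, []⟩, ⟨3, 4, []⟩], [3, 1, 1], 1, [(17, 1), (18, 1), (33, 1), (34, 1)]⟩,
⟨0, [⟨6, 2, []⟩, ⟨40, 4, []⟩], [3, 1, 1], 1, [(10, 1), (12, 1), (34, 1), (36, 1)]⟩,
⟨1, [⟨8, 3, []⟩, ⟨32, 3, []⟩, ⟨2, 4, []⟩, ⟨4, 2, []⟩], [3, 3, 12, 8, 8], 2, [(6, 1), (40, 1), (46, 2)]⟩,
⟨1, [⟨8, 4, []⟩, ⟨48, 4, []⟩], [3], 1, [(24, 1), (40, 1)]⟩,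
⟨0, [⟨33, 4, []⟩, ⟨16, 2, []⟩], [3, 2, 2], 1, [(17, 1), (48, 1)]⟩,
⟨1, [⟨10, 4, []⟩, ⟨36, 4, []⟩], [3], 1, [(6, 1), (12, 1), (34, 1), (40, 1)]⟩,
⟨1, [⟨1, 3, []⟩, ⟨2, 3, []⟩, ⟨16, 4, []⟩, ⟨8, 2, []⟩], [3, 3, 12, 8, 8], 2, [(3, 1), (24, 1), (27, 2)]⟩,
⟨1, [⟨33, 4, []⟩, ⟨6, 4, []⟩], [3], 1, [(3, 1), (5, 1), (34, 1), (36, 1)]⟩,
⟨0, [⟨20, 4, []⟩, ⟨40, 2, []⟩], [3, 2, 2], 1, [(12, 1), (24, 1), (36, 1), (48, 1)]⟩,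
⟨1, [⟨8, 2, []⟩, ⟨34, 5, []⟩, ⟨1, 3, []⟩, ⟨0, 0, [(36, 2)]⟩], [9, 9, 9, 4, 4], 2, [(3, 1), (33, 1), (44, 1), (45, 2)]⟩,
⟨1, [⟨2, 3, []⟩, ⟨4, 3, []⟩, ⟨16, 4, []⟩, ⟨0, 0, [(40, 2)]⟩], [3, 3, 12, 8, 8], 2, [(6, 1), (56, 1), (62, 2)]⟩,
⟨1, [⟨8, 3, []⟩, ⟨16, 3, []⟩, ⟨4, 4, []⟩, ⟨0, 0, [(3, 2)]⟩], [3, 3, 12, 8, 8], 2, [(7, 1), (24, 1), (31, 2)]⟩,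
⟨1, [⟨1, 3, []⟩, ⟨6, 3, []⟩, ⟨16, 4, []⟩, ⟨0, 0, [(40, 2)]⟩], [3, 3, 12, 8, 8], 2, [(3, 1), (5, 1), (56, 1), (59, 2), (61, 2)]⟩,
⟨1, [⟨2, 2, []⟩, ⟨28, 5, []⟩, ⟨32, 3, []⟩, ⟨0, 0, [(12, 2)]⟩], [9, 9, 9, 4, 4], 2, [(14, 1), (36, 1), (40, 1), (46, 2), (48, 1)]⟩,
⟨0, [⟨18, 3, []⟩, ⟨1, 3, []⟩], [3, 3], 1, [(3, 1), (17, 1)]⟩,
⟨0, [⟨17, 4, []⟩, ⟨6, 2, []⟩], [3, 2, 2], 1, [(3, 1), (5, 1), (18, 1), (20, 1)]⟩,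
⟨1, [⟨32, 3, []⟩, ⟨0, 0, [(24, 3)]⟩, ⟨1, 4, []⟩, ⟨4, 2, []⟩], [3, 3, 12, 8, 8], 2, [(5, 1), (56, 1), (61, 2)]⟩,
⟨1, [⟨1, 3, []⟩, ⟨4, 3, []⟩, ⟨48, 4, []⟩, ⟨8, 2, []⟩], [3, 3, 12, 8, 8], 2, [(5, 1), (24, 1), (29, 2), (40, 1), (45, 2)]⟩,
⟨1, [⟨1, 3, []⟩, ⟨4, 3, []⟩, ⟨8, 3, []⟩, ⟨16, 3, []⟩], [3, 3, 12, 12], 2, [(5, 1), (24, 1), (29, 2)]⟩,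
⟨1, [⟨1, 3, []⟩, ⟨4, 3, []⟩, ⟨0, 0, [(34, 2)]⟩, ⟨24, 4, []⟩], [3, 3, 12, 4, 4], 2, [(5, 1), (42, 1), (47, 2), (50, 1), (55, 2)]⟩,
⟨1, [⟨2, 3, []⟩, ⟨5, 3, []⟩, ⟨32, 4, []⟩, ⟨0, 0, [(24, 2)]⟩], [3, 3, 12, 8, 8], 2, [(3, 1), (6, 1), (56, 1), (59, 2), (62, 2)]⟩,
⟨1, [⟨16, 3, []⟩, ⟨0, 0, [(40, 3)]⟩, ⟨2, 4, []⟩, ⟨1, 2, []⟩], [3, 3, 12, 8, 8], 2, [(3, 1), (56, 1), (59, 2)]⟩,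
⟨1, [⟨1, 4, []⟩, ⟨4, 4, []⟩], [3], 1, [(5, 1)]⟩,
⟨1, [⟨32, 3, []⟩, ⟨0, 0, [(24, 3)]⟩, ⟨2, 4, []⟩, ⟨1, 2, []⟩], [3, 3, 12, 8, 8], 2, [(3, 1), (56, 1), (59, 2)]⟩,
⟨1, [⟨40, 5, []⟩, ⟨16, 3, []⟩, ⟨1, 2, []⟩, ⟨2, 2, []⟩], [2, 2, 12, 12, 12], 2, [(11, 1), (24, 1), (27, 2), (35, 1), (48, 1), (51, 2)]⟩,
⟨1, [⟨8, 3, []⟩, ⟨16, 3, []⟩, ⟨0, 0, [(33, 2)]⟩, ⟨6, 4, []⟩], [3, 3, 12, 4, 4], 2, [(24, 1), (35, 1), (37, 1), (59, 2), (61, 2)]⟩,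
⟨1, [⟨12, 4, []⟩, ⟨48, 4, []⟩], [3], 1, [(20, 1), (24, 1), (36, 1), (40, 1)]⟩,
⟨1, [⟨4, 3, []⟩, ⟨0, 0, [(3, 3)]⟩, ⟨16, 4, []⟩, ⟨8, 2, []⟩], [3, 3, 12, 8, 8], 2, [(7, 1), (24, 1), (31, 2)]⟩,
⟨1, [⟨2, 3, []⟩, ⟨4, 3, []⟩, ⟨8, 4, []⟩, ⟨32, 2, []⟩], [3, 3, 12, 8, 8], 2, [(6, 1), (40, 1), (46, 2)]⟩,
⟨0, [⟨12, 4, []⟩, ⟨1, 2, []⟩], [3, 2, 2], 1, [(5, 1), (9, 1)]⟩,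
⟨0, [⟨9, 3, []⟩, ⟨2, 3, []⟩], [3, 3], 1, [(3, 1), (10, 1)]⟩,
⟨1, [⟨18, 4, []⟩, ⟨1, 4, []⟩], [3], 1, [(3, 1), (17, 1)]⟩,
⟨1, [⟨2, 2, []⟩, ⟨9, 5, []⟩, ⟨16, 3, []⟩, ⟨0, 0, [(33, 2)]⟩], [9, 9, 9, 4, 4], 2, [(17, 1), (24, 1), (35, 1), (51, 2)]⟩,
⟨1, [⟨1, 3, []⟩, ⟨2, 3, []⟩, ⟨32, 4, []⟩, ⟨0, 0, [(24, 2)]⟩], [3, 3, 12, 8, 8], 2, [(3, 1), (56, 1), (59, 2)]⟩,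
⟨0, [⟨11, 4, []⟩, ⟨32, 2, []⟩], [3, 2, 2], 1, [(33, 1), (34, 1), (40, 1)]⟩,
⟨0, [⟨37, 4, []⟩, ⟨2, 2, []⟩], [3, 2, 2], 1, [(3, 1), (6, 1), (34, 1)]⟩,
⟨1, [⟨36, 4, []⟩, ⟨2, 4, []⟩], [3], 1, [(6, 1), (34, 1)]⟩,
⟨0, [⟨10, 4, []⟩, ⟨1, 2, []⟩], [3, 2, 2], 1, [(3, 1), (9, 1)]⟩,
⟨1, [⟨8, 3, []⟩, ⟨32, 2, []⟩, ⟨5, 4, []⟩, ⟨2, 3, []⟩], [3, 3, 6, 8, 8], 2, [(3, 1), (6, 1), (10, 1), (41, 1), (43, 2), (44, 1), (46, 2)]⟩,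
⟨0, [⟨50, 4, []⟩, ⟨8, 2, []⟩], [3, 2, 2], 1, [(10, 1), (24, 1), (40, 1)]⟩,
⟨1, [⟨16, 3, []⟩, ⟨0, 0, [(40, 3)]⟩, ⟨1, 4, []⟩, ⟨2, 2, []⟩], [3, 3, 12, 8, 8], 2, [(3, 1), (56, 1), (59, 2)]⟩,
⟨0, [⟨10, 4, []⟩, ⟨5, 2, []⟩], [3, 2, 2], 1, [(3, 1), (6, 1), (9, 1), (12, 1)]⟩,
⟨0, [⟨12, 3, []⟩, ⟨1, 3, []⟩], [3, 3], 1, [(5, 1), (9, 1)]⟩,
⟨1, [⟨40, 5, []⟩, ⟨16, 3, []⟩, ⟨2, 2, []⟩, ⟨4, 2, []⟩], [2, 2, 12, 12, 12], 2, [(14, 1), (24, 1), (30, 2), (38, 1), (48, 1), (54, 2)]⟩,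
⟨1, [⟨16, 3, []⟩, ⟨32, 2, []⟩, ⟨5, 4, []⟩, ⟨2, 3, []⟩], [3, 3, 6, 8, 8], 2, [(3, 1), (6, 1), (18, 1), (49, 1), (51, 2), (52, 1), (54, 2)]⟩,
⟨0, [⟨10, 3, []⟩, ⟨4, 3, []⟩], [3, 3], 1, [(6, 1), (12, 1)]⟩,
⟨1, [⟨8, 3, []⟩, ⟨16, 3, []⟩, ⟨0, 0, [(36, 2)]⟩, ⟨3, 4, []⟩], [3, 3, 12, 4, 4], 2, [(24, 1), (37, 1), (38, 1), (61, 2), (62, 2)]⟩,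
⟨1, [⟨2, 3, []⟩, ⟨4, 3, []⟩, ⟨32, 4, []⟩, ⟨0, 0, [(24, 2)]⟩], [3, 3, 12, 8, 8], 2, [(6, 1), (56, 1), (62, 2)]⟩,
⟨0, [⟨9, 4, []⟩, ⟨6, 2, []⟩], [3, 2, 2], 1, [(3, 1), (5, 1), (10, 1), (12, 1)]⟩,
⟨1, [⟨16, 3, []⟩, ⟨8, 2, []⟩, ⟨6, 4, []⟩, ⟨1, 3, []⟩], [3, 3, 6, 8, 8], 2, [(3, 1), (5, 1), (17, 1), (26, 1), (27, 2), (28, 1), (29, 2)]⟩,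
⟨1, [⟨9, 4, []⟩, ⟨6, 4, []⟩], [3], 1, [(3, 1), (5, 1), (10, 1), (12, 1)]⟩,
⟨1, [⟨8, 3, []⟩, ⟨0, 0, [(48, 3)]⟩, ⟨4, 4, []⟩, ⟨1, 2, []⟩], [3, 3, 12, 8, 8], 2, [(5, 1), (56, 1), (61, 2)]⟩,
⟨1, [⟨1, 2, []⟩, ⟨12, 5, []⟩, ⟨16, 3, []⟩, ⟨0, 0, [(36, 2)]⟩], [9, 9, 9, 4, 4], 2, [(20, 1), (24, 1), (37, 1), (53, 2)]⟩,
⟨1, [⟨2, 2, []⟩, ⟨17, 5, []⟩, ⟨32, 3, []⟩, ⟨0, 0, [(9, 2)]⟩], [9, 9, 9, 4, 4], 2, [(11, 1), (33, 1), (43, 2), (48, 1)]⟩,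
⟨1, [⟨4, 2, []⟩, ⟨10, 5, []⟩, ⟨16, 3, []⟩, ⟨0, 0, [(34, 2)]⟩], [9, 9, 9, 4, 4], 2, [(18, 1), (24, 1), (38, 1), (54, 2)]⟩,
⟨1, [⟨8, 3, []⟩, ⟨48, 3, []⟩, ⟨1, 4, []⟩, ⟨0, 0, [(6, 2)]⟩], [3, 3, 12, 8, 8], 2, [(7, 1), (24, 1), (31, 2), (40, 1), (47, 2)]⟩,
⟨0, [⟨17, 4, []⟩, ⟨40, 2, []⟩], [3, 2, 2], 1, [(9, 1), (24, 1), (33, 1), (48, 1)]⟩,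
⟨0, [⟨49, 4, []⟩, ⟨4, 2, []⟩], [3, 2, 2], 1, [(5, 1), (20, 1), (36, 1)]⟩,
⟨1, [⟨4, 2, []⟩, ⟨34, 5, []⟩, ⟨8, 3, []⟩, ⟨0, 0, [(18, 2)]⟩], [9, 9, 9, 4, 4], 2, [(10, 1), (22, 1), (30, 2), (40, 1)]⟩,
⟨0, [⟨20, 4, []⟩, ⟨2, 2, []⟩], [3, 2, 2], 1, [(6, 1), (18, 1)]⟩,
⟨1, [⟨16, 3, []⟩, ⟨32, 3, []⟩, ⟨4, 4, []⟩, ⟨2, 2, []⟩], [3, 3, 12, 8, 8], 2, [(6, 1), (48, 1), (54, 2)]⟩,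
⟨0, [⟨18, 3, []⟩, ⟨32, 3, []⟩], [3, 3], 1, [(34, 1), (48, 1)]⟩,
⟨1, [⟨0, 0, [(33, 3)]⟩, ⟨6, 5, []⟩, ⟨8, 2, []⟩, ⟨16, 2, []⟩], [1, 1, 12, 12, 12], 2, [(26, 1), (28, 1), (35, 1), (37, 1), (59, 2), (61, 2)]⟩,
⟨1, [⟨20, 4, []⟩, ⟨8, 4, []⟩], [3], 1, [(12, 1), (24, 1)]⟩,
⟨1, [⟨8, 3, []⟩, ⟨32, 3, []⟩, ⟨0, 0, [(17, 2)]⟩, ⟨6, 4, []⟩], [3, 3, 12, 4, 4], 2, [(19, 1), (21, 1), (40, 1), (59, 2), (61, 2)]⟩,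
⟨1, [⟨1, 3, []⟩, ⟨4, 3, []⟩, ⟨32, 4, []⟩, ⟨8, 2, []⟩], [3, 3, 12, 8, 8], 2, [(5, 1), (40, 1), (45, 2)]⟩,
⟨1, [⟨2, 3, []⟩, ⟨0, 0, [(5, 3)]⟩, ⟨32, 4, []⟩, ⟨8, 2, []⟩], [3, 3, 12, 8, 8], 2, [(7, 1), (40, 1), (47, 2)]⟩,
⟨1, [⟨36, 4, []⟩, ⟨3, 4, []⟩], [3], 1, [(5, 1), (6, 1), (33, 1), (34, 1)]⟩,
⟨1, [⟨16, 2, []⟩, ⟨33, 5, []⟩, ⟨4, 3, []⟩, ⟨0, 0, [(34, 2)]⟩], [9, 9, 9, 4, 4], 2, [(5, 1), (36, 1), (50, 1), (54, 2)]⟩,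
⟨1, [⟨1, 3, []⟩, ⟨2, 3, []⟩, ⟨32, 4, []⟩, ⟨8, 2, []⟩], [3, 3, 12, 8, 8], 2, [(3, 1), (40, 1), (43, 2)]⟩,
⟨1, [⟨17, 4, []⟩, ⟨4, 4, []⟩], [3], 1, [(5, 1), (20, 1)]⟩,
⟨1, [⟨1, 3, []⟩, ⟨4, 3, []⟩, ⟨0, 0, [(18, 2)]⟩, ⟨40, 4, []⟩], [3, 3, 12, 4, 4], 2, [(5, 1), (26, 1), (31, 2), (50, 1), (55, 2)]⟩,
⟨1, [⟨0, 0, [(17, 3)]⟩, ⟨40, 5, []⟩, ⟨2, 2, []⟩, ⟨4, 2, []⟩], [1, 1, 12, 12, 12], 2, [(14, 1), (25, 1), (31, 2), (38, 1), (49, 1), (55, 2)]⟩,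
⟨0, [⟨2, 4, []⟩, ⟨1, 2, []⟩], [3, 2, 2], 1, [(3, 1)]⟩,
⟨1, [⟨16, 4, []⟩, ⟨40, 4, []⟩], [3], 1, [(24, 1), (48, 1)]⟩,
⟨0, [⟨37, 4, []⟩, ⟨8, 2, []⟩], [3, 2, 2], 1, [(9, 1), (12, 1), (40, 1)]⟩,
⟨1, [⟨2, 4, []⟩, ⟨4, 4, []⟩], [3], 1, [(6, 1)]⟩,
⟨0, [⟨20, 4, []⟩, ⟨3, 2, []⟩], [3, 2, 2], 1, [(5, 1), (6, 1), (17, 1), (18, 1)]⟩,
⟨1, [⟨1, 3, []⟩, ⟨2, 3, []⟩, ⟨4, 3, []⟩, ⟨40, 5, []⟩, ⟨16, 3, []⟩], [7, 7, 16, 16], 2, [(15, 1), (24, 1), (31, 2), (39, 1), (48, 1), (55, 2)]⟩,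
⟨1, [⟨32, 2, []⟩, ⟨10, 5, []⟩, ⟨1, 3, []⟩, ⟨0, 0, [(12, 2)]⟩], [9, 9, 9, 4, 4], 2, [(3, 1), (9, 1), (44, 1), (45, 2)]⟩,
⟨1, [⟨1, 3, []⟩, ⟨2, 3, []⟩, ⟨8, 3, []⟩, ⟨16, 3, []⟩], [3, 3, 12, 12], 2, [(3, 1), (24, 1), (27, 2)]⟩,
⟨1, [⟨8, 3, []⟩, ⟨16, 3, []⟩, ⟨32, 3, []⟩, ⟨5, 5, []⟩, ⟨2, 3, []⟩], [7, 7, 16, 16], 2, [(3, 1), (6, 1), (57, 1), (59, 2), (60, 1), (62, 2)]⟩,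
⟨1, [⟨16, 3, []⟩, ⟨0, 0, [(40, 3)]⟩, ⟨4, 4, []⟩, ⟨1, 2, []⟩], [3, 3, 12, 8, 8], 2, [(5, 1), (56, 1), (61, 2)]⟩,
⟨1, [⟨1, 4, []⟩, ⟨8, 4, []⟩], [3], 1, [(9, 1)]⟩,
⟨1, [⟨10, 4, []⟩, ⟨1, 4, []⟩], [3], 1, [(3, 1), (9, 1)]⟩,
⟨1, [⟨4, 4, []⟩, ⟨16, 4, []⟩], [3], 1, [(20, 1)]⟩,
⟨1, [⟨32, 3, []⟩, ⟨16, 2, []⟩, ⟨3, 4, []⟩, ⟨4, 3, []⟩], [3, 3, 6, 8, 8], 2, [(5, 1), (6, 1), (36, 1), (49, 1), (50, 1), (53, 2), (54, 2)]⟩,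
⟨0, [⟨12, 4, []⟩, ⟨48, 2, []⟩], [3, 2, 2], 1, [(20, 1), (24, 1), (36, 1), (40, 1)]⟩,
⟨1, [⟨9, 4, []⟩, ⟨2, 4, []⟩], [3], 1, [(3, 1), (10, 1)]⟩,
⟨1, [⟨5, 5, []⟩, ⟨2, 3, []⟩, ⟨16, 2, []⟩, ⟨32, 2, []⟩], [2, 2, 12, 12, 12], 2, [(3, 1), (6, 1), (49, 1), (51, 2), (52, 1), (54, 2)]⟩,
⟨0, [⟨34, 3, []⟩, ⟨1, 3, []⟩], [3, 3], 1, [(3, 1), (33, 1)]⟩,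
⟨1, [⟨20, 4, []⟩, ⟨32, 4, []⟩], [3], 1, [(36, 1), (48, 1)]⟩,
⟨0, [⟨35, 4, []⟩, ⟨8, 2, []⟩], [3, 2, 2], 1, [(9, 1), (10, 1), (40, 1)]⟩,
⟨1, [⟨4, 3, []⟩, ⟨0, 0, [(3, 3)]⟩, ⟨32, 4, []⟩, ⟨16, 2, []⟩], [3, 3, 12, 8, 8], 2, [(7, 1), (48, 1), (55, 2)]⟩,
⟨0, [⟨4, 4, []⟩, ⟨2, 2, []⟩], [3, 2, 2], 1, [(6, 1)]⟩,
⟨1, [⟨8, 3, []⟩, ⟨48, 3, []⟩, ⟨4, 4, []⟩, ⟨0, 0, [(3, 2)]⟩], [3, 3, 12, 8, 8], 2, [(7, 1), (24, 1), (31, 2), (40, 1), (47, 2)]⟩,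
⟨1, [⟨2, 3, []⟩, ⟨4, 3, []⟩, ⟨24, 4, []⟩, ⟨32, 2, []⟩], [3, 3, 12, 8, 8], 2, [(6, 1), (40, 1), (46, 2), (48, 1), (54, 2)]⟩,
⟨0, [⟨11, 4, []⟩, ⟨16, 2, []⟩], [3, 2, 2], 1, [(17, 1), (18, 1), (24, 1)]⟩,
⟨0, [⟨34, 4, []⟩, ⟨4, 2, []⟩], [3, 2, 2], 1, [(6, 1), (36, 1)]⟩,
⟨1, [⟨16, 3, []⟩, ⟨32, 3, []⟩, ⟨2, 4, []⟩, ⟨0, 0, [(5, 2)]⟩], [3, 3, 12, 8, 8], 2, [(7, 1), (48, 1), (55, 2)]⟩,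
⟨1, [⟨2, 3, []⟩, ⟨0, 0, [(5, 3)]⟩, ⟨8, 4, []⟩, ⟨16, 2, []⟩], [3, 3, 12, 8, 8], 2, [(7, 1), (24, 1), (31, 2)]⟩,
⟨1, [⟨1, 3, []⟩, ⟨4, 2, []⟩, ⟨24, 4, []⟩, ⟨32, 3, []⟩], [3, 3, 6, 8, 8], 2, [(13, 1), (21, 1), (33, 1), (40, 1), (45, 2), (48, 1), (53, 2)]⟩,
⟨1, [⟨1, 3, []⟩, ⟨4, 3, []⟩, ⟨0, 0, [(10, 2)]⟩, ⟨48, 4, []⟩], [3, 3, 12, 4, 4], 2, [(5, 1), (26, 1), (31, 2), (42, 1), (47, 2)]⟩,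
⟨0, [⟨10, 4, []⟩, ⟨48, 2, []⟩], [3, 2, 2], 1, [(18, 1), (24, 1), (34, 1), (40, 1)]⟩,
⟨1, [⟨32, 3, []⟩, ⟨0, 0, [(24, 3)]⟩, ⟨4, 4, []⟩, ⟨2, 2, []⟩], [3, 3, 12, 8, 8], 2, [(6, 1), (56, 1), (62, 2)]⟩,
⟨0, [⟨33, 3, []⟩, ⟨20, 3, []⟩], [3, 3], 1, [(5, 1), (17, 1), (36, 1), (48, 1)]⟩,
⟨0, [⟨18, 4, []⟩, ⟨40, 2, []⟩], [3, 2, 2], 1, [(10, 1), (24, 1), (34, 1), (48, 1)]⟩,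
⟨0, [⟨19, 4, []⟩, ⟨32, 2, []⟩], [3, 2, 2], 1, [(33, 1), (34, 1), (48, 1)]⟩,
⟨1, [⟨1, 3, []⟩, ⟨0, 0, [(6, 3)]⟩, ⟨8, 4, []⟩, ⟨16, 2, []⟩], [3, 3, 12, 8, 8], 2, [(7, 1), (24, 1), (31, 2)]⟩,
⟨0, [⟨9, 4, []⟩, ⟨32, 2, []⟩], [3, 2, 2], 1, [(33, 1), (40, 1)]⟩,
⟨1, [⟨12, 4, []⟩, ⟨2, 4, []⟩], [3], 1, [(6, 1), (10, 1)]⟩,
⟨1, [⟨0, 0, [(20, 3)]⟩, ⟨40, 5, []⟩, ⟨1, 2, []⟩, ⟨2, 2, []⟩], [1, 1, 12, 12, 12], 2, [(11, 1), (28, 1), (31, 2), (35, 1), (52, 1), (55, 2)]⟩,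
⟨1, [⟨17, 4, []⟩, ⟨10, 4, []⟩], [3], 1, [(3, 1), (9, 1), (18, 1), (24, 1)]⟩,
⟨0, [⟨28, 4, []⟩, ⟨32, 2, []⟩], [3, 2, 2], 1, [(36, 1), (40, 1), (48, 1)]⟩,
⟨0, [⟨21, 4, []⟩, ⟨2, 2, []⟩], [3, 2, 2], 1, [(3, 1), (6, 1), (18, 1)]⟩,
⟨0, [⟨24, 2, []⟩, ⟨6, 4, []⟩], [3, 1, 1], 1, [(10, 1), (12, 1), (18, 1), (20, 1)]⟩,
⟨1, [⟨16, 3, []⟩, ⟨32, 3, []⟩, ⟨4, 3, []⟩, ⟨3, 3, []⟩], [3, 3, 12, 12], 2, [(5, 1), (6, 1), (48, 1), (53, 2), (54, 2)]⟩,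
⟨1, [⟨4, 2, []⟩, ⟨17, 5, []⟩, ⟨8, 3, []⟩, ⟨0, 0, [(33, 2)]⟩], [9, 9, 9, 4, 4], 2, [(9, 1), (24, 1), (37, 1), (45, 2)]⟩,
⟨1, [⟨0, 0, [(12, 3)]⟩, ⟨48, 5, []⟩, ⟨1, 2, []⟩, ⟨2, 2, []⟩], [1, 1, 12, 12, 12], 2, [(19, 1), (28, 1), (31, 2), (35, 1), (44, 1), (47, 2)]⟩,
⟨1, [⟨4, 3, []⟩, ⟨3, 3, []⟩, ⟨32, 4, []⟩, ⟨0, 0, [(24, 2)]⟩], [3, 3, 12, 8, 8], 2, [(5, 1), (6, 1), (56, 1), (61, 2), (62, 2)]⟩,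
⟨1, [⟨4, 3, []⟩, ⟨0, 0, [(3, 3)]⟩, ⟨16, 4, []⟩, ⟨32, 2, []⟩], [3, 3, 12, 8, 8], 2, [(7, 1), (48, 1), (55, 2)]⟩,
⟨1, [⟨32, 3, []⟩, ⟨0, 0, [(24, 3)]⟩, ⟨1, 4, []⟩, ⟨2, 2, []⟩], [3, 3, 12, 8, 8], 2, [(3, 1), (56, 1), (59, 2)]⟩,
⟨1, [⟨1, 3, []⟩, ⟨0, 0, [(6, 3)]⟩, ⟨16, 4, []⟩, ⟨32, 2, []⟩], [3, 3, 12, 8, 8], 2, [(7, 1), (48, 1), (55, 2)]⟩,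
⟨0, [⟨20, 4, []⟩, ⟨1, 2, []⟩], [3, 2, 2], 1, [(5, 1), (17, 1)]⟩,
⟨1, [⟨16, 3, []⟩, ⟨40, 3, []⟩, ⟨2, 4, []⟩, ⟨0, 0, [(5, 2)]⟩], [3, 3, 12, 8, 8], 2, [(7, 1), (24, 1), (31, 2), (48, 1), (55, 2)]⟩,
⟨0, [⟨36, 4, []⟩, ⟨3, 2, []⟩], [3, 2, 2], 1, [(5, 1), (6, 1), (33, 1), (34, 1)]⟩,
⟨1, [⟨34, 4, []⟩, ⟨20, 4, []⟩], [3], 1, [(6, 1), (18, 1), (36, 1), (48, 1)]⟩,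
⟨0, [⟨34, 4, []⟩, ⟨5, 2, []⟩], [3, 2, 2], 1, [(3, 1), (6, 1), (33, 1), (36, 1)]⟩,
⟨1, [⟨8, 3, []⟩, ⟨16, 2, []⟩, ⟨6, 4, []⟩, ⟨1, 3, []⟩], [3, 3, 6, 8, 8], 2, [(3, 1), (5, 1), (9, 1), (26, 1), (27, 2), (28, 1), (29, 2)]⟩,
⟨1, [⟨2, 3, []⟩, ⟨4, 3, []⟩, ⟨0, 0, [(33, 2)]⟩, ⟨24, 4, []⟩], [3, 3, 12, 4, 4], 2, [(6, 1), (41, 1), (47, 2), (49, 1), (55, 2)]⟩,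
⟨1, [⟨0, 0, [(10, 3)]⟩, ⟨5, 5, []⟩, ⟨16, 2, []⟩, ⟨32, 2, []⟩], [1, 1, 12, 12, 12], 2, [(11, 1), (14, 1), (49, 1), (52, 1), (59, 2), (62, 2)]⟩,
⟨1, [⟨1, 2, []⟩, ⟨12, 5, []⟩, ⟨32, 3, []⟩, ⟨0, 0, [(20, 2)]⟩], [9, 9, 9, 4, 4], 2, [(21, 1), (36, 1), (40, 1), (53, 2)]⟩,
⟨1, [⟨1, 3, []⟩, ⟨2, 3, []⟩, ⟨8, 4, []⟩, ⟨16, 2, []⟩], [3, 3, 12, 8, 8], 2, [(3, 1), (24, 1), (27, 2)]⟩,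
⟨0, [⟨44, 4, []⟩, ⟨16, 2, []⟩], [3, 2, 2], 1, [(20, 1), (24, 1), (48, 1)]⟩,
⟨0, [⟨17, 4, []⟩, ⟨4, 2, []⟩], [3, 2, 2], 1, [(5, 1), (20, 1)]⟩,
⟨0, [⟨49, 4, []⟩, ⟨8, 2, []⟩], [3, 2, 2], 1, [(9, 1), (24, 1), (40, 1)]⟩,
⟨1, [⟨33, 4, []⟩, ⟨20, 4, []⟩], [3], 1, [(5, 1), (17, 1), (36, 1), (48, 1)]⟩,
⟨1, [⟨8, 3, []⟩, ⟨16, 2, []⟩, ⟨5, 4, []⟩, ⟨2, 3, []⟩], [3, 3, 6, 8, 8], 2, [(3, 1), (6, 1), (10, 1), (25, 1), (27, 2), (28, 1), (30, 2)]⟩,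
⟨1, [⟨10, 4, []⟩, ⟨20, 4, []⟩], [3], 1, [(6, 1), (12, 1), (18, 1), (24, 1)]⟩,
⟨0, [⟨32, 3, []⟩, ⟨7, 3, []⟩], [3, 3], 1, [(33, 1), (34, 1), (36, 1)]⟩,
⟨0, [⟨2, 3, []⟩, ⟨25, 3, []⟩], [3, 3], 1, [(3, 1), (10, 1), (18, 1)]⟩,
⟨0, [⟨34, 4, []⟩, ⟨1, 2, []⟩], [3, 2, 2], 1, [(3, 1), (33, 1)]⟩,
⟨1, [⟨1, 3, []⟩, ⟨4, 3, []⟩, ⟨8, 4, []⟩, ⟨0, 0, [(48, 2)]⟩], [3, 3, 12, 8, 8], 2, [(5, 1), (56, 1), (61, 2)]⟩,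
⟨1, [⟨4, 4, []⟩, ⟨8, 4, []⟩], [3], 1, [(12, 1)]⟩,
⟨1, [⟨16, 3, []⟩, ⟨32, 3, []⟩, ⟨0, 0, [(9, 2)]⟩, ⟨6, 4, []⟩], [3, 3, 12, 4, 4], 2, [(11, 1), (13, 1), (48, 1), (59, 2), (61, 2)]⟩,
⟨1, [⟨24, 5, []⟩, ⟨32, 3, []⟩, ⟨1, 2, []⟩, ⟨4, 2, []⟩], [2, 2, 12, 12, 12], 2, [(13, 1), (21, 1), (40, 1), (45, 2), (48, 1), (53, 2)]⟩,
⟨1, [⟨16, 2, []⟩, ⟨11, 5, []⟩, ⟨4, 3, []⟩, ⟨0, 0, [(10, 2)]⟩], [9, 9, 9, 4, 4], 2, [(5, 1), (6, 1), (12, 1), (26, 1), (30, 2)]⟩,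
⟨1, [⟨5, 5, []⟩, ⟨2, 3, []⟩, ⟨8, 2, []⟩, ⟨32, 2, []⟩], [2, 2, 12, 12, 12], 2, [(3, 1), (6, 1), (41, 1), (43, 2), (44, 1), (46, 2)]⟩,
⟨1, [⟨4, 3, []⟩, ⟨0, 0, [(3, 3)]⟩, ⟨8, 4, []⟩, ⟨32, 2, []⟩], [3, 3, 12, 8, 8], 2, [(7, 1), (40, 1), (47, 2)]⟩,
⟨0, [⟨12, 3, []⟩, ⟨2, 3, []⟩], [3, 3], 1, [(6, 1), (10, 1)]⟩,
⟨1, [⟨16, 3, []⟩, ⟨40, 3, []⟩, ⟨4, 4, []⟩, ⟨0, 0, [(3, 2)]⟩], [3, 3, 12, 8, 8], 2, [(7, 1), (24, 1), (31, 2), (48, 1), (55, 2)]⟩,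
⟨1, [⟨8, 3, []⟩, ⟨16, 3, []⟩, ⟨3, 4, []⟩, ⟨4, 2, []⟩], [3, 3, 12, 8, 8], 2, [(5, 1), (6, 1), (24, 1), (29, 2), (30, 2)]⟩,
⟨0, [⟨12, 3, []⟩, ⟨32, 3, []⟩], [3, 3], 1, [(36, 1), (40, 1)]⟩,
⟨0, [⟨33, 4, []⟩, ⟨24, 2, []⟩], [3, 2, 2], 1, [(9, 1), (17, 1), (40, 1), (48, 1)]⟩,
⟨1, [⟨17, 4, []⟩, ⟨40, 4, []⟩], [3], 1, [(9, 1), (24, 1), (33, 1), (48, 1)]⟩,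
⟨0, [⟨18, 4, []⟩, ⟨1, 2, []⟩], [3, 2, 2], 1, [(3, 1), (17, 1)]⟩,
⟨1, [⟨2, 3, []⟩, ⟨4, 3, []⟩, ⟨16, 3, []⟩, ⟨32, 3, []⟩], [3, 3, 12, 12], 2, [(6, 1), (48, 1), (54, 2)]⟩,
⟨1, [⟨0, 0, [(36, 3)]⟩, ⟨3, 5, []⟩, ⟨8, 2, []⟩, ⟨16, 2, []⟩], [1, 1, 12, 12, 12], 2, [(25, 1), (26, 1), (37, 1), (38, 1), (61, 2), (62, 2)]⟩,
⟨0, [⟨17, 4, []⟩, ⟨32, 2, []⟩], [3, 2, 2], 1, [(33, 1), (48, 1)]⟩,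
⟨1, [⟨8, 3, []⟩, ⟨16, 3, []⟩, ⟨1, 4, []⟩, ⟨0, 0, [(6, 2)]⟩], [3, 3, 12, 8, 8], 2, [(7, 1), (24, 1), (31, 2)]⟩,
⟨0, [⟨48, 4, []⟩, ⟨8, 2, []⟩], [3, 2, 2], 1, [(24, 1), (40, 1)]⟩,
⟨0, [⟨14, 4, []⟩, ⟨32, 2, []⟩], [3, 2, 2], 1, [(34, 1), (36, 1), (40, 1)]⟩,
⟨0, [⟨6, 3, []⟩, ⟨1, 3, []⟩], [3, 3], 1, [(3, 1), (5, 1)]⟩,
⟨0, [⟨16, 4, []⟩, ⟨8, 2, []⟩], [3, 2, 2], 1, [(24, 1)]⟩,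
⟨1, [⟨2, 4, []⟩, ⟨5, 4, []⟩], [3], 1, [(3, 1), (6, 1)]⟩,
⟨1, [⟨3, 5, []⟩, ⟨4, 3, []⟩, ⟨8, 2, []⟩, ⟨32, 2, []⟩], [2, 2, 12, 12, 12], 2, [(5, 1), (6, 1), (41, 1), (42, 1), (45, 2), (46, 2)]⟩,
⟨1, [⟨1, 3, []⟩, ⟨2, 3, []⟩, ⟨4, 3, []⟩, ⟨48, 5, []⟩, ⟨8, 3, []⟩], [7, 7, 16, 16], 2, [(23, 1), (24, 1), (31, 2), (39, 1), (40, 1), (47, 2)]⟩,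
⟨1, [⟨16, 3, []⟩, ⟨32, 3, []⟩, ⟨1, 4, []⟩, ⟨0, 0, [(6, 2)]⟩], [3, 3, 12, 8, 8], 2, [(7, 1), (48, 1), (55, 2)]⟩,
⟨0, [⟨1, 2, []⟩, ⟨2, 2, []⟩, ⟨8, 2, []⟩, ⟨16, 2, []⟩], [3, 3, 3, 12, 12, 12], 2, [(3, 1), (24, 1), (27, 2)]⟩,
⟨1, [⟨2, 3, []⟩, ⟨4, 3, []⟩, ⟨16, 3, []⟩, ⟨40, 3, []⟩], [3, 3, 12, 12], 2, [(6, 1), (24, 1), (30, 2), (48, 1), (54, 2)]⟩,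
⟨0, [⟨6, 2, []⟩, ⟨24, 4, []⟩], [3, 1, 1], 1, [(10, 1), (12, 1), (18, 1), (20, 1)]⟩,
⟨0, [⟨18, 4, []⟩, ⟨4, 2, []⟩], [3, 2, 2], 1, [(6, 1), (20, 1)]⟩,
⟨1, [⟨16, 3, []⟩, ⟨32, 3, []⟩, ⟨2, 4, []⟩, ⟨1, 2, []⟩], [3, 3, 12, 8, 8], 2, [(3, 1), (48, 1), (51, 2)]⟩,
⟨1, [⟨8, 2, []⟩, ⟨33, 5, []⟩, ⟨2, 3, []⟩, ⟨0, 0, [(36, 2)]⟩], [9, 9, 9, 4, 4], 2, [(3, 1), (34, 1), (44, 1), (46, 2)]⟩,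
⟨1, [⟨8, 3, []⟩, ⟨32, 3, []⟩, ⟨5, 4, []⟩, ⟨2, 2, []⟩], [3, 3, 12, 8, 8], 2, [(3, 1), (6, 1), (40, 1), (43, 2), (46, 2)]⟩,
⟨1, [⟨2, 2, []⟩, ⟨52, 5, []⟩, ⟨8, 3, []⟩, ⟨0, 0, [(20, 2)]⟩], [9, 9, 9, 4, 4], 2, [(12, 1), (22, 1), (24, 1), (30, 2), (40, 1)]⟩,
⟨1, [⟨32, 3, []⟩, ⟨24, 3, []⟩, ⟨1, 4, []⟩, ⟨0, 0, [(6, 2)]⟩], [3, 3, 12, 8, 8], 2, [(7, 1), (40, 1), (47, 2), (48, 1), (55, 2)]⟩,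
⟨1, [⟨2, 2, []⟩, ⟨20, 5, []⟩, ⟨8, 3, []⟩, ⟨0, 0, [(36, 2)]⟩], [9, 9, 9, 4, 4], 2, [(12, 1), (24, 1), (38, 1), (46, 2)]⟩,
⟨0, [⟨2, 3, []⟩, ⟨4, 3, []⟩], [3, 3], 1, [(6, 1)]⟩,
⟨1, [⟨8, 3, []⟩, ⟨16, 3, []⟩, ⟨0, 0, [(34, 2)]⟩, ⟨5, 4, []⟩], [3, 3, 12, 4, 4], 2, [(24, 1), (35, 1), (38, 1), (59, 2), (62, 2)]⟩,
⟨0, [⟨10, 3, []⟩, ⟨16, 3, []⟩], [3, 3], 1, [(18, 1), (24, 1)]⟩,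
⟨1, [⟨1, 3, []⟩, ⟨4, 3, []⟩, ⟨16, 3, []⟩, ⟨40, 3, []⟩], [3, 3, 12, 12], 2, [(5, 1), (24, 1), (29, 2), (48, 1), (53, 2)]⟩,
⟨0, [⟨1, 4, []⟩, ⟨4, 2, []⟩], [3, 2, 2], 1, [(5, 1)]⟩,
⟨0, [⟨17, 4, []⟩, ⟨8, 2, []⟩], [3, 2, 2], 1, [(9, 1), (24, 1)]⟩,
⟨1, [⟨8, 3, []⟩, ⟨16, 3, []⟩, ⟨2, 4, []⟩, ⟨1, 2, []⟩], [3, 3, 12, 8, 8], 2, [(3, 1), (24, 1), (27, 2)]⟩,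
⟨1, [⟨34, 4, []⟩, ⟨8, 4, []⟩], [3], 1, [(10, 1), (40, 1)]⟩,
⟨1, [⟨1, 3, []⟩, ⟨4, 3, []⟩, ⟨24, 4, []⟩, ⟨32, 2, []⟩], [3, 3, 12, 8, 8], 2, [(5, 1), (40, 1), (45, 2), (48, 1), (53, 2)]⟩,
⟨1, [⟨9, 4, []⟩, ⟨48, 4, []⟩], [3], 1, [(17, 1), (24, 1), (33, 1), (40, 1)]⟩,
⟨0, [⟨8, 3, []⟩, ⟨16, 3, []⟩], [3, 3], 1, [(24, 1)]⟩,
⟨1, [⟨8, 3, []⟩, ⟨16, 3, []⟩, ⟨4, 4, []⟩, ⟨1, 2, []⟩], [3, 3, 12, 8, 8], 2, [(5, 1), (24, 1), (29, 2)]⟩,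
⟨1, [⟨17, 4, []⟩, ⟨2, 4, []⟩], [3], 1, [(3, 1), (18, 1)]⟩,
⟨1, [⟨2, 3, []⟩, ⟨0, 0, [(5, 3)]⟩, ⟨16, 4, []⟩, ⟨32, 2, []⟩], [3, 3, 12, 8, 8], 2, [(7, 1), (48, 1), (55, 2)]⟩,
⟨1, [⟨8, 3, []⟩, ⟨16, 3, []⟩, ⟨1, 4, []⟩, ⟨2, 2, []⟩], [3, 3, 12, 8, 8], 2, [(3, 1), (24, 1), (27, 2)]⟩,
⟨0, [⟨16, 4, []⟩, ⟨32, 2, []⟩], [3, 2, 2], 1, [(48, 1)]⟩,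
⟨1, [⟨10, 4, []⟩, ⟨4, 4, []⟩], [3], 1, [(6, 1), (12, 1)]⟩,
⟨0, [⟨26, 4, []⟩, ⟨4, 2, []⟩], [3, 2, 2], 1, [(6, 1), (12, 1), (20, 1)]⟩,
⟨0, [⟨41, 4, []⟩, ⟨16, 2, []⟩], [3, 2, 2], 1, [(17, 1), (24, 1), (48, 1)]⟩,
⟨0, [⟨9, 3, []⟩, ⟨4, 3, []⟩], [3, 3], 1, [(5, 1), (12, 1)]⟩,
⟨0, [⟨22, 4, []⟩, ⟨32, 2, []⟩], [3, 2, 2], 1, [(34, 1), (36, 1), (48, 1)]⟩,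
⟨1, [⟨34, 4, []⟩, ⟨4, 4, []⟩], [3], 1, [(6, 1), (36, 1)]⟩,
⟨1, [⟨0, 0, [(10, 3)]⟩, ⟨48, 5, []⟩, ⟨1, 2, []⟩, ⟨4, 2, []⟩], [1, 1, 12, 12, 12], 2, [(21, 1), (26, 1), (31, 2), (37, 1), (42, 1), (47, 2)]⟩,
⟨1, [⟨1, 3, []⟩, ⟨0, 0, [(6, 3)]⟩, ⟨16, 4, []⟩, ⟨8, 2, []⟩], [3, 3, 12, 8, 8], 2, [(7, 1), (24, 1), (31, 2)]⟩,
⟨0, [⟨10, 4, []⟩, ⟨32, 2, []⟩], [3, 2, 2], 1, [(34, 1), (40, 1)]⟩,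
⟨1, [⟨0, 0, [(34, 3)]⟩, ⟨5, 5, []⟩, ⟨8, 2, []⟩, ⟨16, 2, []⟩], [1, 1, 12, 12, 12], 2, [(25, 1), (28, 1), (35, 1), (38, 1), (59, 2), (62, 2)]⟩,
⟨0, [⟨6, 4, []⟩, ⟨1, 2, []⟩], [3, 2, 2], 1, [(3, 1), (5, 1)]⟩,
⟨1, [⟨1, 3, []⟩, ⟨0, 0, [(6, 3)]⟩, ⟨8, 4, []⟩, ⟨32, 2, []⟩], [3, 3, 12, 8, 8], 2, [(7, 1), (40, 1), (47, 2)]⟩,
⟨1, [⟨48, 5, []⟩, ⟨8, 3, []⟩, ⟨1, 2, []⟩, ⟨2, 2, []⟩], [2, 2, 12, 12, 12], 2, [(19, 1), (24, 1), (27, 2), (35, 1), (40, 1), (43, 2)]⟩,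
⟨1, [⟨8, 3, []⟩, ⟨32, 3, []⟩, ⟨2, 4, []⟩, ⟨0, 0, [(5, 2)]⟩], [3, 3, 12, 8, 8], 2, [(7, 1), (40, 1), (47, 2)]⟩,
⟨1, [⟨1, 4, []⟩, ⟨32, 4, []⟩], [3], 1, [(33, 1)]⟩,
⟨1, [⟨16, 3, []⟩, ⟨32, 3, []⟩, ⟨3, 4, []⟩, ⟨4, 2, []⟩], [3, 3, 12, 8, 8], 2, [(5, 1), (6, 1), (48, 1), (53, 2), (54, 2)]⟩,
⟨1, [⟨48, 5, []⟩, ⟨8, 3, []⟩, ⟨1, 2, []⟩, ⟨4, 2, []⟩], [2, 2, 12, 12, 12], 2, [(21, 1), (24, 1), (29, 2), (37, 1), (40, 1), (45, 2)]⟩,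
⟨1, [⟨16, 3, []⟩, ⟨32, 3, []⟩, ⟨5, 4, []⟩, ⟨2, 2, []⟩], [3, 3, 12, 8, 8], 2, [(3, 1), (6, 1), (48, 1), (51, 2), (54, 2)]⟩,
⟨1, [⟨16, 2, []⟩, ⟨10, 5, []⟩, ⟨1, 3, []⟩, ⟨0, 0, [(12, 2)]⟩], [9, 9, 9, 4, 4], 2, [(3, 1), (9, 1), (28, 1), (29, 2)]⟩,
⟨0, [⟨21, 4, []⟩, ⟨32, 2, []⟩], [3, 2, 2], 1, [(33, 1), (36, 1), (48, 1)]⟩,
⟨1, [⟨1, 4, []⟩, ⟨6, 4, []⟩], [3], 1, [(3, 1), (5, 1)]⟩,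
⟨1, [⟨17, 4, []⟩, ⟨12, 4, []⟩], [3], 1, [(5, 1), (9, 1), (20, 1), (24, 1)]⟩,
⟨1, [⟨1, 3, []⟩, ⟨2, 3, []⟩, ⟨24, 4, []⟩, ⟨32, 2, []⟩], [3, 3, 12, 8, 8], 2, [(3, 1), (40, 1), (43, 2), (48, 1), (51, 2)]⟩,
⟨1, [⟨2, 3, []⟩, ⟨5, 3, []⟩, ⟨8, 4, []⟩, ⟨0, 0, [(48, 2)]⟩], [3, 3, 12, 8, 8], 2, [(3, 1), (6, 1), (56, 1), (59, 2), (62, 2)]⟩,
⟨1, [⟨33, 4, []⟩, ⟨16, 4, []⟩], [3], 1, [(17, 1), (48, 1)]⟩,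
⟨0, [⟨2, 2, []⟩, ⟨4, 2, []⟩, ⟨8, 2, []⟩, ⟨32, 2, []⟩], [3, 3, 3, 12, 12, 12], 2, [(6, 1), (40, 1), (46, 2)]⟩,
⟨0, [⟨26, 4, []⟩, ⟨32, 2, []⟩], [3, 2, 2], 1, [(34, 1), (40, 1), (48, 1)]⟩,
⟨1, [⟨20, 4, []⟩, ⟨40, 4, []⟩], [3], 1, [(12, 1), (24, 1), (36, 1), (48, 1)]⟩,
⟨1, [⟨8, 3, []⟩, ⟨32, 2, []⟩, ⟨3, 4, []⟩, ⟨4, 3, []⟩], [3, 3, 6, 8, 8], 2, [(5, 1), (6, 1), (12, 1), (41, 1), (42, 1), (45, 2), (46, 2)]⟩,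
⟨1, [⟨1, 3, []⟩, ⟨2, 3, []⟩, ⟨48, 4, []⟩, ⟨8, 2, []⟩], [3, 3, 12, 8, 8], 2, [(3, 1), (24, 1), (27, 2), (40, 1), (43, 2)]⟩,
⟨0, [⟨2, 3, []⟩, ⟨56, 3, []⟩], [3, 3], 1, [(10, 1), (18, 1), (34, 1)]⟩,
⟨0, [⟨4, 3, []⟩, ⟨56, 3, []⟩], [3, 3], 1, [(12, 1), (20, 1), (36, 1)]⟩,
⟨1, [⟨16, 3, []⟩, ⟨32, 3, []⟩, ⟨0, 0, [(12, 2)]⟩, ⟨3, 4, []⟩], [3, 3, 12, 4, 4], 2, [(13, 1), (14, 1), (48, 1), (61, 2), (62, 2)]⟩,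
⟨1, [⟨1, 3, []⟩, ⟨6, 3, []⟩, ⟨8, 4, []⟩, ⟨0, 0, [(48, 2)]⟩], [3, 3, 12, 8, 8], 2, [(3, 1), (5, 1), (56, 1), (59, 2), (61, 2)]⟩,
⟨1, [⟨2, 4, []⟩, ⟨32, 4, []⟩], [3], 1, [(34, 1)]⟩,
⟨1, [⟨16, 3, []⟩, ⟨32, 3, []⟩, ⟨2, 4, []⟩, ⟨4, 2, []⟩], [3, 3, 12, 8, 8], 2, [(6, 1), (48, 1), (54, 2)]⟩,
⟨0, [⟨35, 4, []⟩, ⟨4, 2, []⟩], [3, 2, 2], 1, [(5, 1), (6, 1), (36, 1)]⟩,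
⟨1, [⟨34, 4, []⟩, ⟨12, 4, []⟩], [3], 1, [(6, 1), (10, 1), (36, 1), (40, 1)]⟩,
⟨1, [⟨34, 4, []⟩, ⟨16, 4, []⟩], [3], 1, [(18, 1), (48, 1)]⟩,
⟨0, [⟨11, 4, []⟩, ⟨4, 2, []⟩], [3, 2, 2], 1, [(5, 1), (6, 1), (12, 1)]⟩,
⟨1, [⟨9, 4, []⟩, ⟨20, 4, []⟩], [3], 1, [(5, 1), (12, 1), (17, 1), (24, 1)]⟩,
⟨0, [⟨5, 4, []⟩, ⟨2, 2, []⟩], [3, 2, 2], 1, [(3, 1), (6, 1)]⟩,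
⟨0, [⟨9, 3, []⟩, ⟨18, 3, []⟩], [3, 3], 1, [(3, 1), (10, 1), (17, 1), (24, 1)]⟩,
⟨0, [⟨33, 3, []⟩, ⟨2, 3, []⟩], [3, 3], 1, [(3, 1), (34, 1)]⟩,
⟨1, [⟨0, 0, [(17, 3)]⟩, ⟨6, 5, []⟩, ⟨8, 2, []⟩, ⟨32, 2, []⟩], [1, 1, 12, 12, 12], 2, [(19, 1), (21, 1), (42, 1), (44, 1), (59, 2), (61, 2)]⟩,
⟨1, [⟨1, 3, []⟩, ⟨2, 3, []⟩, ⟨16, 4, []⟩, ⟨32, 2, []⟩], [3, 3, 12, 8, 8], 2, [(3, 1), (48, 1), (51, 2)]⟩,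
⟨1, [⟨1, 3, []⟩, ⟨2, 3, []⟩, ⟨0, 0, [(12, 2)]⟩, ⟨48, 4, []⟩], [3, 3, 12, 4, 4], 2, [(3, 1), (28, 1), (31, 2), (44, 1), (47, 2)]⟩,
⟨1, [⟨2, 3, []⟩, ⟨4, 3, []⟩, ⟨8, 3, []⟩, ⟨16, 3, []⟩], [3, 3, 12, 12], 2, [(6, 1), (24, 1), (30, 2)]⟩]

theorem base_ok : base.all (fun q => q.ok 6 2 [7, 56] big4 big4 []) = true := by decide +kernel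

theorem gads_ok : gads.all (fun g => Nat.blt g.j 2 && g.ok 6 (([2, 8] : List ℕ).getD g.j 0)) = true := by
  decide +kernel

theorem cmp_ok : cmpR names cnf (cls 2 base ++ gads.map Gt.cl) = true := by decide +kernel

end D01

theorem inst_01 : instB 0 [2, 8] [] [] D01.base D01.gads D01.names D01.cnf D01.db D01.prf = true :=
  instB_of D01.base_ok D01.gads_ok (by decide +kernel) D01.okc D01.cmp_ok D01.chk_ok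

/-- no gadget has fewer than `2 R` new points. -/
theorem p2_01 : D01.gads.all (fun g => Nat.ble (2 * g.R) g.gs.length) = true := by decide +kernel

/-- there is no configuration of this instance. -/
theorem no_01 {V : Type v} [DecidableEq V] {ι : Type u} [Fintype ι] {B : ι → Finset V}
    {Q : Finset V} {i j : ι} {x : ℕ → V} {D : ℕ → Finset V}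
    (h : CfI B Q 0 x D i j [2, 8] []) : False :=
  h.absurd (by decide) srt_nil inst_01

end Pool.Agent.Hyp6
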