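import Pool.Agent.Hyp6.Cseg2
import Pool.Agent.Hyp6.Ins.E02

/-!
# HYP6: instance 2 of the list: n = 0, bounds [4, 6], inner blocks []

664 base clauses, 562 gadgets, 999 learned clauses.
-/

set_option autoImplicit false
set_option maxRecDepth 100000

namespace Pool.Agent.Hyp6

open Rup

universe u v

namespace D02

noncomputable def base : List Rs := [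
.part [40, 16] [0, 0] [7] [],
.join 0 1 3 3 3 0 [(0, 0)],
.part [31, 32] [1, 0] [] [],
.lip 1 32 35 7,
.join 1 1 1 4 3 3 [(0, 2)],
.join 1 5 3 5 4 2 [(0, 0), (2, 1)],
.hall [1] [1, 2],
.join 1 2 3 4 3 2 [(1, 1)],
.part [10, 5] [0, 0] [48] [],
.ordE 1 16 3,
.deg 4 [0, 3],
.l2 1 3 10 1 1 2,
.join 0 1 3 3 2 2 [(0, 1)],
.ordE 1 2 3,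
.lip 1 2 50 56,
.join 1 1 1 3 1 2 [(0, 0)],
.join 0 4 5 4 2 2 [(2, 0)],
.deg 2 [2, 1],
.part [25, 38] [0, 1] [] [],
.join 0 1 5 3 0 3 [(0, 0)],
.deg 5 [1, 2],
.part [17, 40] [0, 0] [6] [],
.l2 0 3 18 1 1 1,
.l2 0 3 18 1 1 2,
.part [11, 52] [0, 1] [] [],
.ab 0 1,
.join 1 2 4 4 2 2 [(1, 0)],
.join 0 4 3 3 0 3 [(2, 0)],
.l2 0 9 40 3 1 2,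
.join 1 1 5 5 3 2 [(0, 0)],
.part [33, 24] [0, 0] [6] [],
.ordE 1 32 1,
.lip 1 16 21 7,
.part [8, 48] [0, 0] [7] [],
.hall [1] [3, 4],
.join 1 1 1 2 0 2 [(0, 0)],
.deg 1 [0, 3],
.hall [0] [1, 2],
.part [10, 17] [0, 0] [] [(0, 36)],
.ab 1 4,
.part [20, 10] [0, 0] [] [(0, 33)],
.part [34, 20] [0, 0] [] [(0, 9)],
.ordE 1 2 1,
.part [17, 10] [0, 0] [] [(0, 36)],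
.part [34, 12] [0, 0] [] [(1, 17)],
.hall [1] [0, 1],
.mono 0 2 34 1,
.join 0 2 2 3 3 0 [(1, 0)],
.join 1 16 5 4 3 2 [(4, 1)],
.l2 0 33 34 5 1 2,
.l2 0 33 40 5 1 1,
.ordE 1 1 3,
.part [46, 17] [1, 0] [] [],
.join 0 2 4 3 1 2 [(1, 0)],
.part [8, 55] [0, 1] [] [],
.hall [0] [4, 5],
.part [36, 17] [0, 0] [] [(1, 10)],
.mono 1 48 50 1,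
.part [3, 12] [0, 0] [48] [],
.deg 4 [3, 0],
.join 0 2 3 3 2 2 [(1, 1)],
.join 0 4 3 3 2 2 [(2, 1)],
.join 0 4 3 3 1 2 [(2, 0)],
.join 0 1 5 3 3 1 [(0, 1)],
.join 0 4 5 3 2 3 [(2, 2)],
.mono 0 32 33 1,
.part [14, 49] [0, 1] [] [],
.l2 0 34 48 5 1 2,
.l2 0 36 40 5 2 1,
.part [5, 10] [0, 0] [48] [],
.join 1 1 1 4 3 2 [(0, 1)],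
.part [36, 10] [0, 0] [] [(1, 17)],
.join 0 1 4 5 2 3 [(0, 0)],
.join 0 2 2 3 0 3 [(1, 0)],
.ab2 0 18,
.join 1 2 2 3 1 2 [(1, 0)],
.mono 0 1 3 1,
.join 1 1 2 4 2 3 [(0, 1)],
.join 1 6 3 5 4 2 [(1, 0), (2, 1)],
.join 0 1 1 3 2 1 [(0, 0)],
.part [17, 46] [0, 1] [] [],
.lip 0 16 21 7,
.ordE 1 4 3,
.join 1 12 5 5 4 2 [(2, 1), (3, 0)],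
.join 1 2 3 3 2 2 [(1, 1)],
.part [34, 12] [0, 0] [] [(0, 17)],
.join 1 9 4 5 3 2 [(0, 0), (3, 0)],
.join 1 4 4 4 2 2 [(2, 0)],
.ordE 0 4 1,
.le 0 18 2 1 2,
.part [9, 36] [0, 0] [] [(0, 18)],
.join 1 1 2 3 2 2 [(0, 1)],
.part [24, 36] [0, 0] [3] [],
.ab2 1 34,
.part [51, 12] [1, 0] [] [],
.part [20, 3] [0, 0] [40] [],
.mono 0 1 17 1,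
.ordL 1 5 1,
.join 1 6 4 5 4 2 [(1, 0), (2, 1)],
.mono 0 8 9 1,
.l2 0 12 24 3 2 1,
.part [18, 12] [0, 0] [] [(1, 33)],
.join 0 1 1 3 1 2 [(0, 0)],
.part [34, 17] [0, 0] [] [(0, 12)],
.join 1 16 5 5 2 3 [(4, 0)],
.l2 0 18 48 4 2 1,
.l2 0 20 36 2 1 2,
.l2 0 33 48 5 1 1,
.join 0 8 4 4 2 2 [(3, 0)],
.ordE 0 1 2,
.join 1 5 5 5 4 2 [(0, 1), (2, 0)],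
.part [43, 20] [1, 0] [] [],
.lip 1 7 47 56,
.ordE 0 8 1,
.part [12, 33] [0, 0] [] [(1, 18)],
.join 0 8 4 3 1 2 [(3, 0)],
.join 1 3 5 5 3 2 [(0, 0), (1, 0)],
.part [44, 19] [0, 1] [] [],
.ab2 1 5,
.l2 0 5 17 0 1 1,
.ab 1 2,
.lip 1 1 49 56,
.part [18, 9] [0, 0] [] [(1, 36)],
.part [10, 33] [0, 0] [] [(1, 20)],
.join 1 3 3 5 4 2 [(0, 0), (1, 1)],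
.join 0 8 4 3 2 1 [(3, 0)],
.join 0 1 3 4 2 2 [(0, 0)],
.le 0 18 2 1 3,
.join 0 1 3 3 0 3 [(0, 0)],
.ab 0 5,
.part [42, 21] [1, 0] [] [],
.part [27, 36] [1, 0] [] [],
.join 1 6 5 5 4 2 [(1, 1), (2, 0)],
.lip 1 16 22 7,
.ab2 0 48,
.join 1 3 5 5 4 2 [(0, 0), (1, 1)],
.part [44, 19] [1, 0] [] [],
.un 0 0,
.l2 0 17 48 4 1 2,
.join 1 16 5 3 1 2 [(4, 0)],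
.join 0 8 5 3 2 2 [(3, 1)],
.join 0 2 4 3 2 1 [(1, 0)],
.l2 0 17 24 4 2 1,
.part [18, 36] [0, 0] [] [(1, 9)],
.part [36, 10] [0, 0] [] [(0, 17)],
.part [62, 1] [1, 0] [] [],
.part [2, 61] [0, 1] [] [],
.le 0 36 32 5 1,
.part [12, 17] [0, 0] [] [(0, 34)],
.l2 0 6 20 2 1 2,
.mono 1 24 56 1,
.join 1 2 3 4 2 2 [(1, 0)],
.ab2 1 48,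
.join 1 1 3 5 2 3 [(0, 0)],
.join 0 2 4 3 2 2 [(1, 1)],
.ab 0 3,
.part [17, 12] [0, 0] [] [(1, 34)],
.part [34, 5] [0, 0] [24] [],
.join 0 2 2 3 2 2 [(1, 1)],
.part [9, 34] [0, 0] [] [(0, 20)],
.join 1 8 4 3 2 1 [(3, 0)],
.join 1 1 1 5 3 2 [(0, 0)],
.join 0 1 4 3 3 0 [(0, 0)],
.mono 1 48 52 1,
.le 0 18 16 4 3,
.deg 3 [0, 3],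
.mono 0 48 52 1,
.ordE 1 8 3,
.join 1 16 5 5 3 2 [(4, 0)],
.join 1 1 3 3 1 2 [(0, 0)],
.part [34, 9] [0, 0] [] [(0, 20)],
.join 0 2 4 4 2 2 [(1, 0)],
.ab2 0 6,
.join 0 4 4 3 2 2 [(2, 1)],
.join 0 2 5 3 2 1 [(1, 0)],
.join 1 8 5 5 2 3 [(3, 0)],
.ordL 1 6 1,
.join 0 1 2 3 2 1 [(0, 0)],
.join 0 8 4 3 3 0 [(3, 0)],
.le 0 10 8 3 1,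
.part [36, 9] [0, 0] [] [(1, 18)],
.part [34, 20] [0, 0] [] [(1, 9)],
.join 0 4 5 3 2 1 [(2, 0)],
.hall [0] [3, 5],
.mono 0 32 48 1,
.ab 1 5,
.join 0 16 5 3 0 3 [(4, 0)],
.join 0 2 3 3 0 3 [(1, 0)],
.part [41, 22] [1, 0] [] [],
.l2 0 12 24 3 1 1,
.l2 0 34 36 5 2 1,
.part [17, 6] [0, 0] [40] [],
.join 0 2 5 3 1 2 [(1, 0)],
.join 0 1 1 4 2 2 [(0, 0)],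
.part [32, 31] [0, 1] [] [],
.part [45, 18] [1, 0] [] [],
.join 0 1 5 3 2 2 [(0, 1)],
.join 1 3 5 5 4 2 [(0, 1), (1, 0)],
.part [18, 36] [0, 0] [] [(0, 9)],
.part [21, 42] [1, 0] [] [],
.ordE 1 4 1,
.join 1 1 1 4 2 2 [(0, 0)],
.ordE 0 16 1,
.part [40, 17] [0, 0] [6] [],
.ab2 1 6,
.mono 0 32 34 1,
.l2 0 3 33 0 1 2,
.l2 1 3 17 0 1 2,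
.deg 3 [3, 0],
.lip 0 4 44 56,
.un 0 5,
.part [10, 17] [0, 0] [] [(1, 36)],
.join 0 4 4 3 0 3 [(2, 0)],
.part [20, 34] [0, 0] [] [(0, 9)],
.le 0 33 32 5 1,
.mono 0 8 40 1,
.part [2, 5] [0, 0] [56] [],
.l2 0 10 40 3 2 1,
.part [20, 9] [0, 0] [] [(0, 34)],
.l2 0 5 12 2 2 1,
.ordE 1 2 2,
.ab2 1 33,
.join 1 1 1 4 1 3 [(0, 0)],
.join 1 8 5 3 2 1 [(3, 0)],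
.join 1 16 5 4 2 3 [(4, 1)],
.part [33, 12] [0, 0] [] [(1, 18)],
.join 1 4 3 4 2 2 [(2, 0)],
.join 0 2 5 5 3 2 [(1, 0)],
.lip 1 8 14 7,
.part [4, 3] [0, 0] [56] [],
.deg 1 [1, 2],
.lip 0 56 61 7,
.ab2 0 20,
.join 1 8 5 4 3 3 [(3, 2)],
.part [24, 32] [0, 0] [7] [],
.deg 5 [2, 1],
.mono 1 6 7 1,
.le 0 33 1 0 2,
.ordE 1 1 1,
.ordE 0 16 3,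
.join 1 2 3 5 3 2 [(1, 0)],
.un 0 4,
.part [3, 4] [0, 0] [56] [],
.part [35, 28] [1, 0] [] [],
.part [37, 26] [1, 0] [] [],
.mono 0 1 9 1,
.mono 1 48 49 1,
.join 1 2 2 5 1 4 [(1, 0)],
.ab 1 0,
.part [12, 33] [0, 0] [] [(0, 18)],
.ordE 0 2 3,
.ordE 0 32 1,
.le 0 12 8 3 2,
.join 1 9 4 5 4 2 [(0, 1), (3, 0)],
.part [20, 34] [0, 0] [] [(1, 9)],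
.ab2 1 17,
.join 1 8 5 4 2 3 [(3, 1)],
.part [33, 12] [0, 0] [] [(0, 18)],
.mono 0 8 10 1,
.part [38, 25] [1, 0] [] [],
.lip 0 2 26 56,
.join 0 8 4 3 0 3 [(3, 0)],
.join 0 16 5 3 1 2 [(4, 0)],
.join 0 1 2 3 2 2 [(0, 1)],
.hall [0] [0, 1],
.le 0 36 4 2 3,
.deg 4 [1, 2],
.l2 0 10 12 3 1 2,
.ab 1 1,
.l2 0 12 40 3 2 1,
.l2 0 20 48 4 2 1,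
.join 0 4 3 3 3 0 [(2, 0)],
.part [59, 4] [1, 0] [] [],
.join 1 2 2 3 0 3 [(1, 0)],
.join 1 4 5 4 2 2 [(2, 0)],
.ab2 0 33,
.join 0 4 4 3 3 0 [(2, 0)],
.part [9, 18] [0, 0] [] [(0, 36)],
.part [9, 6] [0, 0] [48] [],
.lip 0 56 62 7,
.join 1 6 3 5 4 2 [(1, 1), (2, 0)],
.mono 0 32 36 1,
.ab2 1 9,
.part [19, 44] [0, 1] [] [],
.part [20, 33] [0, 0] [] [(0, 10)],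
.join 1 1 3 4 1 3 [(0, 0)],
.part [48, 8] [0, 0] [7] [],
.lip 0 2 42 56,
.join 1 16 5 4 3 3 [(4, 2)],
.hall [0, 1] [3],
.join 1 1 4 4 2 2 [(0, 0)],
.lip 1 4 44 56,
.join 1 1 4 4 2 3 [(0, 1)],
.join 0 2 3 3 3 0 [(1, 0)],
.part [10, 20] [0, 0] [] [(1, 33)],
.join 0 1 2 3 0 3 [(0, 0)],
.join 0 1 5 4 2 2 [(0, 0)],
.lip 0 16 22 7,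
.mono 0 5 7 1,
.join 1 2 2 5 3 2 [(1, 0)],
.join 0 1 5 3 2 1 [(0, 0)],
.mono 1 3 19 1,
.l2 0 12 20 2 1 2,
.l2 1 3 10 1 2 2,
.join 0 8 4 3 2 2 [(3, 1)],
.part [33, 18] [0, 0] [] [(1, 12)],
.l2 0 5 17 0 1 2,
.l2 0 9 17 0 1 2,
.part [4, 59] [0, 1] [] [],
.join 1 2 2 4 3 2 [(1, 1)],
.l2 0 9 10 3 2 1,
.part [10, 20] [0, 0] [] [(0, 33)],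
.part [20, 33] [0, 0] [] [(1, 10)],
.part [18, 33] [0, 0] [] [(1, 12)],
.ab2 0 10,
.hall [0, 1] [2],
.ordE 0 8 2,
.join 1 16 5 4 1 3 [(4, 0)],
.part [18, 5] [0, 0] [40] [],
.join 1 6 5 5 4 2 [(1, 0), (2, 1)],
.mono 1 48 56 1,
.join 1 6 4 5 4 1 [(1, 0), (2, 0)],
.join 0 2 4 3 3 2 [(1, 2)],
.l2 0 5 17 0 2 1,
.join 0 16 5 4 2 2 [(4, 0)],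
.join 1 8 4 4 2 3 [(3, 1)],
.part [33, 6] [0, 0] [24] [],
.part [6, 1] [0, 0] [56] [],
.join 1 1 2 3 1 2 [(0, 0)],
.join 1 4 5 4 1 3 [(2, 0)],
.part [55, 8] [1, 0] [] [],
.join 1 8 4 4 2 2 [(3, 0)],
.deg 0 [0, 3],
.join 0 16 5 3 2 2 [(4, 1)],
.join 0 4 5 3 3 0 [(2, 0)],
.mono 0 2 3 1,
.join 0 1 3 3 4 1 [(0, 2)],
.join 0 8 5 3 3 0 [(3, 0)],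
.join 1 1 4 4 3 1 [(0, 0)],
.join 0 1 3 3 2 1 [(0, 0)],
.join 0 4 3 3 2 1 [(2, 0)],
.join 0 1 4 3 1 2 [(0, 0)],
.part [41, 22] [0, 1] [] [],
.l2 0 18 24 4 2 1,
.join 1 2 5 4 2 2 [(1, 0)],
.hall [0] [3, 4],
.part [17, 36] [0, 0] [] [(0, 10)],
.part [33, 18] [0, 0] [] [(0, 12)],
.ordE 0 1 1,
.join 0 4 4 3 2 1 [(2, 0)],
.join 1 8 5 5 3 2 [(3, 0)],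
.part [17, 10] [0, 0] [] [(1, 36)],
.join 0 1 4 3 2 2 [(0, 1)],
.ordE 1 4 2,
.part [35, 28] [0, 1] [] [],
.lip 1 4 52 56,
.join 0 16 5 3 2 1 [(4, 0)],
.join 0 2 4 3 3 0 [(1, 0)],
.l2 0 17 20 4 1 2,
.join 1 2 2 5 2 3 [(1, 0)],
.l2 0 33 48 5 2 1,
.part [1, 62] [0, 1] [] [],
.part [12, 18] [0, 0] [] [(1, 33)],
.join 0 2 3 3 2 1 [(1, 0)],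
.join 0 8 5 4 2 2 [(3, 0)],
.mono 1 1 3 1,
.join 1 6 5 5 4 1 [(1, 0), (2, 0)],
.le 1 9 1 0 1,
.mono 0 4 36 1,
.ab2 0 9,
.lip 0 32 35 7,
.ordL 0 6 1,
.join 1 6 4 5 4 2 [(1, 1), (2, 0)],
.deg 5 [0, 3],
.join 1 1 4 4 3 2 [(0, 1)],
.un 0 1,
.mono 1 5 7 1,
.lip 1 2 26 56,
.part [28, 35] [0, 1] [] [],
.part [12, 3] [0, 0] [48] [],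
.join 1 1 1 4 2 3 [(0, 1)],
.part [32, 24] [0, 0] [7] [],
.l2 0 33 40 5 2 1,
.mono 0 8 12 1,
.join 0 2 5 3 0 3 [(1, 0)],
.part [10, 53] [0, 1] [] [],
.join 0 8 5 3 0 3 [(3, 0)],
.lip 0 32 38 7,
.part [9, 20] [0, 0] [] [(1, 34)],
.l2 0 6 18 1 1 2,
.l2 0 10 34 1 1 2,
.join 0 1 5 3 1 2 [(0, 0)],
.ab2 0 12,
.l2 0 10 24 3 2 1,
.ab 0 4,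
.l2 0 5 36 2 1 2,
.join 0 1 4 4 2 2 [(0, 0)],
.join 1 8 5 3 1 2 [(3, 0)],
.l2 1 6 10 1 2 1,
.part [48, 9] [0, 0] [6] [],
.hall [0, 1] [0],
.part [9, 54] [0, 1] [] [],
.join 1 1 4 5 2 3 [(0, 0)],
.le 0 36 4 2 1,
.join 1 1 2 5 1 4 [(0, 0)],
.ordL 1 48 1,
.deg 1 [2, 1],
.join 0 2 3 3 1 2 [(1, 0)],
.l2 0 18 34 1 2 1,
.join 1 1 2 4 3 1 [(0, 0)],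
.join 0 2 5 3 3 0 [(1, 0)],
.join 1 4 4 5 3 2 [(2, 0)],
.lip 1 4 28 56,
.mono 0 4 5 1,
.join 0 1 3 3 1 2 [(0, 0)],
.part [53, 10] [1, 0] [] [],
.part [49, 14] [1, 0] [] [],
.join 1 1 1 5 2 3 [(0, 0)],
.l2 0 9 33 0 1 2,
.mono 1 3 11 1,
.part [42, 21] [0, 1] [] [],
.part [10, 48] [0, 0] [5] [],
.join 1 3 3 5 2 3 [(0, 0), (1, 0)],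
.part [20, 10] [0, 0] [] [(1, 33)],
.lip 1 32 38 7,
.lip 0 16 19 7,
.mono 0 48 50 1,
.join 1 2 4 5 2 3 [(1, 0)],
.part [25, 38] [1, 0] [] [],
.join 0 1 2 3 3 0 [(0, 0)],
.deg 1 [3, 0],
.ordE 0 4 2,
.deg 0 [2, 1],
.join 1 2 2 3 2 2 [(1, 1)],
.mono 1 3 35 1,
.ab2 0 5,
.join 1 6 3 5 3 2 [(1, 0), (2, 0)],
.ordE 1 8 1,
.hall [1] [4, 5],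
.l2 0 3 33 0 1 1,
.le 0 9 1 0 1,
.part [20, 40] [0, 0] [3] [],
.part [49, 14] [0, 1] [] [],
.deg 0 [1, 2],
.ab2 1 36,
.join 0 2 4 3 0 3 [(1, 0)],
.part [33, 30] [0, 1] [] [],
.join 0 2 5 3 2 2 [(1, 1)],
.part [17, 34] [0, 0] [] [(1, 12)],
.join 1 4 3 3 2 2 [(2, 1)],
.join 1 2 3 4 2 3 [(1, 1)],
.ab 0 0,
.part [21, 42] [0, 1] [] [],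
.join 0 2 3 3 3 2 [(1, 2)],
.le 0 12 8 3 3,
.l2 1 3 17 0 2 2,
.deg 2 [0, 3],
.join 1 4 3 5 2 3 [(2, 0)],
.join 0 2 4 3 1 3 [(1, 1)],
.part [37, 26] [0, 1] [] [],
.join 0 2 2 3 2 1 [(1, 0)],
.part [12, 48] [0, 0] [3] [],
.un 0 3,
.mono 0 8 24 1,
.lip 1 7 55 56,
.part [47, 16] [1, 0] [] [],
.join 1 16 5 3 2 1 [(4, 0)],
.lip 1 16 19 7,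
.join 0 2 2 4 2 2 [(1, 0)],
.ordE 1 16 2,
.ordE 1 32 2,
.join 0 8 5 3 1 2 [(3, 0)],
.part [36, 17] [0, 0] [] [(0, 10)],
.le 0 34 2 1 1,
.part [33, 10] [0, 0] [] [(0, 20)],
.part [12, 18] [0, 0] [] [(0, 33)],
.deg 3 [2, 1],
.mono 0 2 18 1,
.part [19, 44] [1, 0] [] [],
.part [12, 34] [0, 0] [] [(0, 17)],
.join 1 16 5 4 2 2 [(4, 0)],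
.part [26, 37] [1, 0] [] [],
.l2 0 6 34 1 1 2,
.join 1 8 5 4 2 2 [(3, 0)],
.join 1 8 4 5 3 2 [(3, 0)],
.part [33, 20] [0, 0] [] [(1, 10)],
.deg 2 [3, 0],
.deg 2 [1, 2],
.part [12, 34] [0, 0] [] [(1, 17)],
.part [18, 45] [0, 1] [] [],
.join 1 8 5 4 3 1 [(3, 0)],
.join 1 6 5 5 3 2 [(1, 0), (2, 0)],
.part [29, 34] [1, 0] [] [],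
.part [16, 40] [0, 0] [7] [],
.part [36, 18] [0, 0] [] [(1, 9)],
.mono 0 32 40 1,
.l2 0 36 48 5 2 1,
.l2 0 34 48 5 2 1,
.join 0 4 4 3 1 2 [(2, 0)],
.le 0 9 8 3 3,
.le 0 36 4 2 2,
.part [18, 40] [0, 0] [5] [],
.mono 0 2 10 1,
.join 1 2 2 4 2 2 [(1, 0)],
.mono 0 4 20 1,
.lip 1 56 62 7,
.part [20, 9] [0, 0] [] [(1, 34)],
.lip 0 2 50 56,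
.ab 1 3,
.part [12, 17] [0, 0] [] [(1, 34)],
.part [5, 34] [0, 0] [24] [],
.lip 0 1 25 56,
.l2 0 5 36 2 2 1,
.mono 0 16 17 1,
.join 1 1 5 4 2 2 [(0, 0)],
.join 1 2 2 4 3 3 [(1, 2)],
.l2 1 3 18 1 2 2,
.part [17, 12] [0, 0] [] [(0, 34)],
.join 1 4 4 3 2 2 [(2, 1)],
.lip 0 1 41 56,
.join 1 1 4 5 3 2 [(0, 0)],
.un 0 2,
.lip 1 2 42 56,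
.join 0 4 5 3 2 2 [(2, 1)],
.l2 0 6 10 1 1 2,
.ab2 0 40,
.part [18, 12] [0, 0] [] [(0, 33)],
.join 0 1 2 4 2 2 [(0, 0)],
.join 1 1 3 5 3 2 [(0, 0)],
.join 0 4 5 5 3 2 [(2, 0)],
.part [22, 41] [1, 0] [] [],
.ab2 1 10,
.ab2 1 24,
.ab2 0 34,
.ordE 1 1 2,
.part [10, 36] [0, 0] [] [(1, 17)],
.join 1 1 2 5 2 3 [(0, 0)],
.deg 5 [3, 0],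
.part [1, 6] [0, 0] [56] [],
.join 0 4 5 5 2 4 [(2, 1)],
.ab2 0 24,
.part [26, 37] [0, 1] [] [],
.part [36, 27] [0, 1] [] [],
.lip 1 32 37 7,
.le 0 18 2 1 1,
.join 0 8 5 3 2 1 [(3, 0)],
.part [50, 13] [1, 0] [] [],
.mono 0 6 7 1,
.part [5, 2] [0, 0] [56] [],
.part [9, 48] [0, 0] [6] [],
.mono 0 1 33 1,
.join 1 4 5 5 2 3 [(2, 0)],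
.part [20, 43] [0, 1] [] [],
.l2 0 3 10 1 1 2,
.hall [0] [0, 2],
.part [9, 34] [0, 0] [] [(1, 20)],
.ab2 0 17,
.join 1 1 2 4 3 2 [(0, 1)],
.join 1 8 4 4 3 1 [(3, 0)],
.join 1 8 5 4 1 3 [(3, 0)],
.l2 0 12 36 2 1 2,
.part [16, 47] [0, 1] [] [],
.ab 0 2,
.join 1 1 2 4 3 3 [(0, 2)],
.l2 0 33 36 5 2 1,
.join 1 2 2 3 2 1 [(1, 0)],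
.part [9, 36] [0, 0] [] [(1, 18)],
.join 0 2 2 3 1 2 [(1, 0)],
.part [33, 10] [0, 0] [] [(1, 20)],
.l2 0 9 17 0 2 1,
.lip 1 1 41 56,
.le 0 10 8 3 3,
.part [17, 36] [0, 0] [] [(1, 10)],
.join 0 1 4 3 0 3 [(0, 0)],
.part [34, 24] [0, 0] [5] [],
.mono 0 16 20 1,
.join 0 2 4 3 2 3 [(1, 2)],
.join 1 2 4 5 3 2 [(1, 0)],
.join 1 8 4 4 3 3 [(3, 2)],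
.lip 0 1 49 56,
.join 1 2 2 4 2 3 [(1, 1)],
.join 1 2 4 4 3 2 [(1, 1)],
.ab2 1 12,
.un 1 0,
.ab2 1 18,
.ordE 1 8 2,
.join 1 2 5 5 3 2 [(1, 0)],
.part [30, 33] [1, 0] [] [],
.mono 0 16 48 1,
.part [36, 18] [0, 0] [] [(0, 9)],
.join 1 1 3 4 2 2 [(0, 0)],
.le 0 33 32 5 2,
.l2 1 6 34 1 2 1,
.ordE 1 16 1,
.l2 0 5 9 0 1 2,
.join 1 20 5 5 4 1 [(2, 0), (4, 0)],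
.deg 3 [1, 2],
.part [61, 2] [1, 0] [] [],
.join 1 20 5 5 3 2 [(2, 0), (4, 0)],
.hall [1] [3, 5],
.part [18, 9] [0, 0] [] [(0, 36)],
.ordL 0 24 1,
.part [13, 50] [0, 1] [] [],
.ordE 0 2 1,
.join 1 4 3 5 4 1 [(2, 0)],
.join 0 4 3 3 3 1 [(2, 1)],
.part [12, 51] [0, 1] [] [],
.join 1 10 5 5 3 2 [(1, 0), (3, 0)],
.part [36, 3] [0, 0] [24] [],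
.ab2 0 3,
.ordE 0 8 3,
.join 1 2 5 5 2 3 [(1, 0)],
.join 0 4 5 3 1 2 [(2, 0)],
.part [34, 9] [0, 0] [] [(1, 20)],
.join 1 17 5 5 4 1 [(0, 0), (4, 0)],
.join 1 5 3 5 4 2 [(0, 1), (2, 0)],
.part [34, 29] [0, 1] [] [],
.part [33, 20] [0, 0] [] [(0, 10)],
.ab2 1 20,
.ab2 1 40,
.join 1 8 5 4 3 2 [(3, 1)],
.l2 0 5 12 2 1 2,
.le 0 40 32 5 1,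
.join 1 1 2 3 2 1 [(0, 0)],
.ab2 1 3,
.mono 0 16 18 1,
.join 0 1 5 3 1 3 [(0, 1)],
.deg 0 [3, 0],
.hall [1] [0, 2],
.join 0 4 3 3 3 2 [(2, 2)],
.join 0 4 5 3 0 3 [(2, 0)],
.part [36, 9] [0, 0] [] [(0, 18)],
.l2 0 5 33 0 1 2,
.join 1 16 5 5 4 2 [(4, 1)],
.join 1 16 5 4 3 1 [(4, 0)],
.part [22, 41] [0, 1] [] [],
.lip 0 32 37 7,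
.join 1 1 2 4 2 2 [(0, 0)],
.part [54, 9] [1, 0] [] [],
.mono 0 2 6 1,
.join 1 12 5 5 3 2 [(2, 0), (3, 0)],
.join 0 16 5 3 3 0 [(4, 0)],
.part [17, 34] [0, 0] [] [(0, 12)],
.part [18, 33] [0, 0] [] [(0, 12)],
.join 1 4 3 5 3 2 [(2, 0)],
.part [34, 17] [0, 0] [] [(1, 12)],
.join 1 1 3 3 2 2 [(0, 1)],
.join 0 1 5 3 3 0 [(0, 0)],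
.part [9, 20] [0, 0] [] [(0, 34)],
.part [9, 18] [0, 0] [] [(1, 36)],
.join 1 5 5 5 3 2 [(0, 0), (2, 0)],
.mono 0 4 12 1,
.part [10, 33] [0, 0] [] [(0, 20)],
.join 0 1 2 3 1 2 [(0, 0)],
.ordE 0 2 2,
.join 0 1 4 3 2 1 [(0, 0)],
.join 1 8 4 5 2 3 [(3, 0)],
.le 0 24 8 3 1,
.deg 4 [2, 1],
.part [36, 24] [0, 0] [3] [],
.join 1 1 2 5 3 2 [(0, 0)],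
.join 0 1 1 3 2 2 [(0, 1)],
.l2 0 36 40 5 1 2,
.ab2 0 36]

noncomputable def gads : List Gt := [
⟨0, [⟨0, 0, [(6, 2)]⟩, ⟨1, 4, []⟩, ⟨8, 2, []⟩, ⟨16, 4, []⟩], [3, 1, 1, 12, 4, 4], 2, [(7, 1), (24, 1), (31, 2)]⟩,
⟨1, [⟨5, 4, []⟩, ⟨18, 4, []⟩], [3], 1, [(3, 1), (6, 1), (17, 1), (20, 1)]⟩,
⟨1, [⟨0, 0, [(24, 2)]⟩, ⟨32, 4, []⟩, ⟨2, 2, []⟩, ⟨4, 4, []⟩], [3, 1, 1, 12, 4, 4], 2, [(6, 1), (56, 1), (62, 2)]⟩,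
⟨0, [⟨2, 2, []⟩, ⟨5, 4, []⟩, ⟨8, 2, []⟩, ⟨0, 0, [(33, 2)]⟩], [3, 1, 1, 12, 12, 12], 2, [(3, 1), (6, 1), (41, 1), (43, 2)]⟩,
⟨1, [⟨2, 4, []⟩, ⟨8, 4, []⟩], [3], 1, [(10, 1)]⟩,
⟨1, [⟨24, 4, []⟩, ⟨2, 4, []⟩], [3], 1, [(10, 1), (18, 1)]⟩,
⟨1, [⟨0, 0, [(48, 2)]⟩, ⟨8, 4, []⟩, ⟨1, 2, []⟩, ⟨2, 4, []⟩], [3, 1, 1, 12, 4, 4], 2, [(3, 1), (56, 1), (59, 2)]⟩,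
⟨1, [⟨8, 2, []⟩, ⟨16, 2, []⟩, ⟨2, 3, []⟩, ⟨0, 0, [(5, 3)]⟩], [3, 3, 3, 12, 12], 2, [(7, 1), (24, 1), (31, 2)]⟩,
⟨0, [⟨0, 0, [(6, 2)]⟩, ⟨1, 4, []⟩, ⟨16, 2, []⟩, ⟨8, 4, []⟩], [3, 1, 1, 12, 4, 4], 2, [(7, 1), (24, 1), (31, 2)]⟩,
⟨1, [⟨4, 2, []⟩, ⟨2, 4, []⟩, ⟨16, 2, []⟩, ⟨32, 4, []⟩], [3, 1, 1, 12, 4, 4], 2, [(6, 1), (48, 1), (54, 2)]⟩,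
⟨0, [⟨5, 3, []⟩, ⟨2, 3, []⟩], [3, 3], 1, [(3, 1), (6, 1)]⟩,
⟨1, [⟨49, 5, []⟩, ⟨4, 3, []⟩], [2, 2], 1, [(5, 1), (20, 1), (36, 1)]⟩,
⟨0, [⟨36, 3, []⟩, ⟨2, 3, []⟩], [3, 3], 1, [(6, 1), (34, 1)]⟩,
⟨0, [⟨16, 2, []⟩, ⟨40, 4, []⟩, ⟨4, 2, []⟩, ⟨0, 0, [(9, 2)]⟩], [3, 1, 1, 12, 12, 12], 2, [(13, 1), (24, 1), (29, 2), (48, 1)]⟩,
⟨1, [⟨2, 2, []⟩, ⟨1, 4, []⟩, ⟨16, 2, []⟩, ⟨32, 4, []⟩], [3, 1, 1, 12, 4, 4], 2, [(3, 1), (48, 1), (51, 2)]⟩,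
⟨0, [⟨17, 3, []⟩, ⟨34, 3, []⟩], [3, 3], 1, [(3, 1), (18, 1), (33, 1), (48, 1)]⟩,
⟨1, [⟨2, 2, []⟩, ⟨40, 3, []⟩, ⟨16, 3, []⟩, ⟨0, 0, [(12, 2)]⟩], [9, 9, 9, 6, 6], 2, [(14, 1), (24, 1), (30, 2), (48, 1)]⟩,
⟨0, [⟨2, 2, []⟩, ⟨5, 4, []⟩, ⟨32, 2, []⟩, ⟨0, 0, [(17, 2)]⟩], [3, 1, 1, 12, 12, 12], 2, [(3, 1), (6, 1), (49, 1), (51, 2)]⟩,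
⟨1, [⟨17, 5, []⟩, ⟨2, 3, []⟩], [2, 2], 1, [(3, 1), (18, 1)]⟩,
⟨1, [⟨5, 4, []⟩, ⟨8, 4, []⟩], [3], 1, [(9, 1), (12, 1)]⟩,
⟨0, [⟨0, 0, [(40, 2)]⟩, ⟨16, 4, []⟩, ⟨4, 2, []⟩, ⟨1, 4, []⟩], [3, 1, 1, 12, 4, 4], 2, [(5, 1), (56, 1), (61, 2)]⟩,
⟨1, [⟨6, 4, []⟩, ⟨24, 4, []⟩], [3], 1, [(10, 1), (12, 1), (18, 1), (20, 1)]⟩,
⟨0, [⟨1, 2, []⟩, ⟨18, 4, []⟩, ⟨32, 2, []⟩, ⟨0, 0, [(20, 2)]⟩], [3, 1, 1, 12, 12, 12], 2, [(3, 1), (17, 1), (52, 1), (53, 2)]⟩,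
⟨1, [⟨2, 2, []⟩, ⟨4, 2, []⟩, ⟨16, 3, []⟩, ⟨0, 0, [(40, 3)]⟩], [3, 3, 3, 12, 12], 2, [(6, 1), (56, 1), (62, 2)]⟩,
⟨1, [⟨16, 2, []⟩, ⟨32, 2, []⟩, ⟨8, 3, []⟩, ⟨5, 4, []⟩, ⟨2, 3, []⟩], [25, 7, 7, 18], 2, [(3, 1), (6, 1), (25, 1), (28, 1), (40, 1), (59, 2), (62, 2)]⟩,
⟨0, [⟨2, 3, []⟩, ⟨8, 3, []⟩], [3, 3], 1, [(10, 1)]⟩,
⟨1, [⟨1, 2, []⟩, ⟨4, 4, []⟩, ⟨32, 2, []⟩, ⟨8, 4, []⟩], [3, 1, 1, 12, 4, 4], 2, [(5, 1), (40, 1), (45, 2)]⟩,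
⟨0, [⟨18, 3, []⟩, ⟨12, 3, []⟩], [3, 3], 1, [(6, 1), (10, 1), (20, 1), (24, 1)]⟩,
⟨1, [⟨32, 2, []⟩, ⟨6, 3, []⟩, ⟨1, 3, []⟩, ⟨0, 0, [(18, 2)]⟩], [9, 9, 9, 6, 6], 2, [(3, 1), (5, 1), (50, 1), (51, 2)]⟩,
⟨0, [⟨0, 0, [(6, 2)]⟩, ⟨1, 4, []⟩, ⟨32, 2, []⟩, ⟨8, 4, []⟩], [3, 1, 1, 12, 4, 4], 2, [(7, 1), (40, 1), (47, 2)]⟩,
⟨1, [⟨8, 2, []⟩, ⟨32, 2, []⟩, ⟨16, 3, []⟩, ⟨3, 4, []⟩, ⟨4, 3, []⟩], [25, 7, 7, 18], 2, [(5, 1), (6, 1), (25, 1), (26, 1), (48, 1), (61, 2), (62, 2)]⟩,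
⟨1, [⟨3, 4, []⟩, ⟨40, 4, []⟩], [3], 1, [(9, 1), (10, 1), (33, 1), (34, 1)]⟩,
⟨1, [⟨5, 4, []⟩, ⟨34, 4, []⟩], [3], 1, [(3, 1), (6, 1), (33, 1), (36, 1)]⟩,
⟨1, [⟨25, 5, []⟩, ⟨32, 3, []⟩], [2, 2], 1, [(33, 1), (40, 1), (48, 1)]⟩,
⟨1, [⟨8, 2, []⟩, ⟨16, 4, []⟩, ⟨4, 2, []⟩, ⟨3, 4, []⟩], [3, 1, 1, 12, 4, 4], 2, [(5, 1), (6, 1), (24, 1), (29, 2), (30, 2)]⟩,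
⟨1, [⟨48, 5, []⟩, ⟨2, 3, []⟩], [2, 2], 1, [(18, 1), (34, 1)]⟩,
⟨1, [⟨18, 5, []⟩, ⟨8, 3, []⟩], [2, 2], 1, [(10, 1), (24, 1)]⟩,
⟨1, [⟨3, 4, []⟩, ⟨24, 4, []⟩], [3], 1, [(9, 1), (10, 1), (17, 1), (18, 1)]⟩,
⟨0, [⟨10, 3, []⟩, ⟨4, 3, []⟩], [3, 3], 1, [(6, 1), (12, 1)]⟩,
⟨0, [⟨2, 2, []⟩, ⟨5, 4, []⟩, ⟨16, 2, []⟩, ⟨0, 0, [(33, 2)]⟩], [3, 1, 1, 12, 12, 12], 2, [(3, 1), (6, 1), (49, 1), (51, 2)]⟩,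
⟨1, [⟨1, 2, []⟩, ⟨4, 4, []⟩, ⟨16, 2, []⟩, ⟨32, 4, []⟩], [3, 1, 1, 12, 4, 4], 2, [(5, 1), (48, 1), (53, 2)]⟩,
⟨1, [⟨8, 2, []⟩, ⟨32, 2, []⟩, ⟨3, 3, []⟩, ⟨4, 3, []⟩], [3, 3, 3, 12, 12], 2, [(5, 1), (6, 1), (40, 1), (45, 2), (46, 2)]⟩,
⟨1, [⟨32, 2, []⟩, ⟨16, 4, []⟩, ⟨1, 2, []⟩, ⟨6, 4, []⟩], [3, 1, 1, 12, 4, 4], 2, [(3, 1), (5, 1), (48, 1), (51, 2), (53, 2)]⟩,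
⟨0, [⟨33, 3, []⟩, ⟨18, 3, []⟩], [3, 3], 1, [(3, 1), (17, 1), (34, 1), (48, 1)]⟩,
⟨0, [⟨4, 2, []⟩, ⟨3, 4, []⟩, ⟨16, 2, []⟩, ⟨0, 0, [(9, 2)]⟩], [3, 1, 1, 12, 12, 12], 2, [(5, 1), (6, 1), (25, 1), (29, 2)]⟩,
⟨1, [⟨12, 4, []⟩, ⟨2, 4, []⟩], [3], 1, [(6, 1), (10, 1)]⟩,
⟨0, [⟨1, 2, []⟩, ⟨36, 4, []⟩, ⟨16, 2, []⟩, ⟨0, 0, [(34, 2)]⟩], [3, 1, 1, 12, 12, 12], 2, [(5, 1), (33, 1), (50, 1), (51, 2)]⟩,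
⟨1, [⟨2, 2, []⟩, ⟨4, 4, []⟩, ⟨16, 2, []⟩, ⟨32, 4, []⟩], [3, 1, 1, 12, 4, 4], 2, [(6, 1), (48, 1), (54, 2)]⟩,
⟨0, [⟨33, 3, []⟩, ⟨20, 3, []⟩], [3, 3], 1, [(5, 1), (17, 1), (36, 1), (48, 1)]⟩,
⟨1, [⟨12, 5, []⟩, ⟨32, 3, []⟩], [2, 2], 1, [(36, 1), (40, 1)]⟩,
⟨1, [⟨2, 2, []⟩, ⟨4, 2, []⟩, ⟨40, 3, []⟩, ⟨16, 3, []⟩], [3, 3, 3, 12, 12], 2, [(6, 1), (24, 1), (30, 2), (48, 1), (54, 2)]⟩,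
⟨1, [⟨1, 4, []⟩, ⟨2, 4, []⟩], [3], 1, [(3, 1)]⟩,
⟨1, [⟨11, 5, []⟩, ⟨32, 3, []⟩], [2, 2], 1, [(33, 1), (34, 1), (40, 1)]⟩,
⟨1, [⟨1, 2, []⟩, ⟨2, 2, []⟩, ⟨8, 3, []⟩, ⟨0, 0, [(48, 3)]⟩], [3, 3, 3, 12, 12], 2, [(3, 1), (56, 1), (59, 2)]⟩,
⟨1, [⟨9, 5, []⟩, ⟨32, 3, []⟩], [2, 2], 1, [(33, 1), (40, 1)]⟩,
⟨0, [⟨36, 3, []⟩, ⟨8, 3, []⟩], [3, 3], 1, [(12, 1), (40, 1)]⟩,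
⟨0, [⟨16, 4, []⟩, ⟨36, 5, []⟩, ⟨9, 4, []⟩], [5], 1, [(21, 1), (28, 1), (49, 1), (56, 1)]⟩,
⟨1, [⟨24, 4, []⟩, ⟨36, 4, []⟩], [3], 1, [(12, 1), (20, 1), (40, 1), (48, 1)]⟩,
⟨1, [⟨1, 2, []⟩, ⟨4, 4, []⟩, ⟨32, 2, []⟩, ⟨16, 4, []⟩], [3, 1, 1, 12, 4, 4], 2, [(5, 1), (48, 1), (53, 2)]⟩,
⟨0, [⟨4, 2, []⟩, ⟨1, 4, []⟩, ⟨8, 2, []⟩, ⟨16, 2, []⟩], [3, 1, 1, 12, 12, 12], 2, [(5, 1), (24, 1), (29, 2)]⟩,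
⟨0, [⟨16, 2, []⟩, ⟨33, 4, []⟩, ⟨2, 2, []⟩, ⟨0, 0, [(9, 2)]⟩], [3, 1, 1, 12, 12, 12], 2, [(11, 1), (17, 1), (27, 2), (48, 1)]⟩,
⟨1, [⟨8, 2, []⟩, ⟨32, 4, []⟩, ⟨4, 2, []⟩, ⟨3, 4, []⟩], [3, 1, 1, 12, 4, 4], 2, [(5, 1), (6, 1), (40, 1), (45, 2), (46, 2)]⟩,
⟨0, [⟨8, 3, []⟩, ⟨32, 3, []⟩], [3, 3], 1, [(40, 1)]⟩,
⟨1, [⟨32, 2, []⟩, ⟨16, 4, []⟩, ⟨4, 2, []⟩, ⟨3, 4, []⟩], [3, 1, 1, 12, 4, 4], 2, [(5, 1), (6, 1), (48, 1), (53, 2), (54, 2)]⟩,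
⟨1, [⟨10, 5, []⟩, ⟨32, 3, []⟩], [2, 2], 1, [(34, 1), (40, 1)]⟩,
⟨1, [⟨2, 2, []⟩, ⟨4, 2, []⟩, ⟨1, 3, []⟩, ⟨48, 4, []⟩, ⟨8, 3, []⟩], [25, 7, 7, 18], 2, [(5, 1), (19, 1), (24, 1), (31, 2), (35, 1), (40, 1), (47, 2)]⟩,
⟨0, [⟨16, 2, []⟩, ⟨32, 4, []⟩, ⟨2, 2, []⟩, ⟨4, 2, []⟩], [3, 1, 1, 12, 12, 12], 2, [(6, 1), (48, 1), (54, 2)]⟩,
⟨1, [⟨16, 4, []⟩, ⟨40, 4, []⟩], [3], 1, [(24, 1), (48, 1)]⟩,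
⟨0, [⟨1, 2, []⟩, ⟨4, 4, []⟩, ⟨16, 2, []⟩, ⟨32, 2, []⟩], [3, 1, 1, 12, 12, 12], 2, [(5, 1), (48, 1), (53, 2)]⟩,
⟨1, [⟨1, 2, []⟩, ⟨2, 4, []⟩, ⟨32, 2, []⟩, ⟨8, 4, []⟩], [3, 1, 1, 12, 4, 4], 2, [(3, 1), (40, 1), (43, 2)]⟩,
⟨1, [⟨8, 2, []⟩, ⟨32, 4, []⟩, ⟨1, 2, []⟩, ⟨6, 4, []⟩], [3, 1, 1, 12, 4, 4], 2, [(3, 1), (5, 1), (40, 1), (43, 2), (45, 2)]⟩,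
⟨0, [⟨2, 2, []⟩, ⟨4, 4, []⟩, ⟨16, 2, []⟩, ⟨32, 2, []⟩], [3, 1, 1, 12, 12, 12], 2, [(6, 1), (48, 1), (54, 2)]⟩,
⟨1, [⟨2, 4, []⟩, ⟨32, 4, []⟩], [3], 1, [(34, 1)]⟩,
⟨1, [⟨24, 5, []⟩, ⟨1, 3, []⟩], [2, 2], 1, [(9, 1), (17, 1)]⟩,
⟨1, [⟨1, 2, []⟩, ⟨24, 3, []⟩, ⟨32, 3, []⟩, ⟨0, 0, [(10, 2)]⟩], [9, 9, 9, 6, 6], 2, [(11, 1), (40, 1), (43, 2), (48, 1)]⟩,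
⟨0, [⟨0, 0, [(6, 2)]⟩, ⟨1, 4, []⟩, ⟨8, 2, []⟩, ⟨32, 4, []⟩], [3, 1, 1, 12, 4, 4], 2, [(7, 1), (40, 1), (47, 2)]⟩,
⟨0, [⟨0, 0, [(5, 2)]⟩, ⟨2, 4, []⟩, ⟨8, 2, []⟩, ⟨32, 4, []⟩], [3, 1, 1, 12, 4, 4], 2, [(7, 1), (40, 1), (47, 2)]⟩,
⟨1, [⟨37, 5, []⟩, ⟨2, 3, []⟩], [2, 2], 1, [(3, 1), (6, 1), (34, 1)]⟩,
⟨1, [⟨6, 5, []⟩, ⟨16, 3, []⟩], [2, 2], 1, [(18, 1), (20, 1)]⟩,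
⟨0, [⟨0, 0, [(24, 2)]⟩, ⟨32, 4, []⟩, ⟨4, 2, []⟩, ⟨2, 4, []⟩], [3, 1, 1, 12, 4, 4], 2, [(6, 1), (56, 1), (62, 2)]⟩,
⟨1, [⟨3, 5, []⟩, ⟨8, 3, []⟩], [2, 2], 1, [(9, 1), (10, 1)]⟩,
⟨0, [⟨3, 3, []⟩, ⟨48, 3, []⟩], [3, 3], 1, [(17, 1), (18, 1), (33, 1), (34, 1)]⟩,
⟨1, [⟨4, 2, []⟩, ⟨1, 4, []⟩, ⟨8, 2, []⟩, ⟨32, 4, []⟩], [3, 1, 1, 12, 4, 4], 2, [(5, 1), (40, 1), (45, 2)]⟩,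
⟨1, [⟨0, 0, [(40, 2)]⟩, ⟨16, 4, []⟩, ⟨2, 2, []⟩, ⟨1, 4, []⟩], [3, 1, 1, 12, 4, 4], 2, [(3, 1), (56, 1), (59, 2)]⟩,
⟨0, [⟨34, 3, []⟩, ⟨5, 3, []⟩], [3, 3], 1, [(3, 1), (6, 1), (33, 1), (36, 1)]⟩,
⟨0, [⟨1, 2, []⟩, ⟨4, 4, []⟩, ⟨8, 2, []⟩, ⟨32, 2, []⟩], [3, 1, 1, 12, 12, 12], 2, [(5, 1), (40, 1), (45, 2)]⟩,
⟨1, [⟨4, 2, []⟩, ⟨1, 4, []⟩, ⟨16, 2, []⟩, ⟨32, 4, []⟩], [3, 1, 1, 12, 4, 4], 2, [(5, 1), (48, 1), (53, 2)]⟩,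
⟨0, [⟨0, 0, [(5, 2)]⟩, ⟨2, 4, []⟩, ⟨16, 2, []⟩, ⟨8, 4, []⟩], [3, 1, 1, 12, 4, 4], 2, [(7, 1), (24, 1), (31, 2)]⟩,
⟨0, [⟨8, 2, []⟩, ⟨16, 4, []⟩, ⟨2, 2, []⟩, ⟨4, 2, []⟩], [3, 1, 1, 12, 12, 12], 2, [(6, 1), (24, 1), (30, 2)]⟩,
⟨1, [⟨9, 5, []⟩, ⟨2, 3, []⟩], [2, 2], 1, [(3, 1), (10, 1)]⟩,
⟨1, [⟨8, 2, []⟩, ⟨16, 2, []⟩, ⟨32, 3, []⟩, ⟨5, 4, []⟩, ⟨2, 3, []⟩], [25, 7, 7, 18], 2, [(3, 1), (6, 1), (41, 1), (44, 1), (48, 1), (59, 2), (62, 2)]⟩,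
⟨1, [⟨1, 4, []⟩, ⟨16, 4, []⟩], [3], 1, [(17, 1)]⟩,
⟨1, [⟨4, 4, []⟩, ⟨3, 4, []⟩], [3], 1, [(5, 1), (6, 1)]⟩,
⟨1, [⟨6, 4, []⟩, ⟨17, 4, []⟩], [3], 1, [(3, 1), (5, 1), (18, 1), (20, 1)]⟩,
⟨1, [⟨1, 2, []⟩, ⟨4, 2, []⟩, ⟨16, 3, []⟩, ⟨32, 3, []⟩], [3, 3, 3, 12, 12], 2, [(5, 1), (48, 1), (53, 2)]⟩,
⟨1, [⟨36, 5, []⟩, ⟨2, 3, []⟩], [2, 2], 1, [(6, 1), (34, 1)]⟩,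
⟨0, [⟨33, 3, []⟩, ⟨4, 3, []⟩], [3, 3], 1, [(5, 1), (36, 1)]⟩,
⟨1, [⟨1, 2, []⟩, ⟨4, 2, []⟩, ⟨8, 3, []⟩, ⟨16, 3, []⟩], [3, 3, 3, 12, 12], 2, [(5, 1), (24, 1), (29, 2)]⟩,
⟨0, [⟨40, 3, []⟩, ⟨16, 3, []⟩], [3, 3], 1, [(24, 1), (48, 1)]⟩,
⟨1, [⟨6, 5, []⟩, ⟨8, 3, []⟩], [2, 2], 1, [(10, 1), (12, 1)]⟩,
⟨1, [⟨10, 4, []⟩, ⟨1, 4, []⟩], [3], 1, [(3, 1), (9, 1)]⟩,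
⟨1, [⟨0, 0, [(6, 2)]⟩, ⟨1, 4, []⟩, ⟨16, 2, []⟩, ⟨8, 4, []⟩], [3, 1, 1, 12, 4, 4], 2, [(7, 1), (24, 1), (31, 2)]⟩,
⟨1, [⟨2, 2, []⟩, ⟨4, 2, []⟩, ⟨1, 3, []⟩, ⟨24, 4, []⟩, ⟨32, 3, []⟩], [25, 7, 7, 18], 2, [(5, 1), (11, 1), (19, 1), (40, 1), (47, 2), (48, 1), (55, 2)]⟩,
⟨1, [⟨18, 5, []⟩, ⟨4, 3, []⟩], [2, 2], 1, [(6, 1), (20, 1)]⟩,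
⟨1, [⟨4, 2, []⟩, ⟨40, 3, []⟩, ⟨16, 3, []⟩, ⟨0, 0, [(10, 2)]⟩], [9, 9, 9, 6, 6], 2, [(14, 1), (24, 1), (30, 2), (48, 1)]⟩,
⟨0, [⟨1, 3, []⟩, ⟨16, 3, []⟩], [3, 3], 1, [(17, 1)]⟩,
⟨1, [⟨0, 0, [(3, 2)]⟩, ⟨4, 4, []⟩, ⟨16, 2, []⟩, ⟨32, 4, []⟩], [3, 1, 1, 12, 4, 4], 2, [(7, 1), (48, 1), (55, 2)]⟩,
⟨0, [⟨8, 2, []⟩, ⟨32, 4, []⟩, ⟨2, 2, []⟩, ⟨4, 2, []⟩], [3, 1, 1, 12, 12, 12], 2, [(6, 1), (40, 1), (46, 2)]⟩,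
⟨0, [⟨16, 2, []⟩, ⟨32, 2, []⟩, ⟨3, 4, []⟩, ⟨4, 2, []⟩], [3, 3, 3, 12, 8, 8], 2, [(5, 1), (6, 1), (48, 1), (53, 2), (54, 2)]⟩,
⟨1, [⟨32, 2, []⟩, ⟨6, 3, []⟩, ⟨1, 3, []⟩, ⟨0, 0, [(12, 2)]⟩], [9, 9, 9, 6, 6], 2, [(3, 1), (5, 1), (44, 1), (45, 2)]⟩,
⟨0, [⟨16, 2, []⟩, ⟨32, 4, []⟩, ⟨1, 2, []⟩, ⟨2, 2, []⟩], [3, 1, 1, 12, 12, 12], 2, [(3, 1), (48, 1), (51, 2)]⟩,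
⟨1, [⟨34, 4, []⟩, ⟨1, 4, []⟩], [3], 1, [(3, 1), (33, 1)]⟩,
⟨1, [⟨0, 0, [(5, 2)]⟩, ⟨2, 4, []⟩, ⟨16, 2, []⟩, ⟨32, 4, []⟩], [3, 1, 1, 12, 4, 4], 2, [(7, 1), (48, 1), (55, 2)]⟩,
⟨1, [⟨8, 2, []⟩, ⟨16, 2, []⟩, ⟨1, 3, []⟩, ⟨2, 3, []⟩], [3, 3, 3, 12, 12], 2, [(3, 1), (24, 1), (27, 2)]⟩,
⟨0, [⟨8, 2, []⟩, ⟨48, 4, []⟩, ⟨4, 2, []⟩, ⟨0, 0, [(33, 2)]⟩], [3, 1, 1, 12, 12, 12], 2, [(24, 1), (37, 1), (40, 1), (45, 2)]⟩,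
⟨1, [⟨1, 2, []⟩, ⟨4, 2, []⟩, ⟨2, 3, []⟩, ⟨48, 4, []⟩, ⟨8, 3, []⟩], [25, 7, 7, 18], 2, [(6, 1), (19, 1), (24, 1), (31, 2), (35, 1), (40, 1), (47, 2)]⟩,
⟨0, [⟨2, 2, []⟩, ⟨4, 2, []⟩, ⟨24, 4, []⟩, ⟨32, 2, []⟩], [3, 3, 3, 12, 8, 8], 2, [(6, 1), (40, 1), (46, 2), (48, 1), (54, 2)]⟩,
⟨0, [⟨8, 3, []⟩, ⟨16, 3, []⟩], [3, 3], 1, [(24, 1)]⟩,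
⟨1, [⟨36, 4, []⟩, ⟨2, 4, []⟩], [3], 1, [(6, 1), (34, 1)]⟩,
⟨1, [⟨16, 2, []⟩, ⟨32, 2, []⟩, ⟨3, 3, []⟩, ⟨4, 3, []⟩], [3, 3, 3, 12, 12], 2, [(5, 1), (6, 1), (48, 1), (53, 2), (54, 2)]⟩,
⟨0, [⟨0, 0, [(5, 2)]⟩, ⟨2, 4, []⟩, ⟨8, 2, []⟩, ⟨16, 4, []⟩], [3, 1, 1, 12, 4, 4], 2, [(7, 1), (24, 1), (31, 2)]⟩,
⟨0, [⟨12, 3, []⟩, ⟨16, 3, []⟩], [3, 3], 1, [(20, 1), (24, 1)]⟩,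
⟨1, [⟨32, 2, []⟩, ⟨16, 4, []⟩, ⟨2, 2, []⟩, ⟨5, 4, []⟩], [3, 1, 1, 12, 4, 4], 2, [(3, 1), (6, 1), (48, 1), (51, 2), (54, 2)]⟩,
⟨1, [⟨20, 5, []⟩, ⟨8, 3, []⟩], [2, 2], 1, [(12, 1), (24, 1)]⟩,
⟨1, [⟨8, 2, []⟩, ⟨16, 2, []⟩, ⟨1, 3, []⟩, ⟨0, 0, [(6, 3)]⟩], [3, 3, 3, 12, 12], 2, [(7, 1), (24, 1), (31, 2)]⟩,
⟨1, [⟨16, 2, []⟩, ⟨3, 3, []⟩, ⟨4, 3, []⟩, ⟨0, 0, [(34, 2)]⟩], [9, 9, 9, 6, 6], 2, [(5, 1), (6, 1), (50, 1), (54, 2)]⟩,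
⟨1, [⟨8, 2, []⟩, ⟨32, 2, []⟩, ⟨6, 3, []⟩, ⟨1, 3, []⟩], [3, 3, 3, 12, 12], 2, [(3, 1), (5, 1), (40, 1), (43, 2), (45, 2)]⟩,
⟨1, [⟨32, 2, []⟩, ⟨5, 3, []⟩, ⟨2, 3, []⟩, ⟨0, 0, [(12, 2)]⟩], [9, 9, 9, 6, 6], 2, [(3, 1), (6, 1), (44, 1), (46, 2)]⟩,
⟨1, [⟨6, 4, []⟩, ⟨33, 4, []⟩], [3], 1, [(3, 1), (5, 1), (34, 1), (36, 1)]⟩,
⟨1, [⟨12, 4, []⟩, ⟨1, 4, []⟩], [3], 1, [(5, 1), (9, 1)]⟩,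
⟨1, [⟨1, 2, []⟩, ⟨4, 4, []⟩, ⟨16, 2, []⟩, ⟨40, 4, []⟩], [3, 1, 1, 12, 4, 4], 2, [(5, 1), (24, 1), (29, 2), (48, 1), (53, 2)]⟩,
⟨1, [⟨24, 5, []⟩, ⟨4, 3, []⟩], [2, 2], 1, [(12, 1), (20, 1)]⟩,
⟨1, [⟨1, 2, []⟩, ⟨2, 2, []⟩, ⟨48, 3, []⟩, ⟨8, 3, []⟩], [3, 3, 3, 12, 12], 2, [(3, 1), (24, 1), (27, 2), (40, 1), (43, 2)]⟩,
⟨1, [⟨35, 5, []⟩, ⟨8, 3, []⟩], [2, 2], 1, [(9, 1), (10, 1), (40, 1)]⟩,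
⟨1, [⟨8, 2, []⟩, ⟨3, 3, []⟩, ⟨4, 3, []⟩, ⟨0, 0, [(34, 2)]⟩], [9, 9, 9, 6, 6], 2, [(5, 1), (6, 1), (42, 1), (46, 2)]⟩,
⟨0, [⟨8, 2, []⟩, ⟨16, 2, []⟩, ⟨6, 4, []⟩, ⟨1, 2, []⟩], [3, 3, 3, 12, 8, 8], 2, [(3, 1), (5, 1), (24, 1), (27, 2), (29, 2)]⟩,
⟨1, [⟨16, 2, []⟩, ⟨3, 3, []⟩, ⟨4, 3, []⟩, ⟨0, 0, [(33, 2)]⟩], [9, 9, 9, 6, 6], 2, [(5, 1), (6, 1), (49, 1), (53, 2)]⟩,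
⟨1, [⟨16, 2, []⟩, ⟨32, 2, []⟩, ⟨1, 3, []⟩, ⟨4, 3, []⟩], [3, 3, 3, 12, 12], 2, [(5, 1), (48, 1), (53, 2)]⟩,
⟨1, [⟨4, 2, []⟩, ⟨2, 4, []⟩, ⟨32, 2, []⟩, ⟨16, 4, []⟩], [3, 1, 1, 12, 4, 4], 2, [(6, 1), (48, 1), (54, 2)]⟩,
⟨0, [⟨4, 2, []⟩, ⟨3, 4, []⟩, ⟨16, 2, []⟩, ⟨0, 0, [(33, 2)]⟩], [3, 1, 1, 12, 12, 12], 2, [(5, 1), (6, 1), (49, 1), (53, 2)]⟩,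
⟨0, [⟨2, 4, []⟩, ⟨36, 5, []⟩, ⟨17, 4, []⟩], [5], 1, [(7, 1), (22, 1), (35, 1), (50, 1)]⟩,
⟨0, [⟨0, 0, [(24, 2)]⟩, ⟨32, 4, []⟩, ⟨2, 2, []⟩, ⟨1, 4, []⟩], [3, 1, 1, 12, 4, 4], 2, [(3, 1), (56, 1), (59, 2)]⟩,
⟨0, [⟨20, 3, []⟩, ⟨3, 3, []⟩], [3, 3], 1, [(5, 1), (6, 1), (17, 1), (18, 1)]⟩,
⟨1, [⟨5, 5, []⟩, ⟨16, 3, []⟩], [2, 2], 1, [(17, 1), (20, 1)]⟩,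
⟨0, [⟨17, 3, []⟩, ⟨36, 3, []⟩], [3, 3], 1, [(5, 1), (20, 1), (33, 1), (48, 1)]⟩,
⟨1, [⟨2, 2, []⟩, ⟨4, 2, []⟩, ⟨1, 3, []⟩, ⟨40, 4, []⟩, ⟨16, 3, []⟩], [25, 7, 7, 18], 2, [(5, 1), (11, 1), (24, 1), (31, 2), (35, 1), (48, 1), (55, 2)]⟩,
⟨0, [⟨3, 3, []⟩, ⟨24, 3, []⟩], [3, 3], 1, [(9, 1), (10, 1), (17, 1), (18, 1)]⟩,
⟨1, [⟨48, 4, []⟩, ⟨4, 4, []⟩], [3], 1, [(20, 1), (36, 1)]⟩,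
⟨1, [⟨8, 2, []⟩, ⟨16, 2, []⟩, ⟨3, 3, []⟩, ⟨4, 3, []⟩], [3, 3, 3, 12, 12], 2, [(5, 1), (6, 1), (24, 1), (29, 2), (30, 2)]⟩,
⟨1, [⟨34, 5, []⟩, ⟨16, 3, []⟩], [2, 2], 1, [(18, 1), (48, 1)]⟩,
⟨1, [⟨12, 4, []⟩, ⟨16, 4, []⟩], [3], 1, [(20, 1), (24, 1)]⟩,
⟨0, [⟨12, 3, []⟩, ⟨48, 3, []⟩], [3, 3], 1, [(20, 1), (24, 1), (36, 1), (40, 1)]⟩,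
⟨0, [⟨34, 3, []⟩, ⟨16, 3, []⟩], [3, 3], 1, [(18, 1), (48, 1)]⟩,
⟨1, [⟨2, 2, []⟩, ⟨4, 2, []⟩, ⟨16, 3, []⟩, ⟨32, 3, []⟩], [3, 3, 3, 12, 12], 2, [(6, 1), (48, 1), (54, 2)]⟩,
⟨1, [⟨9, 3, []⟩, ⟨2, 2, []⟩, ⟨32, 3, []⟩, ⟨0, 0, [(17, 2)]⟩], [5, 5, 10, 10, 10], 2, [(19, 1), (33, 1), (40, 1), (51, 2)]⟩,
⟨1, [⟨8, 2, []⟩, ⟨16, 2, []⟩, ⟨5, 3, []⟩, ⟨2, 3, []⟩], [3, 3, 3, 12, 12], 2, [(3, 1), (6, 1), (24, 1), (27, 2), (30, 2)]⟩,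
⟨1, [⟨0, 0, [(5, 2)]⟩, ⟨2, 4, []⟩, ⟨32, 2, []⟩, ⟨8, 4, []⟩], [3, 1, 1, 12, 4, 4], 2, [(7, 1), (40, 1), (47, 2)]⟩,
⟨1, [⟨4, 2, []⟩, ⟨1, 4, []⟩, ⟨32, 2, []⟩, ⟨8, 4, []⟩], [3, 1, 1, 12, 4, 4], 2, [(5, 1), (40, 1), (45, 2)]⟩,
⟨1, [⟨4, 2, []⟩, ⟨1, 4, []⟩, ⟨8, 2, []⟩, ⟨16, 4, []⟩], [3, 1, 1, 12, 4, 4], 2, [(5, 1), (24, 1), (29, 2)]⟩,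
⟨1, [⟨1, 2, []⟩, ⟨4, 2, []⟩, ⟨32, 3, []⟩, ⟨0, 0, [(24, 3)]⟩], [3, 3, 3, 12, 12], 2, [(5, 1), (56, 1), (61, 2)]⟩,
⟨1, [⟨24, 4, []⟩, ⟨33, 4, []⟩], [3], 1, [(9, 1), (17, 1), (40, 1), (48, 1)]⟩,
⟨0, [⟨1, 3, []⟩, ⟨2, 3, []⟩], [3, 3], 1, [(3, 1)]⟩,
⟨1, [⟨2, 2, []⟩, ⟨4, 4, []⟩, ⟨8, 2, []⟩, ⟨16, 4, []⟩], [3, 1, 1, 12, 4, 4], 2, [(6, 1), (24, 1), (30, 2)]⟩,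
⟨1, [⟨8, 2, []⟩, ⟨32, 2, []⟩, ⟨1, 3, []⟩, ⟨4, 3, []⟩], [3, 3, 3, 12, 12], 2, [(5, 1), (40, 1), (45, 2)]⟩,
⟨1, [⟨0, 0, [(40, 2)]⟩, ⟨16, 4, []⟩, ⟨4, 2, []⟩, ⟨2, 4, []⟩], [3, 1, 1, 12, 4, 4], 2, [(6, 1), (56, 1), (62, 2)]⟩,
⟨1, [⟨18, 5, []⟩, ⟨32, 3, []⟩], [2, 2], 1, [(34, 1), (48, 1)]⟩,
⟨0, [⟨20, 3, []⟩, ⟨40, 3, []⟩], [3, 3], 1, [(12, 1), (24, 1), (36, 1), (48, 1)]⟩,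
⟨1, [⟨1, 2, []⟩, ⟨2, 2, []⟩, ⟨4, 3, []⟩, ⟨40, 4, []⟩, ⟨16, 3, []⟩], [25, 7, 7, 18], 2, [(6, 1), (13, 1), (24, 1), (31, 2), (37, 1), (48, 1), (55, 2)]⟩,
⟨1, [⟨1, 2, []⟩, ⟨2, 4, []⟩, ⟨16, 2, []⟩, ⟨8, 4, []⟩], [3, 1, 1, 12, 4, 4], 2, [(3, 1), (24, 1), (27, 2)]⟩,
⟨1, [⟨32, 4, []⟩, ⟨24, 4, []⟩], [3], 1, [(40, 1), (48, 1)]⟩,
⟨1, [⟨17, 5, []⟩, ⟨8, 3, []⟩], [2, 2], 1, [(9, 1), (24, 1)]⟩,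
⟨0, [⟨1, 2, []⟩, ⟨2, 2, []⟩, ⟨48, 4, []⟩, ⟨8, 2, []⟩], [3, 3, 3, 12, 8, 8], 2, [(3, 1), (24, 1), (27, 2), (40, 1), (43, 2)]⟩,
⟨0, [⟨16, 2, []⟩, ⟨40, 4, []⟩, ⟨1, 2, []⟩, ⟨0, 0, [(34, 2)]⟩], [3, 1, 1, 12, 12, 12], 2, [(24, 1), (35, 1), (48, 1), (51, 2)]⟩,
⟨0, [⟨9, 3, []⟩, ⟨32, 3, []⟩], [3, 3], 1, [(33, 1), (40, 1)]⟩,
⟨0, [⟨16, 2, []⟩, ⟨8, 4, []⟩, ⟨2, 2, []⟩, ⟨4, 2, []⟩], [3, 1, 1, 12, 12, 12], 2, [(6, 1), (24, 1), (30, 2)]⟩,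
⟨0, [⟨0, 0, [(48, 2)]⟩, ⟨8, 4, []⟩, ⟨1, 2, []⟩, ⟨4, 4, []⟩], [3, 1, 1, 12, 4, 4], 2, [(5, 1), (56, 1), (61, 2)]⟩,
⟨1, [⟨16, 2, []⟩, ⟨32, 4, []⟩, ⟨2, 2, []⟩, ⟨5, 4, []⟩], [3, 1, 1, 12, 4, 4], 2, [(3, 1), (6, 1), (48, 1), (51, 2), (54, 2)]⟩,
⟨1, [⟨1, 4, []⟩, ⟨8, 4, []⟩], [3], 1, [(9, 1)]⟩,
⟨1, [⟨8, 2, []⟩, ⟨32, 2, []⟩, ⟨5, 3, []⟩, ⟨2, 3, []⟩], [3, 3, 3, 12, 12], 2, [(3, 1), (6, 1), (40, 1), (43, 2), (46, 2)]⟩,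
⟨1, [⟨11, 5, []⟩, ⟨4, 3, []⟩], [2, 2], 1, [(5, 1), (6, 1), (12, 1)]⟩,
⟨0, [⟨4, 2, []⟩, ⟨3, 4, []⟩, ⟨32, 2, []⟩, ⟨0, 0, [(18, 2)]⟩], [3, 1, 1, 12, 12, 12], 2, [(5, 1), (6, 1), (50, 1), (54, 2)]⟩,
⟨0, [⟨16, 2, []⟩, ⟨40, 4, []⟩, ⟨2, 2, []⟩, ⟨0, 0, [(33, 2)]⟩], [3, 1, 1, 12, 12, 12], 2, [(24, 1), (35, 1), (48, 1), (51, 2)]⟩,
⟨1, [⟨24, 4, []⟩, ⟨34, 4, []⟩], [3], 1, [(10, 1), (18, 1), (40, 1), (48, 1)]⟩,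
⟨0, [⟨3, 3, []⟩, ⟨4, 3, []⟩], [3, 3], 1, [(5, 1), (6, 1)]⟩,
⟨0, [⟨17, 3, []⟩, ⟨40, 3, []⟩], [3, 3], 1, [(9, 1), (24, 1), (33, 1), (48, 1)]⟩,
⟨1, [⟨35, 5, []⟩, ⟨4, 3, []⟩], [2, 2], 1, [(5, 1), (6, 1), (36, 1)]⟩,
⟨1, [⟨8, 2, []⟩, ⟨32, 2, []⟩, ⟨1, 3, []⟩, ⟨2, 3, []⟩], [3, 3, 3, 12, 12], 2, [(3, 1), (40, 1), (43, 2)]⟩,
⟨0, [⟨1, 2, []⟩, ⟨4, 2, []⟩, ⟨24, 4, []⟩, ⟨32, 2, []⟩], [3, 3, 3, 12, 8, 8], 2, [(5, 1), (40, 1), (45, 2), (48, 1), (53, 2)]⟩,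
⟨1, [⟨2, 2, []⟩, ⟨40, 3, []⟩, ⟨16, 3, []⟩, ⟨0, 0, [(33, 2)]⟩], [9, 9, 9, 6, 6], 2, [(24, 1), (35, 1), (48, 1), (51, 2)]⟩,
⟨1, [⟨2, 2, []⟩, ⟨4, 2, []⟩, ⟨24, 3, []⟩, ⟨32, 3, []⟩], [3, 3, 3, 12, 12], 2, [(6, 1), (40, 1), (46, 2), (48, 1), (54, 2)]⟩,
⟨1, [⟨5, 4, []⟩, ⟨32, 4, []⟩], [3], 1, [(33, 1), (36, 1)]⟩,
⟨0, [⟨1, 2, []⟩, ⟨4, 4, []⟩, ⟨8, 2, []⟩, ⟨16, 2, []⟩], [3, 1, 1, 12, 12, 12], 2, [(5, 1), (24, 1), (29, 2)]⟩,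
⟨1, [⟨1, 2, []⟩, ⟨2, 2, []⟩, ⟨8, 3, []⟩, ⟨32, 3, []⟩], [3, 3, 3, 12, 12], 2, [(3, 1), (40, 1), (43, 2)]⟩,
⟨1, [⟨8, 2, []⟩, ⟨16, 4, []⟩, ⟨2, 2, []⟩, ⟨5, 4, []⟩], [3, 1, 1, 12, 4, 4], 2, [(3, 1), (6, 1), (24, 1), (27, 2), (30, 2)]⟩,
⟨0, [⟨10, 3, []⟩, ⟨36, 3, []⟩], [3, 3], 1, [(6, 1), (12, 1), (34, 1), (40, 1)]⟩,
⟨0, [⟨0, 0, [(5, 2)]⟩, ⟨2, 4, []⟩, ⟨32, 2, []⟩, ⟨8, 4, []⟩], [3, 1, 1, 12, 4, 4], 2, [(7, 1), (40, 1), (47, 2)]⟩,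
⟨0, [⟨18, 3, []⟩, ⟨8, 3, []⟩], [3, 3], 1, [(10, 1), (24, 1)]⟩,
⟨0, [⟨18, 3, []⟩, ⟨36, 3, []⟩], [3, 3], 1, [(6, 1), (20, 1), (34, 1), (48, 1)]⟩,
⟨1, [⟨0, 0, [(6, 2)]⟩, ⟨1, 4, []⟩, ⟨32, 2, []⟩, ⟨8, 4, []⟩], [3, 1, 1, 12, 4, 4], 2, [(7, 1), (40, 1), (47, 2)]⟩,
⟨0, [⟨2, 3, []⟩, ⟨32, 3, []⟩], [3, 3], 1, [(34, 1)]⟩,
⟨1, [⟨10, 5, []⟩, ⟨16, 3, []⟩], [2, 2], 1, [(18, 1), (24, 1)]⟩,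
⟨1, [⟨17, 4, []⟩, ⟨4, 4, []⟩], [3], 1, [(5, 1), (20, 1)]⟩,
⟨1, [⟨38, 5, []⟩, ⟨8, 3, []⟩], [2, 2], 1, [(10, 1), (12, 1), (40, 1)]⟩,
⟨0, [⟨9, 3, []⟩, ⟨16, 3, []⟩], [3, 3], 1, [(17, 1), (24, 1)]⟩,
⟨0, [⟨17, 3, []⟩, ⟨2, 3, []⟩], [3, 3], 1, [(3, 1), (18, 1)]⟩,
⟨1, [⟨4, 2, []⟩, ⟨24, 3, []⟩, ⟨32, 3, []⟩, ⟨0, 0, [(17, 2)]⟩], [9, 9, 9, 6, 6], 2, [(21, 1), (40, 1), (48, 1), (53, 2)]⟩,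
⟨0, [⟨12, 3, []⟩, ⟨32, 3, []⟩], [3, 3], 1, [(36, 1), (40, 1)]⟩,
⟨1, [⟨8, 2, []⟩, ⟨16, 2, []⟩, ⟨1, 3, []⟩, ⟨4, 3, []⟩], [3, 3, 3, 12, 12], 2, [(5, 1), (24, 1), (29, 2)]⟩,
⟨0, [⟨4, 2, []⟩, ⟨3, 4, []⟩, ⟨8, 2, []⟩, ⟨0, 0, [(33, 2)]⟩], [3, 1, 1, 12, 12, 12], 2, [(5, 1), (6, 1), (41, 1), (45, 2)]⟩,
⟨0, [⟨20, 3, []⟩, ⟨1, 3, []⟩], [3, 3], 1, [(5, 1), (17, 1)]⟩,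
⟨1, [⟨3, 5, []⟩, ⟨4, 3, []⟩], [2, 2], 1, [(5, 1), (6, 1)]⟩,
⟨1, [⟨5, 5, []⟩, ⟨2, 3, []⟩], [2, 2], 1, [(3, 1), (6, 1)]⟩,
⟨0, [⟨34, 3, []⟩, ⟨4, 3, []⟩], [3, 3], 1, [(6, 1), (36, 1)]⟩,
⟨0, [⟨9, 3, []⟩, ⟨2, 3, []⟩], [3, 3], 1, [(3, 1), (10, 1)]⟩,
⟨1, [⟨0, 0, [(6, 2)]⟩, ⟨1, 4, []⟩, ⟨8, 2, []⟩, ⟨32, 4, []⟩], [3, 1, 1, 12, 4, 4], 2, [(7, 1), (40, 1), (47, 2)]⟩,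
⟨1, [⟨1, 2, []⟩, ⟨2, 4, []⟩, ⟨16, 2, []⟩, ⟨32, 4, []⟩], [3, 1, 1, 12, 4, 4], 2, [(3, 1), (48, 1), (51, 2)]⟩,
⟨1, [⟨8, 2, []⟩, ⟨16, 2, []⟩, ⟨6, 3, []⟩, ⟨1, 3, []⟩], [3, 3, 3, 12, 12], 2, [(3, 1), (5, 1), (24, 1), (27, 2), (29, 2)]⟩,
⟨0, [⟨32, 2, []⟩, ⟨24, 4, []⟩, ⟨4, 2, []⟩, ⟨0, 0, [(18, 2)]⟩], [3, 1, 1, 12, 12, 12], 2, [(22, 1), (40, 1), (48, 1), (54, 2)]⟩,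
⟨0, [⟨36, 3, []⟩, ⟨16, 3, []⟩], [3, 3], 1, [(20, 1), (48, 1)]⟩,
⟨0, [⟨2, 2, []⟩, ⟨4, 4, []⟩, ⟨8, 2, []⟩, ⟨16, 2, []⟩], [3, 1, 1, 12, 12, 12], 2, [(6, 1), (24, 1), (30, 2)]⟩,
⟨1, [⟨22, 5, []⟩, ⟨32, 3, []⟩], [2, 2], 1, [(34, 1), (36, 1), (48, 1)]⟩,
⟨1, [⟨4, 2, []⟩, ⟨48, 3, []⟩, ⟨8, 3, []⟩, ⟨0, 0, [(34, 2)]⟩], [9, 9, 9, 6, 6], 2, [(24, 1), (38, 1), (40, 1), (46, 2)]⟩,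
⟨1, [⟨0, 0, [(6, 2)]⟩, ⟨1, 4, []⟩, ⟨8, 2, []⟩, ⟨16, 4, []⟩], [3, 1, 1, 12, 4, 4], 2, [(7, 1), (24, 1), (31, 2)]⟩,
⟨1, [⟨1, 2, []⟩, ⟨4, 2, []⟩, ⟨2, 3, []⟩, ⟨40, 4, []⟩, ⟨16, 3, []⟩], [25, 7, 7, 18], 2, [(6, 1), (11, 1), (24, 1), (31, 2), (35, 1), (48, 1), (55, 2)]⟩,
⟨0, [⟨17, 3, []⟩, ⟨12, 3, []⟩], [3, 3], 1, [(5, 1), (9, 1), (20, 1), (24, 1)]⟩,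
⟨0, [⟨9, 3, []⟩, ⟨48, 3, []⟩], [3, 3], 1, [(17, 1), (24, 1), (33, 1), (40, 1)]⟩,
⟨1, [⟨36, 4, []⟩, ⟨1, 4, []⟩], [3], 1, [(5, 1), (33, 1)]⟩,
⟨0, [⟨8, 2, []⟩, ⟨32, 4, []⟩, ⟨1, 2, []⟩, ⟨2, 2, []⟩], [3, 1, 1, 12, 12, 12], 2, [(3, 1), (40, 1), (43, 2)]⟩,
⟨1, [⟨18, 4, []⟩, ⟨8, 4, []⟩], [3], 1, [(10, 1), (24, 1)]⟩,
⟨1, [⟨8, 2, []⟩, ⟨32, 2, []⟩, ⟨16, 3, []⟩, ⟨5, 4, []⟩, ⟨2, 3, []⟩], [25, 7, 7, 18], 2, [(3, 1), (6, 1), (25, 1), (28, 1), (48, 1), (59, 2), (62, 2)]⟩,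
⟨1, [⟨5, 4, []⟩, ⟨16, 4, []⟩], [3], 1, [(17, 1), (20, 1)]⟩,
⟨1, [⟨8, 2, []⟩, ⟨16, 2, []⟩, ⟨4, 3, []⟩, ⟨0, 0, [(3, 3)]⟩], [3, 3, 3, 12, 12], 2, [(7, 1), (24, 1), (31, 2)]⟩,
⟨1, [⟨8, 2, []⟩, ⟨16, 2, []⟩, ⟨2, 3, []⟩, ⟨4, 3, []⟩], [3, 3, 3, 12, 12], 2, [(6, 1), (24, 1), (30, 2)]⟩,
⟨1, [⟨18, 4, []⟩, ⟨4, 4, []⟩], [3], 1, [(6, 1), (20, 1)]⟩,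
⟨1, [⟨1, 2, []⟩, ⟨4, 2, []⟩, ⟨8, 3, []⟩, ⟨32, 3, []⟩], [3, 3, 3, 12, 12], 2, [(5, 1), (40, 1), (45, 2)]⟩,
⟨1, [⟨8, 2, []⟩, ⟨16, 2, []⟩, ⟨32, 3, []⟩, ⟨6, 4, []⟩, ⟨1, 3, []⟩], [25, 7, 7, 18], 2, [(3, 1), (5, 1), (42, 1), (44, 1), (48, 1), (59, 2), (61, 2)]⟩,
⟨0, [⟨0, 0, [(24, 2)]⟩, ⟨32, 4, []⟩, ⟨1, 2, []⟩, ⟨2, 4, []⟩], [3, 1, 1, 12, 4, 4], 2, [(3, 1), (56, 1), (59, 2)]⟩,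
⟨1, [⟨9, 5, []⟩, ⟨16, 3, []⟩], [2, 2], 1, [(17, 1), (24, 1)]⟩,
⟨0, [⟨34, 3, []⟩, ⟨24, 3, []⟩], [3, 3], 1, [(10, 1), (18, 1), (40, 1), (48, 1)]⟩,
⟨1, [⟨8, 2, []⟩, ⟨6, 3, []⟩, ⟨1, 3, []⟩, ⟨0, 0, [(18, 2)]⟩], [9, 9, 9, 6, 6], 2, [(3, 1), (5, 1), (26, 1), (27, 2)]⟩,
⟨0, [⟨0, 0, [(24, 2)]⟩, ⟨32, 4, []⟩, ⟨4, 2, []⟩, ⟨1, 4, []⟩], [3, 1, 1, 12, 4, 4], 2, [(5, 1), (56, 1), (61, 2)]⟩,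
⟨1, [⟨12, 3, []⟩, ⟨16, 2, []⟩, ⟨1, 3, []⟩, ⟨0, 0, [(10, 2)]⟩], [5, 5, 10, 10, 10], 2, [(5, 1), (9, 1), (26, 1), (27, 2)]⟩,
⟨0, [⟨33, 3, []⟩, ⟨24, 3, []⟩], [3, 3], 1, [(9, 1), (17, 1), (40, 1), (48, 1)]⟩,
⟨0, [⟨1, 2, []⟩, ⟨4, 2, []⟩, ⟨40, 4, []⟩, ⟨16, 2, []⟩], [3, 3, 3, 12, 8, 8], 2, [(5, 1), (24, 1), (29, 2), (48, 1), (53, 2)]⟩,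
⟨0, [⟨8, 4, []⟩, ⟨34, 5, []⟩, ⟨17, 4, []⟩], [5], 1, [(11, 1), (26, 1), (41, 1), (56, 1)]⟩,
⟨0, [⟨1, 2, []⟩, ⟨6, 4, []⟩, ⟨32, 2, []⟩, ⟨0, 0, [(12, 2)]⟩], [3, 1, 1, 12, 12, 12], 2, [(3, 1), (5, 1), (44, 1), (45, 2)]⟩,
⟨1, [⟨4, 2, []⟩, ⟨2, 4, []⟩, ⟨8, 2, []⟩, ⟨16, 4, []⟩], [3, 1, 1, 12, 4, 4], 2, [(6, 1), (24, 1), (30, 2)]⟩,
⟨0, [⟨32, 2, []⟩, ⟨24, 4, []⟩, ⟨2, 2, []⟩, ⟨0, 0, [(20, 2)]⟩], [3, 1, 1, 12, 12, 12], 2, [(22, 1), (40, 1), (48, 1), (54, 2)]⟩,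
⟨0, [⟨9, 3, []⟩, ⟨20, 3, []⟩], [3, 3], 1, [(5, 1), (12, 1), (17, 1), (24, 1)]⟩,
⟨0, [⟨4, 3, []⟩, ⟨16, 3, []⟩], [3, 3], 1, [(20, 1)]⟩,
⟨0, [⟨4, 2, []⟩, ⟨3, 4, []⟩, ⟨32, 2, []⟩, ⟨0, 0, [(9, 2)]⟩], [3, 1, 1, 12, 12, 12], 2, [(5, 1), (6, 1), (41, 1), (45, 2)]⟩,
⟨0, [⟨34, 3, []⟩, ⟨20, 3, []⟩], [3, 3], 1, [(6, 1), (18, 1), (36, 1), (48, 1)]⟩,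
⟨1, [⟨22, 5, []⟩, ⟨1, 3, []⟩], [2, 2], 1, [(3, 1), (5, 1), (17, 1)]⟩,
⟨0, [⟨0, 0, [(24, 2)]⟩, ⟨32, 4, []⟩, ⟨2, 2, []⟩, ⟨4, 4, []⟩], [3, 1, 1, 12, 4, 4], 2, [(6, 1), (56, 1), (62, 2)]⟩,
⟨0, [⟨0, 0, [(40, 2)]⟩, ⟨16, 4, []⟩, ⟨1, 2, []⟩, ⟨2, 4, []⟩], [3, 1, 1, 12, 4, 4], 2, [(3, 1), (56, 1), (59, 2)]⟩,
⟨1, [⟨1, 2, []⟩, ⟨2, 2, []⟩, ⟨8, 3, []⟩, ⟨16, 3, []⟩], [3, 3, 3, 12, 12], 2, [(3, 1), (24, 1), (27, 2)]⟩,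
⟨1, [⟨1, 2, []⟩, ⟨4, 4, []⟩, ⟨8, 2, []⟩, ⟨48, 4, []⟩], [3, 1, 1, 12, 4, 4], 2, [(5, 1), (24, 1), (29, 2), (40, 1), (45, 2)]⟩,
⟨0, [⟨2, 2, []⟩, ⟨4, 4, []⟩, ⟨8, 2, []⟩, ⟨32, 2, []⟩], [3, 1, 1, 12, 12, 12], 2, [(6, 1), (40, 1), (46, 2)]⟩,
⟨0, [⟨6, 3, []⟩, ⟨48, 3, []⟩], [3, 3], 1, [(18, 1), (20, 1), (34, 1), (36, 1)]⟩,
⟨0, [⟨1, 3, []⟩, ⟨8, 3, []⟩], [3, 3], 1, [(9, 1)]⟩,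
⟨1, [⟨5, 4, []⟩, ⟨10, 4, []⟩], [3], 1, [(3, 1), (6, 1), (9, 1), (12, 1)]⟩,
⟨0, [⟨33, 3, []⟩, ⟨12, 3, []⟩], [3, 3], 1, [(5, 1), (9, 1), (36, 1), (40, 1)]⟩,
⟨1, [⟨4, 2, []⟩, ⟨2, 4, []⟩, ⟨32, 2, []⟩, ⟨8, 4, []⟩], [3, 1, 1, 12, 4, 4], 2, [(6, 1), (40, 1), (46, 2)]⟩,
⟨1, [⟨14, 5, []⟩, ⟨1, 3, []⟩], [2, 2], 1, [(3, 1), (5, 1), (9, 1)]⟩,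
⟨1, [⟨40, 5, []⟩, ⟨1, 3, []⟩], [2, 2], 1, [(9, 1), (33, 1)]⟩,
⟨1, [⟨33, 5, []⟩, ⟨16, 3, []⟩], [2, 2], 1, [(17, 1), (48, 1)]⟩,
⟨1, [⟨16, 2, []⟩, ⟨32, 2, []⟩, ⟨8, 3, []⟩, ⟨6, 4, []⟩, ⟨1, 3, []⟩], [25, 7, 7, 18], 2, [(3, 1), (5, 1), (26, 1), (28, 1), (40, 1), (59, 2), (61, 2)]⟩,
⟨1, [⟨48, 4, []⟩, ⟨1, 4, []⟩], [3], 1, [(17, 1), (33, 1)]⟩,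
⟨1, [⟨16, 2, []⟩, ⟨5, 3, []⟩, ⟨2, 3, []⟩, ⟨0, 0, [(9, 2)]⟩], [9, 9, 9, 6, 6], 2, [(3, 1), (6, 1), (25, 1), (27, 2)]⟩,
⟨0, [⟨18, 3, []⟩, ⟨32, 3, []⟩], [3, 3], 1, [(34, 1), (48, 1)]⟩,
⟨0, [⟨2, 2, []⟩, ⟨5, 4, []⟩, ⟨16, 2, []⟩, ⟨0, 0, [(12, 2)]⟩], [3, 1, 1, 12, 12, 12], 2, [(3, 1), (6, 1), (28, 1), (30, 2)]⟩,
⟨1, [⟨5, 4, []⟩, ⟨24, 4, []⟩], [3], 1, [(9, 1), (12, 1), (17, 1), (20, 1)]⟩,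
⟨1, [⟨2, 2, []⟩, ⟨24, 3, []⟩, ⟨32, 3, []⟩, ⟨0, 0, [(9, 2)]⟩], [9, 9, 9, 6, 6], 2, [(11, 1), (40, 1), (43, 2), (48, 1)]⟩,
⟨0, [⟨10, 3, []⟩, ⟨20, 3, []⟩], [3, 3], 1, [(6, 1), (12, 1), (18, 1), (24, 1)]⟩,
⟨1, [⟨0, 0, [(6, 2)]⟩, ⟨1, 4, []⟩, ⟨32, 2, []⟩, ⟨16, 4, []⟩], [3, 1, 1, 12, 4, 4], 2, [(7, 1), (48, 1), (55, 2)]⟩,
⟨0, [⟨1, 2, []⟩, ⟨6, 4, []⟩, ⟨8, 2, []⟩, ⟨0, 0, [(36, 2)]⟩], [3, 1, 1, 12, 12, 12], 2, [(3, 1), (5, 1), (44, 1), (45, 2)]⟩,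
⟨0, [⟨8, 2, []⟩, ⟨16, 2, []⟩, ⟨3, 4, []⟩, ⟨4, 2, []⟩], [3, 3, 3, 12, 8, 8], 2, [(5, 1), (6, 1), (24, 1), (29, 2), (30, 2)]⟩,
⟨0, [⟨32, 2, []⟩, ⟨24, 4, []⟩, ⟨1, 2, []⟩, ⟨0, 0, [(20, 2)]⟩], [3, 1, 1, 12, 12, 12], 2, [(21, 1), (40, 1), (48, 1), (53, 2)]⟩,
⟨1, [⟨4, 2, []⟩, ⟨1, 4, []⟩, ⟨16, 2, []⟩, ⟨40, 4, []⟩], [3, 1, 1, 12, 4, 4], 2, [(5, 1), (24, 1), (29, 2), (48, 1), (53, 2)]⟩,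
⟨1, [⟨1, 2, []⟩, ⟨4, 2, []⟩, ⟨40, 3, []⟩, ⟨16, 3, []⟩], [3, 3, 3, 12, 12], 2, [(5, 1), (24, 1), (29, 2), (48, 1), (53, 2)]⟩,
⟨0, [⟨10, 3, []⟩, ⟨48, 3, []⟩], [3, 3], 1, [(18, 1), (24, 1), (34, 1), (40, 1)]⟩,
⟨1, [⟨2, 2, []⟩, ⟨48, 3, []⟩, ⟨8, 3, []⟩, ⟨0, 0, [(36, 2)]⟩], [9, 9, 9, 6, 6], 2, [(24, 1), (38, 1), (40, 1), (46, 2)]⟩,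
⟨1, [⟨48, 5, []⟩, ⟨8, 3, []⟩], [2, 2], 1, [(24, 1), (40, 1)]⟩,
⟨1, [⟨33, 5, []⟩, ⟨8, 3, []⟩], [2, 2], 1, [(9, 1), (40, 1)]⟩,
⟨0, [⟨1, 2, []⟩, ⟨2, 2, []⟩, ⟨24, 4, []⟩, ⟨32, 2, []⟩], [3, 3, 3, 12, 8, 8], 2, [(3, 1), (40, 1), (43, 2), (48, 1), (51, 2)]⟩,
⟨0, [⟨33, 3, []⟩, ⟨2, 3, []⟩], [3, 3], 1, [(3, 1), (34, 1)]⟩,
⟨0, [⟨0, 0, [(6, 2)]⟩, ⟨1, 4, []⟩, ⟨32, 2, []⟩, ⟨16, 4, []⟩], [3, 1, 1, 12, 4, 4], 2, [(7, 1), (48, 1), (55, 2)]⟩,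
⟨1, [⟨8, 2, []⟩, ⟨32, 2, []⟩, ⟨2, 3, []⟩, ⟨0, 0, [(5, 3)]⟩], [3, 3, 3, 12, 12], 2, [(7, 1), (40, 1), (47, 2)]⟩,
⟨0, [⟨1, 2, []⟩, ⟨6, 4, []⟩, ⟨16, 2, []⟩, ⟨0, 0, [(36, 2)]⟩], [3, 1, 1, 12, 12, 12], 2, [(3, 1), (5, 1), (52, 1), (53, 2)]⟩,
⟨1, [⟨12, 5, []⟩, ⟨2, 3, []⟩], [2, 2], 1, [(6, 1), (10, 1)]⟩,
⟨1, [⟨2, 2, []⟩, ⟨4, 2, []⟩, ⟨8, 3, []⟩, ⟨16, 3, []⟩], [3, 3, 3, 12, 12], 2, [(6, 1), (24, 1), (30, 2)]⟩,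
⟨1, [⟨2, 2, []⟩, ⟨1, 4, []⟩, ⟨16, 2, []⟩, ⟨8, 4, []⟩], [3, 1, 1, 12, 4, 4], 2, [(3, 1), (24, 1), (27, 2)]⟩,
⟨0, [⟨10, 3, []⟩, ⟨32, 3, []⟩], [3, 3], 1, [(34, 1), (40, 1)]⟩,
⟨1, [⟨4, 2, []⟩, ⟨2, 4, []⟩, ⟨32, 2, []⟩, ⟨24, 4, []⟩], [3, 1, 1, 12, 4, 4], 2, [(6, 1), (40, 1), (46, 2), (48, 1), (54, 2)]⟩,
⟨1, [⟨2, 4, []⟩, ⟨5, 4, []⟩], [3], 1, [(3, 1), (6, 1)]⟩,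
⟨1, [⟨2, 2, []⟩, ⟨4, 4, []⟩, ⟨32, 2, []⟩, ⟨16, 4, []⟩], [3, 1, 1, 12, 4, 4], 2, [(6, 1), (48, 1), (54, 2)]⟩,
⟨0, [⟨32, 2, []⟩, ⟨24, 4, []⟩, ⟨4, 2, []⟩, ⟨0, 0, [(17, 2)]⟩], [3, 1, 1, 12, 12, 12], 2, [(21, 1), (40, 1), (48, 1), (53, 2)]⟩,
⟨1, [⟨40, 5, []⟩, ⟨4, 3, []⟩], [2, 2], 1, [(12, 1), (36, 1)]⟩,
⟨0, [⟨3, 3, []⟩, ⟨40, 3, []⟩], [3, 3], 1, [(9, 1), (10, 1), (33, 1), (34, 1)]⟩,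
⟨1, [⟨4, 2, []⟩, ⟨24, 3, []⟩, ⟨32, 3, []⟩, ⟨0, 0, [(9, 2)]⟩], [9, 9, 9, 6, 6], 2, [(13, 1), (40, 1), (45, 2), (48, 1)]⟩,
⟨0, [⟨0, 0, [(3, 2)]⟩, ⟨4, 4, []⟩, ⟨8, 2, []⟩, ⟨16, 4, []⟩], [3, 1, 1, 12, 4, 4], 2, [(7, 1), (24, 1), (31, 2)]⟩,
⟨0, [⟨32, 2, []⟩, ⟨8, 4, []⟩, ⟨2, 2, []⟩, ⟨4, 2, []⟩], [3, 1, 1, 12, 12, 12], 2, [(6, 1), (40, 1), (46, 2)]⟩,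
⟨1, [⟨37, 5, []⟩, ⟨16, 3, []⟩], [2, 2], 1, [(17, 1), (20, 1), (48, 1)]⟩,
⟨1, [⟨16, 2, []⟩, ⟨3, 3, []⟩, ⟨4, 3, []⟩, ⟨0, 0, [(10, 2)]⟩], [9, 9, 9, 6, 6], 2, [(5, 1), (6, 1), (26, 1), (30, 2)]⟩,
⟨0, [⟨16, 3, []⟩, ⟨32, 3, []⟩], [3, 3], 1, [(48, 1)]⟩,
⟨1, [⟨20, 4, []⟩, ⟨2, 4, []⟩], [3], 1, [(6, 1), (18, 1)]⟩,
⟨1, [⟨1, 2, []⟩, ⟨4, 2, []⟩, ⟨48, 3, []⟩, ⟨8, 3, []⟩], [3, 3, 3, 12, 12], 2, [(5, 1), (24, 1), (29, 2), (40, 1), (45, 2)]⟩,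
⟨1, [⟨2, 2, []⟩, ⟨4, 4, []⟩, ⟨16, 2, []⟩, ⟨40, 4, []⟩], [3, 1, 1, 12, 4, 4], 2, [(6, 1), (24, 1), (30, 2), (48, 1), (54, 2)]⟩,
⟨1, [⟨0, 0, [(5, 2)]⟩, ⟨2, 4, []⟩, ⟨32, 2, []⟩, ⟨16, 4, []⟩], [3, 1, 1, 12, 4, 4], 2, [(7, 1), (48, 1), (55, 2)]⟩,
⟨0, [⟨5, 3, []⟩, ⟨48, 3, []⟩], [3, 3], 1, [(17, 1), (20, 1), (33, 1), (36, 1)]⟩,
⟨1, [⟨8, 2, []⟩, ⟨32, 2, []⟩, ⟨4, 3, []⟩, ⟨0, 0, [(3, 3)]⟩], [3, 3, 3, 12, 12], 2, [(7, 1), (40, 1), (47, 2)]⟩,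
⟨1, [⟨17, 5, []⟩, ⟨32, 3, []⟩], [2, 2], 1, [(33, 1), (48, 1)]⟩,
⟨1, [⟨34, 4, []⟩, ⟨4, 4, []⟩], [3], 1, [(6, 1), (36, 1)]⟩,
⟨1, [⟨3, 4, []⟩, ⟨20, 4, []⟩], [3], 1, [(5, 1), (6, 1), (17, 1), (18, 1)]⟩,
⟨1, [⟨8, 2, []⟩, ⟨16, 4, []⟩, ⟨1, 2, []⟩, ⟨6, 4, []⟩], [3, 1, 1, 12, 4, 4], 2, [(3, 1), (5, 1), (24, 1), (27, 2), (29, 2)]⟩,
⟨1, [⟨38, 5, []⟩, ⟨1, 3, []⟩], [2, 2], 1, [(3, 1), (5, 1), (33, 1)]⟩,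
⟨0, [⟨4, 2, []⟩, ⟨1, 4, []⟩, ⟨8, 2, []⟩, ⟨32, 2, []⟩], [3, 1, 1, 12, 12, 12], 2, [(5, 1), (40, 1), (45, 2)]⟩,
⟨0, [⟨2, 2, []⟩, ⟨4, 2, []⟩, ⟨40, 4, []⟩, ⟨16, 2, []⟩], [3, 3, 3, 12, 8, 8], 2, [(6, 1), (24, 1), (30, 2), (48, 1), (54, 2)]⟩,
⟨0, [⟨16, 2, []⟩, ⟨32, 2, []⟩, ⟨5, 4, []⟩, ⟨2, 2, []⟩], [3, 3, 3, 12, 8, 8], 2, [(3, 1), (6, 1), (48, 1), (51, 2), (54, 2)]⟩,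
⟨0, [⟨0, 0, [(40, 2)]⟩, ⟨16, 4, []⟩, ⟨2, 2, []⟩, ⟨1, 4, []⟩], [3, 1, 1, 12, 4, 4], 2, [(3, 1), (56, 1), (59, 2)]⟩,
⟨1, [⟨6, 4, []⟩, ⟨8, 4, []⟩], [3], 1, [(10, 1), (12, 1)]⟩,
⟨1, [⟨40, 4, []⟩, ⟨17, 4, []⟩], [3], 1, [(9, 1), (24, 1), (33, 1), (48, 1)]⟩,
⟨1, [⟨0, 0, [(3, 2)]⟩, ⟨4, 4, []⟩, ⟨32, 2, []⟩, ⟨16, 4, []⟩], [3, 1, 1, 12, 4, 4], 2, [(7, 1), (48, 1), (55, 2)]⟩,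
⟨1, [⟨1, 2, []⟩, ⟨2, 2, []⟩, ⟨4, 3, []⟩, ⟨24, 4, []⟩, ⟨32, 3, []⟩], [25, 7, 7, 18], 2, [(6, 1), (13, 1), (21, 1), (40, 1), (47, 2), (48, 1), (55, 2)]⟩,
⟨0, [⟨0, 0, [(48, 2)]⟩, ⟨8, 4, []⟩, ⟨2, 2, []⟩, ⟨1, 4, []⟩], [3, 1, 1, 12, 4, 4], 2, [(3, 1), (56, 1), (59, 2)]⟩,
⟨0, [⟨16, 2, []⟩, ⟨40, 4, []⟩, ⟨4, 2, []⟩, ⟨0, 0, [(33, 2)]⟩], [3, 1, 1, 12, 12, 12], 2, [(24, 1), (37, 1), (48, 1), (53, 2)]⟩,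
⟨1, [⟨52, 5, []⟩, ⟨2, 3, []⟩], [2, 2], 1, [(6, 1), (18, 1), (34, 1)]⟩,
⟨1, [⟨4, 2, []⟩, ⟨1, 4, []⟩, ⟨32, 2, []⟩, ⟨16, 4, []⟩], [3, 1, 1, 12, 4, 4], 2, [(5, 1), (48, 1), (53, 2)]⟩,
⟨1, [⟨16, 2, []⟩, ⟨32, 2, []⟩, ⟨8, 3, []⟩, ⟨3, 4, []⟩, ⟨4, 3, []⟩], [25, 7, 7, 18], 2, [(5, 1), (6, 1), (25, 1), (26, 1), (40, 1), (61, 2), (62, 2)]⟩,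
⟨1, [⟨13, 5, []⟩, ⟨2, 3, []⟩], [2, 2], 1, [(3, 1), (6, 1), (10, 1)]⟩,
⟨0, [⟨4, 2, []⟩, ⟨3, 4, []⟩, ⟨16, 2, []⟩, ⟨0, 0, [(10, 2)]⟩], [3, 1, 1, 12, 12, 12], 2, [(5, 1), (6, 1), (26, 1), (30, 2)]⟩,
⟨1, [⟨1, 2, []⟩, ⟨2, 2, []⟩, ⟨16, 3, []⟩, ⟨32, 3, []⟩], [3, 3, 3, 12, 12], 2, [(3, 1), (48, 1), (51, 2)]⟩,
⟨0, [⟨17, 3, []⟩, ⟨6, 3, []⟩], [3, 3], 1, [(3, 1), (5, 1), (18, 1), (20, 1)]⟩,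
⟨0, [⟨0, 0, [(6, 2)]⟩, ⟨1, 4, []⟩, ⟨16, 2, []⟩, ⟨32, 4, []⟩], [3, 1, 1, 12, 4, 4], 2, [(7, 1), (48, 1), (55, 2)]⟩,
⟨0, [⟨18, 3, []⟩, ⟨1, 3, []⟩], [3, 3], 1, [(3, 1), (17, 1)]⟩,
⟨1, [⟨6, 4, []⟩, ⟨16, 4, []⟩], [3], 1, [(18, 1), (20, 1)]⟩,
⟨1, [⟨48, 4, []⟩, ⟨12, 4, []⟩], [3], 1, [(20, 1), (24, 1), (36, 1), (40, 1)]⟩,
⟨0, [⟨18, 3, []⟩, ⟨40, 3, []⟩], [3, 3], 1, [(10, 1), (24, 1), (34, 1), (48, 1)]⟩,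
⟨1, [⟨48, 4, []⟩, ⟨2, 4, []⟩], [3], 1, [(18, 1), (34, 1)]⟩,
⟨1, [⟨1, 2, []⟩, ⟨2, 2, []⟩, ⟨16, 3, []⟩, ⟨0, 0, [(40, 3)]⟩], [3, 3, 3, 12, 12], 2, [(3, 1), (56, 1), (59, 2)]⟩,
⟨0, [⟨36, 3, []⟩, ⟨1, 3, []⟩], [3, 3], 1, [(5, 1), (33, 1)]⟩,
⟨1, [⟨14, 5, []⟩, ⟨16, 3, []⟩], [2, 2], 1, [(18, 1), (20, 1), (24, 1)]⟩,
⟨1, [⟨2, 2, []⟩, ⟨4, 2, []⟩, ⟨8, 3, []⟩, ⟨0, 0, [(48, 3)]⟩], [3, 3, 3, 12, 12], 2, [(6, 1), (56, 1), (62, 2)]⟩,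
⟨1, [⟨33, 4, []⟩, ⟨4, 4, []⟩], [3], 1, [(5, 1), (36, 1)]⟩,
⟨1, [⟨2, 2, []⟩, ⟨4, 4, []⟩, ⟨8, 2, []⟩, ⟨32, 4, []⟩], [3, 1, 1, 12, 4, 4], 2, [(6, 1), (40, 1), (46, 2)]⟩,
⟨1, [⟨40, 4, []⟩, ⟨20, 4, []⟩], [3], 1, [(12, 1), (24, 1), (36, 1), (48, 1)]⟩,
⟨0, [⟨6, 3, []⟩, ⟨1, 3, []⟩], [3, 3], 1, [(3, 1), (5, 1)]⟩,
⟨1, [⟨1, 4, []⟩, ⟨32, 4, []⟩], [3], 1, [(33, 1)]⟩,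
⟨0, [⟨32, 2, []⟩, ⟨24, 4, []⟩, ⟨4, 2, []⟩, ⟨0, 0, [(10, 2)]⟩], [3, 1, 1, 12, 12, 12], 2, [(14, 1), (40, 1), (46, 2), (48, 1)]⟩,
⟨1, [⟨8, 2, []⟩, ⟨16, 2, []⟩, ⟨32, 3, []⟩, ⟨3, 4, []⟩, ⟨4, 3, []⟩], [25, 7, 7, 18], 2, [(5, 1), (6, 1), (41, 1), (42, 1), (48, 1), (61, 2), (62, 2)]⟩,
⟨1, [⟨18, 5, []⟩, ⟨1, 3, []⟩], [2, 2], 1, [(3, 1), (17, 1)]⟩,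
⟨1, [⟨4, 2, []⟩, ⟨1, 4, []⟩, ⟨32, 2, []⟩, ⟨24, 4, []⟩], [3, 1, 1, 12, 4, 4], 2, [(5, 1), (40, 1), (45, 2), (48, 1), (53, 2)]⟩,
⟨1, [⟨2, 2, []⟩, ⟨4, 2, []⟩, ⟨8, 3, []⟩, ⟨32, 3, []⟩], [3, 3, 3, 12, 12], 2, [(6, 1), (40, 1), (46, 2)]⟩,
⟨1, [⟨0, 0, [(40, 2)]⟩, ⟨16, 4, []⟩, ⟨1, 2, []⟩, ⟨2, 4, []⟩], [3, 1, 1, 12, 4, 4], 2, [(3, 1), (56, 1), (59, 2)]⟩,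
⟨1, [⟨18, 4, []⟩, ⟨32, 4, []⟩], [3], 1, [(34, 1), (48, 1)]⟩,
⟨0, [⟨0, 0, [(24, 2)]⟩, ⟨32, 4, []⟩, ⟨1, 2, []⟩, ⟨4, 4, []⟩], [3, 1, 1, 12, 4, 4], 2, [(5, 1), (56, 1), (61, 2)]⟩,
⟨1, [⟨6, 5, []⟩, ⟨1, 3, []⟩], [2, 2], 1, [(3, 1), (5, 1)]⟩,
⟨1, [⟨3, 5, []⟩, ⟨16, 3, []⟩], [2, 2], 1, [(17, 1), (18, 1)]⟩,
⟨1, [⟨1, 2, []⟩, ⟨2, 4, []⟩, ⟨32, 2, []⟩, ⟨16, 4, []⟩], [3, 1, 1, 12, 4, 4], 2, [(3, 1), (48, 1), (51, 2)]⟩,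
⟨0, [⟨0, 0, [(40, 2)]⟩, ⟨16, 4, []⟩, ⟨2, 2, []⟩, ⟨4, 4, []⟩], [3, 1, 1, 12, 4, 4], 2, [(6, 1), (56, 1), (62, 2)]⟩,
⟨1, [⟨4, 4, []⟩, ⟨32, 4, []⟩], [3], 1, [(36, 1)]⟩,
⟨0, [⟨16, 2, []⟩, ⟨32, 2, []⟩, ⟨6, 4, []⟩, ⟨1, 2, []⟩], [3, 3, 3, 12, 8, 8], 2, [(3, 1), (5, 1), (48, 1), (51, 2), (53, 2)]⟩,
⟨0, [⟨9, 3, []⟩, ⟨4, 3, []⟩], [3, 3], 1, [(5, 1), (12, 1)]⟩,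
⟨1, [⟨6, 4, []⟩, ⟨48, 4, []⟩], [3], 1, [(18, 1), (20, 1), (34, 1), (36, 1)]⟩,
⟨1, [⟨16, 2, []⟩, ⟨32, 2, []⟩, ⟨1, 3, []⟩, ⟨0, 0, [(6, 3)]⟩], [3, 3, 3, 12, 12], 2, [(7, 1), (48, 1), (55, 2)]⟩,
⟨0, [⟨2, 2, []⟩, ⟨1, 4, []⟩, ⟨8, 2, []⟩, ⟨32, 2, []⟩], [3, 1, 1, 12, 12, 12], 2, [(3, 1), (40, 1), (43, 2)]⟩,
⟨1, [⟨33, 4, []⟩, ⟨16, 4, []⟩], [3], 1, [(17, 1), (48, 1)]⟩,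
⟨0, [⟨0, 0, [(3, 2)]⟩, ⟨4, 4, []⟩, ⟨32, 2, []⟩, ⟨8, 4, []⟩], [3, 1, 1, 12, 4, 4], 2, [(7, 1), (40, 1), (47, 2)]⟩,
⟨1, [⟨16, 2, []⟩, ⟨32, 2, []⟩, ⟨2, 3, []⟩, ⟨4, 3, []⟩], [3, 3, 3, 12, 12], 2, [(6, 1), (48, 1), (54, 2)]⟩,
⟨0, [⟨33, 3, []⟩, ⟨16, 3, []⟩], [3, 3], 1, [(17, 1), (48, 1)]⟩,
⟨1, [⟨17, 5, []⟩, ⟨4, 3, []⟩], [2, 2], 1, [(5, 1), (20, 1)]⟩,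
⟨0, [⟨0, 0, [(3, 2)]⟩, ⟨4, 4, []⟩, ⟨32, 2, []⟩, ⟨16, 4, []⟩], [3, 1, 1, 12, 4, 4], 2, [(7, 1), (48, 1), (55, 2)]⟩,
⟨0, [⟨4, 2, []⟩, ⟨3, 4, []⟩, ⟨32, 2, []⟩, ⟨0, 0, [(17, 2)]⟩], [3, 1, 1, 12, 12, 12], 2, [(5, 1), (6, 1), (49, 1), (53, 2)]⟩,
⟨1, [⟨36, 4, []⟩, ⟨8, 4, []⟩], [3], 1, [(12, 1), (40, 1)]⟩,
⟨1, [⟨3, 4, []⟩, ⟨36, 4, []⟩], [3], 1, [(5, 1), (6, 1), (33, 1), (34, 1)]⟩,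
⟨0, [⟨8, 2, []⟩, ⟨48, 4, []⟩, ⟨2, 2, []⟩, ⟨0, 0, [(17, 2)]⟩], [3, 1, 1, 12, 12, 12], 2, [(19, 1), (24, 1), (27, 2), (40, 1)]⟩,
⟨0, [⟨1, 2, []⟩, ⟨6, 4, []⟩, ⟨32, 2, []⟩, ⟨0, 0, [(18, 2)]⟩], [3, 1, 1, 12, 12, 12], 2, [(3, 1), (5, 1), (50, 1), (51, 2)]⟩,
⟨1, [⟨9, 4, []⟩, ⟨32, 4, []⟩], [3], 1, [(33, 1), (40, 1)]⟩,
⟨1, [⟨4, 2, []⟩, ⟨2, 4, []⟩, ⟨8, 2, []⟩, ⟨32, 4, []⟩], [3, 1, 1, 12, 4, 4], 2, [(6, 1), (40, 1), (46, 2)]⟩,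
⟨0, [⟨32, 2, []⟩, ⟨8, 4, []⟩, ⟨1, 2, []⟩, ⟨2, 2, []⟩], [3, 1, 1, 12, 12, 12], 2, [(3, 1), (40, 1), (43, 2)]⟩,
⟨1, [⟨2, 2, []⟩, ⟨4, 4, []⟩, ⟨8, 2, []⟩, ⟨48, 4, []⟩], [3, 1, 1, 12, 4, 4], 2, [(6, 1), (24, 1), (30, 2), (40, 1), (46, 2)]⟩,
⟨1, [⟨2, 2, []⟩, ⟨4, 4, []⟩, ⟨32, 2, []⟩, ⟨8, 4, []⟩], [3, 1, 1, 12, 4, 4], 2, [(6, 1), (40, 1), (46, 2)]⟩,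
⟨1, [⟨20, 4, []⟩, ⟨1, 4, []⟩], [3], 1, [(5, 1), (17, 1)]⟩,
⟨1, [⟨40, 5, []⟩, ⟨16, 3, []⟩], [2, 2], 1, [(24, 1), (48, 1)]⟩,
⟨1, [⟨0, 0, [(3, 2)]⟩, ⟨4, 4, []⟩, ⟨8, 2, []⟩, ⟨16, 4, []⟩], [3, 1, 1, 12, 4, 4], 2, [(7, 1), (24, 1), (31, 2)]⟩,
⟨1, [⟨4, 2, []⟩, ⟨1, 4, []⟩, ⟨16, 2, []⟩, ⟨8, 4, []⟩], [3, 1, 1, 12, 4, 4], 2, [(5, 1), (24, 1), (29, 2)]⟩,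
⟨1, [⟨1, 2, []⟩, ⟨2, 4, []⟩, ⟨8, 2, []⟩, ⟨32, 4, []⟩], [3, 1, 1, 12, 4, 4], 2, [(3, 1), (40, 1), (43, 2)]⟩,
⟨0, [⟨0, 0, [(3, 2)]⟩, ⟨4, 4, []⟩, ⟨16, 2, []⟩, ⟨8, 4, []⟩], [3, 1, 1, 12, 4, 4], 2, [(7, 1), (24, 1), (31, 2)]⟩,
⟨0, [⟨8, 2, []⟩, ⟨32, 2, []⟩, ⟨3, 4, []⟩, ⟨4, 2, []⟩], [3, 3, 3, 12, 8, 8], 2, [(5, 1), (6, 1), (40, 1), (45, 2), (46, 2)]⟩,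
⟨0, [⟨20, 3, []⟩, ⟨2, 3, []⟩], [3, 3], 1, [(6, 1), (18, 1)]⟩,
⟨0, [⟨0, 0, [(48, 2)]⟩, ⟨8, 4, []⟩, ⟨4, 2, []⟩, ⟨1, 4, []⟩], [3, 1, 1, 12, 4, 4], 2, [(5, 1), (56, 1), (61, 2)]⟩,
⟨0, [⟨32, 2, []⟩, ⟨24, 4, []⟩, ⟨1, 2, []⟩, ⟨0, 0, [(12, 2)]⟩], [3, 1, 1, 12, 12, 12], 2, [(13, 1), (40, 1), (45, 2), (48, 1)]⟩,
⟨1, [⟨48, 4, []⟩, ⟨10, 4, []⟩], [3], 1, [(18, 1), (24, 1), (34, 1), (40, 1)]⟩,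
⟨1, [⟨40, 5, []⟩, ⟨2, 3, []⟩], [2, 2], 1, [(10, 1), (34, 1)]⟩,
⟨0, [⟨1, 2, []⟩, ⟨2, 4, []⟩, ⟨8, 2, []⟩, ⟨32, 2, []⟩], [3, 1, 1, 12, 12, 12], 2, [(3, 1), (40, 1), (43, 2)]⟩,
⟨1, [⟨1, 2, []⟩, ⟨4, 2, []⟩, ⟨16, 3, []⟩, ⟨0, 0, [(40, 3)]⟩], [3, 3, 3, 12, 12], 2, [(5, 1), (56, 1), (61, 2)]⟩,
⟨0, [⟨10, 3, []⟩, ⟨1, 3, []⟩], [3, 3], 1, [(3, 1), (9, 1)]⟩,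
⟨0, [⟨16, 2, []⟩, ⟨32, 4, []⟩, ⟨1, 2, []⟩, ⟨4, 2, []⟩], [3, 1, 1, 12, 12, 12], 2, [(5, 1), (48, 1), (53, 2)]⟩,
⟨0, [⟨0, 0, [(3, 2)]⟩, ⟨4, 4, []⟩, ⟨8, 2, []⟩, ⟨32, 4, []⟩], [3, 1, 1, 12, 4, 4], 2, [(7, 1), (40, 1), (47, 2)]⟩,
⟨1, [⟨12, 5, []⟩, ⟨16, 3, []⟩], [2, 2], 1, [(20, 1), (24, 1)]⟩,
⟨1, [⟨3, 4, []⟩, ⟨48, 4, []⟩], [3], 1, [(17, 1), (18, 1), (33, 1), (34, 1)]⟩,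
⟨1, [⟨10, 4, []⟩, ⟨32, 4, []⟩], [3], 1, [(34, 1), (40, 1)]⟩,
⟨0, [⟨18, 3, []⟩, ⟨5, 3, []⟩], [3, 3], 1, [(3, 1), (6, 1), (17, 1), (20, 1)]⟩,
⟨1, [⟨8, 2, []⟩, ⟨6, 3, []⟩, ⟨1, 3, []⟩, ⟨0, 0, [(20, 2)]⟩], [9, 9, 9, 6, 6], 2, [(3, 1), (5, 1), (28, 1), (29, 2)]⟩,
⟨0, [⟨33, 3, []⟩, ⟨8, 3, []⟩], [3, 3], 1, [(9, 1), (40, 1)]⟩,
⟨0, [⟨36, 3, []⟩, ⟨24, 3, []⟩], [3, 3], 1, [(12, 1), (20, 1), (40, 1), (48, 1)]⟩,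
⟨1, [⟨8, 2, []⟩, ⟨6, 3, []⟩, ⟨1, 3, []⟩, ⟨0, 0, [(36, 2)]⟩], [9, 9, 9, 6, 6], 2, [(3, 1), (5, 1), (44, 1), (45, 2)]⟩,
⟨1, [⟨8, 2, []⟩, ⟨32, 2, []⟩, ⟨1, 3, []⟩, ⟨0, 0, [(6, 3)]⟩], [3, 3, 3, 12, 12], 2, [(7, 1), (40, 1), (47, 2)]⟩,
⟨0, [⟨12, 3, []⟩, ⟨3, 3, []⟩], [3, 3], 1, [(5, 1), (6, 1), (9, 1), (10, 1)]⟩,
⟨0, [⟨34, 3, []⟩, ⟨1, 3, []⟩], [3, 3], 1, [(3, 1), (33, 1)]⟩,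
⟨0, [⟨16, 2, []⟩, ⟨8, 4, []⟩, ⟨1, 2, []⟩, ⟨4, 2, []⟩], [3, 1, 1, 12, 12, 12], 2, [(5, 1), (24, 1), (29, 2)]⟩,
⟨1, [⟨8, 4, []⟩, ⟨48, 4, []⟩], [3], 1, [(24, 1), (40, 1)]⟩,
⟨1, [⟨40, 4, []⟩, ⟨1, 4, []⟩], [3], 1, [(9, 1), (33, 1)]⟩,
⟨0, [⟨0, 0, [(48, 2)]⟩, ⟨8, 4, []⟩, ⟨2, 2, []⟩, ⟨4, 4, []⟩], [3, 1, 1, 12, 4, 4], 2, [(6, 1), (56, 1), (62, 2)]⟩,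
⟨1, [⟨16, 2, []⟩, ⟨6, 3, []⟩, ⟨1, 3, []⟩, ⟨0, 0, [(12, 2)]⟩], [9, 9, 9, 6, 6], 2, [(3, 1), (5, 1), (28, 1), (29, 2)]⟩,
⟨0, [⟨2, 2, []⟩, ⟨1, 4, []⟩, ⟨8, 2, []⟩, ⟨16, 2, []⟩], [3, 1, 1, 12, 12, 12], 2, [(3, 1), (24, 1), (27, 2)]⟩,
⟨1, [⟨16, 2, []⟩, ⟨32, 2, []⟩, ⟨5, 3, []⟩, ⟨2, 3, []⟩], [3, 3, 3, 12, 12], 2, [(3, 1), (6, 1), (48, 1), (51, 2), (54, 2)]⟩,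
⟨0, [⟨48, 3, []⟩, ⟨8, 3, []⟩], [3, 3], 1, [(24, 1), (40, 1)]⟩,
⟨1, [⟨1, 2, []⟩, ⟨2, 2, []⟩, ⟨32, 3, []⟩, ⟨0, 0, [(24, 3)]⟩], [3, 3, 3, 12, 12], 2, [(3, 1), (56, 1), (59, 2)]⟩,
⟨1, [⟨0, 0, [(48, 2)]⟩, ⟨8, 4, []⟩, ⟨4, 2, []⟩, ⟨1, 4, []⟩], [3, 1, 1, 12, 4, 4], 2, [(5, 1), (56, 1), (61, 2)]⟩,
⟨1, [⟨3, 4, []⟩, ⟨8, 4, []⟩], [3], 1, [(9, 1), (10, 1)]⟩,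
⟨1, [⟨32, 2, []⟩, ⟨6, 3, []⟩, ⟨1, 3, []⟩, ⟨0, 0, [(10, 2)]⟩], [9, 9, 9, 6, 6], 2, [(3, 1), (5, 1), (42, 1), (43, 2)]⟩,
⟨1, [⟨2, 2, []⟩, ⟨4, 2, []⟩, ⟨32, 3, []⟩, ⟨0, 0, [(24, 3)]⟩], [3, 3, 3, 12, 12], 2, [(6, 1), (56, 1), (62, 2)]⟩,
⟨1, [⟨2, 4, []⟩, ⟨4, 4, []⟩], [3], 1, [(6, 1)]⟩,
⟨1, [⟨16, 2, []⟩, ⟨32, 2, []⟩, ⟨1, 3, []⟩, ⟨2, 3, []⟩], [3, 3, 3, 12, 12], 2, [(3, 1), (48, 1), (51, 2)]⟩,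
⟨0, [⟨9, 3, []⟩, ⟨6, 3, []⟩], [3, 3], 1, [(3, 1), (5, 1), (10, 1), (12, 1)]⟩,
⟨1, [⟨3, 4, []⟩, ⟨16, 4, []⟩], [3], 1, [(17, 1), (18, 1)]⟩,
⟨1, [⟨24, 5, []⟩, ⟨2, 3, []⟩], [2, 2], 1, [(10, 1), (18, 1)]⟩,
⟨0, [⟨36, 3, []⟩, ⟨3, 3, []⟩], [3, 3], 1, [(5, 1), (6, 1), (33, 1), (34, 1)]⟩,
⟨1, [⟨40, 4, []⟩, ⟨2, 4, []⟩], [3], 1, [(10, 1), (34, 1)]⟩,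
⟨0, [⟨4, 3, []⟩, ⟨32, 3, []⟩], [3, 3], 1, [(36, 1)]⟩,
⟨1, [⟨6, 4, []⟩, ⟨32, 4, []⟩], [3], 1, [(34, 1), (36, 1)]⟩,
⟨1, [⟨6, 4, []⟩, ⟨9, 4, []⟩], [3], 1, [(3, 1), (5, 1), (10, 1), (12, 1)]⟩,
⟨0, [⟨2, 3, []⟩, ⟨4, 3, []⟩], [3, 3], 1, [(6, 1)]⟩,
⟨1, [⟨1, 2, []⟩, ⟨4, 4, []⟩, ⟨8, 2, []⟩, ⟨32, 4, []⟩], [3, 1, 1, 12, 4, 4], 2, [(5, 1), (40, 1), (45, 2)]⟩,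
⟨0, [⟨17, 3, []⟩, ⟨4, 3, []⟩], [3, 3], 1, [(5, 1), (20, 1)]⟩,
⟨0, [⟨32, 2, []⟩, ⟨24, 4, []⟩, ⟨2, 2, []⟩, ⟨0, 0, [(9, 2)]⟩], [3, 1, 1, 12, 12, 12], 2, [(11, 1), (40, 1), (43, 2), (48, 1)]⟩,
⟨0, [⟨10, 3, []⟩, ⟨16, 3, []⟩], [3, 3], 1, [(18, 1), (24, 1)]⟩,
⟨1, [⟨4, 2, []⟩, ⟨2, 4, []⟩, ⟨16, 2, []⟩, ⟨8, 4, []⟩], [3, 1, 1, 12, 4, 4], 2, [(6, 1), (24, 1), (30, 2)]⟩,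
⟨1, [⟨42, 5, []⟩, ⟨16, 3, []⟩], [2, 2], 1, [(18, 1), (24, 1), (48, 1)]⟩,
⟨0, [⟨0, 0, [(3, 2)]⟩, ⟨4, 4, []⟩, ⟨16, 2, []⟩, ⟨32, 4, []⟩], [3, 1, 1, 12, 4, 4], 2, [(7, 1), (48, 1), (55, 2)]⟩,
⟨0, [⟨5, 3, []⟩, ⟨24, 3, []⟩], [3, 3], 1, [(9, 1), (12, 1), (17, 1), (20, 1)]⟩,
⟨1, [⟨2, 2, []⟩, ⟨40, 3, []⟩, ⟨16, 3, []⟩, ⟨0, 0, [(36, 2)]⟩], [9, 9, 9, 6, 6], 2, [(24, 1), (38, 1), (48, 1), (54, 2)]⟩,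
⟨1, [⟨16, 2, []⟩, ⟨32, 2, []⟩, ⟨4, 3, []⟩, ⟨0, 0, [(3, 3)]⟩], [3, 3, 3, 12, 12], 2, [(7, 1), (48, 1), (55, 2)]⟩,
⟨1, [⟨36, 4, []⟩, ⟨16, 4, []⟩], [3], 1, [(20, 1), (48, 1)]⟩,
⟨0, [⟨8, 2, []⟩, ⟨48, 4, []⟩, ⟨2, 2, []⟩, ⟨0, 0, [(33, 2)]⟩], [3, 1, 1, 12, 12, 12], 2, [(24, 1), (35, 1), (40, 1), (43, 2)]⟩,
⟨0, [⟨1, 2, []⟩, ⟨6, 4, []⟩, ⟨32, 2, []⟩, ⟨0, 0, [(10, 2)]⟩], [3, 1, 1, 12, 12, 12], 2, [(3, 1), (5, 1), (42, 1), (43, 2)]⟩,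
⟨1, [⟨5, 5, []⟩, ⟨8, 3, []⟩], [2, 2], 1, [(9, 1), (12, 1)]⟩,
⟨1, [⟨40, 4, []⟩, ⟨4, 4, []⟩], [3], 1, [(12, 1), (36, 1)]⟩,
⟨1, [⟨8, 2, []⟩, ⟨5, 3, []⟩, ⟨2, 3, []⟩, ⟨0, 0, [(33, 2)]⟩], [9, 9, 9, 6, 6], 2, [(3, 1), (6, 1), (41, 1), (43, 2)]⟩,
⟨0, [⟨8, 2, []⟩, ⟨32, 2, []⟩, ⟨6, 4, []⟩, ⟨1, 2, []⟩], [3, 3, 3, 12, 8, 8], 2, [(3, 1), (5, 1), (40, 1), (43, 2), (45, 2)]⟩,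
⟨0, [⟨17, 3, []⟩, ⟨8, 3, []⟩], [3, 3], 1, [(9, 1), (24, 1)]⟩,
⟨1, [⟨34, 5, []⟩, ⟨4, 3, []⟩], [2, 2], 1, [(6, 1), (36, 1)]⟩,
⟨0, [⟨18, 3, []⟩, ⟨4, 3, []⟩], [3, 3], 1, [(6, 1), (20, 1)]⟩,
⟨0, [⟨20, 3, []⟩, ⟨8, 3, []⟩], [3, 3], 1, [(12, 1), (24, 1)]⟩,
⟨1, [⟨32, 2, []⟩, ⟨3, 3, []⟩, ⟨4, 3, []⟩, ⟨0, 0, [(10, 2)]⟩], [9, 9, 9, 6, 6], 2, [(5, 1), (6, 1), (42, 1), (46, 2)]⟩,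
⟨1, [⟨2, 2, []⟩, ⟨4, 4, []⟩, ⟨16, 2, []⟩, ⟨8, 4, []⟩], [3, 1, 1, 12, 4, 4], 2, [(6, 1), (24, 1), (30, 2)]⟩,
⟨0, [⟨1, 2, []⟩, ⟨4, 2, []⟩, ⟨48, 4, []⟩, ⟨8, 2, []⟩], [3, 3, 3, 12, 8, 8], 2, [(5, 1), (24, 1), (29, 2), (40, 1), (45, 2)]⟩,
⟨1, [⟨22, 5, []⟩, ⟨8, 3, []⟩], [2, 2], 1, [(10, 1), (12, 1), (24, 1)]⟩,
⟨1, [⟨2, 2, []⟩, ⟨1, 4, []⟩, ⟨8, 2, []⟩, ⟨16, 4, []⟩], [3, 1, 1, 12, 4, 4], 2, [(3, 1), (24, 1), (27, 2)]⟩,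
⟨1, [⟨35, 5, []⟩, ⟨16, 3, []⟩], [2, 2], 1, [(17, 1), (18, 1), (48, 1)]⟩,
⟨1, [⟨17, 4, []⟩, ⟨32, 4, []⟩], [3], 1, [(33, 1), (48, 1)]⟩,
⟨0, [⟨1, 2, []⟩, ⟨2, 4, []⟩, ⟨8, 2, []⟩, ⟨16, 2, []⟩], [3, 1, 1, 12, 12, 12], 2, [(3, 1), (24, 1), (27, 2)]⟩,
⟨0, [⟨32, 2, []⟩, ⟨16, 4, []⟩, ⟨1, 2, []⟩, ⟨2, 2, []⟩], [3, 1, 1, 12, 12, 12], 2, [(3, 1), (48, 1), (51, 2)]⟩,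
⟨1, [⟨1, 4, []⟩, ⟨6, 4, []⟩], [3], 1, [(3, 1), (5, 1)]⟩,
⟨1, [⟨1, 2, []⟩, ⟨4, 2, []⟩, ⟨2, 3, []⟩, ⟨24, 4, []⟩, ⟨32, 3, []⟩], [25, 7, 7, 18], 2, [(6, 1), (11, 1), (19, 1), (40, 1), (47, 2), (48, 1), (55, 2)]⟩,
⟨0, [⟨24, 3, []⟩, ⟨32, 3, []⟩], [3, 3], 1, [(40, 1), (48, 1)]⟩,
⟨1, [⟨1, 2, []⟩, ⟨2, 2, []⟩, ⟨4, 3, []⟩, ⟨48, 4, []⟩, ⟨8, 3, []⟩], [25, 7, 7, 18], 2, [(6, 1), (21, 1), (24, 1), (31, 2), (37, 1), (40, 1), (47, 2)]⟩,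
⟨1, [⟨34, 5, []⟩, ⟨8, 3, []⟩], [2, 2], 1, [(10, 1), (40, 1)]⟩,
⟨0, [⟨8, 2, []⟩, ⟨16, 4, []⟩, ⟨1, 2, []⟩, ⟨4, 2, []⟩], [3, 1, 1, 12, 12, 12], 2, [(5, 1), (24, 1), (29, 2)]⟩,
⟨0, [⟨17, 3, []⟩, ⟨10, 3, []⟩], [3, 3], 1, [(3, 1), (9, 1), (18, 1), (24, 1)]⟩,
⟨1, [⟨1, 2, []⟩, ⟨4, 4, []⟩, ⟨8, 2, []⟩, ⟨16, 4, []⟩], [3, 1, 1, 12, 4, 4], 2, [(5, 1), (24, 1), (29, 2)]⟩,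
⟨0, [⟨2, 2, []⟩, ⟨5, 4, []⟩, ⟨32, 2, []⟩, ⟨0, 0, [(9, 2)]⟩], [3, 1, 1, 12, 12, 12], 2, [(3, 1), (6, 1), (41, 1), (43, 2)]⟩,
⟨0, [⟨1, 3, []⟩, ⟨4, 3, []⟩], [3, 3], 1, [(5, 1)]⟩,
⟨1, [⟨9, 3, []⟩, ⟨16, 2, []⟩, ⟨2, 3, []⟩, ⟨0, 0, [(12, 2)]⟩], [5, 5, 10, 10, 10], 2, [(3, 1), (10, 1), (28, 1), (30, 2)]⟩,
⟨1, [⟨0, 0, [(48, 2)]⟩, ⟨8, 4, []⟩, ⟨2, 2, []⟩, ⟨4, 4, []⟩], [3, 1, 1, 12, 4, 4], 2, [(6, 1), (56, 1), (62, 2)]⟩,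
⟨0, [⟨4, 3, []⟩, ⟨8, 3, []⟩], [3, 3], 1, [(12, 1)]⟩,
⟨1, [⟨24, 4, []⟩, ⟨1, 4, []⟩], [3], 1, [(9, 1), (17, 1)]⟩,
⟨1, [⟨48, 5, []⟩, ⟨4, 3, []⟩], [2, 2], 1, [(20, 1), (36, 1)]⟩,
⟨1, [⟨32, 2, []⟩, ⟨8, 4, []⟩, ⟨2, 2, []⟩, ⟨5, 4, []⟩], [3, 1, 1, 12, 4, 4], 2, [(3, 1), (6, 1), (40, 1), (43, 2), (46, 2)]⟩,
⟨1, [⟨1, 2, []⟩, ⟨4, 2, []⟩, ⟨24, 3, []⟩, ⟨32, 3, []⟩], [3, 3, 3, 12, 12], 2, [(5, 1), (40, 1), (45, 2), (48, 1), (53, 2)]⟩,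
⟨0, [⟨8, 2, []⟩, ⟨32, 4, []⟩, ⟨1, 2, []⟩, ⟨4, 2, []⟩], [3, 1, 1, 12, 12, 12], 2, [(5, 1), (40, 1), (45, 2)]⟩,
⟨1, [⟨16, 2, []⟩, ⟨8, 4, []⟩, ⟨4, 2, []⟩, ⟨3, 4, []⟩], [3, 1, 1, 12, 4, 4], 2, [(5, 1), (6, 1), (24, 1), (29, 2), (30, 2)]⟩,
⟨1, [⟨24, 5, []⟩, ⟨32, 3, []⟩], [2, 2], 1, [(40, 1), (48, 1)]⟩,
⟨0, [⟨2, 3, []⟩, ⟨16, 3, []⟩], [3, 3], 1, [(18, 1)]⟩,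
⟨0, [⟨16, 2, []⟩, ⟨8, 4, []⟩, ⟨1, 2, []⟩, ⟨2, 2, []⟩], [3, 1, 1, 12, 12, 12], 2, [(3, 1), (24, 1), (27, 2)]⟩,
⟨0, [⟨1, 4, []⟩, ⟨16, 4, []⟩], [3], 1, [(17, 1)]⟩,
⟨1, [⟨1, 4, []⟩, ⟨4, 4, []⟩], [3], 1, [(5, 1)]⟩,
⟨1, [⟨6, 5, []⟩, ⟨32, 3, []⟩], [2, 2], 1, [(34, 1), (36, 1)]⟩,
⟨1, [⟨3, 4, []⟩, ⟨12, 4, []⟩], [3], 1, [(5, 1), (6, 1), (9, 1), (10, 1)]⟩,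
⟨0, [⟨4, 2, []⟩, ⟨2, 4, []⟩, ⟨16, 2, []⟩, ⟨32, 2, []⟩], [3, 1, 1, 12, 12, 12], 2, [(6, 1), (48, 1), (54, 2)]⟩,
⟨1, [⟨24, 4, []⟩, ⟨4, 4, []⟩], [3], 1, [(12, 1), (20, 1)]⟩,
⟨0, [⟨10, 3, []⟩, ⟨5, 3, []⟩], [3, 3], 1, [(3, 1), (6, 1), (9, 1), (12, 1)]⟩,
⟨1, [⟨1, 2, []⟩, ⟨2, 4, []⟩, ⟨16, 2, []⟩, ⟨40, 4, []⟩], [3, 1, 1, 12, 4, 4], 2, [(3, 1), (24, 1), (27, 2), (48, 1), (51, 2)]⟩,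
⟨1, [⟨4, 2, []⟩, ⟨2, 4, []⟩, ⟨8, 2, []⟩, ⟨48, 4, []⟩], [3, 1, 1, 12, 4, 4], 2, [(6, 1), (24, 1), (30, 2), (40, 1), (46, 2)]⟩,
⟨1, [⟨9, 4, []⟩, ⟨4, 4, []⟩], [3], 1, [(5, 1), (12, 1)]⟩,
⟨1, [⟨20, 4, []⟩, ⟨32, 4, []⟩], [3], 1, [(36, 1), (48, 1)]⟩,
⟨0, [⟨33, 3, []⟩, ⟨6, 3, []⟩], [3, 3], 1, [(3, 1), (5, 1), (34, 1), (36, 1)]⟩,
⟨1, [⟨8, 2, []⟩, ⟨32, 2, []⟩, ⟨16, 3, []⟩, ⟨6, 4, []⟩, ⟨1, 3, []⟩], [25, 7, 7, 18], 2, [(3, 1), (5, 1), (26, 1), (28, 1), (48, 1), (59, 2), (61, 2)]⟩,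
⟨0, [⟨16, 2, []⟩, ⟨36, 4, []⟩, ⟨1, 2, []⟩, ⟨0, 0, [(12, 2)]⟩], [3, 1, 1, 12, 12, 12], 2, [(13, 1), (20, 1), (29, 2), (48, 1)]⟩,
⟨0, [⟨16, 2, []⟩, ⟨40, 4, []⟩, ⟨1, 2, []⟩, ⟨0, 0, [(10, 2)]⟩], [3, 1, 1, 12, 12, 12], 2, [(11, 1), (24, 1), (27, 2), (48, 1)]⟩,
⟨0, [⟨5, 3, []⟩, ⟨40, 3, []⟩], [3, 3], 1, [(9, 1), (12, 1), (33, 1), (36, 1)]⟩,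
⟨0, [⟨34, 3, []⟩, ⟨8, 3, []⟩], [3, 3], 1, [(10, 1), (40, 1)]⟩,
⟨0, [⟨12, 3, []⟩, ⟨2, 3, []⟩], [3, 3], 1, [(6, 1), (10, 1)]⟩,
⟨1, [⟨38, 5, []⟩, ⟨16, 3, []⟩], [2, 2], 1, [(18, 1), (20, 1), (48, 1)]⟩,
⟨0, [⟨0, 0, [(48, 2)]⟩, ⟨8, 4, []⟩, ⟨4, 2, []⟩, ⟨2, 4, []⟩], [3, 1, 1, 12, 4, 4], 2, [(6, 1), (56, 1), (62, 2)]⟩,
⟨1, [⟨1, 2, []⟩, ⟨4, 2, []⟩, ⟨8, 3, []⟩, ⟨0, 0, [(48, 3)]⟩], [3, 3, 3, 12, 12], 2, [(5, 1), (56, 1), (61, 2)]⟩,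
⟨0, [⟨1, 2, []⟩, ⟨2, 2, []⟩, ⟨40, 4, []⟩, ⟨16, 2, []⟩], [3, 3, 3, 12, 8, 8], 2, [(3, 1), (24, 1), (27, 2), (48, 1), (51, 2)]⟩,
⟨0, [⟨32, 2, []⟩, ⟨16, 4, []⟩, ⟨1, 2, []⟩, ⟨4, 2, []⟩], [3, 1, 1, 12, 12, 12], 2, [(5, 1), (48, 1), (53, 2)]⟩,
⟨1, [⟨4, 2, []⟩, ⟨48, 3, []⟩, ⟨8, 3, []⟩, ⟨0, 0, [(18, 2)]⟩], [9, 9, 9, 6, 6], 2, [(22, 1), (24, 1), (30, 2), (40, 1)]⟩,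
⟨1, [⟨16, 2, []⟩, ⟨32, 2, []⟩, ⟨2, 3, []⟩, ⟨0, 0, [(5, 3)]⟩], [3, 3, 3, 12, 12], 2, [(7, 1), (48, 1), (55, 2)]⟩,
⟨1, [⟨48, 4, []⟩, ⟨9, 4, []⟩], [3], 1, [(17, 1), (24, 1), (33, 1), (40, 1)]⟩,
⟨0, [⟨2, 4, []⟩, ⟨17, 5, []⟩, ⟨36, 4, []⟩], [5], 1, [(7, 1), (22, 1), (35, 1), (50, 1)]⟩,
⟨1, [⟨2, 2, []⟩, ⟨4, 2, []⟩, ⟨48, 3, []⟩, ⟨8, 3, []⟩], [3, 3, 3, 12, 12], 2, [(6, 1), (24, 1), (30, 2), (40, 1), (46, 2)]⟩,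
⟨1, [⟨1, 2, []⟩, ⟨2, 2, []⟩, ⟨24, 3, []⟩, ⟨32, 3, []⟩], [3, 3, 3, 12, 12], 2, [(3, 1), (40, 1), (43, 2), (48, 1), (51, 2)]⟩,
⟨1, [⟨3, 5, []⟩, ⟨32, 3, []⟩], [2, 2], 1, [(33, 1), (34, 1)]⟩,
⟨0, [⟨20, 3, []⟩, ⟨32, 3, []⟩], [3, 3], 1, [(36, 1), (48, 1)]⟩,
⟨1, [⟨2, 2, []⟩, ⟨1, 4, []⟩, ⟨32, 2, []⟩, ⟨8, 4, []⟩], [3, 1, 1, 12, 4, 4], 2, [(3, 1), (40, 1), (43, 2)]⟩,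
⟨1, [⟨12, 4, []⟩, ⟨32, 4, []⟩], [3], 1, [(36, 1), (40, 1)]⟩,
⟨0, [⟨6, 3, []⟩, ⟨24, 3, []⟩], [3, 3], 1, [(10, 1), (12, 1), (18, 1), (20, 1)]⟩,
⟨1, [⟨8, 2, []⟩, ⟨32, 2, []⟩, ⟨2, 3, []⟩, ⟨4, 3, []⟩], [3, 3, 3, 12, 12], 2, [(6, 1), (40, 1), (46, 2)]⟩,
⟨1, [⟨32, 2, []⟩, ⟨5, 3, []⟩, ⟨2, 3, []⟩, ⟨0, 0, [(20, 2)]⟩], [9, 9, 9, 6, 6], 2, [(3, 1), (6, 1), (52, 1), (54, 2)]⟩,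
⟨1, [⟨1, 2, []⟩, ⟨2, 2, []⟩, ⟨40, 3, []⟩, ⟨16, 3, []⟩], [3, 3, 3, 12, 12], 2, [(3, 1), (24, 1), (27, 2), (48, 1), (51, 2)]⟩,
⟨0, [⟨2, 2, []⟩, ⟨1, 4, []⟩, ⟨16, 2, []⟩, ⟨32, 2, []⟩], [3, 1, 1, 12, 12, 12], 2, [(3, 1), (48, 1), (51, 2)]⟩,
⟨1, [⟨1, 2, []⟩, ⟨2, 4, []⟩, ⟨8, 2, []⟩, ⟨16, 4, []⟩], [3, 1, 1, 12, 4, 4], 2, [(3, 1), (24, 1), (27, 2)]⟩,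
⟨1, [⟨48, 5, []⟩, ⟨1, 3, []⟩], [2, 2], 1, [(17, 1), (33, 1)]⟩,
⟨1, [⟨32, 2, []⟩, ⟨6, 3, []⟩, ⟨1, 3, []⟩, ⟨0, 0, [(20, 2)]⟩], [9, 9, 9, 6, 6], 2, [(3, 1), (5, 1), (52, 1), (53, 2)]⟩,
⟨0, [⟨4, 2, []⟩, ⟨3, 4, []⟩, ⟨8, 2, []⟩, ⟨0, 0, [(17, 2)]⟩], [3, 1, 1, 12, 12, 12], 2, [(5, 1), (6, 1), (25, 1), (29, 2)]⟩,
⟨0, [⟨17, 3, []⟩, ⟨32, 3, []⟩], [3, 3], 1, [(33, 1), (48, 1)]⟩,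
⟨1, [⟨5, 4, []⟩, ⟨40, 4, []⟩], [3], 1, [(9, 1), (12, 1), (33, 1), (36, 1)]⟩,
⟨0, [⟨8, 2, []⟩, ⟨16, 2, []⟩, ⟨5, 4, []⟩, ⟨2, 2, []⟩], [3, 3, 3, 12, 8, 8], 2, [(3, 1), (6, 1), (24, 1), (27, 2), (30, 2)]⟩,
⟨1, [⟨0, 0, [(6, 2)]⟩, ⟨1, 4, []⟩, ⟨16, 2, []⟩, ⟨32, 4, []⟩], [3, 1, 1, 12, 4, 4], 2, [(7, 1), (48, 1), (55, 2)]⟩,
⟨0, [⟨8, 2, []⟩, ⟨16, 4, []⟩, ⟨1, 2, []⟩, ⟨2, 2, []⟩], [3, 1, 1, 12, 12, 12], 2, [(3, 1), (24, 1), (27, 2)]⟩,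
⟨1, [⟨20, 5, []⟩, ⟨32, 3, []⟩], [2, 2], 1, [(36, 1), (48, 1)]⟩,
⟨0, [⟨0, 0, [(40, 2)]⟩, ⟨16, 4, []⟩, ⟨4, 2, []⟩, ⟨2, 4, []⟩], [3, 1, 1, 12, 4, 4], 2, [(6, 1), (56, 1), (62, 2)]⟩,
⟨1, [⟨40, 4, []⟩, ⟨18, 4, []⟩], [3], 1, [(10, 1), (24, 1), (34, 1), (48, 1)]⟩,
⟨0, [⟨2, 2, []⟩, ⟨5, 4, []⟩, ⟨8, 2, []⟩, ⟨0, 0, [(17, 2)]⟩], [3, 1, 1, 12, 12, 12], 2, [(3, 1), (6, 1), (25, 1), (27, 2)]⟩,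
⟨0, [⟨32, 2, []⟩, ⟨16, 4, []⟩, ⟨2, 2, []⟩, ⟨4, 2, []⟩], [3, 1, 1, 12, 12, 12], 2, [(6, 1), (48, 1), (54, 2)]⟩,
⟨0, [⟨4, 2, []⟩, ⟨1, 4, []⟩, ⟨16, 2, []⟩, ⟨32, 2, []⟩], [3, 1, 1, 12, 12, 12], 2, [(5, 1), (48, 1), (53, 2)]⟩,
⟨0, [⟨2, 2, []⟩, ⟨5, 4, []⟩, ⟨8, 2, []⟩, ⟨0, 0, [(20, 2)]⟩], [3, 1, 1, 12, 12, 12], 2, [(3, 1), (6, 1), (28, 1), (30, 2)]⟩,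
⟨1, [⟨33, 4, []⟩, ⟨2, 4, []⟩], [3], 1, [(3, 1), (34, 1)]⟩,
⟨1, [⟨0, 0, [(3, 2)]⟩, ⟨4, 4, []⟩, ⟨32, 2, []⟩, ⟨8, 4, []⟩], [3, 1, 1, 12, 4, 4], 2, [(7, 1), (40, 1), (47, 2)]⟩,
⟨0, [⟨32, 2, []⟩, ⟨8, 4, []⟩, ⟨1, 2, []⟩, ⟨4, 2, []⟩], [3, 1, 1, 12, 12, 12], 2, [(5, 1), (40, 1), (45, 2)]⟩,
⟨0, [⟨1, 2, []⟩, ⟨2, 4, []⟩, ⟨16, 2, []⟩, ⟨32, 2, []⟩], [3, 1, 1, 12, 12, 12], 2, [(3, 1), (48, 1), (51, 2)]⟩,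
⟨1, [⟨44, 5, []⟩, ⟨16, 3, []⟩], [2, 2], 1, [(20, 1), (24, 1), (48, 1)]⟩,
⟨1, [⟨1, 2, []⟩, ⟨4, 4, []⟩, ⟨16, 2, []⟩, ⟨8, 4, []⟩], [3, 1, 1, 12, 4, 4], 2, [(5, 1), (24, 1), (29, 2)]⟩,
⟨1, [⟨10, 4, []⟩, ⟨4, 4, []⟩], [3], 1, [(6, 1), (12, 1)]⟩,
⟨0, [⟨6, 3, []⟩, ⟨40, 3, []⟩], [3, 3], 1, [(10, 1), (12, 1), (34, 1), (36, 1)]⟩,
⟨0, [⟨4, 2, []⟩, ⟨2, 4, []⟩, ⟨8, 2, []⟩, ⟨32, 2, []⟩], [3, 1, 1, 12, 12, 12], 2, [(6, 1), (40, 1), (46, 2)]⟩,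
⟨1, [⟨16, 2, []⟩, ⟨32, 2, []⟩, ⟨6, 3, []⟩, ⟨1, 3, []⟩], [3, 3, 3, 12, 12], 2, [(3, 1), (5, 1), (48, 1), (51, 2), (53, 2)]⟩,
⟨1, [⟨2, 2, []⟩, ⟨1, 4, []⟩, ⟨8, 2, []⟩, ⟨48, 4, []⟩], [3, 1, 1, 12, 4, 4], 2, [(3, 1), (24, 1), (27, 2), (40, 1), (43, 2)]⟩,
⟨1, [⟨5, 5, []⟩, ⟨32, 3, []⟩], [2, 2], 1, [(33, 1), (36, 1)]⟩,
⟨1, [⟨2, 2, []⟩, ⟨1, 4, []⟩, ⟨8, 2, []⟩, ⟨32, 4, []⟩], [3, 1, 1, 12, 4, 4], 2, [(3, 1), (40, 1), (43, 2)]⟩,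
⟨1, [⟨3, 4, []⟩, ⟨32, 4, []⟩], [3], 1, [(33, 1), (34, 1)]⟩,
⟨0, [⟨4, 2, []⟩, ⟨3, 4, []⟩, ⟨8, 2, []⟩, ⟨0, 0, [(18, 2)]⟩], [3, 1, 1, 12, 12, 12], 2, [(5, 1), (6, 1), (26, 1), (30, 2)]⟩,
⟨1, [⟨20, 4, []⟩, ⟨8, 4, []⟩], [3], 1, [(12, 1), (24, 1)]⟩,
⟨0, [⟨1, 3, []⟩, ⟨32, 3, []⟩], [3, 3], 1, [(33, 1)]⟩,
⟨1, [⟨2, 2, []⟩, ⟨1, 4, []⟩, ⟨32, 2, []⟩, ⟨16, 4, []⟩], [3, 1, 1, 12, 4, 4], 2, [(3, 1), (48, 1), (51, 2)]⟩,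
⟨1, [⟨6, 4, []⟩, ⟨40, 4, []⟩], [3], 1, [(10, 1), (12, 1), (34, 1), (36, 1)]⟩,
⟨0, [⟨4, 2, []⟩, ⟨2, 4, []⟩, ⟨8, 2, []⟩, ⟨16, 2, []⟩], [3, 1, 1, 12, 12, 12], 2, [(6, 1), (24, 1), (30, 2)]⟩,
⟨1, [⟨4, 4, []⟩, ⟨8, 4, []⟩], [3], 1, [(12, 1)]⟩,
⟨1, [⟨4, 2, []⟩, ⟨40, 3, []⟩, ⟨16, 3, []⟩, ⟨0, 0, [(34, 2)]⟩], [9, 9, 9, 6, 6], 2, [(24, 1), (38, 1), (48, 1), (54, 2)]⟩]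

theorem base_ok : base.all (fun q => q.ok 6 2 [7, 56] big4 big4 []) = true := by decide +kernel

theorem gads_ok : gads.all (fun g => Nat.blt g.j 2 && g.ok 6 (([4, 6] : List ℕ).getD g.j 0)) = true := by
  decide +kernel

theorem cmp_ok : cmpR names cnf (cls 2 base ++ gads.map Gt.cl) = true := by decide +kernel

end D02

theorem inst_02 : instB 0 [4, 6] [] [] D02.base D02.gads D02.names D02.cnf D02.db D02.prf = true :=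
  instB_of D02.base_ok D02.gads_ok (by decide +kernel) D02.okc D02.cmp_ok D02.chk_ok

/-- no gadget has fewer than `2 R` new points. -/
theorem p2_02 : D02.gads.all (fun g => Nat.ble (2 * g.R) g.gs.length) = true := by decide +kernel

/-- there is no configuration of this instance. -/
theorem no_02 {V : Type v} [DecidableEq V] {ι : Type u} [Fintype ι] {B : ι → Finset V}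
    {Q : Finset V} {i j : ι} {x : ℕ → V} {D : ℕ → Finset V}
    (h : CfI B Q 0 x D i j [4, 6] []) : False :=
  h.absurd (by decide) srt_nil inst_02

end Pool.Agent.Hyp6
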