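import Pool.Agent.Hyp6.Cb5

/-!
# HYP6: instance 13 of the list: n = 0, bounds [0, 4], inner blocks [1, 1]

30 base clauses, 6 gadgets, 26 learned clauses.
-/

set_option autoImplicit false
set_option maxRecDepth 100000

namespace Pool.Agent.Hyp6

open Rup

universe u v

namespace D13

noncomputable def names : Tr :=
 (.node 14 (.node 6 (.node 2 (.node 0 (.leaf 66)
 (.node 1 (.leaf 2307)
 (.leaf 2179)))
 (.node 4 (.node 3 (.leaf 130)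
 (.leaf 65))
 (.node 5 (.leaf 129)
 (.leaf 2113))))
 (.node 10 (.node 8 (.node 7 (.leaf 2305)
 (.leaf 2115))
 (.node 9 (.leaf 258)
 (.leaf 68)))
 (.node 12 (.node 11 (.leaf 67)
 (.leaf 18497))
 (.node 13 (.leaf 16449)
 (.leaf 18817)))))
 (.node 22 (.node 18 (.node 16 (.node 15 (.leaf 16513)
 (.leaf 2180))
 (.node 17 (.leaf 257)
 (.leaf 16641)))
 (.node 20 (.node 19 (.leaf 18625)
 (.leaf 18689))
 (.node 21 (.leaf 132)
 (.leaf 2177))))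
 (.node 26 (.node 24 (.node 23 (.leaf 16769)
 (.leaf 18753))
 (.node 25 (.leaf 131)
 (.leaf 2306)))
 (.node 28 (.node 27 (.leaf 16705)
 (.leaf 18561))
 (.node 29 (.leaf 2308)
 (.leaf 16577))))))

noncomputable def base : List Rs := [
.hall [0] [3, 4],
.ordE 0 8 3,
.ab 1 3,
.part [8, 48] [0, 0] [7] [],
.hall [1] [3, 5],
.ab 0 4,
.deg 3 [3, 0],
.deg 4 [0, 3],
.ab 0 5,
.ordE 1 16 3,
.ordE 0 8 2,
.deg 3 [1, 2],
.part [32, 24] [0, 0] [7] [],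
.ab 1 5,
.deg 4 [3, 0],
.part [48, 8] [0, 0] [7] [],
.ordE 0 8 1,
.part [16, 40] [0, 0] [7] [],
.ordE 0 16 2,
.ordE 1 32 1,
.part [40, 16] [0, 0] [7] [],
.deg 4 [1, 2],
.ab 1 4,
.deg 5 [1, 2],
.deg 5 [0, 3],
.part [24, 32] [0, 0] [7] [],
.ordE 1 32 2,
.ab 0 3,
.ordE 0 16 3,
.ordE 1 32 3]

noncomputable def gads : List Gt := [
⟨1, [⟨8, 3, []⟩, ⟨32, 3, []⟩], [3, 3], 1, [(40, 1)]⟩,
⟨0, [⟨8, 2, []⟩, ⟨32, 2, []⟩], [3, 3, 3], 1, [(40, 1)]⟩,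
⟨1, [⟨8, 3, []⟩, ⟨16, 3, []⟩], [3, 3], 1, [(24, 1)]⟩,
⟨0, [⟨16, 2, []⟩, ⟨32, 2, []⟩], [3, 3, 3], 1, [(48, 1)]⟩,
⟨1, [⟨16, 3, []⟩, ⟨32, 3, []⟩], [3, 3], 1, [(48, 1)]⟩,
⟨0, [⟨8, 2, []⟩, ⟨16, 2, []⟩], [3, 3, 3], 1, [(24, 1)]⟩]

noncomputable def cnf : List (List ℕ) := [
[8, 10],
[21, 22],
[13, 25],
[26, 28],
[12, 14],
[11, 31],
[20, 12],
[10, 32],
[35, 37],
[33, 4],
[23, 0],
[0, 16],
[36, 38],
[15, 41],
[42, 44],
[46, 24],
[1, 8],
[30, 48],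
[51, 6],
[53, 14],
[54, 56],
[6, 4],
[45, 57],
[18, 2],
[34, 58],
[60, 40],
[3, 52],
[9, 27],
[43, 50],
[59, 2],
[17, 3, 49],
[1, 19, 55],
[17, 5, 39],
[7, 19, 47],
[5, 3, 29],
[1, 7, 61]]

noncomputable def db : Tr :=
 (.node 31 (.node 15 (.node 7 (.node 3 (.node 1 (.leaf 0xc000a)
 (.node 2 (.leaf 0x180017)
 (.leaf 0x1b000f)))
 (.node 5 (.node 4 (.leaf 0x1e001c)
 (.leaf 0x10000e))
 (.node 6 (.leaf 0x21000d)
 (.leaf 0xe0016))))
 (.node 11 (.node 9 (.node 8 (.leaf 0x22000c)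
 (.leaf 0x270025))
 (.node 10 (.leaf 0x60023)
 (.leaf 0x20019)))
 (.node 13 (.node 12 (.leaf 0x120002)
 (.leaf 0x280026))
 (.node 14 (.leaf 0x2b0011)
 (.leaf 0x2e002c)))))
 (.node 23 (.node 19 (.node 17 (.node 16 (.leaf 0x1a0030)
 (.leaf 0xa0003))
 (.node 18 (.leaf 0x320020)
 (.leaf 0x80035)))
 (.node 21 (.node 20 (.leaf 0x100037)
 (.leaf 0x3a0038))
 (.node 22 (.leaf 0x60008)
 (.leaf 0x3b002f))))
 (.node 27 (.node 25 (.node 24 (.leaf 0x40014)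
 (.leaf 0x3c0024))
 (.node 26 (.leaf 0x2a003e)
 (.leaf 0x360005)))
 (.node 29 (.node 28 (.leaf 0x1d000b)
 (.leaf 0x34002d))
 (.node 30 (.leaf 0x4003d)
 (.leaf 0x3300050013))))))
 (.node 46 (.node 38 (.node 34 (.node 32 (.leaf 0x3900150003)
 (.node 33 (.leaf 0x2900070013)
 (.leaf 0x3100150009)))
 (.node 36 (.node 35 (.leaf 0x1f00050007)
 (.leaf 0x3f00090003))
 (.node 37 (.leaf 0x3f00150009)
 (.leaf 0x5000a))))
 (.node 42 (.node 40 (.node 39 (.leaf 0x3f0005)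
 (.leaf 0x3f))
 (.node 41 (.leaf 0x2a)
 (.leaf 0x11)))
 (.node 44 (.node 43 (.leaf 0xe)
 (.leaf 0x37))
 (.node 45 (.leaf 0x1b)
 (.leaf 0x5)))))
 (.node 54 (.node 50 (.node 48 (.node 47 (.leaf 0x30)
 (.leaf 0x14))
 (.node 49 (.leaf 0x3d)
 (.leaf 0x9)))
 (.node 52 (.node 51 (.leaf 0x24)
 (.leaf 0x35))
 (.node 53 (.leaf 0x6)
 (.leaf 0x27))))
 (.node 58 (.node 56 (.node 55 (.leaf 0x2d)
 (.leaf 0x28))
 (.node 57 (.leaf 0x2e)
 (.leaf 0x13)))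
 (.node 60 (.node 59 (.leaf 0x3b)
 (.leaf 0x2))
 (.node 61 (.leaf 0x38)
 (.leaf 0x0)))))))

noncomputable def prf : List ℕ := [
0x1d000210002200014000190000200000,
0x600013000190001f0001400024,
0x7000140001a00020000020001e000100001c00003000220000a00000,
0x7000120001b0001000006000180001a0000a0001e00011000140000e00002000090000f00000,
0xe00000,
0x1b00000,
0x2500000,
0x1700001,
0x2900001,
0x1200001,
0x1e00001,
0x1700001,
0x1200002,
0xf0000200001,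
0x1900001,
0x2000001,
0x1e00002,
0x2c00002,
0x1900002,
0x2a00001,
0x2900001,
0x180000400001,
0x2300001,
0x2f00001,
0x2700001,
0x1d0000d0000100000]

end D13

theorem inst_13 : instB 0 [0, 4] [1, 1] [] D13.base D13.gads D13.names D13.cnf D13.db D13.prf = true := by decide +kernel

/-- no gadget has fewer than `2 R` new points. -/
theorem p2_13 : D13.gads.all (fun g => Nat.ble (2 * g.R) g.gs.length) = true := by decide +kernel

/-- there is no configuration of this instance. -/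
theorem no_13 {V : Type v} [DecidableEq V] {ι : Type u} [Fintype ι] {B : ι → Finset V}
    {Q : Finset V} {i j : ι} {x : ℕ → V} {D : ℕ → Finset V}
    (h : CfI B Q 0 x D i j [0, 4] [1, 1]) : False :=
  h.absurd (by decide) srt_nil inst_13

end Pool.Agent.Hyp6
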