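import Pool.Agent.Hyp6.Cb5

/-!
# HYP6: instance 14 of the list: n = 0, bounds [2, 2], inner blocks [1, 1]

40 base clauses, 22 gadgets, 38 learned clauses.
-/

set_option autoImplicit false
set_option maxRecDepth 100000

namespace Pool.Agent.Hyp6

open Rup

universe u v

namespace D14

noncomputable def names : Tr :=
 (.node 21 (.node 10 (.node 4 (.node 1 (.node 0 (.leaf 2115)
 (.leaf 2114))
 (.node 2 (.leaf 18625)
 (.node 3 (.leaf 16769)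
 (.leaf 16705))))
 (.node 7 (.node 5 (.leaf 16577)
 (.node 6 (.leaf 18753)
 (.leaf 18817)))
 (.node 8 (.leaf 257)
 (.node 9 (.leaf 2178)
 (.leaf 129)))))
 (.node 15 (.node 12 (.node 11 (.leaf 131)
 (.leaf 2116))
 (.node 13 (.leaf 67)
 (.node 14 (.leaf 2305)
 (.leaf 2177))))
 (.node 18 (.node 16 (.leaf 2244)
 (.node 17 (.leaf 10433)
 (.leaf 2113)))
 (.node 19 (.leaf 2179)
 (.node 20 (.leaf 259)
 (.leaf 2306))))))
 (.node 32 (.node 26 (.node 23 (.node 22 (.leaf 66)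
 (.leaf 130))
 (.node 24 (.leaf 8577)
 (.node 25 (.leaf 132)
 (.leaf 2308))))
 (.node 29 (.node 27 (.leaf 258)
 (.node 28 (.leaf 2307)
 (.leaf 260)))
 (.node 30 (.leaf 388)
 (.node 31 (.leaf 68)
 (.leaf 2180)))))
 (.node 37 (.node 34 (.node 33 (.leaf 18689)
 (.leaf 16641))
 (.node 35 (.leaf 18497)
 (.node 36 (.leaf 65)
 (.leaf 8513))))
 (.node 40 (.node 38 (.leaf 16449)
 (.node 39 (.leaf 18561)
 (.leaf 10561)))
 (.node 41 (.leaf 16513)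
 (.node 42 (.leaf 324)
 (.leaf 2372)))))))

noncomputable def base : List Rs := [
.hall [0] [4, 5],
.deg 4 [2, 1],
.ordE 1 8 3,
.deg 3 [2, 1],
.ab 1 5,
.part [32, 24] [0, 0] [7] [],
.hall [1] [4, 5],
.join 1 8 4 4 2 2 [(3, 0)],
.ab2 0 48,
.part [48, 8] [0, 0] [7] [],
.deg 3 [0, 3],
.deg 4 [3, 0],
.ab2 0 40,
.deg 5 [0, 3],
.ab 0 3,
.join 1 8 4 4 1 3 [(3, 0)],
.ab2 1 24,
.ab 1 4,
.deg 5 [1, 2],
.ab 1 3,
.deg 5 [3, 0],
.ab 0 5,
.ordE 1 8 1,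
.part [24, 32] [0, 0] [7] [],
.join 0 16 5 4 1 3 [(4, 0)],
.ordE 1 8 2,
.join 0 16 5 4 3 1 [(4, 0)],
.deg 3 [3, 0],
.deg 5 [2, 1],
.ab2 1 40,
.part [8, 48] [0, 0] [7] [],
.part [40, 16] [0, 0] [7] [],
.join 1 8 4 4 3 1 [(3, 0)],
.part [16, 40] [0, 0] [7] [],
.deg 4 [0, 3],
.ab 0 4,
.deg 3 [1, 2],
.join 0 8 5 4 3 1 [(3, 0)],
.join 1 8 5 4 3 1 [(3, 0)],
.deg 4 [1, 2]]

noncomputable def gads : List Gt := [
⟨1, [⟨40, 4, []⟩, ⟨16, 2, []⟩], [3, 2, 2], 1, [(24, 1), (48, 1)]⟩,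
⟨0, [⟨16, 3, []⟩, ⟨32, 3, []⟩], [3, 3], 1, [(48, 1)]⟩,
⟨0, [⟨32, 4, []⟩, ⟨8, 2, []⟩], [3, 2, 2], 1, [(40, 1)]⟩,
⟨0, [⟨16, 4, []⟩, ⟨32, 2, []⟩], [3, 2, 2], 1, [(48, 1)]⟩,
⟨1, [⟨32, 4, []⟩, ⟨8, 2, []⟩], [3, 2, 2], 1, [(40, 1)]⟩,
⟨1, [⟨8, 3, []⟩, ⟨16, 3, []⟩], [3, 3], 1, [(24, 1)]⟩,
⟨0, [⟨48, 4, []⟩, ⟨8, 2, []⟩], [3, 2, 2], 1, [(24, 1), (40, 1)]⟩,
⟨1, [⟨8, 4, []⟩, ⟨16, 2, []⟩], [3, 2, 2], 1, [(24, 1)]⟩,
⟨1, [⟨16, 4, []⟩, ⟨8, 2, []⟩], [3, 2, 2], 1, [(24, 1)]⟩,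
⟨1, [⟨24, 4, []⟩, ⟨32, 2, []⟩], [3, 2, 2], 1, [(40, 1), (48, 1)]⟩,
⟨0, [⟨8, 4, []⟩, ⟨16, 2, []⟩], [3, 2, 2], 1, [(24, 1)]⟩,
⟨1, [⟨32, 4, []⟩, ⟨16, 2, []⟩], [3, 2, 2], 1, [(48, 1)]⟩,
⟨0, [⟨8, 4, []⟩, ⟨32, 2, []⟩], [3, 2, 2], 1, [(40, 1)]⟩,
⟨0, [⟨8, 3, []⟩, ⟨32, 3, []⟩], [3, 3], 1, [(40, 1)]⟩,
⟨0, [⟨8, 3, []⟩, ⟨16, 3, []⟩], [3, 3], 1, [(24, 1)]⟩,
⟨0, [⟨32, 4, []⟩, ⟨16, 2, []⟩], [3, 2, 2], 1, [(48, 1)]⟩,
⟨1, [⟨8, 4, []⟩, ⟨32, 2, []⟩], [3, 2, 2], 1, [(40, 1)]⟩,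
⟨0, [⟨40, 4, []⟩, ⟨16, 2, []⟩], [3, 2, 2], 1, [(24, 1), (48, 1)]⟩,
⟨1, [⟨16, 3, []⟩, ⟨32, 3, []⟩], [3, 3], 1, [(48, 1)]⟩,
⟨0, [⟨16, 4, []⟩, ⟨8, 2, []⟩], [3, 2, 2], 1, [(24, 1)]⟩,
⟨1, [⟨16, 4, []⟩, ⟨32, 2, []⟩], [3, 2, 2], 1, [(48, 1)]⟩,
⟨1, [⟨8, 3, []⟩, ⟨32, 3, []⟩], [3, 3], 1, [(40, 1)]⟩]

noncomputable def cnf : List (List ℕ) := [
[20, 16],
[22, 18],
[25, 0],
[26, 2],
[29, 67],
[68, 4],
[30, 28],
[3, 19, 32, 34],
[49, 7],
[6, 70],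
[72, 24],
[50, 30],
[75, 9],
[16, 52],
[73, 77],
[37, 39, 32, 34],
[35, 5],
[31, 79],
[54, 56],
[37, 71],
[58, 28],
[17, 69],
[3, 36],
[10, 66],
[21, 41, 60, 48],
[1, 2],
[23, 17, 60, 48],
[62, 36],
[40, 42],
[81, 13],
[76, 14],
[8, 78],
[1, 31, 32, 34],
[82, 12],
[20, 64],
[21, 83],
[44, 0],
[27, 17, 84, 74],
[1, 29, 86, 80],
[46, 38],
[87, 19, 5, 15],
[23, 41, 7],
[59, 45, 9],
[51, 55, 7],
[53, 3, 13],
[1, 39, 5],
[61, 45, 11, 9],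
[25, 19, 5],
[65, 3, 5],
[33, 43, 13, 15],
[63, 47, 11],
[53, 19, 15],
[63, 55, 9],
[27, 41, 9],
[27, 23, 11],
[59, 47, 7],
[25, 43, 13],
[85, 47, 11, 7],
[39, 57, 15],
[51, 45, 11],
[65, 43, 15],
[1, 57, 13]]

noncomputable def db : Tr :=
 (.node 50 (.node 25 (.node 12 (.node 6 (.node 3 (.node 1 (.leaf 0x120016)
 (.node 2 (.leaf 0x140018)
 (.leaf 0x2001b)))
 (.node 4 (.leaf 0x4001c)
 (.node 5 (.leaf 0x45001f)
 (.leaf 0x60046))))
 (.node 9 (.node 7 (.leaf 0x1e0020)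
 (.node 8 (.leaf 0x24002200150005)
 (.leaf 0x90033)))
 (.node 10 (.leaf 0x480008)
 (.node 11 (.leaf 0x1a004a)
 (.leaf 0x200034)))))
 (.node 18 (.node 15 (.node 13 (.leaf 0xb004d)
 (.node 14 (.leaf 0x360012)
 (.leaf 0x4f004b)))
 (.node 16 (.leaf 0x24002200290027)
 (.node 17 (.leaf 0x70025)
 (.leaf 0x510021))))
 (.node 21 (.node 19 (.leaf 0x3a0038)
 (.node 20 (.leaf 0x490027)
 (.leaf 0x1e003c)))
 (.node 23 (.node 22 (.leaf 0x470013)
 (.leaf 0x260005))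
 (.node 24 (.leaf 0x44000c)
 (.leaf 0x32003e002b0017))))))
 (.node 37 (.node 31 (.node 28 (.node 26 (.leaf 0x40003)
 (.node 27 (.leaf 0x32003e00130019)
 (.leaf 0x260040)))
 (.node 29 (.leaf 0x2c002a)
 (.node 30 (.leaf 0xf0053)
 (.leaf 0x10004e))))
 (.node 34 (.node 32 (.leaf 0x50000a)
 (.node 33 (.leaf 0x24002200210003)
 (.leaf 0xe0054)))
 (.node 35 (.leaf 0x420016)
 (.node 36 (.leaf 0x550017)
 (.leaf 0x2002e)))))
 (.node 43 (.node 40 (.node 38 (.leaf 0x4c00560013001d)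
 (.node 39 (.leaf 0x520058001f0003)
 (.leaf 0x280030)))
 (.node 41 (.leaf 0x11000700150059)
 (.node 42 (.leaf 0x9002b0019)
 (.leaf 0xb002f003d))))
 (.node 46 (.node 44 (.leaf 0x900390035)
 (.node 45 (.leaf 0xf00050037)
 (.leaf 0x700290003)))
 (.node 48 (.node 47 (.leaf 0xb000d002f003f)
 (.leaf 0x70015001b))
 (.node 49 (.leaf 0x700050043)
 (.leaf 0x11000f002d0023)))))))
 (.node 75 (.node 62 (.node 56 (.node 53 (.node 51 (.leaf 0xd00310041)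
 (.node 52 (.leaf 0x1100150037)
 (.leaf 0xb00390041)))
 (.node 54 (.leaf 0xb002b001d)
 (.node 55 (.leaf 0xd0019001d)
 (.leaf 0x90031003d))))
 (.node 59 (.node 57 (.leaf 0xf002d001b)
 (.node 58 (.leaf 0x9000d00310057)
 (.leaf 0x11003b0029)))
 (.node 60 (.leaf 0xd002f0035)
 (.node 61 (.leaf 0x11002d0043)
 (.leaf 0xf003b0003)))))
 (.node 68 (.node 65 (.node 63 (.leaf 0x5900430007)
 (.node 64 (.leaf 0x590043)
 (.leaf 0x2f001e)))
 (.node 66 (.leaf 0x310057000d)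
 (.node 67 (.leaf 0x31001e)
 (.leaf 0x9005900030011))))
 (.node 71 (.node 69 (.leaf 0x900590003)
 (.node 70 (.leaf 0x3100590019)
 (.leaf 0x1100590015)))
 (.node 73 (.node 72 (.leaf 0x310059)
 (.leaf 0x3100150011002f))
 (.node 74 (.leaf 0x3100150011)
 (.leaf 0x310015))))))
 (.node 87 (.node 81 (.node 78 (.node 76 (.leaf 0x50016)
 (.node 77 (.leaf 0x31)
 (.leaf 0x28)))
 (.node 79 (.leaf 0x2002b)
 (.node 80 (.leaf 0x7)
 (.leaf 0x46))))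
 (.node 84 (.node 82 (.leaf 0x13)
 (.node 83 (.leaf 0x16)
 (.leaf 0x36)))
 (.node 85 (.leaf 0x55)
 (.node 86 (.leaf 0xe)
 (.leaf 0x5)))))
 (.node 93 (.node 90 (.node 88 (.leaf 0x1c)
 (.node 89 (.leaf 0x3)
 (.leaf 0x1b)))
 (.node 91 (.leaf 0x2e)
 (.node 92 (.leaf 0x4a)
 (.leaf 0x1e))))
 (.node 96 (.node 94 (.leaf 0x4f)
 (.node 95 (.leaf 0x45)
 (.leaf 0x10)))
 (.node 98 (.node 97 (.leaf 0xc)
 (.leaf 0x15))
 (.node 99 (.leaf 0x19)
 (.leaf 0x0))))))))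

noncomputable def prf : List ℕ := [
0x37000390002c000260001e00007000080003c0002100015000010001f0002f000330003b000240003a0000d,
0x380003a0002d000270001f00008000090003d000220000b000020002000030000340003c000250003b000120001d0001b000310003e000290003900000,
0x20000150002e0002b00039,
0x2d0003700025000070000e,
0x2b0002e00028000380001d0000a000010002d,
0x190002600041000110001a00022000320003d0002d00035000160002900037000170003000005000210001f0002000003,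
0x1a0004200027000140000b000390003500025000000003e0002e00036000170002a00022000200002100004,
0x1800037000410002a0000e0003c00023000210002200005000160002500033000390000900020000000003b0003100029000120002d0004000002,
0x300003800040000120001d,
0x450000100028000380003c00044000020003d000330002b000140002f0004200004,
0x160002b000260002f000240002500040000170004400022000190003b00028000360003c0000c000060003f0003e000340002c000150003000043000050003700042000320003a00014,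
0x2500027000260002b00018000220002f000240000000043000330003b000150000600001,
0x260004900028000340002c00044000230001a000470003f0003b0002b000000000700002,
0x450001a00035000280004a,
0x3a0002c000400001d0001000031000270003e000250001f0002e0002a000280000000048000150004a00001000040004300042000380003000019000340004700009,
0x2500000,
0x20004a00035000180001f00045000440003a00032000190002e0003c000420001200036000490000d000290003b000130002f0003f000430004b00000,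
0x2b0002d0002c0001d0001200032000000003f000330001a0002f0003d000430003c000130001400037000300004a000400000e000440002a0004c000210003e00001,
0x4a00000,
0x3b00000,
0x5100000,
0x4500001,
0x3000001,
0x3300000,
0x290000200000,
0x5300000,
0x3e00001,
0x5600000,
0x3500001,
0x5000001,
0x1b00001,
0x4e00001,
0x5900001,
0x4000001,
0x4800001,
0x2d0000d00001,
0x2b0000a00001,
0x610000100000]

end D14

theorem inst_14 : instB 0 [2, 2] [1, 1] [] D14.base D14.gads D14.names D14.cnf D14.db D14.prf = true := by decide +kernel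

/-- no gadget has fewer than `2 R` new points. -/
theorem p2_14 : D14.gads.all (fun g => Nat.ble (2 * g.R) g.gs.length) = true := by decide +kernel

/-- there is no configuration of this instance. -/
theorem no_14 {V : Type v} [DecidableEq V] {ι : Type u} [Fintype ι] {B : ι → Finset V}
    {Q : Finset V} {i j : ι} {x : ℕ → V} {D : ℕ → Finset V}
    (h : CfI B Q 0 x D i j [2, 2] [1, 1]) : False :=
  h.absurd (by decide) srt_nil inst_14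

end Pool.Agent.Hyp6
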