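import Pool.Agent.Hyp6.Cb5

/-!
# HYP6: instance 17 of the list: n = 0, bounds [0, 2], inner blocks [1, 6]

29 base clauses, 6 gadgets, 21 learned clauses.
-/

set_option autoImplicit false
set_option maxRecDepth 100000

namespace Pool.Agent.Hyp6

open Rup

universe u v

namespace D17

noncomputable def names : Tr :=
 (.node 14 (.node 6 (.node 2 (.node 0 (.leaf 2179)
 (.node 1 (.leaf 66)
 (.leaf 2307)))
 (.node 4 (.node 3 (.leaf 2113)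
 (.leaf 2305))
 (.node 5 (.leaf 257)
 (.leaf 2115))))
 (.node 10 (.node 8 (.node 7 (.leaf 65)
 (.leaf 130))
 (.node 9 (.leaf 258)
 (.leaf 68)))
 (.node 12 (.node 11 (.leaf 67)
 (.leaf 2177))
 (.node 13 (.leaf 18561)
 (.leaf 16449)))))
 (.node 21 (.node 17 (.node 15 (.leaf 18817)
 (.node 16 (.leaf 16577)
 (.leaf 18689)))
 (.node 19 (.node 18 (.leaf 16641)
 (.leaf 129))
 (.node 20 (.leaf 2180)
 (.leaf 18497))))
 (.node 25 (.node 23 (.node 22 (.leaf 18625)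
 (.leaf 2308))
 (.node 24 (.leaf 16769)
 (.leaf 16513)))
 (.node 27 (.node 26 (.leaf 18753)
 (.leaf 2178))
 (.node 28 (.leaf 2306)
 (.leaf 16705))))))

noncomputable def base : List Rs := [
.hall [1] [3, 5],
.ordE 0 8 3,
.ab 1 4,
.part [8, 48] [0, 0] [7] [],
.part [24, 32] [0, 0] [7] [],
.ab 0 5,
.deg 3 [3, 0],
.deg 4 [0, 3],
.ab 1 3,
.ordE 1 16 3,
.ordE 0 8 2,
.deg 3 [1, 2],
.part [32, 24] [0, 0] [7] [],
.hall [0] [3, 5],
.deg 5 [0, 3],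
.part [48, 8] [0, 0] [7] [],
.ordE 0 8 1,
.part [16, 40] [0, 0] [7] [],
.ordE 1 16 1,
.ordE 1 32 1,
.deg 4 [1, 2],
.ab 1 5,
.deg 5 [1, 2],
.part [40, 16] [0, 0] [7] [],
.ab 0 3,
.ordE 1 32 2,
.ab 0 4,
.ordE 1 16 2,
.ordE 1 32 3]

noncomputable def gads : List Gt := [
⟨1, [⟨8, 3, []⟩, ⟨32, 3, []⟩], [3, 3], 1, [(40, 1)]⟩,
⟨0, [⟨8, 2, []⟩, ⟨32, 2, []⟩], [3, 3, 3], 1, [(40, 1)]⟩,
⟨1, [⟨8, 3, []⟩, ⟨16, 3, []⟩], [3, 3], 1, [(24, 1)]⟩,
⟨0, [⟨16, 2, []⟩, ⟨32, 2, []⟩], [3, 3, 3], 1, [(48, 1)]⟩,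
⟨1, [⟨16, 3, []⟩, ⟨32, 3, []⟩], [3, 3], 1, [(48, 1)]⟩,
⟨0, [⟨8, 2, []⟩, ⟨16, 2, []⟩], [3, 3, 3], 1, [(24, 1)]⟩]

noncomputable def cnf : List (List ℕ) := [
[6, 8],
[21, 22],
[25, 27],
[28, 30],
[32, 34],
[11, 37],
[20, 6],
[38, 40],
[7, 43],
[41, 0],
[23, 2],
[2, 12],
[36, 44],
[14, 10],
[10, 46],
[48, 42],
[3, 14],
[50, 52],
[55, 24],
[57, 8],
[16, 0],
[9, 35],
[18, 4],
[58, 26],
[15, 29],
[5, 56],
[39, 51],
[1, 54],
[47, 4],
[13, 5, 53],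
[3, 19, 59],
[13, 1, 45],
[17, 19, 49],
[1, 5, 31],
[3, 17, 33]]

noncomputable def db : Tr :=
 (.node 28 (.node 14 (.node 7 (.node 3 (.node 1 (.leaf 0xa0008)
 (.node 2 (.leaf 0x180017)
 (.leaf 0x1d001b)))
 (.node 5 (.node 4 (.leaf 0x20001e)
 (.leaf 0x240022))
 (.node 6 (.leaf 0x27000d)
 (.leaf 0x80016))))
 (.node 10 (.node 8 (.leaf 0x2a0028)
 (.node 9 (.leaf 0x2d0009)
 (.leaf 0x2002b)))
 (.node 12 (.node 11 (.leaf 0x40019)
 (.leaf 0xe0004))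
 (.node 13 (.leaf 0x2e0026)
 (.leaf 0xc0010)))))
 (.node 21 (.node 17 (.node 15 (.leaf 0x30000c)
 (.node 16 (.leaf 0x2c0032)
 (.leaf 0x100005)))
 (.node 19 (.node 18 (.leaf 0x360034)
 (.leaf 0x1a0039))
 (.node 20 (.leaf 0xa003b)
 (.leaf 0x20012))))
 (.node 24 (.node 22 (.leaf 0x25000b)
 (.node 23 (.leaf 0x60014)
 (.leaf 0x1c003c)))
 (.node 26 (.node 25 (.leaf 0x1f0011)
 (.leaf 0x3a0007))
 (.node 27 (.leaf 0x350029)
 (.leaf 0x380003))))))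
 (.node 42 (.node 35 (.node 31 (.node 29 (.leaf 0x60031)
 (.node 30 (.leaf 0x370007000f)
 (.leaf 0x3d00150005)))
 (.node 33 (.node 32 (.leaf 0x2f0003000f)
 (.leaf 0x3300150013))
 (.node 34 (.leaf 0x2100070003)
 (.leaf 0x2300130005))))
 (.node 38 (.node 36 (.leaf 0x7000f)
 (.node 37 (.leaf 0x7)
 (.leaf 0x14)))
 (.node 40 (.node 39 (.leaf 0x31)
 (.leaf 0xc))
 (.node 41 (.leaf 0x27)
 (.leaf 0x2e)))))
 (.node 49 (.node 45 (.node 43 (.leaf 0x4)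
 (.node 44 (.leaf 0x3d)
 (.leaf 0x1c)))
 (.node 47 (.node 46 (.leaf 0x1b)
 (.leaf 0x39))
 (.node 48 (.leaf 0x3)
 (.leaf 0x12))))
 (.node 52 (.node 50 (.leaf 0x23)
 (.node 51 (.leaf 0x33)
 (.leaf 0x24)))
 (.node 54 (.node 53 (.leaf 0x2c)
 (.leaf 0xb))
 (.node 55 (.leaf 0x9)
 (.leaf 0x0)))))))

noncomputable def prf : List ℕ := [
0x150001d0000a000160001f0000300001000190001b000080001100005,
0x2000200000f0000b000010001300018000000001f0000e000100000a,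
0xe00000,
0x900001,
0x1800000,
0x2200000,
0x1c00000,
0x90001a00015000210000a00023000280001e0001f0000400000,
0xc0000500000,
0x1400000,
0x2a00000,
0x1b00000,
0x1300000,
0x1b00000,
0xe0000600000,
0x110000c00001,
0x2e00001,
0x2400001,
0x1f00001,
0x2d00001,
0x360000100000]

end D17

theorem inst_17 : instB 0 [0, 2] [1, 6] [] D17.base D17.gads D17.names D17.cnf D17.db D17.prf = true := by decide +kernel

/-- no gadget has fewer than `2 R` new points. -/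
theorem p2_17 : D17.gads.all (fun g => Nat.ble (2 * g.R) g.gs.length) = true := by decide +kernel

/-- there is no configuration of this instance. -/
theorem no_17 {V : Type v} [DecidableEq V] {ι : Type u} [Fintype ι] {B : ι → Finset V}
    {Q : Finset V} {i j : ι} {x : ℕ → V} {D : ℕ → Finset V}
    (h : CfI B Q 0 x D i j [0, 2] [1, 6]) : False :=
  h.absurd (by decide) srt_nil inst_17

end Pool.Agent.Hyp6
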