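import Pool.Agent.Hyp6.Cb5

/-!
# HYP6: instance 19 of the list: n = 0, bounds [0, 2], inner blocks [1, 8]

74 base clauses, 26 gadgets, 26 learned clauses.
-/

set_option autoImplicit false
set_option maxRecDepth 100000

namespace Pool.Agent.Hyp6

open Rup

universe u v

namespace D19

noncomputable def names : Tr :=
 (.node 40 (.node 19 (.node 9 (.node 4 (.node 1 (.node 0 (.leaf 2058)
 (.leaf 16705))
 (.node 2 (.leaf 130)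
 (.node 3 (.leaf 258)
 (.leaf 18457))))
 (.node 6 (.node 5 (.leaf 66)
 (.leaf 18473))
 (.node 7 (.leaf 18625)
 (.node 8 (.leaf 10)
 (.leaf 2114)))))
 (.node 14 (.node 11 (.node 10 (.leaf 2081)
 (.leaf 2067))
 (.node 12 (.leaf 2083)
 (.node 13 (.leaf 2082)
 (.leaf 2179))))
 (.node 16 (.node 15 (.leaf 9)
 (.leaf 34))
 (.node 17 (.leaf 2059)
 (.node 18 (.leaf 19)
 (.leaf 2066))))))
 (.node 29 (.node 24 (.node 21 (.node 20 (.leaf 18)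
 (.leaf 16425))
 (.node 22 (.leaf 33)
 (.node 23 (.leaf 2065)
 (.leaf 67))))
 (.node 26 (.node 25 (.leaf 17)
 (.leaf 16409))
 (.node 27 (.leaf 18753)
 (.node 28 (.leaf 65)
 (.leaf 2100)))))
 (.node 34 (.node 31 (.node 30 (.leaf 10289)
 (.leaf 2305))
 (.node 32 (.leaf 16657)
 (.node 33 (.leaf 18481)
 (.leaf 16673))))
 (.node 37 (.node 35 (.leaf 2178)
 (.node 36 (.leaf 2306)
 (.leaf 16769)))
 (.node 38 (.leaf 18561)
 (.node 39 (.leaf 2057)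
 (.leaf 18441)))))))
 (.node 61 (.node 50 (.node 45 (.node 42 (.node 41 (.leaf 16417)
 (.leaf 18449))
 (.node 43 (.leaf 131)
 (.node 44 (.leaf 2084)
 (.leaf 8291))))
 (.node 47 (.node 46 (.leaf 257)
 (.leaf 16641))
 (.node 48 (.leaf 18465)
 (.node 49 (.leaf 16513)
 (.leaf 2068)))))
 (.node 55 (.node 52 (.node 51 (.leaf 16577)
 (.leaf 18689))
 (.node 53 (.leaf 16401)
 (.node 54 (.leaf 259)
 (.leaf 16529))))
 (.node 58 (.node 56 (.leaf 18794)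
 (.node 57 (.leaf 2115)
 (.leaf 260)))
 (.node 59 (.leaf 2113)
 (.node 60 (.leaf 2177)
 (.leaf 16393))))))
 (.node 71 (.node 66 (.node 63 (.node 62 (.leaf 20)
 (.leaf 36))
 (.node 64 (.leaf 98)
 (.node 65 (.leaf 8274)
 (.leaf 8330))))
 (.node 68 (.node 67 (.leaf 18666)
 (.leaf 18650))
 (.node 69 (.leaf 129)
 (.node 70 (.leaf 16433)
 (.leaf 2307)))))
 (.node 76 (.node 73 (.node 72 (.leaf 138)
 (.leaf 82))
 (.node 74 (.leaf 18497)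
 (.node 75 (.leaf 16449)
 (.leaf 18817))))
 (.node 79 (.node 77 (.leaf 18593)
 (.node 78 (.leaf 18577)
 (.leaf 274)))
 (.node 80 (.leaf 8466)
 (.node 81 (.leaf 16545)
 (.leaf 18778))))))))

noncomputable def base : List Rs := [
.part [40, 16] [0, 0] [7] [],
.ab 1 0,
.part [4, 3] [0, 0] [56] [],
.part [5, 2] [0, 0] [56] [],
.ordE 0 16 2,
.deg 2 [0, 3],
.ab 1 1,
.le 0 12 8 3 3,
.ordE 1 1 1,
.hall [0] [1, 2],
.ab 0 5,
.part [3, 4] [0, 0] [56] [],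
.part [16, 40] [0, 0] [7] [],
.deg 1 [0, 3],
.ab 0 2,
.deg 3 [1, 1],
.part [24, 32] [0, 0] [7] [],
.part [2, 5] [0, 0] [56] [],
.ordE 0 32 2,
.part [18, 45] [0, 1] [] [],
.ab 1 2,
.deg 3 [0, 2],
.join 1 2 2 4 3 1 [(1, 0)],
.deg 5 [3, 0],
.deg 3 [2, 0],
.hall [1] [4, 5],
.ab 0 0,
.hall [1] [1, 2],
.deg 1 [3, 0],
.join 0 4 3 2 4 0 [(2, 2)],
.ab 1 5,
.deg 2 [1, 2],
.le 0 10 8 3 2,
.part [32, 24] [0, 0] [7] [],
.hall [0] [3, 5],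
.ordE 1 1 2,
.le 0 17 1 0 2,
.ab 1 4,
.deg 1 [2, 1],
.part [34, 29] [0, 1] [] [],
.ab2 1 6,
.part [36, 27] [0, 1] [] [],
.deg 2 [3, 0],
.deg 0 [0, 2],
.ab 0 4,
.join 1 2 2 4 2 2 [(1, 0)],
.part [6, 1] [0, 0] [56] [],
.deg 5 [1, 2],
.part [1, 6] [0, 0] [56] [],
.deg 4 [2, 1],
.join 0 1 4 2 1 2 [(0, 1)],
.ordE 0 2 2,
.ordE 0 8 2,
.join 0 2 3 2 3 0 [(1, 1)],
.ab 1 3,
.ordE 1 4 2,
.deg 5 [2, 1],
.ab 0 3,
.ordE 0 1 1,
.part [8, 48] [0, 0] [7] [],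
.part [40, 20] [0, 0] [3] [],
.ordE 0 16 1,
.part [34, 24] [0, 0] [5] [],
.ordE 1 4 1,
.deg 4 [1, 2],
.part [40, 18] [0, 0] [5] [],
.join 0 2 5 2 3 0 [(1, 1)],
.part [20, 43] [0, 1] [] [],
.part [48, 8] [0, 0] [7] [],
.part [36, 24] [0, 0] [3] [],
.deg 0 [1, 1],
.ab 0 1,
.le 0 34 32 5 2,
.deg 1 [1, 2]]

noncomputable def gads : List Gt := [
⟨1, [⟨1, 2, []⟩, ⟨2, 4, []⟩], [3, 1, 1], 1, [(3, 1)]⟩,
⟨0, [⟨34, 2, []⟩, ⟨16, 2, []⟩], [3, 3, 3], 1, [(18, 1), (48, 1)]⟩,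
⟨1, [⟨1, 2, []⟩, ⟨4, 2, []⟩, ⟨8, 2, []⟩, ⟨16, 2, []⟩], [3, 3, 3, 12, 12, 12], 2, [(5, 1), (24, 1), (29, 2)]⟩,
⟨0, [⟨17, 2, []⟩, ⟨4, 2, []⟩], [3, 3, 3], 1, [(5, 1), (20, 1)]⟩,
⟨0, [⟨1, 2, []⟩, ⟨2, 4, []⟩], [3, 1, 1], 1, [(3, 1)]⟩,
⟨1, [⟨2, 3, []⟩, ⟨4, 3, []⟩], [3, 3], 1, [(6, 1)]⟩,
⟨1, [⟨1, 2, []⟩, ⟨2, 2, []⟩, ⟨8, 2, []⟩, ⟨32, 2, []⟩], [3, 3, 3, 12, 12, 12], 2, [(3, 1), (40, 1), (43, 2)]⟩,
⟨1, [⟨8, 3, []⟩, ⟨16, 3, []⟩], [3, 3], 1, [(24, 1)]⟩,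
⟨0, [⟨8, 2, []⟩, ⟨32, 4, []⟩], [3, 1, 1], 1, [(40, 1)]⟩,
⟨0, [⟨2, 2, []⟩, ⟨4, 2, []⟩], [3, 3, 3], 1, [(6, 1)]⟩,
⟨0, [⟨8, 2, []⟩, ⟨32, 2, []⟩], [3, 3, 3], 1, [(40, 1)]⟩,
⟨1, [⟨1, 2, []⟩, ⟨6, 4, []⟩], [3, 1, 1], 1, [(3, 1), (5, 1)]⟩,
⟨1, [⟨1, 2, []⟩, ⟨4, 4, []⟩], [3, 1, 1], 1, [(5, 1)]⟩,
⟨0, [⟨10, 2, []⟩, ⟨32, 2, []⟩], [3, 3, 3], 1, [(34, 1), (40, 1)]⟩,
⟨0, [⟨12, 2, []⟩, ⟨32, 2, []⟩], [3, 3, 3], 1, [(36, 1), (40, 1)]⟩,
⟨0, [⟨1, 2, []⟩, ⟨4, 2, []⟩], [3, 3, 3], 1, [(5, 1)]⟩,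
⟨1, [⟨1, 3, []⟩, ⟨4, 3, []⟩], [3, 3], 1, [(5, 1)]⟩,
⟨0, [⟨1, 2, []⟩, ⟨2, 2, []⟩], [3, 3, 3], 1, [(3, 1)]⟩,
⟨1, [⟨1, 2, []⟩, ⟨2, 2, []⟩, ⟨8, 2, []⟩, ⟨16, 2, []⟩], [3, 3, 3, 12, 12, 12], 2, [(3, 1), (24, 1), (27, 2)]⟩,
⟨0, [⟨8, 2, []⟩, ⟨16, 2, []⟩], [3, 3, 3], 1, [(24, 1)]⟩,
⟨1, [⟨2, 3, []⟩, ⟨16, 3, []⟩], [3, 3], 1, [(18, 1)]⟩,
⟨1, [⟨4, 3, []⟩, ⟨16, 3, []⟩], [3, 3], 1, [(20, 1)]⟩,
⟨1, [⟨16, 3, []⟩, ⟨32, 3, []⟩], [3, 3], 1, [(48, 1)]⟩,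
⟨1, [⟨1, 3, []⟩, ⟨2, 3, []⟩], [3, 3], 1, [(3, 1)]⟩,
⟨1, [⟨1, 2, []⟩, ⟨4, 2, []⟩, ⟨8, 2, []⟩, ⟨32, 2, []⟩], [3, 3, 3, 12, 12, 12], 2, [(5, 1), (40, 1), (45, 2)]⟩,
⟨0, [⟨16, 2, []⟩, ⟨32, 2, []⟩], [3, 3, 3], 1, [(48, 1)]⟩]

noncomputable def cnf : List (List ℕ) := [
[2, 76],
[79, 81],
[82, 8],
[42, 84],
[87, 4],
[44, 88],
[47, 85],
[91, 48],
[1, 78],
[50, 44],
[93, 95],
[52, 96],
[98, 54],
[50, 100],
[45, 83],
[10, 18],
[102, 104],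
[106, 12],
[109, 6],
[110, 112],
[21, 97],
[56, 114],
[23, 21, 58, 60],
[116, 62],
[48, 118],
[120, 62],
[31, 123],
[46, 20],
[124, 46],
[127, 128, 90],
[63, 105],
[32, 24],
[131, 10],
[94, 14],
[56, 92],
[35, 0],
[133, 16],
[121, 77],
[36, 38],
[64, 134],
[61, 67],
[68, 136],
[126, 20],
[30, 34],
[139, 99],
[39, 27, 58, 60],
[140, 80],
[6, 142],
[122, 66],
[86, 70],
[31, 5, 144, 132],
[37, 40],
[49, 10],
[37, 146, 130],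
[119, 149],
[25, 26],
[108, 72],
[57, 151],
[17, 30],
[150, 152],
[2, 154],
[5, 138],
[64, 14],
[27, 20],
[4, 28],
[2, 156],
[37, 158, 160],
[162, 164],
[74, 148],
[68, 14],
[16, 0],
[51, 107],
[161, 6],
[40, 22],
[1, 101, 9],
[159, 5, 111, 75],
[1, 27, 19, 71, 13, 15, 135],
[145, 33, 43, 163],
[17, 125, 53],
[23, 25, 67],
[1, 39, 19, 73, 9, 55, 165],
[115, 29, 15],
[11, 117, 3],
[41, 33, 141],
[11, 7, 3],
[1, 59, 9, 13],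
[1, 89, 13],
[147, 7, 65, 3],
[129, 7, 69, 3],
[17, 33, 43],
[35, 25, 13],
[17, 41, 53],
[1, 39, 19, 71, 9, 15, 137],
[11, 5, 103],
[23, 29, 157],
[25, 29, 155],
[29, 143, 153],
[35, 23, 9],
[1, 27, 19, 73, 13, 55, 113],
[5, 7, 75]]

noncomputable def db : Tr :=
 (.node 63 (.node 31 (.node 15 (.node 7 (.node 3 (.node 1 (.leaf 0x4e0004)
 (.node 2 (.leaf 0x530051)
 (.leaf 0xa0054)))
 (.node 5 (.node 4 (.leaf 0x56002c)
 (.leaf 0x60059))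
 (.node 6 (.leaf 0x5a002e)
 (.leaf 0x570031))))
 (.node 11 (.node 9 (.node 8 (.leaf 0x32005d)
 (.leaf 0x500003))
 (.node 10 (.leaf 0x2e0034)
 (.leaf 0x61005f)))
 (.node 13 (.node 12 (.leaf 0x620036)
 (.leaf 0x380064))
 (.node 14 (.leaf 0x660034)
 (.leaf 0x55002f)))))
 (.node 23 (.node 19 (.node 17 (.node 16 (.leaf 0x14000c)
 (.leaf 0x6a0068))
 (.node 18 (.leaf 0xe006c)
 (.leaf 0x8006f)))
 (.node 21 (.node 20 (.leaf 0x720070)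
 (.leaf 0x630017))
 (.node 22 (.leaf 0x74003a)
 (.leaf 0x3e003c00170019))))
 (.node 27 (.node 25 (.node 24 (.leaf 0x400076)
 (.leaf 0x780032))
 (.node 26 (.leaf 0x40007a)
 (.leaf 0x7d0021)))
 (.node 29 (.node 28 (.leaf 0x160030)
 (.leaf 0x30007e))
 (.node 30 (.leaf 0x5c00820081)
 (.leaf 0x6b0041))))))
 (.node 47 (.node 39 (.node 35 (.node 33 (.node 32 (.leaf 0x1a0022)
 (.leaf 0xc0085))
 (.node 34 (.leaf 0x100060)
 (.leaf 0x5e003a)))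
 (.node 37 (.node 36 (.leaf 0x20025)
 (.leaf 0x120087))
 (.node 38 (.leaf 0x4f007b)
 (.leaf 0x280026))))
 (.node 43 (.node 41 (.node 40 (.leaf 0x880042)
 (.leaf 0x45003f))
 (.node 42 (.leaf 0x8a0046)
 (.leaf 0x160080)))
 (.node 45 (.node 44 (.leaf 0x240020)
 (.leaf 0x65008d))
 (.node 46 (.leaf 0x3e003c001d0029)
 (.leaf 0x52008e)))))
 (.node 55 (.node 51 (.node 49 (.node 48 (.leaf 0x900008)
 (.leaf 0x44007c))
 (.node 50 (.leaf 0x480058)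
 (.leaf 0x86009200070021)))
 (.node 53 (.node 52 (.leaf 0x2a0027)
 (.leaf 0xc0033))
 (.node 54 (.leaf 0x8400940027)
 (.leaf 0x970079))))
 (.node 59 (.node 57 (.node 56 (.leaf 0x1c001b)
 (.leaf 0x4a006e))
 (.node 58 (.leaf 0x99003b)
 (.leaf 0x200013)))
 (.node 61 (.node 60 (.leaf 0x9a0098)
 (.leaf 0x9c0004))
 (.node 62 (.leaf 0x8c0007)
 (.leaf 0x100042)))))))
 (.node 94 (.node 78 (.node 70 (.node 66 (.node 64 (.leaf 0x16001d)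
 (.node 65 (.leaf 0x1e0006)
 (.leaf 0x9e0004)))
 (.node 68 (.node 67 (.leaf 0xa200a00027)
 (.leaf 0xa600a4))
 (.node 69 (.leaf 0x96004c)
 (.leaf 0x100046))))
 (.node 74 (.node 72 (.node 71 (.leaf 0x20012)
 (.leaf 0x6d0035))
 (.node 73 (.leaf 0x800a3)
 (.leaf 0x18002a)))
 (.node 76 (.node 75 (.leaf 0xb00670003)
 (.leaf 0x4d0071000700a1))
 (.node 77 (.leaf 0x890011000f00490015001d0003)
 (.leaf 0xa5002d00230093)))))
 (.node 86 (.node 82 (.node 80 (.node 79 (.leaf 0x37007f0013)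
 (.leaf 0x45001b0019))
 (.node 81 (.leaf 0xa70039000b004b001500290003)
 (.leaf 0x11001f0075)))
 (.node 84 (.node 83 (.leaf 0x50077000d)
 (.leaf 0x8f0023002b))
 (.node 85 (.leaf 0x50009000d)
 (.leaf 0xf000b003d0003))))
 (.node 90 (.node 88 (.node 87 (.leaf 0xf005b0003)
 (.leaf 0x5004300090095))
 (.node 89 (.leaf 0x5004700090083)
 (.leaf 0x2d00230013)))
 (.node 92 (.node 91 (.leaf 0xf001b0025)
 (.leaf 0x37002b0013))
 (.node 93 (.leaf 0x8b0011000b0049001500290003)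
 (.leaf 0x690007000d))))))
 (.node 110 (.node 102 (.node 98 (.node 96 (.node 95 (.leaf 0x9f001f0019)
 (.leaf 0x9d001f001b))
 (.node 97 (.leaf 0x9b0091001f)
 (.leaf 0xb00190025)))
 (.node 100 (.node 99 (.leaf 0x730039000f004b0015001d0003)
 (.leaf 0x4d00090007))
 (.node 101 (.leaf 0x2b0023)
 (.leaf 0x1f003a))))
 (.node 106 (.node 104 (.node 103 (.leaf 0x3002e)
 (.leaf 0x9001f0049002b))
 (.node 105 (.leaf 0x900490019002900050003)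
 (.leaf 0x130023)))
 (.node 108 (.node 107 (.leaf 0x490019002900090005)
 (.leaf 0x1f00090049))
 (.node 109 (.leaf 0x4d0009)
 (.leaf 0x91001f)))))
 (.node 118 (.node 114 (.node 112 (.node 111 (.leaf 0x190013)
 (.leaf 0x700a50019))
 (.node 113 (.leaf 0x7000d)
 (.leaf 0x4d002b)))
 (.node 116 (.node 115 (.leaf 0x4d)
 (.leaf 0x96))
 (.node 117 (.leaf 0x79)
 (.leaf 0x32))))
 (.node 122 (.node 120 (.node 119 (.leaf 0xc)
 (.leaf 0x7))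
 (.node 121 (.leaf 0x59)
 (.leaf 0x1e)))
 (.node 124 (.node 123 (.leaf 0x48)
 (.leaf 0x91))
 (.node 125 (.leaf 0x9)
 (.leaf 0x0))))))))

noncomputable def prf : List ℕ := [
0x480005d0004f00060000580000a000080001d0005b000620003500010,
0x430005a00013000420004f,
0x540001e0000f0005c00060,
0x1a000280003f0000f0003100040000390003e000360004c0003b000110000c000550001f000590001c000640005800000000200000b00046000570005b00012000520002a00027000070002f0004700002,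
0xb000220003e0000f0004a0003d000510003f0001200037000560004d000200003c0005a000060001d00065000590000100058000600003300013,
0x5d0001a000540004c0004d00062000650000f,
0x4a0001a000390004f0003e000230004600001,
0x290000c00044000210003700003,
0x3a0002b0006700008,
0x31000330000c00007,
0x1e0003d0004e000530000400033,
0x6b0006800021000530004f000580001f00046000190003e0005d0003c000540002700043000610000d000240006c0006000008000280004a00000,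
0x6f0004a0001d0005600058000510005f00012,
0x5d0000e000250002e0004a00043000480004000056000450001b000160005f0002900063000260006e000620000a0002a00015000650005c0003100039000510000c00028000380005e000640004400033000610000000030000030004100004,
0x210002e0006f000630000b0002b00002000030004b000280003e000000006200001000650004500034000310000400039000420005f00005,
0x2e00000,
0x3d00000,
0x5c00000,
0x4100000,
0x600000,
0x7300000,
0x3800001,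
0x4800001,
0xd00001,
0x100000200001,
0x4d0000100000]

end D19

theorem inst_19 : instB 0 [0, 2] [1, 8] [] D19.base D19.gads D19.names D19.cnf D19.db D19.prf = true := by decide +kernel

/-- no gadget has fewer than `2 R` new points. -/
theorem p2_19 : D19.gads.all (fun g => Nat.ble (2 * g.R) g.gs.length) = true := by decide +kernel

/-- there is no configuration of this instance. -/
theorem no_19 {V : Type v} [DecidableEq V] {ι : Type u} [Fintype ι] {B : ι → Finset V}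
    {Q : Finset V} {i j : ι} {x : ℕ → V} {D : ℕ → Finset V}
    (h : CfI B Q 0 x D i j [0, 2] [1, 8]) : False :=
  h.absurd (by decide) srt_nil inst_19

end Pool.Agent.Hyp6
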