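import Pool.Agent.Hyp6.Cb5

/-!
# HYP6: instance 20 of the list: n = 0, bounds [0, 2], inner blocks [1, 9]

62 base clauses, 20 gadgets, 40 learned clauses.
-/

set_option autoImplicit false
set_option maxRecDepth 100000

namespace Pool.Agent.Hyp6

open Rup

universe u v

namespace D20

noncomputable def names : Tr :=
 (.node 33 (.node 16 (.node 7 (.node 3 (.node 1 (.node 0 (.leaf 258)
 (.leaf 130))
 (.node 2 (.leaf 257)
 (.leaf 129)))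
 (.node 5 (.node 4 (.leaf 16769)
 (.leaf 65))
 (.node 6 (.leaf 18)
 (.leaf 2179))))
 (.node 11 (.node 9 (.node 8 (.leaf 2307)
 (.leaf 66))
 (.node 10 (.leaf 2114)
 (.leaf 34)))
 (.node 13 (.node 12 (.leaf 2113)
 (.leaf 33))
 (.node 14 (.leaf 290)
 (.node 15 (.leaf 17)
 (.leaf 162))))))
 (.node 24 (.node 20 (.node 18 (.node 17 (.leaf 2115)
 (.leaf 2057))
 (.node 19 (.leaf 146)
 (.leaf 2305)))
 (.node 22 (.node 21 (.leaf 18753)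
 (.leaf 18625))
 (.node 23 (.leaf 8385)
 (.leaf 2083))))
 (.node 28 (.node 26 (.node 25 (.leaf 274)
 (.leaf 8513))
 (.node 27 (.leaf 16705)
 (.leaf 16577)))
 (.node 30 (.node 29 (.leaf 2067)
 (.leaf 8482))
 (.node 31 (.leaf 8481)
 (.node 32 (.leaf 259)
 (.leaf 131)))))))
 (.node 50 (.node 41 (.node 37 (.node 35 (.node 34 (.leaf 8353)
 (.leaf 2081))
 (.node 36 (.leaf 8338)
 (.leaf 2308)))
 (.node 39 (.node 38 (.leaf 8354)
 (.leaf 16513))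
 (.node 40 (.leaf 18689)
 (.leaf 18497))))
 (.node 45 (.node 43 (.node 42 (.leaf 16641)
 (.leaf 10))
 (.node 44 (.leaf 16673)
 (.leaf 18577)))
 (.node 47 (.node 46 (.leaf 67)
 (.leaf 8337))
 (.node 48 (.leaf 260)
 (.node 49 (.leaf 16657)
 (.leaf 18593))))))
 (.node 59 (.node 54 (.node 52 (.node 51 (.leaf 16449)
 (.leaf 18817))
 (.node 53 (.leaf 16409)
 (.leaf 18465)))
 (.node 56 (.node 55 (.leaf 16529)
 (.leaf 18721))
 (.node 57 (.leaf 2180)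
 (.node 58 (.leaf 8465)
 (.leaf 2177)))))
 (.node 63 (.node 61 (.node 60 (.leaf 18561)
 (.leaf 8466))
 (.node 62 (.leaf 16545)
 (.leaf 18705)))
 (.node 65 (.node 64 (.leaf 16433)
 (.leaf 18441))
 (.node 66 (.leaf 132)
 (.node 67 (.leaf 322)
 (.leaf 194))))))))

noncomputable def base : List Rs := [
.deg 3 [1, 1],
.le 0 36 32 5 2,
.ordE 0 32 1,
.join 0 4 5 2 1 1 [(2, 0)],
.ordE 0 32 2,
.ordE 0 16 2,
.hall [0] [1, 2],
.join 0 4 4 2 1 1 [(2, 0)],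
.deg 3 [0, 2],
.hall [1] [0, 2],
.join 0 2 4 2 2 1 [(1, 1)],
.deg 5 [0, 3],
.join 0 4 4 2 2 1 [(2, 1)],
.ab 0 4,
.le 0 20 16 4 2,
.ab 1 5,
.part [48, 8] [0, 0] [7] [],
.part [16, 40] [0, 0] [7] [],
.part [32, 24] [0, 0] [7] [],
.deg 0 [1, 0],
.deg 4 [1, 2],
.part [36, 18] [0, 0] [9] [],
.deg 3 [2, 0],
.le 0 18 16 4 2,
.l2 0 18 24 4 1 1,
.ordE 0 32 3,
.part [34, 20] [0, 0] [9] [],
.part [8, 48] [0, 0] [7] [],
.deg 2 [1, 2],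
.part [3, 4] [0, 0] [56] [],
.part [18, 36] [0, 0] [9] [],
.deg 4 [0, 3],
.join 0 2 5 2 1 1 [(1, 0)],
.ab 1 4,
.ab 0 5,
.l2 0 36 40 5 1 1,
.ab 1 2,
.join 0 2 5 2 2 1 [(1, 1)],
.part [20, 34] [0, 0] [9] [],
.deg 5 [3, 0],
.part [6, 1] [0, 0] [56] [],
.deg 4 [3, 0],
.join 0 8 5 2 1 1 [(3, 0)],
.join 0 8 4 2 1 1 [(3, 0)],
.hall [1] [3, 5],
.join 0 4 5 2 2 1 [(2, 1)],
.ordE 0 16 1,
.hall [0] [3, 5],
.l2 0 34 40 5 1 1,
.ab 0 3,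
.ab 1 3,
.ordE 0 8 2,
.part [40, 16] [0, 0] [7] [],
.ordE 0 16 3,
.l2 0 20 24 4 1 1,
.deg 5 [1, 2],
.part [24, 32] [0, 0] [7] [],
.ordE 1 8 1,
.ab 1 0,
.le 0 34 32 5 2,
.join 0 2 4 2 1 1 [(1, 0)],
.deg 1 [1, 2]]

noncomputable def gads : List Gt := [
⟨0, [⟨40, 2, []⟩, ⟨16, 2, []⟩], [3, 3, 3], 1, [(24, 1), (48, 1)]⟩,
⟨0, [⟨20, 2, []⟩, ⟨32, 2, []⟩], [3, 3, 3], 1, [(36, 1), (48, 1)]⟩,
⟨1, [⟨2, 3, []⟩, ⟨16, 3, []⟩], [3, 3], 1, [(18, 1)]⟩,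
⟨0, [⟨24, 2, []⟩, ⟨32, 2, []⟩], [3, 3, 3], 1, [(40, 1), (48, 1)]⟩,
⟨0, [⟨36, 2, []⟩, ⟨16, 2, []⟩], [3, 3, 3], 1, [(20, 1), (48, 1)]⟩,
⟨0, [⟨1, 2, []⟩, ⟨2, 2, []⟩], [3, 3, 3], 1, [(3, 1)]⟩,
⟨1, [⟨8, 2, []⟩, ⟨32, 4, []⟩], [3, 1, 1], 1, [(40, 1)]⟩,
⟨1, [⟨8, 2, []⟩, ⟨16, 4, []⟩], [3, 1, 1], 1, [(24, 1)]⟩,
⟨0, [⟨8, 2, []⟩, ⟨32, 2, []⟩], [3, 3, 3], 1, [(40, 1)]⟩,
⟨0, [⟨18, 2, []⟩, ⟨32, 2, []⟩], [3, 3, 3], 1, [(34, 1), (48, 1)]⟩,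
⟨1, [⟨16, 3, []⟩, ⟨32, 3, []⟩], [3, 3], 1, [(48, 1)]⟩,
⟨1, [⟨8, 3, []⟩, ⟨32, 3, []⟩], [3, 3], 1, [(40, 1)]⟩,
⟨0, [⟨16, 2, []⟩, ⟨32, 2, []⟩], [3, 3, 3], 1, [(48, 1)]⟩,
⟨1, [⟨4, 3, []⟩, ⟨16, 3, []⟩], [3, 3], 1, [(20, 1)]⟩,
⟨0, [⟨34, 2, []⟩, ⟨16, 2, []⟩], [3, 3, 3], 1, [(18, 1), (48, 1)]⟩,
⟨0, [⟨8, 2, []⟩, ⟨16, 2, []⟩], [3, 3, 3], 1, [(24, 1)]⟩,
⟨1, [⟨4, 3, []⟩, ⟨32, 3, []⟩], [3, 3], 1, [(36, 1)]⟩,
⟨1, [⟨2, 3, []⟩, ⟨32, 3, []⟩], [3, 3], 1, [(34, 1)]⟩,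
⟨0, [⟨2, 2, []⟩, ⟨4, 2, []⟩], [3, 3, 3], 1, [(6, 1)]⟩,
⟨1, [⟨8, 3, []⟩, ⟨16, 3, []⟩], [3, 3], 1, [(24, 1)]⟩]

noncomputable def cnf : List (List ℕ) := [
[18, 20],
[61, 0],
[1, 4],
[27, 5, 28, 62],
[65, 0],
[67, 2],
[30, 26],
[27, 7, 32, 68],
[10, 34],
[36, 70],
[13, 7, 38, 72],
[4, 74],
[23, 7, 32, 76],
[7, 79],
[77, 2],
[41, 81],
[8, 82],
[78, 42],
[84, 44],
[86, 36],
[2, 14],
[88, 90],
[92, 24],
[73, 2],
[95, 47, 2],
[97, 64],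
[98, 100],
[102, 104],
[22, 48],
[106, 108],
[110, 112],
[6, 114],
[31, 5, 50, 116],
[119, 121],
[5, 85],
[63, 53, 0],
[71, 109],
[13, 5, 50, 122],
[124, 126],
[96, 40],
[128, 130],
[132, 118],
[11, 5, 134, 52],
[11, 7, 136, 46],
[24, 40],
[23, 5, 28, 60],
[3, 6],
[10, 4],
[117, 53, 0],
[11, 103],
[25, 83],
[93, 18],
[54, 120],
[133, 66],
[69, 47, 2],
[0, 16],
[56, 80],
[21, 24],
[37, 131],
[123, 0],
[31, 7, 38, 94],
[12, 58],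
[135, 3, 57, 9],
[33, 1, 89, 9],
[59, 15, 91],
[137, 1, 55, 9],
[29, 3, 125, 9],
[87, 13, 107],
[21, 75, 43],
[21, 115, 45],
[19, 1, 55],
[39, 1, 99, 9],
[15, 17, 105],
[35, 17, 43],
[3, 1, 9],
[49, 15, 101],
[51, 3, 111, 9],
[19, 3, 57],
[49, 17, 113],
[59, 17, 127],
[13, 23, 129],
[35, 15, 45]]

noncomputable def db : Tr :=
 (.node 61 (.node 30 (.node 15 (.node 7 (.node 3 (.node 1 (.leaf 0x160014)
 (.node 2 (.leaf 0x2003f)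
 (.leaf 0x60003)))
 (.node 5 (.node 4 (.leaf 0x40001e0007001d)
 (.leaf 0x20043))
 (.node 6 (.leaf 0x40045)
 (.leaf 0x1c0020))))
 (.node 11 (.node 9 (.node 8 (.leaf 0x4600220009001d)
 (.leaf 0x24000c))
 (.node 10 (.leaf 0x480026)
 (.leaf 0x4a00280009000f)))
 (.node 13 (.node 12 (.leaf 0x4c0006)
 (.leaf 0x4e002200090019))
 (.node 14 (.leaf 0x510009)
 (.leaf 0x4004f)))))
 (.node 22 (.node 18 (.node 16 (.leaf 0x53002b)
 (.node 17 (.leaf 0x54000a)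
 (.leaf 0x2c0050)))
 (.node 20 (.node 19 (.leaf 0x2e0056)
 (.leaf 0x260058))
 (.node 21 (.leaf 0x100004)
 (.leaf 0x5c005a))))
 (.node 26 (.node 24 (.node 23 (.leaf 0x1a005e)
 (.leaf 0x4004b))
 (.node 25 (.leaf 0x400310061)
 (.leaf 0x420063)))
 (.node 28 (.node 27 (.leaf 0x660064)
 (.leaf 0x6a0068))
 (.node 29 (.leaf 0x320018)
 (.leaf 0x6e006c))))))
 (.node 45 (.node 37 (.node 33 (.node 31 (.leaf 0x720070)
 (.node 32 (.leaf 0x740008)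
 (.leaf 0x76003400070021)))
 (.node 35 (.node 34 (.leaf 0x7b0079)
 (.leaf 0x570007))
 (.node 36 (.leaf 0x200370041)
 (.leaf 0x6f0049))))
 (.node 41 (.node 39 (.node 38 (.leaf 0x7c00340007000f)
 (.leaf 0x80007e))
 (.node 40 (.leaf 0x2a0062)
 (.leaf 0x840082)))
 (.node 43 (.node 42 (.leaf 0x780086)
 (.leaf 0x3600880007000d))
 (.node 44 (.leaf 0x30008a0009000d)
 (.leaf 0x2a001a)))))
 (.node 53 (.node 49 (.node 47 (.node 46 (.leaf 0x3e001e00070019)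
 (.leaf 0x80005))
 (.node 48 (.leaf 0x6000c)
 (.leaf 0x200370077)))
 (.node 51 (.node 50 (.leaf 0x69000d)
 (.leaf 0x55001b))
 (.node 52 (.leaf 0x14005f)
 (.leaf 0x7a0038))))
 (.node 57 (.node 55 (.node 54 (.leaf 0x440087)
 (.leaf 0x400310047))
 (.node 56 (.leaf 0x120002)
 (.leaf 0x52003a)))
 (.node 59 (.node 58 (.leaf 0x1a0017)
 (.leaf 0x850027))
 (.node 60 (.leaf 0x2007d)
 (.leaf 0x60002800090021)))))))
 (.node 91 (.node 76 (.node 68 (.node 64 (.node 62 (.leaf 0x3c000e)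
 (.node 63 (.leaf 0xb003b00050089)
 (.leaf 0xb005b00030023)))
 (.node 66 (.node 65 (.leaf 0x5d0011003d)
 (.leaf 0xb00390003008b))
 (.node 67 (.leaf 0xb007f0005001f)
 (.leaf 0x6d000f0059))))
 (.node 72 (.node 70 (.node 69 (.leaf 0x2d004d0017)
 (.leaf 0x2f00750017))
 (.node 71 (.leaf 0x3900030015)
 (.leaf 0xb006500030029)))
 (.node 74 (.node 73 (.leaf 0x6b00130011)
 (.leaf 0x2d00130025))
 (.node 75 (.leaf 0xb00030005)
 (.leaf 0x6700110033)))))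
 (.node 83 (.node 79 (.node 77 (.leaf 0xb007100050035)
 (.node 78 (.leaf 0x3b00050015)
 (.leaf 0x7300130033)))
 (.node 81 (.node 80 (.leaf 0x810013003d)
 (.leaf 0x830019000f))
 (.node 82 (.leaf 0x2f00110025)
 (.leaf 0x3b00890005))))
 (.node 87 (.node 85 (.node 84 (.leaf 0x130011)
 (.leaf 0x130007000b0037001e0002))
 (.node 86 (.leaf 0x3d003b0013)
 (.leaf 0x3d0003000d000b)))
 (.node 89 (.node 88 (.leaf 0x3b00030015)
 (.leaf 0x3d003b))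
 (.node 90 (.leaf 0x3d)
 (.leaf 0xe))))))
 (.node 106 (.node 98 (.node 94 (.node 92 (.leaf 0x26)
 (.node 93 (.leaf 0x85)
 (.leaf 0x82)))
 (.node 96 (.node 95 (.leaf 0x19)
 (.leaf 0x32))
 (.node 97 (.leaf 0x30004)
 (.leaf 0x30005))))
 (.node 102 (.node 100 (.node 99 (.leaf 0x3)
 (.leaf 0x43))
 (.node 101 (.leaf 0x12)
 (.leaf 0x7d)))
 (.node 104 (.node 103 (.leaf 0x63)
 (.leaf 0x11))
 (.node 105 (.leaf 0x73)
 (.leaf 0x2a)))))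
 (.node 114 (.node 110 (.node 108 (.node 107 (.leaf 0x4)
 (.leaf 0x70))
 (.node 109 (.leaf 0x53)
 (.leaf 0x8)))
 (.node 112 (.node 111 (.leaf 0x3a)
 (.leaf 0x51))
 (.node 113 (.leaf 0x15)
 (.leaf 0x2c))))
 (.node 118 (.node 116 (.node 115 (.leaf 0x16)
 (.leaf 0x1a))
 (.node 117 (.leaf 0x4d)
 (.leaf 0x55)))
 (.node 120 (.node 119 (.leaf 0x6)
 (.leaf 0xa))
 (.node 121 (.leaf 0x34)
 (.leaf 0x0))))))))

noncomputable def prf : List ℕ := [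
0x1f0001800041000510001300004,
0x400003000001000230004a00021000370000a,
0x35000070000500033000370004d00026000500005200023000300003f00000,
0xa00000000120002a000440004c00049000220000b000100001b00043000540004700002000070002600040000010002e00005,
0x190000e0004f0003b0004e0000a0001f0003d000390002a00049000360001000055000140000f000210001600034000400002c00015000200004100047000500000b000430003300053,
0x2d000350002100022000510001000009,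
0x60004f00043000010000d00047000250001e00057000000004500035000550002000002,
0x700046000500004400036000020000e000560004800054000260003f0002c00031000490002000000,
0x1c00000,
0x3d0001700036000470005100000,
0x2100000,
0x3400000,
0xd0000300000,
0x4200000,
0x18000550004f000400002d0001a000260005f000190002b0003e0004500036000140002a000480004b0005a0004d0003d0005d0000500000,
0x2800013000510002d000340004a0002e0005000016,
0x1,
0x5e00000,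
0x2c00001,
0x2900002,
0x4c00002,
0x1300002,
0x190000800003,
0x4100002,
0x5500002,
0x4c00002,
0x5c00002,
0x3e00002,
0x3500001,
0x6100001,
0x220000500001,
0x5f00001,
0x7100001,
0x3900000,
0x2f0000200001,
0x4200001,
0x6a00001,
0x6600001,
0x52000120001d00001,
0x2c0000e0000d0000100000]

end D20

theorem inst_20 : instB 0 [0, 2] [1, 9] [] D20.base D20.gads D20.names D20.cnf D20.db D20.prf = true := by decide +kernel

/-- no gadget has fewer than `2 R` new points. -/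
theorem p2_20 : D20.gads.all (fun g => Nat.ble (2 * g.R) g.gs.length) = true := by decide +kernel

/-- there is no configuration of this instance. -/
theorem no_20 {V : Type v} [DecidableEq V] {ι : Type u} [Fintype ι] {B : ι → Finset V}
    {Q : Finset V} {i j : ι} {x : ℕ → V} {D : ℕ → Finset V}
    (h : CfI B Q 0 x D i j [0, 2] [1, 9]) : False :=
  h.absurd (by decide) srt_nil inst_20

end Pool.Agent.Hyp6
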