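import Pool.Agent.Hyp6.Cb5

/-!
# HYP6: instance 21 of the list: n = 0, bounds [0, 2], inner blocks [1, 10]

67 base clauses, 24 gadgets, 48 learned clauses.
-/

set_option autoImplicit false
set_option maxRecDepth 100000

namespace Pool.Agent.Hyp6

open Rup

universe u v

namespace D21

noncomputable def names : Tr :=
 (.node 35 (.node 17 (.node 8 (.node 3 (.node 1 (.node 0 (.leaf 66)
 (.leaf 130))
 (.node 2 (.leaf 2307)
 (.leaf 2179)))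
 (.node 5 (.node 4 (.leaf 2114)
 (.leaf 65))
 (.node 6 (.leaf 258)
 (.node 7 (.leaf 2113)
 (.leaf 18625)))))
 (.node 12 (.node 10 (.node 9 (.leaf 2123)
 (.leaf 10313))
 (.node 11 (.leaf 2115)
 (.leaf 18753)))
 (.node 14 (.node 13 (.leaf 34)
 (.leaf 16577))
 (.node 15 (.leaf 16705)
 (.node 16 (.leaf 257)
 (.leaf 16673))))))
 (.node 26 (.node 21 (.node 19 (.node 18 (.leaf 2131)
 (.leaf 16425))
 (.node 20 (.leaf 2057)
 (.leaf 16545)))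
 (.node 23 (.node 22 (.leaf 16769)
 (.leaf 8265))
 (.node 24 (.leaf 8513)
 (.node 25 (.leaf 2177)
 (.leaf 9)))))
 (.node 30 (.node 28 (.node 27 (.leaf 2180)
 (.leaf 2066))
 (.node 29 (.leaf 18705)
 (.leaf 74)))
 (.node 32 (.node 31 (.leaf 98)
 (.leaf 8289))
 (.node 33 (.leaf 8385)
 (.node 34 (.leaf 129)
 (.leaf 2058)))))))
 (.node 53 (.node 44 (.node 39 (.node 37 (.node 36 (.leaf 2083)
 (.leaf 2308))
 (.node 38 (.leaf 16641)
 (.leaf 2306)))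
 (.node 41 (.node 40 (.leaf 2305)
 (.leaf 18650))
 (.node 42 (.leaf 18561)
 (.node 43 (.leaf 2059)
 (.leaf 16649)))))
 (.node 48 (.node 46 (.node 45 (.leaf 18593)
 (.leaf 10321))
 (.node 47 (.leaf 10315)
 (.leaf 18569)))
 (.node 50 (.node 49 (.leaf 33)
 (.leaf 16521))
 (.node 51 (.leaf 18721)
 (.node 52 (.leaf 18697)
 (.leaf 18689))))))
 (.node 62 (.node 57 (.node 55 (.node 54 (.leaf 132)
 (.leaf 16513))
 (.node 56 (.leaf 18449)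
 (.leaf 18513)))
 (.node 59 (.node 58 (.leaf 10322)
 (.leaf 18))
 (.node 60 (.leaf 194)
 (.node 61 (.leaf 16449)
 (.leaf 18817)))))
 (.node 67 (.node 64 (.node 63 (.leaf 67)
 (.leaf 18497))
 (.node 65 (.leaf 18577)
 (.node 66 (.leaf 18441)
 (.leaf 322))))
 (.node 69 (.node 68 (.leaf 131)
 (.leaf 2065))
 (.node 70 (.leaf 18778)
 (.node 71 (.leaf 16433)
 (.leaf 10))))))))

noncomputable def base : List Rs := [
.part [32, 24] [0, 0] [7] [],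
.ab 0 5,
.ordE 1 32 1,
.part [36, 27] [0, 1] [] [],
.l2 0 9 40 3 1 1,
.ab 1 4,
.deg 0 [0, 2],
.ordE 1 16 3,
.part [33, 20] [0, 0] [10] [],
.join 1 2 3 3 2 1 [(1, 0)],
.part [5, 34] [0, 0] [24] [],
.join 1 1 3 3 3 2 [(0, 2)],
.join 0 1 3 2 1 1 [(0, 0)],
.deg 4 [1, 2],
.join 1 1 3 3 1 2 [(0, 0)],
.part [36, 17] [0, 0] [10] [],
.join 0 4 3 2 1 1 [(2, 0)],
.deg 3 [0, 2],
.l2 0 12 24 3 1 1,
.hall [0] [0, 2],
.part [17, 36] [0, 0] [10] [],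
.deg 4 [0, 3],
.hall [1] [3, 4],
.join 1 1 3 3 2 1 [(0, 0)],
.part [20, 33] [0, 0] [10] [],
.ab 1 5,
.deg 4 [3, 0],
.part [16, 40] [0, 0] [7] [],
.part [5, 2] [0, 0] [56] [],
.deg 2 [1, 2],
.ab2 1 10,
.deg 3 [1, 1],
.ordE 1 1 1,
.join 1 2 3 3 2 2 [(1, 1)],
.ordE 1 32 2,
.l2 0 12 40 3 1 1,
.hall [0] [3, 5],
.deg 1 [1, 1],
.join 0 8 4 2 1 1 [(3, 0)],
.part [5, 10] [0, 0] [48] [],
.part [8, 48] [0, 0] [7] [],
.deg 3 [2, 0],
.ab 1 3,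
.lipl 1 18 27 1 9,
.ab 0 3,
.l2 1 9 10 3 1 2,
.ab 1 0,
.part [24, 32] [0, 0] [7] [],
.deg 5 [1, 2],
.join 0 8 5 2 1 1 [(3, 0)],
.ordE 0 16 2,
.ordE 0 16 3,
.hall [1] [0, 1],
.le 1 9 8 3 3,
.ab 0 4,
.ab 1 1,
.ordE 0 8 2,
.part [40, 16] [0, 0] [7] [],
.part [20, 43] [0, 1] [] [],
.l2 0 9 24 3 1 1,
.ordE 1 32 3,
.deg 5 [0, 3],
.part [6, 1] [0, 0] [56] [],
.part [48, 8] [0, 0] [7] [],
.lipl 1 34 43 1 9,
.ordE 1 8 1,
.deg 0 [1, 1]]

noncomputable def gads : List Gt := [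
⟨1, [⟨4, 3, []⟩, ⟨32, 3, []⟩], [3, 3], 1, [(36, 1)]⟩,
⟨1, [⟨9, 3, []⟩, ⟨16, 3, []⟩], [3, 3], 1, [(17, 1), (24, 1)]⟩,
⟨1, [⟨9, 3, []⟩, ⟨32, 3, []⟩], [3, 3], 1, [(33, 1), (40, 1)]⟩,
⟨1, [⟨10, 3, []⟩, ⟨16, 3, []⟩], [3, 3], 1, [(18, 1), (24, 1)]⟩,
⟨0, [⟨9, 2, []⟩, ⟨16, 2, []⟩], [3, 3, 3], 1, [(17, 1), (24, 1)]⟩,
⟨1, [⟨8, 3, []⟩, ⟨16, 3, []⟩], [3, 3], 1, [(24, 1)]⟩,
⟨0, [⟨12, 2, []⟩, ⟨16, 2, []⟩], [3, 3, 3], 1, [(20, 1), (24, 1)]⟩,
⟨1, [⟨16, 3, []⟩, ⟨32, 3, []⟩], [3, 3], 1, [(48, 1)]⟩,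
⟨0, [⟨40, 2, []⟩, ⟨16, 2, []⟩], [3, 3, 3], 1, [(24, 1), (48, 1)]⟩,
⟨0, [⟨4, 2, []⟩, ⟨32, 2, []⟩], [3, 3, 3], 1, [(36, 1)]⟩,
⟨1, [⟨8, 2, []⟩, ⟨32, 4, []⟩], [3, 1, 1], 1, [(40, 1)]⟩,
⟨0, [⟨1, 2, []⟩, ⟨4, 2, []⟩], [3, 3, 3], 1, [(5, 1)]⟩,
⟨0, [⟨8, 2, []⟩, ⟨16, 2, []⟩], [3, 3, 3], 1, [(24, 1)]⟩,
⟨1, [⟨8, 3, []⟩, ⟨32, 3, []⟩], [3, 3], 1, [(40, 1)]⟩,
⟨0, [⟨4, 2, []⟩, ⟨16, 2, []⟩], [3, 3, 3], 1, [(20, 1)]⟩,
⟨0, [⟨12, 2, []⟩, ⟨32, 2, []⟩], [3, 3, 3], 1, [(36, 1), (40, 1)]⟩,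
⟨1, [⟨10, 3, []⟩, ⟨32, 3, []⟩], [3, 3], 1, [(34, 1), (40, 1)]⟩,
⟨0, [⟨24, 2, []⟩, ⟨32, 2, []⟩], [3, 3, 3], 1, [(40, 1), (48, 1)]⟩,
⟨1, [⟨4, 3, []⟩, ⟨16, 3, []⟩], [3, 3], 1, [(20, 1)]⟩,
⟨0, [⟨16, 2, []⟩, ⟨32, 2, []⟩], [3, 3, 3], 1, [(48, 1)]⟩,
⟨0, [⟨9, 2, []⟩, ⟨32, 2, []⟩], [3, 3, 3], 1, [(33, 1), (40, 1)]⟩,
⟨0, [⟨8, 2, []⟩, ⟨32, 2, []⟩], [3, 3, 3], 1, [(40, 1)]⟩,
⟨0, [⟨2, 2, []⟩, ⟨4, 2, []⟩], [3, 3, 3], 1, [(6, 1)]⟩,
⟨1, [⟨8, 2, []⟩, ⟨16, 4, []⟩], [3, 1, 1], 1, [(24, 1)]⟩]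

noncomputable def cnf : List (List ℕ) := [
[76, 16],
[33, 77],
[79, 80],
[34, 82],
[47, 49, 0],
[51, 85],
[52, 86],
[55, 6],
[88, 90],
[57, 15, 36, 92],
[38, 58],
[87, 9, 18, 94],
[53, 11, 60, 46],
[2, 6],
[41, 9, 18, 20],
[34, 96],
[99, 11, 62, 64],
[10, 22],
[65, 67, 0],
[52, 98],
[100, 102],
[68, 54],
[14, 50],
[71, 15, 18, 20],
[42, 104],
[81, 107],
[108, 50],
[110, 24],
[38, 112],
[26, 72],
[93, 115],
[0, 8],
[71, 40],
[57, 9, 36, 116],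
[5, 78],
[65, 49, 0],
[10, 32],
[118, 56],
[11, 69, 120, 66],
[38, 114],
[122, 124],
[126, 14],
[15, 129],
[21, 83, 130],
[11, 123],
[21, 117, 22],
[41, 133],
[28, 106],
[12, 4],
[11, 33, 134, 48],
[137, 2],
[109, 136],
[40, 138],
[95, 22],
[69, 111],
[139, 113],
[127, 0],
[30, 84],
[42, 140],
[47, 67, 0],
[75, 4],
[32, 74],
[142, 132],
[44, 128],
[21, 141, 58],
[9, 14],
[144, 70],
[73, 5, 103],
[19, 7, 97, 17],
[19, 5, 105, 25],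
[37, 7, 131, 17],
[61, 3, 101, 29],
[23, 7, 17],
[63, 3, 43, 29],
[7, 5, 125],
[135, 3, 29, 45],
[27, 13, 35],
[9, 75, 25],
[145, 27, 39],
[1, 3, 29],
[23, 5, 25],
[27, 3, 43],
[63, 13, 35, 31],
[37, 5, 59, 25],
[121, 13, 31, 45],
[73, 7, 91],
[3, 13, 45],
[61, 13, 89, 31],
[1, 13, 31],
[119, 27, 143],
[9, 55, 17]]

noncomputable def db : Tr :=
 (.node 69 (.node 34 (.node 17 (.node 8 (.node 4 (.node 2 (.node 1 (.leaf 0x12004e)
 (.leaf 0x4f0023))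
 (.node 3 (.leaf 0x520051)
 (.leaf 0x540024)))
 (.node 6 (.node 5 (.leaf 0x200330031)
 (.leaf 0x570035))
 (.node 7 (.leaf 0x580036)
 (.leaf 0x80039))))
 (.node 12 (.node 10 (.node 9 (.leaf 0x5c005a)
 (.leaf 0x5e00260011003b))
 (.node 11 (.leaf 0x3c0028)
 (.leaf 0x600014000b0059)))
 (.node 14 (.node 13 (.leaf 0x30003e000d0037)
 (.leaf 0x80004))
 (.node 15 (.leaf 0x160014000b002b)
 (.node 16 (.leaf 0x620024)
 (.leaf 0x420040000d0065))))))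
 (.node 25 (.node 21 (.node 19 (.node 18 (.leaf 0x18000c)
 (.leaf 0x200450043))
 (.node 20 (.leaf 0x640036)
 (.leaf 0x680066)))
 (.node 23 (.node 22 (.leaf 0x380046)
 (.leaf 0x340010))
 (.node 24 (.leaf 0x16001400110049)
 (.leaf 0x6a002c))))
 (.node 29 (.node 27 (.node 26 (.leaf 0x6d0053)
 (.leaf 0x34006e))
 (.node 28 (.leaf 0x1a0070)
 (.leaf 0x720028)))
 (.node 31 (.node 30 (.leaf 0x4a001c)
 (.leaf 0x75005f))
 (.node 32 (.leaf 0xa0002)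
 (.node 33 (.leaf 0x2a0049)
 (.leaf 0x760026000b003b)))))))
 (.node 51 (.node 42 (.node 38 (.node 36 (.node 35 (.leaf 0x500007)
 (.leaf 0x200330043))
 (.node 37 (.leaf 0x22000c)
 (.leaf 0x3a0078)))
 (.node 40 (.node 39 (.leaf 0x44007a0047000d)
 (.leaf 0x740028))
 (.node 41 (.leaf 0x7e007c)
 (.leaf 0x100080))))
 (.node 46 (.node 44 (.node 43 (.leaf 0x830011)
 (.leaf 0x8400550017))
 (.node 45 (.leaf 0x7d000d)
 (.leaf 0x1800770017)))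
 (.node 48 (.node 47 (.leaf 0x87002b)
 (.leaf 0x6c001e))
 (.node 49 (.leaf 0x6000e)
 (.node 50 (.leaf 0x3200880023000d)
 (.leaf 0x4008b))))))
 (.node 60 (.node 55 (.node 53 (.node 52 (.leaf 0x8a006f)
 (.leaf 0x8c002a))
 (.node 54 (.leaf 0x180061)
 (.leaf 0x710047)))
 (.node 57 (.node 56 (.leaf 0x73008d)
 (.leaf 0x20081))
 (.node 58 (.leaf 0x560020)
 (.node 59 (.leaf 0x8e002c)
 (.leaf 0x200450031)))))
 (.node 64 (.node 62 (.node 61 (.leaf 0x6004d)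
 (.leaf 0x4c0022))
 (.node 63 (.leaf 0x860090)
 (.leaf 0x82002e)))
 (.node 66 (.node 65 (.leaf 0x3c008f0017)
 (.leaf 0x10000b))
 (.node 67 (.leaf 0x480092)
 (.node 68 (.leaf 0x690007004b)
 (.leaf 0x13006300090015))))))))
 (.node 104 (.node 86 (.node 77 (.node 73 (.node 71 (.node 70 (.leaf 0x1b006b00070015)
 (.leaf 0x13008500090027))
 (.node 72 (.leaf 0x1f00670005003f)
 (.leaf 0x1300090019)))
 (.node 75 (.node 74 (.leaf 0x1f002d00050041)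
 (.leaf 0x7f00070009))
 (.node 76 (.leaf 0x2f001f00050089)
 (.leaf 0x25000f001d))))
 (.node 81 (.node 79 (.node 78 (.leaf 0x1b004d000b)
 (.leaf 0x29001d0093))
 (.node 80 (.leaf 0x1f00050003)
 (.leaf 0x1b00070019)))
 (.node 83 (.node 82 (.leaf 0x2d0005001d)
 (.leaf 0x210025000f0041))
 (.node 84 (.leaf 0x1b003d00070027)
 (.node 85 (.leaf 0x2f0021000f007b)
 (.leaf 0x5d0009004b))))))
 (.node 95 (.node 90 (.node 88 (.node 87 (.leaf 0x2f000f0005)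
 (.leaf 0x21005b000f003f))
 (.node 89 (.leaf 0x21000f0003)
 (.leaf 0x91001d0079)))
 (.node 92 (.node 91 (.leaf 0x130039000b)
 (.leaf 0x4d000b))
 (.node 93 (.leaf 0x70009)
 (.node 94 (.leaf 0x4d)
 (.leaf 0x22)))))
 (.node 99 (.node 97 (.node 96 (.leaf 0x4f)
 (.leaf 0x12))
 (.node 98 (.leaf 0x2f0019)
 (.leaf 0x18000700420036)))
 (.node 101 (.node 100 (.leaf 0x93002f00910007)
 (.leaf 0x930091000f0009000b001d))
 (.node 102 (.leaf 0x93002f0091)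
 (.node 103 (.leaf 0x2f004b000f)
 (.leaf 0x93002f)))))))
 (.node 121 (.node 112 (.node 108 (.node 106 (.node 105 (.leaf 0x30021)
 (.leaf 0x10))
 (.node 107 (.leaf 0x83)
 (.leaf 0x2e)))
 (.node 110 (.node 109 (.leaf 0x19)
 (.leaf 0x93))
 (.node 111 (.leaf 0xc)
 (.leaf 0x48))))
 (.node 116 (.node 114 (.node 113 (.leaf 0x2a)
 (.leaf 0x87))
 (.node 115 (.leaf 0x90)
 (.leaf 0x7)))
 (.node 118 (.node 117 (.leaf 0xe)
 (.leaf 0x5))
 (.node 119 (.leaf 0x4b)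
 (.node 120 (.leaf 0x8)
 (.leaf 0x8b))))))
 (.node 130 (.node 125 (.node 123 (.node 122 (.leaf 0x1c)
 (.leaf 0x6f))
 (.node 124 (.leaf 0x79)
 (.leaf 0x25)))
 (.node 127 (.node 126 (.leaf 0x34)
 (.leaf 0x3a))
 (.node 128 (.leaf 0x54)
 (.node 129 (.leaf 0x62)
 (.leaf 0x57)))))
 (.node 134 (.node 132 (.node 131 (.leaf 0x15)
 (.leaf 0x20))
 (.node 133 (.leaf 0x16)
 (.leaf 0x3)))
 (.node 136 (.node 135 (.leaf 0x77)
 (.leaf 0x84))
 (.node 137 (.leaf 0xa)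
 (.node 138 (.leaf 0x26)
 (.leaf 0x0)))))))))

noncomputable def prf : List ℕ := [
0x360002e00059000320005a00010000000005300045000240003f0000d0001e,
0x5b0005a00013000370004a0002f0003300011,
0x4f0000d0003d000010002d000430005a0003a00020,
0x2000000,
0x5d00000,
0x5f00000,
0x1000045000300002a0000a0004b00053000590001800000,
0x49000180001c00051000560004e0005b000500002c000460002b0004c0005a000420001200032000480005f0003f0005400005,
0x59000440000f0003d0003b000580000900014000450001f0004e0001b00056000000003f0005e0002100031000430004700017000130002c000330004d00049000550005b000600000600040000510000100004,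
0x380001d000550005a0002f0001f000450002c00054000600003e0003c00047000170000a000150002200003,
0x5500012000200005400059000510005e000580000d0005c0000f000470000000029000520003e0004f0000a00045000100000c0002b0005f0004a0003100032000570000e0003400001000530002f0000300004,
0x560001300021000550005a000520005f000590002a000530003f000500000b000460000e000110000d0002c000600004b0005d000320001000033000580000f00054000300000400005,
0x40005a0004300062000350001f0001b00017000370004d000520005900064000230000a00044000360000000049000180004a0002f00032000380002800001000550000500008,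
0x38000180004e0005a000650000b00045000370000f,
0x2f00030000630003f00052,
0x3f00000,
0x2b00000,
0xa00000,
0x500001,
0x5c00001,
0x2c00001,
0x4f00000,
0x4200000,
0x3300000,
0x1f0005100032000450005b0002d000380005a0004d0002100019000550002f0005e0002b00066000100004f0006e00041000530005700027000230003c000430005d00059000650006b00070000160005000006000090000300000000040001400007,
0x4300000,
0x1e0000900000,
0xf0000a00001,
0x6900001,
0x4500002,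
0x5b00002,
0x4600001,
0x210000800001,
0x2f0000700002,
0x6200002,
0x5800002,
0x7b00002,
0x7000003,
0x7b00003,
0x3d0000a0002100001,
0x4900001,
0x6c000140001a00001,
0x1c00001,
0x580001900001,
0x5b0000700002,
0x6800002,
0x670000a0000000002,
0x4300012000290000200000]

end D21

theorem inst_21 : instB 0 [0, 2] [1, 10] [] D21.base D21.gads D21.names D21.cnf D21.db D21.prf = true := by decide +kernel

/-- no gadget has fewer than `2 R` new points. -/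
theorem p2_21 : D21.gads.all (fun g => Nat.ble (2 * g.R) g.gs.length) = true := by decide +kernel

/-- there is no configuration of this instance. -/
theorem no_21 {V : Type v} [DecidableEq V] {ι : Type u} [Fintype ι] {B : ι → Finset V}
    {Q : Finset V} {i j : ι} {x : ℕ → V} {D : ℕ → Finset V}
    (h : CfI B Q 0 x D i j [0, 2] [1, 10]) : False :=
  h.absurd (by decide) srt_nil inst_21

end Pool.Agent.Hyp6
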