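import Pool.Agent.Hyp6.Cb5

/-!
# HYP6: instance 22 of the list: n = 0, bounds [0, 2], inner blocks [1, 11]

31 base clauses, 7 gadgets, 19 learned clauses.
-/

set_option autoImplicit false
set_option maxRecDepth 100000

namespace Pool.Agent.Hyp6

open Rup

universe u v

namespace D22

noncomputable def names : Tr :=
 (.node 15 (.node 7 (.node 3 (.node 1 (.node 0 (.leaf 2307)
 (.leaf 130))
 (.node 2 (.leaf 2083)
 (.leaf 2179)))
 (.node 5 (.node 4 (.leaf 258)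
 (.leaf 129))
 (.node 6 (.leaf 2177)
 (.leaf 34))))
 (.node 11 (.node 9 (.node 8 (.leaf 2113)
 (.leaf 18561))
 (.node 10 (.leaf 18817)
 (.leaf 67)))
 (.node 13 (.node 12 (.leaf 66)
 (.leaf 2084))
 (.node 14 (.leaf 2178)
 (.leaf 2306)))))
 (.node 23 (.node 19 (.node 17 (.node 16 (.leaf 2305)
 (.leaf 2308))
 (.node 18 (.leaf 33)
 (.leaf 257)))
 (.node 21 (.node 20 (.leaf 16417)
 (.leaf 65))
 (.node 22 (.leaf 16449)
 (.leaf 16513))))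
 (.node 27 (.node 25 (.node 24 (.leaf 16641)
 (.leaf 18497))
 (.node 26 (.leaf 18689)
 (.leaf 16545)))
 (.node 29 (.node 28 (.leaf 16673)
 (.leaf 18721))
 (.node 30 (.leaf 18593)
 (.node 31 (.leaf 16705)
 (.leaf 16769)))))))

noncomputable def base : List Rs := [
.ordE 0 8 2,
.ordE 0 16 1,
.ordE 1 4 3,
.ordE 1 16 1,
.ordE 1 16 2,
.ordE 1 32 1,
.ordE 1 32 2,
.ordE 1 32 3,
.deg 2 [0, 3],
.deg 2 [1, 2],
.deg 3 [2, 0],
.deg 4 [1, 2],
.deg 5 [0, 3],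
.deg 5 [1, 2],
.ab 0 2,
.ab 0 3,
.ab 0 4,
.ab 0 5,
.ab 1 3,
.ab 1 4,
.ab 1 5,
.hall [0] [3, 4],
.hall [1] [3, 4],
.part [20, 32] [0, 0] [11] [],
.part [36, 16] [0, 0] [11] [],
.part [4, 48] [0, 0] [11] [],
.part [16, 36] [0, 0] [11] [],
.part [32, 20] [0, 0] [11] [],
.part [40, 16] [0, 0] [7] [],
.part [8, 48] [0, 0] [7] [],
.part [48, 8] [0, 0] [7] []]

noncomputable def gads : List Gt := [
⟨0, [⟨8, 2, []⟩, ⟨32, 2, []⟩], [3, 3, 3], 1, [(40, 1)]⟩,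
⟨0, [⟨16, 2, []⟩, ⟨32, 2, []⟩], [3, 3, 3], 1, [(48, 1)]⟩,
⟨0, [⟨4, 2, []⟩, ⟨32, 2, []⟩], [3, 3, 3], 1, [(36, 1)]⟩,
⟨0, [⟨4, 2, []⟩, ⟨16, 2, []⟩], [3, 3, 3], 1, [(20, 1)]⟩,
⟨1, [⟨16, 3, []⟩, ⟨32, 3, []⟩], [3, 3], 1, [(48, 1)]⟩,
⟨1, [⟨4, 3, []⟩, ⟨16, 3, []⟩], [3, 3], 1, [(20, 1)]⟩,
⟨1, [⟨4, 3, []⟩, ⟨32, 3, []⟩], [3, 3], 1, [(36, 1)]⟩]

noncomputable def cnf : List (List ℕ) := [
[23, 24],
[3, 10],
[27, 4],
[29, 12],
[7, 28],
[31, 32],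
[1, 30],
[35, 0],
[36, 26],
[14, 4],
[22, 16],
[2, 6],
[38, 34],
[8, 0],
[37, 41],
[43, 45],
[11, 47],
[39, 49],
[17, 51],
[13, 19],
[33, 53],
[42, 10],
[16, 12],
[54, 52],
[56, 18],
[40, 20],
[46, 58],
[48, 60],
[62, 18],
[44, 20],
[64, 50],
[25, 9, 63],
[3, 9, 65],
[15, 9, 57],
[15, 3, 55],
[7, 1, 21],
[5, 7, 61],
[5, 1, 59]]

noncomputable def db : Tr :=
 (.node 28 (.node 14 (.node 7 (.node 3 (.node 1 (.leaf 0x1a0019)
 (.node 2 (.leaf 0xc0005)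
 (.leaf 0x6001d)))
 (.node 5 (.node 4 (.leaf 0xe001f)
 (.leaf 0x1e0009))
 (.node 6 (.leaf 0x220021)
 (.leaf 0x200003))))
 (.node 10 (.node 8 (.leaf 0x20025)
 (.node 9 (.leaf 0x1c0026)
 (.leaf 0x60010)))
 (.node 12 (.node 11 (.leaf 0x120018)
 (.leaf 0x80004))
 (.node 13 (.leaf 0x240028)
 (.leaf 0x2000a)))))
 (.node 21 (.node 17 (.node 15 (.leaf 0x2b0027)
 (.node 16 (.leaf 0x2f002d)
 (.leaf 0x31000d)))
 (.node 19 (.node 18 (.leaf 0x330029)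
 (.leaf 0x350013))
 (.node 20 (.leaf 0x15000f)
 (.leaf 0x370023))))
 (.node 24 (.node 22 (.leaf 0xc002c)
 (.node 23 (.leaf 0xe0012)
 (.leaf 0x360038)))
 (.node 26 (.node 25 (.leaf 0x14003a)
 (.leaf 0x16002a))
 (.node 27 (.leaf 0x3c0030)
 (.leaf 0x3e0032))))))
 (.node 42 (.node 35 (.node 31 (.node 29 (.leaf 0x140040)
 (.node 30 (.leaf 0x16002e)
 (.leaf 0x340042)))
 (.node 33 (.node 32 (.leaf 0x41000b001b)
 (.leaf 0x43000b0005))
 (.node 34 (.leaf 0x3b000b0011)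
 (.leaf 0x3900050011))))
 (.node 38 (.node 36 (.leaf 0x1700030009)
 (.node 37 (.leaf 0x3f00090007)
 (.leaf 0x3d00030007)))
 (.node 40 (.node 39 (.leaf 0x43003f003b000b)
 (.leaf 0x3d00170003))
 (.node 41 (.leaf 0x43003f000b)
 (.leaf 0x3d0003)))))
 (.node 49 (.node 45 (.node 43 (.leaf 0x3)
 (.node 44 (.leaf 0x25)
 (.leaf 0xa)))
 (.node 47 (.node 46 (.leaf 0x28)
 (.leaf 0x33))
 (.node 48 (.leaf 0x3e)
 (.leaf 0x43))))
 (.node 53 (.node 51 (.node 50 (.leaf 0x34)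
 (.leaf 0x13))
 (.node 52 (.leaf 0x18)
 (.leaf 0xe)))
 (.node 55 (.node 54 (.leaf 0x1a)
 (.leaf 0x15))
 (.node 56 (.leaf 0x41)
 (.leaf 0x0)))))))

noncomputable def prf : List ℕ := [
0x10001c0001a0000400005,
0xf00004000120001b0001d00021000030000100020,
0x2400014000230000f0001c0000100007,
0x1a000200000f000260000100003,
0xc000060001a0001e0001400028000190000f00000,
0x2300000,
0x1e00001,
0x2000001,
0x1c00000,
0x1300000,
0x70000300000,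
0x1200000,
0x1f00000,
0x2800000,
0x1d00001,
0x3400001,
0x2200001,
0x170000a00001,
0x1b0000100000]

end D22

theorem inst_22 : instB 0 [0, 2] [1, 11] [] D22.base D22.gads D22.names D22.cnf D22.db D22.prf = true := by decide +kernel

/-- no gadget has fewer than `2 R` new points. -/
theorem p2_22 : D22.gads.all (fun g => Nat.ble (2 * g.R) g.gs.length) = true := by decide +kernel

/-- there is no configuration of this instance. -/
theorem no_22 {V : Type v} [DecidableEq V] {ι : Type u} [Fintype ι] {B : ι → Finset V}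
    {Q : Finset V} {i j : ι} {x : ℕ → V} {D : ℕ → Finset V}
    (h : CfI B Q 0 x D i j [0, 2] [1, 11]) : False :=
  h.absurd (by decide) srt_nil inst_22

end Pool.Agent.Hyp6
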