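import Pool.Agent.Hyp6.Cb5

/-!
# HYP6: instance 23 of the list: n = 0, bounds [0, 2], inner blocks [1, 14]

64 base clauses, 23 gadgets, 55 learned clauses.
-/

set_option autoImplicit false
set_option maxRecDepth 100000

namespace Pool.Agent.Hyp6

open Rup

universe u v

namespace D23

noncomputable def names : Tr :=
 (.node 35 (.node 17 (.node 8 (.node 3 (.node 1 (.node 0 (.leaf 258)
 (.leaf 2307))
 (.node 2 (.leaf 130)
 (.leaf 2179)))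
 (.node 5 (.node 4 (.leaf 65)
 (.leaf 8265))
 (.node 6 (.leaf 66)
 (.node 7 (.leaf 10)
 (.leaf 16705)))))
 (.node 12 (.node 10 (.node 9 (.leaf 18697)
 (.leaf 16577))
 (.node 11 (.leaf 18569)
 (.leaf 2058)))
 (.node 14 (.node 13 (.leaf 82)
 (.leaf 16649))
 (.node 15 (.leaf 2057)
 (.node 16 (.leaf 98)
 (.leaf 2059))))))
 (.node 26 (.node 21 (.node 19 (.node 18 (.leaf 2091)
 (.leaf 2123))
 (.node 20 (.leaf 2065)
 (.leaf 2075)))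
 (.node 23 (.node 22 (.leaf 16513)
 (.leaf 16769))
 (.node 24 (.leaf 18561)
 (.node 25 (.leaf 9)
 (.leaf 74)))))
 (.node 30 (.node 28 (.node 27 (.leaf 2177)
 (.leaf 16657))
 (.node 29 (.leaf 17)
 (.leaf 16545)))
 (.node 32 (.node 31 (.leaf 18457)
 (.leaf 257))
 (.node 33 (.leaf 16673)
 (.node 34 (.leaf 2115)
 (.leaf 2114)))))))
 (.node 53 (.node 44 (.node 39 (.node 37 (.node 36 (.leaf 18689)
 (.leaf 16641))
 (.node 38 (.leaf 18625)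
 (.leaf 16521)))
 (.node 41 (.node 40 (.leaf 18753)
 (.leaf 10281))
 (.node 42 (.leaf 10265)
 (.node 43 (.leaf 2081)
 (.leaf 129)))))
 (.node 48 (.node 46 (.node 45 (.leaf 19)
 (.leaf 8274))
 (.node 47 (.leaf 260)
 (.leaf 2305)))
 (.node 50 (.node 49 (.leaf 18441)
 (.leaf 16449))
 (.node 51 (.leaf 18817)
 (.node 52 (.leaf 2178)
 (.leaf 18593))))))
 (.node 62 (.node 57 (.node 55 (.node 54 (.leaf 8273)
 (.leaf 2113))
 (.node 56 (.leaf 33)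
 (.leaf 18705)))
 (.node 59 (.node 58 (.leaf 11)
 (.leaf 18497))
 (.node 60 (.leaf 8290)
 (.node 61 (.leaf 34)
 (.leaf 8217)))))
 (.node 67 (.node 64 (.node 63 (.leaf 259)
 (.leaf 18577))
 (.node 65 (.leaf 10313)
 (.node 66 (.leaf 2082)
 (.leaf 2308))))
 (.node 69 (.node 68 (.leaf 8289)
 (.leaf 26))
 (.node 70 (.leaf 16529)
 (.node 71 (.leaf 18721)
 (.leaf 10314))))))))

noncomputable def base : List Rs := [
.join 1 1 1 3 2 1 [(0, 0)],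
.hall [1] [1, 2],
.ab 0 4,
.join 0 2 3 2 3 0 [(1, 1)],
.deg 5 [3, 0],
.part [48, 1] [0, 0] [14] [],
.part [8, 48] [0, 0] [7] [],
.part [33, 16] [0, 0] [14] [],
.join 0 1 3 2 1 1 [(0, 0)],
.deg 1 [2, 0],
.ordE 1 16 1,
.deg 5 [1, 2],
.part [34, 20] [0, 0] [] [(0, 9)],
.l2 0 9 10 3 1 1,
.le 0 10 8 3 2,
.hall [1] [3, 4],
.hall [0] [1, 2],
.part [20, 3] [0, 0] [40] [],
.deg 4 [1, 2],
.hall [0] [3, 5],
.part [20, 34] [0, 0] [] [(0, 9)],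
.deg 0 [2, 0],
.ordE 1 16 2,
.ab 1 3,
.le 0 12 8 3 2,
.join 0 4 3 2 2 1 [(2, 1)],
.part [36, 3] [0, 0] [24] [],
.deg 3 [0, 2],
.l2 0 3 9 0 1 1,
.ordE 0 32 3,
.part [40, 16] [0, 0] [7] [],
.part [36, 18] [0, 0] [] [(1, 9)],
.deg 3 [1, 1],
.part [16, 33] [0, 0] [14] [],
.join 0 2 3 2 1 1 [(1, 0)],
.deg 2 [1, 1],
.deg 0 [0, 2],
.part [24, 32] [0, 0] [7] [],
.deg 5 [0, 3],
.deg 0 [1, 1],
.ab 1 4,
.ordE 0 32 2,
.ordE 0 16 1,
.l2 0 9 12 3 1 1,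
.ab 0 5,
.part [32, 24] [0, 0] [7] [],
.join 0 1 1 2 1 1 [(0, 0)],
.ordE 0 1 2,
.join 0 4 3 2 1 1 [(2, 0)],
.part [17, 32] [0, 0] [14] [],
.ab 0 3,
.ab 1 0,
.ab 1 5,
.part [16, 40] [0, 0] [7] [],
.ab2 1 3,
.ordE 1 32 3,
.join 1 1 2 3 1 2 [(0, 0)],
.part [18, 36] [0, 0] [] [(0, 9)],
.part [32, 17] [0, 0] [14] [],
.join 1 1 2 3 2 1 [(0, 0)],
.l2 1 5 9 0 1 2,
.join 1 1 3 3 2 2 [(0, 1)],
.part [48, 8] [0, 0] [7] [],
.join 1 1 3 3 1 2 [(0, 0)]]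

noncomputable def gads : List Gt := [
⟨1, [⟨16, 3, []⟩, ⟨32, 3, []⟩], [3, 3], 1, [(48, 1)]⟩,
⟨0, [⟨3, 2, []⟩, ⟨32, 2, []⟩], [3, 3, 3], 1, [(33, 1), (34, 1)]⟩,
⟨0, [⟨12, 2, []⟩, ⟨32, 2, []⟩], [3, 3, 3], 1, [(36, 1), (40, 1)]⟩,
⟨1, [⟨3, 3, []⟩, ⟨16, 3, []⟩], [3, 3], 1, [(17, 1), (18, 1)]⟩,
⟨0, [⟨16, 2, []⟩, ⟨32, 2, []⟩], [3, 3, 3], 1, [(48, 1)]⟩,
⟨1, [⟨5, 3, []⟩, ⟨16, 3, []⟩], [3, 3], 1, [(17, 1), (20, 1)]⟩,
⟨0, [⟨9, 2, []⟩, ⟨32, 2, []⟩], [3, 3, 3], 1, [(33, 1), (40, 1)]⟩,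
⟨1, [⟨9, 3, []⟩, ⟨16, 3, []⟩], [3, 3], 1, [(17, 1), (24, 1)]⟩,
⟨1, [⟨3, 3, []⟩, ⟨32, 3, []⟩], [3, 3], 1, [(33, 1), (34, 1)]⟩,
⟨0, [⟨8, 2, []⟩, ⟨32, 2, []⟩], [3, 3, 3], 1, [(40, 1)]⟩,
⟨0, [⟨10, 2, []⟩, ⟨16, 2, []⟩], [3, 3, 3], 1, [(18, 1), (24, 1)]⟩,
⟨0, [⟨12, 2, []⟩, ⟨16, 2, []⟩], [3, 3, 3], 1, [(20, 1), (24, 1)]⟩,
⟨0, [⟨9, 2, []⟩, ⟨16, 2, []⟩], [3, 3, 3], 1, [(17, 1), (24, 1)]⟩,
⟨1, [⟨1, 3, []⟩, ⟨32, 3, []⟩], [3, 3], 1, [(33, 1)]⟩,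
⟨0, [⟨1, 2, []⟩, ⟨16, 2, []⟩], [3, 3, 3], 1, [(17, 1)]⟩,
⟨0, [⟨8, 2, []⟩, ⟨16, 2, []⟩], [3, 3, 3], 1, [(24, 1)]⟩,
⟨0, [⟨10, 2, []⟩, ⟨32, 2, []⟩], [3, 3, 3], 1, [(34, 1), (40, 1)]⟩,
⟨1, [⟨5, 3, []⟩, ⟨32, 3, []⟩], [3, 3], 1, [(33, 1), (36, 1)]⟩,
⟨0, [⟨1, 2, []⟩, ⟨32, 2, []⟩], [3, 3, 3], 1, [(33, 1)]⟩,
⟨1, [⟨8, 3, []⟩, ⟨16, 3, []⟩], [3, 3], 1, [(24, 1)]⟩,
⟨1, [⟨9, 3, []⟩, ⟨32, 3, []⟩], [3, 3], 1, [(33, 1), (40, 1)]⟩,
⟨1, [⟨1, 3, []⟩, ⟨16, 3, []⟩], [3, 3], 1, [(17, 1)]⟩,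
⟨1, [⟨8, 3, []⟩, ⟨32, 3, []⟩], [3, 3], 1, [(40, 1)]⟩]

noncomputable def cnf : List (List ℕ) := [
[25, 41, 42, 84],
[40, 86],
[89, 45],
[91, 26, 92],
[94, 96],
[46, 98],
[100, 102],
[28, 48],
[51, 9, 52, 10],
[90, 40],
[105, 54],
[0, 2],
[56, 106, 11],
[11, 109, 12],
[93, 12],
[110, 54],
[58, 112],
[60, 62],
[4, 6],
[8, 64],
[60, 114, 11],
[116, 30],
[7, 104],
[111, 119],
[121, 12],
[123, 9, 32, 120],
[66, 62],
[8, 68],
[125, 11, 14],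
[95, 126],
[16, 48],
[66, 128, 131],
[12, 70],
[44, 18],
[59, 9, 26, 108],
[122, 132],
[50, 34],
[20, 72],
[64, 134],
[14, 24],
[55, 49],
[127, 0],
[5, 88],
[11, 137, 12],
[65, 75],
[74, 76],
[51, 59, 138, 124],
[117, 14],
[113, 9, 32, 136],
[78, 72],
[9, 101],
[31, 99],
[97, 73],
[44, 80],
[85, 63],
[135, 2],
[31, 133, 36, 82],
[140, 142, 11],
[74, 22],
[25, 87, 36, 82],
[83, 145, 34],
[25, 71, 38, 144],
[46, 118],
[31, 71, 38, 130],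
[7, 3, 103],
[139, 1, 29, 57],
[33, 1, 67, 17],
[43, 7, 23, 129],
[5, 1, 47],
[37, 7, 23, 107],
[53, 1, 29, 17],
[39, 7, 23, 77],
[43, 3, 19, 115],
[13, 1, 17],
[27, 5, 141, 21],
[33, 5, 61, 21],
[53, 5, 79, 21],
[35, 3, 19],
[15, 5, 79],
[13, 5, 21],
[27, 1, 57, 17],
[37, 3, 19, 143],
[15, 1, 29],
[69, 7, 77],
[39, 3, 19, 81],
[35, 7, 23],
[69, 3, 81]]

noncomputable def db : Tr :=
 (.node 71 (.node 35 (.node 17 (.node 8 (.node 4 (.node 2 (.node 1 (.leaf 0x56002c002b001b)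
 (.leaf 0x58002a))
 (.node 3 (.leaf 0x2f005b)
 (.leaf 0x5e001c005d)))
 (.node 6 (.node 5 (.leaf 0x620060)
 (.leaf 0x640030))
 (.node 7 (.leaf 0x680066)
 (.leaf 0x32001e))))
 (.node 12 (.node 10 (.node 9 (.leaf 0xc0036000b0035)
 (.leaf 0x2a005c))
 (.node 11 (.leaf 0x38006b)
 (.leaf 0x40002)))
 (.node 14 (.node 13 (.leaf 0xd006c003a)
 (.leaf 0xe006f000d))
 (.node 15 (.leaf 0xe005f)
 (.node 16 (.leaf 0x380070)
 (.leaf 0x72003c))))))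
 (.node 26 (.node 21 (.node 19 (.node 18 (.leaf 0x40003e)
 (.leaf 0x80006))
 (.node 20 (.leaf 0x42000a)
 (.leaf 0xd0074003e)))
 (.node 23 (.node 22 (.leaf 0x200076)
 (.leaf 0x6a0009))
 (.node 24 (.leaf 0x790071)
 (.node 25 (.leaf 0xe007b)
 (.leaf 0x7a0022000b007d)))))
 (.node 30 (.node 28 (.node 27 (.leaf 0x400044)
 (.leaf 0x46000a))
 (.node 29 (.leaf 0x10000d007f)
 (.leaf 0x800061)))
 (.node 32 (.node 31 (.leaf 0x320012)
 (.leaf 0x8500820044))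
 (.node 33 (.leaf 0x48000e)
 (.node 34 (.leaf 0x14002e)
 (.leaf 0x6e001c000b003d)))))))
 (.node 53 (.node 44 (.node 39 (.node 37 (.node 36 (.leaf 0x86007c)
 (.leaf 0x240034))
 (.node 38 (.leaf 0x4a0016)
 (.leaf 0x880042)))
 (.node 41 (.node 40 (.leaf 0x1a0010)
 (.leaf 0x330039))
 (.node 42 (.leaf 0x20081)
 (.node 43 (.leaf 0x5a0007)
 (.leaf 0xe008b000d)))))
 (.node 48 (.node 46 (.node 45 (.leaf 0x4d0043)
 (.leaf 0x4e004c))
 (.node 47 (.leaf 0x7e008c003d0035)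
 (.leaf 0x100077)))
 (.node 50 (.node 49 (.leaf 0x8a0022000b0073)
 (.leaf 0x4a0050))
 (.node 51 (.leaf 0x67000b)
 (.node 52 (.leaf 0x650021)
 (.leaf 0x4b0063))))))
 (.node 62 (.node 57 (.node 55 (.node 54 (.leaf 0x52002e)
 (.leaf 0x410057))
 (.node 56 (.leaf 0x40089)
 (.leaf 0x54002600870021)))
 (.node 59 (.node 58 (.leaf 0xd0090008e)
 (.leaf 0x18004c))
 (.node 60 (.leaf 0x5400260059001b)
 (.node 61 (.leaf 0x2400930055)
 (.leaf 0x9200280049001b)))))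
 (.node 66 (.node 64 (.node 63 (.leaf 0x780030)
 (.leaf 0x84002800490021))
 (.node 65 (.leaf 0x6900050009)
 (.leaf 0x3b001f0003008d)))
 (.node 68 (.node 67 (.leaf 0x13004500030023)
 (.leaf 0x8300190009002d))
 (.node 69 (.leaf 0x3100030007)
 (.node 70 (.leaf 0x6d001900090027)
 (.leaf 0x13001f00030037))))))))
 (.node 106 (.node 88 (.node 79 (.node 75 (.node 73 (.node 72 (.leaf 0x4f001900090029)
 (.leaf 0x7500150005002d))
 (.node 74 (.leaf 0x130003000f)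
 (.leaf 0x17008f0007001d)))
 (.node 77 (.node 76 (.leaf 0x17003f00070023)
 (.leaf 0x17005100070037))
 (.node 78 (.leaf 0x1500050025)
 (.leaf 0x5100070011))))
 (.node 83 (.node 81 (.node 80 (.leaf 0x170007000f)
 (.leaf 0x13003b0003001d))
 (.node 82 (.leaf 0x91001500050027)
 (.leaf 0x1f00030011)))
 (.node 85 (.node 84 (.leaf 0x4f00090047)
 (.leaf 0x53001500050029))
 (.node 86 (.leaf 0x1900090025)
 (.node 87 (.leaf 0x5300050047)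
 (.leaf 0x70003))))))
 (.node 97 (.node 92 (.node 90 (.node 89 (.leaf 0x9100270007)
 (.leaf 0x2900190009))
 (.node 91 (.leaf 0x290007)
 (.leaf 0x290009)))
 (.node 94 (.node 93 (.leaf 0x29)
 (.leaf 0x9000a))
 (.node 95 (.leaf 0x90026)
 (.node 96 (.leaf 0x9)
 (.leaf 0x6)))))
 (.node 101 (.node 99 (.node 98 (.leaf 0x5a)
 (.leaf 0x3))
 (.node 100 (.leaf 0x2f)
 (.leaf 0x4)))
 (.node 103 (.node 102 (.leaf 0x81)
 (.leaf 0x14))
 (.node 104 (.leaf 0x52)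
 (.node 105 (.leaf 0x61)
 (.leaf 0x25)))))))
 (.node 124 (.node 115 (.node 110 (.node 108 (.node 107 (.leaf 0x47)
 (.leaf 0x62))
 (.node 109 (.leaf 0x34)
 (.leaf 0xa)))
 (.node 112 (.node 111 (.leaf 0x4b)
 (.leaf 0x16))
 (.node 113 (.leaf 0x50)
 (.node 114 (.leaf 0xf)
 (.leaf 0x11)))))
 (.node 119 (.node 117 (.node 116 (.leaf 0x37)
 (.leaf 0x5f))
 (.node 118 (.leaf 0x7b)
 (.leaf 0x48)))
 (.node 121 (.node 120 (.leaf 0x1a)
 (.leaf 0x77))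
 (.node 122 (.leaf 0xc)
 (.node 123 (.leaf 0x92)
 (.leaf 0x20))))))
 (.node 133 (.node 128 (.node 126 (.node 125 (.leaf 0x6f)
 (.leaf 0x8b))
 (.node 127 (.leaf 0x55)
 (.leaf 0x1c)))
 (.node 130 (.node 129 (.leaf 0x8f)
 (.leaf 0x90))
 (.node 131 (.leaf 0x27)
 (.node 132 (.leaf 0x59)
 (.leaf 0x87)))))
 (.node 137 (.node 135 (.node 134 (.leaf 0x2a)
 (.leaf 0x7c))
 (.node 136 (.leaf 0x22)
 (.leaf 0x3f)))
 (.node 139 (.node 138 (.leaf 0x40)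
 (.leaf 0x74))
 (.node 140 (.leaf 0x57)
 (.node 141 (.leaf 0x2d)
 (.leaf 0x0)))))))))

noncomputable def prf : List ℕ := [
0x4f000040002e0002700047000410003f00023000180005100012,
0x4c0000600036000550002d,
0x1800052000210002600032000450002c0002b00011,
0x500024000380004e00057000020002f,
0x1a00054000230002800034000470002e0002000001,
0x4900001,
0x2f00009000300004100049,
0x5d0001a000270003e000430001b000440003a0005c0002500022000450001e000480002e000210000800023000310003700026000200003d000140003f000360000b000520001d000570002b000000005600035000530004700001,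
0x5e0001b000280003f000440001c0002e000550004e0005b000300000e0001d0005200019000000003300042000560003a000090001f0002400049000320003e000500002f000370003800015000180000c00027000530001e000580002c00001000400005700036000540004800002,
0x4d00000,
0x3600000,
0xa00001,
0x6000001,
0x5800001,
0x3b00002,
0x4400002,
0x3100003,
0x4a00002,
0x1b0000400002,
0x130000500002,
0x6600002,
0x4700002,
0x5100002,
0x3900002,
0x4900000,
0x3e00001,
0x210001000001,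
0x230001100001,
0x26000120000300002,
0x6500002,
0x5c00003,
0x5500004,
0x4f00004,
0x4800005,
0x700000c0000b00005,
0x3c0001d0000200003,
0x6500002,
0x6e0000a00002,
0x510000b00003,
0x410001400003,
0x7e00036000480006a0006d000330004e0006e000750005c0007b00007000180001a000050000f0001e0001100001000020000a,
0x350001f0001000000,
0x470000700000,
0x290002100000,
0x47000040000b00000,
0x4b000050000800001,
0x8300001,
0x6200001,
0x6d000110001900000,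
0x3c000270001800000,
0x7700000,
0x750001000001,
0x5400001,
0x43000270002500001,
0x8c00015000070000000001]

end D23

theorem inst_23 : instB 0 [0, 2] [1, 14] [] D23.base D23.gads D23.names D23.cnf D23.db D23.prf = true := by decide +kernel

/-- no gadget has fewer than `2 R` new points. -/
theorem p2_23 : D23.gads.all (fun g => Nat.ble (2 * g.R) g.gs.length) = true := by decide +kernel

/-- there is no configuration of this instance. -/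
theorem no_23 {V : Type v} [DecidableEq V] {ι : Type u} [Fintype ι] {B : ι → Finset V}
    {Q : Finset V} {i j : ι} {x : ℕ → V} {D : ℕ → Finset V}
    (h : CfI B Q 0 x D i j [0, 2] [1, 14]) : False :=
  h.absurd (by decide) srt_nil inst_23

end Pool.Agent.Hyp6
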