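import Pool.Agent.Hyp6.Cb5

/-!
# HYP6: instance 24 of the list: n = 0, bounds [0, 2], inner blocks [1, 24]

90 base clauses, 38 gadgets, 59 learned clauses.
-/

set_option autoImplicit false
set_option maxRecDepth 100000

namespace Pool.Agent.Hyp6

open Rup

universe u v

namespace D24

noncomputable def names : Tr :=
 (.node 48 (.node 23 (.node 11 (.node 5 (.node 2 (.node 0 (.leaf 2058)
 (.node 1 (.leaf 2114)
 (.leaf 16425)))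
 (.node 3 (.leaf 18457)
 (.node 4 (.leaf 130)
 (.leaf 2178))))
 (.node 8 (.node 6 (.leaf 2067)
 (.node 7 (.leaf 18473)
 (.leaf 258)))
 (.node 9 (.leaf 34)
 (.node 10 (.leaf 18)
 (.leaf 9)))))
 (.node 17 (.node 14 (.node 12 (.leaf 18753)
 (.node 13 (.leaf 2307)
 (.leaf 18625)))
 (.node 15 (.leaf 2083)
 (.node 16 (.leaf 18817)
 (.leaf 129))))
 (.node 20 (.node 18 (.leaf 2113)
 (.node 19 (.leaf 16409)
 (.leaf 10)))
 (.node 21 (.leaf 2115)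
 (.node 22 (.leaf 2082)
 (.leaf 17))))))
 (.node 35 (.node 29 (.node 26 (.node 24 (.leaf 16673)
 (.node 25 (.leaf 65)
 (.leaf 386)))
 (.node 27 (.leaf 257)
 (.node 28 (.leaf 66)
 (.leaf 2066))))
 (.node 32 (.node 30 (.leaf 2306)
 (.node 31 (.leaf 2081)
 (.leaf 16433)))
 (.node 33 (.leaf 2065)
 (.node 34 (.leaf 18650)
 (.leaf 33)))))
 (.node 41 (.node 38 (.node 36 (.leaf 259)
 (.node 37 (.leaf 2059)
 (.leaf 16657)))
 (.node 39 (.leaf 8578)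
 (.node 40 (.leaf 16577)
 (.leaf 2084))))
 (.node 44 (.node 42 (.leaf 2068)
 (.node 43 (.leaf 2177)
 (.leaf 74)))
 (.node 46 (.node 45 (.leaf 2057)
 (.leaf 2305))
 (.node 47 (.leaf 16705)
 (.leaf 2308)))))))
 (.node 73 (.node 60 (.node 54 (.node 51 (.node 49 (.leaf 16769)
 (.node 50 (.leaf 18513)
 (.leaf 260)))
 (.node 52 (.leaf 18481)
 (.node 53 (.leaf 18449)
 (.leaf 26))))
 (.node 57 (.node 55 (.leaf 8217)
 (.node 56 (.leaf 8577)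
 (.leaf 16417)))
 (.node 58 (.leaf 16513)
 (.node 59 (.leaf 2434)
 (.leaf 10626)))))
 (.node 66 (.node 63 (.node 61 (.leaf 16641)
 (.node 62 (.leaf 18465)
 (.leaf 8266)))
 (.node 64 (.leaf 67)
 (.node 65 (.leaf 18666)
 (.leaf 18529))))
 (.node 69 (.node 67 (.leaf 16465)
 (.node 68 (.leaf 18858)
 (.leaf 18689)))
 (.node 71 (.node 70 (.leaf 266)
 (.leaf 8457))
 (.node 72 (.leaf 16529)
 (.leaf 18794))))))
 (.node 85 (.node 79 (.node 76 (.node 74 (.leaf 10433)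
 (.node 75 (.leaf 16393)
 (.leaf 19)))
 (.node 77 (.leaf 18561)
 (.node 78 (.leaf 16481)
 (.leaf 18842))))
 (.node 82 (.node 80 (.leaf 8233)
 (.node 81 (.leaf 18497)
 (.leaf 131)))
 (.node 83 (.leaf 16545)
 (.node 84 (.leaf 18778)
 (.leaf 2243)))))
 (.node 91 (.node 88 (.node 86 (.leaf 18577)
 (.node 87 (.leaf 16401)
 (.leaf 18441)))
 (.node 89 (.leaf 16449)
 (.node 90 (.leaf 10561)
 (.leaf 2091))))
 (.node 94 (.node 92 (.leaf 10281)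
 (.node 93 (.leaf 20)
 (.leaf 42)))
 (.node 96 (.node 95 (.leaf 2372)
 (.leaf 36))
 (.node 97 (.leaf 18705)
 (.leaf 2179))))))))

noncomputable def base : List Rs := [
.ab 1 1,
.hall [0] [0, 1],
.join 0 1 1 2 1 1 [(0, 0)],
.le 0 48 16 4 1,
.part [36, 27] [0, 1] [] [],
.ab 0 2,
.part [16, 40] [0, 0] [7] [],
.ordE 0 32 2,
.ordE 1 8 1,
.join 1 16 5 2 0 3 [(4, 1)],
.part [36, 3] [0, 0] [24] [],
.deg 0 [0, 2],
.part [32, 24] [0, 0] [7] [],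
.hall [0] [3, 4],
.part [3, 4] [0, 0] [56] [],
.le 0 9 1 0 2,
.deg 3 [2, 0],
.part [34, 29] [0, 1] [] [],
.join 0 16 5 2 1 2 [(4, 1)],
.part [3, 12] [0, 0] [48] [],
.part [10, 53] [0, 1] [] [],
.part [24, 32] [0, 0] [7] [],
.ordE 1 4 3,
.join 0 1 5 2 1 1 [(0, 0)],
.part [18, 45] [0, 1] [] [],
.hall [0] [3, 5],
.ab2 1 24,
.deg 4 [1, 1],
.join 0 16 5 2 0 2 [(4, 0)],
.ordE 1 2 3,
.deg 3 [1, 1],
.le 0 48 16 4 2,
.ab 0 0,
.deg 1 [2, 1],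
.ab 1 4,
.deg 5 [2, 1],
.join 0 1 3 2 0 3 [(0, 1)],
.ab 0 4,
.ordE 1 8 2,
.part [12, 51] [0, 1] [] [],
.part [34, 5] [0, 0] [24] [],
.le 1 48 16 4 2,
.ordE 1 1 1,
.l2 0 3 33 0 1 1,
.ab2 0 5,
.ab 0 5,
.deg 0 [1, 1],
.ab 1 3,
.deg 3 [0, 2],
.hall [1] [3, 5],
.ordE 0 16 2,
.part [4, 3] [0, 0] [56] [],
.ab 1 2,
.part [40, 16] [0, 0] [7] [],
.part [20, 43] [0, 1] [] [],
.deg 4 [2, 0],
.deg 5 [1, 2],
.join 1 8 4 3 2 1 [(3, 0)],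
.part [5, 18] [0, 0] [40] [],
.ab 0 1,
.ordE 1 4 1,
.part [2, 5] [0, 0] [56] [],
.deg 1 [0, 3],
.part [6, 1] [0, 0] [56] [],
.deg 5 [0, 3],
.join 0 16 5 2 0 3 [(4, 1)],
.part [48, 8] [0, 0] [7] [],
.ab 0 3,
.part [5, 10] [0, 0] [48] [],
.ab2 1 40,
.deg 2 [1, 2],
.part [5, 2] [0, 0] [56] [],
.join 1 1 2 3 2 1 [(0, 0)],
.ab2 1 5,
.deg 2 [0, 3],
.part [8, 48] [0, 0] [7] [],
.ab 1 0,
.deg 5 [3, 0],
.deg 1 [3, 0],
.hall [1] [0, 1],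
.part [1, 6] [0, 0] [56] [],
.ordE 0 2 2,
.join 0 1 2 2 1 1 [(0, 0)],
.join 1 8 5 4 1 3 [(3, 0)],
.deg 1 [1, 2],
.ab 1 5,
.deg 2 [3, 0],
.part [5, 34] [0, 0] [24] [],
.ordE 1 4 2,
.deg 4 [0, 2]]

noncomputable def gads : List Gt := [
⟨0, [⟨16, 2, []⟩, ⟨32, 4, []⟩], [3, 1, 1], 1, [(48, 1)]⟩,
⟨1, [⟨2, 3, []⟩, ⟨4, 3, []⟩], [3, 3], 1, [(6, 1)]⟩,
⟨0, [⟨2, 2, []⟩, ⟨32, 2, []⟩], [3, 3, 3], 1, [(34, 1)]⟩,
⟨1, [⟨1, 2, []⟩, ⟨4, 2, []⟩, ⟨16, 2, []⟩, ⟨32, 2, []⟩], [3, 3, 3, 12, 12, 12], 2, [(5, 1), (48, 1), (53, 2)]⟩,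
⟨1, [⟨1, 2, []⟩, ⟨2, 2, []⟩, ⟨8, 2, []⟩, ⟨16, 2, []⟩], [3, 3, 3, 12, 12, 12], 2, [(3, 1), (24, 1), (27, 2)]⟩,
⟨1, [⟨16, 2, []⟩, ⟨32, 4, []⟩], [3, 1, 1], 1, [(48, 1)]⟩,
⟨0, [⟨33, 2, []⟩, ⟨4, 2, []⟩], [3, 3, 3], 1, [(5, 1), (36, 1)]⟩,
⟨1, [⟨2, 3, []⟩, ⟨8, 3, []⟩], [3, 3], 1, [(10, 1)]⟩,
⟨1, [⟨4, 3, []⟩, ⟨8, 3, []⟩], [3, 3], 1, [(12, 1)]⟩,
⟨0, [⟨2, 2, []⟩, ⟨4, 2, []⟩], [3, 3, 3], 1, [(6, 1)]⟩,
⟨1, [⟨1, 2, []⟩, ⟨2, 2, []⟩, ⟨16, 2, []⟩, ⟨32, 2, []⟩], [3, 3, 3, 12, 12, 12], 2, [(3, 1), (48, 1), (51, 2)]⟩,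
⟨0, [⟨1, 2, []⟩, ⟨2, 2, []⟩], [3, 3, 3], 1, [(3, 1)]⟩,
⟨1, [⟨2, 3, []⟩, ⟨24, 3, []⟩], [3, 3], 1, [(10, 1), (18, 1)]⟩,
⟨0, [⟨16, 2, []⟩, ⟨32, 2, []⟩], [3, 3, 3], 1, [(48, 1)]⟩,
⟨0, [⟨4, 2, []⟩, ⟨32, 2, []⟩], [3, 3, 3], 1, [(36, 1)]⟩,
⟨1, [⟨8, 2, []⟩, ⟨32, 4, []⟩], [3, 1, 1], 1, [(40, 1)]⟩,
⟨0, [⟨9, 2, []⟩, ⟨4, 2, []⟩], [3, 3, 3], 1, [(5, 1), (12, 1)]⟩,
⟨0, [⟨4, 4, []⟩, ⟨16, 2, []⟩], [3, 2, 2], 1, [(20, 1)]⟩,
⟨1, [⟨40, 4, []⟩, ⟨16, 2, []⟩], [3, 2, 2], 1, [(24, 1), (48, 1)]⟩,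
⟨1, [⟨1, 2, []⟩, ⟨2, 4, []⟩], [3, 1, 1], 1, [(3, 1)]⟩,
⟨1, [⟨8, 3, []⟩, ⟨32, 3, []⟩], [3, 3], 1, [(40, 1)]⟩,
⟨0, [⟨9, 2, []⟩, ⟨2, 2, []⟩], [3, 3, 3], 1, [(3, 1), (10, 1)]⟩,
⟨0, [⟨8, 2, []⟩, ⟨16, 2, []⟩], [3, 3, 3], 1, [(24, 1)]⟩,
⟨1, [⟨1, 3, []⟩, ⟨2, 3, []⟩], [3, 3], 1, [(3, 1)]⟩,
⟨1, [⟨5, 3, []⟩, ⟨2, 3, []⟩], [3, 3], 1, [(3, 1), (6, 1)]⟩,
⟨1, [⟨1, 2, []⟩, ⟨4, 2, []⟩, ⟨8, 2, []⟩, ⟨16, 2, []⟩], [3, 3, 3, 12, 12, 12], 2, [(5, 1), (24, 1), (29, 2)]⟩,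
⟨1, [⟨1, 2, []⟩, ⟨4, 4, []⟩], [3, 1, 1], 1, [(5, 1)]⟩,
⟨0, [⟨48, 2, []⟩, ⟨8, 2, []⟩], [3, 3, 3], 1, [(24, 1), (40, 1)]⟩,
⟨0, [⟨1, 2, []⟩, ⟨4, 2, []⟩], [3, 3, 3], 1, [(5, 1)]⟩,
⟨0, [⟨2, 4, []⟩, ⟨16, 2, []⟩], [3, 2, 2], 1, [(18, 1)]⟩,
⟨1, [⟨1, 2, []⟩, ⟨2, 2, []⟩, ⟨48, 2, []⟩, ⟨8, 2, []⟩], [3, 3, 3, 12, 12, 12], 2, [(3, 1), (24, 1), (27, 2), (40, 1), (43, 2)]⟩,
⟨0, [⟨8, 2, []⟩, ⟨32, 4, []⟩], [3, 1, 1], 1, [(40, 1)]⟩,
⟨0, [⟨3, 2, []⟩, ⟨4, 2, []⟩], [3, 3, 3], 1, [(5, 1), (6, 1)]⟩,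
⟨1, [⟨1, 3, []⟩, ⟨4, 3, []⟩], [3, 3], 1, [(5, 1)]⟩,
⟨1, [⟨16, 3, []⟩, ⟨32, 3, []⟩], [3, 3], 1, [(48, 1)]⟩,
⟨1, [⟨2, 3, []⟩, ⟨32, 3, []⟩], [3, 3], 1, [(34, 1)]⟩,
⟨0, [⟨5, 2, []⟩, ⟨2, 2, []⟩], [3, 3, 3], 1, [(3, 1), (6, 1)]⟩,
⟨1, [⟨1, 2, []⟩, ⟨4, 2, []⟩, ⟨8, 2, []⟩, ⟨32, 2, []⟩], [3, 3, 3, 12, 12, 12], 2, [(5, 1), (40, 1), (45, 2)]⟩]

noncomputable def cnf : List (List ℕ) := [
[67, 107],
[22, 46],
[23, 47, 108, 110],
[113, 34],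
[48, 68],
[71, 115],
[116, 24],
[73, 16],
[3, 36],
[27, 118, 120],
[48, 6],
[22, 74],
[122, 28],
[50, 34],
[38, 124],
[127, 40],
[128, 36],
[76, 130],
[35, 17, 52, 78],
[38, 132],
[134, 136],
[80, 138],
[83, 30],
[23, 55, 140, 142],
[144, 146],
[50, 54],
[149, 29],
[8, 10],
[17, 52, 112],
[85, 12],
[56, 2],
[79, 8],
[23, 151],
[152, 58],
[87, 155],
[72, 60],
[129, 88, 126],
[35, 117],
[43, 2],
[156, 158],
[76, 14],
[121, 10],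
[1, 90],
[111, 143, 40],
[161, 5],
[55, 123],
[40, 0],
[37, 163],
[50, 42],
[36, 92],
[165, 8],
[114, 6],
[63, 125],
[94, 154],
[166, 168],
[164, 86],
[16, 26],
[3, 87, 170, 148],
[4, 172],
[47, 175],
[45, 62],
[174, 14],
[46, 84],
[64, 176],
[54, 96],
[73, 52, 78],
[98, 162],
[51, 179],
[4, 100],
[181, 25],
[18, 30],
[4, 106],
[1, 63, 182, 184],
[185, 15],
[70, 82],
[178, 32],
[91, 177],
[102, 92],
[186, 66],
[90, 66],
[150, 104],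
[153, 20],
[23, 71, 188, 160],
[37, 27, 190, 180],
[20, 12],
[93, 139],
[192, 62],
[4, 194],
[31, 44],
[34, 196],
[9, 103, 99],
[13, 31, 105],
[21, 17, 77],
[1, 45, 11, 61, 15, 33, 137],
[1, 59, 3, 11, 7, 29, 69],
[11, 97, 33],
[141, 19, 5, 49],
[13, 43, 101],
[31, 43, 133],
[21, 19, 65],
[1, 59, 11, 61, 7, 33, 159],
[41, 21, 39],
[13, 171, 101, 173],
[9, 17, 99],
[19, 17, 49],
[3, 97, 25],
[89, 19, 5, 157],
[193, 9, 167],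
[191, 11, 29, 33],
[1, 85, 7],
[43, 27, 25],
[89, 21, 39, 135],
[57, 9, 81],
[75, 13, 7],
[183, 13, 7, 105],
[1, 45, 3, 11, 15, 29, 131],
[1, 83, 15],
[53, 57, 81, 95],
[41, 19, 5],
[187, 9, 145],
[1, 59, 119, 3, 7, 29, 69, 25, 169],
[57, 103, 95],
[109, 19, 5, 65],
[75, 31, 15],
[197, 27, 33],
[13, 27, 195],
[189, 21, 39, 65],
[1, 45, 3, 61, 15, 25, 147]]

noncomputable def db : Tr :=
 (.node 93 (.node 46 (.node 23 (.node 11 (.node 5 (.node 2 (.node 1 (.leaf 0x6d0045)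
 (.leaf 0x300018))
 (.node 3 (.leaf 0x70006e00310019)
 (.node 4 (.leaf 0x240073)
 (.leaf 0x460032))))
 (.node 8 (.node 6 (.leaf 0x750049)
 (.node 7 (.leaf 0x1a0076)
 (.leaf 0x12004b)))
 (.node 9 (.leaf 0x260005)
 (.node 10 (.leaf 0x7a0078001d)
 (.leaf 0x80032)))))
 (.node 17 (.node 14 (.node 12 (.leaf 0x4c0018)
 (.node 13 (.leaf 0x1e007c)
 (.leaf 0x240034)))
 (.node 15 (.leaf 0x7e0028)
 (.node 16 (.leaf 0x2a0081)
 (.leaf 0x260082))))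
 (.node 20 (.node 18 (.leaf 0x84004e)
 (.node 19 (.leaf 0x50003600130025)
 (.leaf 0x860028)))
 (.node 21 (.leaf 0x8a0088)
 (.node 22 (.leaf 0x8c0052)
 (.leaf 0x200055))))))
 (.node 34 (.node 28 (.node 25 (.node 24 (.leaf 0x90008e00390019)
 (.leaf 0x940092))
 (.node 26 (.leaf 0x380034)
 (.node 27 (.leaf 0x1f0097)
 (.leaf 0xc000a))))
 (.node 31 (.node 29 (.leaf 0x7200360013)
 (.node 30 (.leaf 0xe0057)
 (.leaf 0x4003a)))
 (.node 32 (.leaf 0xa0051)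
 (.node 33 (.leaf 0x990019)
 (.leaf 0x3c009a)))))
 (.node 40 (.node 37 (.node 35 (.leaf 0x9d0059)
 (.node 36 (.leaf 0x3e004a)
 (.leaf 0x80005a0083)))
 (.node 38 (.leaf 0x770025)
 (.node 39 (.leaf 0x4002d)
 (.leaf 0xa0009e))))
 (.node 43 (.node 41 (.leaf 0x10004e)
 (.node 42 (.leaf 0xc007b)
 (.leaf 0x5c0003)))
 (.node 44 (.leaf 0x2a00910071)
 (.node 45 (.leaf 0x700a3)
 (.leaf 0x7d0039)))))))
 (.node 69 (.node 57 (.node 51 (.node 48 (.node 47 (.leaf 0x2002a)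
 (.leaf 0xa50027))
 (.node 49 (.leaf 0x2c0034)
 (.node 50 (.leaf 0x5e0026)
 (.leaf 0xa00a7))))
 (.node 54 (.node 52 (.leaf 0x80074)
 (.node 53 (.leaf 0x7f0041)
 (.leaf 0x9c0060)))
 (.node 55 (.leaf 0xaa00a8)
 (.node 56 (.leaf 0x5800a6)
 (.leaf 0x1c0012)))))
 (.node 63 (.node 60 (.node 58 (.leaf 0x9600ac00590005)
 (.node 59 (.leaf 0xae0006)
 (.leaf 0xb10031)))
 (.node 61 (.leaf 0x40002f)
 (.node 62 (.leaf 0x1000b0)
 (.leaf 0x560030))))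
 (.node 66 (.node 64 (.leaf 0xb20042)
 (.node 65 (.leaf 0x620038)
 (.leaf 0x500036004b)))
 (.node 67 (.leaf 0xa40064)
 (.node 68 (.leaf 0xb50035)
 (.leaf 0x660006))))))
 (.node 81 (.node 75 (.node 72 (.node 70 (.leaf 0x1b00b7)
 (.node 71 (.leaf 0x200014)
 (.leaf 0x6c0006)))
 (.node 73 (.leaf 0xba00b800410003)
 (.node 74 (.leaf 0x1100bb)
 (.leaf 0x540048))))
 (.node 78 (.node 76 (.leaf 0x2200b4)
 (.node 77 (.leaf 0xb3005d)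
 (.leaf 0x5e0068)))
 (.node 79 (.leaf 0x4400bc)
 (.node 80 (.leaf 0x44005c)
 (.leaf 0x6a0098)))))
 (.node 87 (.node 84 (.node 82 (.leaf 0x16009b)
 (.node 83 (.leaf 0xa200be00490019)
 (.leaf 0xb600c0001d0027)))
 (.node 85 (.leaf 0xe0016)
 (.node 86 (.leaf 0x8d005f)
 (.leaf 0x4000c2))))
 (.node 90 (.node 88 (.leaf 0xc40006)
 (.node 89 (.leaf 0x2e0021)
 (.leaf 0xc60024)))
 (.node 91 (.leaf 0x650069000b)
 (.node 92 (.leaf 0x6b0021000f)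
 (.leaf 0x4f00130017))))))))
 (.node 140 (.node 116 (.node 104 (.node 98 (.node 95 (.node 94 (.leaf 0x8b00230011003f000d002f0003)
 (.leaf 0x47001f0009000d0005003d0003))
 (.node 96 (.leaf 0x230063000d)
 (.node 97 (.leaf 0x3300070015008f)
 (.leaf 0x67002d000f))))
 (.node 101 (.node 99 (.leaf 0x87002d0021)
 (.node 100 (.leaf 0x4300150017)
 (.leaf 0xa100230009003f000d003d0003)))
 (.node 102 (.leaf 0x290017002b)
 (.node 103 (.leaf 0xaf006700ad000f)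
 (.leaf 0x650013000b)))))
 (.node 110 (.node 107 (.node 105 (.leaf 0x3300130015)
 (.node 106 (.leaf 0x1b00630005)
 (.leaf 0x9f00070015005b)))
 (.node 108 (.leaf 0xa9000b00c3)
 (.node 109 (.leaf 0x23001f000d00c1)
 (.leaf 0x900570003))))
 (.node 113 (.node 111 (.leaf 0x1b001d002d)
 (.node 112 (.leaf 0x8900290017005b)
 (.leaf 0x53000b003b)))
 (.node 114 (.leaf 0x9000f004d)
 (.node 115 (.leaf 0x6b0009000f00b9)
 (.leaf 0x85001f0011000d0005002f0003))))))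
 (.node 128 (.node 122 (.node 119 (.node 117 (.leaf 0x1100550003)
 (.node 118 (.leaf 0x610053003b0037)
 (.leaf 0x70015002b)))
 (.node 120 (.leaf 0x93000b00bd)
 (.node 121 (.leaf 0xab001b0047001f000900050079003d0003)
 (.leaf 0x610069003b))))
 (.node 125 (.node 123 (.leaf 0x4300070015006f)
 (.node 124 (.leaf 0x110021004d)
 (.leaf 0x23001d00c7)))
 (.node 126 (.leaf 0xc5001d000f)
 (.node 127 (.leaf 0x430029001700bf)
 (.leaf 0x95001b0011003f0005002f0003)))))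
 (.node 134 (.node 131 (.node 129 (.leaf 0x170015)
 (.node 130 (.leaf 0xbf0017)
 (.leaf 0xf0021)))
 (.node 132 (.leaf 0xc10023000d)
 (.node 133 (.leaf 0xb0026)
 (.leaf 0x13000b))))
 (.node 137 (.node 135 (.leaf 0xd003400030017)
 (.node 136 (.leaf 0xd00340003)
 (.leaf 0x2d002b000f)))
 (.node 138 (.leaf 0x2d002b)
 (.node 139 (.leaf 0xd0034)
 (.leaf 0x5000130036)))))))
 (.node 163 (.node 151 (.node 145 (.node 142 (.node 141 (.leaf 0xd0013000300050016)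
 (.leaf 0xd001300030005))
 (.node 143 (.leaf 0x610037003b)
 (.node 144 (.leaf 0x2b0017)
 (.leaf 0xc7000a))))
 (.node 148 (.node 146 (.leaf 0xc7001d)
 (.node 147 (.leaf 0xc7)
 (.leaf 0x24)))
 (.node 149 (.leaf 0x77)
 (.node 150 (.leaf 0x1a)
 (.leaf 0xb7)))))
 (.node 157 (.node 154 (.node 152 (.leaf 0x1d002b)
 (.node 153 (.leaf 0x1d00160005)
 (.leaf 0x3b000b)))
 (.node 155 (.leaf 0x1d0016)
 (.node 156 (.leaf 0x1d003b)
 (.leaf 0x1d))))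
 (.node 160 (.node 158 (.leaf 0x12)
 (.node 159 (.leaf 0xb)
 (.leaf 0xc)))
 (.node 161 (.leaf 0x51)
 (.node 162 (.leaf 0xa7)
 (.leaf 0x34))))))
 (.node 175 (.node 169 (.node 166 (.node 164 (.leaf 0x36)
 (.node 165 (.leaf 0x58)
 (.leaf 0xb5)))
 (.node 167 (.leaf 0x9d)
 (.node 168 (.leaf 0x22)
 (.leaf 0x60))))
 (.node 172 (.node 170 (.leaf 0x63)
 (.node 171 (.leaf 0x3b)
 (.leaf 0x38)))
 (.node 173 (.leaf 0x4)
 (.node 174 (.leaf 0x7d)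
 (.leaf 0x3)))))
 (.node 181 (.node 178 (.node 176 (.leaf 0x1e)
 (.node 177 (.leaf 0x2a)
 (.leaf 0x97)))
 (.node 179 (.leaf 0x17)
 (.node 180 (.leaf 0xac)
 (.leaf 0xe))))
 (.node 184 (.node 182 (.leaf 0x21)
 (.node 183 (.leaf 0x14)
 (.leaf 0x7)))
 (.node 185 (.leaf 0xae)
 (.node 186 (.leaf 0x66)
 (.leaf 0x0)))))))))

noncomputable def prf : List ℕ := [
0x38000090007f00051000300005500033000400001c,
0x34000560004100052000020001b000720004c00044000280003a00000,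
0x4400006000460007600080000610003100026,
0x5500076000420001600023,
0x6e000130002e00065000520007b,
0x42000550001d00000,
0x120002d0005d000740003f00029000050005f00079000580006c0004d000170007f000600007800055,
0x280007c000820001e000400000400065000320003500000000600007a000590006d0004e0001800080000610007900056,
0x1100043000410002600005,
0x26000750004200023000080003400000,
0x5b0000200059,
0x87000780006e,
0x2d00081000870002300045000090006a000370003a0007f0005e0004b0002c000400004800001,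
0x1900034000640007b00046000300000c00000000800005f0004c0002d000410004900002,
0x3800078000400001800014,
0x520005a000360008000048000290000e,
0x290004b0005500019000490000d0003b000000006100002000560007100001000040007500083000620004f000570003000013000440004c000050005a0006d000580005d0007000074,
0x8a000220006b00060000830004d0004500014,
0x590000c00001,
0x3900000,
0x6e00000,
0x8e00000,
0x5000000,
0x20000500003f00014000190004200007,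
0x1f00061000930008e0002c000370008b0006e0007c000800006a0001400057000440002e0008f0004c00054000670002900076000460006c000950001d000400001a000580004b0006d00051000410004f0004e0005a0005c000590002a0002500047000770008c0002600064000920004d00081000150004300069000000000200001,
0x4b0003e000430005600083000690002800014,
0x350007600072000580002f0000b00075000640008900077000460006200016000670007a0007e000000007b0000100066000940004f000530008300042000170001c0007800045000480004e00056000690002b0008a0006b000020000300004,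
0x3d0007700086000590002b0000c00076000650008a00078000470006300017000680007b0007f000010004f000570006a0002c0008b0006c000030008c000660005e000420005d0005f0005c0007d00018000540001a000000000400005,
0x1c0007800083000940002400016000800001800048000930007d000000004d0009b000540006f00049000510009000027000200005e000600005d0007e0001900043000550001a0001b000010006d0000400050000580006b0002d0000600005,
0x6400000,
0x1800000,
0x8300000,
0x8000001,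
0x6e00002,
0x1700002,
0x170000500002,
0x6c00002,
0x6100002,
0x8300001,
0x5b00001,
0x7200001,
0x490000900001,
0x1b0000600001,
0x6a00001,
0x8d00001,
0x7f00001,
0x20000100000e00001,
0xa200001,
0x8100001,
0x9600001,
0x2200001,
0x79000060000e00001,
0x5f00001,
0x3200000,
0x6f00000,
0x400000600000,
0x7d00000,
0x7400001,
0x5300006000050000000001]

end D24

theorem inst_24 : instB 0 [0, 2] [1, 24] [] D24.base D24.gads D24.names D24.cnf D24.db D24.prf = true := by decide +kernel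

/-- no gadget has fewer than `2 R` new points. -/
theorem p2_24 : D24.gads.all (fun g => Nat.ble (2 * g.R) g.gs.length) = true := by decide +kernel

/-- there is no configuration of this instance. -/
theorem no_24 {V : Type v} [DecidableEq V] {ι : Type u} [Fintype ι] {B : ι → Finset V}
    {Q : Finset V} {i j : ι} {x : ℕ → V} {D : ℕ → Finset V}
    (h : CfI B Q 0 x D i j [0, 2] [1, 24]) : False :=
  h.absurd (by decide) srt_nil inst_24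

end Pool.Agent.Hyp6
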