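import Pool.Agent.Hyp6.Cb5

/-!
# HYP6: instance 25 of the list: n = 0, bounds [0, 2], inner blocks [1, 25]

31 base clauses, 7 gadgets, 23 learned clauses.
-/

set_option autoImplicit false
set_option maxRecDepth 100000

namespace Pool.Agent.Hyp6

open Rup

universe u v

namespace D25

noncomputable def names : Tr :=
 (.node 15 (.node 7 (.node 3 (.node 1 (.node 0 (.leaf 2083)
 (.leaf 258))
 (.node 2 (.leaf 18)
 (.leaf 2067)))
 (.node 5 (.node 4 (.leaf 34)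
 (.leaf 18481))
 (.node 6 (.leaf 17)
 (.leaf 2065))))
 (.node 11 (.node 9 (.node 8 (.leaf 2057)
 (.leaf 18449))
 (.node 10 (.leaf 2307)
 (.leaf 257)))
 (.node 13 (.node 12 (.leaf 16393)
 (.leaf 20))
 (.node 14 (.leaf 19)
 (.leaf 9)))))
 (.node 23 (.node 19 (.node 17 (.node 16 (.leaf 16657)
 (.leaf 18465))
 (.node 18 (.leaf 16641)
 (.leaf 33)))
 (.node 21 (.node 20 (.leaf 2084)
 (.leaf 16417))
 (.node 22 (.leaf 18705)
 (.leaf 2082))))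
 (.node 27 (.node 25 (.node 24 (.leaf 18441)
 (.leaf 16673))
 (.node 26 (.leaf 16425)
 (.leaf 2068)))
 (.node 29 (.node 28 (.leaf 16433)
 (.leaf 2081))
 (.node 30 (.leaf 16401)
 (.node 31 (.leaf 18721)
 (.leaf 10)))))))

noncomputable def base : List Rs := [
.ordE 0 32 1,
.deg 1 [1, 2],
.part [1, 6] [0, 0] [56] [],
.ordE 0 2 3,
.hall [0] [0, 1],
.part [34, 4] [0, 0] [25] [],
.deg 1 [3, 0],
.ab 0 5,
.deg 2 [0, 3],
.hall [1] [0, 1],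
.part [4, 34] [0, 0] [25] [],
.ordE 1 4 2,
.ab 1 0,
.part [36, 2] [0, 0] [25] [],
.ab 0 0,
.part [5, 2] [0, 0] [56] [],
.ab 1 1,
.deg 5 [1, 2],
.ordE 0 2 2,
.part [32, 6] [0, 0] [25] [],
.ordE 1 2 3,
.ordE 1 4 3,
.part [6, 1] [0, 0] [56] [],
.deg 2 [1, 2],
.ab 1 2,
.ab 0 1,
.part [2, 36] [0, 0] [25] [],
.deg 0 [1, 0],
.ab 0 2,
.ordE 1 4 1,
.deg 1 [0, 3]]

noncomputable def gads : List Gt := [
⟨0, [⟨1, 2, []⟩, ⟨4, 2, []⟩], [3, 3, 3], 1, [(5, 1)]⟩,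
⟨1, [⟨4, 3, []⟩, ⟨32, 3, []⟩], [3, 3], 1, [(36, 1)]⟩,
⟨0, [⟨2, 2, []⟩, ⟨32, 2, []⟩], [3, 3, 3], 1, [(34, 1)]⟩,
⟨1, [⟨2, 3, []⟩, ⟨4, 3, []⟩], [3, 3], 1, [(6, 1)]⟩,
⟨0, [⟨4, 2, []⟩, ⟨32, 2, []⟩], [3, 3, 3], 1, [(36, 1)]⟩,
⟨0, [⟨2, 2, []⟩, ⟨4, 2, []⟩], [3, 3, 3], 1, [(6, 1)]⟩,
⟨1, [⟨2, 3, []⟩, ⟨32, 3, []⟩], [3, 3], 1, [(34, 1)]⟩]

noncomputable def cnf : List (List ℕ) := [
[3, 22],
[4, 6],
[24, 10],
[27, 28],
[30, 12],
[32, 34],
[26, 14],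
[23, 37],
[38, 40],
[16, 14],
[42, 44],
[1, 46],
[17, 49],
[50, 18],
[31, 25],
[52, 18],
[15, 19],
[2, 20],
[29, 4],
[36, 10],
[55, 6],
[41, 0],
[56, 48],
[8, 0],
[59, 35],
[13, 61],
[60, 62],
[64, 16],
[39, 43],
[47, 58],
[12, 54],
[65, 9, 53],
[1, 21, 63],
[5, 3, 33],
[7, 1, 11],
[9, 3, 51],
[5, 9, 57],
[7, 21, 45]]

noncomputable def db : Tr :=
 (.node 30 (.node 15 (.node 7 (.node 3 (.node 1 (.leaf 0x180005)
 (.node 2 (.leaf 0x80006)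
 (.leaf 0xc001a)))
 (.node 5 (.node 4 (.leaf 0x1e001d)
 (.leaf 0xe0020))
 (.node 6 (.leaf 0x240022)
 (.leaf 0x10001c))))
 (.node 11 (.node 9 (.node 8 (.leaf 0x270019)
 (.leaf 0x2a0028))
 (.node 10 (.leaf 0x100012)
 (.leaf 0x2e002c)))
 (.node 13 (.node 12 (.leaf 0x300003)
 (.leaf 0x330013))
 (.node 14 (.leaf 0x140034)
 (.leaf 0x1b0021)))))
 (.node 22 (.node 18 (.node 16 (.leaf 0x140036)
 (.node 17 (.leaf 0x150011)
 (.leaf 0x160004)))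
 (.node 20 (.node 19 (.leaf 0x6001f)
 (.leaf 0xc0026))
 (.node 21 (.leaf 0x80039)
 (.leaf 0x2002b))))
 (.node 26 (.node 24 (.node 23 (.leaf 0x32003a)
 (.leaf 0x2000a))
 (.node 25 (.leaf 0x25003d)
 (.leaf 0x3f000f)))
 (.node 28 (.node 27 (.leaf 0x40003e)
 (.leaf 0x120042))
 (.node 29 (.leaf 0x2d0029)
 (.leaf 0x3c0031))))))
 (.node 45 (.node 37 (.node 33 (.node 31 (.leaf 0x38000e)
 (.node 32 (.leaf 0x37000b0043)
 (.leaf 0x4100170003)))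
 (.node 35 (.node 34 (.leaf 0x2300050007)
 (.leaf 0xd00030009))
 (.node 36 (.leaf 0x350005000b)
 (.leaf 0x3b000b0007))))
 (.node 41 (.node 39 (.node 38 (.leaf 0x2f00170009)
 (.leaf 0x43000b))
 (.node 40 (.leaf 0x30005)
 (.leaf 0x30017)))
 (.node 43 (.node 42 (.leaf 0x3)
 (.leaf 0x2b))
 (.node 44 (.leaf 0xa)
 (.leaf 0x28)))))
 (.node 53 (.node 49 (.node 47 (.node 46 (.leaf 0x43)
 (.leaf 0x2d))
 (.node 48 (.leaf 0x12)
 (.leaf 0x2e)))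
 (.node 51 (.node 50 (.leaf 0x33)
 (.leaf 0x3a))
 (.node 52 (.leaf 0x7)
 (.leaf 0x8))))
 (.node 57 (.node 55 (.node 54 (.leaf 0x1f)
 (.leaf 0x17))
 (.node 56 (.leaf 0x1d)
 (.leaf 0x4)))
 (.node 59 (.node 58 (.leaf 0x10)
 (.leaf 0x35))
 (.node 60 (.leaf 0x15)
 (.leaf 0x0)))))))

noncomputable def prf : List ℕ := [
0x10000f0001300019000220001c0001f000150001600006,
0x40002500013000050001f00026000210000e000090001b,
0x500025000130001900009000230000e0000d00007,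
0x1700001,
0x1400000,
0x1300001,
0x2300001,
0x600001,
0x1100001,
0x1300001,
0x2500001,
0x2400001,
0x1b00000,
0xe0000700000,
0x3200000,
0x2200001,
0x100000500001,
0x3300001,
0x2600001,
0x3200001,
0x160000e00001,
0x2a00001,
0x2e0000000001]

end D25

theorem inst_25 : instB 0 [0, 2] [1, 25] [] D25.base D25.gads D25.names D25.cnf D25.db D25.prf = true := by decide +kernel

/-- no gadget has fewer than `2 R` new points. -/
theorem p2_25 : D25.gads.all (fun g => Nat.ble (2 * g.R) g.gs.length) = true := by decide +kernel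

/-- there is no configuration of this instance. -/
theorem no_25 {V : Type v} [DecidableEq V] {ι : Type u} [Fintype ι] {B : ι → Finset V}
    {Q : Finset V} {i j : ι} {x : ℕ → V} {D : ℕ → Finset V}
    (h : CfI B Q 0 x D i j [0, 2] [1, 25]) : False :=
  h.absurd (by decide) srt_nil inst_25

end Pool.Agent.Hyp6
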