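import Pool.Agent.Hyp6.Cb5

/-!
# HYP6: instance 26 of the list: n = 0, bounds [0, 2], inner blocks [1, 26]

78 base clauses, 22 gadgets, 61 learned clauses.
-/

set_option autoImplicit false
set_option maxRecDepth 100000

namespace Pool.Agent.Hyp6

open Rup

universe u v

namespace D26

noncomputable def names : Tr :=
 (.node 41 (.node 20 (.node 9 (.node 4 (.node 1 (.node 0 (.leaf 34)
 (.leaf 2307))
 (.node 2 (.leaf 2066)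
 (.node 3 (.leaf 9)
 (.leaf 33))))
 (.node 6 (.node 5 (.leaf 2058)
 (.leaf 18705))
 (.node 7 (.leaf 258)
 (.node 8 (.leaf 18473)
 (.leaf 2177)))))
 (.node 14 (.node 11 (.node 10 (.leaf 2113)
 (.leaf 2057))
 (.node 12 (.leaf 10)
 (.node 13 (.leaf 65)
 (.leaf 129))))
 (.node 17 (.node 15 (.leaf 2083)
 (.node 16 (.leaf 18697)
 (.leaf 10377)))
 (.node 18 (.leaf 2178)
 (.node 19 (.leaf 10313)
 (.leaf 18753))))))
 (.node 30 (.node 25 (.node 22 (.node 21 (.leaf 18817)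
 (.leaf 16425))
 (.node 23 (.leaf 16673)
 (.node 24 (.leaf 8233)
 (.leaf 2065))))
 (.node 27 (.node 26 (.leaf 16393)
 (.leaf 2131))
 (.node 28 (.leaf 2195)
 (.node 29 (.leaf 8265)
 (.leaf 8329)))))
 (.node 35 (.node 32 (.node 31 (.leaf 16433)
 (.leaf 18441))
 (.node 33 (.leaf 18)
 (.node 34 (.leaf 16545)
 (.leaf 16417))))
 (.node 38 (.node 36 (.leaf 2059)
 (.node 37 (.leaf 18465)
 (.leaf 16481)))
 (.node 39 (.leaf 18721)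
 (.node 40 (.leaf 2179)
 (.leaf 2115)))))))
 (.node 62 (.node 51 (.node 46 (.node 43 (.node 42 (.leaf 16769)
 (.leaf 42))
 (.node 44 (.leaf 2187)
 (.node 45 (.leaf 16705)
 (.leaf 18561))))
 (.node 48 (.node 47 (.leaf 2082)
 (.leaf 2081))
 (.node 49 (.leaf 10321)
 (.node 50 (.leaf 10386)
 (.leaf 2305)))))
 (.node 56 (.node 53 (.node 52 (.leaf 257)
 (.leaf 16641))
 (.node 54 (.leaf 11)
 (.node 55 (.leaf 10385)
 (.leaf 2114))))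
 (.node 59 (.node 57 (.leaf 16449)
 (.node 58 (.leaf 2084)
 (.leaf 16513)))
 (.node 60 (.leaf 74)
 (.node 61 (.leaf 2308)
 (.leaf 35))))))
 (.node 72 (.node 67 (.node 64 (.node 63 (.leaf 10322)
 (.leaf 18457))
 (.node 65 (.leaf 162)
 (.node 66 (.leaf 8353)
 (.leaf 18497))))
 (.node 69 (.node 68 (.leaf 10505)
 (.leaf 17))
 (.node 70 (.leaf 8289)
 (.node 71 (.leaf 16409)
 (.leaf 10265)))))
 (.node 77 (.node 74 (.node 73 (.leaf 18481)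
 (.leaf 2315))
 (.node 75 (.leaf 16618)
 (.node 76 (.leaf 138)
 (.leaf 2123))))
 (.node 80 (.node 78 (.leaf 18449)
 (.node 79 (.leaf 130)
 (.leaf 16401)))
 (.node 81 (.leaf 16649)
 (.node 82 (.leaf 98)
 (.leaf 2075))))))))

noncomputable def base : List Rs := [
.join 0 1 2 2 1 1 [(0, 0)],
.join 1 1 4 3 2 1 [(0, 0)],
.part [40, 16] [0, 0] [7] [],
.ordE 1 4 1,
.ordE 1 2 1,
.ab 0 0,
.join 1 2 3 3 2 1 [(1, 0)],
.join 1 2 4 3 2 2 [(1, 1)],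
.hall [1] [3, 5],
.ab 0 5,
.ab 1 4,
.deg 0 [2, 0],
.l2 0 9 17 0 1 1,
.l2 1 17 18 4 1 1,
.l2 1 9 10 3 1 1,
.ab 0 3,
.part [6, 1] [0, 0] [56] [],
.deg 2 [0, 3],
.hall [0] [3, 4],
.deg 2 [1, 2],
.deg 1 [1, 1],
.part [20, 34] [0, 0] [] [(0, 9)],
.ab 1 0,
.part [16, 40] [0, 0] [7] [],
.join 0 1 3 2 1 1 [(0, 0)],
.deg 5 [0, 3],
.part [8, 48] [0, 0] [7] [],
.deg 2 [2, 1],
.join 1 2 3 3 2 2 [(1, 1)],
.deg 5 [1, 2],
.part [32, 5] [0, 0] [26] [],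
.part [4, 3] [0, 0] [56] [],
.deg 0 [1, 1],
.join 0 4 4 2 1 1 [(2, 0)],
.ab 1 3,
.hall [1] [3, 4],
.ab2 1 33,
.hall [0] [0, 1],
.l2 0 5 20 2 1 1,
.deg 0 [0, 2],
.l2 0 5 12 2 1 1,
.ab 1 2,
.ab 0 2,
.part [12, 34] [0, 0] [] [(1, 17)],
.part [3, 4] [0, 0] [56] [],
.ab 0 4,
.part [1, 36] [0, 0] [26] [],
.ab2 1 3,
.join 1 2 4 3 2 1 [(1, 0)],
.part [1, 6] [0, 0] [56] [],
.deg 4 [0, 2],
.part [20, 34] [0, 0] [] [(1, 9)],
.join 1 1 5 3 2 1 [(0, 0)],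
.part [29, 34] [1, 0] [] [],
.deg 3 [0, 2],
.join 0 1 4 2 1 1 [(0, 0)],
.ordE 0 4 1,
.part [48, 8] [0, 0] [7] [],
.join 1 1 3 3 2 1 [(0, 0)],
.ordE 0 4 2,
.ab 1 1,
.ordE 1 32 3,
.deg 4 [1, 1],
.ab 0 1,
.ordE 0 1 2,
.part [5, 2] [0, 0] [56] [],
.part [36, 1] [0, 0] [26] [],
.ordE 1 16 1,
.hall [1] [0, 1],
.part [2, 5] [0, 0] [56] [],
.part [33, 4] [0, 0] [26] [],
.part [4, 33] [0, 0] [26] [],
.l2 1 9 10 3 1 2,
.lipl 0 12 29 0 17,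
.ordE 1 1 1,
.join 0 4 3 2 1 1 [(2, 0)],
.join 1 1 1 3 1 2 [(0, 0)],
.l2 1 17 18 4 1 2]

noncomputable def gads : List Gt := [
⟨1, [⟨8, 3, []⟩, ⟨32, 3, []⟩], [3, 3], 1, [(40, 1)]⟩,
⟨1, [⟨18, 3, []⟩, ⟨32, 3, []⟩], [3, 3], 1, [(34, 1), (48, 1)]⟩,
⟨0, [⟨2, 2, []⟩, ⟨4, 2, []⟩], [3, 3, 3], 1, [(6, 1)]⟩,
⟨0, [⟨4, 2, []⟩, ⟨32, 2, []⟩], [3, 3, 3], 1, [(36, 1)]⟩,
⟨1, [⟨33, 3, []⟩, ⟨4, 3, []⟩], [3, 3], 1, [(5, 1), (36, 1)]⟩,
⟨0, [⟨1, 2, []⟩, ⟨32, 2, []⟩], [3, 3, 3], 1, [(33, 1)]⟩,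
⟨1, [⟨10, 3, []⟩, ⟨32, 3, []⟩], [3, 3], 1, [(34, 1), (40, 1)]⟩,
⟨1, [⟨1, 3, []⟩, ⟨32, 3, []⟩], [3, 3], 1, [(33, 1)]⟩,
⟨0, [⟨9, 2, []⟩, ⟨4, 2, []⟩], [3, 3, 3], 1, [(5, 1), (12, 1)]⟩,
⟨1, [⟨17, 3, []⟩, ⟨32, 3, []⟩], [3, 3], 1, [(33, 1), (48, 1)]⟩,
⟨0, [⟨12, 2, []⟩, ⟨32, 2, []⟩], [3, 3, 3], 1, [(36, 1), (40, 1)]⟩,
⟨0, [⟨20, 2, []⟩, ⟨32, 2, []⟩], [3, 3, 3], 1, [(36, 1), (48, 1)]⟩,
⟨1, [⟨4, 3, []⟩, ⟨32, 3, []⟩], [3, 3], 1, [(36, 1)]⟩,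
⟨1, [⟨3, 3, []⟩, ⟨4, 3, []⟩], [3, 3], 1, [(5, 1), (6, 1)]⟩,
⟨1, [⟨16, 3, []⟩, ⟨32, 3, []⟩], [3, 3], 1, [(48, 1)]⟩,
⟨1, [⟨1, 2, []⟩, ⟨4, 4, []⟩], [3, 1, 1], 1, [(5, 1)]⟩,
⟨0, [⟨1, 2, []⟩, ⟨4, 2, []⟩], [3, 3, 3], 1, [(5, 1)]⟩,
⟨0, [⟨5, 2, []⟩, ⟨2, 2, []⟩], [3, 3, 3], 1, [(3, 1), (6, 1)]⟩,
⟨1, [⟨1, 3, []⟩, ⟨4, 3, []⟩], [3, 3], 1, [(5, 1)]⟩,
⟨1, [⟨9, 3, []⟩, ⟨32, 3, []⟩], [3, 3], 1, [(33, 1), (40, 1)]⟩,
⟨0, [⟨17, 2, []⟩, ⟨4, 2, []⟩], [3, 3, 3], 1, [(5, 1), (20, 1)]⟩,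
⟨0, [⟨16, 2, []⟩, ⟨32, 2, []⟩], [3, 3, 3], 1, [(48, 1)]⟩]

noncomputable def cnf : List (List ℕ) := [
[7, 9, 86, 48],
[11, 19, 88, 34],
[90, 92],
[95, 96],
[5, 50],
[7, 53],
[5, 21, 54, 98],
[5, 37, 56, 100],
[20, 102],
[105, 107],
[19, 93],
[108, 22],
[59, 61, 24],
[35, 111, 36],
[39, 99, 112],
[27, 115],
[62, 64],
[8, 116],
[26, 28],
[0, 30],
[66, 4],
[68, 12, 59],
[23, 65],
[118, 40],
[7, 27, 120, 58],
[104, 122],
[114, 42],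
[124, 94],
[5, 113, 54, 126],
[14, 2],
[106, 16],
[70, 128],
[24, 10],
[9, 29, 130, 132],
[21, 135],
[20, 18],
[137, 33],
[6, 138],
[49, 133, 0],
[6, 72],
[49, 141, 0],
[97, 75],
[9, 71],
[76, 12, 35],
[142, 74],
[29, 119],
[52, 78],
[145, 129],
[5, 19, 56, 110],
[52, 146],
[28, 80],
[68, 12, 39],
[11, 103, 148, 136],
[150, 12],
[26, 82],
[7, 29, 152, 60],
[1, 8],
[84, 134],
[11, 21, 154, 38],
[125, 0],
[51, 157],
[123, 2],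
[158, 36],
[139, 161],
[109, 24],
[44, 156],
[46, 64],
[37, 18],
[22, 50],
[160, 16],
[162, 74],
[70, 32],
[39, 127, 82],
[61, 151, 76],
[11, 22],
[9, 27, 164, 140],
[23, 5, 166, 144],
[35, 101, 80],
[83, 3, 41],
[57, 3, 13, 43],
[67, 1, 63],
[1, 15, 47],
[149, 31, 17, 79],
[25, 15, 163],
[55, 3, 13, 41],
[73, 3, 33],
[121, 1, 45, 77],
[89, 3, 33, 43],
[165, 15, 47, 91],
[131, 15, 47, 85],
[31, 3, 79],
[167, 31, 17, 147],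
[81, 3, 43],
[11, 117, 17],
[25, 1, 45],
[87, 67, 143, 63],
[73, 31, 17],
[155, 3, 33, 41],
[153, 1, 45, 69],
[159, 15, 85]]

noncomputable def db : Tr :=
 (.node 80 (.node 40 (.node 20 (.node 10 (.node 5 (.node 2 (.node 1 (.leaf 0x320058000b0009)
 (.leaf 0x24005a0015000d))
 (.node 3 (.leaf 0x5e005c)
 (.node 4 (.leaf 0x620061)
 (.leaf 0x340007))))
 (.node 7 (.node 6 (.leaf 0x370009)
 (.leaf 0x64003800170007))
 (.node 8 (.leaf 0x66003a00270007)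
 (.node 9 (.leaf 0x680016)
 (.leaf 0x6d006b)))))
 (.node 15 (.node 12 (.node 11 (.leaf 0x5f0015)
 (.leaf 0x18006e))
 (.node 13 (.leaf 0x1a003f003d)
 (.node 14 (.leaf 0x2600710025)
 (.leaf 0x7200650029))))
 (.node 17 (.node 16 (.leaf 0x75001d)
 (.leaf 0x420040))
 (.node 18 (.leaf 0x76000a)
 (.node 19 (.leaf 0x1e001c)
 (.leaf 0x200002))))))
 (.node 30 (.node 25 (.node 22 (.node 21 (.leaf 0x60044)
 (.leaf 0x3d000e0046))
 (.node 23 (.leaf 0x430019)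
 (.node 24 (.leaf 0x2a0078)
 (.leaf 0x3c007a001d0009))))
 (.node 27 (.node 26 (.leaf 0x7c006a)
 (.leaf 0x2c0074))
 (.node 28 (.leaf 0x60007e)
 (.node 29 (.leaf 0x80003800730007)
 (.leaf 0x40010)))))
 (.node 35 (.node 32 (.node 31 (.leaf 0x12006c)
 (.leaf 0x820048))
 (.node 33 (.leaf 0xc001a)
 (.node 34 (.leaf 0x860084001f000b)
 (.leaf 0x890017))))
 (.node 37 (.node 36 (.leaf 0x140016)
 (.leaf 0x23008b))
 (.node 38 (.leaf 0x8c0008)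
 (.node 39 (.leaf 0x200870033)
 (.leaf 0x4a0008)))))))
 (.node 60 (.node 50 (.node 45 (.node 42 (.node 41 (.leaf 0x2008f0033)
 (.leaf 0x4d0063))
 (.node 43 (.leaf 0x49000b)
 (.node 44 (.leaf 0x25000e004e)
 (.leaf 0x4c0090))))
 (.node 47 (.node 46 (.leaf 0x79001f)
 (.leaf 0x500036))
 (.node 48 (.leaf 0x830093)
 (.node 49 (.leaf 0x70003a00150007)
 (.leaf 0x940036)))))
 (.node 55 (.node 52 (.node 51 (.leaf 0x52001e)
 (.leaf 0x29000e0046))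
 (.node 53 (.leaf 0x8a00960069000d)
 (.node 54 (.leaf 0xe0098)
 (.leaf 0x54001c))))
 (.node 57 (.node 56 (.leaf 0x3e009a001f0009)
 (.leaf 0xa0003))
 (.node 58 (.leaf 0x880056)
 (.node 59 (.leaf 0x28009c0017000d)
 (.leaf 0x2007f))))))
 (.node 70 (.node 65 (.node 62 (.node 61 (.leaf 0x9f0035)
 (.leaf 0x4007d))
 (.node 63 (.leaf 0x2600a0)
 (.node 64 (.leaf 0xa3008d)
 (.leaf 0x1a006f))))
 (.node 67 (.node 66 (.leaf 0x9e002e)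
 (.leaf 0x420030))
 (.node 68 (.leaf 0x140027)
 (.node 69 (.leaf 0x340018)
 (.leaf 0x1200a2)))))
 (.node 75 (.node 72 (.node 71 (.leaf 0x4c00a4)
 (.leaf 0x220048))
 (.node 73 (.leaf 0x5400810029)
 (.node 74 (.leaf 0x4e0099003f)
 (.leaf 0x18000d))))
 (.node 77 (.node 76 (.leaf 0x8e00a6001d000b)
 (.leaf 0x9200a800070019))
 (.node 78 (.leaf 0x5200670025)
 (.node 79 (.leaf 0x2b00050055)
 (.leaf 0x2d000f0005003b))))))))
 (.node 120 (.node 100 (.node 90 (.node 85 (.node 82 (.node 81 (.leaf 0x4100030045)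
 (.leaf 0x3100110003))
 (.node 83 (.leaf 0x51001300210097)
 (.node 84 (.leaf 0xa50011001b)
 (.leaf 0x2b000f00050039))))
 (.node 87 (.node 86 (.leaf 0x230005004b)
 (.leaf 0x4f002f0003007b))
 (.node 88 (.leaf 0x2d00230005005b)
 (.node 89 (.leaf 0x5d0031001100a7)
 (.leaf 0x57003100110085)))))
 (.node 95 (.node 92 (.node 91 (.leaf 0x5100050021)
 (.leaf 0x950013002100a9))
 (.node 93 (.leaf 0x2d00050053)
 (.node 94 (.leaf 0x130077000d)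
 (.leaf 0x2f0003001b))))
 (.node 97 (.node 96 (.leaf 0x41009100450059)
 (.leaf 0x130021004b))
 (.node 98 (.leaf 0x2b00230005009d)
 (.node 99 (.leaf 0x47002f0003009b)
 (.leaf 0x57001100a1))))))
 (.node 110 (.node 105 (.node 102 (.node 101 (.leaf 0x5001e)
 (.leaf 0x30009009c001d005a002f000e0046))
 (.node 103 (.leaf 0x30009001f009c001d005a002f000e)
 (.node 104 (.leaf 0x5a0052000d0007003a0015)
 (.leaf 0x30005002f))))
 (.node 107 (.node 106 (.leaf 0x30005)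
 (.leaf 0x310003))
 (.node 108 (.leaf 0x210008)
 (.node 109 (.leaf 0xa90021)
 (.leaf 0x3)))))
 (.node 115 (.node 112 (.node 111 (.leaf 0x20)
 (.leaf 0x7f))
 (.node 113 (.leaf 0x8)
 (.node 114 (.leaf 0xa9)
 (.leaf 0x60))))
 (.node 117 (.node 116 (.leaf 0x37)
 (.leaf 0x62))
 (.node 118 (.leaf 0x50)
 (.node 119 (.leaf 0x4d)
 (.leaf 0x5)))))))
 (.node 140 (.node 130 (.node 125 (.node 122 (.node 121 (.leaf 0x90)
 (.leaf 0xa4))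
 (.node 123 (.leaf 0x10)
 (.node 124 (.leaf 0x7d)
 (.leaf 0x1b))))
 (.node 127 (.node 126 (.leaf 0x6a)
 (.leaf 0xc))
 (.node 128 (.leaf 0x6d)
 (.node 129 (.leaf 0x18)
 (.leaf 0x12)))))
 (.node 135 (.node 132 (.node 131 (.leaf 0x43)
 (.leaf 0x77))
 (.node 133 (.leaf 0x97)
 (.node 134 (.leaf 0x40)
 (.leaf 0x30))))
 (.node 137 (.node 136 (.leaf 0xa)
 (.leaf 0x49))
 (.node 138 (.leaf 0x82)
 (.node 139 (.leaf 0x22)
 (.leaf 0x93))))))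
 (.node 150 (.node 145 (.node 142 (.node 141 (.leaf 0x8b)
 (.leaf 0x7))
 (.node 143 (.leaf 0x69)
 (.node 144 (.leaf 0x44)
 (.leaf 0x16))))
 (.node 147 (.node 146 (.leaf 0x59)
 (.leaf 0x89))
 (.node 148 (.leaf 0x32)
 (.node 149 (.leaf 0x56)
 (.leaf 0x87)))))
 (.node 155 (.node 152 (.node 151 (.leaf 0x8f)
 (.leaf 0xa1))
 (.node 153 (.leaf 0x85)
 (.node 154 (.leaf 0x26)
 (.leaf 0x1f))))
 (.node 158 (.node 156 (.leaf 0x14)
 (.node 157 (.leaf 0x1c)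
 (.leaf 0x5f)))
 (.node 159 (.leaf 0xa6)
 (.node 160 (.leaf 0x5c)
 (.leaf 0x0)))))))))

noncomputable def prf : List ℕ := [
0x4900007000540003100051,
0x6300039000410000e0002a0004c000310004f0004400006,
0xf0004d0001c000590002e00003000000003000007,
0x5f00059000190003600065,
0x4b000590001f000610002d0004400000000180001300001000530001700057000510001d000470000900040000120000600010000200003d0002f0000b0004d000580003100019000500003a00003,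
0x5800018000520005400024000640002c0002700000,
0x4c00018,
0x250000a0002b0004300045,
0x62000520004d0002e00010000110003a0003d0006600000,
0x2b0000e000300002c0002800061000560002a00002,
0x5a00000,
0x3300001,
0x400001,
0x400002,
0x5600002,
0x6d00002,
0x7000001,
0x4600001,
0x4c00001,
0x1c0000800001,
0x4b00001,
0x3200002,
0x5c00002,
0x3d00003,
0x280000100002,
0x6300001,
0x5d00001,
0x7500001,
0x3500001,
0x6200001,
0x6b00001,
0x250000400001,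
0x31000150000e00002,
0x7400002,
0x4300003,
0x7500003,
0x5d00000,
0x6900000,
0x4200001,
0x5b00001,
0x6700001,
0x400001b0000c00001,
0x590000f0000900001,
0x7a00001,
0x8700001,
0x31000180000b00001,
0x6f00001,
0x92000220000b00001,
0x5a00001,
0x6e0002700001,
0x6d0002800002,
0x330001c00002,
0x3e0001d0001100003,
0x5a00001,
0x78000040001200001,
0x5700001,
0x8900001,
0x9200001,
0x52000070001600001,
0x9c00001,
0x4700019000250000100000]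

end D26

theorem inst_26 : instB 0 [0, 2] [1, 26] [] D26.base D26.gads D26.names D26.cnf D26.db D26.prf = true := by decide +kernel

/-- no gadget has fewer than `2 R` new points. -/
theorem p2_26 : D26.gads.all (fun g => Nat.ble (2 * g.R) g.gs.length) = true := by decide +kernel

/-- there is no configuration of this instance. -/
theorem no_26 {V : Type v} [DecidableEq V] {ι : Type u} [Fintype ι] {B : ι → Finset V}
    {Q : Finset V} {i j : ι} {x : ℕ → V} {D : ℕ → Finset V}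
    (h : CfI B Q 0 x D i j [0, 2] [1, 26]) : False :=
  h.absurd (by decide) srt_nil inst_26

end Pool.Agent.Hyp6
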