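import Pool.Agent.Hyp6.Cb5

/-!
# HYP6: instance 33 of the list: n = 0, bounds [0, 2], inner blocks [3, 12]

78 base clauses, 28 gadgets, 72 learned clauses.
-/

set_option autoImplicit false
set_option maxRecDepth 100000

namespace Pool.Agent.Hyp6

open Rup

universe u v

namespace D33

noncomputable def names : Tr :=
 (.node 41 (.node 20 (.node 9 (.node 4 (.node 1 (.node 0 (.leaf 2179)
 (.leaf 2307))
 (.node 2 (.leaf 258)
 (.node 3 (.leaf 2114)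
 (.leaf 66))))
 (.node 6 (.node 5 (.leaf 10321)
 (.leaf 65))
 (.node 7 (.leaf 2211)
 (.node 8 (.leaf 130)
 (.leaf 18625)))))
 (.node 14 (.node 11 (.node 10 (.leaf 257)
 (.leaf 2082))
 (.node 12 (.leaf 16705)
 (.node 13 (.leaf 18753)
 (.leaf 16577))))
 (.node 17 (.node 15 (.leaf 2123)
 (.node 16 (.leaf 17)
 (.leaf 2065)))
 (.node 18 (.leaf 2131)
 (.node 19 (.leaf 2057)
 (.leaf 18721))))))
 (.node 30 (.node 25 (.node 22 (.node 21 (.leaf 2115)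
 (.leaf 16769))
 (.node 23 (.leaf 2113)
 (.node 24 (.leaf 9)
 (.leaf 18705))))
 (.node 27 (.node 26 (.leaf 18593)
 (.leaf 18569))
 (.node 28 (.leaf 18577)
 (.node 29 (.leaf 18697)
 (.leaf 2177)))))
 (.node 35 (.node 32 (.node 31 (.leaf 8265)
 (.leaf 8385))
 (.node 33 (.leaf 18481)
 (.node 34 (.leaf 8513)
 (.leaf 16529))))
 (.node 38 (.node 36 (.leaf 10313)
 (.node 37 (.leaf 34)
 (.leaf 2059)))
 (.node 39 (.leaf 2099)
 (.node 40 (.leaf 2067)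
 (.leaf 8273)))))))
 (.node 62 (.node 51 (.node 46 (.node 43 (.node 42 (.leaf 2180)
 (.leaf 129))
 (.node 44 (.leaf 16521)
 (.node 45 (.leaf 82)
 (.leaf 16649))))
 (.node 48 (.node 47 (.leaf 16657)
 (.leaf 74))
 (.node 49 (.leaf 2091)
 (.node 50 (.leaf 2058)
 (.leaf 10314)))))
 (.node 56 (.node 53 (.node 52 (.leaf 16641)
 (.leaf 2178))
 (.node 54 (.leaf 2081)
 (.node 55 (.leaf 10402)
 (.leaf 16401))))
 (.node 59 (.node 57 (.leaf 18473)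
 (.node 58 (.leaf 18441)
 (.leaf 10289)))
 (.node 60 (.leaf 10)
 (.node 61 (.leaf 10403)
 (.leaf 2083))))))
 (.node 73 (.node 67 (.node 64 (.node 63 (.leaf 10401)
 (.leaf 16433))
 (.node 65 (.leaf 18)
 (.node 66 (.leaf 2066)
 (.leaf 18497))))
 (.node 70 (.node 68 (.leaf 260)
 (.node 69 (.leaf 2305)
 (.leaf 18561)))
 (.node 71 (.leaf 10281)
 (.node 72 (.leaf 16393)
 (.leaf 18689)))))
 (.node 78 (.node 75 (.node 74 (.leaf 16513)
 (.leaf 16449))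
 (.node 76 (.leaf 18817)
 (.node 77 (.leaf 18513)
 (.leaf 322))))
 (.node 81 (.node 79 (.leaf 259)
 (.node 80 (.leaf 2308)
 (.leaf 10404)))
 (.node 82 (.leaf 16425)
 (.node 83 (.leaf 2084)
 (.leaf 194))))))))

noncomputable def base : List Rs := [
.join 1 1 3 3 2 2 [(0, 1)],
.part [32, 24] [0, 0] [7] [],
.ordE 1 16 2,
.join 1 4 4 3 1 3 [(2, 1)],
.ordE 1 16 1,
.l2 0 9 24 3 1 1,
.ab 0 1,
.join 1 2 3 3 1 2 [(1, 0)],
.part [2, 5] [0, 0] [56] [],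
.ab 1 0,
.ab2 1 6,
.deg 0 [1, 1],
.l2 0 9 40 3 1 1,
.le 1 20 4 2 3,
.le 1 20 4 2 1,
.ab 0 5,
.part [18, 36] [0, 0] [] [(1, 9)],
.deg 2 [1, 1],
.part [6, 1] [0, 0] [56] [],
.deg 3 [0, 2],
.deg 1 [1, 1],
.part [48, 8] [0, 0] [7] [],
.ab 1 3,
.deg 5 [1, 2],
.deg 3 [1, 1],
.deg 5 [3, 0],
.part [40, 16] [0, 0] [7] [],
.deg 0 [0, 2],
.ab2 1 5,
.part [1, 6] [0, 0] [56] [],
.join 1 2 2 3 1 2 [(1, 0)],
.join 1 4 4 3 0 3 [(2, 0)],
.hall [0] [0, 1],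
.deg 1 [0, 2],
.hall [0] [3, 5],
.l2 0 10 40 3 1 1,
.l2 1 9 10 3 2 1,
.hall [1] [0, 1],
.join 1 1 3 3 1 2 [(0, 0)],
.ordE 1 16 3,
.l2 0 10 24 3 1 1,
.ab 1 5,
.ab 0 4,
.part [8, 48] [0, 0] [7] [],
.part [17, 34] [0, 0] [12] [],
.join 0 2 3 2 1 1 [(1, 0)],
.part [33, 20] [0, 0] [] [(1, 10)],
.ab2 1 10,
.join 0 8 5 2 1 1 [(3, 0)],
.part [34, 17] [0, 0] [12] [],
.deg 4 [1, 2],
.part [16, 40] [0, 0] [7] [],
.join 0 1 3 2 1 1 [(0, 0)],
.part [33, 18] [0, 0] [12] [],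
.deg 4 [0, 3],
.ordE 0 32 1,
.ordE 0 32 2,
.join 1 1 2 3 1 2 [(0, 0)],
.ab 1 4,
.le 1 10 2 1 1,
.deg 5 [0, 3],
.ab 0 3,
.join 1 4 4 3 3 3 [(2, 3)],
.join 1 2 3 3 2 1 [(1, 0)],
.part [18, 33] [0, 0] [12] [],
.part [5, 10] [0, 0] [48] [],
.ordE 0 32 3,
.hall [1] [3, 4],
.part [34, 20] [0, 0] [] [(1, 9)],
.part [17, 36] [0, 0] [] [(1, 10)],
.join 1 4 4 3 4 3 [(2, 4)],
.part [24, 32] [0, 0] [7] [],
.le 1 20 4 2 2,
.ab 0 0,
.ordE 1 8 1,
.join 0 8 4 2 1 1 [(3, 0)],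
.join 1 4 4 3 2 3 [(2, 2)],
.le 1 20 4 2 4]

noncomputable def gads : List Gt := [
⟨0, [⟨9, 2, []⟩, ⟨16, 2, []⟩], [3, 3, 3], 1, [(17, 1), (24, 1)]⟩,
⟨1, [⟨8, 2, []⟩, ⟨16, 4, []⟩], [3, 1, 1], 1, [(24, 1)]⟩,
⟨1, [⟨6, 3, []⟩, ⟨32, 3, []⟩], [3, 3], 1, [(34, 1), (36, 1)]⟩,
⟨1, [⟨10, 3, []⟩, ⟨16, 3, []⟩], [3, 3], 1, [(18, 1), (24, 1)]⟩,
⟨1, [⟨1, 3, []⟩, ⟨16, 3, []⟩], [3, 3], 1, [(17, 1)]⟩,
⟨1, [⟨10, 3, []⟩, ⟨32, 3, []⟩], [3, 3], 1, [(34, 1), (40, 1)]⟩,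
⟨1, [⟨9, 3, []⟩, ⟨16, 3, []⟩], [3, 3], 1, [(17, 1), (24, 1)]⟩,
⟨1, [⟨2, 3, []⟩, ⟨20, 3, []⟩], [3, 3], 1, [(6, 1), (18, 1)]⟩,
⟨1, [⟨5, 3, []⟩, ⟨16, 3, []⟩], [3, 3], 1, [(17, 1), (20, 1)]⟩,
⟨1, [⟨6, 3, []⟩, ⟨16, 3, []⟩], [3, 3], 1, [(18, 1), (20, 1)]⟩,
⟨0, [⟨40, 2, []⟩, ⟨16, 2, []⟩], [3, 3, 3], 1, [(24, 1), (48, 1)]⟩,
⟨0, [⟨16, 2, []⟩, ⟨32, 2, []⟩], [3, 3, 3], 1, [(48, 1)]⟩,
⟨1, [⟨8, 3, []⟩, ⟨32, 3, []⟩], [3, 3], 1, [(40, 1)]⟩,
⟨0, [⟨24, 2, []⟩, ⟨32, 2, []⟩], [3, 3, 3], 1, [(40, 1), (48, 1)]⟩,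
⟨1, [⟨2, 3, []⟩, ⟨32, 3, []⟩], [3, 3], 1, [(34, 1)]⟩,
⟨0, [⟨10, 2, []⟩, ⟨32, 2, []⟩], [3, 3, 3], 1, [(34, 1), (40, 1)]⟩,
⟨0, [⟨1, 2, []⟩, ⟨4, 2, []⟩], [3, 3, 3], 1, [(5, 1)]⟩,
⟨1, [⟨8, 2, []⟩, ⟨32, 4, []⟩], [3, 1, 1], 1, [(40, 1)]⟩,
⟨1, [⟨9, 3, []⟩, ⟨32, 3, []⟩], [3, 3], 1, [(33, 1), (40, 1)]⟩,
⟨0, [⟨8, 2, []⟩, ⟨16, 2, []⟩], [3, 3, 3], 1, [(24, 1)]⟩,
⟨0, [⟨10, 2, []⟩, ⟨16, 2, []⟩], [3, 3, 3], 1, [(18, 1), (24, 1)]⟩,
⟨0, [⟨8, 2, []⟩, ⟨32, 2, []⟩], [3, 3, 3], 1, [(40, 1)]⟩,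
⟨0, [⟨9, 2, []⟩, ⟨32, 2, []⟩], [3, 3, 3], 1, [(33, 1), (40, 1)]⟩,
⟨1, [⟨1, 3, []⟩, ⟨32, 3, []⟩], [3, 3], 1, [(33, 1)]⟩,
⟨1, [⟨8, 3, []⟩, ⟨16, 3, []⟩], [3, 3], 1, [(24, 1)]⟩,
⟨1, [⟨16, 3, []⟩, ⟨32, 3, []⟩], [3, 3], 1, [(48, 1)]⟩,
⟨1, [⟨5, 3, []⟩, ⟨32, 3, []⟩], [3, 3], 1, [(33, 1), (36, 1)]⟩,
⟨0, [⟨2, 2, []⟩, ⟨4, 2, []⟩], [3, 3, 3], 1, [(6, 1)]⟩]

noncomputable def cnf : List (List ℕ) := [
[101, 7, 30, 102],
[104, 18],
[1, 106],
[109, 1, 14, 110],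
[107, 60],
[63, 65, 8],
[33, 113],
[35, 7, 36, 10],
[112, 114],
[39, 117],
[119, 67],
[120, 100],
[63, 69, 8],
[123, 124],
[127, 108],
[21, 105],
[70, 40, 73],
[74, 22],
[128, 116],
[12, 42],
[130, 132],
[44, 134],
[47, 135],
[4, 2],
[8, 6],
[136, 138],
[24, 140],
[48, 76],
[143, 115],
[144, 66],
[35, 23, 78, 118],
[1, 14, 126],
[48, 32],
[32, 80],
[12, 20],
[83, 69, 8],
[103, 11, 42],
[38, 34],
[39, 7, 30, 72],
[85, 0],
[83, 65, 8],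
[139, 147],
[87, 149],
[150, 152],
[88, 50],
[33, 13, 90, 82],
[92, 52, 11],
[11, 155],
[13, 21, 156, 68],
[94, 54],
[16, 0],
[148, 26],
[49, 13, 96, 62],
[92, 56],
[86, 84],
[5, 20],
[159, 4],
[39, 23, 98, 142],
[61, 141],
[11, 34],
[20, 160],
[13, 151],
[125, 1, 14, 162],
[133, 47, 36, 10],
[70, 58],
[164, 154],
[137, 158],
[46, 60],
[94, 52, 73],
[88, 40, 11],
[167, 1, 14],
[28, 146],
[111, 22],
[49, 145],
[7, 46],
[13, 87, 168, 64],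
[23, 1, 14, 122],
[163, 166],
[97, 17, 89, 29],
[7, 85, 19],
[79, 3, 51, 41],
[37, 1, 57, 19],
[77, 1, 55],
[37, 3, 51, 27],
[31, 1, 55, 19],
[81, 15, 67, 57],
[99, 1, 55, 53],
[79, 1, 57, 53],
[157, 17, 29, 45],
[17, 5, 45],
[43, 3, 27],
[169, 5, 25, 45],
[81, 3, 51],
[91, 5, 95, 25],
[121, 75, 165],
[7, 161, 27],
[31, 3, 59, 27],
[9, 17, 29],
[91, 17, 71, 29],
[9, 5, 25],
[97, 5, 93, 25],
[77, 3, 59],
[43, 1, 19],
[1, 3, 153],
[99, 3, 59, 41],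
[131, 75, 129]]

noncomputable def db : Tr :=
 (.node 89 (.node 44 (.node 22 (.node 11 (.node 5 (.node 2 (.node 1 (.leaf 0x68002000090067)
 (.leaf 0x14006a))
 (.node 3 (.leaf 0x6c0003)
 (.node 4 (.leaf 0x7000100003006f)
 (.leaf 0x3e006d))))
 (.node 8 (.node 6 (.leaf 0xa00430041)
 (.node 7 (.leaf 0x730023)
 (.leaf 0xc002600090025)))
 (.node 9 (.leaf 0x740072)
 (.node 10 (.leaf 0x770029)
 (.leaf 0x450079)))))
 (.node 16 (.node 13 (.node 12 (.leaf 0x66007a)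
 (.leaf 0xa00470041))
 (.node 14 (.leaf 0x7e007d)
 (.node 15 (.leaf 0x6e0081)
 (.leaf 0x6b0017))))
 (.node 19 (.node 17 (.leaf 0x4b002a0048)
 (.node 18 (.leaf 0x18004c)
 (.leaf 0x760082)))
 (.node 20 (.leaf 0x2c000e)
 (.node 21 (.leaf 0x860084)
 (.leaf 0x88002e))))))
 (.node 33 (.node 27 (.node 24 (.node 23 (.leaf 0x890031)
 (.leaf 0x40006))
 (.node 25 (.leaf 0x8000a)
 (.node 26 (.leaf 0x8c008a)
 (.leaf 0x8e001a))))
 (.node 30 (.node 28 (.leaf 0x4e0032)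
 (.node 29 (.leaf 0x750091)
 (.leaf 0x440092)))
 (.node 31 (.leaf 0x78005000190025)
 (.node 32 (.leaf 0x8000100003)
 (.leaf 0x220032)))))
 (.node 38 (.node 35 (.node 34 (.leaf 0x520022)
 (.leaf 0x16000e))
 (.node 36 (.leaf 0xa00470055)
 (.node 37 (.leaf 0x2c000d0069)
 (.leaf 0x240028))))
 (.node 41 (.node 39 (.leaf 0x4a002000090029)
 (.node 40 (.leaf 0x20057)
 (.leaf 0xa00430055)))
 (.node 42 (.leaf 0x95008d)
 (.node 43 (.leaf 0x970059)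
 (.leaf 0x9a0098)))))))
 (.node 66 (.node 55 (.node 49 (.node 46 (.node 45 (.leaf 0x34005a)
 (.leaf 0x54005c000f0023))
 (.node 47 (.leaf 0xd0036005e)
 (.node 48 (.leaf 0x9d000d)
 (.leaf 0x46009e0017000f))))
 (.node 52 (.node 50 (.leaf 0x380060)
 (.node 51 (.leaf 0x20012)
 (.leaf 0x1c0096)))
 (.node 53 (.leaf 0x400062000f0033)
 (.node 54 (.leaf 0x3a005e)
 (.leaf 0x560058)))))
 (.node 60 (.node 57 (.node 56 (.leaf 0x160007)
 (.leaf 0x600a1))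
 (.node 58 (.leaf 0x90006400190029)
 (.node 59 (.leaf 0x8f003f)
 (.leaf 0x24000d))))
 (.node 63 (.node 61 (.leaf 0xa20016)
 (.node 62 (.leaf 0x99000f)
 (.leaf 0xa400100003007f)))
 (.node 64 (.leaf 0xc002600310087)
 (.node 65 (.leaf 0x3c0048)
 (.leaf 0x9c00a6))))))
 (.node 77 (.node 71 (.node 68 (.node 67 (.leaf 0xa0008b)
 (.leaf 0x3e0030))
 (.node 69 (.leaf 0x4b00360060)
 (.node 70 (.leaf 0xd002a005a)
 (.leaf 0x10000300a9))))
 (.node 74 (.node 72 (.leaf 0x94001e)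
 (.node 73 (.leaf 0x180071)
 (.leaf 0x930033)))
 (.node 75 (.leaf 0x300009)
 (.node 76 (.leaf 0x4200aa0059000f)
 (.leaf 0x7c001000030019)))))
 (.node 83 (.node 80 (.node 78 (.leaf 0xa800a5)
 (.node 79 (.leaf 0x1f005b00130063)
 (.leaf 0x1500570009)))
 (.node 81 (.leaf 0x2b003500050051)
 (.node 82 (.leaf 0x15003b00030027)
 (.leaf 0x390003004f))))
 (.node 86 (.node 84 (.leaf 0x1d003500050027)
 (.node 85 (.leaf 0x15003900030021)
 (.leaf 0x3b004500110053)))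
 (.node 87 (.leaf 0x37003900030065)
 (.node 88 (.leaf 0x37003b00030051)
 (.leaf 0x2f001f0013009f))))))))
 (.node 133 (.node 111 (.node 100 (.node 94 (.node 91 (.node 90 (.leaf 0x2f00070013)
 (.leaf 0x1d0005002d))
 (.node 92 (.leaf 0x2f001b000700ab)
 (.node 93 (.leaf 0x3500050053)
 (.leaf 0x1b00610007005d))))
 (.node 97 (.node 95 (.leaf 0xa7004d007b)
 (.node 96 (.leaf 0x1d00a30009)
 (.leaf 0x1d003d00050021)))
 (.node 98 (.leaf 0x1f0013000b)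
 (.node 99 (.leaf 0x1f00490013005d)
 (.leaf 0x1b0007000b)))))
 (.node 105 (.node 102 (.node 101 (.leaf 0x1b005f00070063)
 (.leaf 0x3d0005004f))
 (.node 103 (.leaf 0x150003002d)
 (.node 104 (.leaf 0x9b00050003)
 (.leaf 0x2b003d00050065))))
 (.node 108 (.node 106 (.leaf 0x83004d0085)
 (.node 107 (.leaf 0x1f0007000b)
 (.leaf 0x1f00a30007)))
 (.node 109 (.leaf 0xa300050009)
 (.node 110 (.leaf 0x50003)
 (.leaf 0x1f00a3))))))
 (.node 122 (.node 116 (.node 113 (.node 112 (.leaf 0xab001f0003)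
 (.leaf 0x90020005a00260048002a))
 (.node 114 (.leaf 0x9002c00a700200078002600500025)
 (.node 115 (.leaf 0x1f0013001d00a7003d)
 (.leaf 0x1f0013000f0022))))
 (.node 119 (.node 117 (.leaf 0xab001f)
 (.node 118 (.leaf 0x70030)
 (.leaf 0xab)))
 (.node 120 (.leaf 0xb002f0007)
 (.node 121 (.leaf 0xb0006)
 (.leaf 0xb)))))
 (.node 127 (.node 124 (.node 123 (.leaf 0x8)
 (.leaf 0x30))
 (.node 125 (.leaf 0x89)
 (.node 126 (.leaf 0x2e)
 (.leaf 0x7003b006000900029))))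
 (.node 130 (.node 128 (.leaf 0x7005e00390025)
 (.node 129 (.leaf 0x7005e0060)
 (.leaf 0x30010)))
 (.node 131 (.leaf 0x7003b0033)
 (.node 132 (.leaf 0x70032)
 (.leaf 0x7)))))))
 (.node 155 (.node 144 (.node 138 (.node 135 (.node 134 (.leaf 0x4)
 (.leaf 0xa1))
 (.node 136 (.leaf 0x3)
 (.node 137 (.leaf 0x8b)
 (.leaf 0x57))))
 (.node 141 (.node 139 (.leaf 0x12)
 (.node 140 (.leaf 0x8c)
 (.leaf 0x58)))
 (.node 142 (.leaf 0x95)
 (.node 143 (.leaf 0x97)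
 (.leaf 0x1e)))))
 (.node 149 (.node 146 (.node 145 (.leaf 0x1c)
 (.leaf 0x2d))
 (.node 147 (.leaf 0xe)
 (.node 148 (.leaf 0x42)
 (.leaf 0x22))))
 (.node 152 (.node 150 (.leaf 0x41)
 (.node 151 (.leaf 0x55)
 (.leaf 0x73)))
 (.node 153 (.leaf 0x5c)
 (.node 154 (.leaf 0x74)
 (.leaf 0x49))))))
 (.node 166 (.node 160 (.node 157 (.node 156 (.leaf 0x91)
 (.leaf 0x3c))
 (.node 158 (.leaf 0xa7)
 (.node 159 (.leaf 0x4f)
 (.leaf 0x21))))
 (.node 163 (.node 161 (.leaf 0x9c)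
 (.node 162 (.leaf 0x32)
 (.leaf 0xd)))
 (.node 164 (.leaf 0x62)
 (.node 165 (.leaf 0x5b)
 (.leaf 0x34)))))
 (.node 172 (.node 169 (.node 167 (.leaf 0x27)
 (.node 168 (.leaf 0x2a)
 (.leaf 0x25)))
 (.node 170 (.leaf 0x87)
 (.node 171 (.leaf 0x65)
 (.leaf 0x28))))
 (.node 175 (.node 173 (.leaf 0x84)
 (.node 174 (.leaf 0x19)
 (.leaf 0x77)))
 (.node 176 (.leaf 0x4c)
 (.node 177 (.leaf 0x82)
 (.leaf 0x0)))))))))

noncomputable def prf : List ℕ := [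
0x650002f000670004f000370000600008,
0x4000037000340000b0001b0005200000000690005b00033,
0x490002e0005c000400006a000040001c000440003500041000380000c,
0x6b0005d000060004a000590002f0004100005,
0x3b0000c00055000010005600002,
0x5800059000240001300056000540000400034000570006a000010006c,
0x4a00049000680005f0002a,
0x6500012000700005f0004c0005200069,
0x80005d000600005f000320003800068000360004c00000000090002100001000550000f00069000440006b000500001e0001500045000230003d00067000540002800056000110000c000650004e000410005e000170005a000180003500003000190005c0005b000270005900010,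
0x4600024000160003e00051000520005b00019000660004200036000040001a0005d0005c000280005a00011,
0xa00062000610003a0006a0005f0004e0000b000340006c000030002000047000250003f000440005800032000130000e000010003300057000110006b000460006d0000000050000670004300060000190005c0001b0001a0005e0005d00029000400005b00049000120003d000410004c000040003700005,
0x110005a0005c0003a0002a00031,
0x710003b000730005b000430001a0001c000600005f000000003d000330005c0004c0002e00001,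
0x72000740003c000440005c0001d00013,
0x300004e000160005e00045000350000a0003f00060,
0x6300062000010000300000,
0x6100000,
0x3000000,
0x6500000,
0x6700000,
0xc0003c000420004e0003e00069000140006c000440002600027000390006b0005700074000170002c000290007c0006e00046000730006000034000620002b0004c0004b00024000030000200000,
0xd000270003d000500004f00077000180002d000490002a0007d0006f00047000740006100035000630002c0004c000250000400001,
0x41000720003200033000390002a0005e0006e0007900016000770006b000630006d000400000100076000440005a000000006200036000640002d0004e0002e0004a0007e00070000480004d000260000400002,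
0x340007300038000420007d00033000720003a00061,
0x540002400060000010002c0001d000640004d0003800067000470007d0007f0007c00059000360006e0001b0004b0003200080000720004a000000004f0002800004000080000b00007,
0x25000510005500030000620006700068000480007e000800005a000370006f0001c00050000290004c0003300081000730004b000090000c0000800005,
0x4e0001f000010004f000000007e0006900038000490004d000700007f000340001d000810008200051000740002a0004c0000a0000d0000900006,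
0x6d00000,
0x4d00001,
0x1900001,
0x4500001,
0x6100001,
0x5700002,
0x7100002,
0x5500002,
0x6300001,
0x6300001,
0x4700001,
0x5c00001,
0x360000b00000,
0x7e00000,
0x470001c0000600000,
0x20000040000900001,
0x8f0001b00001,
0x6d0001c00002,
0x9000002,
0x6a000010000500003,
0x9000001,
0x370000f0000a00001,
0x7e00001,
0x5b00001,
0x2a0000d000120000c00000,
0x380001800001,
0x3e0000e0001900002,
0x5e00002,
0x8500002,
0x7200001,
0x6e0000d0001000001,
0x55000190001400000,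
0x7800000,
0x52000200001500000,
0x360002c00007000020000c00000,
0xa0000050002d00001,
0x69000060002d00002,
0x41000240000d00002,
0x8500002,
0x9700002,
0x73000010001100002,
0xa400002,
0x9d00001,
0x9d00001,
0x47000040000000001]

end D33

theorem inst_33 : instB 0 [0, 2] [3, 12] [] D33.base D33.gads D33.names D33.cnf D33.db D33.prf = true := by decide +kernel

/-- no gadget has fewer than `2 R` new points. -/
theorem p2_33 : D33.gads.all (fun g => Nat.ble (2 * g.R) g.gs.length) = true := by decide +kernel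

/-- there is no configuration of this instance. -/
theorem no_33 {V : Type v} [DecidableEq V] {ι : Type u} [Fintype ι] {B : ι → Finset V}
    {Q : Finset V} {i j : ι} {x : ℕ → V} {D : ℕ → Finset V}
    (h : CfI B Q 0 x D i j [0, 2] [3, 12]) : False :=
  h.absurd (by decide) srt_nil inst_33

end Pool.Agent.Hyp6
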