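import Pool.Agent.Hyp6.Cb5

/-!
# HYP6: instance 34 of the list: n = 0, bounds [0, 2], inner blocks [3, 13]

41 base clauses, 16 gadgets, 37 learned clauses.
-/

set_option autoImplicit false
set_option maxRecDepth 100000

namespace Pool.Agent.Hyp6

open Rup

universe u v

namespace D34

noncomputable def names : Tr :=
 (.node 21 (.node 10 (.node 4 (.node 1 (.node 0 (.leaf 258)
 (.leaf 130))
 (.node 2 (.leaf 2179)
 (.node 3 (.leaf 17)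
 (.leaf 257))))
 (.node 7 (.node 5 (.leaf 18)
 (.node 6 (.leaf 2114)
 (.leaf 65)))
 (.node 8 (.leaf 129)
 (.node 9 (.leaf 2307)
 (.leaf 16529)))))
 (.node 15 (.node 12 (.node 11 (.leaf 16657)
 (.leaf 16769))
 (.node 13 (.leaf 8273)
 (.node 14 (.leaf 2113)
 (.leaf 2180))))
 (.node 18 (.node 16 (.leaf 2067)
 (.node 17 (.leaf 2115)
 (.leaf 66)))
 (.node 19 (.leaf 2177)
 (.node 20 (.leaf 16513)
 (.leaf 16641))))))
 (.node 32 (.node 26 (.node 23 (.node 22 (.leaf 18561)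
 (.leaf 18689))
 (.node 24 (.leaf 18817)
 (.node 25 (.leaf 16577)
 (.leaf 16705))))
 (.node 29 (.node 27 (.leaf 18753)
 (.node 28 (.leaf 18625)
 (.leaf 82)))
 (.node 30 (.leaf 131)
 (.node 31 (.leaf 132)
 (.leaf 259)))))
 (.node 38 (.node 35 (.node 33 (.leaf 260)
 (.node 34 (.leaf 8337)
 (.leaf 8465)))
 (.node 36 (.leaf 2308)
 (.node 37 (.leaf 2305)
 (.leaf 16401))))
 (.node 41 (.node 39 (.leaf 16449)
 (.node 40 (.leaf 18497)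
 (.leaf 18705)))
 (.node 42 (.leaf 18577)
 (.node 43 (.leaf 146)
 (.leaf 274)))))))

noncomputable def base : List Rs := [
.ordE 0 16 2,
.ordE 0 16 3,
.ordE 0 32 1,
.ordE 0 32 2,
.ordE 0 32 3,
.l2 0 10 18 1 1 1,
.l2 0 10 34 1 1 1,
.ordE 1 8 1,
.ordE 1 16 3,
.deg 1 [0, 2],
.deg 3 [0, 2],
.deg 3 [1, 1],
.deg 4 [0, 3],
.deg 4 [1, 2],
.deg 4 [3, 0],
.deg 5 [0, 3],
.deg 5 [1, 2],
.deg 5 [3, 0],
.ab 0 1,
.ab 0 3,
.ab 0 4,
.ab 0 5,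
.ab 1 3,
.ab 1 4,
.ab 1 5,
.hall [0] [3, 4],
.hall [1] [3, 4],
.part [18, 32] [0, 0] [13] [],
.part [34, 16] [0, 0] [13] [],
.part [2, 48] [0, 0] [13] [],
.part [16, 34] [0, 0] [13] [],
.part [32, 18] [0, 0] [13] [],
.part [24, 32] [0, 0] [7] [],
.part [40, 16] [0, 0] [7] [],
.part [8, 48] [0, 0] [7] [],
.part [48, 8] [0, 0] [7] [],
.part [16, 40] [0, 0] [7] [],
.part [32, 24] [0, 0] [7] [],
.join 0 2 4 2 1 1 [(1, 0)],
.join 0 2 5 2 1 1 [(1, 0)],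
.join 0 2 3 2 1 1 [(1, 0)]]

noncomputable def gads : List Gt := [
⟨0, [⟨8, 2, []⟩, ⟨32, 2, []⟩], [3, 3, 3], 1, [(40, 1)]⟩,
⟨0, [⟨8, 2, []⟩, ⟨16, 2, []⟩], [3, 3, 3], 1, [(24, 1)]⟩,
⟨0, [⟨2, 2, []⟩, ⟨32, 2, []⟩], [3, 3, 3], 1, [(34, 1)]⟩,
⟨0, [⟨2, 2, []⟩, ⟨16, 2, []⟩], [3, 3, 3], 1, [(18, 1)]⟩,
⟨0, [⟨16, 2, []⟩, ⟨32, 2, []⟩], [3, 3, 3], 1, [(48, 1)]⟩,
⟨1, [⟨8, 3, []⟩, ⟨32, 3, []⟩], [3, 3], 1, [(40, 1)]⟩,
⟨1, [⟨8, 3, []⟩, ⟨16, 3, []⟩], [3, 3], 1, [(24, 1)]⟩,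
⟨1, [⟨16, 3, []⟩, ⟨32, 3, []⟩], [3, 3], 1, [(48, 1)]⟩,
⟨1, [⟨2, 3, []⟩, ⟨16, 3, []⟩], [3, 3], 1, [(18, 1)]⟩,
⟨1, [⟨2, 3, []⟩, ⟨32, 3, []⟩], [3, 3], 1, [(34, 1)]⟩,
⟨1, [⟨8, 2, []⟩, ⟨16, 4, []⟩], [3, 1, 1], 1, [(24, 1)]⟩,
⟨1, [⟨8, 2, []⟩, ⟨32, 4, []⟩], [3, 1, 1], 1, [(40, 1)]⟩,
⟨0, [⟨18, 2, []⟩, ⟨32, 2, []⟩], [3, 3, 3], 1, [(34, 1), (48, 1)]⟩,
⟨0, [⟨34, 2, []⟩, ⟨16, 2, []⟩], [3, 3, 3], 1, [(18, 1), (48, 1)]⟩,
⟨0, [⟨10, 2, []⟩, ⟨32, 2, []⟩], [3, 3, 3], 1, [(34, 1), (40, 1)]⟩,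
⟨0, [⟨10, 2, []⟩, ⟨16, 2, []⟩], [3, 3, 3], 1, [(18, 1), (24, 1)]⟩]

noncomputable def cnf : List (List ℕ) := [
[61, 2],
[63, 60],
[1, 8],
[65, 0],
[67, 64],
[27, 69, 10],
[27, 71, 10],
[13, 28],
[31, 4],
[6, 32],
[14, 34],
[36, 12],
[16, 30],
[2, 4],
[62, 38],
[8, 72],
[0, 18],
[66, 74],
[7, 77],
[15, 79],
[17, 41],
[9, 43],
[29, 81],
[39, 45],
[75, 47],
[14, 16],
[28, 38],
[20, 46],
[22, 44],
[76, 48],
[40, 82],
[42, 84],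
[50, 46],
[52, 44],
[78, 48],
[24, 80],
[40, 54],
[42, 56],
[7, 17, 86, 68],
[7, 9, 88, 70],
[7, 15, 58, 26],
[37, 1, 53],
[37, 3, 51],
[11, 1, 23],
[11, 3, 21],
[3, 1, 25],
[35, 19, 55],
[35, 5, 57],
[5, 19, 49],
[33, 5, 85],
[33, 19, 83],
[13, 31, 57],
[13, 73, 55],
[87, 1, 23, 25],
[89, 3, 21, 25],
[59, 1, 23, 53],
[59, 3, 21, 51]]

noncomputable def db : Tr :=
 (.node 47 (.node 23 (.node 11 (.node 5 (.node 2 (.node 1 (.leaf 0x4003f)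
 (.leaf 0x3e0041))
 (.node 3 (.leaf 0xa0003)
 (.node 4 (.leaf 0x20043)
 (.leaf 0x420045))))
 (.node 8 (.node 6 (.leaf 0xc0047001d)
 (.node 7 (.leaf 0xc0049001d)
 (.leaf 0x1e000f)))
 (.node 9 (.leaf 0x60021)
 (.node 10 (.leaf 0x220008)
 (.leaf 0x240010)))))
 (.node 17 (.node 14 (.node 12 (.leaf 0xe0026)
 (.node 13 (.leaf 0x200012)
 (.leaf 0x60004)))
 (.node 15 (.leaf 0x280040)
 (.node 16 (.leaf 0x4a000a)
 (.leaf 0x140002))))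
 (.node 20 (.node 18 (.leaf 0x4c0044)
 (.node 19 (.leaf 0x4f0009)
 (.leaf 0x510011)))
 (.node 21 (.leaf 0x2b0013)
 (.node 22 (.leaf 0x2d000b)
 (.leaf 0x53001f))))))
 (.node 35 (.node 29 (.node 26 (.node 24 (.leaf 0x2f0029)
 (.node 25 (.leaf 0x31004d)
 (.leaf 0x120010)))
 (.node 27 (.leaf 0x28001e)
 (.node 28 (.leaf 0x300016)
 (.leaf 0x2e0018))))
 (.node 32 (.node 30 (.leaf 0x32004e)
 (.node 31 (.leaf 0x54002a)
 (.leaf 0x56002c)))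
 (.node 33 (.leaf 0x300034)
 (.node 34 (.leaf 0x2e0036)
 (.leaf 0x320050)))))
 (.node 41 (.node 38 (.node 36 (.leaf 0x52001a)
 (.node 37 (.leaf 0x38002a)
 (.leaf 0x3a002c)))
 (.node 39 (.leaf 0x46005800130009)
 (.node 40 (.leaf 0x48005a000b0009)
 (.leaf 0x1c003c00110009))))
 (.node 44 (.node 42 (.leaf 0x3700030027)
 (.node 43 (.leaf 0x3500050027)
 (.leaf 0x190003000d)))
 (.node 45 (.leaf 0x170005000d)
 (.node 46 (.leaf 0x1b00030005)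
 (.leaf 0x3900150025)))))))
 (.node 70 (.node 58 (.node 52 (.node 49 (.node 48 (.leaf 0x3b00070025)
 (.leaf 0x3300150007))
 (.node 50 (.leaf 0x5700070023)
 (.node 51 (.leaf 0x5500150023)
 (.leaf 0x3b0021000f))))
 (.node 55 (.node 53 (.leaf 0x39004b000f)
 (.node 54 (.leaf 0x1b001900030059)
 (.leaf 0x1b00170005005b)))
 (.node 56 (.leaf 0x3700190003003d)
 (.node 57 (.leaf 0x3500170005003d)
 (.leaf 0x59001b0003)))))
 (.node 64 (.node 61 (.node 59 (.leaf 0x5b001b0005)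
 (.node 60 (.leaf 0x150007)
 (.leaf 0x3d0002)))
 (.node 62 (.leaf 0x3001e)
 (.node 63 (.leaf 0x3d)
 (.leaf 0x3))))
 (.node 67 (.node 65 (.leaf 0x43)
 (.node 66 (.leaf 0x14)
 (.leaf 0x45)))
 (.node 68 (.leaf 0x7)
 (.node 69 (.leaf 0x4c)
 (.leaf 0x21))))))
 (.node 82 (.node 76 (.node 73 (.node 71 (.leaf 0x4)
 (.node 72 (.leaf 0x31)
 (.leaf 0x12)))
 (.node 74 (.leaf 0x16)
 (.node 75 (.leaf 0x34)
 (.leaf 0x2b))))
 (.node 79 (.node 77 (.leaf 0xd)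
 (.node 78 (.leaf 0x27)
 (.leaf 0x54)))
 (.node 80 (.leaf 0x38)
 (.node 81 (.leaf 0xe)
 (.leaf 0x23)))))
 (.node 88 (.node 85 (.node 83 (.leaf 0x25)
 (.node 84 (.leaf 0x4b)
 (.leaf 0x1e)))
 (.node 86 (.leaf 0x8)
 (.node 87 (.leaf 0x10)
 (.leaf 0xa))))
 (.node 91 (.node 89 (.leaf 0x53)
 (.node 90 (.leaf 0x1c)
 (.leaf 0x1a)))
 (.node 92 (.leaf 0x49)
 (.node 93 (.leaf 0x5b)
 (.leaf 0x0))))))))

noncomputable def prf : List ℕ := [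
0x2a00021000370001c00038000030000b,
0x280003500021000360001e0000c00003,
0x1c000260000800021000310002700028000180001d0000a,
0x2e000030001b00020000230002a000370002b00038,
0x1b0001300025000310002200035,
0x60001c00021000260002f0003c0003d000100001a000270000000001,
0x320000b00018000330003900015000130001d0002200016000270003400035000300000f0000d0003d000310003e00011000050001b000190001f0002800029000010003c00000,
0x3c00000,
0x3000001,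
0x3d00001,
0x700001,
0x3200001,
0x3c00001,
0x3800002,
0x2e00002,
0x3b00002,
0x2d00001,
0x2900002,
0x3600002,
0x1f0000500002,
0x220000600002,
0x2f00002,
0x2a00003,
0x4400002,
0x1e0000f00002,
0x230001000002,
0x1e0000200003,
0x4c00003,
0x4b00003,
0x4b00003,
0x4700003,
0x4100003,
0x300001a0000200003,
0x3600001,
0x540000e00001,
0x210001500001,
0x3500007000050000000001]

end D34

theorem inst_34 : instB 0 [0, 2] [3, 13] [] D34.base D34.gads D34.names D34.cnf D34.db D34.prf = true := by decide +kernel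

/-- no gadget has fewer than `2 R` new points. -/
theorem p2_34 : D34.gads.all (fun g => Nat.ble (2 * g.R) g.gs.length) = true := by decide +kernel

/-- there is no configuration of this instance. -/
theorem no_34 {V : Type v} [DecidableEq V] {ι : Type u} [Fintype ι] {B : ι → Finset V}
    {Q : Finset V} {i j : ι} {x : ℕ → V} {D : ℕ → Finset V}
    (h : CfI B Q 0 x D i j [0, 2] [3, 13]) : False :=
  h.absurd (by decide) srt_nil inst_34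

end Pool.Agent.Hyp6
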