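import Pool.Agent.Hyp6.Cb5

/-!
# HYP6: instance 36 of the list: n = 0, bounds [0, 2], inner blocks [3, 25]

86 base clauses, 27 gadgets, 51 learned clauses.
-/

set_option autoImplicit false
set_option maxRecDepth 100000

namespace Pool.Agent.Hyp6

open Rup

universe u v

namespace D36

noncomputable def names : Tr :=
 (.node 44 (.node 21 (.node 10 (.node 4 (.node 1 (.node 0 (.leaf 258)
 (.leaf 2307))
 (.node 2 (.leaf 17)
 (.node 3 (.leaf 16705)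
 (.leaf 18705))))
 (.node 7 (.node 5 (.leaf 65)
 (.node 6 (.leaf 16769)
 (.leaf 129)))
 (.node 8 (.leaf 33)
 (.node 9 (.leaf 34)
 (.leaf 2083)))))
 (.node 15 (.node 12 (.node 11 (.leaf 130)
 (.leaf 16673))
 (.node 13 (.leaf 257)
 (.node 14 (.leaf 18)
 (.leaf 66))))
 (.node 18 (.node 16 (.leaf 16433)
 (.node 17 (.leaf 16657)
 (.leaf 9)))
 (.node 19 (.leaf 2081)
 (.node 20 (.leaf 8273)
 (.leaf 8337))))))
 (.node 32 (.node 26 (.node 23 (.node 22 (.leaf 2177)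
 (.leaf 2065))
 (.node 24 (.leaf 2066)
 (.node 25 (.leaf 16577)
 (.leaf 18753))))
 (.node 29 (.node 27 (.leaf 16649)
 (.node 28 (.leaf 18481)
 (.leaf 18449)))
 (.node 30 (.leaf 2340)
 (.node 31 (.leaf 10529)
 (.leaf 8465)))))
 (.node 38 (.node 35 (.node 33 (.leaf 2084)
 (.node 34 (.leaf 8241)
 (.leaf 8289)))
 (.node 36 (.leaf 2308)
 (.node 37 (.leaf 2114)
 (.leaf 2115))))
 (.node 41 (.node 39 (.leaf 2179)
 (.node 40 (.leaf 18721)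
 (.leaf 18689)))
 (.node 42 (.leaf 2305)
 (.node 43 (.leaf 16641)
 (.leaf 18817)))))))
 (.node 66 (.node 55 (.node 49 (.node 46 (.node 45 (.leaf 2067)
 (.leaf 74))
 (.node 47 (.leaf 8265)
 (.node 48 (.leaf 2082)
 (.leaf 8577))))
 (.node 52 (.node 50 (.leaf 322)
 (.node 51 (.leaf 8513)
 (.leaf 18497)))
 (.node 53 (.leaf 16513)
 (.node 54 (.leaf 146)
 (.leaf 386)))))
 (.node 60 (.node 57 (.node 56 (.leaf 18674)
 (.leaf 18593))
 (.node 58 (.leaf 18561)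
 (.node 59 (.leaf 10434)
 (.leaf 10433))))
 (.node 63 (.node 61 (.leaf 16481)
 (.node 62 (.leaf 67)
 (.leaf 2113)))
 (.node 64 (.leaf 2057)
 (.node 65 (.leaf 18441)
 (.leaf 82))))))
 (.node 77 (.node 71 (.node 68 (.node 67 (.leaf 16401)
 (.leaf 18577))
 (.node 69 (.leaf 16417)
 (.node 70 (.leaf 18513)
 (.leaf 274))))
 (.node 74 (.node 72 (.leaf 19)
 (.node 73 (.leaf 98)
 (.leaf 8290)))
 (.node 75 (.leaf 10321)
 (.node 76 (.leaf 18625)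
 (.leaf 8329)))))
 (.node 83 (.node 80 (.node 78 (.leaf 18465)
 (.node 79 (.leaf 138)
 (.leaf 131)))
 (.node 81 (.leaf 2212)
 (.node 82 (.leaf 10401)
 (.leaf 16449))))
 (.node 86 (.node 84 (.leaf 50)
 (.node 85 (.leaf 2306)
 (.leaf 18529)))
 (.node 87 (.leaf 2178)
 (.node 88 (.leaf 2243)
 (.leaf 2131))))))))

noncomputable def base : List Rs := [
.part [36, 2] [0, 0] [25] [],
.join 0 1 3 2 1 1 [(0, 0)],
.ordE 1 4 1,
.join 1 4 5 4 1 3 [(2, 0)],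
.l2 0 34 48 5 1 1,
.join 0 8 5 2 1 1 [(3, 0)],
.l2 0 10 18 1 1 1,
.part [48, 8] [0, 0] [7] [],
.ab 0 4,
.join 0 2 4 2 1 1 [(1, 0)],
.join 0 16 5 2 1 1 [(4, 0)],
.hall [0] [3, 4],
.lipl 1 20 30 0 10,
.ab 1 4,
.deg 2 [0, 3],
.l2 0 6 12 2 1 1,
.ordL 1 24 1,
.ordE 1 32 3,
.ab2 0 12,
.deg 3 [1, 1],
.hall [1] [1, 2],
.deg 3 [2, 0],
.deg 3 [0, 2],
.ab 1 0,
.join 0 2 3 2 1 1 [(1, 0)],
.ab 0 1,
.part [40, 18] [0, 0] [5] [],
.deg 4 [0, 2],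
.ab 0 2,
.part [48, 10] [0, 0] [5] [],
.join 0 2 5 2 1 1 [(1, 0)],
.deg 1 [2, 0],
.join 0 4 3 2 0 3 [(2, 1)],
.ab 1 3,
.hall [0, 1] [0],
.ab2 1 10,
.deg 2 [1, 2],
.ab2 1 24,
.l2 0 17 18 4 1 1,
.deg 1 [1, 1],
.ab2 1 36,
.ordE 1 4 2,
.l2 0 9 10 3 1 1,
.ab 1 2,
.part [2, 36] [0, 0] [25] [],
.ab2 0 6,
.part [24, 32] [0, 0] [7] [],
.join 1 4 5 4 4 0 [(2, 0)],
.hall [1] [4, 5],
.mono 1 2 34 1,
.part [34, 4] [0, 0] [25] [],
.part [32, 24] [0, 0] [7] [],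
.ab 1 5,
.join 0 1 4 2 1 1 [(0, 0)],
.part [16, 40] [0, 0] [7] [],
.part [6, 1] [0, 0] [56] [],
.deg 5 [0, 3],
.part [40, 16] [0, 0] [7] [],
.part [33, 30] [0, 1] [] [],
.deg 4 [2, 0],
.join 1 4 4 4 4 0 [(2, 0)],
.ordE 0 4 1,
.part [8, 48] [0, 0] [7] [],
.ordE 0 16 2,
.join 0 2 2 2 1 1 [(1, 0)],
.ab 1 1,
.ordE 1 32 2,
.deg 5 [1, 2],
.ab 0 5,
.ordE 0 2 2,
.part [33, 12] [0, 0] [] [(0, 18)],
.hall [0] [1, 2],
.ordL 0 12 1,
.part [4, 34] [0, 0] [25] [],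
.ordE 1 32 1,
.deg 4 [1, 1],
.hall [0] [0, 2],
.join 1 8 4 3 2 2 [(3, 1)],
.part [12, 34] [0, 0] [17] [],
.part [6, 32] [0, 0] [25] [],
.part [32, 6] [0, 0] [25] [],
.le 1 20 16 4 1,
.ab 0 3,
.l2 0 34 40 5 1 1,
.join 1 2 3 3 1 2 [(1, 0)],
.deg 1 [0, 2]]

noncomputable def gads : List Gt := [
⟨1, [⟨2, 3, []⟩, ⟨4, 3, []⟩], [3, 3], 1, [(6, 1)]⟩,
⟨1, [⟨16, 3, []⟩, ⟨32, 3, []⟩], [3, 3], 1, [(48, 1)]⟩,
⟨0, [⟨10, 2, []⟩, ⟨32, 2, []⟩], [3, 3, 3], 1, [(34, 1), (40, 1)]⟩,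
⟨1, [⟨4, 3, []⟩, ⟨32, 3, []⟩], [3, 3], 1, [(36, 1)]⟩,
⟨0, [⟨9, 2, []⟩, ⟨32, 2, []⟩], [3, 3, 3], 1, [(33, 1), (40, 1)]⟩,
⟨1, [⟨2, 2, []⟩, ⟨36, 4, []⟩], [3, 1, 1], 1, [(6, 1), (34, 1)]⟩,
⟨0, [⟨16, 2, []⟩, ⟨32, 2, []⟩], [3, 3, 3], 1, [(48, 1)]⟩,
⟨0, [⟨12, 2, []⟩, ⟨32, 2, []⟩], [3, 3, 3], 1, [(36, 1), (40, 1)]⟩,
⟨0, [⟨40, 2, []⟩, ⟨16, 2, []⟩], [3, 3, 3], 1, [(24, 1), (48, 1)]⟩,
⟨1, [⟨8, 3, []⟩, ⟨32, 3, []⟩], [3, 3], 1, [(40, 1)]⟩,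
⟨1, [⟨4, 3, []⟩, ⟨16, 3, []⟩], [3, 3], 1, [(20, 1)]⟩,
⟨0, [⟨48, 2, []⟩, ⟨8, 2, []⟩], [3, 3, 3], 1, [(24, 1), (40, 1)]⟩,
⟨0, [⟨18, 2, []⟩, ⟨32, 2, []⟩], [3, 3, 3], 1, [(34, 1), (48, 1)]⟩,
⟨0, [⟨2, 2, []⟩, ⟨32, 2, []⟩], [3, 3, 3], 1, [(34, 1)]⟩,
⟨1, [⟨2, 2, []⟩, ⟨20, 4, []⟩], [3, 1, 1], 1, [(6, 1), (18, 1)]⟩,
⟨0, [⟨2, 2, []⟩, ⟨4, 2, []⟩], [3, 3, 3], 1, [(6, 1)]⟩,
⟨0, [⟨34, 2, []⟩, ⟨4, 2, []⟩], [3, 3, 3], 1, [(6, 1), (36, 1)]⟩,
⟨1, [⟨2, 3, []⟩, ⟨32, 3, []⟩], [3, 3], 1, [(34, 1)]⟩,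
⟨1, [⟨24, 3, []⟩, ⟨32, 3, []⟩], [3, 3], 1, [(40, 1), (48, 1)]⟩,
⟨0, [⟨4, 2, []⟩, ⟨32, 2, []⟩], [3, 3, 3], 1, [(36, 1)]⟩,
⟨1, [⟨2, 2, []⟩, ⟨32, 4, []⟩], [3, 1, 1], 1, [(34, 1)]⟩,
⟨0, [⟨17, 2, []⟩, ⟨32, 2, []⟩], [3, 3, 3], 1, [(33, 1), (48, 1)]⟩,
⟨1, [⟨4, 3, []⟩, ⟨8, 3, []⟩], [3, 3], 1, [(12, 1)]⟩,
⟨1, [⟨10, 3, []⟩, ⟨32, 3, []⟩], [3, 3], 1, [(34, 1), (40, 1)]⟩,
⟨0, [⟨6, 2, []⟩, ⟨32, 2, []⟩], [3, 3, 3], 1, [(34, 1), (36, 1)]⟩,
⟨0, [⟨8, 2, []⟩, ⟨16, 2, []⟩], [3, 3, 3], 1, [(24, 1)]⟩,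
⟨0, [⟨8, 2, []⟩, ⟨32, 2, []⟩], [3, 3, 3], 1, [(40, 1)]⟩]

noncomputable def cnf : List (List ℕ) := [
[24, 58],
[37, 11, 92, 94],
[97, 38],
[39, 3, 60, 62],
[65, 99, 0],
[11, 27, 100, 102],
[41, 43, 28],
[12, 104],
[15, 107],
[5, 15, 108, 42],
[15, 27, 110, 98],
[10, 14],
[41, 113, 114],
[45, 117],
[16, 66],
[69, 71, 18],
[119, 120],
[73, 2],
[71, 123],
[30, 74],
[46, 38],
[124, 126],
[10, 76],
[129, 131],
[5, 11, 132, 40],
[5, 135],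
[6, 136],
[14, 78],
[17, 139],
[12, 140],
[5, 27, 142, 64],
[144, 46],
[125, 146, 148],
[127, 105],
[36, 128],
[151, 141],
[18, 20],
[121, 153],
[155, 43, 22],
[28, 48],
[63, 81],
[21, 96],
[95, 41, 30],
[39, 157],
[134, 80],
[69, 33],
[50, 82],
[67, 60, 62],
[44, 84],
[59, 8],
[34, 156],
[86, 152],
[85, 83],
[37, 15, 158, 154],
[106, 52],
[32, 130],
[26, 72],
[6, 116],
[54, 112],
[160, 44],
[67, 162, 164],
[19, 16],
[166, 88],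
[161, 22],
[5, 17, 168, 68],
[47, 59],
[3, 170],
[0, 2],
[27, 87],
[145, 28],
[54, 172, 43],
[4, 16],
[149, 70],
[138, 8],
[171, 84],
[22, 174],
[36, 16],
[75, 175, 176, 118],
[122, 8],
[32, 82],
[86, 56],
[165, 44],
[11, 167],
[65, 103, 0],
[47, 75, 178, 150],
[4, 90],
[91, 21, 57],
[79, 3, 89],
[133, 1, 35, 7],
[21, 3, 81],
[93, 1, 55, 7],
[49, 61, 57, 9],
[23, 1, 13],
[147, 1, 25, 7],
[101, 23, 51, 13],
[77, 3, 53],
[21, 79, 115],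
[111, 31, 51, 7],
[109, 1, 35, 13],
[29, 1, 35],
[49, 163, 57, 137],
[29, 19, 33],
[143, 19, 33, 25],
[91, 3, 9],
[177, 3, 53, 89],
[19, 1, 25],
[49, 73, 9],
[159, 1, 55, 13],
[21, 77, 173],
[179, 3, 9, 53],
[169, 1, 35, 25],
[31, 23, 51],
[31, 1, 7]]

noncomputable def db : Tr :=
 (.node 82 (.node 41 (.node 20 (.node 10 (.node 5 (.node 2 (.node 1 (.leaf 0x3c001a)
 (.leaf 0x60005e000d0027))
 (.node 3 (.leaf 0x280063)
 (.node 4 (.leaf 0x40003e00050029)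
 (.leaf 0x200650043))))
 (.node 7 (.node 6 (.leaf 0x680066001d000d)
 (.leaf 0x1e002d002b))
 (.node 8 (.leaf 0x6a000e)
 (.node 9 (.leaf 0x6d0011)
 (.leaf 0x2c006e00110007)))))
 (.node 15 (.node 12 (.node 11 (.leaf 0x640070001d0011)
 (.leaf 0x10000c))
 (.node 13 (.leaf 0x740073002b)
 (.node 14 (.leaf 0x77002f)
 (.leaf 0x440012))))
 (.node 17 (.node 16 (.leaf 0x1400490047)
 (.leaf 0x7a0079))
 (.node 18 (.leaf 0x4004b)
 (.node 19 (.leaf 0x7d0049)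
 (.leaf 0x4c0020))))))
 (.node 30 (.node 25 (.node 22 (.node 21 (.leaf 0x280030)
 (.leaf 0x80007e))
 (.node 23 (.leaf 0x4e000c)
 (.node 24 (.leaf 0x850083)
 (.leaf 0x2a0086000d0007))))
 (.node 27 (.node 26 (.leaf 0x890007)
 (.leaf 0x8a0008))
 (.node 28 (.leaf 0x500010)
 (.node 29 (.leaf 0x8d0013)
 (.leaf 0x8e000e)))))
 (.node 35 (.node 32 (.node 31 (.leaf 0x420090001d0007)
 (.leaf 0x300092))
 (.node 33 (.leaf 0x960094007f)
 (.node 34 (.leaf 0x6b0081)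
 (.leaf 0x820026))))
 (.node 38 (.node 36 (.leaf 0x8f0099)
 (.node 37 (.leaf 0x160014)
 (.leaf 0x9b007b)))
 (.node 39 (.leaf 0x18002d009d)
 (.node 40 (.leaf 0x32001e)
 (.leaf 0x530041)))))))
 (.node 61 (.node 51 (.node 46 (.node 43 (.node 42 (.leaf 0x620017)
 (.leaf 0x20002b0061))
 (.node 44 (.leaf 0x9f0029)
 (.node 45 (.leaf 0x520088)
 (.leaf 0x230047))))
 (.node 48 (.node 47 (.leaf 0x540034)
 (.leaf 0x40003e0045))
 (.node 49 (.leaf 0x56002e)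
 (.node 50 (.leaf 0xa003d)
 (.leaf 0x9e0024)))))
 (.node 56 (.node 53 (.node 52 (.leaf 0x9a0058)
 (.leaf 0x550057))
 (.node 54 (.leaf 0x9c00a000110027)
 (.node 55 (.leaf 0x36006c)
 (.leaf 0x840022))))
 (.node 58 (.node 57 (.leaf 0x4a001c)
 (.leaf 0x760008))
 (.node 59 (.leaf 0x720038)
 (.node 60 (.leaf 0x2e00a2)
 (.leaf 0xa600a40045))))))
 (.node 71 (.node 66 (.node 63 (.node 62 (.leaf 0x120015)
 (.leaf 0x5a00a8))
 (.node 64 (.leaf 0x1800a3)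
 (.node 65 (.leaf 0x4600aa00130007)
 (.leaf 0x3d0031))))
 (.node 68 (.node 67 (.leaf 0xac0005)
 (.leaf 0x40002))
 (.node 69 (.leaf 0x59001d)
 (.node 70 (.leaf 0x1e0093)
 (.leaf 0x2d00ae0038)))))
 (.node 76 (.node 73 (.node 72 (.leaf 0x120006)
 (.leaf 0x480097))
 (.node 74 (.leaf 0xa008c)
 (.node 75 (.leaf 0x5600ad)
 (.leaf 0xb00018))))
 (.node 79 (.node 77 (.leaf 0x120026)
 (.node 78 (.leaf 0x7800b200b1004d)
 (.leaf 0xa007c)))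
 (.node 80 (.leaf 0x540022)
 (.node 81 (.leaf 0x3a0058)
 (.leaf 0x2e00a7))))))))
 (.node 123 (.node 102 (.node 92 (.node 87 (.node 84 (.node 83 (.leaf 0xa9000d)
 (.leaf 0x200690043))
 (.node 85 (.leaf 0x9800b4004d0031)
 (.node 86 (.leaf 0x5c0006)
 (.leaf 0x3b0017005d))))
 (.node 89 (.node 88 (.leaf 0x5b00050051)
 (.leaf 0x9002500030087))
 (.node 90 (.leaf 0x5300050017)
 (.node 91 (.leaf 0x900390003005f)
 (.leaf 0xb003b003f0033)))))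
 (.node 97 (.node 94 (.node 93 (.leaf 0xf00030019)
 (.leaf 0x9001b00030095))
 (.node 95 (.leaf 0xf003500190067)
 (.node 96 (.leaf 0x370005004f)
 (.leaf 0x7500510017))))
 (.node 99 (.node 98 (.leaf 0x9003500210071)
 (.leaf 0xf00250003006f))
 (.node 100 (.leaf 0x250003001f)
 (.node 101 (.leaf 0x8b003b00a50033)
 (.leaf 0x230015001f))))))
 (.node 112 (.node 107 (.node 104 (.node 103 (.leaf 0x1b002300150091)
 (.leaf 0xb0005005d))
 (.node 105 (.leaf 0x5b0037000500b3)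
 (.node 106 (.leaf 0x1b00030015)
 (.leaf 0xb004b0033))))
 (.node 109 (.node 108 (.leaf 0xf0039000300a1)
 (.leaf 0xaf004f0017))
 (.node 110 (.leaf 0x37000b000500b5)
 (.node 111 (.leaf 0x1b0025000300ab)
 (.leaf 0x3500190021)))))
 (.node 117 (.node 114 (.node 113 (.leaf 0x900030021)
 (.leaf 0x150003))
 (.node 115 (.leaf 0x5d0015)
 (.node 116 (.leaf 0x5d0017)
 (.leaf 0x5d))))
 (.node 120 (.node 118 (.leaf 0x6)
 (.node 119 (.leaf 0x89)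
 (.leaf 0x52)))
 (.node 121 (.leaf 0x41)
 (.node 122 (.leaf 0xa000d0009)
 (.leaf 0x120008)))))))
 (.node 143 (.node 133 (.node 128 (.node 125 (.node 124 (.leaf 0xa)
 (.leaf 0x9000c))
 (.node 126 (.leaf 0x900130017)
 (.node 127 (.leaf 0x90015003b0033)
 (.leaf 0x90015))))
 (.node 130 (.node 129 (.leaf 0x9)
 (.leaf 0x76))
 (.node 131 (.leaf 0x12)
 (.node 132 (.leaf 0x2f)
 (.leaf 0x56)))))
 (.node 138 (.node 135 (.node 134 (.leaf 0xa2)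
 (.leaf 0x55))
 (.node 136 (.leaf 0x18)
 (.node 137 (.leaf 0x34)
 (.leaf 0x22))))
 (.node 140 (.node 139 (.leaf 0x21)
 (.leaf 0x47))
 (.node 141 (.leaf 0x4c)
 (.node 142 (.leaf 0xaa)
 (.leaf 0x30025))))))
 (.node 153 (.node 148 (.node 145 (.node 144 (.leaf 0x17)
 (.leaf 0x14))
 (.node 146 (.leaf 0x3)
 (.node 147 (.leaf 0x1f)
 (.leaf 0x4))))
 (.node 150 (.node 149 (.leaf 0x32)
 (.leaf 0x93))
 (.node 151 (.leaf 0x4b)
 (.node 152 (.leaf 0x30)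
 (.leaf 0x1c)))))
 (.node 158 (.node 155 (.node 154 (.leaf 0x3d)
 (.leaf 0x1a))
 (.node 156 (.leaf 0x91)
 (.node 157 (.leaf 0x42)
 (.leaf 0x69))))
 (.node 161 (.node 159 (.leaf 0xd)
 (.node 160 (.leaf 0x10)
 (.leaf 0x4e)))
 (.node 162 (.leaf 0x6d)
 (.node 163 (.leaf 0x37)
 (.leaf 0x0)))))))))

noncomputable def prf : List ℕ := [
0xd0003e0002b00045000510005c0002f0007000007,
0x2e0000a000280005500034,
0x2b00059000560004600029000190000b000610003a0002e000220001c,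
0x4f00001,
0x1f00000,
0x5c00000,
0x4a00000,
0x4f00000,
0x5d000180006f0006c000160003e000710001e0005700077000630004e000720005800060000080001b0002000078000470002c00030000660002a00015000460004d000760004f000350001f000540003b0005c0002f0000300001,
0x280003d0006c00015000400005f0006b000290003500041000680005200016000470004e00077000500003600020000550003c00002,
0xf00045000340005400071000180001e00073000590000e00065000640006f0005a000010001d00000000480004f0003700078000210005100056000320002e0003d000680005e0007a0002c00031000490000500003,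
0x1000046000350005500072000190001f000740005a0005900066000640005b00044000330004e0006c0003b0000d0001e0007b0006d0003a0004c0005c000200003600054000180004900050000790000f000520002b00057000370000a00043000380006a0001c00045000730006500070000060000300000,
0x1c000610007000073000420001a00022000750007b0005b0005a00067000650005c00045000340004f0006d0003c0000e0001f0007c0003b00052000760005d000640003700024000190004a0000c0000b00051000390007a0002300053000000000700005,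
0x1f00060000320005a00030000290006a0001c00078000730002a000790005f000170007d0003c000690007a0006d000580004a000390004500013000220004f0002e00049000330003b0001000015000470007500062000260003a0000c0003f0002b00001000080000500002,
0x3a0002e00046000000001400057000190002f0004a000340003c0003b0000d00003,
0x24000580002f0001c0003b0004d000500004700054000710003c0006e0007d0000200026000560005b00000000040000700008,
0x4700000,
0x700001,
0x7500001,
0x5300000,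
0x4900001,
0x5100001,
0x4700001,
0x5900001,
0x3900002,
0x1a0000100002,
0x5d00001,
0x7800001,
0x4c0000a0001700001,
0x4c0006e0008d000480001f0002a00000,
0x5c000630004b0008c000350006500017,
0x6b00000,
0x1f00000,
0x2c0000800001,
0x4f00001,
0x6c00001,
0x4f00002,
0x2b0001a00001,
0x7700001,
0x5f00001,
0x5700001,
0x9900000,
0x340000a0001100000,
0x7d000030002600000,
0x490000b00000,
0x300006700049000950007a0008200080000460003f0005f000980004b0000a00022000060001100015000160000500000,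
0x9300000,
0x8900001,
0x9800001,
0x420000e00001,
0x6c0000000001]

end D36

theorem inst_36 : instB 0 [0, 2] [3, 25] [] D36.base D36.gads D36.names D36.cnf D36.db D36.prf = true := by decide +kernel

/-- no gadget has fewer than `2 R` new points. -/
theorem p2_36 : D36.gads.all (fun g => Nat.ble (2 * g.R) g.gs.length) = true := by decide +kernel

/-- there is no configuration of this instance. -/
theorem no_36 {V : Type v} [DecidableEq V] {ι : Type u} [Fintype ι] {B : ι → Finset V}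
    {Q : Finset V} {i j : ι} {x : ℕ → V} {D : ℕ → Finset V}
    (h : CfI B Q 0 x D i j [0, 2] [3, 25]) : False :=
  h.absurd (by decide) srt_nil inst_36

end Pool.Agent.Hyp6
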