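import Pool.Agent.Hyp6.Cb5

/-!
# HYP6: instance 37 of the list: n = 0, bounds [0, 2], inner blocks [3, 28]

85 base clauses, 33 gadgets, 53 learned clauses.
-/

set_option autoImplicit false
set_option maxRecDepth 100000

namespace Pool.Agent.Hyp6

open Rup

universe u v

namespace D37

noncomputable def names : Tr :=
 (.node 45 (.node 22 (.node 10 (.node 4 (.node 1 (.node 0 (.leaf 258)
 (.leaf 2307))
 (.node 2 (.leaf 18)
 (.node 3 (.leaf 10)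
 (.leaf 9))))
 (.node 7 (.node 5 (.leaf 17)
 (.node 6 (.leaf 66)
 (.leaf 2067)))
 (.node 8 (.leaf 2057)
 (.node 9 (.leaf 2065)
 (.leaf 130)))))
 (.node 16 (.node 13 (.node 11 (.leaf 18721)
 (.node 12 (.leaf 16673)
 (.leaf 18705)))
 (.node 14 (.leaf 18697)
 (.node 15 (.leaf 2114)
 (.leaf 2059))))
 (.node 19 (.node 17 (.leaf 129)
 (.node 18 (.leaf 65)
 (.leaf 16649)))
 (.node 20 (.leaf 16657)
 (.node 21 (.leaf 18817)
 (.leaf 8337))))))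
 (.node 33 (.node 27 (.node 24 (.node 23 (.leaf 2178)
 (.leaf 33))
 (.node 25 (.leaf 2179)
 (.node 26 (.leaf 8273)
 (.leaf 10385))))
 (.node 30 (.node 28 (.leaf 8265)
 (.node 29 (.leaf 8329)
 (.leaf 16705)))
 (.node 31 (.leaf 2115)
 (.node 32 (.leaf 16769)
 (.leaf 18753)))))
 (.node 39 (.node 36 (.node 34 (.leaf 34)
 (.node 35 (.leaf 2082)
 (.leaf 2123)))
 (.node 37 (.leaf 2177)
 (.node 38 (.leaf 10377)
 (.leaf 16393))))
 (.node 42 (.node 40 (.leaf 18689)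
 (.node 41 (.leaf 18449)
 (.leaf 16425)))
 (.node 43 (.leaf 18441)
 (.node 44 (.leaf 10266)
 (.leaf 10321)))))))
 (.node 68 (.node 56 (.node 50 (.node 47 (.node 46 (.leaf 16401)
 (.leaf 16433))
 (.node 48 (.leaf 2113)
 (.node 49 (.leaf 2066)
 (.leaf 2131))))
 (.node 53 (.node 51 (.leaf 2058)
 (.node 52 (.leaf 10313)
 (.leaf 16449)))
 (.node 54 (.leaf 10289)
 (.node 55 (.leaf 18481)
 (.leaf 260)))))
 (.node 62 (.node 59 (.node 57 (.leaf 259)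
 (.node 58 (.leaf 18561)
 (.leaf 10314)))
 (.node 60 (.leaf 146)
 (.node 61 (.leaf 2091)
 (.leaf 10281))))
 (.node 65 (.node 63 (.leaf 2099)
 (.node 64 (.leaf 2305)
 (.leaf 42)))
 (.node 66 (.leaf 8233)
 (.node 67 (.leaf 11)
 (.leaf 2195))))))
 (.node 80 (.node 74 (.node 71 (.node 69 (.leaf 16521)
 (.node 70 (.leaf 19)
 (.leaf 18577)))
 (.node 72 (.leaf 16577)
 (.node 73 (.leaf 18505)
 (.leaf 138))))
 (.node 77 (.node 75 (.leaf 10322)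
 (.node 76 (.leaf 67)
 (.leaf 50)))
 (.node 78 (.leaf 8241)
 (.node 79 (.leaf 18473)
 (.leaf 18497)))))
 (.node 86 (.node 83 (.node 81 (.leaf 16457)
 (.node 82 (.leaf 16602)
 (.leaf 16529)))
 (.node 84 (.leaf 16513)
 (.node 85 (.leaf 74)
 (.leaf 2075))))
 (.node 89 (.node 87 (.leaf 2187)
 (.node 88 (.leaf 16409)
 (.leaf 18569)))
 (.node 90 (.leaf 16465)
 (.node 91 (.leaf 18513)
 (.leaf 82))))))))

noncomputable def base : List Rs := [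
.deg 2 [1, 1],
.join 1 1 3 3 1 2 [(0, 0)],
.part [8, 48] [0, 0] [7] [],
.ab2 1 6,
.ordE 0 32 3,
.ab 1 4,
.l2 1 9 17 0 2 1,
.deg 0 [0, 2],
.join 0 2 4 2 1 1 [(1, 0)],
.deg 3 [1, 1],
.part [1, 6] [0, 0] [56] [],
.join 1 1 2 3 1 2 [(0, 0)],
.ordE 1 16 1,
.join 1 2 2 3 1 2 [(1, 0)],
.ab 1 5,
.ab 1 1,
.join 0 1 2 2 1 1 [(0, 0)],
.part [5, 2] [0, 0] [56] [],
.deg 0 [2, 0],
.ab2 0 5,
.deg 4 [0, 2],
.l2 0 10 18 1 1 1,
.join 1 2 4 3 1 2 [(1, 0)],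
.l2 0 9 17 0 1 1,
.ab 1 0,
.l2 1 3 10 1 2 1,
.hall [0] [0, 2],
.ab 0 1,
.part [40, 16] [0, 0] [7] [],
.deg 4 [1, 1],
.part [6, 1] [0, 0] [56] [],
.ab 0 3,
.part [17, 36] [0, 0] [] [(1, 10)],
.deg 1 [2, 0],
.part [36, 18] [0, 0] [] [(0, 9)],
.hall [0] [0, 1],
.part [24, 32] [0, 0] [7] [],
.hall [1] [0, 1],
.part [36, 9] [0, 0] [] [(0, 18)],
.deg 3 [0, 2],
.hall [1] [3, 4],
.l2 0 9 10 3 1 1,
.deg 1 [1, 1],
.join 0 1 4 2 1 1 [(0, 0)],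
.hall [0] [3, 4],
.join 1 2 3 3 2 2 [(1, 1)],
.deg 3 [2, 0],
.join 0 2 2 2 1 1 [(1, 0)],
.part [2, 5] [0, 0] [56] [],
.join 1 2 3 3 1 2 [(1, 0)],
.ab 1 3,
.part [9, 36] [0, 0] [] [(1, 18)],
.hall [0] [1, 2],
.join 1 1 3 3 2 2 [(0, 1)],
.part [1, 34] [0, 0] [28] [],
.lipl 0 18 27 1 9,
.part [48, 8] [0, 0] [7] [],
.part [33, 2] [0, 0] [28] [],
.deg 5 [3, 0],
.ordE 0 2 2,
.part [16, 40] [0, 0] [7] [],
.ordE 0 8 2,
.join 0 1 3 2 1 1 [(0, 0)],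
.ab2 1 5,
.l2 1 10 18 1 2 1,
.ab 0 0,
.join 1 1 1 3 2 2 [(0, 1)],
.ab2 0 6,
.join 1 1 4 3 1 2 [(0, 0)],
.ordE 0 1 2,
.part [34, 1] [0, 0] [28] [],
.part [3, 32] [0, 0] [28] [],
.ordE 0 32 2,
.part [36, 17] [0, 0] [] [(0, 10)],
.l2 1 3 18 1 2 1,
.deg 5 [1, 2],
.part [27, 36] [1, 0] [] [],
.part [10, 36] [0, 0] [] [(1, 17)],
.part [2, 33] [0, 0] [28] [],
.part [36, 10] [0, 0] [] [(0, 17)],
.deg 0 [1, 1],
.ab 0 4,
.l2 0 17 18 4 1 1,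
.join 0 2 3 2 1 1 [(1, 0)],
.deg 1 [0, 2]]

noncomputable def gads : List Gt := [
⟨0, [⟨8, 2, []⟩, ⟨16, 2, []⟩], [3, 3, 3], 1, [(24, 1)]⟩,
⟨1, [⟨2, 3, []⟩, ⟨16, 3, []⟩], [3, 3], 1, [(18, 1)]⟩,
⟨1, [⟨1, 3, []⟩, ⟨16, 3, []⟩], [3, 3], 1, [(17, 1)]⟩,
⟨1, [⟨1, 3, []⟩, ⟨8, 3, []⟩], [3, 3], 1, [(9, 1)]⟩,
⟨0, [⟨1, 2, []⟩, ⟨2, 2, []⟩], [3, 3, 3], 1, [(3, 1)]⟩,
⟨0, [⟨16, 2, []⟩, ⟨32, 2, []⟩], [3, 3, 3], 1, [(48, 1)]⟩,
⟨0, [⟨1, 2, []⟩, ⟨32, 2, []⟩], [3, 3, 3], 1, [(33, 1)]⟩,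
⟨1, [⟨1, 3, []⟩, ⟨32, 3, []⟩], [3, 3], 1, [(33, 1)]⟩,
⟨0, [⟨2, 2, []⟩, ⟨8, 2, []⟩], [3, 3, 3], 1, [(10, 1)]⟩,
⟨0, [⟨18, 2, []⟩, ⟨32, 2, []⟩], [3, 3, 3], 1, [(34, 1), (48, 1)]⟩,
⟨0, [⟨2, 2, []⟩, ⟨4, 2, []⟩], [3, 3, 3], 1, [(6, 1)]⟩,
⟨0, [⟨6, 2, []⟩, ⟨32, 2, []⟩], [3, 3, 3], 1, [(34, 1), (36, 1)]⟩,
⟨1, [⟨18, 3, []⟩, ⟨32, 3, []⟩], [3, 3], 1, [(34, 1), (48, 1)]⟩,
⟨0, [⟨1, 2, []⟩, ⟨16, 2, []⟩], [3, 3, 3], 1, [(17, 1)]⟩,
⟨0, [⟨10, 2, []⟩, ⟨32, 2, []⟩], [3, 3, 3], 1, [(34, 1), (40, 1)]⟩,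
⟨1, [⟨2, 3, []⟩, ⟨8, 3, []⟩], [3, 3], 1, [(10, 1)]⟩,
⟨1, [⟨3, 3, []⟩, ⟨32, 3, []⟩], [3, 3], 1, [(33, 1), (34, 1)]⟩,
⟨1, [⟨8, 3, []⟩, ⟨32, 3, []⟩], [3, 3], 1, [(40, 1)]⟩,
⟨0, [⟨1, 2, []⟩, ⟨8, 2, []⟩], [3, 3, 3], 1, [(9, 1)]⟩,
⟨0, [⟨8, 2, []⟩, ⟨32, 2, []⟩], [3, 3, 3], 1, [(40, 1)]⟩,
⟨1, [⟨10, 3, []⟩, ⟨32, 3, []⟩], [3, 3], 1, [(34, 1), (40, 1)]⟩,
⟨0, [⟨5, 2, []⟩, ⟨32, 2, []⟩], [3, 3, 3], 1, [(33, 1), (36, 1)]⟩,
⟨1, [⟨5, 3, []⟩, ⟨32, 3, []⟩], [3, 3], 1, [(33, 1), (36, 1)]⟩,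
⟨0, [⟨1, 2, []⟩, ⟨4, 2, []⟩], [3, 3, 3], 1, [(5, 1)]⟩,
⟨1, [⟨9, 3, []⟩, ⟨32, 3, []⟩], [3, 3], 1, [(33, 1), (40, 1)]⟩,
⟨1, [⟨17, 3, []⟩, ⟨32, 3, []⟩], [3, 3], 1, [(33, 1), (48, 1)]⟩,
⟨1, [⟨16, 3, []⟩, ⟨32, 3, []⟩], [3, 3], 1, [(48, 1)]⟩,
⟨0, [⟨17, 2, []⟩, ⟨32, 2, []⟩], [3, 3, 3], 1, [(33, 1), (48, 1)]⟩,
⟨1, [⟨2, 3, []⟩, ⟨32, 3, []⟩], [3, 3], 1, [(34, 1)]⟩,
⟨0, [⟨2, 2, []⟩, ⟨16, 2, []⟩], [3, 3, 3], 1, [(18, 1)]⟩,
⟨0, [⟨9, 2, []⟩, ⟨32, 2, []⟩], [3, 3, 3], 1, [(33, 1), (40, 1)]⟩,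
⟨1, [⟨6, 3, []⟩, ⟨32, 3, []⟩], [3, 3], 1, [(34, 1), (36, 1)]⟩,
⟨0, [⟨2, 2, []⟩, ⟨32, 2, []⟩], [3, 3, 3], 1, [(34, 1)]⟩]

noncomputable def cnf : List (List ℕ) := [
[68, 70],
[17, 31, 72, 104],
[106, 42],
[109, 111],
[113, 114],
[75, 117],
[119, 77, 32],
[8, 32],
[11, 35, 120, 44],
[12, 30],
[78, 110],
[17, 71, 122, 124],
[47, 74],
[19, 71, 126, 108],
[129, 81],
[19, 83],
[9, 49, 130, 132],
[84, 82],
[134, 16],
[133, 85],
[34, 50],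
[53, 45, 4],
[19, 47, 136, 54],
[57, 59, 6],
[17, 87],
[89, 91, 14],
[8, 48],
[11, 93],
[60, 116],
[20, 46],
[94, 86],
[37, 107],
[138, 22, 91],
[140, 18],
[24, 142, 57],
[8, 10],
[144, 80],
[16, 18],
[24, 146, 45],
[36, 62],
[96, 74],
[57, 53, 12],
[4, 98],
[9, 35, 148, 58],
[36, 34],
[99, 31, 100, 150],
[152, 96],
[11, 49, 154, 156],
[92, 158],
[19, 31, 100, 90],
[97, 161],
[162, 22, 55],
[10, 48],
[103, 31, 72, 118],
[78, 26],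
[105, 165, 166],
[64, 160],
[38, 82],
[112, 128],
[141, 4],
[168, 66],
[153, 12],
[9, 37, 170, 56],
[125, 159],
[151, 55, 14],
[9, 79],
[103, 99, 172, 88],
[157, 95],
[17, 47, 174, 76],
[135, 6],
[40, 86],
[176, 80],
[115, 0],
[24, 178, 53],
[89, 55, 14],
[0, 2],
[164, 22],
[180, 22, 77],
[92, 28],
[24, 182, 59],
[6, 102],
[35, 169],
[59, 45, 20],
[11, 37, 184, 52],
[10, 14],
[13, 21, 145],
[15, 51, 143],
[33, 51, 179],
[33, 63, 147],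
[7, 5, 177],
[21, 1, 65],
[7, 1, 39],
[33, 3, 29],
[5, 13, 181],
[121, 1, 41, 65],
[5, 69, 95],
[155, 1, 41, 25],
[137, 3, 27, 43],
[7, 21, 139],
[185, 1, 41, 61],
[15, 63, 183],
[173, 3, 29, 27],
[63, 3, 67],
[7, 13, 163],
[13, 1, 61],
[101, 3, 27, 67],
[131, 1, 39, 25],
[123, 3, 29, 23],
[7, 69, 85],
[73, 3, 29, 67],
[175, 3, 29, 43],
[51, 3, 43],
[149, 1, 39, 65],
[15, 3, 27],
[5, 21, 167],
[171, 1, 39, 61],
[127, 3, 27, 23],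
[5, 1, 41]]

noncomputable def db : Tr :=
 (.node 85 (.node 42 (.node 21 (.node 10 (.node 5 (.node 2 (.node 1 (.leaf 0x480046)
 (.leaf 0x6a004a00210013))
 (.node 3 (.leaf 0x2c006c)
 (.node 4 (.leaf 0x71006f)
 (.leaf 0x740073))))
 (.node 7 (.node 6 (.leaf 0x77004d)
 (.leaf 0x22004f0079))
 (.node 8 (.leaf 0x22000a)
 (.node 9 (.leaf 0x2e007a0025000d)
 (.leaf 0x20000e)))))
 (.node 15 (.node 12 (.node 11 (.leaf 0x700050)
 (.leaf 0x7e007c00490013))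
 (.node 13 (.leaf 0x4c0031)
 (.node 14 (.leaf 0x6e008000490015)
 (.leaf 0x530083))))
 (.node 18 (.node 16 (.leaf 0x550015)
 (.node 17 (.leaf 0x8600840033000b)
 (.leaf 0x540056)))
 (.node 19 (.leaf 0x120088)
 (.node 20 (.leaf 0x570087)
 (.leaf 0x340024))))))
 (.node 31 (.node 26 (.node 23 (.node 22 (.leaf 0x6002f0037)
 (.leaf 0x38008a00310015))
 (.node 24 (.leaf 0x8003d003b)
 (.node 25 (.leaf 0x590013)
 (.leaf 0x10005d005b))))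
 (.node 28 (.node 27 (.leaf 0x32000a)
 (.leaf 0x5f000d))
 (.node 29 (.leaf 0x76003e)
 (.node 30 (.leaf 0x300016)
 (.leaf 0x580060)))))
 (.node 36 (.node 33 (.node 32 (.leaf 0x6d0027)
 (.leaf 0x5d0018008c))
 (.node 34 (.leaf 0x14008e)
 (.node 35 (.leaf 0x3b0090001a)
 (.leaf 0xc000a))))
 (.node 39 (.node 37 (.leaf 0x520092)
 (.node 38 (.leaf 0x140012)
 (.leaf 0x2f0094001a)))
 (.node 40 (.leaf 0x400026)
 (.node 41 (.leaf 0x4c0062)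
 (.leaf 0xe0037003b)))))))
 (.node 63 (.node 52 (.node 47 (.node 44 (.node 43 (.leaf 0x640006)
 (.leaf 0x3c00960025000b))
 (.node 45 (.leaf 0x240026)
 (.node 46 (.leaf 0x98006600210065)
 (.leaf 0x62009a))))
 (.node 49 (.node 48 (.leaf 0x9e009c0033000d)
 (.leaf 0xa0005e))
 (.node 50 (.leaf 0x5c006600210015)
 (.node 51 (.leaf 0xa30063)
 (.leaf 0x39001800a4)))))
 (.node 57 (.node 54 (.node 53 (.leaf 0x32000c)
 (.leaf 0x78004a00210069))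
 (.node 55 (.leaf 0x1c0050)
 (.node 56 (.leaf 0xa800a7006b)
 (.leaf 0xa20042))))
 (.node 60 (.node 58 (.leaf 0x540028)
 (.node 59 (.leaf 0x820072)
 (.leaf 0x6008f)))
 (.node 61 (.leaf 0x4400aa)
 (.node 62 (.leaf 0xe009b)
 (.leaf 0x3a00ac0027000b))))))
 (.node 74 (.node 68 (.node 65 (.node 64 (.leaf 0xa1007f)
 (.leaf 0x1000390099))
 (.node 66 (.leaf 0x51000b)
 (.node 67 (.leaf 0x5a00ae00650069)
 (.leaf 0x61009f))))
 (.node 71 (.node 69 (.leaf 0x4e00b000310013)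
 (.node 70 (.leaf 0x80089)
 (.leaf 0x58002a)))
 (.node 72 (.leaf 0x5200b2)
 (.node 73 (.leaf 0x20075)
 (.leaf 0x3700b4001a)))))
 (.node 79 (.node 76 (.node 75 (.leaf 0x100039005b)
 (.leaf 0x40002))
 (.node 77 (.leaf 0x1800a6)
 (.node 78 (.leaf 0x4f001800b6)
 (.leaf 0x1e005e))))
 (.node 82 (.node 80 (.leaf 0x3d00b8001a)
 (.node 81 (.leaf 0x680008)
 (.leaf 0xab0025)))
 (.node 83 (.leaf 0x16002f003d)
 (.node 84 (.leaf 0x3600ba0027000d)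
 (.leaf 0x10000c))))))))
 (.node 128 (.node 106 (.node 95 (.node 90 (.node 87 (.node 86 (.leaf 0x930017000f)
 (.leaf 0x9100350011))
 (.node 88 (.leaf 0xb500350023)
 (.node 89 (.leaf 0x9500410023)
 (.leaf 0xb300070009))))
 (.node 92 (.node 91 (.leaf 0x4300030017)
 (.leaf 0x2900030009))
 (.node 93 (.leaf 0x1f00050023)
 (.node 94 (.leaf 0xb7000f0007)
 (.leaf 0x43002b0003007b)))))
 (.node 100 (.node 97 (.node 96 (.leaf 0x6100470007)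
 (.leaf 0x1b002b0003009d))
 (.node 98 (.leaf 0x2d001d0005008b)
 (.node 99 (.leaf 0x8d00170009)
 (.leaf 0x3f002b000300bb))))
 (.node 103 (.node 101 (.leaf 0xb900410011)
 (.node 102 (.leaf 0x1d001f000500af)
 (.leaf 0x4500050041)))
 (.node 104 (.leaf 0xa5000f0009)
 (.node 105 (.leaf 0x3f0003000f)
 (.leaf 0x45001d00050067))))))
 (.node 117 (.node 111 (.node 108 (.node 107 (.leaf 0x1b002900030085)
 (.leaf 0x19001f0005007d))
 (.node 109 (.leaf 0x5700470009)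
 (.node 110 (.leaf 0x45001f0005004b)
 (.leaf 0x2d001f000500b1))))
 (.node 114 (.node 112 (.leaf 0x2d00050035)
 (.node 113 (.leaf 0x43002900030097)
 (.leaf 0x1d00050011)))
 (.node 115 (.leaf 0xa900170007)
 (.node 116 (.leaf 0x3f0029000300ad)
 (.leaf 0x19001d00050081)))))
 (.node 122 (.node 119 (.node 118 (.leaf 0x2b00030007)
 (.leaf 0x3004c))
 (.node 120 (.leaf 0xbb0003003f)
 (.node 121 (.leaf 0xbb0003)
 (.leaf 0x50026))))
 (.node 125 (.node 123 (.leaf 0x1000660009006500180039)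
 (.node 124 (.leaf 0x520005001d006e0012)
 (.leaf 0x520005001d006e0009)))
 (.node 126 (.leaf 0x930005001d006e00ae004a0013006900150017)
 (.node 127 (.leaf 0x9300b70005002200ae00b0004a001300690015)
 (.leaf 0x52001f00b70005)))))))
 (.node 149 (.node 138 (.node 133 (.node 130 (.node 129 (.leaf 0x2001f0007)
 (.leaf 0x2001f))
 (.node 131 (.leaf 0x2)
 (.node 132 (.leaf 0x4c)
 (.leaf 0xbb))))
 (.node 135 (.node 134 (.leaf 0x77)
 (.leaf 0x3e))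
 (.node 136 (.leaf 0xf)
 (.node 137 (.leaf 0x9b)
 (.leaf 0x62)))))
 (.node 143 (.node 140 (.node 139 (.leaf 0xa3)
 (.leaf 0x42))
 (.node 141 (.leaf 0x17)
 (.node 142 (.leaf 0x12)
 (.leaf 0x59))))
 (.node 146 (.node 144 (.leaf 0x60)
 (.node 145 (.leaf 0x2a)
 (.leaf 0x9f)))
 (.node 147 (.leaf 0x7)
 (.node 148 (.leaf 0x7b)
 (.leaf 0x8f))))))
 (.node 160 (.node 154 (.node 151 (.node 150 (.leaf 0x14)
 (.leaf 0x55))
 (.node 152 (.leaf 0x56)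
 (.node 153 (.leaf 0x28)
 (.leaf 0x87))))
 (.node 157 (.node 155 (.leaf 0x9)
 (.node 156 (.leaf 0xad)
 (.leaf 0x97)))
 (.node 158 (.leaf 0xd0025)
 (.node 159 (.leaf 0xd)
 (.leaf 0xa)))))
 (.node 165 (.node 162 (.node 161 (.leaf 0x32)
 (.leaf 0x10))
 (.node 163 (.leaf 0x84)
 (.node 164 (.leaf 0x1b)
 (.leaf 0x24))))
 (.node 168 (.node 166 (.leaf 0x3c)
 (.node 167 (.leaf 0x3b)
 (.leaf 0xb8)))
 (.node 169 (.leaf 0x27)
 (.node 170 (.leaf 0x41)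
 (.leaf 0x0)))))))))

noncomputable def prf : List ℕ := [
0x3d0001b00043000580004d00069,
0x3d0001b000670003100051000640005e0003000013,
0x5b0007200001,
0x3c00027000120004c00051,
0x4c00070000120003900046,
0x49000710005a00025000180005d0006400000000060006d0007a0000e0005000069000210006b00035000550006800056000330000900019000110003e00029000660000b000780005b00001,
0x4a000720005b00026000190005e0006500001000070006e0007b0000f0006a0006c0005a00040000510002200057000340000a0001a000120003f0002a000670000c000790005c00002,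
0x8000300006f000450007c0000a0001d000520003a000630007b0004b00073000270000b00013000400002b000680000d0007a0005d000030005e00064,
0x2000053000740003b000480003300077000670003900060000000007a000730000c0001c0007b0005e00004000470003c00076,
0xc00061000470003a000320007800013000490007d00073000750007e000210001f000430005d000000002e0000200060000660000300011000420002d0006a000100000f0007c0005f000050003f0004e000630002a0000d000190007b00048000740003d00077000220005a,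
0x7e00048000760000d0002a000620003b000320003300014000740007f000200005b00000000110006100067000040007c0007500071000450007b0003700012000430002e0006b000100007d0006000006000400004f000640002b0000e000490003e000780002300034,
0x630006a00003000360005f0003e000450005600000000130003000004000050000f0001b0007d0001f0004a000760003f00079000240005c00072000460007c00038000440002f0006c000110007e000610000700035,
0x4b00010000400002d0005e00066000330000000036,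
0xc00000,
0xb00001,
0x7f00001,
0x6900000,
0x1e0000400000,
0x4a00000,
0x5a00000,
0x5700000,
0x5200000,
0x310000900000,
0x53000310007d00047000670007a0000a,
0x7500000,
0x7000000,
0x4900001,
0x4d00001,
0x1c0000f00001,
0x34000100000700002,
0x5800001,
0x7300000,
0x8600000,
0x8500000,
0x5e00001,
0x8500001,
0x3e0001700001,
0x27000180001400002,
0x2b000190001000003,
0x3c000760006d0004400082000950007500071000490004a0008700094000090000a0001000018000000000b0001a0000c,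
0x3d000540006e0004600083000960005f000740004a0007100089000000000d0001b0000c000020001600019,
0x7b00000,
0x6b00001,
0x4c00002,
0x91000080000200001,
0x38000200000a00000,
0x81000650004d000770008f00000000080000400002,
0x79000050000800000,
0x8e0000b00000,
0x570000300001,
0x69000080000c00001,
0x440000700001,
0x820000000001]

end D37

theorem inst_37 : instB 0 [0, 2] [3, 28] [] D37.base D37.gads D37.names D37.cnf D37.db D37.prf = true := by decide +kernel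

/-- no gadget has fewer than `2 R` new points. -/
theorem p2_37 : D37.gads.all (fun g => Nat.ble (2 * g.R) g.gs.length) = true := by decide +kernel

/-- there is no configuration of this instance. -/
theorem no_37 {V : Type v} [DecidableEq V] {ι : Type u} [Fintype ι] {B : ι → Finset V}
    {Q : Finset V} {i j : ι} {x : ℕ → V} {D : ℕ → Finset V}
    (h : CfI B Q 0 x D i j [0, 2] [3, 28]) : False :=
  h.absurd (by decide) srt_nil inst_37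

end Pool.Agent.Hyp6
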