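import Pool.Agent.Hyp6.Cb5

/-!
# HYP6: instance 40 of the list: n = 0, bounds [0, 2], inner blocks [7, 9]

93 base clauses, 32 gadgets, 41 learned clauses.
-/

set_option autoImplicit false
set_option maxRecDepth 100000

namespace Pool.Agent.Hyp6

open Rup

universe u v

namespace D40

noncomputable def names : Tr :=
 (.node 48 (.node 23 (.node 11 (.node 5 (.node 2 (.node 0 (.leaf 258)
 (.node 1 (.leaf 2307)
 (.leaf 130)))
 (.node 3 (.leaf 2114)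
 (.node 4 (.leaf 2179)
 (.leaf 16769))))
 (.node 8 (.node 6 (.leaf 129)
 (.node 7 (.leaf 2057)
 (.leaf 33)))
 (.node 9 (.leaf 65)
 (.node 10 (.leaf 18753)
 (.leaf 18625)))))
 (.node 17 (.node 14 (.node 12 (.leaf 257)
 (.node 13 (.leaf 16705)
 (.leaf 8385)))
 (.node 15 (.leaf 66)
 (.node 16 (.leaf 2113)
 (.leaf 2115))))
 (.node 20 (.node 18 (.leaf 17)
 (.node 19 (.leaf 18697)
 (.leaf 259)))
 (.node 21 (.leaf 2177)
 (.node 22 (.leaf 10321)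
 (.leaf 18441))))))
 (.node 35 (.node 29 (.node 26 (.node 24 (.leaf 18817)
 (.node 25 (.leaf 18569)
 (.leaf 2065)))
 (.node 27 (.leaf 16673)
 (.node 28 (.leaf 18721)
 (.leaf 18593))))
 (.node 32 (.node 30 (.leaf 18705)
 (.node 31 (.leaf 2131)
 (.leaf 2147)))
 (.node 33 (.leaf 8513)
 (.node 34 (.leaf 2067)
 (.leaf 2083)))))
 (.node 41 (.node 38 (.node 36 (.leaf 34)
 (.node 37 (.leaf 2082)
 (.leaf 131)))
 (.node 39 (.leaf 2305)
 (.node 40 (.leaf 16641)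
 (.leaf 18505))))
 (.node 44 (.node 42 (.leaf 18561)
 (.node 43 (.leaf 10337)
 (.leaf 16433)))
 (.node 46 (.node 45 (.leaf 16657)
 (.leaf 16529))
 (.node 47 (.leaf 16545)
 (.leaf 18577)))))))
 (.node 72 (.node 60 (.node 54 (.node 51 (.node 49 (.leaf 16577)
 (.node 50 (.leaf 2075)
 (.leaf 2091)))
 (.node 52 (.leaf 194)
 (.node 53 (.leaf 260)
 (.leaf 8386))))
 (.node 57 (.node 55 (.leaf 8273)
 (.node 56 (.leaf 8289)
 (.leaf 8329)))
 (.node 58 (.leaf 8353)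
 (.node 59 (.leaf 8465)
 (.leaf 8481)))))
 (.node 66 (.node 63 (.node 61 (.leaf 2178)
 (.node 62 (.leaf 10323)
 (.leaf 10338)))
 (.node 64 (.leaf 10)
 (.node 65 (.leaf 18)
 (.leaf 2066))))
 (.node 69 (.node 67 (.leaf 2180)
 (.node 68 (.leaf 2308)
 (.leaf 2306)))
 (.node 70 (.leaf 16401)
 (.node 71 (.leaf 16417)
 (.leaf 16449))))))
 (.node 84 (.node 78 (.node 75 (.node 73 (.leaf 16513)
 (.node 74 (.leaf 18650)
 (.leaf 18666)))
 (.node 76 (.leaf 18449)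
 (.node 77 (.leaf 18497)
 (.leaf 18689))))
 (.node 81 (.node 79 (.leaf 10265)
 (.node 80 (.leaf 18457)
 (.leaf 10281)))
 (.node 82 (.leaf 18473)
 (.node 83 (.leaf 10505)
 (.leaf 10561)))))
 (.node 90 (.node 87 (.node 85 (.leaf 9)
 (.node 86 (.leaf 2081)
 (.leaf 16425)))
 (.node 88 (.leaf 16649)
 (.node 89 (.leaf 82)
 (.leaf 98))))
 (.node 93 (.node 91 (.leaf 2371)
 (.node 92 (.leaf 2316)
 (.leaf 274)))
 (.node 95 (.node 94 (.leaf 290)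
 (.leaf 162))
 (.node 96 (.leaf 322)
 (.leaf 138))))))))

noncomputable def base : List Rs := [
.ordE 0 32 2,
.ordE 0 32 3,
.le 0 24 16 4 2,
.l2 0 10 24 3 1 1,
.l2 0 12 24 3 1 1,
.l2 0 17 24 4 1 1,
.l2 0 20 24 4 1 1,
.l2 0 34 40 5 1 1,
.l2 0 36 40 5 1 1,
.ordE 1 8 1,
.ordE 1 16 1,
.le 1 10 8 3 3,
.l2 1 10 12 3 1 2,
.deg 0 [1, 0],
.deg 1 [0, 2],
.deg 1 [1, 1],
.deg 2 [0, 2],
.deg 2 [1, 1],
.deg 3 [0, 2],
.deg 3 [1, 1],
.deg 4 [0, 3],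
.deg 4 [1, 2],
.deg 4 [2, 1],
.deg 5 [0, 3],
.deg 5 [1, 2],
.deg 5 [2, 1],
.deg 5 [3, 0],
.mono 0 32 40 1,
.ab 0 1,
.ab 0 2,
.ab 0 3,
.ab 0 4,
.ab 0 5,
.mono 1 1 9 1,
.mono 1 16 48 1,
.lipl 1 17 27 1 10,
.lipl 1 17 29 1 12,
.un 1 0,
.ab 1 0,
.ab 1 1,
.ab 1 3,
.ab 1 4,
.ab 1 5,
.ab2 1 3,
.ab2 1 5,
.ab2 1 33,
.ab2 1 40,
.hall [0] [0, 2],
.hall [0] [1, 2],
.hall [1] [0, 1],
.hall [1] [1, 2],
.hall [0] [3, 4],
.hall [0] [4, 5],
.hall [1] [3, 4],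
.hall [1] [3, 5],
.hall [0, 1] [4],
.part [5, 2] [0, 0] [56] [],
.part [33, 24] [0, 0] [6] [],
.part [6, 9] [0, 0] [48] [],
.part [6, 1] [0, 0] [56] [],
.part [34, 29] [0, 1] [] [],
.part [36, 27] [0, 1] [] [],
.part [2, 5] [0, 0] [56] [],
.part [4, 3] [0, 0] [56] [],
.part [18, 33] [0, 0] [] [(1, 12)],
.part [20, 33] [0, 0] [] [(1, 10)],
.part [18, 36] [0, 0] [9] [],
.part [34, 20] [0, 0] [9] [],
.part [20, 34] [0, 0] [9] [],
.part [36, 18] [0, 0] [9] [],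
.part [24, 32] [0, 0] [7] [],
.part [40, 16] [0, 0] [7] [],
.part [8, 48] [0, 0] [7] [],
.part [48, 8] [0, 0] [7] [],
.part [16, 40] [0, 0] [7] [],
.part [32, 24] [0, 0] [7] [],
.join 0 2 3 2 1 1 [(1, 0)],
.join 0 4 3 2 1 1 [(2, 0)],
.join 1 1 1 3 1 2 [(0, 0)],
.join 1 1 2 3 1 2 [(0, 0)],
.join 1 2 3 3 1 2 [(1, 0)],
.join 1 2 3 3 3 2 [(1, 2)],
.join 1 4 3 3 1 2 [(2, 0)],
.join 1 4 3 3 2 2 [(2, 1)],
.join 1 8 5 3 1 2 [(3, 0)],
.join 1 1 5 4 1 3 [(0, 0)],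
.join 0 2 5 2 1 1 [(1, 0)],
.join 0 4 5 2 1 1 [(2, 0)],
.join 0 4 4 2 1 1 [(2, 0)],
.join 0 8 5 2 1 1 [(3, 0)],
.join 0 8 4 2 1 1 [(3, 0)],
.join 0 8 4 2 0 3 [(3, 1)],
.join 0 1 4 2 1 1 [(0, 0)]]

noncomputable def gads : List Gt := [
⟨0, [⟨8, 2, []⟩, ⟨32, 2, []⟩], [3, 3, 3], 1, [(40, 1)]⟩,
⟨0, [⟨8, 2, []⟩, ⟨16, 2, []⟩], [3, 3, 3], 1, [(24, 1)]⟩,
⟨0, [⟨16, 2, []⟩, ⟨32, 2, []⟩], [3, 3, 3], 1, [(48, 1)]⟩,
⟨0, [⟨2, 2, []⟩, ⟨4, 2, []⟩], [3, 3, 3], 1, [(6, 1)]⟩,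
⟨0, [⟨1, 2, []⟩, ⟨4, 2, []⟩], [3, 3, 3], 1, [(5, 1)]⟩,
⟨1, [⟨2, 3, []⟩, ⟨32, 3, []⟩], [3, 3], 1, [(34, 1)]⟩,
⟨1, [⟨4, 3, []⟩, ⟨16, 3, []⟩], [3, 3], 1, [(20, 1)]⟩,
⟨1, [⟨4, 3, []⟩, ⟨32, 3, []⟩], [3, 3], 1, [(36, 1)]⟩,
⟨1, [⟨8, 3, []⟩, ⟨16, 3, []⟩], [3, 3], 1, [(24, 1)]⟩,
⟨1, [⟨8, 3, []⟩, ⟨32, 3, []⟩], [3, 3], 1, [(40, 1)]⟩,
⟨0, [⟨10, 2, []⟩, ⟨32, 2, []⟩], [3, 3, 3], 1, [(34, 1), (40, 1)]⟩,
⟨0, [⟨12, 2, []⟩, ⟨32, 2, []⟩], [3, 3, 3], 1, [(36, 1), (40, 1)]⟩,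
⟨1, [⟨8, 2, []⟩, ⟨16, 4, []⟩], [3, 1, 1], 1, [(24, 1)]⟩,
⟨1, [⟨8, 2, []⟩, ⟨32, 4, []⟩], [3, 1, 1], 1, [(40, 1)]⟩,
⟨1, [⟨3, 3, []⟩, ⟨16, 3, []⟩], [3, 3], 1, [(17, 1), (18, 1)]⟩,
⟨1, [⟨3, 3, []⟩, ⟨32, 3, []⟩], [3, 3], 1, [(33, 1), (34, 1)]⟩,
⟨1, [⟨5, 3, []⟩, ⟨16, 3, []⟩], [3, 3], 1, [(17, 1), (20, 1)]⟩,
⟨1, [⟨5, 3, []⟩, ⟨32, 3, []⟩], [3, 3], 1, [(33, 1), (36, 1)]⟩,
⟨1, [⟨10, 3, []⟩, ⟨16, 3, []⟩], [3, 3], 1, [(18, 1), (24, 1)]⟩,
⟨1, [⟨10, 3, []⟩, ⟨32, 3, []⟩], [3, 3], 1, [(34, 1), (40, 1)]⟩,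
⟨1, [⟨12, 3, []⟩, ⟨16, 3, []⟩], [3, 3], 1, [(20, 1), (24, 1)]⟩,
⟨1, [⟨12, 3, []⟩, ⟨32, 3, []⟩], [3, 3], 1, [(36, 1), (40, 1)]⟩,
⟨0, [⟨16, 3, []⟩, ⟨32, 3, []⟩], [3, 3], 1, [(48, 1)]⟩,
⟨1, [⟨16, 3, []⟩, ⟨32, 3, []⟩], [3, 3], 1, [(48, 1)]⟩,
⟨1, [⟨40, 3, []⟩, ⟨16, 3, []⟩], [3, 3], 1, [(24, 1), (48, 1)]⟩,
⟨1, [⟨33, 4, []⟩, ⟨8, 2, []⟩], [3, 2, 2], 1, [(9, 1), (40, 1)]⟩,
⟨0, [⟨34, 2, []⟩, ⟨16, 2, []⟩], [3, 3, 3], 1, [(18, 1), (48, 1)]⟩,
⟨0, [⟨36, 2, []⟩, ⟨16, 2, []⟩], [3, 3, 3], 1, [(20, 1), (48, 1)]⟩,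
⟨0, [⟨20, 2, []⟩, ⟨32, 2, []⟩], [3, 3, 3], 1, [(36, 1), (48, 1)]⟩,
⟨0, [⟨40, 2, []⟩, ⟨16, 2, []⟩], [3, 3, 3], 1, [(24, 1), (48, 1)]⟩,
⟨0, [⟨24, 2, []⟩, ⟨32, 2, []⟩], [3, 3, 3], 1, [(40, 1), (48, 1)]⟩,
⟨0, [⟨17, 2, []⟩, ⟨32, 2, []⟩], [3, 3, 3], 1, [(33, 1), (48, 1)]⟩]

noncomputable def cnf : List (List ℕ) := [
[41, 0],
[107, 40],
[109, 4],
[111, 29, 30],
[113, 29, 30],
[115, 29, 4],
[117, 29, 4],
[119, 67, 0],
[121, 67, 0],
[7, 32],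
[123, 42],
[125, 34],
[45, 127, 34],
[128, 14],
[36, 68],
[130, 132],
[16, 70],
[72, 74],
[18, 34],
[30, 6],
[12, 134],
[4, 8],
[76, 122],
[24, 136],
[0, 2],
[40, 138],
[106, 78],
[81, 26],
[37, 141],
[17, 143],
[19, 145],
[13, 147],
[25, 81],
[47, 82],
[85, 48],
[45, 149, 50],
[87, 151, 50],
[14, 46],
[15, 47],
[53, 153],
[33, 155],
[43, 85],
[79, 157],
[159, 161],
[163, 165],
[167, 39],
[169, 21],
[170, 16],
[36, 16],
[14, 52],
[52, 172],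
[18, 12],
[12, 24],
[32, 42],
[32, 78],
[12, 42],
[174, 152],
[176, 22],
[88, 82],
[88, 46],
[90, 150],
[54, 148],
[140, 164],
[142, 160],
[92, 38, 87],
[94, 38, 45],
[92, 56],
[90, 58],
[94, 60],
[54, 96],
[98, 156],
[26, 84],
[144, 48],
[10, 154],
[146, 20],
[80, 22],
[37, 19, 178, 110],
[17, 19, 180, 112],
[15, 133, 100, 158],
[15, 75, 102, 162],
[53, 7, 62, 44],
[69, 7, 62, 124],
[173, 7, 64, 86],
[75, 7, 64, 126],
[33, 139, 182, 168],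
[15, 3, 184, 166],
[37, 25, 186, 118],
[17, 25, 188, 120],
[17, 13, 190, 116],
[19, 25, 192, 66],
[19, 13, 104, 28],
[77, 104, 108],
[171, 13, 194, 114],
[31, 1, 27],
[31, 5, 99],
[5, 1, 11],
[131, 73, 89],
[129, 73, 175],
[69, 3, 61],
[71, 9, 59],
[71, 3, 57],
[35, 9, 23],
[35, 3, 21],
[179, 1, 91, 27],
[181, 1, 55, 27],
[7, 135, 23],
[7, 137, 21],
[101, 9, 51, 97],
[101, 3, 39, 61],
[103, 9, 51, 59],
[103, 3, 39, 57],
[63, 9, 97, 23],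
[63, 3, 61, 21],
[65, 9, 59, 23],
[65, 3, 57, 21],
[77, 41, 11],
[9, 3, 49],
[183, 9, 23, 49],
[185, 7, 83, 21],
[187, 5, 93, 11],
[189, 5, 95, 11],
[191, 1, 55, 11],
[193, 5, 99, 11],
[105, 1, 27, 11],
[195, 1, 177, 11]]

noncomputable def db : Tr :=
 (.node 83 (.node 41 (.node 20 (.node 10 (.node 5 (.node 2 (.node 1 (.leaf 0x2002b)
 (.leaf 0x2a006d))
 (.node 3 (.leaf 0x6006f)
 (.node 4 (.leaf 0x20001f0071)
 (.leaf 0x20001f0073))))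
 (.node 7 (.node 6 (.leaf 0x6001f0075)
 (.leaf 0x6001f0077))
 (.node 8 (.leaf 0x200450079)
 (.node 9 (.leaf 0x20045007b)
 (.leaf 0x220009)))))
 (.node 15 (.node 12 (.node 11 (.leaf 0x2c007d)
 (.leaf 0x24007f))
 (.node 13 (.leaf 0x240081002f)
 (.node 14 (.leaf 0x100082)
 (.leaf 0x460026))))
 (.node 17 (.node 16 (.leaf 0x860084)
 (.leaf 0x480012))
 (.node 18 (.leaf 0x4c004a)
 (.node 19 (.leaf 0x240014)
 (.leaf 0x80020))))))
 (.node 30 (.node 25 (.node 22 (.node 21 (.leaf 0x88000e)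
 (.leaf 0xa0006))
 (.node 23 (.leaf 0x7c004e)
 (.node 24 (.leaf 0x8a001a)
 (.leaf 0x40002))))
 (.node 27 (.node 26 (.leaf 0x8c002a)
 (.leaf 0x50006c))
 (.node 28 (.leaf 0x1c0053)
 (.node 29 (.leaf 0x8f0027)
 (.leaf 0x910013)))))
 (.node 35 (.node 32 (.node 31 (.leaf 0x930015)
 (.leaf 0x95000f))
 (.node 33 (.leaf 0x53001b)
 (.node 34 (.leaf 0x540031)
 (.leaf 0x320057))))
 (.node 38 (.node 36 (.leaf 0x340097002f)
 (.node 37 (.leaf 0x3400990059)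
 (.leaf 0x300010)))
 (.node 39 (.leaf 0x310011)
 (.node 40 (.leaf 0x9b0037)
 (.leaf 0x9d0023)))))))
 (.node 62 (.node 51 (.node 46 (.node 43 (.node 42 (.leaf 0x57002d)
 (.leaf 0x9f0051))
 (.node 44 (.leaf 0xa300a1)
 (.node 45 (.leaf 0xa700a5)
 (.leaf 0x2900a9))))
 (.node 48 (.node 47 (.leaf 0x1700ab)
 (.leaf 0x1200ac))
 (.node 49 (.leaf 0x120026)
 (.node 50 (.leaf 0x360010)
 (.leaf 0xae0036)))))
 (.node 56 (.node 53 (.node 52 (.leaf 0xe0014)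
 (.leaf 0x1a000e))
 (.node 54 (.leaf 0x2c0022)
 (.node 55 (.leaf 0x500022)
 (.leaf 0x2c000e))))
 (.node 59 (.node 57 (.leaf 0x9a00b0)
 (.node 58 (.leaf 0x1800b2)
 (.leaf 0x54005a)))
 (.node 60 (.leaf 0x30005a)
 (.node 61 (.leaf 0x98005c)
 (.leaf 0x960038))))))
 (.node 72 (.node 67 (.node 64 (.node 63 (.leaf 0xa6008e)
 (.leaf 0xa20090))
 (.node 65 (.leaf 0x590028005e)
 (.node 66 (.leaf 0x2f00280060)
 (.leaf 0x3a005e))))
 (.node 69 (.node 68 (.leaf 0x3c005c)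
 (.leaf 0x3e0060))
 (.node 70 (.leaf 0x620038)
 (.node 71 (.leaf 0x9e0064)
 (.leaf 0x56001c)))))
 (.node 77 (.node 74 (.node 73 (.leaf 0x320092)
 (.leaf 0x9c000c))
 (.node 75 (.leaf 0x160094)
 (.node 76 (.leaf 0x180052)
 (.leaf 0x7000b400150027))))
 (.node 80 (.node 78 (.leaf 0x7200b600150013)
 (.node 79 (.leaf 0xa0006600870011)
 (.leaf 0xa40068004d0011)))
 (.node 81 (.leaf 0x2e004000090037)
 (.node 82 (.leaf 0x7e004000090047)
 (.leaf 0x580042000900af))))))))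
 (.node 124 (.node 103 (.node 93 (.node 88 (.node 85 (.node 84 (.leaf 0x8000420009004d)
 (.leaf 0xaa00b8008d0023))
 (.node 86 (.leaf 0xa800ba00050011)
 (.node 87 (.leaf 0x7800bc001b0027)
 (.leaf 0x7a00be001b0013))))
 (.node 90 (.node 89 (.leaf 0x7600c0000f0013)
 (.leaf 0x4400c2001b0015))
 (.node 91 (.leaf 0x1e006a000f0015)
 (.node 92 (.leaf 0x6e006a004f)
 (.leaf 0x7400c4000f00ad)))))
 (.node 98 (.node 95 (.node 94 (.leaf 0x1d00030021)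
 (.leaf 0x6500070021))
 (.node 96 (.leaf 0xd00030007)
 (.node 97 (.leaf 0x5b004b0085)
 (.leaf 0xb1004b0083))))
 (.node 100 (.node 99 (.leaf 0x3f00050047)
 (.leaf 0x3d000b0049))
 (.node 101 (.leaf 0x3b00050049)
 (.node 102 (.leaf 0x19000b0025)
 (.leaf 0x1700050025))))))
 (.node 113 (.node 108 (.node 105 (.node 104 (.leaf 0x1d005d000300b5)
 (.leaf 0x1d0039000300b7))
 (.node 106 (.leaf 0x1900890009)
 (.node 107 (.leaf 0x17008b0009)
 (.leaf 0x630035000b0067))))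
 (.node 110 (.node 109 (.leaf 0x3f002900050067)
 (.leaf 0x3d0035000b0069))
 (.node 111 (.leaf 0x3b002900050069)
 (.node 112 (.leaf 0x190063000b0041)
 (.leaf 0x17003f00050041)))))
 (.node 118 (.node 115 (.node 114 (.leaf 0x19003d000b0043)
 (.leaf 0x17003b00050043))
 (.node 116 (.leaf 0xd002b004f)
 (.node 117 (.leaf 0x330005000b)
 (.leaf 0x330019000b00b9))))
 (.node 121 (.node 119 (.leaf 0x170055000900bb)
 (.node 120 (.leaf 0xd005f000700bd)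
 (.leaf 0xd0061000700bf)))
 (.node 122 (.leaf 0xd0039000300c1)
 (.node 123 (.leaf 0xd0065000700c3)
 (.leaf 0xd001d0003006b)))))))
 (.node 145 (.node 134 (.node 129 (.node 126 (.node 125 (.leaf 0xd00b3000300c5)
 (.leaf 0xc500c10041000d0003))
 (.node 127 (.leaf 0x5000b)
 (.node 128 (.leaf 0x22)
 (.leaf 0x9d))))
 (.node 131 (.node 130 (.leaf 0xc)
 (.leaf 0xc5006b00b90003))
 (.node 132 (.leaf 0xc30002)
 (.node 133 (.leaf 0xc5006b0003)
 (.leaf 0x9000e)))))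
 (.node 139 (.node 136 (.node 135 (.leaf 0x9005e0042006000400028)
 (.leaf 0xa000a4006800660054))
 (.node 137 (.leaf 0x2005e)
 (.node 138 (.leaf 0x2)
 (.leaf 0x7))))
 (.node 142 (.node 140 (.leaf 0x6f)
 (.node 141 (.leaf 0xa)
 (.leaf 0x4b0010)))
 (.node 143 (.leaf 0x6600a0004b)
 (.node 144 (.leaf 0xc50026)
 (.leaf 0xc50068004d))))))
 (.node 155 (.node 150 (.node 147 (.node 146 (.leaf 0xc50034)
 (.leaf 0xc5))
 (.node 148 (.leaf 0x90036)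
 (.node 149 (.leaf 0x9)
 (.leaf 0x20))))
 (.node 152 (.node 151 (.leaf 0x1d)
 (.leaf 0x53))
 (.node 153 (.leaf 0x56)
 (.node 154 (.leaf 0x18)
 (.leaf 0x32)))))
 (.node 160 (.node 157 (.node 156 (.leaf 0x2d)
 (.leaf 0xb9))
 (.node 158 (.leaf 0x7d)
 (.node 159 (.leaf 0xe)
 (.leaf 0x4e))))
 (.node 163 (.node 161 (.leaf 0x95)
 (.node 162 (.leaf 0x2b)
 (.leaf 0x16)))
 (.node 164 (.leaf 0x8c)
 (.node 165 (.leaf 0xab)
 (.leaf 0x0)))))))))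

noncomputable def prf : List ℕ := [
0xd00037000430006700003000000001d,
0x330005e000170004a0006b0005f0003500009,
0x69000660002000021000380003700054000550006b000480004900075,
0x5700000,
0x3700000,
0xc0005f000480006c0003a00005000220000600000,
0x3c00008000580006d0006800004000810006a0008200001,
0x2f000550006a0003900010000640006d0004c000790005a0003c00001000080000400002,
0x39000640001b0005000070,
0x5300033000350004500044,
0x2600077000750003800037000610004c00065,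
0x7600034000260007b0004f0003700060000560007a0003200011000000001b000190005a000010005b000490006b000790001700025000430005c0000f00048000300006a000770001500023000450007f0002e0007500021000700001d0003d00068000020007400029000410005d0006d000860008700072000090006f0000400006,
0x10000440003100026000580007a00032000110000000080000810002f00071000760001e000220003e0006900003000750002a000420005e000730006e0000a0008700005000700008800007,
0x2a0000800000,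
0x8800000,
0x7600001,
0x54000650002b0005b0007f,
0x2d0007e000520003f0006700000,
0x11000360003d0005e00080000830008800034000090007b0003100047000650008400078000330007c0002900055000120000a0000d00005000040000200003,
0x400005e0003f000830003c0001e00012000370007f0002c0004c00028000430008c00089000350000a0007c0003200048000660008500079000340007d0002a00056000130000b00063000510007300000000060000e000050000300004,
0x5e0003e000400006c0006d000540001f00013000380008a000530002800043000800002d0004d0002900044000010008d0008c000360000b0007d000330007e0002b00057000140004900067000860007a000350000c0000700005000040000f00006,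
0x8000003000010002600024000000004c0006600029000520004400074000810002e0004e0002a00045000020008d0008e000370000c0007e000340004a00068000870007f0007b0002c00036000580000d0001500005000080000600010,
0x81000040004300027000250006e00040000600006100067000530007500066000540007600056000210004f0002b000460008400041000230004d0002a0004500063000360008d0008e000870008f0003800017000350004b00069000880007c0001f000790003e0001d0004a00074000800002d0006400047000720007b0002800048000730000d000060000900011000130000000008,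
0x50008200028000400007000087000430000000022000500002c000470008500042000240004e00056000680002b00054000460007600064000370008e0008f000900003900018000360004c0006a000890007d000200007a0003f0001e0004b0007500081000880002e00048000730007c000290006500049000740000e000070000a00001000090001200014,
0x8100000,
0x380000c00000,
0x7b00000,
0x5000001,
0x4d00001,
0x7700001,
0x7100002,
0x26000020000f00001,
0x9200001,
0x6600002,
0x8800001,
0x8000001,
0x2d0001f00001,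
0x5700001,
0x8900001,
0x7500001,
0x5000008000250000000001]

end D40

theorem inst_40 : instB 0 [0, 2] [7, 9] [] D40.base D40.gads D40.names D40.cnf D40.db D40.prf = true := by decide +kernel

/-- no gadget has fewer than `2 R` new points. -/
theorem p2_40 : D40.gads.all (fun g => Nat.ble (2 * g.R) g.gs.length) = true := by decide +kernel

/-- there is no configuration of this instance. -/
theorem no_40 {V : Type v} [DecidableEq V] {ι : Type u} [Fintype ι] {B : ι → Finset V}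
    {Q : Finset V} {i j : ι} {x : ℕ → V} {D : ℕ → Finset V}
    (h : CfI B Q 0 x D i j [0, 2] [7, 9]) : False :=
  h.absurd (by decide) srt_nil inst_40

end Pool.Agent.Hyp6
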