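import Pool.Agent.Hyp6.Cb5

/-!
# HYP6: instance 41 of the list: n = 0, bounds [0, 2], inner blocks [7, 11]

45 base clauses, 16 gadgets, 37 learned clauses.
-/

set_option autoImplicit false
set_option maxRecDepth 100000

namespace Pool.Agent.Hyp6

open Rup

universe u v

namespace D41

noncomputable def names : Tr :=
 (.node 23 (.node 11 (.node 5 (.node 2 (.node 0 (.leaf 130)
 (.node 1 (.leaf 258)
 (.leaf 34)))
 (.node 3 (.leaf 2307)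
 (.node 4 (.leaf 33)
 (.leaf 16769))))
 (.node 8 (.node 6 (.leaf 129)
 (.node 7 (.leaf 2114)
 (.leaf 65)))
 (.node 9 (.leaf 2179)
 (.node 10 (.leaf 257)
 (.leaf 16545)))))
 (.node 17 (.node 14 (.node 12 (.leaf 16673)
 (.node 13 (.leaf 8289)
 (.leaf 2113)))
 (.node 15 (.leaf 2308)
 (.node 16 (.leaf 2083)
 (.leaf 2115))))
 (.node 20 (.node 18 (.leaf 66)
 (.node 19 (.leaf 2177)
 (.leaf 16513)))
 (.node 21 (.leaf 16641)
 (.node 22 (.leaf 18561)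
 (.leaf 18689))))))
 (.node 35 (.node 29 (.node 26 (.node 24 (.leaf 18817)
 (.node 25 (.leaf 16577)
 (.leaf 16705)))
 (.node 27 (.leaf 18753)
 (.node 28 (.leaf 18625)
 (.leaf 98))))
 (.node 32 (.node 30 (.leaf 35)
 (.node 31 (.leaf 131)
 (.leaf 132)))
 (.node 33 (.leaf 259)
 (.node 34 (.leaf 260)
 (.leaf 8353)))))
 (.node 41 (.node 38 (.node 36 (.leaf 8481)
 (.node 37 (.leaf 2081)
 (.leaf 2180)))
 (.node 39 (.leaf 2305)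
 (.node 40 (.leaf 16417)
 (.leaf 16449))))
 (.node 44 (.node 42 (.leaf 18465)
 (.node 43 (.leaf 18497)
 (.leaf 18721)))
 (.node 45 (.leaf 18593)
 (.node 46 (.leaf 162)
 (.leaf 290)))))))

noncomputable def base : List Rs := [
.ordE 0 4 2,
.ordE 0 16 1,
.ordE 0 16 2,
.ordE 0 16 3,
.ordE 0 32 2,
.ordE 0 32 3,
.l2 0 12 20 2 1 1,
.l2 0 12 36 2 1 1,
.ordE 1 8 1,
.ordE 1 32 3,
.deg 2 [0, 2],
.deg 2 [2, 0],
.deg 3 [0, 2],
.deg 3 [1, 1],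
.deg 4 [0, 3],
.deg 4 [1, 2],
.deg 4 [3, 0],
.deg 5 [0, 3],
.deg 5 [1, 2],
.deg 5 [3, 0],
.ab 0 2,
.ab 0 3,
.ab 0 4,
.ab 0 5,
.ab 1 2,
.ab 1 3,
.ab 1 4,
.ab 1 5,
.hall [0] [3, 5],
.hall [1] [3, 4],
.part [20, 32] [0, 0] [11] [],
.part [36, 16] [0, 0] [11] [],
.part [4, 48] [0, 0] [11] [],
.part [48, 4] [0, 0] [11] [],
.part [16, 36] [0, 0] [11] [],
.part [32, 20] [0, 0] [11] [],
.part [24, 32] [0, 0] [7] [],
.part [40, 16] [0, 0] [7] [],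
.part [8, 48] [0, 0] [7] [],
.part [48, 8] [0, 0] [7] [],
.part [16, 40] [0, 0] [7] [],
.part [32, 24] [0, 0] [7] [],
.join 0 4 4 2 1 1 [(2, 0)],
.join 0 4 5 2 1 1 [(2, 0)],
.join 0 4 3 2 1 1 [(2, 0)]]

noncomputable def gads : List Gt := [
⟨0, [⟨8, 2, []⟩, ⟨32, 2, []⟩], [3, 3, 3], 1, [(40, 1)]⟩,
⟨0, [⟨8, 2, []⟩, ⟨16, 2, []⟩], [3, 3, 3], 1, [(24, 1)]⟩,
⟨0, [⟨16, 2, []⟩, ⟨32, 2, []⟩], [3, 3, 3], 1, [(48, 1)]⟩,
⟨0, [⟨4, 2, []⟩, ⟨32, 2, []⟩], [3, 3, 3], 1, [(36, 1)]⟩,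
⟨0, [⟨4, 2, []⟩, ⟨16, 2, []⟩], [3, 3, 3], 1, [(20, 1)]⟩,
⟨1, [⟨8, 3, []⟩, ⟨32, 3, []⟩], [3, 3], 1, [(40, 1)]⟩,
⟨1, [⟨8, 3, []⟩, ⟨16, 3, []⟩], [3, 3], 1, [(24, 1)]⟩,
⟨1, [⟨16, 3, []⟩, ⟨32, 3, []⟩], [3, 3], 1, [(48, 1)]⟩,
⟨1, [⟨4, 3, []⟩, ⟨16, 3, []⟩], [3, 3], 1, [(20, 1)]⟩,
⟨1, [⟨4, 3, []⟩, ⟨32, 3, []⟩], [3, 3], 1, [(36, 1)]⟩,
⟨1, [⟨8, 2, []⟩, ⟨16, 4, []⟩], [3, 1, 1], 1, [(24, 1)]⟩,
⟨1, [⟨8, 2, []⟩, ⟨32, 4, []⟩], [3, 1, 1], 1, [(40, 1)]⟩,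
⟨0, [⟨20, 2, []⟩, ⟨32, 2, []⟩], [3, 3, 3], 1, [(36, 1), (48, 1)]⟩,
⟨0, [⟨36, 2, []⟩, ⟨16, 2, []⟩], [3, 3, 3], 1, [(20, 1), (48, 1)]⟩,
⟨0, [⟨12, 2, []⟩, ⟨32, 2, []⟩], [3, 3, 3], 1, [(36, 1), (40, 1)]⟩,
⟨0, [⟨12, 2, []⟩, ⟨16, 2, []⟩], [3, 3, 3], 1, [(20, 1), (24, 1)]⟩]

noncomputable def cnf : List (List ℕ) := [
[61, 4],
[1, 12],
[63, 0],
[65, 62],
[67, 2],
[69, 66],
[27, 71, 4],
[27, 73, 4],
[15, 28],
[31, 6],
[8, 32],
[60, 74],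
[16, 34],
[36, 14],
[12, 76],
[0, 18],
[64, 38],
[20, 30],
[2, 6],
[68, 78],
[9, 81],
[17, 83],
[13, 41],
[21, 43],
[75, 85],
[29, 87],
[39, 45],
[79, 47],
[16, 20],
[28, 38],
[22, 46],
[24, 44],
[80, 48],
[10, 84],
[40, 88],
[42, 90],
[50, 46],
[52, 44],
[82, 48],
[10, 86],
[40, 54],
[42, 56],
[9, 13, 92, 70],
[9, 21, 94, 72],
[9, 17, 58, 26],
[37, 3, 53],
[37, 1, 51],
[1, 3, 11],
[5, 3, 25],
[5, 1, 23],
[35, 7, 55],
[35, 19, 57],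
[19, 7, 49],
[33, 19, 91],
[33, 7, 89],
[15, 77, 57],
[15, 31, 55],
[93, 3, 25, 11],
[95, 1, 23, 11],
[59, 3, 25, 53],
[59, 1, 23, 51]]

noncomputable def db : Tr :=
 (.node 49 (.node 24 (.node 12 (.node 6 (.node 3 (.node 1 (.leaf 0x6003f)
 (.node 2 (.leaf 0xe0003)
 (.leaf 0x20041)))
 (.node 4 (.leaf 0x400043)
 (.node 5 (.leaf 0x40045)
 (.leaf 0x440047))))
 (.node 9 (.node 7 (.leaf 0x60049001d)
 (.node 8 (.leaf 0x6004b001d)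
 (.leaf 0x1e0011)))
 (.node 10 (.leaf 0x80021)
 (.node 11 (.leaf 0x22000a)
 (.leaf 0x4c003e)))))
 (.node 18 (.node 15 (.node 13 (.leaf 0x240012)
 (.node 14 (.leaf 0x100026)
 (.leaf 0x4e000e)))
 (.node 16 (.leaf 0x140002)
 (.node 17 (.leaf 0x280042)
 (.leaf 0x200016))))
 (.node 21 (.node 19 (.leaf 0x80004)
 (.node 20 (.leaf 0x500046)
 (.leaf 0x53000b)))
 (.node 22 (.leaf 0x550013)
 (.node 23 (.leaf 0x2b000f)
 (.leaf 0x2d0017))))))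
 (.node 36 (.node 30 (.node 27 (.node 25 (.leaf 0x57004d)
 (.node 26 (.leaf 0x59001f)
 (.leaf 0x2f0029)))
 (.node 28 (.leaf 0x310051)
 (.node 29 (.leaf 0x160012)
 (.leaf 0x28001e))))
 (.node 33 (.node 31 (.leaf 0x300018)
 (.node 32 (.leaf 0x2e001a)
 (.leaf 0x320052)))
 (.node 34 (.leaf 0x56000c)
 (.node 35 (.leaf 0x5a002a)
 (.leaf 0x5c002c)))))
 (.node 42 (.node 39 (.node 37 (.leaf 0x300034)
 (.node 38 (.leaf 0x2e0036)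
 (.leaf 0x320054)))
 (.node 40 (.leaf 0x58000c)
 (.node 41 (.leaf 0x38002a)
 (.leaf 0x3a002c))))
 (.node 45 (.node 43 (.leaf 0x48005e000f000b)
 (.node 44 (.leaf 0x4a00600017000b)
 (.leaf 0x1c003c0013000b)))
 (.node 47 (.node 46 (.leaf 0x3700050027)
 (.leaf 0x3500030027))
 (.node 48 (.leaf 0xd00050003)
 (.leaf 0x1b00050007)))))))
 (.node 73 (.node 61 (.node 55 (.node 52 (.node 50 (.leaf 0x1900030007)
 (.node 51 (.leaf 0x3900090025)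
 (.leaf 0x3b00150025)))
 (.node 53 (.leaf 0x3300090015)
 (.node 54 (.leaf 0x5d00150023)
 (.leaf 0x5b00090023))))
 (.node 58 (.node 56 (.leaf 0x3b004f0011)
 (.node 57 (.leaf 0x3900210011)
 (.leaf 0xd001b0005005f)))
 (.node 59 (.leaf 0xd001900030061)
 (.node 60 (.leaf 0x37001b0005003d)
 (.leaf 0x3500190003003d)))))
 (.node 67 (.node 64 (.node 62 (.leaf 0x5f000d0005)
 (.node 63 (.leaf 0x90015)
 (.leaf 0x3d0004)))
 (.node 65 (.leaf 0x5001e)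
 (.node 66 (.leaf 0x3d)
 (.leaf 0x5000d))))
 (.node 70 (.node 68 (.leaf 0x5)
 (.node 69 (.leaf 0x45)
 (.leaf 0x8)))
 (.node 71 (.leaf 0x47)
 (.node 72 (.leaf 0x15)
 (.leaf 0x50))))))
 (.node 85 (.node 79 (.node 76 (.node 74 (.leaf 0x2)
 (.node 75 (.leaf 0x31)
 (.leaf 0xe)))
 (.node 77 (.leaf 0x18)
 (.node 78 (.leaf 0x34)
 (.leaf 0x2b))))
 (.node 82 (.node 80 (.leaf 0x7)
 (.node 81 (.leaf 0x27)
 (.leaf 0x5a)))
 (.node 83 (.leaf 0x38)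
 (.node 84 (.leaf 0x3f)
 (.leaf 0x10)))))
 (.node 91 (.node 88 (.node 86 (.leaf 0x23)
 (.node 87 (.leaf 0x25)
 (.leaf 0x4c)))
 (.node 89 (.leaf 0x21)
 (.node 90 (.leaf 0xa)
 (.leaf 0x12))))
 (.node 94 (.node 92 (.leaf 0x57)
 (.node 93 (.leaf 0x16)
 (.leaf 0x1c)))
 (.node 96 (.node 95 (.leaf 0xc)
 (.leaf 0x4b))
 (.node 97 (.leaf 0x61)
 (.leaf 0x0))))))))

noncomputable def prf : List ℕ := [
0x2c00022000390001d0003a000030000d,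
0x1a000260000800021000330002800029000170001d00009,
0x2f000020001a00020000230002b000390002c0003a,
0x1a0001200025000320002200037,
0x50001b0002100026000300003d0003e0001100019000270000000001,
0x3b00017000150003300035000370000a0000e0000c00034000180001e00014000110002a0001c0002200030000270003800031000030003e000320003f000120000400000,
0x1b0002900002,
0x3f00000,
0x3200001,
0x4000001,
0x800001,
0x3400001,
0x3900001,
0x2e00001,
0x4900001,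
0x2d00001,
0x2800002,
0x3700002,
0x1d0000500002,
0x210000600002,
0x2e00002,
0x2900003,
0x5200003,
0x4600003,
0x1e0000f00003,
0x230001000003,
0x4b00003,
0x1f0000500003,
0x4e00003,
0x4d00003,
0x4200003,
0x4a00003,
0x300001b0000200003,
0x3c00002,
0x570000f00001,
0x25000130001600001,
0x3500007000040000000001]

end D41

theorem inst_41 : instB 0 [0, 2] [7, 11] [] D41.base D41.gads D41.names D41.cnf D41.db D41.prf = true := by decide +kernel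

/-- no gadget has fewer than `2 R` new points. -/
theorem p2_41 : D41.gads.all (fun g => Nat.ble (2 * g.R) g.gs.length) = true := by decide +kernel

/-- there is no configuration of this instance. -/
theorem no_41 {V : Type v} [DecidableEq V] {ι : Type u} [Fintype ι] {B : ι → Finset V}
    {Q : Finset V} {i j : ι} {x : ℕ → V} {D : ℕ → Finset V}
    (h : CfI B Q 0 x D i j [0, 2] [7, 11]) : False :=
  h.absurd (by decide) srt_nil inst_41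

end Pool.Agent.Hyp6
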