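import Pool.Agent.Hyp6.Cb5

/-!
# HYP6: instance 42 of the list: n = 0, bounds [0, 2], inner blocks [7, 25]

118 base clauses, 37 gadgets, 78 learned clauses.
-/

set_option autoImplicit false
set_option maxRecDepth 100000

namespace Pool.Agent.Hyp6

open Rup

universe u v

namespace D42

noncomputable def names : Tr :=
 (.node 57 (.node 28 (.node 13 (.node 6 (.node 2 (.node 0 (.leaf 2307)
 (.node 1 (.leaf 258)
 (.leaf 2083)))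
 (.node 4 (.node 3 (.leaf 34)
 (.leaf 17))
 (.node 5 (.leaf 2082)
 (.leaf 33))))
 (.node 9 (.node 7 (.leaf 18721)
 (.node 8 (.leaf 18)
 (.leaf 18705)))
 (.node 11 (.node 10 (.leaf 18753)
 (.leaf 2057))
 (.node 12 (.leaf 2339)
 (.leaf 2323)))))
 (.node 20 (.node 16 (.node 14 (.leaf 18817)
 (.node 15 (.leaf 9)
 (.leaf 2308)))
 (.node 18 (.node 17 (.leaf 16649)
 (.leaf 18481))
 (.node 19 (.leaf 16673)
 (.leaf 2316))))
 (.node 24 (.node 22 (.node 21 (.leaf 16657)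
 (.leaf 2066))
 (.node 23 (.leaf 2177)
 (.leaf 2113)))
 (.node 26 (.node 25 (.leaf 2081)
 (.leaf 2065))
 (.node 27 (.leaf 18697)
 (.leaf 129))))))
 (.node 42 (.node 35 (.node 31 (.node 29 (.leaf 18473)
 (.node 30 (.leaf 65)
 (.leaf 2115)))
 (.node 33 (.node 32 (.leaf 2067)
 (.leaf 2179))
 (.node 34 (.leaf 130)
 (.leaf 66))))
 (.node 38 (.node 36 (.leaf 8289)
 (.node 37 (.leaf 8353)
 (.leaf 10505)))
 (.node 40 (.node 39 (.leaf 10337)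
 (.leaf 2211))
 (.node 41 (.leaf 16769)
 (.leaf 2178)))))
 (.node 49 (.node 45 (.node 43 (.leaf 18513)
 (.node 44 (.leaf 16705)
 (.leaf 8241)))
 (.node 47 (.node 46 (.leaf 2114)
 (.leaf 2147))
 (.node 48 (.leaf 18449)
 (.leaf 8337))))
 (.node 53 (.node 51 (.node 50 (.leaf 16401)
 (.leaf 18465))
 (.node 52 (.leaf 2099)
 (.leaf 10289)))
 (.node 55 (.node 54 (.leaf 16425)
 (.leaf 8273))
 (.node 56 (.leaf 16417)
 (.leaf 10265)))))))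
 (.node 86 (.node 71 (.node 64 (.node 60 (.node 58 (.leaf 18457)
 (.node 59 (.leaf 2075)
 (.leaf 10321)))
 (.node 62 (.node 61 (.leaf 16513)
 (.leaf 26))
 (.node 63 (.leaf 8217)
 (.leaf 2091))))
 (.node 67 (.node 65 (.leaf 10281)
 (.node 66 (.leaf 131)
 (.leaf 10507)))
 (.node 69 (.node 68 (.leaf 2059)
 (.leaf 67))
 (.node 70 (.leaf 257)
 (.leaf 18577)))))
 (.node 78 (.node 74 (.node 72 (.leaf 10)
 (.node 73 (.leaf 18529)
 (.leaf 16529)))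
 (.node 76 (.node 75 (.leaf 10401)
 (.leaf 16641))
 (.node 77 (.leaf 16393)
 (.leaf 18497))))
 (.node 82 (.node 80 (.node 79 (.leaf 10403)
 (.leaf 10532))
 (.node 81 (.leaf 2058)
 (.leaf 16545)))
 (.node 84 (.node 83 (.leaf 10385)
 (.leaf 18842))
 (.node 85 (.leaf 2060)
 (.leaf 98))))))
 (.node 100 (.node 93 (.node 89 (.node 87 (.leaf 10529)
 (.node 88 (.leaf 19)
 (.leaf 16409)))
 (.node 91 (.node 90 (.leaf 18561)
 (.leaf 10508))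
 (.node 92 (.leaf 10516)
 (.leaf 2068))))
 (.node 96 (.node 94 (.leaf 18593)
 (.node 95 (.leaf 2243)
 (.leaf 10434)))
 (.node 98 (.node 97 (.leaf 16481)
 (.leaf 42))
 (.node 99 (.leaf 8233)
 (.leaf 16465)))))
 (.node 107 (.node 103 (.node 101 (.leaf 10531)
 (.node 102 (.leaf 50)
 (.leaf 162)))
 (.node 105 (.node 104 (.leaf 2195)
 (.leaf 10514))
 (.node 106 (.leaf 10402)
 (.leaf 16433))))
 (.node 111 (.node 109 (.node 108 (.leaf 18441)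
 (.leaf 16449))
 (.node 110 (.leaf 82)
 (.leaf 35)))
 (.node 113 (.node 112 (.leaf 2315)
 (.leaf 146))
 (.node 114 (.leaf 10513)
 (.leaf 2131))))))))

noncomputable def base : List Rs := [
.l2 0 12 20 2 1 1,
.l2 0 6 20 2 1 1,
.part [16, 40] [0, 0] [7] [],
.le 1 33 1 0 1,
.join 0 1 1 2 1 1 [(0, 0)],
.hall [0] [0, 1],
.join 1 1 2 3 1 2 [(0, 0)],
.deg 4 [2, 0],
.le 1 33 1 0 3,
.deg 3 [2, 0],
.deg 5 [0, 3],
.part [33, 18] [0, 0] [] [(0, 12)],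
.hall [0, 1] [2],
.join 1 4 3 3 1 2 [(2, 0)],
.ab 1 1,
.deg 0 [1, 0],
.part [33, 12] [0, 0] [] [(0, 18)],
.part [18, 33] [0, 0] [] [(1, 12)],
.join 1 4 4 3 2 1 [(2, 0)],
.ab 0 5,
.part [1, 6] [0, 0] [56] [],
.part [48, 8] [0, 0] [7] [],
.part [36, 2] [0, 0] [25] [],
.join 1 4 4 3 3 2 [(2, 2)],
.ab 0 4,
.le 1 36 32 5 4,
.deg 0 [0, 1],
.part [20, 10] [0, 0] [] [(1, 33)],
.deg 2 [1, 1],
.l2 0 6 12 2 1 1,
.join 1 1 5 4 2 4 [(0, 2)],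
.deg 2 [0, 2],
.part [2, 5] [0, 0] [56] [],
.lipl 1 33 51 1 18,
.join 1 1 5 4 4 4 [(0, 4)],
.join 0 4 3 2 1 1 [(2, 0)],
.deg 3 [0, 2],
.deg 5 [1, 2],
.join 1 1 5 4 1 3 [(0, 0)],
.ab 0 1,
.ab 0 0,
.part [34, 4] [0, 0] [25] [],
.hall [0] [1, 2],
.join 1 4 5 3 3 0 [(2, 0)],
.ordE 0 2 2,
.deg 1 [0, 2],
.part [3, 4] [0, 0] [56] [],
.le 1 20 16 4 3,
.join 1 2 2 3 1 2 [(1, 0)],
.join 1 4 5 3 3 4 [(2, 4)],
.part [5, 2] [0, 0] [56] [],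
.deg 4 [1, 1],
.ab 1 4,
.ordE 0 8 2,
.ab2 1 5,
.part [32, 6] [0, 0] [25] [],
.join 1 1 5 4 3 4 [(0, 3)],
.ab2 1 36,
.le 1 34 2 1 4,
.part [33, 20] [0, 0] [] [(0, 10)],
.join 1 8 4 3 2 2 [(3, 1)],
.ordE 1 4 2,
.part [2, 36] [0, 0] [25] [],
.part [12, 51] [0, 1] [] [],
.join 0 1 2 2 1 1 [(0, 0)],
.part [10, 33] [0, 0] [] [(1, 20)],
.hall [1] [0, 1],
.ab 0 2,
.le 1 36 4 2 3,
.join 0 2 2 2 1 1 [(1, 0)],
.ab2 0 5,
.part [4, 34] [0, 0] [25] [],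
.deg 1 [2, 0],
.ab2 1 3,
.ordE 0 16 2,
.join 1 1 1 3 1 2 [(0, 0)],
.join 0 4 4 2 1 1 [(2, 0)],
.ab2 0 3,
.join 1 2 4 3 2 1 [(1, 0)],
.join 1 2 5 3 1 3 [(1, 1)],
.ab2 1 6,
.deg 3 [1, 1],
.deg 4 [0, 2],
.join 1 2 5 3 4 3 [(1, 4)],
.join 1 4 5 3 2 3 [(2, 2)],
.ab2 1 10,
.join 1 4 4 3 2 2 [(2, 1)],
.join 1 2 5 3 3 3 [(1, 3)],
.part [6, 1] [0, 0] [56] [],
.hall [1] [3, 4],
.ab 0 3,
.l2 1 12 20 2 1 2,
.hall [0] [3, 4],
.join 0 2 3 2 1 1 [(1, 0)],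
.part [4, 3] [0, 0] [56] [],
.ab 1 3,
.join 1 2 2 3 2 1 [(1, 0)],
.ab 1 0,
.join 1 4 5 3 3 3 [(2, 3)],
.ordE 0 4 2,
.part [33, 10] [0, 0] [] [(0, 20)],
.l2 1 10 24 3 1 2,
.join 1 4 3 3 2 1 [(2, 0)],
.ab 1 2,
.hall [0] [0, 2],
.join 1 1 5 3 0 3 [(0, 0)],
.ordE 0 2 1,
.part [8, 48] [0, 0] [7] [],
.l2 0 10 18 1 1 1,
.l2 1 3 34 1 1 2,
.part [40, 16] [0, 0] [7] [],
.join 0 2 4 2 1 1 [(1, 0)],
.join 1 2 5 3 3 0 [(1, 0)],
.deg 1 [1, 1],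
.ab2 1 34,
.le 1 33 1 0 4,
.join 1 2 3 3 2 1 [(1, 0)],
.deg 2 [2, 0]]

noncomputable def gads : List Gt := [
⟨1, [⟨36, 3, []⟩, ⟨8, 3, []⟩], [3, 3], 1, [(12, 1), (40, 1)]⟩,
⟨0, [⟨2, 2, []⟩, ⟨32, 2, []⟩], [3, 3, 3], 1, [(34, 1)]⟩,
⟨1, [⟨24, 3, []⟩, ⟨32, 3, []⟩], [3, 3], 1, [(40, 1), (48, 1)]⟩,
⟨0, [⟨2, 2, []⟩, ⟨8, 2, []⟩], [3, 3, 3], 1, [(10, 1)]⟩,
⟨1, [⟨6, 3, []⟩, ⟨32, 3, []⟩], [3, 3], 1, [(34, 1), (36, 1)]⟩,
⟨0, [⟨2, 2, []⟩, ⟨4, 2, []⟩], [3, 3, 3], 1, [(6, 1)]⟩,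
⟨0, [⟨10, 2, []⟩, ⟨32, 2, []⟩], [3, 3, 3], 1, [(34, 1), (40, 1)]⟩,
⟨1, [⟨20, 3, []⟩, ⟨32, 3, []⟩], [3, 3], 1, [(36, 1), (48, 1)]⟩,
⟨1, [⟨4, 3, []⟩, ⟨34, 3, []⟩], [3, 3], 1, [(6, 1), (36, 1)]⟩,
⟨1, [⟨34, 3, []⟩, ⟨8, 3, []⟩], [3, 3], 1, [(10, 1), (40, 1)]⟩,
⟨0, [⟨4, 2, []⟩, ⟨32, 2, []⟩], [3, 3, 3], 1, [(36, 1)]⟩,
⟨1, [⟨33, 4, []⟩, ⟨4, 2, []⟩], [3, 2, 2], 1, [(5, 1), (36, 1)]⟩,
⟨1, [⟨12, 3, []⟩, ⟨32, 3, []⟩], [3, 3], 1, [(36, 1), (40, 1)]⟩,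
⟨0, [⟨12, 2, []⟩, ⟨32, 2, []⟩], [3, 3, 3], 1, [(36, 1), (40, 1)]⟩,
⟨1, [⟨8, 3, []⟩, ⟨32, 3, []⟩], [3, 3], 1, [(40, 1)]⟩,
⟨0, [⟨4, 2, []⟩, ⟨8, 2, []⟩], [3, 3, 3], 1, [(12, 1)]⟩,
⟨0, [⟨8, 2, []⟩, ⟨32, 2, []⟩], [3, 3, 3], 1, [(40, 1)]⟩,
⟨1, [⟨5, 3, []⟩, ⟨32, 3, []⟩], [3, 3], 1, [(33, 1), (36, 1)]⟩,
⟨0, [⟨2, 2, []⟩, ⟨16, 2, []⟩], [3, 3, 3], 1, [(18, 1)]⟩,
⟨1, [⟨3, 3, []⟩, ⟨4, 3, []⟩], [3, 3], 1, [(5, 1), (6, 1)]⟩,
⟨0, [⟨16, 2, []⟩, ⟨32, 2, []⟩], [3, 3, 3], 1, [(48, 1)]⟩,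
⟨1, [⟨34, 3, []⟩, ⟨16, 3, []⟩], [3, 3], 1, [(18, 1), (48, 1)]⟩,
⟨0, [⟨3, 2, []⟩, ⟨32, 2, []⟩], [3, 3, 3], 1, [(33, 1), (34, 1)]⟩,
⟨0, [⟨18, 2, []⟩, ⟨32, 2, []⟩], [3, 3, 3], 1, [(34, 1), (48, 1)]⟩,
⟨0, [⟨1, 2, []⟩, ⟨4, 2, []⟩], [3, 3, 3], 1, [(5, 1)]⟩,
⟨1, [⟨10, 3, []⟩, ⟨32, 3, []⟩], [3, 3], 1, [(34, 1), (40, 1)]⟩,
⟨0, [⟨4, 2, []⟩, ⟨16, 2, []⟩], [3, 3, 3], 1, [(20, 1)]⟩,
⟨1, [⟨3, 3, []⟩, ⟨32, 3, []⟩], [3, 3], 1, [(33, 1), (34, 1)]⟩,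
⟨1, [⟨33, 4, []⟩, ⟨2, 2, []⟩], [3, 2, 2], 1, [(3, 1), (34, 1)]⟩,
⟨1, [⟨16, 3, []⟩, ⟨32, 3, []⟩], [3, 3], 1, [(48, 1)]⟩,
⟨1, [⟨33, 3, []⟩, ⟨4, 3, []⟩], [3, 3], 1, [(5, 1), (36, 1)]⟩,
⟨1, [⟨36, 3, []⟩, ⟨16, 3, []⟩], [3, 3], 1, [(20, 1), (48, 1)]⟩,
⟨1, [⟨2, 3, []⟩, ⟨36, 3, []⟩], [3, 3], 1, [(6, 1), (34, 1)]⟩,
⟨1, [⟨18, 3, []⟩, ⟨32, 3, []⟩], [3, 3], 1, [(34, 1), (48, 1)]⟩,
⟨0, [⟨6, 2, []⟩, ⟨32, 2, []⟩], [3, 3, 3], 1, [(34, 1), (36, 1)]⟩,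
⟨0, [⟨5, 2, []⟩, ⟨32, 2, []⟩], [3, 3, 3], 1, [(33, 1), (36, 1)]⟩,
⟨0, [⟨20, 2, []⟩, ⟨32, 2, []⟩], [3, 3, 3], 1, [(36, 1), (48, 1)]⟩]

noncomputable def cnf : List (List ℕ) := [
[73, 75, 6],
[91, 75, 6],
[122, 20],
[77, 22],
[31, 9, 124, 126],
[30, 8],
[23, 11, 128, 130],
[132, 46],
[135, 136],
[138, 48],
[140, 32],
[34, 142, 73],
[12, 50],
[51, 93, 94, 78],
[53, 97],
[144, 22],
[34, 146, 99],
[148, 54, 79],
[11, 47, 80, 150],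
[141, 153],
[154, 36],
[82, 156],
[38, 96],
[5, 85, 80, 158],
[57, 123],
[161, 32],
[30, 162],
[164, 86, 77],
[6, 10],
[91, 73, 6],
[163, 33, 40, 134],
[12, 4],
[100, 58],
[167, 169, 54],
[171, 33, 40],
[13, 61, 172, 72],
[60, 62],
[2, 0],
[23, 1, 40, 76],
[9, 101],
[31, 155],
[42, 102],
[8, 12],
[5, 24, 174],
[177, 16],
[8, 64],
[178, 102],
[159, 66],
[53, 11, 104, 106],
[5, 33, 24],
[108, 96],
[68, 84],
[47, 181],
[139, 70],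
[131, 59],
[152, 36],
[137, 33, 40, 182],
[175, 15],
[185, 186],
[34, 188, 111],
[93, 85, 190, 192],
[5, 10],
[100, 14],
[194, 168],
[31, 13, 196, 198],
[200, 54, 151],
[22, 52],
[13, 113],
[203, 4],
[9, 13, 204, 90],
[199, 109],
[112, 18],
[176, 52],
[115, 117],
[133, 68],
[23, 45, 118, 114],
[13, 57, 206, 74],
[127, 179],
[45, 47, 208, 166],
[53, 1, 26, 210],
[107, 37],
[70, 92],
[56, 66],
[187, 1, 26],
[11, 1, 24, 202],
[121, 87],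
[11, 85, 80, 212],
[65, 1, 26, 184],
[214, 216],
[48, 46],
[61, 219],
[79, 213, 4],
[60, 56],
[9, 61, 220, 110],
[112, 116],
[49, 157],
[45, 51, 104, 106],
[23, 217],
[5, 1, 24, 160],
[223, 6],
[34, 86, 75],
[121, 193, 62],
[11, 49, 94, 78],
[51, 103],
[30, 12],
[1, 224, 76],
[17, 8],
[218, 28],
[111, 99, 16],
[115, 211, 64],
[88, 180],
[9, 57, 226, 98],
[65, 26, 228],
[16, 44],
[229, 19],
[183, 170],
[45, 49, 230, 120],
[222, 50],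
[25, 63, 147, 21],
[17, 3, 43],
[191, 1, 21, 29],
[17, 71, 201],
[105, 1, 19, 15],
[17, 7, 215],
[221, 3, 43, 89],
[81, 1, 15, 29],
[5, 27, 37, 15],
[27, 63, 87, 21],
[7, 3, 39],
[41, 11, 59, 15],
[95, 1, 15, 21],
[173, 3, 39, 89],
[63, 1, 21],
[7, 71, 195],
[71, 3, 89],
[129, 1, 55, 15],
[17, 69, 149],
[119, 5, 59, 37],
[69, 3, 83],
[27, 67, 143, 29],
[125, 3, 35, 43],
[227, 3, 43, 83],
[145, 7, 109],
[231, 1, 19, 21],
[7, 69, 165],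
[119, 1, 55, 19],
[41, 45, 117, 19],
[67, 1, 29],
[225, 5, 59, 15],
[25, 67, 189, 29],
[65, 25, 37, 19],
[209, 1, 19, 29],
[205, 3, 43, 39],
[197, 3, 35, 39],
[207, 3, 39, 83]]

noncomputable def db : Tr :=
 (.node 116 (.node 58 (.node 29 (.node 14 (.node 7 (.node 3 (.node 1 (.leaf 0x8004d004b)
 (.node 2 (.leaf 0x8004d005d)
 (.leaf 0x16007c)))
 (.node 5 (.node 4 (.leaf 0x18004f)
 (.leaf 0x80007e000b0021))
 (.node 6 (.leaf 0xa0020)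
 (.leaf 0x840082000d0019))))
 (.node 10 (.node 8 (.leaf 0x300086)
 (.node 9 (.leaf 0x8a0089)
 (.leaf 0x32008c)))
 (.node 12 (.node 11 (.leaf 0x22008e)
 (.leaf 0x4b00900024))
 (.node 13 (.leaf 0x34000e)
 (.leaf 0x500060005f0035)))))
 (.node 21 (.node 17 (.node 15 (.leaf 0x630037)
 (.node 16 (.leaf 0x180092)
 (.leaf 0x6500940024)))
 (.node 19 (.node 18 (.leaf 0x5100380096)
 (.leaf 0x9800520031000d))
 (.node 20 (.leaf 0x9b008f)
 (.leaf 0x26009c))))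
 (.node 25 (.node 23 (.node 22 (.leaf 0x9e0054)
 (.leaf 0x620028))
 (.node 24 (.leaf 0xa0005200570007)
 (.leaf 0x7d003b)))
 (.node 27 (.node 26 (.leaf 0x2200a3)
 (.leaf 0xa40020))
 (.node 28 (.leaf 0x4f005800a6)
 (.leaf 0xc0008))))))
 (.node 43 (.node 36 (.node 32 (.node 30 (.leaf 0x8004b005d)
 (.node 31 (.leaf 0x88002a002300a5)
 (.leaf 0x6000e)))
 (.node 34 (.node 33 (.leaf 0x3c0066)
 (.leaf 0x3800ab00a9))
 (.node 35 (.leaf 0x2a002300ad)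
 (.leaf 0x4a00ae003f000f))))
 (.node 39 (.node 37 (.leaf 0x40003e)
 (.node 38 (.leaf 0x20004)
 (.leaf 0x4e002a00030019)))
 (.node 41 (.node 40 (.leaf 0x67000b)
 (.leaf 0x9d0021))
 (.node 42 (.leaf 0x68002c)
 (.leaf 0xe000a)))))
 (.node 50 (.node 46 (.node 44 (.leaf 0xb0001a0007)
 (.node 45 (.leaf 0x1200b3)
 (.leaf 0x42000a)))
 (.node 48 (.node 47 (.leaf 0x6800b4)
 (.leaf 0x4400a1))
 (.node 49 (.leaf 0x6c006a000d0037)
 (.leaf 0x1a00230007))))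
 (.node 54 (.node 52 (.node 51 (.leaf 0x62006e)
 (.leaf 0x560046))
 (.node 53 (.leaf 0xb70031)
 (.leaf 0x48008d)))
 (.node 56 (.node 55 (.leaf 0x3d0085)
 (.leaf 0x26009a))
 (.node 57 (.leaf 0xb8002a0023008b)
 (.leaf 0x1100b1)))))))
 (.node 87 (.node 72 (.node 65 (.node 61 (.node 59 (.leaf 0xbc00bb)
 (.node 60 (.leaf 0x7100be0024)
 (.leaf 0xc200c00057005f)))
 (.node 63 (.node 62 (.leaf 0xc0007)
 (.leaf 0x100066))
 (.node 64 (.leaf 0xaa00c4)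
 (.leaf 0xc800c6000f0021))))
 (.node 68 (.node 66 (.leaf 0x99003800ca)
 (.node 67 (.leaf 0x360018)
 (.leaf 0x73000f)))
 (.node 70 (.node 69 (.leaf 0x600cd)
 (.leaf 0x5c00ce000f000b))
 (.node 71 (.leaf 0x6f00c9)
 (.leaf 0x140072)))))
 (.node 79 (.node 75 (.node 73 (.leaf 0x3600b2)
 (.node 74 (.leaf 0x770075)
 (.leaf 0x460087)))
 (.node 77 (.node 76 (.leaf 0x740078002f0019)
 (.leaf 0x4c00d0003b000f))
 (.node 78 (.leaf 0xb50081)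
 (.leaf 0xa800d20031002f))))
 (.node 83 (.node 81 (.node 80 (.leaf 0xd4001c00030037)
 (.leaf 0x27006d))
 (.node 82 (.leaf 0x5e0048)
 (.leaf 0x44003a)))
 (.node 85 (.node 84 (.leaf 0x1c000300bd)
 (.leaf 0xcc001a0003000d))
 (.node 86 (.leaf 0x59007b)
 (.leaf 0xd600520057000d))))))
 (.node 101 (.node 94 (.node 90 (.node 88 (.leaf 0xba001c00030043)
 (.node 89 (.leaf 0xda00d8)
 (.leaf 0x300032)))
 (.node 92 (.node 91 (.leaf 0xdd003f)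
 (.leaf 0x600d70051))
 (.node 93 (.leaf 0x3a003e)
 (.leaf 0x7000de003f000b))))
 (.node 97 (.node 95 (.leaf 0x760072)
 (.node 96 (.leaf 0x9f0033)
 (.leaf 0x6c006a0035002f)))
 (.node 99 (.node 98 (.leaf 0xdb0019)
 (.leaf 0xa2001a00030007))
 (.node 100 (.leaf 0x800e1)
 (.leaf 0x4d00580024)))))
 (.node 108 (.node 104 (.node 102 (.leaf 0x4000c3007b)
 (.node 103 (.leaf 0x5000600033000d)
 (.leaf 0x690035)))
 (.node 106 (.node 105 (.leaf 0xe0020)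
 (.leaf 0x4e00e20003))
 (.node 107 (.leaf 0xa0013)
 (.leaf 0x1e00dc))))
 (.node 112 (.node 110 (.node 109 (.leaf 0x1200650071)
 (.leaf 0x4200d50075))
 (.node 111 (.leaf 0xb6005a)
 (.leaf 0x6400e4003b000b)))
 (.node 114 (.node 113 (.leaf 0xe6001c0043)
 (.leaf 0x2e0012))
 (.node 115 (.leaf 0x1500e7)
 (.leaf 0xac00b9))))))))
 (.node 174 (.node 145 (.node 130 (.node 123 (.node 119 (.node 117 (.leaf 0x7a00e80033002f)
 (.node 118 (.leaf 0x3400e0)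
 (.leaf 0x1700950041001b)))
 (.node 121 (.node 120 (.leaf 0x2d00050013)
 (.leaf 0x1f0017000300c1))
 (.node 122 (.leaf 0xcb00490013)
 (.leaf 0x1100150003006b))))
 (.node 126 (.node 124 (.leaf 0xd900090013)
 (.node 125 (.leaf 0x5b002d000500df)
 (.leaf 0x1f001100030053)))
 (.node 128 (.node 127 (.leaf 0x110027001d0007)
 (.leaf 0x1700590041001d))
 (.node 129 (.leaf 0x2900050009)
 (.leaf 0x11003d000d002b)))))
 (.node 137 (.node 133 (.node 131 (.leaf 0x17001100030061)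
 (.node 132 (.leaf 0x5b0029000500af)
 (.leaf 0x1700030041)))
 (.node 135 (.node 134 (.leaf 0xc500490009)
 (.leaf 0x5b00050049))
 (.node 136 (.leaf 0x11003900030083)
 (.leaf 0x9700470013))))
 (.node 141 (.node 139 (.node 138 (.leaf 0x27003d00070079)
 (.leaf 0x5500050047))
 (.node 140 (.leaf 0x1f00910045001d)
 (.leaf 0x2d00250005007f)))
 (.node 143 (.node 142 (.leaf 0x55002d000500e5)
 (.leaf 0x6f00090093))
 (.node 144 (.leaf 0x170015000300e9)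
 (.leaf 0xa700470009))))))
 (.node 159 (.node 152 (.node 148 (.node 146 (.leaf 0x15003900030079)
 (.node 147 (.leaf 0x150077002f002b)
 (.leaf 0x1f00030045)))
 (.node 150 (.node 149 (.leaf 0x11003d000700e3)
 (.leaf 0x1f00bf0045001b))
 (.node 151 (.leaf 0x150027001b0043)
 (.leaf 0x1f0015000300d3))))
 (.node 155 (.node 153 (.leaf 0x29002d000500cf)
 (.node 154 (.leaf 0x290025000500c7)
 (.leaf 0x550029000500d1)))
 (.node 157 (.node 156 (.leaf 0x90036)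
 (.leaf 0xe3000e))
 (.node 158 (.leaf 0x9004000c000e8004f0048)
 (.leaf 0x1f00720009)))))
 (.node 166 (.node 162 (.node 160 (.leaf 0x2a00a50023)
 (.node 161 (.leaf 0x2a0026)
 (.leaf 0xd0003001a)))
 (.node 164 (.node 163 (.leaf 0x15000d0027006b0003)
 (.leaf 0xe5005b002d0005))
 (.node 165 (.leaf 0x150077000d00350003002f)
 (.leaf 0xd00130006005200380051))))
 (.node 170 (.node 168 (.node 167 (.leaf 0xd003500130006005200600038)
 (.leaf 0xe5005b001f00e3))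
 (.node 169 (.leaf 0x1f0003001900080013)
 (.leaf 0x30019000d002f003700110007003d)))
 (.node 172 (.node 171 (.leaf 0x1b000a)
 (.leaf 0x30019000d0035002f00370011))
 (.node 173 (.leaf 0x1f000300190008)
 (.leaf 0x1f00e20003)))))))
 (.node 203 (.node 188 (.node 181 (.node 177 (.node 175 (.leaf 0xe5005b001f)
 (.node 176 (.leaf 0xe5005b0005)
 (.leaf 0xe5005b)))
 (.node 179 (.node 178 (.leaf 0x3003e)
 (.leaf 0x3001f))
 (.node 180 (.leaf 0x3)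
 (.leaf 0x4))))
 (.node 184 (.node 182 (.leaf 0x32)
 (.node 183 (.leaf 0x9f)
 (.leaf 0x54)))
 (.node 186 (.node 185 (.leaf 0x47)
 (.leaf 0x87))
 (.node 187 (.leaf 0x30)
 (.leaf 0xb7)))))
 (.node 195 (.node 191 (.node 189 (.leaf 0x5a)
 (.node 190 (.leaf 0xe5)
 (.leaf 0x8000f005d)))
 (.node 193 (.node 192 (.leaf 0x1f00ae000f001d0024003a)
 (.leaf 0x1f000800e6000f))
 (.node 194 (.leaf 0x2d000b0024001b003b)
 (.leaf 0x1f0068000e))))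
 (.node 199 (.node 197 (.node 196 (.leaf 0x1f0008)
 (.leaf 0x9))
 (.node 198 (.leaf 0xe1)
 (.leaf 0x1f)))
 (.node 201 (.node 200 (.leaf 0x34)
 (.leaf 0xdc))
 (.node 202 (.leaf 0x69)
 (.leaf 0x3f))))))
 (.node 218 (.node 210 (.node 206 (.node 204 (.leaf 0x2c)
 (.node 205 (.leaf 0xb4)
 (.leaf 0x40)))
 (.node 208 (.node 207 (.leaf 0x3a)
 (.leaf 0x13))
 (.node 209 (.leaf 0x81)
 (.leaf 0x7d))))
 (.node 214 (.node 212 (.node 211 (.leaf 0xb3)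
 (.leaf 0x16))
 (.node 213 (.leaf 0x36)
 (.leaf 0x63)))
 (.node 216 (.node 215 (.leaf 0x28)
 (.leaf 0x6e))
 (.node 217 (.leaf 0xcf)
 (.leaf 0xd1)))))
 (.node 225 (.node 221 (.node 219 (.leaf 0xc9)
 (.node 220 (.leaf 0xe)
 (.leaf 0x73)))
 (.node 223 (.node 222 (.leaf 0x5d)
 (.leaf 0x4c))
 (.node 224 (.leaf 0x14)
 (.leaf 0xb))))
 (.node 229 (.node 227 (.node 226 (.leaf 0xe7)
 (.leaf 0x20))
 (.node 228 (.leaf 0x42)
 (.leaf 0xc6)))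
 (.node 231 (.node 230 (.leaf 0x1c)
 (.leaf 0x25))
 (.node 232 (.leaf 0x59)
 (.leaf 0x0)))))))))

noncomputable def prf : List ℕ := [
0x1f000420006e000390005200058,
0x70005d0007b00074000710007c,
0x690000c0006000081000370004700028000930004b000670002b00021000440003b0008d0000e0006a0008e00001,
0x82000480000d000290005300044000960004f0007c0005e00018000000000c0005200077000060000e0000b00025000190002c0009b0002200085000450004b0003c0000a0008e000780000f0001d0006b000870008f0000200056000540003f,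
0x660002b000960007c00080,
0x95000850008c00077000680008b,
0x870003e0006f0005c0004c,
0x7a0006300074000270000b00000,
0x43000990008d0006d000150001c,
0x4300001000530000300011,
0x710004e0001c0004900093,
0x640002c00093000540004c000980003f00000,
0xa00001f00064000000007600056000060002400029000250002c000120007000068000860007f0003c0003500002000a40008e000540001300081000030007d0003f00031000430008a00008000480005f000630000a,
0x660002e00095000560004e0009a00041000960001f00074000900000100020000a1000250002a000710006900087000800003d00078000a50008f00055000140008b0003200044,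
0x510003b0006e0005d00059000550001f0002a0000800027,
0x13000620009500066000810007c0007f000a4,
0x30000630004a000670005a0008b0000a00001000290008a000830000000009,
0x6d000000008400001000630003a0007f00003000360000a000480008f,
0x6e00001000850006f000820008d000a00003b00069000310000e0001100000000540004b000a900043,
0xf0004a0006a00038000a100046000840000a000880000000006,
0x98000a00002e000130004b0003900047000850000b,
0x8a0002b000ad00097000530008b000550004400001,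
0xae000980002c000540008c,
0x610008100011000370003000073000910008a000070006f000100000500095000130006a0006e0001500004,
0x470005800001,
0x8e00000,
0x460002e000800007f0005b000ab00000,
0x5600000,
0xa100000,
0x2d0000300000,
0x6e00000,
0xb200000,
0x8600000,
0x4d00000,
0xc00000,
0x610009a00071000a0000bc000230003a000a7000af0007500091000460009400056000480005a000090000100006,
0xb30009b00033000620006c,
0x9b0009c00040000bf0005b000bd00073000a700000000260004f0007f00092000ba0007a0000100027000250003c000a9000790008d000b100077000930004800096000580004a0005c0000b0000300008,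
0x9c000630004a00054000b0000be00051000a80004900044000030000c00004,
0x86000640002c000650006f0000000096000880003500083000bd0009a0005900097000a2000450009800074000930000d00005,
0x500007b000020007f000000005b0004d0005f,
0xad000b500043000280000f,
0x6100000,
0x200001,
0x5100001,
0x5c00001,
0x6100001,
0x6f00001,
0xa100001,
0x9d00002,
0xa800002,
0x7100003,
0x570001a00003,
0x8200003,
0xb800002,
0xa500002,
0xd000001,
0x8b00001,
0xc600000,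
0xbf00000,
0xa400001,
0x3f000230000c00001,
0x3e000240002100002,
0x9300002,
0xaf00019000a10004e0009c000d6000b300072000b0000bb0000c0000f000260000a,
0x9800000,
0x1e0001800001,
0x91000040000f00002,
0x9700002,
0x9a000070000400002,
0x6e00001,
0xdc00001,
0xb500002,
0xa3000080000900001,
0x740000300001,
0x4c000310000f00001,
0x67000190001300001,
0x83000090000100000]

end D42

theorem inst_42 : instB 0 [0, 2] [7, 25] [] D42.base D42.gads D42.names D42.cnf D42.db D42.prf = true := by decide +kernel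

/-- no gadget has fewer than `2 R` new points. -/
theorem p2_42 : D42.gads.all (fun g => Nat.ble (2 * g.R) g.gs.length) = true := by decide +kernel

/-- there is no configuration of this instance. -/
theorem no_42 {V : Type v} [DecidableEq V] {ι : Type u} [Fintype ι] {B : ι → Finset V}
    {Q : Finset V} {i j : ι} {x : ℕ → V} {D : ℕ → Finset V}
    (h : CfI B Q 0 x D i j [0, 2] [7, 25]) : False :=
  h.absurd (by decide) srt_nil inst_42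

end Pool.Agent.Hyp6
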