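import Pool.Agent.Hyp6.Cb5

/-!
# HYP6: instance 44 of the list: n = 0, bounds [0, 2], inner blocks [9, 9]

34 base clauses, 19 gadgets, 11 learned clauses.
-/

set_option autoImplicit false
set_option maxRecDepth 100000

namespace Pool.Agent.Hyp6

open Rup

universe u v

namespace D44

noncomputable def names : Tr :=
 (.node 21 (.node 10 (.node 4 (.node 1 (.node 0 (.leaf 130)
 (.leaf 34))
 (.node 2 (.leaf 16657)
 (.node 3 (.leaf 18)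
 (.leaf 16529))))
 (.node 7 (.node 5 (.leaf 16673)
 (.node 6 (.leaf 258)
 (.leaf 16545)))
 (.node 8 (.leaf 2057)
 (.node 9 (.leaf 9)
 (.leaf 2113)))))
 (.node 15 (.node 12 (.node 11 (.leaf 65)
 (.leaf 2067))
 (.node 13 (.leaf 2179)
 (.node 14 (.leaf 386)
 (.leaf 2307))))
 (.node 18 (.node 16 (.leaf 50)
 (.node 17 (.leaf 2083)
 (.leaf 16769)))
 (.node 19 (.leaf 16433)
 (.node 20 (.leaf 18441)
 (.leaf 18497))))))
 (.node 32 (.node 26 (.node 23 (.node 22 (.leaf 2065)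
 (.leaf 18449))
 (.node 24 (.leaf 18593)
 (.node 25 (.leaf 17)
 (.leaf 66))))
 (.node 29 (.node 27 (.leaf 10)
 (.node 28 (.leaf 8577)
 (.leaf 2305)))
 (.node 30 (.leaf 18689)
 (.node 31 (.leaf 16449)
 (.leaf 18817)))))
 (.node 37 (.node 34 (.node 33 (.leaf 257)
 (.leaf 16577))
 (.node 35 (.leaf 18721)
 (.node 36 (.leaf 129)
 (.leaf 33))))
 (.node 40 (.node 38 (.leaf 16393)
 (.node 39 (.leaf 18481)
 (.leaf 18577)))
 (.node 41 (.leaf 18705)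
 (.node 42 (.leaf 8241)
 (.leaf 16425)))))))

noncomputable def base : List Rs := [
.ab 1 0,
.part [48, 8] [0, 0] [7] [],
.ab 1 1,
.part [34, 20] [0, 0] [9] [],
.hall [0] [0, 1],
.deg 3 [1, 0],
.part [6, 1] [0, 0] [56] [],
.hall [1] [0, 1],
.hall [0, 1] [3],
.ab 1 3,
.deg 1 [1, 2],
.deg 4 [1, 2],
.deg 0 [1, 0],
.ab2 0 48,
.ab 1 5,
.part [8, 48] [0, 0] [7] [],
.hall [0] [3, 5],
.ab 0 3,
.part [24, 32] [0, 0] [7] [],
.part [18, 36] [0, 0] [9] [],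
.hall [0] [3, 4],
.hall [0] [0, 2],
.ab 0 0,
.hall [1] [3, 5],
.part [1, 6] [0, 0] [56] [],
.part [36, 18] [0, 0] [9] [],
.join 0 16 5 2 1 1 [(4, 0)],
.deg 5 [1, 2],
.hall [0, 1] [0],
.part [20, 34] [0, 0] [9] [],
.join 0 2 2 2 1 1 [(1, 0)],
.part [5, 2] [0, 0] [56] [],
.deg 2 [1, 2],
.ab2 0 6]

noncomputable def gads : List Gt := [
⟨0, [⟨6, 2, []⟩, ⟨48, 2, []⟩], [3, 3, 3], 1, [(18, 1), (20, 1), (34, 1), (36, 1)]⟩,
⟨0, [⟨4, 2, []⟩, ⟨16, 2, []⟩], [3, 3, 3], 1, [(20, 1)]⟩,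
⟨1, [⟨16, 3, []⟩, ⟨32, 3, []⟩], [3, 3], 1, [(48, 1)]⟩,
⟨1, [⟨2, 3, []⟩, ⟨16, 3, []⟩], [3, 3], 1, [(18, 1)]⟩,
⟨0, [⟨1, 2, []⟩, ⟨4, 2, []⟩], [3, 3, 3], 1, [(5, 1)]⟩,
⟨0, [⟨8, 2, []⟩, ⟨16, 2, []⟩], [3, 3, 3], 1, [(24, 1)]⟩,
⟨0, [⟨2, 2, []⟩, ⟨32, 2, []⟩], [3, 3, 3], 1, [(34, 1)]⟩,
⟨0, [⟨2, 2, []⟩, ⟨16, 2, []⟩], [3, 3, 3], 1, [(18, 1)]⟩,
⟨0, [⟨16, 2, []⟩, ⟨32, 2, []⟩], [3, 3, 3], 1, [(48, 1)]⟩,
⟨0, [⟨2, 2, []⟩, ⟨4, 2, []⟩], [3, 3, 3], 1, [(6, 1)]⟩,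
⟨0, [⟨6, 2, []⟩, ⟨32, 2, []⟩], [3, 3, 3], 1, [(34, 1), (36, 1)]⟩,
⟨0, [⟨48, 2, []⟩, ⟨2, 2, []⟩], [3, 3, 3], 1, [(18, 1), (34, 1)]⟩,
⟨1, [⟨4, 3, []⟩, ⟨16, 3, []⟩], [3, 3], 1, [(20, 1)]⟩,
⟨0, [⟨6, 2, []⟩, ⟨16, 2, []⟩], [3, 3, 3], 1, [(18, 1), (20, 1)]⟩,
⟨1, [⟨2, 3, []⟩, ⟨4, 3, []⟩], [3, 3], 1, [(6, 1)]⟩,
⟨0, [⟨4, 2, []⟩, ⟨32, 2, []⟩], [3, 3, 3], 1, [(36, 1)]⟩,
⟨0, [⟨48, 2, []⟩, ⟨4, 2, []⟩], [3, 3, 3], 1, [(20, 1), (36, 1)]⟩,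
⟨1, [⟨2, 3, []⟩, ⟨32, 3, []⟩], [3, 3], 1, [(34, 1)]⟩,
⟨1, [⟨4, 3, []⟩, ⟨32, 3, []⟩], [3, 3], 1, [(36, 1)]⟩]

noncomputable def cnf : List (List ℕ) := [
[17, 41],
[36, 42],
[45, 47],
[4, 48],
[18, 50],
[52, 20],
[38, 40],
[16, 44],
[22, 20],
[21, 43],
[6, 24],
[0, 26],
[54, 16],
[57, 37],
[59, 61],
[62, 64],
[22, 66],
[23, 63],
[68, 60],
[8, 70],
[22, 72],
[18, 74],
[19, 77],
[20, 58],
[76, 78],
[10, 80],
[73, 67, 28, 56],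
[12, 30],
[18, 16],
[14, 82],
[51, 75, 32, 84],
[86, 46],
[2, 34],
[85, 39],
[33, 29, 9, 15, 5, 11],
[3, 1, 15],
[27, 31, 65],
[25, 27, 81],
[55, 3, 87],
[53, 1, 69],
[7, 13, 5],
[7, 1, 9],
[1, 13, 37],
[7, 3, 39],
[33, 13, 5, 11],
[29, 7, 9, 5],
[35, 27, 49],
[33, 1, 9, 15],
[25, 35, 79],
[3, 13, 11],
[29, 3, 15, 11],
[25, 31, 83],
[35, 31, 71]]

noncomputable def db : Tr :=
 (.node 32 (.node 16 (.node 8 (.node 4 (.node 2 (.node 1 (.leaf 0x2b0013)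
 (.leaf 0x2c0026))
 (.node 3 (.leaf 0x31002f)
 (.leaf 0x320006)))
 (.node 6 (.node 5 (.leaf 0x340014)
 (.leaf 0x160036))
 (.node 7 (.leaf 0x2a0028)
 (.leaf 0x2e0012))))
 (.node 12 (.node 10 (.node 9 (.leaf 0x160018)
 (.leaf 0x2d0017))
 (.node 11 (.leaf 0x1a0008)
 (.leaf 0x1c0002)))
 (.node 14 (.node 13 (.leaf 0x120038)
 (.leaf 0x27003b))
 (.node 15 (.leaf 0x3f003d)
 (.leaf 0x420040)))))
 (.node 24 (.node 20 (.node 18 (.node 17 (.leaf 0x440018)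
 (.leaf 0x410019))
 (.node 19 (.leaf 0x3e0046)
 (.leaf 0x48000a)))
 (.node 22 (.node 21 (.leaf 0x4a0018)
 (.leaf 0x4c0014))
 (.node 23 (.leaf 0x4f0015)
 (.leaf 0x3c0016))))
 (.node 28 (.node 26 (.node 25 (.leaf 0x50004e)
 (.leaf 0x52000c))
 (.node 27 (.leaf 0x3a001e0045004b)
 (.leaf 0x20000e)))
 (.node 30 (.node 29 (.leaf 0x120014)
 (.leaf 0x540010))
 (.node 31 (.leaf 0x560022004d0035)
 (.leaf 0x300058))))))
 (.node 48 (.node 40 (.node 36 (.node 34 (.node 33 (.leaf 0x240004)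
 (.leaf 0x290057))
 (.node 35 (.leaf 0xd00070011000b001f0023)
 (.leaf 0x1100030005)))
 (.node 38 (.node 37 (.leaf 0x430021001d)
 (.leaf 0x53001d001b))
 (.node 39 (.leaf 0x5900050039)
 (.leaf 0x4700030037))))
 (.node 44 (.node 42 (.node 41 (.leaf 0x7000f0009)
 (.leaf 0xb00030009))
 (.node 43 (.leaf 0x27000f0003)
 (.leaf 0x2900050009)))
 (.node 46 (.node 45 (.leaf 0xd0007000f0023)
 (.leaf 0x7000b0009001f))
 (.node 47 (.leaf 0x33001d0025)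
 (.leaf 0x11000b00030023)))))
 (.node 56 (.node 52 (.node 50 (.node 49 (.leaf 0x510025001b)
 (.leaf 0xd000f0005))
 (.node 51 (.leaf 0xd00110005001f)
 (.leaf 0x550021001b)))
 (.node 54 (.node 53 (.leaf 0x4900210025)
 (.leaf 0xf0003))
 (.node 55 (.leaf 0x5001b000f)
 (.leaf 0x5001b))))
 (.node 60 (.node 58 (.node 57 (.leaf 0x50009)
 (.leaf 0x5))
 (.node 59 (.leaf 0x2500090021)
 (.leaf 0x250009)))
 (.node 62 (.node 61 (.leaf 0x25000f)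
 (.leaf 0x25001b))
 (.node 63 (.leaf 0x25)
 (.leaf 0x0)))))))

noncomputable def prf : List ℕ := [
0x22000260000d0001d0002f0002b000330000a,
0x2a000100001c00004,
0x29000350001c0002d00022000260002e0002500004000270001d00012000110002b0001300019000030001b00000,
0x1800011000350002b0003000037000310000c,
0x2e00001,
0x2c000380001f00030000250002900031000280000c0002a00036000150000b0002e000100002600005,
0xc0002f0003700005000120001f00000,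
0xf0002200038000160000d00030000060001d0001a000350003b0001f000260003700025000230000b0003100000,
0x2f0003b0002200033000280002c000340002b0001a0002d000230003900018000170000e000310000d0001f00029000090000800021000000001e0001b000360003c00020000270003800026000240000c,
0x3300002,
0x1e0000000005]

end D44

theorem inst_44 : instB 0 [0, 2] [9, 9] [] D44.base D44.gads D44.names D44.cnf D44.db D44.prf = true := by decide +kernel

/-- no gadget has fewer than `2 R` new points. -/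
theorem p2_44 : D44.gads.all (fun g => Nat.ble (2 * g.R) g.gs.length) = true := by decide +kernel

/-- there is no configuration of this instance. -/
theorem no_44 {V : Type v} [DecidableEq V] {ι : Type u} [Fintype ι] {B : ι → Finset V}
    {Q : Finset V} {i j : ι} {x : ℕ → V} {D : ℕ → Finset V}
    (h : CfI B Q 0 x D i j [0, 2] [9, 9]) : False :=
  h.absurd (by decide) srt_nil inst_44

end Pool.Agent.Hyp6
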