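import Pool.Agent.Hyp6.Cb5

/-!
# HYP6: instance 45 of the list: n = 0, bounds [0, 2], inner blocks [9, 10]

94 base clauses, 28 gadgets, 66 learned clauses.
-/

set_option autoImplicit false
set_option maxRecDepth 100000

namespace Pool.Agent.Hyp6

open Rup

universe u v

namespace D45

noncomputable def names : Tr :=
 (.node 47 (.node 23 (.node 11 (.node 5 (.node 2 (.node 0 (.leaf 65)
 (.node 1 (.leaf 2179)
 (.leaf 2307)))
 (.node 3 (.leaf 258)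
 (.node 4 (.leaf 16425)
 (.leaf 130))))
 (.node 8 (.node 6 (.leaf 9)
 (.node 7 (.leaf 34)
 (.leaf 2083)))
 (.node 9 (.leaf 10)
 (.node 10 (.leaf 66)
 (.leaf 17)))))
 (.node 17 (.node 14 (.node 12 (.leaf 82)
 (.node 13 (.leaf 2113)
 (.leaf 16545)))
 (.node 15 (.leaf 18753)
 (.node 16 (.leaf 18625)
 (.leaf 2114))))
 (.node 20 (.node 18 (.leaf 129)
 (.node 19 (.leaf 257)
 (.leaf 2058)))
 (.node 21 (.leaf 2066)
 (.node 22 (.leaf 16673)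
 (.leaf 16577))))))
 (.node 35 (.node 29 (.node 26 (.node 24 (.leaf 74)
 (.node 25 (.leaf 8265)
 (.leaf 2131)))
 (.node 27 (.leaf 8273)
 (.node 28 (.leaf 18481)
 (.leaf 18))))
 (.node 32 (.node 30 (.leaf 2065)
 (.node 31 (.leaf 18473)
 (.leaf 16705)))
 (.node 33 (.leaf 16433)
 (.node 34 (.leaf 18721)
 (.leaf 10313)))))
 (.node 41 (.node 38 (.node 36 (.leaf 2115)
 (.node 37 (.leaf 10321)
 (.leaf 18577)))
 (.node 39 (.leaf 16769)
 (.node 40 (.leaf 2067)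
 (.leaf 16393))))
 (.node 44 (.node 42 (.leaf 18705)
 (.node 43 (.leaf 2305)
 (.leaf 18593)))
 (.node 45 (.leaf 18817)
 (.node 46 (.leaf 2057)
 (.leaf 266)))))))
 (.node 71 (.node 59 (.node 53 (.node 50 (.node 48 (.leaf 2123)
 (.node 49 (.leaf 16401)
 (.leaf 146)))
 (.node 51 (.leaf 8338)
 (.node 52 (.leaf 18441)
 (.leaf 16529))))
 (.node 56 (.node 54 (.leaf 8458)
 (.node 55 (.leaf 10322)
 (.leaf 138)))
 (.node 57 (.leaf 8330)
 (.node 58 (.leaf 8457)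
 (.leaf 16513)))))
 (.node 65 (.node 62 (.node 60 (.leaf 2059)
 (.node 61 (.leaf 2308)
 (.leaf 2074)))
 (.node 63 (.leaf 10267)
 (.node 64 (.leaf 2180)
 (.leaf 18689))))
 (.node 68 (.node 66 (.leaf 16521)
 (.node 67 (.leaf 18497)
 (.leaf 16641)))
 (.node 69 (.leaf 2436)
 (.node 70 (.leaf 10627)
 (.leaf 18569))))))
 (.node 83 (.node 77 (.node 74 (.node 72 (.leaf 2177)
 (.node 73 (.leaf 18561)
 (.leaf 260)))
 (.node 75 (.leaf 259)
 (.node 76 (.leaf 8577)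
 (.leaf 8274))))
 (.node 80 (.node 78 (.leaf 16417)
 (.node 79 (.leaf 18457)
 (.leaf 18449)))
 (.node 81 (.leaf 16649)
 (.node 82 (.leaf 386)
 (.leaf 33)))))
 (.node 89 (.node 86 (.node 84 (.leaf 2178)
 (.node 85 (.leaf 16449)
 (.leaf 2084)))
 (.node 87 (.leaf 18930)
 (.node 88 (.leaf 10265)
 (.leaf 19))))
 (.node 92 (.node 90 (.leaf 18849)
 (.node 91 (.leaf 16657)
 (.leaf 11)))
 (.node 93 (.leaf 2075)
 (.node 94 (.leaf 18697)
 (.leaf 18513))))))))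

noncomputable def base : List Rs := [
.ab 0 1,
.join 0 2 4 2 1 2 [(1, 1)],
.part [6, 1] [0, 0] [56] [],
.part [18, 36] [0, 0] [9] [],
.le 0 33 1 0 2,
.l2 1 9 10 3 1 2,
.l2 1 9 10 3 1 1,
.join 0 1 4 2 1 2 [(0, 1)],
.le 0 33 1 0 1,
.ab 0 4,
.deg 0 [0, 2],
.ordE 1 32 3,
.hall [0] [3, 5],
.join 1 1 1 2 2 2 [(0, 2)],
.part [36, 18] [0, 0] [9] [],
.le 0 17 1 0 2,
.ordE 1 16 3,
.part [24, 32] [0, 0] [7] [],
.part [17, 36] [0, 0] [10] [],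
.join 0 1 3 2 1 1 [(0, 0)],
.join 1 2 3 3 2 2 [(1, 1)],
.part [48, 8] [0, 0] [7] [],
.ab 0 5,
.join 1 16 5 4 3 3 [(4, 2)],
.part [36, 17] [0, 0] [10] [],
.le 1 3 2 1 3,
.join 0 2 3 2 1 1 [(1, 0)],
.part [1, 6] [0, 0] [56] [],
.ab 1 4,
.deg 1 [0, 2],
.deg 4 [1, 2],
.le 0 10 8 3 1,
.le 0 9 8 3 1,
.deg 4 [0, 3],
.join 1 2 3 3 2 1 [(1, 0)],
.ordE 0 32 3,
.hall [0] [3, 4],
.ab2 0 48,
.deg 5 [0, 3],
.part [20, 34] [0, 0] [9] [],
.le 0 10 8 3 2,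
.part [4, 3] [0, 0] [56] [],
.deg 1 [1, 1],
.ab 1 3,
.deg 3 [1, 0],
.hall [1] [3, 5],
.ordE 0 32 2,
.ab 1 1,
.part [33, 20] [0, 0] [10] [],
.deg 5 [1, 2],
.join 0 16 5 2 1 1 [(4, 0)],
.join 0 1 3 2 2 0 [(0, 0)],
.part [5, 34] [0, 0] [24] [],
.ab 0 2,
.ordE 1 16 1,
.part [8, 48] [0, 0] [7] [],
.deg 0 [1, 1],
.le 0 18 2 1 2,
.deg 5 [3, 0],
.hall [1] [0, 1],
.part [16, 40] [0, 0] [7] [],
.ab 0 3,
.part [5, 48] [0, 0] [10] [],
.part [5, 18] [0, 0] [40] [],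
.deg 2 [0, 3],
.part [1, 62] [0, 1] [] [],
.join 0 1 5 2 0 2 [(0, 0)],
.join 0 2 3 2 2 0 [(1, 0)],
.ab2 1 3,
.deg 1 [2, 0],
.part [32, 24] [0, 0] [7] [],
.lip 1 52 62 10,
.ordE 0 8 1,
.part [2, 5] [0, 0] [56] [],
.part [40, 16] [0, 0] [7] [],
.ab 0 0,
.l2 0 9 10 3 1 1,
.part [34, 20] [0, 0] [9] [],
.deg 2 [1, 2],
.join 1 1 3 3 2 1 [(0, 0)],
.hall [0] [0, 1],
.ordE 0 1 2,
.join 1 1 1 3 2 1 [(0, 0)],
.part [20, 33] [0, 0] [10] [],
.ab2 1 10,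
.ab 1 0,
.join 0 1 5 2 1 2 [(0, 1)],
.join 0 2 3 2 3 0 [(1, 1)],
.part [5, 10] [0, 0] [48] [],
.deg 0 [2, 0],
.ab 1 5,
.deg 3 [0, 1],
.part [5, 2] [0, 0] [56] [],
.ordE 1 16 2]

noncomputable def gads : List Gt := [
⟨1, [⟨10, 3, []⟩, ⟨32, 3, []⟩], [3, 3], 1, [(34, 1), (40, 1)]⟩,
⟨0, [⟨8, 2, []⟩, ⟨32, 2, []⟩], [3, 3, 3], 1, [(40, 1)]⟩,
⟨0, [⟨2, 2, []⟩, ⟨4, 2, []⟩], [3, 3, 3], 1, [(6, 1)]⟩,
⟨1, [⟨4, 3, []⟩, ⟨32, 3, []⟩], [3, 3], 1, [(36, 1)]⟩,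
⟨0, [⟨17, 2, []⟩, ⟨4, 2, []⟩], [3, 3, 3], 1, [(5, 1), (20, 1)]⟩,
⟨1, [⟨3, 3, []⟩, ⟨4, 3, []⟩], [3, 3], 1, [(5, 1), (6, 1)]⟩,
⟨1, [⟨8, 2, []⟩, ⟨48, 4, []⟩], [3, 1, 1], 1, [(24, 1), (40, 1)]⟩,
⟨1, [⟨8, 3, []⟩, ⟨32, 3, []⟩], [3, 3], 1, [(40, 1)]⟩,
⟨1, [⟨2, 3, []⟩, ⟨4, 3, []⟩], [3, 3], 1, [(6, 1)]⟩,
⟨0, [⟨18, 2, []⟩, ⟨4, 2, []⟩], [3, 3, 3], 1, [(6, 1), (20, 1)]⟩,
⟨1, [⟨4, 3, []⟩, ⟨0, 0, [(48, 3)]⟩], [3, 3], 1, [(52, 1)]⟩,
⟨1, [⟨16, 3, []⟩, ⟨32, 3, []⟩], [3, 3], 1, [(48, 1)]⟩,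
⟨0, [⟨10, 2, []⟩, ⟨16, 2, []⟩], [3, 3, 3], 1, [(18, 1), (24, 1)]⟩,
⟨0, [⟨9, 2, []⟩, ⟨32, 2, []⟩], [3, 3, 3], 1, [(33, 1), (40, 1)]⟩,
⟨1, [⟨10, 3, []⟩, ⟨16, 3, []⟩], [3, 3], 1, [(18, 1), (24, 1)]⟩,
⟨1, [⟨8, 3, []⟩, ⟨16, 3, []⟩], [3, 3], 1, [(24, 1)]⟩,
⟨0, [⟨16, 2, []⟩, ⟨32, 2, []⟩], [3, 3, 3], 1, [(48, 1)]⟩,
⟨0, [⟨4, 2, []⟩, ⟨48, 2, []⟩], [3, 3, 3], 1, [(20, 1), (36, 1)]⟩,
⟨0, [⟨33, 2, []⟩, ⟨4, 2, []⟩], [3, 3, 3], 1, [(5, 1), (36, 1)]⟩,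
⟨1, [⟨9, 3, []⟩, ⟨16, 3, []⟩], [3, 3], 1, [(17, 1), (24, 1)]⟩,
⟨0, [⟨1, 2, []⟩, ⟨4, 2, []⟩], [3, 3, 3], 1, [(5, 1)]⟩,
⟨1, [⟨3, 2, []⟩, ⟨4, 4, []⟩], [3, 1, 1], 1, [(5, 1), (6, 1)]⟩,
⟨0, [⟨8, 2, []⟩, ⟨16, 2, []⟩], [3, 3, 3], 1, [(24, 1)]⟩,
⟨1, [⟨1, 3, []⟩, ⟨4, 3, []⟩], [3, 3], 1, [(5, 1)]⟩,
⟨1, [⟨4, 3, []⟩, ⟨16, 3, []⟩], [3, 3], 1, [(20, 1)]⟩,
⟨0, [⟨9, 2, []⟩, ⟨16, 2, []⟩], [3, 3, 3], 1, [(17, 1), (24, 1)]⟩,
⟨0, [⟨10, 2, []⟩, ⟨32, 2, []⟩], [3, 3, 3], 1, [(34, 1), (40, 1)]⟩,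
⟨1, [⟨9, 3, []⟩, ⟨32, 3, []⟩], [3, 3], 1, [(33, 1), (40, 1)]⟩]

noncomputable def cnf : List (List ℕ) := [
[23, 99],
[23, 11, 100, 102],
[66, 104],
[106, 68],
[109, 18],
[71, 111, 72],
[71, 75, 34],
[13, 11, 112, 114],
[117, 12],
[37, 119],
[12, 120],
[123, 4],
[0, 38],
[41, 43, 124, 126],
[44, 76],
[115, 18],
[129, 2],
[46, 130],
[132, 68],
[13, 1, 48, 50],
[43, 35, 52, 110],
[78, 134],
[39, 137],
[3, 5, 138, 140],
[44, 142],
[127, 80],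
[23, 1, 24, 54],
[82, 56],
[145, 147],
[22, 80],
[10, 2],
[55, 0],
[51, 0],
[36, 128],
[43, 27, 52, 74],
[149, 150],
[0, 36],
[153, 79],
[38, 122],
[28, 84],
[155, 20],
[156, 158],
[58, 42],
[27, 135],
[20, 26],
[26, 86],
[151, 6],
[61, 161],
[162, 88],
[6, 4],
[37, 39, 164, 152],
[19, 48, 50],
[8, 84],
[167, 157],
[169, 144],
[170, 90],
[18, 40],
[103, 58],
[148, 86],
[92, 60],
[118, 30],
[1, 171],
[8, 90],
[8, 76],
[166, 172],
[82, 174],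
[7, 94, 116],
[59, 24, 54],
[177, 159],
[178, 60],
[136, 32],
[175, 180],
[21, 0],
[98, 62],
[64, 146],
[13, 83],
[51, 55, 20],
[182, 88],
[14, 16],
[41, 27, 96, 70],
[12, 22],
[185, 18],
[41, 61, 186, 176],
[28, 188],
[75, 191],
[93, 105],
[13, 7, 94, 108],
[179, 24, 154],
[8, 190],
[184, 92],
[87, 131],
[0, 34],
[8, 160],
[3, 168],
[53, 5, 85, 31],
[21, 7, 65],
[59, 15, 67],
[17, 5, 69],
[113, 15, 9, 29],
[187, 17, 63, 57],
[35, 139, 33, 31],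
[73, 5, 31],
[81, 17, 57],
[101, 15, 67, 29],
[17, 141, 181],
[3, 5, 91],
[25, 11, 107, 47],
[49, 7, 163, 65],
[53, 3, 77, 33],
[73, 3, 33],
[11, 7, 79],
[15, 165, 29, 45],
[95, 15, 9, 45],
[97, 3, 143, 33],
[19, 15, 9],
[125, 173, 63, 57],
[21, 11, 47],
[121, 17, 63],
[17, 3, 89],
[49, 11, 133, 47],
[25, 7, 183, 65],
[97, 5, 189, 31]]

noncomputable def db : Tr :=
 (.node 94 (.node 47 (.node 23 (.node 11 (.node 5 (.node 2 (.node 1 (.leaf 0x650019)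
 (.leaf 0x680066000d0019))
 (.node 3 (.leaf 0x6a0044)
 (.node 4 (.leaf 0x46006c)
 (.leaf 0x14006f))))
 (.node 8 (.node 6 (.leaf 0x4a00710049)
 (.node 7 (.leaf 0x24004d0049)
 (.leaf 0x740072000d000f)))
 (.node 9 (.leaf 0xe0077)
 (.node 10 (.leaf 0x790027)
 (.leaf 0x7a000e)))))
 (.node 17 (.node 14 (.node 12 (.leaf 0x6007d)
 (.node 13 (.leaf 0x280002)
 (.leaf 0x80007e002d002b)))
 (.node 15 (.leaf 0x4e002e)
 (.node 16 (.leaf 0x140075)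
 (.leaf 0x40083))))
 (.node 20 (.node 18 (.leaf 0x840030)
 (.node 19 (.leaf 0x460086)
 (.leaf 0x3400320003000f)))
 (.node 21 (.leaf 0x7000360025002d)
 (.node 22 (.leaf 0x880050)
 (.leaf 0x8b0029))))))
 (.node 35 (.node 29 (.node 26 (.node 24 (.leaf 0x8e008c00070005)
 (.node 25 (.leaf 0x90002e)
 (.leaf 0x520081)))
 (.node 27 (.leaf 0x38001a00030019)
 (.node 28 (.leaf 0x3a0054)
 (.leaf 0x950093))))
 (.node 32 (.node 30 (.leaf 0x520018)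
 (.node 31 (.leaf 0x4000c)
 (.leaf 0x20039)))
 (.node 33 (.leaf 0x20035)
 (.node 34 (.leaf 0x820026)
 (.leaf 0x4c0036001d002d)))))
 (.node 41 (.node 38 (.node 36 (.leaf 0x980097)
 (.node 37 (.leaf 0x260002)
 (.leaf 0x51009b)))
 (.node 39 (.leaf 0x7c0028)
 (.node 40 (.leaf 0x56001e)
 (.leaf 0x16009d))))
 (.node 44 (.node 42 (.leaf 0xa0009e)
 (.node 43 (.leaf 0x2c003c)
 (.leaf 0x89001d)))
 (.node 45 (.leaf 0x1c0016)
 (.node 46 (.leaf 0x58001c)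
 (.leaf 0x80099)))))))
 (.node 70 (.node 58 (.node 52 (.node 49 (.node 48 (.leaf 0xa3003f)
 (.leaf 0x5a00a4))
 (.node 50 (.leaf 0x60008)
 (.node 51 (.leaf 0x9a00a600290027)
 (.leaf 0x3400320015))))
 (.node 55 (.node 53 (.leaf 0x56000a)
 (.node 54 (.leaf 0x9f00a9)
 (.leaf 0x9200ab)))
 (.node 56 (.leaf 0x5c00ac)
 (.node 57 (.leaf 0x2a0014)
 (.leaf 0x3c0069)))))
 (.node 64 (.node 61 (.node 59 (.leaf 0x580096)
 (.node 60 (.leaf 0x3e005e)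
 (.leaf 0x200078)))
 (.node 62 (.leaf 0xad0003)
 (.node 63 (.leaf 0x5c000a)
 (.leaf 0x4e000a))))
 (.node 67 (.node 65 (.leaf 0xae00a8)
 (.node 66 (.leaf 0xb00054)
 (.leaf 0x7600600009)))
 (.node 68 (.leaf 0x38001a003d)
 (.node 69 (.leaf 0xa100b3)
 (.leaf 0x3e00b4))))))
 (.node 82 (.node 76 (.node 73 (.node 71 (.leaf 0x22008a)
 (.node 72 (.leaf 0xb600b1)
 (.leaf 0x20017)))
 (.node 74 (.leaf 0x400064)
 (.node 75 (.leaf 0x940042)
 (.leaf 0x55000f))))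
 (.node 79 (.node 77 (.leaf 0x1600390035)
 (.node 78 (.leaf 0x5a00b8)
 (.leaf 0x120010)))
 (.node 80 (.leaf 0x480062001d002b)
 (.node 81 (.leaf 0x18000e)
 (.leaf 0x1400bb)))))
 (.node 88 (.node 85 (.node 83 (.leaf 0xb200bc003f002b)
 (.node 84 (.leaf 0xbe001e)
 (.leaf 0xc1004d)))
 (.node 86 (.leaf 0x6b005f)
 (.node 87 (.leaf 0x6e00600009000f)
 (.leaf 0x9c001a00b5))))
 (.node 91 (.node 89 (.leaf 0xc0000a)
 (.node 90 (.leaf 0x5e00ba)
 (.leaf 0x850059)))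
 (.node 92 (.leaf 0x240002)
 (.node 93 (.leaf 0xa2000a)
 (.leaf 0xaa0005))))))))
 (.node 141 (.node 117 (.node 105 (.node 99 (.node 96 (.node 95 (.leaf 0x21005700070037)
 (.leaf 0x4300090017))
 (.node 97 (.leaf 0x450011003d)
 (.node 98 (.leaf 0x4700070013)
 (.leaf 0x1f000b00110073))))
 (.node 102 (.node 100 (.leaf 0x3b0041001300bd)
 (.node 101 (.leaf 0x210023008d0025)
 (.leaf 0x210007004b)))
 (.node 103 (.leaf 0x3b00130053)
 (.node 104 (.leaf 0x1f004500110067)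
 (.leaf 0xb7008f0013)))))
 (.node 111 (.node 108 (.node 106 (.leaf 0x5d00070005)
 (.node 107 (.leaf 0x31006d000d001b)
 (.leaf 0x4300a500090033)))
 (.node 109 (.leaf 0x23004f00050037)
 (.node 110 (.leaf 0x230005004b)
 (.leaf 0x510009000d))))
 (.node 114 (.node 112 (.leaf 0x2f001f00a70011)
 (.node 113 (.leaf 0x2f000b00110061)
 (.leaf 0x23009100050063)))
 (.node 115 (.leaf 0xb00110015)
 (.node 116 (.leaf 0x3b004100af007f)
 (.leaf 0x31000d0017))))))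
 (.node 129 (.node 123 (.node 120 (.node 118 (.leaf 0x410013007b)
 (.node 119 (.leaf 0x5b00050013)
 (.leaf 0x310087000d0033)))
 (.node 121 (.leaf 0x4300b90009001b)
 (.node 122 (.leaf 0x2100bf00070063)
 (.leaf 0xbd00130041))))
 (.node 126 (.node 124 (.leaf 0xbd0013)
 (.node 125 (.leaf 0xb500b900430009)
 (.leaf 0xbf005d00630007)))
 (.node 127 (.leaf 0x9000d)
 (.node 128 (.leaf 0x4c004f002d0006)
 (.leaf 0x4c0011000a)))))
 (.node 135 (.node 132 (.node 130 (.leaf 0x80017)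
 (.node 131 (.leaf 0x1100070037009a0005)
 (.leaf 0x4c00110008)))
 (.node 133 (.leaf 0x4c0011)
 (.node 134 (.leaf 0x13000e)
 (.leaf 0x13003f002d002b))))
 (.node 138 (.node 136 (.leaf 0x190016001a0035)
 (.node 137 (.leaf 0x130009)
 (.leaf 0x13002b0002)))
 (.node 139 (.leaf 0x130003)
 (.node 140 (.leaf 0x1300b7)
 (.leaf 0x13)))))))
 (.node 164 (.node 152 (.node 146 (.node 143 (.node 142 (.leaf 0x10)
 (.leaf 0x4c))
 (.node 144 (.leaf 0xc1)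
 (.node 145 (.leaf 0xa)
 (.leaf 0x15))))
 (.node 149 (.node 147 (.leaf 0x6f)
 (.node 148 (.leaf 0x75)
 (.leaf 0x2a)))
 (.node 150 (.leaf 0xbb)
 (.node 151 (.leaf 0x5e)
 (.leaf 0x6b)))))
 (.node 158 (.node 155 (.node 153 (.leaf 0x44)
 (.node 154 (.leaf 0x3d)
 (.leaf 0x2c)))
 (.node 156 (.leaf 0x69)
 (.node 157 (.leaf 0x200050007)
 (.leaf 0x90060))))
 (.node 161 (.node 159 (.leaf 0x20005)
 (.node 160 (.leaf 0xd001f)
 (.leaf 0x2)))
 (.node 162 (.leaf 0xad)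
 (.node 163 (.leaf 0x5c)
 (.leaf 0xd))))))
 (.node 176 (.node 170 (.node 167 (.node 165 (.leaf 0x4)
 (.node 166 (.leaf 0xaa)
 (.leaf 0x7)))
 (.node 168 (.leaf 0x92)
 (.node 169 (.leaf 0x7d)
 (.leaf 0x8))))
 (.node 173 (.node 171 (.leaf 0x95)
 (.node 172 (.leaf 0x28)
 (.leaf 0x60)))
 (.node 174 (.leaf 0x42)
 (.node 175 (.leaf 0x8b)
 (.leaf 0x2f)))))
 (.node 182 (.node 179 (.node 177 (.leaf 0x17)
 (.node 178 (.leaf 0x22)
 (.leaf 0x4e)))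
 (.node 180 (.leaf 0x90)
 (.node 181 (.leaf 0x1c)
 (.leaf 0x4b))))
 (.node 185 (.node 183 (.leaf 0x37)
 (.node 184 (.leaf 0x63)
 (.leaf 0x48)))
 (.node 186 (.leaf 0x24)
 (.node 187 (.leaf 0x71)
 (.leaf 0x0)))))))))

noncomputable def prf : List ℕ := [
0x2e0005e0006f0001600004,
0x5f0002f000140002a0005d0007a0003100000,
0x2400053000030001c,
0x730005b000400006c0000300013,
0x6c0002300009000500005100052000680000f,
0x1f0003400052000620005c00048000120002100060000000003800068000580004d00073,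
0xb0006e00053000250005d00045000210005c000430005100076000010005e000610006f0001600000000550001f0007d0002a00044000500002300040000410004b,
0x170004900062000430000c000380004f0006f00026000460005d00052,
0x120005a000730002300015000450003b0004f000780006b0005d00075000440004a00018,
0x32000810007b0001b000200005b000240004600079000610006400072000000005d0006d000570006000056000010005100073000580004900022000800002d00029000310001000002,
0x7b0002d00041000130007500004000010005e0006e0005800061000570002400039000670004d000260006500005000000005900023000810002e0002a000320007f0001100003,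
0x3b000840000f000340007a,
0x50000450005c000120004100078000330000a0006c0003c00085000680001f0006a0003a00000,
0x6c0003a00066,
0x5d0004400001000680004f000740005400000000420000f0000b0001c000280003d0006b0003a0005700051000110002a00069000090006a000210006c0003c00002,
0x20005e0004300045000310001e0006a00071000240004c000420007f000720002d00064000690007c0002000041000470003d000030006000007000850002700057000770002e0004e000650005a00000,
0x7600002000120001f0006b00020000520004c0006c000230006e0003e000040000800086000770002800058000780002f0004f000660005b00001,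
0x6c000730001300026000570004e00044000520008100074000010002f000660006a0007e00000000790003000078000500002900067000590005c0000200022,
0x440004a0004000006,
0x3e00000,
0x900000,
0x3a00000,
0x3700000,
0x1e0000300000,
0x8d00000,
0x8300001,
0x5b00002,
0x4300003,
0x3c00000,
0x4100000,
0x9500000,
0x380000b00000,
0x6f00000,
0x6100001,
0x2c00083000480002a000220004c000960008700019000400005f00092000690007600086000700006f00053000770002e00055000850008f0000e0000700001,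
0x94000460005a0000a,
0x980004e000890002c00031000850008f0002d000000006c000010003000042000710005500057000870009100009000030000d00010,
0x4e0009d00097000370003c000030000b00006000110000e,
0x9a000500008b00026000410004c00078000000003a0006e00021000810000100063000730009600044000570007b0000b00005,
0x6300000,
0x6a00000,
0x8e0009d000440003d00066000990009c0008100053000920002500076000390004f0007b0002100071000030002400008000140000e00000,
0x8500000,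
0x4700000,
0x3c0000300001,
0x7000001,
0x9c00001,
0x7700002,
0x8d00002,
0x8400002,
0xe00002,
0x6200002,
0x9700002,
0x3e000210001e00002,
0x500000600002,
0x6a00002,
0xa300002,
0x9a00003,
0x8700003,
0x470001000003,
0x49000040001100003,
0x45000120000500003,
0x68000030002300000,
0xb20002a00000,
0xb40000400001,
0xa600004000200000100000]

end D45

theorem inst_45 : instB 0 [0, 2] [9, 10] [] D45.base D45.gads D45.names D45.cnf D45.db D45.prf = true := by decide +kernel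

/-- no gadget has fewer than `2 R` new points. -/
theorem p2_45 : D45.gads.all (fun g => Nat.ble (2 * g.R) g.gs.length) = true := by decide +kernel

/-- there is no configuration of this instance. -/
theorem no_45 {V : Type v} [DecidableEq V] {ι : Type u} [Fintype ι] {B : ι → Finset V}
    {Q : Finset V} {i j : ι} {x : ℕ → V} {D : ℕ → Finset V}
    (h : CfI B Q 0 x D i j [0, 2] [9, 10]) : False :=
  h.absurd (by decide) srt_nil inst_45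

end Pool.Agent.Hyp6
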