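import Pool.Agent.Hyp6.Cb5

/-!
# HYP6: instance 46 of the list: n = 0, bounds [0, 2], inner blocks [9, 11]

29 base clauses, 7 gadgets, 31 learned clauses.
-/

set_option autoImplicit false
set_option maxRecDepth 100000

namespace Pool.Agent.Hyp6

open Rup

universe u v

namespace D46

noncomputable def names : Tr :=
 (.node 14 (.node 6 (.node 2 (.node 0 (.leaf 130)
 (.node 1 (.leaf 258)
 (.leaf 2083)))
 (.node 4 (.node 3 (.leaf 2179)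
 (.leaf 2307))
 (.node 5 (.leaf 257)
 (.leaf 2305))))
 (.node 10 (.node 8 (.node 7 (.leaf 34)
 (.leaf 2113))
 (.node 9 (.leaf 129)
 (.leaf 18689)))
 (.node 12 (.node 11 (.leaf 131)
 (.leaf 132))
 (.node 13 (.leaf 2084)
 (.leaf 2180)))))
 (.node 22 (.node 18 (.node 16 (.node 15 (.leaf 2306)
 (.leaf 33))
 (.node 17 (.leaf 66)
 (.leaf 2177)))
 (.node 20 (.node 19 (.leaf 16417)
 (.leaf 16513))
 (.node 21 (.leaf 16641)
 (.leaf 18497))))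
 (.node 26 (.node 24 (.node 23 (.leaf 18561)
 (.leaf 16545))
 (.node 25 (.leaf 16673)
 (.leaf 18817)))
 (.node 28 (.node 27 (.leaf 18721)
 (.leaf 18593))
 (.node 29 (.leaf 16577)
 (.leaf 16769))))))

noncomputable def base : List Rs := [
.ordE 0 16 2,
.ordE 0 16 3,
.ordE 0 32 1,
.ordE 1 4 3,
.ordE 1 16 3,
.ordE 1 32 1,
.ordE 1 32 2,
.deg 2 [0, 3],
.deg 2 [1, 2],
.deg 3 [1, 0],
.deg 4 [0, 3],
.deg 4 [1, 2],
.deg 4 [3, 0],
.deg 5 [1, 2],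
.ab 0 2,
.ab 0 4,
.ab 0 5,
.ab 1 3,
.ab 1 4,
.ab 1 5,
.hall [0] [4, 5],
.hall [1] [3, 5],
.part [20, 32] [0, 0] [11] [],
.part [36, 16] [0, 0] [11] [],
.part [4, 48] [0, 0] [11] [],
.part [16, 36] [0, 0] [11] [],
.part [32, 20] [0, 0] [11] [],
.part [24, 32] [0, 0] [7] [],
.part [48, 8] [0, 0] [7] []]

noncomputable def gads : List Gt := [
⟨0, [⟨8, 2, []⟩, ⟨16, 2, []⟩], [3, 3, 3], 1, [(24, 1)]⟩,
⟨0, [⟨16, 2, []⟩, ⟨32, 2, []⟩], [3, 3, 3], 1, [(48, 1)]⟩,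
⟨0, [⟨4, 2, []⟩, ⟨32, 2, []⟩], [3, 3, 3], 1, [(36, 1)]⟩,
⟨0, [⟨4, 2, []⟩, ⟨16, 2, []⟩], [3, 3, 3], 1, [(20, 1)]⟩,
⟨1, [⟨4, 3, []⟩, ⟨32, 3, []⟩], [3, 3], 1, [(36, 1)]⟩,
⟨1, [⟨4, 3, []⟩, ⟨16, 3, []⟩], [3, 3], 1, [(20, 1)]⟩,
⟨1, [⟨16, 3, []⟩, ⟨32, 3, []⟩], [3, 3], 1, [(48, 1)]⟩]

noncomputable def cnf : List (List ℕ) := [
[23, 0],
[25, 22],
[3, 10],
[27, 4],
[29, 6],
[31, 12],
[9, 30],
[32, 26],
[14, 4],
[34, 16],
[18, 28],
[0, 6],
[24, 36],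
[2, 8],
[33, 39],
[19, 41],
[11, 43],
[17, 45],
[37, 47],
[13, 21],
[18, 10],
[16, 12],
[48, 20],
[50, 46],
[38, 52],
[40, 54],
[42, 56],
[58, 20],
[60, 44],
[35, 1, 59],
[1, 3, 61],
[15, 3, 51],
[15, 1, 49],
[5, 9, 55],
[5, 7, 57],
[7, 9, 53]]

noncomputable def db : Tr :=
 (.node 33 (.node 16 (.node 8 (.node 4 (.node 2 (.node 1 (.leaf 0x20019)
 (.leaf 0x18001b))
 (.node 3 (.leaf 0xc0005)
 (.leaf 0x6001d)))
 (.node 6 (.node 5 (.leaf 0x8001f)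
 (.leaf 0xe0021))
 (.node 7 (.leaf 0x20000b)
 (.leaf 0x1c0022))))
 (.node 12 (.node 10 (.node 9 (.leaf 0x60010)
 (.leaf 0x120024))
 (.node 11 (.leaf 0x1e0014)
 (.leaf 0x80002)))
 (.node 14 (.node 13 (.leaf 0x26001a)
 (.leaf 0xa0004))
 (.node 15 (.leaf 0x290023)
 (.leaf 0x2b0015)))))
 (.node 24 (.node 20 (.node 18 (.node 17 (.leaf 0x2d000d)
 (.leaf 0x2f0013))
 (.node 19 (.leaf 0x310027)
 (.leaf 0x17000f)))
 (.node 22 (.node 21 (.leaf 0xc0014)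
 (.leaf 0xe0012))
 (.node 23 (.leaf 0x160032)
 (.leaf 0x300034))))
 (.node 28 (.node 26 (.node 25 (.leaf 0x360028)
 (.leaf 0x38002a))
 (.node 27 (.leaf 0x3a002c)
 (.leaf 0x16003c)))
 (.node 30 (.node 29 (.leaf 0x2e003e)
 (.leaf 0x3d00030025))
 (.node 31 (.leaf 0x3f00050003)
 (.node 32 (.leaf 0x3500050011)
 (.leaf 0x3300030011)))))))
 (.node 50 (.node 41 (.node 37 (.node 35 (.node 34 (.leaf 0x39000b0007)
 (.leaf 0x3b00090007))
 (.node 36 (.leaf 0x37000b0009)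
 (.leaf 0x3f003b00350005)))
 (.node 39 (.node 38 (.leaf 0x390037000b)
 (.leaf 0x3f003b0005))
 (.node 40 (.leaf 0x39000b)
 (.leaf 0x3f003b))))
 (.node 45 (.node 43 (.node 42 (.leaf 0xc)
 (.leaf 0x2d))
 (.node 44 (.leaf 0x3a)
 (.leaf 0x3f)))
 (.node 47 (.node 46 (.leaf 0x2e)
 (.leaf 0x13))
 (.node 48 (.leaf 0x24)
 (.node 49 (.leaf 0xe)
 (.leaf 0x17))))))
 (.node 58 (.node 54 (.node 52 (.node 51 (.leaf 0x3c)
 (.leaf 0x3))
 (.node 53 (.leaf 0x19)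
 (.leaf 0x8)))
 (.node 56 (.node 55 (.leaf 0x1b)
 (.leaf 0x7))
 (.node 57 (.leaf 0x26)
 (.leaf 0x1d))))
 (.node 62 (.node 60 (.node 59 (.leaf 0x10)
 (.leaf 0x31))
 (.node 61 (.leaf 0x22)
 (.leaf 0x34)))
 (.node 64 (.node 63 (.leaf 0x29)
 (.leaf 0x5))
 (.node 65 (.leaf 0x36)
 (.node 66 (.leaf 0xa)
 (.leaf 0x0))))))))

noncomputable def prf : List ℕ := [
0x10001b000180000400005,
0xe0000400011000190001c0001f00001000030001e,
0x1900013000240000e000250000100007,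
0x180001f0000e000230000100005,
0x19000200000f000240000400005000230001d000180000e000000001a00001,
0xf00001000190001b0001400026,
0x1900000,
0x1000000,
0x300000,
0x1000000,
0x1c00000,
0x2500000,
0x1a00001,
0x1d00000,
0x1600000,
0x150000300000,
0x3300000,
0x2900001,
0x3400001,
0x140000b00001,
0x2b00001,
0x3500001,
0x3100002,
0x2800002,
0x3400002,
0x2500001,
0x2f00001,
0x1f0000400001,
0x2700001,
0x3300001,
0x1e0000c0000000001]

end D46

theorem inst_46 : instB 0 [0, 2] [9, 11] [] D46.base D46.gads D46.names D46.cnf D46.db D46.prf = true := by decide +kernel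

/-- no gadget has fewer than `2 R` new points. -/
theorem p2_46 : D46.gads.all (fun g => Nat.ble (2 * g.R) g.gs.length) = true := by decide +kernel

/-- there is no configuration of this instance. -/
theorem no_46 {V : Type v} [DecidableEq V] {ι : Type u} [Fintype ι] {B : ι → Finset V}
    {Q : Finset V} {i j : ι} {x : ℕ → V} {D : ℕ → Finset V}
    (h : CfI B Q 0 x D i j [0, 2] [9, 11]) : False :=
  h.absurd (by decide) srt_nil inst_46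

end Pool.Agent.Hyp6
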