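import Pool.Agent.Hyp6.Cb5

/-!
# HYP6: instance 49 of the list: n = 0, bounds [0, 2], inner blocks [9, 19]

65 base clauses, 17 gadgets, 24 learned clauses.
-/

set_option autoImplicit false
set_option maxRecDepth 100000

namespace Pool.Agent.Hyp6

open Rup

universe u v

namespace D49

noncomputable def names : Tr :=
 (.node 32 (.node 15 (.node 7 (.node 3 (.node 1 (.node 0 (.leaf 66)
 (.leaf 65))
 (.node 2 (.leaf 2083)
 (.leaf 34)))
 (.node 5 (.node 4 (.leaf 258)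
 (.leaf 82))
 (.node 6 (.leaf 16705)
 (.leaf 16673))))
 (.node 11 (.node 9 (.node 8 (.leaf 8513)
 (.leaf 2114))
 (.node 10 (.leaf 16481)
 (.leaf 33)))
 (.node 13 (.node 12 (.leaf 2113)
 (.leaf 2081))
 (.node 14 (.leaf 2115)
 (.leaf 257)))))
 (.node 23 (.node 19 (.node 17 (.node 16 (.leaf 67)
 (.leaf 2307))
 (.node 18 (.leaf 18529)
 (.leaf 8289)))
 (.node 21 (.node 20 (.leaf 18497)
 (.leaf 2308))
 (.node 22 (.leaf 322)
 (.leaf 17))))
 (.node 27 (.node 25 (.node 24 (.leaf 8273)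
 (.leaf 9))
 (.node 26 (.leaf 2084)
 (.leaf 2057)))
 (.node 29 (.node 28 (.leaf 2065)
 (.leaf 18753))
 (.node 30 (.leaf 16425)
 (.node 31 (.leaf 129)
 (.leaf 162)))))))
 (.node 49 (.node 40 (.node 36 (.node 34 (.node 33 (.leaf 8353)
 (.leaf 2177))
 (.node 35 (.leaf 8275)
 (.leaf 19)))
 (.node 38 (.node 37 (.leaf 2082)
 (.leaf 98))
 (.node 39 (.leaf 16433)
 (.leaf 18441))))
 (.node 44 (.node 42 (.node 41 (.leaf 2179)
 (.leaf 18561))
 (.node 43 (.leaf 16657)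
 (.leaf 18593)))
 (.node 46 (.node 45 (.leaf 2305)
 (.leaf 18689))
 (.node 47 (.leaf 16449)
 (.node 48 (.leaf 2067)
 (.leaf 18721))))))
 (.node 57 (.node 53 (.node 51 (.node 50 (.leaf 36)
 (.leaf 74))
 (.node 52 (.leaf 8265)
 (.leaf 2131)))
 (.node 55 (.node 54 (.leaf 10323)
 (.leaf 18465))
 (.node 56 (.leaf 16641)
 (.leaf 16393))))
 (.node 61 (.node 59 (.node 58 (.leaf 16417)
 (.leaf 260))
 (.node 60 (.leaf 8274)
 (.leaf 259)))
 (.node 63 (.node 62 (.leaf 18449)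
 (.leaf 18481))
 (.node 64 (.leaf 18)
 (.node 65 (.leaf 16769)
 (.leaf 10))))))))

noncomputable def base : List Rs := [
.join 0 4 4 2 1 1 [(2, 0)],
.hall [1] [3, 4],
.le 0 10 2 1 3,
.ordE 1 4 1,
.join 0 4 3 2 1 1 [(2, 0)],
.part [6, 1] [0, 0] [56] [],
.deg 3 [0, 2],
.part [36, 8] [0, 0] [19] [],
.deg 4 [0, 2],
.ordE 1 4 2,
.ab 1 4,
.part [34, 20] [0, 0] [9] [],
.l2 0 12 20 2 1 1,
.deg 5 [0, 3],
.ab 1 5,
.join 0 8 5 2 1 1 [(3, 0)],
.ab 0 3,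
.join 0 2 3 2 3 3 [(1, 4)],
.deg 1 [0, 2],
.hall [0] [3, 5],
.part [8, 36] [0, 0] [19] [],
.deg 2 [3, 0],
.ab 1 3,
.deg 3 [1, 1],
.l2 0 10 12 3 1 1,
.join 0 1 3 2 1 1 [(0, 0)],
.ordE 1 4 3,
.l2 0 9 40 3 1 1,
.hall [1] [0, 1],
.join 0 2 3 2 1 1 [(1, 0)],
.deg 2 [1, 2],
.part [40, 16] [0, 0] [7] [],
.part [12, 32] [0, 0] [19] [],
.hall [1] [1, 2],
.join 1 2 3 3 3 2 [(1, 2)],
.deg 3 [2, 0],
.ab 1 2,
.ab 0 5,
.ab 0 0,
.le 1 10 8 3 3,
.ab 1 0,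
.part [4, 40] [0, 0] [19] [],
.deg 5 [3, 0],
.join 0 2 3 2 0 3 [(1, 1)],
.ordE 0 32 2,
.ordE 0 32 3,
.join 0 8 5 2 2 0 [(3, 0)],
.hall [0] [0, 1],
.ordE 1 32 3,
.ab 0 2,
.ab 1 1,
.ordE 0 8 2,
.part [40, 4] [0, 0] [19] [],
.part [1, 6] [0, 0] [56] [],
.le 0 10 2 1 2,
.ordE 1 8 1,
.deg 5 [1, 2],
.part [5, 2] [0, 0] [56] [],
.join 0 2 3 2 2 2 [(1, 2)],
.part [48, 8] [0, 0] [7] [],
.part [32, 12] [0, 0] [19] [],
.deg 0 [1, 0],
.ab2 0 40,
.l2 0 10 40 3 1 1,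
.deg 2 [0, 3]]

noncomputable def gads : List Gt := [
⟨1, [⟨8, 3, []⟩, ⟨32, 3, []⟩], [3, 3], 1, [(40, 1)]⟩,
⟨1, [⟨8, 2, []⟩, ⟨32, 4, []⟩], [3, 1, 1], 1, [(40, 1)]⟩,
⟨1, [⟨4, 3, []⟩, ⟨8, 3, []⟩], [3, 3], 1, [(12, 1)]⟩,
⟨0, [⟨4, 4, []⟩, ⟨8, 2, []⟩], [3, 2, 2], 1, [(12, 1)]⟩,
⟨0, [⟨4, 2, []⟩, ⟨40, 2, []⟩], [3, 3, 3], 1, [(12, 1), (36, 1)]⟩,
⟨1, [⟨10, 3, []⟩, ⟨4, 3, []⟩], [3, 3], 1, [(6, 1), (12, 1)]⟩,
⟨0, [⟨20, 2, []⟩, ⟨32, 2, []⟩], [3, 3, 3], 1, [(36, 1), (48, 1)]⟩,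
⟨0, [⟨9, 2, []⟩, ⟨4, 2, []⟩], [3, 3, 3], 1, [(5, 1), (12, 1)]⟩,
⟨0, [⟨4, 2, []⟩, ⟨32, 2, []⟩], [3, 3, 3], 1, [(36, 1)]⟩,
⟨0, [⟨10, 2, []⟩, ⟨4, 2, []⟩], [3, 3, 3], 1, [(6, 1), (12, 1)]⟩,
⟨0, [⟨12, 2, []⟩, ⟨32, 2, []⟩], [3, 3, 3], 1, [(36, 1), (40, 1)]⟩,
⟨0, [⟨1, 2, []⟩, ⟨4, 2, []⟩], [3, 3, 3], 1, [(5, 1)]⟩,
⟨1, [⟨4, 3, []⟩, ⟨32, 3, []⟩], [3, 3], 1, [(36, 1)]⟩,
⟨1, [⟨4, 3, []⟩, ⟨16, 3, []⟩], [3, 3], 1, [(20, 1)]⟩,
⟨0, [⟨10, 2, []⟩, ⟨32, 2, []⟩], [3, 3, 3], 1, [(34, 1), (40, 1)]⟩,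
⟨0, [⟨8, 2, []⟩, ⟨32, 2, []⟩], [3, 3, 3], 1, [(40, 1)]⟩,
⟨1, [⟨4, 4, []⟩, ⟨8, 2, []⟩], [3, 2, 2], 1, [(12, 1)]⟩]

noncomputable def cnf : List (List ℕ) := [
[23, 63, 64, 66],
[24, 68],
[71, 72],
[75, 26],
[23, 3, 76, 38],
[78, 80],
[2, 28],
[14, 40],
[62, 82],
[5, 74],
[69, 85],
[86, 88],
[39, 67, 6],
[30, 42],
[91, 93],
[3, 31, 44, 16],
[3, 95],
[73, 33, 10],
[46, 96],
[2, 30],
[94, 98],
[100, 26],
[25, 41],
[0, 18],
[49, 39, 0],
[51, 3, 102, 104],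
[53, 4],
[105, 17, 0],
[54, 56],
[47, 3, 10, 48],
[6, 4],
[12, 84],
[20, 92],
[56, 26],
[97, 19, 106, 108],
[32, 24],
[27, 111],
[31, 113],
[51, 115],
[109, 28],
[55, 81],
[116, 58],
[118, 90],
[33, 10, 120],
[123, 8],
[119, 122],
[1, 44, 16],
[50, 46],
[43, 34],
[23, 117],
[57, 125],
[33, 0],
[12, 110],
[114, 126],
[121, 128],
[19, 24],
[8, 34],
[60, 124],
[129, 1, 10, 70],
[130, 40],
[112, 36],
[132, 54],
[17, 13],
[49, 17, 0],
[22, 52],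
[29, 35, 59],
[19, 43, 59],
[5, 29, 37],
[101, 1, 21],
[7, 45, 21, 15],
[107, 5, 127, 37],
[65, 9, 15, 131],
[103, 7, 61, 21],
[7, 9, 15],
[11, 7, 79, 21],
[77, 9, 15, 13],
[133, 7, 61],
[5, 35, 99],
[5, 83, 89],
[11, 9, 87, 13],
[1, 9, 13],
[53, 19, 37]]

noncomputable def db : Tr :=
 (.node 53 (.node 26 (.node 13 (.node 6 (.node 3 (.node 1 (.leaf 0x44004200410019)
 (.node 2 (.leaf 0x46001a)
 (.leaf 0x4a0049)))
 (.node 4 (.leaf 0x1c004d)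
 (.node 5 (.leaf 0x28004e00050019)
 (.leaf 0x520050))))
 (.node 9 (.node 7 (.leaf 0x1e0004)
 (.node 8 (.leaf 0x2a0010)
 (.leaf 0x540040)))
 (.node 11 (.node 10 (.leaf 0x4c0007)
 (.leaf 0x570047))
 (.node 12 (.leaf 0x5a0058)
 (.leaf 0x800450029)))))
 (.node 19 (.node 16 (.node 14 (.leaf 0x2c0020)
 (.node 15 (.leaf 0x5f005d)
 (.leaf 0x12002e00210005)))
 (.node 17 (.leaf 0x610005)
 (.node 18 (.leaf 0xc0023004b)
 (.leaf 0x620030))))
 (.node 22 (.node 20 (.leaf 0x200004)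
 (.node 21 (.leaf 0x640060)
 (.leaf 0x1c0066)))
 (.node 24 (.node 23 (.leaf 0x2b001b)
 (.leaf 0x140002))
 (.node 25 (.leaf 0x200290033)
 (.leaf 0x6a006800050035))))))
 (.node 39 (.node 32 (.node 29 (.node 27 (.leaf 0x60037)
 (.node 28 (.leaf 0x20013006b)
 (.leaf 0x3a0038)))
 (.node 30 (.leaf 0x32000c00050031)
 (.node 31 (.leaf 0x60008)
 (.leaf 0x56000e))))
 (.node 35 (.node 33 (.leaf 0x5e0016)
 (.node 34 (.leaf 0x1c003a)
 (.leaf 0x6e006c00150063)))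
 (.node 37 (.node 36 (.leaf 0x1a0022)
 (.leaf 0x71001d))
 (.node 38 (.leaf 0x730021)
 (.leaf 0x750035)))))
 (.node 46 (.node 42 (.node 40 (.leaf 0x1e006f)
 (.node 41 (.leaf 0x530039)
 (.leaf 0x3c0076)))
 (.node 44 (.node 43 (.leaf 0x5c0078)
 (.leaf 0x7a000c0023))
 (.node 45 (.leaf 0xa007d)
 (.leaf 0x7c0079))))
 (.node 49 (.node 47 (.leaf 0x12002e0003)
 (.node 48 (.leaf 0x300034)
 (.leaf 0x24002d)))
 (.node 51 (.node 50 (.leaf 0x770019)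
 (.leaf 0x7f003b))
 (.node 52 (.leaf 0x20023)
 (.leaf 0x70000e)))))))
 (.node 79 (.node 66 (.node 59 (.node 56 (.node 54 (.leaf 0x800074)
 (.node 55 (.leaf 0x82007b)
 (.leaf 0x1a0015)))
 (.node 57 (.leaf 0x24000a)
 (.node 58 (.leaf 0x7e003e)
 (.leaf 0x48000c00030083))))
 (.node 62 (.node 60 (.leaf 0x2a0084)
 (.node 61 (.leaf 0x260072)
 (.leaf 0x380086)))
 (.node 64 (.node 63 (.leaf 0xf0013)
 (.leaf 0x200130033))
 (.node 65 (.leaf 0x360018)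
 (.leaf 0x3d0025001f)))))
 (.node 72 (.node 69 (.node 67 (.leaf 0x3d002d0015)
 (.node 68 (.leaf 0x27001f0007)
 (.leaf 0x1700030067)))
 (.node 70 (.leaf 0x110017002f0009)
 (.node 71 (.leaf 0x2700810007006d)
 (.leaf 0x850011000b0043))))
 (.node 75 (.node 73 (.leaf 0x17003f00090069)
 (.node 74 (.leaf 0x11000b0009)
 (.leaf 0x1700510009000d)))
 (.node 77 (.node 76 (.leaf 0xf0011000b004f)
 (.leaf 0x3f00090087))
 (.node 78 (.leaf 0x6500250007)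
 (.leaf 0x5b00550007))))))
 (.node 92 (.node 85 (.node 82 (.node 80 (.leaf 0xf0059000b000d)
 (.node 81 (.leaf 0xf000b0003)
 (.leaf 0x2700150037)))
 (.node 83 (.leaf 0x2700850008)
 (.node 84 (.leaf 0x9000f000b)
 (.leaf 0x2700090012002500170015))))
 (.node 88 (.node 86 (.leaf 0x8700270009)
 (.node 87 (.leaf 0x870027)
 (.leaf 0x87)))
 (.node 90 (.node 89 (.leaf 0x38)
 (.leaf 0x53))
 (.node 91 (.leaf 0x50)
 (.leaf 0x20001a)))))
 (.node 99 (.node 95 (.node 93 (.leaf 0x20)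
 (.node 94 (.leaf 0x73)
 (.leaf 0x26)))
 (.node 97 (.node 96 (.leaf 0xa001c)
 (.leaf 0xa0009))
 (.node 98 (.leaf 0xa)
 (.leaf 0x8))))
 (.node 102 (.node 100 (.leaf 0x11)
 (.node 101 (.leaf 0xf)
 (.leaf 0x2a)))
 (.node 104 (.node 103 (.leaf 0x56)
 (.leaf 0x1b))
 (.node 105 (.leaf 0x47)
 (.leaf 0x0))))))))

noncomputable def prf : List ℕ := [
0x1c0000b0002b0002f000220003f00034000020004600003000490005100039000450004d000060000a0004a000110003b000000001a0003a0000100019000040003d0001d000410002d0002a0004b0004e0000e0004800033,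
0x1b0003c0003b0004b0000200009,
0x44000460004d00011000120002a0000e000220004c000130003d000020001c,
0x1a0001e000520002900043000310003e0004d0000f000260003d000000000a00034000460002a000270001c000280000100016000200004f000300002c0003300038000220001b00008,
0x1d00005000080002200041000210003200045000310003f0004f000520001a000120004c000030003700000,
0x1c00020000540002b0004500033000400004f000110000c00036000480002c000290002a0002800003000180002200051000320002e0003f000350003a00014000240002d0001d000250000a00016000380003c000090004200046000260004300049000310001a00000,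
0x1a00000,
0x3000000,
0x5400000,
0x2000024000580002f00049000100003a0004c000300002d0002e000070003b0005000037000590003c000430001800031000290001a000400000d000460004a000470002a0004d00000,
0x270001d000370002d0004600016000170003b0004d000310002e0002f000120005400045000000004400019000320002a0001b0003d000410000e000470004b0002b000480004e,
0x3700000,
0x2100000,
0x2f0004100045000580001d000350001f000430002d000160000a000140001e000250004700040000440002c0001a000550003d000490005b000260003e000500003400031000320000000004,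
0x25000290005d000340004e0003c00049000580001a00031000480000b00015000270003f00051000350003200033000210002b0003b000000000100005,
0x500004c0005a000130001d00042000000002800002,
0x110002e0002d0003e0003d0004b0005e00026000580000f000430000000003,
0x190000100000,
0x100000200001,
0x5d00001,
0x4600001,
0x5000001,
0x5d00001,
0x670000000001]

end D49

theorem inst_49 : instB 0 [0, 2] [9, 19] [] D49.base D49.gads D49.names D49.cnf D49.db D49.prf = true := by decide +kernel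

/-- no gadget has fewer than `2 R` new points. -/
theorem p2_49 : D49.gads.all (fun g => Nat.ble (2 * g.R) g.gs.length) = true := by decide +kernel

/-- there is no configuration of this instance. -/
theorem no_49 {V : Type v} [DecidableEq V] {ι : Type u} [Fintype ι] {B : ι → Finset V}
    {Q : Finset V} {i j : ι} {x : ℕ → V} {D : ℕ → Finset V}
    (h : CfI B Q 0 x D i j [0, 2] [9, 19]) : False :=
  h.absurd (by decide) srt_nil inst_49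

end Pool.Agent.Hyp6
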