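import Pool.Agent.Hyp6.Cb5

/-!
# HYP6: instance 50 of the list: n = 0, bounds [0, 2], inner blocks [9, 22]

102 base clauses, 35 gadgets, 76 learned clauses.
-/

set_option autoImplicit false
set_option maxRecDepth 100000

namespace Pool.Agent.Hyp6

open Rup

universe u v

namespace D50

noncomputable def names : Tr :=
 (.node 50 (.node 24 (.node 11 (.node 5 (.node 2 (.node 0 (.leaf 10)
 (.node 1 (.leaf 66)
 (.leaf 258)))
 (.node 3 (.leaf 9)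
 (.node 4 (.leaf 65)
 (.leaf 2114))))
 (.node 8 (.node 6 (.leaf 2307)
 (.node 7 (.leaf 2081)
 (.leaf 2115)))
 (.node 9 (.leaf 16705)
 (.node 10 (.leaf 33)
 (.leaf 16657)))))
 (.node 17 (.node 14 (.node 12 (.leaf 8329)
 (.node 13 (.leaf 2059)
 (.leaf 16673)))
 (.node 15 (.leaf 17)
 (.node 16 (.leaf 16649)
 (.leaf 18753))))
 (.node 20 (.node 18 (.leaf 18505)
 (.node 19 (.leaf 16457)
 (.leaf 18569)))
 (.node 22 (.node 21 (.leaf 2178)
 (.leaf 2057))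
 (.node 23 (.leaf 2179)
 (.leaf 18697))))))
 (.node 37 (.node 30 (.node 27 (.node 25 (.leaf 2113)
 (.node 26 (.leaf 8289)
 (.leaf 8265)))
 (.node 28 (.leaf 129)
 (.node 29 (.leaf 257)
 (.leaf 16769))))
 (.node 33 (.node 31 (.leaf 8273)
 (.node 32 (.leaf 2308)
 (.leaf 2065)))
 (.node 35 (.node 34 (.leaf 18817)
 (.leaf 130))
 (.node 36 (.leaf 16577)
 (.leaf 16449)))))
 (.node 43 (.node 40 (.node 38 (.leaf 42)
 (.node 39 (.leaf 8233)
 (.leaf 18497)))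
 (.node 41 (.leaf 138)
 (.node 42 (.leaf 16641)
 (.leaf 2058))))
 (.node 46 (.node 44 (.leaf 18513)
 (.node 45 (.leaf 10377)
 (.leaf 18625)))
 (.node 48 (.node 47 (.leaf 82)
 (.leaf 2177))
 (.node 49 (.leaf 18577)
 (.leaf 2083)))))))
 (.node 75 (.node 62 (.node 56 (.node 53 (.node 51 (.leaf 8513)
 (.node 52 (.leaf 8217)
 (.leaf 18529)))
 (.node 54 (.leaf 16409)
 (.node 55 (.leaf 18689)
 (.leaf 18593))))
 (.node 59 (.node 57 (.leaf 18481)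
 (.node 58 (.leaf 16393)
 (.leaf 18441)))
 (.node 60 (.leaf 2067)
 (.node 61 (.leaf 2066)
 (.leaf 16425)))))
 (.node 68 (.node 65 (.node 63 (.leaf 16433)
 (.node 64 (.leaf 26)
 (.leaf 98)))
 (.node 66 (.leaf 16754)
 (.node 67 (.leaf 10433)
 (.leaf 34))))
 (.node 71 (.node 69 (.leaf 2082)
 (.node 70 (.leaf 2188)
 (.leaf 2243)))
 (.node 73 (.node 72 (.leaf 2123)
 (.leaf 10313))
 (.node 74 (.leaf 10321)
 (.leaf 2187))))))
 (.node 88 (.node 81 (.node 78 (.node 76 (.leaf 10379)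
 (.node 77 (.leaf 18561)
 (.leaf 10337)))
 (.node 79 (.leaf 8457)
 (.node 80 (.leaf 322)
 (.leaf 18465))))
 (.node 84 (.node 82 (.leaf 2305)
 (.node 83 (.leaf 18449)
 (.leaf 11)))
 (.node 86 (.node 85 (.leaf 10401)
 (.leaf 260))
 (.node 87 (.leaf 259)
 (.leaf 10289)))))
 (.node 94 (.node 91 (.node 89 (.leaf 2147)
 (.node 90 (.leaf 16417)
 (.leaf 18457)))
 (.node 92 (.leaf 16401)
 (.node 93 (.leaf 16513)
 (.leaf 2099))))
 (.node 97 (.node 95 (.leaf 18473)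
 (.node 96 (.leaf 67)
 (.leaf 74)))
 (.node 99 (.node 98 (.leaf 2131)
 (.leaf 2212))
 (.node 100 (.leaf 266)
 (.leaf 18))))))))

noncomputable def base : List Rs := [
.part [8, 33] [0, 0] [22] [],
.part [46, 17] [1, 0] [] [],
.join 0 1 2 2 1 1 [(0, 0)],
.ab 1 3,
.part [34, 17] [0, 0] [] [(0, 12)],
.l2 0 9 17 0 1 1,
.join 0 1 4 2 1 1 [(0, 0)],
.ab 0 5,
.deg 0 [1, 1],
.deg 0 [0, 2],
.part [36, 10] [0, 0] [] [(1, 17)],
.ab2 1 24,
.hall [0] [3, 4],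
.deg 2 [1, 1],
.l2 0 5 17 0 1 1,
.part [48, 8] [0, 0] [7] [],
.l2 0 10 12 3 1 1,
.join 1 1 4 4 2 2 [(0, 0)],
.join 1 8 4 3 1 2 [(3, 0)],
.join 0 2 3 2 1 1 [(1, 0)],
.join 1 1 3 3 1 2 [(0, 0)],
.ordE 1 32 3,
.part [36, 17] [0, 0] [] [(1, 10)],
.ordE 1 4 1,
.join 1 1 4 3 2 3 [(0, 2)],
.ab 1 4,
.part [34, 17] [0, 0] [] [(1, 12)],
.part [36, 18] [0, 0] [9] [],
.ab 0 3,
.le 1 17 1 0 3,
.part [33, 8] [0, 0] [22] [],
.deg 2 [0, 2],
.deg 5 [1, 2],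
.l2 0 17 33 0 1 1,
.join 0 8 5 2 1 1 [(3, 0)],
.l2 0 3 17 0 1 1,
.deg 5 [0, 3],
.part [34, 12] [0, 0] [] [(0, 17)],
.l2 0 3 9 0 1 1,
.part [3, 4] [0, 0] [56] [],
.ab 1 5,
.ab 1 1,
.ab2 1 17,
.lipl 0 36 46 0 10,
.part [8, 48] [0, 0] [7] [],
.deg 0 [2, 0],
.ab2 1 20,
.deg 4 [1, 1],
.hall [1] [3, 4],
.ordE 0 32 3,
.ab2 1 6,
.join 1 4 3 3 1 2 [(2, 0)],
.ab 0 0,
.ab 0 2,
.part [1, 6] [0, 0] [56] [],
.ab 1 0,
.ordE 1 8 2,
.part [34, 20] [0, 0] [9] [],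
.deg 1 [0, 2],
.l2 0 10 40 3 1 1,
.part [24, 32] [0, 0] [7] [],
.part [4, 3] [0, 0] [56] [],
.ab 0 1,
.hall [1] [1, 2],
.part [16, 40] [0, 0] [7] [],
.join 1 2 2 3 2 1 [(1, 0)],
.ab 1 2,
.part [2, 5] [0, 0] [56] [],
.part [5, 2] [0, 0] [56] [],
.hall [1] [0, 1],
.deg 3 [1, 1],
.part [1, 40] [0, 0] [22] [],
.hall [0] [0, 2],
.deg 3 [0, 2],
.part [32, 24] [0, 0] [7] [],
.ab2 1 9,
.ordE 0 8 1,
.part [6, 1] [0, 0] [56] [],
.part [40, 16] [0, 0] [7] [],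
.ordE 0 8 2,
.ordE 0 32 2,
.ab 0 4,
.l2 0 12 40 3 1 1,
.part [40, 1] [0, 0] [22] [],
.deg 3 [2, 0],
.join 0 1 3 2 1 1 [(0, 0)],
.hall [1] [0, 2],
.ordE 0 1 2,
.join 1 2 3 3 1 2 [(1, 0)],
.join 1 4 4 4 1 3 [(2, 0)],
.part [32, 9] [0, 0] [22] [],
.hall [0] [1, 2],
.l2 0 5 9 0 1 1,
.join 0 1 5 2 1 1 [(0, 0)],
.deg 1 [1, 1],
.hall [0] [0, 1],
.join 0 1 1 2 1 1 [(0, 0)],
.join 0 4 3 2 1 1 [(2, 0)],
.deg 4 [0, 2],
.part [9, 32] [0, 0] [22] [],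
.ordE 1 16 1,
.deg 5 [3, 0]]

noncomputable def gads : List Gt := [
⟨1, [⟨2, 2, []⟩, ⟨20, 4, []⟩], [3, 1, 1], 1, [(6, 1), (18, 1)]⟩,
⟨0, [⟨1, 2, []⟩, ⟨8, 2, []⟩], [3, 3, 3], 1, [(9, 1)]⟩,
⟨1, [⟨4, 3, []⟩, ⟨16, 3, []⟩], [3, 3], 1, [(20, 1)]⟩,
⟨0, [⟨17, 2, []⟩, ⟨32, 2, []⟩], [3, 3, 3], 1, [(33, 1), (48, 1)]⟩,
⟨1, [⟨6, 3, []⟩, ⟨8, 3, []⟩], [3, 3], 1, [(10, 1), (12, 1)]⟩,
⟨1, [⟨9, 3, []⟩, ⟨32, 3, []⟩], [3, 3], 1, [(33, 1), (40, 1)]⟩,
⟨0, [⟨40, 2, []⟩, ⟨16, 2, []⟩], [3, 3, 3], 1, [(24, 1), (48, 1)]⟩,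
⟨0, [⟨5, 2, []⟩, ⟨32, 2, []⟩], [3, 3, 3], 1, [(33, 1), (36, 1)]⟩,
⟨1, [⟨2, 3, []⟩, ⟨16, 3, []⟩], [3, 3], 1, [(18, 1)]⟩,
⟨0, [⟨3, 2, []⟩, ⟨32, 2, []⟩], [3, 3, 3], 1, [(33, 1), (34, 1)]⟩,
⟨1, [⟨17, 3, []⟩, ⟨32, 3, []⟩], [3, 3], 1, [(33, 1), (48, 1)]⟩,
⟨0, [⟨12, 2, []⟩, ⟨32, 2, []⟩], [3, 3, 3], 1, [(36, 1), (40, 1)]⟩,
⟨0, [⟨1, 2, []⟩, ⟨32, 2, []⟩], [3, 3, 3], 1, [(33, 1)]⟩,
⟨1, [⟨1, 3, []⟩, ⟨8, 3, []⟩], [3, 3], 1, [(9, 1)]⟩,
⟨0, [⟨17, 2, []⟩, ⟨8, 2, []⟩], [3, 3, 3], 1, [(9, 1), (24, 1)]⟩,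
⟨1, [⟨8, 3, []⟩, ⟨32, 3, []⟩], [3, 3], 1, [(40, 1)]⟩,
⟨0, [⟨10, 2, []⟩, ⟨32, 2, []⟩], [3, 3, 3], 1, [(34, 1), (40, 1)]⟩,
⟨1, [⟨8, 2, []⟩, ⟨32, 4, []⟩], [3, 1, 1], 1, [(40, 1)]⟩,
⟨0, [⟨33, 2, []⟩, ⟨8, 2, []⟩], [3, 3, 3], 1, [(9, 1), (40, 1)]⟩,
⟨0, [⟨9, 2, []⟩, ⟨32, 2, []⟩], [3, 3, 3], 1, [(33, 1), (40, 1)]⟩,
⟨0, [⟨8, 2, []⟩, ⟨32, 2, []⟩], [3, 3, 3], 1, [(40, 1)]⟩,
⟨1, [⟨16, 2, []⟩, ⟨32, 4, []⟩], [3, 1, 1], 1, [(48, 1)]⟩,
⟨1, [⟨4, 3, []⟩, ⟨8, 3, []⟩], [3, 3], 1, [(12, 1)]⟩,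
⟨0, [⟨1, 2, []⟩, ⟨12, 2, []⟩], [3, 3, 3], 1, [(5, 1), (9, 1)]⟩,
⟨0, [⟨3, 2, []⟩, ⟨4, 2, []⟩], [3, 3, 3], 1, [(5, 1), (6, 1)]⟩,
⟨0, [⟨1, 2, []⟩, ⟨10, 2, []⟩], [3, 3, 3], 1, [(3, 1), (9, 1)]⟩,
⟨1, [⟨24, 3, []⟩, ⟨32, 3, []⟩], [3, 3], 1, [(40, 1), (48, 1)]⟩,
⟨0, [⟨5, 2, []⟩, ⟨2, 2, []⟩], [3, 3, 3], 1, [(3, 1), (6, 1)]⟩,
⟨1, [⟨2, 3, []⟩, ⟨8, 3, []⟩], [3, 3], 1, [(10, 1)]⟩,
⟨1, [⟨1, 3, []⟩, ⟨32, 3, []⟩], [3, 3], 1, [(33, 1)]⟩,
⟨1, [⟨17, 4, []⟩, ⟨8, 2, []⟩], [3, 2, 2], 1, [(9, 1), (24, 1)]⟩,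
⟨0, [⟨16, 2, []⟩, ⟨32, 2, []⟩], [3, 3, 3], 1, [(48, 1)]⟩,
⟨1, [⟨1, 3, []⟩, ⟨10, 3, []⟩], [3, 3], 1, [(3, 1), (9, 1)]⟩,
⟨1, [⟨1, 3, []⟩, ⟨12, 3, []⟩], [3, 3], 1, [(5, 1), (9, 1)]⟩,
⟨0, [⟨8, 2, []⟩, ⟨16, 2, []⟩], [3, 3, 3], 1, [(24, 1)]⟩]

noncomputable def cnf : List (List ℕ) := [
[74, 48],
[132, 40],
[7, 21, 76, 78],
[51, 81],
[22, 40, 53],
[55, 25, 0],
[7, 57, 82, 24],
[59, 85],
[0, 86],
[6, 26],
[28, 88, 91],
[135, 93],
[8, 56],
[136, 138],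
[79, 25, 0],
[60, 80],
[63, 53, 2],
[87, 43, 140, 90],
[51, 43, 142, 134],
[31, 9, 94, 62],
[45, 11, 144, 146],
[65, 12],
[28, 40, 149],
[139, 14],
[87, 47, 150, 152],
[97, 155],
[22, 40, 157],
[28, 98],
[9, 75],
[153, 26],
[32, 80],
[20, 100],
[4, 12],
[25, 159, 0],
[9, 59, 160, 102],
[105, 25, 0],
[58, 64],
[22, 106, 25],
[105, 55, 0],
[108, 162],
[165, 111],
[67, 167],
[91, 41],
[63, 133, 28],
[74, 68],
[168, 44],
[171, 113],
[70, 42],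
[50, 96],
[173, 174],
[177, 115],
[15, 11, 178, 156],
[7, 117],
[21, 181],
[116, 114],
[45, 119],
[17, 10],
[22, 112],
[30, 120],
[63, 103, 2],
[72, 110],
[180, 182],
[31, 185],
[66, 14],
[186, 34],
[123, 15, 188, 176],
[15, 163],
[184, 190],
[124, 166],
[44, 66],
[2, 10],
[116, 34],
[6, 20],
[8, 16],
[84, 92],
[147, 37],
[3, 8],
[126, 118],
[18, 154],
[193, 2],
[175, 4],
[57, 187],
[53, 103, 2],
[18, 118],
[192, 50],
[7, 9, 194, 54],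
[44, 14],
[169, 0],
[67, 11, 196, 148],
[15, 47, 198, 170],
[84, 36],
[30, 20],
[79, 55, 0],
[7, 59, 200, 158],
[202, 122],
[6, 30],
[7, 31, 128, 104],
[21, 9, 130, 52],
[56, 46],
[38, 110],
[43, 96],
[172, 164],
[123, 199, 115, 99],
[1, 3, 39],
[101, 47, 113],
[83, 5, 33, 61],
[189, 17, 89, 107],
[145, 13, 49, 35],
[161, 71, 73, 61],
[77, 5, 33, 29],
[121, 47, 99],
[129, 5, 33, 23],
[151, 13, 49, 69],
[131, 5, 29, 19],
[1, 5, 33],
[27, 17, 37],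
[83, 3, 39, 73],
[17, 13, 35],
[95, 5, 23, 19],
[11, 65, 35],
[201, 3, 39, 19],
[195, 5, 33, 19],
[3, 5, 19],
[43, 65, 69],
[101, 17, 107],
[1, 131, 125, 39],
[129, 137, 125, 127],
[1, 95, 109, 39],
[143, 13, 35, 69],
[77, 203, 109, 127],
[121, 17, 89],
[27, 13, 49],
[141, 11, 37, 93],
[71, 5, 61],
[27, 197, 183, 37],
[27, 179, 191, 37],
[3, 71, 73]]

noncomputable def db : Tr :=
 (.node 106 (.node 53 (.node 26 (.node 13 (.node 6 (.node 3 (.node 1 (.leaf 0x32004c)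
 (.node 2 (.leaf 0x2a0086)
 (.leaf 0x50004e00170009)))
 (.node 4 (.leaf 0x530035)
 (.node 5 (.leaf 0x37002a0018)
 (.leaf 0x2001b0039))))
 (.node 9 (.node 7 (.leaf 0x1a0054003b0009)
 (.node 8 (.leaf 0x57003d)
 (.leaf 0x580002)))
 (.node 11 (.node 10 (.leaf 0x1c0008)
 (.leaf 0x5d005a001e))
 (.node 12 (.leaf 0x5f0089)
 (.leaf 0x3a000a)))))
 (.node 19 (.node 16 (.node 14 (.leaf 0x8c008a)
 (.node 15 (.leaf 0x2001b0051)
 (.leaf 0x52003e)))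
 (.node 17 (.leaf 0x400370041)
 (.node 18 (.leaf 0x5c008e002d0059)
 (.leaf 0x880090002d0035))))
 (.node 22 (.node 20 (.leaf 0x400060000b0021)
 (.node 21 (.leaf 0x940092000d002f)
 (.leaf 0xe0043)))
 (.node 24 (.node 23 (.leaf 0x97002a001e)
 (.leaf 0x10008d))
 (.node 25 (.leaf 0x9a009800310059)
 (.leaf 0x9d0063))))))
 (.node 39 (.node 32 (.node 29 (.node 27 (.leaf 0x9f002a0018)
 (.node 28 (.leaf 0x64001e)
 (.leaf 0x4d000b)))
 (.node 30 (.leaf 0x1c009b)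
 (.node 31 (.leaf 0x520022)
 (.leaf 0x660016))))
 (.node 35 (.node 33 (.leaf 0xe0006)
 (.node 34 (.leaf 0x200a1001b)
 (.leaf 0x6800a2003d000b)))
 (.node 37 (.node 36 (.leaf 0x2001b006b)
 (.leaf 0x42003c))
 (.node 38 (.leaf 0x1b006c0018)
 (.leaf 0x20039006b)))))
 (.node 46 (.node 42 (.node 40 (.leaf 0xa4006e)
 (.node 41 (.leaf 0x7100a7)
 (.leaf 0xa90045)))
 (.node 44 (.node 43 (.leaf 0x2b005d)
 (.leaf 0x1e00870041))
 (.node 45 (.leaf 0x46004c)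
 (.leaf 0x2e00aa))))
 (.node 49 (.node 47 (.leaf 0x7300ad)
 (.node 48 (.leaf 0x2c0048)
 (.leaf 0x620034)))
 (.node 51 (.node 50 (.leaf 0xb000af)
 (.leaf 0x7500b3))
 (.node 52 (.leaf 0x9e00b4000d0011)
 (.leaf 0x770009)))))))
 (.node 79 (.node 66 (.node 59 (.node 56 (.node 54 (.leaf 0xb70017)
 (.node 55 (.leaf 0x740076)
 (.leaf 0x79002f)))
 (.node 57 (.leaf 0xc0013)
 (.node 58 (.leaf 0x720018)
 (.leaf 0x7a0020))))
 (.node 62 (.node 60 (.leaf 0x400690041)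
 (.node 61 (.leaf 0x70004a)
 (.leaf 0xb800b6)))
 (.node 64 (.node 63 (.leaf 0xbb0021)
 (.leaf 0x100044))
 (.node 65 (.leaf 0x2400bc)
 (.leaf 0xb200be0011007d)))))
 (.node 72 (.node 69 (.node 67 (.leaf 0xa50011)
 (.node 68 (.leaf 0xc000ba)
 (.leaf 0xa8007e)))
 (.node 70 (.leaf 0x44002e)
 (.node 71 (.leaf 0xc0004)
 (.leaf 0x240076))))
 (.node 75 (.node 73 (.leaf 0x160008)
 (.node 74 (.leaf 0x12000a)
 (.leaf 0x5e0056)))
 (.node 77 (.node 76 (.leaf 0x270095)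
 (.leaf 0xa0005))
 (.node 78 (.leaf 0x780080)
 (.leaf 0x9c0014))))))
 (.node 92 (.node 85 (.node 82 (.node 80 (.leaf 0x400c3)
 (.node 81 (.leaf 0x600b1)
 (.leaf 0xbd003b)))
 (.node 83 (.leaf 0x400690037)
 (.node 84 (.leaf 0x780014)
 (.leaf 0x3400c2))))
 (.node 88 (.node 86 (.leaf 0x3800c4000b0009)
 (.node 87 (.leaf 0x10002e)
 (.leaf 0x200ab)))
 (.node 90 (.node 89 (.leaf 0x9600c6000d0045)
 (.leaf 0xac00c800310011))
 (.node 91 (.leaf 0x260056)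
 (.leaf 0x160020)))))
 (.node 99 (.node 95 (.node 93 (.leaf 0x200390051)
 (.node 94 (.leaf 0xa000ca003d0009)
 (.leaf 0x7c00cc)))
 (.node 97 (.node 96 (.leaf 0x200008)
 (.leaf 0x6a008200210009))
 (.node 98 (.leaf 0x360084000b0017)
 (.leaf 0x30003a))))
 (.node 102 (.node 100 (.leaf 0x700028)
 (.node 101 (.leaf 0x62002d)
 (.leaf 0xa600ae)))
 (.node 104 (.node 103 (.leaf 0x65007500c9007d)
 (.leaf 0x2900050003))
 (.node 105 (.leaf 0x7300310067)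
 (.leaf 0x3f002300070055))))))))
 (.node 159 (.node 132 (.node 119 (.node 112 (.node 109 (.node 107 (.leaf 0x6d005b001300bf)
 (.node 108 (.leaf 0x250033000f0093)
 (.leaf 0x3f004b004900a3)))
 (.node 110 (.leaf 0x1f00230007004f)
 (.node 111 (.leaf 0x650031007b)
 (.leaf 0x19002300070083))))
 (.node 115 (.node 113 (.leaf 0x470033000f0099)
 (.node 114 (.leaf 0x15001f00070085)
 (.leaf 0x2300070003)))
 (.node 117 (.node 116 (.leaf 0x270013001d)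
 (.leaf 0x4b002900050055))
 (.node 118 (.leaf 0x25000f0013)
 (.leaf 0x15001900070061)))))
 (.node 125 (.node 122 (.node 120 (.leaf 0x250043000d)
 (.node 121 (.leaf 0x150029000500cb)
 (.leaf 0x150023000700c5)))
 (.node 123 (.leaf 0x1500070005)
 (.node 124 (.leaf 0x470043002d)
 (.leaf 0x6d00130067))))
 (.node 128 (.node 126 (.leaf 0x29007f00850003)
 (.node 127 (.leaf 0x81007f008b0083)
 (.leaf 0x29006f00610003)))
 (.node 130 (.node 129 (.leaf 0x470025000f0091)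
 (.leaf 0x81006f00cd004f))
 (.node 131 (.leaf 0x5b0013007b)
 (.leaf 0x33000f001d))))))
 (.node 145 (.node 138 (.node 135 (.node 133 (.leaf 0x5f0027000d008f)
 (.node 134 (.leaf 0x3f00070049)
 (.leaf 0x2700b900c7001d)))
 (.node 136 (.leaf 0x2700c100b5001d)
 (.node 137 (.leaf 0x4b00490005)
 (.leaf 0x290085002e))))
 (.node 141 (.node 139 (.leaf 0xf00930025)
 (.node 140 (.leaf 0xf0024)
 (.leaf 0x2f000d000f)))
 (.node 143 (.node 142 (.leaf 0x8100830010)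
 (.leaf 0x4e0054000200180027000a))
 (.node 144 (.leaf 0x4e00c4005400020073000b0009)
 (.leaf 0x2f0083004e0004)))))
 (.node 152 (.node 148 (.node 146 (.leaf 0x2900150005)
 (.node 147 (.leaf 0x65005400c400020011007d00ac000b0009)
 (.leaf 0x2700b50008)))
 (.node 150 (.node 149 (.leaf 0x2f00040065005b0083)
 (.leaf 0x5400020027005b0082000a))
 (.node 151 (.leaf 0x65005400c400020082000b0009)
 (.leaf 0x290085))))
 (.node 155 (.node 153 (.leaf 0xb002100370007005f00270002)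
 (.node 154 (.leaf 0x29000b0008)
 (.leaf 0x29000b0003)))
 (.node 157 (.node 156 (.leaf 0x900070023005000310020)
 (.leaf 0x29000b))
 (.node 158 (.leaf 0xa0083)
 (.leaf 0xa)))))))
 (.node 186 (.node 172 (.node 165 (.node 162 (.node 160 (.leaf 0x4d)
 (.node 161 (.leaf 0x29)
 (.leaf 0x46)))
 (.node 163 (.leaf 0x70)
 (.node 164 (.leaf 0xa7)
 (.leaf 0xae))))
 (.node 168 (.node 166 (.leaf 0xb0)
 (.node 167 (.leaf 0x6)
 (.leaf 0x200023)))
 (.node 170 (.node 169 (.leaf 0x34)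
 (.leaf 0x53))
 (.node 171 (.leaf 0x3e)
 (.leaf 0x22)))))
 (.node 179 (.node 175 (.node 173 (.leaf 0x49)
 (.node 174 (.leaf 0x3)
 (.leaf 0x20)))
 (.node 177 (.node 176 (.leaf 0x2c)
 (.leaf 0x58))
 (.node 178 (.leaf 0xab)
 (.leaf 0x62))))
 (.node 182 (.node 180 (.leaf 0x43)
 (.node 181 (.leaf 0x2e)
 (.leaf 0x9d)))
 (.node 184 (.node 183 (.leaf 0x3c)
 (.leaf 0x14))
 (.node 185 (.leaf 0x57)
 (.leaf 0xc5))))))
 (.node 199 (.node 192 (.node 189 (.node 187 (.leaf 0x5)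
 (.node 188 (.leaf 0x5e)
 (.leaf 0x26)))
 (.node 190 (.leaf 0xc)
 (.node 191 (.leaf 0x8f)
 (.leaf 0x37))))
 (.node 195 (.node 193 (.leaf 0x5c)
 (.node 194 (.leaf 0x2b)
 (.leaf 0x86)))
 (.node 197 (.node 196 (.leaf 0x83)
 (.leaf 0x9))
 (.node 198 (.leaf 0x1c)
 (.leaf 0x16)))))
 (.node 206 (.node 202 (.node 200 (.leaf 0xb5)
 (.node 201 (.leaf 0xb7)
 (.leaf 0x84)))
 (.node 204 (.node 203 (.leaf 0xb8)
 (.leaf 0x1f))
 (.node 205 (.leaf 0xc7)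
 (.leaf 0x97))))
 (.node 209 (.node 207 (.leaf 0x41)
 (.node 208 (.leaf 0x45)
 (.leaf 0x60)))
 (.node 211 (.node 210 (.leaf 0x10)
 (.leaf 0x19))
 (.node 212 (.leaf 0x9e)
 (.leaf 0x0)))))))))

noncomputable def prf : List ℕ := [
0x440000b0005f00031000430005b,
0x6d00089000400001e00014,
0x8a000070006e000810007e0005600039000430004a,
0x3100040000840007700067000010001400000,
0x480000e000630007f0004d00075,
0x6e000110008b000680007f00087000840001a0004400081,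
0x260006f0002c0008c00088000320008900039,
0x4c0005100008000300008600000000010005c00075000650007e0000b000350004500056000870006000088000200001d0000a00026000160006b0006f0007a0000300071000800008c0003b00040000490003c000020004200058,
0x6c00033000150006f000610008a000080001c0002e0005400078000730008700068000200000d0002b00064000900005f0008800074000400007000018000290004400016,
0x2f000380008b0002b0008c0005b0003c0005d,
0x4f000540000b0003300089,
0x290006e000520008d000610004a000870005d000010005f000000006000079000650005a000240003500012000030006c0005100006000460002a0001a000400005c00069000820000f00049000390008c0006f0007e0008b0002100075000640000e00084000900003f0004400073000070004d,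
0x71000340008e0005a0008b00012000210004b00088,
0x270005b00033000350008f0006f0009000040,
0x57000630003e0007c000100002000059000830006100003000370004e0008d0000000001000020006b00080000950008c0006c00085000120008e000670003c0004c000240001d000110002d0007b0008f00078000870002500072000930007600081000420000a000470005000005000430005f0000d,
0x86000680006d00012000930008800021000940008400043000130008700048000510001d00044000600006a000400008f,
0x4400095000490007a0003100026000000003e0004e00091000740007800083000370001500039000500008f00001000980007c,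
0x3e0003800086000470005e000770002d0001a0005d00072000710006a0005700034000870004300068000190000d00049000790008e000270004f0007b0008a00092000960007500045000220004a0005300032000020006d0007d000520006500000,
0x2d0007f000980002c0003f00060,
0x330007c000620003a0002c000030003b0000000039000950003f000750009600046000220003200041000510007d0008c00094000980007b00077000470000f000240004c000550000a00048000640006e000440000100054000670000200004,
0x800092000810002f0000c0008b0006d000170008d00094000180005200042000950007800025000640006f000450002a0007e00099000480004d000500007c000270005c0004b0009000053,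
0x9b0003000042000930003d00008000000007a0008f000970008c00094000950006e0002a000190002b000180003400043000530007f0008e000960007d0009a000790002800049000260005d0004e000650004c000510005400091,
0x8200000,
0x300001,
0x7400001,
0x3e00001,
0x7a00000,
0x3e00000,
0x7300000,
0x5500000,
0x3d000a00009700044000a30000b000520004a000a100057000510002c0002d000530006f000790004f00034000470000000008,
0x2d00059000580008e000530007700001,
0xa500000,
0x9a00000,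
0x8c00001,
0x260000500001,
0x3a0000600001,
0x600002,
0x7f00002,
0xa700002,
0x5900003,
0x4d00002,
0x370001100003,
0x8600002,
0x9b00002,
0x9100002,
0x6800001,
0xb000001,
0x3f0000d0001200001,
0x3f0001300002,
0x7000002,
0x6100003,
0x7600002,
0x39000000000100002,
0x26000200000200010000180001100003,
0xae000100000f00001,
0x9600000,
0xc000000,
0x2e000b8000a70005500032000080000e00002000170001c,
0x9d000630006e000160000000015000250000a,
0xbb00000,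
0x7d00001,
0x330000a00002,
0x9200001,
0x67000090002a00002,
0x8c00001,
0x59000240001300001,
0x45000060000f00001,
0xb60000b00001,
0xa20000b00002,
0x76000020001100001,
0xbc000310002100001,
0x9100001,
0x5b0002b0001a00001,
0x9f0000b0001500001,
0xb9000120000100000]

end D50

theorem inst_50 : instB 0 [0, 2] [9, 22] [] D50.base D50.gads D50.names D50.cnf D50.db D50.prf = true := by decide +kernel

/-- no gadget has fewer than `2 R` new points. -/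
theorem p2_50 : D50.gads.all (fun g => Nat.ble (2 * g.R) g.gs.length) = true := by decide +kernel

/-- there is no configuration of this instance. -/
theorem no_50 {V : Type v} [DecidableEq V] {ι : Type u} [Fintype ι] {B : ι → Finset V}
    {Q : Finset V} {i j : ι} {x : ℕ → V} {D : ℕ → Finset V}
    (h : CfI B Q 0 x D i j [0, 2] [9, 22]) : False :=
  h.absurd (by decide) srt_nil inst_50

end Pool.Agent.Hyp6
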