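import Pool.Agent.Hyp6.Cb5

/-!
# HYP6: instance 51 of the list: n = 0, bounds [0, 2], inner blocks [11, 11]

31 base clauses, 6 gadgets, 20 learned clauses.
-/

set_option autoImplicit false
set_option maxRecDepth 100000

namespace Pool.Agent.Hyp6

open Rup

universe u v

namespace D51

noncomputable def names : Tr :=
 (.node 15 (.node 7 (.node 3 (.node 1 (.node 0 (.leaf 258)
 (.leaf 2083))
 (.node 2 (.leaf 2179)
 (.leaf 257)))
 (.node 5 (.node 4 (.leaf 2177)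
 (.leaf 34))
 (.node 6 (.leaf 130)
 (.leaf 2307))))
 (.node 11 (.node 9 (.node 8 (.leaf 2305)
 (.leaf 18817))
 (.node 10 (.leaf 259)
 (.leaf 260)))
 (.node 13 (.node 12 (.leaf 2082)
 (.leaf 2081))
 (.node 14 (.leaf 2084)
 (.leaf 2178)))))
 (.node 23 (.node 19 (.node 17 (.node 16 (.leaf 2180)
 (.leaf 33))
 (.node 18 (.leaf 129)
 (.leaf 16417)))
 (.node 21 (.node 20 (.leaf 65)
 (.leaf 16449))
 (.node 22 (.leaf 16513)
 (.leaf 16641))))
 (.node 27 (.node 25 (.node 24 (.leaf 18465)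
 (.leaf 18561))
 (.node 26 (.leaf 18689)
 (.leaf 16545)))
 (.node 29 (.node 28 (.leaf 16673)
 (.leaf 16769))
 (.node 30 (.leaf 18721)
 (.leaf 18593))))))

noncomputable def base : List Rs := [
.ordE 0 32 1,
.ordE 0 32 2,
.ordE 0 32 3,
.ordE 1 4 1,
.ordE 1 4 2,
.ordE 1 4 3,
.ordE 1 16 1,
.ordE 1 16 2,
.ordE 1 16 3,
.deg 2 [0, 3],
.deg 2 [1, 2],
.deg 4 [0, 3],
.deg 4 [1, 2],
.deg 5 [1, 2],
.deg 5 [3, 0],
.ab 0 2,
.ab 0 3,
.ab 0 4,
.ab 0 5,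
.ab 1 2,
.ab 1 4,
.ab 1 5,
.hall [0] [3, 5],
.hall [1] [4, 5],
.part [20, 32] [0, 0] [11] [],
.part [36, 16] [0, 0] [11] [],
.part [4, 48] [0, 0] [11] [],
.part [48, 4] [0, 0] [11] [],
.part [16, 36] [0, 0] [11] [],
.part [32, 20] [0, 0] [11] [],
.part [8, 48] [0, 0] [7] []]

noncomputable def gads : List Gt := [
⟨0, [⟨16, 2, []⟩, ⟨32, 2, []⟩], [3, 3, 3], 1, [(48, 1)]⟩,
⟨0, [⟨4, 2, []⟩, ⟨32, 2, []⟩], [3, 3, 3], 1, [(36, 1)]⟩,
⟨0, [⟨4, 2, []⟩, ⟨16, 2, []⟩], [3, 3, 3], 1, [(20, 1)]⟩,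
⟨1, [⟨16, 3, []⟩, ⟨32, 3, []⟩], [3, 3], 1, [(48, 1)]⟩,
⟨1, [⟨4, 3, []⟩, ⟨32, 3, []⟩], [3, 3], 1, [(36, 1)]⟩,
⟨1, [⟨4, 3, []⟩, ⟨16, 3, []⟩], [3, 3], 1, [(20, 1)]⟩]

noncomputable def cnf : List (List ℕ) := [
[1, 6],
[21, 0],
[23, 20],
[25, 26],
[3, 24],
[29, 2],
[31, 8],
[5, 30],
[33, 4],
[34, 28],
[10, 2],
[36, 32],
[12, 4],
[0, 14],
[22, 16],
[35, 39],
[41, 43],
[37, 45],
[7, 47],
[27, 49],
[9, 51],
[17, 53],
[40, 6],
[8, 16],
[54, 52],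
[56, 50],
[38, 18],
[58, 48],
[44, 60],
[46, 62],
[42, 18],
[13, 1, 59],
[11, 1, 57],
[11, 13, 55],
[5, 15, 19],
[3, 15, 61],
[3, 5, 63]]

noncomputable def db : Tr :=
 (.node 28 (.node 14 (.node 7 (.node 3 (.node 1 (.leaf 0x80003)
 (.node 2 (.leaf 0x20017)
 (.leaf 0x160019)))
 (.node 5 (.node 4 (.leaf 0x1c001b)
 (.leaf 0x1a0005))
 (.node 6 (.leaf 0x4001f)
 (.leaf 0xa0021))))
 (.node 10 (.node 8 (.leaf 0x200007)
 (.node 9 (.leaf 0x60023)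
 (.leaf 0x1e0024)))
 (.node 12 (.node 11 (.leaf 0x4000c)
 (.leaf 0x220026))
 (.node 13 (.leaf 0x6000e)
 (.leaf 0x100002)))))
 (.node 21 (.node 17 (.node 15 (.leaf 0x120018)
 (.node 16 (.leaf 0x290025)
 (.leaf 0x2d002b)))
 (.node 19 (.node 18 (.leaf 0x2f0027)
 (.leaf 0x310009))
 (.node 20 (.leaf 0x33001d)
 (.leaf 0x35000b))))
 (.node 24 (.node 22 (.leaf 0x370013)
 (.node 23 (.leaf 0x8002a)
 (.leaf 0x12000a)))
 (.node 26 (.node 25 (.leaf 0x360038)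
 (.leaf 0x34003a))
 (.node 27 (.leaf 0x140028)
 (.leaf 0x32003c))))))
 (.node 42 (.node 35 (.node 31 (.node 29 (.leaf 0x3e002e)
 (.node 30 (.leaf 0x400030)
 (.leaf 0x14002c)))
 (.node 33 (.node 32 (.leaf 0x3d0003000f)
 (.leaf 0x3b0003000d))
 (.node 34 (.leaf 0x39000f000d)
 (.leaf 0x1500110007))))
 (.node 38 (.node 36 (.leaf 0x3f00110005)
 (.node 37 (.leaf 0x4100070005)
 (.leaf 0x41003d003b0003)))
 (.node 40 (.node 39 (.leaf 0x3f00150002)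
 (.leaf 0x41003d0003))
 (.node 41 (.leaf 0x3f0002)
 (.leaf 0x3000d)))))
 (.node 49 (.node 45 (.node 43 (.leaf 0x410003)
 (.node 44 (.leaf 0x41)
 (.leaf 0x30)))
 (.node 47 (.node 46 (.leaf 0x9)
 (.leaf 0x3))
 (.node 48 (.leaf 0x2a)
 (.leaf 0x10))))
 (.node 53 (.node 51 (.node 50 (.leaf 0x3f)
 (.leaf 0x2d))
 (.node 52 (.leaf 0x2e)
 (.leaf 0x14)))
 (.node 55 (.node 54 (.leaf 0x27)
 (.leaf 0x7))
 (.node 56 (.leaf 0x22)
 (.leaf 0x0)))))))

noncomputable def prf : List ℕ := [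
0x1a000180000400005,
0xd0000400010000190001b000170000300002000230001800024,
0x20000120001f0000d0001a0000100007,
0x1e00018000220000d00004000010001a,
0x7000100001c00013000210001100022000140000f00008,
0x1f0002500026000160000e00002,
0x1b0002100010000250000800006000220001f000190000e000020001d00000,
0xe00000,
0x1a00000,
0x2d00000,
0x1800001,
0x2200001,
0x800002,
0x2100002,
0x1600001,
0x1500001,
0x2300001,
0x130000500001,
0x2b00001,
0x2f0000100000]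

end D51

theorem inst_51 : instB 0 [0, 2] [11, 11] [] D51.base D51.gads D51.names D51.cnf D51.db D51.prf = true := by decide +kernel

/-- no gadget has fewer than `2 R` new points. -/
theorem p2_51 : D51.gads.all (fun g => Nat.ble (2 * g.R) g.gs.length) = true := by decide +kernel

/-- there is no configuration of this instance. -/
theorem no_51 {V : Type v} [DecidableEq V] {ι : Type u} [Fintype ι] {B : ι → Finset V}
    {Q : Finset V} {i j : ι} {x : ℕ → V} {D : ℕ → Finset V}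
    (h : CfI B Q 0 x D i j [0, 2] [11, 11]) : False :=
  h.absurd (by decide) srt_nil inst_51

end Pool.Agent.Hyp6
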