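import Pool.Agent.Hyp6.Cb5

/-!
# HYP6: instance 52 of the list: n = 0, bounds [0, 2], inner blocks [11, 13]

51 base clauses, 16 gadgets, 43 learned clauses.
-/

set_option autoImplicit false
set_option maxRecDepth 100000

namespace Pool.Agent.Hyp6

open Rup

universe u v

namespace D52

noncomputable def names : Tr :=
 (.node 28 (.node 13 (.node 6 (.node 2 (.node 0 (.leaf 2179)
 (.node 1 (.leaf 2307)
 (.leaf 258)))
 (.node 4 (.node 3 (.leaf 130)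
 (.leaf 18817))
 (.node 5 (.leaf 16513)
 (.leaf 16641))))
 (.node 9 (.node 7 (.leaf 18561)
 (.node 8 (.leaf 18689)
 (.leaf 18705)))
 (.node 11 (.node 10 (.leaf 18577)
 (.leaf 2131))
 (.node 12 (.leaf 10290)
 (.leaf 10321)))))
 (.node 20 (.node 16 (.node 14 (.leaf 2069)
 (.node 15 (.leaf 18)
 (.leaf 2066)))
 (.node 18 (.node 17 (.leaf 34)
 (.leaf 2082))
 (.node 19 (.leaf 66)
 (.leaf 2113))))
 (.node 24 (.node 22 (.node 21 (.leaf 16769)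
 (.leaf 18721))
 (.node 23 (.leaf 18593)
 (.leaf 18753)))
 (.node 26 (.node 25 (.leaf 18625)
 (.leaf 2147))
 (.node 27 (.leaf 2099)
 (.leaf 259))))))
 (.node 43 (.node 35 (.node 31 (.node 29 (.leaf 260)
 (.node 30 (.leaf 2178)
 (.leaf 2177)))
 (.node 33 (.node 32 (.leaf 2180)
 (.leaf 2308))
 (.node 34 (.leaf 10387)
 (.leaf 10515))))
 (.node 39 (.node 37 (.node 36 (.leaf 2067)
 (.leaf 10323))
 (.node 38 (.leaf 10337)
 (.leaf 2114)))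
 (.node 41 (.node 40 (.leaf 129)
 (.leaf 257))
 (.node 42 (.leaf 2305)
 (.leaf 17)))))
 (.node 50 (.node 46 (.node 44 (.leaf 16401)
 (.node 45 (.leaf 33)
 (.leaf 16417)))
 (.node 48 (.node 47 (.leaf 2065)
 (.leaf 18449))
 (.node 49 (.leaf 2081)
 (.leaf 18465))))
 (.node 54 (.node 52 (.node 51 (.leaf 16529)
 (.leaf 16657))
 (.node 53 (.leaf 16545)
 (.leaf 16673)))
 (.node 56 (.node 55 (.leaf 16577)
 (.leaf 16705))
 (.node 57 (.leaf 2323)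
 (.leaf 2195)))))))

noncomputable def base : List Rs := [
.ordE 0 32 2,
.ordE 0 32 3,
.ordE 1 16 1,
.ordE 1 16 2,
.ordE 1 16 3,
.ordE 1 32 3,
.le 1 18 16 4 3,
.le 1 34 32 5 3,
.l2 1 6 10 1 2 1,
.l2 1 6 10 1 2 3,
.l2 1 10 12 3 1 1,
.deg 1 [1, 1],
.deg 2 [1, 1],
.deg 3 [1, 0],
.deg 4 [0, 3],
.deg 4 [1, 2],
.deg 5 [0, 3],
.deg 5 [1, 2],
.deg 5 [3, 0],
.ab 0 1,
.ab 0 2,
.ab 0 4,
.ab 0 5,
.ab 1 1,
.ab 1 2,
.ab 1 4,
.ab 1 5,
.hall [0] [1, 2],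
.hall [1] [1, 2],
.part [18, 32] [0, 0] [13] [],
.part [34, 16] [0, 0] [13] [],
.part [20, 32] [0, 0] [11] [],
.part [36, 16] [0, 0] [11] [],
.part [2, 48] [0, 0] [13] [],
.part [4, 48] [0, 0] [11] [],
.part [48, 2] [0, 0] [13] [],
.part [48, 4] [0, 0] [11] [],
.part [16, 34] [0, 0] [13] [],
.part [32, 18] [0, 0] [13] [],
.part [16, 36] [0, 0] [11] [],
.part [32, 20] [0, 0] [11] [],
.part [24, 32] [0, 0] [7] [],
.part [40, 16] [0, 0] [7] [],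
.part [16, 40] [0, 0] [7] [],
.part [32, 24] [0, 0] [7] [],
.join 1 4 3 3 2 1 [(2, 0)],
.join 1 2 3 3 2 1 [(1, 0)],
.join 1 2 3 3 3 2 [(1, 2)],
.join 1 2 2 3 2 2 [(1, 1)],
.join 1 2 5 3 5 0 [(1, 2)],
.join 1 2 4 3 5 0 [(1, 2)]]

noncomputable def gads : List Gt := [
⟨0, [⟨8, 2, []⟩, ⟨32, 2, []⟩], [3, 3, 3], 1, [(40, 1)]⟩,
⟨0, [⟨8, 2, []⟩, ⟨16, 2, []⟩], [3, 3, 3], 1, [(24, 1)]⟩,
⟨0, [⟨4, 2, []⟩, ⟨32, 2, []⟩], [3, 3, 3], 1, [(36, 1)]⟩,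
⟨0, [⟨4, 2, []⟩, ⟨16, 2, []⟩], [3, 3, 3], 1, [(20, 1)]⟩,
⟨0, [⟨2, 2, []⟩, ⟨32, 2, []⟩], [3, 3, 3], 1, [(34, 1)]⟩,
⟨0, [⟨2, 2, []⟩, ⟨16, 2, []⟩], [3, 3, 3], 1, [(18, 1)]⟩,
⟨0, [⟨16, 2, []⟩, ⟨32, 2, []⟩], [3, 3, 3], 1, [(48, 1)]⟩,
⟨1, [⟨16, 3, []⟩, ⟨32, 3, []⟩], [3, 3], 1, [(48, 1)]⟩,
⟨1, [⟨12, 3, []⟩, ⟨32, 3, []⟩], [3, 3], 1, [(36, 1), (40, 1)]⟩,
⟨1, [⟨12, 3, []⟩, ⟨16, 3, []⟩], [3, 3], 1, [(20, 1), (24, 1)]⟩,
⟨1, [⟨10, 3, []⟩, ⟨32, 3, []⟩], [3, 3], 1, [(34, 1), (40, 1)]⟩,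
⟨1, [⟨10, 3, []⟩, ⟨16, 3, []⟩], [3, 3], 1, [(18, 1), (24, 1)]⟩,
⟨1, [⟨6, 3, []⟩, ⟨32, 3, []⟩], [3, 3], 1, [(34, 1), (36, 1)]⟩,
⟨1, [⟨6, 3, []⟩, ⟨16, 3, []⟩], [3, 3], 1, [(18, 1), (20, 1)]⟩,
⟨1, [⟨34, 3, []⟩, ⟨16, 3, []⟩], [3, 3], 1, [(18, 1), (48, 1)]⟩,
⟨1, [⟨18, 3, []⟩, ⟨32, 3, []⟩], [3, 3], 1, [(34, 1), (48, 1)]⟩]

noncomputable def cnf : List (List ℕ) := [
[57, 4],
[59, 56],
[61, 62],
[1, 60],
[65, 0],
[67, 2],
[69, 0],
[71, 2],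
[25, 27, 72],
[25, 75, 28],
[27, 77, 78],
[30, 32],
[34, 36],
[38, 40],
[80, 64],
[6, 0],
[82, 66],
[4, 2],
[58, 84],
[87, 89],
[91, 93],
[81, 11],
[83, 13],
[95, 97],
[99, 101],
[63, 15],
[85, 17],
[86, 90],
[94, 98],
[102, 16],
[104, 14],
[106, 16],
[108, 14],
[88, 8],
[92, 8],
[42, 96],
[42, 100],
[10, 18],
[12, 20],
[10, 44],
[12, 46],
[110, 16],
[112, 14],
[10, 48],
[12, 50],
[37, 41, 52, 76],
[33, 41, 22, 26],
[73, 79, 22, 74],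
[33, 37, 54, 24],
[29, 114, 70],
[29, 116, 68],
[39, 5, 113],
[39, 7, 111],
[35, 5, 109],
[35, 7, 107],
[31, 5, 105],
[31, 7, 103],
[7, 5, 43],
[1, 3, 9],
[53, 3, 45, 49],
[53, 1, 47, 51],
[23, 3, 19, 49],
[23, 1, 21, 51],
[55, 3, 19, 45],
[55, 1, 21, 47],
[115, 1, 21, 9],
[117, 3, 19, 9]]

noncomputable def db : Tr :=
 (.node 55 (.node 27 (.node 13 (.node 6 (.node 3 (.node 1 (.leaf 0x6003b)
 (.node 2 (.leaf 0x3a003d)
 (.leaf 0x40003f)))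
 (.node 4 (.leaf 0x3e0003)
 (.node 5 (.leaf 0x20043)
 (.leaf 0x40045))))
 (.node 9 (.node 7 (.leaf 0x20047)
 (.node 8 (.leaf 0x40049)
 (.leaf 0x4a001d001b)))
 (.node 11 (.node 10 (.leaf 0x1e004d001b)
 (.leaf 0x50004f001d))
 (.node 12 (.leaf 0x220020)
 (.leaf 0x260024)))))
 (.node 20 (.node 16 (.node 14 (.leaf 0x2a0028)
 (.node 15 (.leaf 0x420052)
 (.leaf 0x20008)))
 (.node 18 (.node 17 (.leaf 0x440054)
 (.leaf 0x40006))
 (.node 19 (.leaf 0x56003c)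
 (.leaf 0x5b0059))))
 (.node 23 (.node 21 (.leaf 0x5f005d)
 (.node 22 (.leaf 0xd0053)
 (.leaf 0xf0055)))
 (.node 25 (.node 24 (.leaf 0x630061)
 (.leaf 0x670065))
 (.node 26 (.leaf 0x110041)
 (.leaf 0x130057))))))
 (.node 41 (.node 34 (.node 30 (.node 28 (.leaf 0x5c0058)
 (.node 29 (.leaf 0x640060)
 (.leaf 0x120068)))
 (.node 32 (.node 31 (.leaf 0x10006a)
 (.leaf 0x12006c))
 (.node 33 (.leaf 0x10006e)
 (.leaf 0xa005a))))
 (.node 37 (.node 35 (.leaf 0xa005e)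
 (.node 36 (.leaf 0x62002c)
 (.leaf 0x66002c)))
 (.node 39 (.node 38 (.leaf 0x14000c)
 (.leaf 0x16000e))
 (.node 40 (.leaf 0x2e000c)
 (.leaf 0x30000e)))))
 (.node 48 (.node 44 (.node 42 (.leaf 0x120070)
 (.node 43 (.leaf 0x100072)
 (.leaf 0x32000c)))
 (.node 46 (.node 45 (.leaf 0x34000e)
 (.leaf 0x4e0036002b0027))
 (.node 47 (.leaf 0x1c0018002b0023)
 (.leaf 0x4c00180051004b))))
 (.node 51 (.node 49 (.leaf 0x1a003800270023)
 (.node 50 (.leaf 0x480074001f)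
 (.leaf 0x460076001f)))
 (.node 53 (.node 52 (.leaf 0x7300070029)
 (.leaf 0x7100090029))
 (.node 54 (.leaf 0x6f00070025)
 (.leaf 0x6d00090025)))))))
 (.node 82 (.node 68 (.node 61 (.node 58 (.node 56 (.leaf 0x6b00070021)
 (.node 57 (.leaf 0x6900090021)
 (.leaf 0x2d00070009)))
 (.node 59 (.leaf 0xb00050003)
 (.node 60 (.leaf 0x33002f00050037)
 (.leaf 0x35003100030037))))
 (.node 64 (.node 62 (.leaf 0x33001500050019)
 (.node 63 (.leaf 0x35001700030019)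
 (.leaf 0x2f001500050039)))
 (.node 66 (.node 65 (.leaf 0x31001700030039)
 (.leaf 0xb001700030075))
 (.node 67 (.leaf 0xb001500050077)
 (.leaf 0x2c)))))
 (.node 75 (.node 71 (.node 69 (.leaf 0x1900330002)
 (.node 70 (.leaf 0xa)
 (.leaf 0x3700350003)))
 (.node 73 (.node 72 (.leaf 0x190002)
 (.leaf 0x750003))
 (.node 74 (.leaf 0x770002)
 (.leaf 0x3))))
 (.node 78 (.node 76 (.leaf 0x43)
 (.node 77 (.leaf 0x47)
 (.leaf 0x8)))
 (.node 80 (.node 79 (.leaf 0x19)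
 (.leaf 0x77))
 (.node 81 (.leaf 0x52)
 (.leaf 0x7))))))
 (.node 96 (.node 89 (.node 85 (.node 83 (.leaf 0x1f)
 (.node 84 (.leaf 0xd)
 (.leaf 0x3b)))
 (.node 87 (.node 86 (.leaf 0x4)
 (.leaf 0x14))
 (.node 88 (.leaf 0x2e)
 (.leaf 0x32))))
 (.node 92 (.node 90 (.leaf 0x3d)
 (.node 91 (.leaf 0x39)
 (.leaf 0x37)))
 (.node 94 (.node 93 (.leaf 0x56)
 (.leaf 0x13))
 (.node 95 (.leaf 0x68)
 (.leaf 0x6c)))))
 (.node 103 (.node 99 (.node 97 (.leaf 0x70)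
 (.node 98 (.leaf 0x21)
 (.leaf 0x25)))
 (.node 101 (.node 100 (.leaf 0x29)
 (.leaf 0x22))
 (.node 102 (.leaf 0x26)
 (.leaf 0x2a))))
 (.node 106 (.node 104 (.leaf 0x1a)
 (.node 105 (.leaf 0x1c)
 (.leaf 0x4e)))
 (.node 108 (.node 107 (.leaf 0x4d)
 (.leaf 0x4a))
 (.node 109 (.leaf 0x50)
 (.leaf 0x0))))))))

noncomputable def prf : List ℕ := [
0x260002a0002b0001e0001f,
0x60001e000320002e0000a00035000340003f00000,
0x2900030000310002200023,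
0x350002f000400001d0000b0000900000,
0x310001b000380000200042,
0x31000210003700042000060000d00002,
0x60002300037000330000f0003a00039000440000300005,
0x1a000400003f000410001c000190001b0000b00003000090003c0003d0003e0001d0002100023000160001400012000330001f000290002b00039000300001800038000420004400047000010000f0004600004,
0x4600000,
0x4500001,
0x3d00002,
0x600003,
0x500004,
0x4100004,
0x170000d00003,
0x1f0000500002,
0x3d00002,
0x5300002,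
0x4300003,
0x3000002,
0x2f00003,
0x2c00004,
0x5700004,
0x1a000030000400002,
0x1f000020000500003,
0x4900002,
0x4200000,
0x4000000,
0x3f00001,
0x3600002,
0x280001300002,
0x2b0001400002,
0x2e0001500002,
0x5800002,
0x5800002,
0x5800002,
0x360000c0000200001,
0x39000190000300001,
0x3b0000d0000300002,
0x600001700002,
0x620000300002,
0x610000200003,
0x3d0001e000010000200000]

end D52

theorem inst_52 : instB 0 [0, 2] [11, 13] [] D52.base D52.gads D52.names D52.cnf D52.db D52.prf = true := by decide +kernel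

/-- no gadget has fewer than `2 R` new points. -/
theorem p2_52 : D52.gads.all (fun g => Nat.ble (2 * g.R) g.gs.length) = true := by decide +kernel

/-- there is no configuration of this instance. -/
theorem no_52 {V : Type v} [DecidableEq V] {ι : Type u} [Fintype ι] {B : ι → Finset V}
    {Q : Finset V} {i j : ι} {x : ℕ → V} {D : ℕ → Finset V}
    (h : CfI B Q 0 x D i j [0, 2] [11, 13]) : False :=
  h.absurd (by decide) srt_nil inst_52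

end Pool.Agent.Hyp6
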