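import Pool.Agent.Hyp6.Cb5

/-!
# HYP6: instance 53 of the list: n = 0, bounds [0, 2], inner blocks [11, 19]

61 base clauses, 16 gadgets, 52 learned clauses.
-/

set_option autoImplicit false
set_option maxRecDepth 100000

namespace Pool.Agent.Hyp6

open Rup

universe u v

namespace D53

noncomputable def names : Tr :=
 (.node 32 (.node 15 (.node 7 (.node 3 (.node 1 (.node 0 (.leaf 34)
 (.leaf 2307))
 (.node 2 (.leaf 65)
 (.leaf 129)))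
 (.node 5 (.node 4 (.leaf 2083)
 (.leaf 258))
 (.node 6 (.leaf 16641)
 (.leaf 16673))))
 (.node 11 (.node 9 (.node 8 (.leaf 2113)
 (.leaf 2177))
 (.node 10 (.leaf 16425)
 (.leaf 16545)))
 (.node 13 (.node 12 (.leaf 16481)
 (.leaf 2243))
 (.node 14 (.leaf 16433)
 (.leaf 66)))))
 (.node 23 (.node 19 (.node 17 (.node 16 (.leaf 18721)
 (.leaf 18625))
 (.node 18 (.leaf 10)
 (.leaf 9)))
 (.node 21 (.node 20 (.leaf 17)
 (.leaf 2065))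
 (.node 22 (.leaf 18465)
 (.leaf 2178))))
 (.node 27 (.node 25 (.node 24 (.leaf 16417)
 (.leaf 18753))
 (.node 26 (.leaf 18)
 (.leaf 18689)))
 (.node 29 (.node 28 (.leaf 10433)
 (.leaf 130))
 (.node 30 (.leaf 2057)
 (.node 31 (.leaf 18817)
 (.leaf 16449)))))))
 (.node 48 (.node 40 (.node 36 (.node 34 (.node 33 (.leaf 16657)
 (.leaf 260))
 (.node 35 (.leaf 259)
 (.leaf 18529)))
 (.node 38 (.node 37 (.leaf 8265)
 (.leaf 8329))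
 (.node 39 (.leaf 74)
 (.leaf 146))))
 (.node 44 (.node 42 (.node 41 (.leaf 8337)
 (.leaf 18497))
 (.node 43 (.leaf 2082)
 (.leaf 2081)))
 (.node 46 (.node 45 (.leaf 16513)
 (.leaf 2179))
 (.node 47 (.leaf 18593)
 (.leaf 18449)))))
 (.node 56 (.node 52 (.node 50 (.node 49 (.leaf 16769)
 (.leaf 257))
 (.node 51 (.leaf 2308)
 (.leaf 2115)))
 (.node 54 (.node 53 (.leaf 138)
 (.leaf 2084))
 (.node 55 (.leaf 2305)
 (.leaf 67))))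
 (.node 60 (.node 58 (.node 57 (.leaf 274)
 (.leaf 8465))
 (.node 59 (.leaf 33)
 (.leaf 18561)))
 (.node 62 (.node 61 (.leaf 2114)
 (.leaf 18441))
 (.node 63 (.leaf 8273)
 (.node 64 (.leaf 16705)
 (.leaf 82))))))))

noncomputable def base : List Rs := [
.part [8, 36] [0, 0] [19] [],
.part [34, 24] [0, 0] [5] [],
.ordE 0 32 3,
.part [32, 12] [0, 0] [19] [],
.l2 0 9 17 0 1 1,
.join 0 1 3 2 1 1 [(0, 0)],
.join 0 2 4 2 1 1 [(1, 0)],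
.part [36, 8] [0, 0] [19] [],
.ordE 1 4 1,
.part [16, 36] [0, 0] [11] [],
.deg 4 [0, 2],
.part [32, 20] [0, 0] [11] [],
.ab 1 1,
.part [48, 4] [0, 0] [11] [],
.deg 5 [0, 3],
.deg 3 [0, 2],
.hall [1] [3, 4],
.ab 0 3,
.ordE 1 16 1,
.hall [0] [0, 1],
.join 0 1 4 2 1 1 [(0, 0)],
.ordE 1 4 3,
.deg 5 [3, 0],
.ordE 1 32 3,
.part [4, 40] [0, 0] [19] [],
.deg 3 [2, 0],
.join 0 2 5 2 2 0 [(1, 0)],
.hall [0] [3, 4],
.part [5, 2] [0, 0] [56] [],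
.deg 5 [1, 2],
.part [20, 32] [0, 0] [11] [],
.ab2 1 24,
.ab 1 2,
.ab2 0 34,
.deg 2 [0, 3],
.ab 1 4,
.part [36, 16] [0, 0] [11] [],
.ab 0 5,
.deg 1 [1, 0],
.part [12, 32] [0, 0] [19] [],
.ab 0 2,
.join 1 8 4 3 2 1 [(3, 0)],
.part [6, 1] [0, 0] [56] [],
.ordE 0 32 2,
.deg 4 [1, 1],
.l2 0 10 18 1 1 1,
.hall [1] [0, 1],
.ab 1 0,
.ab 1 5,
.ordE 0 8 2,
.part [32, 24] [0, 0] [7] [],
.part [40, 4] [0, 0] [19] [],
.deg 0 [1, 0],
.ab 0 4,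
.part [4, 48] [0, 0] [11] [],
.join 1 8 4 3 1 2 [(3, 0)],
.deg 2 [1, 2],
.ab 1 3,
.ordE 1 4 2,
.join 0 2 3 2 1 1 [(1, 0)],
.deg 3 [1, 1]]

noncomputable def gads : List Gt := [
⟨0, [⟨9, 2, []⟩, ⟨4, 2, []⟩], [3, 3, 3], 1, [(5, 1), (12, 1)]⟩,
⟨0, [⟨34, 2, []⟩, ⟨4, 2, []⟩], [3, 3, 3], 1, [(6, 1), (36, 1)]⟩,
⟨0, [⟨10, 2, []⟩, ⟨4, 2, []⟩], [3, 3, 3], 1, [(6, 1), (12, 1)]⟩,
⟨0, [⟨17, 2, []⟩, ⟨4, 2, []⟩], [3, 3, 3], 1, [(5, 1), (20, 1)]⟩,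
⟨0, [⟨4, 2, []⟩, ⟨16, 2, []⟩], [3, 3, 3], 1, [(20, 1)]⟩,
⟨0, [⟨1, 2, []⟩, ⟨4, 2, []⟩], [3, 3, 3], 1, [(5, 1)]⟩,
⟨1, [⟨8, 3, []⟩, ⟨32, 3, []⟩], [3, 3], 1, [(40, 1)]⟩,
⟨0, [⟨18, 2, []⟩, ⟨4, 2, []⟩], [3, 3, 3], 1, [(6, 1), (20, 1)]⟩,
⟨0, [⟨4, 2, []⟩, ⟨8, 2, []⟩], [3, 3, 3], 1, [(12, 1)]⟩,
⟨1, [⟨4, 3, []⟩, ⟨24, 3, []⟩], [3, 3], 1, [(12, 1), (20, 1)]⟩,
⟨0, [⟨8, 2, []⟩, ⟨32, 2, []⟩], [3, 3, 3], 1, [(40, 1)]⟩,
⟨0, [⟨4, 2, []⟩, ⟨32, 2, []⟩], [3, 3, 3], 1, [(36, 1)]⟩,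
⟨1, [⟨24, 3, []⟩, ⟨32, 3, []⟩], [3, 3], 1, [(40, 1), (48, 1)]⟩,
⟨1, [⟨16, 3, []⟩, ⟨32, 3, []⟩], [3, 3], 1, [(48, 1)]⟩,
⟨1, [⟨4, 3, []⟩, ⟨32, 3, []⟩], [3, 3], 1, [(36, 1)]⟩,
⟨0, [⟨16, 2, []⟩, ⟨32, 2, []⟩], [3, 3, 3], 1, [(48, 1)]⟩]

noncomputable def cnf : List (List ℕ) := [
[64, 32],
[66, 34],
[69, 70],
[12, 72],
[75, 77, 36],
[39, 5, 78, 74],
[41, 7, 80, 82],
[14, 84],
[87, 88],
[90, 32],
[6, 92],
[12, 94],
[43, 97],
[98, 44],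
[100, 102],
[4, 104],
[16, 18],
[5, 65],
[47, 18],
[38, 40],
[39, 7, 106, 76],
[109, 8],
[68, 110],
[103, 2],
[48, 50],
[112, 16],
[53, 114, 116],
[4, 6],
[20, 96],
[10, 2],
[22, 54],
[57, 35],
[89, 45],
[117, 67],
[118, 108],
[19, 121],
[14, 120],
[101, 13],
[52, 42],
[24, 54],
[119, 49],
[123, 19, 26, 56],
[28, 124],
[71, 10],
[58, 46],
[127, 83, 52],
[60, 42],
[61, 125],
[111, 55],
[113, 30],
[12, 34],
[128, 44],
[36, 60],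
[7, 91],
[48, 62],
[17, 47, 26, 56],
[0, 8],
[17, 85],
[9, 86],
[41, 5, 130, 126],
[30, 122],
[79, 1, 21, 25],
[115, 1, 29, 15],
[131, 1, 29, 25],
[107, 1, 21, 23],
[1, 59, 23],
[37, 1, 21],
[105, 3, 51],
[81, 1, 29, 23],
[1, 31, 25],
[9, 27, 73, 95],
[31, 11, 129],
[1, 11, 15],
[27, 3, 51, 63],
[93, 3, 63],
[9, 3, 33],
[59, 11, 99]]

noncomputable def db : Tr :=
 (.node 64 (.node 32 (.node 16 (.node 8 (.node 4 (.node 2 (.node 1 (.leaf 0x220042)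
 (.leaf 0x240044))
 (.node 3 (.leaf 0x480047)
 (.leaf 0x4a000e)))
 (.node 6 (.node 5 (.leaf 0x26004f004d)
 (.leaf 0x4c005000070029))
 (.node 7 (.leaf 0x5400520009002b)
 (.leaf 0x560010))))
 (.node 12 (.node 10 (.node 9 (.leaf 0x5a0059)
 (.leaf 0x22005c))
 (.node 11 (.leaf 0x5e0008)
 (.leaf 0x60000e)))
 (.node 14 (.node 13 (.leaf 0x63002d)
 (.leaf 0x2e0064))
 (.node 15 (.leaf 0x680066)
 (.leaf 0x6a0006)))))
 (.node 24 (.node 20 (.node 18 (.node 17 (.leaf 0x140012)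
 (.leaf 0x430007))
 (.node 19 (.leaf 0x140031)
 (.leaf 0x2a0028)))
 (.node 22 (.node 21 (.leaf 0x4e006c00090029)
 (.leaf 0xa006f))
 (.node 23 (.leaf 0x700046)
 (.leaf 0x40069))))
 (.node 28 (.node 26 (.node 25 (.leaf 0x340032)
 (.leaf 0x120072))
 (.node 27 (.leaf 0x7600740037)
 (.leaf 0x80006)))
 (.node 30 (.node 29 (.leaf 0x620016)
 (.leaf 0x4000c))
 (.node 31 (.leaf 0x380018)
 (.leaf 0x25003b))))))
 (.node 48 (.node 40 (.node 36 (.node 34 (.node 33 (.leaf 0x2f005b)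
 (.leaf 0x450077))
 (.node 35 (.leaf 0x6e0078)
 (.leaf 0x7b0015)))
 (.node 38 (.node 37 (.leaf 0x7a0010)
 (.leaf 0xf0067))
 (.node 39 (.leaf 0x2c0036)
 (.leaf 0x38001a))))
 (.node 44 (.node 42 (.node 41 (.leaf 0x330079)
 (.leaf 0x3a001c0015007d))
 (.node 43 (.leaf 0x7e001e)
 (.leaf 0xc0049)))
 (.node 46 (.node 45 (.leaf 0x30003c)
 (.leaf 0x3600550081))
 (.node 47 (.leaf 0x2c003e)
 (.leaf 0x7f003f)))))
 (.node 56 (.node 52 (.node 50 (.node 49 (.leaf 0x390071)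
 (.leaf 0x200073))
 (.node 51 (.leaf 0x24000e)
 (.leaf 0x2e0082)))
 (.node 54 (.node 53 (.leaf 0x3e0026)
 (.leaf 0x5d0009))
 (.node 55 (.leaf 0x400032)
 (.leaf 0x3a001c00310013))))
 (.node 60 (.node 58 (.node 57 (.leaf 0xa0002)
 (.leaf 0x570013))
 (.node 59 (.leaf 0x58000b)
 (.leaf 0x8000840007002b)))
 (.node 62 (.node 61 (.leaf 0x7c0020)
 (.leaf 0x1b001700030051))
 (.node 63 (.leaf 0x11001f00030075)
 (.leaf 0x1b001f00030085)))))))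
 (.node 96 (.node 80 (.node 72 (.node 68 (.node 66 (.node 65 (.leaf 0x1900170003006d)
 (.leaf 0x19003d0003))
 (.node 67 (.leaf 0x1700030027)
 (.leaf 0x350005006b)))
 (.node 70 (.node 69 (.leaf 0x19001f00030053)
 (.leaf 0x1b00210003))
 (.node 71 (.leaf 0x61004b001d000b)
 (.leaf 0x83000d0021))))
 (.node 76 (.node 74 (.node 73 (.leaf 0x11000d0003)
 (.leaf 0x4100350005001d))
 (.node 75 (.leaf 0x410005005f)
 (.leaf 0x230005000b)))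
 (.node 78 (.node 77 (.leaf 0x65000d003d)
 (.leaf 0x3003e))
 (.node 79 (.leaf 0x10)
 (.leaf 0x850003)))))
 (.node 88 (.node 84 (.node 82 (.node 81 (.leaf 0xb000d000e)
 (.leaf 0x22))
 (.node 83 (.leaf 0xb)
 (.leaf 0x6f)))
 (.node 86 (.node 85 (.leaf 0x2)
 (.leaf 0x78))
 (.node 87 (.leaf 0x3e)
 (.leaf 0xd))))
 (.node 92 (.node 90 (.node 89 (.leaf 0x85)
 (.leaf 0x33))
 (.node 91 (.leaf 0x7f)
 (.leaf 0x4)))
 (.node 94 (.node 93 (.leaf 0x49)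
 (.leaf 0x34))
 (.node 95 (.leaf 0x40)
 (.leaf 0x1e))))))
 (.node 112 (.node 104 (.node 100 (.node 98 (.node 97 (.leaf 0x47)
 (.leaf 0x6b))
 (.node 99 (.leaf 0x1d)
 (.leaf 0x5f)))
 (.node 102 (.node 101 (.leaf 0x75)
 (.leaf 0x70))
 (.node 103 (.leaf 0x6)
 (.leaf 0x8))))
 (.node 108 (.node 106 (.node 105 (.leaf 0x39)
 (.leaf 0x18))
 (.node 107 (.leaf 0x1a)
 (.leaf 0x3d)))
 (.node 110 (.node 109 (.leaf 0x53)
 (.leaf 0x21))
 (.node 111 (.leaf 0x30)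
 (.leaf 0x7c)))))
 (.node 120 (.node 116 (.node 114 (.node 113 (.leaf 0x14)
 (.leaf 0x3a))
 (.node 115 (.leaf 0x25)
 (.leaf 0x44)))
 (.node 118 (.node 117 (.leaf 0x77)
 (.leaf 0x37))
 (.node 119 (.leaf 0x2c)
 (.leaf 0x63))))
 (.node 124 (.node 122 (.node 121 (.leaf 0x16)
 (.leaf 0x27))
 (.node 123 (.leaf 0x6d)
 (.leaf 0x51)))
 (.node 126 (.node 125 (.leaf 0x29)
 (.leaf 0x2a))
 (.node 127 (.leaf 0x54)
 (.node 128 (.leaf 0x80)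
 (.leaf 0x0)))))))))

noncomputable def prf : List ℕ := [
0x300000a00040000180001e,
0x3d0002a000140002900046,
0x1e00027000380000f0004c00024000230001f000060000100000,
0x1800030000090001d000440004c000230000300042000360001e000080001c0002f0004700015,
0x350001b0003f0004700050,
0x2c0000100043000340003a0000600000,
0x3d00000,
0x1b00001,
0x3200001,
0x800001,
0xe0000800002,
0x800003,
0x3000003,
0x2a00003,
0x3d00003,
0x3000004,
0x4400003,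
0x2700004,
0x3400004,
0x5d00003,
0x1d0000500003,
0x18000060000300004,
0x180000700004,
0x250000f0001500004,
0x4e00004,
0x5600004,
0x5c00003,
0x3700002,
0x4a00000,
0x4200001,
0x290001600001,
0x27000170000c00002,
0x270001800002,
0x4100002,
0x3200001,
0x5d00001,
0x470000e0000100000,
0x5200000,
0x7100000,
0x5200000,
0x5a0001000000,
0x4f00000,
0x6a00000,
0x5b00000,
0x360002400000,
0x39000250001000001,
0x3d000260001000002,
0x7700067000760000200014000010001500000,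
0x6900000,
0x77000110001600000,
0x43000260001800001,
0x520000a0000000001]

end D53

theorem inst_53 : instB 0 [0, 2] [11, 19] [] D53.base D53.gads D53.names D53.cnf D53.db D53.prf = true := by decide +kernel

/-- no gadget has fewer than `2 R` new points. -/
theorem p2_53 : D53.gads.all (fun g => Nat.ble (2 * g.R) g.gs.length) = true := by decide +kernel

/-- there is no configuration of this instance. -/
theorem no_53 {V : Type v} [DecidableEq V] {ι : Type u} [Fintype ι] {B : ι → Finset V}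
    {Q : Finset V} {i j : ι} {x : ℕ → V} {D : ℕ → Finset V}
    (h : CfI B Q 0 x D i j [0, 2] [11, 19]) : False :=
  h.absurd (by decide) srt_nil inst_53

end Pool.Agent.Hyp6
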