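import Pool.Agent.Hyp6.Cb5

/-!
# HYP6: instance 54 of the list: n = 0, bounds [0, 2], inner blocks [11, 21]

94 base clauses, 33 gadgets, 56 learned clauses.
-/

set_option autoImplicit false
set_option maxRecDepth 100000

namespace Pool.Agent.Hyp6

open Rup

universe u v

namespace D54

noncomputable def names : Tr :=
 (.node 49 (.node 24 (.node 11 (.node 5 (.node 2 (.node 0 (.leaf 258)
 (.node 1 (.leaf 2307)
 (.leaf 129)))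
 (.node 3 (.leaf 17)
 (.node 4 (.leaf 34)
 (.leaf 18))))
 (.node 8 (.node 6 (.leaf 65)
 (.node 7 (.leaf 2115)
 (.leaf 18817)))
 (.node 9 (.leaf 16657)
 (.node 10 (.leaf 33)
 (.leaf 2114)))))
 (.node 17 (.node 14 (.node 12 (.leaf 2057)
 (.node 13 (.leaf 130)
 (.leaf 16673)))
 (.node 15 (.leaf 2066)
 (.node 16 (.leaf 2178)
 (.leaf 2179))))
 (.node 20 (.node 18 (.leaf 2177)
 (.node 19 (.leaf 2131)
 (.leaf 2081)))
 (.node 22 (.node 21 (.leaf 18721)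
 (.leaf 16649))
 (.node 23 (.leaf 16769)
 (.leaf 18753))))))
 (.node 36 (.node 30 (.node 27 (.node 25 (.leaf 18625)
 (.node 26 (.leaf 2195)
 (.leaf 2065)))
 (.node 28 (.leaf 18705)
 (.node 29 (.leaf 18689)
 (.leaf 2113))))
 (.node 33 (.node 31 (.leaf 10321)
 (.node 32 (.leaf 2211)
 (.leaf 16641)))
 (.node 34 (.leaf 9)
 (.node 35 (.leaf 2082)
 (.leaf 16705)))))
 (.node 42 (.node 39 (.node 37 (.leaf 18697)
 (.node 38 (.leaf 66)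
 (.leaf 194)))
 (.node 40 (.leaf 18561)
 (.node 41 (.leaf 16449)
 (.leaf 16465))))
 (.node 45 (.node 43 (.leaf 18497)
 (.node 44 (.leaf 10401)
 (.leaf 16513)))
 (.node 47 (.node 46 (.leaf 10385)
 (.leaf 18593))
 (.node 48 (.leaf 16433)
 (.leaf 2308)))))))
 (.node 74 (.node 61 (.node 55 (.node 52 (.node 50 (.leaf 16577)
 (.node 51 (.leaf 2147)
 (.leaf 10337)))
 (.node 53 (.leaf 18513)
 (.node 54 (.leaf 16545)
 (.leaf 10))))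
 (.node 58 (.node 56 (.leaf 138)
 (.node 57 (.leaf 10386)
 (.leaf 16409)))
 (.node 59 (.leaf 18465)
 (.node 60 (.leaf 10281)
 (.leaf 18473)))))
 (.node 67 (.node 64 (.node 62 (.leaf 8385)
 (.node 63 (.leaf 18449)
 (.leaf 131)))
 (.node 65 (.leaf 35)
 (.node 66 (.leaf 98)
 (.leaf 8289))))
 (.node 70 (.node 68 (.leaf 2067)
 (.node 69 (.leaf 10323)
 (.leaf 10377)))
 (.node 72 (.node 71 (.leaf 162)
 (.leaf 8353))
 (.node 73 (.leaf 259)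
 (.leaf 18441))))))
 (.node 87 (.node 80 (.node 77 (.node 75 (.leaf 19)
 (.node 76 (.leaf 257)
 (.leaf 260)))
 (.node 78 (.leaf 16425)
 (.node 79 (.leaf 8273)
 (.leaf 8337))))
 (.node 83 (.node 81 (.leaf 42)
 (.node 82 (.leaf 8233)
 (.leaf 2091)))
 (.node 85 (.node 84 (.leaf 18529)
 (.leaf 16401))
 (.node 86 (.leaf 8241)
 (.leaf 10434)))))
 (.node 93 (.node 90 (.node 88 (.leaf 2305)
 (.node 89 (.leaf 18577)
 (.leaf 8329)))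
 (.node 91 (.leaf 50)
 (.node 92 (.leaf 16481)
 (.leaf 16529))))
 (.node 96 (.node 94 (.leaf 8330)
 (.node 95 (.leaf 146)
 (.leaf 2187)))
 (.node 98 (.node 97 (.leaf 8217)
 (.leaf 2243))
 (.node 99 (.leaf 82)
 (.leaf 26))))))))

noncomputable def base : List Rs := [
.join 1 2 4 3 2 2 [(1, 1)],
.part [3, 4] [0, 0] [56] [],
.ab2 1 5,
.deg 4 [0, 2],
.join 0 8 4 2 1 1 [(3, 0)],
.ab 1 1,
.deg 4 [2, 0],
.deg 3 [0, 2],
.ab 1 4,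
.part [8, 34] [0, 0] [21] [],
.part [10, 32] [0, 0] [21] [],
.part [8, 48] [0, 0] [7] [],
.part [34, 8] [0, 0] [21] [],
.ordE 0 4 2,
.join 1 2 3 3 2 1 [(1, 0)],
.join 1 4 4 3 1 2 [(2, 0)],
.join 0 4 3 2 1 1 [(2, 0)],
.part [16, 36] [0, 0] [11] [],
.join 1 2 3 3 3 2 [(1, 2)],
.l2 1 17 18 4 1 2,
.join 0 4 4 2 1 1 [(2, 0)],
.join 1 2 4 3 2 1 [(1, 0)],
.hall [0] [3, 4],
.part [32, 20] [0, 0] [11] [],
.ordE 0 32 2,
.ab2 1 20,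
.ab 1 2,
.hall [0] [0, 2],
.deg 2 [1, 1],
.ab 0 4,
.part [6, 1] [0, 0] [56] [],
.join 1 2 3 3 1 2 [(1, 0)],
.hall [0] [0, 1],
.deg 1 [2, 0],
.ab 0 5,
.ordE 0 32 3,
.part [5, 2] [0, 0] [56] [],
.deg 5 [0, 3],
.ab2 0 24,
.l2 0 10 18 1 1 1,
.deg 2 [2, 0],
.join 1 4 3 3 1 2 [(2, 0)],
.join 0 1 2 2 1 1 [(0, 0)],
.join 1 1 2 3 1 2 [(0, 0)],
.ordE 1 8 1,
.part [33, 12] [0, 0] [] [(1, 18)],
.part [2, 5] [0, 0] [56] [],
.deg 4 [1, 1],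
.part [48, 8] [0, 0] [7] [],
.hall [0] [1, 2],
.ab2 0 6,
.l2 1 10 24 3 1 2,
.deg 5 [1, 2],
.ab 0 3,
.hall [1] [0, 2],
.part [36, 16] [0, 0] [11] [],
.part [40, 16] [0, 0] [7] [],
.hall [1] [3, 4],
.ab 1 3,
.deg 5 [3, 0],
.l2 0 12 20 2 1 1,
.join 1 4 4 3 2 1 [(2, 0)],
.part [32, 10] [0, 0] [21] [],
.part [33, 18] [0, 0] [] [(1, 12)],
.le 0 17 16 4 1,
.join 0 2 2 2 1 1 [(1, 0)],
.part [20, 32] [0, 0] [11] [],
.le 1 10 8 3 3,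
.part [12, 33] [0, 0] [] [(1, 18)],
.part [24, 32] [0, 0] [7] [],
.ab 0 1,
.deg 1 [1, 1],
.hall [1] [0, 1],
.ab 1 5,
.ab2 1 10,
.part [18, 33] [0, 0] [] [(1, 12)],
.join 0 1 4 2 2 1 [(0, 1)],
.ordE 0 16 2,
.join 0 2 4 2 1 1 [(1, 0)],
.deg 1 [0, 2],
.ab 1 0,
.join 0 1 4 2 2 0 [(0, 0)],
.ab2 0 5,
.deg 0 [1, 0],
.part [16, 40] [0, 0] [7] [],
.join 1 1 4 3 1 2 [(0, 0)],
.part [32, 24] [0, 0] [7] [],
.le 0 17 16 4 2,
.ab2 0 3,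
.join 1 8 4 3 2 2 [(3, 1)],
.deg 3 [1, 1],
.join 0 2 3 2 1 1 [(1, 0)],
.join 0 1 1 2 1 1 [(0, 0)],
.ordE 0 2 2]

noncomputable def gads : List Gt := [
⟨1, [⟨2, 2, []⟩, ⟨32, 4, []⟩], [3, 1, 1], 1, [(34, 1)]⟩,
⟨0, [⟨4, 2, []⟩, ⟨24, 2, []⟩], [3, 3, 3], 1, [(12, 1), (20, 1)]⟩,
⟨0, [⟨4, 2, []⟩, ⟨32, 2, []⟩], [3, 3, 3], 1, [(36, 1)]⟩,
⟨1, [⟨24, 3, []⟩, ⟨32, 3, []⟩], [3, 3], 1, [(40, 1), (48, 1)]⟩,
⟨0, [⟨2, 2, []⟩, ⟨4, 2, []⟩], [3, 3, 3], 1, [(6, 1)]⟩,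
⟨0, [⟨18, 2, []⟩, ⟨32, 2, []⟩], [3, 3, 3], 1, [(34, 1), (48, 1)]⟩,
⟨0, [⟨12, 2, []⟩, ⟨32, 2, []⟩], [3, 3, 3], 1, [(36, 1), (40, 1)]⟩,
⟨1, [⟨10, 3, []⟩, ⟨32, 3, []⟩], [3, 3], 1, [(34, 1), (40, 1)]⟩,
⟨0, [⟨2, 2, []⟩, ⟨32, 2, []⟩], [3, 3, 3], 1, [(34, 1)]⟩,
⟨1, [⟨12, 3, []⟩, ⟨32, 3, []⟩], [3, 3], 1, [(36, 1), (40, 1)]⟩,
⟨1, [⟨18, 3, []⟩, ⟨8, 3, []⟩], [3, 3], 1, [(10, 1), (24, 1)]⟩,
⟨1, [⟨20, 3, []⟩, ⟨8, 3, []⟩], [3, 3], 1, [(12, 1), (24, 1)]⟩,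
⟨0, [⟨20, 2, []⟩, ⟨32, 2, []⟩], [3, 3, 3], 1, [(36, 1), (48, 1)]⟩,
⟨0, [⟨17, 2, []⟩, ⟨32, 2, []⟩], [3, 3, 3], 1, [(33, 1), (48, 1)]⟩,
⟨1, [⟨8, 3, []⟩, ⟨32, 3, []⟩], [3, 3], 1, [(40, 1)]⟩,
⟨1, [⟨20, 3, []⟩, ⟨32, 3, []⟩], [3, 3], 1, [(36, 1), (48, 1)]⟩,
⟨1, [⟨18, 3, []⟩, ⟨32, 3, []⟩], [3, 3], 1, [(34, 1), (48, 1)]⟩,
⟨0, [⟨4, 2, []⟩, ⟨16, 2, []⟩], [3, 3, 3], 1, [(20, 1)]⟩,
⟨1, [⟨16, 3, []⟩, ⟨32, 3, []⟩], [3, 3], 1, [(48, 1)]⟩,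
⟨1, [⟨17, 3, []⟩, ⟨32, 3, []⟩], [3, 3], 1, [(33, 1), (48, 1)]⟩,
⟨0, [⟨2, 2, []⟩, ⟨24, 2, []⟩], [3, 3, 3], 1, [(10, 1), (18, 1)]⟩,
⟨0, [⟨10, 2, []⟩, ⟨32, 2, []⟩], [3, 3, 3], 1, [(34, 1), (40, 1)]⟩,
⟨0, [⟨5, 2, []⟩, ⟨32, 2, []⟩], [3, 3, 3], 1, [(33, 1), (36, 1)]⟩,
⟨0, [⟨8, 2, []⟩, ⟨32, 2, []⟩], [3, 3, 3], 1, [(40, 1)]⟩,
⟨1, [⟨5, 3, []⟩, ⟨32, 3, []⟩], [3, 3], 1, [(33, 1), (36, 1)]⟩,
⟨1, [⟨12, 3, []⟩, ⟨16, 3, []⟩], [3, 3], 1, [(20, 1), (24, 1)]⟩,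
⟨0, [⟨16, 2, []⟩, ⟨32, 2, []⟩], [3, 3, 3], 1, [(48, 1)]⟩,
⟨0, [⟨6, 2, []⟩, ⟨32, 2, []⟩], [3, 3, 3], 1, [(34, 1), (36, 1)]⟩,
⟨1, [⟨10, 3, []⟩, ⟨16, 3, []⟩], [3, 3], 1, [(18, 1), (24, 1)]⟩,
⟨0, [⟨3, 2, []⟩, ⟨32, 2, []⟩], [3, 3, 3], 1, [(33, 1), (34, 1)]⟩,
⟨1, [⟨4, 2, []⟩, ⟨32, 4, []⟩], [3, 1, 1], 1, [(36, 1)]⟩,
⟨0, [⟨2, 2, []⟩, ⟨8, 2, []⟩], [3, 3, 3], 1, [(10, 1)]⟩,
⟨0, [⟨8, 2, []⟩, ⟨16, 2, []⟩], [3, 3, 3], 1, [(24, 1)]⟩]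

noncomputable def cnf : List (List ℕ) := [
[31, 33, 52, 114],
[116, 118],
[121, 123],
[4, 34],
[13, 5, 78, 124],
[55, 127],
[128, 36],
[12, 14],
[37, 81],
[82, 56],
[84, 58],
[82, 16],
[18, 86],
[131, 8],
[31, 61, 38, 62],
[41, 33, 64, 88],
[21, 13, 132, 134],
[90, 42],
[137, 23, 38, 138],
[141, 115, 34],
[21, 5, 142, 144],
[31, 37, 52, 92],
[12, 4],
[66, 94],
[147, 0],
[89, 95],
[41, 119],
[68, 20],
[8, 70],
[5, 91],
[96, 148],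
[55, 23, 38, 62],
[68, 6],
[150, 54],
[153, 67],
[155, 146],
[156, 126],
[152, 98],
[125, 101],
[159, 161, 10],
[130, 40],
[41, 23, 102, 104],
[69, 21, 162, 164],
[25, 71, 166, 120],
[23, 60],
[44, 168, 93],
[170, 122],
[26, 32],
[46, 86],
[6, 20],
[173, 97],
[63, 175, 14],
[0, 2],
[13, 83],
[24, 40],
[28, 80],
[72, 80],
[60, 36],
[61, 87],
[154, 176],
[135, 145, 8],
[71, 37, 64, 88],
[66, 106],
[44, 178, 105],
[181, 4],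
[7, 21, 182, 172],
[108, 58],
[139, 14],
[184, 74, 93],
[100, 58],
[7, 171],
[10, 30],
[24, 54],
[177, 59],
[63, 107],
[186, 74, 105],
[111, 5, 112, 188],
[129, 26],
[7, 5, 190, 160],
[6, 136],
[25, 149],
[111, 112, 180],
[165, 157],
[110, 24],
[90, 48],
[25, 33, 192, 140],
[66, 50],
[189, 26],
[195, 117],
[23, 33, 196, 174],
[76, 22],
[7, 13, 198, 158],
[69, 7, 200, 194],
[151, 10],
[31, 99, 57],
[9, 79, 185, 109],
[9, 1, 29],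
[197, 3, 49, 17],
[11, 9, 97],
[191, 1, 19, 47],
[133, 1, 29, 73],
[39, 3, 57, 49],
[11, 1, 19],
[103, 3, 43, 49],
[53, 15, 107, 51],
[65, 15, 169, 51],
[143, 1, 29, 47],
[113, 1, 45, 47],
[15, 3, 49],
[65, 3, 43, 17],
[53, 3, 57, 17],
[9, 27, 109],
[35, 3, 17],
[193, 3, 75, 17],
[11, 79, 85, 187],
[199, 1, 19, 73],
[163, 1, 45, 29],
[77, 1, 73],
[167, 3, 75, 43],
[103, 35, 95, 51],
[27, 1, 47],
[183, 1, 19, 29],
[39, 35, 179, 51],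
[201, 1, 45, 19],
[71, 99, 43],
[11, 77, 85],
[77, 27, 101]]

noncomputable def db : Tr :=
 (.node 91 (.node 45 (.node 22 (.node 11 (.node 5 (.node 2 (.node 1 (.leaf 0x74003600230021)
 (.leaf 0x780076))
 (.node 3 (.leaf 0x7d007b)
 (.node 4 (.leaf 0x240006)
 (.leaf 0x7e00500007000f))))
 (.node 8 (.node 6 (.leaf 0x810039)
 (.node 7 (.leaf 0x260082)
 (.leaf 0x10000e)))
 (.node 9 (.leaf 0x530027)
 (.node 10 (.leaf 0x3a0054)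
 (.leaf 0x3c0056)))))
 (.node 16 (.node 13 (.node 12 (.leaf 0x120054)
 (.leaf 0x580014))
 (.node 14 (.leaf 0xa0085)
 (.node 15 (.leaf 0x400028003f0021)
 (.leaf 0x5a00420023002b))))
 (.node 19 (.node 17 (.leaf 0x880086000f0017)
 (.node 18 (.leaf 0x2c005c)
 (.leaf 0x8c00280019008b)))
 (.node 20 (.leaf 0x240075008f)
 (.node 21 (.leaf 0x92009000070017)
 (.leaf 0x5e003600270021))))))
 (.node 33 (.node 27 (.node 24 (.node 23 (.leaf 0x6000e)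
 (.leaf 0x600044))
 (.node 25 (.leaf 0x20095)
 (.node 26 (.leaf 0x61005b)
 (.leaf 0x79002b))))
 (.node 30 (.node 28 (.leaf 0x160046)
 (.node 29 (.leaf 0x48000a)
 (.leaf 0x5d0007)))
 (.node 31 (.leaf 0x960062)
 (.node 32 (.leaf 0x40002800190039)
 (.leaf 0x80046)))))
 (.node 39 (.node 36 (.node 34 (.leaf 0x380098)
 (.node 35 (.leaf 0x45009b)
 (.leaf 0x94009d)))
 (.node 37 (.leaf 0x80009e)
 (.node 38 (.leaf 0x64009a)
 (.leaf 0x67007f))))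
 (.node 42 (.node 40 (.leaf 0xc00a300a1)
 (.node 41 (.leaf 0x2a0084)
 (.leaf 0x6a00680019002b)))
 (.node 43 (.leaf 0xa600a400170047)
 (.node 44 (.leaf 0x7a00a80049001b)
 (.leaf 0x3e0019)))))))
 (.node 68 (.node 56 (.node 50 (.node 47 (.node 46 (.leaf 0x5f00aa002e)
 (.leaf 0x7c00ac))
 (.node 48 (.leaf 0x22001c)
 (.node 49 (.leaf 0x580030)
 (.leaf 0x160008))))
 (.node 53 (.node 51 (.leaf 0x6300af)
 (.node 52 (.leaf 0x1000b10041)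
 (.leaf 0x40002)))
 (.node 54 (.leaf 0x55000f)
 (.node 55 (.leaf 0x2a001a)
 (.leaf 0x52001e)))))
 (.node 62 (.node 59 (.node 57 (.leaf 0x52004a)
 (.node 58 (.leaf 0x26003e)
 (.leaf 0x59003f)))
 (.node 60 (.leaf 0xb2009c)
 (.node 61 (.leaf 0xa00930089)
 (.leaf 0x5a004200270049))))
 (.node 65 (.node 63 (.leaf 0x6c0044)
 (.node 64 (.leaf 0x6b00b4002e)
 (.leaf 0x600b7)))
 (.node 66 (.leaf 0xae00b800170009)
 (.node 67 (.leaf 0x3c006e)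
 (.leaf 0x10008d))))))
 (.node 79 (.node 73 (.node 70 (.node 69 (.leaf 0x5f004c00ba)
 (.leaf 0x3c0066))
 (.node 71 (.leaf 0xad0009)
 (.node 72 (.leaf 0x20000c)
 (.leaf 0x38001a))))
 (.node 76 (.node 74 (.leaf 0x3d00b3)
 (.node 75 (.leaf 0x6d0041)
 (.leaf 0x6b004c00bc)))
 (.node 77 (.leaf 0xbe007200070071)
 (.node 78 (.leaf 0x1c0083)
 (.leaf 0xa200c000070009)))))
 (.node 85 (.node 82 (.node 80 (.leaf 0x8a0008)
 (.node 81 (.leaf 0x97001b)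
 (.leaf 0xb600720071)))
 (.node 83 (.leaf 0x9f00a7)
 (.node 84 (.leaf 0x1a0070)
 (.leaf 0x32005c))))
 (.node 88 (.node 86 (.leaf 0x8e00c20023001b)
 (.node 87 (.leaf 0x340044)
 (.leaf 0x1c00bf)))
 (.node 89 (.leaf 0x7700c5)
 (.node 90 (.leaf 0xb000c600230019)
 (.leaf 0x18004e))))))))
 (.node 137 (.node 114 (.node 102 (.node 96 (.node 93 (.node 92 (.leaf 0xa000c8000f0009)
 (.leaf 0xc400ca00090047))
 (.node 94 (.leaf 0xc0099)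
 (.node 95 (.leaf 0x3b00650021)
 (.leaf 0x6f00bb0051000b))))
 (.node 99 (.node 97 (.leaf 0x1f0003000b)
 (.node 98 (.leaf 0x130033000500c7)
 (.leaf 0x63000b000d)))
 (.node 100 (.leaf 0x310015000300c1)
 (.node 101 (.leaf 0x4b001f00030087)
 (.leaf 0x33003b00050029)))))
 (.node 108 (.node 105 (.node 103 (.leaf 0x150003000d)
 (.node 104 (.leaf 0x33002d00050069)
 (.leaf 0x35006d00110037)))
 (.node 106 (.leaf 0x3500ab00110043)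
 (.node 107 (.leaf 0x31001f00030091)
 (.leaf 0x31002f00030073))))
 (.node 111 (.node 109 (.leaf 0x3300050011)
 (.node 110 (.leaf 0x13002d00050043)
 (.leaf 0x13003b00050037)))
 (.node 112 (.leaf 0x6f001d000b)
 (.node 113 (.leaf 0x1300050025)
 (.leaf 0x13004d000500c3))))))
 (.node 125 (.node 119 (.node 116 (.node 115 (.leaf 0xbd00570051000d)
 (.leaf 0x4b0015000300c9))
 (.node 117 (.leaf 0x1f002f000300a5)
 (.node 118 (.leaf 0x4b0003004f)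
 (.leaf 0x2d004d000500a9))))
 (.node 122 (.node 120 (.leaf 0x35006100250069)
 (.node 121 (.leaf 0x310003001d)
 (.leaf 0x1f0015000300b9)))
 (.node 123 (.leaf 0x3500b500250029)
 (.node 124 (.leaf 0x15002f000300cb)
 (.leaf 0x2d00650049)))))
 (.node 131 (.node 128 (.node 126 (.leaf 0x57004f000d)
 (.node 127 (.leaf 0x67001d004f)
 (.leaf 0xc700050033)))
 (.node 129 (.leaf 0xc70005)
 (.node 130 (.leaf 0x4f0003)
 (.leaf 0x50006))))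
 (.node 134 (.node 132 (.leaf 0x4f)
 (.node 133 (.leaf 0x18)
 (.leaf 0x3e)))
 (.node 135 (.leaf 0x59)
 (.node 136 (.leaf 0x14)
 (.leaf 0x30)))))))
 (.node 160 (.node 148 (.node 142 (.node 139 (.node 138 (.leaf 0x20040)
 (.leaf 0x2))
 (.node 140 (.leaf 0xd)
 (.node 141 (.leaf 0xc1)
 (.leaf 0x1d))))
 (.node 145 (.node 143 (.leaf 0x20)
 (.node 144 (.leaf 0x99)
 (.leaf 0x22)))
 (.node 146 (.leaf 0x83)
 (.node 147 (.leaf 0xbf)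
 (.leaf 0x38)))))
 (.node 154 (.node 151 (.node 149 (.leaf 0x26)
 (.node 150 (.leaf 0x81)
 (.leaf 0x53)))
 (.node 152 (.leaf 0x9e)
 (.node 153 (.leaf 0x1e)
 (.leaf 0x4a))))
 (.node 157 (.node 155 (.leaf 0xa7)
 (.node 156 (.leaf 0xb)
 (.leaf 0xb9)))
 (.node 158 (.leaf 0x91)
 (.node 159 (.leaf 0x87)
 (.leaf 0xc9))))))
 (.node 171 (.node 165 (.node 162 (.node 161 (.leaf 0x85)
 (.leaf 0x48))
 (.node 163 (.leaf 0x2a)
 (.node 164 (.leaf 0x79)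
 (.leaf 0x76))))
 (.node 168 (.node 166 (.leaf 0xc5)
 (.node 167 (.leaf 0xf00070017)
 (.leaf 0xf0007)))
 (.node 169 (.leaf 0x2e000f)
 (.node 170 (.leaf 0x2e)
 (.leaf 0x73)))))
 (.node 177 (.node 174 (.node 172 (.leaf 0xcb)
 (.node 173 (.leaf 0xa5)
 (.leaf 0xae0009)))
 (.node 175 (.leaf 0x8)
 (.node 176 (.leaf 0xae)
 (.leaf 0x63))))
 (.node 180 (.node 178 (.leaf 0x96)
 (.node 179 (.leaf 0x1b)
 (.leaf 0x70)))
 (.node 181 (.leaf 0x7)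
 (.node 182 (.leaf 0xb6)
 (.leaf 0x0)))))))))

noncomputable def prf : List ℕ := [
0x4900073000770001d00012,
0x740004a0000f000690007c000620002b00000,
0x50000080004600033000470007a00078000480000b,
0x760004c000110006b0007e,
0x3e00011000230002d000660004c0004500073000690006b000600006f0006d000820005d0001500012000140002400077000790007e0004d0007b000160002e0007100065000000007c00035000530003b000040005c000050003d000400007800039000470005f0004e0006a00001,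
0x2900000,
0x5800000,
0x4b00000,
0x7a00000,
0x5700001,
0x3d000120005f0005d000600006c0007b000260006a000160003800041000400007a000690007e00021000770008400062000430003f0004d0006500070000860005a000420003900076000230007f0005300081000450001c000340006b00006000540000400003,
0xd0006d000640001a000670005a0004b000300003f00056000000001d000470003500078000400006c0004e000070000900066000550007100005,
0x240000300000,
0x28000030000400001,
0x140000400002,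
0x4600002,
0x3100003,
0x6000002,
0x4300003,
0x3a00004,
0x7100003,
0x8d00002,
0x8f00001,
0x8d00001,
0x7200001,
0x6000001,
0x6000002,
0x4700002,
0x3a0001000002,
0x22000110001400003,
0x32000120001400004,
0x39000130000500004,
0x2b000170001400005,
0x9200004,
0x8400005,
0x7900001,
0x8800000,
0xa200000,
0x4c00000,
0x6900091000950000a0000800007,
0x7f000580004b0007500000000070001a0001b,
0x680007e0002d00030000a400000000880005d0005100069000900008500082000490009e0007200023000050001400019,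
0x7b0003f0009300099000400008f000520006a0009100086000830002c000970008b00092000a100000000140001a000180000600007,
0x3e0001f0002100000,
0x2f000230002000001,
0x37000210001300002,
0x910006b00050000100000700001,
0x830007c0008d0001300001,
0x100000,
0x7d00000,
0x9200000,
0x6100000,
0x5f00000,
0x67000090002100000,
0x630000a00001,
0x750000100000]

end D54

theorem inst_54 : instB 0 [0, 2] [11, 21] [] D54.base D54.gads D54.names D54.cnf D54.db D54.prf = true := by decide +kernel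

/-- no gadget has fewer than `2 R` new points. -/
theorem p2_54 : D54.gads.all (fun g => Nat.ble (2 * g.R) g.gs.length) = true := by decide +kernel

/-- there is no configuration of this instance. -/
theorem no_54 {V : Type v} [DecidableEq V] {ι : Type u} [Fintype ι] {B : ι → Finset V}
    {Q : Finset V} {i j : ι} {x : ℕ → V} {D : ℕ → Finset V}
    (h : CfI B Q 0 x D i j [0, 2] [11, 21]) : False :=
  h.absurd (by decide) srt_nil inst_54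

end Pool.Agent.Hyp6
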