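import Pool.Agent.Hyp6.Cb5

/-!
# HYP6: instance 55 of the list: n = 0, bounds [0, 2], inner blocks [11, 25]

83 base clauses, 17 gadgets, 50 learned clauses.
-/

set_option autoImplicit false
set_option maxRecDepth 100000

namespace Pool.Agent.Hyp6

open Rup

universe u v

namespace D55

noncomputable def names : Tr :=
 (.node 38 (.node 18 (.node 8 (.node 3 (.node 1 (.node 0 (.leaf 2195)
 (.leaf 10386))
 (.node 2 (.leaf 2067)
 (.leaf 2179)))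
 (.node 5 (.node 4 (.leaf 10385)
 (.leaf 2307))
 (.node 6 (.leaf 2066)
 (.node 7 (.leaf 2178)
 (.leaf 2083)))))
 (.node 13 (.node 10 (.node 9 (.leaf 34)
 (.leaf 129))
 (.node 11 (.leaf 146)
 (.node 12 (.leaf 258)
 (.leaf 18481))))
 (.node 15 (.node 14 (.leaf 2177)
 (.leaf 8338))
 (.node 16 (.leaf 130)
 (.node 17 (.leaf 18)
 (.leaf 17))))))
 (.node 28 (.node 23 (.node 20 (.node 19 (.leaf 2057)
 (.leaf 10387))
 (.node 21 (.leaf 16769)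
 (.node 22 (.leaf 2065)
 (.leaf 18817))))
 (.node 25 (.node 24 (.leaf 16641)
 (.leaf 18449))
 (.node 26 (.leaf 16417)
 (.node 27 (.leaf 18465)
 (.leaf 2305)))))
 (.node 33 (.node 30 (.node 29 (.leaf 16513)
 (.leaf 10388))
 (.node 31 (.leaf 66)
 (.node 32 (.leaf 2113)
 (.leaf 16673))))
 (.node 35 (.node 34 (.leaf 18689)
 (.leaf 16433))
 (.node 36 (.leaf 257)
 (.node 37 (.leaf 18721)
 (.leaf 8337)))))))
 (.node 58 (.node 48 (.node 43 (.node 40 (.node 39 (.leaf 2308)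
 (.leaf 2075))
 (.node 41 (.leaf 10265)
 (.node 42 (.leaf 2180)
 (.leaf 131))))
 (.node 45 (.node 44 (.leaf 16425)
 (.leaf 33))
 (.node 46 (.leaf 18561)
 (.node 47 (.leaf 10513)
 (.leaf 2068)))))
 (.node 53 (.node 50 (.node 49 (.leaf 8329)
 (.leaf 10))
 (.node 51 (.leaf 10433)
 (.node 52 (.leaf 18705)
 (.leaf 9))))
 (.node 55 (.node 54 (.leaf 138)
 (.leaf 16545))
 (.node 56 (.leaf 10321)
 (.node 57 (.leaf 2081)
 (.leaf 16705))))))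
 (.node 68 (.node 63 (.node 60 (.node 59 (.leaf 18577)
 (.leaf 2243))
 (.node 61 (.leaf 10377)
 (.node 62 (.leaf 2306)
 (.leaf 2084))))
 (.node 65 (.node 64 (.leaf 16401)
 (.leaf 18473))
 (.node 66 (.leaf 18593)
 (.node 67 (.leaf 2131)
 (.leaf 16649)))))
 (.node 73 (.node 70 (.node 69 (.leaf 18529)
 (.leaf 35))
 (.node 71 (.leaf 2187)
 (.node 72 (.leaf 36)
 (.leaf 19))))
 (.node 75 (.node 74 (.leaf 16481)
 (.leaf 18697))
 (.node 76 (.leaf 16657)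
 (.node 77 (.leaf 18753)
 (.leaf 2323))))))))

noncomputable def base : List Rs := [
.join 1 2 4 3 0 3 [(1, 0)],
.part [32, 6] [0, 0] [25] [],
.ordL 1 18 1,
.join 0 2 4 2 1 1 [(1, 0)],
.ordE 1 32 3,
.join 1 1 1 3 1 2 [(0, 0)],
.join 1 2 4 3 3 4 [(1, 4)],
.join 1 2 4 3 3 1 [(1, 1)],
.le 0 18 16 4 2,
.deg 4 [2, 0],
.join 1 2 4 3 3 2 [(1, 2)],
.join 1 2 4 3 2 2 [(1, 1)],
.part [5, 2] [0, 0] [56] [],
.ab 0 2,
.ab 1 4,
.l2 1 18 34 1 3 1,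
.l2 0 17 18 4 1 1,
.le 1 18 2 1 3,
.part [48, 4] [0, 0] [11] [],
.deg 0 [1, 0],
.hall [1] [4, 5],
.deg 1 [0, 2],
.l2 1 18 24 4 2 1,
.part [4, 34] [0, 0] [25] [],
.ab 0 4,
.join 1 2 4 3 4 2 [(1, 3)],
.join 0 1 4 2 1 1 [(0, 0)],
.deg 3 [1, 0],
.deg 1 [1, 1],
.join 1 2 4 3 3 3 [(1, 3)],
.deg 4 [0, 2],
.part [36, 2] [0, 0] [25] [],
.part [20, 32] [0, 0] [11] [],
.l2 1 10 18 1 1 2,
.ab 1 2,
.part [40, 18] [0, 0] [5] [],
.join 1 8 4 3 1 2 [(3, 0)],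
.ab2 1 18,
.join 1 2 4 3 2 1 [(1, 0)],
.l2 1 17 18 4 1 2,
.ordE 1 32 1,
.le 1 18 2 1 1,
.ordE 1 4 3,
.ab 1 1,
.deg 5 [1, 2],
.part [36, 16] [0, 0] [11] [],
.join 0 2 4 2 2 1 [(1, 1)],
.ab 0 1,
.part [6, 32] [0, 0] [25] [],
.ab 1 5,
.join 1 2 4 3 1 3 [(1, 1)],
.part [2, 5] [0, 0] [56] [],
.deg 2 [1, 2],
.part [32, 20] [0, 0] [11] [],
.join 1 2 3 3 2 1 [(1, 0)],
.part [33, 12] [0, 0] [] [(1, 18)],
.deg 2 [0, 3],
.ordE 0 4 2,
.part [4, 48] [0, 0] [11] [],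
.join 1 1 4 3 1 2 [(0, 0)],
.ordE 0 4 3,
.ab 0 5,
.le 1 18 16 4 2,
.deg 2 [3, 0],
.deg 5 [0, 3],
.join 1 2 4 3 2 3 [(1, 2)],
.ordE 0 2 2,
.part [12, 33] [0, 0] [] [(1, 18)],
.hall [0] [4, 5],
.le 0 18 2 1 2,
.le 1 18 2 1 2,
.deg 1 [2, 0],
.hall [0, 1] [0],
.part [34, 4] [0, 0] [25] [],
.part [16, 40] [0, 0] [7] [],
.join 0 2 4 2 0 3 [(1, 1)],
.part [16, 36] [0, 0] [11] [],
.le 1 18 16 4 4,
.deg 4 [1, 1],
.ordE 1 32 2,
.join 1 2 5 3 3 0 [(1, 0)],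
.join 0 2 4 2 1 2 [(1, 1)],
.l2 1 3 18 1 1 2]

noncomputable def gads : List Gt := [
⟨0, [⟨16, 2, []⟩, ⟨32, 2, []⟩], [3, 3, 3], 1, [(48, 1)]⟩,
⟨0, [⟨4, 2, []⟩, ⟨32, 2, []⟩], [3, 3, 3], 1, [(36, 1)]⟩,
⟨0, [⟨18, 2, []⟩, ⟨32, 2, []⟩], [3, 3, 3], 1, [(34, 1), (48, 1)]⟩,
⟨0, [⟨1, 2, []⟩, ⟨4, 2, []⟩], [3, 3, 3], 1, [(5, 1)]⟩,
⟨1, [⟨18, 3, []⟩, ⟨4, 3, []⟩], [3, 3], 1, [(6, 1), (20, 1)]⟩,
⟨0, [⟨8, 2, []⟩, ⟨32, 2, []⟩], [3, 3, 3], 1, [(40, 1)]⟩,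
⟨1, [⟨18, 3, []⟩, ⟨32, 3, []⟩], [3, 3], 1, [(34, 1), (48, 1)]⟩,
⟨0, [⟨17, 2, []⟩, ⟨32, 2, []⟩], [3, 3, 3], 1, [(33, 1), (48, 1)]⟩,
⟨1, [⟨10, 3, []⟩, ⟨4, 3, []⟩], [3, 3], 1, [(6, 1), (12, 1)]⟩,
⟨0, [⟨18, 2, []⟩, ⟨4, 2, []⟩], [3, 3, 3], 1, [(6, 1), (20, 1)]⟩,
⟨1, [⟨3, 3, []⟩, ⟨4, 3, []⟩], [3, 3], 1, [(5, 1), (6, 1)]⟩,
⟨0, [⟨4, 2, []⟩, ⟨8, 2, []⟩], [3, 3, 3], 1, [(12, 1)]⟩,
⟨1, [⟨34, 3, []⟩, ⟨4, 3, []⟩], [3, 3], 1, [(6, 1), (36, 1)]⟩,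
⟨1, [⟨4, 3, []⟩, ⟨32, 3, []⟩], [3, 3], 1, [(36, 1)]⟩,
⟨1, [⟨24, 3, []⟩, ⟨32, 3, []⟩], [3, 3], 1, [(40, 1), (48, 1)]⟩,
⟨1, [⟨17, 3, []⟩, ⟨32, 3, []⟩], [3, 3], 1, [(33, 1), (48, 1)]⟩,
⟨0, [⟨2, 2, []⟩, ⟨4, 2, []⟩], [3, 3, 3], 1, [(6, 1)]⟩]

noncomputable def cnf : List (List ℕ) := [
[7, 0, 8],
[48, 26],
[3, 8],
[37, 21, 22, 76],
[79, 10],
[39, 13, 80, 82],
[5, 85, 0],
[5, 29, 0, 2],
[31, 32],
[86, 28],
[5, 15, 0, 40],
[13, 15, 0, 2],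
[88, 50],
[91, 53],
[29, 93],
[41, 95, 96],
[99, 77, 32],
[41, 4],
[42, 54],
[100, 38],
[28, 56],
[36, 4],
[3, 103, 6],
[52, 104],
[21, 59],
[97, 15, 0, 60],
[107, 21, 108, 98],
[62, 64],
[34, 12],
[5, 7, 0, 60],
[20, 6],
[66, 50],
[110, 68],
[113, 3, 4],
[115, 55],
[116, 118],
[65, 15, 120, 102],
[9, 119],
[13, 29, 0, 8],
[123, 3, 6],
[125, 56],
[9, 44],
[127, 16],
[45, 51],
[24, 10],
[66, 92],
[35, 21, 22, 30],
[37, 129],
[70, 68],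
[57, 69],
[45, 7, 0, 2],
[128, 130],
[18, 16],
[48, 132],
[13, 65, 134, 112],
[136, 138, 9],
[90, 126],
[141, 18],
[52, 46],
[39, 15, 142, 122],
[145, 140],
[73, 49],
[3, 14],
[144, 114],
[72, 78],
[13, 7, 0, 40],
[147, 34],
[148, 150, 9],
[20, 72],
[31, 34],
[3, 12],
[146, 44],
[106, 38],
[152, 54],
[58, 154],
[87, 22, 30],
[58, 74],
[61, 84],
[32, 14],
[11, 124],
[5, 156, 94],
[37, 33, 22, 30],
[83, 3, 4],
[33, 25, 43],
[19, 25, 67],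
[23, 25, 153, 43],
[101, 19, 89],
[1, 17, 27, 133],
[63, 25, 117],
[1, 11, 105, 47],
[109, 25, 137, 43],
[135, 17, 27, 139],
[23, 19, 71, 111],
[81, 17, 131, 27],
[19, 63, 149],
[157, 17, 27, 75],
[17, 11, 75],
[121, 11, 155, 47],
[143, 11, 151, 47],
[35, 19, 71]]

noncomputable def db : Tr :=
 (.node 75 (.node 37 (.node 18 (.node 9 (.node 4 (.node 2 (.node 1 (.leaf 0xa00020009)
 (.leaf 0x1c0032))
 (.node 3 (.leaf 0xa0005)
 (.leaf 0x4e001800170027)))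
 (.node 6 (.node 5 (.leaf 0xc0051)
 (.leaf 0x540052000f0029))
 (.node 7 (.leaf 0x200570007)
 (.node 8 (.leaf 0x40002001f0007)
 (.leaf 0x220021)))))
 (.node 13 (.node 11 (.node 10 (.leaf 0x1e0058)
 (.leaf 0x2a000200110007))
 (.node 12 (.leaf 0x400020011000f)
 (.leaf 0x34005a)))
 (.node 15 (.node 14 (.leaf 0x37005d)
 (.leaf 0x5f001f))
 (.node 16 (.leaf 0x620061002b)
 (.node 17 (.leaf 0x22004f0065)
 (.leaf 0x6002b))))))
 (.node 27 (.node 22 (.node 20 (.node 19 (.leaf 0x38002c)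
 (.leaf 0x280066))
 (.node 21 (.leaf 0x3a001e)
 (.leaf 0x60026)))
 (.node 24 (.node 23 (.leaf 0x800690005)
 (.leaf 0x6a0036))
 (.node 25 (.leaf 0x3d0017)
 (.node 26 (.leaf 0x3e000200110063)
 (.leaf 0x64006e0017006d)))))
 (.node 32 (.node 29 (.node 28 (.leaf 0x420040)
 (.leaf 0xe0024))
 (.node 30 (.leaf 0x3e000200090007)
 (.node 31 (.leaf 0x80016)
 (.leaf 0x340044))))
 (.node 34 (.node 33 (.leaf 0x460070)
 (.leaf 0x600050073))
 (.node 35 (.leaf 0x390075)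
 (.node 36 (.leaf 0x780076)
 (.leaf 0x68007a00110043)))))))
 (.node 56 (.node 46 (.node 41 (.node 39 (.node 38 (.leaf 0x79000b)
 (.leaf 0xa0002001f000f))
 (.node 40 (.leaf 0x80005007d)
 (.leaf 0x3a007f)))
 (.node 43 (.node 42 (.leaf 0x2e000b)
 (.leaf 0x120081))
 (.node 44 (.leaf 0x35002f)
 (.node 45 (.leaf 0xc001a)
 (.leaf 0x5e0044)))))
 (.node 51 (.node 48 (.node 47 (.leaf 0x20001800170025)
 (.leaf 0x830027))
 (.node 49 (.leaf 0x460048)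
 (.node 50 (.leaf 0x47003b)
 (.leaf 0x400020009002f))))
 (.node 53 (.node 52 (.leaf 0x840082)
 (.leaf 0x120014))
 (.node 54 (.leaf 0x860032)
 (.node 55 (.leaf 0x7200880043000f)
 (.leaf 0xb008c008a))))))
 (.node 65 (.node 60 (.node 58 (.node 57 (.leaf 0x80005c)
 (.leaf 0x14008f))
 (.node 59 (.leaf 0x300036)
 (.leaf 0x7c009000110029)))
 (.node 62 (.node 61 (.leaf 0x8e0093)
 (.leaf 0x33004b))
 (.node 63 (.leaf 0x100005)
 (.node 64 (.leaf 0x740092)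
 (.leaf 0x50004a)))))
 (.node 70 (.node 67 (.node 66 (.leaf 0x2a00020009000f)
 (.leaf 0x240095))
 (.node 68 (.leaf 0xb00980096)
 (.node 69 (.leaf 0x4a0016)
 (.leaf 0x240021))))
 (.node 72 (.node 71 (.leaf 0xe0005)
 (.leaf 0x2e0094))
 (.node 73 (.leaf 0x28006c)
 (.node 74 (.leaf 0x38009a)
 (.leaf 0x9c003c))))))))
 (.node 112 (.node 93 (.node 84 (.node 79 (.node 77 (.node 76 (.leaf 0x2000180059)
 (.leaf 0x4c003c))
 (.node 78 (.leaf 0x56003f)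
 (.leaf 0x100022)))
 (.node 81 (.node 80 (.leaf 0x7e000d)
 (.leaf 0x60009e0007))
 (.node 82 (.leaf 0x20001800230027)
 (.node 83 (.leaf 0x600050055)
 (.leaf 0x2d001b0023)))))
 (.node 88 (.node 86 (.node 85 (.leaf 0x45001b0015)
 (.leaf 0x2d009b001b0019))
 (.node 87 (.leaf 0x5b00150067)
 (.leaf 0x87001d00130003)))
 (.node 90 (.node 89 (.leaf 0x77001b0041)
 (.leaf 0x31006b000d0003))
 (.node 91 (.leaf 0x2d008b001b006f)
 (.node 92 (.leaf 0x8d001d00130089)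
 (.leaf 0x71004900150019))))))
 (.node 102 (.node 97 (.node 95 (.node 94 (.leaf 0x1d008500130053)
 (.leaf 0x9700410015))
 (.node 96 (.leaf 0x4d001d0013009f)
 (.leaf 0x4d000d0013)))
 (.node 99 (.node 98 (.leaf 0x31009d000d007b)
 (.leaf 0x310099000d0091))
 (.node 100 (.leaf 0x4900150025)
 (.node 101 (.leaf 0x250015)
 (.leaf 0x9f004d0013)))))
 (.node 107 (.node 104 (.node 103 (.leaf 0x12007a00430007)
 (.leaf 0x12007a0043))
 (.node 105 (.leaf 0x2000f0009)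
 (.node 106 (.leaf 0x1200900005)
 (.leaf 0x120004))))
 (.node 109 (.node 108 (.leaf 0x12)
 (.leaf 0x90002))
 (.node 110 (.leaf 0x16)
 (.node 111 (.leaf 0x3d)
 (.leaf 0x4c)))))))
 (.node 131 (.node 121 (.node 116 (.node 114 (.node 113 (.leaf 0x9f)
 (.leaf 0xd))
 (.node 115 (.leaf 0x51)
 (.leaf 0x1a)))
 (.node 118 (.node 117 (.leaf 0x4a)
 (.leaf 0x33))
 (.node 119 (.leaf 0x1c)
 (.node 120 (.leaf 0x86)
 (.leaf 0x3)))))
 (.node 126 (.node 123 (.node 122 (.leaf 0x25)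
 (.leaf 0xe))
 (.node 124 (.leaf 0x95)
 (.node 125 (.leaf 0x2e)
 (.leaf 0x35))))
 (.node 128 (.node 127 (.leaf 0x44)
 (.leaf 0x15))
 (.node 129 (.leaf 0x8f)
 (.node 130 (.leaf 0x93)
 (.leaf 0x74))))))
 (.node 140 (.node 135 (.node 133 (.node 132 (.leaf 0x39)
 (.leaf 0x2c))
 (.node 134 (.leaf 0x9a)
 (.leaf 0x23)))
 (.node 137 (.node 136 (.leaf 0x19)
 (.leaf 0x10))
 (.node 138 (.leaf 0x4)
 (.node 139 (.leaf 0xa)
 (.leaf 0x79)))))
 (.node 145 (.node 142 (.node 141 (.leaf 0x76)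
 (.leaf 0x41))
 (.node 143 (.leaf 0x42)
 (.node 144 (.leaf 0x6)
 (.leaf 0x57))))
 (.node 147 (.node 146 (.leaf 0x60)
 (.leaf 0x2a))
 (.node 148 (.leaf 0x3f)
 (.node 149 (.leaf 0x62)
 (.leaf 0x0)))))))))

noncomputable def prf : List ℕ := [
0xf000370003600014000550003b0004f000320003300000,
0x270002400063000600000500004,
0x4f000410004800027000180005e0005f0000c0002b0004e000580002d0003b0005c0001a000090004500035000340003d000160003900011000460003a0001e00023000200000100031,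
0x50000420005b0001800015000250005100055000000004a000210000d0002c0004f000590002e0003c0000a0004600036000350003e000170003a00012000470003b0001f000240000200032,
0x1a0004a000610005600026,
0x2d000410002a00055000120005c000000004c0000f0003c00014000490003d000210002600004000340002e000510005b000300003e,
0x180001b000540005e000620004d000100002f000520005c000310003f000600001e0000d000490003900038000410001a0003d000150004a0003e0002200027000240000500035,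
0x4f000030000c000090002700020000080000100000000520004c0000200044000610001f0000e0003a0004a0003900042000110001b0003e000160004b0003f00023000300005300025000280004e0005d00006000320003600040,
0x3900042000250006b00003,
0x15000370006b0002f000280004e00001,
0x5500000,
0x2200000,
0xa0000400000,
0x100000500001,
0x6d00000,
0x4600001,
0x3300001,
0x3700000,
0x7400000,
0x4100001,
0x200000c0000100000,
0x4a0007000023000250002f0006600056000390003c0003f000140000b00005,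
0x5d00000,
0x3800001,
0x3400000,
0x5100000,
0x5e00000,
0x2a0000b00000,
0x4600000,
0x4400000,
0x4200000,
0x6000000,
0x7100000,
0x3b00001,
0x320001200001,
0x31000130000100002,
0x3900001,
0x7d000100000e00000,
0x8700000,
0x6500000,
0x6800000,
0x340001900000,
0x7200000,
0x740004600034000890005700031000330007e0005b000580008b0005f0003c0006d00079000210000a0001b0001400004000180002300008000000000700005,
0x890001700000,
0x400002000001,
0x87000190000900002,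
0x4500002,
0x840000100002,
0x7b0001c0000c0000100000]

end D55

theorem inst_55 : instB 0 [0, 2] [11, 25] [] D55.base D55.gads D55.names D55.cnf D55.db D55.prf = true := by decide +kernel

/-- no gadget has fewer than `2 R` new points. -/
theorem p2_55 : D55.gads.all (fun g => Nat.ble (2 * g.R) g.gs.length) = true := by decide +kernel

/-- there is no configuration of this instance. -/
theorem no_55 {V : Type v} [DecidableEq V] {ι : Type u} [Fintype ι] {B : ι → Finset V}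
    {Q : Finset V} {i j : ι} {x : ℕ → V} {D : ℕ → Finset V}
    (h : CfI B Q 0 x D i j [0, 2] [11, 25]) : False :=
  h.absurd (by decide) srt_nil inst_55

end Pool.Agent.Hyp6
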