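import Pool.Agent.Hyp6.Cb5

/-!
# HYP6: instance 56 of the list: n = 0, bounds [0, 2], inner blocks [11, 28]

65 base clauses, 17 gadgets, 46 learned clauses.
-/

set_option autoImplicit false
set_option maxRecDepth 100000

namespace Pool.Agent.Hyp6

open Rup

universe u v

namespace D56

noncomputable def names : Tr :=
 (.node 33 (.node 16 (.node 7 (.node 3 (.node 1 (.node 0 (.leaf 258)
 (.leaf 9))
 (.node 2 (.leaf 17)
 (.leaf 2307)))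
 (.node 5 (.node 4 (.leaf 16769)
 (.leaf 129))
 (.node 6 (.leaf 2057)
 (.leaf 33))))
 (.node 11 (.node 9 (.node 8 (.leaf 18)
 (.leaf 16409))
 (.node 10 (.leaf 16433)
 (.leaf 2081)))
 (.node 13 (.node 12 (.leaf 16673)
 (.leaf 34))
 (.node 14 (.leaf 16657)
 (.node 15 (.leaf 16649)
 (.leaf 16401))))))
 (.node 24 (.node 20 (.node 18 (.node 17 (.leaf 18697)
 (.leaf 18465))
 (.node 19 (.leaf 130)
 (.leaf 18441)))
 (.node 22 (.node 21 (.leaf 2082)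
 (.leaf 16393))
 (.node 23 (.leaf 18721)
 (.leaf 18705))))
 (.node 28 (.node 26 (.node 25 (.leaf 2177)
 (.leaf 16425))
 (.node 27 (.leaf 10)
 (.leaf 2065)))
 (.node 30 (.node 29 (.leaf 18449)
 (.leaf 2179))
 (.node 31 (.leaf 260)
 (.node 32 (.leaf 259)
 (.leaf 257)))))))
 (.node 50 (.node 41 (.node 37 (.node 35 (.node 34 (.leaf 8329)
 (.leaf 8337))
 (.node 36 (.leaf 138)
 (.leaf 18561)))
 (.node 39 (.node 38 (.leaf 16513)
 (.leaf 2113))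
 (.node 40 (.leaf 18497)
 (.leaf 26))))
 (.node 45 (.node 43 (.node 42 (.leaf 8217)
 (.leaf 65))
 (.node 44 (.leaf 16449)
 (.leaf 131)))
 (.node 47 (.node 46 (.leaf 8233)
 (.leaf 2067))
 (.node 48 (.leaf 146)
 (.node 49 (.leaf 2058)
 (.leaf 50))))))
 (.node 58 (.node 54 (.node 52 (.node 51 (.leaf 8241)
 (.leaf 16641))
 (.node 53 (.leaf 2066)
 (.leaf 18473)))
 (.node 56 (.node 55 (.leaf 2305)
 (.leaf 10281))
 (.node 57 (.leaf 2099)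
 (.leaf 10289))))
 (.node 62 (.node 60 (.node 59 (.leaf 18481)
 (.leaf 2083))
 (.node 61 (.leaf 18689)
 (.leaf 18817)))
 (.node 64 (.node 63 (.leaf 2091)
 (.leaf 42))
 (.node 65 (.leaf 19)
 (.node 66 (.leaf 18593)
 (.leaf 2059))))))))

noncomputable def base : List Rs := [
.part [2, 33] [0, 0] [28] [],
.ordE 0 32 3,
.part [3, 4] [0, 0] [56] [],
.ordE 0 32 1,
.part [48, 4] [0, 0] [11] [],
.l2 0 17 18 4 1 1,
.join 0 1 4 2 1 1 [(0, 0)],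
.part [6, 1] [0, 0] [56] [],
.ordE 1 4 1,
.part [36, 16] [0, 0] [11] [],
.ab 0 0,
.part [16, 36] [0, 0] [11] [],
.ab 1 3,
.join 0 1 1 2 1 1 [(0, 0)],
.part [1, 34] [0, 0] [28] [],
.ab 0 3,
.deg 4 [2, 0],
.hall [1] [0, 2],
.ab2 0 5,
.deg 1 [0, 2],
.hall [0] [0, 2],
.join 0 2 4 2 1 1 [(1, 0)],
.deg 0 [1, 1],
.join 0 2 2 2 1 1 [(1, 0)],
.ab 0 5,
.deg 1 [1, 1],
.part [2, 5] [0, 0] [56] [],
.deg 5 [3, 0],
.hall [1] [0, 1],
.hall [0] [3, 4],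
.ab 0 4,
.part [5, 2] [0, 0] [56] [],
.hall [0] [0, 1],
.ab 1 4,
.ab 1 1,
.deg 2 [1, 1],
.ab2 1 5,
.join 1 2 2 3 2 1 [(1, 0)],
.part [1, 6] [0, 0] [56] [],
.ab 1 0,
.deg 2 [0, 2],
.part [3, 32] [0, 0] [28] [],
.ab2 0 3,
.hall [1] [3, 4],
.part [8, 48] [0, 0] [7] [],
.ordE 0 16 2,
.ab 0 1,
.join 1 1 2 3 1 2 [(0, 0)],
.ordE 1 1 1,
.hall [0] [1, 2],
.ab 1 2,
.ab2 1 6,
.join 0 1 2 2 1 1 [(0, 0)],
.ordE 0 2 2,
.part [32, 20] [0, 0] [11] [],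
.part [34, 1] [0, 0] [28] [],
.ordE 0 32 2,
.deg 1 [2, 0],
.ab2 0 6,
.part [33, 2] [0, 0] [28] [],
.part [48, 8] [0, 0] [7] [],
.deg 4 [0, 2],
.ab 1 5,
.deg 0 [0, 2],
.deg 5 [1, 2]]

noncomputable def gads : List Gt := [
⟨0, [⟨18, 2, []⟩, ⟨32, 2, []⟩], [3, 3, 3], 1, [(34, 1), (48, 1)]⟩,
⟨0, [⟨1, 2, []⟩, ⟨2, 2, []⟩], [3, 3, 3], 1, [(3, 1)]⟩,
⟨1, [⟨16, 3, []⟩, ⟨32, 3, []⟩], [3, 3], 1, [(48, 1)]⟩,
⟨0, [⟨3, 2, []⟩, ⟨4, 2, []⟩], [3, 3, 3], 1, [(5, 1), (6, 1)]⟩,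
⟨1, [⟨6, 3, []⟩, ⟨32, 3, []⟩], [3, 3], 1, [(34, 1), (36, 1)]⟩,
⟨0, [⟨2, 2, []⟩, ⟨4, 2, []⟩], [3, 3, 3], 1, [(6, 1)]⟩,
⟨0, [⟨2, 2, []⟩, ⟨32, 2, []⟩], [3, 3, 3], 1, [(34, 1)]⟩,
⟨1, [⟨4, 3, []⟩, ⟨16, 3, []⟩], [3, 3], 1, [(20, 1)]⟩,
⟨0, [⟨5, 2, []⟩, ⟨32, 2, []⟩], [3, 3, 3], 1, [(33, 1), (36, 1)]⟩,
⟨1, [⟨5, 3, []⟩, ⟨32, 3, []⟩], [3, 3], 1, [(33, 1), (36, 1)]⟩,
⟨1, [⟨2, 3, []⟩, ⟨32, 3, []⟩], [3, 3], 1, [(34, 1)]⟩,
⟨0, [⟨4, 2, []⟩, ⟨32, 2, []⟩], [3, 3, 3], 1, [(36, 1)]⟩,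
⟨0, [⟨6, 2, []⟩, ⟨32, 2, []⟩], [3, 3, 3], 1, [(34, 1), (36, 1)]⟩,
⟨0, [⟨16, 2, []⟩, ⟨32, 2, []⟩], [3, 3, 3], 1, [(48, 1)]⟩,
⟨0, [⟨1, 2, []⟩, ⟨32, 2, []⟩], [3, 3, 3], 1, [(33, 1)]⟩,
⟨1, [⟨1, 3, []⟩, ⟨32, 3, []⟩], [3, 3], 1, [(33, 1)]⟩,
⟨0, [⟨17, 2, []⟩, ⟨32, 2, []⟩], [3, 3, 3], 1, [(33, 1), (48, 1)]⟩]

noncomputable def cnf : List (List ℕ) := [
[32, 34],
[63, 64],
[18, 36],
[1, 66],
[8, 36],
[69, 71, 38],
[3, 11, 72, 68],
[20, 40],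
[43, 22],
[24, 74],
[3, 45],
[76, 46],
[79, 81],
[3, 5, 82, 84],
[44, 48],
[87, 89],
[90, 50],
[12, 22],
[93, 53],
[4, 94],
[2, 14],
[5, 11, 96, 70],
[54, 98],
[5, 15, 100, 102],
[67, 105],
[16, 106],
[32, 108],
[62, 110],
[12, 56],
[86, 10],
[11, 77],
[52, 58],
[2, 4],
[51, 75],
[57, 59],
[26, 42],
[113, 109],
[107, 23, 114, 116],
[44, 118],
[13, 41],
[14, 120],
[18, 122],
[85, 19],
[78, 50],
[88, 124],
[91, 38],
[5, 33],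
[13, 43, 126, 112],
[99, 12],
[4, 14],
[23, 37],
[117, 119],
[3, 15, 128, 92],
[131, 16],
[104, 132],
[28, 40],
[65, 0],
[130, 56],
[103, 21],
[30, 58],
[8, 80],
[10, 60],
[111, 123],
[2, 134],
[0, 6],
[97, 1, 29, 9],
[55, 17, 19],
[61, 7, 125],
[83, 27, 53, 21],
[115, 7, 49, 47],
[17, 27, 21],
[17, 1, 29],
[121, 61, 133],
[129, 1, 31, 25],
[127, 7, 35, 47],
[95, 7, 49],
[27, 1, 25],
[101, 1, 29, 25],
[39, 1, 9],
[55, 1, 31],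
[135, 7, 35],
[73, 1, 31, 9]]

noncomputable def db : Tr :=
 (.node 64 (.node 32 (.node 16 (.node 8 (.node 4 (.node 2 (.node 1 (.leaf 0x240022)
 (.leaf 0x420041))
 (.node 3 (.leaf 0x260014)
 (.leaf 0x440003)))
 (.node 6 (.node 5 (.leaf 0x26000a)
 (.leaf 0x2800490047))
 (.node 7 (.leaf 0x46004a000d0005)
 (.leaf 0x2a0016))))
 (.node 12 (.node 10 (.node 9 (.leaf 0x18002d)
 (.leaf 0x4c001a))
 (.node 11 (.leaf 0x2f0005)
 (.leaf 0x30004e)))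
 (.node 14 (.node 13 (.leaf 0x530051)
 (.leaf 0x56005400070005))
 (.node 15 (.leaf 0x32002e)
 (.leaf 0x5b0059)))))
 (.node 24 (.node 20 (.node 18 (.node 17 (.leaf 0x34005c)
 (.leaf 0x18000e))
 (.node 19 (.leaf 0x37005f)
 (.leaf 0x600006)))
 (.node 22 (.node 21 (.leaf 0x100004)
 (.leaf 0x480062000d0007))
 (.node 23 (.leaf 0x640038)
 (.leaf 0x68006600110007))))
 (.node 28 (.node 26 (.node 25 (.leaf 0x6b0045)
 (.leaf 0x6c0012))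
 (.node 27 (.leaf 0x6e0022)
 (.leaf 0x700040)))
 (.node 30 (.node 29 (.leaf 0x3a000e)
 (.leaf 0xc0058))
 (.node 31 (.leaf 0x4f000d)
 (.leaf 0x3c0036))))))
 (.node 48 (.node 40 (.node 36 (.node 34 (.node 33 (.leaf 0x60004)
 (.leaf 0x4d0035))
 (.node 35 (.leaf 0x3d003b)
 (.leaf 0x2c001c)))
 (.node 38 (.node 37 (.leaf 0x6f0073)
 (.leaf 0x7600740019006d))
 (.node 39 (.leaf 0x78002e)
 (.leaf 0x2b000f))))
 (.node 44 (.node 42 (.node 41 (.leaf 0x7a0010)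
 (.leaf 0x7c0014))
 (.node 43 (.leaf 0x150057)
 (.leaf 0x340050)))
 (.node 46 (.node 45 (.leaf 0x7e005a)
 (.leaf 0x28005d))
 (.node 47 (.leaf 0x230007)
 (.leaf 0x720080002d000f)))))
 (.node 56 (.node 52 (.node 50 (.node 49 (.leaf 0xe0065)
 (.leaf 0x100006))
 (.node 51 (.leaf 0x270019)
 (.leaf 0x790077)))
 (.node 54 (.node 53 (.leaf 0x5e008200110005)
 (.leaf 0x120085))
 (.node 55 (.leaf 0x86006a)
 (.leaf 0x2a001e))))
 (.node 60 (.node 58 (.node 57 (.leaf 0x20043)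
 (.leaf 0x3a0084))
 (.node 59 (.leaf 0x170069)
 (.leaf 0x3c0020)))
 (.node 62 (.node 61 (.leaf 0x52000a)
 (.leaf 0x3e000c))
 (.node 63 (.leaf 0x7d0071)
 (.leaf 0x880004)))))))
 (.node 96 (.node 80 (.node 72 (.node 68 (.node 66 (.node 65 (.leaf 0x80002)
 (.leaf 0xb001f00030063))
 (.node 67 (.leaf 0x1500130039)
 (.leaf 0x7f0009003f)))
 (.node 70 (.node 69 (.leaf 0x170037001d0055)
 (.leaf 0x31003300090075))
 (.node 71 (.leaf 0x17001d0013)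
 (.leaf 0x1f00030013))))
 (.node 76 (.node 74 (.node 73 (.leaf 0x87003f007b)
 (.leaf 0x1b002100030083))
 (.node 75 (.leaf 0x31002500090081)
 (.leaf 0x3300090061)))
 (.node 78 (.node 77 (.leaf 0x1b0003001d)
 (.leaf 0x1b001f00030067))
 (.node 79 (.leaf 0xb00030029)
 (.leaf 0x2100030039)))))
 (.node 88 (.node 84 (.node 82 (.node 81 (.leaf 0x2500090089)
 (.leaf 0xb00210003004b))
 (.node 83 (.leaf 0x90006)
 (.leaf 0x720080001f0013)))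
 (.node 86 (.node 85 (.leaf 0x1d0003)
 (.leaf 0x900740012))
 (.node 87 (.leaf 0x7200800013)
 (.leaf 0x90031))))
 (.node 92 (.node 90 (.node 89 (.leaf 0x9)
 (.leaf 0x2))
 (.node 91 (.leaf 0x44)
 (.leaf 0x1d)))
 (.node 94 (.node 93 (.leaf 0x6b)
 (.leaf 0x2c))
 (.node 95 (.leaf 0x86)
 (.leaf 0x18))))))
 (.node 112 (.node 104 (.node 100 (.node 98 (.node 97 (.leaf 0x27)
 (.leaf 0xa))
 (.node 99 (.leaf 0x29)
 (.leaf 0x5d)))
 (.node 102 (.node 101 (.leaf 0x34)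
 (.leaf 0x4d))
 (.node 103 (.leaf 0x1a)
 (.leaf 0xe))))
 (.node 108 (.node 106 (.node 105 (.leaf 0x2b)
 (.leaf 0x16))
 (.node 107 (.leaf 0x1e)
 (.leaf 0x69)))
 (.node 110 (.node 109 (.leaf 0x13)
 (.leaf 0x63))
 (.node 111 (.leaf 0x67)
 (.leaf 0x85)))))
 (.node 120 (.node 116 (.node 114 (.node 113 (.leaf 0x3a)
 (.leaf 0x3d))
 (.node 115 (.leaf 0x36)
 (.leaf 0x20)))
 (.node 118 (.node 117 (.leaf 0x5f)
 (.leaf 0x4b))
 (.node 119 (.leaf 0x83)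
 (.leaf 0x6))))
 (.node 124 (.node 122 (.node 121 (.leaf 0x11)
 (.leaf 0x4))
 (.node 123 (.leaf 0x7a)
 (.leaf 0x3f)))
 (.node 126 (.node 125 (.leaf 0xc)
 (.leaf 0x48))
 (.node 127 (.leaf 0x46)
 (.leaf 0x0))))))))

noncomputable def prf : List ℕ := [
0x430004700006000310003e,
0xc0002f0004b000230002b000220003c00010000290001400037000510001a0000b,
0x170000500047000260002800043000320004a00007,
0x1c0005300039000160002b0002a00047000100004d000350002d0003100032000430004c0001b0002f0001f0003b000210002e0004a0001500004000540002600002,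
0x13000530003f0002300025000440002e0001e00002,
0x10000c00011000320003c000480004c0001700006000560002800004,
0x2b00014000480001a0003a000390004c00000,
0x1800000,
0x5600000,
0x600001,
0x4300001,
0x3900001,
0x2700001,
0x5600001,
0x2d00000,
0x5c00000,
0x130000800000,
0x3500000,
0x5300000,
0x4300000,
0x5c00000,
0x170002b0005000044000360004a0000d,
0x4000000,
0x6100000,
0x3200001,
0x3000001,
0x240001200001,
0x2b000130000b00002,
0x20000140000700003,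
0x3900002,
0x3600000,
0x4e00000,
0x5200000,
0x3700001,
0x6100001,
0x230001b0001300001,
0x2c0001c0000f00002,
0x4200045000560000200000,
0x600000c0000900000,
0x6400000,
0x5100001,
0x320001c00000,
0x3e00000,
0x670000f0000500000,
0x77000080000400001,
0x790001c0000000001]

end D56

theorem inst_56 : instB 0 [0, 2] [11, 28] [] D56.base D56.gads D56.names D56.cnf D56.db D56.prf = true := by decide +kernel

/-- no gadget has fewer than `2 R` new points. -/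
theorem p2_56 : D56.gads.all (fun g => Nat.ble (2 * g.R) g.gs.length) = true := by decide +kernel

/-- there is no configuration of this instance. -/
theorem no_56 {V : Type v} [DecidableEq V] {ι : Type u} [Fintype ι] {B : ι → Finset V}
    {Q : Finset V} {i j : ι} {x : ℕ → V} {D : ℕ → Finset V}
    (h : CfI B Q 0 x D i j [0, 2] [11, 28]) : False :=
  h.absurd (by decide) srt_nil inst_56

end Pool.Agent.Hyp6
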