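import Pool.Agent.Hyp6.Cb5

/-!
# HYP6: instance 60 of the list: n = 0, bounds [0, 0], inner blocks [1, 1, 3]

32 base clauses, 6 gadgets, 23 learned clauses.
-/

set_option autoImplicit false
set_option maxRecDepth 100000

namespace Pool.Agent.Hyp6

open Rup

universe u v

namespace D60

noncomputable def names : Tr :=
 (.node 15 (.node 7 (.node 3 (.node 1 (.node 0 (.leaf 66)
 (.leaf 2306))
 (.node 2 (.leaf 130)
 (.leaf 2113)))
 (.node 5 (.node 4 (.leaf 2114)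
 (.leaf 2307))
 (.node 6 (.leaf 65)
 (.leaf 129))))
 (.node 11 (.node 9 (.node 8 (.leaf 2305)
 (.leaf 258))
 (.node 10 (.leaf 2179)
 (.leaf 2178)))
 (.node 13 (.node 12 (.leaf 18497)
 (.leaf 68))
 (.node 14 (.leaf 67)
 (.leaf 2115)))))
 (.node 23 (.node 19 (.node 17 (.node 16 (.leaf 16513)
 (.leaf 18753))
 (.node 18 (.leaf 132)
 (.leaf 2177)))
 (.node 21 (.node 20 (.leaf 16705)
 (.leaf 18561))
 (.node 22 (.leaf 16449)
 (.leaf 257))))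
 (.node 27 (.node 25 (.node 24 (.leaf 16641)
 (.leaf 2308))
 (.node 26 (.leaf 18625)
 (.leaf 2180)))
 (.node 29 (.node 28 (.leaf 131)
 (.leaf 18689))
 (.node 30 (.leaf 16769)
 (.node 31 (.leaf 16577)
 (.leaf 18817)))))))

noncomputable def base : List Rs := [
.ab 1 3,
.ordE 0 8 3,
.deg 3 [1, 2],
.ordE 0 8 2,
.part [16, 40] [0, 0] [7] [],
.ordE 1 8 2,
.ordE 1 32 2,
.deg 4 [3, 0],
.part [40, 16] [0, 0] [7] [],
.ab 0 3,
.ab 0 4,
.hall [1] [3, 5],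
.ab 0 5,
.ordE 1 32 3,
.part [32, 24] [0, 0] [7] [],
.deg 5 [0, 3],
.deg 4 [0, 3],
.hall [0] [3, 4],
.deg 5 [1, 2],
.deg 3 [3, 0],
.ordE 0 8 1,
.deg 4 [1, 2],
.ordE 0 16 2,
.ordE 1 16 2,
.ab 1 5,
.ab 1 4,
.part [48, 8] [0, 0] [7] [],
.part [24, 32] [0, 0] [7] [],
.part [8, 48] [0, 0] [7] [],
.ordE 1 16 3,
.ordE 0 16 3,
.ordE 1 32 1]

noncomputable def gads : List Gt := [
⟨1, [⟨8, 2, []⟩, ⟨32, 2, []⟩], [3, 3, 3], 1, [(40, 1)]⟩,
⟨0, [⟨8, 2, []⟩, ⟨32, 2, []⟩], [3, 3, 3], 1, [(40, 1)]⟩,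
⟨1, [⟨8, 2, []⟩, ⟨16, 2, []⟩], [3, 3, 3], 1, [(24, 1)]⟩,
⟨0, [⟨8, 2, []⟩, ⟨16, 2, []⟩], [3, 3, 3], 1, [(24, 1)]⟩,
⟨1, [⟨16, 2, []⟩, ⟨32, 2, []⟩], [3, 3, 3], 1, [(48, 1)]⟩,
⟨0, [⟨16, 2, []⟩, ⟨32, 2, []⟩], [3, 3, 3], 1, [(48, 1)]⟩]

noncomputable def cnf : List (List ℕ) := [
[7, 25],
[27, 28],
[0, 30],
[29, 0],
[32, 34],
[31, 8],
[11, 2],
[36, 38],
[40, 42],
[13, 45],
[15, 33],
[6, 16],
[47, 49],
[51, 10],
[48, 52],
[46, 50],
[14, 54],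
[12, 14],
[18, 10],
[26, 6],
[1, 12],
[4, 20],
[57, 4],
[21, 22],
[17, 59],
[39, 43],
[60, 24],
[62, 58],
[44, 64],
[55, 20],
[37, 56],
[3, 16],
[9, 3, 35],
[1, 19, 41],
[9, 23, 53],
[1, 5, 63],
[23, 3, 65],
[5, 19, 61]]

noncomputable def db : Tr :=
 (.node 30 (.node 15 (.node 7 (.node 3 (.node 1 (.leaf 0x1b0009)
 (.node 2 (.leaf 0x1e001d)
 (.leaf 0x200002)))
 (.node 5 (.node 4 (.leaf 0x2001f)
 (.leaf 0x240022))
 (.node 6 (.leaf 0xa0021)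
 (.leaf 0x4000d))))
 (.node 11 (.node 9 (.node 8 (.leaf 0x280026)
 (.leaf 0x2c002a))
 (.node 10 (.leaf 0x2f000f)
 (.leaf 0x230011)))
 (.node 13 (.node 12 (.leaf 0x120008)
 (.leaf 0x330031))
 (.node 14 (.leaf 0xc0035)
 (.leaf 0x360032)))))
 (.node 22 (.node 18 (.node 16 (.leaf 0x340030)
 (.node 17 (.leaf 0x380010)
 (.leaf 0x10000e)))
 (.node 20 (.node 19 (.leaf 0xc0014)
 (.leaf 0x8001c))
 (.node 21 (.leaf 0xe0003)
 (.leaf 0x160006))))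
 (.node 26 (.node 24 (.node 23 (.leaf 0x6003b)
 (.leaf 0x180017))
 (.node 25 (.leaf 0x3d0013)
 (.leaf 0x2d0029)))
 (.node 28 (.node 27 (.leaf 0x1a003e)
 (.leaf 0x3c0040))
 (.node 29 (.leaf 0x42002e)
 (.leaf 0x160039))))))
 (.node 45 (.node 37 (.node 33 (.node 31 (.leaf 0x3a0027)
 (.node 32 (.leaf 0x120005)
 (.leaf 0x250005000b)))
 (.node 35 (.node 34 (.leaf 0x2b00150003)
 (.leaf 0x370019000b))
 (.node 36 (.leaf 0x4100070003)
 (.leaf 0x4300050019))))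
 (.node 41 (.node 39 (.node 38 (.leaf 0x3f00150007)
 (.leaf 0x3f000c))
 (.node 40 (.leaf 0x4300410005)
 (.leaf 0x430041)))
 (.node 43 (.node 42 (.leaf 0x12)
 (.leaf 0x3d))
 (.node 44 (.leaf 0x40)
 (.leaf 0x43)))))
 (.node 53 (.node 49 (.node 47 (.node 46 (.leaf 0x2e)
 (.leaf 0xf))
 (.node 48 (.leaf 0x10)
 (.leaf 0x3)))
 (.node 51 (.node 50 (.leaf 0x23)
 (.leaf 0x20))
 (.node 52 (.leaf 0x1f)
 (.leaf 0x24))))
 (.node 57 (.node 55 (.node 54 (.leaf 0xa)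
 (.leaf 0x1d))
 (.node 56 (.leaf 0x5)
 (.leaf 0x8)))
 (.node 59 (.node 58 (.leaf 0xd)
 (.leaf 0x1b))
 (.node 60 (.leaf 0x3f)
 (.leaf 0x0)))))))

noncomputable def prf : List ℕ := [
0x40001d000230000c000200001e00003000070000e000170000f000100001900000000160001300018,
0x600022000210001c00024000160000300009000110000f00002,
0x200000e000090001f000110000600004000240002600014000270000d00001000150002100000,
0x20000e0002200028000090001d,
0x1100000,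
0xf00000,
0x300000,
0x1000000,
0x2400000,
0x1d00000,
0x1b00001,
0x2600001,
0x2f00001,
0x2f00002,
0x2f00002,
0x2f00002,
0x3400002,
0x160000200001,
0x2400001,
0x3200001,
0x3900001,
0x1400001,
0x210000100000]

end D60

theorem inst_60 : instB 0 [0, 0] [1, 1, 3] [] D60.base D60.gads D60.names D60.cnf D60.db D60.prf = true := by decide +kernel

/-- no gadget has fewer than `2 R` new points. -/
theorem p2_60 : D60.gads.all (fun g => Nat.ble (2 * g.R) g.gs.length) = true := by decide +kernel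

/-- there is no configuration of this instance. -/
theorem no_60 {V : Type v} [DecidableEq V] {ι : Type u} [Fintype ι] {B : ι → Finset V}
    {Q : Finset V} {i j : ι} {x : ℕ → V} {D : ℕ → Finset V}
    (h : CfI B Q 0 x D i j [0, 0] [1, 1, 3]) : False :=
  h.absurd (by decide) srt_nil inst_60

end Pool.Agent.Hyp6
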