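import Pool.Agent.Hyp6.Cb5

/-!
# HYP6: instance 61 of the list: n = 0, bounds [0, 0], inner blocks [1, 1, 6]

40 base clauses, 14 gadgets, 34 learned clauses.
-/

set_option autoImplicit false
set_option maxRecDepth 100000

namespace Pool.Agent.Hyp6

open Rup

universe u v

namespace D61

noncomputable def names : Tr :=
 (.node 21 (.node 10 (.node 4 (.node 1 (.node 0 (.leaf 66)
 (.leaf 130))
 (.node 2 (.leaf 2114)
 (.node 3 (.leaf 258)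
 (.leaf 18817))))
 (.node 7 (.node 5 (.leaf 18)
 (.node 6 (.leaf 2178)
 (.leaf 18753)))
 (.node 8 (.leaf 34)
 (.node 9 (.leaf 2306)
 (.leaf 131)))))
 (.node 15 (.node 12 (.node 11 (.leaf 2177)
 (.leaf 2113))
 (.node 13 (.leaf 2082)
 (.node 14 (.leaf 18625)
 (.leaf 9))))
 (.node 18 (.node 16 (.leaf 132)
 (.node 17 (.leaf 16449)
 (.leaf 2115)))
 (.node 19 (.leaf 65)
 (.node 20 (.leaf 129)
 (.leaf 2066))))))
 (.node 32 (.node 26 (.node 23 (.node 22 (.leaf 17)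
 (.leaf 16401))
 (.node 24 (.leaf 16465)
 (.node 25 (.leaf 18561)
 (.leaf 2179))))
 (.node 29 (.node 27 (.leaf 16769)
 (.node 28 (.leaf 18497)
 (.leaf 16481)))
 (.node 30 (.leaf 2305)
 (.node 31 (.leaf 18689)
 (.leaf 16513)))))
 (.node 38 (.node 35 (.node 33 (.leaf 67)
 (.node 34 (.leaf 16545)
 (.leaf 16577)))
 (.node 36 (.leaf 16673)
 (.node 37 (.leaf 16393)
 (.leaf 18481))))
 (.node 41 (.node 39 (.leaf 16529)
 (.node 40 (.leaf 18473)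
 (.leaf 16657)))
 (.node 42 (.leaf 2307)
 (.node 43 (.leaf 16705)
 (.leaf 2058)))))))

noncomputable def base : List Rs := [
.ordE 0 16 3,
.part [8, 48] [0, 0] [7] [],
.deg 3 [1, 2],
.hall [0] [3, 4],
.ab 0 3,
.deg 1 [1, 1],
.ab 0 1,
.deg 4 [3, 0],
.part [10, 48] [0, 0] [5] [],
.ab 1 4,
.ordE 1 16 2,
.ordE 1 8 1,
.part [48, 8] [0, 0] [7] [],
.part [12, 48] [0, 0] [3] [],
.ab 1 5,
.part [16, 40] [0, 0] [7] [],
.ab 1 3,
.deg 3 [2, 1],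
.hall [1] [3, 4],
.part [20, 40] [0, 0] [3] [],
.ab 0 4,
.part [24, 32] [0, 0] [7] [],
.deg 2 [1, 1],
.part [36, 24] [0, 0] [3] [],
.deg 4 [2, 1],
.ab 0 0,
.ordE 0 8 2,
.part [1, 6] [0, 0] [56] [],
.ordE 0 16 2,
.ordE 1 32 1,
.deg 4 [1, 2],
.hall [0] [0, 1],
.part [18, 40] [0, 0] [5] [],
.part [2, 5] [0, 0] [56] [],
.part [34, 24] [0, 0] [5] [],
.ordE 1 32 2,
.deg 5 [1, 2],
.ordE 1 8 2,
.part [40, 16] [0, 0] [7] [],
.deg 0 [0, 1]]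

noncomputable def gads : List Gt := [
⟨0, [⟨2, 2, []⟩, ⟨32, 2, []⟩], [3, 3, 3], 1, [(34, 1)]⟩,
⟨1, [⟨2, 2, []⟩, ⟨4, 2, []⟩], [3, 3, 3], 1, [(6, 1)]⟩,
⟨0, [⟨2, 2, []⟩, ⟨8, 2, []⟩], [3, 3, 3], 1, [(10, 1)]⟩,
⟨0, [⟨4, 2, []⟩, ⟨8, 2, []⟩], [3, 3, 3], 1, [(12, 1)]⟩,
⟨1, [⟨8, 2, []⟩, ⟨32, 2, []⟩], [3, 3, 3], 1, [(40, 1)]⟩,
⟨0, [⟨4, 2, []⟩, ⟨32, 2, []⟩], [3, 3, 3], 1, [(36, 1)]⟩,
⟨1, [⟨8, 2, []⟩, ⟨16, 2, []⟩], [3, 3, 3], 1, [(24, 1)]⟩,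
⟨0, [⟨8, 2, []⟩, ⟨32, 2, []⟩], [3, 3, 3], 1, [(40, 1)]⟩,
⟨1, [⟨16, 2, []⟩, ⟨32, 2, []⟩], [3, 3, 3], 1, [(48, 1)]⟩,
⟨0, [⟨16, 2, []⟩, ⟨32, 2, []⟩], [3, 3, 3], 1, [(48, 1)]⟩,
⟨1, [⟨1, 2, []⟩, ⟨4, 2, []⟩], [3, 3, 3], 1, [(5, 1)]⟩,
⟨0, [⟨8, 2, []⟩, ⟨16, 2, []⟩], [3, 3, 3], 1, [(24, 1)]⟩,
⟨0, [⟨2, 2, []⟩, ⟨16, 2, []⟩], [3, 3, 3], 1, [(18, 1)]⟩,
⟨0, [⟨4, 2, []⟩, ⟨16, 2, []⟩], [3, 3, 3], 1, [(20, 1)]⟩]

noncomputable def cnf : List (List ℕ) := [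
[33, 20],
[34, 8],
[0, 36],
[38, 40],
[39, 35],
[10, 42],
[45, 47],
[32, 22],
[48, 8],
[23, 51],
[53, 12],
[5, 24],
[54, 56],
[58, 8],
[61, 63],
[64, 14],
[25, 57],
[66, 4],
[24, 22],
[68, 14],
[41, 65],
[70, 62],
[16, 26],
[72, 28],
[20, 12],
[31, 75],
[67, 0],
[74, 76],
[21, 2],
[19, 60],
[2, 52],
[30, 44],
[78, 14],
[46, 80],
[82, 28],
[85, 18],
[6, 84],
[37, 4],
[86, 50],
[30, 88],
[11, 7, 83],
[43, 27, 77],
[11, 1, 49],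
[17, 1, 59],
[5, 19, 15],
[17, 7, 73],
[5, 13, 29],
[1, 7, 87],
[13, 19, 9],
[3, 7, 55],
[89, 27, 81],
[1, 3, 71],
[11, 3, 79],
[17, 3, 69]]

noncomputable def db : Tr :=
 (.node 44 (.node 22 (.node 11 (.node 5 (.node 2 (.node 1 (.leaf 0x160023)
 (.leaf 0xa0024))
 (.node 3 (.leaf 0x260002)
 (.node 4 (.leaf 0x2a0028)
 (.leaf 0x250029))))
 (.node 8 (.node 6 (.leaf 0x2c000c)
 (.node 7 (.leaf 0x31002f)
 (.leaf 0x180022)))
 (.node 9 (.leaf 0xa0032)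
 (.node 10 (.leaf 0x350019)
 (.leaf 0xe0037)))))
 (.node 16 (.node 13 (.node 12 (.leaf 0x1a0007)
 (.leaf 0x3a0038))
 (.node 14 (.leaf 0xa003c)
 (.node 15 (.leaf 0x41003f)
 (.leaf 0x100042))))
 (.node 19 (.node 17 (.leaf 0x3b001b)
 (.node 18 (.leaf 0x60044)
 (.leaf 0x18001a)))
 (.node 20 (.leaf 0x100046)
 (.node 21 (.leaf 0x43002b)
 (.leaf 0x400048))))))
 (.node 33 (.node 27 (.node 24 (.node 23 (.leaf 0x1c0012)
 (.leaf 0x1e004a))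
 (.node 25 (.leaf 0xe0016)
 (.node 26 (.leaf 0x4d0021)
 (.leaf 0x20045))))
 (.node 30 (.node 28 (.leaf 0x4e004c)
 (.node 29 (.leaf 0x40017)
 (.leaf 0x3e0015)))
 (.node 31 (.leaf 0x360004)
 (.node 32 (.leaf 0x2e0020)
 (.leaf 0x100050)))))
 (.node 38 (.node 35 (.node 34 (.leaf 0x520030)
 (.leaf 0x1e0054))
 (.node 36 (.leaf 0x140057)
 (.node 37 (.leaf 0x560008)
 (.leaf 0x60027))))
 (.node 41 (.node 39 (.leaf 0x340058)
 (.node 40 (.leaf 0x5a0020)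
 (.leaf 0x550009000d)))
 (.node 42 (.leaf 0x4f001d002d)
 (.node 43 (.leaf 0x330003000d)
 (.leaf 0x3d00030013)))))))
 (.node 66 (.node 55 (.node 49 (.node 46 (.node 45 (.leaf 0x1100150007)
 (.leaf 0x4b00090013))
 (.node 47 (.leaf 0x1f000f0007)
 (.node 48 (.leaf 0x5900090003)
 (.leaf 0xb0015000f))))
 (.node 52 (.node 50 (.leaf 0x3900090005)
 (.node 51 (.leaf 0x53001d005b)
 (.leaf 0x4900050003)))
 (.node 53 (.leaf 0x510005000d)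
 (.node 54 (.leaf 0x4700050013)
 (.leaf 0x5b00590009)))))
 (.node 60 (.node 57 (.node 56 (.leaf 0x15004f000a)
 (.leaf 0x15004f))
 (.node 58 (.leaf 0x1500130010)
 (.node 59 (.leaf 0x5b0015)
 (.leaf 0x5b0009))))
 (.node 63 (.node 61 (.leaf 0x5b)
 (.node 62 (.leaf 0x20)
 (.leaf 0x4d)))
 (.node 64 (.leaf 0x4e)
 (.node 65 (.leaf 0x15)
 (.leaf 0x57))))))
 (.node 77 (.node 71 (.node 68 (.node 67 (.leaf 0x8)
 (.leaf 0x1a))
 (.node 69 (.leaf 0x3b)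
 (.node 70 (.leaf 0x38)
 (.leaf 0x5))))
 (.node 74 (.node 72 (.leaf 0x17)
 (.node 73 (.leaf 0x23)
 (.leaf 0xe)))
 (.node 75 (.leaf 0x18)
 (.node 76 (.leaf 0x35)
 (.leaf 0x58)))))
 (.node 82 (.node 79 (.node 78 (.leaf 0x3)
 (.leaf 0x26))
 (.node 80 (.leaf 0x6)
 (.node 81 (.leaf 0x1f)
 (.leaf 0x4a))))
 (.node 85 (.node 83 (.leaf 0x54)
 (.node 84 (.leaf 0x13)
 (.leaf 0xd)))
 (.node 86 (.leaf 0x1c)
 (.node 87 (.leaf 0x2c)
 (.leaf 0x0))))))))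

noncomputable def prf : List ℕ := [
0x160001c0002f0001a000140000c00003000300001f0000d00008000130001e000070001d000190000400029000250002a000100003300006,
0xd00020000310000b0000c0001c000250000a00027000220003300032000290002e00035,
0xe0003200021000030000200017000240000b000120003500004000190002d000070000000022000290001a,
0x80003700020000340001c0003500003000240002500029,
0x9000210002c0001d0000e000060001f000280000d00000000230000700018000330001a000200001e00001000240002b0001c,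
0x90002e0001e0002a0003a0002800033000310001400004,
0x170001800001,
0x1500000,
0x2400000,
0x2300000,
0x700000,
0x1d00000,
0x1d00000,
0x130001c000280003900031000300003700000,
0x3300000,
0x3800000,
0x140000300000,
0x2a00000,
0x4700000,
0x3000001,
0x4200001,
0x4100000,
0x2500000,
0x1d0000a00000,
0x4b00000,
0x2900000,
0x210000600000,
0x3900000,
0x2f00001,
0x250001000001,
0x2b0001100001,
0x3e00001,
0x5000001,
0x2d000170000100000]

end D61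

theorem inst_61 : instB 0 [0, 0] [1, 1, 6] [] D61.base D61.gads D61.names D61.cnf D61.db D61.prf = true := by decide +kernel

/-- no gadget has fewer than `2 R` new points. -/
theorem p2_61 : D61.gads.all (fun g => Nat.ble (2 * g.R) g.gs.length) = true := by decide +kernel

/-- there is no configuration of this instance. -/
theorem no_61 {V : Type v} [DecidableEq V] {ι : Type u} [Fintype ι] {B : ι → Finset V}
    {Q : Finset V} {i j : ι} {x : ℕ → V} {D : ℕ → Finset V}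
    (h : CfI B Q 0 x D i j [0, 0] [1, 1, 6]) : False :=
  h.absurd (by decide) srt_nil inst_61

end Pool.Agent.Hyp6
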