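import Pool.Agent.Hyp6.Cb5

/-!
# HYP6: instance 62 of the list: n = 0, bounds [0, 0], inner blocks [1, 1, 7]

30 base clauses, 6 gadgets, 26 learned clauses.
-/

set_option autoImplicit false
set_option maxRecDepth 100000

namespace Pool.Agent.Hyp6

open Rup

universe u v

namespace D62

noncomputable def names : Tr :=
 (.node 14 (.node 6 (.node 2 (.node 0 (.leaf 66)
 (.node 1 (.leaf 2306)
 (.leaf 2114)))
 (.node 4 (.node 3 (.leaf 2178)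
 (.leaf 131))
 (.node 5 (.leaf 130)
 (.leaf 2307))))
 (.node 10 (.node 8 (.node 7 (.leaf 2177)
 (.leaf 258))
 (.node 9 (.leaf 2113)
 (.leaf 65)))
 (.node 12 (.node 11 (.leaf 129)
 (.leaf 2115))
 (.node 13 (.leaf 257)
 (.leaf 2308)))))
 (.node 22 (.node 18 (.node 16 (.node 15 (.leaf 16577)
 (.leaf 18689))
 (.node 17 (.leaf 18561)
 (.leaf 16641)))
 (.node 20 (.node 19 (.leaf 18625)
 (.leaf 18497))
 (.node 21 (.leaf 2305)
 (.leaf 16449))))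
 (.node 26 (.node 24 (.node 23 (.leaf 2180)
 (.leaf 16769))
 (.node 25 (.leaf 132)
 (.leaf 2179)))
 (.node 28 (.node 27 (.leaf 16513)
 (.leaf 18817))
 (.node 29 (.leaf 16705)
 (.leaf 18753))))))

noncomputable def base : List Rs := [
.ordE 0 16 2,
.deg 3 [1, 2],
.ordE 1 32 2,
.ordE 1 8 2,
.deg 5 [0, 3],
.part [24, 32] [0, 0] [7] [],
.ab 1 4,
.deg 5 [1, 2],
.part [32, 24] [0, 0] [7] [],
.ab 1 3,
.ab 0 5,
.ordE 1 32 3,
.hall [1] [3, 4],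
.ab 1 5,
.ab 0 3,
.deg 4 [0, 3],
.part [48, 8] [0, 0] [7] [],
.ordE 0 8 1,
.deg 4 [2, 1],
.ordE 0 16 3,
.ordE 1 16 2,
.hall [0] [3, 4],
.ab 0 4,
.part [8, 48] [0, 0] [7] [],
.part [40, 16] [0, 0] [7] [],
.part [16, 40] [0, 0] [7] [],
.ordE 1 16 3,
.deg 4 [3, 0],
.ordE 1 8 1,
.ordE 1 32 1]

noncomputable def gads : List Gt := [
⟨1, [⟨8, 2, []⟩, ⟨16, 2, []⟩], [3, 3, 3], 1, [(24, 1)]⟩,
⟨0, [⟨16, 2, []⟩, ⟨32, 2, []⟩], [3, 3, 3], 1, [(48, 1)]⟩,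
⟨0, [⟨8, 2, []⟩, ⟨32, 2, []⟩], [3, 3, 3], 1, [(40, 1)]⟩,
⟨0, [⟨8, 2, []⟩, ⟨16, 2, []⟩], [3, 3, 3], 1, [(24, 1)]⟩,
⟨1, [⟨16, 2, []⟩, ⟨32, 2, []⟩], [3, 3, 3], 1, [(48, 1)]⟩,
⟨1, [⟨8, 2, []⟩, ⟨32, 2, []⟩], [3, 3, 3], 1, [(40, 1)]⟩]

noncomputable def cnf : List (List ℕ) := [
[9, 10],
[0, 24],
[13, 2],
[25, 4],
[26, 28],
[30, 32],
[15, 35],
[16, 12],
[36, 38],
[19, 41],
[27, 37],
[29, 12],
[18, 14],
[43, 33],
[21, 45],
[22, 46],
[48, 40],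
[1, 20],
[8, 6],
[51, 8],
[53, 6],
[20, 22],
[23, 55],
[44, 56],
[58, 34],
[54, 60],
[47, 52],
[50, 14],
[5, 18],
[3, 42],
[5, 7, 39],
[11, 17, 49],
[1, 17, 59],
[1, 11, 31],
[7, 3, 57],
[5, 3, 61]]

noncomputable def db : Tr :=
 (.node 31 (.node 15 (.node 7 (.node 3 (.node 1 (.leaf 0xc000b)
 (.node 2 (.leaf 0x1a0002)
 (.leaf 0x4000f)))
 (.node 5 (.node 4 (.leaf 0x6001b)
 (.leaf 0x1e001c))
 (.node 6 (.leaf 0x220020)
 (.leaf 0x250011))))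
 (.node 11 (.node 9 (.node 8 (.leaf 0xe0012)
 (.leaf 0x280026))
 (.node 10 (.leaf 0x2b0015)
 (.leaf 0x27001d)))
 (.node 13 (.node 12 (.leaf 0xe001f)
 (.leaf 0x100014))
 (.node 14 (.leaf 0x23002d)
 (.leaf 0x2f0017)))))
 (.node 23 (.node 19 (.node 17 (.node 16 (.leaf 0x300018)
 (.leaf 0x2a0032))
 (.node 18 (.leaf 0x160003)
 (.leaf 0x8000a)))
 (.node 21 (.node 20 (.leaf 0xa0035)
 (.leaf 0x80037))
 (.node 22 (.leaf 0x180016)
 (.leaf 0x390019))))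
 (.node 27 (.node 25 (.node 24 (.leaf 0x3a002e)
 (.leaf 0x24003c))
 (.node 26 (.leaf 0x3e0038)
 (.leaf 0x360031)))
 (.node 29 (.node 28 (.leaf 0x100034)
 (.leaf 0x140007))
 (.node 30 (.leaf 0x2c0005)
 (.leaf 0x2900090007))))))
 (.node 46 (.node 38 (.node 34 (.node 32 (.leaf 0x330013000d)
 (.node 33 (.leaf 0x3d00130003)
 (.leaf 0x21000d0003)))
 (.node 36 (.node 35 (.leaf 0x3b00050009)
 (.leaf 0x3f00050007))
 (.node 37 (.leaf 0x3d003b0009)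
 (.leaf 0x3d000d0013))))
 (.node 42 (.node 40 (.node 39 (.leaf 0x3f003d000d)
 (.leaf 0x3f003d))
 (.node 41 (.leaf 0x3f)
 (.leaf 0x38)))
 (.node 44 (.node 43 (.leaf 0x19)
 (.leaf 0x30))
 (.node 45 (.leaf 0x16)
 (.leaf 0x36)))))
 (.node 54 (.node 50 (.node 48 (.node 47 (.leaf 0x2f)
 (.leaf 0x8))
 (.node 49 (.leaf 0x3a)
 (.leaf 0x3d)))
 (.node 52 (.node 51 (.leaf 0x5)
 (.leaf 0x24))
 (.node 53 (.leaf 0xf)
 (.leaf 0x11))))
 (.node 58 (.node 56 (.node 55 (.leaf 0x12)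
 (.leaf 0x14))
 (.node 57 (.leaf 0x34)
 (.leaf 0x2b)))
 (.node 60 (.node 59 (.leaf 0xa)
 (.leaf 0x32))
 (.node 61 (.leaf 0xc)
 (.leaf 0x0)))))))

noncomputable def prf : List ℕ := [
0x50001b0002000019000220001f00003000180001c0002100001,
0x80001b0002100014000230000500004,
0x4000240002000022000180000200008000230001e00000,
0x220001b0001c000240001e0000300008000230002500015000180000f00002000140002600000,
0x60002600022000240001a000040000a0002500020000080002700017000140001e0000c0001b000210000f00000,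
0xf00000,
0x1300000,
0x1b00000,
0x1600001,
0x1200001,
0x1f00001,
0x1a00001,
0x1800001,
0xc0000100000,
0xf0000200001,
0x1a00001,
0x3100001,
0x2e00001,
0x2e00001,
0x2a00001,
0x1c00002,
0x2f00001,
0x2600001,
0x2a00001,
0x3b00001,
0x1d000060000000001]

end D62

theorem inst_62 : instB 0 [0, 0] [1, 1, 7] [] D62.base D62.gads D62.names D62.cnf D62.db D62.prf = true := by decide +kernel

/-- no gadget has fewer than `2 R` new points. -/
theorem p2_62 : D62.gads.all (fun g => Nat.ble (2 * g.R) g.gs.length) = true := by decide +kernel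

/-- there is no configuration of this instance. -/
theorem no_62 {V : Type v} [DecidableEq V] {ι : Type u} [Fintype ι] {B : ι → Finset V}
    {Q : Finset V} {i j : ι} {x : ℕ → V} {D : ℕ → Finset V}
    (h : CfI B Q 0 x D i j [0, 0] [1, 1, 7]) : False :=
  h.absurd (by decide) srt_nil inst_62

end Pool.Agent.Hyp6
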