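import Pool.Agent.Hyp6.Cb5

/-!
# HYP6: instance 64 of the list: n = 0, bounds [0, 0], inner blocks [1, 1, 9]

29 base clauses, 6 gadgets, 24 learned clauses.
-/

set_option autoImplicit false
set_option maxRecDepth 100000

namespace Pool.Agent.Hyp6

open Rup

universe u v

namespace D64

noncomputable def names : Tr :=
 (.node 14 (.node 6 (.node 2 (.node 0 (.leaf 2114)
 (.node 1 (.leaf 2306)
 (.leaf 130)))
 (.node 4 (.node 3 (.leaf 129)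
 (.leaf 257))
 (.node 5 (.leaf 131)
 (.leaf 2177))))
 (.node 10 (.node 8 (.node 7 (.leaf 2305)
 (.leaf 66))
 (.node 9 (.leaf 2178)
 (.leaf 258)))
 (.node 12 (.node 11 (.leaf 132)
 (.leaf 2113))
 (.node 13 (.leaf 18497)
 (.leaf 16769)))))
 (.node 21 (.node 17 (.node 15 (.leaf 16513)
 (.node 16 (.leaf 16641)
 (.leaf 2115)))
 (.node 19 (.node 18 (.leaf 65)
 (.leaf 18625))
 (.node 20 (.leaf 18689)
 (.leaf 2308))))
 (.node 25 (.node 23 (.node 22 (.leaf 16449)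
 (.leaf 18817))
 (.node 24 (.leaf 18753)
 (.leaf 259)))
 (.node 27 (.node 26 (.leaf 16705)
 (.leaf 18561))
 (.node 28 (.leaf 16577)
 (.leaf 2307))))))

noncomputable def base : List Rs := [
.hall [0] [4, 5],
.ordE 0 16 3,
.ab 1 3,
.part [48, 8] [0, 0] [7] [],
.hall [1] [4, 5],
.ab 0 4,
.deg 3 [1, 1],
.deg 4 [2, 1],
.ab 0 5,
.ordE 1 8 2,
.ordE 0 16 2,
.deg 3 [0, 2],
.part [32, 24] [0, 0] [7] [],
.ab 1 5,
.deg 5 [0, 3],
.part [8, 48] [0, 0] [7] [],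
.ordE 0 16 1,
.part [16, 40] [0, 0] [7] [],
.ordE 0 32 2,
.ordE 1 32 1,
.part [40, 16] [0, 0] [7] [],
.deg 4 [3, 0],
.ab 1 4,
.deg 5 [2, 1],
.part [24, 32] [0, 0] [7] [],
.ordE 1 32 2,
.ab 0 3,
.ordE 1 8 1,
.ordE 1 32 3]

noncomputable def gads : List Gt := [
⟨0, [⟨16, 2, []⟩, ⟨32, 2, []⟩], [3, 3, 3], 1, [(48, 1)]⟩,
⟨0, [⟨8, 2, []⟩, ⟨32, 2, []⟩], [3, 3, 3], 1, [(40, 1)]⟩,
⟨1, [⟨8, 2, []⟩, ⟨16, 2, []⟩], [3, 3, 3], 1, [(24, 1)]⟩,
⟨1, [⟨8, 2, []⟩, ⟨32, 2, []⟩], [3, 3, 3], 1, [(40, 1)]⟩,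
⟨1, [⟨16, 2, []⟩, ⟨32, 2, []⟩], [3, 3, 3], 1, [(48, 1)]⟩,
⟨0, [⟨8, 2, []⟩, ⟨16, 2, []⟩], [3, 3, 3], 1, [(24, 1)]⟩]

noncomputable def cnf : List (List ℕ) := [
[6, 8],
[23, 10],
[25, 27],
[28, 26],
[12, 14],
[7, 31],
[16, 0],
[10, 18],
[9, 33],
[35, 0],
[11, 4],
[36, 34],
[32, 38],
[15, 41],
[8, 42],
[44, 46],
[5, 6],
[30, 48],
[51, 20],
[3, 14],
[52, 54],
[22, 12],
[13, 55],
[50, 2],
[56, 40],
[59, 2],
[37, 45],
[1, 24],
[43, 58],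
[5, 21, 29],
[17, 21, 53],
[1, 19, 39],
[1, 3, 49],
[19, 3, 47],
[17, 5, 57]]

noncomputable def db : Tr :=
 (.node 29 (.node 14 (.node 7 (.node 3 (.node 1 (.leaf 0xa0008)
 (.node 2 (.leaf 0xc0019)
 (.leaf 0x1d001b)))
 (.node 5 (.node 4 (.leaf 0x1c001e)
 (.leaf 0x10000e))
 (.node 6 (.leaf 0x210009)
 (.leaf 0x20012))))
 (.node 10 (.node 8 (.leaf 0x14000c)
 (.node 9 (.leaf 0x23000b)
 (.leaf 0x20025)))
 (.node 12 (.node 11 (.leaf 0x6000d)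
 (.leaf 0x240026))
 (.node 13 (.leaf 0x280022)
 (.leaf 0x2b0011)))))
 (.node 21 (.node 17 (.node 15 (.leaf 0x2c000a)
 (.node 16 (.leaf 0x30002e)
 (.leaf 0x80007)))
 (.node 19 (.node 18 (.leaf 0x320020)
 (.leaf 0x160035))
 (.node 20 (.leaf 0x100005)
 (.leaf 0x380036))))
 (.node 25 (.node 23 (.node 22 (.leaf 0xe0018)
 (.leaf 0x39000f))
 (.node 24 (.leaf 0x40034)
 (.leaf 0x2a003a)))
 (.node 27 (.node 26 (.leaf 0x4003d)
 (.leaf 0x2f0027))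
 (.node 28 (.leaf 0x1a0003)
 (.leaf 0x3c002d))))))
 (.node 44 (.node 36 (.node 32 (.node 30 (.leaf 0x1f00170007)
 (.node 31 (.leaf 0x3700170013)
 (.leaf 0x2900150003)))
 (.node 34 (.node 33 (.leaf 0x3300050003)
 (.leaf 0x3100050015))
 (.node 35 (.leaf 0x3b00070013)
 (.leaf 0x50007))))
 (.node 40 (.node 38 (.node 37 (.leaf 0x50015)
 (.leaf 0x5))
 (.node 39 (.leaf 0x34)
 (.leaf 0x3d)))
 (.node 42 (.node 41 (.leaf 0x16)
 (.leaf 0x2d))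
 (.node 43 (.leaf 0xa)
 (.leaf 0x23)))))
 (.node 51 (.node 47 (.node 45 (.leaf 0x28)
 (.node 46 (.leaf 0xc)
 (.leaf 0x6)))
 (.node 49 (.node 48 (.leaf 0x1f)
 (.leaf 0x1c))
 (.node 50 (.leaf 0x1b)
 (.leaf 0x3))))
 (.node 55 (.node 53 (.node 52 (.leaf 0x12)
 (.leaf 0x3b))
 (.node 54 (.leaf 0x37)
 (.leaf 0x2a)))
 (.node 57 (.node 56 (.leaf 0x38)
 (.leaf 0x11))
 (.node 58 (.leaf 0xf)
 (.leaf 0x0)))))))

noncomputable def prf : List ℕ := [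
0x2000110001c0001d00000000120000a000150000f,
0x230001b0001e000170001200004000030001a00018000090001400002,
0x1d0001a00001,
0xe00000,
0xd00001,
0x1500001,
0xc00001,
0x1b00000,
0x2200000,
0x1f00000,
0xe0001800026000160000d00017000250002b0000400000,
0x2300000,
0x110000600000,
0x2c00000,
0x2e00000,
0x1600000,
0x2c00000,
0x110000500000,
0x160000c00001,
0x1d00001,
0x2200001,
0x2a00001,
0x2200001,
0x350000100000]

end D64

theorem inst_64 : instB 0 [0, 0] [1, 1, 9] [] D64.base D64.gads D64.names D64.cnf D64.db D64.prf = true := by decide +kernel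

/-- no gadget has fewer than `2 R` new points. -/
theorem p2_64 : D64.gads.all (fun g => Nat.ble (2 * g.R) g.gs.length) = true := by decide +kernel

/-- there is no configuration of this instance. -/
theorem no_64 {V : Type v} [DecidableEq V] {ι : Type u} [Fintype ι] {B : ι → Finset V}
    {Q : Finset V} {i j : ι} {x : ℕ → V} {D : ℕ → Finset V}
    (h : CfI B Q 0 x D i j [0, 0] [1, 1, 9]) : False :=
  h.absurd (by decide) srt_nil inst_64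

end Pool.Agent.Hyp6
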