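import Pool.Agent.Hyp6.Cb5

/-!
# HYP6: instance 65 of the list: n = 0, bounds [0, 0], inner blocks [1, 1, 10]

30 base clauses, 6 gadgets, 24 learned clauses.
-/

set_option autoImplicit false
set_option maxRecDepth 100000

namespace Pool.Agent.Hyp6

open Rup

universe u v

namespace D65

noncomputable def names : Tr :=
 (.node 14 (.node 6 (.node 2 (.node 0 (.leaf 66)
 (.node 1 (.leaf 2178)
 (.leaf 2306)))
 (.node 4 (.node 3 (.leaf 131)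
 (.leaf 130))
 (.node 5 (.leaf 2114)
 (.leaf 2113))))
 (.node 10 (.node 8 (.node 7 (.leaf 2305)
 (.leaf 65))
 (.node 9 (.leaf 129)
 (.leaf 2307)))
 (.node 12 (.node 11 (.leaf 258)
 (.leaf 67))
 (.node 13 (.leaf 2177)
 (.leaf 18561)))))
 (.node 22 (.node 18 (.node 16 (.node 15 (.leaf 16705)
 (.leaf 16449))
 (.node 17 (.leaf 2180)
 (.leaf 18689)))
 (.node 20 (.node 19 (.leaf 16513)
 (.leaf 18753))
 (.node 21 (.leaf 2179)
 (.leaf 18817))))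
 (.node 26 (.node 24 (.node 23 (.leaf 132)
 (.leaf 257))
 (.node 25 (.leaf 16641)
 (.leaf 18625)))
 (.node 28 (.node 27 (.leaf 16577)
 (.leaf 18497))
 (.node 29 (.leaf 2308)
 (.leaf 16769))))))

noncomputable def base : List Rs := [
.ordE 0 16 2,
.deg 3 [1, 1],
.hall [1] [3, 5],
.ordE 0 8 2,
.ab 1 4,
.part [40, 16] [0, 0] [7] [],
.deg 3 [2, 0],
.ab 0 3,
.deg 4 [0, 3],
.ab 1 5,
.part [16, 40] [0, 0] [7] [],
.ordE 1 16 3,
.ab 0 4,
.part [8, 48] [0, 0] [7] [],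
.deg 4 [3, 0],
.hall [0] [3, 4],
.ab 0 5,
.deg 4 [2, 1],
.ordE 0 8 1,
.part [32, 24] [0, 0] [7] [],
.ordE 0 16 3,
.ordE 1 32 1,
.part [24, 32] [0, 0] [7] [],
.ab 1 3,
.deg 5 [0, 3],
.part [48, 8] [0, 0] [7] [],
.ordE 1 32 2,
.deg 5 [1, 2],
.ordE 1 16 2,
.ordE 1 32 3]

noncomputable def gads : List Gt := [
⟨1, [⟨8, 2, []⟩, ⟨16, 2, []⟩], [3, 3, 3], 1, [(24, 1)]⟩,
⟨0, [⟨16, 2, []⟩, ⟨32, 2, []⟩], [3, 3, 3], 1, [(48, 1)]⟩,
⟨1, [⟨8, 2, []⟩, ⟨32, 2, []⟩], [3, 3, 3], 1, [(40, 1)]⟩,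
⟨1, [⟨16, 2, []⟩, ⟨32, 2, []⟩], [3, 3, 3], 1, [(48, 1)]⟩,
⟨0, [⟨8, 2, []⟩, ⟨16, 2, []⟩], [3, 3, 3], 1, [(24, 1)]⟩,
⟨0, [⟨8, 2, []⟩, ⟨32, 2, []⟩], [3, 3, 3], 1, [(40, 1)]⟩]

noncomputable def cnf : List (List ℕ) := [
[7, 8],
[0, 10],
[12, 14],
[25, 0],
[27, 29],
[30, 28],
[24, 12],
[17, 33],
[18, 34],
[15, 37],
[38, 40],
[35, 42],
[19, 39],
[32, 44],
[46, 26],
[16, 18],
[49, 51],
[6, 2],
[1, 16],
[50, 52],
[47, 6],
[5, 14],
[54, 36],
[13, 57],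
[48, 58],
[60, 56],
[21, 4],
[22, 20],
[43, 2],
[59, 20],
[11, 3, 53],
[9, 23, 61],
[11, 5, 41],
[3, 5, 45],
[1, 9, 55],
[1, 23, 31]]

noncomputable def db : Tr :=
 (.node 30 (.node 15 (.node 7 (.node 3 (.node 1 (.leaf 0xa0009)
 (.node 2 (.leaf 0xc0002)
 (.leaf 0x10000e)))
 (.node 5 (.node 4 (.leaf 0x2001b)
 (.leaf 0x1f001d))
 (.node 6 (.leaf 0x1e0020)
 (.leaf 0xe001a))))
 (.node 11 (.node 9 (.node 8 (.leaf 0x230013)
 (.leaf 0x240014))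
 (.node 10 (.leaf 0x270011)
 (.leaf 0x2a0028)))
 (.node 13 (.node 12 (.leaf 0x2c0025)
 (.leaf 0x290015))
 (.node 14 (.leaf 0x2e0022)
 (.leaf 0x1c0030)))))
 (.node 22 (.node 18 (.node 16 (.leaf 0x140012)
 (.node 17 (.leaf 0x350033)
 (.leaf 0x40008)))
 (.node 20 (.node 19 (.leaf 0x120003)
 (.leaf 0x360034))
 (.node 21 (.leaf 0x80031)
 (.leaf 0x100007))))
 (.node 26 (.node 24 (.node 23 (.leaf 0x260038)
 (.leaf 0x3b000f))
 (.node 25 (.leaf 0x3c0032)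
 (.leaf 0x3a003e)))
 (.node 28 (.node 27 (.leaf 0x60017)
 (.leaf 0x160018))
 (.node 29 (.leaf 0x4002d)
 (.leaf 0x16003d))))))
 (.node 45 (.node 37 (.node 33 (.node 31 (.leaf 0x370005000d)
 (.node 32 (.leaf 0x3f0019000b)
 (.leaf 0x2b0007000d)))
 (.node 35 (.node 34 (.leaf 0x2f00070005)
 (.leaf 0x39000b0003))
 (.node 36 (.leaf 0x2100190003)
 (.leaf 0x70012))))
 (.node 41 (.node 39 (.node 38 (.leaf 0x190007)
 (.leaf 0x190002))
 (.node 40 (.leaf 0x190003)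
 (.leaf 0x19)))
 (.node 43 (.node 42 (.leaf 0x16)
 (.leaf 0x6))
 (.node 44 (.leaf 0x10)
 (.leaf 0x12)))))
 (.node 52 (.node 48 (.node 46 (.leaf 0x27)
 (.node 47 (.leaf 0x23)
 (.leaf 0x38)))
 (.node 50 (.node 49 (.leaf 0x2e)
 (.leaf 0x5))
 (.node 51 (.leaf 0x8)
 (.leaf 0x2d))))
 (.node 56 (.node 54 (.node 53 (.leaf 0xa)
 (.leaf 0x25))
 (.node 55 (.leaf 0x3)
 (.leaf 0x14)))
 (.node 58 (.node 57 (.leaf 0xc)
 (.leaf 0x29))
 (.node 59 (.leaf 0x2b)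
 (.leaf 0x0)))))))

noncomputable def prf : List ℕ := [
0x30001900022000170001100014,
0x1e0000d000210000b0000200005000240001300003000170001d000000000e0001b0000f,
0x60000c000250000e000140001f00007000220002400012000150000d000080000b00000,
0x240001d0000f000100000d0000400007000260001200018000220002100003,
0x1,
0xd00000,
0xf00000,
0x1500000,
0x700001,
0x2300001,
0x2600001,
0x1800001,
0x2200001,
0xf0000600000,
0x2000000,
0x1600001,
0x3300001,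
0x2900001,
0x130000600001,
0x2e00001,
0x3600001,
0x2c00001,
0x190000f00001,
0x300000000001]

end D65

theorem inst_65 : instB 0 [0, 0] [1, 1, 10] [] D65.base D65.gads D65.names D65.cnf D65.db D65.prf = true := by decide +kernel

/-- no gadget has fewer than `2 R` new points. -/
theorem p2_65 : D65.gads.all (fun g => Nat.ble (2 * g.R) g.gs.length) = true := by decide +kernel

/-- there is no configuration of this instance. -/
theorem no_65 {V : Type v} [DecidableEq V] {ι : Type u} [Fintype ι] {B : ι → Finset V}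
    {Q : Finset V} {i j : ι} {x : ℕ → V} {D : ℕ → Finset V}
    (h : CfI B Q 0 x D i j [0, 0] [1, 1, 10]) : False :=
  h.absurd (by decide) srt_nil inst_65

end Pool.Agent.Hyp6
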