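import Pool.Agent.Hyp6.Cb5

/-!
# HYP6: instance 66 of the list: n = 0, bounds [0, 0], inner blocks [1, 1, 11]

38 base clauses, 8 gadgets, 20 learned clauses.
-/

set_option autoImplicit false
set_option maxRecDepth 100000

namespace Pool.Agent.Hyp6

open Rup

universe u v

namespace D66

noncomputable def names : Tr :=
 (.node 19 (.node 9 (.node 4 (.node 1 (.node 0 (.leaf 16769)
 (.leaf 66))
 (.node 2 (.leaf 2114)
 (.node 3 (.leaf 130)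
 (.leaf 2306))))
 (.node 6 (.node 5 (.leaf 2177)
 (.leaf 2179))
 (.node 7 (.leaf 2178)
 (.node 8 (.leaf 2307)
 (.leaf 65)))))
 (.node 14 (.node 11 (.node 10 (.leaf 129)
 (.leaf 2081))
 (.node 12 (.leaf 258)
 (.node 13 (.leaf 2113)
 (.leaf 16513))))
 (.node 16 (.node 15 (.leaf 18753)
 (.leaf 16705))
 (.node 17 (.leaf 18561)
 (.node 18 (.leaf 132)
 (.leaf 131))))))
 (.node 29 (.node 24 (.node 21 (.node 20 (.leaf 2308)
 (.leaf 2305))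
 (.node 22 (.leaf 18689)
 (.node 23 (.leaf 18465)
 (.leaf 16577))))
 (.node 26 (.node 25 (.leaf 34)
 (.leaf 2083))
 (.node 27 (.leaf 16449)
 (.node 28 (.leaf 257)
 (.leaf 16641)))))
 (.node 34 (.node 31 (.node 30 (.leaf 18817)
 (.leaf 18))
 (.node 32 (.leaf 2066)
 (.node 33 (.leaf 2082)
 (.leaf 2057))))
 (.node 37 (.node 35 (.leaf 18441)
 (.node 36 (.leaf 18625)
 (.leaf 2180)))
 (.node 38 (.leaf 18497)
 (.node 39 (.leaf 16433)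
 (.leaf 18513)))))))

noncomputable def base : List Rs := [
.hall [1] [3, 4],
.part [16, 40] [0, 0] [7] [],
.ordE 1 16 2,
.part [40, 16] [0, 0] [7] [],
.ordE 0 16 3,
.ordE 1 32 3,
.ab 1 5,
.part [48, 4] [0, 0] [11] [],
.part [24, 32] [0, 0] [7] [],
.deg 2 [1, 2],
.deg 3 [1, 1],
.ab 0 3,
.deg 5 [0, 3],
.ab 0 4,
.ab 0 5,
.part [8, 48] [0, 0] [7] [],
.deg 1 [1, 1],
.ordE 1 4 1,
.deg 5 [1, 2],
.ab 1 4,
.ab 1 2,
.deg 4 [1, 2],
.ab 1 0,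
.ordE 0 8 1,
.hall [1] [0, 2],
.part [32, 24] [0, 0] [7] [],
.ordE 0 16 2,
.ordE 1 16 3,
.deg 4 [0, 3],
.ab 1 3,
.part [6, 1] [0, 0] [56] [],
.hall [0] [3, 4],
.part [48, 10] [0, 0] [5] [],
.ordE 1 32 1,
.deg 4 [3, 0],
.ordE 1 4 2,
.part [48, 8] [0, 0] [7] [],
.ordE 1 32 2]

noncomputable def gads : List Gt := [
⟨0, [⟨8, 2, []⟩, ⟨16, 2, []⟩], [3, 3, 3], 1, [(24, 1)]⟩,
⟨0, [⟨8, 2, []⟩, ⟨32, 2, []⟩], [3, 3, 3], 1, [(40, 1)]⟩,
⟨0, [⟨16, 2, []⟩, ⟨32, 2, []⟩], [3, 3, 3], 1, [(48, 1)]⟩,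
⟨1, [⟨16, 2, []⟩, ⟨32, 2, []⟩], [3, 3, 3], 1, [(48, 1)]⟩,
⟨1, [⟨8, 2, []⟩, ⟨16, 2, []⟩], [3, 3, 3], 1, [(24, 1)]⟩,
⟨1, [⟨2, 2, []⟩, ⟨8, 2, []⟩], [3, 3, 3], 1, [(10, 1)]⟩,
⟨1, [⟨8, 2, []⟩, ⟨32, 2, []⟩], [3, 3, 3], 1, [(40, 1)]⟩,
⟨0, [⟨2, 2, []⟩, ⟨4, 2, []⟩], [3, 3, 3], 1, [(6, 1)]⟩]

noncomputable def cnf : List (List ℕ) := [
[26, 10],
[28, 30],
[13, 14],
[32, 34],
[37, 38],
[41, 16],
[43, 45],
[0, 46],
[48, 44],
[50, 52],
[2, 4],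
[19, 55],
[56, 40],
[21, 29],
[57, 59],
[54, 60],
[62, 64],
[67, 22],
[24, 16],
[11, 35],
[23, 47],
[6, 12],
[69, 71],
[3, 18],
[68, 22],
[58, 72],
[39, 6],
[75, 12],
[20, 74],
[27, 77],
[78, 70],
[18, 20],
[0, 80],
[9, 42],
[36, 10],
[53, 66],
[0, 76],
[17, 8],
[3, 7, 49],
[3, 25, 33],
[7, 25, 1],
[15, 9, 61],
[5, 15, 73],
[65, 5, 81],
[5, 9, 31],
[63, 51, 79]]

noncomputable def db : Tr :=
 (.node 33 (.node 16 (.node 8 (.node 4 (.node 2 (.node 1 (.leaf 0xc001c)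
 (.leaf 0x20001e))
 (.node 3 (.leaf 0x10000f)
 (.leaf 0x240022)))
 (.node 6 (.node 5 (.leaf 0x280027)
 (.leaf 0x12002b))
 (.node 7 (.leaf 0x2f002d)
 (.leaf 0x300002))))
 (.node 12 (.node 10 (.node 9 (.leaf 0x2e0032)
 (.leaf 0x360034))
 (.node 11 (.leaf 0x60004)
 (.leaf 0x390015)))
 (.node 14 (.node 13 (.leaf 0x2a003a)
 (.leaf 0x1f0017))
 (.node 15 (.leaf 0x3d003b)
 (.leaf 0x3e0038)))))
 (.node 24 (.node 20 (.node 18 (.node 17 (.leaf 0x420040)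
 (.leaf 0x180045))
 (.node 19 (.leaf 0x12001a)
 (.leaf 0x25000d)))
 (.node 22 (.node 21 (.leaf 0x310019)
 (.leaf 0xe0008))
 (.node 23 (.leaf 0x490047)
 (.leaf 0x140005))))
 (.node 28 (.node 26 (.node 25 (.leaf 0x180046)
 (.leaf 0x4a003c))
 (.node 27 (.leaf 0x80029)
 (.leaf 0xe004d)))
 (.node 30 (.node 29 (.leaf 0x4c0016)
 (.leaf 0x4f001d))
 (.node 31 (.leaf 0x480050)
 (.node 32 (.leaf 0x160014)
 (.leaf 0x520002)))))))
 (.node 49 (.node 41 (.node 37 (.node 35 (.node 34 (.leaf 0x2c000b)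
 (.leaf 0xc0026))
 (.node 36 (.leaf 0x440037)
 (.leaf 0x4e0002)))
 (.node 39 (.node 38 (.leaf 0xa0013)
 (.leaf 0x3300090005))
 (.node 40 (.leaf 0x23001b0005)
 (.leaf 0x3001b0009))))
 (.node 45 (.node 43 (.node 42 (.leaf 0x3f000b0011)
 (.leaf 0x4b00110007))
 (.node 44 (.leaf 0x5300070043)
 (.leaf 0x21000b0007)))
 (.node 47 (.node 46 (.leaf 0x5100350041)
 (.leaf 0xb0014))
 (.node 48 (.leaf 0xb)
 (.leaf 0x13)))))
 (.node 57 (.node 53 (.node 51 (.node 50 (.leaf 0x2b)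
 (.leaf 0x1a))
 (.node 52 (.leaf 0x3a)
 (.leaf 0x3d)))
 (.node 55 (.node 54 (.leaf 0x4a)
 (.leaf 0x7))
 (.node 56 (.leaf 0x4)
 (.leaf 0x23))))
 (.node 61 (.node 59 (.node 58 (.leaf 0x24)
 (.leaf 0xd))
 (.node 60 (.leaf 0x1c)
 (.leaf 0x26)))
 (.node 63 (.node 62 (.leaf 0x4f)
 (.leaf 0x28))
 (.node 64 (.leaf 0x2)
 (.node 65 (.leaf 0x8)
 (.leaf 0x0))))))))

noncomputable def prf : List ℕ := [
0x2c0000100020000230000e00016,
0x2d000020002100024000120000800013000190002c000050001f000230000000026000280000d,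
0xa00000,
0x2b00000,
0x1f00001,
0x2600001,
0x2500000,
0x1b00000,
0x8000170002c0001f00012000250001d000240000a00021000150002e0000d00020000330000b0000300000,
0x2c00000,
0x100000500000,
0x3500000,
0x2600000,
0x3a00000,
0x1900001,
0x1f00001,
0x3900001,
0x1a00001,
0x2500001,
0x180000e0000000001]

end D66

theorem inst_66 : instB 0 [0, 0] [1, 1, 11] [] D66.base D66.gads D66.names D66.cnf D66.db D66.prf = true := by decide +kernel

/-- no gadget has fewer than `2 R` new points. -/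
theorem p2_66 : D66.gads.all (fun g => Nat.ble (2 * g.R) g.gs.length) = true := by decide +kernel

/-- there is no configuration of this instance. -/
theorem no_66 {V : Type v} [DecidableEq V] {ι : Type u} [Fintype ι] {B : ι → Finset V}
    {Q : Finset V} {i j : ι} {x : ℕ → V} {D : ℕ → Finset V}
    (h : CfI B Q 0 x D i j [0, 0] [1, 1, 11]) : False :=
  h.absurd (by decide) srt_nil inst_66

end Pool.Agent.Hyp6
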