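import Pool.Agent.Hyp6.Cb5

/-!
# HYP6: instance 67 of the list: n = 0, bounds [0, 0], inner blocks [1, 1, 14]

48 base clauses, 18 gadgets, 32 learned clauses.
-/

set_option autoImplicit false
set_option maxRecDepth 100000

namespace Pool.Agent.Hyp6

open Rup

universe u v

namespace D67

noncomputable def names : Tr :=
 (.node 24 (.node 11 (.node 5 (.node 2 (.node 0 (.leaf 258)
 (.node 1 (.leaf 130)
 (.leaf 2178)))
 (.node 3 (.leaf 2082)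
 (.node 4 (.leaf 2306)
 (.leaf 9))))
 (.node 8 (.node 6 (.leaf 18)
 (.node 7 (.leaf 2057)
 (.leaf 2066)))
 (.node 9 (.leaf 34)
 (.node 10 (.leaf 16769)
 (.leaf 18753)))))
 (.node 17 (.node 14 (.node 12 (.leaf 16705)
 (.node 13 (.leaf 2081)
 (.leaf 2305)))
 (.node 15 (.leaf 2058)
 (.node 16 (.leaf 10)
 (.leaf 66))))
 (.node 20 (.node 18 (.leaf 2114)
 (.node 19 (.leaf 16393)
 (.leaf 18441)))
 (.node 22 (.node 21 (.leaf 2177)
 (.leaf 18561))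
 (.node 23 (.leaf 18625)
 (.leaf 131))))))
 (.node 37 (.node 30 (.node 27 (.node 25 (.leaf 259)
 (.node 26 (.leaf 2179)
 (.leaf 2307)))
 (.node 28 (.leaf 16513)
 (.node 29 (.leaf 17)
 (.leaf 16401))))
 (.node 33 (.node 31 (.leaf 33)
 (.node 32 (.leaf 16417)
 (.leaf 18465)))
 (.node 35 (.node 34 (.leaf 2113)
 (.leaf 18497))
 (.node 36 (.leaf 18689)
 (.leaf 16409)))))
 (.node 43 (.node 40 (.node 38 (.leaf 18481)
 (.node 39 (.leaf 16649)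
 (.leaf 18817)))
 (.node 41 (.leaf 16433)
 (.node 42 (.leaf 18473)
 (.leaf 18457))))
 (.node 46 (.node 44 (.leaf 16529)
 (.node 45 (.leaf 16657)
 (.leaf 16545)))
 (.node 48 (.node 47 (.leaf 16673)
 (.leaf 18577))
 (.node 49 (.leaf 18593)
 (.leaf 16577)))))))

noncomputable def base : List Rs := [
.ordE 0 16 2,
.ordE 0 32 2,
.ordE 1 4 1,
.ordE 1 16 2,
.ordE 1 32 1,
.ordE 1 32 2,
.deg 0 [0, 1],
.deg 0 [1, 0],
.deg 1 [1, 1],
.deg 2 [1, 1],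
.deg 3 [1, 1],
.deg 4 [1, 2],
.deg 4 [2, 1],
.deg 5 [1, 2],
.deg 5 [2, 1],
.mono 0 16 48 1,
.ab 0 0,
.ab 0 1,
.ab 0 2,
.ab 1 0,
.ab 1 2,
.ab 1 3,
.ab 1 4,
.ab 1 5,
.hall [0] [0, 1],
.hall [0] [0, 2],
.hall [1] [0, 2],
.hall [0, 1] [0],
.hall [1] [3, 4],
.hall [1] [4, 5],
.part [3, 4] [0, 0] [56] [],
.part [1, 6] [0, 0] [56] [],
.part [33, 16] [0, 0] [14] [],
.part [1, 48] [0, 0] [14] [],
.part [6, 1] [0, 0] [56] [],
.part [2, 5] [0, 0] [56] [],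
.part [4, 3] [0, 0] [56] [],
.part [48, 1] [0, 0] [14] [],
.part [18, 40] [0, 0] [5] [],
.part [34, 24] [0, 0] [5] [],
.part [20, 40] [0, 0] [3] [],
.part [36, 24] [0, 0] [3] [],
.part [40, 18] [0, 0] [5] [],
.part [40, 20] [0, 0] [3] [],
.part [24, 32] [0, 0] [7] [],
.part [40, 16] [0, 0] [7] [],
.part [48, 8] [0, 0] [7] [],
.part [16, 40] [0, 0] [7] []]

noncomputable def gads : List Gt := [
⟨0, [⟨8, 2, []⟩, ⟨32, 2, []⟩], [3, 3, 3], 1, [(40, 1)]⟩,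
⟨0, [⟨8, 2, []⟩, ⟨16, 2, []⟩], [3, 3, 3], 1, [(24, 1)]⟩,
⟨1, [⟨8, 2, []⟩, ⟨32, 2, []⟩], [3, 3, 3], 1, [(40, 1)]⟩,
⟨1, [⟨8, 2, []⟩, ⟨16, 2, []⟩], [3, 3, 3], 1, [(24, 1)]⟩,
⟨0, [⟨1, 2, []⟩, ⟨2, 2, []⟩], [3, 3, 3], 1, [(3, 1)]⟩,
⟨1, [⟨1, 2, []⟩, ⟨2, 2, []⟩], [3, 3, 3], 1, [(3, 1)]⟩,
⟨1, [⟨1, 2, []⟩, ⟨4, 2, []⟩], [3, 3, 3], 1, [(5, 1)]⟩,
⟨0, [⟨1, 2, []⟩, ⟨32, 2, []⟩], [3, 3, 3], 1, [(33, 1)]⟩,
⟨0, [⟨2, 2, []⟩, ⟨16, 2, []⟩], [3, 3, 3], 1, [(18, 1)]⟩,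
⟨0, [⟨2, 2, []⟩, ⟨32, 2, []⟩], [3, 3, 3], 1, [(34, 1)]⟩,
⟨0, [⟨4, 2, []⟩, ⟨16, 2, []⟩], [3, 3, 3], 1, [(20, 1)]⟩,
⟨0, [⟨4, 2, []⟩, ⟨32, 2, []⟩], [3, 3, 3], 1, [(36, 1)]⟩,
⟨1, [⟨2, 2, []⟩, ⟨16, 2, []⟩], [3, 3, 3], 1, [(18, 1)]⟩,
⟨1, [⟨4, 2, []⟩, ⟨16, 2, []⟩], [3, 3, 3], 1, [(20, 1)]⟩,
⟨0, [⟨16, 2, []⟩, ⟨32, 2, []⟩], [3, 3, 3], 1, [(48, 1)]⟩,
⟨1, [⟨16, 2, []⟩, ⟨32, 2, []⟩], [3, 3, 3], 1, [(48, 1)]⟩,
⟨0, [⟨2, 2, []⟩, ⟨4, 2, []⟩], [3, 3, 3], 1, [(6, 1)]⟩,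
⟨1, [⟨2, 2, []⟩, ⟨4, 2, []⟩], [3, 3, 3], 1, [(6, 1)]⟩]

noncomputable def cnf : List (List ℕ) := [
[49, 2],
[51, 0],
[7, 26],
[53, 4],
[9, 28],
[55, 8],
[10, 30],
[32, 14],
[12, 16],
[18, 6],
[34, 36],
[2, 52],
[48, 4],
[0, 54],
[50, 8],
[57, 20],
[11, 39],
[59, 61],
[63, 65],
[15, 41],
[27, 67],
[69, 71],
[43, 45],
[29, 73],
[10, 58],
[10, 62],
[14, 26],
[10, 14],
[68, 42],
[42, 28],
[74, 66],
[38, 76],
[78, 44],
[38, 80],
[82, 40],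
[60, 84],
[64, 86],
[20, 40],
[88, 22],
[90, 46],
[92, 22],
[94, 46],
[24, 96],
[24, 98],
[100, 72],
[24, 44],
[20, 70],
[56, 22],
[35, 1, 25],
[35, 3, 101],
[37, 9, 23],
[37, 5, 47],
[33, 13, 75],
[31, 17, 87],
[31, 7, 85],
[33, 1, 79],
[13, 3, 89],
[13, 1, 91],
[19, 3, 93],
[19, 1, 95],
[17, 5, 97],
[7, 5, 99],
[3, 1, 21],
[5, 9, 81],
[13, 19, 83],
[17, 7, 77]]

noncomputable def db : Tr :=
 (.node 49 (.node 24 (.node 12 (.node 6 (.node 3 (.node 1 (.leaf 0x40033)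
 (.node 2 (.leaf 0x20035)
 (.leaf 0x1c0009)))
 (.node 4 (.leaf 0x60037)
 (.node 5 (.leaf 0x1e000b)
 (.leaf 0xa0039))))
 (.node 9 (.node 7 (.leaf 0x20000c)
 (.node 8 (.leaf 0x100022)
 (.leaf 0x12000e)))
 (.node 10 (.leaf 0x80014)
 (.node 11 (.leaf 0x260024)
 (.leaf 0x360004)))))
 (.node 18 (.node 15 (.node 13 (.leaf 0x60032)
 (.node 14 (.leaf 0x380002)
 (.leaf 0xa0034)))
 (.node 16 (.leaf 0x16003b)
 (.node 17 (.leaf 0x29000d)
 (.leaf 0x3f003d))))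
 (.node 21 (.node 19 (.leaf 0x430041)
 (.node 20 (.leaf 0x2b0011)
 (.leaf 0x45001d)))
 (.node 22 (.leaf 0x490047)
 (.node 23 (.leaf 0x2f002d)
 (.leaf 0x4b001f))))))
 (.node 36 (.node 30 (.node 27 (.node 25 (.leaf 0x3c000c)
 (.node 26 (.leaf 0x40000c)
 (.leaf 0x1c0010)))
 (.node 28 (.leaf 0x10000c)
 (.node 29 (.leaf 0x2c0046)
 (.leaf 0x1e002c))))
 (.node 33 (.node 31 (.leaf 0x44004c)
 (.node 32 (.leaf 0x4e0028)
 (.leaf 0x2e0050)))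
 (.node 34 (.leaf 0x520028)
 (.node 35 (.leaf 0x2a0054)
 (.leaf 0x56003e)))))
 (.node 42 (.node 39 (.node 37 (.leaf 0x580042)
 (.node 38 (.leaf 0x2a0016)
 (.leaf 0x18005a)))
 (.node 40 (.leaf 0x30005c)
 (.node 41 (.leaf 0x18005e)
 (.leaf 0x300060))))
 (.node 45 (.node 43 (.leaf 0x62001a)
 (.node 44 (.leaf 0x64001a)
 (.leaf 0x4a0066)))
 (.node 47 (.node 46 (.leaf 0x2e001a)
 (.leaf 0x480016))
 (.node 48 (.leaf 0x18003a)
 (.leaf 0x1b00030025)))))))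
 (.node 73 (.node 61 (.node 55 (.node 52 (.node 50 (.leaf 0x6700050025)
 (.node 51 (.leaf 0x19000b0027)
 (.leaf 0x3100070027)))
 (.node 53 (.leaf 0x4d000f0023)
 (.node 54 (.leaf 0x5900130021)
 (.leaf 0x5700090021))))
 (.node 58 (.node 56 (.leaf 0x5100030023)
 (.node 57 (.leaf 0x5b0005000f)
 (.leaf 0x5d0003000f)))
 (.node 59 (.leaf 0x5f00050015)
 (.node 60 (.leaf 0x6100030015)
 (.leaf 0x6300070013)))))
 (.node 67 (.node 64 (.node 62 (.leaf 0x6500070009)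
 (.node 63 (.leaf 0x1700030005)
 (.leaf 0x53000b0007)))
 (.node 65 (.leaf 0x550015000f)
 (.node 66 (.leaf 0x4f00090013)
 (.leaf 0x61005d004f0003))))
 (.node 70 (.node 68 (.leaf 0x6700190053000b)
 (.node 69 (.leaf 0x61005d00590003)
 (.leaf 0x6700650061005d00190059)))
 (.node 71 (.leaf 0x6500610067005d0019)
 (.node 72 (.leaf 0x5f005b000b0028)
 (.leaf 0xc))))))
 (.node 85 (.node 79 (.node 76 (.node 74 (.leaf 0x29)
 (.node 75 (.leaf 0x4e)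
 (.leaf 0x52)))
 (.node 77 (.leaf 0x6700650061005f005d)
 (.node 78 (.leaf 0x1b005f00310018)
 (.leaf 0x67001b0061005f0031))))
 (.node 82 (.node 80 (.leaf 0x670065001b0061005f)
 (.node 81 (.leaf 0x650067001b0061)
 (.leaf 0x30005)))
 (.node 83 (.leaf 0x1b00310003)
 (.node 84 (.leaf 0x670065001b)
 (.leaf 0x67000b)))))
 (.node 91 (.node 88 (.node 86 (.leaf 0x15000f)
 (.node 87 (.leaf 0x670065)
 (.leaf 0x3001b)))
 (.node 89 (.leaf 0x67)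
 (.node 90 (.leaf 0x4a)
 (.leaf 0x1f))))
 (.node 94 (.node 92 (.leaf 0xb)
 (.node 93 (.leaf 0x2c)
 (.leaf 0x39)))
 (.node 96 (.node 95 (.leaf 0x2f)
 (.leaf 0x2))
 (.node 97 (.leaf 0x1a)
 (.leaf 0x0))))))))

noncomputable def prf : List ℕ := [
0x38000390000600008,
0x1100037000380003f0001000003,
0x3d000330000e000240003b000010000a,
0x3b0000400007000220003c000310000f00038000290003e000440003400013000230003a0000100012000360004300000,
0x370004400002000030002400026000350002c000330002100000,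
0x50003d0003e0000c0000e0003b00043000070002500027,
0x70003f0003e00012000110002500023000240003400035000360002c0002e0002f00041,
0x3800000,
0x2a00000,
0x2900001,
0x3e00046000090000400025000050000100002,
0x40000190004c000420000e0001c0003f000470003d000050001d0002600003,
0x3a0004600028000190000f0002f0004200045000390004a0000c0004b0001a0004400043000120001d00040000480000a000000000300002,
0x270000000002,
0x3c000480002a0001b000110003100044000470003b0004c0000e0004d0001c0004600045000140001f000420004a000280000c0000900027000000000400005,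
0x300003a0001900034000490003b0003d000220002b00012,
0x460004e0001e0004700021,
0x50002a0000f000440005100000000290000200007,
0xc0002b0002d00010000080000a,
0x3600040000200003a0004d000410003200014,
0x4d000190002b000000004c0001800002000490005500004000480005000001,
0x140002d0002f000040000c,
0x2c000010004a0005200003,
0x2c00000,
0x4200000,
0x5600000,
0x3e00001,
0x5700001,
0x4700001,
0x5100001,
0x3200001,
0x90000100000]

end D67

theorem inst_67 : instB 0 [0, 0] [1, 1, 14] [] D67.base D67.gads D67.names D67.cnf D67.db D67.prf = true := by decide +kernel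

/-- no gadget has fewer than `2 R` new points. -/
theorem p2_67 : D67.gads.all (fun g => Nat.ble (2 * g.R) g.gs.length) = true := by decide +kernel

/-- there is no configuration of this instance. -/
theorem no_67 {V : Type v} [DecidableEq V] {ι : Type u} [Fintype ι] {B : ι → Finset V}
    {Q : Finset V} {i j : ι} {x : ℕ → V} {D : ℕ → Finset V}
    (h : CfI B Q 0 x D i j [0, 0] [1, 1, 14]) : False :=
  h.absurd (by decide) srt_nil inst_67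

end Pool.Agent.Hyp6
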