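import Pool.Agent.Hyp6.Cb5

/-!
# HYP6: instance 68 of the list: n = 0, bounds [0, 0], inner blocks [1, 1, 24]

28 base clauses, 6 gadgets, 22 learned clauses.
-/

set_option autoImplicit false
set_option maxRecDepth 100000

namespace Pool.Agent.Hyp6

open Rup

universe u v

namespace D68

noncomputable def names : Tr :=
 (.node 13 (.node 6 (.node 2 (.node 0 (.leaf 2306)
 (.node 1 (.leaf 66)
 (.leaf 2178)))
 (.node 4 (.node 3 (.leaf 258)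
 (.leaf 2113))
 (.node 5 (.leaf 2305)
 (.leaf 130))))
 (.node 9 (.node 7 (.leaf 65)
 (.node 8 (.leaf 257)
 (.leaf 2114)))
 (.node 11 (.node 10 (.leaf 259)
 (.leaf 2177))
 (.node 12 (.leaf 18561)
 (.leaf 129)))))
 (.node 20 (.node 16 (.node 14 (.leaf 2179)
 (.node 15 (.leaf 16705)
 (.leaf 2308)))
 (.node 18 (.node 17 (.leaf 2307)
 (.leaf 18497))
 (.node 19 (.leaf 67)
 (.leaf 16577))))
 (.node 24 (.node 22 (.node 21 (.leaf 18689)
 (.leaf 16641))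
 (.node 23 (.leaf 18625)
 (.leaf 16449)))
 (.node 26 (.node 25 (.leaf 18817)
 (.leaf 16513))
 (.node 27 (.leaf 18753)
 (.leaf 16769))))))

noncomputable def base : List Rs := [
.ordE 0 32 2,
.ab 1 4,
.deg 4 [0, 2],
.part [40, 16] [0, 0] [7] [],
.ordE 1 32 3,
.hall [1] [3, 5],
.ab 1 3,
.ordE 1 32 1,
.ordE 0 8 2,
.deg 3 [2, 0],
.part [24, 32] [0, 0] [7] [],
.ab 1 5,
.deg 4 [1, 1],
.part [32, 24] [0, 0] [7] [],
.part [8, 48] [0, 0] [7] [],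
.deg 5 [2, 1],
.ordE 0 8 1,
.part [16, 40] [0, 0] [7] [],
.ordE 1 32 2,
.deg 5 [0, 3],
.hall [0] [3, 5],
.ab 0 3,
.part [48, 8] [0, 0] [7] [],
.ab 0 4,
.ordE 1 16 1,
.ab 0 5,
.ordE 1 16 2,
.deg 3 [1, 1]]

noncomputable def gads : List Gt := [
⟨0, [⟨8, 2, []⟩, ⟨16, 2, []⟩], [3, 3, 3], 1, [(24, 1)]⟩,
⟨1, [⟨16, 2, []⟩, ⟨32, 2, []⟩], [3, 3, 3], 1, [(48, 1)]⟩,
⟨1, [⟨8, 2, []⟩, ⟨16, 2, []⟩], [3, 3, 3], 1, [(24, 1)]⟩,
⟨0, [⟨8, 2, []⟩, ⟨32, 2, []⟩], [3, 3, 3], 1, [(40, 1)]⟩,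
⟨1, [⟨8, 2, []⟩, ⟨32, 2, []⟩], [3, 3, 3], 1, [(40, 1)]⟩,
⟨0, [⟨16, 2, []⟩, ⟨32, 2, []⟩], [3, 3, 3], 1, [(48, 1)]⟩]

noncomputable def cnf : List (List ℕ) := [
[21, 6],
[23, 25],
[26, 28],
[30, 24],
[33, 34],
[8, 10],
[9, 37],
[1, 10],
[39, 2],
[38, 8],
[40, 42],
[11, 43],
[12, 4],
[44, 46],
[48, 50],
[20, 0],
[3, 14],
[52, 54],
[35, 0],
[16, 32],
[14, 16],
[15, 49],
[56, 36],
[27, 53],
[5, 22],
[17, 45],
[29, 4],
[2, 18],
[3, 13, 41],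
[5, 1, 51],
[19, 5, 47],
[3, 7, 31],
[19, 1, 55],
[13, 7, 57]]

noncomputable def db : Tr :=
 (.node 28 (.node 14 (.node 7 (.node 3 (.node 1 (.leaf 0x80017)
 (.node 2 (.leaf 0x1b0019)
 (.leaf 0x1e001c)))
 (.node 5 (.node 4 (.leaf 0x1a0020)
 (.leaf 0x240023))
 (.node 6 (.leaf 0xc000a)
 (.leaf 0x27000b))))
 (.node 10 (.node 8 (.leaf 0xc0003)
 (.node 9 (.leaf 0x40029)
 (.leaf 0xa0028)))
 (.node 12 (.node 11 (.leaf 0x2c002a)
 (.leaf 0x2d000d))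
 (.node 13 (.leaf 0x6000e)
 (.leaf 0x30002e)))))
 (.node 21 (.node 17 (.node 15 (.leaf 0x340032)
 (.node 16 (.leaf 0x20016)
 (.leaf 0x100005)))
 (.node 19 (.node 18 (.leaf 0x380036)
 (.leaf 0x20025))
 (.node 20 (.leaf 0x220012)
 (.leaf 0x120010))))
 (.node 24 (.node 22 (.leaf 0x330011)
 (.node 23 (.leaf 0x26003a)
 (.leaf 0x37001d)))
 (.node 26 (.node 25 (.leaf 0x180007)
 (.leaf 0x2f0013))
 (.node 27 (.leaf 0x6001f)
 (.leaf 0x140004))))))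
 (.node 42 (.node 35 (.node 31 (.node 29 (.leaf 0x2b000f0005)
 (.node 30 (.leaf 0x3500030007)
 (.leaf 0x3100070015)))
 (.node 33 (.node 32 (.leaf 0x2100090005)
 (.leaf 0x3900030015))
 (.node 34 (.leaf 0x3b0009000f)
 (.leaf 0x15003b0006))))
 (.node 38 (.node 36 (.leaf 0x150007)
 (.node 37 (.leaf 0x15)
 (.leaf 0x4)))
 (.node 40 (.node 39 (.leaf 0x10)
 (.leaf 0x33))
 (.node 41 (.leaf 0x34)
 (.leaf 0x3)))))
 (.node 49 (.node 45 (.node 43 (.leaf 0x16)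
 (.node 44 (.leaf 0x8)
 (.leaf 0x21)))
 (.node 47 (.node 46 (.leaf 0x1a)
 (.leaf 0x19))
 (.node 48 (.leaf 0x7)
 (.leaf 0xe))))
 (.node 52 (.node 50 (.leaf 0x2b)
 (.node 51 (.leaf 0x3b)
 (.leaf 0x2c)))
 (.node 54 (.node 53 (.leaf 0x26)
 (.leaf 0xd))
 (.node 55 (.leaf 0xb)
 (.leaf 0x0)))))))

noncomputable def prf : List ℕ := [
0x100010000120000a000210001f000000000700015,
0x500014000100000d0001e0000e0000f000090001500004,
0x7000190001b000180001a0001e0001d0000d000010001700000,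
0x900000,
0x1500000,
0x1100000,
0x1900000,
0xc0001e0001c0001d0000b000210000300000,
0x1a00000,
0x2a00000,
0xc0000600000,
0x2900000,
0x2c00000,
0x1600000,
0x2300000,
0x140000b00000,
0x100000600001,
0x2800001,
0x1d00001,
0x2900001,
0x2f00001,
0x310000100000]

end D68

theorem inst_68 : instB 0 [0, 0] [1, 1, 24] [] D68.base D68.gads D68.names D68.cnf D68.db D68.prf = true := by decide +kernel

/-- no gadget has fewer than `2 R` new points. -/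
theorem p2_68 : D68.gads.all (fun g => Nat.ble (2 * g.R) g.gs.length) = true := by decide +kernel

/-- there is no configuration of this instance. -/
theorem no_68 {V : Type v} [DecidableEq V] {ι : Type u} [Fintype ι] {B : ι → Finset V}
    {Q : Finset V} {i j : ι} {x : ℕ → V} {D : ℕ → Finset V}
    (h : CfI B Q 0 x D i j [0, 0] [1, 1, 24]) : False :=
  h.absurd (by decide) srt_nil inst_68

end Pool.Agent.Hyp6
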