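import Pool.Agent.Hyp6.Cb5

/-!
# HYP6: instance 69 of the list: n = 0, bounds [0, 0], inner blocks [1, 1, 25]

39 base clauses, 16 gadgets, 34 learned clauses.
-/

set_option autoImplicit false
set_option maxRecDepth 100000

namespace Pool.Agent.Hyp6

open Rup

universe u v

namespace D69

noncomputable def names : Tr :=
 (.node 20 (.node 9 (.node 4 (.node 1 (.node 0 (.leaf 258)
 (.leaf 257))
 (.node 2 (.leaf 2306)
 (.node 3 (.leaf 2305)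
 (.leaf 66))))
 (.node 6 (.node 5 (.leaf 2114)
 (.leaf 130))
 (.node 7 (.leaf 2178)
 (.node 8 (.leaf 18)
 (.leaf 34)))))
 (.node 14 (.node 11 (.node 10 (.leaf 2066)
 (.leaf 2082))
 (.node 12 (.leaf 18817)
 (.node 13 (.leaf 18753)
 (.leaf 16705))))
 (.node 17 (.node 15 (.leaf 16769)
 (.node 16 (.leaf 16641)
 (.leaf 18689)))
 (.node 18 (.leaf 19)
 (.node 19 (.leaf 35)
 (.leaf 259))))))
 (.node 30 (.node 25 (.node 22 (.node 21 (.leaf 2307)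
 (.leaf 65))
 (.node 23 (.leaf 16449)
 (.node 24 (.leaf 129)
 (.leaf 16513))))
 (.node 27 (.node 26 (.leaf 2113)
 (.leaf 18497))
 (.node 28 (.leaf 2177)
 (.node 29 (.leaf 18561)
 (.leaf 16433)))))
 (.node 35 (.node 32 (.node 31 (.leaf 16465)
 (.leaf 16529))
 (.node 33 (.leaf 16481)
 (.node 34 (.leaf 16545)
 (.leaf 18481))))
 (.node 38 (.node 36 (.leaf 18577)
 (.node 37 (.leaf 18513)
 (.leaf 18593)))
 (.node 39 (.leaf 18529)
 (.node 40 (.leaf 16577)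
 (.leaf 18625)))))))

noncomputable def base : List Rs := [
.ordE 0 2 2,
.ordE 0 4 2,
.ordE 0 32 1,
.ordE 0 32 2,
.ordE 1 32 1,
.ordE 1 32 2,
.deg 1 [2, 1],
.deg 2 [2, 1],
.deg 3 [1, 1],
.deg 4 [1, 1],
.deg 5 [1, 2],
.deg 5 [2, 1],
.ab 0 3,
.ab 0 4,
.ab 0 5,
.ab 1 3,
.ab 1 4,
.ab 1 5,
.hall [0] [3, 5],
.hall [0] [4, 5],
.hall [1] [3, 5],
.hall [1] [4, 5],
.hall [0, 1] [5],
.part [6, 32] [0, 0] [25] [],
.part [10, 48] [0, 0] [5] [],
.part [18, 40] [0, 0] [5] [],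
.part [12, 48] [0, 0] [3] [],
.part [20, 40] [0, 0] [3] [],
.part [32, 6] [0, 0] [25] [],
.part [40, 18] [0, 0] [5] [],
.part [48, 10] [0, 0] [5] [],
.part [40, 20] [0, 0] [3] [],
.part [48, 12] [0, 0] [3] [],
.part [24, 32] [0, 0] [7] [],
.part [40, 16] [0, 0] [7] [],
.part [48, 8] [0, 0] [7] [],
.part [8, 48] [0, 0] [7] [],
.part [16, 40] [0, 0] [7] [],
.part [32, 24] [0, 0] [7] []]

noncomputable def gads : List Gt := [
⟨0, [⟨16, 2, []⟩, ⟨32, 2, []⟩], [3, 3, 3], 1, [(48, 1)]⟩,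
⟨0, [⟨8, 2, []⟩, ⟨32, 2, []⟩], [3, 3, 3], 1, [(40, 1)]⟩,
⟨1, [⟨16, 2, []⟩, ⟨32, 2, []⟩], [3, 3, 3], 1, [(48, 1)]⟩,
⟨1, [⟨8, 2, []⟩, ⟨32, 2, []⟩], [3, 3, 3], 1, [(40, 1)]⟩,
⟨0, [⟨2, 2, []⟩, ⟨4, 2, []⟩], [3, 3, 3], 1, [(6, 1)]⟩,
⟨1, [⟨2, 2, []⟩, ⟨4, 2, []⟩], [3, 3, 3], 1, [(6, 1)]⟩,
⟨0, [⟨2, 2, []⟩, ⟨8, 2, []⟩], [3, 3, 3], 1, [(10, 1)]⟩,
⟨0, [⟨2, 2, []⟩, ⟨16, 2, []⟩], [3, 3, 3], 1, [(18, 1)]⟩,
⟨0, [⟨4, 2, []⟩, ⟨8, 2, []⟩], [3, 3, 3], 1, [(12, 1)]⟩,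
⟨0, [⟨4, 2, []⟩, ⟨16, 2, []⟩], [3, 3, 3], 1, [(20, 1)]⟩,
⟨1, [⟨2, 2, []⟩, ⟨8, 2, []⟩], [3, 3, 3], 1, [(10, 1)]⟩,
⟨1, [⟨2, 2, []⟩, ⟨16, 2, []⟩], [3, 3, 3], 1, [(18, 1)]⟩,
⟨1, [⟨4, 2, []⟩, ⟨8, 2, []⟩], [3, 3, 3], 1, [(12, 1)]⟩,
⟨1, [⟨4, 2, []⟩, ⟨16, 2, []⟩], [3, 3, 3], 1, [(20, 1)]⟩,
⟨0, [⟨8, 2, []⟩, ⟨16, 2, []⟩], [3, 3, 3], 1, [(24, 1)]⟩,
⟨1, [⟨8, 2, []⟩, ⟨16, 2, []⟩], [3, 3, 3], 1, [(24, 1)]⟩]

noncomputable def cnf : List (List ℕ) := [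
[37, 16],
[39, 18],
[1, 2],
[41, 0],
[5, 6],
[43, 4],
[36, 20],
[38, 22],
[8, 10],
[12, 14],
[0, 42],
[40, 4],
[45, 47],
[49, 51],
[3, 33],
[53, 55],
[57, 59],
[7, 35],
[44, 2],
[48, 2],
[52, 6],
[56, 6],
[2, 6],
[60, 34],
[62, 24],
[64, 26],
[66, 24],
[68, 26],
[32, 70],
[28, 72],
[30, 74],
[28, 76],
[30, 78],
[80, 34],
[28, 58],
[30, 54],
[46, 24],
[50, 26],
[32, 82],
[13, 1, 31],
[9, 1, 29],
[15, 5, 25],
[11, 5, 27],
[17, 19, 61],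
[21, 23, 71],
[17, 9, 63],
[17, 13, 65],
[19, 9, 67],
[19, 13, 69],
[21, 11, 75],
[21, 15, 73],
[23, 11, 79],
[23, 15, 77],
[9, 13, 81],
[11, 15, 83]]

noncomputable def db : Tr :=
 (.node 44 (.node 22 (.node 11 (.node 5 (.node 2 (.node 1 (.leaf 0x120027)
 (.leaf 0x140029))
 (.node 3 (.leaf 0x40003)
 (.node 4 (.leaf 0x2002b)
 (.leaf 0x80007))))
 (.node 8 (.node 6 (.leaf 0x6002d)
 (.node 7 (.leaf 0x160026)
 (.leaf 0x180028)))
 (.node 9 (.leaf 0xc000a)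
 (.node 10 (.leaf 0x10000e)
 (.leaf 0x2c0002)))))
 (.node 16 (.node 13 (.node 12 (.leaf 0x6002a)
 (.leaf 0x31002f))
 (.node 14 (.leaf 0x350033)
 (.node 15 (.leaf 0x230005)
 (.leaf 0x390037))))
 (.node 19 (.node 17 (.leaf 0x3d003b)
 (.node 18 (.leaf 0x250009)
 (.leaf 0x4002e)))
 (.node 20 (.leaf 0x40032)
 (.node 21 (.leaf 0x80036)
 (.leaf 0x8003a))))))
 (.node 33 (.node 27 (.node 24 (.node 23 (.leaf 0x80004)
 (.leaf 0x24003e))
 (.node 25 (.leaf 0x1a0040)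
 (.node 26 (.leaf 0x1c0042)
 (.leaf 0x1a0044))))
 (.node 30 (.node 28 (.leaf 0x1c0046)
 (.node 29 (.leaf 0x480022)
 (.leaf 0x4a001e)))
 (.node 31 (.leaf 0x4c0020)
 (.node 32 (.leaf 0x4e001e)
 (.leaf 0x500020)))))
 (.node 38 (.node 35 (.node 34 (.leaf 0x240052)
 (.leaf 0x3c001e))
 (.node 36 (.leaf 0x380020)
 (.node 37 (.leaf 0x1a0030)
 (.leaf 0x1c0034))))
 (.node 41 (.node 39 (.leaf 0x540022)
 (.node 40 (.leaf 0x210003000f)
 (.leaf 0x1f0003000b)))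
 (.node 42 (.leaf 0x1b00070011)
 (.node 43 (.leaf 0x1d0007000d)
 (.leaf 0x3f00150013)))))))
 (.node 66 (.node 55 (.node 49 (.node 46 (.node 45 (.leaf 0x4900190017)
 (.leaf 0x41000b0013))
 (.node 47 (.leaf 0x43000f0013)
 (.node 48 (.leaf 0x45000b0015)
 (.leaf 0x47000f0015))))
 (.node 52 (.node 50 (.leaf 0x4d000d0017)
 (.node 51 (.leaf 0x4b00110017)
 (.leaf 0x51000d0019)))
 (.node 53 (.leaf 0x4f00110019)
 (.node 54 (.leaf 0x53000f000b)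
 (.leaf 0x550011000d)))))
 (.node 60 (.node 57 (.node 56 (.leaf 0x550021001f0003)
 (.leaf 0x53004f0045000b))
 (.node 58 (.leaf 0x5500510047000d)
 (.node 59 (.leaf 0x53004f0007000b)
 (.leaf 0x5500530051004f0007))))
 (.node 63 (.node 61 (.leaf 0x55004f00030021)
 (.node 62 (.leaf 0x55004f00030011)
 (.leaf 0x5300550051004f)))
 (.node 64 (.leaf 0x5500530051000f)
 (.node 65 (.leaf 0x5500530051)
 (.leaf 0x55002100110019))))))
 (.node 77 (.node 71 (.node 68 (.node 67 (.leaf 0x5500210003)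
 (.leaf 0x5500210011))
 (.node 69 (.leaf 0x550053)
 (.node 70 (.leaf 0x55)
 (.leaf 0x22))))
 (.node 74 (.node 72 (.leaf 0x5)
 (.node 73 (.leaf 0x3)
 (.leaf 0x2e)))
 (.node 75 (.leaf 0x32)
 (.node 76 (.leaf 0x8)
 (.leaf 0x2b)))))
 (.node 83 (.node 80 (.node 78 (.leaf 0x31)
 (.node 79 (.leaf 0x35)
 (.leaf 0x25)))
 (.node 81 (.leaf 0x6)
 (.node 82 (.leaf 0x1a)
 (.leaf 0x1c))))
 (.node 86 (.node 84 (.leaf 0x52)
 (.node 85 (.leaf 0x11)
 (.leaf 0xd)))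
 (.node 87 (.leaf 0xe)
 (.node 88 (.leaf 0xa)
 (.leaf 0x0))))))))

noncomputable def prf : List ℕ := [
0x2e0002d0000e0000f,
0x3000003000360002e0000800002,
0x8000370002f000310000200005,
0x100001f000300000100004,
0x1f00001000100003200000,
0x3b0003500010000090001e000240002a0003a00026000340002b0000700019000320000400014,
0x360003c0000a000110001f0003b0001400035000340000800006000250002b000280002d0001900000,
0x370003d0000c0001f000120003c000360000a00035000080003400000000260002c000290002e0001a00001000330003800002,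
0x27000130002d0003e0002a000380002f0000d0001b00020000170003400039000140003d0002300037000050000b0003600009,
0x23000130003100038000390002d0003e0003f0003300010000120001b000250002700016000340003c00017000370000900036000000002000001,
0x2400014000320003a0002e0004000034000130001c0002800017000350003d00009000210000c000380000a,
0x22000050000a,
0x1300041000280003b0003a00019000010000c000370003f00000,
0x2700017000350003c0003d0003000042000430003600013000150001e000280002a000190003b0000e0003a000000003800040000010002300003,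
0x2000210003a000350003f0003000040000330002300000,
0x1f00000,
0x3800000,
0x4500000,
0x3600001,
0x3600002,
0x3400003,
0x4800003,
0x4000003,
0x4000003,
0x3d00003,
0x4400003,
0x2c00003,
0x2c00003,
0x3100003,
0x2a0000300002,
0x2a0000400002,
0x4c00001,
0x4e00001,
0x22000040000000001]

end D69

theorem inst_69 : instB 0 [0, 0] [1, 1, 25] [] D69.base D69.gads D69.names D69.cnf D69.db D69.prf = true := by decide +kernel

/-- no gadget has fewer than `2 R` new points. -/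
theorem p2_69 : D69.gads.all (fun g => Nat.ble (2 * g.R) g.gs.length) = true := by decide +kernel

/-- there is no configuration of this instance. -/
theorem no_69 {V : Type v} [DecidableEq V] {ι : Type u} [Fintype ι] {B : ι → Finset V}
    {Q : Finset V} {i j : ι} {x : ℕ → V} {D : ℕ → Finset V}
    (h : CfI B Q 0 x D i j [0, 0] [1, 1, 25]) : False :=
  h.absurd (by decide) srt_nil inst_69

end Pool.Agent.Hyp6
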