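import Pool.Agent.Hyp6.Cb5

/-!
# HYP6: instance 70 of the list: n = 0, bounds [0, 0], inner blocks [1, 1, 26]

28 base clauses, 6 gadgets, 17 learned clauses.
-/

set_option autoImplicit false
set_option maxRecDepth 100000

namespace Pool.Agent.Hyp6

open Rup

universe u v

namespace D70

noncomputable def names : Tr :=
 (.node 13 (.node 6 (.node 2 (.node 0 (.leaf 2178)
 (.node 1 (.leaf 66)
 (.leaf 2305)))
 (.node 4 (.node 3 (.leaf 257)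
 (.leaf 2306))
 (.node 5 (.leaf 2113)
 (.leaf 130))))
 (.node 9 (.node 7 (.leaf 65)
 (.node 8 (.leaf 258)
 (.leaf 2307)))
 (.node 11 (.node 10 (.leaf 2114)
 (.leaf 2177))
 (.node 12 (.leaf 18561)
 (.leaf 16449)))))
 (.node 20 (.node 16 (.node 14 (.leaf 18817)
 (.node 15 (.leaf 16641)
 (.leaf 129)))
 (.node 18 (.node 17 (.leaf 2179)
 (.leaf 18497))
 (.node 19 (.leaf 67)
 (.leaf 18625))))
 (.node 23 (.node 21 (.leaf 16769)
 (.node 22 (.leaf 16513)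
 (.leaf 18753)))
 (.node 25 (.node 24 (.leaf 16705)
 (.leaf 2308))
 (.node 26 (.leaf 18689)
 (.leaf 16577))))))

noncomputable def base : List Rs := [
.hall [1] [3, 5],
.ab 1 4,
.part [8, 48] [0, 0] [7] [],
.hall [0, 1] [5],
.ab 0 5,
.deg 4 [0, 2],
.deg 4 [1, 1],
.ab 1 3,
.ordE 1 32 1,
.ordE 0 8 2,
.deg 3 [2, 0],
.part [32, 24] [0, 0] [7] [],
.hall [0] [3, 5],
.deg 5 [1, 2],
.part [48, 8] [0, 0] [7] [],
.ordE 0 8 1,
.part [16, 40] [0, 0] [7] [],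
.ordE 1 16 1,
.ordE 1 32 2,
.part [40, 16] [0, 0] [7] [],
.deg 5 [0, 3],
.ab 1 5,
.ab 0 3,
.part [24, 32] [0, 0] [7] [],
.ordE 1 32 3,
.ab 0 4,
.ordE 1 16 2,
.deg 3 [1, 1]]

noncomputable def gads : List Gt := [
⟨0, [⟨8, 2, []⟩, ⟨16, 2, []⟩], [3, 3, 3], 1, [(24, 1)]⟩,
⟨0, [⟨16, 2, []⟩, ⟨32, 2, []⟩], [3, 3, 3], 1, [(48, 1)]⟩,
⟨1, [⟨8, 2, []⟩, ⟨32, 2, []⟩], [3, 3, 3], 1, [(40, 1)]⟩,
⟨1, [⟨16, 2, []⟩, ⟨32, 2, []⟩], [3, 3, 3], 1, [(48, 1)]⟩,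
⟨1, [⟨8, 2, []⟩, ⟨16, 2, []⟩], [3, 3, 3], 1, [(24, 1)]⟩,
⟨0, [⟨8, 2, []⟩, ⟨32, 2, []⟩], [3, 3, 3], 1, [(40, 1)]⟩]

noncomputable def cnf : List (List ℕ) := [
[10, 4],
[23, 25],
[26, 28],
[6, 4],
[7, 31],
[32, 34],
[12, 0],
[11, 37],
[9, 4],
[39, 2],
[38, 10],
[30, 40],
[14, 6],
[16, 18],
[42, 36],
[3, 14],
[44, 46],
[1, 22],
[19, 8],
[48, 24],
[6, 50],
[5, 53],
[15, 27],
[54, 52],
[51, 18],
[33, 45],
[35, 0],
[2, 20],
[3, 13, 55],
[13, 17, 43],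
[21, 9, 47],
[1, 9, 29],
[21, 1, 41],
[3, 17, 49]]

noncomputable def db : Tr :=
 (.node 25 (.node 12 (.node 6 (.node 3 (.node 1 (.leaf 0x6000c)
 (.node 2 (.leaf 0x1b0019)
 (.leaf 0x1e001c)))
 (.node 4 (.leaf 0x60008)
 (.node 5 (.leaf 0x210009)
 (.leaf 0x240022))))
 (.node 9 (.node 7 (.leaf 0x2000e)
 (.node 8 (.leaf 0x27000d)
 (.leaf 0x6000b)))
 (.node 10 (.leaf 0x40029)
 (.node 11 (.leaf 0xc0028)
 (.leaf 0x2a0020)))))
 (.node 18 (.node 15 (.node 13 (.leaf 0x80010)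
 (.node 14 (.leaf 0x140012)
 (.leaf 0x26002c)))
 (.node 16 (.leaf 0x100005)
 (.node 17 (.leaf 0x30002e)
 (.leaf 0x180003))))
 (.node 21 (.node 19 (.leaf 0xa0015)
 (.node 20 (.leaf 0x1a0032)
 (.leaf 0x340008)))
 (.node 23 (.node 22 (.leaf 0x370007)
 (.leaf 0x1d0011))
 (.node 24 (.leaf 0x360038)
 (.leaf 0x140035))))))
 (.node 38 (.node 31 (.node 28 (.node 26 (.leaf 0x2f0023)
 (.node 27 (.leaf 0x20025)
 (.leaf 0x160004)))
 (.node 29 (.leaf 0x39000f0005)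
 (.node 30 (.leaf 0x2d0013000f)
 (.leaf 0x31000b0017))))
 (.node 34 (.node 32 (.leaf 0x1f000b0003)
 (.node 33 (.leaf 0x2b00030017)
 (.leaf 0x3300130005)))
 (.node 36 (.node 35 (.leaf 0x170006)
 (.leaf 0x17002d0014))
 (.node 37 (.leaf 0x17000b)
 (.leaf 0x17)))))
 (.node 44 (.node 41 (.node 39 (.leaf 0x4)
 (.node 40 (.leaf 0x10)
 (.leaf 0x1d)))
 (.node 42 (.leaf 0x1e)
 (.node 43 (.leaf 0xf)
 (.leaf 0x2))))
 (.node 47 (.node 45 (.leaf 0x18)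
 (.node 46 (.leaf 0xb)
 (.leaf 0x1b)))
 (.node 49 (.node 48 (.leaf 0x15)
 (.leaf 0x32))
 (.node 50 (.leaf 0x12)
 (.leaf 0x0)))))))

noncomputable def prf : List ℕ := [
0x1b00004000010001400016000130000f0001d0001a000190001e00021,
0x17000020001e0001c0000e000050000a00015,
0x170000d0001f00021000180000400003000090001e0000a0001300005,
0xd000080001e0001b000040001a000190001d000200001600010000010000c00012000000000f00002,
0xa00000,
0x1700000,
0x1100000,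
0x2600000,
0xc0001c0001b0001700022000210002900014000120000d00003,
0x2400000,
0x1a00000,
0xd0000300001,
0x2c00001,
0x1c00001,
0x1c00001,
0x2300001,
0x100000b0000000001]

end D70

theorem inst_70 : instB 0 [0, 0] [1, 1, 26] [] D70.base D70.gads D70.names D70.cnf D70.db D70.prf = true := by decide +kernel

/-- no gadget has fewer than `2 R` new points. -/
theorem p2_70 : D70.gads.all (fun g => Nat.ble (2 * g.R) g.gs.length) = true := by decide +kernel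

/-- there is no configuration of this instance. -/
theorem no_70 {V : Type v} [DecidableEq V] {ι : Type u} [Fintype ι] {B : ι → Finset V}
    {Q : Finset V} {i j : ι} {x : ℕ → V} {D : ℕ → Finset V}
    (h : CfI B Q 0 x D i j [0, 0] [1, 1, 26]) : False :=
  h.absurd (by decide) srt_nil inst_70

end Pool.Agent.Hyp6
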