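import Pool.Agent.Hyp6.Cb5

/-!
# HYP6: instance 71 of the list: n = 0, bounds [0, 0], inner blocks [1, 1, 56]

39 base clauses, 12 gadgets, 35 learned clauses.
-/

set_option autoImplicit false
set_option maxRecDepth 100000

namespace Pool.Agent.Hyp6

open Rup

universe u v

namespace D71

noncomputable def names : Tr :=
 (.node 21 (.node 10 (.node 4 (.node 1 (.node 0 (.leaf 66)
 (.leaf 130))
 (.node 2 (.leaf 2306)
 (.node 3 (.leaf 2305)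
 (.leaf 18817))))
 (.node 7 (.node 5 (.leaf 18753)
 (.node 6 (.leaf 34)
 (.leaf 9)))
 (.node 8 (.leaf 18)
 (.node 9 (.leaf 2082)
 (.leaf 2114)))))
 (.node 15 (.node 12 (.node 11 (.leaf 2113)
 (.leaf 2178))
 (.node 13 (.leaf 257)
 (.node 14 (.leaf 258)
 (.leaf 35))))
 (.node 18 (.node 16 (.leaf 67)
 (.node 17 (.leaf 131)
 (.leaf 2067)))
 (.node 19 (.leaf 2066)
 (.node 20 (.leaf 2307)
 (.leaf 2058))))))
 (.node 32 (.node 26 (.node 23 (.node 22 (.leaf 2177)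
 (.leaf 16393))
 (.node 24 (.leaf 17)
 (.node 25 (.leaf 16401)
 (.leaf 65))))
 (.node 29 (.node 27 (.leaf 16449)
 (.node 28 (.leaf 129)
 (.leaf 16513)))
 (.node 30 (.leaf 16641)
 (.node 31 (.leaf 18497)
 (.leaf 18561)))))
 (.node 37 (.node 34 (.node 33 (.leaf 18689)
 (.leaf 18481))
 (.node 35 (.leaf 18473)
 (.node 36 (.leaf 16465)
 (.leaf 16529))))
 (.node 40 (.node 38 (.leaf 16481)
 (.node 39 (.leaf 16545)
 (.leaf 16577)))
 (.node 41 (.leaf 16705)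
 (.node 42 (.leaf 16769)
 (.leaf 18625)))))))

noncomputable def base : List Rs := [
.ordE 0 4 2,
.ordE 0 8 2,
.ordE 0 16 2,
.ordE 1 2 2,
.ordE 1 32 1,
.ordE 1 32 2,
.deg 0 [0, 1],
.deg 1 [1, 2],
.deg 2 [2, 1],
.deg 3 [1, 1],
.deg 3 [2, 0],
.deg 4 [1, 1],
.deg 4 [2, 0],
.deg 5 [0, 2],
.deg 5 [1, 1],
.ab 0 0,
.ab 0 1,
.ab 0 3,
.ab 0 4,
.ab 0 5,
.ab 1 3,
.ab 1 4,
.ab 1 5,
.hall [0] [0, 1],
.hall [0] [3, 4],
.hall [1] [3, 5],
.hall [0, 1] [5],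
.part [1, 6] [0, 0] [56] [],
.part [2, 5] [0, 0] [56] [],
.part [10, 48] [0, 0] [5] [],
.part [18, 40] [0, 0] [5] [],
.part [12, 48] [0, 0] [3] [],
.part [20, 40] [0, 0] [3] [],
.part [24, 32] [0, 0] [7] [],
.part [40, 16] [0, 0] [7] [],
.part [48, 8] [0, 0] [7] [],
.part [8, 48] [0, 0] [7] [],
.part [16, 40] [0, 0] [7] [],
.part [32, 24] [0, 0] [7] []]

noncomputable def gads : List Gt := [
⟨0, [⟨8, 2, []⟩, ⟨32, 2, []⟩], [3, 3, 3], 1, [(40, 1)]⟩,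
⟨0, [⟨8, 2, []⟩, ⟨16, 2, []⟩], [3, 3, 3], 1, [(24, 1)]⟩,
⟨0, [⟨16, 2, []⟩, ⟨32, 2, []⟩], [3, 3, 3], 1, [(48, 1)]⟩,
⟨1, [⟨8, 2, []⟩, ⟨32, 2, []⟩], [3, 3, 3], 1, [(40, 1)]⟩,
⟨1, [⟨8, 2, []⟩, ⟨16, 2, []⟩], [3, 3, 3], 1, [(24, 1)]⟩,
⟨1, [⟨16, 2, []⟩, ⟨32, 2, []⟩], [3, 3, 3], 1, [(48, 1)]⟩,
⟨1, [⟨1, 2, []⟩, ⟨4, 2, []⟩], [3, 3, 3], 1, [(5, 1)]⟩,
⟨0, [⟨2, 2, []⟩, ⟨8, 2, []⟩], [3, 3, 3], 1, [(10, 1)]⟩,
⟨0, [⟨2, 2, []⟩, ⟨16, 2, []⟩], [3, 3, 3], 1, [(18, 1)]⟩,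
⟨0, [⟨4, 2, []⟩, ⟨8, 2, []⟩], [3, 3, 3], 1, [(12, 1)]⟩,
⟨0, [⟨4, 2, []⟩, ⟨16, 2, []⟩], [3, 3, 3], 1, [(20, 1)]⟩,
⟨1, [⟨2, 2, []⟩, ⟨4, 2, []⟩], [3, 3, 3], 1, [(6, 1)]⟩]

noncomputable def cnf : List (List ℕ) := [
[31, 12],
[33, 0],
[35, 2],
[37, 38],
[5, 6],
[41, 4],
[14, 42],
[16, 36],
[30, 18],
[0, 20],
[32, 22],
[2, 24],
[34, 44],
[26, 40],
[28, 4],
[15, 47],
[49, 51],
[53, 55],
[57, 59],
[27, 61],
[23, 63],
[45, 65],
[7, 67],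
[14, 48],
[52, 56],
[22, 6],
[26, 6],
[46, 68],
[50, 70],
[72, 8],
[74, 10],
[76, 8],
[78, 10],
[80, 66],
[82, 64],
[84, 62],
[54, 8],
[58, 10],
[60, 86],
[1, 29, 83],
[1, 3, 81],
[3, 29, 85],
[21, 5, 11],
[21, 25, 87],
[25, 5, 9],
[43, 19, 71],
[17, 1, 73],
[17, 3, 75],
[13, 1, 77],
[13, 3, 79],
[39, 19, 69]]

noncomputable def db : Tr :=
 (.node 43 (.node 21 (.node 10 (.node 5 (.node 2 (.node 1 (.leaf 0xe0021)
 (.leaf 0x20023))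
 (.node 3 (.leaf 0x40025)
 (.node 4 (.leaf 0x280027)
 (.leaf 0x80007))))
 (.node 7 (.node 6 (.leaf 0x6002b)
 (.leaf 0x2c0010))
 (.node 8 (.leaf 0x260012)
 (.node 9 (.leaf 0x140020)
 (.leaf 0x160002)))))
 (.node 15 (.node 12 (.node 11 (.leaf 0x180022)
 (.leaf 0x1a0004))
 (.node 13 (.leaf 0x2e0024)
 (.node 14 (.leaf 0x2a001c)
 (.leaf 0x6001e))))
 (.node 18 (.node 16 (.leaf 0x310011)
 (.node 17 (.leaf 0x350033)
 (.leaf 0x390037)))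
 (.node 19 (.leaf 0x3d003b)
 (.node 20 (.leaf 0x3f001d)
 (.leaf 0x410019))))))
 (.node 32 (.node 26 (.node 23 (.node 22 (.leaf 0x43002f)
 (.leaf 0x450009))
 (.node 24 (.leaf 0x320010)
 (.node 25 (.leaf 0x3a0036)
 (.leaf 0x80018))))
 (.node 29 (.node 27 (.leaf 0x8001c)
 (.node 28 (.leaf 0x460030)
 (.leaf 0x480034)))
 (.node 30 (.leaf 0xa004a)
 (.node 31 (.leaf 0xc004c)
 (.leaf 0xa004e)))))
 (.node 37 (.node 34 (.node 33 (.leaf 0xc0050)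
 (.leaf 0x440052))
 (.node 35 (.leaf 0x420054)
 (.node 36 (.leaf 0x400056)
 (.leaf 0xa0038))))
 (.node 40 (.node 38 (.leaf 0xc003c)
 (.node 39 (.leaf 0x58003e)
 (.leaf 0x55001f0003)))
 (.node 41 (.leaf 0x5300050003)
 (.node 42 (.leaf 0x57001f0005)
 (.leaf 0xd00070017)))))))
 (.node 64 (.node 53 (.node 48 (.node 45 (.node 44 (.leaf 0x59001b0017)
 (.leaf 0xb0007001b))
 (.node 46 (.leaf 0x490015002d)
 (.node 47 (.leaf 0x4b00030013)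
 (.leaf 0x4d00050013))))
 (.node 50 (.node 49 (.leaf 0x4f0003000f)
 (.leaf 0x510005000f))
 (.node 51 (.leaf 0x4700150029)
 (.node 52 (.leaf 0x5900570055001f)
 (.leaf 0x150029)))))
 (.node 58 (.node 55 (.node 54 (.leaf 0x70053004f0003)
 (.leaf 0x59000700510017))
 (.node 56 (.leaf 0x700530003)
 (.node 57 (.leaf 0x5900070017)
 (.leaf 0x590007))))
 (.node 61 (.node 59 (.leaf 0x590057)
 (.node 60 (.leaf 0x59)
 (.leaf 0x3e)))
 (.node 62 (.leaf 0x1d)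
 (.node 63 (.leaf 0x2a)
 (.leaf 0x8))))))
 (.node 75 (.node 69 (.node 66 (.node 65 (.leaf 0x6)
 (.leaf 0x45))
 (.node 67 (.leaf 0x52)
 (.node 68 (.leaf 0x3)
 (.leaf 0x16))))
 (.node 72 (.node 70 (.leaf 0xd)
 (.node 71 (.leaf 0x4c)
 (.leaf 0x50)))
 (.node 73 (.leaf 0x3c)
 (.node 74 (.leaf 0x3b)
 (.leaf 0x36)))))
 (.node 80 (.node 77 (.node 76 (.leaf 0x39)
 (.leaf 0xa))
 (.node 78 (.leaf 0x1b)
 (.node 79 (.leaf 0x4)
 (.leaf 0xf))))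
 (.node 83 (.node 81 (.leaf 0x13)
 (.node 82 (.leaf 0x21)
 (.leaf 0x26)))
 (.node 84 (.leaf 0x14)
 (.node 85 (.leaf 0x28)
 (.leaf 0x0))))))))

noncomputable def prf : List ℕ := [
0x70002700029000090000b,
0x1700023000060001c0002d000240001800001,
0x310002d0000600017000080002c00029000340000c00004,
0x1000320002d0002e0003500006000040002a000170000a0000b,
0xa000170002b000010000e,
0x17000010000d,
0x10002f00017000000002200034,
0x240002d000170003700006000100002b00000,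
0x2e000380002500012000180001900013000240003900021000300002600017000000002c00001,
0x1500000,
0x2900000,
0x3000000,
0x2400001,
0x3a00001,
0x2a00001,
0x2000000,
0xb0000200000,
0x3a00000,
0x1a0000400000,
0x2700000,
0x2600001,
0x2200002,
0x3600000,
0x3100000,
0x3900000,
0x2700000,
0x200000c00000,
0x4200000,
0x1d0000700000,
0x200000900001,
0x5000001,
0x4a00001,
0x4a00001,
0x5000001,
0x200000100000]

end D71

theorem inst_71 : instB 0 [0, 0] [1, 1, 56] [] D71.base D71.gads D71.names D71.cnf D71.db D71.prf = true := by decide +kernel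

/-- no gadget has fewer than `2 R` new points. -/
theorem p2_71 : D71.gads.all (fun g => Nat.ble (2 * g.R) g.gs.length) = true := by decide +kernel

/-- there is no configuration of this instance. -/
theorem no_71 {V : Type v} [DecidableEq V] {ι : Type u} [Fintype ι] {B : ι → Finset V}
    {Q : Finset V} {i j : ι} {x : ℕ → V} {D : ℕ → Finset V}
    (h : CfI B Q 0 x D i j [0, 0] [1, 1, 56]) : False :=
  h.absurd (by decide) srt_nil inst_71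

end Pool.Agent.Hyp6
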