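import Pool.Agent.Hyp6.Cseg2
import Pool.Agent.Hyp6.Ins.E72

/-!
# HYP6: instance 72 of the list: n = 1, bounds [0, 0, 6], inner blocks []

594 base clauses, 175 gadgets, 569 learned clauses.
-/

set_option autoImplicit false
set_option maxRecDepth 100000

namespace Pool.Agent.Hyp6

open Rup

universe u v

namespace D72

noncomputable def base : List Rs := [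
.join 1 16 6 2 1 1 [(4, 0)],
.join 2 4 5 4 4 3 [(2, 3)],
.join 2 8 6 4 3 4 [(3, 3)],
.ab2 0 24,
.part [80, 32, 8] [0, 0, 0] [7] [],
.l2 2 20 36 2 2 2,
.deg 0 [3, 0, 0],
.ordE 2 64 1,
.deg 1 [0, 1, 2],
.ab2 1 18,
.lip 0 24 31 7,
.join 1 2 4 2 0 2 [(1, 0)],
.ab2 0 48,
.part [65, 16, 36] [0, 0, 0] [] [(0, 10)],
.mono 1 4 36 1,
.ab2 1 68,
.join 1 2 6 2 2 0 [(1, 0)],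
.l2 2 34 40 5 1 2,
.part [80, 2, 36] [0, 0, 0] [] [(0, 9)],
.part [4, 1, 66] [0, 0, 0] [56] [],
.part [68, 2, 1] [0, 0, 0] [56] [],
.deg 4 [1, 0, 2],
.part [104, 17, 6] [1, 0, 0] [] [],
.part [96, 16, 8] [0, 0, 0] [7] [],
.un 2 1,
.part [2, 1, 68] [0, 0, 0] [56] [],
.part [3, 8, 96] [0, 0, 0] [] [(2, 20)],
.join 1 16 5 2 1 1 [(4, 0)],
.deg 4 [0, 1, 2],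
.lip 1 0 56 56,
.join 1 4 4 2 0 2 [(2, 0)],
.join 2 2 2 4 1 3 [(1, 0)],
.part [5, 58, 64] [0, 1, 0] [] [],
.join 2 16 6 5 2 3 [(4, 0)],
.deg 3 [1, 0, 2],
.l2 2 10 40 3 2 2,
.join 2 4 3 4 3 2 [(2, 1)],
.deg 4 [0, 0, 3],
.hall [1] [0, 1, 2],
.ordE 0 32 2,
.deg 6 [0, 0, 4],
.le 1 18 2 1 1,
.part [80, 8, 32] [0, 0, 0] [7] [],
.part [73, 20, 34] [1, 0, 0] [] [],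
.part [71, 48, 8] [1, 0, 0] [] [],
.ab2 2 96,
.l2 2 3 34 1 1 2,
.l2 1 68 72 6 1 1,
.srt 0 5 0 4 2,
.ordE 0 8 3,
.deg 2 [1, 1, 1],
.join 0 16 6 2 1 1 [(4, 0)],
.part [65, 4, 2] [0, 0, 0] [56] [],
.part [9, 18, 64] [0, 0, 0] [] [(2, 36)],
.join 1 32 6 2 1 1 [(5, 0)],
.part [61, 64, 2] [1, 0, 0] [] [],
.join 1 4 6 2 1 1 [(2, 0)],
.join 1 8 4 2 1 1 [(3, 0)],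
.ab2 1 12,
.deg 2 [1, 0, 2],
.join 2 2 6 5 2 3 [(1, 0)],
.part [1, 12, 34] [0, 0, 0] [] [(2, 80)],
.part [81, 10, 36] [1, 0, 0] [] [],
.ab2 0 10,
.part [3, 60, 64] [0, 1, 0] [] [],
.deg 3 [2, 0, 1],
.join 0 8 6 2 1 2 [(3, 1)],
.deg 0 [2, 1, 0],
.ab2 1 34,
.part [10, 36, 64] [0, 0, 0] [] [(2, 17)],
.ab2 1 33,
.ab 0 0,
.ab 2 6,
.deg 5 [1, 2, 0],
.mono 1 16 17 1,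
.join 1 8 6 2 1 1 [(3, 0)],
.part [10, 33, 64] [0, 0, 0] [] [(2, 20)],
.part [3, 56, 68] [0, 1, 0] [] [],
.join 1 2 5 2 0 2 [(1, 0)],
.hall [2] [3, 5, 6],
.deg 6 [1, 0, 3],
.deg 6 [2, 2, 0],
.hall [0] [4, 5, 6],
.hall [1] [4, 5, 6],
.ab2 2 6,
.un 1 4,
.part [32, 31, 64] [0, 1, 0] [] [],
.join 2 2 5 4 2 3 [(1, 1)],
.ab 0 2,
.ordE 2 2 1,
.part [9, 112, 6] [0, 1, 0] [] [],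
.ab2 1 17,
.join 1 4 5 2 1 1 [(2, 0)],
.join 2 2 5 4 2 2 [(1, 0)],
.join 0 1 4 2 1 1 [(0, 0)],
.part [29, 32, 66] [1, 0, 0] [] [],
.lip 0 3 59 56,
.deg 1 [1, 2, 0],
.join 2 2 5 4 3 2 [(1, 1)],
.join 2 4 4 4 5 2 [(2, 3)],
.un 1 5,
.join 2 2 4 5 2 3 [(1, 0)],
.le 1 18 16 4 1,
.deg 2 [0, 1, 2],
.l2 2 24 80 4 1 2,
.join 2 8 4 4 3 2 [(3, 1)],
.le 1 36 4 2 2,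
.join 0 1 1 2 1 1 [(0, 0)],
.part [64, 10, 53] [0, 0, 1] [] [],
.le 2 72 8 3 4,
.join 2 1 2 4 2 2 [(0, 0)],
.join 0 2 6 2 1 1 [(1, 0)],
.lip 0 9 73 64,
.lipl 0 1 73 2 72,
.deg 5 [2, 1, 0],
.lipl 0 1 81 2 80,
.l2 2 33 34 5 2 2,
.join 2 2 2 4 1 4 [(1, 1)],
.l2 1 20 68 2 1 1,
.l2 0 6 10 1 1 1,
.part [16, 72, 32] [0, 0, 0] [7] [],
.deg 5 [2, 0, 1],
.part [9, 54, 64] [0, 1, 0] [] [],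
.part [64, 2, 61] [0, 0, 1] [] [],
.part [59, 64, 4] [1, 0, 0] [] [],
.part [120, 3, 4] [1, 0, 0] [] [],
.mono 1 16 80 1,
.join 2 2 4 4 3 3 [(1, 2)],
.l2 2 6 20 2 2 2,
.srt 0 2 0 1 3,
.l2 2 10 24 3 2 2,
.part [2, 4, 65] [0, 0, 0] [56] [],
.part [33, 20, 64] [0, 0, 0] [] [(2, 10)],
.join 2 4 4 4 2 3 [(2, 1)],
.deg 0 [2, 0, 1],
.part [31, 64, 32] [1, 0, 0] [] [],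
.join 2 8 6 4 2 4 [(3, 2)],
.deg 1 [3, 0, 0],
.l2 0 9 17 0 1 1,
.ordE 0 1 2,
.ordE 1 32 1,
.lip 1 4 60 56,
.part [24, 7, 96] [0, 1, 0] [] [],
.join 2 1 4 4 2 2 [(0, 0)],
.join 2 32 6 5 2 3 [(5, 0)],
.lip 1 48 55 7,
.join 2 16 5 4 2 3 [(4, 1)],
.lip 1 6 62 56,
.part [67, 12, 48] [1, 0, 0] [] [],
.ab2 2 68,
.join 2 1 5 4 2 3 [(0, 1)],
.part [88, 34, 5] [1, 0, 0] [] [],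
.part [8, 80, 32] [0, 0, 0] [7] [],
.lip 2 24 31 7,
.deg 1 [0, 0, 3],
.part [1, 64, 62] [0, 0, 1] [] [],
.join 1 2 5 2 1 1 [(1, 0)],
.mono 1 4 20 1,
.l2 0 48 96 5 1 1,
.part [72, 2, 33] [0, 0, 0] [] [(2, 20)],
.join 2 2 5 4 5 3 [(1, 4)],
.part [64, 34, 12] [0, 0, 0] [] [(2, 17)],
.mono 1 64 65 1,
.join 2 4 6 4 3 4 [(2, 3)],
.part [16, 64, 47] [0, 0, 1] [] [],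
.l2 2 6 36 2 1 3,
.part [9, 20, 34] [0, 0, 0] [64] [],
.ordE 0 2 2,
.ab2 2 48,
.part [69, 10, 48] [1, 0, 0] [] [],
.ordE 0 64 1,
.part [9, 34, 20] [0, 0, 0] [64] [],
.join 1 4 5 2 1 2 [(2, 1)],
.lipl 2 66 102 2 36,
.join 2 16 5 4 2 2 [(4, 0)],
.part [64, 32, 31] [0, 0, 1] [] [],
.join 2 4 5 4 3 2 [(2, 1)],
.join 0 32 6 2 1 1 [(5, 0)],
.join 0 32 6 2 0 2 [(5, 0)],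
.join 1 4 5 2 0 2 [(2, 0)],
.join 1 4 3 2 1 1 [(2, 0)],
.part [72, 32, 16] [0, 0, 0] [7] [],
.join 1 2 2 2 2 0 [(1, 0)],
.part [17, 36, 64] [0, 0, 0] [] [(2, 10)],
.l2 2 12 20 2 2 2,
.ab2 1 20,
.ab 0 5,
.join 2 8 6 4 1 4 [(3, 1)],
.srt 0 1 0 0 1,
.le 2 96 32 5 4,
.part [40, 23, 64] [0, 1, 0] [] [],
.ordE 2 4 2,
.l2 2 5 36 2 1 2,
.part [24, 39, 64] [0, 1, 0] [] [],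
.part [1, 30, 96] [0, 1, 0] [] [],
.un 0 5,
.l2 2 36 40 5 3 1,
.part [9, 2, 36] [0, 0, 0] [] [(2, 80)],
.part [64, 18, 12] [0, 0, 0] [] [(2, 33)],
.srt 0 2 0 1 1,
.l2 2 5 20 2 2 1,
.ab2 2 72,
.l2 0 17 48 4 1 1,
.join 2 1 6 5 0 5 [(0, 0)],
.lip 1 0 7 7,
.l2 2 6 20 2 2 3,
.l2 2 18 34 1 3 2,
.lip 1 5 61 56,
.join 1 1 1 2 1 1 [(0, 0)],
.l2 2 66 80 6 1 3,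
.join 2 16 6 4 3 3 [(4, 2)],
.srt 1 6 0 6 1,
.ordE 1 16 1,
.lipl 1 34 54 1 20,
.join 2 1 2 4 3 2 [(0, 1)],
.mono 0 32 34 1,
.join 2 4 3 4 2 3 [(2, 1)],
.l2 0 9 12 3 1 1,
.deg 2 [2, 1, 0],
.part [68, 1, 2] [0, 0, 0] [56] [],
.part [8, 16, 96] [0, 0, 0] [7] [],
.lip 2 6 62 56,
.join 0 8 4 2 1 1 [(3, 0)],
.part [120, 5, 2] [1, 0, 0] [] [],
.part [4, 59, 64] [0, 1, 0] [] [],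
.join 1 2 2 2 1 1 [(1, 0)],
.part [64, 16, 47] [0, 0, 1] [] [],
.part [64, 17, 46] [0, 0, 1] [] [],
.join 2 32 6 5 3 3 [(5, 1)],
.join 0 2 3 2 1 1 [(1, 0)],
.part [8, 33, 20] [0, 0, 0] [] [(2, 66)],
.l2 2 6 20 2 1 2,
.deg 6 [1, 1, 2],
.part [73, 34, 20] [1, 0, 0] [] [],
.le 2 72 8 3 2,
.join 2 4 4 5 2 3 [(2, 0)],
.ab2 1 96,
.part [16, 32, 72] [0, 0, 0] [7] [],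
.part [9, 32, 20] [0, 0, 0] [] [(2, 66)],
.deg 5 [1, 0, 2],
.part [17, 64, 46] [0, 0, 1] [] [],
.part [10, 17, 64] [0, 0, 0] [] [(2, 36)],
.join 1 4 6 2 2 0 [(2, 0)],
.part [1, 72, 54] [0, 0, 1] [] [],
.l2 2 12 20 2 2 1,
.part [9, 16, 36] [0, 0, 0] [] [(2, 66)],
.hall [2] [0, 1, 6],
.part [120, 6, 1] [1, 0, 0] [] [],
.join 2 4 5 5 2 3 [(2, 0)],
.lipl 1 12 30 2 18,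
.mono 1 64 68 1,
.join 2 8 5 5 2 3 [(3, 0)],
.join 1 16 6 2 2 0 [(4, 0)],
.le 0 96 32 5 1,
.hall [2] [3, 4, 6],
.lip 1 1 57 56,
.join 2 2 2 4 2 3 [(1, 1)],
.lipl 2 34 102 2 68,
.part [10, 20, 33] [0, 0, 0] [64] [],
.ab2 2 24,
.hall [0] [1, 2, 6],
.part [9, 2, 20] [0, 0, 0] [] [(2, 96)],
.l2 2 36 40 5 2 1,
.part [64, 20, 10] [0, 0, 0] [] [(2, 33)],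
.l2 2 18 34 1 1 2,
.l2 2 6 36 2 1 2,
.part [1, 10, 20] [0, 0, 0] [] [(2, 96)],
.l2 0 9 10 3 1 1,
.part [96, 8, 16] [0, 0, 0] [7] [],
.part [2, 65, 4] [0, 0, 0] [56] [],
.ab2 1 3,
.le 1 65 64 6 1,
.join 1 1 6 2 1 1 [(0, 0)],
.part [64, 33, 30] [0, 0, 1] [] [],
.l2 1 20 24 4 1 1,
.lip 2 3 59 56,
.un 1 3,
.part [9, 36, 64] [0, 0, 0] [] [(2, 18)],
.join 2 2 6 5 0 5 [(1, 0)],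
.part [1, 20, 34] [0, 0, 0] [] [(2, 72)],
.part [8, 65, 54] [0, 0, 1] [] [],
.ab 1 3,
.ab2 1 40,
.ordE 2 2 2,
.lipl 2 32 41 0 9,
.join 1 1 4 2 1 1 [(0, 0)],
.mono 1 4 6 1,
.join 2 4 5 4 2 3 [(2, 1)],
.ordE 2 64 2,
.ab2 1 24,
.hall [2] [0, 1, 2],
.le 2 6 2 1 2,
.join 2 8 4 4 2 2 [(3, 0)],
.part [64, 20, 43] [0, 0, 1] [] [],
.ab2 2 65,
.ordE 2 16 2,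
.ab2 2 80,
.ab2 0 6,
.part [1, 68, 2] [0, 0, 0] [56] [],
.part [33, 12, 64] [0, 0, 0] [] [(2, 18)],
.join 0 2 4 2 1 1 [(1, 0)],
.ab2 2 3,
.part [12, 34, 64] [0, 0, 0] [] [(2, 17)],
.ab2 1 10,
.lip 1 32 39 7,
.part [73, 18, 36] [1, 0, 0] [] [],
.join 0 1 3 2 4 1 [(0, 3)],
.ab 1 6,
.ab 1 4,
.part [8, 32, 80] [0, 0, 0] [7] [],
.ordE 1 32 2,
.hall [2] [1, 2, 6],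
.le 2 36 32 5 4,
.join 2 4 5 4 4 2 [(2, 2)],
.join 1 1 2 2 1 1 [(0, 0)],
.mono 1 16 48 1,
.hall [1] [1, 2, 6],
.part [9, 64, 54] [0, 0, 1] [] [],
.hall [0, 1] [5, 6],
.part [1, 34, 72] [0, 0, 0] [] [(2, 20)],
.ordE 0 1 3,
.part [8, 96, 16] [0, 0, 0] [7] [],
.part [73, 36, 18] [1, 0, 0] [] [],
.ab2 1 5,
.l2 0 10 18 1 1 1,
.part [9, 32, 18] [0, 0, 0] [] [(2, 68)],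
.join 1 4 4 2 2 0 [(2, 0)],
.join 1 1 6 2 2 0 [(0, 0)],
.part [64, 12, 51] [0, 0, 1] [] [],
.join 2 1 4 5 2 3 [(0, 0)],
.lip 0 64 104 56,
.ab 2 3,
.ab2 1 9,
.join 2 4 5 4 2 2 [(2, 0)],
.join 1 8 5 2 1 1 [(3, 0)],
.ordE 1 16 2,
.deg 3 [3, 0, 0],
.join 2 16 6 4 2 3 [(4, 1)],
.join 2 1 5 5 2 3 [(0, 0)],
.ordE 2 8 1,
.ab 2 2,
.le 1 36 4 2 1,
.hall [0, 1] [2, 6],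
.lipl 0 64 73 0 9,
.join 2 2 3 4 2 2 [(1, 0)],
.join 2 32 6 4 3 4 [(5, 3)],
.join 2 4 6 5 2 3 [(2, 0)],
.ab 2 4,
.part [55, 64, 8] [1, 0, 0] [] [],
.join 1 8 4 2 2 0 [(3, 0)],
.part [65, 32, 20] [0, 0, 0] [] [(0, 10)],
.ab 2 1,
.lip 1 64 112 56,
.part [16, 47, 64] [0, 1, 0] [] [],
.ab2 0 17,
.join 2 2 3 4 3 2 [(1, 1)],
.part [71, 40, 16] [1, 0, 0] [] [],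
.lipl 2 68 102 2 34,
.deg 0 [1, 1, 1],
.srt 0 4 0 3 2,
.ab2 2 66,
.join 1 4 5 2 2 0 [(2, 0)],
.deg 5 [0, 1, 2],
.part [3, 32, 72] [0, 0, 0] [] [(2, 20)],
.ab2 0 96,
.part [9, 36, 18] [0, 0, 0] [64] [],
.part [64, 8, 55] [0, 0, 1] [] [],
.deg 3 [2, 1, 0],
.join 2 8 5 4 2 2 [(3, 0)],
.join 0 4 3 2 1 1 [(2, 0)],
.join 2 16 6 5 4 1 [(4, 0)],
.join 2 2 2 4 2 2 [(1, 0)],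
.l2 0 10 12 3 1 1,
.join 2 8 5 4 2 3 [(3, 1)],
.deg 1 [2, 1, 0],
.srt 0 1 0 0 2,
.le 2 72 8 3 1,
.part [6, 57, 64] [0, 1, 0] [] [],
.part [65, 2, 4] [0, 0, 0] [56] [],
.ab 0 3,
.ab 0 1,
.ab 1 1,
.lip 0 64 69 7,
.join 1 2 6 2 1 1 [(1, 0)],
.l2 1 24 72 3 1 1,
.deg 1 [1, 1, 1],
.l2 2 6 20 2 2 1,
.part [1, 4, 66] [0, 0, 0] [56] [],
.part [2, 61, 64] [0, 1, 0] [] [],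
.join 1 8 6 2 2 0 [(3, 0)],
.part [1, 2, 68] [0, 0, 0] [56] [],
.lip 0 64 67 7,
.join 2 2 5 4 3 4 [(1, 3)],
.lip 1 24 31 7,
.ab 2 0,
.ordE 1 4 2,
.part [88, 33, 6] [1, 0, 0] [] [],
.part [1, 36, 72] [0, 0, 0] [] [(2, 18)],
.ab2 1 72,
.part [9, 34, 64] [0, 0, 0] [] [(2, 20)],
.part [32, 64, 31] [0, 0, 1] [] [],
.hall [0, 1, 2] [6],
.part [1, 18, 68] [0, 0, 0] [40] [],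
.join 2 2 2 4 3 2 [(1, 1)],
.part [17, 12, 64] [0, 0, 0] [] [(2, 34)],
.le 0 9 8 3 4,
.part [64, 9, 54] [0, 0, 1] [] [],
.ordE 2 4 1,
.part [32, 16, 72] [0, 0, 0] [7] [],
.deg 0 [1, 0, 2],
.ordE 1 4 1,
.part [47, 64, 16] [1, 0, 0] [] [],
.mono 0 16 17 1,
.join 2 8 4 5 2 3 [(3, 0)],
.join 2 8 5 4 3 2 [(3, 1)],
.part [71, 24, 32] [1, 0, 0] [] [],
.ordE 1 2 2,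
.join 0 2 2 2 1 1 [(1, 0)],
.part [10, 20, 64] [0, 0, 0] [] [(2, 33)],
.srt 1 6 0 6 3,
.srt 0 4 0 3 1,
.mono 1 32 36 1,
.part [16, 8, 96] [0, 0, 0] [7] [],
.ab 1 0,
.l2 2 33 36 5 2 1,
.lip 1 8 15 7,
.le 2 36 32 5 3,
.part [1, 34, 68] [0, 0, 0] [24] [],
.l2 2 68 80 6 1 3,
.le 2 72 8 3 3,
.mono 1 4 5 1,
.deg 4 [1, 2, 0],
.join 2 16 6 4 3 4 [(4, 3)],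
.l2 0 3 9 0 1 1,
.part [1, 18, 72] [0, 0, 0] [] [(2, 36)],
.mono 1 64 80 1,
.part [66, 36, 16] [0, 0, 0] [] [(0, 9)],
.part [64, 4, 59] [0, 0, 1] [] [],
.l2 2 3 34 1 1 4,
.mono 1 8 72 1,
.le 1 20 16 4 1,
.ab2 1 66,
.ordL 2 80 1,
.join 2 4 4 4 3 3 [(2, 2)],
.part [66, 16, 36] [0, 0, 0] [] [(0, 9)],
.mono 1 32 96 1,
.part [72, 2, 36] [0, 0, 0] [] [(0, 17)],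
.lip 1 6 54 56,
.le 1 20 4 2 1,
.l2 0 9 33 0 1 1,
.join 1 5 6 2 2 0 [(0, 0), (2, 0)],
.part [72, 4, 34] [0, 0, 0] [] [(0, 17)],
.un 1 2,
.deg 5 [0, 0, 3],
.ordE 0 8 2,
.join 2 4 5 4 3 3 [(2, 2)],
.join 2 1 3 4 2 2 [(0, 0)],
.join 1 2 3 2 1 1 [(1, 0)],
.mono 1 64 66 1,
.join 2 16 5 5 2 3 [(4, 0)],
.ab2 2 40,
.part [72, 16, 32] [0, 0, 0] [7] [],
.l2 2 72 80 6 3 1,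
.l2 2 40 96 5 2 2,
.ab2 1 65,
.mono 2 2 34 1,
.lip 0 64 88 56,
.srt 0 5 0 4 1,
.hall [2] [0, 2, 6],
.part [80, 4, 34] [0, 0, 0] [] [(0, 9)],
.lip 1 2 58 56,
.part [1, 62, 64] [0, 1, 0] [] [],
.part [18, 36, 64] [0, 0, 0] [] [(2, 9)],
.ab2 2 20,
.ab2 1 36,
.ab2 2 36,
.hall [1] [0, 2, 6],
.deg 5 [1, 1, 1],
.join 2 1 2 5 2 3 [(0, 0)],
.ordE 0 2 3,
.l2 2 18 48 4 1 2,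
.ordE 0 64 2,
.lip 2 5 61 56,
.join 2 16 5 4 3 2 [(4, 1)],
.join 1 4 3 2 2 0 [(2, 0)],
.part [66, 20, 41] [0, 0, 1] [] [],
.join 2 1 1 5 2 3 [(0, 0)],
.part [18, 9, 64] [0, 0, 0] [] [(2, 36)],
.deg 3 [1, 1, 1],
.part [9, 20, 64] [0, 0, 0] [] [(2, 34)],
.le 1 96 64 6 1,
.part [64, 36, 10] [0, 0, 0] [] [(2, 17)],
.join 1 1 5 2 1 1 [(0, 0)],
.srt 0 3 0 0 2,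
.join 2 4 4 4 4 2 [(2, 2)],
.join 0 16 5 2 1 1 [(4, 0)],
.l2 2 20 48 4 1 2,
.lip 0 48 55 7,
.srt 0 2 0 1 2,
.le 2 68 4 2 4,
.ab2 1 80,
.ordE 1 2 1,
.part [32, 8, 80] [0, 0, 0] [7] [],
.join 1 2 4 2 1 1 [(1, 0)],
.part [8, 64, 55] [0, 0, 1] [] [],
.mono 1 32 34 1,
.lip 2 48 55 7,
.ordE 2 32 1,
.lip 0 64 120 56,
.part [17, 10, 36] [0, 0, 0] [64] [],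
.lip 1 40 47 7,
.join 2 16 6 5 3 3 [(4, 1)],
.ab 1 5,
.part [8, 55, 64] [0, 1, 0] [] [],
.join 2 1 1 4 2 2 [(0, 0)],
.mono 1 64 96 1,
.part [9, 4, 34] [0, 0, 0] [] [(2, 80)],
.ab 2 5,
.lip 1 16 23 7,
.l2 2 34 36 5 2 1,
.join 2 2 4 4 2 2 [(1, 0)],
.join 2 4 6 5 0 5 [(2, 0)],
.deg 2 [0, 0, 3],
.join 0 1 3 2 1 1 [(0, 0)],
.lip 1 3 59 56,
.part [64, 18, 45] [0, 0, 1] [] [],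
.part [72, 1, 36] [0, 0, 0] [] [(0, 18)],
.le 1 68 64 6 1,
.deg 1 [2, 0, 1],
.mono 1 4 68 1,
.join 2 2 5 4 1 3 [(1, 0)],
.hall [0, 1] [4, 5],
.join 2 2 5 5 2 3 [(1, 0)],
.part [3, 16, 36] [0, 0, 0] [] [(2, 72)],
.mono 2 2 6 1,
.srt 1 6 0 6 2,
.part [66, 4, 1] [0, 0, 0] [56] [],
.hall [0] [0, 1, 2],
.lip 0 64 71 7,
.le 0 72 8 3 2,
.join 1 4 4 2 1 1 [(2, 0)],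
.join 2 1 5 4 3 2 [(0, 1)],
.deg 2 [1, 2, 0],
.hall [1] [0, 1, 6],
.join 2 32 6 5 0 5 [(5, 0)],
.lipl 1 20 54 2 34,
.hall [1] [3, 5, 6],
.mono 0 32 33 1,
.ab2 0 9,
.ab2 1 48,
.part [1, 66, 4] [0, 0, 0] [56] [],
.join 2 4 4 4 2 2 [(2, 0)],
.lip 0 5 61 56,
.join 2 8 6 4 0 4 [(3, 0)],
.join 1 1 3 2 1 1 [(0, 0)],
.hall [1] [3, 4, 6],
.part [1, 54, 72] [0, 1, 0] [] [],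
.l2 2 34 36 5 1 2,
.mono 1 64 72 1,
.join 2 4 5 4 4 4 [(2, 4)],
.l2 0 6 66 1 1 1,
.l2 2 34 48 5 1 2,
.join 2 1 5 4 2 2 [(0, 0)],
.join 1 2 4 2 2 0 [(1, 0)],
.lipl 0 9 29 2 20,
.hall [1] [3, 4, 5],
.ab 1 2,
.part [9, 16, 102] [0, 0, 1] [] [],
.lip 0 40 47 7,
.join 2 4 4 4 3 2 [(2, 1)],
.ab 0 4,
.part [9, 36, 2] [0, 0, 0] [] [(0, 80)],
.ab2 1 6,
.join 2 8 6 4 3 3 [(3, 2)],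
.part [66, 1, 4] [0, 0, 0] [56] [],
.part [48, 15, 64] [0, 1, 0] [] [],
.l2 2 20 24 4 3 1,
.un 1 6,
.deg 1 [1, 0, 2],
.ab2 2 5,
.le 2 80 16 4 4,
.ab 0 6,
.join 2 4 5 5 3 2 [(2, 0)],
.join 2 8 6 5 2 3 [(3, 0)],
.join 1 32 6 2 2 0 [(5, 0)],
.part [9, 18, 36] [0, 0, 0] [64] [],
.hall [0] [3, 4, 5],
.join 0 1 5 2 1 1 [(0, 0)],
.part [64, 1, 62] [0, 0, 1] [] [],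
.hall [0, 1] [1, 2],
.ab2 0 3,
.lip 2 40 47 7,
.deg 4 [1, 1, 1],
.l2 2 6 20 2 2 4]

noncomputable def gads : List Gt := [
⟨2, [⟨10, 4, []⟩, ⟨64, 4, []⟩], [3], 1, [(66, 1), (72, 1)]⟩,
⟨1, [⟨9, 2, []⟩, ⟨36, 2, []⟩], [3, 3, 3], 1, [(5, 1), (12, 1), (33, 1), (40, 1)]⟩,
⟨1, [⟨18, 2, []⟩, ⟨65, 2, []⟩], [3, 3, 3], 1, [(3, 1), (17, 1), (66, 1), (80, 1)]⟩,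
⟨1, [⟨1, 2, []⟩, ⟨4, 2, []⟩], [3, 3, 3], 1, [(5, 1)]⟩,
⟨1, [⟨66, 2, []⟩, ⟨1, 2, []⟩], [3, 3, 3], 1, [(3, 1), (65, 1)]⟩,
⟨2, [⟨2, 3, []⟩, ⟨40, 5, []⟩], [1, 1], 1, [(10, 1), (34, 1)]⟩,
⟨0, [⟨24, 2, []⟩, ⟨96, 2, []⟩], [3, 3, 3], 1, [(40, 1), (48, 1), (72, 1), (80, 1)]⟩,
⟨2, [⟨10, 4, []⟩, ⟨32, 4, []⟩], [3], 1, [(34, 1), (40, 1)]⟩,
⟨1, [⟨20, 2, []⟩, ⟨66, 2, []⟩], [3, 3, 3], 1, [(6, 1), (18, 1), (68, 1), (80, 1)]⟩,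
⟨2, [⟨18, 4, []⟩, ⟨64, 4, []⟩], [3], 1, [(66, 1), (80, 1)]⟩,
⟨1, [⟨18, 2, []⟩, ⟨40, 2, []⟩], [3, 3, 3], 1, [(10, 1), (24, 1), (34, 1), (48, 1)]⟩,
⟨2, [⟨2, 2, []⟩, ⟨4, 2, []⟩, ⟨16, 3, []⟩, ⟨32, 3, []⟩], [3, 3, 3, 12, 12], 2, [(6, 1), (48, 1), (54, 2)]⟩,
⟨1, [⟨36, 2, []⟩, ⟨3, 2, []⟩], [3, 3, 3], 1, [(5, 1), (6, 1), (33, 1), (34, 1)]⟩,
⟨1, [⟨20, 2, []⟩, ⟨96, 2, []⟩], [3, 3, 3], 1, [(36, 1), (48, 1), (68, 1), (80, 1)]⟩,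
⟨1, [⟨6, 2, []⟩, ⟨80, 2, []⟩], [3, 3, 3], 1, [(18, 1), (20, 1), (66, 1), (68, 1)]⟩,
⟨0, [⟨1, 2, []⟩, ⟨8, 2, []⟩], [3, 3, 3], 1, [(9, 1)]⟩,
⟨2, [⟨4, 3, []⟩, ⟨24, 5, []⟩], [1, 1], 1, [(12, 1), (20, 1)]⟩,
⟨0, [⟨1, 2, []⟩, ⟨64, 2, []⟩], [3, 3, 3], 1, [(65, 1)]⟩,
⟨1, [⟨48, 2, []⟩, ⟨8, 2, []⟩], [3, 3, 3], 1, [(24, 1), (40, 1)]⟩,
⟨0, [⟨9, 2, []⟩, ⟨64, 2, []⟩], [3, 3, 3], 1, [(65, 1), (72, 1)]⟩,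
⟨1, [⟨9, 2, []⟩, ⟨34, 2, []⟩], [3, 3, 3], 1, [(3, 1), (10, 1), (33, 1), (40, 1)]⟩,
⟨2, [⟨32, 3, []⟩, ⟨5, 5, []⟩], [1, 1], 1, [(33, 1), (36, 1)]⟩,
⟨1, [⟨36, 2, []⟩, ⟨24, 2, []⟩], [3, 3, 3], 1, [(12, 1), (20, 1), (40, 1), (48, 1)]⟩,
⟨0, [⟨12, 2, []⟩, ⟨64, 2, []⟩], [3, 3, 3], 1, [(68, 1), (72, 1)]⟩,
⟨2, [⟨40, 4, []⟩, ⟨16, 4, []⟩], [3], 1, [(24, 1), (48, 1)]⟩,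
⟨2, [⟨33, 4, []⟩, ⟨64, 4, []⟩], [3], 1, [(65, 1), (96, 1)]⟩,
⟨1, [⟨17, 2, []⟩, ⟨34, 2, []⟩], [3, 3, 3], 1, [(3, 1), (18, 1), (33, 1), (48, 1)]⟩,
⟨2, [⟨36, 4, []⟩, ⟨64, 4, []⟩], [3], 1, [(68, 1), (96, 1)]⟩,
⟨2, [⟨96, 4, []⟩, ⟨16, 4, []⟩], [3], 1, [(48, 1), (80, 1)]⟩,
⟨2, [⟨3, 4, []⟩, ⟨64, 4, []⟩], [3], 1, [(65, 1), (66, 1)]⟩,
⟨1, [⟨20, 2, []⟩, ⟨72, 2, []⟩], [3, 3, 3], 1, [(12, 1), (24, 1), (68, 1), (80, 1)]⟩,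
⟨2, [⟨12, 4, []⟩, ⟨64, 4, []⟩], [3], 1, [(68, 1), (72, 1)]⟩,
⟨2, [⟨20, 5, []⟩, ⟨64, 3, []⟩], [2, 2], 1, [(68, 1), (80, 1)]⟩,
⟨1, [⟨12, 2, []⟩, ⟨80, 2, []⟩], [3, 3, 3], 1, [(20, 1), (24, 1), (68, 1), (72, 1)]⟩,
⟨2, [⟨2, 3, []⟩, ⟨80, 5, []⟩], [1, 1], 1, [(18, 1), (66, 1)]⟩,
⟨2, [⟨16, 4, []⟩, ⟨32, 4, []⟩], [3], 1, [(48, 1)]⟩,
⟨1, [⟨20, 2, []⟩, ⟨2, 2, []⟩], [3, 3, 3], 1, [(6, 1), (18, 1)]⟩,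
⟨2, [⟨33, 5, []⟩, ⟨2, 3, []⟩], [2, 2], 1, [(3, 1), (34, 1)]⟩,
⟨1, [⟨3, 2, []⟩, ⟨72, 2, []⟩], [3, 3, 3], 1, [(9, 1), (10, 1), (65, 1), (66, 1)]⟩,
⟨0, [⟨1, 2, []⟩, ⟨4, 2, []⟩], [3, 3, 3], 1, [(5, 1)]⟩,
⟨1, [⟨2, 2, []⟩, ⟨4, 2, []⟩], [3, 3, 3], 1, [(6, 1)]⟩,
⟨2, [⟨4, 3, []⟩, ⟨80, 5, []⟩], [1, 1], 1, [(20, 1), (68, 1)]⟩,
⟨2, [⟨2, 4, []⟩, ⟨32, 4, []⟩], [3], 1, [(34, 1)]⟩,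
⟨2, [⟨10, 4, []⟩, ⟨16, 4, []⟩], [3], 1, [(18, 1), (24, 1)]⟩,
⟨0, [⟨9, 2, []⟩, ⟨48, 2, []⟩], [3, 3, 3], 1, [(17, 1), (24, 1), (33, 1), (40, 1)]⟩,
⟨1, [⟨48, 2, []⟩, ⟨66, 2, []⟩], [3, 3, 3], 1, [(18, 1), (34, 1), (80, 1), (96, 1)]⟩,
⟨1, [⟨8, 2, []⟩, ⟨16, 2, []⟩], [3, 3, 3], 1, [(24, 1)]⟩,
⟨2, [⟨8, 3, []⟩, ⟨80, 5, []⟩], [1, 1], 1, [(24, 1), (72, 1)]⟩,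
⟨1, [⟨40, 2, []⟩, ⟨68, 2, []⟩], [3, 3, 3], 1, [(12, 1), (36, 1), (72, 1), (96, 1)]⟩,
⟨2, [⟨8, 4, []⟩, ⟨16, 4, []⟩], [3], 1, [(24, 1)]⟩,
⟨1, [⟨4, 2, []⟩, ⟨32, 2, []⟩], [3, 3, 3], 1, [(36, 1)]⟩,
⟨2, [⟨2, 4, []⟩, ⟨4, 4, []⟩], [3], 1, [(6, 1)]⟩,
⟨2, [⟨16, 3, []⟩, ⟨66, 5, []⟩], [1, 1], 1, [(18, 1), (80, 1)]⟩,
⟨1, [⟨40, 2, []⟩, ⟨16, 2, []⟩], [3, 3, 3], 1, [(24, 1), (48, 1)]⟩,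
⟨0, [⟨1, 2, []⟩, ⟨2, 2, []⟩], [3, 3, 3], 1, [(3, 1)]⟩,
⟨2, [⟨4, 3, []⟩, ⟨40, 5, []⟩], [1, 1], 1, [(12, 1), (36, 1)]⟩,
⟨0, [⟨48, 2, []⟩, ⟨8, 2, []⟩], [3, 3, 3], 1, [(24, 1), (40, 1)]⟩,
⟨0, [⟨17, 2, []⟩, ⟨64, 2, []⟩], [3, 3, 3], 1, [(65, 1), (80, 1)]⟩,
⟨0, [⟨1, 2, []⟩, ⟨16, 2, []⟩], [3, 3, 3], 1, [(17, 1)]⟩,
⟨2, [⟨24, 5, []⟩, ⟨32, 3, []⟩], [2, 2], 1, [(40, 1), (48, 1)]⟩,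
⟨2, [⟨2, 3, []⟩, ⟨24, 5, []⟩], [1, 1], 1, [(10, 1), (18, 1)]⟩,
⟨0, [⟨4, 2, []⟩, ⟨64, 2, []⟩], [3, 3, 3], 1, [(68, 1)]⟩,
⟨2, [⟨16, 2, []⟩, ⟨32, 2, []⟩, ⟨2, 3, []⟩, ⟨4, 3, []⟩], [3, 3, 3, 12, 12], 2, [(6, 1), (48, 1), (54, 2)]⟩,
⟨2, [⟨20, 4, []⟩, ⟨32, 4, []⟩], [3], 1, [(36, 1), (48, 1)]⟩,
⟨2, [⟨4, 3, []⟩, ⟨66, 5, []⟩], [1, 1], 1, [(6, 1), (68, 1)]⟩,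
⟨1, [⟨2, 2, []⟩, ⟨32, 2, []⟩], [3, 3, 3], 1, [(34, 1)]⟩,
⟨0, [⟨17, 2, []⟩, ⟨10, 2, []⟩], [3, 3, 3], 1, [(3, 1), (9, 1), (18, 1), (24, 1)]⟩,
⟨0, [⟨2, 2, []⟩, ⟨8, 2, []⟩], [3, 3, 3], 1, [(10, 1)]⟩,
⟨1, [⟨24, 2, []⟩, ⟨68, 2, []⟩], [3, 3, 3], 1, [(12, 1), (20, 1), (72, 1), (80, 1)]⟩,
⟨2, [⟨18, 5, []⟩, ⟨64, 3, []⟩], [2, 2], 1, [(66, 1), (80, 1)]⟩,
⟨2, [⟨1, 2, []⟩, ⟨4, 2, []⟩, ⟨8, 3, []⟩, ⟨32, 3, []⟩], [3, 3, 3, 12, 12], 2, [(5, 1), (40, 1), (45, 2)]⟩,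
⟨2, [⟨24, 4, []⟩, ⟨64, 4, []⟩], [3], 1, [(72, 1), (80, 1)]⟩,
⟨1, [⟨5, 2, []⟩, ⟨96, 2, []⟩], [3, 3, 3], 1, [(33, 1), (36, 1), (65, 1), (68, 1)]⟩,
⟨0, [⟨9, 2, []⟩, ⟨6, 2, []⟩], [3, 3, 3], 1, [(3, 1), (5, 1), (10, 1), (12, 1)]⟩,
⟨1, [⟨24, 2, []⟩, ⟨66, 2, []⟩], [3, 3, 3], 1, [(10, 1), (18, 1), (72, 1), (80, 1)]⟩,
⟨2, [⟨32, 3, []⟩, ⟨80, 5, []⟩], [1, 1], 1, [(48, 1), (96, 1)]⟩,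
⟨1, [⟨2, 2, []⟩, ⟨16, 2, []⟩], [3, 3, 3], 1, [(18, 1)]⟩,
⟨1, [⟨72, 2, []⟩, ⟨32, 2, []⟩], [3, 3, 3], 1, [(40, 1), (96, 1)]⟩,
⟨1, [⟨2, 2, []⟩, ⟨8, 2, []⟩], [3, 3, 3], 1, [(10, 1)]⟩,
⟨1, [⟨34, 2, []⟩, ⟨12, 2, []⟩], [3, 3, 3], 1, [(6, 1), (10, 1), (36, 1), (40, 1)]⟩,
⟨2, [⟨3, 5, []⟩, ⟨4, 3, []⟩], [2, 2], 1, [(5, 1), (6, 1)]⟩,
⟨0, [⟨10, 2, []⟩, ⟨1, 2, []⟩], [3, 3, 3], 1, [(3, 1), (9, 1)]⟩,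
⟨0, [⟨18, 2, []⟩, ⟨64, 2, []⟩], [3, 3, 3], 1, [(66, 1), (80, 1)]⟩,
⟨1, [⟨18, 2, []⟩, ⟨96, 2, []⟩], [3, 3, 3], 1, [(34, 1), (48, 1), (66, 1), (80, 1)]⟩,
⟨1, [⟨80, 2, []⟩, ⟨8, 2, []⟩], [3, 3, 3], 1, [(24, 1), (72, 1)]⟩,
⟨1, [⟨34, 2, []⟩, ⟨68, 2, []⟩], [3, 3, 3], 1, [(6, 1), (36, 1), (66, 1), (96, 1)]⟩,
⟨2, [⟨6, 4, []⟩, ⟨32, 4, []⟩], [3], 1, [(34, 1), (36, 1)]⟩,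
⟨2, [⟨2, 3, []⟩, ⟨68, 5, []⟩], [1, 1], 1, [(6, 1), (66, 1)]⟩,
⟨1, [⟨17, 2, []⟩, ⟨10, 2, []⟩], [3, 3, 3], 1, [(3, 1), (9, 1), (18, 1), (24, 1)]⟩,
⟨1, [⟨36, 2, []⟩, ⟨66, 2, []⟩], [3, 3, 3], 1, [(6, 1), (34, 1), (68, 1), (96, 1)]⟩,
⟨0, [⟨16, 2, []⟩, ⟨32, 2, []⟩], [3, 3, 3], 1, [(48, 1)]⟩,
⟨2, [⟨5, 4, []⟩, ⟨64, 4, []⟩], [3], 1, [(65, 1), (68, 1)]⟩,
⟨2, [⟨2, 3, []⟩, ⟨96, 5, []⟩], [1, 1], 1, [(34, 1), (66, 1)]⟩,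
⟨2, [⟨1, 2, []⟩, ⟨2, 2, []⟩, ⟨16, 3, []⟩, ⟨32, 3, []⟩], [3, 3, 3, 12, 12], 2, [(3, 1), (48, 1), (51, 2)]⟩,
⟨2, [⟨24, 4, []⟩, ⟨32, 4, []⟩], [3], 1, [(40, 1), (48, 1)]⟩,
⟨2, [⟨8, 2, []⟩, ⟨32, 2, []⟩, ⟨2, 3, []⟩, ⟨4, 3, []⟩], [3, 3, 3, 12, 12], 2, [(6, 1), (40, 1), (46, 2)]⟩,
⟨0, [⟨33, 2, []⟩, ⟨64, 2, []⟩], [3, 3, 3], 1, [(65, 1), (96, 1)]⟩,
⟨1, [⟨8, 2, []⟩, ⟨32, 2, []⟩], [3, 3, 3], 1, [(40, 1)]⟩,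
⟨2, [⟨33, 5, []⟩, ⟨4, 3, []⟩], [2, 2], 1, [(5, 1), (36, 1)]⟩,
⟨1, [⟨34, 2, []⟩, ⟨1, 2, []⟩], [3, 3, 3], 1, [(3, 1), (33, 1)]⟩,
⟨1, [⟨5, 2, []⟩, ⟨72, 2, []⟩], [3, 3, 3], 1, [(9, 1), (12, 1), (65, 1), (68, 1)]⟩,
⟨0, [⟨16, 2, []⟩, ⟨64, 2, []⟩], [3, 3, 3], 1, [(80, 1)]⟩,
⟨1, [⟨18, 2, []⟩, ⟨72, 2, []⟩], [3, 3, 3], 1, [(10, 1), (24, 1), (66, 1), (80, 1)]⟩,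
⟨2, [⟨16, 3, []⟩, ⟨68, 5, []⟩], [1, 1], 1, [(20, 1), (80, 1)]⟩,
⟨2, [⟨32, 3, []⟩, ⟨65, 5, []⟩], [1, 1], 1, [(33, 1), (96, 1)]⟩,
⟨1, [⟨33, 2, []⟩, ⟨20, 2, []⟩], [3, 3, 3], 1, [(5, 1), (17, 1), (36, 1), (48, 1)]⟩,
⟨1, [⟨9, 2, []⟩, ⟨20, 2, []⟩], [3, 3, 3], 1, [(5, 1), (12, 1), (17, 1), (24, 1)]⟩,
⟨0, [⟨6, 2, []⟩, ⟨1, 2, []⟩], [3, 3, 3], 1, [(3, 1), (5, 1)]⟩,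
⟨1, [⟨20, 2, []⟩, ⟨32, 2, []⟩], [3, 3, 3], 1, [(36, 1), (48, 1)]⟩,
⟨2, [⟨72, 4, []⟩, ⟨32, 4, []⟩], [3], 1, [(40, 1), (96, 1)]⟩,
⟨0, [⟨48, 2, []⟩, ⟨72, 2, []⟩], [3, 3, 3], 1, [(24, 1), (40, 1), (80, 1), (96, 1)]⟩,
⟨2, [⟨9, 4, []⟩, ⟨64, 4, []⟩], [3], 1, [(65, 1), (72, 1)]⟩,
⟨1, [⟨3, 2, []⟩, ⟨96, 2, []⟩], [3, 3, 3], 1, [(33, 1), (34, 1), (65, 1), (66, 1)]⟩,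
⟨1, [⟨5, 2, []⟩, ⟨80, 2, []⟩], [3, 3, 3], 1, [(17, 1), (20, 1), (65, 1), (68, 1)]⟩,
⟨1, [⟨1, 2, []⟩, ⟨2, 2, []⟩], [3, 3, 3], 1, [(3, 1)]⟩,
⟨1, [⟨6, 2, []⟩, ⟨96, 2, []⟩], [3, 3, 3], 1, [(34, 1), (36, 1), (66, 1), (68, 1)]⟩,
⟨0, [⟨80, 2, []⟩, ⟨8, 2, []⟩], [3, 3, 3], 1, [(24, 1), (72, 1)]⟩,
⟨2, [⟨17, 5, []⟩, ⟨2, 3, []⟩], [2, 2], 1, [(3, 1), (18, 1)]⟩,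
⟨0, [⟨3, 2, []⟩, ⟨96, 2, []⟩], [3, 3, 3], 1, [(33, 1), (34, 1), (65, 1), (66, 1)]⟩,
⟨1, [⟨6, 2, []⟩, ⟨1, 2, []⟩], [3, 3, 3], 1, [(3, 1), (5, 1)]⟩,
⟨2, [⟨48, 4, []⟩, ⟨64, 4, []⟩], [3], 1, [(80, 1), (96, 1)]⟩,
⟨1, [⟨48, 2, []⟩, ⟨68, 2, []⟩], [3, 3, 3], 1, [(20, 1), (36, 1), (80, 1), (96, 1)]⟩,
⟨2, [⟨36, 4, []⟩, ⟨16, 4, []⟩], [3], 1, [(20, 1), (48, 1)]⟩,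
⟨1, [⟨36, 2, []⟩, ⟨1, 2, []⟩], [3, 3, 3], 1, [(5, 1), (33, 1)]⟩,
⟨2, [⟨1, 2, []⟩, ⟨4, 2, []⟩, ⟨16, 3, []⟩, ⟨32, 3, []⟩], [3, 3, 3, 12, 12], 2, [(5, 1), (48, 1), (53, 2)]⟩,
⟨1, [⟨1, 2, []⟩, ⟨8, 2, []⟩], [3, 3, 3], 1, [(9, 1)]⟩,
⟨2, [⟨6, 4, []⟩, ⟨64, 4, []⟩], [3], 1, [(66, 1), (68, 1)]⟩,
⟨2, [⟨40, 4, []⟩, ⟨64, 4, []⟩], [3], 1, [(72, 1), (96, 1)]⟩,
⟨2, [⟨80, 4, []⟩, ⟨32, 4, []⟩], [3], 1, [(48, 1), (96, 1)]⟩,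
⟨2, [⟨16, 3, []⟩, ⟨72, 5, []⟩], [1, 1], 1, [(24, 1), (80, 1)]⟩,
⟨2, [⟨36, 5, []⟩, ⟨64, 3, []⟩], [2, 2], 1, [(68, 1), (96, 1)]⟩,
⟨2, [⟨32, 3, []⟩, ⟨68, 5, []⟩], [1, 1], 1, [(36, 1), (96, 1)]⟩,
⟨2, [⟨34, 5, []⟩, ⟨64, 3, []⟩], [2, 2], 1, [(66, 1), (96, 1)]⟩,
⟨2, [⟨8, 4, []⟩, ⟨32, 4, []⟩], [3], 1, [(40, 1)]⟩,
⟨1, [⟨20, 2, []⟩, ⟨40, 2, []⟩], [3, 3, 3], 1, [(12, 1), (24, 1), (36, 1), (48, 1)]⟩,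
⟨0, [⟨8, 2, []⟩, ⟨32, 2, []⟩], [3, 3, 3], 1, [(40, 1)]⟩,
⟨1, [⟨3, 2, []⟩, ⟨80, 2, []⟩], [3, 3, 3], 1, [(17, 1), (18, 1), (65, 1), (66, 1)]⟩,
⟨1, [⟨16, 2, []⟩, ⟨32, 2, []⟩], [3, 3, 3], 1, [(48, 1)]⟩,
⟨0, [⟨18, 2, []⟩, ⟨1, 2, []⟩], [3, 3, 3], 1, [(3, 1), (17, 1)]⟩,
⟨0, [⟨66, 2, []⟩, ⟨1, 2, []⟩], [3, 3, 3], 1, [(3, 1), (65, 1)]⟩,
⟨1, [⟨18, 2, []⟩, ⟨68, 2, []⟩], [3, 3, 3], 1, [(6, 1), (20, 1), (66, 1), (80, 1)]⟩,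
⟨0, [⟨96, 2, []⟩, ⟨8, 2, []⟩], [3, 3, 3], 1, [(40, 1), (72, 1)]⟩,
⟨1, [⟨4, 2, []⟩, ⟨8, 2, []⟩], [3, 3, 3], 1, [(12, 1)]⟩,
⟨0, [⟨2, 2, []⟩, ⟨16, 2, []⟩], [3, 3, 3], 1, [(18, 1)]⟩,
⟨1, [⟨36, 2, []⟩, ⟨65, 2, []⟩], [3, 3, 3], 1, [(5, 1), (33, 1), (68, 1), (96, 1)]⟩,
⟨2, [⟨48, 5, []⟩, ⟨8, 3, []⟩], [2, 2], 1, [(24, 1), (40, 1)]⟩,
⟨1, [⟨4, 2, []⟩, ⟨16, 2, []⟩], [3, 3, 3], 1, [(20, 1)]⟩,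
⟨1, [⟨10, 2, []⟩, ⟨20, 2, []⟩], [3, 3, 3], 1, [(6, 1), (12, 1), (18, 1), (24, 1)]⟩,
⟨1, [⟨68, 2, []⟩, ⟨2, 2, []⟩], [3, 3, 3], 1, [(6, 1), (66, 1)]⟩,
⟨2, [⟨17, 4, []⟩, ⟨64, 4, []⟩], [3], 1, [(65, 1), (80, 1)]⟩,
⟨1, [⟨18, 2, []⟩, ⟨36, 2, []⟩], [3, 3, 3], 1, [(6, 1), (20, 1), (34, 1), (48, 1)]⟩,
⟨2, [⟨68, 4, []⟩, ⟨2, 4, []⟩], [3], 1, [(6, 1), (66, 1)]⟩,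
⟨2, [⟨8, 3, []⟩, ⟨96, 5, []⟩], [1, 1], 1, [(40, 1), (72, 1)]⟩,
⟨0, [⟨8, 2, []⟩, ⟨16, 2, []⟩], [3, 3, 3], 1, [(24, 1)]⟩,
⟨2, [⟨32, 3, []⟩, ⟨72, 5, []⟩], [1, 1], 1, [(40, 1), (96, 1)]⟩,
⟨2, [⟨16, 3, []⟩, ⟨96, 5, []⟩], [1, 1], 1, [(48, 1), (80, 1)]⟩,
⟨1, [⟨24, 2, []⟩, ⟨32, 2, []⟩], [3, 3, 3], 1, [(40, 1), (48, 1)]⟩,
⟨1, [⟨6, 2, []⟩, ⟨72, 2, []⟩], [3, 3, 3], 1, [(10, 1), (12, 1), (66, 1), (68, 1)]⟩,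
⟨0, [⟨8, 2, []⟩, ⟨64, 2, []⟩], [3, 3, 3], 1, [(72, 1)]⟩,
⟨2, [⟨40, 5, []⟩, ⟨16, 3, []⟩], [2, 2], 1, [(24, 1), (48, 1)]⟩,
⟨2, [⟨32, 3, []⟩, ⟨66, 5, []⟩], [1, 1], 1, [(34, 1), (96, 1)]⟩,
⟨2, [⟨4, 3, []⟩, ⟨96, 5, []⟩], [1, 1], 1, [(36, 1), (68, 1)]⟩,
⟨2, [⟨20, 4, []⟩, ⟨64, 4, []⟩], [3], 1, [(68, 1), (80, 1)]⟩,
⟨1, [⟨48, 2, []⟩, ⟨65, 2, []⟩], [3, 3, 3], 1, [(17, 1), (33, 1), (80, 1), (96, 1)]⟩,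
⟨0, [⟨2, 2, []⟩, ⟨4, 2, []⟩], [3, 3, 3], 1, [(6, 1)]⟩,
⟨2, [⟨1, 2, []⟩, ⟨2, 2, []⟩, ⟨8, 3, []⟩, ⟨32, 3, []⟩], [3, 3, 3, 12, 12], 2, [(3, 1), (40, 1), (43, 2)]⟩,
⟨2, [⟨17, 5, []⟩, ⟨4, 3, []⟩], [2, 2], 1, [(5, 1), (20, 1)]⟩,
⟨1, [⟨24, 2, []⟩, ⟨65, 2, []⟩], [3, 3, 3], 1, [(9, 1), (17, 1), (72, 1), (80, 1)]⟩,
⟨1, [⟨69, 2, []⟩, ⟨2, 2, []⟩], [3, 3, 3], 1, [(3, 1), (6, 1), (66, 1)]⟩,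
⟨2, [⟨8, 2, []⟩, ⟨16, 2, []⟩, ⟨2, 3, []⟩, ⟨4, 3, []⟩], [3, 3, 3, 12, 12], 2, [(6, 1), (24, 1), (30, 2)]⟩,
⟨0, [⟨10, 2, []⟩, ⟨64, 2, []⟩], [3, 3, 3], 1, [(66, 1), (72, 1)]⟩,
⟨0, [⟨2, 2, []⟩, ⟨64, 2, []⟩], [3, 3, 3], 1, [(66, 1)]⟩,
⟨2, [⟨34, 4, []⟩, ⟨64, 4, []⟩], [3], 1, [(66, 1), (96, 1)]⟩,
⟨1, [⟨96, 2, []⟩, ⟨8, 2, []⟩], [3, 3, 3], 1, [(40, 1), (72, 1)]⟩,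
⟨1, [⟨1, 2, []⟩, ⟨16, 2, []⟩], [3, 3, 3], 1, [(17, 1)]⟩]

theorem base_ok : base.all (fun q => q.ok 7 3 [7, 56] big4 big4 [(0, 1, 0, 0), (0, 2, 0, 1), (0, 4, 0, 3), (0, 5, 0, 4), (0, 3, 0, 0), (1, 6, 0, 6)]) = true := by decide +kernel

theorem gads_ok : gads.all (fun g => Nat.blt g.j 3 && g.ok 7 (([0, 0, 6] : List ℕ).getD g.j 0)) = true := by
  decide +kernel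

theorem cmp_ok : cmpR names cnf (cls 3 base ++ gads.map Gt.cl) = true := by decide +kernel

end D72

theorem inst_72 : instB 1 [0, 0, 6] [] [(0, 1, 0, 0), (0, 2, 0, 1), (0, 4, 0, 3), (0, 5, 0, 4), (0, 3, 0, 0), (1, 6, 0, 6)] D72.base D72.gads D72.names D72.cnf D72.db D72.prf = true :=
  instB_of D72.base_ok D72.gads_ok (by decide +kernel) D72.okc D72.cmp_ok D72.chk_ok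

/-- no gadget has fewer than `2 R` new points. -/
theorem p2_72 : D72.gads.all (fun g => Nat.ble (2 * g.R) g.gs.length) = true := by decide +kernel

/-- there is no configuration of this instance. -/
theorem no_72 {V : Type v} [DecidableEq V] {ι : Type u} [Fintype ι] {B : ι → Finset V}
    {Q : Finset V} {i j : ι} {x : ℕ → V} {D : ℕ → Finset V}
    (h : CfI B Q 1 x D i j [0, 0, 6] [])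
    (hs : Srt [(0, 1, 0, 0), (0, 2, 0, 1), (0, 4, 0, 3), (0, 5, 0, 4), (0, 3, 0, 0), (1, 6, 0, 6)] (ecB B x 7 D)) : False :=
  h.absurd (by decide) hs inst_72

end Pool.Agent.Hyp6
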