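import Pool.Agent.Hyp6.Cseg2
import Pool.Agent.Hyp6.Ins.E74

/-!
# HYP6: instance 74 of the list: n = 1, bounds [2, 2, 2], inner blocks []

834 base clauses, 304 gadgets, 1060 learned clauses.
-/

set_option autoImplicit false
set_option maxRecDepth 100000

namespace Pool.Agent.Hyp6

open Rup

universe u v

namespace D74

noncomputable def base : List Rs := [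
.part [9, 6, 48] [0, 0, 0] [64] [],
.un 1 1,
.part [64, 17, 36] [0, 0, 0] [] [(1, 10)],
.join 1 4 5 4 3 2 [(2, 1)],
.ab 1 4,
.join 1 1 2 3 2 1 [(0, 0)],
.part [9, 32, 18] [0, 0, 0] [] [(2, 68)],
.join 1 6 4 4 3 1 [(1, 0), (2, 0)],
.deg 2 [1, 2, 0],
.part [9, 68, 32] [0, 0, 0] [] [(1, 18)],
.part [65, 16, 36] [0, 0, 0] [] [(0, 10)],
.join 1 12 5 4 2 2 [(2, 0), (3, 0)],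
.un 1 5,
.join 0 5 6 4 1 3 [(0, 0), (2, 0)],
.ab2 1 68,
.part [89, 4, 34] [1, 0, 0] [] [],
.le 1 68 4 2 1,
.join 1 4 5 4 3 1 [(2, 0)],
.join 2 5 6 3 2 1 [(0, 0), (2, 0)],
.join 2 2 5 3 1 2 [(1, 0)],
.le 1 34 2 1 3,
.join 1 2 2 4 2 2 [(1, 0)],
.join 2 1 5 4 3 1 [(0, 0)],
.join 2 34 6 3 2 1 [(1, 0), (5, 0)],
.srt 2 6 1 6 1,
.deg 5 [1, 1, 1],
.part [9, 36, 64] [0, 0, 0] [] [(2, 18)],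
.join 2 4 4 4 1 3 [(2, 0)],
.deg 1 [0, 1, 2],
.join 2 34 6 4 3 1 [(1, 0), (5, 0)],
.l2 1 18 34 1 3 1,
.part [64, 16, 40] [0, 0, 0] [7] [],
.join 1 2 4 4 4 4 [(1, 4)],
.join 1 2 2 3 3 0 [(1, 0)],
.join 1 8 6 3 2 1 [(3, 0)],
.join 1 4 3 4 3 1 [(2, 0)],
.le 1 34 2 1 4,
.ab 0 0,
.ordE 0 1 2,
.srt 0 2 0 1 1,
.part [73, 20, 34] [1, 0, 0] [] [],
.deg 2 [0, 2, 1],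
.l2 0 10 12 3 1 1,
.join 0 2 2 2 1 1 [(1, 0)],
.part [9, 18, 4] [0, 0, 0] [] [(1, 96)],
.l2 0 10 24 3 2 1,
.le 2 66 64 6 1,
.part [11, 80, 36] [1, 0, 0] [] [],
.join 1 1 2 3 1 2 [(0, 0)],
.join 2 6 6 3 2 1 [(1, 0), (2, 0)],
.deg 2 [2, 1, 0],
.join 2 2 2 3 1 2 [(1, 0)],
.lipl 2 20 53 2 33,
.join 2 32 6 3 2 1 [(5, 0)],
.join 2 16 5 2 1 1 [(4, 0)],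
.join 1 4 4 4 4 1 [(2, 1)],
.join 1 18 6 4 2 2 [(1, 0), (4, 0)],
.lipl 2 18 54 1 36,
.join 2 1 6 4 3 1 [(0, 0)],
.l2 1 20 36 2 1 1,
.join 1 1 4 4 2 2 [(0, 0)],
.join 1 2 4 4 2 3 [(1, 1)],
.lipl 2 20 54 1 34,
.part [71, 40, 16] [1, 0, 0] [] [],
.srt 0 5 0 4 1,
.join 2 33 6 4 3 1 [(0, 0), (5, 0)],
.join 1 4 3 3 1 2 [(2, 0)],
.join 1 2 5 4 4 4 [(1, 4)],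
.ab2 0 3,
.ab2 2 72,
.join 2 8 4 2 1 1 [(3, 0)],
.un 0 4,
.join 0 1 3 4 2 2 [(0, 0)],
.mono 1 4 36 1,
.join 0 9 4 3 2 1 [(0, 0), (3, 0)],
.join 2 1 6 3 2 1 [(0, 0)],
.deg 4 [1, 1, 1],
.mono 1 32 34 1,
.l2 1 18 34 1 2 1,
.join 1 2 5 4 4 0 [(1, 0)],
.srt 1 6 0 6 1,
.join 1 16 6 3 1 2 [(4, 0)],
.part [73, 34, 20] [1, 0, 0] [] [],
.ab2 2 96,
.ab 2 0,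
.join 1 2 2 4 3 3 [(1, 2)],
.l2 1 12 36 2 1 1,
.join 2 4 5 2 0 2 [(2, 0)],
.un 1 2,
.l2 1 33 34 5 1 1,
.join 1 16 5 4 3 1 [(4, 0)],
.part [4, 66, 1] [0, 0, 0] [56] [],
.join 1 2 4 4 4 2 [(1, 2)],
.mono 2 2 18 1,
.join 1 2 3 4 2 2 [(1, 0)],
.le 1 18 16 4 2,
.join 2 8 5 4 3 1 [(3, 0)],
.part [4, 2, 65] [0, 0, 0] [56] [],
.ab2 1 33,
.join 1 20 6 4 4 0 [(2, 0), (4, 0)],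
.join 1 48 6 4 2 2 [(4, 0), (5, 0)],
.ordE 0 2 1,
.part [9, 34, 64] [0, 0, 0] [] [(1, 20)],
.part [73, 18, 36] [1, 0, 0] [] [],
.deg 1 [2, 1, 0],
.l2 1 33 36 5 1 1,
.join 0 5 3 3 2 1 [(0, 0), (2, 0)],
.join 2 18 6 4 3 1 [(1, 0), (4, 0)],
.join 0 2 3 3 2 2 [(1, 1)],
.part [64, 36, 10] [0, 0, 0] [] [(2, 17)],
.deg 5 [0, 3, 0],
.part [10, 64, 53] [0, 0, 1] [] [],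
.join 1 2 6 3 2 1 [(1, 0)],
.join 1 4 4 4 2 2 [(2, 0)],
.join 1 4 6 4 3 1 [(2, 0)],
.join 1 2 2 4 3 1 [(1, 0)],
.join 2 6 6 4 3 1 [(1, 0), (2, 0)],
.deg 4 [2, 1, 0],
.ab 2 4,
.deg 4 [3, 0, 0],
.le 1 20 16 4 4,
.part [64, 36, 10] [0, 0, 0] [] [(0, 17)],
.part [16, 64, 40] [0, 0, 0] [7] [],
.part [64, 18, 12] [0, 0, 0] [] [(1, 33)],
.ab2 1 6,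
.join 2 16 5 4 1 3 [(4, 0)],
.deg 1 [3, 0, 0],
.part [9, 32, 20] [0, 0, 0] [] [(0, 66)],
.join 2 1 4 4 2 2 [(0, 0)],
.join 0 8 6 4 1 3 [(3, 0)],
.mono 0 4 5 1,
.ab2 1 36,
.join 1 32 6 4 3 1 [(5, 0)],
.part [9, 64, 34] [0, 0, 0] [] [(2, 20)],
.ab2 2 40,
.deg 5 [0, 1, 2],
.le 2 68 64 6 1,
.part [64, 36, 18] [0, 0, 0] [] [(0, 9)],
.deg 5 [3, 0, 0],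
.join 0 1 1 4 2 2 [(0, 0)],
.srt 0 3 0 0 1,
.ordE 1 4 2,
.l2 1 6 18 1 2 1,
.join 1 2 4 4 2 2 [(1, 0)],
.part [9, 64, 34] [0, 0, 0] [] [(1, 20)],
.le 2 96 32 5 1,
.join 2 2 5 2 1 1 [(1, 0)],
.l2 0 65 80 6 2 2,
.join 0 4 6 4 1 3 [(2, 0)],
.join 1 8 6 4 3 1 [(3, 0)],
.join 2 1 5 3 1 2 [(0, 0)],
.join 1 32 6 4 2 2 [(5, 0)],
.l2 1 65 72 6 2 1,
.le 1 36 32 5 1,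
.part [9, 64, 20] [0, 0, 0] [] [(1, 34)],
.join 1 16 6 3 2 1 [(4, 0)],
.join 0 1 1 2 1 1 [(0, 0)],
.ab2 1 65,
.join 1 2 3 4 1 3 [(1, 0)],
.l2 0 65 72 6 2 2,
.part [9, 20, 32] [0, 0, 0] [] [(0, 66)],
.part [1, 72, 54] [0, 0, 1] [] [],
.ordE 2 2 1,
.part [9, 36, 18] [0, 0, 0] [64] [],
.join 2 2 2 4 1 3 [(1, 0)],
.ordE 0 16 1,
.part [80, 32, 8] [0, 0, 0] [7] [],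
.ab 1 1,
.lipl 0 64 73 0 9,
.join 2 8 5 2 2 0 [(3, 0)],
.join 1 2 2 2 1 1 [(1, 0)],
.ab 0 4,
.deg 2 [2, 0, 1],
.ordE 1 4 1,
.join 0 16 6 4 2 2 [(4, 0)],
.join 1 3 5 4 3 2 [(0, 0), (1, 1)],
.deg 1 [1, 0, 2],
.lip 0 1 25 56,
.join 1 2 5 4 1 3 [(1, 0)],
.srt 0 5 0 4 3,
.un 2 2,
.join 2 2 6 4 3 1 [(1, 0)],
.part [4, 65, 2] [0, 0, 0] [56] [],
.part [66, 20, 32] [0, 0, 0] [] [(0, 9)],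
.srt 0 1 0 0 4,
.join 2 4 5 2 1 1 [(2, 0)],
.part [8, 18, 36] [0, 0, 0] [] [(1, 65)],
.deg 0 [2, 1, 0],
.part [64, 12, 34] [0, 0, 0] [] [(0, 17)],
.part [1, 68, 18] [0, 0, 0] [40] [],
.join 0 1 2 3 2 1 [(0, 0)],
.join 1 1 6 3 2 1 [(0, 0)],
.l2 0 9 40 3 2 1,
.join 2 3 6 3 2 1 [(0, 0), (1, 0)],
.join 1 4 5 2 0 2 [(2, 0)],
.mono 1 4 6 1,
.part [88, 36, 3] [1, 0, 0] [] [],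
.hall [2] [3, 4, 5],
.join 1 18 6 3 2 1 [(1, 0), (4, 0)],
.part [64, 34, 9] [0, 0, 0] [] [(1, 20)],
.part [1, 20, 34] [0, 0, 0] [] [(2, 72)],
.ab2 2 36,
.ab2 0 6,
.lip 1 16 23 7,
.join 2 4 6 4 3 1 [(2, 0)],
.join 1 16 5 3 2 1 [(4, 0)],
.part [9, 16, 36] [0, 0, 0] [] [(0, 66)],
.part [66, 4, 1] [0, 0, 0] [56] [],
.join 0 1 2 3 2 2 [(0, 1)],
.l2 0 9 10 3 1 1,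
.join 1 1 2 4 2 2 [(0, 0)],
.part [16, 40, 64] [0, 0, 0] [7] [],
.le 1 34 2 1 1,
.join 2 4 5 3 1 2 [(2, 0)],
.join 1 32 6 3 1 2 [(5, 0)],
.ab2 2 68,
.join 1 1 6 3 1 2 [(0, 0)],
.join 2 2 5 4 2 2 [(1, 0)],
.ordE 2 1 1,
.deg 0 [1, 0, 2],
.deg 5 [0, 2, 1],
.part [64, 1, 6] [0, 0, 0] [56] [],
.join 0 2 2 3 2 1 [(1, 0)],
.srt 0 2 0 1 3,
.part [64, 10, 20] [0, 0, 0] [] [(2, 33)],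
.join 2 2 5 4 3 1 [(1, 0)],
.join 2 4 5 4 2 2 [(2, 0)],
.join 2 40 6 3 2 1 [(3, 0), (5, 0)],
.part [65, 18, 4] [0, 0, 0] [40] [],
.join 2 16 5 2 2 0 [(4, 0)],
.ab2 0 10,
.l2 1 12 20 2 1 1,
.part [32, 64, 24] [0, 0, 0] [7] [],
.part [68, 1, 2] [0, 0, 0] [56] [],
.ab2 1 80,
.hall [1, 2] [2, 6],
.ordE 1 16 1,
.part [32, 16, 72] [0, 0, 0] [7] [],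
.part [1, 2, 68] [0, 0, 0] [56] [],
.part [9, 64, 36] [0, 0, 0] [] [(1, 18)],
.ab2 0 80,
.deg 3 [1, 2, 0],
.part [6, 57, 64] [0, 1, 0] [] [],
.mono 2 4 36 1,
.ab2 1 18,
.lip 1 32 39 7,
.join 2 8 4 3 1 2 [(3, 0)],
.join 1 17 5 4 3 1 [(0, 0), (4, 0)],
.part [64, 10, 36] [0, 0, 0] [] [(0, 17)],
.join 2 2 4 4 1 3 [(1, 0)],
.ab2 2 80,
.join 2 1 2 2 1 1 [(0, 0)],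
.part [120, 6, 1] [1, 0, 0] [] [],
.join 2 1 2 3 2 1 [(0, 0)],
.part [16, 96, 8] [0, 0, 0] [7] [],
.join 1 2 5 4 2 4 [(1, 2)],
.deg 4 [1, 0, 2],
.le 1 20 16 4 1,
.deg 1 [0, 0, 3],
.ab2 2 65,
.part [64, 18, 36] [0, 0, 0] [] [(0, 9)],
.l2 0 48 80 4 1 2,
.le 1 36 4 2 4,
.part [64, 9, 54] [0, 0, 1] [] [],
.join 0 1 4 2 1 1 [(0, 0)],
.ab2 1 10,
.join 2 1 2 4 1 3 [(0, 0)],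
.part [64, 10, 36] [0, 0, 0] [] [(1, 17)],
.join 0 1 2 1 1 0 [(0, 0)],
.join 1 20 5 4 2 2 [(2, 0), (4, 0)],
.part [8, 20, 34] [0, 0, 0] [] [(2, 65)],
.join 1 1 4 3 1 2 [(0, 0)],
.join 1 1 6 4 2 2 [(0, 0)],
.srt 1 6 0 6 3,
.join 1 48 6 4 3 1 [(4, 0), (5, 0)],
.srt 0 4 0 3 1,
.part [8, 64, 48] [0, 0, 0] [7] [],
.hall [2] [0, 1, 6],
.join 0 3 3 3 2 1 [(0, 0), (1, 0)],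
.le 1 18 16 4 4,
.part [2, 68, 1] [0, 0, 0] [56] [],
.hall [2] [4, 5, 6],
.join 2 1 1 4 3 1 [(0, 0)],
.join 2 20 6 4 3 1 [(2, 0), (4, 0)],
.join 1 2 6 3 1 2 [(1, 0)],
.join 0 4 3 1 0 1 [(2, 0)],
.deg 4 [0, 3, 0],
.join 2 2 2 2 2 0 [(1, 0)],
.part [64, 8, 48] [0, 0, 0] [7] [],
.part [9, 36, 16] [0, 0, 0] [] [(0, 66)],
.srt 0 2 0 1 2,
.join 1 6 6 3 2 1 [(1, 0), (2, 0)],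
.join 1 16 5 4 1 3 [(4, 0)],
.ordE 0 8 3,
.ab2 1 5,
.l2 0 9 17 0 1 2,
.ab 0 3,
.join 1 1 5 2 1 1 [(0, 0)],
.part [17, 64, 12] [0, 0, 0] [] [(1, 34)],
.join 1 2 3 4 3 1 [(1, 0)],
.mono 0 2 66 1,
.join 1 16 6 4 2 2 [(4, 0)],
.mono 1 4 20 1,
.join 1 2 6 4 3 1 [(1, 0)],
.part [66, 16, 36] [0, 0, 0] [] [(0, 9)],
.join 2 16 6 3 2 1 [(4, 0)],
.join 1 3 6 3 2 1 [(0, 0), (1, 0)],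
.part [64, 18, 12] [0, 0, 0] [] [(2, 33)],
.join 2 4 4 3 2 1 [(2, 0)],
.part [1, 34, 20] [0, 0, 0] [] [(2, 72)],
.le 1 18 2 1 4,
.ab2 2 33,
.ab 0 1,
.join 2 1 5 4 2 2 [(0, 0)],
.part [64, 20, 34] [0, 0, 0] [] [(0, 9)],
.join 1 2 5 4 2 2 [(1, 0)],
.part [9, 34, 20] [0, 0, 0] [64] [],
.part [64, 34, 20] [0, 0, 0] [] [(0, 9)],
.deg 2 [1, 0, 2],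
.join 2 16 6 4 3 1 [(4, 0)],
.l2 1 17 48 4 2 1,
.le 1 18 2 1 3,
.srt 0 3 0 0 2,
.join 1 2 4 4 4 0 [(1, 0)],
.ab 0 6,
.join 2 4 3 3 1 2 [(2, 0)],
.ab 0 2,
.join 0 1 6 4 1 3 [(0, 0)],
.join 0 18 6 4 2 2 [(1, 0), (4, 0)],
.join 1 8 6 4 2 2 [(3, 0)],
.join 0 1 3 2 1 1 [(0, 0)],
.ab2 1 72,
.ab 1 5,
.join 0 4 3 2 1 1 [(2, 0)],
.join 0 1 4 3 2 1 [(0, 0)],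
.deg 3 [2, 1, 0],
.part [8, 20, 34] [0, 0, 0] [] [(1, 65)],
.hall [1, 2] [1, 6],
.join 1 8 6 3 1 2 [(3, 0)],
.join 0 1 3 3 2 1 [(0, 0)],
.part [9, 36, 64] [0, 0, 0] [] [(1, 18)],
.l2 1 6 18 1 1 3,
.join 1 6 6 4 3 1 [(1, 0), (2, 0)],
.join 1 4 4 3 1 2 [(2, 0)],
.join 2 8 4 3 2 1 [(3, 0)],
.part [64, 2, 5] [0, 0, 0] [56] [],
.join 0 8 4 4 2 2 [(3, 0)],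
.part [64, 10, 20] [0, 0, 0] [] [(0, 33)],
.ordE 0 32 1,
.join 1 6 6 4 2 2 [(1, 0), (2, 0)],
.ab2 2 3,
.part [2, 5, 64] [0, 0, 0] [56] [],
.ab2 2 24,
.part [89, 2, 36] [1, 0, 0] [] [],
.srt 0 5 0 4 4,
.join 1 2 2 3 1 2 [(1, 0)],
.join 2 16 5 4 3 1 [(4, 0)],
.part [65, 48, 4] [0, 0, 0] [] [(0, 10)],
.part [27, 64, 36] [1, 0, 0] [] [],
.l2 0 6 12 2 1 1,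
.join 1 10 4 4 3 1 [(1, 0), (3, 0)],
.un 2 5,
.ab2 2 34,
.lip 0 64 69 7,
.ab2 0 5,
.part [9, 64, 20] [0, 0, 0] [] [(2, 34)],
.l2 0 17 33 0 1 1,
.part [1, 6, 64] [0, 0, 0] [56] [],
.mono 2 4 20 1,
.join 0 1 4 4 4 1 [(0, 1)],
.join 1 16 5 2 1 1 [(4, 0)],
.l2 1 6 34 1 3 1,
.ab2 2 48,
.part [64, 18, 33] [0, 0, 0] [] [(1, 12)],
.join 2 4 4 3 1 2 [(2, 0)],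
.join 1 4 4 4 3 1 [(2, 0)],
.part [80, 8, 32] [0, 0, 0] [7] [],
.hall [1] [1, 2, 6],
.join 2 16 5 3 2 1 [(4, 0)],
.part [64, 17, 36] [0, 0, 0] [] [(2, 10)],
.deg 6 [2, 2, 0],
.ab 1 3,
.deg 2 [3, 0, 0],
.join 2 4 5 4 1 3 [(2, 0)],
.deg 3 [1, 1, 1],
.deg 1 [2, 0, 1],
.join 1 4 6 3 2 1 [(2, 0)],
.join 1 8 5 4 1 3 [(3, 0)],
.join 0 1 3 4 3 1 [(0, 0)],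
.join 1 12 4 4 2 2 [(2, 0), (3, 0)],
.join 1 2 4 4 2 4 [(1, 2)],
.part [89, 34, 4] [1, 0, 0] [] [],
.part [24, 39, 64] [0, 1, 0] [] [],
.ab2 1 12,
.deg 1 [0, 2, 1],
.un 2 1,
.join 0 1 3 4 4 3 [(0, 3)],
.part [9, 48, 4] [0, 0, 0] [] [(0, 66)],
.join 1 2 4 4 3 3 [(1, 2)],
.part [48, 64, 8] [0, 0, 0] [7] [],
.part [32, 72, 16] [0, 0, 0] [7] [],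
.deg 3 [2, 0, 1],
.part [8, 18, 36] [0, 0, 0] [] [(2, 65)],
.mono 1 32 36 1,
.join 2 1 1 4 1 3 [(0, 0)],
.join 1 8 5 4 2 2 [(3, 0)],
.join 0 9 4 4 3 1 [(0, 0), (3, 0)],
.ordE 2 32 1,
.join 1 2 4 4 4 3 [(1, 3)],
.le 2 36 4 2 1,
.part [5, 64, 2] [0, 0, 0] [56] [],
.join 1 4 4 2 1 1 [(2, 0)],
.part [8, 32, 80] [0, 0, 0] [7] [],
.part [64, 20, 10] [0, 0, 0] [] [(0, 33)],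
.part [64, 17, 34] [0, 0, 0] [] [(1, 12)],
.join 0 5 3 4 3 1 [(0, 0), (2, 0)],
.part [8, 96, 16] [0, 0, 0] [7] [],
.part [9, 48, 6] [0, 0, 0] [64] [],
.l2 1 10 72 3 2 1,
.join 1 4 4 4 1 3 [(2, 0)],
.join 1 4 5 4 4 0 [(2, 0)],
.part [8, 34, 20] [0, 0, 0] [] [(1, 65)],
.lip 1 1 57 56,
.join 2 16 5 3 1 2 [(4, 0)],
.ordE 2 16 1,
.join 1 16 5 4 2 2 [(4, 0)],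
.join 2 8 4 4 3 1 [(3, 0)],
.join 1 16 5 2 2 0 [(4, 0)],
.ordE 1 64 1,
.join 1 2 3 3 2 2 [(1, 1)],
.srt 0 1 0 0 3,
.part [80, 36, 2] [0, 0, 0] [] [(0, 9)],
.join 1 1 3 2 1 1 [(0, 0)],
.join 2 8 4 4 2 2 [(3, 0)],
.l2 1 20 36 2 2 2,
.join 2 1 1 4 2 2 [(0, 0)],
.part [16, 10, 36] [0, 0, 0] [] [(1, 65)],
.part [9, 32, 20] [0, 0, 0] [] [(2, 66)],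
.join 0 6 3 3 2 1 [(1, 0), (2, 0)],
.join 1 4 5 2 2 1 [(2, 1)],
.deg 0 [1, 2, 0],
.ab2 2 66,
.ab 2 3,
.l2 0 5 9 0 2 1,
.part [4, 1, 66] [0, 0, 0] [56] [],
.part [120, 5, 2] [1, 0, 0] [] [],
.ab 1 2,
.le 1 20 16 4 3,
.l2 0 3 9 0 2 1,
.ab 2 6,
.deg 1 [0, 3, 0],
.join 2 2 2 3 2 1 [(1, 0)],
.part [64, 17, 12] [0, 0, 0] [] [(2, 34)],
.l2 0 3 9 0 1 1,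
.join 2 1 3 4 2 2 [(0, 0)],
.join 1 24 6 3 2 1 [(3, 0), (4, 0)],
.join 1 1 4 3 2 2 [(0, 1)],
.mono 1 32 96 1,
.join 0 1 4 3 2 2 [(0, 1)],
.join 1 4 4 4 4 3 [(2, 3)],
.part [64, 12, 34] [0, 0, 0] [] [(1, 17)],
.ordE 2 4 1,
.join 1 1 6 4 3 1 [(0, 0)],
.join 0 8 4 3 2 1 [(3, 0)],
.join 1 5 4 4 3 1 [(0, 0), (2, 0)],
.join 1 2 2 3 2 1 [(1, 0)],
.part [10, 64, 36] [0, 0, 0] [] [(0, 17)],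
.join 1 20 6 4 3 1 [(2, 0), (4, 0)],
.part [17, 64, 10] [0, 0, 0] [] [(1, 36)],
.join 1 2 4 4 3 1 [(1, 0)],
.part [3, 64, 4] [0, 0, 0] [56] [],
.join 1 4 5 4 4 4 [(2, 4)],
.part [68, 2, 1] [0, 0, 0] [56] [],
.join 0 2 3 3 2 1 [(1, 0)],
.part [2, 65, 4] [0, 0, 0] [56] [],
.join 1 8 5 2 1 1 [(3, 0)],
.join 1 36 6 4 3 1 [(2, 0), (5, 0)],
.join 1 1 1 2 1 1 [(0, 0)],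
.join 1 2 3 2 1 1 [(1, 0)],
.part [25, 66, 36] [1, 0, 0] [] [],
.ab 1 6,
.join 0 16 6 4 2 3 [(4, 1)],
.part [1, 68, 2] [0, 0, 0] [56] [],
.part [72, 32, 16] [0, 0, 0] [7] [],
.ab2 0 9,
.mono 2 16 18 1,
.join 0 1 1 3 2 1 [(0, 0)],
.join 2 48 6 3 2 1 [(4, 0), (5, 0)],
.deg 4 [2, 0, 1],
.join 1 4 4 4 4 4 [(2, 4)],
.part [64, 34, 12] [0, 0, 0] [] [(1, 17)],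
.join 1 16 6 4 3 1 [(4, 0)],
.join 2 2 6 3 2 1 [(1, 0)],
.join 1 2 2 2 2 0 [(1, 0)],
.join 1 8 4 4 2 2 [(3, 0)],
.join 1 2 5 4 0 4 [(1, 0)],
.join 1 20 6 4 2 2 [(2, 0), (4, 0)],
.join 0 1 5 3 2 1 [(0, 0)],
.part [64, 20, 33] [0, 0, 0] [] [(0, 10)],
.ab2 1 48,
.deg 4 [0, 2, 1],
.join 1 10 4 4 2 2 [(1, 0), (3, 0)],
.deg 5 [1, 0, 2],
.join 1 1 5 4 3 2 [(0, 1)],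
.part [1, 36, 18] [0, 0, 0] [] [(1, 72)],
.join 2 2 4 3 1 2 [(1, 0)],
.ab2 1 66,
.srt 2 6 1 6 2,
.part [9, 18, 32] [0, 0, 0] [] [(1, 68)],
.join 1 4 5 2 2 0 [(2, 0)],
.part [64, 32, 24] [0, 0, 0] [7] [],
.hall [0] [3, 4, 5],
.part [71, 24, 32] [1, 0, 0] [] [],
.join 1 4 4 3 2 1 [(2, 0)],
.ordE 0 2 3,
.join 2 2 4 3 2 1 [(1, 0)],
.join 0 3 4 3 2 1 [(0, 0), (1, 0)],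
.part [8, 65, 54] [0, 0, 1] [] [],
.join 2 16 5 3 3 0 [(4, 0)],
.join 2 2 2 2 1 1 [(1, 0)],
.ordE 2 4 2,
.join 0 12 6 4 1 3 [(2, 0), (3, 0)],
.le 0 17 16 4 2,
.lip 0 64 88 56,
.part [64, 36, 10] [0, 0, 0] [] [(1, 17)],
.l2 1 34 36 5 2 1,
.join 1 48 6 3 2 1 [(4, 0), (5, 0)],
.part [9, 64, 36] [0, 0, 0] [] [(0, 18)],
.ab 2 5,
.le 1 18 16 4 1,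
.part [65, 32, 20] [0, 0, 0] [] [(0, 10)],
.join 1 1 5 4 2 2 [(0, 0)],
.ab2 2 20,
.part [64, 20, 34] [0, 0, 0] [] [(2, 9)],
.srt 0 1 0 0 2,
.join 1 4 5 3 2 1 [(2, 0)],
.join 2 2 5 2 0 2 [(1, 0)],
.part [40, 23, 64] [0, 1, 0] [] [],
.join 0 1 2 2 1 1 [(0, 0)],
.join 0 1 4 4 4 0 [(0, 0)],
.l2 0 17 24 4 1 1,
.join 1 8 4 2 1 1 [(3, 0)],
.deg 0 [3, 0, 0],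
.part [96, 8, 16] [0, 0, 0] [7] [],
.join 1 4 4 4 4 2 [(2, 2)],
.part [1, 4, 66] [0, 0, 0] [56] [],
.deg 1 [1, 1, 1],
.deg 6 [2, 1, 1],
.hall [1] [3, 4, 5],
.part [1, 66, 4] [0, 0, 0] [56] [],
.ordE 0 64 2,
.ab2 0 17,
.join 1 2 5 4 3 1 [(1, 0)],
.ab 2 2,
.deg 1 [1, 2, 0],
.srt 0 5 0 4 2,
.join 1 6 3 4 3 1 [(1, 0), (2, 0)],
.un 2 6,
.part [9, 36, 64] [0, 0, 0] [] [(0, 18)],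
.join 0 16 6 3 1 2 [(4, 0)],
.le 2 68 4 2 1,
.join 2 8 6 3 2 1 [(3, 0)],
.l2 0 9 24 3 1 1,
.join 1 2 5 4 1 4 [(1, 1)],
.join 1 1 1 3 1 2 [(0, 0)],
.deg 6 [3, 1, 0],
.join 2 2 2 3 3 0 [(1, 0)],
.join 1 2 3 3 2 1 [(1, 0)],
.part [1, 34, 20] [0, 0, 0] [] [(1, 72)],
.l2 0 9 33 0 1 1,
.part [32, 8, 80] [0, 0, 0] [7] [],
.part [66, 36, 16] [0, 0, 0] [] [(0, 9)],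
.part [64, 10, 20] [0, 0, 0] [] [(1, 33)],
.le 0 12 4 2 1,
.join 1 2 4 4 1 3 [(1, 0)],
.part [9, 20, 32] [0, 0, 0] [] [(1, 66)],
.srt 1 6 0 6 2,
.part [64, 34, 12] [0, 0, 0] [] [(0, 17)],
.deg 3 [1, 0, 2],
.le 0 9 8 3 4,
.join 0 2 4 2 1 1 [(1, 0)],
.join 1 4 4 4 4 0 [(2, 0)],
.join 2 4 4 4 2 2 [(2, 0)],
.lipl 2 36 54 1 18,
.le 0 17 16 4 1,
.join 0 16 6 4 1 3 [(4, 0)],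
.deg 2 [0, 3, 0],
.join 1 9 5 4 2 2 [(0, 0), (3, 0)],
.deg 4 [1, 2, 0],
.lipl 0 80 89 0 9,
.deg 2 [0, 0, 3],
.join 0 1 3 4 4 4 [(0, 4)],
.ordE 1 2 1,
.part [120, 3, 4] [1, 0, 0] [] [],
.ab2 0 40,
.hall [1] [0, 1, 6],
.lipl 2 20 54 2 34,
.join 0 2 6 4 2 2 [(1, 0)],
.part [5, 58, 64] [0, 1, 0] [] [],
.deg 5 [1, 2, 0],
.join 0 1 6 4 2 2 [(0, 0)],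
.le 1 18 2 1 2,
.lip 1 2 58 56,
.join 0 17 5 3 2 1 [(0, 0), (4, 0)],
.hall [2] [3, 5, 6],
.mono 2 32 34 1,
.join 0 8 5 3 2 1 [(3, 0)],
.l2 0 9 12 3 1 1,
.ordE 0 16 3,
.part [72, 16, 32] [0, 0, 0] [7] [],
.mono 0 16 80 1,
.join 1 5 3 4 3 1 [(0, 0), (2, 0)],
.join 1 20 5 4 3 1 [(2, 0), (4, 0)],
.lipl 0 1 73 2 72,
.join 2 1 1 2 1 1 [(0, 0)],
.part [71, 48, 8] [1, 0, 0] [] [],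
.deg 0 [1, 1, 1],
.part [2, 1, 68] [0, 0, 0] [56] [],
.hall [1] [3, 5, 6],
.join 0 2 3 2 1 1 [(1, 0)],
.part [64, 36, 18] [0, 0, 0] [] [(1, 9)],
.lip 1 8 15 7,
.join 1 2 4 4 0 4 [(1, 0)],
.ab2 1 34,
.ab2 2 18,
.lip 0 65 89 56,
.un 0 2,
.part [9, 2, 36] [0, 0, 0] [] [(0, 80)],
.ab2 1 3,
.join 2 16 5 4 2 2 [(4, 0)],
.mono 1 4 68 1,
.un 0 1,
.join 1 4 5 4 3 4 [(2, 3)],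
.ab2 1 24,
.ab2 0 24,
.ordE 1 32 1,
.part [9, 18, 64] [0, 0, 0] [] [(1, 36)],
.srt 0 4 0 3 4,
.join 1 8 4 4 3 1 [(3, 0)],
.deg 5 [2, 0, 1],
.ordE 0 4 1,
.le 1 20 16 4 2,
.mono 1 2 66 1,
.join 0 2 6 4 1 3 [(1, 0)],
.hall [2] [3, 4, 6],
.join 0 12 4 3 2 1 [(2, 0), (3, 0)],
.part [96, 16, 8] [0, 0, 0] [7] [],
.mono 0 4 12 1,
.join 1 4 6 3 1 2 [(2, 0)],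
.join 1 1 2 2 1 1 [(0, 0)],
.le 1 36 4 2 1,
.ab2 0 66,
.lipl 2 34 54 2 20,
.join 1 2 4 4 1 4 [(1, 1)],
.join 1 2 4 3 2 1 [(1, 0)],
.part [4, 3, 64] [0, 0, 0] [56] [],
.part [4, 64, 3] [0, 0, 0] [56] [],
.part [9, 68, 16] [0, 0, 0] [] [(1, 34)],
.join 0 2 2 3 2 2 [(1, 1)],
.l2 0 5 9 0 1 1,
.part [27, 36, 64] [1, 0, 0] [] [],
.part [1, 64, 6] [0, 0, 0] [56] [],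
.ab2 1 20,
.lipl 0 1 73 1 72,
.deg 5 [2, 1, 0],
.join 1 4 5 2 1 1 [(2, 0)],
.part [9, 36, 2] [0, 0, 0] [] [(1, 80)],
.part [8, 16, 96] [0, 0, 0] [7] [],
.part [9, 64, 18] [0, 0, 0] [] [(1, 36)],
.mono 2 2 34 1,
.hall [1] [0, 1, 2],
.join 2 4 6 3 2 1 [(2, 0)],
.join 0 9 5 4 3 1 [(0, 0), (3, 0)],
.join 1 5 6 3 2 1 [(0, 0), (2, 0)],
.deg 5 [0, 0, 3],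
.l2 1 33 48 5 2 1,
.lipl 0 8 73 1 65,
.part [6, 64, 1] [0, 0, 0] [56] [],
.part [69, 24, 34] [1, 0, 0] [] [],
.ab 0 5,
.join 1 33 6 4 2 2 [(0, 0), (5, 0)],
.hall [2] [0, 1, 2],
.part [9, 2, 36] [0, 0, 0] [] [(2, 80)],
.lip 0 64 120 56,
.join 2 36 6 4 3 1 [(2, 0), (5, 0)],
.part [64, 20, 10] [0, 0, 0] [] [(2, 33)],
.join 0 12 6 3 1 2 [(2, 0), (3, 0)],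
.join 1 16 5 3 1 2 [(4, 0)],
.ab2 2 5,
.join 2 1 2 4 2 2 [(0, 0)],
.lip 0 8 11 7,
.part [32, 80, 8] [0, 0, 0] [7] [],
.part [73, 36, 18] [1, 0, 0] [] [],
.ab2 0 48,
.ordE 0 1 3,
.join 1 36 6 3 2 1 [(2, 0), (5, 0)],
.join 2 36 6 3 2 1 [(2, 0), (5, 0)],
.join 2 1 5 3 2 1 [(0, 0)],
.join 1 2 2 3 0 3 [(1, 0)],
.lipl 2 36 54 2 18,
.part [9, 34, 4] [0, 0, 0] [] [(1, 80)],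
.join 2 4 5 3 2 1 [(2, 0)],
.join 2 8 4 4 1 3 [(3, 0)],
.join 2 6 6 3 3 0 [(1, 0), (2, 0)],
.join 1 2 2 4 1 3 [(1, 0)],
.hall [2] [0, 2, 6],
.join 2 2 4 4 2 2 [(1, 0)],
.join 1 6 5 4 3 1 [(1, 0), (2, 0)],
.le 1 36 32 5 2,
.join 1 16 5 3 3 0 [(4, 0)],
.deg 0 [2, 0, 1],
.le 1 34 2 1 2,
.join 2 2 2 4 3 1 [(1, 0)],
.part [65, 2, 4] [0, 0, 0] [56] [],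
.join 1 2 4 2 2 0 [(1, 0)],
.part [65, 4, 2] [0, 0, 0] [56] [],
.join 1 4 4 4 3 2 [(2, 1)],
.deg 2 [0, 1, 2],
.hall [2] [1, 2, 6],
.part [48, 15, 64] [0, 1, 0] [] [],
.part [64, 33, 20] [0, 0, 0] [] [(1, 10)],
.join 2 2 4 2 1 1 [(1, 0)],
.part [8, 48, 64] [0, 0, 0] [7] [],
.join 0 2 6 3 1 2 [(1, 0)],
.part [66, 1, 4] [0, 0, 0] [56] [],
.join 1 8 4 4 1 3 [(3, 0)],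
.part [2, 4, 65] [0, 0, 0] [56] [],
.part [2, 64, 5] [0, 0, 0] [56] [],
.ab2 1 17,
.lip 1 4 60 56,
.ab2 1 40,
.ab2 0 72,
.deg 4 [0, 1, 2],
.join 2 2 3 4 2 2 [(1, 0)],
.l2 0 3 9 0 1 2,
.join 2 2 2 4 2 2 [(1, 0)],
.ordE 0 64 1,
.join 2 2 5 3 2 1 [(1, 0)],
.join 0 8 4 2 1 1 [(3, 0)],
.srt 0 4 0 3 2,
.part [9, 4, 34] [0, 0, 0] [] [(0, 80)],
.join 0 9 5 3 2 1 [(0, 0), (3, 0)],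
.lipl 2 34 54 1 20,
.join 1 12 5 4 3 1 [(2, 0), (3, 0)],
.join 2 4 5 4 3 1 [(2, 0)],
.part [9, 64, 18] [0, 0, 0] [] [(2, 36)],
.join 2 16 5 2 0 2 [(4, 0)],
.join 0 1 6 4 2 3 [(0, 1)],
.lip 0 64 71 7,
.part [32, 24, 64] [0, 0, 0] [7] [],
.part [64, 34, 17] [0, 0, 0] [] [(2, 12)],
.join 1 1 1 3 2 1 [(0, 0)],
.join 1 2 2 4 2 3 [(1, 1)],
.ordE 0 8 2,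
.join 1 2 5 4 3 4 [(1, 3)],
.part [9, 64, 36] [0, 0, 0] [] [(2, 18)],
.part [8, 36, 18] [0, 0, 0] [] [(2, 65)],
.join 1 1 2 4 1 3 [(0, 0)],
.ab2 1 96,
.join 1 4 5 4 2 2 [(2, 0)],
.part [16, 8, 96] [0, 0, 0] [7] [],
.lipl 2 20 53 1 33,
.l2 0 66 80 6 1 2,
.mono 2 32 36 1,
.lipl 0 17 27 0 10,
.join 2 2 2 3 0 3 [(1, 0)],
.part [8, 80, 32] [0, 0, 0] [7] [],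
.join 2 4 3 4 2 2 [(2, 0)],
.l2 0 17 33 0 2 1,
.part [8, 34, 20] [0, 0, 0] [] [(2, 65)],
.part [24, 64, 32] [0, 0, 0] [7] [],
.srt 0 4 0 3 3,
.part [64, 33, 18] [0, 0, 0] [] [(1, 12)],
.join 1 4 5 4 1 3 [(2, 0)],
.ab 1 0,
.join 0 4 6 3 1 2 [(2, 0)],
.join 2 8 5 4 1 3 [(3, 0)],
.ordE 2 16 2,
.join 2 8 5 2 1 1 [(3, 0)],
.mono 1 2 18 1,
.join 2 8 5 4 2 2 [(3, 0)],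
.join 1 2 4 2 1 1 [(1, 0)],
.le 1 18 2 1 1,
.deg 2 [1, 1, 1],
.join 0 3 3 4 3 1 [(0, 0), (1, 0)],
.join 1 1 6 3 2 2 [(0, 1)],
.join 1 1 1 4 1 3 [(0, 0)],
.join 1 36 6 4 2 2 [(2, 0), (5, 0)],
.join 1 5 5 4 3 1 [(0, 0), (2, 0)],
.ab2 0 68,
.join 1 4 3 2 1 1 [(2, 0)],
.join 2 16 5 3 0 3 [(4, 0)],
.un 2 4,
.l2 0 9 17 0 1 1,
.join 1 2 6 4 2 2 [(1, 0)],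
.deg 3 [3, 0, 0],
.ordE 1 8 1,
.l2 0 6 10 1 2 1,
.join 1 18 6 4 3 1 [(1, 0), (4, 0)],
.join 0 8 6 4 2 3 [(3, 1)],
.srt 0 3 0 0 3,
.join 2 48 6 4 3 1 [(4, 0), (5, 0)],
.part [3, 60, 64] [0, 1, 0] [] [],
.part [40, 64, 16] [0, 0, 0] [7] [],
.ab2 2 6,
.join 1 2 4 4 4 1 [(1, 1)],
.deg 4 [0, 0, 3],
.hall [1] [0, 2, 6],
.l2 0 6 20 2 1 1,
.join 0 1 3 3 2 2 [(0, 1)],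
.join 2 1 1 3 1 2 [(0, 0)],
.le 1 18 16 4 3,
.join 0 16 5 4 2 2 [(4, 0)],
.join 1 32 6 3 2 1 [(5, 0)],
.join 1 4 6 4 2 2 [(2, 0)],
.srt 0 3 0 0 4,
.srt 0 2 0 1 4,
.join 1 2 4 4 3 4 [(1, 3)],
.ab 2 1,
.le 0 68 4 2 1,
.part [16, 72, 32] [0, 0, 0] [7] [],
.part [16, 32, 72] [0, 0, 0] [7] [],
.part [9, 64, 54] [0, 0, 1] [] [],
.join 1 2 4 3 1 2 [(1, 0)],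
.join 2 32 6 4 3 1 [(5, 0)],
.part [64, 4, 3] [0, 0, 0] [56] [],
.join 0 1 1 3 2 2 [(0, 1)],
.ab2 0 65,
.join 0 16 6 3 2 2 [(4, 1)],
.part [1, 36, 18] [0, 0, 0] [] [(2, 72)],
.join 2 4 4 4 3 1 [(2, 0)],
.join 1 40 6 3 2 1 [(3, 0), (5, 0)],
.join 0 3 4 4 3 1 [(0, 0), (1, 0)],
.join 2 24 6 3 2 1 [(3, 0), (4, 0)]]

noncomputable def gads : List Gt := [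
⟨1, [⟨2, 2, []⟩, ⟨65, 4, []⟩], [3, 1, 1], 1, [(3, 1), (66, 1)]⟩,
⟨2, [⟨8, 3, []⟩, ⟨48, 3, []⟩], [3, 3], 1, [(24, 1), (40, 1)]⟩,
⟨1, [⟨52, 4, []⟩, ⟨64, 2, []⟩], [3, 2, 2], 1, [(68, 1), (80, 1), (96, 1)]⟩,
⟨1, [⟨8, 2, []⟩, ⟨96, 4, []⟩], [3, 1, 1], 1, [(40, 1), (72, 1)]⟩,
⟨2, [⟨112, 3, []⟩, ⟨4, 3, []⟩], [3, 3], 1, [(20, 1), (36, 1), (68, 1)]⟩,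
⟨1, [⟨48, 4, []⟩, ⟨8, 2, []⟩], [3, 2, 2], 1, [(24, 1), (40, 1)]⟩,
⟨0, [⟨5, 2, []⟩, ⟨64, 4, []⟩], [3, 1, 1], 1, [(65, 1), (68, 1)]⟩,
⟨2, [⟨2, 3, []⟩, ⟨24, 3, []⟩], [3, 3], 1, [(10, 1), (18, 1)]⟩,
⟨1, [⟨82, 4, []⟩, ⟨32, 2, []⟩], [3, 2, 2], 1, [(34, 1), (48, 1), (96, 1)]⟩,
⟨2, [⟨32, 2, []⟩, ⟨16, 4, []⟩], [3, 1, 1], 1, [(48, 1)]⟩,
⟨2, [⟨2, 2, []⟩, ⟨48, 4, []⟩], [3, 1, 1], 1, [(18, 1), (34, 1)]⟩,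
⟨1, [⟨12, 3, []⟩, ⟨32, 3, []⟩], [3, 3], 1, [(36, 1), (40, 1)]⟩,
⟨1, [⟨16, 2, []⟩, ⟨96, 4, []⟩], [3, 1, 1], 1, [(48, 1), (80, 1)]⟩,
⟨0, [⟨1, 3, []⟩, ⟨64, 3, []⟩], [3, 3], 1, [(65, 1)]⟩,
⟨0, [⟨40, 3, []⟩, ⟨64, 3, []⟩], [3, 3], 1, [(72, 1), (96, 1)]⟩,
⟨1, [⟨4, 2, []⟩, ⟨32, 4, []⟩], [3, 1, 1], 1, [(36, 1)]⟩,
⟨2, [⟨104, 3, []⟩, ⟨4, 3, []⟩], [3, 3], 1, [(12, 1), (36, 1), (68, 1)]⟩,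
⟨2, [⟨2, 2, []⟩, ⟨24, 4, []⟩], [3, 1, 1], 1, [(10, 1), (18, 1)]⟩,
⟨1, [⟨16, 2, []⟩, ⟨2, 4, []⟩], [3, 1, 1], 1, [(18, 1)]⟩,
⟨0, [⟨1, 2, []⟩, ⟨68, 4, []⟩], [3, 1, 1], 1, [(5, 1), (65, 1)]⟩,
⟨1, [⟨32, 2, []⟩, ⟨12, 4, []⟩], [3, 1, 1], 1, [(36, 1), (40, 1)]⟩,
⟨1, [⟨32, 2, []⟩, ⟨72, 4, []⟩], [3, 1, 1], 1, [(40, 1), (96, 1)]⟩,
⟨2, [⟨84, 4, []⟩, ⟨32, 2, []⟩], [3, 2, 2], 1, [(36, 1), (48, 1), (96, 1)]⟩,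
⟨0, [⟨1, 2, []⟩, ⟨64, 4, []⟩], [3, 1, 1], 1, [(65, 1)]⟩,
⟨1, [⟨36, 4, []⟩, ⟨64, 2, []⟩], [3, 2, 2], 1, [(68, 1), (96, 1)]⟩,
⟨1, [⟨17, 3, []⟩, ⟨4, 3, []⟩], [3, 3], 1, [(5, 1), (20, 1)]⟩,
⟨1, [⟨16, 3, []⟩, ⟨32, 3, []⟩], [3, 3], 1, [(48, 1)]⟩,
⟨2, [⟨36, 3, []⟩, ⟨2, 3, []⟩], [3, 3], 1, [(6, 1), (34, 1)]⟩,
⟨1, [⟨4, 2, []⟩, ⟨66, 4, []⟩], [3, 1, 1], 1, [(6, 1), (68, 1)]⟩,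
⟨0, [⟨9, 2, []⟩, ⟨64, 4, []⟩], [3, 1, 1], 1, [(65, 1), (72, 1)]⟩,
⟨2, [⟨32, 2, []⟩, ⟨6, 4, []⟩], [3, 1, 1], 1, [(34, 1), (36, 1)]⟩,
⟨2, [⟨70, 3, []⟩, ⟨32, 3, []⟩], [3, 3], 1, [(34, 1), (36, 1), (96, 1)]⟩,
⟨2, [⟨18, 3, []⟩, ⟨32, 3, []⟩], [3, 3], 1, [(34, 1), (48, 1)]⟩,
⟨2, [⟨16, 3, []⟩, ⟨6, 3, []⟩], [3, 3], 1, [(18, 1), (20, 1)]⟩,
⟨1, [⟨8, 2, []⟩, ⟨16, 4, []⟩], [3, 1, 1], 1, [(24, 1)]⟩,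
⟨0, [⟨48, 4, []⟩, ⟨8, 2, []⟩], [3, 2, 2], 1, [(24, 1), (40, 1)]⟩,
⟨1, [⟨2, 2, []⟩, ⟨33, 4, []⟩], [3, 1, 1], 1, [(3, 1), (34, 1)]⟩,
⟨1, [⟨4, 2, []⟩, ⟨65, 4, []⟩], [3, 1, 1], 1, [(5, 1), (68, 1)]⟩,
⟨0, [⟨5, 3, []⟩, ⟨64, 3, []⟩], [3, 3], 1, [(65, 1), (68, 1)]⟩,
⟨2, [⟨2, 2, []⟩, ⟨112, 4, []⟩], [3, 1, 1], 1, [(18, 1), (34, 1), (66, 1)]⟩,
⟨2, [⟨2, 2, []⟩, ⟨32, 4, []⟩], [3, 1, 1], 1, [(34, 1)]⟩,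
⟨1, [⟨16, 3, []⟩, ⟨96, 3, []⟩], [3, 3], 1, [(48, 1), (80, 1)]⟩,
⟨1, [⟨10, 3, []⟩, ⟨32, 3, []⟩], [3, 3], 1, [(34, 1), (40, 1)]⟩,
⟨2, [⟨4, 3, []⟩, ⟨48, 3, []⟩], [3, 3], 1, [(20, 1), (36, 1)]⟩,
⟨2, [⟨2, 3, []⟩, ⟨16, 3, []⟩], [3, 3], 1, [(18, 1)]⟩,
⟨1, [⟨2, 3, []⟩, ⟨32, 3, []⟩], [3, 3], 1, [(34, 1)]⟩,
⟨1, [⟨69, 3, []⟩, ⟨2, 3, []⟩], [3, 3], 1, [(3, 1), (6, 1), (66, 1)]⟩,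
⟨1, [⟨40, 4, []⟩, ⟨16, 2, []⟩], [3, 2, 2], 1, [(24, 1), (48, 1)]⟩,
⟨2, [⟨16, 2, []⟩, ⟨2, 4, []⟩], [3, 1, 1], 1, [(18, 1)]⟩,
⟨1, [⟨35, 4, []⟩, ⟨64, 2, []⟩], [3, 2, 2], 1, [(65, 1), (66, 1), (96, 1)]⟩,
⟨1, [⟨88, 3, []⟩, ⟨2, 3, []⟩], [3, 3], 1, [(10, 1), (18, 1), (66, 1)]⟩,
⟨1, [⟨4, 2, []⟩, ⟨34, 4, []⟩], [3, 1, 1], 1, [(6, 1), (36, 1)]⟩,
⟨1, [⟨2, 3, []⟩, ⟨65, 3, []⟩], [3, 3], 1, [(3, 1), (66, 1)]⟩,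
⟨1, [⟨2, 2, []⟩, ⟨4, 4, []⟩], [3, 1, 1], 1, [(6, 1)]⟩,
⟨1, [⟨4, 3, []⟩, ⟨16, 3, []⟩], [3, 3], 1, [(20, 1)]⟩,
⟨0, [⟨8, 3, []⟩, ⟨64, 3, []⟩], [3, 3], 1, [(72, 1)]⟩,
⟨1, [⟨4, 2, []⟩, ⟨2, 4, []⟩], [3, 1, 1], 1, [(6, 1)]⟩,
⟨1, [⟨17, 3, []⟩, ⟨8, 3, []⟩], [3, 3], 1, [(9, 1), (24, 1)]⟩,
⟨0, [⟨41, 4, []⟩, ⟨64, 2, []⟩], [3, 2, 2], 1, [(65, 1), (72, 1), (96, 1)]⟩,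
⟨1, [⟨104, 3, []⟩, ⟨4, 3, []⟩], [3, 3], 1, [(12, 1), (36, 1), (68, 1)]⟩,
⟨2, [⟨8, 2, []⟩, ⟨96, 4, []⟩], [3, 1, 1], 1, [(40, 1), (72, 1)]⟩,
⟨0, [⟨14, 3, []⟩, ⟨64, 3, []⟩], [3, 3], 1, [(66, 1), (68, 1), (72, 1)]⟩,
⟨2, [⟨32, 2, []⟩, ⟨80, 4, []⟩], [3, 1, 1], 1, [(48, 1), (96, 1)]⟩,
⟨2, [⟨97, 4, []⟩, ⟨4, 2, []⟩], [3, 2, 2], 1, [(5, 1), (36, 1), (68, 1)]⟩,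
⟨2, [⟨33, 3, []⟩, ⟨4, 3, []⟩], [3, 3], 1, [(5, 1), (36, 1)]⟩,
⟨1, [⟨16, 2, []⟩, ⟨72, 4, []⟩], [3, 1, 1], 1, [(24, 1), (80, 1)]⟩,
⟨1, [⟨2, 2, []⟩, ⟨16, 4, []⟩], [3, 1, 1], 1, [(18, 1)]⟩,
⟨1, [⟨100, 4, []⟩, ⟨2, 2, []⟩], [3, 2, 2], 1, [(6, 1), (34, 1), (66, 1)]⟩,
⟨1, [⟨26, 4, []⟩, ⟨64, 2, []⟩], [3, 2, 2], 1, [(66, 1), (72, 1), (80, 1)]⟩,
⟨0, [⟨11, 3, []⟩, ⟨64, 3, []⟩], [3, 3], 1, [(65, 1), (66, 1), (72, 1)]⟩,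
⟨2, [⟨1, 3, []⟩, ⟨8, 3, []⟩], [3, 3], 1, [(9, 1)]⟩,
⟨2, [⟨2, 3, []⟩, ⟨65, 3, []⟩], [3, 3], 1, [(3, 1), (66, 1)]⟩,
⟨2, [⟨2, 3, []⟩, ⟨5, 3, []⟩], [3, 3], 1, [(3, 1), (6, 1)]⟩,
⟨1, [⟨4, 3, []⟩, ⟨32, 3, []⟩], [3, 3], 1, [(36, 1)]⟩,
⟨1, [⟨2, 2, []⟩, ⟨24, 4, []⟩], [3, 1, 1], 1, [(10, 1), (18, 1)]⟩,
⟨2, [⟨82, 4, []⟩, ⟨4, 2, []⟩], [3, 2, 2], 1, [(6, 1), (20, 1), (68, 1)]⟩,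
⟨0, [⟨76, 3, []⟩, ⟨1, 3, []⟩], [3, 3], 1, [(5, 1), (9, 1), (65, 1)]⟩,
⟨1, [⟨1, 2, []⟩, ⟨2, 4, []⟩], [3, 1, 1], 1, [(3, 1)]⟩,
⟨0, [⟨19, 3, []⟩, ⟨64, 3, []⟩], [3, 3], 1, [(65, 1), (66, 1), (80, 1)]⟩,
⟨2, [⟨1, 2, []⟩, ⟨2, 4, []⟩], [3, 1, 1], 1, [(3, 1)]⟩,
⟨2, [⟨32, 2, []⟩, ⟨2, 4, []⟩], [3, 1, 1], 1, [(34, 1)]⟩,
⟨2, [⟨33, 3, []⟩, ⟨2, 3, []⟩], [3, 3], 1, [(3, 1), (34, 1)]⟩,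
⟨1, [⟨21, 4, []⟩, ⟨64, 2, []⟩], [3, 2, 2], 1, [(65, 1), (68, 1), (80, 1)]⟩,
⟨1, [⟨97, 4, []⟩, ⟨8, 2, []⟩], [3, 2, 2], 1, [(9, 1), (40, 1), (72, 1)]⟩,
⟨1, [⟨34, 4, []⟩, ⟨64, 2, []⟩], [3, 2, 2], 1, [(66, 1), (96, 1)]⟩,
⟨1, [⟨1, 3, []⟩, ⟨68, 3, []⟩], [3, 3], 1, [(5, 1), (65, 1)]⟩,
⟨0, [⟨76, 4, []⟩, ⟨1, 2, []⟩], [3, 2, 2], 1, [(5, 1), (9, 1), (65, 1)]⟩,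
⟨2, [⟨12, 3, []⟩, ⟨16, 3, []⟩], [3, 3], 1, [(20, 1), (24, 1)]⟩,
⟨1, [⟨16, 2, []⟩, ⟨4, 4, []⟩], [3, 1, 1], 1, [(20, 1)]⟩,
⟨2, [⟨2, 2, []⟩, ⟨36, 4, []⟩], [3, 1, 1], 1, [(6, 1), (34, 1)]⟩,
⟨2, [⟨48, 4, []⟩, ⟨8, 2, []⟩], [3, 2, 2], 1, [(24, 1), (40, 1)]⟩,
⟨2, [⟨4, 2, []⟩, ⟨66, 4, []⟩], [3, 1, 1], 1, [(6, 1), (68, 1)]⟩,
⟨0, [⟨8, 2, []⟩, ⟨69, 4, []⟩], [3, 1, 1], 1, [(9, 1), (12, 1), (72, 1)]⟩,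
⟨1, [⟨6, 4, []⟩, ⟨1, 2, []⟩], [3, 2, 2], 1, [(3, 1), (5, 1)]⟩,
⟨2, [⟨2, 2, []⟩, ⟨20, 4, []⟩], [3, 1, 1], 1, [(6, 1), (18, 1)]⟩,
⟨1, [⟨16, 2, []⟩, ⟨10, 4, []⟩], [3, 1, 1], 1, [(18, 1), (24, 1)]⟩,
⟨1, [⟨38, 4, []⟩, ⟨64, 2, []⟩], [3, 2, 2], 1, [(66, 1), (68, 1), (96, 1)]⟩,
⟨2, [⟨112, 3, []⟩, ⟨8, 3, []⟩], [3, 3], 1, [(24, 1), (40, 1), (72, 1)]⟩,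
⟨0, [⟨8, 3, []⟩, ⟨80, 3, []⟩], [3, 3], 1, [(24, 1), (72, 1)]⟩,
⟨2, [⟨4, 2, []⟩, ⟨18, 4, []⟩], [3, 1, 1], 1, [(6, 1), (20, 1)]⟩,
⟨2, [⟨34, 3, []⟩, ⟨4, 3, []⟩], [3, 3], 1, [(6, 1), (36, 1)]⟩,
⟨2, [⟨2, 2, []⟩, ⟨4, 4, []⟩], [3, 1, 1], 1, [(6, 1)]⟩,
⟨1, [⟨8, 2, []⟩, ⟨32, 4, []⟩], [3, 1, 1], 1, [(40, 1)]⟩,
⟨2, [⟨5, 4, []⟩, ⟨2, 2, []⟩], [3, 2, 2], 1, [(3, 1), (6, 1)]⟩,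
⟨2, [⟨100, 3, []⟩, ⟨2, 3, []⟩], [3, 3], 1, [(6, 1), (34, 1), (66, 1)]⟩,
⟨1, [⟨16, 2, []⟩, ⟨32, 4, []⟩], [3, 1, 1], 1, [(48, 1)]⟩,
⟨2, [⟨4, 2, []⟩, ⟨24, 4, []⟩], [3, 1, 1], 1, [(12, 1), (20, 1)]⟩,
⟨0, [⟨19, 4, []⟩, ⟨64, 2, []⟩], [3, 2, 2], 1, [(65, 1), (66, 1), (80, 1)]⟩,
⟨0, [⟨33, 3, []⟩, ⟨64, 3, []⟩], [3, 3], 1, [(65, 1), (96, 1)]⟩,
⟨0, [⟨24, 2, []⟩, ⟨64, 4, []⟩], [3, 1, 1], 1, [(72, 1), (80, 1)]⟩,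
⟨1, [⟨1, 2, []⟩, ⟨4, 4, []⟩], [3, 1, 1], 1, [(5, 1)]⟩,
⟨2, [⟨69, 3, []⟩, ⟨2, 3, []⟩], [3, 3], 1, [(3, 1), (6, 1), (66, 1)]⟩,
⟨2, [⟨112, 3, []⟩, ⟨2, 3, []⟩], [3, 3], 1, [(18, 1), (34, 1), (66, 1)]⟩,
⟨0, [⟨3, 4, []⟩, ⟨4, 2, []⟩], [3, 2, 2], 1, [(5, 1), (6, 1)]⟩,
⟨0, [⟨6, 3, []⟩, ⟨64, 3, []⟩], [3, 3], 1, [(66, 1), (68, 1)]⟩,
⟨2, [⟨32, 3, []⟩, ⟨24, 3, []⟩], [3, 3], 1, [(40, 1), (48, 1)]⟩,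
⟨0, [⟨4, 2, []⟩, ⟨65, 4, []⟩], [3, 1, 1], 1, [(5, 1), (68, 1)]⟩,
⟨1, [⟨49, 4, []⟩, ⟨64, 2, []⟩], [3, 2, 2], 1, [(65, 1), (80, 1), (96, 1)]⟩,
⟨1, [⟨32, 2, []⟩, ⟨18, 4, []⟩], [3, 1, 1], 1, [(34, 1), (48, 1)]⟩,
⟨0, [⟨2, 2, []⟩, ⟨64, 4, []⟩], [3, 1, 1], 1, [(66, 1)]⟩,
⟨2, [⟨2, 3, []⟩, ⟨4, 3, []⟩], [3, 3], 1, [(6, 1)]⟩,
⟨2, [⟨4, 2, []⟩, ⟨2, 4, []⟩], [3, 1, 1], 1, [(6, 1)]⟩,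
⟨1, [⟨18, 3, []⟩, ⟨1, 3, []⟩], [3, 3], 1, [(3, 1), (17, 1)]⟩,
⟨2, [⟨2, 3, []⟩, ⟨48, 3, []⟩], [3, 3], 1, [(18, 1), (34, 1)]⟩,
⟨0, [⟨10, 3, []⟩, ⟨64, 3, []⟩], [3, 3], 1, [(66, 1), (72, 1)]⟩,
⟨2, [⟨88, 3, []⟩, ⟨32, 3, []⟩], [3, 3], 1, [(40, 1), (48, 1), (96, 1)]⟩,
⟨2, [⟨16, 2, []⟩, ⟨12, 4, []⟩], [3, 1, 1], 1, [(20, 1), (24, 1)]⟩,
⟨1, [⟨32, 3, []⟩, ⟨72, 3, []⟩], [3, 3], 1, [(40, 1), (96, 1)]⟩,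
⟨0, [⟨4, 2, []⟩, ⟨1, 4, []⟩], [3, 1, 1], 1, [(5, 1)]⟩,
⟨2, [⟨82, 4, []⟩, ⟨32, 2, []⟩], [3, 2, 2], 1, [(34, 1), (48, 1), (96, 1)]⟩,
⟨1, [⟨5, 4, []⟩, ⟨2, 2, []⟩], [3, 2, 2], 1, [(3, 1), (6, 1)]⟩,
⟨1, [⟨32, 2, []⟩, ⟨2, 4, []⟩], [3, 1, 1], 1, [(34, 1)]⟩,
⟨0, [⟨1, 3, []⟩, ⟨68, 3, []⟩], [3, 3], 1, [(5, 1), (65, 1)]⟩,
⟨2, [⟨32, 3, []⟩, ⟨72, 3, []⟩], [3, 3], 1, [(40, 1), (96, 1)]⟩,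
⟨2, [⟨4, 3, []⟩, ⟨65, 3, []⟩], [3, 3], 1, [(5, 1), (68, 1)]⟩,
⟨1, [⟨2, 3, []⟩, ⟨16, 3, []⟩], [3, 3], 1, [(18, 1)]⟩,
⟨2, [⟨32, 2, []⟩, ⟨20, 4, []⟩], [3, 1, 1], 1, [(36, 1), (48, 1)]⟩,
⟨2, [⟨20, 3, []⟩, ⟨32, 3, []⟩], [3, 3], 1, [(36, 1), (48, 1)]⟩,
⟨1, [⟨17, 3, []⟩, ⟨2, 3, []⟩], [3, 3], 1, [(3, 1), (18, 1)]⟩,
⟨1, [⟨88, 3, []⟩, ⟨4, 3, []⟩], [3, 3], 1, [(12, 1), (20, 1), (68, 1)]⟩,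
⟨2, [⟨32, 2, []⟩, ⟨18, 4, []⟩], [3, 1, 1], 1, [(34, 1), (48, 1)]⟩,
⟨2, [⟨16, 2, []⟩, ⟨4, 4, []⟩], [3, 1, 1], 1, [(20, 1)]⟩,
⟨0, [⟨25, 4, []⟩, ⟨64, 2, []⟩], [3, 2, 2], 1, [(65, 1), (72, 1), (80, 1)]⟩,
⟨1, [⟨100, 3, []⟩, ⟨16, 3, []⟩], [3, 3], 1, [(20, 1), (48, 1), (80, 1)]⟩,
⟨1, [⟨12, 3, []⟩, ⟨16, 3, []⟩], [3, 3], 1, [(20, 1), (24, 1)]⟩,
⟨2, [⟨8, 2, []⟩, ⟨36, 4, []⟩], [3, 1, 1], 1, [(12, 1), (40, 1)]⟩,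
⟨1, [⟨41, 4, []⟩, ⟨64, 2, []⟩], [3, 2, 2], 1, [(65, 1), (72, 1), (96, 1)]⟩,
⟨2, [⟨100, 4, []⟩, ⟨16, 2, []⟩], [3, 2, 2], 1, [(20, 1), (48, 1), (80, 1)]⟩,
⟨1, [⟨2, 3, []⟩, ⟨4, 3, []⟩], [3, 3], 1, [(6, 1)]⟩,
⟨1, [⟨44, 4, []⟩, ⟨64, 2, []⟩], [3, 2, 2], 1, [(68, 1), (72, 1), (96, 1)]⟩,
⟨2, [⟨16, 3, []⟩, ⟨72, 3, []⟩], [3, 3], 1, [(24, 1), (80, 1)]⟩,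
⟨2, [⟨4, 2, []⟩, ⟨40, 4, []⟩], [3, 1, 1], 1, [(12, 1), (36, 1)]⟩,
⟨1, [⟨100, 4, []⟩, ⟨16, 2, []⟩], [3, 2, 2], 1, [(20, 1), (48, 1), (80, 1)]⟩,
⟨2, [⟨1, 3, []⟩, ⟨16, 3, []⟩], [3, 3], 1, [(17, 1)]⟩,
⟨1, [⟨8, 2, []⟩, ⟨80, 4, []⟩], [3, 1, 1], 1, [(24, 1), (72, 1)]⟩,
⟨2, [⟨16, 2, []⟩, ⟨6, 4, []⟩], [3, 1, 1], 1, [(18, 1), (20, 1)]⟩,
⟨2, [⟨4, 2, []⟩, ⟨48, 4, []⟩], [3, 1, 1], 1, [(20, 1), (36, 1)]⟩,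
⟨2, [⟨4, 3, []⟩, ⟨3, 3, []⟩], [3, 3], 1, [(5, 1), (6, 1)]⟩,
⟨1, [⟨8, 2, []⟩, ⟨2, 4, []⟩], [3, 1, 1], 1, [(10, 1)]⟩,
⟨0, [⟨8, 2, []⟩, ⟨80, 4, []⟩], [3, 1, 1], 1, [(24, 1), (72, 1)]⟩,
⟨0, [⟨11, 4, []⟩, ⟨64, 2, []⟩], [3, 2, 2], 1, [(65, 1), (66, 1), (72, 1)]⟩,
⟨0, [⟨16, 3, []⟩, ⟨32, 3, []⟩], [3, 3], 1, [(48, 1)]⟩,
⟨0, [⟨1, 3, []⟩, ⟨2, 3, []⟩], [3, 3], 1, [(3, 1)]⟩,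
⟨1, [⟨1, 3, []⟩, ⟨4, 3, []⟩], [3, 3], 1, [(5, 1)]⟩,
⟨2, [⟨40, 4, []⟩, ⟨16, 2, []⟩], [3, 2, 2], 1, [(24, 1), (48, 1)]⟩,
⟨2, [⟨2, 3, []⟩, ⟨32, 3, []⟩], [3, 3], 1, [(34, 1)]⟩,
⟨1, [⟨1, 3, []⟩, ⟨6, 3, []⟩], [3, 3], 1, [(3, 1), (5, 1)]⟩,
⟨2, [⟨3, 4, []⟩, ⟨4, 2, []⟩], [3, 2, 2], 1, [(5, 1), (6, 1)]⟩,
⟨2, [⟨4, 2, []⟩, ⟨16, 4, []⟩], [3, 1, 1], 1, [(20, 1)]⟩,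
⟨2, [⟨32, 2, []⟩, ⟨4, 4, []⟩], [3, 1, 1], 1, [(36, 1)]⟩,
⟨2, [⟨2, 2, []⟩, ⟨9, 4, []⟩], [3, 1, 1], 1, [(3, 1), (10, 1)]⟩,
⟨0, [⟨3, 3, []⟩, ⟨64, 3, []⟩], [3, 3], 1, [(65, 1), (66, 1)]⟩,
⟨2, [⟨32, 3, []⟩, ⟨80, 3, []⟩], [3, 3], 1, [(48, 1), (96, 1)]⟩,
⟨1, [⟨84, 4, []⟩, ⟨2, 2, []⟩], [3, 2, 2], 1, [(6, 1), (18, 1), (66, 1)]⟩,
⟨2, [⟨32, 3, []⟩, ⟨6, 3, []⟩], [3, 3], 1, [(34, 1), (36, 1)]⟩,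
⟨2, [⟨2, 2, []⟩, ⟨17, 4, []⟩], [3, 1, 1], 1, [(3, 1), (18, 1)]⟩,
⟨1, [⟨3, 4, []⟩, ⟨4, 2, []⟩], [3, 2, 2], 1, [(5, 1), (6, 1)]⟩,
⟨0, [⟨8, 3, []⟩, ⟨16, 3, []⟩], [3, 3], 1, [(24, 1)]⟩,
⟨0, [⟨28, 3, []⟩, ⟨64, 3, []⟩], [3, 3], 1, [(68, 1), (72, 1), (80, 1)]⟩,
⟨2, [⟨4, 2, []⟩, ⟨32, 4, []⟩], [3, 1, 1], 1, [(36, 1)]⟩,
⟨2, [⟨4, 3, []⟩, ⟨16, 3, []⟩], [3, 3], 1, [(20, 1)]⟩,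
⟨1, [⟨32, 2, []⟩, ⟨6, 4, []⟩], [3, 1, 1], 1, [(34, 1), (36, 1)]⟩,
⟨1, [⟨32, 2, []⟩, ⟨4, 4, []⟩], [3, 1, 1], 1, [(36, 1)]⟩,
⟨1, [⟨2, 2, []⟩, ⟨20, 4, []⟩], [3, 1, 1], 1, [(6, 1), (18, 1)]⟩,
⟨1, [⟨4, 2, []⟩, ⟨112, 4, []⟩], [3, 1, 1], 1, [(20, 1), (36, 1), (68, 1)]⟩,
⟨2, [⟨18, 2, []⟩, ⟨32, 4, []⟩], [3, 1, 1], 1, [(34, 1), (48, 1)]⟩,
⟨2, [⟨16, 3, []⟩, ⟨96, 3, []⟩], [3, 3], 1, [(48, 1), (80, 1)]⟩,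
⟨1, [⟨4, 3, []⟩, ⟨3, 3, []⟩], [3, 3], 1, [(5, 1), (6, 1)]⟩,
⟨1, [⟨16, 2, []⟩, ⟨70, 4, []⟩], [3, 1, 1], 1, [(18, 1), (20, 1), (80, 1)]⟩,
⟨2, [⟨4, 3, []⟩, ⟨66, 3, []⟩], [3, 3], 1, [(6, 1), (68, 1)]⟩,
⟨1, [⟨82, 4, []⟩, ⟨8, 2, []⟩], [3, 2, 2], 1, [(10, 1), (24, 1), (72, 1)]⟩,
⟨2, [⟨98, 4, []⟩, ⟨4, 2, []⟩], [3, 2, 2], 1, [(6, 1), (36, 1), (68, 1)]⟩,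
⟨1, [⟨2, 2, []⟩, ⟨40, 4, []⟩], [3, 1, 1], 1, [(10, 1), (34, 1)]⟩,
⟨2, [⟨2, 2, []⟩, ⟨16, 4, []⟩], [3, 1, 1], 1, [(18, 1)]⟩,
⟨2, [⟨1, 3, []⟩, ⟨2, 3, []⟩], [3, 3], 1, [(3, 1)]⟩,
⟨1, [⟨4, 3, []⟩, ⟨66, 3, []⟩], [3, 3], 1, [(6, 1), (68, 1)]⟩,
⟨1, [⟨1, 3, []⟩, ⟨66, 3, []⟩], [3, 3], 1, [(3, 1), (65, 1)]⟩,
⟨2, [⟨4, 2, []⟩, ⟨33, 4, []⟩], [3, 1, 1], 1, [(5, 1), (36, 1)]⟩,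
⟨1, [⟨32, 2, []⟩, ⟨16, 4, []⟩], [3, 1, 1], 1, [(48, 1)]⟩,
⟨2, [⟨1, 2, []⟩, ⟨4, 4, []⟩], [3, 1, 1], 1, [(5, 1)]⟩,
⟨2, [⟨8, 3, []⟩, ⟨32, 3, []⟩], [3, 3], 1, [(40, 1)]⟩,
⟨0, [⟨13, 3, []⟩, ⟨64, 3, []⟩], [3, 3], 1, [(65, 1), (68, 1), (72, 1)]⟩,
⟨1, [⟨20, 4, []⟩, ⟨64, 2, []⟩], [3, 2, 2], 1, [(68, 1), (80, 1)]⟩,
⟨1, [⟨70, 3, []⟩, ⟨32, 3, []⟩], [3, 3], 1, [(34, 1), (36, 1), (96, 1)]⟩,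
⟨2, [⟨2, 2, []⟩, ⟨40, 4, []⟩], [3, 1, 1], 1, [(10, 1), (34, 1)]⟩,
⟨0, [⟨32, 2, []⟩, ⟨72, 4, []⟩], [3, 1, 1], 1, [(40, 1), (96, 1)]⟩,
⟨1, [⟨37, 4, []⟩, ⟨64, 2, []⟩], [3, 2, 2], 1, [(65, 1), (68, 1), (96, 1)]⟩,
⟨0, [⟨1, 3, []⟩, ⟨66, 3, []⟩], [3, 3], 1, [(3, 1), (65, 1)]⟩,
⟨2, [⟨16, 2, []⟩, ⟨5, 4, []⟩], [3, 1, 1], 1, [(17, 1), (20, 1)]⟩,
⟨2, [⟨20, 3, []⟩, ⟨2, 3, []⟩], [3, 3], 1, [(6, 1), (18, 1)]⟩,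
⟨1, [⟨32, 2, []⟩, ⟨80, 4, []⟩], [3, 1, 1], 1, [(48, 1), (96, 1)]⟩,
⟨0, [⟨9, 4, []⟩, ⟨64, 2, []⟩], [3, 2, 2], 1, [(65, 1), (72, 1)]⟩,
⟨1, [⟨4, 2, []⟩, ⟨18, 4, []⟩], [3, 1, 1], 1, [(6, 1), (20, 1)]⟩,
⟨2, [⟨8, 2, []⟩, ⟨80, 4, []⟩], [3, 1, 1], 1, [(24, 1), (72, 1)]⟩,
⟨2, [⟨32, 2, []⟩, ⟨70, 4, []⟩], [3, 1, 1], 1, [(34, 1), (36, 1), (96, 1)]⟩,
⟨2, [⟨8, 3, []⟩, ⟨16, 3, []⟩], [3, 3], 1, [(24, 1)]⟩,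
⟨1, [⟨14, 4, []⟩, ⟨64, 2, []⟩], [3, 2, 2], 1, [(66, 1), (68, 1), (72, 1)]⟩,
⟨2, [⟨8, 2, []⟩, ⟨32, 4, []⟩], [3, 1, 1], 1, [(40, 1)]⟩,
⟨2, [⟨1, 3, []⟩, ⟨4, 3, []⟩], [3, 3], 1, [(5, 1)]⟩,
⟨2, [⟨100, 4, []⟩, ⟨2, 2, []⟩], [3, 2, 2], 1, [(6, 1), (34, 1), (66, 1)]⟩,
⟨1, [⟨8, 2, []⟩, ⟨20, 4, []⟩], [3, 1, 1], 1, [(12, 1), (24, 1)]⟩,
⟨2, [⟨4, 2, []⟩, ⟨34, 4, []⟩], [3, 1, 1], 1, [(6, 1), (36, 1)]⟩,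
⟨0, [⟨25, 3, []⟩, ⟨64, 3, []⟩], [3, 3], 1, [(65, 1), (72, 1), (80, 1)]⟩,
⟨0, [⟨3, 2, []⟩, ⟨64, 4, []⟩], [3, 1, 1], 1, [(65, 1), (66, 1)]⟩,
⟨0, [⟨17, 3, []⟩, ⟨64, 3, []⟩], [3, 3], 1, [(65, 1), (80, 1)]⟩,
⟨0, [⟨24, 3, []⟩, ⟨64, 3, []⟩], [3, 3], 1, [(72, 1), (80, 1)]⟩,
⟨1, [⟨2, 3, []⟩, ⟨68, 3, []⟩], [3, 3], 1, [(6, 1), (66, 1)]⟩,
⟨1, [⟨8, 3, []⟩, ⟨80, 3, []⟩], [3, 3], 1, [(24, 1), (72, 1)]⟩,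
⟨1, [⟨24, 4, []⟩, ⟨32, 2, []⟩], [3, 2, 2], 1, [(40, 1), (48, 1)]⟩,
⟨2, [⟨67, 3, []⟩, ⟨4, 3, []⟩], [3, 3], 1, [(5, 1), (6, 1), (68, 1)]⟩,
⟨1, [⟨32, 2, []⟩, ⟨5, 4, []⟩], [3, 1, 1], 1, [(33, 1), (36, 1)]⟩,
⟨2, [⟨8, 2, []⟩, ⟨16, 4, []⟩], [3, 1, 1], 1, [(24, 1)]⟩,
⟨0, [⟨10, 2, []⟩, ⟨64, 4, []⟩], [3, 1, 1], 1, [(66, 1), (72, 1)]⟩,
⟨1, [⟨4, 3, []⟩, ⟨65, 3, []⟩], [3, 3], 1, [(5, 1), (68, 1)]⟩,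
⟨1, [⟨8, 3, []⟩, ⟨16, 3, []⟩], [3, 3], 1, [(24, 1)]⟩,
⟨0, [⟨1, 2, []⟩, ⟨66, 4, []⟩], [3, 1, 1], 1, [(3, 1), (65, 1)]⟩,
⟨0, [⟨8, 2, []⟩, ⟨64, 4, []⟩], [3, 1, 1], 1, [(72, 1)]⟩,
⟨1, [⟨2, 2, []⟩, ⟨32, 4, []⟩], [3, 1, 1], 1, [(34, 1)]⟩,
⟨2, [⟨2, 3, []⟩, ⟨68, 3, []⟩], [3, 3], 1, [(6, 1), (66, 1)]⟩,
⟨1, [⟨88, 3, []⟩, ⟨32, 3, []⟩], [3, 3], 1, [(40, 1), (48, 1), (96, 1)]⟩,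
⟨2, [⟨6, 4, []⟩, ⟨1, 2, []⟩], [3, 2, 2], 1, [(3, 1), (5, 1)]⟩,
⟨2, [⟨24, 4, []⟩, ⟨32, 2, []⟩], [3, 2, 2], 1, [(40, 1), (48, 1)]⟩,
⟨1, [⟨84, 4, []⟩, ⟨32, 2, []⟩], [3, 2, 2], 1, [(36, 1), (48, 1), (96, 1)]⟩,
⟨1, [⟨22, 4, []⟩, ⟨64, 2, []⟩], [3, 2, 2], 1, [(66, 1), (68, 1), (80, 1)]⟩,
⟨2, [⟨16, 2, []⟩, ⟨70, 4, []⟩], [3, 1, 1], 1, [(18, 1), (20, 1), (80, 1)]⟩,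
⟨1, [⟨1, 2, []⟩, ⟨20, 4, []⟩], [3, 1, 1], 1, [(5, 1), (17, 1)]⟩,
⟨1, [⟨8, 3, []⟩, ⟨32, 3, []⟩], [3, 3], 1, [(40, 1)]⟩,
⟨1, [⟨2, 2, []⟩, ⟨112, 4, []⟩], [3, 1, 1], 1, [(18, 1), (34, 1), (66, 1)]⟩,
⟨2, [⟨1, 2, []⟩, ⟨68, 4, []⟩], [3, 1, 1], 1, [(5, 1), (65, 1)]⟩,
⟨1, [⟨2, 2, []⟩, ⟨17, 4, []⟩], [3, 1, 1], 1, [(3, 1), (18, 1)]⟩,
⟨1, [⟨16, 3, []⟩, ⟨72, 3, []⟩], [3, 3], 1, [(24, 1), (80, 1)]⟩,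
⟨2, [⟨16, 2, []⟩, ⟨32, 4, []⟩], [3, 1, 1], 1, [(48, 1)]⟩,
⟨1, [⟨32, 3, []⟩, ⟨80, 3, []⟩], [3, 3], 1, [(48, 1), (96, 1)]⟩,
⟨1, [⟨32, 2, []⟩, ⟨70, 4, []⟩], [3, 1, 1], 1, [(34, 1), (36, 1), (96, 1)]⟩,
⟨1, [⟨100, 3, []⟩, ⟨2, 3, []⟩], [3, 3], 1, [(6, 1), (34, 1), (66, 1)]⟩,
⟨1, [⟨1, 2, []⟩, ⟨68, 4, []⟩], [3, 1, 1], 1, [(5, 1), (65, 1)]⟩,
⟨2, [⟨4, 3, []⟩, ⟨32, 3, []⟩], [3, 3], 1, [(36, 1)]⟩,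
⟨0, [⟨1, 3, []⟩, ⟨8, 3, []⟩], [3, 3], 1, [(9, 1)]⟩,
⟨1, [⟨1, 2, []⟩, ⟨66, 4, []⟩], [3, 1, 1], 1, [(3, 1), (65, 1)]⟩,
⟨2, [⟨16, 2, []⟩, ⟨96, 4, []⟩], [3, 1, 1], 1, [(48, 1), (80, 1)]⟩,
⟨2, [⟨16, 2, []⟩, ⟨36, 4, []⟩], [3, 1, 1], 1, [(20, 1), (48, 1)]⟩,
⟨1, [⟨67, 3, []⟩, ⟨4, 3, []⟩], [3, 3], 1, [(5, 1), (6, 1), (68, 1)]⟩,
⟨0, [⟨16, 2, []⟩, ⟨72, 4, []⟩], [3, 1, 1], 1, [(24, 1), (80, 1)]⟩,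
⟨2, [⟨1, 3, []⟩, ⟨6, 3, []⟩], [3, 3], 1, [(3, 1), (5, 1)]⟩,
⟨1, [⟨2, 2, []⟩, ⟨68, 4, []⟩], [3, 1, 1], 1, [(6, 1), (66, 1)]⟩,
⟨0, [⟨82, 4, []⟩, ⟨8, 2, []⟩], [3, 2, 2], 1, [(10, 1), (24, 1), (72, 1)]⟩,
⟨1, [⟨16, 2, []⟩, ⟨36, 4, []⟩], [3, 1, 1], 1, [(20, 1), (48, 1)]⟩,
⟨1, [⟨18, 4, []⟩, ⟨64, 2, []⟩], [3, 2, 2], 1, [(66, 1), (80, 1)]⟩,
⟨2, [⟨2, 2, []⟩, ⟨68, 4, []⟩], [3, 1, 1], 1, [(6, 1), (66, 1)]⟩,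
⟨2, [⟨8, 3, []⟩, ⟨96, 3, []⟩], [3, 3], 1, [(40, 1), (72, 1)]⟩,
⟨1, [⟨17, 4, []⟩, ⟨64, 2, []⟩], [3, 2, 2], 1, [(65, 1), (80, 1)]⟩,
⟨0, [⟨24, 4, []⟩, ⟨32, 2, []⟩], [3, 2, 2], 1, [(40, 1), (48, 1)]⟩,
⟨1, [⟨1, 3, []⟩, ⟨2, 3, []⟩], [3, 3], 1, [(3, 1)]⟩,
⟨0, [⟨2, 3, []⟩, ⟨4, 3, []⟩], [3, 3], 1, [(6, 1)]⟩,
⟨1, [⟨10, 4, []⟩, ⟨64, 2, []⟩], [3, 2, 2], 1, [(66, 1), (72, 1)]⟩,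
⟨2, [⟨2, 2, []⟩, ⟨65, 4, []⟩], [3, 1, 1], 1, [(3, 1), (66, 1)]⟩,
⟨1, [⟨84, 4, []⟩, ⟨8, 2, []⟩], [3, 2, 2], 1, [(12, 1), (24, 1), (72, 1)]⟩,
⟨2, [⟨8, 2, []⟩, ⟨34, 4, []⟩], [3, 1, 1], 1, [(10, 1), (40, 1)]⟩,
⟨1, [⟨28, 4, []⟩, ⟨64, 2, []⟩], [3, 2, 2], 1, [(68, 1), (72, 1), (80, 1)]⟩,
⟨0, [⟨9, 3, []⟩, ⟨64, 3, []⟩], [3, 3], 1, [(65, 1), (72, 1)]⟩,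
⟨0, [⟨41, 3, []⟩, ⟨64, 3, []⟩], [3, 3], 1, [(65, 1), (72, 1), (96, 1)]⟩,
⟨1, [⟨1, 2, []⟩, ⟨36, 4, []⟩], [3, 1, 1], 1, [(5, 1), (33, 1)]⟩,
⟨2, [⟨104, 3, []⟩, ⟨16, 3, []⟩], [3, 3], 1, [(24, 1), (48, 1), (80, 1)]⟩,
⟨2, [⟨4, 2, []⟩, ⟨112, 4, []⟩], [3, 1, 1], 1, [(20, 1), (36, 1), (68, 1)]⟩,
⟨2, [⟨4, 2, []⟩, ⟨10, 4, []⟩], [3, 1, 1], 1, [(6, 1), (12, 1)]⟩,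
⟨1, [⟨4, 2, []⟩, ⟨33, 4, []⟩], [3, 1, 1], 1, [(5, 1), (36, 1)]⟩,
⟨2, [⟨98, 3, []⟩, ⟨4, 3, []⟩], [3, 3], 1, [(6, 1), (36, 1), (68, 1)]⟩,
⟨1, [⟨4, 2, []⟩, ⟨16, 4, []⟩], [3, 1, 1], 1, [(20, 1)]⟩,
⟨1, [⟨2, 3, []⟩, ⟨64, 3, []⟩], [3, 3], 1, [(66, 1)]⟩,
⟨2, [⟨16, 3, []⟩, ⟨32, 3, []⟩], [3, 3], 1, [(48, 1)]⟩,
⟨0, [⟨2, 2, []⟩, ⟨65, 4, []⟩], [3, 1, 1], 1, [(3, 1), (66, 1)]⟩,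
⟨1, [⟨112, 3, []⟩, ⟨4, 3, []⟩], [3, 3], 1, [(20, 1), (36, 1), (68, 1)]⟩,
⟨1, [⟨13, 4, []⟩, ⟨64, 2, []⟩], [3, 2, 2], 1, [(65, 1), (68, 1), (72, 1)]⟩,
⟨0, [⟨2, 2, []⟩, ⟨1, 4, []⟩], [3, 1, 1], 1, [(3, 1)]⟩,
⟨2, [⟨98, 4, []⟩, ⟨16, 2, []⟩], [3, 2, 2], 1, [(18, 1), (48, 1), (80, 1)]⟩,
⟨0, [⟨17, 4, []⟩, ⟨64, 2, []⟩], [3, 2, 2], 1, [(65, 1), (80, 1)]⟩,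
⟨1, [⟨104, 3, []⟩, ⟨16, 3, []⟩], [3, 3], 1, [(24, 1), (48, 1), (80, 1)]⟩,
⟨0, [⟨49, 3, []⟩, ⟨64, 3, []⟩], [3, 3], 1, [(65, 1), (80, 1), (96, 1)]⟩,
⟨1, [⟨8, 3, []⟩, ⟨48, 3, []⟩], [3, 3], 1, [(24, 1), (40, 1)]⟩,
⟨0, [⟨8, 3, []⟩, ⟨32, 3, []⟩], [3, 3], 1, [(40, 1)]⟩,
⟨2, [⟨2, 2, []⟩, ⟨33, 4, []⟩], [3, 1, 1], 1, [(3, 1), (34, 1)]⟩,
⟨0, [⟨13, 4, []⟩, ⟨64, 2, []⟩], [3, 2, 2], 1, [(65, 1), (68, 1), (72, 1)]⟩,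
⟨1, [⟨8, 3, []⟩, ⟨96, 3, []⟩], [3, 3], 1, [(40, 1), (72, 1)]⟩,
⟨1, [⟨82, 3, []⟩, ⟨32, 3, []⟩], [3, 3], 1, [(34, 1), (48, 1), (96, 1)]⟩]

theorem base_ok : base.all (fun q => q.ok 7 3 [7, 56] big4 big4 [(0, 1, 0, 0), (0, 2, 0, 1), (0, 4, 0, 3), (0, 5, 0, 4), (0, 3, 0, 0), (1, 6, 0, 6), (2, 6, 1, 6)]) = true := by decide +kernel

theorem gads_ok : gads.all (fun g => Nat.blt g.j 3 && g.ok 7 (([2, 2, 2] : List ℕ).getD g.j 0)) = true := by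
  decide +kernel

theorem cmp_ok : cmpR names cnf (cls 3 base ++ gads.map Gt.cl) = true := by decide +kernel

end D74

theorem inst_74 : instB 1 [2, 2, 2] [] [(0, 1, 0, 0), (0, 2, 0, 1), (0, 4, 0, 3), (0, 5, 0, 4), (0, 3, 0, 0), (1, 6, 0, 6), (2, 6, 1, 6)] D74.base D74.gads D74.names D74.cnf D74.db D74.prf = true :=
  instB_of D74.base_ok D74.gads_ok (by decide +kernel) D74.okc D74.cmp_ok D74.chk_ok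

/-- no gadget has fewer than `2 R` new points. -/
theorem p2_74 : D74.gads.all (fun g => Nat.ble (2 * g.R) g.gs.length) = true := by decide +kernel

/-- there is no configuration of this instance. -/
theorem no_74 {V : Type v} [DecidableEq V] {ι : Type u} [Fintype ι] {B : ι → Finset V}
    {Q : Finset V} {i j : ι} {x : ℕ → V} {D : ℕ → Finset V}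
    (h : CfI B Q 1 x D i j [2, 2, 2] [])
    (hs : Srt [(0, 1, 0, 0), (0, 2, 0, 1), (0, 4, 0, 3), (0, 5, 0, 4), (0, 3, 0, 0), (1, 6, 0, 6), (2, 6, 1, 6)] (ecB B x 7 D)) : False :=
  h.absurd (by decide) hs inst_74

end Pool.Agent.Hyp6
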