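import Pool.Agent.Hyp6.Cseg2
import Pool.Agent.Hyp6.Ins.E76

/-!
# HYP6: instance 76 of the list: n = 1, bounds [0, 0, 2], inner blocks [3]

1047 base clauses, 246 gadgets, 1456 learned clauses.
-/

set_option autoImplicit false
set_option maxRecDepth 100000

namespace Pool.Agent.Hyp6

open Rup

universe u v

namespace D76

noncomputable def base : List Rs := [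
.deg 6 [1, 1, 2],
.le 1 33 1 0 2,
.part [46, 17, 64] [1, 0, 0] [] [],
.mono 1 8 40 1,
.join 0 2 5 2 2 1 [(1, 1)],
.join 1 16 6 2 0 2 [(4, 0)],
.part [17, 12, 64] [0, 0, 0] [] [(2, 34)],
.part [64, 36, 18] [0, 0, 0] [] [(0, 9)],
.le 1 18 2 1 1,
.join 0 4 5 3 2 1 [(2, 0)],
.l2 0 34 40 5 1 1,
.part [8, 16, 103] [0, 0, 1] [] [],
.part [120, 3, 4] [1, 0, 0] [] [],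
.le 1 10 2 1 2,
.lipl 1 18 27 1 9,
.join 1 4 4 2 1 1 [(2, 0)],
.part [18, 32, 77] [0, 0, 1] [] [],
.part [32, 31, 64] [0, 1, 0] [] [],
.ab2 0 66,
.part [4, 65, 58] [0, 0, 1] [] [],
.ordE 2 4 2,
.lipl 2 68 86 2 18,
.deg 5 [2, 0, 1],
.hall [2] [0, 1, 6],
.lipl 2 68 101 2 33,
.l2 2 20 36 2 1 1,
.part [48, 7, 72] [0, 1, 0] [] [],
.le 0 72 8 3 1,
.part [36, 16, 75] [0, 0, 1] [] [],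
.part [34, 64, 12] [0, 0, 0] [] [(2, 17)],
.le 0 96 64 6 1,
.part [64, 33, 18] [0, 0, 0] [] [(0, 12)],
.lipl 2 20 54 0 34,
.ordE 1 8 2,
.mono 2 8 72 1,
.lip 2 80 87 7,
.part [16, 72, 32] [0, 0, 0] [7] [],
.hall [1] [0, 1, 2],
.ordE 0 1 1,
.lip 2 6 54 56,
.part [64, 20, 9] [0, 0, 0] [] [(2, 34)],
.part [12, 64, 34] [0, 0, 0] [] [(1, 17)],
.part [64, 34, 17] [0, 0, 0] [] [(0, 12)],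
.lipl 0 36 53 2 17,
.mono 1 8 72 1,
.part [36, 64, 17] [0, 0, 0] [] [(2, 10)],
.hall [2] [0, 2, 6],
.ordE 1 4 2,
.ab 2 0,
.ab2 1 48,
.deg 3 [0, 1, 2],
.ab 1 5,
.part [1, 4, 66] [0, 0, 0] [56] [],
.part [1, 2, 68] [0, 0, 0] [56] [],
.le 0 24 8 3 2,
.ab 0 4,
.ordE 0 8 2,
.join 2 4 5 3 4 1 [(2, 2)],
.part [64, 17, 10] [0, 0, 0] [] [(0, 36)],
.join 1 32 6 2 1 1 [(5, 0)],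
.le 2 36 32 5 2,
.lip 2 6 46 56,
.le 1 18 16 4 2,
.join 0 1 5 2 2 1 [(0, 1)],
.deg 2 [0, 1, 2],
.l2 1 9 10 3 1 1,
.join 2 8 5 3 0 3 [(3, 0)],
.part [64, 32, 31] [0, 0, 1] [] [],
.le 1 48 32 5 1,
.l2 0 40 96 5 1 1,
.ab2 2 34,
.deg 5 [0, 1, 2],
.part [66, 36, 1] [0, 0, 0] [24] [],
.part [10, 68, 1] [0, 0, 0] [48] [],
.deg 1 [0, 1, 1],
.part [64, 10, 33] [0, 0, 0] [] [(0, 20)],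
.le 0 12 8 3 1,
.lip 1 48 55 7,
.deg 0 [0, 0, 2],
.un 0 2,
.part [9, 36, 64] [0, 0, 0] [] [(2, 18)],
.join 0 1 2 2 0 2 [(0, 0)],
.mono 0 1 9 1,
.l2 2 10 34 1 1 1,
.l2 2 17 20 4 1 2,
.part [8, 64, 48] [0, 0, 0] [7] [],
.join 1 4 5 2 3 0 [(2, 1)],
.part [66, 1, 4] [0, 0, 0] [56] [],
.join 2 8 4 3 2 1 [(3, 0)],
.part [64, 12, 34] [0, 0, 0] [] [(2, 17)],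
.lip 2 2 50 56,
.ab 0 1,
.ab2 2 24,
.part [64, 36, 18] [0, 0, 0] [] [(2, 9)],
.le 0 34 2 1 2,
.le 1 24 8 3 1,
.join 2 4 5 3 1 2 [(2, 0)],
.part [18, 12, 64] [0, 0, 0] [] [(2, 33)],
.mono 1 1 9 1,
.part [32, 12, 83] [0, 0, 1] [] [],
.lip 0 5 29 56,
.un 2 3,
.l2 1 10 40 3 1 1,
.lip 2 1 41 56,
.l2 1 34 36 5 1 1,
.ab 0 5,
.hall [0, 2] [1, 6],
.deg 4 [2, 1, 0],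
.lipl 0 34 46 2 12,
.ordE 1 8 1,
.mono 0 64 65 1,
.lip 2 65 121 56,
.part [64, 1, 62] [0, 0, 1] [] [],
.part [12, 16, 99] [0, 0, 1] [] [],
.l2 1 72 80 6 1 1,
.lip 2 5 45 56,
.part [64, 18, 45] [0, 0, 1] [] [],
.le 2 36 32 5 3,
.mono 1 1 5 1,
.join 0 8 5 4 4 0 [(3, 0)],
.l2 2 17 18 4 1 2,
.ab2 0 5,
.hall [1] [4, 5, 6],
.join 2 1 3 3 2 1 [(0, 0)],
.hall [2] [3, 4, 6],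
.join 0 32 6 2 0 2 [(5, 0)],
.le 0 33 32 5 2,
.le 0 40 8 3 2,
.l2 0 12 40 3 1 1,
.join 1 1 3 2 1 1 [(0, 0)],
.part [6, 64, 1] [0, 0, 0] [56] [],
.ordE 1 2 2,
.deg 1 [0, 0, 2],
.part [9, 20, 2] [0, 0, 0] [] [(0, 96)],
.part [10, 17, 36] [0, 0, 0] [64] [],
.lipl 2 10 43 2 33,
.part [36, 66, 25] [0, 0, 1] [] [],
.ab2 0 33,
.part [32, 17, 68] [0, 0, 0] [] [(2, 10)],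
.part [96, 8, 16] [0, 0, 0] [7] [],
.mono 0 1 65 1,
.part [4, 66, 57] [0, 0, 1] [] [],
.join 1 2 5 2 1 2 [(1, 1)],
.part [8, 32, 87] [0, 0, 1] [] [],
.part [33, 20, 64] [0, 0, 0] [] [(2, 10)],
.join 1 2 5 2 1 1 [(1, 0)],
.lip 0 65 121 56,
.deg 4 [1, 2, 0],
.join 2 8 4 3 1 2 [(3, 0)],
.deg 2 [1, 1, 1],
.join 1 8 5 2 1 2 [(3, 1)],
.le 0 34 32 5 2,
.lipl 2 20 29 0 9,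
.ordE 2 8 3,
.deg 3 [2, 0, 1],
.l2 0 66 96 6 1 1,
.mono 2 32 96 1,
.part [8, 33, 68] [0, 0, 0] [] [(2, 18)],
.part [68, 1, 58] [0, 0, 1] [] [],
.lip 2 5 29 56,
.le 0 80 64 6 2,
.ordE 0 16 2,
.part [10, 64, 53] [0, 0, 1] [] [],
.part [32, 10, 68] [0, 0, 0] [] [(2, 17)],
.l2 1 40 96 5 1 1,
.part [17, 64, 10] [0, 0, 0] [] [(1, 36)],
.ordE 1 2 1,
.ordE 0 2 2,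
.part [30, 33, 64] [1, 0, 0] [] [],
.join 2 1 4 3 2 2 [(0, 1)],
.le 0 72 64 6 2,
.join 0 4 5 2 3 0 [(2, 1)],
.join 1 2 3 2 1 2 [(1, 1)],
.part [8, 36, 83] [0, 0, 1] [] [],
.le 1 9 8 3 2,
.part [64, 9, 34] [0, 0, 0] [] [(0, 20)],
.part [17, 34, 12] [0, 0, 0] [64] [],
.ordE 2 64 2,
.l2 1 17 48 4 1 1,
.l2 1 17 80 4 1 1,
.le 0 12 8 3 2,
.join 1 8 6 2 3 0 [(3, 1)],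
.lipl 1 17 29 2 12,
.lip 2 36 60 56,
.l2 1 72 96 6 1 1,
.ab 1 6,
.join 0 8 4 2 2 0 [(3, 0)],
.join 0 8 5 2 2 0 [(3, 0)],
.part [20, 64, 9] [0, 0, 0] [] [(2, 34)],
.part [64, 12, 34] [0, 0, 0] [] [(0, 17)],
.deg 6 [1, 0, 3],
.l2 1 12 24 3 1 1,
.part [12, 64, 18] [0, 0, 0] [] [(2, 33)],
.part [64, 12, 18] [0, 0, 0] [] [(2, 33)],
.lip 2 1 49 56,
.lipl 2 65 83 2 18,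
.part [34, 8, 85] [0, 0, 1] [] [],
.lip 2 1 25 56,
.hall [1] [3, 5, 6],
.part [18, 33, 12] [0, 0, 0] [64] [],
.part [10, 32, 85] [0, 0, 1] [] [],
.lipl 2 12 46 0 34,
.lipl 1 9 27 2 18,
.l2 2 10 12 3 1 2,
.part [2, 124, 1] [0, 1, 0] [] [],
.l2 0 10 24 3 1 1,
.l2 2 9 17 0 2 1,
.part [5, 64, 2] [0, 0, 0] [56] [],
.un 2 1,
.part [20, 64, 34] [0, 0, 0] [] [(2, 9)],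
.join 1 8 6 2 1 1 [(3, 0)],
.part [33, 66, 28] [0, 0, 1] [] [],
.part [20, 10, 97] [0, 0, 1] [] [],
.part [64, 55, 8] [0, 1, 0] [] [],
.join 2 2 4 3 2 2 [(1, 1)],
.join 0 16 5 2 1 2 [(4, 1)],
.l2 0 34 48 5 1 1,
.ab2 1 6,
.part [20, 64, 10] [0, 0, 0] [] [(2, 33)],
.ordE 2 16 2,
.part [2, 4, 65] [0, 0, 0] [56] [],
.join 1 8 4 2 1 1 [(3, 0)],
.lip 1 24 31 7,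
.ordE 2 32 2,
.part [33, 16, 78] [0, 0, 1] [] [],
.join 1 1 2 2 0 2 [(0, 0)],
.join 0 16 6 2 1 1 [(4, 0)],
.join 1 8 5 2 3 0 [(3, 1)],
.join 2 2 3 3 2 1 [(1, 0)],
.part [64, 8, 55] [0, 0, 1] [] [],
.part [16, 10, 68] [0, 0, 0] [] [(2, 33)],
.lipl 0 20 30 2 10,
.part [16, 36, 75] [0, 0, 1] [] [],
.le 0 36 32 5 2,
.ab2 1 66,
.join 1 8 6 2 2 0 [(3, 0)],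
.join 2 4 5 3 3 0 [(2, 0)],
.part [33, 10, 20] [0, 0, 0] [64] [],
.un 2 4,
.hall [0, 1, 2] [1],
.part [32, 8, 87] [0, 0, 1] [] [],
.un 0 3,
.l2 1 17 24 4 1 1,
.lip 1 5 61 56,
.lip 1 3 59 56,
.mono 1 16 17 1,
.lipl 2 12 46 2 34,
.join 2 1 3 3 3 2 [(0, 2)],
.join 1 1 5 2 0 3 [(0, 1)],
.ab2 1 10,
.part [34, 64, 20] [0, 0, 0] [] [(1, 9)],
.part [20, 8, 99] [0, 0, 1] [] [],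
.join 0 8 6 2 2 0 [(3, 0)],
.lip 2 64 120 56,
.hall [0, 1] [0, 1],
.part [17, 6, 64] [0, 0, 0] [40] [],
.lipl 2 20 53 2 33,
.join 2 8 5 3 2 1 [(3, 0)],
.ordE 2 64 1,
.part [16, 8, 103] [0, 0, 1] [] [],
.ab2 0 20,
.mono 0 1 17 1,
.join 2 1 2 3 2 1 [(0, 0)],
.hall [0] [4, 5, 6],
.part [40, 7, 80] [0, 1, 0] [] [],
.join 2 2 2 3 0 3 [(1, 0)],
.part [36, 64, 18] [0, 0, 0] [] [(1, 9)],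
.lipl 2 36 54 0 18,
.mono 1 2 18 1,
.lipl 0 10 30 2 20,
.join 0 2 4 2 1 2 [(1, 1)],
.l2 0 33 40 5 1 1,
.l2 1 18 20 4 1 1,
.part [16, 34, 68] [0, 0, 0] [] [(2, 9)],
.l2 1 18 24 4 1 1,
.le 1 10 8 3 2,
.part [64, 48, 15] [0, 0, 1] [] [],
.part [33, 18, 12] [0, 0, 0] [64] [],
.join 0 1 1 2 1 1 [(0, 0)],
.part [20, 64, 34] [0, 0, 0] [] [(1, 9)],
.join 0 8 6 2 2 1 [(3, 1)],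
.join 0 1 2 2 1 1 [(0, 0)],
.part [33, 64, 12] [0, 0, 0] [] [(2, 18)],
.l2 2 9 10 3 1 2,
.mono 0 64 96 1,
.mono 1 8 9 1,
.mono 1 1 17 1,
.hall [1, 2] [0, 6],
.join 0 4 3 3 2 1 [(2, 0)],
.part [36, 10, 17] [0, 0, 0] [64] [],
.mono 0 64 72 1,
.hall [1] [3, 4, 6],
.join 0 8 6 2 1 1 [(3, 0)],
.part [12, 66, 49] [0, 0, 1] [] [],
.join 2 1 5 4 1 3 [(0, 0)],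
.part [18, 64, 12] [0, 0, 0] [] [(1, 33)],
.part [57, 6, 64] [1, 0, 0] [] [],
.deg 4 [0, 3, 0],
.l2 2 17 33 0 2 1,
.join 1 4 5 2 2 1 [(2, 1)],
.le 1 72 64 6 1,
.deg 5 [1, 0, 2],
.l2 1 33 40 5 1 1,
.le 0 48 16 4 2,
.lipl 0 34 54 2 20,
.deg 5 [0, 0, 3],
.ordE 0 1 2,
.l2 1 33 36 5 1 1,
.part [36, 90, 1] [0, 1, 0] [] [],
.part [20, 43, 64] [0, 1, 0] [] [],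
.deg 3 [3, 0, 0],
.part [64, 31, 32] [0, 1, 0] [] [],
.ordE 0 4 2,
.part [64, 6, 1] [0, 0, 0] [56] [],
.mono 1 16 18 1,
.part [10, 16, 101] [0, 0, 1] [] [],
.le 1 9 1 0 2,
.lip 1 0 7 7,
.part [80, 32, 8] [0, 0, 0] [7] [],
.hall [0, 1, 2] [0],
.lip 2 6 30 56,
.join 2 8 5 3 1 2 [(3, 0)],
.ab2 2 6,
.join 1 4 3 3 2 1 [(2, 0)],
.join 0 2 6 2 1 1 [(1, 0)],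
.lipl 2 36 53 0 17,
.mono 0 2 18 1,
.ordE 0 16 1,
.join 0 4 4 2 1 1 [(2, 0)],
.un 1 3,
.lip 1 16 23 7,
.l2 0 12 24 3 1 1,
.part [12, 32, 83] [0, 0, 1] [] [],
.join 0 1 5 2 1 2 [(0, 1)],
.deg 3 [1, 1, 1],
.hall [0, 1, 2] [2],
.l2 1 48 80 4 1 1,
.part [64, 36, 9] [0, 0, 0] [] [(2, 18)],
.part [32, 20, 75] [0, 0, 1] [] [],
.part [32, 9, 68] [0, 0, 0] [] [(2, 18)],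
.part [10, 64, 33] [0, 0, 0] [] [(1, 20)],
.join 0 16 5 2 0 2 [(4, 0)],
.part [1, 66, 60] [0, 0, 1] [] [],
.ab2 2 17,
.lip 2 8 15 7,
.join 1 1 5 2 1 2 [(0, 1)],
.lipl 2 20 54 2 34,
.part [10, 64, 20] [0, 0, 0] [] [(1, 33)],
.un 0 6,
.part [17, 10, 36] [0, 0, 0] [64] [],
.un 1 4,
.le 0 34 2 1 1,
.part [9, 64, 54] [0, 0, 1] [] [],
.join 2 1 5 3 2 1 [(0, 0)],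
.part [36, 64, 10] [0, 0, 0] [] [(2, 17)],
.l2 0 20 36 2 1 1,
.part [34, 65, 28] [0, 0, 1] [] [],
.part [20, 34, 9] [0, 0, 0] [64] [],
.lipl 2 68 78 2 10,
.join 2 2 5 3 1 2 [(1, 0)],
.part [64, 33, 30] [0, 0, 1] [] [],
.ab2 0 18,
.ab2 1 65,
.hall [0, 1] [0, 2],
.l2 0 36 48 5 1 1,
.join 0 1 3 2 0 2 [(0, 0)],
.part [18, 8, 101] [0, 0, 1] [] [],
.hall [0] [0, 2, 6],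
.un 0 4,
.part [64, 10, 53] [0, 0, 1] [] [],
.ab2 0 24,
.l2 2 34 36 5 2 1,
.part [18, 64, 33] [0, 0, 0] [] [(1, 12)],
.join 0 8 5 2 1 1 [(3, 0)],
.mono 1 32 33 1,
.deg 5 [1, 1, 1],
.part [34, 68, 1] [0, 0, 0] [24] [],
.l2 2 9 33 0 1 1,
.part [34, 64, 17] [0, 0, 0] [] [(1, 12)],
.l2 2 33 34 5 2 1,
.lip 2 4 28 56,
.le 1 80 64 6 2,
.part [42, 80, 5] [1, 0, 0] [] [],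
.join 2 4 4 3 4 1 [(2, 2)],
.le 1 18 2 1 2,
.lip 2 2 58 56,
.ab2 2 40,
.part [20, 32, 75] [0, 0, 1] [] [],
.part [64, 2, 61] [0, 0, 1] [] [],
.part [64, 12, 33] [0, 0, 0] [] [(2, 18)],
.part [1, 68, 58] [0, 0, 1] [] [],
.le 1 72 64 6 2,
.l2 2 10 34 1 2 1,
.part [33, 8, 86] [0, 0, 1] [] [],
.lip 2 32 39 7,
.part [65, 20, 2] [0, 0, 0] [40] [],
.part [72, 16, 32] [0, 0, 0] [7] [],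
.join 1 4 5 3 2 1 [(2, 0)],
.part [12, 65, 50] [0, 0, 1] [] [],
.mono 1 32 34 1,
.l2 1 36 48 5 1 1,
.part [8, 80, 32] [0, 0, 0] [7] [],
.lip 2 12 60 56,
.mono 0 1 5 1,
.join 1 2 3 2 0 2 [(1, 0)],
.le 1 36 32 5 2,
.l2 1 18 48 4 1 1,
.part [64, 24, 39] [0, 0, 1] [] [],
.join 1 2 4 2 1 2 [(1, 1)],
.hall [0] [1, 2, 6],
.l2 2 17 20 4 2 1,
.part [16, 33, 68] [0, 0, 0] [] [(2, 10)],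
.mono 0 32 34 1,
.le 0 18 2 1 1,
.l2 0 18 48 4 1 1,
.part [64, 12, 17] [0, 0, 0] [] [(2, 34)],
.l2 2 10 18 1 1 1,
.lip 0 66 122 56,
.join 2 16 5 3 2 1 [(4, 0)],
.part [64, 17, 34] [0, 0, 0] [] [(0, 12)],
.lipl 2 66 83 2 17,
.ordE 1 1 1,
.join 2 4 4 3 2 2 [(2, 1)],
.ab2 1 17,
.part [18, 36, 1] [0, 0, 0] [] [(0, 72)],
.mono 0 32 33 1,
.part [20, 64, 9] [0, 0, 0] [] [(1, 34)],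
.ordL 1 96 1,
.part [9, 68, 2] [0, 0, 0] [48] [],
.part [72, 32, 16] [0, 0, 0] [7] [],
.lipl 2 68 102 2 34,
.part [48, 15, 64] [0, 1, 0] [] [],
.part [20, 106, 1] [0, 1, 0] [] [],
.part [124, 2, 1] [1, 0, 0] [] [],
.un 0 5,
.part [4, 59, 64] [0, 1, 0] [] [],
.ab2 2 9,
.lipl 2 68 85 2 17,
.part [29, 32, 66] [1, 0, 0] [] [],
.join 1 2 6 2 1 1 [(1, 0)],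
.l2 0 17 20 4 1 1,
.l2 0 24 72 3 1 1,
.l2 0 10 12 3 1 1,
.ab2 2 10,
.part [16, 32, 79] [0, 0, 1] [] [],
.hall [0] [3, 4, 6],
.le 1 33 32 5 2,
.l2 0 17 48 4 1 1,
.part [33, 20, 10] [0, 0, 0] [64] [],
.le 2 36 32 5 1,
.part [47, 16, 64] [1, 0, 0] [] [],
.mono 1 2 6 1,
.join 1 2 4 2 1 1 [(1, 0)],
.deg 0 [0, 1, 1],
.deg 2 [2, 0, 1],
.l2 1 24 40 3 1 1,
.join 2 16 5 4 2 2 [(4, 0)],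
.part [64, 36, 10] [0, 0, 0] [] [(2, 17)],
.join 0 4 5 2 2 1 [(2, 1)],
.join 0 2 4 2 1 1 [(1, 0)],
.lip 2 40 47 7,
.join 0 32 6 2 1 1 [(5, 0)],
.le 1 10 2 1 1,
.part [18, 64, 36] [0, 0, 0] [] [(1, 9)],
.part [2, 68, 57] [0, 0, 1] [] [],
.join 2 1 4 3 2 1 [(0, 0)],
.lip 2 1 57 56,
.ab 0 2,
.mono 0 4 68 1,
.l2 2 9 17 0 1 2,
.join 0 8 5 4 0 4 [(3, 0)],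
.join 0 1 5 2 0 2 [(0, 0)],
.deg 3 [1, 2, 0],
.join 1 1 3 2 2 1 [(0, 1)],
.ordE 0 64 1,
.join 1 32 6 2 2 0 [(5, 0)],
.part [5, 2, 64] [0, 0, 0] [56] [],
.join 1 2 2 2 1 1 [(1, 0)],
.deg 4 [1, 1, 1],
.le 0 33 1 0 1,
.part [12, 64, 34] [0, 0, 0] [] [(2, 17)],
.join 2 1 5 3 1 2 [(0, 0)],
.ab2 0 96,
.deg 1 [2, 0, 0],
.l2 0 9 24 3 1 1,
.ordE 2 1 2,
.mono 1 1 33 1,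
.l2 0 40 72 3 1 1,
.l2 1 33 48 5 1 1,
.join 1 1 6 2 2 0 [(0, 0)],
.deg 0 [1, 1, 0],
.join 2 4 3 3 3 2 [(2, 2)],
.part [17, 64, 46] [0, 0, 1] [] [],
.un 1 1,
.ordE 0 8 1,
.l2 2 9 12 3 1 2,
.l2 2 9 10 3 2 1,
.lip 1 68 124 56,
.lip 0 40 45 7,
.part [18, 64, 36] [0, 0, 0] [] [(2, 9)],
.part [2, 5, 120] [0, 0, 1] [] [],
.part [65, 12, 2] [0, 0, 0] [48] [],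
.deg 6 [2, 2, 0],
.join 1 32 6 2 3 0 [(5, 1)],
.part [12, 17, 34] [0, 0, 0] [64] [],
.lipl 1 9 45 2 36,
.le 1 34 2 1 1,
.ordE 0 16 3,
.part [9, 64, 34] [0, 0, 0] [] [(1, 20)],
.lipl 1 10 106 1 96,
.l2 0 18 24 4 1 1,
.join 1 16 6 2 2 1 [(4, 1)],
.ab2 1 9,
.l2 0 33 48 5 1 1,
.part [10, 64, 17] [0, 0, 0] [] [(1, 36)],
.ab2 2 33,
.join 2 4 5 3 2 1 [(2, 0)],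
.ab 0 0,
.ab2 1 5,
.deg 6 [0, 2, 2],
.l2 1 20 24 4 1 1,
.mono 0 1 33 1,
.hall [2] [0, 1, 2],
.lipl 0 18 30 2 12,
.part [34, 64, 29] [0, 0, 1] [] [],
.mono 1 16 80 1,
.le 0 10 2 1 1,
.lip 2 5 53 56,
.ordE 0 2 1,
.part [17, 8, 102] [0, 0, 1] [] [],
.lip 2 20 60 56,
.le 1 96 64 6 1,
.part [64, 9, 54] [0, 0, 1] [] [],
.lip 1 66 90 56,
.ab 1 0,
.mono 2 1 65 1,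
.hall [0] [0, 1, 6],
.join 1 16 5 2 2 0 [(4, 0)],
.l2 2 18 34 1 1 1,
.join 0 2 2 2 1 1 [(1, 0)],
.join 1 4 5 2 1 1 [(2, 0)],
.part [80, 8, 32] [0, 0, 0] [7] [],
.join 2 1 3 3 1 2 [(0, 0)],
.part [32, 18, 77] [0, 0, 1] [] [],
.ab2 0 65,
.lipl 2 17 51 0 34,
.l2 1 12 40 3 1 1,
.part [3, 64, 4] [0, 0, 0] [56] [],
.mono 1 2 10 1,
.mono 2 8 12 1,
.join 1 1 1 2 1 1 [(0, 0)],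
.part [33, 64, 12] [0, 0, 0] [] [(1, 18)],
.le 0 10 2 1 2,
.join 2 2 2 3 2 1 [(1, 0)],
.part [64, 20, 43] [0, 0, 1] [] [],
.part [3, 4, 64] [0, 0, 0] [56] [],
.l2 2 18 34 1 2 1,
.le 1 40 8 3 2,
.lipl 2 36 54 2 18,
.ordE 2 16 3,
.join 2 4 5 3 3 2 [(2, 2)],
.mono 2 16 80 1,
.ab2 0 10,
.mono 1 64 66 1,
.part [64, 20, 33] [0, 0, 0] [] [(2, 10)],
.part [17, 36, 64] [0, 0, 0] [] [(2, 10)],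
.part [16, 64, 40] [0, 0, 0] [7] [],
.part [36, 65, 26] [0, 0, 1] [] [],
.join 2 4 3 3 1 2 [(2, 0)],
.mono 1 32 40 1,
.ab 2 1,
.ordL 0 72 1,
.lipl 2 20 30 2 10,
.lipl 1 9 29 2 20,
.join 0 2 3 2 1 2 [(1, 1)],
.part [64, 12, 18] [0, 0, 0] [] [(0, 33)],
.join 2 4 3 3 2 1 [(2, 0)],
.join 0 1 6 2 1 1 [(0, 0)],
.l2 2 17 18 4 2 1,
.part [12, 33, 18] [0, 0, 0] [64] [],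
.part [33, 20, 2] [0, 0, 0] [] [(0, 72)],
.le 1 34 2 1 2,
.l2 1 9 24 3 1 1,
.lip 1 32 39 7,
.part [64, 20, 34] [0, 0, 0] [] [(2, 9)],
.part [96, 16, 8] [0, 0, 0] [7] [],
.ab 0 3,
.join 2 4 5 3 4 0 [(2, 1)],
.ab 2 3,
.part [64, 5, 2] [0, 0, 0] [56] [],
.join 0 1 3 2 1 1 [(0, 0)],
.part [47, 64, 16] [1, 0, 0] [] [],
.lipl 0 9 29 2 20,
.part [40, 23, 64] [0, 1, 0] [] [],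
.part [9, 16, 102] [0, 0, 1] [] [],
.join 2 1 4 3 1 2 [(0, 0)],
.part [53, 8, 66] [1, 0, 0] [] [],
.part [36, 18, 9] [0, 0, 0] [64] [],
.deg 5 [1, 2, 0],
.le 0 18 2 1 2,
.l2 2 33 36 5 1 2,
.join 2 2 3 4 1 3 [(1, 0)],
.un 1 5,
.join 0 8 5 2 1 2 [(3, 1)],
.hall [2] [3, 5, 6],
.deg 0 [2, 0, 0],
.part [33, 64, 18] [0, 0, 0] [] [(1, 12)],
.part [31, 64, 32] [1, 0, 0] [] [],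
.join 1 1 6 2 1 1 [(0, 0)],
.ordE 1 16 1,
.l2 1 34 40 5 1 1,
.join 1 1 5 2 2 1 [(0, 1)],
.l2 1 9 12 3 1 1,
.join 2 1 2 3 1 2 [(0, 0)],
.deg 4 [0, 2, 1],
.lipl 1 33 43 2 10,
.hall [0] [0, 1, 2],
.join 1 32 6 2 0 2 [(5, 0)],
.l2 0 48 96 5 1 1,
.part [64, 47, 16] [0, 1, 0] [] [],
.deg 3 [0, 0, 3],
.ab2 0 6,
.lip 2 5 61 56,
.ordE 1 32 1,
.part [64, 20, 33] [0, 0, 0] [] [(0, 10)],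
.ordE 2 8 2,
.part [32, 64, 24] [0, 0, 0] [7] [],
.lip 2 16 23 7,
.part [64, 12, 33] [0, 0, 0] [] [(0, 18)],
.part [34, 20, 64] [0, 0, 0] [] [(2, 9)],
.ab2 2 5,
.part [64, 36, 9] [0, 0, 0] [] [(0, 18)],
.deg 5 [0, 2, 1],
.part [18, 68, 1] [0, 0, 0] [40] [],
.lip 0 40 47 7,
.lipl 2 65 101 2 36,
.join 2 2 5 3 2 1 [(1, 0)],
.join 2 2 4 3 2 1 [(1, 0)],
.part [33, 64, 30] [0, 0, 1] [] [],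
.le 1 40 8 3 1,
.l2 2 10 18 1 1 2,
.part [17, 64, 12] [0, 0, 0] [] [(1, 34)],
.deg 2 [0, 2, 1],
.ab2 1 18,
.part [36, 9, 18] [0, 0, 0] [64] [],
.lip 2 24 31 7,
.join 1 1 5 2 0 2 [(0, 0)],
.le 2 20 16 4 1,
.lipl 1 17 27 2 10,
.join 0 16 5 2 2 0 [(4, 0)],
.ordE 1 1 2,
.join 2 2 2 3 1 2 [(1, 0)],
.le 1 12 4 2 2,
.part [9, 64, 18] [0, 0, 0] [] [(1, 36)],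
.join 2 1 3 3 2 2 [(0, 1)],
.ab 1 4,
.l2 0 9 40 3 1 1,
.join 1 1 5 2 1 1 [(0, 0)],
.ab2 1 24,
.part [10, 33, 20] [0, 0, 0] [64] [],
.ab2 0 9,
.join 1 4 3 2 1 2 [(2, 1)],
.lipl 2 12 30 2 18,
.ab2 2 48,
.part [17, 36, 2] [0, 0, 0] [] [(0, 72)],
.le 0 24 8 3 1,
.ab 2 6,
.join 1 4 3 2 1 1 [(2, 0)],
.join 2 4 4 3 3 2 [(2, 2)],
.part [124, 1, 2] [1, 0, 0] [] [],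
.join 1 1 4 2 0 3 [(0, 1)],
.join 0 2 4 2 0 2 [(1, 0)],
.part [9, 64, 20] [0, 0, 0] [] [(1, 34)],
.part [64, 9, 18] [0, 0, 0] [] [(0, 36)],
.join 2 2 4 3 1 2 [(1, 0)],
.join 1 1 4 2 1 1 [(0, 0)],
.join 0 16 5 2 1 1 [(4, 0)],
.part [33, 64, 20] [0, 0, 0] [] [(1, 10)],
.deg 0 [1, 0, 1],
.ab 2 4,
.join 1 8 5 2 0 2 [(3, 0)],
.join 0 1 5 2 1 1 [(0, 0)],
.join 1 8 4 2 2 0 [(3, 0)],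
.part [16, 96, 8] [0, 0, 0] [7] [],
.deg 1 [0, 2, 0],
.ab2 1 33,
.mono 0 8 40 1,
.part [36, 64, 9] [0, 0, 0] [] [(2, 18)],
.lip 0 1 41 56,
.part [34, 29, 64] [0, 1, 0] [] [],
.part [64, 16, 47] [0, 0, 1] [] [],
.part [64, 18, 33] [0, 0, 0] [] [(0, 12)],
.join 0 4 5 2 1 1 [(2, 0)],
.l2 1 24 72 3 1 1,
.join 1 1 4 2 0 2 [(0, 0)],
.part [36, 64, 17] [0, 0, 0] [] [(1, 10)],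
.join 2 16 5 3 1 2 [(4, 0)],
.ab 1 3,
.mono 1 64 80 1,
.join 1 32 6 2 2 1 [(5, 1)],
.part [8, 96, 16] [0, 0, 0] [7] [],
.join 0 16 6 2 2 0 [(4, 0)],
.le 1 96 64 6 2,
.lipl 2 12 29 2 17,
.l2 0 9 10 3 1 1,
.join 0 2 3 2 1 1 [(1, 0)],
.mono 0 32 48 1,
.l2 1 20 48 4 1 1,
.l2 1 48 96 5 1 1,
.part [34, 64, 9] [0, 0, 0] [] [(1, 20)],
.part [20, 33, 10] [0, 0, 0] [64] [],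
.join 2 1 5 3 2 2 [(0, 1)],
.l2 0 10 72 3 1 1,
.ordE 2 32 1,
.deg 4 [3, 0, 0],
.lipl 2 68 77 2 9,
.mono 0 16 17 1,
.lipl 0 36 54 2 18,
.l2 1 34 48 5 1 1,
.part [65, 2, 4] [0, 0, 0] [56] [],
.join 0 2 5 2 0 2 [(1, 0)],
.hall [1, 2] [1, 2],
.lipl 0 12 30 2 18,
.join 0 16 6 2 2 1 [(4, 1)],
.join 0 2 5 2 1 1 [(1, 0)],
.part [64, 18, 9] [0, 0, 0] [] [(0, 36)],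
.ab 1 1,
.part [34, 12, 64] [0, 0, 0] [] [(2, 17)],
.le 2 20 16 4 3,
.join 1 16 6 2 1 1 [(4, 0)],
.ordE 1 32 3,
.ordE 2 4 1,
.join 0 4 3 2 2 0 [(2, 0)],
.join 1 8 5 2 1 1 [(3, 0)],
.part [20, 9, 34] [0, 0, 0] [64] [],
.ordE 1 16 2,
.join 0 2 3 2 0 2 [(1, 0)],
.lip 0 68 124 56,
.part [17, 68, 2] [0, 0, 0] [40] [],
.mono 0 16 18 1,
.un 1 0,
.mono 0 16 24 1,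
.hall [0, 2] [4, 5],
.mono 0 8 10 1,
.l2 2 10 34 1 1 2,
.part [122, 4, 1] [1, 0, 0] [] [],
.hall [0] [3, 5, 6],
.join 1 4 5 2 2 0 [(2, 0)],
.part [68, 2, 57] [0, 0, 1] [] [],
.ordE 0 32 3,
.join 1 2 5 2 0 3 [(1, 1)],
.l2 1 17 18 4 1 1,
.join 1 2 4 2 0 2 [(1, 0)],
.join 2 2 5 3 2 2 [(1, 1)],
.ab2 1 3,
.deg 4 [0, 1, 2],
.join 0 32 6 2 2 1 [(5, 1)],
.hall [0, 2] [2, 6],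
.mono 0 64 66 1,
.le 0 80 16 4 2,
.deg 1 [1, 1, 0],
.ordE 1 64 1,
.hall [2] [1, 2, 6],
.lip 0 48 55 7,
.part [16, 9, 68] [0, 0, 0] [] [(2, 34)],
.lipl 2 36 45 0 9,
.l2 2 18 20 4 1 2,
.ab2 0 40,
.join 2 2 3 3 2 2 [(1, 1)],
.ab2 2 18,
.ab2 1 40,
.join 1 1 4 2 1 2 [(0, 1)],
.lipl 2 20 53 0 33,
.deg 1 [1, 0, 1],
.deg 2 [2, 1, 0],
.part [9, 32, 86] [0, 0, 1] [] [],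
.join 0 8 6 2 0 2 [(3, 0)],
.join 0 8 4 2 2 1 [(3, 1)],
.lipl 2 64 97 2 33,
.ordE 0 64 2,
.ordE 2 1 1,
.join 2 4 3 3 3 0 [(2, 0)],
.l2 2 12 36 2 1 1,
.l2 0 24 80 4 1 1,
.hall [1, 2] [1, 6],
.deg 5 [0, 3, 0],
.ab2 0 3,
.l2 2 12 20 2 1 2,
.part [17, 46, 64] [0, 1, 0] [] [],
.part [64, 20, 9] [0, 0, 0] [] [(0, 34)],
.l2 2 9 17 0 1 1,
.deg 4 [2, 0, 1],
.l2 1 33 34 5 1 1,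
.join 0 4 3 2 1 1 [(2, 0)],
.l2 1 17 20 4 1 1,
.lip 2 4 60 56,
.part [34, 64, 12] [0, 0, 0] [] [(1, 17)],
.lipl 2 20 29 2 9,
.l2 0 40 48 5 1 1,
.l2 1 9 72 3 1 1,
.hall [0, 1] [0, 6],
.part [36, 27, 64] [0, 1, 0] [] [],
.l2 0 17 24 4 1 1,
.ab2 0 48,
.deg 6 [2, 0, 2],
.part [34, 16, 77] [0, 0, 1] [] [],
.part [18, 64, 45] [0, 0, 1] [] [],
.le 0 17 1 0 2,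
.ab 2 2,
.deg 3 [2, 1, 0],
.hall [1] [0, 2, 6],
.part [8, 18, 101] [0, 0, 1] [] [],
.lipl 2 36 46 0 10,
.part [33, 12, 64] [0, 0, 0] [] [(2, 18)],
.part [66, 44, 17] [0, 1, 0] [] [],
.join 0 8 5 2 0 2 [(3, 0)],
.part [64, 40, 23] [0, 0, 1] [] [],
.l2 0 36 40 5 1 1,
.part [18, 36, 64] [0, 0, 0] [] [(2, 9)],
.part [36, 64, 10] [0, 0, 0] [] [(1, 17)],
.part [1, 124, 2] [0, 1, 0] [] [],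
.ordE 1 64 2,
.join 1 2 2 2 0 2 [(1, 0)],
.hall [0, 2] [0, 6],
.l2 2 34 36 5 1 2,
.lipl 2 36 53 2 17,
.part [6, 1, 64] [0, 0, 0] [56] [],
.part [20, 64, 33] [0, 0, 0] [] [(1, 10)],
.part [36, 64, 18] [0, 0, 0] [] [(2, 9)],
.l2 0 33 34 5 1 1,
.mono 0 8 9 1,
.ordE 0 32 2,
.le 1 40 32 5 2,
.part [64, 20, 34] [0, 0, 0] [] [(0, 9)],
.hall [0] [3, 4, 5],
.un 0 1,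
.part [1, 6, 120] [0, 0, 1] [] [],
.le 1 17 1 0 2,
.join 0 8 4 2 1 2 [(3, 1)],
.part [4, 2, 65] [0, 0, 0] [56] [],
.lipl 1 34 46 2 12,
.l2 0 18 80 4 1 1,
.hall [2] [3, 4, 5],
.part [9, 18, 36] [0, 0, 0] [64] [],
.lipl 2 66 75 2 9,
.part [24, 39, 64] [0, 1, 0] [] [],
.ordE 2 64 3,
.mono 0 2 34 1,
.ab2 2 36,
.le 2 9 8 3 3,
.lipl 0 12 29 2 17,
.lipl 2 66 99 2 33,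
.l2 0 18 20 4 1 1,
.l2 0 9 72 3 1 1,
.mono 1 2 34 1,
.join 1 2 3 2 0 3 [(1, 1)],
.part [12, 34, 17] [0, 0, 0] [64] [],
.lip 1 40 47 7,
.join 2 2 5 4 1 3 [(1, 0)],
.ab2 1 80,
.mono 1 64 72 1,
.lip 0 40 46 7,
.join 0 1 4 2 1 1 [(0, 0)],
.part [4, 1, 66] [0, 0, 0] [56] [],
.mono 0 2 10 1,
.part [64, 10, 17] [0, 0, 0] [] [(0, 36)],
.hall [1] [0, 1, 6],
.l2 2 12 36 2 2 1,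
.ab 1 2,
.ab2 2 12,
.l2 2 9 33 0 2 1,
.lip 0 1 57 56,
.l2 2 20 36 2 2 1,
.un 0 0,
.lip 2 96 103 7,
.part [12, 18, 33] [0, 0, 0] [64] [],
.mono 1 8 10 1,
.ab2 1 20,
.deg 2 [0, 0, 3],
.join 2 4 5 3 2 2 [(2, 1)],
.part [32, 80, 8] [0, 0, 0] [7] [],
.l2 0 17 18 4 1 1,
.lip 2 2 26 56,
.join 1 8 4 2 0 2 [(3, 0)],
.hall [1, 2] [0, 1],
.part [9, 64, 36] [0, 0, 0] [] [(1, 18)],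
.ordE 1 4 1,
.join 0 16 6 2 0 3 [(4, 1)],
.hall [0, 2] [1, 2],
.un 2 5,
.part [64, 34, 9] [0, 0, 0] [] [(0, 20)],
.join 1 16 6 2 2 0 [(4, 0)],
.deg 2 [1, 2, 0],
.part [12, 64, 17] [0, 0, 0] [] [(2, 34)],
.part [66, 12, 1] [0, 0, 0] [48] [],
.part [64, 17, 46] [0, 0, 1] [] [],
.hall [0, 2] [0, 1],
.part [8, 55, 64] [0, 1, 0] [] [],
.le 0 18 16 4 2,
.join 1 16 5 2 1 1 [(4, 0)],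
.lipl 2 36 46 2 10,
.l2 1 66 80 6 1 1,
.join 0 2 4 2 2 1 [(1, 1)],
.join 2 2 3 3 1 2 [(1, 0)],
.part [64, 34, 29] [0, 0, 1] [] [],
.part [10, 36, 64] [0, 0, 0] [] [(2, 17)],
.mono 1 64 65 1,
.ab2 1 96,
.ordE 2 16 1,
.join 1 2 4 2 2 1 [(1, 1)],
.lipl 1 34 106 1 72,
.le 0 9 1 0 2,
.part [17, 64, 34] [0, 0, 0] [] [(1, 12)],
.lip 2 72 79 7,
.lipl 2 36 45 2 9,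
.part [66, 20, 1] [0, 0, 0] [40] [],
.part [54, 9, 64] [1, 0, 0] [] [],
.join 0 1 3 2 1 2 [(0, 1)],
.part [36, 89, 2] [0, 1, 0] [] [],
.join 0 2 5 2 1 2 [(1, 1)],
.l2 0 20 24 4 1 1,
.ordE 1 32 2,
.join 1 2 3 2 2 1 [(1, 1)],
.l2 0 48 80 4 1 1,
.part [33, 68, 2] [0, 0, 0] [24] [],
.join 1 16 5 2 0 2 [(4, 0)],
.part [55, 8, 64] [1, 0, 0] [] [],
.part [2, 1, 68] [0, 0, 0] [56] [],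
.part [17, 32, 78] [0, 0, 1] [] [],
.lip 2 48 55 7,
.mono 1 32 96 1,
.l2 1 40 72 3 1 1,
.lipl 2 12 45 2 33,
.ab2 0 72,
.deg 3 [1, 0, 2],
.part [20, 66, 41] [0, 0, 1] [] [],
.join 0 1 4 2 1 2 [(0, 1)],
.join 2 2 4 4 1 3 [(1, 0)],
.lipl 1 9 89 1 80,
.deg 4 [0, 0, 3],
.deg 6 [0, 1, 3],
.part [18, 45, 64] [0, 1, 0] [] [],
.l2 1 10 72 3 1 1,
.l2 1 9 40 3 1 1,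
.ab2 0 80,
.l2 0 33 96 5 1 1,
.le 0 72 64 6 1,
.join 1 2 5 2 0 2 [(1, 0)],
.join 1 1 3 2 3 0 [(0, 1)],
.l2 1 36 40 5 1 1,
.ordE 2 2 1,
.lip 2 17 57 56,
.part [41, 80, 6] [1, 0, 0] [] [],
.deg 4 [1, 0, 2],
.hall [1] [3, 4, 5],
.join 1 8 6 2 2 1 [(3, 1)],
.join 1 1 3 2 1 2 [(0, 1)],
.le 0 24 16 4 2,
.le 1 12 8 3 1,
.ab2 0 17,
.part [9, 20, 64] [0, 0, 0] [] [(2, 34)],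
.le 1 80 64 6 1,
.part [45, 18, 64] [1, 0, 0] [] [],
.lip 0 24 31 7,
.join 0 8 4 2 1 1 [(3, 0)],
.part [12, 64, 33] [0, 0, 0] [] [(1, 18)],
.le 2 12 8 3 3,
.join 1 4 3 2 2 0 [(2, 0)],
.join 2 1 3 4 1 3 [(0, 0)],
.deg 0 [0, 2, 0],
.join 1 8 6 2 0 2 [(3, 0)],
.part [4, 66, 17] [0, 0, 0] [40] [],
.ab 0 6,
.part [64, 36, 17] [0, 0, 0] [] [(0, 10)],
.join 0 16 6 2 3 0 [(4, 1)],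
.l2 0 10 40 3 1 1,
.l2 1 10 12 3 1 1,
.le 0 80 64 6 1,
.part [18, 64, 9] [0, 0, 0] [] [(1, 36)],
.lip 0 2 42 56,
.lip 1 8 15 7,
.deg 3 [0, 2, 1],
.part [64, 36, 17] [0, 0, 0] [] [(2, 10)],
.join 2 1 4 4 1 3 [(0, 0)],
.join 0 8 4 2 0 2 [(3, 0)],
.part [20, 64, 33] [0, 0, 0] [] [(2, 10)],
.part [32, 72, 16] [0, 0, 0] [7] [],
.ordE 0 4 1,
.part [8, 17, 68] [0, 0, 0] [] [(2, 34)],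
.lip 0 64 120 56,
.un 1 6,
.join 2 4 4 3 3 0 [(2, 0)],
.hall [2] [4, 5, 6],
.join 0 32 6 2 2 0 [(5, 0)],
.hall [1] [1, 2, 6],
.l2 0 34 36 5 1 1,
.part [2, 4, 121] [0, 0, 1] [] [],
.le 0 33 1 0 2,
.part [2, 65, 60] [0, 0, 1] [] [],
.part [55, 64, 8] [1, 0, 0] [] [],
.le 0 40 32 5 1,
.part [12, 64, 33] [0, 0, 0] [] [(2, 18)],
.part [12, 64, 18] [0, 0, 0] [] [(1, 33)],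
.l2 2 17 33 0 1 1,
.join 2 4 4 3 1 2 [(2, 0)],
.deg 5 [3, 0, 0],
.lipl 2 65 75 2 10,
.part [10, 20, 64] [0, 0, 0] [] [(2, 33)],
.join 1 2 3 2 1 1 [(1, 0)],
.mono 2 2 66 1,
.le 1 36 32 5 1,
.part [12, 64, 17] [0, 0, 0] [] [(1, 34)],
.part [16, 47, 64] [0, 1, 0] [] [],
.hall [0, 1] [1, 2],
.deg 5 [2, 1, 0],
.ordE 0 32 1,
.part [32, 16, 79] [0, 0, 1] [] [],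
.ordL 0 80 1,
.part [64, 36, 10] [0, 0, 0] [] [(0, 17)],
.ab2 2 20,
.le 0 9 1 0 1,
.join 2 4 3 3 2 2 [(2, 1)],
.join 1 1 3 2 0 2 [(0, 0)],
.lip 1 4 44 56,
.join 0 4 3 2 2 1 [(2, 1)],
.part [0, 61, 66] [0, 1, 0] [] [],
.lip 2 6 62 56,
.le 0 96 64 6 2,
.ordE 2 8 1,
.l2 2 10 12 3 2 1,
.part [64, 12, 51] [0, 0, 1] [] [],
.part [31, 32, 64] [1, 0, 0] [] [],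
.part [121, 4, 2] [1, 0, 0] [] [],
.mono 1 1 65 1,
.ab 2 5,
.l2 1 34 96 5 1 1,
.join 2 4 4 3 2 1 [(2, 0)],
.join 1 1 2 2 1 1 [(0, 0)],
.part [29, 34, 64] [1, 0, 0] [] [],
.part [8, 34, 68] [0, 0, 0] [] [(2, 17)],
.deg 2 [1, 0, 2],
.l2 2 33 34 5 1 2,
.ab2 1 72,
.mono 1 64 96 1,
.l2 1 10 24 3 1 1,
.deg 3 [0, 3, 0],
.mono 2 2 6 1]

noncomputable def gads : List Gt := [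
⟨1, [⟨1, 3, []⟩, ⟨8, 3, []⟩], [3, 3], 1, [(9, 1)]⟩,
⟨1, [⟨33, 2, []⟩, ⟨16, 2, []⟩], [3, 3, 3], 1, [(17, 1), (48, 1)]⟩,
⟨2, [⟨32, 3, []⟩, ⟨64, 3, []⟩], [3, 3], 1, [(96, 1)]⟩,
⟨1, [⟨18, 2, []⟩, ⟨4, 2, []⟩], [3, 3, 3], 1, [(6, 1), (20, 1)]⟩,
⟨1, [⟨36, 3, []⟩, ⟨8, 3, []⟩], [3, 3], 1, [(12, 1), (40, 1)]⟩,
⟨2, [⟨36, 3, []⟩, ⟨64, 3, []⟩], [3, 3], 1, [(68, 1), (96, 1)]⟩,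
⟨2, [⟨40, 3, []⟩, ⟨16, 3, []⟩], [3, 3], 1, [(24, 1), (48, 1)]⟩,
⟨1, [⟨48, 2, []⟩, ⟨64, 2, []⟩], [3, 3, 3], 1, [(80, 1), (96, 1)]⟩,
⟨2, [⟨10, 3, []⟩, ⟨32, 3, []⟩], [3, 3], 1, [(34, 1), (40, 1)]⟩,
⟨2, [⟨34, 3, []⟩, ⟨16, 3, []⟩], [3, 3], 1, [(18, 1), (48, 1)]⟩,
⟨2, [⟨6, 3, []⟩, ⟨64, 3, []⟩], [3, 3], 1, [(66, 1), (68, 1)]⟩,
⟨0, [⟨6, 2, []⟩, ⟨32, 2, []⟩], [3, 3, 3], 1, [(34, 1), (36, 1)]⟩,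
⟨0, [⟨2, 2, []⟩, ⟨96, 2, []⟩], [3, 3, 3], 1, [(34, 1), (66, 1)]⟩,
⟨1, [⟨32, 4, []⟩, ⟨64, 2, []⟩], [3, 2, 2], 1, [(96, 1)]⟩,
⟨1, [⟨32, 4, []⟩, ⟨8, 2, []⟩], [3, 2, 2], 1, [(40, 1)]⟩,
⟨2, [⟨18, 3, []⟩, ⟨64, 3, []⟩], [3, 3], 1, [(66, 1), (80, 1)]⟩,
⟨0, [⟨34, 2, []⟩, ⟨4, 2, []⟩], [3, 3, 3], 1, [(6, 1), (36, 1)]⟩,
⟨2, [⟨1, 3, []⟩, ⟨64, 3, []⟩], [3, 3], 1, [(65, 1)]⟩,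
⟨0, [⟨9, 2, []⟩, ⟨64, 2, []⟩], [3, 3, 3], 1, [(65, 1), (72, 1)]⟩,
⟨1, [⟨1, 2, []⟩, ⟨40, 2, []⟩], [3, 3, 3], 1, [(9, 1), (33, 1)]⟩,
⟨0, [⟨8, 2, []⟩, ⟨96, 2, []⟩], [3, 3, 3], 1, [(40, 1), (72, 1)]⟩,
⟨1, [⟨65, 2, []⟩, ⟨32, 2, []⟩], [3, 3, 3], 1, [(33, 1), (96, 1)]⟩,
⟨0, [⟨66, 2, []⟩, ⟨32, 2, []⟩], [3, 3, 3], 1, [(34, 1), (96, 1)]⟩,
⟨0, [⟨12, 3, []⟩, ⟨16, 3, []⟩], [3, 3], 1, [(20, 1), (24, 1)]⟩,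
⟨2, [⟨4, 3, []⟩, ⟨8, 3, []⟩], [3, 3], 1, [(12, 1)]⟩,
⟨0, [⟨10, 2, []⟩, ⟨64, 2, []⟩], [3, 3, 3], 1, [(66, 1), (72, 1)]⟩,
⟨1, [⟨12, 3, []⟩, ⟨32, 3, []⟩], [3, 3], 1, [(36, 1), (40, 1)]⟩,
⟨1, [⟨17, 2, []⟩, ⟨4, 2, []⟩], [3, 3, 3], 1, [(5, 1), (20, 1)]⟩,
⟨2, [⟨2, 3, []⟩, ⟨16, 3, []⟩], [3, 3], 1, [(18, 1)]⟩,
⟨1, [⟨12, 2, []⟩, ⟨64, 2, []⟩], [3, 3, 3], 1, [(68, 1), (72, 1)]⟩,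
⟨0, [⟨40, 2, []⟩, ⟨16, 2, []⟩], [3, 3, 3], 1, [(24, 1), (48, 1)]⟩,
⟨1, [⟨4, 3, []⟩, ⟨16, 3, []⟩], [3, 3], 1, [(20, 1)]⟩,
⟨2, [⟨4, 3, []⟩, ⟨32, 3, []⟩], [3, 3], 1, [(36, 1)]⟩,
⟨2, [⟨4, 2, []⟩, ⟨48, 4, []⟩], [3, 1, 1], 1, [(20, 1), (36, 1)]⟩,
⟨1, [⟨40, 2, []⟩, ⟨16, 2, []⟩], [3, 3, 3], 1, [(24, 1), (48, 1)]⟩,
⟨1, [⟨33, 2, []⟩, ⟨4, 2, []⟩], [3, 3, 3], 1, [(5, 1), (36, 1)]⟩,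
⟨1, [⟨1, 2, []⟩, ⟨32, 4, []⟩], [3, 1, 1], 1, [(33, 1)]⟩,
⟨1, [⟨33, 2, []⟩, ⟨8, 2, []⟩], [3, 3, 3], 1, [(9, 1), (40, 1)]⟩,
⟨0, [⟨65, 2, []⟩, ⟨8, 2, []⟩], [3, 3, 3], 1, [(9, 1), (72, 1)]⟩,
⟨2, [⟨17, 3, []⟩, ⟨8, 3, []⟩], [3, 3], 1, [(9, 1), (24, 1)]⟩,
⟨1, [⟨20, 2, []⟩, ⟨64, 2, []⟩], [3, 3, 3], 1, [(68, 1), (80, 1)]⟩,
⟨2, [⟨16, 4, []⟩, ⟨8, 2, []⟩], [3, 2, 2], 1, [(24, 1)]⟩,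
⟨0, [⟨36, 2, []⟩, ⟨64, 2, []⟩], [3, 3, 3], 1, [(68, 1), (96, 1)]⟩,
⟨1, [⟨18, 2, []⟩, ⟨64, 2, []⟩], [3, 3, 3], 1, [(66, 1), (80, 1)]⟩,
⟨0, [⟨6, 2, []⟩, ⟨16, 2, []⟩], [3, 3, 3], 1, [(18, 1), (20, 1)]⟩,
⟨2, [⟨5, 3, []⟩, ⟨32, 3, []⟩], [3, 3], 1, [(33, 1), (36, 1)]⟩,
⟨0, [⟨18, 2, []⟩, ⟨64, 2, []⟩], [3, 3, 3], 1, [(66, 1), (80, 1)]⟩,
⟨0, [⟨2, 2, []⟩, ⟨80, 2, []⟩], [3, 3, 3], 1, [(18, 1), (66, 1)]⟩,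
⟨0, [⟨16, 2, []⟩, ⟨64, 2, []⟩], [3, 3, 3], 1, [(80, 1)]⟩,
⟨0, [⟨16, 2, []⟩, ⟨72, 2, []⟩], [3, 3, 3], 1, [(24, 1), (80, 1)]⟩,
⟨2, [⟨9, 4, []⟩, ⟨4, 2, []⟩], [3, 2, 2], 1, [(5, 1), (12, 1)]⟩,
⟨0, [⟨17, 2, []⟩, ⟨64, 2, []⟩], [3, 3, 3], 1, [(65, 1), (80, 1)]⟩,
⟨1, [⟨24, 2, []⟩, ⟨64, 2, []⟩], [3, 3, 3], 1, [(72, 1), (80, 1)]⟩,
⟨2, [⟨1, 3, []⟩, ⟨32, 3, []⟩], [3, 3], 1, [(33, 1)]⟩,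
⟨0, [⟨6, 2, []⟩, ⟨8, 2, []⟩], [3, 3, 3], 1, [(10, 1), (12, 1)]⟩,
⟨0, [⟨5, 2, []⟩, ⟨16, 2, []⟩], [3, 3, 3], 1, [(17, 1), (20, 1)]⟩,
⟨1, [⟨12, 3, []⟩, ⟨16, 3, []⟩], [3, 3], 1, [(20, 1), (24, 1)]⟩,
⟨1, [⟨66, 2, []⟩, ⟨32, 2, []⟩], [3, 3, 3], 1, [(34, 1), (96, 1)]⟩,
⟨1, [⟨34, 2, []⟩, ⟨8, 2, []⟩], [3, 3, 3], 1, [(10, 1), (40, 1)]⟩,
⟨0, [⟨9, 2, []⟩, ⟨16, 2, []⟩], [3, 3, 3], 1, [(17, 1), (24, 1)]⟩,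
⟨1, [⟨8, 3, []⟩, ⟨64, 3, []⟩], [3, 3], 1, [(72, 1)]⟩,
⟨1, [⟨5, 2, []⟩, ⟨32, 2, []⟩], [3, 3, 3], 1, [(33, 1), (36, 1)]⟩,
⟨1, [⟨34, 2, []⟩, ⟨64, 2, []⟩], [3, 3, 3], 1, [(66, 1), (96, 1)]⟩,
⟨1, [⟨16, 3, []⟩, ⟨32, 3, []⟩], [3, 3], 1, [(48, 1)]⟩,
⟨0, [⟨1, 2, []⟩, ⟨72, 2, []⟩], [3, 3, 3], 1, [(9, 1), (65, 1)]⟩,
⟨0, [⟨8, 3, []⟩, ⟨16, 3, []⟩], [3, 3], 1, [(24, 1)]⟩,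
⟨1, [⟨5, 2, []⟩, ⟨8, 2, []⟩], [3, 3, 3], 1, [(9, 1), (12, 1)]⟩,
⟨1, [⟨6, 2, []⟩, ⟨16, 2, []⟩], [3, 3, 3], 1, [(18, 1), (20, 1)]⟩,
⟨0, [⟨5, 2, []⟩, ⟨8, 2, []⟩], [3, 3, 3], 1, [(9, 1), (12, 1)]⟩,
⟨0, [⟨34, 2, []⟩, ⟨8, 2, []⟩], [3, 3, 3], 1, [(10, 1), (40, 1)]⟩,
⟨0, [⟨18, 2, []⟩, ⟨4, 2, []⟩], [3, 3, 3], 1, [(6, 1), (20, 1)]⟩,
⟨2, [⟨17, 3, []⟩, ⟨64, 3, []⟩], [3, 3], 1, [(65, 1), (80, 1)]⟩,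
⟨0, [⟨8, 4, []⟩, ⟨32, 2, []⟩], [3, 2, 2], 1, [(40, 1)]⟩,
⟨1, [⟨2, 2, []⟩, ⟨96, 2, []⟩], [3, 3, 3], 1, [(34, 1), (66, 1)]⟩,
⟨2, [⟨4, 3, []⟩, ⟨16, 3, []⟩], [3, 3], 1, [(20, 1)]⟩,
⟨1, [⟨17, 2, []⟩, ⟨32, 2, []⟩], [3, 3, 3], 1, [(33, 1), (48, 1)]⟩,
⟨0, [⟨1, 2, []⟩, ⟨40, 2, []⟩], [3, 3, 3], 1, [(9, 1), (33, 1)]⟩,
⟨0, [⟨17, 2, []⟩, ⟨4, 2, []⟩], [3, 3, 3], 1, [(5, 1), (20, 1)]⟩,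
⟨1, [⟨17, 2, []⟩, ⟨64, 2, []⟩], [3, 3, 3], 1, [(65, 1), (80, 1)]⟩,
⟨0, [⟨32, 2, []⟩, ⟨64, 2, []⟩], [3, 3, 3], 1, [(96, 1)]⟩,
⟨0, [⟨2, 2, []⟩, ⟨4, 2, []⟩], [3, 3, 3], 1, [(6, 1)]⟩,
⟨0, [⟨1, 2, []⟩, ⟨24, 2, []⟩], [3, 3, 3], 1, [(9, 1), (17, 1)]⟩,
⟨1, [⟨1, 3, []⟩, ⟨64, 3, []⟩], [3, 3], 1, [(65, 1)]⟩,
⟨2, [⟨6, 3, []⟩, ⟨16, 3, []⟩], [3, 3], 1, [(18, 1), (20, 1)]⟩,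
⟨1, [⟨8, 4, []⟩, ⟨32, 2, []⟩], [3, 2, 2], 1, [(40, 1)]⟩,
⟨0, [⟨32, 2, []⟩, ⟨80, 2, []⟩], [3, 3, 3], 1, [(48, 1), (96, 1)]⟩,
⟨1, [⟨18, 2, []⟩, ⟨8, 2, []⟩], [3, 3, 3], 1, [(10, 1), (24, 1)]⟩,
⟨2, [⟨2, 3, []⟩, ⟨4, 3, []⟩], [3, 3], 1, [(6, 1)]⟩,
⟨1, [⟨1, 2, []⟩, ⟨4, 2, []⟩], [3, 3, 3], 1, [(5, 1)]⟩,
⟨1, [⟨2, 2, []⟩, ⟨24, 2, []⟩], [3, 3, 3], 1, [(10, 1), (18, 1)]⟩,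
⟨1, [⟨32, 2, []⟩, ⟨72, 2, []⟩], [3, 3, 3], 1, [(40, 1), (96, 1)]⟩,
⟨0, [⟨4, 3, []⟩, ⟨8, 3, []⟩], [3, 3], 1, [(12, 1)]⟩,
⟨2, [⟨9, 3, []⟩, ⟨16, 3, []⟩], [3, 3], 1, [(17, 1), (24, 1)]⟩,
⟨2, [⟨18, 3, []⟩, ⟨32, 3, []⟩], [3, 3], 1, [(34, 1), (48, 1)]⟩,
⟨0, [⟨1, 2, []⟩, ⟨4, 2, []⟩], [3, 3, 3], 1, [(5, 1)]⟩,
⟨0, [⟨1, 3, []⟩, ⟨64, 3, []⟩], [3, 3], 1, [(65, 1)]⟩,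
⟨2, [⟨9, 3, []⟩, ⟨64, 3, []⟩], [3, 3], 1, [(65, 1), (72, 1)]⟩,
⟨0, [⟨33, 2, []⟩, ⟨16, 2, []⟩], [3, 3, 3], 1, [(17, 1), (48, 1)]⟩,
⟨2, [⟨18, 4, []⟩, ⟨4, 2, []⟩], [3, 2, 2], 1, [(6, 1), (20, 1)]⟩,
⟨1, [⟨4, 3, []⟩, ⟨8, 3, []⟩], [3, 3], 1, [(12, 1)]⟩,
⟨1, [⟨2, 2, []⟩, ⟨40, 2, []⟩], [3, 3, 3], 1, [(10, 1), (34, 1)]⟩,
⟨0, [⟨1, 2, []⟩, ⟨96, 2, []⟩], [3, 3, 3], 1, [(33, 1), (65, 1)]⟩,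
⟨1, [⟨10, 2, []⟩, ⟨64, 2, []⟩], [3, 3, 3], 1, [(66, 1), (72, 1)]⟩,
⟨0, [⟨16, 4, []⟩, ⟨8, 2, []⟩], [3, 2, 2], 1, [(24, 1)]⟩,
⟨0, [⟨48, 2, []⟩, ⟨8, 2, []⟩], [3, 3, 3], 1, [(24, 1), (40, 1)]⟩,
⟨2, [⟨16, 3, []⟩, ⟨32, 3, []⟩], [3, 3], 1, [(48, 1)]⟩,
⟨2, [⟨10, 3, []⟩, ⟨16, 3, []⟩], [3, 3], 1, [(18, 1), (24, 1)]⟩,
⟨0, [⟨24, 2, []⟩, ⟨32, 2, []⟩], [3, 3, 3], 1, [(40, 1), (48, 1)]⟩,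
⟨1, [⟨18, 2, []⟩, ⟨32, 2, []⟩], [3, 3, 3], 1, [(34, 1), (48, 1)]⟩,
⟨2, [⟨4, 3, []⟩, ⟨40, 3, []⟩], [3, 3], 1, [(12, 1), (36, 1)]⟩,
⟨1, [⟨1, 2, []⟩, ⟨48, 2, []⟩], [3, 3, 3], 1, [(17, 1), (33, 1)]⟩,
⟨2, [⟨48, 3, []⟩, ⟨8, 3, []⟩], [3, 3], 1, [(24, 1), (40, 1)]⟩,
⟨2, [⟨8, 4, []⟩, ⟨32, 2, []⟩], [3, 2, 2], 1, [(40, 1)]⟩,
⟨1, [⟨9, 2, []⟩, ⟨4, 2, []⟩], [3, 3, 3], 1, [(5, 1), (12, 1)]⟩,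
⟨1, [⟨8, 3, []⟩, ⟨16, 3, []⟩], [3, 3], 1, [(24, 1)]⟩,
⟨2, [⟨6, 3, []⟩, ⟨32, 3, []⟩], [3, 3], 1, [(34, 1), (36, 1)]⟩,
⟨1, [⟨2, 3, []⟩, ⟨64, 3, []⟩], [3, 3], 1, [(66, 1)]⟩,
⟨1, [⟨16, 2, []⟩, ⟨64, 2, []⟩], [3, 3, 3], 1, [(80, 1)]⟩,
⟨1, [⟨17, 2, []⟩, ⟨8, 2, []⟩], [3, 3, 3], 1, [(9, 1), (24, 1)]⟩,
⟨0, [⟨32, 4, []⟩, ⟨8, 2, []⟩], [3, 2, 2], 1, [(40, 1)]⟩,
⟨2, [⟨33, 3, []⟩, ⟨8, 3, []⟩], [3, 3], 1, [(9, 1), (40, 1)]⟩,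
⟨2, [⟨8, 4, []⟩, ⟨16, 2, []⟩], [3, 2, 2], 1, [(24, 1)]⟩,
⟨2, [⟨18, 3, []⟩, ⟨8, 3, []⟩], [3, 3], 1, [(10, 1), (24, 1)]⟩,
⟨0, [⟨34, 2, []⟩, ⟨64, 2, []⟩], [3, 3, 3], 1, [(66, 1), (96, 1)]⟩,
⟨0, [⟨1, 2, []⟩, ⟨80, 2, []⟩], [3, 3, 3], 1, [(17, 1), (65, 1)]⟩,
⟨0, [⟨66, 2, []⟩, ⟨8, 2, []⟩], [3, 3, 3], 1, [(10, 1), (72, 1)]⟩,
⟨1, [⟨32, 4, []⟩, ⟨16, 2, []⟩], [3, 2, 2], 1, [(48, 1)]⟩,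
⟨0, [⟨33, 2, []⟩, ⟨4, 2, []⟩], [3, 3, 3], 1, [(5, 1), (36, 1)]⟩,
⟨0, [⟨9, 2, []⟩, ⟨32, 2, []⟩], [3, 3, 3], 1, [(33, 1), (40, 1)]⟩,
⟨1, [⟨1, 2, []⟩, ⟨72, 2, []⟩], [3, 3, 3], 1, [(9, 1), (65, 1)]⟩,
⟨2, [⟨5, 3, []⟩, ⟨64, 3, []⟩], [3, 3], 1, [(65, 1), (68, 1)]⟩,
⟨0, [⟨17, 2, []⟩, ⟨32, 2, []⟩], [3, 3, 3], 1, [(33, 1), (48, 1)]⟩,
⟨2, [⟨8, 3, []⟩, ⟨16, 3, []⟩], [3, 3], 1, [(24, 1)]⟩,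
⟨2, [⟨17, 4, []⟩, ⟨4, 2, []⟩], [3, 2, 2], 1, [(5, 1), (20, 1)]⟩,
⟨1, [⟨65, 2, []⟩, ⟨16, 2, []⟩], [3, 3, 3], 1, [(17, 1), (80, 1)]⟩,
⟨1, [⟨8, 4, []⟩, ⟨16, 2, []⟩], [3, 2, 2], 1, [(24, 1)]⟩,
⟨2, [⟨2, 3, []⟩, ⟨32, 3, []⟩], [3, 3], 1, [(34, 1)]⟩,
⟨1, [⟨8, 3, []⟩, ⟨32, 3, []⟩], [3, 3], 1, [(40, 1)]⟩,
⟨2, [⟨1, 3, []⟩, ⟨4, 3, []⟩], [3, 3], 1, [(5, 1)]⟩,
⟨2, [⟨2, 3, []⟩, ⟨64, 3, []⟩], [3, 3], 1, [(66, 1)]⟩,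
⟨0, [⟨12, 2, []⟩, ⟨64, 2, []⟩], [3, 3, 3], 1, [(68, 1), (72, 1)]⟩,
⟨2, [⟨24, 3, []⟩, ⟨32, 3, []⟩], [3, 3], 1, [(40, 1), (48, 1)]⟩,
⟨1, [⟨10, 2, []⟩, ⟨16, 2, []⟩], [3, 3, 3], 1, [(18, 1), (24, 1)]⟩,
⟨1, [⟨9, 2, []⟩, ⟨16, 2, []⟩], [3, 3, 3], 1, [(17, 1), (24, 1)]⟩,
⟨2, [⟨12, 3, []⟩, ⟨16, 3, []⟩], [3, 3], 1, [(20, 1), (24, 1)]⟩,
⟨1, [⟨2, 2, []⟩, ⟨48, 2, []⟩], [3, 3, 3], 1, [(18, 1), (34, 1)]⟩,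
⟨1, [⟨8, 2, []⟩, ⟨80, 2, []⟩], [3, 3, 3], 1, [(24, 1), (72, 1)]⟩,
⟨0, [⟨66, 2, []⟩, ⟨16, 2, []⟩], [3, 3, 3], 1, [(18, 1), (80, 1)]⟩,
⟨1, [⟨65, 2, []⟩, ⟨8, 2, []⟩], [3, 3, 3], 1, [(9, 1), (72, 1)]⟩,
⟨0, [⟨20, 2, []⟩, ⟨64, 2, []⟩], [3, 3, 3], 1, [(68, 1), (80, 1)]⟩,
⟨1, [⟨5, 2, []⟩, ⟨16, 2, []⟩], [3, 3, 3], 1, [(17, 1), (20, 1)]⟩,
⟨1, [⟨9, 2, []⟩, ⟨32, 2, []⟩], [3, 3, 3], 1, [(33, 1), (40, 1)]⟩,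
⟨2, [⟨34, 4, []⟩, ⟨4, 2, []⟩], [3, 2, 2], 1, [(6, 1), (36, 1)]⟩,
⟨2, [⟨12, 3, []⟩, ⟨64, 3, []⟩], [3, 3], 1, [(68, 1), (72, 1)]⟩,
⟨0, [⟨2, 2, []⟩, ⟨24, 2, []⟩], [3, 3, 3], 1, [(10, 1), (18, 1)]⟩,
⟨0, [⟨65, 2, []⟩, ⟨16, 2, []⟩], [3, 3, 3], 1, [(17, 1), (80, 1)]⟩,
⟨0, [⟨18, 2, []⟩, ⟨8, 2, []⟩], [3, 3, 3], 1, [(10, 1), (24, 1)]⟩,
⟨1, [⟨9, 2, []⟩, ⟨64, 2, []⟩], [3, 3, 3], 1, [(65, 1), (72, 1)]⟩,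
⟨1, [⟨2, 2, []⟩, ⟨12, 2, []⟩], [3, 3, 3], 1, [(6, 1), (10, 1)]⟩,
⟨2, [⟨34, 3, []⟩, ⟨64, 3, []⟩], [3, 3], 1, [(66, 1), (96, 1)]⟩,
⟨2, [⟨5, 3, []⟩, ⟨16, 3, []⟩], [3, 3], 1, [(17, 1), (20, 1)]⟩,
⟨0, [⟨16, 2, []⟩, ⟨96, 2, []⟩], [3, 3, 3], 1, [(48, 1), (80, 1)]⟩,
⟨0, [⟨1, 2, []⟩, ⟨2, 2, []⟩], [3, 3, 3], 1, [(3, 1)]⟩,
⟨2, [⟨17, 3, []⟩, ⟨32, 3, []⟩], [3, 3], 1, [(33, 1), (48, 1)]⟩,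
⟨1, [⟨2, 2, []⟩, ⟨72, 2, []⟩], [3, 3, 3], 1, [(10, 1), (66, 1)]⟩,
⟨1, [⟨3, 2, []⟩, ⟨4, 2, []⟩], [3, 3, 3], 1, [(5, 1), (6, 1)]⟩,
⟨0, [⟨4, 2, []⟩, ⟨40, 4, []⟩], [3, 1, 1], 1, [(12, 1), (36, 1)]⟩,
⟨1, [⟨48, 2, []⟩, ⟨8, 2, []⟩], [3, 3, 3], 1, [(24, 1), (40, 1)]⟩,
⟨0, [⟨33, 2, []⟩, ⟨8, 2, []⟩], [3, 3, 3], 1, [(9, 1), (40, 1)]⟩,
⟨0, [⟨8, 4, []⟩, ⟨64, 2, []⟩], [3, 2, 2], 1, [(72, 1)]⟩,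
⟨1, [⟨1, 2, []⟩, ⟨2, 2, []⟩], [3, 3, 3], 1, [(3, 1)]⟩,
⟨1, [⟨4, 3, []⟩, ⟨32, 3, []⟩], [3, 3], 1, [(36, 1)]⟩,
⟨1, [⟨6, 2, []⟩, ⟨32, 2, []⟩], [3, 3, 3], 1, [(34, 1), (36, 1)]⟩,
⟨2, [⟨33, 3, []⟩, ⟨16, 3, []⟩], [3, 3], 1, [(17, 1), (48, 1)]⟩,
⟨0, [⟨8, 3, []⟩, ⟨32, 3, []⟩], [3, 3], 1, [(40, 1)]⟩,
⟨0, [⟨8, 4, []⟩, ⟨16, 2, []⟩], [3, 2, 2], 1, [(24, 1)]⟩,
⟨1, [⟨1, 2, []⟩, ⟨80, 2, []⟩], [3, 3, 3], 1, [(17, 1), (65, 1)]⟩,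
⟨2, [⟨10, 3, []⟩, ⟨64, 3, []⟩], [3, 3], 1, [(66, 1), (72, 1)]⟩,
⟨2, [⟨2, 3, []⟩, ⟨8, 3, []⟩], [3, 3], 1, [(10, 1)]⟩,
⟨2, [⟨16, 4, []⟩, ⟨32, 2, []⟩], [3, 2, 2], 1, [(48, 1)]⟩,
⟨2, [⟨10, 4, []⟩, ⟨4, 2, []⟩], [3, 2, 2], 1, [(6, 1), (12, 1)]⟩,
⟨1, [⟨16, 2, []⟩, ⟨72, 2, []⟩], [3, 3, 3], 1, [(24, 1), (80, 1)]⟩,
⟨0, [⟨40, 2, []⟩, ⟨64, 2, []⟩], [3, 3, 3], 1, [(72, 1), (96, 1)]⟩,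
⟨1, [⟨2, 2, []⟩, ⟨80, 2, []⟩], [3, 3, 3], 1, [(18, 1), (66, 1)]⟩,
⟨0, [⟨10, 2, []⟩, ⟨4, 2, []⟩], [3, 3, 3], 1, [(6, 1), (12, 1)]⟩,
⟨1, [⟨1, 2, []⟩, ⟨8, 4, []⟩], [3, 1, 1], 1, [(9, 1)]⟩,
⟨1, [⟨34, 2, []⟩, ⟨4, 2, []⟩], [3, 3, 3], 1, [(6, 1), (36, 1)]⟩,
⟨0, [⟨8, 2, []⟩, ⟨80, 2, []⟩], [3, 3, 3], 1, [(24, 1), (72, 1)]⟩,
⟨0, [⟨17, 2, []⟩, ⟨8, 2, []⟩], [3, 3, 3], 1, [(9, 1), (24, 1)]⟩,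
⟨0, [⟨48, 2, []⟩, ⟨64, 2, []⟩], [3, 3, 3], 1, [(80, 1), (96, 1)]⟩,
⟨2, [⟨20, 3, []⟩, ⟨64, 3, []⟩], [3, 3], 1, [(68, 1), (80, 1)]⟩,
⟨1, [⟨6, 2, []⟩, ⟨8, 2, []⟩], [3, 3, 3], 1, [(10, 1), (12, 1)]⟩,
⟨0, [⟨9, 2, []⟩, ⟨4, 2, []⟩], [3, 3, 3], 1, [(5, 1), (12, 1)]⟩,
⟨1, [⟨16, 2, []⟩, ⟨96, 2, []⟩], [3, 3, 3], 1, [(48, 1), (80, 1)]⟩,
⟨1, [⟨32, 2, []⟩, ⟨64, 2, []⟩], [3, 3, 3], 1, [(96, 1)]⟩,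
⟨0, [⟨1, 2, []⟩, ⟨12, 2, []⟩], [3, 3, 3], 1, [(5, 1), (9, 1)]⟩,
⟨2, [⟨1, 3, []⟩, ⟨16, 3, []⟩], [3, 3], 1, [(17, 1)]⟩,
⟨2, [⟨32, 4, []⟩, ⟨64, 2, []⟩], [3, 2, 2], 1, [(96, 1)]⟩,
⟨2, [⟨9, 3, []⟩, ⟨32, 3, []⟩], [3, 3], 1, [(33, 1), (40, 1)]⟩,
⟨0, [⟨3, 2, []⟩, ⟨4, 2, []⟩], [3, 3, 3], 1, [(5, 1), (6, 1)]⟩,
⟨1, [⟨40, 2, []⟩, ⟨64, 2, []⟩], [3, 3, 3], 1, [(72, 1), (96, 1)]⟩,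
⟨0, [⟨2, 2, []⟩, ⟨72, 2, []⟩], [3, 3, 3], 1, [(10, 1), (66, 1)]⟩,
⟨0, [⟨1, 2, []⟩, ⟨48, 2, []⟩], [3, 3, 3], 1, [(17, 1), (33, 1)]⟩,
⟨2, [⟨1, 3, []⟩, ⟨8, 3, []⟩], [3, 3], 1, [(9, 1)]⟩,
⟨1, [⟨1, 2, []⟩, ⟨24, 2, []⟩], [3, 3, 3], 1, [(9, 1), (17, 1)]⟩,
⟨1, [⟨10, 2, []⟩, ⟨4, 2, []⟩], [3, 3, 3], 1, [(6, 1), (12, 1)]⟩,
⟨2, [⟨16, 3, []⟩, ⟨64, 3, []⟩], [3, 3], 1, [(80, 1)]⟩,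
⟨2, [⟨8, 4, []⟩, ⟨64, 2, []⟩], [3, 2, 2], 1, [(72, 1)]⟩,
⟨0, [⟨2, 2, []⟩, ⟨48, 2, []⟩], [3, 3, 3], 1, [(18, 1), (34, 1)]⟩,
⟨0, [⟨33, 2, []⟩, ⟨64, 2, []⟩], [3, 3, 3], 1, [(65, 1), (96, 1)]⟩,
⟨1, [⟨33, 2, []⟩, ⟨64, 2, []⟩], [3, 3, 3], 1, [(65, 1), (96, 1)]⟩,
⟨2, [⟨32, 4, []⟩, ⟨16, 2, []⟩], [3, 2, 2], 1, [(48, 1)]⟩,
⟨1, [⟨36, 2, []⟩, ⟨64, 2, []⟩], [3, 3, 3], 1, [(68, 1), (96, 1)]⟩,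
⟨0, [⟨8, 2, []⟩, ⟨64, 2, []⟩], [3, 3, 3], 1, [(72, 1)]⟩,
⟨2, [⟨33, 4, []⟩, ⟨4, 2, []⟩], [3, 2, 2], 1, [(5, 1), (36, 1)]⟩,
⟨1, [⟨2, 2, []⟩, ⟨4, 2, []⟩], [3, 3, 3], 1, [(6, 1)]⟩,
⟨0, [⟨65, 2, []⟩, ⟨32, 2, []⟩], [3, 3, 3], 1, [(33, 1), (96, 1)]⟩,
⟨0, [⟨2, 2, []⟩, ⟨40, 2, []⟩], [3, 3, 3], 1, [(10, 1), (34, 1)]⟩,
⟨0, [⟨32, 4, []⟩, ⟨16, 2, []⟩], [3, 2, 2], 1, [(48, 1)]⟩,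
⟨2, [⟨16, 4, []⟩, ⟨64, 2, []⟩], [3, 2, 2], 1, [(80, 1)]⟩,
⟨2, [⟨8, 3, []⟩, ⟨32, 3, []⟩], [3, 3], 1, [(40, 1)]⟩,
⟨1, [⟨24, 2, []⟩, ⟨32, 2, []⟩], [3, 3, 3], 1, [(40, 1), (48, 1)]⟩,
⟨0, [⟨36, 3, []⟩, ⟨8, 3, []⟩], [3, 3], 1, [(12, 1), (40, 1)]⟩,
⟨0, [⟨34, 2, []⟩, ⟨16, 2, []⟩], [3, 3, 3], 1, [(18, 1), (48, 1)]⟩,
⟨2, [⟨34, 3, []⟩, ⟨8, 3, []⟩], [3, 3], 1, [(10, 1), (40, 1)]⟩,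
⟨0, [⟨12, 3, []⟩, ⟨32, 3, []⟩], [3, 3], 1, [(36, 1), (40, 1)]⟩,
⟨0, [⟨16, 3, []⟩, ⟨32, 3, []⟩], [3, 3], 1, [(48, 1)]⟩,
⟨0, [⟨24, 2, []⟩, ⟨64, 2, []⟩], [3, 3, 3], 1, [(72, 1), (80, 1)]⟩,
⟨1, [⟨10, 2, []⟩, ⟨32, 2, []⟩], [3, 3, 3], 1, [(34, 1), (40, 1)]⟩,
⟨2, [⟨33, 3, []⟩, ⟨64, 3, []⟩], [3, 3], 1, [(65, 1), (96, 1)]⟩,
⟨1, [⟨32, 2, []⟩, ⟨80, 2, []⟩], [3, 3, 3], 1, [(48, 1), (96, 1)]⟩,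
⟨1, [⟨16, 4, []⟩, ⟨32, 2, []⟩], [3, 2, 2], 1, [(48, 1)]⟩,
⟨1, [⟨34, 2, []⟩, ⟨16, 2, []⟩], [3, 3, 3], 1, [(18, 1), (48, 1)]⟩,
⟨0, [⟨10, 2, []⟩, ⟨16, 2, []⟩], [3, 3, 3], 1, [(18, 1), (24, 1)]⟩,
⟨1, [⟨8, 2, []⟩, ⟨64, 2, []⟩], [3, 3, 3], 1, [(72, 1)]⟩,
⟨0, [⟨32, 2, []⟩, ⟨72, 2, []⟩], [3, 3, 3], 1, [(40, 1), (96, 1)]⟩,
⟨1, [⟨8, 2, []⟩, ⟨96, 2, []⟩], [3, 3, 3], 1, [(40, 1), (72, 1)]⟩,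
⟨0, [⟨18, 2, []⟩, ⟨32, 2, []⟩], [3, 3, 3], 1, [(34, 1), (48, 1)]⟩,
⟨2, [⟨8, 3, []⟩, ⟨64, 3, []⟩], [3, 3], 1, [(72, 1)]⟩,
⟨1, [⟨1, 2, []⟩, ⟨96, 2, []⟩], [3, 3, 3], 1, [(33, 1), (65, 1)]⟩,
⟨0, [⟨2, 3, []⟩, ⟨64, 3, []⟩], [3, 3], 1, [(66, 1)]⟩,
⟨0, [⟨5, 2, []⟩, ⟨32, 2, []⟩], [3, 3, 3], 1, [(33, 1), (36, 1)]⟩,
⟨0, [⟨10, 2, []⟩, ⟨32, 2, []⟩], [3, 3, 3], 1, [(34, 1), (40, 1)]⟩,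
⟨1, [⟨66, 2, []⟩, ⟨8, 2, []⟩], [3, 3, 3], 1, [(10, 1), (72, 1)]⟩,
⟨2, [⟨32, 4, []⟩, ⟨8, 2, []⟩], [3, 2, 2], 1, [(40, 1)]⟩,
⟨0, [⟨16, 4, []⟩, ⟨32, 2, []⟩], [3, 2, 2], 1, [(48, 1)]⟩]

theorem base_ok : base.all (fun q => q.ok 7 3 [7, 56, 3] big4 big4 []) = true := by decide +kernel

theorem gads_ok : gads.all (fun g => Nat.blt g.j 3 && g.ok 7 (([0, 0, 2] : List ℕ).getD g.j 0)) = true := by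
  decide +kernel

theorem cmp_ok : cmpR names cnf (cls 3 base ++ gads.map Gt.cl) = true := by decide +kernel

end D76

theorem inst_76 : instB 1 [0, 0, 2] [3] [] D76.base D76.gads D76.names D76.cnf D76.db D76.prf = true :=
  instB_of D76.base_ok D76.gads_ok (by decide +kernel) D76.okc D76.cmp_ok D76.chk_ok

/-- no gadget has fewer than `2 R` new points. -/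
theorem p2_76 : D76.gads.all (fun g => Nat.ble (2 * g.R) g.gs.length) = true := by decide +kernel

/-- there is no configuration of this instance. -/
theorem no_76 {V : Type v} [DecidableEq V] {ι : Type u} [Fintype ι] {B : ι → Finset V}
    {Q : Finset V} {i j : ι} {x : ℕ → V} {D : ℕ → Finset V}
    (h : CfI B Q 1 x D i j [0, 0, 2] [3]) : False :=
  h.absurd (by decide) srt_nil inst_76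

end Pool.Agent.Hyp6
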