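import Pool.Agent.Hyp6.Cseg2
import Pool.Agent.Hyp6.Ins.E78

/-!
# HYP6: instance 78 of the list: n = 1, bounds [0, 0, 2], inner blocks [9]

957 base clauses, 287 gadgets, 1492 learned clauses.
-/

set_option autoImplicit false
set_option maxRecDepth 100000

namespace Pool.Agent.Hyp6

open Rup

universe u v

namespace D78

noncomputable def base : List Rs := [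
.ordE 1 32 2,
.lipl 1 36 116 1 80,
.part [4, 27, 96] [0, 1, 0] [] [],
.lipl 0 10 43 0 33,
.lipl 1 9 45 0 36,
.join 2 2 5 3 2 2 [(1, 1)],
.lipl 0 12 29 0 17,
.part [64, 33, 18] [0, 0, 0] [] [(1, 12)],
.lipl 2 36 53 1 17,
.lip 2 4 60 56,
.part [64, 17, 34] [0, 0, 0] [] [(0, 12)],
.join 2 2 2 3 2 1 [(1, 0)],
.le 0 40 8 3 2,
.part [32, 18, 77] [0, 0, 1] [] [],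
.lip 1 6 15 9,
.part [1, 64, 6] [0, 0, 0] [56] [],
.part [16, 64, 47] [0, 0, 1] [] [],
.le 0 18 16 4 2,
.le 1 5 1 0 2,
.join 1 16 5 2 0 2 [(4, 0)],
.deg 6 [0, 2, 2],
.part [72, 16, 32] [0, 0, 0] [7] [],
.part [87, 8, 32] [1, 0, 0] [] [],
.join 1 4 6 2 3 0 [(2, 1)],
.le 0 34 2 1 2,
.part [12, 18, 33] [0, 0, 0] [64] [],
.lipl 0 10 30 2 20,
.lip 1 2 50 56,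
.lip 1 18 27 9,
.part [4, 121, 2] [0, 1, 0] [] [],
.part [64, 34, 20] [0, 0, 0] [9] [],
.l2 0 34 36 5 1 1,
.hall [1, 2] [1, 2],
.deg 4 [0, 3, 0],
.ordE 1 32 1,
.join 2 1 1 3 2 1 [(0, 0)],
.join 0 1 6 2 2 0 [(0, 0)],
.ab2 2 34,
.part [18, 4, 65] [0, 0, 0] [40] [],
.join 2 8 4 3 2 1 [(3, 0)],
.l2 0 5 12 2 1 1,
.deg 0 [1, 1, 0],
.lip 0 66 75 9,
.join 0 4 5 2 0 2 [(2, 0)],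
.mono 0 1 3 1,
.mono 0 64 96 1,
.ab 1 2,
.join 0 1 1 2 1 2 [(0, 1)],
.lip 2 3 27 56,
.l2 0 3 10 1 1 1,
.ab2 0 40,
.join 2 1 1 3 1 2 [(0, 0)],
.ab2 2 12,
.deg 6 [0, 1, 3],
.part [124, 0, 3] [1, 0, 0] [] [],
.part [34, 4, 89] [0, 0, 1] [] [],
.join 1 1 2 2 1 1 [(0, 0)],
.hall [1] [1, 2, 6],
.join 2 1 2 3 2 1 [(0, 0)],
.part [23, 72, 32] [1, 0, 0] [] [],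
.part [60, 65, 2] [1, 0, 0] [] [],
.ordE 1 16 2,
.ab 0 3,
.ordE 0 16 1,
.ab2 0 80,
.part [1, 68, 2] [0, 0, 0] [56] [],
.part [2, 64, 61] [0, 0, 1] [] [],
.ordE 1 8 1,
.join 2 2 4 3 2 2 [(1, 1)],
.ab2 2 5,
.lip 2 18 27 9,
.part [1, 4, 66] [0, 0, 0] [56] [],
.l2 0 10 18 1 1 1,
.part [64, 12, 34] [0, 0, 0] [] [(2, 17)],
.part [17, 64, 46] [0, 0, 1] [] [],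
.part [8, 80, 32] [0, 0, 0] [7] [],
.lipl 1 33 51 2 18,
.lipl 1 9 43 2 34,
.le 1 34 32 5 2,
.part [64, 34, 29] [0, 0, 1] [] [],
.le 0 66 64 6 2,
.part [64, 27, 36] [0, 1, 0] [] [],
.part [64, 33, 20] [0, 0, 0] [] [(0, 10)],
.deg 2 [1, 0, 2],
.deg 6 [1, 3, 0],
.ordE 1 2 1,
.join 2 2 2 3 1 2 [(1, 0)],
.part [3, 68, 8] [0, 0, 0] [48] [],
.part [64, 53, 10] [0, 1, 0] [] [],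
.part [36, 16, 75] [0, 0, 1] [] [],
.hall [1] [4, 5, 6],
.l2 1 33 65 0 1 1,
.ordE 0 2 3,
.l2 0 18 34 1 1 1,
.lipl 0 33 43 0 10,
.l2 2 18 24 4 2 1,
.part [20, 43, 64] [0, 1, 0] [] [],
.lipl 2 33 43 2 10,
.join 2 16 5 3 2 2 [(4, 1)],
.part [34, 81, 12] [0, 1, 0] [] [],
.part [5, 2, 64] [0, 0, 0] [56] [],
.un 0 6,
.part [2, 121, 4] [0, 1, 0] [] [],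
.join 0 1 4 2 1 1 [(0, 0)],
.le 1 10 2 1 2,
.part [80, 36, 2] [0, 0, 0] [9] [],
.mono 1 32 34 1,
.part [4, 96, 27] [0, 0, 1] [] [],
.join 0 2 3 2 1 2 [(1, 1)],
.part [64, 36, 27] [0, 0, 1] [] [],
.part [64, 18, 12] [0, 0, 0] [] [(2, 33)],
.deg 3 [0, 1, 1],
.ordE 2 64 3,
.deg 4 [3, 0, 0],
.join 0 1 5 2 2 1 [(0, 1)],
.part [45, 18, 64] [1, 0, 0] [] [],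
.part [64, 17, 36] [0, 0, 0] [] [(2, 10)],
.le 0 18 2 1 2,
.join 2 8 5 3 1 2 [(3, 0)],
.join 0 32 6 2 1 1 [(5, 0)],
.hall [2] [3, 4, 6],
.join 2 1 5 4 2 2 [(0, 0)],
.part [2, 80, 45] [0, 0, 1] [] [],
.join 0 8 5 2 0 2 [(3, 0)],
.part [2, 68, 57] [0, 0, 1] [] [],
.deg 2 [1, 1, 1],
.part [64, 29, 34] [0, 1, 0] [] [],
.part [89, 4, 34] [1, 0, 0] [] [],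
.ab2 1 66,
.lipl 0 33 43 2 10,
.l2 1 12 36 2 1 1,
.lipl 1 64 74 1 10,
.lipl 1 9 29 2 20,
.part [18, 4, 105] [0, 0, 1] [] [],
.join 1 16 5 2 1 1 [(4, 0)],
.mono 0 2 6 1,
.un 0 4,
.l2 1 6 18 1 1 1,
.lipl 0 17 29 0 12,
.join 2 2 2 3 2 2 [(1, 1)],
.join 2 1 4 3 1 2 [(0, 0)],
.deg 0 [0, 0, 2],
.ab 1 1,
.join 2 4 3 3 2 1 [(2, 0)],
.part [43, 64, 20] [1, 0, 0] [] [],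
.ab2 1 12,
.join 0 2 2 2 0 2 [(1, 0)],
.part [65, 50, 12] [0, 1, 0] [] [],
.mono 0 4 20 1,
.join 1 16 6 2 2 0 [(4, 0)],
.mono 1 1 5 1,
.l2 1 10 40 3 1 1,
.part [68, 18, 32] [0, 0, 0] [9] [],
.lip 0 48 55 7,
.part [32, 64, 31] [0, 0, 1] [] [],
.join 2 1 2 3 2 2 [(0, 1)],
.join 2 4 5 3 1 2 [(2, 0)],
.ordE 1 64 1,
.join 0 16 5 2 1 1 [(4, 0)],
.ordE 1 1 2,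
.join 1 1 6 2 1 1 [(0, 0)],
.lipl 0 33 51 2 18,
.un 0 0,
.lipl 0 10 43 2 33,
.l2 1 5 36 2 1 1,
.ordE 2 64 2,
.part [64, 3, 60] [0, 0, 1] [] [],
.hall [1] [3, 4, 5],
.join 0 4 4 2 1 2 [(2, 1)],
.part [30, 33, 64] [1, 0, 0] [] [],
.part [20, 64, 33] [0, 0, 0] [] [(2, 10)],
.part [64, 36, 10] [0, 0, 0] [] [(0, 17)],
.join 0 4 3 2 2 0 [(2, 0)],
.lip 1 10 74 64,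
.part [20, 32, 75] [0, 0, 1] [] [],
.l2 1 3 18 1 1 1,
.part [64, 18, 45] [0, 0, 1] [] [],
.ab 0 0,
.l2 1 20 36 2 1 1,
.ab2 1 96,
.ab2 2 33,
.ab2 0 68,
.part [66, 20, 32] [0, 0, 0] [9] [],
.mono 0 1 5 1,
.le 1 20 4 2 2,
.part [36, 2, 89] [0, 0, 1] [] [],
.deg 5 [2, 1, 0],
.part [103, 0, 24] [1, 0, 0] [] [],
.part [40, 16, 64] [0, 0, 0] [7] [],
.join 0 4 3 2 1 2 [(2, 1)],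
.part [64, 20, 43] [0, 0, 1] [] [],
.lip 2 2 11 9,
.part [2, 45, 80] [0, 1, 0] [] [],
.lip 2 66 75 9,
.part [1, 6, 64] [0, 0, 0] [56] [],
.ab2 0 6,
.lipl 0 17 51 1 34,
.deg 1 [0, 3, 0],
.ordE 2 32 1,
.l2 0 5 20 2 1 1,
.l2 1 3 34 1 1 1,
.lipl 2 17 27 2 10,
.join 0 8 4 2 1 1 [(3, 0)],
.ordE 0 8 1,
.join 1 2 2 2 1 1 [(1, 0)],
.part [4, 18, 105] [0, 0, 1] [] [],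
.deg 1 [0, 2, 1],
.part [64, 43, 20] [0, 1, 0] [] [],
.part [64, 62, 1] [0, 1, 0] [] [],
.part [16, 43, 68] [0, 1, 0] [] [],
.l2 1 6 20 2 1 1,
.lip 1 34 43 9,
.ab2 1 6,
.ab 2 3,
.le 0 12 4 2 2,
.part [120, 5, 2] [1, 0, 0] [] [],
.part [34, 76, 17] [0, 1, 0] [] [],
.mono 1 64 80 1,
.part [58, 65, 4] [1, 0, 0] [] [],
.part [62, 64, 1] [1, 0, 0] [] [],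
.part [80, 15, 32] [0, 1, 0] [] [],
.part [51, 12, 64] [1, 0, 0] [] [],
.join 0 2 3 2 1 1 [(1, 0)],
.part [71, 24, 32] [1, 0, 0] [] [],
.part [87, 32, 8] [1, 0, 0] [] [],
.join 0 2 2 2 1 1 [(1, 0)],
.join 1 4 3 2 1 2 [(2, 1)],
.deg 1 [1, 0, 2],
.deg 6 [1, 0, 3],
.part [64, 20, 33] [0, 0, 0] [] [(2, 10)],
.lip 2 8 15 7,
.part [33, 18, 12] [0, 0, 0] [64] [],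
.part [33, 74, 20] [0, 1, 0] [] [],
.mono 2 8 12 1,
.join 1 2 4 2 2 1 [(1, 1)],
.lipl 0 12 29 1 17,
.mono 1 1 65 1,
.l2 1 10 24 3 1 1,
.l2 0 6 20 2 1 1,
.lip 1 10 15 7,
.join 2 8 5 3 2 1 [(3, 0)],
.part [32, 8, 80] [0, 0, 0] [7] [],
.part [45, 64, 18] [1, 0, 0] [] [],
.lip 2 32 39 7,
.lip 0 64 71 7,
.part [53, 10, 64] [1, 0, 0] [] [],
.ordE 0 2 1,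
.l2 0 3 34 1 1 1,
.part [20, 64, 10] [0, 0, 0] [] [(2, 33)],
.lip 1 0 7 7,
.join 0 4 4 2 1 1 [(2, 0)],
.l2 0 12 24 3 1 1,
.part [20, 33, 64] [0, 0, 0] [] [(2, 10)],
.part [20, 64, 43] [0, 0, 1] [] [],
.join 1 2 5 2 1 2 [(1, 1)],
.lipl 2 12 45 1 33,
.l2 1 5 33 0 1 1,
.part [8, 32, 80] [0, 0, 0] [7] [],
.join 2 1 4 4 2 2 [(0, 0)],
.hall [1] [0, 1, 2],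
.l2 0 17 24 4 1 1,
.le 1 40 8 3 2,
.ab 2 0,
.part [36, 74, 17] [0, 1, 0] [] [],
.l2 0 10 12 3 1 1,
.part [34, 12, 64] [0, 0, 0] [] [(2, 17)],
.mono 0 8 40 1,
.un 1 4,
.ordE 2 2 2,
.part [62, 0, 65] [1, 0, 0] [] [],
.mono 1 16 20 1,
.l2 1 12 20 2 1 1,
.le 1 36 4 2 2,
.part [2, 65, 60] [0, 0, 1] [] [],
.part [9, 64, 34] [0, 0, 0] [] [(1, 20)],
.join 0 8 4 2 0 2 [(3, 0)],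
.mono 0 64 80 1,
.mono 1 32 96 1,
.part [120, 3, 4] [1, 0, 0] [] [],
.join 2 1 4 4 1 3 [(0, 0)],
.join 0 4 6 2 1 1 [(2, 0)],
.ordE 1 16 1,
.part [16, 66, 45] [0, 0, 1] [] [],
.le 0 5 1 0 2,
.deg 1 [0, 0, 3],
.l2 1 5 20 2 1 1,
.join 2 4 3 4 2 2 [(2, 0)],
.mono 1 64 65 1,
.lipl 1 17 53 0 36,
.deg 6 [2, 0, 2],
.deg 6 [4, 0, 0],
.ab 0 5,
.part [36, 80, 11] [0, 0, 1] [] [],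
.le 1 36 32 5 2,
.join 1 4 4 2 0 2 [(2, 0)],
.part [17, 10, 36] [0, 0, 0] [64] [],
.part [66, 57, 4] [0, 1, 0] [] [],
.join 0 1 1 2 1 1 [(0, 0)],
.lipl 1 12 45 1 33,
.l2 1 34 36 5 1 1,
.join 2 1 2 4 1 3 [(0, 0)],
.le 0 10 2 1 2,
.l2 1 33 40 5 1 1,
.l2 1 33 34 5 1 1,
.join 0 1 2 2 0 2 [(0, 0)],
.lipl 1 33 53 0 20,
.deg 5 [0, 3, 0],
.join 0 2 4 2 2 0 [(1, 0)],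
.join 2 1 5 4 1 3 [(0, 0)],
.lipl 1 10 43 1 33,
.part [46, 17, 64] [1, 0, 0] [] [],
.part [20, 74, 33] [0, 1, 0] [] [],
.join 1 4 6 2 2 0 [(2, 0)],
.l2 0 66 72 6 1 1,
.le 1 3 1 0 1,
.part [75, 32, 20] [1, 0, 0] [] [],
.ordE 2 4 1,
.mono 0 4 36 1,
.join 0 2 5 2 1 2 [(1, 1)],
.l2 2 10 12 3 2 1,
.le 1 20 4 2 1,
.mono 1 2 66 1,
.part [48, 15, 64] [0, 1, 0] [] [],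
.deg 5 [1, 0, 2],
.part [32, 16, 72] [0, 0, 0] [7] [],
.ab2 0 17,
.ordE 0 64 1,
.join 1 32 6 2 1 1 [(5, 0)],
.hall [2] [0, 1, 6],
.le 0 12 8 3 1,
.le 0 3 1 0 2,
.ab2 1 36,
.l2 0 65 80 6 1 1,
.le 0 18 16 4 1,
.join 0 8 5 2 1 2 [(3, 1)],
.part [64, 17, 34] [0, 0, 0] [] [(1, 12)],
.part [65, 2, 4] [0, 0, 0] [56] [],
.hall [1] [3, 5, 6],
.part [6, 57, 64] [0, 1, 0] [] [],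
.ab 1 4,
.lip 1 6 62 56,
.part [64, 1, 6] [0, 0, 0] [56] [],
.join 0 4 5 2 1 1 [(2, 0)],
.l2 0 5 17 0 1 1,
.un 0 2,
.lip 1 72 79 7,
.part [36, 64, 27] [0, 0, 1] [] [],
.lip 1 12 76 64,
.ab2 1 68,
.part [16, 96, 8] [0, 0, 0] [7] [],
.lipl 2 36 46 1 10,
.join 1 1 4 2 1 1 [(0, 0)],
.part [64, 10, 20] [0, 0, 0] [] [(0, 33)],
.lip 0 6 62 56,
.part [2, 68, 1] [0, 0, 0] [56] [],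
.part [33, 12, 18] [0, 0, 0] [64] [],
.deg 2 [0, 3, 0],
.ab 1 3,
.lipl 0 17 29 2 12,
.join 0 2 6 2 3 0 [(1, 1)],
.part [64, 10, 36] [0, 0, 0] [] [(0, 17)],
.part [10, 116, 1] [0, 1, 0] [] [],
.l2 1 10 18 1 1 1,
.join 2 8 4 4 1 3 [(3, 0)],
.join 2 2 3 3 2 1 [(1, 0)],
.part [18, 12, 64] [0, 0, 0] [] [(1, 33)],
.lip 2 96 105 9,
.l2 2 5 12 2 2 1,
.ab 2 5,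
.join 0 2 6 2 2 1 [(1, 1)],
.part [32, 20, 75] [0, 0, 1] [] [],
.part [18, 12, 64] [0, 0, 0] [] [(2, 33)],
.part [2, 1, 68] [0, 0, 0] [56] [],
.lipl 1 10 46 1 36,
.lipl 0 33 53 2 20,
.part [9, 18, 36] [0, 0, 0] [64] [],
.join 1 4 4 2 2 0 [(2, 0)],
.part [33, 20, 10] [0, 0, 0] [64] [],
.lipl 0 17 27 0 10,
.join 0 8 5 2 1 1 [(3, 0)],
.join 1 8 4 2 1 1 [(3, 0)],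
.ab2 0 66,
.le 1 24 8 3 1,
.join 1 16 6 2 2 1 [(4, 1)],
.l2 0 33 40 5 1 1,
.lipl 0 12 45 1 33,
.join 0 1 1 2 2 0 [(0, 0)],
.lipl 0 10 46 2 36,
.join 0 1 2 2 2 0 [(0, 0)],
.le 0 34 32 5 2,
.join 2 2 5 3 2 1 [(1, 0)],
.mono 1 16 18 1,
.join 1 2 4 2 2 0 [(1, 0)],
.hall [0, 1] [2, 6],
.hall [1, 2] [0, 1],
.join 1 2 3 2 1 1 [(1, 0)],
.lipl 1 9 27 0 18,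
.lipl 1 17 51 2 34,
.hall [2] [0, 2, 6],
.ab2 0 33,
.l2 0 68 80 6 1 1,
.join 1 4 3 2 1 1 [(2, 0)],
.part [16, 40, 64] [0, 0, 0] [7] [],
.part [80, 34, 4] [0, 0, 0] [9] [],
.join 1 1 2 2 0 2 [(0, 0)],
.l2 1 12 72 3 1 1,
.part [64, 33, 20] [0, 0, 0] [] [(1, 10)],
.join 1 8 6 2 1 1 [(3, 0)],
.part [12, 51, 64] [0, 1, 0] [] [],
.lipl 0 9 27 1 18,
.l2 0 33 96 5 1 1,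
.deg 2 [2, 0, 1],
.part [20, 64, 10] [0, 0, 0] [] [(1, 33)],
.l2 2 20 48 4 1 2,
.le 1 20 16 4 1,
.part [122, 4, 1] [1, 0, 0] [] [],
.part [20, 10, 64] [0, 0, 0] [] [(2, 33)],
.lipl 0 33 45 2 12,
.ab2 1 48,
.lipl 2 12 29 1 17,
.ab 0 4,
.lip 0 16 23 7,
.lipl 2 10 43 2 33,
.deg 3 [2, 0, 0],
.lip 1 8 15 7,
.mono 1 4 36 1,
.ab 0 1,
.join 1 2 3 2 1 2 [(1, 1)],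
.join 1 32 6 2 2 0 [(5, 0)],
.part [36, 18, 64] [0, 0, 0] [9] [],
.l2 0 24 72 3 1 1,
.part [0, 96, 24] [0, 0, 0] [7] [],
.hall [0] [0, 1, 2],
.lipl 1 12 46 2 34,
.mono 2 4 36 1,
.part [5, 64, 2] [0, 0, 0] [56] [],
.ordE 1 4 1,
.part [34, 64, 17] [0, 0, 0] [] [(2, 12)],
.ordE 0 8 2,
.le 0 20 16 4 2,
.join 2 1 5 3 2 1 [(0, 0)],
.lipl 1 33 51 0 18,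
.join 0 2 4 2 0 2 [(1, 0)],
.ordE 2 32 2,
.part [64, 5, 58] [0, 0, 1] [] [],
.mono 1 1 17 1,
.lipl 0 33 45 0 12,
.ordE 2 4 2,
.part [36, 27, 64] [0, 1, 0] [] [],
.join 1 1 1 2 0 2 [(0, 0)],
.part [4, 80, 43] [0, 0, 1] [] [],
.lipl 1 17 27 0 10,
.part [124, 1, 2] [1, 0, 0] [] [],
.le 0 66 64 6 1,
.l2 0 20 36 2 1 1,
.hall [1] [0, 1, 6],
.join 2 2 3 3 1 2 [(1, 0)],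
.lipl 1 12 30 1 18,
.ordE 0 64 4,
.join 1 4 5 2 2 1 [(2, 1)],
.part [9, 64, 18] [0, 0, 0] [] [(1, 36)],
.join 2 2 4 3 2 1 [(1, 0)],
.lip 1 20 29 9,
.join 2 2 5 3 1 2 [(1, 0)],
.part [103, 16, 8] [1, 0, 0] [] [],
.l2 0 18 24 4 1 1,
.ordE 0 64 3,
.le 1 80 64 6 1,
.l2 1 36 68 2 1 1,
.part [24, 7, 96] [0, 1, 0] [] [],
.ab2 0 48,
.l2 0 6 18 1 1 1,
.part [96, 15, 16] [0, 1, 0] [] [],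
.un 1 5,
.join 0 2 5 2 1 1 [(1, 0)],
.lipl 0 12 45 0 33,
.join 1 4 6 2 2 1 [(2, 1)],
.part [96, 18, 4] [0, 0, 0] [9] [],
.ab2 2 40,
.part [18, 64, 45] [0, 0, 1] [] [],
.le 1 34 2 1 2,
.part [4, 1, 66] [0, 0, 0] [56] [],
.l2 1 36 48 5 1 1,
.part [64, 55, 8] [0, 1, 0] [] [],
.le 0 20 4 2 2,
.ab2 2 18,
.ab2 2 20,
.part [2, 20, 105] [0, 0, 1] [] [],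
.lip 0 66 122 56,
.ordE 1 64 3,
.part [1, 66, 4] [0, 0, 0] [56] [],
.join 2 4 5 3 2 2 [(2, 1)],
.un 1 0,
.lipl 1 10 30 1 20,
.part [40, 7, 80] [0, 1, 0] [] [],
.deg 1 [2, 1, 0],
.lip 2 5 29 56,
.join 0 4 4 2 0 2 [(2, 0)],
.join 1 4 5 2 1 1 [(2, 0)],
.part [64, 17, 36] [0, 0, 0] [] [(1, 10)],
.join 0 1 2 2 1 2 [(0, 1)],
.deg 5 [0, 1, 2],
.part [2, 5, 64] [0, 0, 0] [56] [],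
.join 1 1 2 2 1 2 [(0, 1)],
.ab2 0 36,
.join 1 1 1 2 1 2 [(0, 1)],
.part [39, 72, 16] [1, 0, 0] [] [],
.l2 0 9 10 3 1 1,
.hall [0] [1, 2, 6],
.join 1 4 4 2 2 1 [(2, 1)],
.part [36, 17, 64] [0, 0, 0] [] [(2, 10)],
.part [16, 45, 66] [0, 1, 0] [] [],
.deg 2 [2, 1, 0],
.deg 1 [1, 1, 1],
.join 1 2 5 2 2 0 [(1, 0)],
.hall [2] [0, 1, 2],
.part [55, 64, 8] [1, 0, 0] [] [],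
.deg 0 [0, 2, 0],
.part [32, 24, 64] [0, 0, 0] [7] [],
.ab2 1 3,
.part [9, 54, 64] [0, 1, 0] [] [],
.ab2 0 72,
.lip 1 48 57 9,
.part [34, 68, 25] [0, 0, 1] [] [],
.part [2, 4, 65] [0, 0, 0] [56] [],
.l2 0 65 96 6 1 1,
.part [32, 29, 66] [0, 1, 0] [] [],
.ab2 0 96,
.l2 1 6 10 1 1 1,
.l2 1 36 40 5 1 1,
.part [64, 2, 61] [0, 0, 1] [] [],
.ordL 2 48 1,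
.join 1 4 4 2 1 1 [(2, 0)],
.ab2 1 5,
.deg 4 [1, 1, 1],
.mono 1 32 36 1,
.mono 1 16 80 1,
.deg 2 [0, 0, 3],
.lip 2 2 58 56,
.part [5, 56, 66] [0, 1, 0] [] [],
.join 0 2 5 2 0 2 [(1, 0)],
.deg 2 [0, 2, 1],
.ordE 2 16 1,
.le 1 24 8 3 2,
.part [4, 3, 64] [0, 0, 0] [56] [],
.join 1 8 4 2 0 2 [(3, 0)],
.part [34, 64, 20] [0, 0, 0] [9] [],
.l2 1 20 24 4 1 1,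
.mono 1 8 12 1,
.join 2 8 4 4 2 2 [(3, 0)],
.part [18, 45, 64] [0, 1, 0] [] [],
.part [36, 66, 25] [0, 0, 1] [] [],
.ordE 0 4 2,
.lip 2 20 29 9,
.part [18, 96, 13] [0, 0, 1] [] [],
.l2 2 33 36 5 1 2,
.lip 0 2 58 56,
.part [64, 10, 20] [0, 0, 0] [] [(2, 33)],
.lipl 1 12 29 1 17,
.deg 0 [2, 0, 0],
.le 0 40 8 3 1,
.ab2 1 34,
.part [65, 4, 2] [0, 0, 0] [56] [],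
.ordE 1 2 2,
.deg 5 [1, 1, 1],
.lipl 1 9 27 2 18,
.lip 2 24 27 7,
.l2 0 12 40 3 1 1,
.lip 1 48 55 7,
.join 2 4 4 3 2 1 [(2, 0)],
.join 2 8 5 4 1 3 [(3, 0)],
.l2 1 68 80 6 1 1,
.ab2 2 3,
.ab2 1 18,
.join 0 8 6 2 2 0 [(3, 0)],
.part [4, 43, 80] [0, 1, 0] [] [],
.hall [0, 1] [0, 1],
.deg 1 [1, 2, 0],
.lip 0 24 29 7,
.l2 1 5 17 0 1 1,
.join 0 2 6 2 1 1 [(1, 0)],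
.l2 2 3 18 1 1 2,
.part [16, 34, 77] [0, 0, 1] [] [],
.join 1 4 5 2 1 2 [(2, 1)],
.lipl 2 20 53 1 33,
.lip 2 40 47 7,
.join 0 4 5 2 2 1 [(2, 1)],
.part [32, 80, 8] [0, 0, 0] [7] [],
.part [2, 29, 96] [0, 1, 0] [] [],
.join 2 2 3 3 2 2 [(1, 1)],
.part [18, 64, 33] [0, 0, 0] [] [(2, 12)],
.mono 0 4 6 1,
.ab 0 6,
.l2 1 18 66 1 1 1,
.join 2 1 5 3 1 2 [(0, 0)],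
.l2 0 6 12 2 1 1,
.l2 0 10 40 3 1 1,
.ab2 1 80,
.part [64, 34, 17] [0, 0, 0] [] [(0, 12)],
.lipl 1 9 29 0 20,
.join 2 2 3 4 3 1 [(1, 0)],
.hall [2] [3, 5, 6],
.le 0 17 16 4 2,
.lipl 2 18 30 0 12,
.ab2 0 24,
.join 2 1 4 3 2 1 [(0, 0)],
.l2 1 33 48 5 1 1,
.join 2 16 5 3 1 2 [(4, 0)],
.ordE 0 1 1,
.lip 0 96 105 9,
.part [64, 57, 6] [0, 1, 0] [] [],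
.part [66, 36, 16] [0, 0, 0] [9] [],
.part [64, 4, 59] [0, 0, 1] [] [],
.ab2 0 20,
.deg 3 [1, 1, 0],
.lipl 1 20 54 2 34,
.mono 1 16 17 1,
.l2 1 3 17 0 1 1,
.l2 2 18 34 1 2 1,
.join 1 2 5 2 2 1 [(1, 1)],
.l2 1 18 20 4 1 1,
.part [4, 2, 65] [0, 0, 0] [56] [],
.l2 1 17 20 4 1 1,
.deg 5 [2, 0, 1],
.lip 0 68 124 56,
.part [8, 48, 64] [0, 0, 0] [7] [],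
.l2 0 5 36 2 1 1,
.un 1 6,
.lip 2 5 61 56,
.l2 2 33 34 5 1 2,
.le 0 18 2 1 1,
.un 1 2,
.lip 0 80 89 9,
.part [16, 79, 32] [0, 1, 0] [] [],
.part [77, 32, 18] [1, 0, 0] [] [],
.lip 1 17 81 64,
.part [0, 80, 40] [0, 0, 0] [7] [],
.le 1 36 32 5 1,
.lipl 2 17 29 2 12,
.ordE 2 2 1,
.part [64, 51, 12] [0, 1, 0] [] [],
.ab 1 5,
.hall [0] [4, 5, 6],
.ab2 0 12,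
.part [18, 76, 33] [0, 1, 0] [] [],
.l2 0 40 96 5 1 1,
.part [9, 64, 20] [0, 0, 0] [] [(1, 34)],
.lip 2 34 43 9,
.hall [0] [3, 4, 6],
.join 0 16 6 2 2 0 [(4, 0)],
.join 1 2 6 2 1 1 [(1, 0)],
.part [36, 10, 64] [0, 0, 0] [] [(1, 17)],
.lipl 0 17 53 2 36,
.l2 2 17 48 4 1 2,
.le 1 96 64 6 1,
.mono 0 8 24 1,
.ab2 2 24,
.l2 0 12 36 2 1 1,
.ordE 0 32 3,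
.ab 1 6,
.ab 0 2,
.hall [2] [1, 2, 6],
.part [20, 64, 34] [0, 0, 0] [9] [],
.part [4, 34, 89] [0, 0, 1] [] [],
.part [29, 34, 64] [1, 0, 0] [] [],
.join 0 4 4 2 2 1 [(2, 1)],
.hall [0, 1] [3, 5],
.lip 0 68 77 9,
.ordE 1 4 2,
.l2 1 24 72 3 1 1,
.lip 2 16 23 7,
.deg 4 [0, 0, 3],
.ab 2 1,
.le 1 3 1 0 2,
.join 1 8 5 2 1 2 [(3, 1)],
.mono 0 64 66 1,
.lipl 1 10 27 2 17,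
.le 0 36 32 5 2,
.un 0 1,
.lipl 0 17 27 2 10,
.join 1 2 3 2 2 0 [(1, 0)],
.l2 0 12 72 3 1 1,
.lip 1 1 57 56,
.hall [2] [3, 4, 5],
.part [24, 32, 64] [0, 0, 0] [7] [],
.l2 0 3 17 0 1 1,
.ab2 0 3,
.mono 0 16 20 1,
.deg 2 [1, 2, 0],
.part [32, 72, 23] [0, 0, 1] [] [],
.lip 2 3 43 56,
.join 1 1 1 2 1 1 [(0, 0)],
.part [20, 2, 105] [0, 0, 1] [] [],
.join 0 2 5 2 2 1 [(1, 1)],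
.le 1 68 64 6 1,
.deg 1 [0, 1, 2],
.mono 0 8 10 1,
.join 0 1 4 2 2 1 [(0, 1)],
.le 1 40 8 3 1,
.lipl 2 12 45 2 33,
.deg 2 [3, 0, 0],
.part [34, 17, 64] [0, 0, 0] [] [(2, 12)],
.mono 2 2 18 1,
.lipl 1 34 54 2 20,
.part [72, 32, 16] [0, 0, 0] [7] [],
.le 1 18 16 4 2,
.join 0 1 5 2 1 1 [(0, 0)],
.lip 2 3 59 56,
.join 0 2 6 2 2 0 [(1, 0)],
.lip 0 80 87 7,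
.part [17, 46, 64] [0, 1, 0] [] [],
.ab2 1 40,
.join 1 8 5 2 0 2 [(3, 0)],
.le 0 68 64 6 1,
.part [32, 68, 27] [0, 0, 1] [] [],
.l2 0 34 96 5 1 1,
.le 1 10 8 3 1,
.part [1, 2, 68] [0, 0, 0] [56] [],
.l2 0 17 18 4 1 1,
.lip 2 4 13 9,
.part [68, 2, 57] [0, 0, 1] [] [],
.part [2, 96, 29] [0, 0, 1] [] [],
.join 0 2 4 2 2 1 [(1, 1)],
.part [18, 64, 36] [0, 0, 0] [9] [],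
.ordE 0 1 2,
.deg 4 [0, 1, 2],
.ab2 1 10,
.part [3, 4, 64] [0, 0, 0] [56] [],
.join 0 8 6 2 1 1 [(3, 0)],
.mono 0 32 34 1,
.mono 0 2 34 1,
.part [27, 36, 64] [1, 0, 0] [] [],
.part [80, 32, 15] [0, 0, 1] [] [],
.le 0 24 8 3 2,
.deg 5 [0, 0, 3],
.ab2 1 24,
.join 1 4 6 2 1 1 [(2, 0)],
.mono 1 4 5 1,
.part [34, 29, 64] [0, 1, 0] [] [],
.un 0 5,
.lipl 1 33 45 2 12,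
.l2 0 20 24 4 1 1,
.ab 2 6,
.lipl 1 10 27 1 17,
.join 2 4 4 3 1 2 [(2, 0)],
.part [68, 34, 1] [0, 0, 0] [24] [],
.l2 1 33 96 5 1 1,
.part [16, 32, 72] [0, 0, 0] [7] [],
.ordE 2 16 2,
.part [89, 2, 36] [1, 0, 0] [] [],
.l2 1 68 72 6 1 1,
.deg 1 [3, 0, 0],
.part [8, 64, 48] [0, 0, 0] [7] [],
.part [18, 32, 77] [0, 0, 1] [] [],
.join 1 4 4 2 1 2 [(2, 1)],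
.le 0 24 8 3 1,
.join 0 1 1 2 0 2 [(0, 0)],
.part [71, 40, 16] [1, 0, 0] [] [],
.join 0 4 6 2 2 0 [(2, 0)],
.part [64, 12, 34] [0, 0, 0] [] [(0, 17)],
.part [105, 2, 20] [1, 0, 0] [] [],
.part [75, 16, 36] [1, 0, 0] [] [],
.l2 1 20 80 4 1 1,
.deg 4 [2, 1, 0],
.l2 2 6 12 2 2 1,
.part [36, 64, 10] [0, 0, 0] [] [(2, 17)],
.ab2 0 34,
.part [96, 16, 15] [0, 0, 1] [] [],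
.join 2 1 1 4 1 3 [(0, 0)],
.ab2 0 65,
.part [64, 36, 18] [0, 0, 0] [9] [],
.l2 1 40 72 3 1 1,
.part [20, 34, 64] [0, 0, 0] [9] [],
.part [96, 20, 11] [0, 0, 1] [] [],
.part [36, 10, 64] [0, 0, 0] [] [(2, 17)],
.l2 0 18 48 4 1 1,
.deg 5 [3, 0, 0],
.part [40, 64, 16] [0, 0, 0] [7] [],
.part [64, 20, 34] [0, 0, 0] [9] [],
.join 1 8 4 2 1 2 [(3, 1)],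
.part [64, 18, 36] [0, 0, 0] [9] [],
.l2 2 12 24 3 1 1,
.join 2 2 3 4 2 2 [(1, 0)],
.part [124, 2, 1] [1, 0, 0] [] [],
.lipl 1 9 45 2 36,
.hall [1] [0, 2, 6],
.part [64, 32, 31] [0, 0, 1] [] [],
.join 0 2 4 2 1 2 [(1, 1)],
.lip 2 5 45 56,
.part [17, 36, 10] [0, 0, 0] [64] [],
.l2 1 34 48 5 1 1,
.le 1 12 4 2 2,
.join 2 1 2 4 2 2 [(0, 0)],
.l2 0 34 40 5 1 1,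
.part [29, 64, 34] [1, 0, 0] [] [],
.join 2 8 5 4 2 2 [(3, 0)],
.lipl 2 17 53 1 36,
.join 0 1 6 2 1 1 [(0, 0)],
.part [8, 96, 16] [0, 0, 0] [7] [],
.join 0 32 6 2 2 0 [(5, 0)],
.hall [2] [4, 5, 6],
.ordE 0 2 2,
.ordE 1 1 1,
.ordE 0 16 2,
.ab2 1 20,
.part [68, 57, 2] [0, 1, 0] [] [],
.ordE 0 32 2,
.lipl 0 17 51 0 34,
.deg 5 [1, 2, 0],
.lipl 0 17 29 1 12,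
.lip 1 0 56 56,
.part [34, 16, 77] [0, 0, 1] [] [],
.deg 6 [1, 1, 2],
.l2 2 18 48 4 1 2,
.join 1 1 5 2 1 1 [(0, 0)],
.part [33, 30, 64] [0, 1, 0] [] [],
.part [18, 36, 64] [0, 0, 0] [9] [],
.part [36, 64, 18] [0, 0, 0] [9] [],
.join 1 4 4 2 3 0 [(2, 1)],
.ordE 2 64 1,
.join 1 2 5 2 1 1 [(1, 0)],
.ab 2 4,
.l2 0 17 33 0 1 1,
.le 0 36 4 2 2,
.part [32, 27, 68] [0, 1, 0] [] [],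
.lip 2 36 45 9,
.part [27, 64, 36] [1, 0, 0] [] [],
.lip 0 32 39 7,
.part [64, 8, 48] [0, 0, 0] [7] [],
.deg 3 [1, 0, 1],
.ab 2 2,
.lip 0 4 60 56,
.part [64, 10, 20] [0, 0, 0] [] [(1, 33)],
.part [64, 33, 18] [0, 0, 0] [] [(0, 12)],
.part [4, 65, 58] [0, 0, 1] [] [],
.join 1 16 6 2 1 1 [(4, 0)],
.l2 2 34 40 5 2 1,
.part [16, 68, 43] [0, 0, 1] [] [],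
.l2 1 66 72 6 1 1,
.part [33, 64, 30] [0, 0, 1] [] [],
.ab 1 0,
.join 2 1 1 4 2 2 [(0, 0)],
.deg 4 [1, 0, 2],
.part [24, 64, 32] [0, 0, 0] [7] [],
.l2 1 6 12 2 1 1,
.part [16, 72, 39] [0, 0, 1] [] [],
.ab2 2 6,
.l2 2 6 34 1 2 1,
.lip 1 65 121 56,
.ab2 0 5,
.hall [0] [0, 2, 6],
.lipl 1 36 54 2 18,
.part [10, 64, 53] [0, 0, 1] [] [],
.part [64, 12, 18] [0, 0, 0] [] [(0, 33)],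
.part [18, 33, 64] [0, 0, 0] [] [(2, 12)],
.join 2 2 4 3 1 2 [(1, 0)],
.le 1 18 16 4 1,
.part [105, 4, 18] [1, 0, 0] [] [],
.ordE 0 32 1,
.le 0 33 32 5 2,
.hall [1] [3, 4, 6],
.join 0 2 4 2 1 1 [(1, 0)],
.lipl 1 9 43 0 34,
.join 0 4 5 2 1 2 [(2, 1)],
.part [34, 64, 29] [0, 0, 1] [] [],
.mono 0 64 68 1,
.part [16, 8, 96] [0, 0, 0] [7] [],
.lip 2 1 57 56,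
.lip 2 68 77 9,
.join 2 1 2 3 1 2 [(0, 0)],
.part [9, 64, 36] [0, 0, 0] [] [(1, 18)],
.join 0 1 4 2 3 0 [(0, 1)],
.ab2 2 36,
.join 0 4 3 2 1 1 [(2, 0)],
.ordE 0 4 1,
.join 2 8 4 3 1 2 [(3, 0)],
.ab2 2 48,
.le 1 20 16 4 2,
.part [66, 4, 57] [0, 0, 1] [] [],
.mono 0 2 18 1,
.part [64, 15, 48] [0, 1, 0] [] [],
.lip 1 36 45 9,
.lip 0 64 88 56,
.part [12, 34, 17] [0, 0, 0] [64] [],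
.lip 2 80 89 9,
.part [55, 8, 64] [1, 0, 0] [] [],
.lipl 1 33 43 1 10,
.ab2 2 17,
.join 2 4 3 3 1 2 [(2, 0)],
.join 2 4 3 4 3 1 [(2, 0)],
.le 1 68 64 6 2,
.part [43, 20, 64] [1, 0, 0] [] [],
.deg 0 [0, 1, 1],
.un 1 3,
.part [51, 64, 12] [1, 0, 0] [] [],
.hall [0] [3, 4, 5],
.mono 1 4 12 1,
.lip 0 64 120 56,
.lip 2 24 31 7,
.l2 0 20 48 4 1 1,
.l2 2 36 40 5 2 1,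
.join 0 8 4 2 1 2 [(3, 1)],
.ab2 0 18,
.un 0 3,
.part [2, 36, 89] [0, 0, 1] [] [],
.part [48, 8, 68] [0, 0, 0] [3] [],
.deg 3 [0, 0, 2],
.part [17, 34, 12] [0, 0, 0] [64] [],
.ordE 1 32 3,
.part [4, 64, 59] [0, 0, 1] [] [],
.part [88, 33, 6] [1, 0, 0] [] [],
.join 1 8 5 2 1 1 [(3, 0)],
.part [122, 1, 4] [1, 0, 0] [] [],
.join 1 2 4 2 1 1 [(1, 0)],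
.le 1 80 64 6 2,
.l2 2 6 18 1 1 2,
.ordE 1 64 2,
.part [103, 8, 16] [1, 0, 0] [] [],
.part [68, 34, 16] [0, 0, 0] [9] [],
.lip 0 96 103 7,
.part [64, 45, 18] [0, 1, 0] [] [],
.join 0 1 2 2 1 1 [(0, 0)],
.lipl 2 10 27 2 17,
.le 0 3 1 0 1,
.un 1 1,
.ordE 2 1 1,
.lip 2 16 25 9,
.part [64, 36, 17] [0, 0, 0] [] [(0, 10)],
.ordE 0 64 2,
.part [64, 12, 34] [0, 0, 0] [] [(1, 17)],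
.part [8, 16, 96] [0, 0, 0] [7] [],
.part [64, 36, 17] [0, 0, 0] [] [(2, 10)],
.hall [0] [3, 5, 6],
.part [62, 1, 64] [1, 0, 0] [] [],
.lipl 0 12 45 2 33,
.deg 0 [1, 0, 1],
.join 0 1 3 2 1 1 [(0, 0)],
.l2 1 17 24 4 1 1,
.part [34, 20, 64] [0, 0, 0] [9] [],
.lipl 0 10 27 0 17,
.join 0 16 6 2 1 1 [(4, 0)],
.join 2 16 5 3 2 1 [(4, 0)],
.part [3, 64, 4] [0, 0, 0] [56] [],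
.join 2 4 5 3 2 1 [(2, 0)],
.lipl 2 33 53 1 20,
.part [64, 16, 47] [0, 0, 1] [] [],
.join 1 1 1 2 0 3 [(0, 1)],
.hall [0] [0, 1, 6],
.ordE 1 4 3,
.deg 4 [1, 2, 0],
.deg 2 [0, 1, 2],
.lip 1 33 57 56,
.part [4, 66, 1] [0, 0, 0] [56] [],
.part [32, 66, 29] [0, 0, 1] [] [],
.l2 1 66 80 6 1 1,
.l2 2 6 36 2 1 2,
.part [77, 16, 34] [1, 0, 0] [] []]

noncomputable def gads : List Gt := [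
⟨2, [⟨1, 2, []⟩, ⟨4, 4, []⟩], [3, 1, 1], 1, [(5, 1)]⟩,
⟨0, [⟨18, 2, []⟩, ⟨8, 2, []⟩], [3, 3, 3], 1, [(10, 1), (24, 1)]⟩,
⟨0, [⟨8, 2, []⟩, ⟨16, 4, []⟩], [3, 1, 1], 1, [(24, 1)]⟩,
⟨0, [⟨96, 2, []⟩, ⟨2, 2, []⟩], [3, 3, 3], 1, [(34, 1), (66, 1)]⟩,
⟨0, [⟨72, 2, []⟩, ⟨2, 2, []⟩], [3, 3, 3], 1, [(10, 1), (66, 1)]⟩,
⟨1, [⟨1, 2, []⟩, ⟨2, 2, []⟩], [3, 3, 3], 1, [(3, 1)]⟩,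
⟨0, [⟨4, 2, []⟩, ⟨66, 2, []⟩], [3, 3, 3], 1, [(6, 1), (68, 1)]⟩,
⟨2, [⟨2, 3, []⟩, ⟨8, 3, []⟩], [3, 3], 1, [(10, 1)]⟩,
⟨0, [⟨40, 2, []⟩, ⟨2, 2, []⟩], [3, 3, 3], 1, [(10, 1), (34, 1)]⟩,
⟨0, [⟨24, 2, []⟩, ⟨2, 2, []⟩], [3, 3, 3], 1, [(10, 1), (18, 1)]⟩,
⟨0, [⟨8, 2, []⟩, ⟨64, 2, []⟩], [3, 3, 3], 1, [(72, 1)]⟩,
⟨1, [⟨4, 4, []⟩, ⟨2, 2, []⟩], [3, 2, 2], 1, [(6, 1)]⟩,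
⟨1, [⟨65, 2, []⟩, ⟨2, 2, []⟩], [3, 3, 3], 1, [(3, 1), (66, 1)]⟩,
⟨1, [⟨3, 2, []⟩, ⟨64, 2, []⟩], [3, 3, 3], 1, [(65, 1), (66, 1)]⟩,
⟨0, [⟨6, 2, []⟩, ⟨32, 2, []⟩], [3, 3, 3], 1, [(34, 1), (36, 1)]⟩,
⟨0, [⟨32, 2, []⟩, ⟨80, 2, []⟩], [3, 3, 3], 1, [(48, 1), (96, 1)]⟩,
⟨1, [⟨1, 2, []⟩, ⟨4, 2, []⟩], [3, 3, 3], 1, [(5, 1)]⟩,
⟨2, [⟨1, 2, []⟩, ⟨64, 4, []⟩], [3, 1, 1], 1, [(65, 1)]⟩,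
⟨1, [⟨48, 2, []⟩, ⟨2, 2, []⟩], [3, 3, 3], 1, [(18, 1), (34, 1)]⟩,
⟨0, [⟨36, 2, []⟩, ⟨8, 2, []⟩], [3, 3, 3], 1, [(12, 1), (40, 1)]⟩,
⟨0, [⟨20, 2, []⟩, ⟨1, 2, []⟩], [3, 3, 3], 1, [(5, 1), (17, 1)]⟩,
⟨0, [⟨2, 2, []⟩, ⟨20, 2, []⟩], [3, 3, 3], 1, [(6, 1), (18, 1)]⟩,
⟨2, [⟨8, 3, []⟩, ⟨64, 3, []⟩], [3, 3], 1, [(72, 1)]⟩,
⟨0, [⟨72, 2, []⟩, ⟨4, 2, []⟩], [3, 3, 3], 1, [(12, 1), (68, 1)]⟩,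
⟨1, [⟨4, 2, []⟩, ⟨16, 2, []⟩], [3, 3, 3], 1, [(20, 1)]⟩,
⟨1, [⟨10, 2, []⟩, ⟨32, 2, []⟩], [3, 3, 3], 1, [(34, 1), (40, 1)]⟩,
⟨1, [⟨2, 3, []⟩, ⟨4, 3, []⟩], [3, 3], 1, [(6, 1)]⟩,
⟨1, [⟨8, 2, []⟩, ⟨17, 2, []⟩], [3, 3, 3], 1, [(9, 1), (24, 1)]⟩,
⟨1, [⟨10, 2, []⟩, ⟨16, 2, []⟩], [3, 3, 3], 1, [(18, 1), (24, 1)]⟩,
⟨2, [⟨12, 3, []⟩, ⟨64, 3, []⟩], [3, 3], 1, [(68, 1), (72, 1)]⟩,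
⟨1, [⟨2, 2, []⟩, ⟨16, 2, []⟩], [3, 3, 3], 1, [(18, 1)]⟩,
⟨0, [⟨12, 2, []⟩, ⟨2, 2, []⟩], [3, 3, 3], 1, [(6, 1), (10, 1)]⟩,
⟨1, [⟨17, 2, []⟩, ⟨4, 2, []⟩], [3, 3, 3], 1, [(5, 1), (20, 1)]⟩,
⟨2, [⟨33, 4, []⟩, ⟨2, 2, []⟩], [3, 2, 2], 1, [(3, 1), (34, 1)]⟩,
⟨2, [⟨4, 3, []⟩, ⟨32, 3, []⟩], [3, 3], 1, [(36, 1)]⟩,
⟨1, [⟨12, 2, []⟩, ⟨16, 2, []⟩], [3, 3, 3], 1, [(20, 1), (24, 1)]⟩,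
⟨2, [⟨8, 3, []⟩, ⟨32, 3, []⟩], [3, 3], 1, [(40, 1)]⟩,
⟨0, [⟨1, 2, []⟩, ⟨2, 2, []⟩], [3, 3, 3], 1, [(3, 1)]⟩,
⟨0, [⟨3, 2, []⟩, ⟨4, 2, []⟩], [3, 3, 3], 1, [(5, 1), (6, 1)]⟩,
⟨2, [⟨17, 4, []⟩, ⟨2, 2, []⟩], [3, 2, 2], 1, [(3, 1), (18, 1)]⟩,
⟨0, [⟨2, 4, []⟩, ⟨4, 2, []⟩], [3, 2, 2], 1, [(6, 1)]⟩,
⟨2, [⟨48, 3, []⟩, ⟨64, 3, []⟩], [3, 3], 1, [(80, 1), (96, 1)]⟩,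
⟨0, [⟨2, 2, []⟩, ⟨36, 2, []⟩], [3, 3, 3], 1, [(6, 1), (34, 1)]⟩,
⟨2, [⟨17, 3, []⟩, ⟨2, 3, []⟩], [3, 3], 1, [(3, 1), (18, 1)]⟩,
⟨0, [⟨8, 2, []⟩, ⟨32, 2, []⟩], [3, 3, 3], 1, [(40, 1)]⟩,
⟨0, [⟨17, 2, []⟩, ⟨64, 2, []⟩], [3, 3, 3], 1, [(65, 1), (80, 1)]⟩,
⟨1, [⟨34, 2, []⟩, ⟨20, 2, []⟩], [3, 3, 3], 1, [(6, 1), (18, 1), (36, 1), (48, 1)]⟩,
⟨1, [⟨32, 4, []⟩, ⟨64, 2, []⟩], [3, 2, 2], 1, [(96, 1)]⟩,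
⟨1, [⟨5, 2, []⟩, ⟨64, 2, []⟩], [3, 3, 3], 1, [(65, 1), (68, 1)]⟩,
⟨1, [⟨34, 2, []⟩, ⟨8, 2, []⟩], [3, 3, 3], 1, [(10, 1), (40, 1)]⟩,
⟨0, [⟨34, 2, []⟩, ⟨64, 2, []⟩], [3, 3, 3], 1, [(66, 1), (96, 1)]⟩,
⟨2, [⟨16, 2, []⟩, ⟨2, 4, []⟩], [3, 1, 1], 1, [(18, 1)]⟩,
⟨2, [⟨16, 4, []⟩, ⟨32, 2, []⟩], [3, 2, 2], 1, [(48, 1)]⟩,
⟨1, [⟨36, 2, []⟩, ⟨1, 2, []⟩], [3, 3, 3], 1, [(5, 1), (33, 1)]⟩,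
⟨1, [⟨32, 2, []⟩, ⟨64, 2, []⟩], [3, 3, 3], 1, [(96, 1)]⟩,
⟨0, [⟨72, 2, []⟩, ⟨16, 2, []⟩], [3, 3, 3], 1, [(24, 1), (80, 1)]⟩,
⟨0, [⟨16, 2, []⟩, ⟨34, 2, []⟩], [3, 3, 3], 1, [(18, 1), (48, 1)]⟩,
⟨2, [⟨12, 3, []⟩, ⟨16, 3, []⟩], [3, 3], 1, [(20, 1), (24, 1)]⟩,
⟨1, [⟨20, 2, []⟩, ⟨1, 2, []⟩], [3, 3, 3], 1, [(5, 1), (17, 1)]⟩,
⟨0, [⟨80, 2, []⟩, ⟨2, 2, []⟩], [3, 3, 3], 1, [(18, 1), (66, 1)]⟩,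
⟨1, [⟨40, 2, []⟩, ⟨2, 2, []⟩], [3, 3, 3], 1, [(10, 1), (34, 1)]⟩,
⟨0, [⟨12, 2, []⟩, ⟨64, 2, []⟩], [3, 3, 3], 1, [(68, 1), (72, 1)]⟩,
⟨0, [⟨1, 2, []⟩, ⟨12, 2, []⟩], [3, 3, 3], 1, [(5, 1), (9, 1)]⟩,
⟨1, [⟨32, 2, []⟩, ⟨20, 2, []⟩], [3, 3, 3], 1, [(36, 1), (48, 1)]⟩,
⟨0, [⟨32, 2, []⟩, ⟨18, 2, []⟩], [3, 3, 3], 1, [(34, 1), (48, 1)]⟩,
⟨1, [⟨12, 2, []⟩, ⟨64, 2, []⟩], [3, 3, 3], 1, [(68, 1), (72, 1)]⟩,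
⟨0, [⟨16, 2, []⟩, ⟨96, 2, []⟩], [3, 3, 3], 1, [(48, 1), (80, 1)]⟩,
⟨0, [⟨68, 2, []⟩, ⟨32, 2, []⟩], [3, 3, 3], 1, [(36, 1), (96, 1)]⟩,
⟨2, [⟨1, 3, []⟩, ⟨64, 3, []⟩], [3, 3], 1, [(65, 1)]⟩,
⟨1, [⟨2, 4, []⟩, ⟨4, 2, []⟩], [3, 2, 2], 1, [(6, 1)]⟩,
⟨2, [⟨10, 4, []⟩, ⟨32, 2, []⟩], [3, 2, 2], 1, [(34, 1), (40, 1)]⟩,
⟨1, [⟨72, 2, []⟩, ⟨32, 2, []⟩], [3, 3, 3], 1, [(40, 1), (96, 1)]⟩,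
⟨2, [⟨40, 3, []⟩, ⟨64, 3, []⟩], [3, 3], 1, [(72, 1), (96, 1)]⟩,
⟨1, [⟨48, 2, []⟩, ⟨4, 2, []⟩], [3, 3, 3], 1, [(20, 1), (36, 1)]⟩,
⟨0, [⟨8, 2, []⟩, ⟨16, 2, []⟩], [3, 3, 3], 1, [(24, 1)]⟩,
⟨2, [⟨32, 2, []⟩, ⟨3, 4, []⟩], [3, 1, 1], 1, [(33, 1), (34, 1)]⟩,
⟨2, [⟨16, 3, []⟩, ⟨6, 3, []⟩], [3, 3], 1, [(18, 1), (20, 1)]⟩,
⟨1, [⟨8, 2, []⟩, ⟨33, 2, []⟩], [3, 3, 3], 1, [(9, 1), (40, 1)]⟩,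
⟨2, [⟨2, 3, []⟩, ⟨32, 3, []⟩], [3, 3], 1, [(34, 1)]⟩,
⟨0, [⟨2, 3, []⟩, ⟨4, 3, []⟩], [3, 3], 1, [(6, 1)]⟩,
⟨2, [⟨33, 3, []⟩, ⟨64, 3, []⟩], [3, 3], 1, [(65, 1), (96, 1)]⟩,
⟨2, [⟨2, 3, []⟩, ⟨16, 3, []⟩], [3, 3], 1, [(18, 1)]⟩,
⟨1, [⟨20, 2, []⟩, ⟨8, 2, []⟩], [3, 3, 3], 1, [(12, 1), (24, 1)]⟩,
⟨2, [⟨32, 3, []⟩, ⟨1, 3, []⟩], [3, 3], 1, [(33, 1)]⟩,
⟨1, [⟨10, 2, []⟩, ⟨64, 2, []⟩], [3, 3, 3], 1, [(66, 1), (72, 1)]⟩,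
⟨1, [⟨4, 2, []⟩, ⟨64, 2, []⟩], [3, 3, 3], 1, [(68, 1)]⟩,
⟨1, [⟨6, 2, []⟩, ⟨16, 2, []⟩], [3, 3, 3], 1, [(18, 1), (20, 1)]⟩,
⟨0, [⟨24, 2, []⟩, ⟨4, 2, []⟩], [3, 3, 3], 1, [(12, 1), (20, 1)]⟩,
⟨1, [⟨5, 2, []⟩, ⟨32, 2, []⟩], [3, 3, 3], 1, [(33, 1), (36, 1)]⟩,
⟨2, [⟨16, 3, []⟩, ⟨64, 3, []⟩], [3, 3], 1, [(80, 1)]⟩,
⟨2, [⟨34, 3, []⟩, ⟨64, 3, []⟩], [3, 3], 1, [(66, 1), (96, 1)]⟩,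
⟨0, [⟨32, 4, []⟩, ⟨16, 2, []⟩], [3, 2, 2], 1, [(48, 1)]⟩,
⟨0, [⟨33, 2, []⟩, ⟨16, 2, []⟩], [3, 3, 3], 1, [(17, 1), (48, 1)]⟩,
⟨0, [⟨24, 2, []⟩, ⟨64, 2, []⟩], [3, 3, 3], 1, [(72, 1), (80, 1)]⟩,
⟨1, [⟨16, 2, []⟩, ⟨64, 2, []⟩], [3, 3, 3], 1, [(80, 1)]⟩,
⟨1, [⟨4, 2, []⟩, ⟨18, 2, []⟩], [3, 3, 3], 1, [(6, 1), (20, 1)]⟩,
⟨1, [⟨72, 2, []⟩, ⟨16, 2, []⟩], [3, 3, 3], 1, [(24, 1), (80, 1)]⟩,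
⟨2, [⟨8, 2, []⟩, ⟨64, 4, []⟩], [3, 1, 1], 1, [(72, 1)]⟩,
⟨1, [⟨10, 2, []⟩, ⟨4, 2, []⟩], [3, 3, 3], 1, [(6, 1), (12, 1)]⟩,
⟨0, [⟨20, 2, []⟩, ⟨64, 2, []⟩], [3, 3, 3], 1, [(68, 1), (80, 1)]⟩,
⟨1, [⟨16, 3, []⟩, ⟨32, 3, []⟩], [3, 3], 1, [(48, 1)]⟩,
⟨0, [⟨36, 2, []⟩, ⟨64, 2, []⟩], [3, 3, 3], 1, [(68, 1), (96, 1)]⟩,
⟨1, [⟨24, 2, []⟩, ⟨4, 2, []⟩], [3, 3, 3], 1, [(12, 1), (20, 1)]⟩,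
⟨1, [⟨5, 2, []⟩, ⟨2, 2, []⟩], [3, 3, 3], 1, [(3, 1), (6, 1)]⟩,
⟨2, [⟨10, 3, []⟩, ⟨16, 3, []⟩], [3, 3], 1, [(18, 1), (24, 1)]⟩,
⟨1, [⟨12, 2, []⟩, ⟨32, 2, []⟩], [3, 3, 3], 1, [(36, 1), (40, 1)]⟩,
⟨2, [⟨3, 3, []⟩, ⟨64, 3, []⟩], [3, 3], 1, [(65, 1), (66, 1)]⟩,
⟨2, [⟨4, 2, []⟩, ⟨24, 4, []⟩], [3, 1, 1], 1, [(12, 1), (20, 1)]⟩,
⟨1, [⟨17, 2, []⟩, ⟨64, 2, []⟩], [3, 3, 3], 1, [(65, 1), (80, 1)]⟩,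
⟨2, [⟨6, 3, []⟩, ⟨64, 3, []⟩], [3, 3], 1, [(66, 1), (68, 1)]⟩,
⟨2, [⟨4, 2, []⟩, ⟨32, 4, []⟩], [3, 1, 1], 1, [(36, 1)]⟩,
⟨0, [⟨65, 2, []⟩, ⟨16, 2, []⟩], [3, 3, 3], 1, [(17, 1), (80, 1)]⟩,
⟨2, [⟨40, 3, []⟩, ⟨4, 3, []⟩], [3, 3], 1, [(12, 1), (36, 1)]⟩,
⟨2, [⟨8, 3, []⟩, ⟨16, 3, []⟩], [3, 3], 1, [(24, 1)]⟩,
⟨0, [⟨12, 2, []⟩, ⟨32, 2, []⟩], [3, 3, 3], 1, [(36, 1), (40, 1)]⟩,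
⟨2, [⟨10, 4, []⟩, ⟨16, 2, []⟩], [3, 2, 2], 1, [(18, 1), (24, 1)]⟩,
⟨1, [⟨80, 2, []⟩, ⟨1, 2, []⟩], [3, 3, 3], 1, [(17, 1), (65, 1)]⟩,
⟨0, [⟨3, 2, []⟩, ⟨64, 2, []⟩], [3, 3, 3], 1, [(65, 1), (66, 1)]⟩,
⟨2, [⟨3, 3, []⟩, ⟨16, 3, []⟩], [3, 3], 1, [(17, 1), (18, 1)]⟩,
⟨1, [⟨2, 4, []⟩, ⟨64, 2, []⟩], [3, 2, 2], 1, [(66, 1)]⟩,
⟨1, [⟨18, 2, []⟩, ⟨1, 2, []⟩], [3, 3, 3], 1, [(3, 1), (17, 1)]⟩,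
⟨2, [⟨2, 4, []⟩, ⟨4, 2, []⟩], [3, 2, 2], 1, [(6, 1)]⟩,
⟨1, [⟨3, 2, []⟩, ⟨16, 2, []⟩], [3, 3, 3], 1, [(17, 1), (18, 1)]⟩,
⟨2, [⟨4, 2, []⟩, ⟨40, 4, []⟩], [3, 1, 1], 1, [(12, 1), (36, 1)]⟩,
⟨2, [⟨2, 2, []⟩, ⟨32, 4, []⟩], [3, 1, 1], 1, [(34, 1)]⟩,
⟨2, [⟨33, 3, []⟩, ⟨2, 3, []⟩], [3, 3], 1, [(3, 1), (34, 1)]⟩,
⟨1, [⟨32, 2, []⟩, ⟨18, 2, []⟩], [3, 3, 3], 1, [(34, 1), (48, 1)]⟩,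
⟨0, [⟨8, 2, []⟩, ⟨33, 2, []⟩], [3, 3, 3], 1, [(9, 1), (40, 1)]⟩,
⟨1, [⟨96, 2, []⟩, ⟨2, 2, []⟩], [3, 3, 3], 1, [(34, 1), (66, 1)]⟩,
⟨0, [⟨40, 2, []⟩, ⟨16, 2, []⟩], [3, 3, 3], 1, [(24, 1), (48, 1)]⟩,
⟨0, [⟨6, 2, []⟩, ⟨48, 2, []⟩], [3, 3, 3], 1, [(18, 1), (20, 1), (34, 1), (36, 1)]⟩,
⟨0, [⟨4, 2, []⟩, ⟨34, 2, []⟩], [3, 3, 3], 1, [(6, 1), (36, 1)]⟩,
⟨2, [⟨5, 3, []⟩, ⟨32, 3, []⟩], [3, 3], 1, [(33, 1), (36, 1)]⟩,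
⟨1, [⟨32, 2, []⟩, ⟨80, 2, []⟩], [3, 3, 3], 1, [(48, 1), (96, 1)]⟩,
⟨1, [⟨40, 2, []⟩, ⟨64, 2, []⟩], [3, 3, 3], 1, [(72, 1), (96, 1)]⟩,
⟨1, [⟨1, 2, []⟩, ⟨64, 2, []⟩], [3, 3, 3], 1, [(65, 1)]⟩,
⟨0, [⟨72, 2, []⟩, ⟨32, 2, []⟩], [3, 3, 3], 1, [(40, 1), (96, 1)]⟩,
⟨2, [⟨2, 2, []⟩, ⟨40, 4, []⟩], [3, 1, 1], 1, [(10, 1), (34, 1)]⟩,
⟨0, [⟨10, 2, []⟩, ⟨16, 2, []⟩], [3, 3, 3], 1, [(18, 1), (24, 1)]⟩,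
⟨1, [⟨48, 2, []⟩, ⟨1, 2, []⟩], [3, 3, 3], 1, [(17, 1), (33, 1)]⟩,
⟨2, [⟨4, 3, []⟩, ⟨64, 3, []⟩], [3, 3], 1, [(68, 1)]⟩,
⟨1, [⟨3, 2, []⟩, ⟨4, 2, []⟩], [3, 3, 3], 1, [(5, 1), (6, 1)]⟩,
⟨0, [⟨3, 2, []⟩, ⟨16, 2, []⟩], [3, 3, 3], 1, [(17, 1), (18, 1)]⟩,
⟨2, [⟨1, 3, []⟩, ⟨2, 3, []⟩], [3, 3], 1, [(3, 1)]⟩,
⟨0, [⟨4, 2, []⟩, ⟨64, 2, []⟩], [3, 3, 3], 1, [(68, 1)]⟩,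
⟨0, [⟨18, 2, []⟩, ⟨64, 2, []⟩], [3, 3, 3], 1, [(66, 1), (80, 1)]⟩,
⟨1, [⟨33, 2, []⟩, ⟨2, 2, []⟩], [3, 3, 3], 1, [(3, 1), (34, 1)]⟩,
⟨0, [⟨80, 2, []⟩, ⟨4, 2, []⟩], [3, 3, 3], 1, [(20, 1), (68, 1)]⟩,
⟨1, [⟨8, 2, []⟩, ⟨64, 2, []⟩], [3, 3, 3], 1, [(72, 1)]⟩,
⟨0, [⟨5, 2, []⟩, ⟨32, 2, []⟩], [3, 3, 3], 1, [(33, 1), (36, 1)]⟩,
⟨2, [⟨24, 3, []⟩, ⟨2, 3, []⟩], [3, 3], 1, [(10, 1), (18, 1)]⟩,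
⟨1, [⟨33, 2, []⟩, ⟨4, 2, []⟩], [3, 3, 3], 1, [(5, 1), (36, 1)]⟩,
⟨0, [⟨6, 2, []⟩, ⟨64, 2, []⟩], [3, 3, 3], 1, [(66, 1), (68, 1)]⟩,
⟨0, [⟨10, 2, []⟩, ⟨4, 2, []⟩], [3, 3, 3], 1, [(6, 1), (12, 1)]⟩,
⟨0, [⟨34, 2, []⟩, ⟨8, 2, []⟩], [3, 3, 3], 1, [(10, 1), (40, 1)]⟩,
⟨0, [⟨17, 2, []⟩, ⟨32, 2, []⟩], [3, 3, 3], 1, [(33, 1), (48, 1)]⟩,
⟨1, [⟨4, 2, []⟩, ⟨66, 2, []⟩], [3, 3, 3], 1, [(6, 1), (68, 1)]⟩,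
⟨2, [⟨5, 3, []⟩, ⟨16, 3, []⟩], [3, 3], 1, [(17, 1), (20, 1)]⟩,
⟨1, [⟨66, 2, []⟩, ⟨32, 2, []⟩], [3, 3, 3], 1, [(34, 1), (96, 1)]⟩,
⟨2, [⟨24, 3, []⟩, ⟨4, 3, []⟩], [3, 3], 1, [(12, 1), (20, 1)]⟩,
⟨1, [⟨33, 2, []⟩, ⟨64, 2, []⟩], [3, 3, 3], 1, [(65, 1), (96, 1)]⟩,
⟨1, [⟨4, 2, []⟩, ⟨34, 2, []⟩], [3, 3, 3], 1, [(6, 1), (36, 1)]⟩,
⟨0, [⟨16, 3, []⟩, ⟨32, 3, []⟩], [3, 3], 1, [(48, 1)]⟩,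
⟨1, [⟨96, 2, []⟩, ⟨4, 2, []⟩], [3, 3, 3], 1, [(36, 1), (68, 1)]⟩,
⟨1, [⟨68, 2, []⟩, ⟨16, 2, []⟩], [3, 3, 3], 1, [(20, 1), (80, 1)]⟩,
⟨1, [⟨2, 2, []⟩, ⟨68, 2, []⟩], [3, 3, 3], 1, [(6, 1), (66, 1)]⟩,
⟨2, [⟨40, 3, []⟩, ⟨2, 3, []⟩], [3, 3], 1, [(10, 1), (34, 1)]⟩,
⟨0, [⟨65, 2, []⟩, ⟨32, 2, []⟩], [3, 3, 3], 1, [(33, 1), (96, 1)]⟩,
⟨2, [⟨16, 2, []⟩, ⟨5, 4, []⟩], [3, 1, 1], 1, [(17, 1), (20, 1)]⟩,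
⟨0, [⟨2, 2, []⟩, ⟨32, 2, []⟩], [3, 3, 3], 1, [(34, 1)]⟩,
⟨1, [⟨18, 2, []⟩, ⟨8, 2, []⟩], [3, 3, 3], 1, [(10, 1), (24, 1)]⟩,
⟨0, [⟨4, 4, []⟩, ⟨2, 2, []⟩], [3, 2, 2], 1, [(6, 1)]⟩,
⟨2, [⟨12, 3, []⟩, ⟨32, 3, []⟩], [3, 3], 1, [(36, 1), (40, 1)]⟩,
⟨0, [⟨17, 2, []⟩, ⟨2, 2, []⟩], [3, 3, 3], 1, [(3, 1), (18, 1)]⟩,
⟨2, [⟨16, 3, []⟩, ⟨32, 3, []⟩], [3, 3], 1, [(48, 1)]⟩,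
⟨0, [⟨40, 2, []⟩, ⟨4, 2, []⟩], [3, 3, 3], 1, [(12, 1), (36, 1)]⟩,
⟨2, [⟨16, 2, []⟩, ⟨3, 4, []⟩], [3, 1, 1], 1, [(17, 1), (18, 1)]⟩,
⟨2, [⟨2, 3, []⟩, ⟨64, 3, []⟩], [3, 3], 1, [(66, 1)]⟩,
⟨2, [⟨2, 3, []⟩, ⟨4, 3, []⟩], [3, 3], 1, [(6, 1)]⟩,
⟨0, [⟨12, 2, []⟩, ⟨16, 2, []⟩], [3, 3, 3], 1, [(20, 1), (24, 1)]⟩,
⟨0, [⟨66, 2, []⟩, ⟨16, 2, []⟩], [3, 3, 3], 1, [(18, 1), (80, 1)]⟩,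
⟨0, [⟨32, 2, []⟩, ⟨64, 2, []⟩], [3, 3, 3], 1, [(96, 1)]⟩,
⟨1, [⟨5, 2, []⟩, ⟨16, 2, []⟩], [3, 3, 3], 1, [(17, 1), (20, 1)]⟩,
⟨2, [⟨10, 3, []⟩, ⟨32, 3, []⟩], [3, 3], 1, [(34, 1), (40, 1)]⟩,
⟨2, [⟨32, 3, []⟩, ⟨64, 3, []⟩], [3, 3], 1, [(96, 1)]⟩,
⟨0, [⟨4, 2, []⟩, ⟨16, 2, []⟩], [3, 3, 3], 1, [(20, 1)]⟩,
⟨2, [⟨10, 3, []⟩, ⟨64, 3, []⟩], [3, 3], 1, [(66, 1), (72, 1)]⟩,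
⟨0, [⟨80, 2, []⟩, ⟨1, 2, []⟩], [3, 3, 3], 1, [(17, 1), (65, 1)]⟩,
⟨0, [⟨5, 2, []⟩, ⟨2, 2, []⟩], [3, 3, 3], 1, [(3, 1), (6, 1)]⟩,
⟨1, [⟨6, 2, []⟩, ⟨64, 2, []⟩], [3, 3, 3], 1, [(66, 1), (68, 1)]⟩,
⟨0, [⟨4, 2, []⟩, ⟨32, 2, []⟩], [3, 3, 3], 1, [(36, 1)]⟩,
⟨0, [⟨1, 2, []⟩, ⟨64, 2, []⟩], [3, 3, 3], 1, [(65, 1)]⟩,
⟨2, [⟨4, 3, []⟩, ⟨16, 3, []⟩], [3, 3], 1, [(20, 1)]⟩,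
⟨0, [⟨4, 2, []⟩, ⟨18, 2, []⟩], [3, 3, 3], 1, [(6, 1), (20, 1)]⟩,
⟨2, [⟨3, 3, []⟩, ⟨32, 3, []⟩], [3, 3], 1, [(33, 1), (34, 1)]⟩,
⟨1, [⟨48, 2, []⟩, ⟨64, 2, []⟩], [3, 3, 3], 1, [(80, 1), (96, 1)]⟩,
⟨2, [⟨16, 3, []⟩, ⟨1, 3, []⟩], [3, 3], 1, [(17, 1)]⟩,
⟨1, [⟨24, 2, []⟩, ⟨64, 2, []⟩], [3, 3, 3], 1, [(72, 1), (80, 1)]⟩,
⟨1, [⟨16, 4, []⟩, ⟨64, 2, []⟩], [3, 2, 2], 1, [(80, 1)]⟩,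
⟨2, [⟨32, 3, []⟩, ⟨6, 3, []⟩], [3, 3], 1, [(34, 1), (36, 1)]⟩,
⟨0, [⟨3, 2, []⟩, ⟨32, 2, []⟩], [3, 3, 3], 1, [(33, 1), (34, 1)]⟩,
⟨0, [⟨48, 2, []⟩, ⟨2, 2, []⟩], [3, 3, 3], 1, [(18, 1), (34, 1)]⟩,
⟨1, [⟨4, 2, []⟩, ⟨32, 2, []⟩], [3, 3, 3], 1, [(36, 1)]⟩,
⟨2, [⟨32, 2, []⟩, ⟨5, 4, []⟩], [3, 1, 1], 1, [(33, 1), (36, 1)]⟩,
⟨1, [⟨6, 2, []⟩, ⟨32, 2, []⟩], [3, 3, 3], 1, [(34, 1), (36, 1)]⟩,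
⟨1, [⟨16, 4, []⟩, ⟨32, 2, []⟩], [3, 2, 2], 1, [(48, 1)]⟩,
⟨0, [⟨1, 2, []⟩, ⟨10, 2, []⟩], [3, 3, 3], 1, [(3, 1), (9, 1)]⟩,
⟨0, [⟨40, 2, []⟩, ⟨64, 2, []⟩], [3, 3, 3], 1, [(72, 1), (96, 1)]⟩,
⟨0, [⟨33, 2, []⟩, ⟨64, 2, []⟩], [3, 3, 3], 1, [(65, 1), (96, 1)]⟩,
⟨2, [⟨24, 3, []⟩, ⟨64, 3, []⟩], [3, 3], 1, [(72, 1), (80, 1)]⟩,
⟨2, [⟨1, 2, []⟩, ⟨2, 4, []⟩], [3, 1, 1], 1, [(3, 1)]⟩,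
⟨1, [⟨2, 2, []⟩, ⟨20, 2, []⟩], [3, 3, 3], 1, [(6, 1), (18, 1)]⟩,
⟨1, [⟨20, 2, []⟩, ⟨64, 2, []⟩], [3, 3, 3], 1, [(68, 1), (80, 1)]⟩,
⟨0, [⟨33, 2, []⟩, ⟨2, 2, []⟩], [3, 3, 3], 1, [(3, 1), (34, 1)]⟩,
⟨0, [⟨2, 2, []⟩, ⟨64, 2, []⟩], [3, 3, 3], 1, [(66, 1)]⟩,
⟨1, [⟨2, 2, []⟩, ⟨64, 2, []⟩], [3, 3, 3], 1, [(66, 1)]⟩,
⟨1, [⟨17, 2, []⟩, ⟨32, 2, []⟩], [3, 3, 3], 1, [(33, 1), (48, 1)]⟩,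
⟨2, [⟨2, 2, []⟩, ⟨24, 4, []⟩], [3, 1, 1], 1, [(10, 1), (18, 1)]⟩,
⟨1, [⟨8, 2, []⟩, ⟨16, 2, []⟩], [3, 3, 3], 1, [(24, 1)]⟩,
⟨0, [⟨32, 2, []⟩, ⟨20, 2, []⟩], [3, 3, 3], 1, [(36, 1), (48, 1)]⟩,
⟨1, [⟨34, 2, []⟩, ⟨64, 2, []⟩], [3, 3, 3], 1, [(66, 1), (96, 1)]⟩,
⟨1, [⟨36, 2, []⟩, ⟨8, 2, []⟩], [3, 3, 3], 1, [(12, 1), (40, 1)]⟩,
⟨0, [⟨24, 2, []⟩, ⟨32, 2, []⟩], [3, 3, 3], 1, [(40, 1), (48, 1)]⟩,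
⟨1, [⟨24, 2, []⟩, ⟨32, 2, []⟩], [3, 3, 3], 1, [(40, 1), (48, 1)]⟩,
⟨2, [⟨12, 4, []⟩, ⟨32, 2, []⟩], [3, 2, 2], 1, [(36, 1), (40, 1)]⟩,
⟨1, [⟨1, 2, []⟩, ⟨12, 2, []⟩], [3, 3, 3], 1, [(5, 1), (9, 1)]⟩,
⟨1, [⟨96, 2, []⟩, ⟨1, 2, []⟩], [3, 3, 3], 1, [(33, 1), (65, 1)]⟩,
⟨0, [⟨6, 2, []⟩, ⟨16, 2, []⟩], [3, 3, 3], 1, [(18, 1), (20, 1)]⟩,
⟨1, [⟨40, 2, []⟩, ⟨4, 2, []⟩], [3, 3, 3], 1, [(12, 1), (36, 1)]⟩,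
⟨2, [⟨33, 4, []⟩, ⟨4, 2, []⟩], [3, 2, 2], 1, [(5, 1), (36, 1)]⟩,
⟨1, [⟨40, 2, []⟩, ⟨16, 2, []⟩], [3, 3, 3], 1, [(24, 1), (48, 1)]⟩,
⟨0, [⟨1, 2, []⟩, ⟨4, 2, []⟩], [3, 3, 3], 1, [(5, 1)]⟩,
⟨0, [⟨33, 2, []⟩, ⟨4, 2, []⟩], [3, 3, 3], 1, [(5, 1), (36, 1)]⟩,
⟨0, [⟨2, 2, []⟩, ⟨68, 2, []⟩], [3, 3, 3], 1, [(6, 1), (66, 1)]⟩,
⟨0, [⟨16, 2, []⟩, ⟨36, 2, []⟩], [3, 3, 3], 1, [(20, 1), (48, 1)]⟩,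
⟨1, [⟨34, 2, []⟩, ⟨1, 2, []⟩], [3, 3, 3], 1, [(3, 1), (33, 1)]⟩,
⟨0, [⟨10, 2, []⟩, ⟨64, 2, []⟩], [3, 3, 3], 1, [(66, 1), (72, 1)]⟩,
⟨2, [⟨36, 3, []⟩, ⟨64, 3, []⟩], [3, 3], 1, [(68, 1), (96, 1)]⟩,
⟨2, [⟨8, 2, []⟩, ⟨32, 4, []⟩], [3, 1, 1], 1, [(40, 1)]⟩,
⟨1, [⟨3, 2, []⟩, ⟨32, 2, []⟩], [3, 3, 3], 1, [(33, 1), (34, 1)]⟩,
⟨2, [⟨16, 2, []⟩, ⟨4, 4, []⟩], [3, 1, 1], 1, [(20, 1)]⟩,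
⟨0, [⟨8, 2, []⟩, ⟨17, 2, []⟩], [3, 3, 3], 1, [(9, 1), (24, 1)]⟩,
⟨1, [⟨2, 2, []⟩, ⟨36, 2, []⟩], [3, 3, 3], 1, [(6, 1), (34, 1)]⟩,
⟨0, [⟨36, 2, []⟩, ⟨1, 2, []⟩], [3, 3, 3], 1, [(5, 1), (33, 1)]⟩,
⟨0, [⟨5, 2, []⟩, ⟨16, 2, []⟩], [3, 3, 3], 1, [(17, 1), (20, 1)]⟩,
⟨0, [⟨16, 4, []⟩, ⟨32, 2, []⟩], [3, 2, 2], 1, [(48, 1)]⟩,
⟨2, [⟨20, 3, []⟩, ⟨64, 3, []⟩], [3, 3], 1, [(68, 1), (80, 1)]⟩,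
⟨2, [⟨1, 3, []⟩, ⟨4, 3, []⟩], [3, 3], 1, [(5, 1)]⟩,
⟨1, [⟨36, 2, []⟩, ⟨64, 2, []⟩], [3, 3, 3], 1, [(68, 1), (96, 1)]⟩,
⟨2, [⟨4, 3, []⟩, ⟨8, 3, []⟩], [3, 3], 1, [(12, 1)]⟩,
⟨2, [⟨33, 3, []⟩, ⟨4, 3, []⟩], [3, 3], 1, [(5, 1), (36, 1)]⟩,
⟨0, [⟨34, 2, []⟩, ⟨1, 2, []⟩], [3, 3, 3], 1, [(3, 1), (33, 1)]⟩,
⟨2, [⟨12, 4, []⟩, ⟨16, 2, []⟩], [3, 2, 2], 1, [(20, 1), (24, 1)]⟩,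
⟨1, [⟨80, 2, []⟩, ⟨2, 2, []⟩], [3, 3, 3], 1, [(18, 1), (66, 1)]⟩,
⟨1, [⟨1, 2, []⟩, ⟨10, 2, []⟩], [3, 3, 3], 1, [(3, 1), (9, 1)]⟩,
⟨0, [⟨65, 2, []⟩, ⟨4, 2, []⟩], [3, 3, 3], 1, [(5, 1), (68, 1)]⟩,
⟨1, [⟨24, 2, []⟩, ⟨2, 2, []⟩], [3, 3, 3], 1, [(10, 1), (18, 1)]⟩,
⟨0, [⟨17, 2, []⟩, ⟨4, 2, []⟩], [3, 3, 3], 1, [(5, 1), (20, 1)]⟩,
⟨0, [⟨16, 2, []⟩, ⟨64, 2, []⟩], [3, 3, 3], 1, [(80, 1)]⟩,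
⟨0, [⟨18, 2, []⟩, ⟨1, 2, []⟩], [3, 3, 3], 1, [(3, 1), (17, 1)]⟩,
⟨2, [⟨17, 4, []⟩, ⟨4, 2, []⟩], [3, 2, 2], 1, [(5, 1), (20, 1)]⟩,
⟨0, [⟨48, 2, []⟩, ⟨64, 2, []⟩], [3, 3, 3], 1, [(80, 1), (96, 1)]⟩,
⟨1, [⟨68, 2, []⟩, ⟨32, 2, []⟩], [3, 3, 3], 1, [(36, 1), (96, 1)]⟩,
⟨1, [⟨17, 2, []⟩, ⟨2, 2, []⟩], [3, 3, 3], 1, [(3, 1), (18, 1)]⟩,
⟨0, [⟨65, 2, []⟩, ⟨2, 2, []⟩], [3, 3, 3], 1, [(3, 1), (66, 1)]⟩,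
⟨1, [⟨4, 4, []⟩, ⟨64, 2, []⟩], [3, 2, 2], 1, [(68, 1)]⟩,
⟨0, [⟨9, 2, []⟩, ⟨32, 2, []⟩], [3, 3, 3], 1, [(33, 1), (40, 1)]⟩,
⟨1, [⟨6, 2, []⟩, ⟨48, 2, []⟩], [3, 3, 3], 1, [(18, 1), (20, 1), (34, 1), (36, 1)]⟩,
⟨0, [⟨10, 2, []⟩, ⟨32, 2, []⟩], [3, 3, 3], 1, [(34, 1), (40, 1)]⟩,
⟨0, [⟨48, 2, []⟩, ⟨4, 2, []⟩], [3, 3, 3], 1, [(20, 1), (36, 1)]⟩,
⟨1, [⟨18, 2, []⟩, ⟨64, 2, []⟩], [3, 3, 3], 1, [(66, 1), (80, 1)]⟩,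
⟨0, [⟨5, 2, []⟩, ⟨64, 2, []⟩], [3, 3, 3], 1, [(65, 1), (68, 1)]⟩,
⟨2, [⟨8, 2, []⟩, ⟨16, 4, []⟩], [3, 1, 1], 1, [(24, 1)]⟩,
⟨0, [⟨20, 2, []⟩, ⟨8, 2, []⟩], [3, 3, 3], 1, [(12, 1), (24, 1)]⟩,
⟨1, [⟨8, 2, []⟩, ⟨32, 2, []⟩], [3, 3, 3], 1, [(40, 1)]⟩,
⟨1, [⟨2, 2, []⟩, ⟨32, 2, []⟩], [3, 3, 3], 1, [(34, 1)]⟩,
⟨2, [⟨32, 4, []⟩, ⟨16, 2, []⟩], [3, 2, 2], 1, [(48, 1)]⟩,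
⟨0, [⟨68, 2, []⟩, ⟨16, 2, []⟩], [3, 3, 3], 1, [(20, 1), (80, 1)]⟩,
⟨2, [⟨17, 3, []⟩, ⟨64, 3, []⟩], [3, 3], 1, [(65, 1), (80, 1)]⟩,
⟨1, [⟨16, 2, []⟩, ⟨36, 2, []⟩], [3, 3, 3], 1, [(20, 1), (48, 1)]⟩,
⟨2, [⟨5, 3, []⟩, ⟨64, 3, []⟩], [3, 3], 1, [(65, 1), (68, 1)]⟩,
⟨1, [⟨16, 2, []⟩, ⟨96, 2, []⟩], [3, 3, 3], 1, [(48, 1), (80, 1)]⟩,
⟨0, [⟨2, 2, []⟩, ⟨16, 2, []⟩], [3, 3, 3], 1, [(18, 1)]⟩,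
⟨2, [⟨18, 3, []⟩, ⟨64, 3, []⟩], [3, 3], 1, [(66, 1), (80, 1)]⟩,
⟨1, [⟨66, 2, []⟩, ⟨16, 2, []⟩], [3, 3, 3], 1, [(18, 1), (80, 1)]⟩,
⟨2, [⟨4, 4, []⟩, ⟨2, 2, []⟩], [3, 2, 2], 1, [(6, 1)]⟩,
⟨0, [⟨66, 2, []⟩, ⟨32, 2, []⟩], [3, 3, 3], 1, [(34, 1), (96, 1)]⟩]

theorem base_ok : base.all (fun q => q.ok 7 3 [7, 56, 9] big4 big4 []) = true := by decide +kernel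

theorem gads_ok : gads.all (fun g => Nat.blt g.j 3 && g.ok 7 (([0, 0, 2] : List ℕ).getD g.j 0)) = true := by
  decide +kernel

theorem cmp_ok : cmpR names cnf (cls 3 base ++ gads.map Gt.cl) = true := by decide +kernel

end D78

theorem inst_78 : instB 1 [0, 0, 2] [9] [] D78.base D78.gads D78.names D78.cnf D78.db D78.prf = true :=
  instB_of D78.base_ok D78.gads_ok (by decide +kernel) D78.okc D78.cmp_ok D78.chk_ok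

/-- no gadget has fewer than `2 R` new points. -/
theorem p2_78 : D78.gads.all (fun g => Nat.ble (2 * g.R) g.gs.length) = true := by decide +kernel

/-- there is no configuration of this instance. -/
theorem no_78 {V : Type v} [DecidableEq V] {ι : Type u} [Fintype ι] {B : ι → Finset V}
    {Q : Finset V} {i j : ι} {x : ℕ → V} {D : ℕ → Finset V}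
    (h : CfI B Q 1 x D i j [0, 0, 2] [9]) : False :=
  h.absurd (by decide) srt_nil inst_78

end Pool.Agent.Hyp6
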