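import Pool.Agent.Hyp6.Cseg2
import Pool.Agent.Hyp6.Ins.E80

/-!
# HYP6: instance 80 of the list: n = 1, bounds [0, 0, 2], inner blocks [64]

967 base clauses, 246 gadgets, 2039 learned clauses.
-/

set_option autoImplicit false
set_option maxRecDepth 100000

namespace Pool.Agent.Hyp6

open Rup

universe u v

namespace D80

noncomputable def base : List Rs := [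
.part [70, 9, 48] [1, 0, 0] [] [],
.lip 1 32 39 7,
.ab2 2 66,
.l2 0 72 96 6 1 1,
.part [99, 20, 8] [1, 0, 0] [] [],
.join 0 4 6 2 2 0 [(2, 0)],
.join 2 4 4 3 3 1 [(2, 1)],
.part [104, 6, 17] [1, 0, 0] [] [],
.le 2 9 1 0 2,
.part [80, 8, 32] [0, 0, 0] [7] [],
.lip 1 12 76 64,
.join 2 4 4 3 3 0 [(2, 0)],
.mono 1 32 34 1,
.mono 0 8 9 1,
.l2 0 10 12 3 1 1,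
.part [9, 64, 18] [0, 0, 0] [] [(1, 36)],
.part [64, 20, 34] [0, 0, 0] [] [(0, 9)],
.part [2, 65, 12] [0, 0, 0] [48] [],
.part [34, 20, 9] [0, 0, 0] [64] [],
.ab 2 2,
.le 2 33 32 5 3,
.join 0 1 6 2 2 1 [(0, 1)],
.mono 2 1 33 1,
.ab2 1 34,
.join 0 1 5 2 1 1 [(0, 0)],
.l2 1 10 34 1 1 1,
.un 0 3,
.part [47, 16, 64] [1, 0, 0] [] [],
.mono 0 4 68 1,
.join 0 2 6 2 2 1 [(1, 1)],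
.l2 0 9 33 0 1 1,
.part [16, 96, 8] [0, 0, 0] [7] [],
.lip 0 72 79 7,
.l2 1 10 12 3 1 1,
.le 2 20 4 2 3,
.ordL 1 66 1,
.l2 1 17 20 4 1 1,
.part [72, 32, 16] [0, 0, 0] [7] [],
.le 1 9 1 0 1,
.mono 1 8 10 1,
.join 2 2 3 3 3 1 [(1, 1)],
.mono 2 4 68 1,
.l2 1 18 20 4 1 1,
.join 1 32 6 2 2 1 [(5, 1)],
.part [1, 66, 4] [0, 0, 0] [56] [],
.lip 1 4 60 56,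
.ordE 0 1 1,
.join 1 4 5 2 1 1 [(2, 0)],
.le 1 65 64 6 2,
.join 2 2 3 3 1 3 [(1, 1)],
.part [9, 64, 34] [0, 0, 0] [] [(1, 20)],
.part [108, 3, 16] [1, 0, 0] [] [],
.join 1 1 5 2 2 0 [(0, 0)],
.l2 0 66 68 6 1 1,
.join 2 1 3 3 0 3 [(0, 0)],
.part [103, 0, 24] [1, 0, 0] [] [],
.join 0 4 3 2 1 1 [(2, 0)],
.ordE 2 64 1,
.part [36, 18, 1] [0, 0, 0] [] [(0, 72)],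
.join 2 2 5 3 3 3 [(1, 3)],
.ordE 0 64 1,
.part [68, 1, 2] [0, 0, 0] [56] [],
.ordE 1 8 1,
.part [72, 16, 36] [0, 0, 0] [3] [],
.lip 0 64 70 7,
.join 2 2 5 3 3 0 [(1, 0)],
.deg 3 [0, 0, 3],
.ab 2 0,
.ab2 1 33,
.le 2 18 2 1 2,
.l2 1 34 36 5 1 1,
.le 0 36 4 2 1,
.lipl 1 18 114 1 96,
.part [10, 36, 1] [0, 0, 0] [] [(1, 80)],
.deg 1 [3, 0, 0],
.join 0 1 6 2 3 0 [(0, 1)],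
.join 0 4 5 2 1 1 [(2, 0)],
.part [33, 12, 16] [0, 0, 0] [] [(0, 66)],
.part [36, 17, 10] [0, 0, 0] [64] [],
.part [5, 66, 32] [0, 0, 0] [24] [],
.mono 1 32 33 1,
.part [65, 18, 4] [0, 0, 0] [40] [],
.deg 6 [2, 0, 1],
.ab 2 5,
.mono 1 16 48 1,
.deg 2 [0, 1, 2],
.l2 1 66 80 6 1 1,
.hall [0, 1] [5, 6],
.part [10, 17, 32] [0, 0, 0] [] [(1, 68)],
.join 1 2 5 2 2 0 [(1, 0)],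
.join 1 1 6 2 2 1 [(0, 1)],
.mono 0 32 36 1,
.ab 0 5,
.join 2 1 3 3 3 3 [(0, 3)],
.le 1 33 1 0 1,
.part [104, 20, 3] [1, 0, 0] [] [],
.un 0 4,
.l2 1 17 33 0 1 1,
.lipl 2 33 105 1 72,
.ordE 2 2 2,
.part [80, 32, 9] [0, 0, 0] [6] [],
.part [2, 68, 33] [0, 0, 0] [24] [],
.hall [2] [0, 2, 6],
.ab2 1 17,
.l2 1 18 34 1 1 1,
.mono 1 16 20 1,
.join 0 32 6 2 1 1 [(5, 0)],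
.part [2, 65, 20] [0, 0, 0] [40] [],
.part [5, 2, 80] [0, 0, 0] [40] [],
.part [20, 65, 2] [0, 0, 0] [40] [],
.part [72, 16, 32] [0, 0, 0] [7] [],
.mono 2 8 72 1,
.lip 1 24 31 7,
.join 1 4 6 2 3 0 [(2, 1)],
.join 2 2 4 3 2 3 [(1, 2)],
.deg 1 [1, 2, 0],
.ordE 0 16 3,
.un 0 2,
.part [59, 64, 4] [1, 0, 0] [] [],
.part [10, 36, 17] [0, 0, 0] [64] [],
.le 2 10 8 3 3,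
.deg 2 [1, 0, 2],
.join 1 4 3 2 1 1 [(2, 0)],
.mono 1 64 66 1,
.l2 0 12 20 2 1 1,
.un 2 6,
.l2 1 33 36 5 1 1,
.join 2 2 3 3 0 3 [(1, 0)],
.join 0 1 5 2 2 0 [(0, 0)],
.part [32, 9, 18] [0, 0, 0] [] [(2, 68)],
.ordE 1 32 3,
.part [17, 36, 2] [0, 0, 0] [] [(0, 72)],
.ab2 0 12,
.part [8, 80, 33] [0, 0, 0] [6] [],
.mono 1 32 36 1,
.ab 0 6,
.part [10, 16, 101] [0, 0, 1] [] [],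
.lip 0 96 102 7,
.part [32, 72, 16] [0, 0, 0] [7] [],
.part [0, 72, 48] [0, 0, 0] [7] [],
.join 2 4 4 3 3 3 [(2, 3)],
.mono 0 64 72 1,
.join 1 16 6 2 1 1 [(4, 0)],
.join 2 2 3 3 2 3 [(1, 2)],
.deg 6 [1, 0, 2],
.part [96, 12, 16] [0, 0, 0] [3] [],
.deg 2 [0, 3, 0],
.part [9, 34, 4] [0, 0, 0] [] [(1, 80)],
.part [5, 58, 64] [0, 1, 0] [] [],
.part [1, 66, 12] [0, 0, 0] [48] [],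
.join 1 1 4 2 0 2 [(0, 0)],
.le 2 33 32 5 1,
.hall [1] [0, 1, 6],
.l2 0 68 72 6 1 1,
.join 2 16 6 4 1 3 [(4, 0)],
.join 2 2 4 3 1 3 [(1, 1)],
.le 2 12 8 3 3,
.deg 4 [1, 0, 2],
.part [79, 0, 48] [1, 0, 0] [] [],
.join 0 2 3 2 1 1 [(1, 0)],
.deg 4 [1, 2, 0],
.un 1 4,
.ab2 1 10,
.part [10, 64, 36] [0, 0, 0] [] [(1, 17)],
.deg 1 [1, 1, 1],
.part [32, 16, 72] [0, 0, 0] [7] [],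
.deg 6 [2, 1, 0],
.part [17, 76, 34] [0, 1, 0] [] [],
.le 1 10 2 1 1,
.le 1 12 8 3 1,
.lip 0 96 103 7,
.lip 1 33 97 64,
.part [64, 1, 62] [0, 0, 1] [] [],
.un 1 5,
.part [20, 98, 9] [0, 1, 0] [] [],
.join 2 4 3 3 3 2 [(2, 2)],
.part [36, 18, 9] [0, 0, 0] [64] [],
.part [5, 2, 72] [0, 0, 0] [48] [],
.mono 1 4 12 1,
.part [68, 2, 1] [0, 0, 0] [56] [],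
.part [12, 64, 34] [0, 0, 0] [] [(1, 17)],
.part [88, 3, 36] [1, 0, 0] [] [],
.part [18, 33, 8] [0, 0, 0] [] [(1, 68)],
.part [16, 33, 10] [0, 0, 0] [] [(2, 68)],
.l2 0 65 96 6 1 1,
.ordE 1 4 3,
.ab2 2 65,
.part [32, 31, 64] [0, 1, 0] [] [],
.join 2 4 6 4 1 3 [(2, 0)],
.hall [0, 1] [4, 5],
.l2 1 72 96 6 1 1,
.part [36, 64, 9] [0, 0, 0] [] [(1, 18)],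
.part [9, 64, 36] [0, 0, 0] [] [(1, 18)],
.mono 0 2 34 1,
.le 1 80 64 6 1,
.le 2 17 1 0 4,
.join 2 4 3 3 3 3 [(2, 3)],
.l2 1 68 96 6 1 1,
.part [20, 9, 34] [0, 0, 0] [64] [],
.part [65, 2, 36] [0, 0, 0] [24] [],
.ab 1 3,
.join 1 2 6 2 2 0 [(1, 0)],
.l2 0 68 80 6 1 1,
.join 2 4 5 3 3 0 [(2, 0)],
.part [33, 10, 20] [0, 0, 0] [64] [],
.hall [1] [3, 5, 6],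
.mono 0 1 9 1,
.ordE 2 16 2,
.part [62, 64, 1] [1, 0, 0] [] [],
.le 0 65 64 6 2,
.hall [0, 1] [3, 5],
.ordE 1 32 2,
.deg 4 [0, 1, 2],
.hall [0] [4, 5, 6],
.part [17, 64, 34] [0, 0, 0] [] [(1, 12)],
.le 2 18 2 1 4,
.l2 0 33 36 5 1 1,
.ordE 0 32 1,
.mono 0 64 96 1,
.part [32, 80, 8] [0, 0, 0] [7] [],
.ordE 1 8 2,
.part [2, 9, 68] [0, 0, 0] [48] [],
.mono 0 32 40 1,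
.ordE 1 32 1,
.part [98, 9, 20] [1, 0, 0] [] [],
.part [12, 33, 2] [0, 0, 0] [] [(1, 80)],
.ab2 1 18,
.part [34, 17, 12] [0, 0, 0] [64] [],
.le 1 20 4 2 1,
.mono 1 1 65 1,
.join 2 4 5 3 3 3 [(2, 3)],
.lip 0 66 114 56,
.le 2 20 16 4 4,
.ab 2 4,
.le 1 72 64 6 2,
.join 2 4 3 3 3 0 [(2, 0)],
.l2 0 66 80 6 1 1,
.part [20, 66, 1] [0, 0, 0] [40] [],
.part [10, 33, 16] [0, 0, 0] [] [(0, 68)],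
.hall [2] [3, 4, 6],
.part [12, 18, 33] [0, 0, 0] [64] [],
.l2 1 68 80 6 1 1,
.hall [0] [3, 4, 6],
.part [1, 34, 68] [0, 0, 0] [24] [],
.part [80, 32, 8] [0, 0, 0] [7] [],
.l2 1 65 72 6 1 1,
.part [1, 66, 20] [0, 0, 0] [40] [],
.join 0 2 5 2 1 1 [(1, 0)],
.mono 2 1 65 1,
.part [64, 5, 58] [0, 0, 1] [] [],
.un 0 0,
.part [18, 12, 33] [0, 0, 0] [64] [],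
.ordE 0 8 2,
.join 1 2 6 2 2 1 [(1, 1)],
.join 1 1 3 2 2 0 [(0, 0)],
.hall [1] [1, 2, 6],
.ordE 2 16 3,
.join 0 2 4 2 1 1 [(1, 0)],
.part [36, 64, 18] [0, 0, 0] [] [(1, 9)],
.part [36, 64, 17] [0, 0, 0] [] [(1, 10)],
.ordE 2 32 2,
.part [1, 68, 2] [0, 0, 0] [56] [],
.part [4, 2, 65] [0, 0, 0] [56] [],
.part [64, 32, 31] [0, 0, 1] [] [],
.deg 2 [2, 1, 0],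
.le 2 20 4 2 2,
.l2 0 20 36 2 1 1,
.hall [1] [4, 5, 6],
.join 1 4 3 2 0 2 [(2, 0)],
.part [16, 9, 34] [0, 0, 0] [] [(2, 68)],
.deg 5 [0, 0, 3],
.deg 3 [1, 2, 0],
.un 1 3,
.part [32, 64, 31] [0, 0, 1] [] [],
.mono 1 4 68 1,
.lip 2 24 31 7,
.join 2 4 4 3 2 3 [(2, 2)],
.join 1 4 6 2 1 1 [(2, 0)],
.le 2 36 32 5 4,
.join 2 2 3 3 3 0 [(1, 0)],
.deg 2 [0, 0, 3],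
.deg 5 [2, 1, 0],
.deg 0 [1, 2, 0],
.join 2 32 6 4 3 1 [(5, 0)],
.l2 1 10 18 1 1 1,
.join 1 1 6 2 2 0 [(0, 0)],
.join 2 4 4 3 1 3 [(2, 1)],
.ordE 0 4 1,
.mono 1 2 18 1,
.mono 0 16 20 1,
.hall [0, 2] [2, 6],
.hall [0, 1, 2] [3],
.lip 0 48 55 7,
.l2 0 33 34 5 1 1,
.part [18, 33, 8] [0, 0, 0] [] [(0, 68)],
.part [0, 65, 6] [0, 0, 0] [56] [],
.join 0 32 6 2 3 0 [(5, 1)],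
.le 2 20 16 4 3,
.part [1, 2, 68] [0, 0, 0] [56] [],
.l2 1 66 68 6 1 1,
.ab2 0 96,
.ab2 2 34,
.le 2 10 2 1 4,
.lipl 1 9 75 1 66,
.join 1 8 6 2 3 0 [(3, 1)],
.part [64, 10, 20] [0, 0, 0] [] [(0, 33)],
.lip 0 4 60 56,
.part [5, 66, 8] [0, 0, 0] [48] [],
.join 1 1 5 2 1 1 [(0, 0)],
.hall [2] [4, 5, 6],
.mono 2 2 34 1,
.part [3, 60, 64] [0, 1, 0] [] [],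
.part [20, 10, 32] [0, 0, 0] [] [(1, 65)],
.ordE 1 16 3,
.le 0 96 64 6 2,
.l2 1 65 68 6 1 1,
.le 1 66 64 6 1,
.le 2 9 1 0 4,
.part [64, 8, 55] [0, 0, 1] [] [],
.part [60, 65, 2] [1, 0, 0] [] [],
.part [9, 36, 18] [0, 0, 0] [64] [],
.deg 4 [0, 2, 1],
.part [64, 6, 57] [0, 0, 1] [] [],
.join 2 1 5 3 3 3 [(0, 3)],
.join 0 4 5 2 0 2 [(2, 0)],
.hall [2] [3, 5, 6],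
.join 0 16 6 2 2 0 [(4, 0)],
.join 0 8 6 2 2 0 [(3, 0)],
.le 1 66 64 6 2,
.part [16, 8, 96] [0, 0, 0] [7] [],
.mono 0 64 80 1,
.join 0 8 6 2 3 0 [(3, 1)],
.part [64, 20, 33] [0, 0, 0] [] [(0, 10)],
.deg 1 [1, 0, 2],
.part [16, 47, 64] [0, 1, 0] [] [],
.part [18, 9, 32] [0, 0, 0] [] [(1, 68)],
.mono 2 4 36 1,
.join 1 1 4 2 1 1 [(0, 0)],
.lip 2 1 57 56,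
.part [20, 64, 34] [0, 0, 0] [] [(1, 9)],
.le 1 65 64 6 1,
.hall [0, 1, 2] [1],
.hall [0, 1] [3, 4],
.part [20, 97, 10] [0, 1, 0] [] [],
.deg 3 [0, 3, 0],
.part [88, 34, 5] [1, 0, 0] [] [],
.join 2 2 6 4 1 3 [(1, 0)],
.deg 3 [1, 1, 1],
.mono 2 8 9 1,
.mono 0 4 20 1,
.deg 6 [0, 0, 3],
.part [1, 62, 64] [0, 1, 0] [] [],
.deg 2 [1, 2, 0],
.lip 1 48 55 7,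
.part [71, 24, 32] [1, 0, 0] [] [],
.ordE 1 16 1,
.mono 1 64 80 1,
.part [4, 18, 105] [0, 0, 1] [] [],
.ab2 1 36,
.lip 1 16 23 7,
.un 0 1,
.ordE 1 1 1,
.le 1 17 16 4 1,
.lip 0 17 81 64,
.part [10, 33, 20] [0, 0, 0] [64] [],
.deg 3 [2, 0, 1],
.l2 0 66 72 6 1 1,
.deg 6 [0, 1, 2],
.l2 0 68 96 6 1 1,
.ab2 0 20,
.join 1 2 6 2 3 0 [(1, 1)],
.le 0 34 32 5 2,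
.deg 4 [2, 1, 0],
.ordE 1 4 1,
.lip 0 6 62 56,
.join 0 1 3 2 1 1 [(0, 0)],
.part [4, 59, 64] [0, 1, 0] [] [],
.le 1 96 64 6 2,
.part [64, 4, 59] [0, 0, 1] [] [],
.l2 1 18 80 4 1 1,
.join 1 2 3 2 2 0 [(1, 0)],
.join 0 4 5 2 2 0 [(2, 0)],
.deg 0 [0, 1, 2],
.part [1, 66, 36] [0, 0, 0] [24] [],
.join 1 2 3 2 1 1 [(1, 0)],
.lipl 0 64 98 0 34,
.part [102, 17, 8] [1, 0, 0] [] [],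
.part [71, 48, 8] [1, 0, 0] [] [],
.lip 1 40 46 7,
.hall [0] [0, 1, 2],
.ab 0 2,
.l2 1 17 80 4 1 1,
.part [20, 34, 8] [0, 0, 0] [] [(0, 65)],
.join 1 4 6 2 2 0 [(2, 0)],
.l2 0 18 34 1 1 1,
.le 2 34 2 1 4,
.le 2 34 32 5 2,
.le 2 36 4 2 2,
.deg 0 [0, 2, 1],
.ab2 2 68,
.lipl 0 20 92 0 72,
.join 0 8 6 2 2 1 [(3, 1)],
.l2 1 66 96 6 1 1,
.join 2 2 5 3 3 1 [(1, 1)],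
.deg 1 [0, 3, 0],
.ab2 2 96,
.join 2 1 3 3 3 0 [(0, 0)],
.part [12, 64, 18] [0, 0, 0] [] [(1, 33)],
.part [24, 39, 64] [0, 1, 0] [] [],
.deg 0 [2, 1, 0],
.part [4, 1, 66] [0, 0, 0] [56] [],
.le 1 34 32 5 1,
.ab 1 1,
.join 2 2 3 3 3 3 [(1, 3)],
.ordE 0 32 2,
.part [64, 34, 12] [0, 0, 0] [] [(0, 17)],
.le 2 20 16 4 2,
.part [4, 66, 17] [0, 0, 0] [40] [],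
.mono 2 1 17 1,
.ab 1 4,
.part [31, 64, 32] [1, 0, 0] [] [],
.lipl 0 18 86 0 68,
.join 1 1 6 2 1 1 [(0, 0)],
.hall [2] [0, 1, 2],
.l2 1 10 66 1 1 1,
.join 2 2 5 3 2 3 [(1, 2)],
.l2 1 72 80 6 1 1,
.deg 2 [0, 2, 1],
.join 2 4 5 3 1 3 [(2, 1)],
.deg 5 [1, 1, 1],
.mono 1 64 72 1,
.ordE 0 2 3,
.ordE 1 64 1,
.part [61, 2, 64] [1, 0, 0] [] [],
.part [2, 68, 17] [0, 0, 0] [40] [],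
.part [48, 15, 64] [0, 1, 0] [] [],
.part [16, 64, 47] [0, 0, 1] [] [],
.ordE 2 32 1,
.part [96, 16, 8] [0, 0, 0] [7] [],
.ab2 1 9,
.join 0 1 4 2 1 1 [(0, 0)],
.part [64, 20, 9] [0, 0, 0] [] [(0, 34)],
.part [36, 18, 64] [0, 0, 0] [] [(2, 9)],
.le 2 10 2 1 3,
.part [68, 2, 33] [0, 0, 0] [24] [],
.part [81, 34, 12] [1, 0, 0] [] [],
.part [9, 20, 34] [0, 0, 0] [64] [],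
.join 2 16 5 4 2 2 [(4, 0)],
.deg 0 [3, 0, 0],
.mono 0 2 66 1,
.ab2 0 18,
.lip 1 64 88 56,
.part [64, 48, 15] [0, 0, 1] [] [],
.join 2 1 6 4 1 3 [(0, 0)],
.part [2, 80, 5] [0, 0, 0] [40] [],
.part [64, 18, 9] [0, 0, 0] [] [(0, 36)],
.le 0 65 64 6 1,
.part [36, 75, 16] [0, 1, 0] [] [],
.part [8, 55, 64] [0, 1, 0] [] [],
.l2 1 65 80 6 1 1,
.ordE 1 4 2,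
.part [4, 10, 33] [0, 0, 0] [] [(1, 80)],
.deg 5 [2, 0, 1],
.part [16, 12, 34] [0, 0, 0] [] [(1, 65)],
.ordE 1 16 2,
.ordE 2 8 1,
.join 1 4 4 2 0 2 [(2, 0)],
.le 1 17 1 0 1,
.le 2 34 32 5 1,
.part [0, 66, 5] [0, 0, 0] [56] [],
.part [64, 34, 9] [0, 0, 0] [] [(0, 20)],
.deg 4 [1, 1, 1],
.mono 0 64 66 1,
.part [120, 5, 2] [1, 0, 0] [] [],
.part [6, 57, 64] [0, 1, 0] [] [],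
.le 1 20 16 4 1,
.join 0 4 6 2 2 1 [(2, 1)],
.lip 1 64 112 56,
.le 2 36 4 2 4,
.join 0 16 6 2 2 1 [(4, 1)],
.le 1 80 64 6 2,
.part [96, 8, 16] [0, 0, 0] [7] [],
.l2 1 20 36 2 1 1,
.part [1, 64, 62] [0, 0, 1] [] [],
.l2 0 10 72 3 1 1,
.l2 1 66 72 6 1 1,
.part [34, 9, 16] [0, 0, 0] [] [(0, 68)],
.part [17, 36, 10] [0, 0, 0] [64] [],
.part [64, 34, 20] [0, 0, 0] [] [(0, 9)],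
.ab 0 4,
.lip 0 40 47 7,
.le 0 34 32 5 1,
.hall [0] [3, 4, 5],
.le 2 34 32 5 3,
.part [120, 6, 1] [1, 0, 0] [] [],
.part [10, 20, 32] [0, 0, 0] [] [(0, 65)],
.lip 1 0 56 56,
.l2 1 10 72 3 1 1,
.ab2 1 72,
.lip 0 24 31 7,
.le 2 10 8 3 2,
.part [33, 88, 6] [0, 1, 0] [] [],
.join 2 1 6 4 3 1 [(0, 0)],
.ab2 1 20,
.deg 3 [0, 2, 1],
.l2 1 9 10 3 1 1,
.le 0 96 64 6 1,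
.ab2 1 68,
.mono 1 8 72 1,
.lip 0 4 28 56,
.hall [0, 1, 2] [2],
.lip 1 40 43 7,
.part [34, 64, 9] [0, 0, 0] [] [(1, 20)],
.part [2, 65, 60] [0, 0, 1] [] [],
.part [61, 64, 2] [1, 0, 0] [] [],
.le 2 18 2 1 1,
.ordE 2 8 2,
.lip 1 64 104 56,
.deg 3 [3, 0, 0],
.deg 1 [0, 0, 3],
.join 2 4 5 3 2 3 [(2, 2)],
.ab2 2 80,
.join 2 1 4 3 3 3 [(0, 3)],
.l2 0 80 96 6 1 1,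
.part [24, 7, 96] [0, 1, 0] [] [],
.join 2 2 4 3 3 3 [(1, 3)],
.l2 1 12 68 2 1 1,
.ab2 0 34,
.hall [0, 1, 2] [0],
.l2 0 20 68 2 1 1,
.l2 0 9 12 3 1 1,
.lip 2 5 61 56,
.part [67, 12, 48] [1, 0, 0] [] [],
.ordE 1 2 3,
.le 0 72 64 6 2,
.le 2 36 32 5 1,
.mono 1 4 36 1,
.l2 1 9 17 0 1 1,
.deg 3 [2, 1, 0],
.ab 1 5,
.hall [0, 1, 2] [5],
.join 2 16 6 4 2 2 [(4, 0)],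
.mono 0 8 10 1,
.ordE 0 16 1,
.lip 2 40 47 7,
.l2 0 17 18 4 1 1,
.join 0 1 5 2 0 2 [(0, 0)],
.part [80, 32, 12] [0, 0, 0] [3] [],
.join 2 4 6 4 3 1 [(2, 0)],
.join 1 16 6 2 0 2 [(4, 0)],
.lip 0 34 98 64,
.part [9, 18, 36] [0, 0, 0] [64] [],
.l2 1 17 65 0 1 1,
.join 0 4 6 2 3 0 [(2, 1)],
.deg 2 [1, 1, 1],
.hall [2] [1, 2, 6],
.join 1 16 6 2 2 0 [(4, 0)],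
.l2 0 36 68 2 1 1,
.part [65, 2, 20] [0, 0, 0] [40] [],
.lip 0 64 71 7,
.part [55, 64, 8] [1, 0, 0] [] [],
.mono 0 64 65 1,
.join 2 16 6 4 3 1 [(4, 0)],
.join 0 16 6 2 1 1 [(4, 0)],
.ab 2 6,
.part [64, 40, 23] [0, 0, 1] [] [],
.deg 4 [0, 0, 3],
.part [3, 56, 68] [0, 1, 0] [] [],
.lip 0 64 120 56,
.join 2 2 5 3 0 3 [(1, 0)],
.ordE 2 1 1,
.lipl 1 20 86 1 66,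
.part [10, 64, 33] [0, 0, 0] [] [(1, 20)],
.part [10, 112, 5] [0, 1, 0] [] [],
.part [88, 6, 33] [1, 0, 0] [] [],
.join 1 8 6 2 2 0 [(3, 0)],
.part [2, 68, 9] [0, 0, 0] [48] [],
.ordE 0 4 2,
.join 0 2 3 2 0 2 [(1, 0)],
.le 2 33 32 5 2,
.join 2 32 6 4 2 2 [(5, 0)],
.hall [1, 2] [3, 4],
.part [12, 33, 18] [0, 0, 0] [64] [],
.un 2 1,
.part [10, 17, 32] [0, 0, 0] [] [(0, 68)],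
.le 2 12 8 3 1,
.ordE 0 1 2,
.hall [2] [0, 1, 6],
.part [64, 36, 17] [0, 0, 0] [] [(0, 10)],
.part [4, 65, 2] [0, 0, 0] [56] [],
.deg 0 [2, 0, 1],
.join 1 1 4 2 2 0 [(0, 0)],
.lip 0 64 112 56,
.part [64, 33, 20] [0, 0, 0] [] [(0, 10)],
.le 2 34 2 1 3,
.part [20, 64, 10] [0, 0, 0] [] [(1, 33)],
.part [120, 3, 4] [1, 0, 0] [] [],
.ab2 2 9,
.ab 1 6,
.deg 3 [0, 1, 2],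
.mono 2 2 66 1,
.lip 1 40 47 7,
.lip 1 1 57 56,
.l2 0 34 66 1 1 1,
.join 1 1 5 2 0 2 [(0, 0)],
.ordE 0 8 1,
.part [64, 9, 18] [0, 0, 0] [] [(0, 36)],
.lipl 1 10 46 0 36,
.ab2 1 12,
.part [40, 23, 64] [0, 1, 0] [] [],
.part [68, 2, 9] [0, 0, 0] [48] [],
.le 2 18 2 1 3,
.part [8, 64, 55] [0, 0, 1] [] [],
.join 1 2 5 2 1 1 [(1, 0)],
.join 2 2 3 3 3 2 [(1, 2)],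
.part [64, 17, 36] [0, 0, 0] [] [(0, 10)],
.part [36, 9, 16] [0, 0, 0] [] [(0, 66)],
.deg 1 [0, 2, 1],
.ab 1 0,
.join 1 2 3 2 0 2 [(1, 0)],
.part [28, 65, 34] [1, 0, 0] [] [],
.l2 0 65 72 6 1 1,
.deg 6 [1, 1, 1],
.part [32, 80, 15] [0, 0, 1] [] [],
.part [2, 64, 61] [0, 0, 1] [] [],
.ordE 1 8 3,
.deg 4 [2, 0, 1],
.part [64, 36, 18] [0, 0, 0] [] [(0, 9)],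
.join 1 2 4 2 2 0 [(1, 0)],
.le 2 34 32 5 4,
.l2 1 9 72 3 1 1,
.deg 6 [1, 2, 0],
.join 2 2 5 3 3 2 [(1, 2)],
.lip 0 64 67 7,
.part [9, 114, 4] [0, 1, 0] [] [],
.join 2 4 5 3 0 3 [(2, 0)],
.part [18, 104, 5] [0, 1, 0] [] [],
.le 1 72 64 6 1,
.ordE 1 2 1,
.ab2 0 33,
.ab2 1 65,
.ab2 0 72,
.mono 1 64 65 1,
.ab2 0 80,
.part [67, 48, 12] [1, 0, 0] [] [],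
.join 1 32 6 2 1 1 [(5, 0)],
.part [2, 65, 36] [0, 0, 0] [24] [],
.mono 0 32 33 1,
.ordE 0 32 3,
.part [66, 4, 1] [0, 0, 0] [56] [],
.l2 1 20 80 4 1 1,
.mono 0 4 12 1,
.part [12, 34, 17] [0, 0, 0] [64] [],
.part [34, 12, 17] [0, 0, 0] [64] [],
.deg 1 [0, 1, 2],
.le 1 10 8 3 1,
.part [34, 64, 20] [0, 0, 0] [] [(1, 9)],
.le 0 80 64 6 2,
.part [66, 1, 4] [0, 0, 0] [56] [],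
.join 2 8 6 4 3 1 [(3, 0)],
.part [31, 32, 64] [1, 0, 0] [] [],
.part [2, 1, 68] [0, 0, 0] [56] [],
.part [104, 3, 20] [1, 0, 0] [] [],
.part [116, 9, 2] [1, 0, 0] [] [],
.join 1 32 6 2 2 0 [(5, 0)],
.lipl 1 17 85 1 68,
.ordE 1 2 2,
.deg 5 [0, 1, 2],
.part [1, 4, 66] [0, 0, 0] [56] [],
.lip 2 16 23 7,
.mono 0 32 34 1,
.l2 0 12 36 2 1 1,
.part [86, 9, 32] [1, 0, 0] [] [],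
.deg 1 [2, 1, 0],
.le 2 20 16 4 1,
.lip 2 2 58 56,
.part [112, 9, 6] [1, 0, 0] [] [],
.ab 2 1,
.hall [0] [0, 1, 6],
.deg 1 [2, 0, 1],
.deg 3 [1, 0, 2],
.join 2 8 6 4 1 3 [(3, 0)],
.l2 1 9 65 0 1 1,
.part [8, 85, 34] [0, 1, 0] [] [],
.deg 4 [0, 3, 0],
.join 0 1 6 2 2 0 [(0, 0)],
.part [71, 40, 16] [1, 0, 0] [] [],
.le 0 33 1 0 1,
.le 1 96 64 6 1,
.le 1 68 64 6 2,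
.part [47, 64, 16] [1, 0, 0] [] [],
.part [20, 10, 33] [0, 0, 0] [64] [],
.lip 1 3 59 56,
.le 0 36 32 5 1,
.ab2 0 65,
.lip 1 5 61 56,
.l2 1 65 66 6 1 1,
.part [99, 12, 16] [1, 0, 0] [] [],
.ordE 2 2 1,
.hall [2] [3, 4, 5],
.lip 1 6 62 56,
.lip 2 48 55 7,
.hall [1, 2] [0, 1],
.l2 0 65 80 6 1 1,
.ab 2 3,
.part [17, 10, 36] [0, 0, 0] [64] [],
.mono 1 1 33 1,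
.join 2 4 6 4 2 2 [(2, 0)],
.l2 1 33 96 5 1 1,
.l2 1 33 34 5 1 1,
.join 2 1 3 3 1 3 [(0, 1)],
.l2 1 12 20 2 1 1,
.part [65, 32, 6] [0, 0, 0] [24] [],
.lip 1 8 15 7,
.lipl 0 34 99 0 65,
.un 2 4,
.join 1 8 6 2 2 1 [(3, 1)],
.part [32, 8, 80] [0, 0, 0] [7] [],
.lip 0 3 59 56,
.lipl 1 34 46 0 12,
.part [5, 56, 66] [0, 1, 0] [] [],
.part [10, 68, 1] [0, 0, 0] [48] [],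
.ab 0 3,
.part [33, 12, 16] [0, 0, 0] [] [(1, 66)],
.ab2 2 72,
.part [12, 17, 34] [0, 0, 0] [64] [],
.part [33, 18, 12] [0, 0, 0] [64] [],
.hall [0] [0, 2, 6],
.le 0 33 32 5 1,
.l2 0 17 33 0 1 1,
.lip 0 68 108 56,
.part [32, 17, 10] [0, 0, 0] [] [(2, 68)],
.lip 2 3 59 56,
.ordE 2 4 2,
.deg 5 [0, 3, 0],
.lip 1 0 7 7,
.join 1 4 4 2 2 0 [(2, 0)],
.le 2 10 2 1 2,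
.deg 5 [3, 0, 0],
.join 2 2 5 3 1 3 [(1, 1)],
.mono 1 64 68 1,
.lip 0 12 76 64,
.l2 0 65 66 6 1 1,
.le 2 10 8 3 1,
.join 0 4 3 2 2 0 [(2, 0)],
.join 2 1 5 3 3 2 [(0, 2)],
.join 2 1 3 3 2 3 [(0, 2)],
.join 0 2 6 2 3 0 [(1, 1)],
.join 1 2 5 2 3 0 [(1, 1)],
.l2 0 72 80 6 1 1,
.ordE 2 64 2,
.ab2 1 66,
.part [17, 36, 8] [0, 0, 0] [] [(0, 66)],
.part [2, 61, 64] [0, 1, 0] [] [],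
.lip 2 6 62 56,
.part [34, 16, 72] [0, 0, 0] [5] [],
.un 1 0,
.l2 1 12 36 2 1 1,
.part [33, 86, 8] [0, 1, 0] [] [],
.join 1 4 4 2 1 1 [(2, 0)],
.le 2 10 2 1 1,
.le 2 12 8 3 4,
.deg 2 [3, 0, 0],
.part [64, 18, 36] [0, 0, 0] [] [(0, 9)],
.le 1 80 16 4 1,
.l2 0 34 36 5 1 1,
.hall [0] [1, 2, 6],
.join 2 32 6 4 1 3 [(5, 0)],
.join 2 1 5 3 3 1 [(0, 1)],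
.deg 0 [1, 1, 1],
.join 0 16 6 2 3 0 [(4, 1)],
.mono 1 16 18 1,
.hall [1, 2] [3, 5],
.hall [0, 2] [3, 4],
.part [12, 112, 3] [0, 1, 0] [] [],
.join 0 32 6 2 2 1 [(5, 1)],
.hall [1] [3, 4, 5],
.un 1 1,
.join 0 2 5 2 2 0 [(1, 0)],
.deg 6 [3, 0, 0],
.deg 0 [0, 0, 3],
.l2 1 9 12 3 1 1,
.l2 0 65 68 6 1 1,
.le 1 34 32 5 2,
.mono 1 16 17 1,
.part [65, 2, 4] [0, 0, 0] [56] [],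
.join 1 2 4 2 1 1 [(1, 0)],
.part [92, 34, 1] [1, 0, 0] [] [],
.part [64, 17, 10] [0, 0, 0] [] [(0, 36)],
.l2 1 68 72 6 1 1,
.ab 0 1,
.part [66, 4, 33] [0, 0, 0] [24] [],
.deg 0 [1, 0, 2],
.hall [1, 2] [1, 2],
.lipl 0 36 116 1 80,
.deg 4 [3, 0, 0],
.le 0 12 8 3 1,
.ab2 1 96,
.part [36, 10, 17] [0, 0, 0] [64] [],
.join 0 2 6 2 1 1 [(1, 0)],
.le 0 66 64 6 2,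
.part [2, 68, 1] [0, 0, 0] [56] [],
.lip 2 8 15 7,
.part [20, 43, 64] [0, 1, 0] [] [],
.ordE 2 16 1,
.part [9, 32, 18] [0, 0, 0] [] [(0, 68)],
.lipl 0 18 90 1 72,
.join 2 2 6 4 2 2 [(1, 0)],
.lip 0 64 88 56,
.l2 1 80 96 6 1 1,
.part [64, 33, 10] [0, 0, 0] [] [(0, 20)],
.l2 0 17 20 4 1 1,
.part [17, 98, 12] [0, 1, 0] [] [],
.join 1 16 6 2 2 1 [(4, 1)],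
.part [34, 9, 4] [0, 0, 0] [] [(0, 80)],
.join 0 4 4 2 1 1 [(2, 0)],
.un 0 6,
.l2 0 18 20 4 1 1,
.ordE 0 64 2,
.le 2 36 4 2 3,
.deg 5 [0, 2, 1],
.l2 1 9 33 0 1 1,
.join 1 1 3 2 1 1 [(0, 0)],
.ordE 1 1 2,
.ab 0 0,
.le 2 20 4 2 1,
.join 1 2 6 2 1 1 [(1, 0)],
.part [59, 4, 64] [1, 0, 0] [] [],
.hall [1] [0, 1, 2],
.part [18, 9, 36] [0, 0, 0] [64] [],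
.ab2 0 68,
.part [17, 34, 8] [0, 0, 0] [] [(0, 68)],
.part [88, 36, 3] [1, 0, 0] [] [],
.part [114, 5, 8] [1, 0, 0] [] [],
.deg 5 [1, 2, 0],
.l2 0 9 72 3 1 1,
.deg 2 [2, 0, 1],
.part [18, 36, 9] [0, 0, 0] [64] [],
.le 0 68 64 6 1,
.part [65, 2, 12] [0, 0, 0] [48] [],
.join 0 8 6 2 1 1 [(3, 0)],
.lip 0 80 86 7,
.part [18, 97, 12] [0, 1, 0] [] [],
.lip 1 34 98 64,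
.part [36, 64, 10] [0, 0, 0] [] [(1, 17)],
.ab2 2 33,
.le 0 80 64 6 1,
.le 2 33 1 0 4,
.part [32, 9, 20] [0, 0, 0] [] [(1, 66)],
.part [16, 72, 32] [0, 0, 0] [7] [],
.hall [1] [0, 2, 6],
.lip 2 4 60 56,
.join 2 2 4 3 0 3 [(1, 0)],
.un 1 6,
.mono 0 1 17 1,
.join 2 1 5 3 3 0 [(0, 0)],
.deg 5 [1, 0, 2],
.part [76, 18, 33] [1, 0, 0] [] [],
.lip 0 5 61 56,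
.join 1 8 6 2 1 1 [(3, 0)],
.le 2 9 1 0 3,
.un 1 2,
.ab2 1 80,
.le 0 66 64 6 1,
.le 1 68 64 6 1,
.l2 1 34 96 5 1 1,
.mono 0 64 68 1,
.mono 0 16 80 1,
.join 1 1 6 2 3 0 [(0, 1)],
.mono 1 2 34 1,
.l2 0 33 65 0 1 1,
.join 0 32 6 2 2 0 [(5, 0)],
.part [18, 12, 32] [0, 0, 0] [] [(0, 65)],
.hall [0] [3, 5, 6],
.join 0 2 6 2 2 0 [(1, 0)],
.part [8, 32, 80] [0, 0, 0] [7] [],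
.part [2, 4, 65] [0, 0, 0] [56] [],
.ordE 0 2 1,
.part [76, 17, 34] [1, 0, 0] [] [],
.part [6, 56, 65] [0, 1, 0] [] [],
.part [65, 4, 2] [0, 0, 0] [56] [],
.part [17, 64, 12] [0, 0, 0] [] [(1, 34)],
.part [86, 40, 1] [1, 0, 0] [] [],
.part [64, 16, 47] [0, 0, 1] [] [],
.ordE 1 64 2,
.lip 0 64 104 56,
.le 2 36 4 2 1,
.part [64, 46, 17] [0, 1, 0] [] [],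
.part [64, 9, 36] [0, 0, 0] [] [(0, 18)],
.ordE 0 16 2,
.join 2 1 3 3 1 2 [(0, 0)],
.join 0 4 6 2 1 1 [(2, 0)],
.part [55, 8, 64] [1, 0, 0] [] [],
.ab 1 2,
.part [10, 20, 32] [0, 0, 0] [] [(1, 65)],
.part [76, 34, 17] [1, 0, 0] [] [],
.part [1, 80, 6] [0, 0, 0] [40] [],
.mono 1 8 9 1,
.part [90, 36, 1] [1, 0, 0] [] [],
.part [8, 16, 96] [0, 0, 0] [7] [],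
.lipl 0 34 102 0 68,
.le 0 10 2 1 1,
.mono 1 1 9 1,
.mono 0 2 18 1,
.part [33, 20, 10] [0, 0, 0] [64] [],
.join 0 1 6 2 1 1 [(0, 0)],
.un 2 5,
.l2 0 66 96 6 1 1,
.part [17, 104, 6] [0, 1, 0] [] [],
.part [0, 68, 3] [0, 0, 0] [56] [],
.deg 6 [0, 3, 0],
.le 2 9 1 0 1,
.part [17, 46, 64] [0, 1, 0] [] [],
.part [112, 3, 12] [1, 0, 0] [] [],
.l2 1 17 18 4 1 1,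
.part [64, 12, 17] [0, 0, 0] [] [(0, 34)],
.join 2 2 6 4 3 1 [(1, 0)],
.part [36, 88, 3] [0, 1, 0] [] [],
.lip 1 2 58 56,
.l2 0 9 10 3 1 1,
.part [33, 12, 18] [0, 0, 0] [64] [],
.part [102, 24, 1] [1, 0, 0] [] [],
.part [2, 65, 4] [0, 0, 0] [56] [],
.mono 2 2 18 1,
.lipl 2 65 101 2 36,
.part [4, 66, 1] [0, 0, 0] [56] [],
.hall [1] [3, 4, 6],
.join 0 2 5 2 3 0 [(1, 1)],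
.le 2 34 2 1 2,
.join 2 4 4 3 3 2 [(2, 2)],
.join 1 4 6 2 2 1 [(2, 1)],
.lipl 0 8 76 2 68,
.ordE 2 1 2,
.part [4, 64, 59] [0, 0, 1] [] [],
.part [18, 64, 12] [0, 0, 0] [] [(1, 33)],
.le 0 68 64 6 2,
.mono 2 32 33 1,
.part [10, 36, 16] [0, 0, 0] [] [(0, 65)],
.ab2 0 17,
.join 2 1 6 4 2 2 [(0, 0)],
.mono 1 4 20 1,
.part [81, 12, 34] [1, 0, 0] [] [],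
.part [64, 2, 61] [0, 0, 1] [] [],
.part [8, 96, 16] [0, 0, 0] [7] [],
.ab2 0 66,
.part [1, 68, 34] [0, 0, 0] [24] [],
.l2 0 10 34 1 1 1,
.un 0 5,
.join 2 8 6 4 2 2 [(3, 0)],
.part [64, 10, 36] [0, 0, 0] [] [(0, 17)],
.ordE 0 64 3,
.part [16, 32, 72] [0, 0, 0] [7] [],
.l2 0 9 17 0 1 1,
.le 0 72 64 6 1,
.ab2 2 48,
.ordE 2 4 1,
.join 2 4 4 3 0 3 [(2, 0)],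
.ordE 0 2 2,
.join 1 1 3 2 0 2 [(0, 0)],
.join 1 4 3 2 2 0 [(2, 0)],
.part [3, 68, 32] [0, 0, 0] [24] [],
.part [9, 34, 20] [0, 0, 0] [64] [],
.l2 0 10 18 1 1 1,
.l2 1 65 96 6 1 1,
.part [8, 80, 32] [0, 0, 0] [7] [],
.le 1 18 16 4 1,
.deg 0 [0, 3, 0]]

noncomputable def gads : List Gt := [
⟨2, [⟨2, 3, []⟩, ⟨4, 3, []⟩], [3, 3], 1, [(6, 1)]⟩,
⟨1, [⟨8, 2, []⟩, ⟨80, 2, []⟩], [3, 3, 3], 1, [(24, 1), (72, 1)]⟩,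
⟨1, [⟨1, 2, []⟩, ⟨66, 2, []⟩], [3, 3, 3], 1, [(3, 1), (65, 1)]⟩,
⟨1, [⟨9, 2, []⟩, ⟨4, 2, []⟩], [3, 3, 3], 1, [(5, 1), (12, 1)]⟩,
⟨2, [⟨1, 3, []⟩, ⟨2, 3, []⟩], [3, 3], 1, [(3, 1)]⟩,
⟨0, [⟨2, 2, []⟩, ⟨64, 2, []⟩], [3, 3, 3], 1, [(66, 1)]⟩,
⟨0, [⟨9, 2, []⟩, ⟨16, 2, []⟩], [3, 3, 3], 1, [(17, 1), (24, 1)]⟩,
⟨2, [⟨96, 4, []⟩, ⟨1, 2, []⟩], [3, 2, 2], 1, [(33, 1), (65, 1)]⟩,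
⟨2, [⟨1, 3, []⟩, ⟨16, 3, []⟩], [3, 3], 1, [(17, 1)]⟩,
⟨1, [⟨2, 2, []⟩, ⟨32, 2, []⟩], [3, 3, 3], 1, [(34, 1)]⟩,
⟨0, [⟨8, 2, []⟩, ⟨80, 2, []⟩], [3, 3, 3], 1, [(24, 1), (72, 1)]⟩,
⟨1, [⟨33, 2, []⟩, ⟨2, 2, []⟩], [3, 3, 3], 1, [(3, 1), (34, 1)]⟩,
⟨1, [⟨4, 2, []⟩, ⟨64, 2, []⟩], [3, 3, 3], 1, [(68, 1)]⟩,
⟨1, [⟨1, 2, []⟩, ⟨68, 2, []⟩], [3, 3, 3], 1, [(5, 1), (65, 1)]⟩,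
⟨1, [⟨1, 3, []⟩, ⟨4, 3, []⟩], [3, 3], 1, [(5, 1)]⟩,
⟨1, [⟨18, 2, []⟩, ⟨32, 2, []⟩], [3, 3, 3], 1, [(34, 1), (48, 1)]⟩,
⟨2, [⟨66, 4, []⟩, ⟨4, 2, []⟩], [3, 2, 2], 1, [(6, 1), (68, 1)]⟩,
⟨2, [⟨80, 4, []⟩, ⟨32, 2, []⟩], [3, 2, 2], 1, [(48, 1), (96, 1)]⟩,
⟨2, [⟨66, 4, []⟩, ⟨1, 2, []⟩], [3, 2, 2], 1, [(3, 1), (65, 1)]⟩,
⟨1, [⟨12, 2, []⟩, ⟨32, 2, []⟩], [3, 3, 3], 1, [(36, 1), (40, 1)]⟩,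
⟨0, [⟨16, 3, []⟩, ⟨32, 3, []⟩], [3, 3], 1, [(48, 1)]⟩,
⟨0, [⟨20, 2, []⟩, ⟨64, 2, []⟩], [3, 3, 3], 1, [(68, 1), (80, 1)]⟩,
⟨2, [⟨96, 4, []⟩, ⟨4, 2, []⟩], [3, 2, 2], 1, [(36, 1), (68, 1)]⟩,
⟨2, [⟨68, 4, []⟩, ⟨8, 2, []⟩], [3, 2, 2], 1, [(12, 1), (72, 1)]⟩,
⟨2, [⟨9, 3, []⟩, ⟨64, 3, []⟩], [3, 3], 1, [(65, 1), (72, 1)]⟩,
⟨0, [⟨1, 2, []⟩, ⟨66, 2, []⟩], [3, 3, 3], 1, [(3, 1), (65, 1)]⟩,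
⟨2, [⟨68, 4, []⟩, ⟨1, 2, []⟩], [3, 2, 2], 1, [(5, 1), (65, 1)]⟩,
⟨0, [⟨8, 4, []⟩, ⟨16, 2, []⟩], [3, 2, 2], 1, [(24, 1)]⟩,
⟨1, [⟨4, 2, []⟩, ⟨66, 2, []⟩], [3, 3, 3], 1, [(6, 1), (68, 1)]⟩,
⟨1, [⟨8, 4, []⟩, ⟨16, 2, []⟩], [3, 2, 2], 1, [(24, 1)]⟩,
⟨1, [⟨4, 4, []⟩, ⟨2, 2, []⟩], [3, 2, 2], 1, [(6, 1)]⟩,
⟨2, [⟨68, 4, []⟩, ⟨2, 2, []⟩], [3, 2, 2], 1, [(6, 1), (66, 1)]⟩,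
⟨2, [⟨12, 3, []⟩, ⟨64, 3, []⟩], [3, 3], 1, [(68, 1), (72, 1)]⟩,
⟨1, [⟨20, 2, []⟩, ⟨64, 2, []⟩], [3, 3, 3], 1, [(68, 1), (80, 1)]⟩,
⟨1, [⟨17, 2, []⟩, ⟨8, 2, []⟩], [3, 3, 3], 1, [(9, 1), (24, 1)]⟩,
⟨0, [⟨1, 4, []⟩, ⟨64, 2, []⟩], [3, 2, 2], 1, [(65, 1)]⟩,
⟨0, [⟨33, 2, []⟩, ⟨16, 2, []⟩], [3, 3, 3], 1, [(17, 1), (48, 1)]⟩,
⟨1, [⟨2, 3, []⟩, ⟨32, 3, []⟩], [3, 3], 1, [(34, 1)]⟩,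
⟨0, [⟨4, 2, []⟩, ⟨16, 2, []⟩], [3, 3, 3], 1, [(20, 1)]⟩,
⟨0, [⟨12, 2, []⟩, ⟨1, 2, []⟩], [3, 3, 3], 1, [(5, 1), (9, 1)]⟩,
⟨1, [⟨32, 4, []⟩, ⟨64, 2, []⟩], [3, 2, 2], 1, [(96, 1)]⟩,
⟨2, [⟨4, 4, []⟩, ⟨2, 2, []⟩], [3, 2, 2], 1, [(6, 1)]⟩,
⟨0, [⟨36, 2, []⟩, ⟨8, 2, []⟩], [3, 3, 3], 1, [(12, 1), (40, 1)]⟩,
⟨2, [⟨1, 4, []⟩, ⟨2, 2, []⟩], [3, 2, 2], 1, [(3, 1)]⟩,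
⟨1, [⟨33, 2, []⟩, ⟨16, 2, []⟩], [3, 3, 3], 1, [(17, 1), (48, 1)]⟩,
⟨0, [⟨33, 2, []⟩, ⟨2, 2, []⟩], [3, 3, 3], 1, [(3, 1), (34, 1)]⟩,
⟨1, [⟨33, 2, []⟩, ⟨64, 2, []⟩], [3, 3, 3], 1, [(65, 1), (96, 1)]⟩,
⟨1, [⟨34, 2, []⟩, ⟨8, 2, []⟩], [3, 3, 3], 1, [(10, 1), (40, 1)]⟩,
⟨1, [⟨4, 2, []⟩, ⟨8, 2, []⟩], [3, 3, 3], 1, [(12, 1)]⟩,
⟨2, [⟨32, 2, []⟩, ⟨2, 4, []⟩], [3, 1, 1], 1, [(34, 1)]⟩,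
⟨1, [⟨33, 2, []⟩, ⟨8, 2, []⟩], [3, 3, 3], 1, [(9, 1), (40, 1)]⟩,
⟨0, [⟨17, 2, []⟩, ⟨2, 2, []⟩], [3, 3, 3], 1, [(3, 1), (18, 1)]⟩,
⟨0, [⟨32, 4, []⟩, ⟨8, 2, []⟩], [3, 2, 2], 1, [(40, 1)]⟩,
⟨2, [⟨2, 4, []⟩, ⟨4, 2, []⟩], [3, 2, 2], 1, [(6, 1)]⟩,
⟨0, [⟨8, 3, []⟩, ⟨16, 3, []⟩], [3, 3], 1, [(24, 1)]⟩,
⟨2, [⟨16, 2, []⟩, ⟨64, 4, []⟩], [3, 1, 1], 1, [(80, 1)]⟩,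
⟨2, [⟨1, 4, []⟩, ⟨64, 2, []⟩], [3, 2, 2], 1, [(65, 1)]⟩,
⟨1, [⟨1, 2, []⟩, ⟨8, 2, []⟩], [3, 3, 3], 1, [(9, 1)]⟩,
⟨1, [⟨16, 2, []⟩, ⟨72, 2, []⟩], [3, 3, 3], 1, [(24, 1), (80, 1)]⟩,
⟨2, [⟨8, 3, []⟩, ⟨16, 3, []⟩], [3, 3], 1, [(24, 1)]⟩,
⟨2, [⟨72, 4, []⟩, ⟨16, 2, []⟩], [3, 2, 2], 1, [(24, 1), (80, 1)]⟩,
⟨1, [⟨17, 2, []⟩, ⟨4, 2, []⟩], [3, 3, 3], 1, [(5, 1), (20, 1)]⟩,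
⟨2, [⟨96, 4, []⟩, ⟨8, 2, []⟩], [3, 2, 2], 1, [(40, 1), (72, 1)]⟩,
⟨0, [⟨9, 2, []⟩, ⟨32, 2, []⟩], [3, 3, 3], 1, [(33, 1), (40, 1)]⟩,
⟨2, [⟨2, 3, []⟩, ⟨8, 3, []⟩], [3, 3], 1, [(10, 1)]⟩,
⟨1, [⟨2, 4, []⟩, ⟨1, 2, []⟩], [3, 2, 2], 1, [(3, 1)]⟩,
⟨2, [⟨2, 4, []⟩, ⟨64, 2, []⟩], [3, 2, 2], 1, [(66, 1)]⟩,
⟨0, [⟨17, 2, []⟩, ⟨64, 2, []⟩], [3, 3, 3], 1, [(65, 1), (80, 1)]⟩,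
⟨2, [⟨8, 3, []⟩, ⟨32, 3, []⟩], [3, 3], 1, [(40, 1)]⟩,
⟨2, [⟨66, 4, []⟩, ⟨16, 2, []⟩], [3, 2, 2], 1, [(18, 1), (80, 1)]⟩,
⟨0, [⟨16, 4, []⟩, ⟨8, 2, []⟩], [3, 2, 2], 1, [(24, 1)]⟩,
⟨1, [⟨1, 2, []⟩, ⟨16, 2, []⟩], [3, 3, 3], 1, [(17, 1)]⟩,
⟨0, [⟨8, 2, []⟩, ⟨64, 2, []⟩], [3, 3, 3], 1, [(72, 1)]⟩,
⟨2, [⟨65, 4, []⟩, ⟨16, 2, []⟩], [3, 2, 2], 1, [(17, 1), (80, 1)]⟩,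
⟨1, [⟨32, 2, []⟩, ⟨64, 2, []⟩], [3, 3, 3], 1, [(96, 1)]⟩,
⟨0, [⟨2, 2, []⟩, ⟨65, 2, []⟩], [3, 3, 3], 1, [(3, 1), (66, 1)]⟩,
⟨0, [⟨8, 2, []⟩, ⟨96, 2, []⟩], [3, 3, 3], 1, [(40, 1), (72, 1)]⟩,
⟨2, [⟨4, 4, []⟩, ⟨64, 2, []⟩], [3, 2, 2], 1, [(68, 1)]⟩,
⟨2, [⟨72, 4, []⟩, ⟨2, 2, []⟩], [3, 2, 2], 1, [(10, 1), (66, 1)]⟩,
⟨0, [⟨8, 3, []⟩, ⟨32, 3, []⟩], [3, 3], 1, [(40, 1)]⟩,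
⟨0, [⟨34, 2, []⟩, ⟨1, 2, []⟩], [3, 3, 3], 1, [(3, 1), (33, 1)]⟩,
⟨0, [⟨4, 2, []⟩, ⟨66, 2, []⟩], [3, 3, 3], 1, [(6, 1), (68, 1)]⟩,
⟨2, [⟨18, 3, []⟩, ⟨64, 3, []⟩], [3, 3], 1, [(66, 1), (80, 1)]⟩,
⟨2, [⟨2, 3, []⟩, ⟨16, 3, []⟩], [3, 3], 1, [(18, 1)]⟩,
⟨1, [⟨20, 2, []⟩, ⟨1, 2, []⟩], [3, 3, 3], 1, [(5, 1), (17, 1)]⟩,
⟨1, [⟨17, 2, []⟩, ⟨64, 2, []⟩], [3, 3, 3], 1, [(65, 1), (80, 1)]⟩,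
⟨1, [⟨8, 2, []⟩, ⟨64, 2, []⟩], [3, 3, 3], 1, [(72, 1)]⟩,
⟨1, [⟨4, 4, []⟩, ⟨64, 2, []⟩], [3, 2, 2], 1, [(68, 1)]⟩,
⟨0, [⟨12, 2, []⟩, ⟨16, 2, []⟩], [3, 3, 3], 1, [(20, 1), (24, 1)]⟩,
⟨1, [⟨18, 2, []⟩, ⟨64, 2, []⟩], [3, 3, 3], 1, [(66, 1), (80, 1)]⟩,
⟨2, [⟨1, 2, []⟩, ⟨64, 4, []⟩], [3, 1, 1], 1, [(65, 1)]⟩,
⟨1, [⟨16, 2, []⟩, ⟨96, 2, []⟩], [3, 3, 3], 1, [(48, 1), (80, 1)]⟩,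
⟨2, [⟨8, 4, []⟩, ⟨32, 2, []⟩], [3, 2, 2], 1, [(40, 1)]⟩,
⟨1, [⟨12, 2, []⟩, ⟨1, 2, []⟩], [3, 3, 3], 1, [(5, 1), (9, 1)]⟩,
⟨0, [⟨32, 4, []⟩, ⟨16, 2, []⟩], [3, 2, 2], 1, [(48, 1)]⟩,
⟨0, [⟨1, 2, []⟩, ⟨8, 2, []⟩], [3, 3, 3], 1, [(9, 1)]⟩,
⟨2, [⟨17, 3, []⟩, ⟨64, 3, []⟩], [3, 3], 1, [(65, 1), (80, 1)]⟩,
⟨0, [⟨4, 2, []⟩, ⟨64, 2, []⟩], [3, 3, 3], 1, [(68, 1)]⟩,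
⟨1, [⟨2, 4, []⟩, ⟨4, 2, []⟩], [3, 2, 2], 1, [(6, 1)]⟩,
⟨1, [⟨9, 2, []⟩, ⟨2, 2, []⟩], [3, 3, 3], 1, [(3, 1), (10, 1)]⟩,
⟨1, [⟨2, 2, []⟩, ⟨65, 2, []⟩], [3, 3, 3], 1, [(3, 1), (66, 1)]⟩,
⟨2, [⟨65, 4, []⟩, ⟨2, 2, []⟩], [3, 2, 2], 1, [(3, 1), (66, 1)]⟩,
⟨1, [⟨20, 2, []⟩, ⟨8, 2, []⟩], [3, 3, 3], 1, [(12, 1), (24, 1)]⟩,
⟨0, [⟨2, 4, []⟩, ⟨4, 2, []⟩], [3, 2, 2], 1, [(6, 1)]⟩,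
⟨2, [⟨4, 3, []⟩, ⟨8, 3, []⟩], [3, 3], 1, [(12, 1)]⟩,
⟨1, [⟨1, 2, []⟩, ⟨32, 2, []⟩], [3, 3, 3], 1, [(33, 1)]⟩,
⟨2, [⟨65, 4, []⟩, ⟨32, 2, []⟩], [3, 2, 2], 1, [(33, 1), (96, 1)]⟩,
⟨1, [⟨17, 2, []⟩, ⟨2, 2, []⟩], [3, 3, 3], 1, [(3, 1), (18, 1)]⟩,
⟨1, [⟨9, 2, []⟩, ⟨64, 2, []⟩], [3, 3, 3], 1, [(65, 1), (72, 1)]⟩,
⟨0, [⟨34, 2, []⟩, ⟨4, 2, []⟩], [3, 3, 3], 1, [(6, 1), (36, 1)]⟩,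
⟨1, [⟨34, 2, []⟩, ⟨4, 2, []⟩], [3, 3, 3], 1, [(6, 1), (36, 1)]⟩,
⟨0, [⟨4, 4, []⟩, ⟨1, 2, []⟩], [3, 2, 2], 1, [(5, 1)]⟩,
⟨0, [⟨1, 3, []⟩, ⟨8, 3, []⟩], [3, 3], 1, [(9, 1)]⟩,
⟨2, [⟨72, 4, []⟩, ⟨1, 2, []⟩], [3, 2, 2], 1, [(9, 1), (65, 1)]⟩,
⟨2, [⟨36, 3, []⟩, ⟨64, 3, []⟩], [3, 3], 1, [(68, 1), (96, 1)]⟩,
⟨1, [⟨4, 2, []⟩, ⟨32, 2, []⟩], [3, 3, 3], 1, [(36, 1)]⟩,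
⟨0, [⟨36, 2, []⟩, ⟨2, 2, []⟩], [3, 3, 3], 1, [(6, 1), (34, 1)]⟩,
⟨2, [⟨8, 4, []⟩, ⟨16, 2, []⟩], [3, 2, 2], 1, [(24, 1)]⟩,
⟨0, [⟨1, 2, []⟩, ⟨64, 2, []⟩], [3, 3, 3], 1, [(65, 1)]⟩,
⟨0, [⟨33, 2, []⟩, ⟨64, 2, []⟩], [3, 3, 3], 1, [(65, 1), (96, 1)]⟩,
⟨0, [⟨34, 2, []⟩, ⟨64, 2, []⟩], [3, 3, 3], 1, [(66, 1), (96, 1)]⟩,
⟨1, [⟨17, 2, []⟩, ⟨32, 2, []⟩], [3, 3, 3], 1, [(33, 1), (48, 1)]⟩,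
⟨2, [⟨8, 4, []⟩, ⟨64, 2, []⟩], [3, 2, 2], 1, [(72, 1)]⟩,
⟨2, [⟨4, 3, []⟩, ⟨16, 3, []⟩], [3, 3], 1, [(20, 1)]⟩,
⟨1, [⟨2, 2, []⟩, ⟨68, 2, []⟩], [3, 3, 3], 1, [(6, 1), (66, 1)]⟩,
⟨0, [⟨2, 4, []⟩, ⟨64, 2, []⟩], [3, 2, 2], 1, [(66, 1)]⟩,
⟨2, [⟨4, 4, []⟩, ⟨1, 2, []⟩], [3, 2, 2], 1, [(5, 1)]⟩,
⟨0, [⟨10, 2, []⟩, ⟨32, 2, []⟩], [3, 3, 3], 1, [(34, 1), (40, 1)]⟩,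
⟨2, [⟨8, 2, []⟩, ⟨64, 4, []⟩], [3, 1, 1], 1, [(72, 1)]⟩,
⟨0, [⟨1, 2, []⟩, ⟨16, 2, []⟩], [3, 3, 3], 1, [(17, 1)]⟩,
⟨1, [⟨12, 2, []⟩, ⟨16, 2, []⟩], [3, 3, 3], 1, [(20, 1), (24, 1)]⟩,
⟨2, [⟨72, 4, []⟩, ⟨32, 2, []⟩], [3, 2, 2], 1, [(40, 1), (96, 1)]⟩,
⟨1, [⟨10, 2, []⟩, ⟨64, 2, []⟩], [3, 3, 3], 1, [(66, 1), (72, 1)]⟩,
⟨0, [⟨9, 2, []⟩, ⟨64, 2, []⟩], [3, 3, 3], 1, [(65, 1), (72, 1)]⟩,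
⟨0, [⟨16, 2, []⟩, ⟨64, 2, []⟩], [3, 3, 3], 1, [(80, 1)]⟩,
⟨0, [⟨12, 2, []⟩, ⟨64, 2, []⟩], [3, 3, 3], 1, [(68, 1), (72, 1)]⟩,
⟨1, [⟨36, 2, []⟩, ⟨64, 2, []⟩], [3, 3, 3], 1, [(68, 1), (96, 1)]⟩,
⟨1, [⟨34, 2, []⟩, ⟨16, 2, []⟩], [3, 3, 3], 1, [(18, 1), (48, 1)]⟩,
⟨2, [⟨80, 4, []⟩, ⟨4, 2, []⟩], [3, 2, 2], 1, [(20, 1), (68, 1)]⟩,
⟨2, [⟨16, 4, []⟩, ⟨8, 2, []⟩], [3, 2, 2], 1, [(24, 1)]⟩,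
⟨1, [⟨10, 2, []⟩, ⟨16, 2, []⟩], [3, 3, 3], 1, [(18, 1), (24, 1)]⟩,
⟨0, [⟨1, 2, []⟩, ⟨32, 2, []⟩], [3, 3, 3], 1, [(33, 1)]⟩,
⟨2, [⟨65, 4, []⟩, ⟨4, 2, []⟩], [3, 2, 2], 1, [(5, 1), (68, 1)]⟩,
⟨2, [⟨32, 4, []⟩, ⟨16, 2, []⟩], [3, 2, 2], 1, [(48, 1)]⟩,
⟨2, [⟨1, 3, []⟩, ⟨32, 3, []⟩], [3, 3], 1, [(33, 1)]⟩,
⟨1, [⟨8, 3, []⟩, ⟨32, 3, []⟩], [3, 3], 1, [(40, 1)]⟩,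
⟨2, [⟨96, 4, []⟩, ⟨16, 2, []⟩], [3, 2, 2], 1, [(48, 1), (80, 1)]⟩,
⟨1, [⟨8, 3, []⟩, ⟨16, 3, []⟩], [3, 3], 1, [(24, 1)]⟩,
⟨0, [⟨32, 2, []⟩, ⟨80, 2, []⟩], [3, 3, 3], 1, [(48, 1), (96, 1)]⟩,
⟨1, [⟨8, 2, []⟩, ⟨96, 2, []⟩], [3, 3, 3], 1, [(40, 1), (72, 1)]⟩,
⟨1, [⟨32, 2, []⟩, ⟨72, 2, []⟩], [3, 3, 3], 1, [(40, 1), (96, 1)]⟩,
⟨0, [⟨2, 2, []⟩, ⟨68, 2, []⟩], [3, 3, 3], 1, [(6, 1), (66, 1)]⟩,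
⟨1, [⟨9, 2, []⟩, ⟨16, 2, []⟩], [3, 3, 3], 1, [(17, 1), (24, 1)]⟩,
⟨1, [⟨10, 2, []⟩, ⟨32, 2, []⟩], [3, 3, 3], 1, [(34, 1), (40, 1)]⟩,
⟨0, [⟨4, 2, []⟩, ⟨32, 2, []⟩], [3, 3, 3], 1, [(36, 1)]⟩,
⟨2, [⟨32, 4, []⟩, ⟨8, 2, []⟩], [3, 2, 2], 1, [(40, 1)]⟩,
⟨0, [⟨10, 2, []⟩, ⟨16, 2, []⟩], [3, 3, 3], 1, [(18, 1), (24, 1)]⟩,
⟨1, [⟨2, 2, []⟩, ⟨16, 2, []⟩], [3, 3, 3], 1, [(18, 1)]⟩,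
⟨0, [⟨20, 2, []⟩, ⟨2, 2, []⟩], [3, 3, 3], 1, [(6, 1), (18, 1)]⟩,
⟨0, [⟨36, 2, []⟩, ⟨16, 2, []⟩], [3, 3, 3], 1, [(20, 1), (48, 1)]⟩,
⟨2, [⟨4, 2, []⟩, ⟨48, 4, []⟩], [3, 1, 1], 1, [(20, 1), (36, 1)]⟩,
⟨2, [⟨80, 4, []⟩, ⟨1, 2, []⟩], [3, 2, 2], 1, [(17, 1), (65, 1)]⟩,
⟨1, [⟨1, 2, []⟩, ⟨64, 2, []⟩], [3, 3, 3], 1, [(65, 1)]⟩,
⟨2, [⟨16, 4, []⟩, ⟨64, 2, []⟩], [3, 2, 2], 1, [(80, 1)]⟩,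
⟨2, [⟨33, 3, []⟩, ⟨64, 3, []⟩], [3, 3], 1, [(65, 1), (96, 1)]⟩,
⟨2, [⟨66, 4, []⟩, ⟨32, 2, []⟩], [3, 2, 2], 1, [(34, 1), (96, 1)]⟩,
⟨0, [⟨32, 4, []⟩, ⟨64, 2, []⟩], [3, 2, 2], 1, [(96, 1)]⟩,
⟨0, [⟨1, 4, []⟩, ⟨2, 2, []⟩], [3, 2, 2], 1, [(3, 1)]⟩,
⟨1, [⟨33, 2, []⟩, ⟨4, 2, []⟩], [3, 3, 3], 1, [(5, 1), (36, 1)]⟩,
⟨0, [⟨16, 2, []⟩, ⟨72, 2, []⟩], [3, 3, 3], 1, [(24, 1), (80, 1)]⟩,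
⟨2, [⟨72, 4, []⟩, ⟨4, 2, []⟩], [3, 2, 2], 1, [(12, 1), (68, 1)]⟩,
⟨0, [⟨12, 2, []⟩, ⟨2, 2, []⟩], [3, 3, 3], 1, [(6, 1), (10, 1)]⟩,
⟨0, [⟨1, 2, []⟩, ⟨68, 2, []⟩], [3, 3, 3], 1, [(5, 1), (65, 1)]⟩,
⟨2, [⟨1, 3, []⟩, ⟨4, 3, []⟩], [3, 3], 1, [(5, 1)]⟩,
⟨1, [⟨1, 4, []⟩, ⟨4, 2, []⟩], [3, 2, 2], 1, [(5, 1)]⟩,
⟨1, [⟨12, 2, []⟩, ⟨2, 2, []⟩], [3, 3, 3], 1, [(6, 1), (10, 1)]⟩,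
⟨0, [⟨4, 2, []⟩, ⟨65, 2, []⟩], [3, 3, 3], 1, [(5, 1), (68, 1)]⟩,
⟨2, [⟨96, 4, []⟩, ⟨2, 2, []⟩], [3, 2, 2], 1, [(34, 1), (66, 1)]⟩,
⟨0, [⟨36, 2, []⟩, ⟨64, 2, []⟩], [3, 3, 3], 1, [(68, 1), (96, 1)]⟩,
⟨1, [⟨18, 2, []⟩, ⟨8, 2, []⟩], [3, 3, 3], 1, [(10, 1), (24, 1)]⟩,
⟨0, [⟨17, 2, []⟩, ⟨8, 2, []⟩], [3, 3, 3], 1, [(9, 1), (24, 1)]⟩,
⟨2, [⟨68, 4, []⟩, ⟨16, 2, []⟩], [3, 2, 2], 1, [(20, 1), (80, 1)]⟩,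
⟨1, [⟨9, 2, []⟩, ⟨32, 2, []⟩], [3, 3, 3], 1, [(33, 1), (40, 1)]⟩,
⟨2, [⟨16, 4, []⟩, ⟨32, 2, []⟩], [3, 2, 2], 1, [(48, 1)]⟩,
⟨1, [⟨2, 2, []⟩, ⟨8, 2, []⟩], [3, 3, 3], 1, [(10, 1)]⟩,
⟨2, [⟨1, 4, []⟩, ⟨4, 2, []⟩], [3, 2, 2], 1, [(5, 1)]⟩,
⟨0, [⟨16, 4, []⟩, ⟨64, 2, []⟩], [3, 2, 2], 1, [(80, 1)]⟩,
⟨2, [⟨2, 3, []⟩, ⟨32, 3, []⟩], [3, 3], 1, [(34, 1)]⟩,
⟨0, [⟨33, 2, []⟩, ⟨4, 2, []⟩], [3, 3, 3], 1, [(5, 1), (36, 1)]⟩,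
⟨0, [⟨16, 2, []⟩, ⟨96, 2, []⟩], [3, 3, 3], 1, [(48, 1), (80, 1)]⟩,
⟨1, [⟨4, 2, []⟩, ⟨16, 2, []⟩], [3, 3, 3], 1, [(20, 1)]⟩,
⟨1, [⟨4, 2, []⟩, ⟨65, 2, []⟩], [3, 3, 3], 1, [(5, 1), (68, 1)]⟩,
⟨1, [⟨20, 2, []⟩, ⟨2, 2, []⟩], [3, 3, 3], 1, [(6, 1), (18, 1)]⟩,
⟨0, [⟨4, 4, []⟩, ⟨2, 2, []⟩], [3, 2, 2], 1, [(6, 1)]⟩,
⟨1, [⟨16, 4, []⟩, ⟨8, 2, []⟩], [3, 2, 2], 1, [(24, 1)]⟩,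
⟨0, [⟨32, 2, []⟩, ⟨64, 2, []⟩], [3, 3, 3], 1, [(96, 1)]⟩,
⟨0, [⟨16, 4, []⟩, ⟨32, 2, []⟩], [3, 2, 2], 1, [(48, 1)]⟩,
⟨1, [⟨32, 4, []⟩, ⟨16, 2, []⟩], [3, 2, 2], 1, [(48, 1)]⟩,
⟨1, [⟨1, 3, []⟩, ⟨2, 3, []⟩], [3, 3], 1, [(3, 1)]⟩,
⟨2, [⟨16, 3, []⟩, ⟨32, 3, []⟩], [3, 3], 1, [(48, 1)]⟩,
⟨1, [⟨1, 3, []⟩, ⟨8, 3, []⟩], [3, 3], 1, [(9, 1)]⟩,
⟨2, [⟨80, 4, []⟩, ⟨8, 2, []⟩], [3, 2, 2], 1, [(24, 1), (72, 1)]⟩,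
⟨2, [⟨80, 4, []⟩, ⟨2, 2, []⟩], [3, 2, 2], 1, [(18, 1), (66, 1)]⟩,
⟨1, [⟨1, 4, []⟩, ⟨64, 2, []⟩], [3, 2, 2], 1, [(65, 1)]⟩,
⟨2, [⟨34, 3, []⟩, ⟨64, 3, []⟩], [3, 3], 1, [(66, 1), (96, 1)]⟩,
⟨2, [⟨20, 3, []⟩, ⟨64, 3, []⟩], [3, 3], 1, [(68, 1), (80, 1)]⟩,
⟨0, [⟨9, 2, []⟩, ⟨2, 2, []⟩], [3, 3, 3], 1, [(3, 1), (10, 1)]⟩,
⟨1, [⟨16, 3, []⟩, ⟨32, 3, []⟩], [3, 3], 1, [(48, 1)]⟩,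
⟨0, [⟨2, 2, []⟩, ⟨8, 2, []⟩], [3, 3, 3], 1, [(10, 1)]⟩,
⟨2, [⟨1, 3, []⟩, ⟨8, 3, []⟩], [3, 3], 1, [(9, 1)]⟩,
⟨0, [⟨2, 2, []⟩, ⟨16, 2, []⟩], [3, 3, 3], 1, [(18, 1)]⟩,
⟨0, [⟨1, 3, []⟩, ⟨4, 3, []⟩], [3, 3], 1, [(5, 1)]⟩,
⟨1, [⟨2, 3, []⟩, ⟨4, 3, []⟩], [3, 3], 1, [(6, 1)]⟩,
⟨0, [⟨36, 2, []⟩, ⟨1, 2, []⟩], [3, 3, 3], 1, [(5, 1), (33, 1)]⟩,
⟨2, [⟨32, 2, []⟩, ⟨64, 4, []⟩], [3, 1, 1], 1, [(96, 1)]⟩,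
⟨2, [⟨4, 3, []⟩, ⟨32, 3, []⟩], [3, 3], 1, [(36, 1)]⟩,
⟨1, [⟨18, 2, []⟩, ⟨1, 2, []⟩], [3, 3, 3], 1, [(3, 1), (17, 1)]⟩,
⟨2, [⟨65, 4, []⟩, ⟨8, 2, []⟩], [3, 2, 2], 1, [(9, 1), (72, 1)]⟩,
⟨1, [⟨16, 4, []⟩, ⟨32, 2, []⟩], [3, 2, 2], 1, [(48, 1)]⟩,
⟨2, [⟨2, 4, []⟩, ⟨1, 2, []⟩], [3, 2, 2], 1, [(3, 1)]⟩,
⟨1, [⟨20, 2, []⟩, ⟨32, 2, []⟩], [3, 3, 3], 1, [(36, 1), (48, 1)]⟩,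
⟨2, [⟨68, 4, []⟩, ⟨32, 2, []⟩], [3, 2, 2], 1, [(36, 1), (96, 1)]⟩,
⟨2, [⟨32, 4, []⟩, ⟨64, 2, []⟩], [3, 2, 2], 1, [(96, 1)]⟩,
⟨1, [⟨32, 2, []⟩, ⟨80, 2, []⟩], [3, 3, 3], 1, [(48, 1), (96, 1)]⟩,
⟨0, [⟨33, 2, []⟩, ⟨8, 2, []⟩], [3, 3, 3], 1, [(9, 1), (40, 1)]⟩,
⟨0, [⟨1, 3, []⟩, ⟨2, 3, []⟩], [3, 3], 1, [(3, 1)]⟩,
⟨0, [⟨18, 2, []⟩, ⟨64, 2, []⟩], [3, 3, 3], 1, [(66, 1), (80, 1)]⟩,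
⟨0, [⟨4, 4, []⟩, ⟨64, 2, []⟩], [3, 2, 2], 1, [(68, 1)]⟩,
⟨1, [⟨8, 4, []⟩, ⟨32, 2, []⟩], [3, 2, 2], 1, [(40, 1)]⟩,
⟨0, [⟨8, 4, []⟩, ⟨64, 2, []⟩], [3, 2, 2], 1, [(72, 1)]⟩,
⟨0, [⟨4, 2, []⟩, ⟨8, 2, []⟩], [3, 3, 3], 1, [(12, 1)]⟩,
⟨1, [⟨8, 2, []⟩, ⟨64, 4, []⟩], [3, 1, 1], 1, [(72, 1)]⟩,
⟨0, [⟨10, 2, []⟩, ⟨64, 2, []⟩], [3, 3, 3], 1, [(66, 1), (72, 1)]⟩,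
⟨1, [⟨16, 2, []⟩, ⟨64, 2, []⟩], [3, 3, 3], 1, [(80, 1)]⟩,
⟨1, [⟨2, 2, []⟩, ⟨64, 2, []⟩], [3, 3, 3], 1, [(66, 1)]⟩,
⟨2, [⟨10, 3, []⟩, ⟨64, 3, []⟩], [3, 3], 1, [(66, 1), (72, 1)]⟩,
⟨1, [⟨34, 2, []⟩, ⟨1, 2, []⟩], [3, 3, 3], 1, [(3, 1), (33, 1)]⟩,
⟨0, [⟨8, 4, []⟩, ⟨32, 2, []⟩], [3, 2, 2], 1, [(40, 1)]⟩,
⟨1, [⟨1, 4, []⟩, ⟨2, 2, []⟩], [3, 2, 2], 1, [(3, 1)]⟩,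
⟨0, [⟨2, 2, []⟩, ⟨32, 2, []⟩], [3, 3, 3], 1, [(34, 1)]⟩,
⟨1, [⟨10, 2, []⟩, ⟨4, 2, []⟩], [3, 3, 3], 1, [(6, 1), (12, 1)]⟩,
⟨0, [⟨32, 2, []⟩, ⟨72, 2, []⟩], [3, 3, 3], 1, [(40, 1), (96, 1)]⟩,
⟨1, [⟨4, 4, []⟩, ⟨1, 2, []⟩], [3, 2, 2], 1, [(5, 1)]⟩,
⟨1, [⟨34, 2, []⟩, ⟨64, 2, []⟩], [3, 3, 3], 1, [(66, 1), (96, 1)]⟩,
⟨1, [⟨12, 2, []⟩, ⟨64, 2, []⟩], [3, 3, 3], 1, [(68, 1), (72, 1)]⟩,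
⟨1, [⟨10, 2, []⟩, ⟨1, 2, []⟩], [3, 3, 3], 1, [(3, 1), (9, 1)]⟩]

theorem base_ok : base.all (fun q => q.ok 7 3 [7, 56, 64] big4 big4 []) = true := by decide +kernel

theorem gads_ok : gads.all (fun g => Nat.blt g.j 3 && g.ok 7 (([0, 0, 2] : List ℕ).getD g.j 0)) = true := by
  decide +kernel

theorem cmp_ok : cmpR names cnf (cls 3 base ++ gads.map Gt.cl) = true := by decide +kernel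

end D80

theorem inst_80 : instB 1 [0, 0, 2] [64] [] D80.base D80.gads D80.names D80.cnf D80.db D80.prf = true :=
  instB_of D80.base_ok D80.gads_ok (by decide +kernel) D80.okc D80.cmp_ok D80.chk_ok

/-- no gadget has fewer than `2 R` new points. -/
theorem p2_80 : D80.gads.all (fun g => Nat.ble (2 * g.R) g.gs.length) = true := by decide +kernel

/-- there is no configuration of this instance. -/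
theorem no_80 {V : Type v} [DecidableEq V] {ι : Type u} [Fintype ι] {B : ι → Finset V}
    {Q : Finset V} {i j : ι} {x : ℕ → V} {D : ℕ → Finset V}
    (h : CfI B Q 1 x D i j [0, 0, 2] [64]) : False :=
  h.absurd (by decide) srt_nil inst_80

end Pool.Agent.Hyp6
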