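import Pool.Agent.Hyp6.Cseg2
import Pool.Agent.Hyp6.Ins.E81

/-!
# HYP6: instance 81 of the list: n = 1, bounds [0, 0, 2], inner blocks [65]

640 base clauses, 185 gadgets, 970 learned clauses.
-/

set_option autoImplicit false
set_option maxRecDepth 100000

namespace Pool.Agent.Hyp6

open Rup

universe u v

namespace D81

noncomputable def base : List Rs := [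
.l2 1 36 40 5 1 1,
.ab2 1 48,
.l2 0 12 40 3 1 1,
.hall [1] [0, 1, 6],
.hall [0, 1] [1, 2],
.part [10, 20, 97] [0, 0, 1] [] [],
.part [8, 64, 55] [0, 0, 1] [] [],
.le 0 80 64 6 1,
.ordE 1 32 3,
.hall [1] [0, 2, 6],
.ordE 2 16 2,
.deg 4 [0, 1, 2],
.deg 2 [2, 0, 1],
.le 0 72 64 6 1,
.ordE 1 2 3,
.deg 1 [1, 1, 1],
.join 1 4 4 2 2 0 [(2, 0)],
.hall [1, 2] [1, 2],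
.part [20, 105, 2] [0, 1, 0] [] [],
.hall [0] [3, 5, 6],
.hall [1, 2] [2, 6],
.join 0 2 5 2 1 1 [(1, 0)],
.le 0 66 64 6 1,
.deg 0 [2, 0, 0],
.part [10, 4, 113] [0, 0, 1] [] [],
.ordE 2 8 2,
.deg 3 [0, 3, 0],
.part [16, 8, 96] [0, 0, 0] [7] [],
.part [18, 105, 4] [0, 1, 0] [] [],
.part [36, 73, 18] [0, 1, 0] [] [],
.hall [0, 1, 2] [4],
.part [68, 2, 57] [0, 0, 1] [] [],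
.ab2 2 96,
.deg 6 [2, 0, 1],
.ordE 1 2 1,
.ab2 2 24,
.ab2 0 18,
.l2 1 10 12 3 1 1,
.part [36, 10, 81] [0, 0, 1] [] [],
.ab2 0 66,
.le 0 80 64 6 2,
.join 0 8 6 2 3 0 [(3, 1)],
.ordE 0 16 1,
.mono 1 4 36 1,
.mono 1 64 96 1,
.part [18, 73, 36] [0, 1, 0] [] [],
.part [32, 18, 12] [0, 0, 0] [65] [],
.lip 1 24 89 65,
.le 1 80 64 6 2,
.mono 1 32 36 1,
.join 1 8 6 2 2 1 [(3, 1)],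
.ordE 1 8 2,
.join 0 32 6 2 2 0 [(5, 0)],
.part [64, 24, 39] [0, 0, 1] [] [],
.lip 1 16 81 65,
.part [104, 17, 6] [1, 0, 0] [] [],
.join 0 16 6 2 1 1 [(4, 0)],
.ab2 0 6,
.hall [0, 1] [0, 2],
.ab2 1 20,
.join 0 2 6 2 2 0 [(1, 0)],
.ab2 0 68,
.l2 0 18 48 4 1 1,
.le 1 96 64 6 2,
.l2 1 72 96 6 1 1,
.part [1, 6, 64] [0, 0, 0] [56] [],
.part [10, 97, 20] [0, 1, 0] [] [],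
.part [12, 66, 1] [0, 0, 0] [48] [],
.join 0 8 4 2 1 1 [(3, 0)],
.l2 1 24 48 4 1 1,
.part [20, 66, 1] [0, 0, 0] [40] [],
.part [121, 4, 2] [1, 0, 0] [] [],
.part [34, 12, 81] [0, 0, 1] [] [],
.part [47, 16, 64] [1, 0, 0] [] [],
.part [1, 2, 68] [0, 0, 0] [56] [],
.part [2, 124, 1] [0, 1, 0] [] [],
.join 1 16 6 2 2 1 [(4, 1)],
.ab 1 5,
.part [2, 64, 61] [0, 0, 1] [] [],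
.ab2 1 24,
.l2 1 80 96 6 1 1,
.deg 2 [2, 1, 0],
.part [18, 97, 12] [0, 1, 0] [] [],
.part [4, 1, 122] [0, 0, 1] [] [],
.join 1 8 6 2 3 0 [(3, 1)],
.join 0 8 6 2 2 1 [(3, 1)],
.part [5, 120, 2] [0, 1, 0] [] [],
.part [124, 1, 2] [1, 0, 0] [] [],
.l2 1 68 72 6 1 1,
.deg 1 [2, 0, 1],
.l2 0 10 12 3 1 1,
.ab 1 4,
.lip 0 68 124 56,
.ab 0 1,
.hall [2] [4, 5, 6],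
.ab 1 6,
.join 2 16 6 4 2 2 [(4, 0)],
.ordE 0 8 1,
.lip 0 72 79 7,
.lip 2 48 55 7,
.deg 3 [1, 1, 1],
.mono 1 1 17 1,
.part [66, 45, 16] [0, 1, 0] [] [],
.deg 1 [1, 0, 2],
.part [47, 64, 16] [1, 0, 0] [] [],
.join 1 4 6 2 2 0 [(2, 0)],
.ab 0 4,
.le 1 34 32 5 1,
.part [10, 68, 1] [0, 0, 0] [48] [],
.part [64, 48, 15] [0, 0, 1] [] [],
.lip 0 96 103 7,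
.le 1 72 64 6 1,
.deg 2 [1, 1, 1],
.join 0 8 6 2 2 0 [(3, 0)],
.ordE 2 64 2,
.join 0 32 6 2 3 0 [(5, 1)],
.hall [0, 2] [0, 6],
.mono 2 16 20 1,
.l2 0 66 68 6 1 1,
.join 1 16 6 2 3 0 [(4, 1)],
.part [8, 36, 18] [0, 0, 0] [65] [],
.part [20, 1, 66] [0, 0, 0] [40] [],
.ab2 1 96,
.part [66, 20, 1] [0, 0, 0] [40] [],
.deg 2 [0, 2, 1],
.part [20, 10, 97] [0, 0, 1] [] [],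
.join 0 4 3 2 2 0 [(2, 0)],
.mono 0 32 36 1,
.le 2 36 32 5 1,
.ab2 1 66,
.part [80, 8, 34] [0, 0, 0] [5] [],
.lip 2 40 47 7,
.ab2 1 68,
.part [32, 64, 31] [0, 0, 1] [] [],
.join 0 8 6 2 1 1 [(3, 0)],
.deg 5 [3, 0, 0],
.part [68, 43, 16] [0, 1, 0] [] [],
.ordE 1 64 1,
.part [34, 77, 16] [0, 1, 0] [] [],
.join 1 16 6 2 1 1 [(4, 0)],
.hall [2] [3, 4, 5],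
.le 0 20 16 4 1,
.l2 0 18 20 4 1 1,
.part [34, 73, 20] [0, 1, 0] [] [],
.join 1 16 6 2 2 0 [(4, 0)],
.part [32, 80, 8] [0, 0, 0] [7] [],
.l2 0 9 24 3 1 1,
.part [64, 40, 23] [0, 0, 1] [] [],
.part [124, 2, 1] [1, 0, 0] [] [],
.part [1, 124, 2] [0, 1, 0] [] [],
.lip 0 40 47 7,
.part [1, 64, 62] [0, 0, 1] [] [],
.ab 2 0,
.le 2 20 16 4 1,
.ab2 1 36,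
.lip 0 64 120 56,
.part [55, 8, 64] [1, 0, 0] [] [],
.part [121, 2, 4] [1, 0, 0] [] [],
.join 2 8 4 4 2 2 [(3, 0)],
.join 1 4 4 2 1 1 [(2, 0)],
.ordE 1 4 2,
.deg 4 [1, 1, 1],
.join 0 16 6 2 2 0 [(4, 0)],
.join 1 8 4 2 1 1 [(3, 0)],
.ordE 0 64 2,
.lip 1 66 122 56,
.part [8, 32, 80] [0, 0, 0] [7] [],
.lip 2 24 31 7,
.ordE 0 64 1,
.le 2 34 32 5 1,
.lip 2 32 97 65,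
.part [122, 1, 4] [1, 0, 0] [] [],
.deg 3 [1, 2, 0],
.join 0 4 6 2 2 0 [(2, 0)],
.ab 2 2,
.l2 0 66 80 6 1 1,
.join 1 4 5 2 2 0 [(2, 0)],
.ordE 1 1 1,
.ab2 0 34,
.join 2 4 6 4 1 3 [(2, 0)],
.le 0 72 64 6 2,
.un 1 1,
.deg 2 [1, 2, 0],
.part [120, 3, 4] [1, 0, 0] [] [],
.ordE 2 8 1,
.deg 6 [3, 0, 0],
.ab2 0 36,
.deg 0 [1, 0, 1],
.part [36, 18, 73] [0, 0, 1] [] [],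
.l2 0 10 24 3 1 1,
.deg 4 [1, 2, 0],
.join 1 16 5 2 1 1 [(4, 0)],
.hall [1] [3, 4, 6],
.join 2 2 6 4 1 3 [(1, 0)],
.join 2 4 5 3 3 2 [(2, 2)],
.part [6, 121, 0] [0, 1, 0] [] [],
.lip 1 64 120 56,
.join 2 4 5 4 1 3 [(2, 0)],
.part [16, 96, 8] [0, 0, 0] [7] [],
.part [34, 20, 73] [0, 0, 1] [] [],
.ordE 1 8 1,
.mono 2 2 18 1,
.join 0 2 4 2 1 1 [(1, 0)],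
.lip 1 16 23 7,
.part [72, 32, 16] [0, 0, 0] [7] [],
.hall [0, 1] [0, 1],
.ab2 1 80,
.le 0 10 8 3 1,
.hall [1] [0, 1, 2],
.hall [0] [0, 2, 6],
.join 0 4 5 2 1 1 [(2, 0)],
.join 2 4 4 3 3 2 [(2, 2)],
.part [89, 2, 36] [1, 0, 0] [] [],
.mono 0 4 68 1,
.part [68, 18, 1] [0, 0, 0] [40] [],
.lip 2 6 62 56,
.l2 0 68 96 6 1 1,
.part [32, 20, 10] [0, 0, 0] [65] [],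
.ordE 0 4 2,
.lip 2 8 73 65,
.part [3, 4, 64] [0, 0, 0] [56] [],
.le 1 10 8 3 1,
.lip 2 8 15 7,
.join 2 4 3 4 1 3 [(2, 0)],
.join 2 8 6 4 1 3 [(3, 0)],
.part [1, 122, 4] [0, 1, 0] [] [],
.deg 6 [1, 0, 2],
.ab2 2 36,
.join 0 16 6 2 2 1 [(4, 1)],
.ab 0 6,
.join 1 8 6 2 1 1 [(3, 0)],
.ordE 2 16 1,
.join 1 1 5 2 0 2 [(0, 0)],
.deg 3 [1, 0, 2],
.deg 3 [2, 1, 0],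
.mono 1 64 80 1,
.le 0 96 64 6 2,
.deg 1 [1, 2, 0],
.part [16, 72, 32] [0, 0, 0] [7] [],
.join 0 2 6 2 1 1 [(1, 0)],
.ordE 0 16 2,
.ab 0 3,
.part [10, 1, 68] [0, 0, 0] [48] [],
.mono 1 16 18 1,
.hall [0, 2] [1, 2],
.mono 0 8 10 1,
.lip 2 18 58 56,
.part [32, 31, 64] [0, 1, 0] [] [],
.part [66, 36, 1] [0, 0, 0] [24] [],
.part [1, 4, 66] [0, 0, 0] [56] [],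
.part [4, 122, 1] [0, 1, 0] [] [],
.un 0 5,
.part [64, 32, 24] [0, 0, 0] [7] [],
.part [32, 12, 18] [0, 0, 0] [65] [],
.hall [0] [4, 5, 6],
.part [41, 80, 6] [1, 0, 0] [] [],
.le 0 34 32 5 1,
.mono 0 4 12 1,
.lip 0 66 122 56,
.lip 1 24 31 7,
.part [64, 1, 62] [0, 0, 1] [] [],
.part [80, 8, 32] [0, 0, 0] [7] [],
.join 0 1 4 2 1 1 [(0, 0)],
.le 0 96 64 6 1,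
.l2 1 68 96 6 1 1,
.l2 1 66 96 6 1 1,
.ordE 2 1 1,
.join 2 2 4 3 3 2 [(1, 2)],
.part [16, 40, 6] [0, 0, 0] [65] [],
.lip 2 32 39 7,
.ab2 0 12,
.ab 0 5,
.deg 6 [0, 1, 2],
.un 1 6,
.ab2 2 80,
.mono 1 64 72 1,
.ab2 0 80,
.deg 4 [2, 0, 1],
.ab2 0 48,
.hall [0] [0, 1, 6],
.ab2 0 20,
.ordE 1 32 2,
.l2 0 10 40 3 1 1,
.deg 6 [0, 2, 1],
.ordE 2 2 2,
.ab 2 5,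
.deg 4 [0, 3, 0],
.le 2 20 16 4 3,
.part [1, 66, 60] [0, 0, 1] [] [],
.deg 1 [2, 1, 0],
.ab 1 3,
.lip 1 40 105 65,
.ab2 0 96,
.part [96, 16, 8] [0, 0, 0] [7] [],
.mono 0 64 96 1,
.l2 1 72 80 6 1 1,
.part [12, 81, 34] [0, 1, 0] [] [],
.mono 0 64 68 1,
.deg 3 [0, 0, 3],
.l2 0 9 40 3 1 1,
.join 1 32 6 2 2 1 [(5, 1)],
.lip 2 12 60 56,
.le 2 18 16 4 3,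
.lip 1 3 59 56,
.join 2 32 6 4 1 3 [(5, 0)],
.join 0 4 3 2 1 1 [(2, 0)],
.ordE 0 1 1,
.ab2 1 40,
.part [4, 65, 58] [0, 0, 1] [] [],
.le 2 34 32 5 3,
.part [62, 64, 1] [1, 0, 0] [] [],
.lip 1 32 97 65,
.join 1 2 3 2 1 1 [(1, 0)],
.ab2 0 40,
.le 2 10 8 3 3,
.hall [2] [3, 4, 6],
.part [16, 10, 36] [0, 0, 0] [65] [],
.deg 5 [2, 1, 0],
.le 2 36 32 5 3,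
.ordE 1 64 2,
.le 1 96 64 6 1,
.part [79, 0, 48] [1, 0, 0] [] [],
.join 1 4 5 2 1 1 [(2, 0)],
.ab2 2 68,
.ab2 2 10,
.lip 1 8 15 7,
.part [18, 68, 1] [0, 0, 0] [40] [],
.part [55, 64, 8] [1, 0, 0] [] [],
.ab2 2 48,
.lip 0 1 41 56,
.join 1 1 5 2 1 1 [(0, 0)],
.join 2 2 6 4 4 3 [(1, 3)],
.join 1 32 6 2 1 1 [(5, 0)],
.part [122, 4, 1] [1, 0, 0] [] [],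
.un 2 5,
.lip 1 48 55 7,
.join 0 4 6 2 2 1 [(2, 1)],
.part [20, 73, 34] [0, 1, 0] [] [],
.part [12, 18, 97] [0, 0, 1] [] [],
.part [10, 36, 81] [0, 0, 1] [] [],
.le 1 20 16 4 1,
.deg 0 [0, 2, 0],
.deg 5 [1, 0, 2],
.part [12, 1, 66] [0, 0, 0] [48] [],
.lip 1 3 43 56,
.part [12, 113, 2] [0, 1, 0] [] [],
.hall [1] [4, 5, 6],
.mono 1 8 12 1,
.le 1 68 64 6 1,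
.join 1 2 5 2 1 1 [(1, 0)],
.ordE 1 32 1,
.join 0 16 5 2 1 1 [(4, 0)],
.part [8, 80, 32] [0, 0, 0] [7] [],
.join 2 2 5 4 1 3 [(1, 0)],
.mono 1 2 18 1,
.part [5, 66, 8] [0, 0, 0] [48] [],
.join 0 4 6 2 1 1 [(2, 0)],
.mono 1 64 68 1,
.part [8, 18, 36] [0, 0, 0] [65] [],
.part [32, 16, 72] [0, 0, 0] [7] [],
.le 0 68 64 6 2,
.lip 1 8 73 65,
.part [16, 34, 12] [0, 0, 0] [65] [],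
.lip 1 5 61 56,
.part [18, 36, 73] [0, 0, 1] [] [],
.part [66, 12, 1] [0, 0, 0] [48] [],
.part [2, 65, 60] [0, 0, 1] [] [],
.part [64, 6, 1] [0, 0, 0] [56] [],
.deg 2 [1, 0, 2],
.ab2 1 12,
.l2 0 66 72 6 1 1,
.part [2, 4, 65] [0, 0, 0] [56] [],
.ab 1 0,
.l2 1 6 66 1 1 1,
.join 1 32 6 2 3 0 [(5, 1)],
.deg 4 [1, 0, 2],
.part [3, 68, 8] [0, 0, 0] [48] [],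
.part [34, 1, 68] [0, 0, 0] [24] [],
.ab2 2 72,
.le 1 72 64 6 2,
.ab 2 3,
.deg 4 [0, 0, 3],
.join 0 2 4 2 2 0 [(1, 0)],
.part [40, 23, 64] [0, 1, 0] [] [],
.ordE 2 4 2,
.lip 1 68 124 56,
.join 0 8 5 2 1 1 [(3, 0)],
.ordE 1 4 1,
.mono 2 32 96 1,
.mono 0 2 66 1,
.un 0 4,
.part [64, 2, 5] [0, 0, 0] [56] [],
.deg 2 [0, 1, 2],
.part [12, 97, 18] [0, 1, 0] [] [],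
.part [64, 4, 3] [0, 0, 0] [56] [],
.part [1, 68, 58] [0, 0, 1] [] [],
.part [80, 32, 8] [0, 0, 0] [7] [],
.join 2 4 5 4 4 0 [(2, 0)],
.join 2 4 5 3 3 0 [(2, 0)],
.ab2 1 34,
.lip 1 40 47 7,
.l2 1 34 40 5 1 1,
.lip 2 66 122 56,
.deg 5 [0, 2, 1],
.ab 2 1,
.ordE 0 4 1,
.join 2 4 4 4 4 0 [(2, 0)],
.join 2 2 3 4 1 3 [(1, 0)],
.part [5, 2, 64] [0, 0, 0] [56] [],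
.part [4, 59, 64] [0, 1, 0] [] [],
.l2 0 66 96 6 1 1,
.ordE 0 32 2,
.mono 1 2 34 1,
.ab2 0 10,
.hall [0] [0, 1, 2],
.join 0 2 3 2 1 1 [(1, 0)],
.hall [2] [0, 1, 6],
.join 1 2 5 2 2 0 [(1, 0)],
.mono 1 32 34 1,
.l2 1 20 48 4 1 1,
.mono 0 64 80 1,
.deg 3 [0, 1, 2],
.lip 0 64 104 56,
.l2 1 66 72 6 1 1,
.part [16, 32, 72] [0, 0, 0] [7] [],
.deg 5 [0, 0, 3],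
.hall [1, 2] [3, 4],
.un 0 1,
.mono 0 16 20 1,
.l2 0 72 96 6 1 1,
.deg 6 [1, 2, 0],
.join 1 4 3 2 1 1 [(2, 0)],
.hall [2] [0, 2, 6],
.deg 5 [1, 2, 0],
.part [68, 10, 1] [0, 0, 0] [48] [],
.part [18, 1, 68] [0, 0, 0] [40] [],
.le 1 80 64 6 1,
.join 2 8 4 4 1 3 [(3, 0)],
.part [8, 96, 16] [0, 0, 0] [7] [],
.ab2 0 72,
.ab2 1 72,
.lip 2 68 124 56,
.ordE 1 16 3,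
.deg 6 [2, 1, 0],
.deg 0 [0, 1, 1],
.deg 0 [0, 0, 2],
.join 1 8 5 2 1 1 [(3, 0)],
.part [32, 10, 20] [0, 0, 0] [65] [],
.join 0 2 3 2 2 0 [(1, 0)],
.part [36, 89, 2] [0, 1, 0] [] [],
.part [10, 113, 4] [0, 1, 0] [] [],
.join 2 8 6 4 3 1 [(3, 0)],
.ab2 1 33,
.part [32, 72, 16] [0, 0, 0] [7] [],
.join 2 8 6 4 2 2 [(3, 0)],
.ab2 1 18,
.join 0 32 6 2 2 1 [(5, 1)],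
.l2 0 20 48 4 1 1,
.join 1 8 6 2 2 0 [(3, 0)],
.lip 2 20 60 56,
.ab 0 0,
.part [36, 66, 1] [0, 0, 0] [24] [],
.part [8, 48, 6] [0, 0, 0] [65] [],
.lip 1 48 113 65,
.join 0 1 3 2 1 1 [(0, 0)],
.un 1 3,
.part [64, 8, 48] [0, 0, 0] [7] [],
.lip 0 48 55 7,
.le 2 66 64 6 4,
.deg 5 [2, 0, 1],
.join 2 32 6 4 2 2 [(5, 0)],
.ab 2 4,
.mono 0 64 66 1,
.lip 2 5 61 56,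
.join 1 2 3 2 2 0 [(1, 0)],
.part [34, 81, 12] [0, 1, 0] [] [],
.le 0 18 16 4 1,
.deg 1 [0, 0, 3],
.le 1 66 64 6 1,
.le 0 12 8 3 1,
.ordE 1 16 2,
.ordE 2 4 1,
.ordE 0 2 2,
.ordE 0 8 2,
.part [103, 0, 24] [1, 0, 0] [] [],
.join 2 4 6 4 3 1 [(2, 0)],
.un 1 5,
.join 0 4 6 2 3 0 [(2, 1)],
.deg 1 [0, 1, 2],
.join 1 2 6 2 2 0 [(1, 0)],
.hall [0] [1, 2, 6],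
.part [24, 39, 64] [0, 1, 0] [] [],
.ordE 0 2 1,
.ab 0 2,
.part [36, 81, 10] [0, 1, 0] [] [],
.part [64, 16, 40] [0, 0, 0] [7] [],
.join 2 32 6 4 3 1 [(5, 0)],
.l2 0 68 80 6 1 1,
.lip 2 16 23 7,
.join 2 2 5 3 3 2 [(1, 2)],
.join 2 2 3 3 3 2 [(1, 2)],
.hall [0] [3, 4, 5],
.part [16, 12, 34] [0, 0, 0] [65] [],
.lip 0 65 89 56,
.join 2 2 5 4 4 0 [(1, 0)],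
.join 1 2 4 2 1 1 [(1, 0)],
.part [20, 97, 10] [0, 1, 0] [] [],
.part [12, 2, 113] [0, 0, 1] [] [],
.join 2 8 5 4 2 2 [(3, 0)],
.ab 1 1,
.deg 6 [1, 1, 1],
.l2 1 20 24 4 1 1,
.join 2 4 3 4 4 0 [(2, 0)],
.deg 0 [1, 1, 0],
.ab2 2 40,
.join 0 4 4 2 1 1 [(2, 0)],
.deg 5 [1, 1, 1],
.part [48, 15, 64] [0, 1, 0] [] [],
.part [120, 5, 2] [1, 0, 0] [] [],
.lip 0 65 121 56,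
.un 0 3,
.ordE 0 64 3,
.part [16, 47, 64] [0, 1, 0] [] [],
.join 2 2 5 3 3 0 [(1, 0)],
.part [6, 9, 64] [0, 0, 0] [48] [],
.l2 1 18 20 4 1 1,
.mono 0 64 72 1,
.deg 3 [3, 0, 0],
.deg 4 [3, 0, 0],
.le 2 12 8 3 1,
.join 2 8 4 4 3 1 [(3, 0)],
.join 2 16 6 4 1 3 [(4, 0)],
.hall [1] [1, 2, 6],
.l2 1 18 24 4 1 1,
.join 0 2 5 2 2 0 [(1, 0)],
.lip 2 16 81 65,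
.part [8, 20, 34] [0, 0, 0] [65] [],
.part [8, 34, 20] [0, 0, 0] [65] [],
.lip 0 6 62 56,
.part [20, 34, 73] [0, 0, 1] [] [],
.l2 1 68 80 6 1 1,
.hall [2] [3, 5, 6],
.part [16, 36, 10] [0, 0, 0] [65] [],
.hall [2] [1, 2, 6],
.part [12, 34, 81] [0, 0, 1] [] [],
.part [8, 16, 96] [0, 0, 0] [7] [],
.ab 1 2,
.ordE 2 2 1,
.l2 0 80 96 6 1 1,
.part [3, 120, 4] [0, 1, 0] [] [],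
.lip 1 65 121 56,
.ab 2 6,
.ordE 0 32 1,
.le 0 68 64 6 1,
.ab2 2 66,
.ordE 0 1 2,
.join 0 4 4 2 2 0 [(2, 0)],
.l2 0 12 24 3 1 1,
.ordE 2 64 1,
.hall [1, 2] [3, 5],
.un 2 6,
.part [18, 12, 97] [0, 0, 1] [] [],
.lip 1 32 39 7,
.hall [1] [3, 5, 6],
.deg 5 [0, 3, 0],
.deg 4 [2, 1, 0],
.join 2 4 3 3 3 2 [(2, 2)],
.join 0 2 2 2 1 1 [(1, 0)],
.part [68, 34, 1] [0, 0, 0] [24] [],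
.l2 1 34 36 5 1 1,
.mono 1 64 66 1,
.mono 2 2 10 1,
.l2 0 34 36 5 1 1,
.join 2 16 6 4 3 1 [(4, 0)],
.part [34, 89, 4] [0, 1, 0] [] [],
.le 2 12 8 3 3,
.join 1 32 6 2 2 0 [(5, 0)],
.part [2, 1, 124] [0, 0, 1] [] [],
.part [36, 1, 66] [0, 0, 0] [24] [],
.deg 1 [0, 3, 0],
.lip 2 4 60 56,
.l2 0 17 48 4 1 1,
.deg 6 [0, 0, 3],
.part [32, 8, 80] [0, 0, 0] [7] [],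
.ab2 0 24,
.lipl 1 9 77 1 68,
.deg 5 [0, 1, 2],
.part [31, 64, 32] [1, 0, 0] [] [],
.lip 0 24 31 7,
.lip 2 48 113 65,
.mono 1 1 33 1,
.join 1 2 6 2 1 1 [(1, 0)],
.ordE 1 16 1,
.part [10, 81, 36] [0, 1, 0] [] [],
.l2 0 68 72 6 1 1,
.hall [0] [3, 4, 6],
.part [32, 24, 6] [0, 0, 0] [65] [],
.ordE 1 1 2,
.mono 0 8 12 1,
.hall [2] [0, 1, 2],
.l2 1 66 80 6 1 1,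
.lip 2 2 58 56,
.part [66, 4, 57] [0, 0, 1] [] [],
.lip 1 5 45 56,
.lip 2 1 57 56,
.part [4, 64, 59] [0, 0, 1] [] [],
.deg 1 [0, 2, 1],
.join 1 2 2 2 1 1 [(1, 0)],
.part [96, 8, 16] [0, 0, 0] [7] [],
.un 1 4,
.l2 0 72 80 6 1 1,
.join 2 4 3 3 3 0 [(2, 0)],
.part [2, 61, 64] [0, 1, 0] [] [],
.part [34, 68, 1] [0, 0, 0] [24] [],
.part [72, 16, 32] [0, 0, 0] [7] [],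
.ab2 1 10,
.part [6, 64, 57] [0, 0, 1] [] [],
.ordE 2 32 1,
.join 1 4 6 2 1 1 [(2, 0)],
.l2 1 33 40 5 1 1,
.ab2 2 34,
.part [8, 55, 64] [0, 1, 0] [] [],
.join 0 32 6 2 1 1 [(5, 0)],
.un 0 6,
.mono 1 8 72 1,
.hall [1] [3, 4, 5],
.ordE 2 32 2,
.ab2 1 6,
.l2 1 18 48 4 1 1,
.lip 2 3 59 56,
.mono 1 4 12 1,
.un 2 4,
.part [4, 2, 65] [0, 0, 0] [56] [],
.deg 2 [0, 0, 3],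
.mono 0 16 18 1,
.join 2 16 5 4 2 2 [(4, 0)],
.part [6, 1, 64] [0, 0, 0] [56] [],
.ordE 1 2 2,
.ab2 2 12,
.part [16, 64, 47] [0, 0, 1] [] []]

noncomputable def gads : List Gt := [
⟨2, [⟨20, 3, []⟩, ⟨64, 3, []⟩], [3, 3], 1, [(68, 1), (80, 1)]⟩,
⟨0, [⟨17, 2, []⟩, ⟨64, 2, []⟩], [3, 3, 3], 1, [(65, 1), (80, 1)]⟩,
⟨2, [⟨4, 2, []⟩, ⟨40, 4, []⟩], [3, 1, 1], 1, [(12, 1), (36, 1)]⟩,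
⟨0, [⟨6, 2, []⟩, ⟨16, 2, []⟩], [3, 3, 3], 1, [(18, 1), (20, 1)]⟩,
⟨2, [⟨80, 4, []⟩, ⟨8, 2, []⟩], [3, 2, 2], 1, [(24, 1), (72, 1)]⟩,
⟨2, [⟨4, 3, []⟩, ⟨32, 3, []⟩], [3, 3], 1, [(36, 1)]⟩,
⟨0, [⟨1, 2, []⟩, ⟨68, 2, []⟩], [3, 3, 3], 1, [(5, 1), (65, 1)]⟩,
⟨1, [⟨16, 2, []⟩, ⟨72, 2, []⟩], [3, 3, 3], 1, [(24, 1), (80, 1)]⟩,
⟨2, [⟨32, 4, []⟩, ⟨16, 2, []⟩], [3, 2, 2], 1, [(48, 1)]⟩,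
⟨1, [⟨48, 2, []⟩, ⟨64, 2, []⟩], [3, 3, 3], 1, [(80, 1), (96, 1)]⟩,
⟨0, [⟨66, 2, []⟩, ⟨8, 2, []⟩], [3, 3, 3], 1, [(10, 1), (72, 1)]⟩,
⟨2, [⟨12, 4, []⟩, ⟨16, 2, []⟩], [3, 2, 2], 1, [(20, 1), (24, 1)]⟩,
⟨0, [⟨68, 2, []⟩, ⟨16, 2, []⟩], [3, 3, 3], 1, [(20, 1), (80, 1)]⟩,
⟨0, [⟨8, 4, []⟩, ⟨32, 2, []⟩], [3, 2, 2], 1, [(40, 1)]⟩,
⟨2, [⟨2, 2, []⟩, ⟨72, 4, []⟩], [3, 1, 1], 1, [(10, 1), (66, 1)]⟩,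
⟨0, [⟨4, 2, []⟩, ⟨34, 2, []⟩], [3, 3, 3], 1, [(6, 1), (36, 1)]⟩,
⟨2, [⟨2, 3, []⟩, ⟨4, 3, []⟩], [3, 3], 1, [(6, 1)]⟩,
⟨2, [⟨8, 4, []⟩, ⟨16, 2, []⟩], [3, 2, 2], 1, [(24, 1)]⟩,
⟨2, [⟨16, 3, []⟩, ⟨32, 3, []⟩], [3, 3], 1, [(48, 1)]⟩,
⟨2, [⟨66, 4, []⟩, ⟨8, 2, []⟩], [3, 2, 2], 1, [(10, 1), (72, 1)]⟩,
⟨0, [⟨8, 4, []⟩, ⟨64, 2, []⟩], [3, 2, 2], 1, [(72, 1)]⟩,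
⟨1, [⟨1, 2, []⟩, ⟨16, 2, []⟩], [3, 3, 3], 1, [(17, 1)]⟩,
⟨1, [⟨4, 2, []⟩, ⟨34, 2, []⟩], [3, 3, 3], 1, [(6, 1), (36, 1)]⟩,
⟨0, [⟨32, 2, []⟩, ⟨80, 2, []⟩], [3, 3, 3], 1, [(48, 1), (96, 1)]⟩,
⟨2, [⟨4, 2, []⟩, ⟨72, 4, []⟩], [3, 1, 1], 1, [(12, 1), (68, 1)]⟩,
⟨2, [⟨16, 4, []⟩, ⟨64, 2, []⟩], [3, 2, 2], 1, [(80, 1)]⟩,
⟨0, [⟨2, 2, []⟩, ⟨64, 2, []⟩], [3, 3, 3], 1, [(66, 1)]⟩,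
⟨2, [⟨8, 2, []⟩, ⟨64, 4, []⟩], [3, 1, 1], 1, [(72, 1)]⟩,
⟨0, [⟨16, 2, []⟩, ⟨72, 2, []⟩], [3, 3, 3], 1, [(24, 1), (80, 1)]⟩,
⟨0, [⟨4, 3, []⟩, ⟨8, 3, []⟩], [3, 3], 1, [(12, 1)]⟩,
⟨1, [⟨8, 3, []⟩, ⟨32, 3, []⟩], [3, 3], 1, [(40, 1)]⟩,
⟨2, [⟨12, 3, []⟩, ⟨64, 3, []⟩], [3, 3], 1, [(68, 1), (72, 1)]⟩,
⟨1, [⟨33, 2, []⟩, ⟨64, 2, []⟩], [3, 3, 3], 1, [(65, 1), (96, 1)]⟩,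
⟨2, [⟨48, 4, []⟩, ⟨8, 2, []⟩], [3, 2, 2], 1, [(24, 1), (40, 1)]⟩,
⟨1, [⟨16, 2, []⟩, ⟨64, 2, []⟩], [3, 3, 3], 1, [(80, 1)]⟩,
⟨1, [⟨6, 2, []⟩, ⟨32, 2, []⟩], [3, 3, 3], 1, [(34, 1), (36, 1)]⟩,
⟨2, [⟨4, 2, []⟩, ⟨24, 4, []⟩], [3, 1, 1], 1, [(12, 1), (20, 1)]⟩,
⟨2, [⟨36, 4, []⟩, ⟨64, 2, []⟩], [3, 2, 2], 1, [(68, 1), (96, 1)]⟩,
⟨1, [⟨68, 2, []⟩, ⟨16, 2, []⟩], [3, 3, 3], 1, [(20, 1), (80, 1)]⟩,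
⟨0, [⟨8, 4, []⟩, ⟨16, 2, []⟩], [3, 2, 2], 1, [(24, 1)]⟩,
⟨2, [⟨4, 2, []⟩, ⟨96, 4, []⟩], [3, 1, 1], 1, [(36, 1), (68, 1)]⟩,
⟨1, [⟨4, 2, []⟩, ⟨32, 2, []⟩], [3, 3, 3], 1, [(36, 1)]⟩,
⟨2, [⟨16, 4, []⟩, ⟨32, 2, []⟩], [3, 2, 2], 1, [(48, 1)]⟩,
⟨1, [⟨66, 2, []⟩, ⟨8, 2, []⟩], [3, 3, 3], 1, [(10, 1), (72, 1)]⟩,
⟨2, [⟨72, 4, []⟩, ⟨32, 2, []⟩], [3, 2, 2], 1, [(40, 1), (96, 1)]⟩,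
⟨1, [⟨32, 2, []⟩, ⟨80, 2, []⟩], [3, 3, 3], 1, [(48, 1), (96, 1)]⟩,
⟨2, [⟨32, 3, []⟩, ⟨64, 3, []⟩], [3, 3], 1, [(96, 1)]⟩,
⟨1, [⟨6, 2, []⟩, ⟨8, 2, []⟩], [3, 3, 3], 1, [(10, 1), (12, 1)]⟩,
⟨2, [⟨4, 3, []⟩, ⟨8, 3, []⟩], [3, 3], 1, [(12, 1)]⟩,
⟨1, [⟨2, 2, []⟩, ⟨68, 2, []⟩], [3, 3, 3], 1, [(6, 1), (66, 1)]⟩,
⟨0, [⟨2, 2, []⟩, ⟨16, 2, []⟩], [3, 3, 3], 1, [(18, 1)]⟩,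
⟨2, [⟨32, 4, []⟩, ⟨64, 2, []⟩], [3, 2, 2], 1, [(96, 1)]⟩,
⟨1, [⟨16, 4, []⟩, ⟨32, 2, []⟩], [3, 2, 2], 1, [(48, 1)]⟩,
⟨0, [⟨66, 2, []⟩, ⟨16, 2, []⟩], [3, 3, 3], 1, [(18, 1), (80, 1)]⟩,
⟨2, [⟨8, 4, []⟩, ⟨64, 2, []⟩], [3, 2, 2], 1, [(72, 1)]⟩,
⟨0, [⟨6, 2, []⟩, ⟨32, 2, []⟩], [3, 3, 3], 1, [(34, 1), (36, 1)]⟩,
⟨1, [⟨2, 2, []⟩, ⟨64, 2, []⟩], [3, 3, 3], 1, [(66, 1)]⟩,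
⟨1, [⟨12, 2, []⟩, ⟨64, 2, []⟩], [3, 3, 3], 1, [(68, 1), (72, 1)]⟩,
⟨1, [⟨2, 2, []⟩, ⟨20, 2, []⟩], [3, 3, 3], 1, [(6, 1), (18, 1)]⟩,
⟨2, [⟨2, 2, []⟩, ⟨80, 4, []⟩], [3, 1, 1], 1, [(18, 1), (66, 1)]⟩,
⟨1, [⟨4, 2, []⟩, ⟨16, 2, []⟩], [3, 3, 3], 1, [(20, 1)]⟩,
⟨0, [⟨6, 2, []⟩, ⟨8, 2, []⟩], [3, 3, 3], 1, [(10, 1), (12, 1)]⟩,
⟨1, [⟨4, 2, []⟩, ⟨64, 2, []⟩], [3, 3, 3], 1, [(68, 1)]⟩,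
⟨0, [⟨40, 2, []⟩, ⟨64, 2, []⟩], [3, 3, 3], 1, [(72, 1), (96, 1)]⟩,
⟨2, [⟨80, 4, []⟩, ⟨32, 2, []⟩], [3, 2, 2], 1, [(48, 1), (96, 1)]⟩,
⟨2, [⟨68, 4, []⟩, ⟨8, 2, []⟩], [3, 2, 2], 1, [(12, 1), (72, 1)]⟩,
⟨1, [⟨40, 2, []⟩, ⟨64, 2, []⟩], [3, 3, 3], 1, [(72, 1), (96, 1)]⟩,
⟨2, [⟨4, 3, []⟩, ⟨16, 3, []⟩], [3, 3], 1, [(20, 1)]⟩,
⟨2, [⟨1, 3, []⟩, ⟨2, 3, []⟩], [3, 3], 1, [(3, 1)]⟩,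
⟨2, [⟨16, 2, []⟩, ⟨64, 4, []⟩], [3, 1, 1], 1, [(80, 1)]⟩,
⟨2, [⟨36, 4, []⟩, ⟨16, 2, []⟩], [3, 2, 2], 1, [(20, 1), (48, 1)]⟩,
⟨2, [⟨10, 3, []⟩, ⟨64, 3, []⟩], [3, 3], 1, [(66, 1), (72, 1)]⟩,
⟨0, [⟨8, 2, []⟩, ⟨64, 2, []⟩], [3, 3, 3], 1, [(72, 1)]⟩,
⟨2, [⟨8, 3, []⟩, ⟨32, 3, []⟩], [3, 3], 1, [(40, 1)]⟩,
⟨1, [⟨2, 2, []⟩, ⟨32, 2, []⟩], [3, 3, 3], 1, [(34, 1)]⟩,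
⟨0, [⟨4, 2, []⟩, ⟨18, 2, []⟩], [3, 3, 3], 1, [(6, 1), (20, 1)]⟩,
⟨1, [⟨33, 2, []⟩, ⟨16, 2, []⟩], [3, 3, 3], 1, [(17, 1), (48, 1)]⟩,
⟨1, [⟨36, 2, []⟩, ⟨64, 2, []⟩], [3, 3, 3], 1, [(68, 1), (96, 1)]⟩,
⟨1, [⟨1, 2, []⟩, ⟨64, 2, []⟩], [3, 3, 3], 1, [(65, 1)]⟩,
⟨1, [⟨68, 2, []⟩, ⟨8, 2, []⟩], [3, 3, 3], 1, [(12, 1), (72, 1)]⟩,
⟨0, [⟨36, 2, []⟩, ⟨64, 2, []⟩], [3, 3, 3], 1, [(68, 1), (96, 1)]⟩,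
⟨1, [⟨2, 3, []⟩, ⟨4, 3, []⟩], [3, 3], 1, [(6, 1)]⟩,
⟨1, [⟨20, 2, []⟩, ⟨64, 2, []⟩], [3, 3, 3], 1, [(68, 1), (80, 1)]⟩,
⟨1, [⟨34, 2, []⟩, ⟨64, 2, []⟩], [3, 3, 3], 1, [(66, 1), (96, 1)]⟩,
⟨1, [⟨2, 2, []⟩, ⟨16, 2, []⟩], [3, 3, 3], 1, [(18, 1)]⟩,
⟨0, [⟨16, 2, []⟩, ⟨96, 2, []⟩], [3, 3, 3], 1, [(48, 1), (80, 1)]⟩,
⟨2, [⟨36, 4, []⟩, ⟨8, 2, []⟩], [3, 2, 2], 1, [(12, 1), (40, 1)]⟩,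
⟨2, [⟨40, 4, []⟩, ⟨16, 2, []⟩], [3, 2, 2], 1, [(24, 1), (48, 1)]⟩,
⟨0, [⟨24, 2, []⟩, ⟨64, 2, []⟩], [3, 3, 3], 1, [(72, 1), (80, 1)]⟩,
⟨0, [⟨66, 2, []⟩, ⟨32, 2, []⟩], [3, 3, 3], 1, [(34, 1), (96, 1)]⟩,
⟨2, [⟨34, 4, []⟩, ⟨64, 2, []⟩], [3, 2, 2], 1, [(66, 1), (96, 1)]⟩,
⟨2, [⟨68, 4, []⟩, ⟨16, 2, []⟩], [3, 2, 2], 1, [(20, 1), (80, 1)]⟩,
⟨2, [⟨72, 4, []⟩, ⟨16, 2, []⟩], [3, 2, 2], 1, [(24, 1), (80, 1)]⟩,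
⟨0, [⟨12, 2, []⟩, ⟨64, 2, []⟩], [3, 3, 3], 1, [(68, 1), (72, 1)]⟩,
⟨1, [⟨16, 2, []⟩, ⟨96, 2, []⟩], [3, 3, 3], 1, [(48, 1), (80, 1)]⟩,
⟨2, [⟨2, 3, []⟩, ⟨32, 3, []⟩], [3, 3], 1, [(34, 1)]⟩,
⟨0, [⟨32, 2, []⟩, ⟨72, 2, []⟩], [3, 3, 3], 1, [(40, 1), (96, 1)]⟩,
⟨1, [⟨1, 2, []⟩, ⟨4, 2, []⟩], [3, 3, 3], 1, [(5, 1)]⟩,
⟨0, [⟨8, 2, []⟩, ⟨80, 2, []⟩], [3, 3, 3], 1, [(24, 1), (72, 1)]⟩,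
⟨2, [⟨2, 2, []⟩, ⟨48, 4, []⟩], [3, 1, 1], 1, [(18, 1), (34, 1)]⟩,
⟨2, [⟨18, 3, []⟩, ⟨64, 3, []⟩], [3, 3], 1, [(66, 1), (80, 1)]⟩,
⟨0, [⟨16, 2, []⟩, ⟨64, 2, []⟩], [3, 3, 3], 1, [(80, 1)]⟩,
⟨2, [⟨1, 3, []⟩, ⟨4, 3, []⟩], [3, 3], 1, [(5, 1)]⟩,
⟨0, [⟨1, 2, []⟩, ⟨64, 2, []⟩], [3, 3, 3], 1, [(65, 1)]⟩,
⟨1, [⟨32, 4, []⟩, ⟨8, 2, []⟩], [3, 2, 2], 1, [(40, 1)]⟩,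
⟨2, [⟨24, 4, []⟩, ⟨32, 2, []⟩], [3, 2, 2], 1, [(40, 1), (48, 1)]⟩,
⟨2, [⟨2, 2, []⟩, ⟨96, 4, []⟩], [3, 1, 1], 1, [(34, 1), (66, 1)]⟩,
⟨2, [⟨2, 3, []⟩, ⟨16, 3, []⟩], [3, 3], 1, [(18, 1)]⟩,
⟨0, [⟨2, 2, []⟩, ⟨32, 2, []⟩], [3, 3, 3], 1, [(34, 1)]⟩,
⟨1, [⟨8, 2, []⟩, ⟨80, 2, []⟩], [3, 3, 3], 1, [(24, 1), (72, 1)]⟩,
⟨1, [⟨4, 2, []⟩, ⟨8, 2, []⟩], [3, 3, 3], 1, [(12, 1)]⟩,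
⟨0, [⟨68, 2, []⟩, ⟨32, 2, []⟩], [3, 3, 3], 1, [(36, 1), (96, 1)]⟩,
⟨0, [⟨2, 2, []⟩, ⟨12, 2, []⟩], [3, 3, 3], 1, [(6, 1), (10, 1)]⟩,
⟨0, [⟨2, 3, []⟩, ⟨4, 3, []⟩], [3, 3], 1, [(6, 1)]⟩,
⟨1, [⟨8, 2, []⟩, ⟨64, 2, []⟩], [3, 3, 3], 1, [(72, 1)]⟩,
⟨1, [⟨24, 2, []⟩, ⟨64, 2, []⟩], [3, 3, 3], 1, [(72, 1), (80, 1)]⟩,
⟨1, [⟨32, 4, []⟩, ⟨16, 2, []⟩], [3, 2, 2], 1, [(48, 1)]⟩,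
⟨1, [⟨8, 2, []⟩, ⟨96, 2, []⟩], [3, 3, 3], 1, [(40, 1), (72, 1)]⟩,
⟨0, [⟨16, 4, []⟩, ⟨32, 2, []⟩], [3, 2, 2], 1, [(48, 1)]⟩,
⟨0, [⟨8, 2, []⟩, ⟨96, 2, []⟩], [3, 3, 3], 1, [(40, 1), (72, 1)]⟩,
⟨1, [⟨4, 2, []⟩, ⟨66, 2, []⟩], [3, 3, 3], 1, [(6, 1), (68, 1)]⟩,
⟨1, [⟨32, 2, []⟩, ⟨72, 2, []⟩], [3, 3, 3], 1, [(40, 1), (96, 1)]⟩,
⟨0, [⟨4, 2, []⟩, ⟨64, 2, []⟩], [3, 3, 3], 1, [(68, 1)]⟩,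
⟨1, [⟨66, 2, []⟩, ⟨32, 2, []⟩], [3, 3, 3], 1, [(34, 1), (96, 1)]⟩,
⟨2, [⟨32, 4, []⟩, ⟨8, 2, []⟩], [3, 2, 2], 1, [(40, 1)]⟩,
⟨0, [⟨18, 2, []⟩, ⟨64, 2, []⟩], [3, 3, 3], 1, [(66, 1), (80, 1)]⟩,
⟨2, [⟨96, 4, []⟩, ⟨16, 2, []⟩], [3, 2, 2], 1, [(48, 1), (80, 1)]⟩,
⟨0, [⟨4, 2, []⟩, ⟨10, 2, []⟩], [3, 3, 3], 1, [(6, 1), (12, 1)]⟩,
⟨1, [⟨16, 4, []⟩, ⟨8, 2, []⟩], [3, 2, 2], 1, [(24, 1)]⟩,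
⟨0, [⟨1, 2, []⟩, ⟨2, 2, []⟩], [3, 3, 3], 1, [(3, 1)]⟩,
⟨1, [⟨32, 2, []⟩, ⟨64, 2, []⟩], [3, 3, 3], 1, [(96, 1)]⟩,
⟨2, [⟨2, 2, []⟩, ⟨24, 4, []⟩], [3, 1, 1], 1, [(10, 1), (18, 1)]⟩,
⟨2, [⟨2, 2, []⟩, ⟨40, 4, []⟩], [3, 1, 1], 1, [(10, 1), (34, 1)]⟩,
⟨0, [⟨2, 2, []⟩, ⟨20, 2, []⟩], [3, 3, 3], 1, [(6, 1), (18, 1)]⟩,
⟨1, [⟨1, 2, []⟩, ⟨2, 2, []⟩], [3, 3, 3], 1, [(3, 1)]⟩,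
⟨2, [⟨8, 3, []⟩, ⟨64, 3, []⟩], [3, 3], 1, [(72, 1)]⟩,
⟨2, [⟨8, 3, []⟩, ⟨16, 3, []⟩], [3, 3], 1, [(24, 1)]⟩,
⟨0, [⟨2, 3, []⟩, ⟨16, 3, []⟩], [3, 3], 1, [(18, 1)]⟩,
⟨0, [⟨32, 4, []⟩, ⟨16, 2, []⟩], [3, 2, 2], 1, [(48, 1)]⟩,
⟨0, [⟨10, 2, []⟩, ⟨64, 2, []⟩], [3, 3, 3], 1, [(66, 1), (72, 1)]⟩,
⟨1, [⟨4, 2, []⟩, ⟨10, 2, []⟩], [3, 3, 3], 1, [(6, 1), (12, 1)]⟩,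
⟨1, [⟨1, 2, []⟩, ⟨32, 2, []⟩], [3, 3, 3], 1, [(33, 1)]⟩,
⟨0, [⟨16, 3, []⟩, ⟨32, 3, []⟩], [3, 3], 1, [(48, 1)]⟩,
⟨2, [⟨16, 4, []⟩, ⟨8, 2, []⟩], [3, 2, 2], 1, [(24, 1)]⟩,
⟨0, [⟨1, 2, []⟩, ⟨4, 2, []⟩], [3, 3, 3], 1, [(5, 1)]⟩,
⟨1, [⟨66, 2, []⟩, ⟨16, 2, []⟩], [3, 3, 3], 1, [(18, 1), (80, 1)]⟩,
⟨0, [⟨4, 3, []⟩, ⟨32, 3, []⟩], [3, 3], 1, [(36, 1)]⟩,
⟨0, [⟨4, 2, []⟩, ⟨16, 2, []⟩], [3, 3, 3], 1, [(20, 1)]⟩,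
⟨2, [⟨36, 3, []⟩, ⟨64, 3, []⟩], [3, 3], 1, [(68, 1), (96, 1)]⟩,
⟨2, [⟨12, 4, []⟩, ⟨32, 2, []⟩], [3, 2, 2], 1, [(36, 1), (40, 1)]⟩,
⟨0, [⟨48, 2, []⟩, ⟨64, 2, []⟩], [3, 3, 3], 1, [(80, 1), (96, 1)]⟩,
⟨1, [⟨2, 2, []⟩, ⟨36, 2, []⟩], [3, 3, 3], 1, [(6, 1), (34, 1)]⟩,
⟨2, [⟨10, 4, []⟩, ⟨64, 2, []⟩], [3, 2, 2], 1, [(66, 1), (72, 1)]⟩,
⟨1, [⟨68, 2, []⟩, ⟨32, 2, []⟩], [3, 3, 3], 1, [(36, 1), (96, 1)]⟩,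
⟨0, [⟨4, 2, []⟩, ⟨8, 2, []⟩], [3, 3, 3], 1, [(12, 1)]⟩,
⟨2, [⟨66, 4, []⟩, ⟨32, 2, []⟩], [3, 2, 2], 1, [(34, 1), (96, 1)]⟩,
⟨1, [⟨6, 2, []⟩, ⟨16, 2, []⟩], [3, 3, 3], 1, [(18, 1), (20, 1)]⟩,
⟨1, [⟨8, 4, []⟩, ⟨16, 2, []⟩], [3, 2, 2], 1, [(24, 1)]⟩,
⟨2, [⟨8, 4, []⟩, ⟨32, 2, []⟩], [3, 2, 2], 1, [(40, 1)]⟩,
⟨2, [⟨16, 3, []⟩, ⟨64, 3, []⟩], [3, 3], 1, [(80, 1)]⟩,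
⟨0, [⟨2, 2, []⟩, ⟨68, 2, []⟩], [3, 3, 3], 1, [(6, 1), (66, 1)]⟩,
⟨0, [⟨34, 2, []⟩, ⟨64, 2, []⟩], [3, 3, 3], 1, [(66, 1), (96, 1)]⟩,
⟨0, [⟨4, 2, []⟩, ⟨66, 2, []⟩], [3, 3, 3], 1, [(6, 1), (68, 1)]⟩,
⟨0, [⟨32, 2, []⟩, ⟨64, 2, []⟩], [3, 3, 3], 1, [(96, 1)]⟩,
⟨0, [⟨68, 2, []⟩, ⟨8, 2, []⟩], [3, 3, 3], 1, [(12, 1), (72, 1)]⟩,
⟨2, [⟨1, 3, []⟩, ⟨64, 3, []⟩], [3, 3], 1, [(65, 1)]⟩,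
⟨2, [⟨32, 2, []⟩, ⟨64, 4, []⟩], [3, 1, 1], 1, [(96, 1)]⟩,
⟨0, [⟨20, 2, []⟩, ⟨64, 2, []⟩], [3, 3, 3], 1, [(68, 1), (80, 1)]⟩,
⟨2, [⟨2, 3, []⟩, ⟨8, 3, []⟩], [3, 3], 1, [(10, 1)]⟩,
⟨0, [⟨9, 2, []⟩, ⟨64, 2, []⟩], [3, 3, 3], 1, [(65, 1), (72, 1)]⟩,
⟨2, [⟨12, 4, []⟩, ⟨64, 2, []⟩], [3, 2, 2], 1, [(68, 1), (72, 1)]⟩,
⟨1, [⟨10, 2, []⟩, ⟨64, 2, []⟩], [3, 3, 3], 1, [(66, 1), (72, 1)]⟩,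
⟨2, [⟨2, 2, []⟩, ⟨68, 4, []⟩], [3, 1, 1], 1, [(6, 1), (66, 1)]⟩,
⟨2, [⟨4, 2, []⟩, ⟨80, 4, []⟩], [3, 1, 1], 1, [(20, 1), (68, 1)]⟩,
⟨2, [⟨96, 4, []⟩, ⟨8, 2, []⟩], [3, 2, 2], 1, [(40, 1), (72, 1)]⟩,
⟨2, [⟨66, 4, []⟩, ⟨16, 2, []⟩], [3, 2, 2], 1, [(18, 1), (80, 1)]⟩,
⟨1, [⟨18, 2, []⟩, ⟨64, 2, []⟩], [3, 3, 3], 1, [(66, 1), (80, 1)]⟩,
⟨2, [⟨34, 4, []⟩, ⟨16, 2, []⟩], [3, 2, 2], 1, [(18, 1), (48, 1)]⟩,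
⟨1, [⟨2, 2, []⟩, ⟨8, 2, []⟩], [3, 3, 3], 1, [(10, 1)]⟩,
⟨0, [⟨4, 2, []⟩, ⟨32, 2, []⟩], [3, 3, 3], 1, [(36, 1)]⟩,
⟨0, [⟨2, 2, []⟩, ⟨8, 2, []⟩], [3, 3, 3], 1, [(10, 1)]⟩,
⟨2, [⟨34, 3, []⟩, ⟨64, 3, []⟩], [3, 3], 1, [(66, 1), (96, 1)]⟩,
⟨1, [⟨1, 2, []⟩, ⟨8, 2, []⟩], [3, 3, 3], 1, [(9, 1)]⟩,
⟨2, [⟨34, 4, []⟩, ⟨8, 2, []⟩], [3, 2, 2], 1, [(10, 1), (40, 1)]⟩,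
⟨2, [⟨20, 4, []⟩, ⟨32, 2, []⟩], [3, 2, 2], 1, [(36, 1), (48, 1)]⟩]

theorem base_ok : base.all (fun q => q.ok 7 3 [7, 56, 65] big4 big4 []) = true := by decide +kernel

theorem gads_ok : gads.all (fun g => Nat.blt g.j 3 && g.ok 7 (([0, 0, 2] : List ℕ).getD g.j 0)) = true := by
  decide +kernel

theorem cmp_ok : cmpR names cnf (cls 3 base ++ gads.map Gt.cl) = true := by decide +kernel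

end D81

theorem inst_81 : instB 1 [0, 0, 2] [65] [] D81.base D81.gads D81.names D81.cnf D81.db D81.prf = true :=
  instB_of D81.base_ok D81.gads_ok (by decide +kernel) D81.okc D81.cmp_ok D81.chk_ok

/-- no gadget has fewer than `2 R` new points. -/
theorem p2_81 : D81.gads.all (fun g => Nat.ble (2 * g.R) g.gs.length) = true := by decide +kernel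

/-- there is no configuration of this instance. -/
theorem no_81 {V : Type v} [DecidableEq V] {ι : Type u} [Fintype ι] {B : ι → Finset V}
    {Q : Finset V} {i j : ι} {x : ℕ → V} {D : ℕ → Finset V}
    (h : CfI B Q 1 x D i j [0, 0, 2] [65]) : False :=
  h.absurd (by decide) srt_nil inst_81

end Pool.Agent.Hyp6
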