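import Pool.Agent.Hyp6.Cseg2
import Pool.Agent.Hyp6.Ins.E83

/-!
# HYP6: instance 83 of the list: n = 1, bounds [0, 0, 2], inner blocks [73]

515 base clauses, 140 gadgets, 899 learned clauses.
-/

set_option autoImplicit false
set_option maxRecDepth 100000

namespace Pool.Agent.Hyp6

open Rup

universe u v

namespace D83

noncomputable def base : List Rs := [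
.part [2, 65, 4] [0, 0, 0] [56] [],
.part [72, 16, 32] [0, 0, 0] [7] [],
.hall [1, 2] [0, 2],
.l2 1 18 34 1 1 1,
.join 0 4 5 2 1 1 [(2, 0)],
.ordE 1 4 2,
.ab2 1 34,
.deg 1 [0, 1, 2],
.le 0 96 32 5 2,
.ab2 2 68,
.un 0 6,
.lip 0 64 120 56,
.join 2 4 4 4 1 3 [(2, 0)],
.ab 2 1,
.hall [2] [3, 4, 6],
.part [16, 96, 8] [0, 0, 0] [7] [],
.part [64, 48, 6] [0, 0, 0] [9] [],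
.join 2 2 6 4 2 4 [(1, 2)],
.mono 2 16 80 1,
.deg 6 [2, 1, 0],
.deg 6 [1, 1, 1],
.ordE 0 16 1,
.l2 0 48 80 4 1 1,
.lip 2 16 23 7,
.lip 2 32 39 7,
.join 2 2 6 4 0 4 [(1, 0)],
.join 0 2 2 2 1 1 [(1, 0)],
.ab2 0 6,
.part [6, 48, 8] [0, 0, 0] [65] [],
.le 0 18 2 1 2,
.part [16, 4, 34] [0, 0, 0] [73] [],
.hall [1] [3, 4, 6],
.join 1 4 5 2 1 1 [(2, 0)],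
.deg 1 [2, 0, 1],
.l2 1 6 18 1 1 1,
.join 1 2 4 2 1 2 [(1, 1)],
.hall [0] [3, 5, 6],
.ab 2 4,
.hall [2] [4, 5, 6],
.lip 1 48 121 73,
.deg 2 [2, 1, 0],
.join 0 4 6 2 2 0 [(2, 0)],
.un 1 1,
.part [4, 34, 16] [0, 0, 0] [73] [],
.join 1 32 6 2 0 3 [(5, 1)],
.part [36, 0, 18] [0, 0, 0] [73] [],
.join 2 16 6 4 1 3 [(4, 0)],
.join 0 4 4 2 2 0 [(2, 0)],
.part [18, 0, 36] [0, 0, 0] [73] [],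
.ordE 1 8 1,
.ab2 0 20,
.le 1 68 4 2 1,
.un 2 1,
.ab2 0 48,
.ab 0 0,
.part [48, 8, 64] [0, 0, 0] [7] [],
.ordE 2 4 1,
.join 0 32 6 2 0 3 [(5, 1)],
.hall [0] [0, 2, 6],
.part [4, 1, 66] [0, 0, 0] [56] [],
.l2 0 20 80 4 1 1,
.ab 1 0,
.hall [1, 2] [1, 6],
.part [121, 2, 4] [1, 0, 0] [] [],
.hall [0, 2] [0, 2],
.deg 0 [2, 0, 0],
.part [64, 40, 23] [0, 0, 1] [] [],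
.join 1 4 5 2 2 0 [(2, 0)],
.part [64, 2, 5] [0, 0, 0] [56] [],
.part [34, 0, 20] [0, 0, 0] [73] [],
.le 0 20 16 4 2,
.part [24, 32, 64] [0, 0, 0] [7] [],
.part [32, 18, 4] [0, 0, 0] [73] [],
.part [20, 2, 32] [0, 0, 0] [73] [],
.part [66, 1, 4] [0, 0, 0] [56] [],
.deg 6 [1, 2, 0],
.part [64, 24, 39] [0, 0, 1] [] [],
.join 0 32 6 2 1 1 [(5, 0)],
.un 2 5,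
.join 0 2 4 2 1 2 [(1, 1)],
.ab2 0 96,
.part [2, 32, 20] [0, 0, 0] [73] [],
.part [32, 8, 80] [0, 0, 0] [7] [],
.part [96, 16, 8] [0, 0, 0] [7] [],
.hall [1] [3, 5, 6],
.deg 4 [0, 0, 3],
.join 2 32 6 4 3 1 [(5, 0)],
.hall [0] [4, 5, 6],
.deg 5 [0, 1, 2],
.part [32, 2, 20] [0, 0, 0] [73] [],
.un 2 4,
.join 0 2 6 2 0 3 [(1, 1)],
.join 0 16 6 2 1 1 [(4, 0)],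
.hall [2] [0, 2, 6],
.join 2 2 6 4 2 2 [(1, 0)],
.join 2 2 5 4 1 3 [(1, 0)],
.ab2 1 68,
.un 1 6,
.part [65, 4, 2] [0, 0, 0] [56] [],
.hall [0, 1] [4, 5],
.join 1 2 6 2 1 1 [(1, 0)],
.ordE 0 1 1,
.hall [0] [1, 2, 6],
.mono 0 32 96 1,
.join 1 2 6 2 2 0 [(1, 0)],
.part [15, 48, 64] [1, 0, 0] [] [],
.join 0 4 4 2 2 1 [(2, 1)],
.lip 2 48 121 73,
.part [4, 2, 121] [0, 0, 1] [] [],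
.ordE 0 16 2,
.hall [1] [0, 2, 6],
.deg 1 [1, 1, 1],
.deg 5 [1, 0, 2],
.part [20, 32, 2] [0, 0, 0] [73] [],
.hall [2] [3, 4, 5],
.deg 4 [1, 1, 1],
.join 0 4 6 2 1 1 [(2, 0)],
.deg 6 [2, 0, 1],
.hall [0, 2] [4, 5],
.deg 2 [1, 2, 0],
.le 1 20 16 4 1,
.le 0 66 2 1 2,
.part [80, 32, 8] [0, 0, 0] [7] [],
.hall [0] [0, 1, 6],
.part [2, 4, 65] [0, 0, 0] [56] [],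
.ab2 2 20,
.ab2 0 80,
.ordE 1 64 2,
.join 2 4 5 4 1 3 [(2, 0)],
.join 1 2 4 2 3 0 [(1, 1)],
.ab 0 3,
.deg 3 [1, 1, 0],
.join 1 2 6 2 0 3 [(1, 1)],
.join 1 4 6 2 0 3 [(2, 1)],
.mono 0 4 68 1,
.hall [2] [3, 5, 6],
.part [64, 3, 60] [0, 0, 1] [] [],
.part [120, 6, 1] [1, 0, 0] [] [],
.part [3, 4, 64] [0, 0, 0] [56] [],
.part [32, 16, 79] [0, 0, 1] [] [],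
.part [32, 72, 16] [0, 0, 0] [7] [],
.mono 1 2 34 1,
.part [96, 8, 16] [0, 0, 0] [7] [],
.part [75, 48, 4] [1, 0, 0] [] [],
.le 1 34 2 1 2,
.hall [0] [3, 4, 5],
.part [8, 16, 96] [0, 0, 0] [7] [],
.ab 2 2,
.part [4, 16, 34] [0, 0, 0] [73] [],
.join 1 2 5 2 1 2 [(1, 1)],
.part [36, 18, 0] [0, 0, 0] [73] [],
.join 1 16 5 2 1 1 [(4, 0)],
.join 0 32 6 2 2 0 [(5, 0)],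
.ordE 1 32 1,
.join 1 4 6 2 0 2 [(2, 0)],
.part [2, 4, 121] [0, 0, 1] [] [],
.l2 1 36 68 2 1 1,
.join 2 4 6 4 3 1 [(2, 0)],
.hall [0, 2] [5, 6],
.lip 0 48 121 73,
.un 0 1,
.mono 1 16 18 1,
.ordE 0 2 3,
.part [32, 16, 72] [0, 0, 0] [7] [],
.ab 1 1,
.le 2 66 2 1 1,
.join 1 16 6 2 0 3 [(4, 1)],
.l2 1 18 80 4 1 1,
.deg 5 [1, 1, 1],
.part [79, 16, 32] [1, 0, 0] [] [],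
.join 0 8 6 2 0 3 [(3, 1)],
.ab2 2 18,
.deg 3 [0, 0, 2],
.part [16, 36, 2] [0, 0, 0] [73] [],
.mono 0 32 48 1,
.le 1 80 16 4 2,
.mono 0 64 66 1,
.part [1, 68, 2] [0, 0, 0] [56] [],
.deg 1 [3, 0, 0],
.join 0 1 6 2 0 3 [(0, 1)],
.mono 2 2 18 1,
.l2 0 18 48 4 1 1,
.ordE 0 2 2,
.l2 0 36 68 2 1 1,
.le 0 18 16 4 2,
.join 2 8 6 3 0 3 [(3, 0)],
.le 0 66 2 1 1,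
.ordE 2 16 2,
.join 1 2 4 2 2 1 [(1, 1)],
.hall [0, 1, 2] [3],
.l2 0 20 68 2 1 1,
.mono 1 64 80 1,
.join 0 2 5 2 3 0 [(1, 1)],
.ab 1 6,
.join 0 4 5 2 1 2 [(2, 1)],
.ordE 0 32 1,
.mono 0 16 20 1,
.hall [0, 2] [0, 6],
.part [89, 6, 32] [1, 0, 0] [] [],
.join 2 4 6 4 2 4 [(2, 2)],
.hall [0, 1] [3, 6],
.mono 0 2 6 1,
.part [5, 2, 64] [0, 0, 0] [56] [],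
.ordE 1 2 1,
.join 0 2 5 2 0 2 [(1, 0)],
.join 1 4 4 2 2 1 [(2, 1)],
.join 0 2 6 2 0 2 [(1, 0)],
.l2 0 6 18 1 1 1,
.l2 0 36 96 5 1 1,
.part [16, 64, 40] [0, 0, 0] [7] [],
.part [34, 4, 16] [0, 0, 0] [73] [],
.le 0 20 4 2 2,
.le 1 36 4 2 2,
.part [36, 16, 2] [0, 0, 0] [73] [],
.ab2 2 66,
.ab2 2 72,
.join 2 2 4 4 3 1 [(1, 0)],
.join 1 4 4 2 0 2 [(2, 0)],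
.ab2 2 80,
.deg 5 [2, 1, 0],
.deg 4 [0, 1, 2],
.ordE 2 4 2,
.join 1 4 4 2 3 0 [(2, 1)],
.part [1, 66, 4] [0, 0, 0] [56] [],
.ordE 0 4 1,
.join 2 16 6 4 0 4 [(4, 0)],
.part [4, 2, 65] [0, 0, 0] [56] [],
.lip 0 1 57 56,
.part [4, 32, 18] [0, 0, 0] [73] [],
.hall [1, 2] [3, 4],
.ab 0 1,
.deg 2 [0, 0, 3],
.deg 4 [1, 0, 2],
.join 1 4 6 2 1 2 [(2, 1)],
.join 2 1 6 3 0 3 [(0, 0)],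
.ab2 0 68,
.l2 1 18 66 1 1 1,
.join 0 16 6 2 0 3 [(4, 1)],
.le 0 34 32 5 2,
.deg 3 [2, 0, 0],
.part [4, 64, 3] [0, 0, 0] [56] [],
.ab 2 3,
.hall [2] [1, 2, 6],
.ordE 0 32 3,
.ab2 1 66,
.part [1, 4, 66] [0, 0, 0] [56] [],
.l2 1 48 80 4 1 1,
.ab 2 6,
.ordE 2 32 1,
.join 2 4 5 4 2 2 [(2, 0)],
.ab2 0 36,
.le 0 65 1 0 2,
.part [32, 80, 8] [0, 0, 0] [7] [],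
.deg 1 [0, 0, 3],
.join 2 2 5 4 2 2 [(1, 0)],
.un 1 5,
.lip 0 64 71 7,
.l2 1 6 36 2 1 1,
.part [16, 34, 4] [0, 0, 0] [73] [],
.l2 1 34 66 1 1 1,
.part [32, 4, 18] [0, 0, 0] [73] [],
.ordE 0 8 1,
.part [0, 36, 18] [0, 0, 0] [73] [],
.part [8, 32, 80] [0, 0, 0] [7] [],
.part [34, 16, 4] [0, 0, 0] [73] [],
.ab 0 6,
.join 2 2 4 4 2 2 [(1, 0)],
.ordE 1 4 3,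
.part [16, 32, 72] [0, 0, 0] [7] [],
.ordE 1 64 1,
.part [121, 4, 2] [1, 0, 0] [] [],
.part [77, 48, 2] [1, 0, 0] [] [],
.lip 0 8 15 7,
.l2 1 20 68 2 1 1,
.ab2 1 96,
.l2 1 34 96 5 1 1,
.deg 2 [3, 0, 0],
.part [105, 6, 16] [1, 0, 0] [] [],
.mono 1 16 80 1,
.ab 1 2,
.part [16, 32, 79] [0, 0, 1] [] [],
.un 1 4,
.part [16, 8, 96] [0, 0, 0] [7] [],
.deg 2 [0, 3, 0],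
.part [36, 2, 16] [0, 0, 0] [73] [],
.part [0, 34, 20] [0, 0, 0] [73] [],
.lip 0 6 79 73,
.part [24, 64, 39] [0, 0, 1] [] [],
.join 0 2 5 2 1 1 [(1, 0)],
.le 1 20 4 2 1,
.l2 0 34 96 5 1 1,
.join 1 4 4 2 2 0 [(2, 0)],
.le 1 20 4 2 2,
.part [71, 48, 8] [1, 0, 0] [] [],
.ab 0 2,
.part [80, 8, 32] [0, 0, 0] [7] [],
.deg 5 [0, 0, 3],
.mono 0 16 18 1,
.le 1 68 4 2 2,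
.part [1, 2, 68] [0, 0, 0] [56] [],
.join 1 32 6 2 1 1 [(5, 0)],
.part [64, 5, 58] [0, 0, 1] [] [],
.join 2 4 4 4 3 1 [(2, 0)],
.join 2 4 4 4 2 2 [(2, 0)],
.le 0 36 4 2 1,
.ab2 1 80,
.deg 5 [0, 3, 0],
.join 0 2 4 2 2 1 [(1, 1)],
.part [64, 4, 3] [0, 0, 0] [56] [],
.hall [1, 2] [4, 6],
.le 1 66 2 1 2,
.mono 1 2 6 1,
.ordE 2 16 1,
.join 2 32 6 4 0 4 [(5, 0)],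
.part [6, 64, 1] [0, 0, 0] [56] [],
.deg 4 [0, 3, 0],
.part [40, 64, 23] [0, 0, 1] [] [],
.part [1, 6, 64] [0, 0, 0] [56] [],
.hall [1] [1, 2, 6],
.ab2 1 18,
.join 2 32 6 4 2 2 [(5, 0)],
.mono 1 16 20 1,
.le 2 68 4 2 3,
.ordE 0 32 2,
.join 0 4 5 2 0 2 [(2, 0)],
.le 0 72 8 3 2,
.un 1 2,
.part [18, 4, 32] [0, 0, 0] [73] [],
.deg 6 [0, 1, 2],
.join 0 32 6 2 0 2 [(5, 0)],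
.join 1 2 6 2 1 2 [(1, 1)],
.part [2, 20, 32] [0, 0, 0] [73] [],
.part [64, 8, 48] [0, 0, 0] [7] [],
.mono 0 2 18 1,
.part [16, 72, 32] [0, 0, 0] [7] [],
.join 1 4 6 2 2 0 [(2, 0)],
.deg 2 [1, 1, 1],
.part [68, 2, 1] [0, 0, 0] [56] [],
.mono 1 32 34 1,
.hall [0, 2] [3, 5],
.ordE 1 16 3,
.mono 1 4 20 1,
.hall [1] [0, 1, 6],
.deg 2 [1, 0, 2],
.le 2 66 2 1 3,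
.hall [0, 2] [3, 4],
.l2 0 6 36 2 1 1,
.ordE 0 2 1,
.l2 0 18 66 1 1 1,
.ab 2 5,
.deg 1 [1, 2, 0],
.join 2 16 6 4 2 2 [(4, 0)],
.ab2 0 66,
.part [20, 0, 34] [0, 0, 0] [73] [],
.join 1 32 6 2 2 0 [(5, 0)],
.join 2 4 6 4 0 4 [(2, 0)],
.ab 2 0,
.mono 0 32 36 1,
.part [65, 2, 4] [0, 0, 0] [56] [],
.le 0 80 16 4 2,
.join 1 2 5 2 1 1 [(1, 0)],
.part [66, 4, 1] [0, 0, 0] [56] [],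
.ab 1 5,
.join 0 4 4 2 1 1 [(2, 0)],
.hall [0, 2] [0, 1],
.ab2 2 65,
.un 0 2,
.deg 5 [3, 0, 0],
.join 2 32 6 4 1 3 [(5, 0)],
.ordE 2 2 2,
.l2 1 6 68 2 1 1,
.part [2, 121, 4] [0, 1, 0] [] [],
.join 2 4 6 4 2 2 [(2, 0)],
.part [8, 48, 64] [0, 0, 0] [7] [],
.join 0 2 4 2 1 1 [(1, 0)],
.ordE 2 1 1,
.join 2 2 5 4 3 1 [(1, 0)],
.part [34, 20, 0] [0, 0, 0] [73] [],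
.lip 2 4 60 56,
.mono 2 32 96 1,
.ab2 1 20,
.ordE 0 64 1,
.join 0 2 6 2 1 1 [(1, 0)],
.hall [2] [0, 1, 2],
.un 0 5,
.lip 0 48 57 73,
.deg 1 [2, 1, 0],
.ordE 1 16 2,
.part [2, 16, 36] [0, 0, 0] [73] [],
.part [15, 64, 48] [1, 0, 0] [] [],
.lip 2 6 79 73,
.join 1 2 5 2 0 2 [(1, 0)],
.ordE 0 1 2,
.join 2 2 6 4 3 1 [(1, 0)],
.hall [1] [3, 4, 5],
.deg 0 [1, 0, 1],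
.part [79, 32, 16] [1, 0, 0] [] [],
.part [3, 64, 60] [0, 0, 1] [] [],
.part [2, 1, 68] [0, 0, 0] [56] [],
.l2 0 20 36 2 1 1,
.lip 0 6 15 73,
.join 0 16 5 2 1 1 [(4, 0)],
.ab2 1 6,
.part [20, 34, 0] [0, 0, 0] [73] [],
.deg 0 [1, 1, 0],
.ab2 0 34,
.ab2 2 36,
.join 2 4 5 4 3 1 [(2, 0)],
.ab 1 4,
.ab2 1 36,
.part [8, 96, 16] [0, 0, 0] [7] [],
.join 0 4 6 2 0 2 [(2, 0)],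
.lip 0 2 75 73,
.part [4, 66, 1] [0, 0, 0] [56] [],
.deg 4 [0, 2, 1],
.ordE 1 4 1,
.part [57, 64, 6] [1, 0, 0] [] [],
.deg 6 [0, 2, 1],
.join 1 2 4 2 1 1 [(1, 0)],
.ab 1 3,
.join 1 16 6 2 1 1 [(4, 0)],
.deg 5 [2, 0, 1],
.join 0 4 4 2 1 2 [(2, 1)],
.deg 4 [1, 2, 0],
.le 0 36 4 2 2,
.part [2, 36, 16] [0, 0, 0] [73] [],
.join 1 4 5 2 0 3 [(2, 1)],
.le 0 18 16 4 1,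
.part [16, 2, 36] [0, 0, 0] [73] [],
.ordE 2 2 1,
.part [0, 20, 34] [0, 0, 0] [73] [],
.deg 4 [3, 0, 0],
.part [48, 64, 8] [0, 0, 0] [7] [],
.le 1 96 32 5 2,
.ab 0 5,
.mono 2 32 48 1,
.hall [0] [0, 1, 2],
.ab2 0 18,
.lip 1 6 79 73,
.part [40, 16, 64] [0, 0, 0] [7] [],
.part [64, 6, 48] [0, 0, 0] [9] [],
.le 1 65 1 0 2,
.part [4, 18, 32] [0, 0, 0] [73] [],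
.hall [1] [4, 5, 6],
.join 1 2 2 2 1 1 [(1, 0)],
.mono 0 4 20 1,
.join 1 4 4 2 1 1 [(2, 0)],
.join 0 4 6 2 0 3 [(2, 1)],
.part [64, 1, 6] [0, 0, 0] [56] [],
.lip 0 32 105 73,
.part [8, 80, 32] [0, 0, 0] [7] [],
.l2 1 36 96 5 1 1,
.l2 0 6 66 1 1 1,
.ab2 2 34,
.mono 0 4 6 1,
.le 1 20 16 4 2,
.lip 0 16 89 73,
.join 1 4 4 2 1 2 [(2, 1)],
.ab 0 4,
.deg 1 [1, 0, 2],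
.deg 4 [2, 1, 0],
.deg 6 [0, 0, 3],
.part [6, 1, 64] [0, 0, 0] [56] [],
.deg 4 [2, 0, 1],
.part [4, 65, 2] [0, 0, 0] [56] [],
.ab2 1 48,
.le 1 18 16 4 2,
.hall [1] [0, 1, 2],
.le 0 68 4 2 2,
.le 1 96 64 6 1,
.l2 0 34 66 1 1 1,
.deg 5 [1, 2, 0],
.part [32, 79, 16] [0, 1, 0] [] [],
.join 0 2 4 2 2 0 [(1, 0)],
.part [57, 6, 64] [1, 0, 0] [] [],
.part [0, 18, 36] [0, 0, 0] [73] [],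
.deg 6 [1, 0, 2],
.l2 0 20 48 4 1 1,
.part [68, 1, 2] [0, 0, 0] [56] [],
.part [5, 64, 58] [0, 0, 1] [] [],
.part [32, 64, 24] [0, 0, 0] [7] [],
.part [18, 36, 0] [0, 0, 0] [73] [],
.ab2 2 96,
.part [2, 68, 1] [0, 0, 0] [56] [],
.un 0 4,
.join 2 2 4 4 1 3 [(1, 0)],
.deg 2 [0, 1, 2],
.le 1 18 2 1 2,
.l2 0 6 68 2 1 1,
.join 2 16 6 4 3 1 [(4, 0)],
.ordE 1 16 1,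
.part [32, 20, 2] [0, 0, 0] [73] [],
.hall [2] [0, 1, 6],
.hall [0, 1] [0, 6],
.l2 1 20 80 4 1 1,
.hall [0, 1, 2] [0],
.join 1 16 6 2 0 2 [(4, 0)],
.part [2, 64, 5] [0, 0, 0] [56] [],
.part [64, 32, 24] [0, 0, 0] [7] [],
.mono 0 2 34 1,
.hall [0] [3, 4, 6],
.hall [1, 2] [3, 6],
.deg 1 [0, 3, 0],
.ordE 2 64 1,
.l2 1 20 48 4 1 1,
.lip 2 2 58 56,
.lip 0 4 77 73,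
.join 0 2 6 2 1 2 [(1, 1)],
.deg 0 [0, 0, 2],
.join 1 2 4 2 0 3 [(1, 1)],
.join 1 1 6 2 0 3 [(0, 1)],
.l2 1 6 34 1 1 1,
.part [18, 32, 4] [0, 0, 0] [73] [],
.ordE 0 4 2,
.join 1 4 6 2 1 1 [(2, 0)]]

noncomputable def gads : List Gt := [
⟨2, [⟨32, 2, []⟩, ⟨4, 4, []⟩], [3, 1, 1], 1, [(36, 1)]⟩,
⟨1, [⟨4, 4, []⟩, ⟨2, 2, []⟩], [3, 2, 2], 1, [(6, 1)]⟩,
⟨0, [⟨20, 2, []⟩, ⟨2, 2, []⟩], [3, 3, 3], 1, [(6, 1), (18, 1)]⟩,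
⟨0, [⟨4, 4, []⟩, ⟨64, 2, []⟩], [3, 2, 2], 1, [(68, 1)]⟩,
⟨1, [⟨32, 2, []⟩, ⟨66, 2, []⟩], [3, 3, 3], 1, [(34, 1), (96, 1)]⟩,
⟨2, [⟨72, 3, []⟩, ⟨16, 3, []⟩], [3, 3], 1, [(24, 1), (80, 1)]⟩,
⟨2, [⟨34, 4, []⟩, ⟨4, 2, []⟩], [3, 2, 2], 1, [(6, 1), (36, 1)]⟩,
⟨0, [⟨16, 2, []⟩, ⟨68, 2, []⟩], [3, 3, 3], 1, [(20, 1), (80, 1)]⟩,
⟨1, [⟨4, 2, []⟩, ⟨32, 2, []⟩], [3, 3, 3], 1, [(36, 1)]⟩,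
⟨2, [⟨66, 4, []⟩, ⟨16, 2, []⟩], [3, 2, 2], 1, [(18, 1), (80, 1)]⟩,
⟨0, [⟨1, 2, []⟩, ⟨4, 2, []⟩], [3, 3, 3], 1, [(5, 1)]⟩,
⟨0, [⟨4, 2, []⟩, ⟨80, 2, []⟩], [3, 3, 3], 1, [(20, 1), (68, 1)]⟩,
⟨1, [⟨8, 2, []⟩, ⟨64, 2, []⟩], [3, 3, 3], 1, [(72, 1)]⟩,
⟨0, [⟨34, 2, []⟩, ⟨4, 2, []⟩], [3, 3, 3], 1, [(6, 1), (36, 1)]⟩,
⟨0, [⟨65, 2, []⟩, ⟨4, 2, []⟩], [3, 3, 3], 1, [(5, 1), (68, 1)]⟩,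
⟨0, [⟨36, 2, []⟩, ⟨16, 2, []⟩], [3, 3, 3], 1, [(20, 1), (48, 1)]⟩,
⟨1, [⟨4, 2, []⟩, ⟨66, 2, []⟩], [3, 3, 3], 1, [(6, 1), (68, 1)]⟩,
⟨2, [⟨2, 2, []⟩, ⟨16, 4, []⟩], [3, 1, 1], 1, [(18, 1)]⟩,
⟨0, [⟨8, 2, []⟩, ⟨32, 2, []⟩], [3, 3, 3], 1, [(40, 1)]⟩,
⟨2, [⟨16, 2, []⟩, ⟨4, 4, []⟩], [3, 1, 1], 1, [(20, 1)]⟩,
⟨1, [⟨16, 2, []⟩, ⟨68, 2, []⟩], [3, 3, 3], 1, [(20, 1), (80, 1)]⟩,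
⟨1, [⟨32, 2, []⟩, ⟨80, 2, []⟩], [3, 3, 3], 1, [(48, 1), (96, 1)]⟩,
⟨2, [⟨34, 4, []⟩, ⟨16, 2, []⟩], [3, 2, 2], 1, [(18, 1), (48, 1)]⟩,
⟨2, [⟨2, 3, []⟩, ⟨32, 3, []⟩], [3, 3], 1, [(34, 1)]⟩,
⟨1, [⟨1, 2, []⟩, ⟨64, 2, []⟩], [3, 3, 3], 1, [(65, 1)]⟩,
⟨1, [⟨4, 2, []⟩, ⟨80, 2, []⟩], [3, 3, 3], 1, [(20, 1), (68, 1)]⟩,
⟨2, [⟨2, 3, []⟩, ⟨16, 3, []⟩], [3, 3], 1, [(18, 1)]⟩,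
⟨1, [⟨8, 2, []⟩, ⟨32, 2, []⟩], [3, 3, 3], 1, [(40, 1)]⟩,
⟨1, [⟨16, 2, []⟩, ⟨66, 2, []⟩], [3, 3, 3], 1, [(18, 1), (80, 1)]⟩,
⟨1, [⟨2, 2, []⟩, ⟨48, 2, []⟩], [3, 3, 3], 1, [(18, 1), (34, 1)]⟩,
⟨2, [⟨68, 4, []⟩, ⟨32, 2, []⟩], [3, 2, 2], 1, [(36, 1), (96, 1)]⟩,
⟨1, [⟨32, 2, []⟩, ⟨68, 2, []⟩], [3, 3, 3], 1, [(36, 1), (96, 1)]⟩,
⟨0, [⟨18, 2, []⟩, ⟨4, 2, []⟩], [3, 3, 3], 1, [(6, 1), (20, 1)]⟩,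
⟨1, [⟨2, 2, []⟩, ⟨96, 2, []⟩], [3, 3, 3], 1, [(34, 1), (66, 1)]⟩,
⟨0, [⟨8, 2, []⟩, ⟨64, 2, []⟩], [3, 3, 3], 1, [(72, 1)]⟩,
⟨1, [⟨20, 2, []⟩, ⟨32, 2, []⟩], [3, 3, 3], 1, [(36, 1), (48, 1)]⟩,
⟨2, [⟨96, 4, []⟩, ⟨4, 2, []⟩], [3, 2, 2], 1, [(36, 1), (68, 1)]⟩,
⟨1, [⟨2, 2, []⟩, ⟨32, 2, []⟩], [3, 3, 3], 1, [(34, 1)]⟩,
⟨1, [⟨2, 4, []⟩, ⟨4, 2, []⟩], [3, 2, 2], 1, [(6, 1)]⟩,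
⟨2, [⟨4, 4, []⟩, ⟨2, 2, []⟩], [3, 2, 2], 1, [(6, 1)]⟩,
⟨2, [⟨32, 2, []⟩, ⟨2, 4, []⟩], [3, 1, 1], 1, [(34, 1)]⟩,
⟨0, [⟨32, 2, []⟩, ⟨80, 2, []⟩], [3, 3, 3], 1, [(48, 1), (96, 1)]⟩,
⟨1, [⟨4, 2, []⟩, ⟨16, 2, []⟩], [3, 3, 3], 1, [(20, 1)]⟩,
⟨1, [⟨18, 2, []⟩, ⟨32, 2, []⟩], [3, 3, 3], 1, [(34, 1), (48, 1)]⟩,
⟨1, [⟨16, 4, []⟩, ⟨32, 2, []⟩], [3, 2, 2], 1, [(48, 1)]⟩,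
⟨2, [⟨1, 3, []⟩, ⟨2, 3, []⟩], [3, 3], 1, [(3, 1)]⟩,
⟨1, [⟨2, 2, []⟩, ⟨16, 2, []⟩], [3, 3, 3], 1, [(18, 1)]⟩,
⟨2, [⟨18, 4, []⟩, ⟨32, 2, []⟩], [3, 2, 2], 1, [(34, 1), (48, 1)]⟩,
⟨1, [⟨20, 2, []⟩, ⟨2, 2, []⟩], [3, 3, 3], 1, [(6, 1), (18, 1)]⟩,
⟨0, [⟨72, 2, []⟩, ⟨32, 2, []⟩], [3, 3, 3], 1, [(40, 1), (96, 1)]⟩,
⟨2, [⟨65, 3, []⟩, ⟨4, 3, []⟩], [3, 3], 1, [(5, 1), (68, 1)]⟩,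
⟨0, [⟨36, 2, []⟩, ⟨2, 2, []⟩], [3, 3, 3], 1, [(6, 1), (34, 1)]⟩,
⟨2, [⟨66, 4, []⟩, ⟨32, 2, []⟩], [3, 2, 2], 1, [(34, 1), (96, 1)]⟩,
⟨1, [⟨65, 2, []⟩, ⟨4, 2, []⟩], [3, 3, 3], 1, [(5, 1), (68, 1)]⟩,
⟨1, [⟨2, 2, []⟩, ⟨68, 2, []⟩], [3, 3, 3], 1, [(6, 1), (66, 1)]⟩,
⟨1, [⟨16, 3, []⟩, ⟨32, 3, []⟩], [3, 3], 1, [(48, 1)]⟩,
⟨2, [⟨4, 4, []⟩, ⟨64, 2, []⟩], [3, 2, 2], 1, [(68, 1)]⟩,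
⟨0, [⟨2, 3, []⟩, ⟨4, 3, []⟩], [3, 3], 1, [(6, 1)]⟩,
⟨2, [⟨2, 2, []⟩, ⟨68, 4, []⟩], [3, 1, 1], 1, [(6, 1), (66, 1)]⟩,
⟨1, [⟨34, 2, []⟩, ⟨4, 2, []⟩], [3, 3, 3], 1, [(6, 1), (36, 1)]⟩,
⟨2, [⟨16, 2, []⟩, ⟨96, 4, []⟩], [3, 1, 1], 1, [(48, 1), (80, 1)]⟩,
⟨0, [⟨2, 2, []⟩, ⟨16, 2, []⟩], [3, 3, 3], 1, [(18, 1)]⟩,
⟨2, [⟨4, 2, []⟩, ⟨16, 4, []⟩], [3, 1, 1], 1, [(20, 1)]⟩,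
⟨1, [⟨36, 2, []⟩, ⟨2, 2, []⟩], [3, 3, 3], 1, [(6, 1), (34, 1)]⟩,
⟨2, [⟨4, 2, []⟩, ⟨66, 4, []⟩], [3, 1, 1], 1, [(6, 1), (68, 1)]⟩,
⟨2, [⟨2, 4, []⟩, ⟨4, 2, []⟩], [3, 2, 2], 1, [(6, 1)]⟩,
⟨2, [⟨16, 3, []⟩, ⟨32, 3, []⟩], [3, 3], 1, [(48, 1)]⟩,
⟨2, [⟨68, 4, []⟩, ⟨16, 2, []⟩], [3, 2, 2], 1, [(20, 1), (80, 1)]⟩,
⟨0, [⟨1, 2, []⟩, ⟨2, 2, []⟩], [3, 3, 3], 1, [(3, 1)]⟩,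
⟨2, [⟨80, 4, []⟩, ⟨2, 2, []⟩], [3, 2, 2], 1, [(18, 1), (66, 1)]⟩,
⟨1, [⟨32, 4, []⟩, ⟨16, 2, []⟩], [3, 2, 2], 1, [(48, 1)]⟩,
⟨1, [⟨1, 2, []⟩, ⟨2, 2, []⟩], [3, 3, 3], 1, [(3, 1)]⟩,
⟨0, [⟨34, 2, []⟩, ⟨16, 2, []⟩], [3, 3, 3], 1, [(18, 1), (48, 1)]⟩,
⟨0, [⟨2, 4, []⟩, ⟨4, 2, []⟩], [3, 2, 2], 1, [(6, 1)]⟩,
⟨0, [⟨32, 2, []⟩, ⟨66, 2, []⟩], [3, 3, 3], 1, [(34, 1), (96, 1)]⟩,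
⟨1, [⟨36, 2, []⟩, ⟨16, 2, []⟩], [3, 3, 3], 1, [(20, 1), (48, 1)]⟩,
⟨2, [⟨1, 3, []⟩, ⟨64, 3, []⟩], [3, 3], 1, [(65, 1)]⟩,
⟨2, [⟨36, 4, []⟩, ⟨2, 2, []⟩], [3, 2, 2], 1, [(6, 1), (34, 1)]⟩,
⟨2, [⟨18, 4, []⟩, ⟨4, 2, []⟩], [3, 2, 2], 1, [(6, 1), (20, 1)]⟩,
⟨2, [⟨96, 4, []⟩, ⟨2, 2, []⟩], [3, 2, 2], 1, [(34, 1), (66, 1)]⟩,
⟨0, [⟨2, 4, []⟩, ⟨64, 2, []⟩], [3, 2, 2], 1, [(66, 1)]⟩,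
⟨2, [⟨4, 3, []⟩, ⟨16, 3, []⟩], [3, 3], 1, [(20, 1)]⟩,
⟨2, [⟨20, 4, []⟩, ⟨2, 2, []⟩], [3, 2, 2], 1, [(6, 1), (18, 1)]⟩,
⟨2, [⟨16, 4, []⟩, ⟨32, 2, []⟩], [3, 2, 2], 1, [(48, 1)]⟩,
⟨1, [⟨4, 2, []⟩, ⟨96, 2, []⟩], [3, 3, 3], 1, [(36, 1), (68, 1)]⟩,
⟨1, [⟨34, 2, []⟩, ⟨16, 2, []⟩], [3, 3, 3], 1, [(18, 1), (48, 1)]⟩,
⟨0, [⟨4, 2, []⟩, ⟨96, 2, []⟩], [3, 3, 3], 1, [(36, 1), (68, 1)]⟩,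
⟨0, [⟨8, 2, []⟩, ⟨16, 2, []⟩], [3, 3, 3], 1, [(24, 1)]⟩,
⟨1, [⟨1, 2, []⟩, ⟨4, 2, []⟩], [3, 3, 3], 1, [(5, 1)]⟩,
⟨0, [⟨16, 3, []⟩, ⟨32, 3, []⟩], [3, 3], 1, [(48, 1)]⟩,
⟨0, [⟨20, 2, []⟩, ⟨32, 2, []⟩], [3, 3, 3], 1, [(36, 1), (48, 1)]⟩,
⟨1, [⟨34, 2, []⟩, ⟨20, 2, []⟩], [3, 3, 3], 1, [(6, 1), (18, 1), (36, 1), (48, 1)]⟩,
⟨0, [⟨16, 2, []⟩, ⟨96, 2, []⟩], [3, 3, 3], 1, [(48, 1), (80, 1)]⟩,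
⟨2, [⟨1, 2, []⟩, ⟨64, 4, []⟩], [3, 1, 1], 1, [(65, 1)]⟩,
⟨1, [⟨65, 2, []⟩, ⟨2, 2, []⟩], [3, 3, 3], 1, [(3, 1), (66, 1)]⟩,
⟨0, [⟨16, 4, []⟩, ⟨64, 2, []⟩], [3, 2, 2], 1, [(80, 1)]⟩,
⟨1, [⟨8, 2, []⟩, ⟨16, 2, []⟩], [3, 3, 3], 1, [(24, 1)]⟩,
⟨0, [⟨4, 2, []⟩, ⟨32, 2, []⟩], [3, 3, 3], 1, [(36, 1)]⟩,
⟨0, [⟨2, 2, []⟩, ⟨48, 2, []⟩], [3, 3, 3], 1, [(18, 1), (34, 1)]⟩,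
⟨0, [⟨32, 2, []⟩, ⟨68, 2, []⟩], [3, 3, 3], 1, [(36, 1), (96, 1)]⟩,
⟨1, [⟨32, 2, []⟩, ⟨6, 2, []⟩], [3, 3, 3], 1, [(34, 1), (36, 1)]⟩,
⟨2, [⟨4, 3, []⟩, ⟨32, 3, []⟩], [3, 3], 1, [(36, 1)]⟩,
⟨1, [⟨4, 2, []⟩, ⟨48, 2, []⟩], [3, 3, 3], 1, [(20, 1), (36, 1)]⟩,
⟨2, [⟨32, 4, []⟩, ⟨16, 2, []⟩], [3, 2, 2], 1, [(48, 1)]⟩,
⟨1, [⟨18, 2, []⟩, ⟨4, 2, []⟩], [3, 3, 3], 1, [(6, 1), (20, 1)]⟩,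
⟨0, [⟨32, 4, []⟩, ⟨64, 2, []⟩], [3, 2, 2], 1, [(96, 1)]⟩,
⟨0, [⟨16, 2, []⟩, ⟨6, 2, []⟩], [3, 3, 3], 1, [(18, 1), (20, 1)]⟩,
⟨1, [⟨16, 2, []⟩, ⟨96, 2, []⟩], [3, 3, 3], 1, [(48, 1), (80, 1)]⟩,
⟨1, [⟨16, 2, []⟩, ⟨6, 2, []⟩], [3, 3, 3], 1, [(18, 1), (20, 1)]⟩,
⟨0, [⟨2, 2, []⟩, ⟨68, 2, []⟩], [3, 3, 3], 1, [(6, 1), (66, 1)]⟩,
⟨0, [⟨16, 2, []⟩, ⟨66, 2, []⟩], [3, 3, 3], 1, [(18, 1), (80, 1)]⟩,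
⟨0, [⟨8, 3, []⟩, ⟨32, 3, []⟩], [3, 3], 1, [(40, 1)]⟩,
⟨2, [⟨2, 3, []⟩, ⟨4, 3, []⟩], [3, 3], 1, [(6, 1)]⟩,
⟨2, [⟨80, 4, []⟩, ⟨4, 2, []⟩], [3, 2, 2], 1, [(20, 1), (68, 1)]⟩,
⟨0, [⟨1, 2, []⟩, ⟨64, 2, []⟩], [3, 3, 3], 1, [(65, 1)]⟩,
⟨2, [⟨1, 3, []⟩, ⟨4, 3, []⟩], [3, 3], 1, [(5, 1)]⟩,
⟨2, [⟨65, 3, []⟩, ⟨2, 3, []⟩], [3, 3], 1, [(3, 1), (66, 1)]⟩,
⟨1, [⟨4, 2, []⟩, ⟨16, 4, []⟩], [3, 1, 1], 1, [(20, 1)]⟩,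
⟨0, [⟨4, 4, []⟩, ⟨2, 2, []⟩], [3, 2, 2], 1, [(6, 1)]⟩,
⟨0, [⟨2, 2, []⟩, ⟨96, 2, []⟩], [3, 3, 3], 1, [(34, 1), (66, 1)]⟩,
⟨0, [⟨32, 2, []⟩, ⟨6, 2, []⟩], [3, 3, 3], 1, [(34, 1), (36, 1)]⟩,
⟨1, [⟨2, 2, []⟩, ⟨80, 2, []⟩], [3, 3, 3], 1, [(18, 1), (66, 1)]⟩,
⟨0, [⟨18, 2, []⟩, ⟨32, 2, []⟩], [3, 3, 3], 1, [(34, 1), (48, 1)]⟩,
⟨2, [⟨8, 3, []⟩, ⟨64, 3, []⟩], [3, 3], 1, [(72, 1)]⟩,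
⟨2, [⟨2, 2, []⟩, ⟨32, 4, []⟩], [3, 1, 1], 1, [(34, 1)]⟩,
⟨0, [⟨4, 2, []⟩, ⟨66, 2, []⟩], [3, 3, 3], 1, [(6, 1), (68, 1)]⟩,
⟨0, [⟨32, 4, []⟩, ⟨16, 2, []⟩], [3, 2, 2], 1, [(48, 1)]⟩,
⟨2, [⟨4, 2, []⟩, ⟨32, 4, []⟩], [3, 1, 1], 1, [(36, 1)]⟩,
⟨1, [⟨16, 4, []⟩, ⟨64, 2, []⟩], [3, 2, 2], 1, [(80, 1)]⟩,
⟨2, [⟨36, 4, []⟩, ⟨16, 2, []⟩], [3, 2, 2], 1, [(20, 1), (48, 1)]⟩,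
⟨0, [⟨2, 2, []⟩, ⟨32, 2, []⟩], [3, 3, 3], 1, [(34, 1)]⟩,
⟨0, [⟨4, 2, []⟩, ⟨48, 2, []⟩], [3, 3, 3], 1, [(20, 1), (36, 1)]⟩,
⟨2, [⟨8, 3, []⟩, ⟨16, 3, []⟩], [3, 3], 1, [(24, 1)]⟩,
⟨2, [⟨16, 2, []⟩, ⟨2, 4, []⟩], [3, 1, 1], 1, [(18, 1)]⟩,
⟨2, [⟨72, 3, []⟩, ⟨32, 3, []⟩], [3, 3], 1, [(40, 1), (96, 1)]⟩,
⟨0, [⟨4, 2, []⟩, ⟨16, 2, []⟩], [3, 3, 3], 1, [(20, 1)]⟩,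
⟨2, [⟨20, 4, []⟩, ⟨32, 2, []⟩], [3, 2, 2], 1, [(36, 1), (48, 1)]⟩,
⟨0, [⟨16, 4, []⟩, ⟨32, 2, []⟩], [3, 2, 2], 1, [(48, 1)]⟩,
⟨0, [⟨34, 2, []⟩, ⟨20, 2, []⟩], [3, 3, 3], 1, [(6, 1), (18, 1), (36, 1), (48, 1)]⟩,
⟨0, [⟨2, 2, []⟩, ⟨80, 2, []⟩], [3, 3, 3], 1, [(18, 1), (66, 1)]⟩]

theorem base_ok : base.all (fun q => q.ok 7 3 [7, 56, 73] big4 big4 []) = true := by decide +kernel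

theorem gads_ok : gads.all (fun g => Nat.blt g.j 3 && g.ok 7 (([0, 0, 2] : List ℕ).getD g.j 0)) = true := by
  decide +kernel

theorem cmp_ok : cmpR names cnf (cls 3 base ++ gads.map Gt.cl) = true := by decide +kernel

end D83

theorem inst_83 : instB 1 [0, 0, 2] [73] [] D83.base D83.gads D83.names D83.cnf D83.db D83.prf = true :=
  instB_of D83.base_ok D83.gads_ok (by decide +kernel) D83.okc D83.cmp_ok D83.chk_ok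

/-- no gadget has fewer than `2 R` new points. -/
theorem p2_83 : D83.gads.all (fun g => Nat.ble (2 * g.R) g.gs.length) = true := by decide +kernel

/-- there is no configuration of this instance. -/
theorem no_83 {V : Type v} [DecidableEq V] {ι : Type u} [Fintype ι] {B : ι → Finset V}
    {Q : Finset V} {i j : ι} {x : ℕ → V} {D : ℕ → Finset V}
    (h : CfI B Q 1 x D i j [0, 0, 2] [73]) : False :=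
  h.absurd (by decide) srt_nil inst_83

end Pool.Agent.Hyp6
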