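import Pool.Agent.Hyp6.Cseg2
import Pool.Agent.Hyp6.Ins.E86

/-!
# HYP6: instance 86 of the list: n = 2, bounds [0, 0, 0, 2], inner blocks []

2910 base clauses, 706 gadgets, 10542 learned clauses.
-/

set_option autoImplicit false
set_option maxRecDepth 100000

namespace Pool.Agent.Hyp6

open Rup

universe u v

namespace D86

noncomputable def base : List Rs := [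
.ab2 0 24,
.ab2 2 12,
.part [131, 12, 16, 96] [1, 0, 0, 0] [] [],
.l2 1 5 17 0 1 1,
.part [9, 192, 18, 36] [0, 1, 0, 0] [] [],
.hall [2] [0, 1, 6, 7],
.join 3 8 7 4 3 1 [(3, 0)],
.mono 0 1 129 1,
.ab2 3 65,
.lip 3 16 23 7,
.join 3 64 7 3 3 0 [(6, 0)],
.l2 1 48 80 4 1 1,
.l2 2 68 80 6 1 1,
.ab2 3 48,
.join 3 8 5 4 1 3 [(3, 0)],
.mono 0 16 18 1,
.join 1 4 5 2 2 0 [(2, 0)],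
.lip 0 64 69 7,
.le 1 132 128 7 2,
.part [64, 20, 128, 33] [0, 0, 0, 0] [] [(2, 10)],
.join 0 2 5 2 1 1 [(1, 0)],
.lipl 0 132 197 0 65,
.part [64, 20, 128, 33] [0, 0, 0, 0] [] [(3, 10)],
.lip 0 128 152 56,
.part [1, 120, 128, 6] [0, 1, 0, 0] [] [],
.lipl 3 36 108 3 72,
.l2 2 24 80 4 1 1,
.ordE 2 2 2,
.part [64, 12, 128, 34] [0, 0, 0, 0] [] [(2, 17)],
.l2 2 160 192 7 1 1,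
.ab2 3 3,
.part [8, 144, 36, 67] [0, 0, 0, 1] [] [],
.un 1 2,
.hall [2, 3] [3, 6, 7],
.mono 1 32 34 1,
.part [9, 144, 64, 32] [0, 0, 0, 0] [6] [],
.le 2 132 128 7 1,
.part [64, 10, 161, 20] [0, 0, 1, 0] [] [],
.part [17, 142, 32, 64] [0, 1, 0, 0] [] [],
.l2 2 20 48 4 1 1,
.part [40, 71, 16, 128] [0, 1, 0, 0] [] [],
.lip 1 64 71 7,
.deg 5 [0, 1, 0, 2],
.mono 0 16 24 1,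
.deg 4 [1, 1, 0, 1],
.ab2 1 80,
.part [128, 20, 9, 2] [0, 0, 0, 0] [] [(1, 96)],
.un 2 6,
.ab 3 5,
.l2 2 20 24 4 1 1,
.ab2 1 66,
.l2 1 18 144 4 1 1,
.part [16, 103, 128, 8] [0, 1, 0, 0] [] [],
.part [176, 5, 10, 64] [1, 0, 0, 0] [] [],
.part [73, 128, 36, 18] [1, 0, 0, 0] [] [],
.part [73, 20, 128, 34] [1, 0, 0, 0] [] [],
.mono 1 16 144 1,
.part [64, 18, 129, 4] [0, 0, 0, 0] [40] [],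
.ordE 0 16 1,
.part [8, 192, 32, 16] [0, 0, 0, 0] [7] [],
.part [33, 142, 16, 64] [0, 1, 0, 0] [] [],
.join 3 1 3 3 2 2 [(0, 1)],
.l2 1 65 68 6 1 1,
.l2 1 33 160 5 1 1,
.part [128, 10, 85, 32] [0, 0, 1, 0] [] [],
.join 1 16 5 2 2 0 [(4, 0)],
.part [64, 4, 185, 2] [0, 0, 1, 0] [] [],
.deg 7 [0, 3, 1, 0],
.lipl 3 12 30 1 18,
.part [64, 18, 128, 12] [0, 0, 0, 0] [] [(3, 33)],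
.part [73, 144, 4, 34] [1, 0, 0, 0] [] [],
.part [8, 18, 160, 69] [0, 0, 0, 1] [] [],
.part [64, 61, 2, 128] [0, 1, 0, 0] [] [],
.part [130, 57, 64, 4] [0, 1, 0, 0] [] [],
.lip 3 128 184 56,
.deg 3 [1, 1, 1, 0],
.join 2 4 4 2 1 1 [(2, 0)],
.l2 0 18 48 4 1 1,
.l2 2 65 129 0 1 1,
.hall [0, 2, 3] [3, 5],
.hall [0] [0, 1, 2, 7],
.join 2 32 7 2 0 2 [(5, 0)],
.part [9, 20, 128, 64] [0, 0, 0, 0] [] [(2, 34)],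
.part [185, 4, 2, 64] [1, 0, 0, 0] [] [],
.deg 3 [0, 0, 0, 3],
.part [47, 64, 128, 16] [1, 0, 0, 0] [] [],
.part [128, 8, 87, 32] [0, 0, 1, 0] [] [],
.l2 2 144 192 7 1 1,
.un 2 1,
.l2 1 10 40 3 1 1,
.part [64, 34, 128, 17] [0, 0, 0, 0] [] [(2, 12)],
.ordE 0 32 2,
.lip 3 6 70 64,
.part [64, 18, 128, 9] [0, 0, 0, 0] [] [(2, 36)],
.le 1 130 128 7 3,
.l2 1 12 24 3 1 1,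
.lipl 0 64 194 1 130,
.join 3 32 7 3 2 1 [(5, 0)],
.l2 3 65 192 6 2 1,
.l2 2 129 132 7 1 1,
.join 3 1 7 3 1 2 [(0, 0)],
.l2 2 12 40 3 1 1,
.lip 0 64 104 56,
.l2 3 12 72 3 1 2,
.part [128, 71, 32, 24] [0, 1, 0, 0] [] [],
.lip 1 128 184 56,
.part [32, 71, 136, 16] [0, 1, 0, 0] [] [],
.part [3, 128, 4, 120] [0, 0, 0, 1] [] [],
.part [193, 36, 8, 18] [1, 0, 0, 0] [] [],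
.lipl 0 64 196 1 132,
.part [98, 128, 17, 12] [1, 0, 0, 0] [] [],
.part [128, 23, 32, 72] [0, 1, 0, 0] [] [],
.part [197, 18, 8, 32] [1, 0, 0, 0] [] [],
.mono 2 2 34 1,
.part [64, 57, 4, 130] [0, 1, 0, 0] [] [],
.part [2, 17, 132, 104] [0, 0, 0, 1] [] [],
.mono 0 128 129 1,
.part [9, 34, 128, 16] [0, 0, 0, 0] [] [(1, 68)],
.part [65, 10, 32, 20] [0, 0, 0, 0] [128] [],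
.lipl 3 36 165 0 129,
.lipl 3 36 45 0 9,
.lip 1 33 161 128,
.ab2 3 40,
.part [193, 16, 36, 10] [1, 0, 0, 0] [] [],
.part [64, 15, 32, 144] [0, 1, 0, 0] [] [],
.l2 2 18 48 4 1 1,
.part [64, 141, 34, 16] [0, 1, 0, 0] [] [],
.part [128, 2, 121, 4] [0, 0, 1, 0] [] [],
.part [2, 128, 5, 120] [0, 0, 0, 1] [] [],
.l2 1 33 48 5 1 1,
.part [64, 31, 128, 32] [0, 1, 0, 0] [] [],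
.part [128, 18, 9, 4] [0, 0, 0, 0] [] [(1, 96)],
.ab2 0 132,
.l2 0 24 40 3 1 1,
.part [9, 128, 102, 16] [0, 0, 1, 0] [] [],
.lip 0 66 122 56,
.deg 5 [0, 2, 1, 0],
.join 2 4 7 2 0 2 [(2, 0)],
.part [1, 4, 2, 248] [0, 0, 0, 1] [] [],
.lip 0 65 89 56,
.mono 2 4 5 1,
.l2 2 9 40 3 1 1,
.mono 1 16 18 1,
.part [40, 144, 0, 64] [0, 0, 0, 0] [7] [],
.part [64, 164, 18, 9] [0, 1, 0, 0] [] [],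
.part [195, 16, 12, 32] [1, 0, 0, 0] [] [],
.lip 2 130 170 56,
.part [1, 64, 130, 4] [0, 0, 0, 0] [56] [],
.part [64, 185, 4, 2] [0, 1, 0, 0] [] [],
.le 2 65 64 6 2,
.ordE 3 64 2,
.hall [0] [3, 4, 5, 7],
.part [64, 170, 16, 5] [0, 1, 0, 0] [] [],
.hall [1, 2] [1, 2, 6],
.hall [0, 1, 2] [4, 5],
.deg 3 [3, 0, 0, 0],
.join 0 1 5 2 1 1 [(0, 0)],
.srt 0 1 0 0 4,
.part [9, 20, 224, 2] [0, 0, 1, 0] [] [],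
.part [64, 36, 128, 17] [0, 0, 0, 0] [] [(2, 10)],
.le 1 160 128 7 3,
.deg 3 [0, 1, 0, 2],
.le 1 192 64 6 1,
.deg 2 [3, 0, 0, 0],
.l2 1 65 192 6 1 1,
.join 3 4 5 3 2 2 [(2, 1)],
.ab2 0 34,
.lipl 3 64 100 2 36,
.lipl 0 64 98 1 34,
.part [64, 2, 185, 4] [0, 0, 1, 0] [] [],
.hall [1, 3] [4, 6, 7],
.deg 2 [1, 0, 0, 2],
.part [136, 71, 32, 16] [0, 1, 0, 0] [] [],
.part [185, 0, 2, 68] [1, 0, 0, 0] [] [],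
.deg 5 [1, 0, 0, 2],
.part [64, 20, 9, 2] [0, 0, 0, 0] [] [(2, 160)],
.part [224, 20, 2, 9] [1, 0, 0, 0] [] [],
.lipl 3 18 51 3 33,
.deg 0 [0, 2, 1, 0],
.ordE 0 128 3,
.part [128, 17, 68, 2] [0, 0, 0, 0] [40] [],
.part [64, 36, 137, 18] [0, 0, 1, 0] [] [],
.part [64, 3, 128, 60] [0, 0, 0, 1] [] [],
.join 1 1 4 2 1 1 [(0, 0)],
.join 2 16 5 2 0 2 [(4, 0)],
.ab2 1 33,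
.lip 3 16 144 128,
.ordE 1 2 1,
.part [193, 10, 16, 36] [1, 0, 0, 0] [] [],
.part [128, 17, 12, 32] [0, 0, 0, 0] [] [(1, 66)],
.lip 1 96 102 7,
.mono 3 64 192 1,
.part [128, 121, 4, 2] [0, 1, 0, 0] [] [],
.part [64, 20, 128, 43] [0, 0, 0, 1] [] [],
.l2 3 10 72 3 1 2,
.deg 4 [0, 0, 0, 3],
.join 1 1 1 2 0 2 [(0, 0)],
.part [60, 128, 1, 66] [1, 0, 0, 0] [] [],
.l2 0 65 72 6 1 1,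
.deg 2 [1, 1, 0, 1],
.l2 1 20 80 4 1 1,
.lipl 1 34 102 1 68,
.part [193, 8, 36, 18] [1, 0, 0, 0] [] [],
.part [57, 6, 64, 128] [1, 0, 0, 0] [] [],
.part [64, 12, 160, 16] [0, 0, 0, 0] [3] [],
.lipl 1 10 75 0 65,
.part [135, 64, 24, 32] [1, 0, 0, 0] [] [],
.part [75, 36, 128, 16] [1, 0, 0, 0] [] [],
.join 1 32 6 2 1 1 [(5, 0)],
.l2 2 36 160 5 1 1,
.join 3 2 5 4 2 2 [(1, 0)],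
.mono 0 8 72 1,
.part [128, 3, 64, 60] [0, 0, 0, 1] [] [],
.part [64, 143, 48, 0] [0, 1, 0, 0] [] [],
.part [64, 32, 143, 16] [0, 0, 1, 0] [] [],
.part [73, 18, 128, 36] [1, 0, 0, 0] [] [],
.part [64, 39, 128, 24] [0, 1, 0, 0] [] [],
.part [192, 1, 2, 4] [0, 0, 0, 0] [56] [],
.deg 4 [2, 0, 0, 1],
.part [16, 136, 33, 70] [0, 0, 0, 1] [] [],
.l2 1 12 72 3 1 1,
.part [128, 124, 2, 1] [0, 1, 0, 0] [] [],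
.part [64, 16, 143, 32] [0, 0, 1, 0] [] [],
.l2 1 66 80 6 1 1,
.mono 1 64 80 1,
.part [39, 128, 8, 80] [1, 0, 0, 0] [] [],
.mono 0 8 9 1,
.part [64, 34, 128, 20] [0, 0, 0, 0] [] [(0, 9)],
.hall [0, 3] [4, 5, 7],
.part [66, 137, 16, 36] [0, 1, 0, 0] [] [],
.ab2 3 80,
.lipl 1 36 108 1 72,
.part [18, 165, 8, 64] [0, 1, 0, 0] [] [],
.lip 0 0 7 7,
.ab2 1 12,
.hall [1] [3, 5, 6, 7],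
.join 2 1 6 2 2 0 [(0, 0)],
.part [64, 128, 20, 43] [0, 0, 0, 1] [] [],
.join 3 64 7 4 2 2 [(6, 0)],
.lip 1 68 124 56,
.lipl 0 128 196 2 68,
.lip 1 144 150 7,
.part [9, 32, 194, 20] [0, 0, 1, 0] [] [],
.lipl 3 10 30 3 20,
.part [128, 20, 33, 2] [0, 0, 0, 0] [] [(1, 72)],
.mono 1 4 5 1,
.hall [1] [4, 5, 6, 7],
.ab2 2 160,
.l2 2 17 48 4 1 1,
.join 1 2 4 2 0 2 [(1, 0)],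
.mono 2 2 6 1,
.lipl 2 33 113 2 80,
.part [66, 184, 1, 4] [0, 1, 0, 0] [] [],
.part [16, 36, 136, 67] [0, 0, 0, 1] [] [],
.hall [0, 1, 3] [3, 4],
.lip 0 40 47 7,
.part [195, 8, 16, 36] [1, 0, 0, 0] [] [],
.l2 2 6 68 2 1 1,
.part [64, 2, 60, 129] [0, 0, 1, 0] [] [],
.part [128, 10, 53, 64] [0, 0, 1, 0] [] [],
.ab2 2 66,
.part [128, 9, 100, 18] [0, 0, 1, 0] [] [],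
.join 2 1 6 2 1 1 [(0, 0)],
.deg 3 [0, 3, 0, 0],
.part [64, 2, 188, 1] [0, 0, 1, 0] [] [],
.join 2 1 2 2 2 0 [(0, 0)],
.srt 2 6 1 6 2,
.l2 0 3 5 0 1 1,
.part [64, 128, 33, 30] [0, 0, 0, 1] [] [],
.part [9, 2, 180, 64] [0, 0, 1, 0] [] [],
.part [128, 10, 33, 16] [0, 0, 0, 0] [] [(2, 68)],
.join 1 32 7 2 4 0 [(5, 2)],
.lipl 2 128 148 2 20,
.deg 0 [0, 0, 1, 2],
.lip 0 1 25 56,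
.part [9, 180, 2, 64] [0, 1, 0, 0] [] [],
.part [96, 135, 16, 8] [0, 1, 0, 0] [] [],
.deg 2 [0, 1, 0, 2],
.l2 1 34 160 5 1 1,
.join 0 8 5 2 1 1 [(3, 0)],
.lipl 0 1 193 3 192,
.part [23, 40, 128, 64] [1, 0, 0, 0] [] [],
.ab 3 3,
.deg 7 [0, 2, 1, 1],
.l2 2 24 40 3 1 1,
.part [1, 20, 224, 10] [0, 0, 1, 0] [] [],
.deg 4 [1, 0, 2, 0],
.part [9, 192, 20, 34] [0, 1, 0, 0] [] [],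
.part [58, 1, 128, 68] [1, 0, 0, 0] [] [],
.part [1, 130, 12, 112] [0, 0, 0, 1] [] [],
.part [81, 128, 34, 12] [1, 0, 0, 0] [] [],
.ab2 0 80,
.lipl 3 64 208 2 144,
.lip 1 128 135 7,
.lipl 3 17 27 1 10,
.lipl 2 12 78 0 66,
.join 3 64 7 3 2 1 [(6, 0)],
.lip 1 5 29 56,
.part [128, 62, 64, 1] [0, 1, 0, 0] [] [],
.srt 1 6 0 6 1,
.join 2 16 6 2 1 1 [(4, 0)],
.join 1 4 7 2 1 1 [(2, 0)],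
.join 1 4 7 2 2 0 [(2, 0)],
.join 1 8 7 2 1 1 [(3, 0)],
.ab2 0 48,
.lip 0 0 56 56,
.part [197, 8, 18, 32] [1, 0, 0, 0] [] [],
.part [59, 0, 128, 68] [1, 0, 0, 0] [] [],
.part [7, 48, 8, 192] [1, 0, 0, 0] [] [],
.l2 2 72 96 6 1 1,
.l2 1 6 68 2 1 1,
.hall [0, 3] [3, 4, 5],
.l2 1 5 68 2 1 1,
.ab2 3 34,
.part [135, 64, 48, 8] [1, 0, 0, 0] [] [],
.l2 1 9 10 3 1 1,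
.lip 3 160 224 64,
.l2 2 34 160 5 1 1,
.part [64, 2, 153, 36] [0, 0, 1, 0] [] [],
.part [64, 18, 33, 4] [0, 0, 0, 0] [] [(2, 136)],
.part [195, 32, 20, 8] [1, 0, 0, 0] [] [],
.l2 2 20 144 4 1 1,
.part [8, 144, 33, 70] [0, 0, 0, 1] [] [],
.part [23, 128, 8, 96] [1, 0, 0, 0] [] [],
.part [5, 184, 2, 64] [0, 1, 0, 0] [] [],
.deg 1 [1, 0, 2, 0],
.hall [0, 1, 2, 3] [4],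
.l2 0 12 24 3 1 1,
.hall [0, 1, 3] [4, 5],
.le 2 136 128 7 2,
.ab2 1 48,
.part [65, 18, 8, 36] [0, 0, 0, 0] [128] [],
.join 1 4 4 2 2 0 [(2, 0)],
.join 3 1 2 3 1 2 [(0, 0)],
.lipl 0 128 208 1 80,
.part [128, 57, 2, 68] [0, 1, 0, 0] [] [],
.l2 0 3 65 0 1 1,
.part [128, 43, 16, 68] [0, 1, 0, 0] [] [],
.lipl 3 48 57 0 9,
.hall [3] [0, 1, 6, 7],
.part [68, 2, 184, 1] [0, 0, 1, 0] [] [],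
.join 2 2 2 2 1 1 [(1, 0)],
.join 1 2 7 2 2 2 [(1, 2)],
.part [64, 10, 33, 4] [0, 0, 0, 0] [] [(1, 144)],
.mono 1 4 36 1,
.hall [1, 2] [3, 5, 6],
.part [194, 36, 9, 16] [1, 0, 0, 0] [] [],
.part [64, 32, 31, 128] [0, 0, 1, 0] [] [],
.part [64, 151, 8, 32] [0, 1, 0, 0] [] [],
.hall [1, 2] [0, 1, 7],
.l2 2 130 144 7 1 1,
.ordE 3 1 1,
.mono 1 8 72 1,
.part [128, 120, 1, 6] [0, 1, 0, 0] [] [],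
.part [32, 71, 128, 24] [0, 1, 0, 0] [] [],
.join 2 8 4 2 1 1 [(3, 0)],
.lipl 3 34 43 0 9,
.join 2 4 4 2 0 2 [(2, 0)],
.part [65, 10, 16, 36] [0, 0, 0, 0] [128] [],
.l2 1 130 144 7 1 1,
.l2 1 9 12 3 1 1,
.l2 0 129 130 7 1 1,
.ab2 0 3,
.deg 7 [0, 0, 2, 2],
.part [128, 55, 8, 64] [0, 1, 0, 0] [] [],
.hall [2] [0, 1, 2, 7],
.part [9, 192, 36, 18] [0, 1, 0, 0] [] [],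
.part [137, 68, 18, 32] [1, 0, 0, 0] [] [],
.hall [0, 2, 3] [4, 5],
.part [192, 2, 1, 4] [0, 0, 0, 0] [56] [],
.join 1 2 5 2 0 2 [(1, 0)],
.join 1 4 6 2 2 1 [(2, 1)],
.part [192, 32, 16, 8] [0, 0, 0, 0] [7] [],
.l2 1 129 132 7 1 1,
.part [64, 135, 8, 48] [0, 1, 0, 0] [] [],
.l2 1 96 160 5 1 1,
.part [8, 3, 132, 64] [0, 0, 0, 0] [48] [],
.lip 3 64 192 128,
.lipl 2 17 27 1 10,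
.part [9, 100, 130, 16] [0, 1, 0, 0] [] [],
.ordE 3 64 1,
.lip 1 66 114 56,
.part [68, 184, 2, 1] [0, 1, 0, 0] [] [],
.part [16, 128, 72, 39] [0, 0, 0, 1] [] [],
.part [192, 32, 31, 0] [0, 0, 1, 0] [] [],
.part [65, 130, 32, 4] [0, 0, 0, 0] [24] [],
.lip 3 4 60 56,
.lipl 2 17 29 2 12,
.part [68, 57, 128, 2] [0, 1, 0, 0] [] [],
.part [64, 1, 188, 2] [0, 0, 1, 0] [] [],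
.lip 1 129 177 56,
.part [58, 128, 1, 68] [1, 0, 0, 0] [] [],
.part [40, 16, 128, 71] [0, 0, 0, 1] [] [],
.part [128, 15, 16, 96] [0, 1, 0, 0] [] [],
.part [59, 64, 4, 128] [1, 0, 0, 0] [] [],
.mono 0 32 96 1,
.lipl 2 12 45 3 33,
.part [188, 1, 2, 64] [1, 0, 0, 0] [] [],
.part [31, 128, 0, 96] [1, 0, 0, 0] [] [],
.part [16, 167, 64, 8] [0, 1, 0, 0] [] [],
.un 1 1,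
.l2 2 34 40 5 1 1,
.l2 1 12 136 3 1 1,
.mono 2 32 34 1,
.lipl 3 4 148 2 144,
.lip 2 160 167 7,
.part [71, 128, 24, 32] [1, 0, 0, 0] [] [],
.part [9, 36, 128, 2] [0, 0, 0, 0] [] [(2, 80)],
.le 0 96 32 5 2,
.deg 6 [1, 1, 0, 2],
.l2 1 3 18 1 1 1,
.mono 2 64 80 1,
.part [128, 71, 48, 8] [0, 1, 0, 0] [] [],
.lip 3 48 55 7,
.part [64, 40, 128, 23] [0, 0, 0, 1] [] [],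
.part [64, 10, 128, 17] [0, 0, 0, 0] [] [(3, 36)],
.le 2 96 64 6 1,
.join 0 1 4 2 1 1 [(0, 0)],
.l2 1 20 48 4 1 1,
.hall [0, 2, 3] [0, 1],
.part [193, 34, 20, 8] [1, 0, 0, 0] [] [],
.part [194, 36, 17, 8] [1, 0, 0, 0] [] [],
.lip 2 192 240 56,
.part [64, 128, 57, 6] [0, 0, 1, 0] [] [],
.lip 1 132 188 56,
.deg 4 [1, 0, 0, 2],
.part [160, 71, 16, 8] [0, 1, 0, 0] [] [],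
.part [66, 4, 184, 1] [0, 0, 1, 0] [] [],
.part [128, 10, 17, 32] [0, 0, 0, 0] [] [(1, 68)],
.l2 0 17 24 4 1 1,
.part [129, 24, 98, 4] [0, 0, 1, 0] [] [],
.part [4, 2, 1, 248] [0, 0, 0, 1] [] [],
.join 3 8 7 3 1 2 [(3, 0)],
.join 2 8 7 2 2 1 [(3, 1)],
.part [77, 18, 128, 32] [1, 0, 0, 0] [] [],
.part [60, 128, 2, 65] [1, 0, 0, 0] [] [],
.part [73, 36, 128, 18] [1, 0, 0, 0] [] [],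
.join 2 64 7 2 0 2 [(6, 0)],
.part [2, 185, 64, 4] [0, 1, 0, 0] [] [],
.part [0, 23, 160, 72] [0, 1, 0, 0] [] [],
.part [1, 128, 68, 2] [0, 0, 0, 0] [56] [],
.part [208, 36, 9, 2] [1, 0, 0, 0] [] [],
.l2 1 40 72 3 1 1,
.join 2 32 7 2 1 1 [(5, 0)],
.part [17, 36, 192, 10] [1, 0, 0, 0] [] [],
.ab2 3 24,
.part [9, 196, 34, 16] [0, 1, 0, 0] [] [],
.join 1 64 7 2 1 1 [(6, 0)],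
.ab2 2 65,
.join 2 2 4 2 0 2 [(1, 0)],
.l2 0 9 40 3 1 1,
.part [65, 184, 2, 4] [0, 1, 0, 0] [] [],
.part [73, 128, 20, 34] [1, 0, 0, 0] [] [],
.part [64, 60, 128, 3] [0, 1, 0, 0] [] [],
.l2 0 10 72 3 1 1,
.lipl 2 17 27 2 10,
.join 3 32 7 4 3 1 [(5, 0)],
.part [64, 9, 34, 148] [0, 0, 0, 1] [] [],
.srt 0 3 0 0 1,
.deg 4 [3, 0, 0, 0],
.part [200, 34, 17, 4] [1, 0, 0, 0] [] [],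
.ab2 3 160,
.part [6, 32, 129, 88] [0, 0, 0, 1] [] [],
.join 3 1 5 4 1 3 [(0, 0)],
.l2 1 17 48 4 1 1,
.part [132, 120, 2, 1] [0, 1, 0, 0] [] [],
.mono 2 16 144 1,
.lipl 2 34 114 2 80,
.lipl 3 10 27 3 17,
.hall [2, 3] [2, 6, 7],
.part [15, 64, 16, 160] [1, 0, 0, 0] [] [],
.l2 2 65 68 6 1 1,
.join 1 2 3 2 1 1 [(1, 0)],
.join 3 16 6 3 2 2 [(4, 1)],
.hall [1, 3] [1, 6, 7],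
.l2 0 17 80 4 1 1,
.part [144, 71, 32, 8] [0, 1, 0, 0] [] [],
.part [151, 32, 8, 64] [1, 0, 0, 0] [] [],
.part [64, 16, 39, 136] [0, 0, 1, 0] [] [],
.mono 2 1 3 1,
.lip 1 160 224 64,
.hall [3] [1, 2, 6, 7],
.lip 3 16 80 64,
.part [58, 128, 4, 65] [1, 0, 0, 0] [] [],
.hall [0, 1, 3] [4, 7],
.l2 2 18 20 4 1 1,
.part [128, 12, 17, 2] [0, 0, 0, 0] [] [(2, 96)],
.lip 2 16 23 7,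
.hall [1, 2] [0, 1, 6],
.part [40, 16, 135, 64] [0, 0, 1, 0] [] [],
.lipl 0 128 196 1 68,
.part [9, 36, 128, 64] [0, 0, 0, 0] [] [(2, 18)],
.join 3 16 6 3 3 0 [(4, 0)],
.join 2 2 6 2 3 0 [(1, 1)],
.l2 0 65 68 6 1 1,
.part [64, 167, 8, 16] [0, 1, 0, 0] [] [],
.mono 2 4 6 1,
.hall [0, 2] [4, 5, 7],
.join 3 8 5 3 1 2 [(3, 0)],
.part [9, 18, 196, 32] [0, 0, 1, 0] [] [],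
.hall [1, 3] [1, 2, 7],
.part [1, 184, 64, 6] [0, 1, 0, 0] [] [],
.part [160, 23, 64, 8] [0, 1, 0, 0] [] [],
.join 2 64 7 2 1 1 [(6, 0)],
.join 3 2 3 4 3 1 [(1, 0)],
.part [57, 64, 2, 132] [1, 0, 0, 0] [] [],
.lip 1 36 164 128,
.join 3 1 5 3 1 2 [(0, 0)],
.srt 0 5 0 4 1,
.part [128, 33, 12, 16] [0, 0, 0, 0] [] [(1, 66)],
.ab2 1 6,
.deg 5 [3, 0, 0, 0],
.l2 2 68 96 6 1 1,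
.part [64, 33, 128, 10] [0, 0, 0, 0] [] [(3, 20)],
.ab2 3 144,
.part [3, 184, 64, 4] [0, 1, 0, 0] [] [],
.l2 1 130 136 7 1 1,
.part [1, 10, 132, 112] [0, 0, 0, 1] [] [],
.l2 1 129 192 7 1 1,
.srt 0 4 0 3 1,
.ordE 2 8 2,
.part [64, 18, 36, 8] [0, 0, 0, 0] [] [(0, 129)],
.part [128, 4, 59, 64] [0, 0, 1, 0] [] [],
.part [15, 128, 48, 64] [1, 0, 0, 0] [] [],
.mono 1 2 3 1,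
.part [23, 8, 128, 96] [1, 0, 0, 0] [] [],
.lip 0 65 105 56,
.lipl 3 10 43 1 33,
.lip 0 128 168 56,
.lip 0 65 121 56,
.part [9, 86, 32, 128] [0, 1, 0, 0] [] [],
.lip 2 192 197 7,
.part [15, 64, 32, 144] [1, 0, 0, 0] [] [],
.part [2, 121, 128, 4] [0, 1, 0, 0] [] [],
.part [9, 18, 128, 4] [0, 0, 0, 0] [] [(2, 96)],
.part [15, 128, 32, 80] [1, 0, 0, 0] [] [],
.join 3 16 7 3 1 2 [(4, 0)],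
.part [128, 71, 16, 40] [0, 1, 0, 0] [] [],
.part [64, 12, 128, 18] [0, 0, 0, 0] [] [(2, 33)],
.part [192, 39, 0, 24] [0, 1, 0, 0] [] [],
.le 3 80 64 6 1,
.lip 3 6 62 56,
.part [184, 64, 6, 1] [1, 0, 0, 0] [] [],
.part [1, 68, 130, 32] [0, 0, 0, 0] [24] [],
.un 1 0,
.ab2 2 68,
.deg 4 [1, 0, 1, 1],
.deg 2 [0, 0, 1, 2],
.hall [1, 2] [4, 5, 6],
.part [112, 1, 132, 10] [1, 0, 0, 0] [] [],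
.join 3 8 5 3 2 2 [(3, 1)],
.part [128, 32, 20, 10] [0, 0, 0, 0] [] [(0, 65)],
.l2 1 5 20 2 1 1,
.l2 1 10 24 3 1 1,
.deg 5 [1, 1, 0, 1],
.lipl 1 9 27 2 18,
.part [9, 32, 18, 68] [0, 0, 0, 0] [128] [],
.part [64, 16, 10, 165] [0, 0, 0, 1] [] [],
.l2 1 10 136 3 1 1,
.lipl 1 36 228 1 192,
.part [128, 18, 12, 97] [0, 0, 0, 1] [] [],
.ab2 0 17,
.join 0 4 6 2 0 2 [(2, 0)],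
.lipl 0 128 200 2 72,
.lip 1 128 152 56,
.lipl 0 64 200 1 136,
.mono 1 128 129 1,
.part [5, 184, 64, 2] [0, 1, 0, 0] [] [],
.lip 2 96 103 7,
.deg 4 [0, 1, 1, 1],
.join 2 8 6 2 3 0 [(3, 1)],
.join 1 32 6 2 2 0 [(5, 0)],
.part [64, 8, 151, 32] [0, 0, 1, 0] [] [],
.l2 2 36 132 2 1 1,
.deg 6 [1, 0, 0, 3],
.part [128, 58, 4, 65] [0, 1, 0, 0] [] [],
.join 0 4 6 2 0 3 [(2, 1)],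
.part [64, 17, 138, 36] [0, 0, 1, 0] [] [],
.part [80, 137, 34, 4] [0, 1, 0, 0] [] [],
.part [65, 188, 2, 0] [0, 1, 0, 0] [] [],
.mono 1 1 33 1,
.part [188, 2, 1, 64] [1, 0, 0, 0] [] [],
.l2 2 33 65 0 1 1,
.join 3 2 3 3 2 2 [(1, 1)],
.part [184, 64, 3, 4] [1, 0, 0, 0] [] [],
.part [1, 186, 64, 4] [0, 1, 0, 0] [] [],
.srt 1 6 0 6 3,
.deg 3 [0, 0, 3, 0],
.lipl 1 34 43 0 9,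
.part [128, 16, 39, 72] [0, 0, 1, 0] [] [],
.part [192, 4, 2, 1] [0, 0, 0, 0] [56] [],
.lip 2 68 124 56,
.mono 0 32 33 1,
.lip 1 132 172 56,
.l2 2 48 96 5 1 1,
.l2 1 80 96 6 1 1,
.lip 0 2 58 56,
.mono 0 16 80 1,
.lip 3 64 120 56,
.lipl 1 36 53 3 17,
.ab2 3 192,
.part [1, 34, 128, 92] [0, 0, 0, 1] [] [],
.l2 2 5 36 2 1 1,
.part [200, 17, 34, 4] [1, 0, 0, 0] [] [],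
.part [16, 160, 12, 67] [0, 0, 0, 1] [] [],
.part [193, 8, 18, 36] [1, 0, 0, 0] [] [],
.mono 1 64 68 1,
.join 3 2 6 4 2 2 [(1, 0)],
.deg 2 [0, 3, 0, 0],
.part [64, 148, 9, 34] [0, 1, 0, 0] [] [],
.deg 0 [0, 1, 1, 1],
.lipl 2 20 54 2 34,
.deg 2 [0, 1, 1, 1],
.part [128, 103, 16, 8] [0, 1, 0, 0] [] [],
.part [32, 20, 136, 67] [0, 0, 0, 1] [] [],
.lipl 3 1 81 1 80,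
.part [192, 4, 1, 2] [0, 0, 0, 0] [56] [],
.part [9, 20, 128, 2] [0, 0, 0, 0] [] [(2, 96)],
.hall [1, 2, 3] [2, 6],
.part [8, 34, 144, 69] [0, 0, 0, 1] [] [],
.lip 0 128 131 7,
.join 3 16 6 3 2 1 [(4, 0)],
.l2 1 18 24 4 1 1,
.deg 7 [0, 1, 0, 3],
.lipl 3 33 45 1 12,
.ab 3 2,
.l2 1 65 66 6 1 1,
.part [8, 71, 160, 16] [0, 1, 0, 0] [] [],
.part [64, 39, 8, 144] [0, 1, 0, 0] [] [],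
.part [120, 128, 3, 4] [1, 0, 0, 0] [] [],
.join 1 8 7 2 2 0 [(3, 0)],
.part [64, 33, 148, 10] [0, 0, 1, 0] [] [],
.part [8, 32, 16, 199] [0, 0, 0, 1] [] [],
.lip 2 144 149 7,
.part [9, 16, 34, 68] [0, 0, 0, 0] [128] [],
.part [1, 34, 132, 88] [0, 0, 0, 1] [] [],
.join 1 2 7 2 2 0 [(1, 0)],
.part [1, 120, 130, 4] [0, 1, 0, 0] [] [],
.part [64, 33, 18, 140] [0, 0, 0, 1] [] [],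
.mono 0 128 192 1,
.deg 2 [1, 1, 1, 0],
.deg 5 [0, 0, 3, 0],
.ordE 3 16 2,
.lip 1 2 58 56,
.lipl 0 66 75 0 9,
.part [128, 9, 34, 84] [0, 0, 0, 1] [] [],
.part [128, 106, 20, 1] [0, 1, 0, 0] [] [],
.join 3 8 5 3 0 3 [(3, 0)],
.l2 1 72 80 6 1 1,
.part [194, 17, 12, 32] [1, 0, 0, 0] [] [],
.join 1 1 7 2 1 1 [(0, 0)],
.deg 7 [3, 1, 0, 0],
.part [77, 34, 128, 16] [1, 0, 0, 0] [] [],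
.lipl 2 144 153 0 9,
.part [7, 40, 16, 192] [1, 0, 0, 0] [] [],
.part [128, 124, 1, 2] [0, 1, 0, 0] [] [],
.part [8, 16, 32, 199] [0, 0, 0, 1] [] [],
.ordE 0 2 3,
.part [128, 62, 1, 64] [0, 1, 0, 0] [] [],
.join 1 8 7 2 0 2 [(3, 0)],
.l2 2 129 144 7 1 1,
.mono 1 1 17 1,
.lipl 0 9 89 1 80,
.mono 2 128 130 1,
.l2 2 65 72 6 1 1,
.lipl 2 20 86 0 66,
.part [10, 16, 165, 64] [0, 0, 1, 0] [] [],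
.part [60, 1, 128, 66] [1, 0, 0, 0] [] [],
.part [65, 4, 170, 16] [0, 0, 1, 0] [] [],
.l2 2 12 24 3 1 1,
.join 0 4 7 2 1 1 [(2, 0)],
.ordE 3 8 3,
.part [193, 10, 20, 32] [1, 0, 0, 0] [] [],
.lip 2 160 165 7,
.part [64, 60, 1, 130] [0, 1, 0, 0] [] [],
.part [64, 185, 6, 0] [0, 1, 0, 0] [] [],
.mono 1 2 34 1,
.hall [1, 2] [3, 4, 5],
.ordE 2 128 2,
.l2 1 36 48 5 1 1,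
.part [128, 33, 10, 4] [0, 0, 0, 0] [] [(1, 80)],
.join 2 32 7 2 2 1 [(5, 1)],
.l2 3 17 65 0 2 1,
.part [224, 12, 18, 1] [1, 0, 0, 0] [] [],
.part [64, 17, 12, 2] [0, 0, 0, 0] [] [(2, 160)],
.lip 0 136 143 7,
.lipl 3 20 29 0 9,
.part [72, 23, 128, 32] [0, 1, 0, 0] [] [],
.part [1, 130, 44, 80] [0, 0, 1, 0] [] [],
.le 2 144 128 7 1,
.part [9, 166, 16, 64] [0, 1, 0, 0] [] [],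
.part [88, 132, 34, 1] [1, 0, 0, 0] [] [],
.l2 3 36 96 5 2 1,
.deg 5 [0, 1, 2, 0],
.deg 0 [2, 1, 0, 0],
.join 1 8 5 2 0 2 [(3, 0)],
.part [128, 55, 64, 8] [0, 1, 0, 0] [] [],
.part [64, 33, 18, 4] [0, 0, 0, 0] [] [(1, 136)],
.l2 2 20 80 4 1 1,
.hall [0] [4, 5, 6, 7],
.lip 1 136 141 7,
.join 3 1 4 4 1 3 [(0, 0)],
.part [2, 192, 1, 60] [0, 0, 0, 1] [] [],
.l2 1 3 17 0 1 1,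
.lip 0 64 71 7,
.l2 0 129 144 7 1 1,
.l2 2 130 160 7 1 1,
.part [121, 4, 2, 128] [1, 0, 0, 0] [] [],
.part [64, 184, 1, 6] [0, 1, 0, 0] [] [],
.part [1, 120, 132, 2] [0, 1, 0, 0] [] [],
.deg 5 [0, 0, 1, 2],
.part [33, 4, 216, 2] [0, 0, 1, 0] [] [],
.deg 0 [2, 0, 1, 0],
.part [9, 18, 128, 64] [0, 0, 0, 0] [] [(2, 36)],
.l2 1 12 132 2 1 1,
.part [128, 57, 4, 66] [0, 1, 0, 0] [] [],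
.join 2 1 7 2 3 0 [(0, 1)],
.join 2 8 7 2 1 1 [(3, 0)],
.part [64, 8, 39, 144] [0, 0, 1, 0] [] [],
.ab2 3 18,
.part [58, 128, 65, 4] [1, 0, 0, 0] [] [],
.deg 0 [1, 0, 1, 1],
.l2 2 40 48 5 1 1,
.mono 0 16 17 1,
.lipl 1 36 180 1 144,
.l2 2 5 17 0 1 1,
.part [77, 128, 34, 16] [1, 0, 0, 0] [] [],
.part [66, 1, 184, 4] [0, 0, 1, 0] [] [],
.part [64, 43, 128, 20] [0, 1, 0, 0] [] [],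
.join 3 16 7 4 2 2 [(4, 0)],
.part [5, 32, 130, 88] [0, 0, 0, 1] [] [],
.join 2 2 5 2 2 0 [(1, 0)],
.part [193, 10, 36, 16] [1, 0, 0, 0] [] [],
.deg 3 [0, 1, 2, 0],
.un 0 2,
.mono 0 4 6 1,
.part [2, 1, 4, 248] [0, 0, 0, 1] [] [],
.un 1 7,
.ab2 3 72,
.lipl 3 10 27 1 17,
.hall [1, 2, 3] [0, 6],
.ab 3 7,
.le 0 65 64 6 2,
.part [8, 135, 64, 48] [0, 1, 0, 0] [] [],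
.lip 0 64 112 56,
.part [24, 2, 160, 69] [0, 0, 0, 1] [] [],
.part [64, 185, 2, 4] [0, 1, 0, 0] [] [],
.part [132, 58, 64, 1] [0, 1, 0, 0] [] [],
.ordE 0 2 1,
.part [64, 16, 141, 34] [0, 0, 1, 0] [] [],
.join 1 64 7 2 0 2 [(6, 0)],
.part [1, 132, 50, 72] [0, 0, 1, 0] [] [],
.srt 0 1 0 0 1,
.part [17, 172, 2, 64] [0, 1, 0, 0] [] [],
.lip 0 1 9 8,
.hall [2] [3, 5, 6, 7],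
.part [1, 18, 132, 104] [0, 0, 0, 1] [] [],
.part [65, 2, 156, 32] [0, 0, 1, 0] [] [],
.lip 3 20 148 128,
.part [129, 4, 34, 88] [0, 0, 0, 1] [] [],
.deg 2 [2, 1, 0, 0],
.lip 1 132 180 56,
.hall [0, 1, 2] [3, 5],
.part [193, 20, 40, 2] [1, 0, 0, 0] [] [],
.part [64, 20, 129, 2] [0, 0, 0, 0] [40] [],
.part [34, 149, 8, 64] [0, 1, 0, 0] [] [],
.l2 2 96 160 5 1 1,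
.mono 1 4 12 1,
.join 0 1 7 2 2 0 [(0, 0)],
.l2 1 68 80 6 1 1,
.le 2 80 64 6 1,
.part [129, 12, 32, 18] [0, 0, 0, 0] [64] [],
.part [16, 71, 160, 8] [0, 1, 0, 0] [] [],
.ordE 0 2 2,
.ab2 2 20,
.mono 1 16 17 1,
.mono 1 2 130 1,
.hall [1] [3, 4, 5, 6],
.un 2 3,
.part [128, 34, 12, 1] [0, 0, 0, 0] [] [(1, 80)],
.part [40, 135, 16, 64] [0, 1, 0, 0] [] [],
.join 2 1 6 2 3 0 [(0, 1)],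
.part [9, 114, 4, 128] [0, 1, 0, 0] [] [],
.join 2 2 4 2 1 1 [(1, 0)],
.lipl 0 64 224 1 160,
.deg 5 [2, 1, 0, 0],
.part [64, 31, 32, 128] [0, 1, 0, 0] [] [],
.part [64, 17, 12, 2] [0, 0, 0, 0] [] [(1, 160)],
.part [72, 135, 32, 16] [0, 1, 0, 0] [] [],
.join 3 1 1 3 1 2 [(0, 0)],
.part [1, 184, 68, 2] [0, 1, 0, 0] [] [],
.lipl 1 17 53 1 36,
.deg 7 [1, 1, 2, 0],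
.l2 2 6 36 2 1 1,
.mono 1 2 10 1,
.part [7, 24, 32, 192] [1, 0, 0, 0] [] [],
.l2 1 20 144 4 1 1,
.part [64, 9, 128, 34] [0, 0, 0, 0] [] [(2, 20)],
.join 2 1 7 2 2 0 [(0, 0)],
.lipl 0 128 193 2 65,
.lipl 3 18 27 0 9,
.part [129, 20, 34, 72] [0, 0, 0, 1] [] [],
.lip 3 64 67 7,
.join 1 4 4 2 0 2 [(2, 0)],
.l2 0 24 144 4 1 1,
.lip 2 2 26 56,
.hall [0, 1] [4, 5, 7],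
.ordE 3 32 2,
.deg 7 [1, 1, 1, 1],
.part [64, 172, 16, 3] [0, 1, 0, 0] [] [],
.part [64, 33, 130, 4] [0, 0, 0, 0] [24] [],
.part [1, 36, 208, 10] [0, 0, 1, 0] [] [],
.part [129, 34, 4, 64] [0, 0, 0, 0] [24] [],
.part [64, 10, 128, 33] [0, 0, 0, 0] [] [(2, 20)],
.join 3 1 1 4 1 3 [(0, 0)],
.ab 2 6,
.part [39, 16, 128, 72] [1, 0, 0, 0] [] [],
.l2 1 20 36 2 1 1,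
.lip 2 72 79 7,
.ab2 2 6,
.hall [0, 1, 3] [1, 7],
.deg 3 [2, 0, 1, 0],
.part [64, 16, 167, 8] [0, 0, 1, 0] [] [],
.deg 7 [1, 1, 0, 2],
.join 2 8 7 2 2 0 [(3, 0)],
.mono 2 64 66 1,
.part [199, 32, 16, 8] [1, 0, 0, 0] [] [],
.ordE 1 1 2,
.part [137, 66, 20, 32] [1, 0, 0, 0] [] [],
.part [192, 31, 32, 0] [0, 1, 0, 0] [] [],
.part [1, 130, 36, 88] [0, 0, 0, 1] [] [],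
.part [9, 128, 116, 2] [0, 0, 1, 0] [] [],
.hall [0, 1, 3] [0, 1],
.part [129, 36, 8, 18] [0, 0, 0, 0] [64] [],
.deg 5 [0, 3, 0, 0],
.lipl 3 32 161 0 129,
.part [196, 9, 34, 16] [1, 0, 0, 0] [] [],
.part [128, 120, 6, 1] [0, 1, 0, 0] [] [],
.part [200, 36, 17, 2] [1, 0, 0, 0] [] [],
.lip 1 144 147 7,
.join 1 4 4 2 1 1 [(2, 0)],
.part [128, 58, 1, 68] [0, 1, 0, 0] [] [],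
.l2 2 34 48 5 1 1,
.part [64, 12, 128, 51] [0, 0, 0, 1] [] [],
.lip 1 80 87 7,
.part [128, 71, 8, 48] [0, 1, 0, 0] [] [],
.lip 2 24 31 7,
.lip 3 8 15 7,
.lipl 0 128 200 1 72,
.part [64, 32, 15, 144] [0, 0, 1, 0] [] [],
.part [27, 128, 36, 64] [1, 0, 0, 0] [] [],
.deg 7 [0, 1, 1, 2],
.part [128, 121, 2, 4] [0, 1, 0, 0] [] [],
.part [1, 130, 52, 72] [0, 0, 1, 0] [] [],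
.l2 2 132 192 7 1 1,
.part [64, 186, 4, 1] [0, 1, 0, 0] [] [],
.ab2 1 65,
.un 2 4,
.join 2 4 3 2 1 1 [(2, 0)],
.part [16, 128, 40, 71] [0, 0, 0, 1] [] [],
.join 1 8 5 2 1 1 [(3, 0)],
.part [9, 144, 2, 36] [0, 0, 0, 0] [64] [],
.part [128, 9, 36, 16] [0, 0, 0, 0] [] [(1, 66)],
.deg 0 [0, 1, 0, 2],
.ab 1 3,
.l2 1 9 24 3 1 1,
.l2 1 17 80 4 1 1,
.part [196, 10, 17, 32] [1, 0, 0, 0] [] [],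
.join 3 1 6 3 2 1 [(0, 0)],
.part [15, 64, 48, 128] [1, 0, 0, 0] [] [],
.ab2 1 132,
.join 3 1 5 4 2 2 [(0, 0)],
.lipl 0 128 194 2 66,
.l2 0 80 192 6 1 1,
.join 2 16 7 2 1 1 [(4, 0)],
.srt 0 2 0 1 3,
.mono 0 4 68 1,
.deg 5 [2, 0, 1, 0],
.part [128, 27, 36, 64] [0, 1, 0, 0] [] [],
.part [64, 10, 17, 32] [0, 0, 0, 0] [] [(1, 132)],
.lipl 2 17 113 1 96,
.ordE 3 128 4,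
.join 3 16 6 4 0 4 [(4, 0)],
.lip 1 64 120 56,
.l2 1 66 72 6 1 1,
.join 3 16 5 3 2 1 [(4, 0)],
.part [73, 128, 18, 36] [1, 0, 0, 0] [] [],
.join 1 16 7 2 2 1 [(4, 1)],
.part [17, 32, 198, 8] [0, 0, 1, 0] [] [],
.hall [1, 2] [1, 2, 7],
.hall [1, 2] [4, 6, 7],
.srt 0 4 0 3 3,
.part [128, 17, 36, 2] [0, 0, 0, 0] [] [(1, 72)],
.deg 5 [1, 0, 2, 0],
.mono 2 64 65 1,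
.lip 0 64 67 7,
.part [57, 192, 2, 4] [1, 0, 0, 0] [] [],
.le 1 80 64 6 1,
.mono 3 128 192 1,
.ab2 1 9,
.l2 3 6 18 1 1 2,
.part [135, 64, 40, 16] [1, 0, 0, 0] [] [],
.part [64, 143, 32, 16] [0, 1, 0, 0] [] [],
.lipl 0 128 193 3 65,
.lip 2 132 156 56,
.part [1, 64, 132, 2] [0, 0, 0, 0] [56] [],
.part [64, 36, 128, 10] [0, 0, 0, 0] [] [(2, 17)],
.part [128, 20, 34, 73] [0, 0, 0, 1] [] [],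
.part [64, 12, 33, 2] [0, 0, 0, 0] [] [(2, 144)],
.join 0 1 6 2 2 1 [(0, 1)],
.join 1 4 5 2 1 1 [(2, 0)],
.lipl 3 12 29 1 17,
.part [64, 34, 9, 16] [0, 0, 0, 0] [] [(1, 132)],
.part [105, 18, 128, 4] [1, 0, 0, 0] [] [],
.part [64, 128, 17, 46] [0, 0, 0, 1] [] [],
.part [9, 64, 134, 48] [0, 0, 1, 0] [] [],
.lip 3 64 88 56,
.l2 2 12 136 3 1 1,
.ab 2 7,
.l2 0 3 9 0 1 1,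
.part [152, 34, 5, 64] [1, 0, 0, 0] [] [],
.part [23, 32, 128, 72] [1, 0, 0, 0] [] [],
.lip 1 128 192 64,
.l2 2 130 192 7 1 1,
.part [128, 23, 64, 40] [0, 1, 0, 0] [] [],
.part [17, 8, 198, 32] [0, 0, 1, 0] [] [],
.part [64, 12, 17, 2] [0, 0, 0, 0] [] [(2, 160)],
.part [80, 135, 32, 8] [0, 1, 0, 0] [] [],
.l2 1 72 192 6 1 1,
.part [193, 8, 34, 20] [1, 0, 0, 0] [] [],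
.mono 1 16 80 1,
.part [9, 4, 34, 64] [0, 0, 0, 0] [] [(2, 144)],
.mono 1 16 48 1,
.part [81, 128, 36, 10] [1, 0, 0, 0] [] [],
.l2 2 18 144 4 1 1,
.mono 0 64 65 1,
.ab2 1 36,
.part [8, 192, 39, 16] [0, 0, 1, 0] [] [],
.hall [1, 2] [0, 2, 7],
.part [57, 4, 64, 130] [1, 0, 0, 0] [] [],
.part [6, 1, 128, 120] [0, 0, 0, 1] [] [],
.part [130, 120, 4, 1] [0, 1, 0, 0] [] [],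
.part [8, 71, 144, 32] [0, 1, 0, 0] [] [],
.lip 3 32 160 128,
.mono 1 8 9 1,
.l2 1 130 132 7 1 1,
.ordE 2 64 1,
.part [16, 136, 36, 67] [0, 0, 0, 1] [] [],
.part [128, 101, 10, 16] [0, 1, 0, 0] [] [],
.l2 1 132 192 7 1 1,
.l2 1 5 12 2 1 1,
.part [75, 20, 128, 32] [1, 0, 0, 0] [] [],
.deg 3 [2, 0, 0, 1],
.part [97, 128, 12, 18] [1, 0, 0, 0] [] [],
.part [64, 2, 5, 184] [0, 0, 0, 1] [] [],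
.ordL 3 80 1,
.lip 2 144 147 7,
.ab2 0 18,
.mono 1 128 136 1,
.join 3 1 4 3 1 2 [(0, 0)],
.join 1 1 1 2 1 1 [(0, 0)],
.part [9, 208, 34, 4] [0, 1, 0, 0] [] [],
.l2 1 9 65 0 1 1,
.ab2 2 40,
.part [128, 36, 10, 1] [0, 0, 0, 0] [] [(2, 80)],
.part [64, 1, 128, 62] [0, 0, 0, 1] [] [],
.join 3 1 4 3 2 2 [(0, 1)],
.part [64, 29, 128, 34] [0, 1, 0, 0] [] [],
.mono 2 1 129 1,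
.part [96, 16, 135, 8] [0, 0, 1, 0] [] [],
.join 0 8 4 2 1 1 [(3, 0)],
.deg 0 [1, 2, 0, 0],
.part [64, 167, 24, 0] [0, 1, 0, 0] [] [],
.un 2 0,
.join 3 2 7 3 2 1 [(1, 0)],
.ab2 1 10,
.lip 2 192 198 7,
.part [64, 9, 18, 4] [0, 0, 0, 0] [] [(1, 160)],
.lipl 0 1 81 2 80,
.ab2 3 68,
.part [193, 36, 10, 16] [1, 0, 0, 0] [] [],
.deg 2 [0, 1, 2, 0],
.lipl 3 10 43 3 33,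
.part [64, 177, 12, 2] [0, 1, 0, 0] [] [],
.lipl 2 20 54 1 34,
.join 1 1 6 2 2 0 [(0, 0)],
.part [64, 58, 128, 5] [0, 1, 0, 0] [] [],
.part [64, 47, 0, 144] [0, 1, 0, 0] [] [],
.part [185, 4, 64, 2] [1, 0, 0, 0] [] [],
.hall [0, 3] [0, 1, 2],
.part [112, 129, 12, 2] [1, 0, 0, 0] [] [],
.lip 2 32 39 7,
.l2 1 10 72 3 1 1,
.part [24, 160, 0, 64] [0, 0, 0, 0] [7] [],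
.lip 0 3 59 56,
.part [9, 34, 208, 4] [0, 0, 1, 0] [] [],
.join 1 4 4 2 0 3 [(2, 1)],
.mono 1 128 144 1,
.lip 2 80 87 7,
.part [1, 18, 128, 108] [0, 0, 0, 1] [] [],
.part [64, 12, 34, 145] [0, 0, 0, 1] [] [],
.part [9, 64, 128, 54] [0, 0, 0, 1] [] [],
.mono 1 8 12 1,
.part [64, 17, 10, 32] [0, 0, 0, 0] [] [(2, 132)],
.mono 0 64 66 1,
.lipl 2 10 27 1 17,
.join 1 1 5 2 1 1 [(0, 0)],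
.part [64, 139, 36, 16] [0, 1, 0, 0] [] [],
.l2 2 66 80 6 1 1,
.lipl 2 36 102 1 66,
.part [40, 64, 128, 16] [0, 0, 0, 0] [7] [],
.part [168, 17, 6, 64] [1, 0, 0, 0] [] [],
.part [64, 4, 186, 1] [0, 0, 1, 0] [] [],
.part [96, 23, 128, 8] [0, 1, 0, 0] [] [],
.lipl 2 34 114 1 80,
.part [196, 9, 18, 32] [1, 0, 0, 0] [] [],
.mono 2 1 9 1,
.lipl 1 8 137 0 129,
.part [64, 5, 128, 58] [0, 0, 0, 1] [] [],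
.hall [1] [3, 4, 5, 7],
.part [1, 166, 24, 64] [0, 1, 0, 0] [] [],
.lipl 1 34 226 1 192,
.part [3, 64, 128, 4] [0, 0, 0, 0] [56] [],
.l2 0 9 10 3 1 1,
.lipl 0 8 137 1 129,
.part [192, 16, 8, 32] [0, 0, 0, 0] [7] [],
.part [64, 128, 18, 45] [0, 0, 0, 1] [] [],
.ab 1 0,
.part [65, 132, 8, 2] [0, 0, 0, 0] [48] [],
.part [66, 184, 4, 1] [0, 1, 0, 0] [] [],
.lipl 0 9 75 1 66,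
.mono 1 64 72 1,
.join 2 4 6 2 1 1 [(2, 0)],
.lipl 2 20 116 1 96,
.part [144, 15, 64, 32] [0, 1, 0, 0] [] [],
.join 3 8 7 3 2 1 [(3, 0)],
.part [8, 160, 18, 69] [0, 0, 0, 1] [] [],
.mono 1 16 24 1,
.part [9, 128, 36, 82] [0, 0, 0, 1] [] [],
.part [9, 128, 16, 34] [0, 0, 0, 0] [] [(1, 68)],
.part [74, 128, 20, 33] [1, 0, 0, 0] [] [],
.hall [1, 3] [0, 6, 7],
.mono 3 32 96 1,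
.part [16, 12, 193, 34] [0, 0, 1, 0] [] [],
.ab 3 6,
.part [186, 4, 1, 64] [1, 0, 0, 0] [] [],
.lip 0 130 186 56,
.l2 2 72 136 3 1 1,
.l2 2 66 192 6 1 1,
.part [1, 130, 28, 96] [0, 0, 1, 0] [] [],
.part [152, 65, 36, 2] [1, 0, 0, 0] [] [],
.part [112, 1, 130, 12] [1, 0, 0, 0] [] [],
.l2 1 48 96 5 1 1,
.part [129, 120, 2, 4] [0, 1, 0, 0] [] [],
.ab 3 0,
.join 3 32 6 4 0 4 [(5, 0)],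
.part [64, 20, 33, 8] [0, 0, 0, 0] [] [(1, 130)],
.mono 2 128 160 1,
.part [32, 16, 8, 199] [0, 0, 0, 1] [] [],
.lip 3 64 104 56,
.deg 0 [0, 1, 2, 0],
.mono 2 8 72 1,
.le 1 96 64 6 1,
.ab 1 1,
.join 0 8 6 2 1 1 [(3, 0)],
.part [64, 9, 132, 2] [0, 0, 0, 0] [48] [],
.join 2 4 4 2 2 0 [(2, 0)],
.part [64, 17, 36, 2] [0, 0, 0, 0] [] [(2, 136)],
.part [8, 144, 34, 69] [0, 0, 0, 1] [] [],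
.hall [2, 3] [1, 6, 7],
.lip 2 129 169 56,
.join 1 32 7 2 2 0 [(5, 0)],
.l2 1 65 80 6 1 1,
.part [64, 10, 129, 4] [0, 0, 0, 0] [48] [],
.part [64, 34, 9, 4] [0, 0, 0, 0] [] [(1, 144)],
.part [64, 128, 60, 3] [0, 0, 1, 0] [] [],
.join 2 4 7 2 1 1 [(2, 0)],
.part [57, 128, 2, 68] [1, 0, 0, 0] [] [],
.join 3 2 2 4 1 3 [(1, 0)],
.le 3 192 64 6 4,
.mono 0 4 12 1,
.join 2 8 4 2 0 2 [(3, 0)],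
.part [66, 132, 25, 32] [0, 0, 1, 0] [] [],
.l2 2 9 12 3 1 1,
.part [193, 18, 12, 32] [1, 0, 0, 0] [] [],
.lipl 1 20 86 1 66,
.part [128, 122, 1, 4] [0, 1, 0, 0] [] [],
.un 0 5,
.part [0, 57, 130, 68] [0, 1, 0, 0] [] [],
.lip 0 144 151 7,
.part [224, 10, 17, 4] [1, 0, 0, 0] [] [],
.lip 0 72 75 7,
.ordE 2 32 1,
.deg 7 [1, 0, 0, 3],
.hall [1, 3] [0, 2, 7],
.un 3 6,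
.lip 1 130 178 56,
.part [9, 18, 192, 36] [1, 0, 0, 0] [] [],
.part [6, 57, 128, 64] [0, 1, 0, 0] [] [],
.part [64, 8, 167, 16] [0, 0, 1, 0] [] [],
.lipl 3 12 108 1 96,
.l2 2 6 20 2 1 1,
.deg 3 [0, 2, 1, 0],
.part [64, 188, 2, 1] [0, 1, 0, 0] [] [],
.part [224, 9, 18, 4] [1, 0, 0, 0] [] [],
.lipl 0 64 73 1 9,
.part [1, 132, 42, 80] [0, 0, 1, 0] [] [],
.part [64, 135, 16, 40] [0, 1, 0, 0] [] [],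
.l2 2 129 160 7 1 1,
.part [128, 87, 8, 32] [0, 1, 0, 0] [] [],
.part [128, 33, 18, 8] [0, 0, 0, 0] [] [(1, 68)],
.deg 7 [2, 2, 0, 0],
.mono 2 8 10 1,
.join 1 1 2 2 1 1 [(0, 0)],
.part [66, 185, 4, 0] [0, 1, 0, 0] [] [],
.part [72, 135, 48, 0] [0, 1, 0, 0] [] [],
.part [24, 128, 32, 71] [0, 0, 0, 1] [] [],
.join 1 2 6 2 2 1 [(1, 1)],
.part [2, 132, 17, 104] [0, 0, 0, 1] [] [],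
.part [200, 18, 33, 4] [1, 0, 0, 0] [] [],
.part [137, 96, 18, 4] [1, 0, 0, 0] [] [],
.mono 2 16 80 1,
.part [57, 6, 128, 64] [1, 0, 0, 0] [] [],
.part [104, 132, 17, 2] [1, 0, 0, 0] [] [],
.ab2 2 10,
.l2 0 72 80 6 1 1,
.lip 3 1 57 56,
.join 0 1 7 2 1 1 [(0, 0)],
.lip 3 96 103 7,
.ab2 2 36,
.lipl 2 160 169 0 9,
.part [192, 0, 23, 40] [0, 0, 1, 0] [] [],
.part [128, 16, 47, 64] [0, 0, 1, 0] [] [],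
.part [64, 12, 128, 17] [0, 0, 0, 0] [] [(2, 34)],
.part [128, 34, 20, 8] [0, 0, 0, 0] [] [(0, 65)],
.part [64, 23, 128, 40] [0, 1, 0, 0] [] [],
.part [64, 186, 1, 4] [0, 1, 0, 0] [] [],
.ordE 1 32 1,
.join 2 1 3 2 1 1 [(0, 0)],
.part [184, 64, 5, 2] [1, 0, 0, 0] [] [],
.part [59, 0, 4, 192] [1, 0, 0, 0] [] [],
.join 3 2 2 3 2 1 [(1, 0)],
.part [128, 29, 34, 64] [0, 1, 0, 0] [] [],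
.part [5, 64, 128, 2] [0, 0, 0, 0] [56] [],
.lipl 3 17 27 3 10,
.mono 3 2 10 1,
.part [1, 150, 40, 64] [0, 1, 0, 0] [] [],
.mono 3 32 40 1,
.lip 2 136 142 7,
.part [128, 2, 124, 1] [0, 0, 1, 0] [] [],
.part [75, 48, 128, 4] [1, 0, 0, 0] [] [],
.ab2 2 129,
.join 3 2 6 3 2 1 [(1, 0)],
.mono 0 32 160 1,
.part [128, 55, 0, 72] [0, 1, 0, 0] [] [],
.part [129, 20, 32, 10] [0, 0, 0, 0] [64] [],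
.join 2 2 2 2 0 2 [(1, 0)],
.part [64, 9, 34, 4] [0, 0, 0, 0] [] [(1, 144)],
.part [193, 34, 16, 12] [1, 0, 0, 0] [] [],
.part [64, 1, 58, 132] [0, 0, 1, 0] [] [],
.part [128, 103, 8, 16] [0, 1, 0, 0] [] [],
.lipl 1 132 141 0 9,
.l2 3 129 192 7 1 2,
.ab 3 4,
.part [1, 2, 4, 248] [0, 0, 0, 1] [] [],
.l2 2 65 80 6 1 1,
.part [32, 128, 24, 71] [0, 0, 0, 1] [] [],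
.deg 5 [0, 0, 0, 3],
.srt 0 3 0 0 4,
.ordE 0 1 2,
.ab 3 1,
.join 3 4 3 3 2 1 [(2, 0)],
.part [9, 132, 16, 34] [0, 0, 0, 0] [64] [],
.l2 1 34 66 1 1 1,
.part [200, 18, 36, 1] [1, 0, 0, 0] [] [],
.ab2 2 132,
.l2 2 18 34 1 1 1,
.part [72, 135, 16, 32] [0, 1, 0, 0] [] [],
.part [193, 20, 34, 8] [1, 0, 0, 0] [] [],
.deg 4 [0, 1, 2, 0],
.part [65, 12, 34, 144] [0, 0, 0, 1] [] [],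
.part [128, 17, 100, 10] [0, 0, 1, 0] [] [],
.lipl 3 36 45 1 9,
.lip 2 6 62 56,
.mono 2 128 144 1,
.part [64, 36, 128, 18] [0, 0, 0, 0] [] [(2, 9)],
.l2 2 3 33 0 1 1,
.join 2 2 3 2 2 0 [(1, 0)],
.deg 1 [2, 1, 0, 0],
.join 2 1 7 2 1 1 [(0, 0)],
.part [64, 57, 128, 6] [0, 1, 0, 0] [] [],
.join 3 2 5 4 1 3 [(1, 0)],
.l2 2 80 192 6 1 1,
.part [64, 36, 9, 16] [0, 0, 0, 0] [] [(2, 130)],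
.join 3 1 4 4 2 2 [(0, 0)],
.part [128, 75, 36, 16] [0, 1, 0, 0] [] [],
.ab 0 2,
.hall [0, 2] [3, 4, 5],
.srt 0 2 0 1 4,
.part [64, 135, 48, 8] [0, 1, 0, 0] [] [],
.part [128, 1, 124, 2] [0, 0, 1, 0] [] [],
.l2 1 9 40 3 1 1,
.part [9, 4, 128, 114] [0, 0, 0, 1] [] [],
.part [1, 34, 128, 72] [0, 0, 0, 0] [] [(2, 20)],
.part [248, 1, 2, 4] [1, 0, 0, 0] [] [],
.part [64, 59, 4, 128] [0, 1, 0, 0] [] [],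
.join 2 8 6 2 2 0 [(3, 0)],
.ordE 1 8 1,
.part [192, 16, 32, 8] [0, 0, 0, 0] [7] [],
.part [9, 18, 36, 192] [0, 0, 0, 1] [] [],
.part [64, 169, 16, 6] [0, 1, 0, 0] [] [],
.part [128, 34, 29, 64] [0, 0, 1, 0] [] [],
.part [79, 16, 32, 128] [1, 0, 0, 0] [] [],
.l2 1 6 66 1 1 1,
.mono 1 8 40 1,
.join 3 4 3 3 1 2 [(2, 0)],
.lipl 3 1 145 2 144,
.lip 1 132 156 56,
.part [133, 24, 34, 64] [1, 0, 0, 0] [] [],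
.l2 1 6 20 2 1 1,
.part [193, 20, 32, 10] [1, 0, 0, 0] [] [],
.part [64, 34, 12, 1] [0, 0, 0, 0] [] [(1, 144)],
.ab2 0 130,
.part [64, 33, 132, 2] [0, 0, 0, 0] [24] [],
.part [64, 33, 12, 2] [0, 0, 0, 0] [] [(2, 144)],
.part [128, 64, 39, 24] [0, 0, 1, 0] [] [],
.part [80, 143, 32, 0] [0, 1, 0, 0] [] [],
.part [9, 150, 32, 64] [0, 1, 0, 0] [] [],
.part [64, 34, 128, 20] [0, 0, 0, 0] [] [(2, 9)],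
.deg 2 [0, 0, 3, 0],
.ordE 2 32 2,
.l2 1 36 96 5 1 1,
.lipl 0 64 194 2 130,
.part [167, 8, 16, 64] [1, 0, 0, 0] [] [],
.part [73, 132, 32, 18] [1, 0, 0, 0] [] [],
.part [64, 36, 10, 16] [0, 0, 0, 0] [] [(0, 129)],
.l2 2 33 48 5 1 1,
.ab2 3 9,
.part [194, 20, 9, 32] [1, 0, 0, 0] [] [],
.le 1 20 4 2 1,
.part [224, 18, 9, 4] [1, 0, 0, 0] [] [],
.l2 2 68 132 2 1 1,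
.part [9, 128, 4, 34] [0, 0, 0, 0] [] [(1, 80)],
.part [143, 32, 16, 64] [1, 0, 0, 0] [] [],
.hall [3] [4, 5, 6, 7],
.deg 0 [1, 0, 0, 2],
.part [129, 18, 32, 12] [0, 0, 0, 0] [64] [],
.join 3 1 3 4 2 2 [(0, 0)],
.part [65, 138, 36, 16] [0, 1, 0, 0] [] [],
.part [8, 5, 130, 64] [0, 0, 0, 0] [48] [],
.part [64, 33, 128, 18] [0, 0, 0, 0] [] [(2, 12)],
.part [129, 20, 8, 34] [0, 0, 0, 0] [64] [],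
.part [64, 8, 48, 135] [0, 0, 0, 1] [] [],
.part [24, 71, 32, 128] [0, 1, 0, 0] [] [],
.l2 1 72 96 6 1 1,
.part [64, 33, 20, 2] [0, 0, 0, 0] [] [(2, 136)],
.mono 0 32 48 1,
.part [9, 34, 128, 64] [0, 0, 0, 0] [] [(3, 20)],
.ordE 3 16 1,
.lip 1 6 62 56,
.part [18, 8, 165, 64] [0, 0, 1, 0] [] [],
.join 0 2 7 2 1 1 [(1, 0)],
.part [132, 57, 64, 2] [0, 1, 0, 0] [] [],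
.hall [0] [0, 1, 2, 6],
.part [9, 128, 86, 32] [0, 0, 1, 0] [] [],
.l2 1 33 34 5 1 1,
.hall [2, 3] [0, 6, 7],
.part [144, 71, 8, 32] [0, 1, 0, 0] [] [],
.join 1 2 2 2 2 0 [(1, 0)],
.deg 4 [0, 2, 1, 0],
.ab2 1 129,
.lip 3 128 135 7,
.lipl 2 2 70 1 68,
.mono 1 4 20 1,
.join 3 32 6 3 1 2 [(5, 0)],
.lip 0 72 79 7,
.ab2 2 136,
.ab2 2 33,
.part [248, 2, 1, 4] [1, 0, 0, 0] [] [],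
.part [65, 152, 36, 2] [0, 1, 0, 0] [] [],
.l2 1 132 160 7 1 1,
.part [128, 47, 64, 16] [0, 1, 0, 0] [] [],
.mono 2 32 48 1,
.part [75, 128, 20, 32] [1, 0, 0, 0] [] [],
.l2 2 17 18 4 1 1,
.l2 1 18 48 4 1 1,
.mono 3 16 48 1,
.part [64, 16, 34, 12] [0, 0, 0, 0] [] [(0, 129)],
.un 0 3,
.part [64, 12, 18, 161] [0, 0, 0, 1] [] [],
.part [9, 4, 34, 144] [0, 0, 0, 0] [64] [],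
.l2 2 136 160 7 1 1,
.part [98, 128, 9, 20] [1, 0, 0, 0] [] [],
.part [9, 160, 2, 20] [0, 0, 0, 0] [64] [],
.l2 3 68 192 6 1 2,
.part [75, 4, 160, 16] [1, 0, 0, 0] [] [],
.part [128, 29, 32, 66] [0, 1, 0, 0] [] [],
.lip 2 130 154 56,
.mono 3 16 24 1,
.part [128, 57, 64, 6] [0, 1, 0, 0] [] [],
.part [1, 132, 32, 66] [0, 0, 0, 0] [24] [],
.part [40, 2, 144, 69] [0, 0, 0, 1] [] [],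
.l2 1 80 144 4 1 1,
.mono 0 128 144 1,
.ordL 3 72 1,
.part [192, 8, 55, 0] [0, 0, 1, 0] [] [],
.lipl 3 8 73 0 65,
.l2 1 6 12 2 1 1,
.ordE 0 4 3,
.join 3 1 5 4 3 1 [(0, 0)],
.lip 1 16 23 7,
.l2 2 9 10 3 1 1,
.part [64, 128, 43, 20] [0, 0, 1, 0] [] [],
.part [193, 12, 34, 16] [1, 0, 0, 0] [] [],
.mono 1 64 65 1,
.lip 2 128 184 56,
.join 1 1 6 2 1 1 [(0, 0)],
.join 3 4 4 3 2 1 [(2, 0)],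
.lip 2 36 100 64,
.ab2 3 130,
.lipl 2 128 140 3 12,
.deg 7 [0, 0, 0, 4],
.part [64, 184, 6, 1] [0, 1, 0, 0] [] [],
.lipl 1 128 224 1 96,
.l2 1 65 72 6 1 1,
.part [64, 33, 140, 18] [0, 0, 1, 0] [] [],
.part [128, 1, 122, 4] [0, 0, 1, 0] [] [],
.l2 2 144 160 7 1 1,
.lipl 3 33 43 3 10,
.join 0 64 7 2 1 1 [(6, 0)],
.part [64, 164, 17, 10] [0, 1, 0, 0] [] [],
.part [64, 39, 16, 136] [0, 1, 0, 0] [] [],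
.ab2 3 12,
.join 3 8 7 3 2 2 [(3, 1)],
.part [71, 128, 48, 8] [1, 0, 0, 0] [] [],
.part [73, 48, 128, 6] [1, 0, 0, 0] [] [],
.part [128, 12, 34, 16] [0, 0, 0, 0] [] [(0, 65)],
.part [80, 39, 128, 8] [0, 1, 0, 0] [] [],
.lipl 2 36 116 1 80,
.part [58, 4, 128, 65] [1, 0, 0, 0] [] [],
.join 3 2 4 4 2 2 [(1, 0)],
.lip 2 6 70 64,
.part [128, 79, 16, 32] [0, 1, 0, 0] [] [],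
.part [8, 144, 38, 65] [0, 0, 1, 0] [] [],
.part [1, 20, 130, 104] [0, 0, 0, 1] [] [],
.deg 7 [1, 0, 3, 0],
.part [185, 2, 0, 68] [1, 0, 0, 0] [] [],
.ordE 1 128 3,
.ordE 0 16 3,
.lip 0 9 15 7,
.part [6, 128, 1, 120] [0, 0, 0, 1] [] [],
.lip 1 6 54 56,
.part [128, 34, 9, 16] [0, 0, 0, 0] [] [(2, 68)],
.join 1 4 6 2 2 0 [(2, 0)],
.part [128, 12, 17, 2] [0, 0, 0, 0] [] [(1, 96)],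
.part [64, 32, 151, 8] [0, 0, 1, 0] [] [],
.join 3 2 3 3 1 2 [(1, 0)],
.part [1, 24, 160, 64] [0, 0, 0, 0] [6] [],
.part [67, 136, 36, 16] [1, 0, 0, 0] [] [],
.mono 2 128 136 1,
.join 3 8 4 3 1 2 [(3, 0)],
.part [136, 23, 64, 32] [0, 1, 0, 0] [] [],
.un 3 3,
.un 2 5,
.l2 1 9 17 0 1 1,
.part [39, 128, 16, 72] [1, 0, 0, 0] [] [],
.un 2 7,
.l2 2 10 12 3 1 1,
.part [48, 64, 128, 8] [0, 0, 0, 0] [7] [],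
.ordE 2 8 3,
.join 3 4 3 4 2 2 [(2, 0)],
.part [9, 128, 70, 48] [0, 0, 1, 0] [] [],
.part [64, 60, 2, 129] [0, 1, 0, 0] [] [],
.l2 1 33 65 0 1 1,
.part [57, 2, 64, 132] [1, 0, 0, 0] [] [],
.part [192, 1, 62, 0] [0, 0, 1, 0] [] [],
.lipl 3 34 54 2 20,
.part [3, 32, 132, 88] [0, 0, 0, 1] [] [],
.mono 2 8 12 1,
.join 1 2 7 2 1 1 [(1, 0)],
.join 1 2 5 2 1 1 [(1, 0)],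
.part [1, 10, 36, 208] [0, 0, 0, 1] [] [],
.part [9, 32, 196, 18] [0, 0, 1, 0] [] [],
.lip 1 24 31 7,
.join 2 1 1 2 1 1 [(0, 0)],
.lipl 1 17 27 1 10,
.part [137, 16, 36, 66] [1, 0, 0, 0] [] [],
.join 3 16 6 4 1 3 [(4, 0)],
.le 2 130 128 7 1,
.part [208, 34, 9, 4] [1, 0, 0, 0] [] [],
.part [128, 36, 18, 1] [0, 0, 0, 0] [] [(2, 72)],
.join 3 16 7 3 2 1 [(4, 0)],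
.deg 4 [0, 1, 0, 2],
.part [65, 4, 178, 8] [0, 0, 1, 0] [] [],
.lipl 2 36 54 1 18,
.join 1 2 7 2 3 3 [(1, 4)],
.mono 1 8 10 1,
.part [8, 160, 20, 67] [0, 0, 0, 1] [] [],
.mono 0 8 136 1,
.join 3 1 6 3 2 2 [(0, 1)],
.deg 1 [0, 0, 1, 2],
.mono 1 178 186 2,
.ab2 2 192,
.part [128, 4, 3, 120] [0, 0, 0, 1] [] [],
.le 1 20 4 2 2,
.ab2 2 48,
.lip 2 128 134 7,
.l2 2 65 96 6 1 1,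
.l2 2 9 129 0 1 1,
.ab2 0 129,
.l2 3 24 72 3 2 1,
.part [9, 4, 240, 2] [0, 0, 1, 0] [] [],
.part [64, 27, 128, 36] [0, 1, 0, 0] [] [],
.part [6, 64, 184, 1] [0, 0, 1, 0] [] [],
.hall [1, 3] [0, 1, 7],
.lip 1 72 79 7,
.l2 2 136 144 7 1 1,
.ordE 3 2 2,
.mono 3 16 80 1,
.lipl 3 34 46 3 12,
.part [62, 64, 1, 128] [1, 0, 0, 0] [] [],
.join 0 16 7 2 1 1 [(4, 0)],
.lipl 0 64 193 2 129,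
.deg 7 [0, 2, 0, 2],
.part [128, 71, 24, 32] [0, 1, 0, 0] [] [],
.join 0 2 4 2 1 1 [(1, 0)],
.l2 2 12 68 2 1 1,
.lipl 2 18 54 3 36,
.ordE 0 128 1,
.part [197, 10, 32, 16] [1, 0, 0, 0] [] [],
.lip 0 4 60 56,
.join 3 32 6 3 2 1 [(5, 0)],
.part [9, 2, 36, 144] [0, 0, 0, 0] [64] [],
.part [122, 1, 4, 128] [1, 0, 0, 0] [] [],
.part [130, 120, 1, 4] [0, 1, 0, 0] [] [],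
.deg 3 [1, 1, 0, 1],
.part [80, 135, 8, 32] [0, 1, 0, 0] [] [],
.part [130, 60, 64, 1] [0, 1, 0, 0] [] [],
.lipl 0 128 224 2 96,
.l2 1 18 20 4 1 1,
.part [64, 36, 17, 2] [0, 0, 0, 0] [] [(1, 136)],
.l2 2 36 40 5 1 1,
.part [128, 31, 64, 32] [0, 1, 0, 0] [] [],
.part [64, 34, 148, 9] [0, 0, 1, 0] [] [],
.part [64, 57, 2, 132] [0, 1, 0, 0] [] [],
.un 0 4,
.join 3 1 5 3 2 2 [(0, 1)],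
.l2 1 144 160 7 1 1,
.part [9, 20, 192, 34] [0, 0, 1, 0] [] [],
.part [1, 12, 130, 112] [0, 0, 0, 1] [] [],
.part [128, 8, 39, 80] [0, 0, 1, 0] [] [],
.lip 2 136 141 7,
.part [196, 33, 18, 8] [1, 0, 0, 0] [] [],
.part [128, 39, 16, 72] [0, 1, 0, 0] [] [],
.lip 0 24 31 7,
.lipl 0 64 100 1 36,
.srt 3 7 3 6 2,
.ab2 3 6,
.mono 1 8 136 1,
.part [208, 10, 36, 1] [1, 0, 0, 0] [] [],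
.part [137, 20, 34, 64] [1, 0, 0, 0] [] [],
.part [193, 32, 18, 12] [1, 0, 0, 0] [] [],
.join 3 2 4 3 2 2 [(1, 1)],
.ab 0 6,
.le 1 144 128 7 2,
.join 3 4 6 3 1 2 [(2, 0)],
.part [64, 9, 130, 4] [0, 0, 0, 0] [48] [],
.un 0 0,
.l2 2 36 68 2 1 1,
.part [128, 8, 48, 71] [0, 0, 0, 1] [] [],
.part [8, 151, 64, 32] [0, 1, 0, 0] [] [],
.part [64, 164, 10, 17] [0, 1, 0, 0] [] [],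
.part [16, 12, 160, 67] [0, 0, 0, 1] [] [],
.part [64, 18, 128, 12] [0, 0, 0, 0] [] [(2, 33)],
.part [2, 20, 129, 104] [0, 0, 0, 1] [] [],
.part [192, 32, 8, 23] [0, 0, 0, 1] [] [],
.deg 0 [1, 0, 2, 0],
.hall [1, 3] [2, 6, 7],
.l2 2 36 96 5 1 1,
.part [64, 34, 128, 29] [0, 0, 0, 1] [] [],
.join 3 2 4 3 1 2 [(1, 0)],
.deg 2 [1, 2, 0, 0],
.lip 2 129 185 56,
.part [23, 128, 32, 72] [1, 0, 0, 0] [] [],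
.lipl 3 12 45 3 33,
.un 1 6,
.deg 2 [0, 2, 1, 0],
.lip 1 192 199 7,
.part [24, 71, 128, 32] [0, 1, 0, 0] [] [],
.part [9, 226, 4, 16] [0, 1, 0, 0] [] [],
.un 0 1,
.lipl 1 128 208 1 80,
.lipl 3 12 92 1 80,
.lip 0 128 135 7,
.part [9, 224, 4, 18] [0, 1, 0, 0] [] [],
.mono 2 32 96 1,
.l2 1 72 136 3 1 1,
.part [88, 129, 34, 4] [1, 0, 0, 0] [] [],
.mono 2 1 17 1,
.part [15, 16, 128, 96] [1, 0, 0, 0] [] [],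
.ab2 1 3,
.part [69, 144, 10, 32] [1, 0, 0, 0] [] [],
.lipl 3 9 29 3 20,
.part [64, 58, 4, 129] [0, 1, 0, 0] [] [],
.part [194, 33, 20, 8] [1, 0, 0, 0] [] [],
.ordE 1 128 1,
.lip 2 32 38 7,
.le 2 132 4 2 2,
.join 1 32 7 2 1 1 [(5, 0)],
.part [129, 34, 8, 20] [0, 0, 0, 0] [64] [],
.hall [3] [3, 4, 6, 7],
.mono 0 128 136 1,
.join 2 1 7 2 0 2 [(0, 0)],
.part [128, 39, 64, 24] [0, 1, 0, 0] [] [],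
.lip 2 132 172 56,
.part [8, 64, 160, 16] [0, 0, 0, 0] [7] [],
.part [137, 80, 34, 4] [1, 0, 0, 0] [] [],
.mono 2 16 24 1,
.join 2 2 7 2 2 0 [(1, 0)],
.ordL 3 40 1,
.l2 3 65 192 6 1 2,
.lip 3 64 71 7,
.lip 1 129 185 56,
.part [39, 24, 128, 64] [1, 0, 0, 0] [] [],
.join 2 16 5 2 1 1 [(4, 0)],
.lipl 1 10 106 1 96,
.le 2 12 4 2 2,
.part [75, 16, 128, 36] [1, 0, 0, 0] [] [],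
.l2 3 136 192 7 2 1,
.part [64, 8, 23, 160] [0, 0, 1, 0] [] [],
.part [64, 10, 128, 17] [0, 0, 0, 0] [] [(2, 36)],
.mono 2 128 132 1,
.ab 1 6,
.lip 3 2 58 56,
.l2 0 6 130 1 1 1,
.part [65, 36, 8, 18] [0, 0, 0, 0] [128] [],
.join 1 1 3 2 1 1 [(0, 0)],
.join 1 2 6 2 2 0 [(1, 0)],
.hall [1, 2] [3, 4, 6],
.part [128, 36, 18, 8] [0, 0, 0, 0] [] [(0, 65)],
.part [9, 212, 32, 2] [0, 1, 0, 0] [] [],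
.hall [1, 2] [2, 6, 7],
.join 1 8 6 2 1 1 [(3, 0)],
.part [128, 16, 40, 71] [0, 0, 0, 1] [] [],
.hall [0] [3, 4, 5, 6],
.le 2 72 64 6 1,
.part [75, 32, 128, 20] [1, 0, 0, 0] [] [],
.l2 2 5 12 2 1 1,
.ab2 3 17,
.l2 1 6 18 1 1 1,
.l2 2 3 34 1 1 1,
.l2 1 24 48 4 1 1,
.mono 1 32 48 1,
.ab2 1 68,
.part [64, 1, 6, 184] [0, 0, 0, 1] [] [],
.hall [1] [3, 4, 6, 7],
.part [133, 8, 18, 96] [1, 0, 0, 0] [] [],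
.part [129, 112, 10, 4] [0, 1, 0, 0] [] [],
.l2 2 24 136 3 1 1,
.part [73, 130, 32, 20] [1, 0, 0, 0] [] [],
.join 0 16 5 2 1 1 [(4, 0)],
.part [67, 144, 12, 32] [1, 0, 0, 0] [] [],
.hall [1, 2] [0, 1, 2],
.mono 0 2 3 1,
.part [2, 64, 132, 1] [0, 0, 0, 0] [56] [],
.part [80, 15, 128, 32] [0, 1, 0, 0] [] [],
.part [64, 34, 12, 16] [0, 0, 0, 0] [] [(0, 129)],
.ab2 2 5,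
.part [124, 1, 2, 128] [1, 0, 0, 0] [] [],
.lip 1 130 154 56,
.ordE 0 4 2,
.lipl 2 36 180 2 144,
.part [9, 36, 128, 16] [0, 0, 0, 0] [] [(1, 66)],
.part [15, 192, 16, 32] [1, 0, 0, 0] [] [],
.part [196, 10, 33, 16] [1, 0, 0, 0] [] [],
.part [10, 149, 32, 64] [0, 1, 0, 0] [] [],
.join 1 16 7 2 1 1 [(4, 0)],
.part [73, 132, 18, 32] [1, 0, 0, 0] [] [],
.part [17, 170, 4, 64] [0, 1, 0, 0] [] [],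
.join 3 64 7 3 3 3 [(6, 3)],
.srt 0 2 0 1 2,
.l2 2 12 72 3 1 1,
.join 3 16 5 3 1 2 [(4, 0)],
.part [112, 132, 9, 2] [1, 0, 0, 0] [] [],
.join 2 4 5 2 1 1 [(2, 0)],
.deg 4 [0, 0, 1, 2],
.part [4, 128, 3, 120] [0, 0, 0, 1] [] [],
.lipl 1 17 113 1 96,
.l2 0 9 17 0 1 1,
.part [192, 15, 16, 32] [0, 1, 0, 0] [] [],
.lip 1 5 61 56,
.lip 2 160 224 64,
.lip 3 64 112 56,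
.l2 2 20 36 2 1 1,
.part [193, 18, 36, 8] [1, 0, 0, 0] [] [],
.lip 1 130 170 56,
.mono 2 8 40 1,
.join 3 1 5 3 2 1 [(0, 0)],
.part [64, 18, 40, 133] [0, 0, 0, 1] [] [],
.lip 0 160 167 7,
.part [57, 64, 4, 130] [1, 0, 0, 0] [] [],
.part [8, 180, 3, 64] [0, 1, 0, 0] [] [],
.join 2 2 5 2 1 1 [(1, 0)],
.l2 2 40 96 5 1 1,
.part [64, 143, 16, 32] [0, 1, 0, 0] [] [],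
.join 3 4 4 4 1 3 [(2, 0)],
.part [128, 32, 87, 8] [0, 0, 1, 0] [] [],
.part [194, 12, 17, 32] [1, 0, 0, 0] [] [],
.lip 2 160 166 7,
.lipl 2 128 208 1 80,
.part [56, 3, 4, 192] [1, 0, 0, 0] [] [],
.part [10, 32, 197, 16] [0, 0, 1, 0] [] [],
.le 2 160 128 7 2,
.srt 0 1 0 0 2,
.l2 1 68 96 6 1 1,
.mono 2 64 192 1,
.ordE 2 128 1,
.hall [2, 3] [5, 6, 7],
.join 1 4 3 2 2 0 [(2, 0)],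
.le 1 66 64 6 2,
.l2 2 130 136 7 1 1,
.join 3 4 5 4 1 3 [(2, 0)],
.l2 2 10 24 3 1 1,
.part [129, 18, 8, 36] [0, 0, 0, 0] [64] [],
.part [194, 12, 33, 16] [1, 0, 0, 0] [] [],
.lip 3 192 248 56,
.lip 1 65 121 56,
.part [128, 78, 33, 16] [0, 1, 0, 0] [] [],
.l2 1 34 40 5 1 1,
.le 1 20 16 4 1,
.lip 2 4 28 56,
.part [64, 184, 3, 4] [0, 1, 0, 0] [] [],
.l2 2 65 192 6 1 1,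
.deg 2 [1, 0, 1, 1],
.mono 2 2 3 1,
.l2 1 12 36 2 1 1,
.ab2 1 5,
.hall [0, 1, 2] [6, 7],
.mono 3 8 40 1,
.join 3 2 3 4 1 3 [(1, 0)],
.lipl 1 130 139 0 9,
.lip 3 66 122 56,
.l2 1 136 160 7 1 1,
.l2 1 3 9 0 1 1,
.part [65, 18, 32, 12] [0, 0, 0, 0] [128] [],
.part [72, 167, 16, 0] [0, 1, 0, 0] [] [],
.mono 1 16 20 1,
.part [197, 16, 34, 8] [1, 0, 0, 0] [] [],
.deg 6 [2, 2, 0, 0],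
.l2 1 130 160 7 1 1,
.part [64, 36, 128, 17] [0, 0, 0, 0] [] [(3, 10)],
.lip 2 128 135 7,
.mono 1 32 160 1,
.le 1 72 64 6 1,
.lip 2 136 143 7,
.part [62, 1, 0, 192] [1, 0, 0, 0] [] [],
.part [9, 4, 18, 224] [0, 0, 0, 1] [] [],
.part [57, 2, 128, 68] [1, 0, 0, 0] [] [],
.part [72, 32, 147, 4] [0, 0, 1, 0] [] [],
.hall [1, 3] [3, 5, 7],
.lip 1 160 166 7,
.lip 0 1 17 16,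
.lipl 3 20 53 1 33,
.deg 1 [0, 0, 3, 0],
.l2 2 129 136 7 1 1,
.part [64, 20, 33, 2] [0, 0, 0, 0] [] [(2, 136)],
.lipl 2 9 77 2 68,
.join 3 1 2 4 2 2 [(0, 0)],
.hall [3] [0, 2, 6, 7],
.part [9, 36, 128, 16] [0, 0, 0, 0] [] [(2, 66)],
.hall [1] [0, 2, 6, 7],
.part [9, 116, 128, 2] [0, 1, 0, 0] [] [],
.lipl 1 128 200 2 72,
.part [193, 12, 18, 32] [1, 0, 0, 0] [] [],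
.part [33, 156, 2, 64] [0, 1, 0, 0] [] [],
.join 3 4 3 3 2 2 [(2, 1)],
.part [9, 34, 128, 4] [0, 0, 0, 0] [] [(2, 80)],
.join 1 32 7 2 0 2 [(5, 0)],
.mono 2 4 12 1,
.part [64, 34, 128, 12] [0, 0, 0, 0] [] [(3, 17)],
.lip 2 8 15 7,
.join 3 8 4 3 2 2 [(3, 1)],
.l2 0 9 33 0 1 1,
.part [133, 48, 10, 64] [1, 0, 0, 0] [] [],
.join 1 16 6 2 2 0 [(4, 0)],
.un 3 7,
.l2 0 68 80 6 1 1,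
.deg 1 [0, 1, 1, 1],
.part [8, 160, 17, 70] [0, 0, 0, 1] [] [],
.l2 0 80 96 6 1 1,
.part [15, 32, 64, 144] [1, 0, 0, 0] [] [],
.join 1 1 7 2 2 0 [(0, 0)],
.ab2 0 68,
.part [112, 132, 10, 1] [1, 0, 0, 0] [] [],
.l2 1 160 192 7 1 1,
.deg 4 [0, 0, 3, 0],
.srt 0 5 0 4 2,
.l2 2 33 40 5 1 1,
.part [137, 18, 36, 64] [1, 0, 0, 0] [] [],
.part [128, 2, 60, 65] [0, 0, 1, 0] [] [],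
.part [9, 128, 4, 114] [0, 0, 0, 1] [] [],
.l2 1 65 96 6 1 1,
.l2 1 6 36 2 1 1,
.l2 3 66 192 6 1 2,
.part [4, 192, 1, 2] [0, 0, 0, 0] [56] [],
.part [224, 9, 20, 2] [1, 0, 0, 0] [] [],
.part [64, 128, 27, 36] [0, 0, 1, 0] [] [],
.part [32, 79, 128, 16] [0, 1, 0, 0] [] [],
.part [104, 2, 129, 20] [1, 0, 0, 0] [] [],
.ab2 3 33,
.part [192, 8, 32, 16] [0, 0, 0, 0] [7] [],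
.part [64, 12, 128, 33] [0, 0, 0, 0] [] [(2, 18)],
.part [136, 71, 48, 0] [0, 1, 0, 0] [] [],
.join 3 8 7 4 2 2 [(3, 0)],
.ab 1 2,
.ordE 2 16 2,
.part [5, 120, 2, 128] [0, 1, 0, 0] [] [],
.mono 1 4 6 1,
.hall [1] [1, 2, 6, 7],
.lip 2 34 98 64,
.part [128, 20, 43, 64] [0, 0, 1, 0] [] [],
.part [8, 144, 35, 68] [0, 0, 1, 0] [] [],
.part [72, 39, 128, 16] [0, 1, 0, 0] [] [],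
.part [64, 8, 128, 55] [0, 0, 0, 1] [] [],
.part [64, 20, 128, 10] [0, 0, 0, 0] [] [(2, 33)],
.lipl 1 12 78 1 66,
.lipl 3 96 114 2 18,
.join 3 8 6 3 1 2 [(3, 0)],
.part [16, 71, 136, 32] [0, 1, 0, 0] [] [],
.join 3 64 7 3 2 2 [(6, 1)],
.part [128, 9, 54, 64] [0, 0, 1, 0] [] [],
.part [65, 16, 10, 36] [0, 0, 0, 0] [128] [],
.part [16, 79, 128, 32] [0, 1, 0, 0] [] [],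
.lipl 1 128 148 1 20,
.ordE 3 32 1,
.lipl 0 64 196 2 132,
.hall [2] [3, 4, 5, 7],
.l2 3 160 192 7 1 2,
.part [128, 8, 18, 36] [0, 0, 0, 0] [] [(0, 65)],
.part [1, 130, 20, 104] [0, 0, 0, 1] [] [],
.ordE 3 128 2,
.part [64, 20, 130, 1] [0, 0, 0, 0] [40] [],
.part [128, 18, 36, 8] [0, 0, 0, 0] [] [(0, 65)],
.part [193, 36, 18, 8] [1, 0, 0, 0] [] [],
.join 2 8 4 2 2 0 [(3, 0)],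
.lipl 0 128 193 1 65,
.ordE 3 128 1,
.join 1 8 5 2 2 0 [(3, 0)],
.part [128, 85, 8, 34] [0, 1, 0, 0] [] [],
.lip 3 192 199 7,
.lipl 0 130 195 0 65,
.l2 2 5 68 2 1 1,
.part [168, 5, 18, 64] [1, 0, 0, 0] [] [],
.l2 1 40 160 5 1 1,
.part [64, 18, 132, 1] [0, 0, 0, 0] [40] [],
.lipl 0 64 224 2 160,
.lipl 2 10 27 2 17,
.lipl 2 34 54 1 20,
.lipl 0 9 27 3 18,
.part [25, 36, 128, 66] [1, 0, 0, 0] [] [],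
.lipl 3 12 29 3 17,
.part [1, 132, 10, 112] [0, 0, 0, 1] [] [],
.join 1 16 5 2 1 1 [(4, 0)],
.le 1 66 64 6 1,
.part [64, 10, 128, 36] [0, 0, 0, 0] [] [(2, 17)],
.part [9, 2, 240, 4] [0, 0, 1, 0] [] [],
.part [195, 36, 16, 8] [1, 0, 0, 0] [] [],
.part [128, 20, 10, 1] [0, 0, 0, 0] [] [(2, 96)],
.join 2 2 6 2 2 0 [(1, 0)],
.deg 3 [0, 0, 1, 2],
.srt 0 1 0 0 3,
.join 2 4 5 2 0 2 [(2, 0)],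
.join 2 32 6 2 1 1 [(5, 0)],
.ab 0 3,
.l2 0 144 192 7 1 1,
.part [196, 33, 10, 16] [1, 0, 0, 0] [] [],
.lip 0 129 185 56,
.ab2 0 136,
.ab 2 0,
.hall [1, 2] [0, 6, 7],
.part [128, 40, 64, 23] [0, 0, 0, 1] [] [],
.deg 5 [1, 1, 1, 0],
.un 3 1,
.l2 1 6 34 1 1 1,
.part [65, 20, 10, 160] [0, 0, 0, 1] [] [],
.part [69, 136, 34, 16] [1, 0, 0, 0] [] [],
.part [194, 17, 36, 8] [1, 0, 0, 0] [] [],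
.un 3 4,
.join 1 32 7 2 2 1 [(5, 1)],
.mono 1 2 6 1,
.join 2 2 3 2 1 1 [(1, 0)],
.lipl 0 64 82 1 18,
.part [65, 6, 128, 0] [0, 0, 0, 0] [56] [],
.hall [1, 2, 3] [1, 6],
.l2 1 66 192 6 1 1,
.l2 2 66 96 6 1 1,
.part [97, 128, 20, 10] [1, 0, 0, 0] [] [],
.part [9, 228, 16, 2] [0, 1, 0, 0] [] [],
.part [64, 10, 132, 1] [0, 0, 0, 0] [48] [],
.join 1 2 6 2 1 1 [(1, 0)],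
.le 1 33 32 5 2,
.part [192, 47, 16, 0] [0, 1, 0, 0] [] [],
.join 2 8 5 2 1 1 [(3, 0)],
.ab2 0 66,
.lipl 1 36 101 1 65,
.join 1 1 3 2 0 2 [(0, 0)],
.part [64, 53, 128, 10] [0, 1, 0, 0] [] [],
.lipl 3 12 45 1 33,
.ordE 3 2 1,
.join 3 1 2 3 2 1 [(0, 0)],
.mono 2 4 132 1,
.lip 1 66 122 56,
.part [128, 36, 10, 16] [0, 0, 0, 0] [] [(0, 65)],
.part [9, 16, 166, 64] [0, 0, 1, 0] [] [],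
.part [128, 16, 12, 34] [0, 0, 0, 0] [] [(0, 65)],
.lip 2 40 47 7,
.part [64, 34, 17, 4] [0, 0, 0, 0] [] [(2, 136)],
.lipl 3 10 30 1 20,
.part [64, 36, 18, 1] [0, 0, 0, 0] [] [(1, 136)],
.part [17, 4, 170, 64] [0, 0, 1, 0] [] [],
.part [79, 32, 16, 128] [1, 0, 0, 0] [] [],
.lipl 2 10 43 3 33,
.part [56, 5, 2, 192] [1, 0, 0, 0] [] [],
.part [9, 4, 178, 64] [0, 0, 1, 0] [] [],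
.part [75, 128, 36, 16] [1, 0, 0, 0] [] [],
.join 1 1 4 2 2 0 [(0, 0)],
.join 2 2 7 2 0 2 [(1, 0)],
.part [128, 33, 12, 2] [0, 0, 0, 0] [] [(1, 80)],
.part [9, 160, 64, 16] [0, 0, 0, 0] [6] [],
.lip 3 64 69 7,
.l2 0 136 160 7 1 1,
.part [128, 4, 121, 2] [0, 0, 1, 0] [] [],
.part [64, 16, 15, 160] [0, 0, 1, 0] [] [],
.lipl 1 20 85 0 65,
.part [64, 23, 32, 136] [0, 1, 0, 0] [] [],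
.le 2 68 64 6 1,
.part [9, 240, 2, 4] [0, 1, 0, 0] [] [],
.lipl 0 1 193 2 192,
.ordE 0 8 1,
.part [9, 34, 128, 64] [0, 0, 0, 0] [] [(2, 20)],
.part [64, 177, 10, 4] [0, 1, 0, 0] [] [],
.le 2 160 32 5 2,
.deg 1 [0, 0, 0, 3],
.join 2 32 6 2 2 0 [(5, 0)],
.ab2 0 6,
.l2 1 136 144 7 1 1,
.part [64, 59, 128, 4] [0, 1, 0, 0] [] [],
.l2 2 10 40 3 1 1,
.part [64, 33, 12, 16] [0, 0, 0, 0] [] [(1, 130)],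
.deg 1 [0, 1, 2, 0],
.deg 4 [1, 2, 0, 0],
.mono 2 8 136 1,
.join 1 2 7 2 2 1 [(1, 1)],
.part [128, 9, 34, 16] [0, 0, 0, 0] [] [(1, 68)],
.part [8, 128, 48, 71] [0, 0, 0, 1] [] [],
.part [64, 48, 128, 15] [0, 0, 0, 1] [] [],
.part [195, 36, 8, 16] [1, 0, 0, 0] [] [],
.part [67, 136, 20, 32] [1, 0, 0, 0] [] [],
.join 3 2 5 3 2 1 [(1, 0)],
.part [200, 17, 36, 2] [1, 0, 0, 0] [] [],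
.part [16, 10, 160, 69] [0, 0, 0, 1] [] [],
.deg 3 [1, 2, 0, 0],
.part [136, 71, 16, 32] [0, 1, 0, 0] [] [],
.join 3 16 6 4 2 2 [(4, 0)],
.hall [1, 2] [1, 6, 7],
.part [59, 4, 0, 192] [1, 0, 0, 0] [] [],
.part [5, 2, 184, 64] [0, 0, 1, 0] [] [],
.part [64, 62, 128, 1] [0, 1, 0, 0] [] [],
.part [64, 9, 20, 32] [0, 0, 0, 0] [] [(2, 130)],
.join 3 8 5 3 2 1 [(3, 0)],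
.deg 3 [1, 0, 1, 1],
.le 2 72 64 6 2,
.ordE 0 32 3,
.lipl 2 128 224 1 96,
.part [8, 103, 128, 16] [0, 1, 0, 0] [] [],
.lipl 2 33 43 2 10,
.lip 0 9 73 64,
.part [64, 139, 4, 48] [0, 1, 0, 0] [] [],
.part [9, 208, 36, 2] [0, 1, 0, 0] [] [],
.deg 3 [1, 0, 0, 2],
.lipl 2 32 161 0 129,
.l2 2 18 80 4 1 1,
.lip 0 1 57 56,
.join 0 32 6 2 0 2 [(5, 0)],
.lipl 0 64 193 0 129,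
.part [17, 128, 78, 32] [0, 0, 1, 0] [] [],
.lipl 3 32 97 0 65,
.deg 6 [1, 0, 1, 2],
.part [64, 139, 20, 32] [0, 1, 0, 0] [] [],
.part [24, 135, 64, 32] [0, 1, 0, 0] [] [],
.part [128, 18, 45, 64] [0, 0, 1, 0] [] [],
.hall [2] [4, 5, 6, 7],
.part [16, 160, 10, 69] [0, 0, 0, 1] [] [],
.ab 1 5,
.part [64, 6, 128, 57] [0, 0, 0, 1] [] [],
.part [120, 128, 5, 2] [1, 0, 0, 0] [] [],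
.ordE 2 4 1,
.lip 0 128 176 56,
.part [3, 132, 0, 64] [0, 0, 0, 0] [56] [],
.le 1 160 128 7 1,
.l2 0 10 24 3 1 1,
.deg 3 [1, 0, 2, 0],
.join 2 1 2 2 1 1 [(0, 0)],
.lip 0 64 88 56,
.part [9, 224, 16, 6] [0, 1, 0, 0] [] [],
.lip 1 40 47 7,
.part [151, 8, 32, 64] [1, 0, 0, 0] [] [],
.part [64, 8, 34, 20] [0, 0, 0, 0] [] [(0, 129)],
.join 0 8 7 2 1 1 [(3, 0)],
.l2 1 3 130 1 1 1,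
.part [12, 32, 147, 64] [0, 0, 1, 0] [] [],
.part [40, 128, 64, 16] [0, 0, 0, 0] [7] [],
.part [82, 128, 12, 33] [1, 0, 0, 0] [] [],
.part [64, 34, 129, 4] [0, 0, 0, 0] [24] [],
.join 3 4 4 3 1 2 [(2, 0)],
.ab 2 1,
.part [1, 128, 6, 120] [0, 0, 0, 1] [] [],
.lip 0 80 87 7,
.part [128, 58, 64, 5] [0, 1, 0, 0] [] [],
.part [128, 16, 103, 8] [0, 0, 1, 0] [] [],
.ordE 2 64 2,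
.ordE 3 8 2,
.join 3 8 4 4 1 3 [(3, 0)],
.mono 1 128 160 1,
.join 3 1 1 4 2 2 [(0, 0)],
.part [6, 184, 1, 64] [0, 1, 0, 0] [] [],
.deg 0 [3, 0, 0, 0],
.join 2 16 7 2 2 0 [(4, 0)],
.lipl 0 66 195 0 129,
.ab 1 7,
.lip 0 132 188 56,
.deg 3 [0, 1, 1, 1],
.lipl 3 18 30 1 12,
.join 2 1 3 2 0 2 [(0, 0)],
.part [64, 55, 128, 8] [0, 1, 0, 0] [] [],
.lipl 1 20 212 1 192,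
.part [128, 61, 2, 64] [0, 1, 0, 0] [] [],
.part [193, 12, 32, 18] [1, 0, 0, 0] [] [],
.l2 3 10 12 3 2 1,
.part [71, 128, 40, 16] [1, 0, 0, 0] [] [],
.l2 2 5 33 0 1 1,
.lipl 0 68 77 0 9,
.join 1 2 7 2 0 2 [(1, 0)],
.srt 0 3 0 0 3,
.join 3 2 4 4 1 3 [(1, 0)],
.part [128, 39, 8, 80] [0, 1, 0, 0] [] [],
.part [64, 135, 32, 24] [0, 1, 0, 0] [] [],
.part [128, 34, 12, 16] [0, 0, 0, 0] [] [(0, 65)],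
.l2 0 9 129 0 1 1,
.lipl 1 12 108 1 96,
.ab2 2 130,
.part [3, 36, 128, 64] [0, 0, 0, 0] [24] [],
.l2 2 17 20 4 1 1,
.part [129, 12, 16, 34] [0, 0, 0, 0] [64] [],
.l2 2 34 96 5 1 1,
.part [72, 16, 135, 32] [0, 0, 1, 0] [] [],
.part [128, 31, 0, 96] [0, 1, 0, 0] [] [],
.mono 2 1 33 1,
.lipl 3 20 30 1 10,
.part [128, 17, 10, 32] [0, 0, 0, 0] [] [(2, 68)],
.mono 0 128 130 1,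
.lipl 2 132 141 0 9,
.ordE 1 4 1,
.mono 2 16 48 1,
.part [89, 128, 36, 2] [1, 0, 0, 0] [] [],
.part [64, 145, 10, 36] [0, 1, 0, 0] [] [],
.l2 0 9 24 3 1 1,
.part [128, 18, 36, 1] [0, 0, 0, 0] [] [(1, 72)],
.part [9, 132, 32, 18] [0, 0, 0, 0] [64] [],
.part [9, 2, 20, 160] [0, 0, 0, 0] [64] [],
.lip 1 64 192 128,
.part [97, 20, 128, 10] [1, 0, 0, 0] [] [],
.part [64, 1, 60, 130] [0, 0, 1, 0] [] [],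
.join 1 2 2 2 1 1 [(1, 0)],
.part [1, 188, 64, 2] [0, 1, 0, 0] [] [],
.l2 2 9 24 3 1 1,
.part [80, 32, 135, 8] [0, 0, 1, 0] [] [],
.ab2 1 192,
.part [128, 60, 1, 66] [0, 1, 0, 0] [] [],
.le 2 68 64 6 3,
.part [15, 48, 128, 64] [1, 0, 0, 0] [] [],
.mono 0 4 5 1,
.part [64, 135, 40, 16] [0, 1, 0, 0] [] [],
.part [137, 36, 18, 64] [1, 0, 0, 0] [] [],
.part [9, 34, 196, 16] [0, 0, 1, 0] [] [],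
.lip 1 34 162 128,
.hall [1] [0, 1, 2, 7],
.ab2 1 40,
.l2 1 5 36 2 1 1,
.l2 2 34 36 5 1 1,
.lip 1 160 165 7,
.part [167, 16, 8, 64] [1, 0, 0, 0] [] [],
.deg 0 [0, 0, 0, 3],
.part [64, 54, 129, 8] [0, 1, 0, 0] [] [],
.part [64, 18, 128, 45] [0, 0, 0, 1] [] [],
.part [48, 8, 128, 71] [0, 0, 0, 1] [] [],
.join 2 8 6 2 1 1 [(3, 0)],
.lipl 3 4 133 0 129,
.part [196, 34, 17, 8] [1, 0, 0, 0] [] [],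
.join 2 8 5 2 0 2 [(3, 0)],
.part [64, 188, 1, 2] [0, 1, 0, 0] [] [],
.l2 0 66 68 6 1 1,
.hall [1, 2] [5, 6, 7],
.part [128, 32, 79, 16] [0, 0, 1, 0] [] [],
.l2 0 17 65 0 1 1,
.l2 0 5 9 0 1 1,
.ab2 1 34,
.part [64, 184, 2, 5] [0, 1, 0, 0] [] [],
.part [64, 9, 36, 2] [0, 0, 0, 0] [] [(2, 144)],
.part [192, 2, 4, 1] [0, 0, 0, 0] [56] [],
.lipl 1 20 180 1 160,
.part [64, 135, 24, 32] [0, 1, 0, 0] [] [],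
.part [186, 1, 4, 64] [1, 0, 0, 0] [] [],
.le 1 160 128 7 2,
.part [100, 128, 9, 18] [1, 0, 0, 0] [] [],
.hall [2] [1, 2, 6, 7],
.lip 0 128 184 56,
.lipl 0 9 75 0 66,
.ab 0 4,
.part [9, 96, 128, 16] [0, 0, 0, 0] [6] [],
.part [9, 68, 128, 2] [0, 0, 0, 0] [48] [],
.part [66, 137, 20, 32] [0, 1, 0, 0] [] [],
.part [64, 34, 20, 8] [0, 0, 0, 0] [] [(0, 129)],
.un 1 3,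
.part [10, 165, 16, 64] [0, 1, 0, 0] [] [],
.part [4, 1, 2, 248] [0, 0, 0, 1] [] [],
.part [128, 71, 40, 16] [0, 1, 0, 0] [] [],
.lipl 1 20 29 0 9,
.part [128, 23, 8, 96] [0, 1, 0, 0] [] [],
.part [56, 6, 1, 192] [1, 0, 0, 0] [] [],
.l2 1 129 136 7 1 1,
.hall [0, 2] [1, 2, 7],
.ab2 2 17,
.mono 3 4 12 1,
.part [64, 20, 10, 32] [0, 0, 0, 0] [] [(0, 129)],
.l2 1 80 192 6 1 1,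
.part [6, 1, 184, 64] [0, 0, 1, 0] [] [],
.part [18, 32, 141, 64] [0, 0, 1, 0] [] [],
.part [128, 17, 10, 32] [0, 0, 0, 0] [] [(1, 68)],
.ab2 3 96,
.part [64, 17, 10, 4] [0, 0, 0, 0] [] [(1, 160)],
.ordE 0 64 2,
.part [89, 36, 128, 2] [1, 0, 0, 0] [] [],
.l2 3 72 80 6 2 1,
.hall [3] [3, 4, 5, 7],
.part [192, 1, 4, 2] [0, 0, 0, 0] [56] [],
.l2 1 6 10 1 1 1,
.part [64, 20, 136, 32] [0, 0, 0, 0] [3] [],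
.ab2 3 10,
.join 1 4 7 2 2 1 [(2, 1)],
.l2 2 3 10 1 1 1,
.lipl 1 34 178 1 144,
.join 3 16 6 3 1 2 [(4, 0)],
.lipl 3 64 82 2 18,
.mono 0 32 40 1,
.ab2 0 5,
.part [128, 113, 12, 2] [0, 1, 0, 0] [] [],
.ordE 3 128 3,
.deg 5 [1, 2, 0, 0],
.mono 2 32 36 1,
.srt 0 5 0 4 4,
.join 3 2 6 3 1 2 [(1, 0)],
.part [89, 128, 34, 4] [1, 0, 0, 0] [] [],
.deg 1 [3, 0, 0, 0],
.join 2 32 7 2 0 3 [(5, 1)],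
.ab2 0 192,
.part [195, 12, 32, 16] [1, 0, 0, 0] [] [],
.lipl 3 9 43 1 34,
.l2 1 68 192 6 1 1,
.part [152, 33, 6, 64] [1, 0, 0, 0] [] [],
.part [137, 34, 20, 64] [1, 0, 0, 0] [] [],
.part [9, 32, 150, 64] [0, 0, 1, 0] [] [],
.l2 0 129 132 7 1 1,
.part [72, 48, 128, 0] [0, 0, 0, 0] [7] [],
.hall [0, 1, 3] [2, 7],
.lip 2 2 58 56,
.lipl 0 1 137 2 136,
.join 0 32 7 2 1 1 [(5, 0)],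
.l2 0 9 12 3 1 1,
.part [65, 4, 154, 32] [0, 0, 1, 0] [] [],
.lip 3 3 59 56,
.mono 2 8 24 1,
.part [16, 136, 34, 69] [0, 0, 0, 1] [] [],
.un 3 5,
.part [224, 20, 10, 1] [1, 0, 0, 0] [] [],
.join 3 4 5 3 1 2 [(2, 0)],
.part [9, 130, 16, 36] [0, 0, 0, 0] [64] [],
.lipl 2 34 43 0 9,
.lipl 0 64 73 2 9,
.part [57, 128, 4, 66] [1, 0, 0, 0] [] [],
.hall [2, 3] [4, 6, 7],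
.l2 1 136 192 7 1 1,
.l2 1 130 192 7 1 1,
.part [72, 32, 149, 2] [0, 0, 1, 0] [] [],
.part [193, 20, 10, 32] [1, 0, 0, 0] [] [],
.ab2 1 24,
.mono 0 64 68 1,
.join 3 2 2 3 1 2 [(1, 0)],
.mono 1 8 24 1,
.part [128, 79, 32, 16] [0, 1, 0, 0] [] [],
.join 0 1 2 2 1 1 [(0, 0)],
.l2 2 18 130 1 1 1,
.part [128, 10, 33, 4] [0, 0, 0, 0] [] [(1, 80)],
.hall [2] [3, 4, 6, 7],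
.part [8, 71, 128, 48] [0, 1, 0, 0] [] [],
.part [248, 4, 2, 1] [1, 0, 0, 0] [] [],
.ordE 2 1 1,
.part [129, 10, 36, 80] [0, 0, 0, 1] [] [],
.hall [1] [0, 1, 2, 6],
.part [128, 15, 64, 48] [0, 1, 0, 0] [] [],
.part [64, 12, 34, 16] [0, 0, 0, 0] [] [(0, 129)],
.ab2 0 65,
.part [64, 61, 128, 2] [0, 1, 0, 0] [] [],
.ordE 3 4 2,
.part [128, 5, 64, 58] [0, 0, 0, 1] [] [],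
.l2 0 10 66 1 1 1,
.part [128, 9, 116, 2] [0, 0, 1, 0] [] [],
.part [74, 33, 128, 20] [1, 0, 0, 0] [] [],
.mono 1 4 132 1,
.join 3 2 5 4 3 1 [(1, 0)],
.part [60, 2, 128, 65] [1, 0, 0, 0] [] [],
.join 3 1 4 3 2 1 [(0, 0)],
.hall [2] [0, 2, 6, 7],
.le 2 129 128 7 2,
.part [128, 36, 27, 64] [0, 0, 1, 0] [] [],
.join 1 1 5 2 3 0 [(0, 1)],
.part [8, 167, 64, 16] [0, 1, 0, 0] [] [],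
.part [195, 8, 36, 16] [1, 0, 0, 0] [] [],
.lip 3 8 72 64,
.part [128, 64, 58, 5] [0, 0, 1, 0] [] [],
.part [129, 120, 4, 2] [0, 1, 0, 0] [] [],
.srt 3 7 3 6 3,
.join 1 16 7 2 2 0 [(4, 0)],
.lipl 2 18 54 1 36,
.part [9, 34, 128, 4] [0, 0, 0, 0] [] [(1, 80)],
.part [208, 12, 34, 1] [1, 0, 0, 0] [] [],
.hall [0, 1, 3] [0, 2],
.join 1 16 7 2 0 2 [(4, 0)],
.part [64, 17, 140, 34] [0, 0, 1, 0] [] [],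
.lipl 0 68 197 0 129,
.l2 1 36 160 5 1 1,
.part [208, 9, 36, 2] [1, 0, 0, 0] [] [],
.l2 2 48 80 4 1 1,
.lipl 1 128 137 0 9,
.deg 6 [2, 1, 1, 0],
.part [193, 36, 16, 10] [1, 0, 0, 0] [] [],
.hall [0, 1] [2, 6, 7],
.ordE 3 8 1,
.part [129, 40, 82, 4] [0, 0, 1, 0] [] [],
.lip 1 128 133 7,
.part [64, 128, 58, 5] [0, 0, 1, 0] [] [],
.part [136, 39, 64, 16] [0, 1, 0, 0] [] [],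
.ordE 1 1 1,
.hall [0, 1, 3] [3, 5],
.ab 0 7,
.l2 2 9 136 3 1 1,
.srt 0 2 0 1 1,
.part [64, 18, 128, 36] [0, 0, 0, 0] [] [(0, 9)],
.part [196, 18, 33, 8] [1, 0, 0, 0] [] [],
.hall [0, 1, 3] [1, 2],
.part [193, 8, 20, 34] [1, 0, 0, 0] [] [],
.deg 6 [1, 1, 1, 1],
.part [224, 10, 20, 1] [1, 0, 0, 0] [] [],
.part [65, 186, 4, 0] [0, 1, 0, 0] [] [],
.part [8, 33, 144, 70] [0, 0, 0, 1] [] [],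
.part [9, 128, 2, 20] [0, 0, 0, 0] [] [(1, 96)],
.deg 2 [2, 0, 1, 0],
.part [9, 20, 128, 64] [0, 0, 0, 0] [] [(3, 34)],
.mono 1 2 66 1,
.l2 1 24 72 3 1 1,
.ab2 3 20,
.join 0 2 2 2 1 1 [(1, 0)],
.part [128, 87, 32, 8] [0, 1, 0, 0] [] [],
.part [64, 33, 128, 20] [0, 0, 0, 0] [] [(2, 10)],
.part [192, 15, 0, 48] [0, 1, 0, 0] [] [],
.le 1 68 64 6 2,
.lip 1 17 145 128,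
.srt 0 4 0 3 4,
.part [128, 4, 57, 66] [0, 0, 1, 0] [] [],
.part [9, 20, 192, 34] [1, 0, 0, 0] [] [],
.part [200, 33, 20, 2] [1, 0, 0, 0] [] [],
.l2 1 34 36 5 1 1,
.l2 2 12 132 2 1 1,
.deg 6 [0, 1, 0, 3],
.lip 1 32 39 7,
.ab2 1 17,
.ab2 3 36,
.deg 2 [1, 0, 2, 0],
.part [128, 1, 58, 68] [0, 0, 1, 0] [] [],
.part [64, 17, 128, 34] [0, 0, 0, 0] [] [(2, 12)],
.lipl 3 34 46 1 12,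
.ordE 2 16 1,
.part [73, 128, 34, 20] [1, 0, 0, 0] [] [],
.l2 1 10 66 1 1 1,
.l2 2 34 66 1 1 1,
.part [1, 132, 34, 88] [0, 0, 0, 1] [] [],
.part [128, 15, 32, 80] [0, 1, 0, 0] [] [],
.lip 1 34 39 7,
.part [24, 135, 32, 64] [0, 1, 0, 0] [] [],
.l2 2 36 48 5 1 1,
.srt 1 6 0 6 2,
.part [9, 128, 16, 36] [0, 0, 0, 0] [] [(3, 66)],
.lipl 0 64 193 1 129,
.part [192, 32, 8, 16] [0, 0, 0, 0] [7] [],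
.part [64, 20, 128, 10] [0, 0, 0, 0] [] [(3, 33)],
.deg 6 [2, 0, 0, 2],
.l2 1 17 24 4 1 1,
.part [89, 128, 32, 6] [1, 0, 0, 0] [] [],
.l2 0 66 192 6 1 1,
.lip 2 48 55 7,
.lipl 0 8 137 2 129,
.part [64, 128, 54, 9] [0, 0, 1, 0] [] [],
.l2 1 144 192 7 1 1,
.ordE 0 1 3,
.hall [2, 3] [3, 4, 5],
.mono 2 64 68 1,
.part [64, 161, 20, 10] [0, 1, 0, 0] [] [],
.part [9, 36, 18, 192] [0, 0, 0, 1] [] [],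
.join 2 1 5 2 1 1 [(0, 0)],
.part [16, 199, 8, 32] [0, 1, 0, 0] [] [],
.ab2 0 96,
.part [72, 151, 32, 0] [0, 1, 0, 0] [] [],
.part [64, 10, 128, 20] [0, 0, 0, 0] [] [(2, 33)],
.l2 0 9 72 3 1 1,
.part [65, 132, 16, 2] [0, 0, 0, 0] [40] [],
.lip 2 132 196 64,
.part [1, 40, 144, 64] [0, 0, 0, 0] [6] [],
.ab 2 4,
.ab 2 5,
.ab 2 2,
.part [18, 1, 172, 64] [0, 0, 1, 0] [] [],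
.l2 1 129 160 7 1 1,
.part [132, 120, 1, 2] [0, 1, 0, 0] [] [],
.lipl 2 128 137 0 9,
.part [64, 17, 128, 12] [0, 0, 0, 0] [] [(2, 34)],
.part [192, 8, 16, 32] [0, 0, 0, 0] [7] [],
.part [48, 128, 8, 71] [0, 0, 0, 1] [] [],
.join 3 8 5 4 2 2 [(3, 0)],
.mono 1 32 36 1,
.deg 2 [0, 0, 0, 3],
.part [128, 64, 60, 3] [0, 0, 1, 0] [] [],
.part [9, 178, 4, 64] [0, 1, 0, 0] [] [],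
.l2 2 18 24 4 1 1,
.l2 1 33 40 5 1 1,
.l2 2 33 160 5 1 1,
.part [64, 128, 34, 29] [0, 0, 0, 1] [] [],
.join 2 32 7 2 2 0 [(5, 0)],
.l2 1 34 48 5 1 1,
.part [193, 18, 32, 12] [1, 0, 0, 0] [] [],
.part [48, 71, 128, 8] [0, 1, 0, 0] [] [],
.join 2 1 4 2 1 1 [(0, 0)],
.part [9, 34, 20, 192] [0, 0, 0, 1] [] [],
.deg 0 [1, 1, 0, 1],
.part [64, 47, 128, 16] [0, 1, 0, 0] [] [],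
.part [152, 3, 36, 64] [1, 0, 0, 0] [] [],
.lipl 0 64 208 2 144,
.ordE 3 1 2,
.lip 2 132 188 56,
.part [66, 188, 1, 0] [0, 1, 0, 0] [] [],
.lip 1 136 143 7,
.join 2 1 2 2 0 2 [(0, 0)],
.hall [2] [0, 1, 2, 6],
.join 1 2 4 2 1 1 [(1, 0)],
.part [128, 2, 5, 120] [0, 0, 0, 1] [] [],
.lipl 1 160 240 1 80,
.join 2 16 5 2 2 0 [(4, 0)],
.ordE 0 16 2,
.mono 1 128 132 1,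
.part [18, 1, 232, 4] [0, 0, 1, 0] [] [],
.mono 2 4 68 1,
.ab2 0 72,
.hall [0, 2, 3] [3, 4],
.ab 0 1,
.part [64, 55, 8, 128] [0, 1, 0, 0] [] [],
.join 1 16 6 2 1 1 [(4, 0)],
.hall [1, 2] [4, 5, 7],
.l2 2 132 144 7 1 1,
.part [128, 33, 20, 8] [0, 0, 0, 0] [] [(1, 66)],
.join 1 2 3 2 2 0 [(1, 0)],
.lipl 3 2 131 0 129,
.l2 2 24 72 3 1 1,
.deg 1 [0, 2, 1, 0],
.part [128, 102, 9, 16] [0, 1, 0, 0] [] [],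
.ab2 1 18,
.un 0 7,
.ab 2 3,
.part [128, 17, 108, 2] [0, 0, 1, 0] [] [],
.un 0 6,
.deg 7 [1, 0, 2, 1],
.part [9, 32, 198, 16] [0, 0, 1, 0] [] [],
.l2 2 40 160 5 1 1,
.lip 2 132 180 56,
.lip 0 3 43 56,
.deg 7 [0, 0, 1, 3],
.part [60, 3, 128, 64] [1, 0, 0, 0] [] [],
.lip 1 48 55 7,
.deg 3 [0, 0, 2, 1],
.lip 1 10 138 128,
.part [176, 65, 10, 4] [1, 0, 0, 0] [] [],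
.part [8, 17, 160, 70] [0, 0, 0, 1] [] [],
.hall [2, 3] [0, 2, 7],
.part [15, 32, 128, 80] [1, 0, 0, 0] [] [],
.deg 1 [0, 1, 0, 2],
.ordE 0 8 3,
.deg 1 [2, 0, 1, 0],
.part [9, 36, 192, 18] [1, 0, 0, 0] [] [],
.part [1, 128, 66, 4] [0, 0, 0, 0] [56] [],
.part [121, 2, 4, 128] [1, 0, 0, 0] [] [],
.l2 0 3 129 0 1 1,
.lipl 3 48 114 0 66,
.mono 0 128 132 1,
.part [128, 20, 10, 32] [0, 0, 0, 0] [] [(0, 65)],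
.mono 1 32 33 1,
.ab2 2 80,
.part [82, 128, 9, 36] [1, 0, 0, 0] [] [],
.part [9, 2, 224, 20] [0, 0, 1, 0] [] [],
.l2 2 5 132 2 1 1,
.part [208, 12, 33, 2] [1, 0, 0, 0] [] [],
.l2 1 20 68 2 1 1,
.part [3, 120, 4, 128] [0, 1, 0, 0] [] [],
.part [104, 129, 18, 4] [1, 0, 0, 0] [] [],
.ab2 2 9,
.join 0 1 6 2 2 0 [(0, 0)],
.part [58, 5, 128, 64] [1, 0, 0, 0] [] [],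
.srt 3 7 3 6 4,
.join 2 4 7 2 2 0 [(2, 0)],
.hall [0, 1] [3, 4, 5],
.join 0 2 6 2 1 1 [(1, 0)],
.join 0 16 6 2 0 2 [(4, 0)],
.part [1, 36, 130, 88] [0, 0, 0, 1] [] [],
.part [64, 184, 4, 3] [0, 1, 0, 0] [] [],
.mono 1 128 130 1,
.part [24, 32, 128, 71] [0, 0, 0, 1] [] [],
.part [15, 16, 64, 160] [1, 0, 0, 0] [] [],
.part [133, 18, 40, 64] [1, 0, 0, 0] [] [],
.hall [1, 2, 3] [6, 7],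
.part [128, 32, 12, 18] [0, 0, 0, 0] [] [(0, 65)],
.l2 2 136 192 7 1 1,
.part [65, 34, 16, 12] [0, 0, 0, 0] [128] [],
.part [17, 2, 172, 64] [0, 0, 1, 0] [] [],
.part [64, 15, 16, 160] [0, 1, 0, 0] [] [],
.join 2 8 7 2 0 2 [(3, 0)],
.lipl 3 64 224 2 160,
.lipl 0 64 208 1 144,
.mono 1 1 129 1,
.part [39, 8, 128, 80] [1, 0, 0, 0] [] [],
.l2 1 5 33 0 1 1,
.l2 2 5 20 2 1 1,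
.ordE 0 64 1,
.part [57, 192, 4, 2] [1, 0, 0, 0] [] [],
.hall [1, 2] [0, 2, 6],
.part [128, 4, 58, 65] [0, 0, 1, 0] [] [],
.deg 7 [2, 1, 1, 0],
.part [81, 128, 12, 34] [1, 0, 0, 0] [] [],
.part [194, 9, 36, 16] [1, 0, 0, 0] [] [],
.hall [2, 3] [1, 2, 7],
.l2 1 132 136 7 1 1,
.lip 3 64 70 7,
.l2 3 136 192 7 1 2,
.l2 1 17 33 0 1 1,
.mono 2 64 72 1,
.part [200, 20, 33, 2] [1, 0, 0, 0] [] [],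
.l2 2 6 12 2 1 1,
.hall [0, 1, 2] [0, 2],
.ordE 0 1 1,
.ab 0 5,
.part [128, 12, 18, 97] [0, 0, 0, 1] [] [],
.part [192, 61, 2, 0] [0, 1, 0, 0] [] [],
.l2 1 12 40 3 1 1,
.part [64, 34, 128, 12] [0, 0, 0, 0] [] [(2, 17)],
.part [8, 135, 96, 16] [0, 1, 0, 0] [] [],
.join 2 2 7 2 1 1 [(1, 0)],
.join 0 2 3 2 1 1 [(1, 0)],
.part [96, 135, 8, 16] [0, 1, 0, 0] [] [],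
.lipl 1 20 116 1 96,
.l2 3 130 192 7 1 2,
.hall [1, 3] [3, 6, 7],
.part [3, 4, 128, 120] [0, 0, 0, 1] [] [],
.hall [1, 3] [4, 5, 7],
.l2 2 66 130 1 1 1,
.part [64, 9, 128, 18] [0, 0, 0, 0] [] [(2, 36)],
.l2 1 129 144 7 1 1,
.part [64, 20, 128, 34] [0, 0, 0, 0] [] [(2, 9)],
.join 1 4 6 2 1 1 [(2, 0)],
.part [128, 120, 3, 4] [0, 1, 0, 0] [] [],
.l2 2 6 18 1 1 1,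
.part [64, 33, 10, 4] [0, 0, 0, 0] [] [(2, 144)],
.lipl 0 64 97 1 33,
.part [144, 39, 64, 8] [0, 1, 0, 0] [] [],
.join 3 2 3 4 2 2 [(1, 0)],
.join 3 2 5 3 1 2 [(1, 0)],
.l2 0 17 48 4 1 1,
.part [193, 34, 24, 4] [1, 0, 0, 0] [] [],
.part [10, 32, 149, 64] [0, 0, 1, 0] [] [],
.part [9, 34, 128, 16] [0, 0, 0, 0] [] [(2, 68)],
.part [66, 137, 36, 16] [0, 1, 0, 0] [] [],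
.part [8, 178, 5, 64] [0, 1, 0, 0] [] [],
.srt 2 6 1 6 1,
.part [128, 16, 8, 103] [0, 0, 0, 1] [] [],
.mono 0 8 24 1,
.l2 1 10 12 3 1 1,
.part [1, 66, 132, 16] [0, 0, 0, 0] [40] [],
.part [64, 16, 10, 36] [0, 0, 0, 0] [] [(2, 129)],
.join 2 4 7 2 0 3 [(2, 1)],
.deg 1 [1, 0, 1, 1],
.ordE 2 2 1,
.part [68, 137, 18, 32] [0, 1, 0, 0] [] [],
.join 2 2 6 2 1 1 [(1, 0)],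
.join 0 1 6 2 1 1 [(0, 0)],
.join 2 4 6 2 2 0 [(2, 0)],
.part [193, 34, 12, 16] [1, 0, 0, 0] [] [],
.lip 3 32 39 7,
.join 1 4 5 2 0 2 [(2, 0)],
.mono 2 32 160 1,
.l2 1 34 96 5 1 1,
.part [64, 10, 20, 32] [0, 0, 0, 0] [] [(0, 129)],
.part [64, 128, 10, 53] [0, 0, 0, 1] [] [],
.ab2 0 144,
.lipl 3 17 29 1 12,
.hall [2, 3] [4, 5, 7],
.part [15, 48, 64, 128] [1, 0, 0, 0] [] [],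
.hall [0, 3] [1, 2, 7],
.part [9, 20, 34, 192] [0, 0, 0, 1] [] [],
.part [128, 36, 9, 16] [0, 0, 0, 0] [] [(1, 66)],
.mono 1 64 66 1,
.part [9, 34, 192, 20] [1, 0, 0, 0] [] [],
.ab2 2 144,
.ab2 2 96,
.part [64, 36, 10, 1] [0, 0, 0, 0] [] [(2, 144)],
.join 3 16 5 4 2 2 [(4, 0)],
.join 1 8 4 2 0 2 [(3, 0)],
.lipl 0 128 194 1 66,
.part [129, 24, 100, 2] [0, 0, 1, 0] [] [],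
.part [128, 12, 34, 1] [0, 0, 0, 0] [] [(1, 80)],
.join 3 8 4 4 2 2 [(3, 0)],
.l2 0 66 130 1 1 1,
.part [192, 55, 8, 0] [0, 1, 0, 0] [] [],
.part [3, 4, 184, 64] [0, 0, 1, 0] [] [],
.ordE 1 8 2,
.deg 1 [1, 1, 1, 0],
.lip 1 144 151 7,
.part [128, 12, 33, 16] [0, 0, 0, 0] [] [(2, 66)],
.part [24, 64, 128, 32] [0, 0, 0, 0] [7] [],
.ab2 1 160,
.deg 4 [2, 0, 1, 0],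
.l2 2 20 132 2 1 1,
.join 3 32 7 3 1 2 [(5, 0)],
.lip 0 9 137 128,
.join 1 8 6 2 2 0 [(3, 0)],
.hall [2, 3] [0, 1, 7],
.l2 0 5 129 0 1 1,
.mono 3 4 36 1,
.part [9, 16, 198, 32] [0, 0, 1, 0] [] [],
.l2 2 68 72 6 1 1,
.join 0 1 3 2 1 1 [(0, 0)],
.join 0 4 3 2 1 1 [(2, 0)],
.deg 7 [1, 0, 1, 2],
.lip 1 144 149 7,
.ab2 1 130,
.join 1 4 3 2 0 2 [(2, 0)],
.part [120, 128, 6, 1] [1, 0, 0, 0] [] [],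
.l2 1 3 66 1 1 1,
.lipl 1 10 43 3 33,
.deg 5 [0, 1, 1, 1],
.part [9, 18, 128, 4] [0, 0, 0, 0] [] [(1, 96)],
.part [48, 135, 8, 64] [0, 1, 0, 0] [] [],
.hall [0, 2, 3] [1, 2],
.lip 0 32 39 7,
.lip 2 192 193 1,
.part [17, 200, 36, 2] [0, 1, 0, 0] [] [],
.l2 1 5 9 0 1 1,
.l2 1 68 72 6 1 1,
.l2 1 20 24 4 1 1,
.lip 1 136 142 7,
.part [105, 16, 130, 4] [1, 0, 0, 0] [] [],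
.part [64, 151, 32, 8] [0, 1, 0, 0] [] [],
.l2 1 96 192 6 1 1,
.ab2 2 24,
.part [18, 141, 32, 64] [0, 1, 0, 0] [] [],
.part [65, 2, 180, 8] [0, 0, 1, 0] [] [],
.l2 0 40 72 3 1 1,
.l2 1 36 68 2 1 1,
.part [24, 4, 160, 67] [0, 0, 0, 1] [] [],
.part [64, 10, 177, 4] [0, 0, 1, 0] [] [],
.ordE 0 8 2,
.l2 0 66 80 6 1 1,
.lipl 0 1 97 1 96,
.mono 2 16 17 1,
.hall [0, 2, 3] [0, 2],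
.join 2 2 2 2 2 0 [(1, 0)],
.part [8, 128, 96, 16] [0, 0, 0, 0] [7] [],
.ab2 1 72,
.join 1 4 7 2 0 2 [(2, 0)],
.part [84, 128, 34, 9] [1, 0, 0, 0] [] [],
.part [128, 86, 33, 8] [0, 1, 0, 0] [] [],
.part [193, 16, 34, 12] [1, 0, 0, 0] [] [],
.part [128, 1, 60, 66] [0, 0, 1, 0] [] [],
.lip 1 36 100 64,
.part [128, 17, 10, 4] [0, 0, 0, 0] [] [(1, 96)],
.part [128, 1, 6, 120] [0, 0, 0, 1] [] [],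
.lip 2 144 150 7,
.deg 7 [1, 2, 1, 0],
.lipl 2 20 85 0 65,
.part [6, 129, 0, 64] [0, 0, 0, 0] [56] [],
.ordE 1 128 2,
.part [17, 32, 142, 64] [0, 0, 1, 0] [] [],
.mono 2 8 9 1,
.part [64, 188, 3, 0] [0, 1, 0, 0] [] [],
.part [9, 128, 114, 4] [0, 0, 1, 0] [] [],
.part [104, 129, 20, 2] [1, 0, 0, 0] [] [],
.part [128, 120, 5, 2] [0, 1, 0, 0] [] [],
.part [200, 34, 20, 1] [1, 0, 0, 0] [] [],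
.deg 0 [2, 0, 0, 1],
.join 3 1 1 3 2 1 [(0, 0)],
.mono 1 64 96 1,
.lip 2 130 194 64,
.part [24, 32, 135, 64] [0, 0, 1, 0] [] [],
.part [64, 161, 12, 18] [0, 1, 0, 0] [] [],
.l2 2 10 72 3 1 1,
.lipl 0 128 224 1 96,
.join 2 16 6 2 2 0 [(4, 0)],
.le 2 66 64 6 2,
.mono 1 2 18 1,
.part [2, 33, 132, 88] [0, 0, 0, 1] [] [],
.join 3 8 6 3 0 3 [(3, 0)],
.part [128, 4, 1, 122] [0, 0, 0, 1] [] [],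
.lip 0 16 23 7,
.mono 0 1 65 1,
.l2 1 66 68 6 1 1,
.lip 2 18 82 64,
.l2 1 9 72 3 1 1,
.part [122, 4, 1, 128] [1, 0, 0, 0] [] [],
.part [16, 8, 32, 199] [0, 0, 0, 1] [] [],
.mono 3 4 20 1,
.lipl 1 10 139 1 129,
.part [57, 4, 128, 66] [1, 0, 0, 0] [] [],
.part [128, 32, 15, 80] [0, 0, 1, 0] [] [],
.part [8, 87, 128, 32] [0, 1, 0, 0] [] [],
.part [10, 1, 180, 64] [0, 0, 1, 0] [] [],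
.ab2 0 160,
.lip 2 4 44 56,
.l2 1 36 40 5 1 1,
.srt 0 4 0 3 2,
.l2 3 9 65 0 2 1,
.l2 0 9 65 0 1 1,
.part [87, 8, 32, 128] [1, 0, 0, 0] [] [],
.part [69, 144, 34, 8] [1, 0, 0, 0] [] [],
.part [192, 16, 15, 32] [0, 0, 1, 0] [] [],
.hall [2, 3] [3, 4, 7],
.join 2 4 6 2 4 0 [(2, 2)],
.l2 1 18 80 4 1 1,
.part [3, 120, 128, 4] [0, 1, 0, 0] [] [],
.part [64, 12, 48, 131] [0, 0, 0, 1] [] [],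
.join 1 2 2 2 0 2 [(1, 0)],
.part [10, 180, 1, 64] [0, 1, 0, 0] [] [],
.l2 1 132 144 7 1 1,
.part [224, 17, 10, 4] [1, 0, 0, 0] [] [],
.l2 2 24 48 4 1 1,
.part [33, 150, 8, 64] [0, 1, 0, 0] [] [],
.lipl 2 17 177 2 160,
.part [33, 4, 154, 64] [0, 0, 1, 0] [] [],
.lip 1 80 86 7,
.part [192, 0, 47, 16] [0, 0, 1, 0] [] [],
.l2 2 130 132 7 1 1,
.part [64, 8, 36, 18] [0, 0, 0, 0] [] [(0, 129)],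
.lip 2 192 216 56,
.deg 4 [1, 1, 1, 0],
.part [200, 20, 34, 1] [1, 0, 0, 0] [] [],
.lip 2 65 121 56,
.join 3 32 6 4 2 2 [(5, 0)],
.part [9, 128, 54, 64] [0, 0, 1, 0] [] [],
.part [128, 36, 10, 81] [0, 0, 0, 1] [] [],
.ordE 1 2 2,
.l2 2 132 160 7 1 1,
.part [64, 4, 58, 129] [0, 0, 1, 0] [] [],
.lip 2 2 42 56,
.le 0 68 4 2 2,
.part [128, 9, 18, 32] [0, 0, 0, 0] [] [(1, 68)],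
.ab2 3 136,
.part [129, 2, 36, 88] [0, 0, 0, 1] [] [],
.deg 1 [2, 0, 0, 1],
.part [64, 17, 34, 4] [0, 0, 0, 0] [] [(2, 136)],
.join 3 4 3 4 3 1 [(2, 0)],
.part [64, 23, 8, 160] [0, 1, 0, 0] [] [],
.part [128, 16, 79, 32] [0, 0, 1, 0] [] [],
.un 3 2,
.part [96, 15, 128, 16] [0, 1, 0, 0] [] [],
.hall [0, 1] [0, 1, 2],
.part [9, 54, 128, 64] [0, 1, 0, 0] [] [],
.lipl 1 17 29 1 12,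
.part [64, 128, 36, 27] [0, 0, 0, 1] [] [],
.l2 2 129 130 7 1 1,
.join 3 8 6 3 2 2 [(3, 1)],
.ordE 2 4 2,
.hall [0, 1, 2] [3, 4],
.join 3 8 4 3 2 1 [(3, 0)],
.join 3 4 5 4 2 2 [(2, 0)],
.ab 1 4,
.l2 3 10 12 3 1 2,
.part [64, 24, 128, 39] [0, 0, 0, 1] [] [],
.part [128, 4, 64, 59] [0, 0, 0, 1] [] [],
.lip 2 66 122 56,
.part [128, 48, 64, 15] [0, 0, 0, 1] [] [],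
.part [192, 23, 0, 40] [0, 1, 0, 0] [] [],
.l2 2 12 20 2 1 1,
.mono 2 4 36 1,
.deg 1 [1, 2, 0, 0],
.deg 5 [1, 0, 1, 1],
.lipl 3 34 43 1 9,
.l2 1 129 130 7 1 1,
.lip 2 4 52 56,
.mono 2 16 20 1,
.un 1 4,
.join 3 4 6 3 2 1 [(2, 0)],
.join 3 4 3 4 1 3 [(2, 0)],
.lipl 1 33 177 1 144,
.deg 7 [1, 2, 0, 1],
.part [8, 36, 144, 67] [0, 0, 0, 1] [] [],
.part [9, 80, 128, 32] [0, 0, 0, 0] [6] [],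
.lip 2 128 192 64,
.ordE 2 128 3,
.l2 2 66 72 6 1 1,
.part [64, 32, 20, 10] [0, 0, 0, 0] [] [(0, 129)],
.mono 2 32 40 1,
.mono 1 32 40 1,
.part [193, 36, 24, 2] [1, 0, 0, 0] [] [],
.l2 2 132 136 7 1 1,
.join 3 2 7 3 1 2 [(1, 0)],
.deg 0 [0, 0, 3, 0],
.part [128, 47, 16, 64] [0, 1, 0, 0] [] [],
.part [64, 186, 5, 0] [0, 1, 0, 0] [] [],
.lip 2 3 59 56,
.lip 0 65 193 128,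
.lip 0 128 133 7,
.mono 2 2 18 1,
.deg 1 [1, 0, 0, 2],
.part [64, 36, 10, 1] [0, 0, 0, 0] [] [(1, 144)],
.lipl 1 128 196 1 68,
.hall [1] [0, 1, 6, 7],
.part [9, 102, 16, 128] [0, 1, 0, 0] [] [],
.part [128, 34, 17, 8] [0, 0, 0, 0] [] [(1, 68)],
.lip 2 1 57 56,
.ordE 2 1 2,
.lipl 3 4 140 2 136,
.mono 1 32 96 1,
.part [8, 135, 80, 32] [0, 1, 0, 0] [] [],
.part [64, 18, 12, 1] [0, 0, 0, 0] [] [(2, 160)],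
.part [97, 128, 18, 12] [1, 0, 0, 0] [] [],
.l2 2 80 144 4 1 1,
.lip 1 8 15 7,
.join 1 1 5 2 2 0 [(0, 0)],
.lip 2 130 186 56,
.lip 0 192 248 56,
.part [128, 122, 4, 1] [0, 1, 0, 0] [] [],
.part [64, 33, 20, 8] [0, 0, 0, 0] [] [(2, 130)],
.part [40, 23, 128, 64] [0, 1, 0, 0] [] [],
.part [1, 122, 128, 4] [0, 1, 0, 0] [] [],
.l2 2 3 66 1 1 1,
.hall [3] [3, 5, 6, 7],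
.join 3 8 5 4 3 1 [(3, 0)],
.l2 1 18 34 1 1 1,
.part [9, 34, 192, 20] [0, 0, 1, 0] [] [],
.part [48, 128, 64, 8] [0, 0, 0, 0] [7] [],
.part [64, 167, 16, 8] [0, 1, 0, 0] [] [],
.lipl 2 10 43 2 33,
.part [128, 120, 2, 5] [0, 1, 0, 0] [] [],
.join 3 32 7 4 2 2 [(5, 0)],
.un 2 2,
.part [143, 16, 32, 64] [1, 0, 0, 0] [] [],
.part [128, 12, 114, 1] [0, 0, 1, 0] [] [],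
.l2 1 68 132 2 1 1,
.l2 0 9 136 3 1 1,
.ab2 1 136,
.lipl 0 128 208 2 80,
.lipl 0 1 193 1 192,
.part [193, 32, 10, 20] [1, 0, 0, 0] [] [],
.lip 0 8 15 7,
.ab2 0 10,
.l2 2 129 192 7 1 1,
.mono 2 2 10 1,
.part [9, 128, 48, 70] [0, 0, 0, 1] [] [],
.mono 2 64 96 1,
.lip 1 4 60 56,
.part [17, 8, 166, 64] [0, 0, 1, 0] [] [],
.l2 1 3 10 1 1 1,
.part [128, 60, 2, 65] [0, 1, 0, 0] [] [],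
.part [160, 71, 8, 16] [0, 1, 0, 0] [] [],
.l2 1 40 96 5 1 1,
.part [33, 2, 156, 64] [0, 0, 1, 0] [] [],
.join 3 16 6 4 3 1 [(4, 0)],
.lipl 0 64 74 1 10,
.part [64, 9, 36, 16] [0, 0, 0, 0] [] [(2, 130)],
.join 3 32 6 3 0 3 [(5, 0)],
.part [195, 12, 16, 32] [1, 0, 0, 0] [] [],
.l2 2 10 136 3 1 1,
.part [64, 12, 129, 2] [0, 0, 0, 0] [48] [],
.l2 1 33 96 5 1 1,
.un 1 5,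
.part [9, 18, 192, 36] [0, 0, 1, 0] [] [],
.join 0 32 6 2 0 3 [(5, 1)],
.lip 1 1 57 56,
.part [57, 64, 6, 128] [1, 0, 0, 0] [] [],
.hall [3] [0, 1, 2, 7],
.part [64, 18, 33, 8] [0, 0, 0, 0] [] [(1, 132)],
.srt 3 7 3 6 1,
.lipl 2 18 114 2 96,
.part [66, 57, 128, 4] [0, 1, 0, 0] [] [],
.mono 3 8 24 1,
.part [65, 4, 184, 2] [0, 0, 1, 0] [] [],
.part [128, 16, 15, 96] [0, 0, 1, 0] [] [],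
.lip 1 130 186 56,
.join 1 4 3 2 1 1 [(2, 0)],
.part [64, 16, 47, 128] [0, 0, 1, 0] [] [],
.lipl 3 4 84 1 80,
.l2 3 72 192 6 1 2,
.part [224, 20, 9, 2] [1, 0, 0, 0] [] [],
.ab2 2 34,
.ab2 0 9,
.part [168, 18, 4, 65] [1, 0, 0, 0] [] [],
.part [15, 128, 16, 96] [1, 0, 0, 0] [] [],
.l2 2 33 36 5 1 1,
.part [48, 136, 0, 64] [0, 0, 0, 0] [7] [],
.part [176, 6, 9, 64] [1, 0, 0, 0] [] [],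
.mono 2 128 129 1,
.deg 7 [2, 0, 0, 2],
.mono 2 16 18 1,
.part [2, 132, 9, 112] [0, 0, 0, 1] [] [],
.l2 1 12 68 2 1 1,
.l2 1 3 34 1 1 1,
.lipl 2 128 138 2 10,
.lip 2 4 60 56,
.part [2, 36, 129, 88] [0, 0, 0, 1] [] [],
.part [68, 184, 1, 2] [0, 1, 0, 0] [] [],
.part [64, 17, 34, 4] [0, 0, 0, 0] [] [(1, 136)],
.part [64, 1, 186, 4] [0, 0, 1, 0] [] [],
.part [128, 18, 77, 32] [0, 0, 1, 0] [] [],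
.part [128, 18, 12, 1] [0, 0, 0, 0] [] [(1, 96)],
.join 3 1 6 3 1 2 [(0, 0)],
.l2 2 10 34 1 1 1,
.part [64, 33, 128, 12] [0, 0, 0, 0] [] [(2, 18)],
.lip 2 32 35 7,
.l2 2 17 144 4 1 1,
.part [128, 9, 20, 32] [0, 0, 0, 0] [] [(2, 66)],
.lip 2 144 151 7,
.ordE 3 4 1,
.join 1 16 5 2 0 2 [(4, 0)],
.lipl 0 64 81 1 17,
.deg 3 [2, 1, 0, 0],
.le 1 130 2 1 3,
.mono 3 2 66 1,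
.lip 0 192 199 7,
.part [17, 166, 8, 64] [0, 1, 0, 0] [] [],
.srt 0 3 0 0 2,
.part [40, 128, 16, 71] [0, 0, 0, 1] [] [],
.join 3 2 3 3 2 1 [(1, 0)],
.l2 2 72 80 6 1 1,
.l2 1 66 96 6 1 1,
.join 1 8 4 2 1 1 [(3, 0)],
.deg 1 [0, 3, 0, 0],
.part [197, 34, 16, 8] [1, 0, 0, 0] [] [],
.ab2 1 96,
.part [64, 36, 18, 1] [0, 0, 0, 0] [] [(2, 136)],
.part [64, 58, 1, 132] [0, 1, 0, 0] [] [],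
.part [128, 9, 114, 4] [0, 0, 1, 0] [] [],
.ab2 1 144,
.l2 2 17 24 4 1 1,
.lip 2 192 232 56,
.part [9, 20, 2, 224] [0, 0, 0, 1] [] [],
.mono 2 32 33 1,
.part [121, 128, 4, 2] [1, 0, 0, 0] [] [],
.part [185, 4, 0, 66] [1, 0, 0, 0] [] [],
.part [64, 10, 33, 4] [0, 0, 0, 0] [] [(2, 144)],
.ordE 1 32 2,
.part [80, 8, 135, 32] [0, 0, 1, 0] [] [],
.part [64, 36, 128, 9] [0, 0, 0, 0] [] [(2, 18)],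
.hall [0, 1, 2] [5, 6],
.mono 1 1 9 1,
.ab 0 0,
.part [43, 16, 132, 64] [1, 0, 0, 0] [] [],
.ab2 3 66,
.join 2 4 3 2 0 3 [(2, 1)],
.ordE 2 8 1,
.lip 0 68 124 56,
.ordE 1 64 1,
.join 3 64 7 3 1 2 [(6, 0)],
.lipl 0 1 73 1 72,
.deg 0 [1, 1, 1, 0],
.part [2, 4, 1, 248] [0, 0, 0, 1] [] [],
.part [128, 8, 103, 16] [0, 0, 1, 0] [] [],
.lipl 0 64 97 2 33,
.part [6, 184, 64, 1] [0, 1, 0, 0] [] [],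
.part [1, 192, 4, 2] [0, 0, 0, 0] [56] [],
.hall [0, 1] [1, 2, 7],
.part [1, 124, 128, 2] [0, 1, 0, 0] [] [],
.mono 1 4 68 1,
.part [9, 192, 34, 20] [0, 1, 0, 0] [] [],
.part [5, 128, 2, 120] [0, 0, 0, 1] [] [],
.ab2 2 3,
.lip 2 2 50 56,
.part [9, 16, 194, 36] [0, 0, 1, 0] [] [],
.mono 2 2 130 1,
.part [128, 32, 24, 71] [0, 0, 0, 1] [] [],
.part [128, 4, 122, 1] [0, 0, 1, 0] [] [],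
.mono 2 4 20 1,
.ab2 1 20,
.part [24, 39, 128, 64] [0, 1, 0, 0] [] [],
.part [129, 96, 12, 18] [0, 1, 0, 0] [] [],
.part [185, 2, 64, 4] [1, 0, 0, 0] [] [],
.part [65, 184, 4, 2] [0, 1, 0, 0] [] [],
.lip 1 96 103 7,
.lipl 3 33 53 1 20,
.join 2 8 5 2 2 0 [(3, 0)],
.ab2 2 72,
.lip 1 48 112 64,
.part [64, 180, 9, 2] [0, 1, 0, 0] [] [],
.part [128, 108, 18, 1] [0, 1, 0, 0] [] [],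
.ab2 3 5,
.lip 0 6 62 56,
.part [3, 184, 4, 64] [0, 1, 0, 0] [] [],
.part [185, 2, 4, 64] [1, 0, 0, 0] [] [],
.part [195, 20, 32, 8] [1, 0, 0, 0] [] [],
.part [64, 151, 40, 0] [0, 1, 0, 0] [] [],
.part [32, 8, 16, 199] [0, 0, 0, 1] [] [],
.part [64, 18, 128, 33] [0, 0, 0, 0] [] [(2, 12)],
.l2 3 144 192 7 1 2,
.ab2 2 18,
.part [64, 4, 169, 18] [0, 0, 1, 0] [] [],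
.mono 1 1 5 1,
.part [197, 18, 32, 8] [1, 0, 0, 0] [] [],
.l2 2 12 36 2 1 1,
.part [64, 20, 128, 9] [0, 0, 0, 0] [] [(2, 34)],
.lipl 2 16 25 0 9,
.lip 1 3 59 56,
.l2 1 12 20 2 1 1,
.part [9, 36, 208, 2] [0, 0, 1, 0] [] [],
.part [64, 62, 1, 128] [0, 1, 0, 0] [] [],
.lipl 1 18 54 1 36,
.hall [0] [1, 2, 6, 7],
.part [9, 20, 128, 64] [0, 0, 0, 0] [] [(1, 34)],
.part [1, 130, 16, 68] [0, 0, 0, 0] [40] [],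
.part [128, 31, 32, 64] [0, 1, 0, 0] [] [],
.lipl 2 20 54 3 34,
.part [64, 16, 36, 10] [0, 0, 0, 0] [] [(0, 129)],
.part [16, 71, 128, 40] [0, 1, 0, 0] [] [],
.part [9, 2, 20, 64] [0, 0, 0, 0] [] [(2, 160)],
.ordE 0 128 2,
.join 0 1 1 2 1 1 [(0, 0)],
.part [57, 128, 6, 64] [1, 0, 0, 0] [] [],
.hall [2] [3, 4, 5, 6],
.join 3 2 2 4 2 2 [(1, 0)],
.ab2 0 40,
.lipl 2 20 53 3 33,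
.part [128, 59, 4, 64] [0, 1, 0, 0] [] [],
.part [195, 20, 8, 32] [1, 0, 0, 0] [] [],
.part [64, 18, 128, 33] [0, 0, 0, 0] [] [(3, 12)],
.part [8, 20, 160, 67] [0, 0, 0, 1] [] [],
.lipl 0 1 73 2 72,
.part [64, 133, 10, 48] [0, 1, 0, 0] [] [],
.part [64, 162, 12, 17] [0, 1, 0, 0] [] [],
.ordE 3 64 3,
.lip 1 129 169 56,
.part [65, 12, 16, 34] [0, 0, 0, 0] [128] [],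
.ordE 1 16 2,
.join 0 16 6 2 1 1 [(4, 0)],
.join 0 4 6 2 1 1 [(2, 0)],
.part [65, 2, 184, 4] [0, 0, 1, 0] [] [],
.ordE 1 4 2,
.part [1, 132, 18, 104] [0, 0, 0, 1] [] [],
.part [16, 32, 8, 199] [0, 0, 0, 1] [] [],
.le 1 130 128 7 2,
.part [16, 143, 64, 32] [0, 1, 0, 0] [] [],
.l2 0 6 10 1 1 1,
.part [10, 16, 197, 32] [0, 0, 1, 0] [] [],
.part [1, 132, 26, 96] [0, 0, 1, 0] [] [],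
.part [12, 147, 32, 64] [0, 1, 0, 0] [] [],
.part [128, 8, 23, 96] [0, 0, 1, 0] [] [],
.l2 2 3 17 0 1 1,
.part [128, 10, 17, 100] [0, 0, 0, 1] [] [],
.part [64, 12, 178, 1] [0, 0, 1, 0] [] [],
.part [9, 20, 194, 32] [0, 0, 1, 0] [] [],
.part [64, 4, 3, 184] [0, 0, 0, 1] [] [],
.lipl 0 64 84 1 20,
.deg 4 [2, 1, 0, 0],
.lipl 2 12 108 2 96,
.hall [0, 2] [0, 1, 2],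
.join 0 8 7 2 2 0 [(3, 0)],
.part [128, 12, 33, 2] [0, 0, 0, 0] [] [(1, 80)],
.deg 1 [1, 1, 0, 1],
.lip 2 130 178 56,
.join 3 16 6 3 0 3 [(4, 0)],
.part [64, 15, 128, 48] [0, 1, 0, 0] [] [],
.part [16, 34, 136, 69] [0, 0, 0, 1] [] [],
.lip 1 160 167 7,
.ordE 1 16 1,
.join 0 32 6 2 1 1 [(5, 0)],
.mono 1 1 65 1,
.join 2 16 7 2 0 2 [(4, 0)],
.part [128, 10, 113, 4] [0, 0, 1, 0] [] [],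
.lip 0 64 120 56,
.part [64, 20, 128, 34] [0, 0, 0, 0] [] [(0, 9)],
.lipl 0 64 200 2 136,
.part [33, 154, 4, 64] [0, 1, 0, 0] [] [],
.part [128, 33, 10, 16] [0, 0, 0, 0] [] [(1, 68)],
.lip 1 32 96 64,
.part [69, 160, 10, 16] [1, 0, 0, 0] [] [],
.l2 3 33 65 0 2 1,
.part [64, 47, 16, 128] [0, 1, 0, 0] [] [],
.part [73, 34, 128, 20] [1, 0, 0, 0] [] [],
.part [5, 2, 128, 120] [0, 0, 0, 1] [] [],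
.join 3 8 6 3 2 1 [(3, 0)]]

noncomputable def gads : List Gt := [
⟨2, [⟨16, 2, []⟩, ⟨160, 2, []⟩], [3, 3, 3], 1, [(48, 1), (144, 1)]⟩,
⟨1, [⟨33, 2, []⟩, ⟨6, 2, []⟩], [3, 3, 3], 1, [(3, 1), (5, 1), (34, 1), (36, 1)]⟩,
⟨3, [⟨32, 3, []⟩, ⟨80, 3, []⟩], [3, 3], 1, [(48, 1), (96, 1)]⟩,
⟨0, [⟨72, 2, []⟩, ⟨17, 2, []⟩], [3, 3, 3], 1, [(9, 1), (24, 1), (65, 1), (80, 1)]⟩,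
⟨0, [⟨1, 2, []⟩, ⟨136, 2, []⟩], [3, 3, 3], 1, [(9, 1), (129, 1)]⟩,
⟨0, [⟨9, 2, []⟩, ⟨64, 2, []⟩], [3, 3, 3], 1, [(65, 1), (72, 1)]⟩,
⟨3, [⟨8, 4, []⟩, ⟨128, 2, []⟩], [3, 2, 2], 1, [(136, 1)]⟩,
⟨2, [⟨32, 2, []⟩, ⟨132, 2, []⟩], [3, 3, 3], 1, [(36, 1), (160, 1)]⟩,
⟨2, [⟨16, 2, []⟩, ⟨32, 2, []⟩], [3, 3, 3], 1, [(48, 1)]⟩,
⟨0, [⟨8, 2, []⟩, ⟨64, 2, []⟩], [3, 3, 3], 1, [(72, 1)]⟩,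
⟨3, [⟨32, 2, []⟩, ⟨192, 4, []⟩], [3, 1, 1], 1, [(96, 1), (160, 1)]⟩,
⟨1, [⟨160, 2, []⟩, ⟨18, 2, []⟩], [3, 3, 3], 1, [(34, 1), (48, 1), (130, 1), (144, 1)]⟩,
⟨2, [⟨16, 2, []⟩, ⟨132, 2, []⟩], [3, 3, 3], 1, [(20, 1), (144, 1)]⟩,
⟨0, [⟨9, 2, []⟩, ⟨48, 2, []⟩], [3, 3, 3], 1, [(17, 1), (24, 1), (33, 1), (40, 1)]⟩,
⟨2, [⟨16, 2, []⟩, ⟨192, 2, []⟩], [3, 3, 3], 1, [(80, 1), (144, 1)]⟩,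
⟨0, [⟨9, 2, []⟩, ⟨6, 2, []⟩], [3, 3, 3], 1, [(3, 1), (5, 1), (10, 1), (12, 1)]⟩,
⟨3, [⟨1, 3, []⟩, ⟨66, 3, []⟩], [3, 3], 1, [(3, 1), (65, 1)]⟩,
⟨0, [⟨24, 2, []⟩, ⟨96, 2, []⟩], [3, 3, 3], 1, [(40, 1), (48, 1), (72, 1), (80, 1)]⟩,
⟨3, [⟨8, 3, []⟩, ⟨144, 3, []⟩], [3, 3], 1, [(24, 1), (136, 1)]⟩,
⟨1, [⟨2, 2, []⟩, ⟨132, 2, []⟩], [3, 3, 3], 1, [(6, 1), (130, 1)]⟩,
⟨2, [⟨36, 2, []⟩, ⟨128, 2, []⟩], [3, 3, 3], 1, [(132, 1), (160, 1)]⟩,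
⟨0, [⟨1, 2, []⟩, ⟨128, 2, []⟩], [3, 3, 3], 1, [(129, 1)]⟩,
⟨3, [⟨16, 4, []⟩, ⟨64, 2, []⟩], [3, 2, 2], 1, [(80, 1)]⟩,
⟨1, [⟨8, 2, []⟩, ⟨192, 2, []⟩], [3, 3, 3], 1, [(72, 1), (136, 1)]⟩,
⟨3, [⟨2, 4, []⟩, ⟨64, 2, []⟩], [3, 2, 2], 1, [(66, 1)]⟩,
⟨2, [⟨136, 2, []⟩, ⟨34, 2, []⟩], [3, 3, 3], 1, [(10, 1), (40, 1), (130, 1), (160, 1)]⟩,
⟨2, [⟨2, 2, []⟩, ⟨80, 2, []⟩], [3, 3, 3], 1, [(18, 1), (66, 1)]⟩,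
⟨3, [⟨2, 2, []⟩, ⟨4, 4, []⟩], [3, 1, 1], 1, [(6, 1)]⟩,
⟨1, [⟨8, 2, []⟩, ⟨68, 2, []⟩], [3, 3, 3], 1, [(12, 1), (72, 1)]⟩,
⟨1, [⟨2, 2, []⟩, ⟨80, 2, []⟩], [3, 3, 3], 1, [(18, 1), (66, 1)]⟩,
⟨3, [⟨40, 4, []⟩, ⟨2, 2, []⟩], [3, 2, 2], 1, [(10, 1), (34, 1)]⟩,
⟨1, [⟨2, 2, []⟩, ⟨8, 2, []⟩], [3, 3, 3], 1, [(10, 1)]⟩,
⟨1, [⟨8, 2, []⟩, ⟨96, 2, []⟩], [3, 3, 3], 1, [(40, 1), (72, 1)]⟩,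
⟨1, [⟨1, 2, []⟩, ⟨144, 2, []⟩], [3, 3, 3], 1, [(17, 1), (129, 1)]⟩,
⟨2, [⟨2, 3, []⟩, ⟨4, 3, []⟩], [3, 3], 1, [(6, 1)]⟩,
⟨1, [⟨8, 2, []⟩, ⟨66, 2, []⟩], [3, 3, 3], 1, [(10, 1), (72, 1)]⟩,
⟨1, [⟨5, 2, []⟩, ⟨16, 2, []⟩], [3, 3, 3], 1, [(17, 1), (20, 1)]⟩,
⟨1, [⟨3, 2, []⟩, ⟨128, 2, []⟩], [3, 3, 3], 1, [(129, 1), (130, 1)]⟩,
⟨1, [⟨17, 2, []⟩, ⟨32, 2, []⟩], [3, 3, 3], 1, [(33, 1), (48, 1)]⟩,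
⟨3, [⟨2, 3, []⟩, ⟨8, 3, []⟩], [3, 3], 1, [(10, 1)]⟩,
⟨2, [⟨1, 2, []⟩, ⟨8, 2, []⟩], [3, 3, 3], 1, [(9, 1)]⟩,
⟨2, [⟨12, 2, []⟩, ⟨2, 2, []⟩], [3, 3, 3], 1, [(6, 1), (10, 1)]⟩,
⟨2, [⟨18, 2, []⟩, ⟨4, 2, []⟩], [3, 3, 3], 1, [(6, 1), (20, 1)]⟩,
⟨1, [⟨5, 2, []⟩, ⟨130, 2, []⟩], [3, 3, 3], 1, [(3, 1), (6, 1), (129, 1), (132, 1)]⟩,
⟨2, [⟨1, 3, []⟩, ⟨128, 3, []⟩], [3, 3], 1, [(129, 1)]⟩,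
⟨0, [⟨144, 2, []⟩, ⟨64, 2, []⟩], [3, 3, 3], 1, [(80, 1), (192, 1)]⟩,
⟨2, [⟨2, 2, []⟩, ⟨192, 2, []⟩], [3, 3, 3], 1, [(66, 1), (130, 1)]⟩,
⟨1, [⟨8, 2, []⟩, ⟨16, 2, []⟩], [3, 3, 3], 1, [(24, 1)]⟩,
⟨2, [⟨72, 2, []⟩, ⟨128, 2, []⟩], [3, 3, 3], 1, [(136, 1), (192, 1)]⟩,
⟨3, [⟨64, 3, []⟩, ⟨128, 3, []⟩], [3, 3], 1, [(192, 1)]⟩,
⟨2, [⟨4, 2, []⟩, ⟨136, 2, []⟩], [3, 3, 3], 1, [(12, 1), (132, 1)]⟩,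
⟨2, [⟨48, 2, []⟩, ⟨2, 2, []⟩], [3, 3, 3], 1, [(18, 1), (34, 1)]⟩,
⟨3, [⟨4, 3, []⟩, ⟨33, 3, []⟩], [3, 3], 1, [(5, 1), (36, 1)]⟩,
⟨0, [⟨48, 2, []⟩, ⟨136, 2, []⟩], [3, 3, 3], 1, [(24, 1), (40, 1), (144, 1), (160, 1)]⟩,
⟨1, [⟨32, 2, []⟩, ⟨128, 2, []⟩], [3, 3, 3], 1, [(160, 1)]⟩,
⟨1, [⟨2, 2, []⟩, ⟨65, 2, []⟩], [3, 3, 3], 1, [(3, 1), (66, 1)]⟩,
⟨3, [⟨2, 2, []⟩, ⟨1, 4, []⟩], [3, 1, 1], 1, [(3, 1)]⟩,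
⟨3, [⟨12, 3, []⟩, ⟨64, 3, []⟩], [3, 3], 1, [(68, 1), (72, 1)]⟩,
⟨3, [⟨32, 3, []⟩, ⟨12, 3, []⟩], [3, 3], 1, [(36, 1), (40, 1)]⟩,
⟨3, [⟨24, 3, []⟩, ⟨128, 3, []⟩], [3, 3], 1, [(136, 1), (144, 1)]⟩,
⟨3, [⟨16, 2, []⟩, ⟨8, 4, []⟩], [3, 1, 1], 1, [(24, 1)]⟩,
⟨2, [⟨32, 2, []⟩, ⟨136, 2, []⟩], [3, 3, 3], 1, [(40, 1), (160, 1)]⟩,
⟨1, [⟨9, 2, []⟩, ⟨16, 2, []⟩], [3, 3, 3], 1, [(17, 1), (24, 1)]⟩,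
⟨3, [⟨32, 4, []⟩, ⟨64, 2, []⟩], [3, 2, 2], 1, [(96, 1)]⟩,
⟨3, [⟨33, 3, []⟩, ⟨64, 3, []⟩], [3, 3], 1, [(65, 1), (96, 1)]⟩,
⟨1, [⟨34, 2, []⟩, ⟨4, 2, []⟩], [3, 3, 3], 1, [(6, 1), (36, 1)]⟩,
⟨3, [⟨4, 3, []⟩, ⟨16, 3, []⟩], [3, 3], 1, [(20, 1)]⟩,
⟨2, [⟨8, 2, []⟩, ⟨65, 2, []⟩], [3, 3, 3], 1, [(9, 1), (72, 1)]⟩,
⟨3, [⟨10, 3, []⟩, ⟨64, 3, []⟩], [3, 3], 1, [(66, 1), (72, 1)]⟩,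
⟨1, [⟨6, 2, []⟩, ⟨8, 2, []⟩], [3, 3, 3], 1, [(10, 1), (12, 1)]⟩,
⟨1, [⟨32, 3, []⟩, ⟨128, 3, []⟩], [3, 3], 1, [(160, 1)]⟩,
⟨2, [⟨17, 2, []⟩, ⟨8, 2, []⟩], [3, 3, 3], 1, [(9, 1), (24, 1)]⟩,
⟨1, [⟨136, 2, []⟩, ⟨20, 2, []⟩], [3, 3, 3], 1, [(12, 1), (24, 1), (132, 1), (144, 1)]⟩,
⟨2, [⟨32, 2, []⟩, ⟨192, 2, []⟩], [3, 3, 3], 1, [(96, 1), (160, 1)]⟩,
⟨2, [⟨24, 2, []⟩, ⟨160, 2, []⟩], [3, 3, 3], 1, [(40, 1), (48, 1), (136, 1), (144, 1)]⟩,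
⟨2, [⟨10, 2, []⟩, ⟨20, 2, []⟩], [3, 3, 3], 1, [(6, 1), (12, 1), (18, 1), (24, 1)]⟩,
⟨2, [⟨34, 2, []⟩, ⟨16, 2, []⟩], [3, 3, 3], 1, [(18, 1), (48, 1)]⟩,
⟨2, [⟨8, 2, []⟩, ⟨129, 2, []⟩], [3, 3, 3], 1, [(9, 1), (136, 1)]⟩,
⟨1, [⟨12, 2, []⟩, ⟨1, 2, []⟩], [3, 3, 3], 1, [(5, 1), (9, 1)]⟩,
⟨2, [⟨32, 2, []⟩, ⟨80, 2, []⟩], [3, 3, 3], 1, [(48, 1), (96, 1)]⟩,
⟨0, [⟨33, 2, []⟩, ⟨64, 2, []⟩], [3, 3, 3], 1, [(65, 1), (96, 1)]⟩,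
⟨2, [⟨16, 2, []⟩, ⟨64, 2, []⟩], [3, 3, 3], 1, [(80, 1)]⟩,
⟨3, [⟨1, 4, []⟩, ⟨128, 2, []⟩], [3, 2, 2], 1, [(129, 1)]⟩,
⟨1, [⟨33, 2, []⟩, ⟨16, 2, []⟩], [3, 3, 3], 1, [(17, 1), (48, 1)]⟩,
⟨1, [⟨20, 2, []⟩, ⟨40, 2, []⟩], [3, 3, 3], 1, [(12, 1), (24, 1), (36, 1), (48, 1)]⟩,
⟨3, [⟨24, 3, []⟩, ⟨64, 3, []⟩], [3, 3], 1, [(72, 1), (80, 1)]⟩,
⟨2, [⟨32, 2, []⟩, ⟨64, 2, []⟩], [3, 3, 3], 1, [(96, 1)]⟩,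
⟨3, [⟨9, 4, []⟩, ⟨32, 2, []⟩], [3, 2, 2], 1, [(33, 1), (40, 1)]⟩,
⟨2, [⟨5, 2, []⟩, ⟨32, 2, []⟩], [3, 3, 3], 1, [(33, 1), (36, 1)]⟩,
⟨1, [⟨4, 2, []⟩, ⟨96, 2, []⟩], [3, 3, 3], 1, [(36, 1), (68, 1)]⟩,
⟨1, [⟨9, 2, []⟩, ⟨20, 2, []⟩], [3, 3, 3], 1, [(5, 1), (12, 1), (17, 1), (24, 1)]⟩,
⟨2, [⟨9, 2, []⟩, ⟨6, 2, []⟩], [3, 3, 3], 1, [(3, 1), (5, 1), (10, 1), (12, 1)]⟩,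
⟨1, [⟨2, 2, []⟩, ⟨4, 4, []⟩], [3, 1, 1], 1, [(6, 1)]⟩,
⟨2, [⟨2, 2, []⟩, ⟨32, 2, []⟩], [3, 3, 3], 1, [(34, 1)]⟩,
⟨2, [⟨3, 2, []⟩, ⟨8, 2, []⟩], [3, 3, 3], 1, [(9, 1), (10, 1)]⟩,
⟨1, [⟨12, 2, []⟩, ⟨48, 2, []⟩], [3, 3, 3], 1, [(20, 1), (24, 1), (36, 1), (40, 1)]⟩,
⟨2, [⟨4, 2, []⟩, ⟨129, 2, []⟩], [3, 3, 3], 1, [(5, 1), (132, 1)]⟩,
⟨1, [⟨8, 2, []⟩, ⟨65, 2, []⟩], [3, 3, 3], 1, [(9, 1), (72, 1)]⟩,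
⟨0, [⟨1, 2, []⟩, ⟨8, 2, []⟩], [3, 3, 3], 1, [(9, 1)]⟩,
⟨2, [⟨1, 2, []⟩, ⟨130, 2, []⟩], [3, 3, 3], 1, [(3, 1), (129, 1)]⟩,
⟨3, [⟨1, 3, []⟩, ⟨4, 3, []⟩], [3, 3], 1, [(5, 1)]⟩,
⟨1, [⟨4, 2, []⟩, ⟨129, 2, []⟩], [3, 3, 3], 1, [(5, 1), (132, 1)]⟩,
⟨2, [⟨2, 4, []⟩, ⟨8, 2, []⟩], [3, 2, 2], 1, [(10, 1)]⟩,
⟨2, [⟨6, 2, []⟩, ⟨128, 2, []⟩], [3, 3, 3], 1, [(130, 1), (132, 1)]⟩,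
⟨2, [⟨8, 2, []⟩, ⟨160, 2, []⟩], [3, 3, 3], 1, [(40, 1), (136, 1)]⟩,
⟨1, [⟨48, 2, []⟩, ⟨136, 2, []⟩], [3, 3, 3], 1, [(24, 1), (40, 1), (144, 1), (160, 1)]⟩,
⟨2, [⟨1, 3, []⟩, ⟨8, 3, []⟩], [3, 3], 1, [(9, 1)]⟩,
⟨1, [⟨1, 2, []⟩, ⟨132, 2, []⟩], [3, 3, 3], 1, [(5, 1), (129, 1)]⟩,
⟨3, [⟨2, 3, []⟩, ⟨17, 3, []⟩], [3, 3], 1, [(3, 1), (18, 1)]⟩,
⟨3, [⟨32, 3, []⟩, ⟨10, 3, []⟩], [3, 3], 1, [(34, 1), (40, 1)]⟩,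
⟨3, [⟨66, 4, []⟩, ⟨128, 2, []⟩], [3, 2, 2], 1, [(130, 1), (192, 1)]⟩,
⟨2, [⟨1, 2, []⟩, ⟨66, 2, []⟩], [3, 3, 3], 1, [(3, 1), (65, 1)]⟩,
⟨0, [⟨136, 2, []⟩, ⟨64, 2, []⟩], [3, 3, 3], 1, [(72, 1), (192, 1)]⟩,
⟨3, [⟨4, 3, []⟩, ⟨32, 3, []⟩], [3, 3], 1, [(36, 1)]⟩,
⟨3, [⟨17, 4, []⟩, ⟨4, 2, []⟩], [3, 2, 2], 1, [(5, 1), (20, 1)]⟩,
⟨2, [⟨17, 2, []⟩, ⟨2, 2, []⟩], [3, 3, 3], 1, [(3, 1), (18, 1)]⟩,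
⟨2, [⟨16, 4, []⟩, ⟨2, 2, []⟩], [3, 2, 2], 1, [(18, 1)]⟩,
⟨3, [⟨32, 2, []⟩, ⟨16, 4, []⟩], [3, 1, 1], 1, [(48, 1)]⟩,
⟨3, [⟨2, 4, []⟩, ⟨8, 2, []⟩], [3, 2, 2], 1, [(10, 1)]⟩,
⟨3, [⟨17, 4, []⟩, ⟨2, 2, []⟩], [3, 2, 2], 1, [(3, 1), (18, 1)]⟩,
⟨2, [⟨32, 2, []⟩, ⟨72, 2, []⟩], [3, 3, 3], 1, [(40, 1), (96, 1)]⟩,
⟨3, [⟨3, 4, []⟩, ⟨32, 2, []⟩], [3, 2, 2], 1, [(33, 1), (34, 1)]⟩,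
⟨1, [⟨144, 2, []⟩, ⟨36, 2, []⟩], [3, 3, 3], 1, [(20, 1), (48, 1), (132, 1), (160, 1)]⟩,
⟨3, [⟨40, 4, []⟩, ⟨4, 2, []⟩], [3, 2, 2], 1, [(12, 1), (36, 1)]⟩,
⟨2, [⟨8, 2, []⟩, ⟨144, 2, []⟩], [3, 3, 3], 1, [(24, 1), (136, 1)]⟩,
⟨1, [⟨96, 2, []⟩, ⟨12, 2, []⟩], [3, 3, 3], 1, [(36, 1), (40, 1), (68, 1), (72, 1)]⟩,
⟨3, [⟨4, 2, []⟩, ⟨1, 4, []⟩], [3, 1, 1], 1, [(5, 1)]⟩,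
⟨0, [⟨8, 2, []⟩, ⟨96, 2, []⟩], [3, 3, 3], 1, [(40, 1), (72, 1)]⟩,
⟨1, [⟨130, 2, []⟩, ⟨36, 2, []⟩], [3, 3, 3], 1, [(6, 1), (34, 1), (132, 1), (160, 1)]⟩,
⟨1, [⟨33, 2, []⟩, ⟨8, 2, []⟩], [3, 3, 3], 1, [(9, 1), (40, 1)]⟩,
⟨3, [⟨2, 4, []⟩, ⟨16, 2, []⟩], [3, 2, 2], 1, [(18, 1)]⟩,
⟨3, [⟨16, 4, []⟩, ⟨2, 2, []⟩], [3, 2, 2], 1, [(18, 1)]⟩,
⟨1, [⟨2, 4, []⟩, ⟨128, 2, []⟩], [3, 2, 2], 1, [(130, 1)]⟩,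
⟨2, [⟨36, 2, []⟩, ⟨16, 2, []⟩], [3, 3, 3], 1, [(20, 1), (48, 1)]⟩,
⟨1, [⟨4, 2, []⟩, ⟨65, 2, []⟩], [3, 3, 3], 1, [(5, 1), (68, 1)]⟩,
⟨2, [⟨8, 2, []⟩, ⟨132, 2, []⟩], [3, 3, 3], 1, [(12, 1), (136, 1)]⟩,
⟨2, [⟨8, 2, []⟩, ⟨68, 2, []⟩], [3, 3, 3], 1, [(12, 1), (72, 1)]⟩,
⟨1, [⟨16, 2, []⟩, ⟨32, 2, []⟩], [3, 3, 3], 1, [(48, 1)]⟩,
⟨1, [⟨34, 2, []⟩, ⟨128, 2, []⟩], [3, 3, 3], 1, [(130, 1), (160, 1)]⟩,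
⟨1, [⟨2, 2, []⟩, ⟨129, 2, []⟩], [3, 3, 3], 1, [(3, 1), (130, 1)]⟩,
⟨1, [⟨16, 2, []⟩, ⟨66, 2, []⟩], [3, 3, 3], 1, [(18, 1), (80, 1)]⟩,
⟨1, [⟨32, 2, []⟩, ⟨80, 2, []⟩], [3, 3, 3], 1, [(48, 1), (96, 1)]⟩,
⟨3, [⟨34, 3, []⟩, ⟨64, 3, []⟩], [3, 3], 1, [(66, 1), (96, 1)]⟩,
⟨1, [⟨8, 4, []⟩, ⟨4, 2, []⟩], [3, 2, 2], 1, [(12, 1)]⟩,
⟨3, [⟨2, 3, []⟩, ⟨65, 3, []⟩], [3, 3], 1, [(3, 1), (66, 1)]⟩,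
⟨0, [⟨8, 2, []⟩, ⟨144, 2, []⟩], [3, 3, 3], 1, [(24, 1), (136, 1)]⟩,
⟨3, [⟨2, 2, []⟩, ⟨128, 4, []⟩], [3, 1, 1], 1, [(130, 1)]⟩,
⟨3, [⟨1, 3, []⟩, ⟨64, 3, []⟩], [3, 3], 1, [(65, 1)]⟩,
⟨2, [⟨18, 2, []⟩, ⟨8, 2, []⟩], [3, 3, 3], 1, [(10, 1), (24, 1)]⟩,
⟨1, [⟨20, 2, []⟩, ⟨32, 2, []⟩], [3, 3, 3], 1, [(36, 1), (48, 1)]⟩,
⟨0, [⟨6, 2, []⟩, ⟨64, 2, []⟩], [3, 3, 3], 1, [(66, 1), (68, 1)]⟩,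
⟨1, [⟨16, 2, []⟩, ⟨136, 2, []⟩], [3, 3, 3], 1, [(24, 1), (144, 1)]⟩,
⟨1, [⟨32, 4, []⟩, ⟨2, 2, []⟩], [3, 2, 2], 1, [(34, 1)]⟩,
⟨2, [⟨4, 2, []⟩, ⟨32, 2, []⟩], [3, 3, 3], 1, [(36, 1)]⟩,
⟨0, [⟨1, 2, []⟩, ⟨32, 2, []⟩], [3, 3, 3], 1, [(33, 1)]⟩,
⟨3, [⟨1, 2, []⟩, ⟨4, 4, []⟩], [3, 1, 1], 1, [(5, 1)]⟩,
⟨3, [⟨10, 4, []⟩, ⟨1, 2, []⟩], [3, 2, 2], 1, [(3, 1), (9, 1)]⟩,
⟨0, [⟨17, 2, []⟩, ⟨40, 2, []⟩], [3, 3, 3], 1, [(9, 1), (24, 1), (33, 1), (48, 1)]⟩,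
⟨1, [⟨66, 2, []⟩, ⟨128, 2, []⟩], [3, 3, 3], 1, [(130, 1), (192, 1)]⟩,
⟨2, [⟨2, 2, []⟩, ⟨8, 2, []⟩], [3, 3, 3], 1, [(10, 1)]⟩,
⟨3, [⟨12, 4, []⟩, ⟨1, 2, []⟩], [3, 2, 2], 1, [(5, 1), (9, 1)]⟩,
⟨2, [⟨144, 2, []⟩, ⟨34, 2, []⟩], [3, 3, 3], 1, [(18, 1), (48, 1), (130, 1), (160, 1)]⟩,
⟨2, [⟨32, 4, []⟩, ⟨128, 2, []⟩], [3, 2, 2], 1, [(160, 1)]⟩,
⟨3, [⟨16, 2, []⟩, ⟨128, 4, []⟩], [3, 1, 1], 1, [(144, 1)]⟩,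
⟨2, [⟨16, 2, []⟩, ⟨128, 2, []⟩], [3, 3, 3], 1, [(144, 1)]⟩,
⟨2, [⟨36, 2, []⟩, ⟨1, 2, []⟩], [3, 3, 3], 1, [(5, 1), (33, 1)]⟩,
⟨2, [⟨1, 2, []⟩, ⟨16, 2, []⟩], [3, 3, 3], 1, [(17, 1)]⟩,
⟨3, [⟨1, 2, []⟩, ⟨2, 4, []⟩], [3, 1, 1], 1, [(3, 1)]⟩,
⟨3, [⟨20, 4, []⟩, ⟨8, 2, []⟩], [3, 2, 2], 1, [(12, 1), (24, 1)]⟩,
⟨0, [⟨10, 2, []⟩, ⟨1, 2, []⟩], [3, 3, 3], 1, [(3, 1), (9, 1)]⟩,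
⟨2, [⟨16, 2, []⟩, ⟨96, 2, []⟩], [3, 3, 3], 1, [(48, 1), (80, 1)]⟩,
⟨3, [⟨4, 3, []⟩, ⟨129, 3, []⟩], [3, 3], 1, [(5, 1), (132, 1)]⟩,
⟨2, [⟨4, 2, []⟩, ⟨80, 2, []⟩], [3, 3, 3], 1, [(20, 1), (68, 1)]⟩,
⟨3, [⟨20, 3, []⟩, ⟨64, 3, []⟩], [3, 3], 1, [(68, 1), (80, 1)]⟩,
⟨3, [⟨32, 4, []⟩, ⟨2, 2, []⟩], [3, 2, 2], 1, [(34, 1)]⟩,
⟨2, [⟨4, 2, []⟩, ⟨65, 2, []⟩], [3, 3, 3], 1, [(5, 1), (68, 1)]⟩,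
⟨2, [⟨17, 2, []⟩, ⟨32, 2, []⟩], [3, 3, 3], 1, [(33, 1), (48, 1)]⟩,
⟨1, [⟨20, 2, []⟩, ⟨8, 2, []⟩], [3, 3, 3], 1, [(12, 1), (24, 1)]⟩,
⟨2, [⟨20, 2, []⟩, ⟨1, 2, []⟩], [3, 3, 3], 1, [(5, 1), (17, 1)]⟩,
⟨1, [⟨12, 2, []⟩, ⟨16, 2, []⟩], [3, 3, 3], 1, [(20, 1), (24, 1)]⟩,
⟨2, [⟨32, 2, []⟩, ⟨65, 2, []⟩], [3, 3, 3], 1, [(33, 1), (96, 1)]⟩,
⟨3, [⟨2, 3, []⟩, ⟨9, 3, []⟩], [3, 3], 1, [(3, 1), (10, 1)]⟩,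
⟨0, [⟨1, 2, []⟩, ⟨130, 2, []⟩], [3, 3, 3], 1, [(3, 1), (129, 1)]⟩,
⟨2, [⟨32, 2, []⟩, ⟨68, 2, []⟩], [3, 3, 3], 1, [(36, 1), (96, 1)]⟩,
⟨0, [⟨5, 2, []⟩, ⟨64, 2, []⟩], [3, 3, 3], 1, [(65, 1), (68, 1)]⟩,
⟨0, [⟨17, 2, []⟩, ⟨10, 2, []⟩], [3, 3, 3], 1, [(3, 1), (9, 1), (18, 1), (24, 1)]⟩,
⟨1, [⟨16, 3, []⟩, ⟨128, 3, []⟩], [3, 3], 1, [(144, 1)]⟩,
⟨1, [⟨18, 2, []⟩, ⟨8, 2, []⟩], [3, 3, 3], 1, [(10, 1), (24, 1)]⟩,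
⟨3, [⟨4, 3, []⟩, ⟨65, 3, []⟩], [3, 3], 1, [(5, 1), (68, 1)]⟩,
⟨3, [⟨32, 3, []⟩, ⟨64, 3, []⟩], [3, 3], 1, [(96, 1)]⟩,
⟨0, [⟨8, 2, []⟩, ⟨192, 2, []⟩], [3, 3, 3], 1, [(72, 1), (136, 1)]⟩,
⟨3, [⟨4, 2, []⟩, ⟨2, 4, []⟩], [3, 1, 1], 1, [(6, 1)]⟩,
⟨3, [⟨4, 3, []⟩, ⟨64, 3, []⟩], [3, 3], 1, [(68, 1)]⟩,
⟨3, [⟨32, 3, []⟩, ⟨136, 3, []⟩], [3, 3], 1, [(40, 1), (160, 1)]⟩,
⟨1, [⟨4, 2, []⟩, ⟨192, 2, []⟩], [3, 3, 3], 1, [(68, 1), (132, 1)]⟩,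
⟨2, [⟨66, 2, []⟩, ⟨128, 2, []⟩], [3, 3, 3], 1, [(130, 1), (192, 1)]⟩,
⟨2, [⟨18, 2, []⟩, ⟨128, 2, []⟩], [3, 3, 3], 1, [(130, 1), (144, 1)]⟩,
⟨3, [⟨4, 2, []⟩, ⟨128, 4, []⟩], [3, 1, 1], 1, [(132, 1)]⟩,
⟨2, [⟨32, 2, []⟩, ⟨130, 2, []⟩], [3, 3, 3], 1, [(34, 1), (160, 1)]⟩,
⟨0, [⟨8, 2, []⟩, ⟨128, 2, []⟩], [3, 3, 3], 1, [(136, 1)]⟩,
⟨1, [⟨9, 2, []⟩, ⟨32, 2, []⟩], [3, 3, 3], 1, [(33, 1), (40, 1)]⟩,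
⟨0, [⟨8, 2, []⟩, ⟨32, 2, []⟩], [3, 3, 3], 1, [(40, 1)]⟩,
⟨2, [⟨5, 2, []⟩, ⟨130, 2, []⟩], [3, 3, 3], 1, [(3, 1), (6, 1), (129, 1), (132, 1)]⟩,
⟨3, [⟨6, 4, []⟩, ⟨16, 2, []⟩], [3, 2, 2], 1, [(18, 1), (20, 1)]⟩,
⟨0, [⟨96, 2, []⟩, ⟨9, 2, []⟩], [3, 3, 3], 1, [(33, 1), (40, 1), (65, 1), (72, 1)]⟩,
⟨2, [⟨10, 2, []⟩, ⟨16, 2, []⟩], [3, 3, 3], 1, [(18, 1), (24, 1)]⟩,
⟨1, [⟨32, 2, []⟩, ⟨8, 4, []⟩], [3, 1, 1], 1, [(40, 1)]⟩,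
⟨0, [⟨130, 2, []⟩, ⟨64, 2, []⟩], [3, 3, 3], 1, [(66, 1), (192, 1)]⟩,
⟨1, [⟨36, 2, []⟩, ⟨1, 2, []⟩], [3, 3, 3], 1, [(5, 1), (33, 1)]⟩,
⟨1, [⟨33, 2, []⟩, ⟨2, 2, []⟩], [3, 3, 3], 1, [(3, 1), (34, 1)]⟩,
⟨0, [⟨16, 2, []⟩, ⟨128, 2, []⟩], [3, 3, 3], 1, [(144, 1)]⟩,
⟨2, [⟨20, 2, []⟩, ⟨32, 2, []⟩], [3, 3, 3], 1, [(36, 1), (48, 1)]⟩,
⟨1, [⟨24, 2, []⟩, ⟨160, 2, []⟩], [3, 3, 3], 1, [(40, 1), (48, 1), (136, 1), (144, 1)]⟩,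
⟨3, [⟨48, 3, []⟩, ⟨128, 3, []⟩], [3, 3], 1, [(144, 1), (160, 1)]⟩,
⟨1, [⟨32, 2, []⟩, ⟨64, 2, []⟩], [3, 3, 3], 1, [(96, 1)]⟩,
⟨2, [⟨3, 2, []⟩, ⟨16, 2, []⟩], [3, 3, 3], 1, [(17, 1), (18, 1)]⟩,
⟨3, [⟨32, 2, []⟩, ⟨8, 4, []⟩], [3, 1, 1], 1, [(40, 1)]⟩,
⟨2, [⟨8, 2, []⟩, ⟨192, 2, []⟩], [3, 3, 3], 1, [(72, 1), (136, 1)]⟩,
⟨2, [⟨4, 2, []⟩, ⟨192, 2, []⟩], [3, 3, 3], 1, [(68, 1), (132, 1)]⟩,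
⟨2, [⟨8, 2, []⟩, ⟨130, 2, []⟩], [3, 3, 3], 1, [(10, 1), (136, 1)]⟩,
⟨1, [⟨40, 2, []⟩, ⟨80, 2, []⟩], [3, 3, 3], 1, [(24, 1), (48, 1), (72, 1), (96, 1)]⟩,
⟨2, [⟨36, 2, []⟩, ⟨2, 2, []⟩], [3, 3, 3], 1, [(6, 1), (34, 1)]⟩,
⟨1, [⟨6, 2, []⟩, ⟨129, 2, []⟩], [3, 3, 3], 1, [(3, 1), (5, 1), (130, 1), (132, 1)]⟩,
⟨1, [⟨20, 2, []⟩, ⟨128, 2, []⟩], [3, 3, 3], 1, [(132, 1), (144, 1)]⟩,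
⟨1, [⟨4, 2, []⟩, ⟨160, 2, []⟩], [3, 3, 3], 1, [(36, 1), (132, 1)]⟩,
⟨1, [⟨4, 3, []⟩, ⟨128, 3, []⟩], [3, 3], 1, [(132, 1)]⟩,
⟨1, [⟨32, 2, []⟩, ⟨144, 2, []⟩], [3, 3, 3], 1, [(48, 1), (160, 1)]⟩,
⟨2, [⟨1, 2, []⟩, ⟨68, 2, []⟩], [3, 3, 3], 1, [(5, 1), (65, 1)]⟩,
⟨3, [⟨6, 3, []⟩, ⟨64, 3, []⟩], [3, 3], 1, [(66, 1), (68, 1)]⟩,
⟨2, [⟨6, 2, []⟩, ⟨129, 2, []⟩], [3, 3, 3], 1, [(3, 1), (5, 1), (130, 1), (132, 1)]⟩,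
⟨1, [⟨1, 2, []⟩, ⟨128, 2, []⟩], [3, 3, 3], 1, [(129, 1)]⟩,
⟨0, [⟨10, 2, []⟩, ⟨5, 2, []⟩], [3, 3, 3], 1, [(3, 1), (6, 1), (9, 1), (12, 1)]⟩,
⟨3, [⟨32, 2, []⟩, ⟨64, 4, []⟩], [3, 1, 1], 1, [(96, 1)]⟩,
⟨2, [⟨33, 2, []⟩, ⟨24, 2, []⟩], [3, 3, 3], 1, [(9, 1), (17, 1), (40, 1), (48, 1)]⟩,
⟨1, [⟨18, 2, []⟩, ⟨32, 2, []⟩], [3, 3, 3], 1, [(34, 1), (48, 1)]⟩,
⟨1, [⟨18, 2, []⟩, ⟨40, 2, []⟩], [3, 3, 3], 1, [(10, 1), (24, 1), (34, 1), (48, 1)]⟩,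
⟨1, [⟨16, 2, []⟩, ⟨128, 2, []⟩], [3, 3, 3], 1, [(144, 1)]⟩,
⟨0, [⟨9, 2, []⟩, ⟨18, 2, []⟩], [3, 3, 3], 1, [(3, 1), (10, 1), (17, 1), (24, 1)]⟩,
⟨0, [⟨144, 2, []⟩, ⟨9, 2, []⟩], [3, 3, 3], 1, [(17, 1), (24, 1), (129, 1), (136, 1)]⟩,
⟨1, [⟨32, 2, []⟩, ⟨66, 2, []⟩], [3, 3, 3], 1, [(34, 1), (96, 1)]⟩,
⟨3, [⟨16, 3, []⟩, ⟨10, 3, []⟩], [3, 3], 1, [(18, 1), (24, 1)]⟩,
⟨3, [⟨33, 4, []⟩, ⟨4, 2, []⟩], [3, 2, 2], 1, [(5, 1), (36, 1)]⟩,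
⟨3, [⟨12, 4, []⟩, ⟨16, 2, []⟩], [3, 2, 2], 1, [(20, 1), (24, 1)]⟩,
⟨2, [⟨4, 3, []⟩, ⟨16, 3, []⟩], [3, 3], 1, [(20, 1)]⟩,
⟨3, [⟨2, 3, []⟩, ⟨36, 3, []⟩], [3, 3], 1, [(6, 1), (34, 1)]⟩,
⟨2, [⟨3, 2, []⟩, ⟨128, 2, []⟩], [3, 3, 3], 1, [(129, 1), (130, 1)]⟩,
⟨1, [⟨34, 2, []⟩, ⟨8, 2, []⟩], [3, 3, 3], 1, [(10, 1), (40, 1)]⟩,
⟨2, [⟨8, 2, []⟩, ⟨128, 2, []⟩], [3, 3, 3], 1, [(136, 1)]⟩,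
⟨1, [⟨4, 2, []⟩, ⟨130, 2, []⟩], [3, 3, 3], 1, [(6, 1), (132, 1)]⟩,
⟨1, [⟨8, 4, []⟩, ⟨2, 2, []⟩], [3, 2, 2], 1, [(10, 1)]⟩,
⟨1, [⟨64, 2, []⟩, ⟨128, 2, []⟩], [3, 3, 3], 1, [(192, 1)]⟩,
⟨0, [⟨5, 2, []⟩, ⟨66, 2, []⟩], [3, 3, 3], 1, [(3, 1), (6, 1), (65, 1), (68, 1)]⟩,
⟨2, [⟨33, 2, []⟩, ⟨2, 2, []⟩], [3, 3, 3], 1, [(3, 1), (34, 1)]⟩,
⟨2, [⟨5, 2, []⟩, ⟨128, 2, []⟩], [3, 3, 3], 1, [(129, 1), (132, 1)]⟩,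
⟨1, [⟨20, 2, []⟩, ⟨2, 2, []⟩], [3, 3, 3], 1, [(6, 1), (18, 1)]⟩,
⟨1, [⟨48, 2, []⟩, ⟨72, 2, []⟩], [3, 3, 3], 1, [(24, 1), (40, 1), (80, 1), (96, 1)]⟩,
⟨0, [⟨5, 2, []⟩, ⟨128, 2, []⟩], [3, 3, 3], 1, [(129, 1), (132, 1)]⟩,
⟨0, [⟨1, 2, []⟩, ⟨64, 2, []⟩], [3, 3, 3], 1, [(65, 1)]⟩,
⟨2, [⟨144, 2, []⟩, ⟨36, 2, []⟩], [3, 3, 3], 1, [(20, 1), (48, 1), (132, 1), (160, 1)]⟩,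
⟨2, [⟨1, 3, []⟩, ⟨2, 3, []⟩], [3, 3], 1, [(3, 1)]⟩,
⟨2, [⟨16, 2, []⟩, ⟨136, 2, []⟩], [3, 3, 3], 1, [(24, 1), (144, 1)]⟩,
⟨2, [⟨130, 2, []⟩, ⟨20, 2, []⟩], [3, 3, 3], 1, [(6, 1), (18, 1), (132, 1), (144, 1)]⟩,
⟨2, [⟨18, 2, []⟩, ⟨1, 2, []⟩], [3, 3, 3], 1, [(3, 1), (17, 1)]⟩,
⟨2, [⟨130, 2, []⟩, ⟨33, 2, []⟩], [3, 3, 3], 1, [(3, 1), (34, 1), (129, 1), (160, 1)]⟩,
⟨2, [⟨1, 2, []⟩, ⟨128, 2, []⟩], [3, 3, 3], 1, [(129, 1)]⟩,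
⟨2, [⟨3, 2, []⟩, ⟨32, 2, []⟩], [3, 3, 3], 1, [(33, 1), (34, 1)]⟩,
⟨3, [⟨80, 4, []⟩, ⟨128, 2, []⟩], [3, 2, 2], 1, [(144, 1), (192, 1)]⟩,
⟨1, [⟨2, 2, []⟩, ⟨96, 2, []⟩], [3, 3, 3], 1, [(34, 1), (66, 1)]⟩,
⟨2, [⟨2, 2, []⟩, ⟨144, 2, []⟩], [3, 3, 3], 1, [(18, 1), (130, 1)]⟩,
⟨2, [⟨6, 2, []⟩, ⟨16, 2, []⟩], [3, 3, 3], 1, [(18, 1), (20, 1)]⟩,
⟨1, [⟨32, 2, []⟩, ⟨129, 2, []⟩], [3, 3, 3], 1, [(33, 1), (160, 1)]⟩,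
⟨0, [⟨160, 2, []⟩, ⟨64, 2, []⟩], [3, 3, 3], 1, [(96, 1), (192, 1)]⟩,
⟨1, [⟨1, 2, []⟩, ⟨64, 2, []⟩], [3, 3, 3], 1, [(65, 1)]⟩,
⟨3, [⟨136, 4, []⟩, ⟨64, 2, []⟩], [3, 2, 2], 1, [(72, 1), (192, 1)]⟩,
⟨2, [⟨1, 2, []⟩, ⟨136, 2, []⟩], [3, 3, 3], 1, [(9, 1), (129, 1)]⟩,
⟨1, [⟨2, 2, []⟩, ⟨72, 2, []⟩], [3, 3, 3], 1, [(10, 1), (66, 1)]⟩,
⟨3, [⟨144, 4, []⟩, ⟨64, 2, []⟩], [3, 2, 2], 1, [(80, 1), (192, 1)]⟩,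
⟨1, [⟨5, 2, []⟩, ⟨8, 2, []⟩], [3, 3, 3], 1, [(9, 1), (12, 1)]⟩,
⟨1, [⟨68, 2, []⟩, ⟨128, 2, []⟩], [3, 3, 3], 1, [(132, 1), (192, 1)]⟩,
⟨1, [⟨10, 2, []⟩, ⟨32, 2, []⟩], [3, 3, 3], 1, [(34, 1), (40, 1)]⟩,
⟨1, [⟨16, 2, []⟩, ⟨132, 2, []⟩], [3, 3, 3], 1, [(20, 1), (144, 1)]⟩,
⟨0, [⟨12, 2, []⟩, ⟨64, 2, []⟩], [3, 3, 3], 1, [(68, 1), (72, 1)]⟩,
⟨1, [⟨34, 2, []⟩, ⟨20, 2, []⟩], [3, 3, 3], 1, [(6, 1), (18, 1), (36, 1), (48, 1)]⟩,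
⟨2, [⟨2, 2, []⟩, ⟨68, 2, []⟩], [3, 3, 3], 1, [(6, 1), (66, 1)]⟩,
⟨1, [⟨8, 2, []⟩, ⟨129, 2, []⟩], [3, 3, 3], 1, [(9, 1), (136, 1)]⟩,
⟨3, [⟨1, 3, []⟩, ⟨8, 3, []⟩], [3, 3], 1, [(9, 1)]⟩,
⟨2, [⟨1, 4, []⟩, ⟨32, 2, []⟩], [3, 2, 2], 1, [(33, 1)]⟩,
⟨0, [⟨1, 2, []⟩, ⟨16, 2, []⟩], [3, 3, 3], 1, [(17, 1)]⟩,
⟨2, [⟨8, 3, []⟩, ⟨32, 3, []⟩], [3, 3], 1, [(40, 1)]⟩,
⟨2, [⟨24, 2, []⟩, ⟨4, 2, []⟩], [3, 3, 3], 1, [(12, 1), (20, 1)]⟩,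
⟨1, [⟨40, 2, []⟩, ⟨128, 2, []⟩], [3, 3, 3], 1, [(136, 1), (160, 1)]⟩,
⟨2, [⟨8, 2, []⟩, ⟨80, 2, []⟩], [3, 3, 3], 1, [(24, 1), (72, 1)]⟩,
⟨3, [⟨32, 4, []⟩, ⟨4, 2, []⟩], [3, 2, 2], 1, [(36, 1)]⟩,
⟨3, [⟨48, 3, []⟩, ⟨64, 3, []⟩], [3, 3], 1, [(80, 1), (96, 1)]⟩,
⟨2, [⟨160, 2, []⟩, ⟨12, 2, []⟩], [3, 3, 3], 1, [(36, 1), (40, 1), (132, 1), (136, 1)]⟩,
⟨3, [⟨40, 3, []⟩, ⟨128, 3, []⟩], [3, 3], 1, [(136, 1), (160, 1)]⟩,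
⟨2, [⟨4, 2, []⟩, ⟨16, 2, []⟩], [3, 3, 3], 1, [(20, 1)]⟩,
⟨3, [⟨8, 4, []⟩, ⟨64, 2, []⟩], [3, 2, 2], 1, [(72, 1)]⟩,
⟨1, [⟨3, 2, []⟩, ⟨32, 2, []⟩], [3, 3, 3], 1, [(33, 1), (34, 1)]⟩,
⟨3, [⟨8, 3, []⟩, ⟨128, 3, []⟩], [3, 3], 1, [(136, 1)]⟩,
⟨2, [⟨32, 2, []⟩, ⟨129, 2, []⟩], [3, 3, 3], 1, [(33, 1), (160, 1)]⟩,
⟨2, [⟨1, 3, []⟩, ⟨4, 3, []⟩], [3, 3], 1, [(5, 1)]⟩,
⟨2, [⟨2, 3, []⟩, ⟨32, 3, []⟩], [3, 3], 1, [(34, 1)]⟩,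
⟨2, [⟨24, 2, []⟩, ⟨2, 2, []⟩], [3, 3, 3], 1, [(10, 1), (18, 1)]⟩,
⟨0, [⟨132, 2, []⟩, ⟨64, 2, []⟩], [3, 3, 3], 1, [(68, 1), (192, 1)]⟩,
⟨3, [⟨12, 4, []⟩, ⟨2, 2, []⟩], [3, 2, 2], 1, [(6, 1), (10, 1)]⟩,
⟨2, [⟨10, 2, []⟩, ⟨32, 2, []⟩], [3, 3, 3], 1, [(34, 1), (40, 1)]⟩,
⟨0, [⟨6, 2, []⟩, ⟨129, 2, []⟩], [3, 3, 3], 1, [(3, 1), (5, 1), (130, 1), (132, 1)]⟩,
⟨0, [⟨3, 2, []⟩, ⟨128, 2, []⟩], [3, 3, 3], 1, [(129, 1), (130, 1)]⟩,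
⟨1, [⟨1, 2, []⟩, ⟨68, 2, []⟩], [3, 3, 3], 1, [(5, 1), (65, 1)]⟩,
⟨3, [⟨2, 2, []⟩, ⟨64, 4, []⟩], [3, 1, 1], 1, [(66, 1)]⟩,
⟨2, [⟨9, 2, []⟩, ⟨16, 2, []⟩], [3, 3, 3], 1, [(17, 1), (24, 1)]⟩,
⟨0, [⟨1, 4, []⟩, ⟨64, 2, []⟩], [3, 2, 2], 1, [(65, 1)]⟩,
⟨2, [⟨1, 2, []⟩, ⟨4, 2, []⟩], [3, 3, 3], 1, [(5, 1)]⟩,
⟨2, [⟨17, 2, []⟩, ⟨36, 2, []⟩], [3, 3, 3], 1, [(5, 1), (20, 1), (33, 1), (48, 1)]⟩,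
⟨0, [⟨40, 2, []⟩, ⟨128, 2, []⟩], [3, 3, 3], 1, [(136, 1), (160, 1)]⟩,
⟨0, [⟨68, 2, []⟩, ⟨128, 2, []⟩], [3, 3, 3], 1, [(132, 1), (192, 1)]⟩,
⟨3, [⟨32, 3, []⟩, ⟨144, 3, []⟩], [3, 3], 1, [(48, 1), (160, 1)]⟩,
⟨1, [⟨32, 2, []⟩, ⟨68, 2, []⟩], [3, 3, 3], 1, [(36, 1), (96, 1)]⟩,
⟨3, [⟨3, 3, []⟩, ⟨128, 3, []⟩], [3, 3], 1, [(129, 1), (130, 1)]⟩,
⟨1, [⟨36, 2, []⟩, ⟨2, 2, []⟩], [3, 3, 3], 1, [(6, 1), (34, 1)]⟩,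
⟨3, [⟨16, 3, []⟩, ⟨36, 3, []⟩], [3, 3], 1, [(20, 1), (48, 1)]⟩,
⟨2, [⟨144, 2, []⟩, ⟨12, 2, []⟩], [3, 3, 3], 1, [(20, 1), (24, 1), (132, 1), (136, 1)]⟩,
⟨1, [⟨6, 2, []⟩, ⟨65, 2, []⟩], [3, 3, 3], 1, [(3, 1), (5, 1), (66, 1), (68, 1)]⟩,
⟨3, [⟨1, 3, []⟩, ⟨16, 3, []⟩], [3, 3], 1, [(17, 1)]⟩,
⟨3, [⟨36, 4, []⟩, ⟨1, 2, []⟩], [3, 2, 2], 1, [(5, 1), (33, 1)]⟩,
⟨3, [⟨144, 3, []⟩, ⟨64, 3, []⟩], [3, 3], 1, [(80, 1), (192, 1)]⟩,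
⟨2, [⟨4, 4, []⟩, ⟨32, 2, []⟩], [3, 2, 2], 1, [(36, 1)]⟩,
⟨2, [⟨16, 2, []⟩, ⟨72, 2, []⟩], [3, 3, 3], 1, [(24, 1), (80, 1)]⟩,
⟨1, [⟨2, 2, []⟩, ⟨16, 2, []⟩], [3, 3, 3], 1, [(18, 1)]⟩,
⟨3, [⟨33, 4, []⟩, ⟨2, 2, []⟩], [3, 2, 2], 1, [(3, 1), (34, 1)]⟩,
⟨3, [⟨8, 2, []⟩, ⟨128, 4, []⟩], [3, 1, 1], 1, [(136, 1)]⟩,
⟨3, [⟨2, 3, []⟩, ⟨33, 3, []⟩], [3, 3], 1, [(3, 1), (34, 1)]⟩,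
⟨0, [⟨17, 2, []⟩, ⟨128, 2, []⟩], [3, 3, 3], 1, [(129, 1), (144, 1)]⟩,
⟨3, [⟨5, 4, []⟩, ⟨32, 2, []⟩], [3, 2, 2], 1, [(33, 1), (36, 1)]⟩,
⟨1, [⟨36, 2, []⟩, ⟨24, 2, []⟩], [3, 3, 3], 1, [(12, 1), (20, 1), (40, 1), (48, 1)]⟩,
⟨2, [⟨4, 3, []⟩, ⟨128, 3, []⟩], [3, 3], 1, [(132, 1)]⟩,
⟨1, [⟨17, 2, []⟩, ⟨6, 2, []⟩], [3, 3, 3], 1, [(3, 1), (5, 1), (18, 1), (20, 1)]⟩,
⟨0, [⟨17, 2, []⟩, ⟨64, 2, []⟩], [3, 3, 3], 1, [(65, 1), (80, 1)]⟩,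
⟨1, [⟨32, 2, []⟩, ⟨72, 2, []⟩], [3, 3, 3], 1, [(40, 1), (96, 1)]⟩,
⟨1, [⟨4, 3, []⟩, ⟨8, 3, []⟩], [3, 3], 1, [(12, 1)]⟩,
⟨2, [⟨17, 2, []⟩, ⟨4, 2, []⟩], [3, 3, 3], 1, [(5, 1), (20, 1)]⟩,
⟨2, [⟨33, 2, []⟩, ⟨8, 2, []⟩], [3, 3, 3], 1, [(9, 1), (40, 1)]⟩,
⟨2, [⟨2, 2, []⟩, ⟨1, 4, []⟩], [3, 1, 1], 1, [(3, 1)]⟩,
⟨2, [⟨1, 2, []⟩, ⟨132, 2, []⟩], [3, 3, 3], 1, [(5, 1), (129, 1)]⟩,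
⟨3, [⟨8, 3, []⟩, ⟨96, 3, []⟩], [3, 3], 1, [(40, 1), (72, 1)]⟩,
⟨3, [⟨2, 3, []⟩, ⟨4, 3, []⟩], [3, 3], 1, [(6, 1)]⟩,
⟨2, [⟨24, 2, []⟩, ⟨128, 2, []⟩], [3, 3, 3], 1, [(136, 1), (144, 1)]⟩,
⟨3, [⟨36, 4, []⟩, ⟨16, 2, []⟩], [3, 2, 2], 1, [(20, 1), (48, 1)]⟩,
⟨1, [⟨3, 2, []⟩, ⟨68, 2, []⟩], [3, 3, 3], 1, [(5, 1), (6, 1), (65, 1), (66, 1)]⟩,
⟨2, [⟨10, 2, []⟩, ⟨1, 2, []⟩], [3, 3, 3], 1, [(3, 1), (9, 1)]⟩,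
⟨1, [⟨2, 2, []⟩, ⟨160, 2, []⟩], [3, 3, 3], 1, [(34, 1), (130, 1)]⟩,
⟨1, [⟨8, 2, []⟩, ⟨132, 2, []⟩], [3, 3, 3], 1, [(12, 1), (136, 1)]⟩,
⟨3, [⟨18, 3, []⟩, ⟨64, 3, []⟩], [3, 3], 1, [(66, 1), (80, 1)]⟩,
⟨3, [⟨8, 3, []⟩, ⟨36, 3, []⟩], [3, 3], 1, [(12, 1), (40, 1)]⟩,
⟨3, [⟨16, 4, []⟩, ⟨4, 2, []⟩], [3, 2, 2], 1, [(20, 1)]⟩,
⟨1, [⟨2, 2, []⟩, ⟨68, 2, []⟩], [3, 3, 3], 1, [(6, 1), (66, 1)]⟩,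
⟨3, [⟨34, 4, []⟩, ⟨8, 2, []⟩], [3, 2, 2], 1, [(10, 1), (40, 1)]⟩,
⟨3, [⟨48, 4, []⟩, ⟨4, 2, []⟩], [3, 2, 2], 1, [(20, 1), (36, 1)]⟩,
⟨2, [⟨80, 2, []⟩, ⟨128, 2, []⟩], [3, 3, 3], 1, [(144, 1), (192, 1)]⟩,
⟨3, [⟨16, 2, []⟩, ⟨192, 4, []⟩], [3, 1, 1], 1, [(80, 1), (144, 1)]⟩,
⟨1, [⟨1, 2, []⟩, ⟨8, 2, []⟩], [3, 3, 3], 1, [(9, 1)]⟩,
⟨1, [⟨8, 2, []⟩, ⟨160, 2, []⟩], [3, 3, 3], 1, [(40, 1), (136, 1)]⟩,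
⟨3, [⟨16, 3, []⟩, ⟨192, 3, []⟩], [3, 3], 1, [(80, 1), (144, 1)]⟩,
⟨2, [⟨68, 2, []⟩, ⟨128, 2, []⟩], [3, 3, 3], 1, [(132, 1), (192, 1)]⟩,
⟨1, [⟨2, 2, []⟩, ⟨64, 2, []⟩], [3, 3, 3], 1, [(66, 1)]⟩,
⟨0, [⟨2, 2, []⟩, ⟨128, 2, []⟩], [3, 3, 3], 1, [(130, 1)]⟩,
⟨0, [⟨9, 2, []⟩, ⟨128, 2, []⟩], [3, 3, 3], 1, [(129, 1), (136, 1)]⟩,
⟨2, [⟨8, 2, []⟩, ⟨32, 2, []⟩], [3, 3, 3], 1, [(40, 1)]⟩,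
⟨2, [⟨6, 2, []⟩, ⟨32, 2, []⟩], [3, 3, 3], 1, [(34, 1), (36, 1)]⟩,
⟨1, [⟨8, 2, []⟩, ⟨32, 4, []⟩], [3, 1, 1], 1, [(40, 1)]⟩,
⟨3, [⟨32, 3, []⟩, ⟨72, 3, []⟩], [3, 3], 1, [(40, 1), (96, 1)]⟩,
⟨1, [⟨96, 2, []⟩, ⟨128, 2, []⟩], [3, 3, 3], 1, [(160, 1), (192, 1)]⟩,
⟨2, [⟨1, 2, []⟩, ⟨2, 2, []⟩], [3, 3, 3], 1, [(3, 1)]⟩,
⟨3, [⟨4, 2, []⟩, ⟨64, 4, []⟩], [3, 1, 1], 1, [(68, 1)]⟩,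
⟨3, [⟨8, 2, []⟩, ⟨192, 4, []⟩], [3, 1, 1], 1, [(72, 1), (136, 1)]⟩,
⟨3, [⟨16, 3, []⟩, ⟨72, 3, []⟩], [3, 3], 1, [(24, 1), (80, 1)]⟩,
⟨3, [⟨8, 3, []⟩, ⟨160, 3, []⟩], [3, 3], 1, [(40, 1), (136, 1)]⟩,
⟨2, [⟨2, 2, []⟩, ⟨96, 2, []⟩], [3, 3, 3], 1, [(34, 1), (66, 1)]⟩,
⟨1, [⟨16, 2, []⟩, ⟨64, 2, []⟩], [3, 3, 3], 1, [(80, 1)]⟩,
⟨0, [⟨10, 2, []⟩, ⟨64, 2, []⟩], [3, 3, 3], 1, [(66, 1), (72, 1)]⟩,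
⟨2, [⟨9, 2, []⟩, ⟨2, 2, []⟩], [3, 3, 3], 1, [(3, 1), (10, 1)]⟩,
⟨3, [⟨1, 3, []⟩, ⟨2, 3, []⟩], [3, 3], 1, [(3, 1)]⟩,
⟨3, [⟨16, 2, []⟩, ⟨64, 4, []⟩], [3, 1, 1], 1, [(80, 1)]⟩,
⟨3, [⟨3, 3, []⟩, ⟨4, 3, []⟩], [3, 3], 1, [(5, 1), (6, 1)]⟩,
⟨1, [⟨17, 2, []⟩, ⟨2, 2, []⟩], [3, 3, 3], 1, [(3, 1), (18, 1)]⟩,
⟨0, [⟨80, 2, []⟩, ⟨128, 2, []⟩], [3, 3, 3], 1, [(144, 1), (192, 1)]⟩,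
⟨3, [⟨32, 3, []⟩, ⟨128, 3, []⟩], [3, 3], 1, [(160, 1)]⟩,
⟨1, [⟨2, 4, []⟩, ⟨16, 2, []⟩], [3, 2, 2], 1, [(18, 1)]⟩,
⟨3, [⟨10, 4, []⟩, ⟨16, 2, []⟩], [3, 2, 2], 1, [(18, 1), (24, 1)]⟩,
⟨0, [⟨40, 2, []⟩, ⟨64, 2, []⟩], [3, 3, 3], 1, [(72, 1), (96, 1)]⟩,
⟨1, [⟨36, 2, []⟩, ⟨16, 2, []⟩], [3, 3, 3], 1, [(20, 1), (48, 1)]⟩,
⟨1, [⟨48, 2, []⟩, ⟨2, 2, []⟩], [3, 3, 3], 1, [(18, 1), (34, 1)]⟩,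
⟨3, [⟨16, 4, []⟩, ⟨128, 2, []⟩], [3, 2, 2], 1, [(144, 1)]⟩,
⟨2, [⟨2, 3, []⟩, ⟨8, 3, []⟩], [3, 3], 1, [(10, 1)]⟩,
⟨3, [⟨5, 3, []⟩, ⟨64, 3, []⟩], [3, 3], 1, [(65, 1), (68, 1)]⟩,
⟨1, [⟨4, 2, []⟩, ⟨66, 2, []⟩], [3, 3, 3], 1, [(6, 1), (68, 1)]⟩,
⟨1, [⟨10, 2, []⟩, ⟨1, 2, []⟩], [3, 3, 3], 1, [(3, 1), (9, 1)]⟩,
⟨2, [⟨8, 2, []⟩, ⟨32, 4, []⟩], [3, 1, 1], 1, [(40, 1)]⟩,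
⟨0, [⟨1, 2, []⟩, ⟨2, 2, []⟩], [3, 3, 3], 1, [(3, 1)]⟩,
⟨3, [⟨20, 4, []⟩, ⟨1, 2, []⟩], [3, 2, 2], 1, [(5, 1), (17, 1)]⟩,
⟨2, [⟨34, 2, []⟩, ⟨4, 2, []⟩], [3, 3, 3], 1, [(6, 1), (36, 1)]⟩,
⟨0, [⟨80, 2, []⟩, ⟨9, 2, []⟩], [3, 3, 3], 1, [(17, 1), (24, 1), (65, 1), (72, 1)]⟩,
⟨1, [⟨2, 2, []⟩, ⟨144, 2, []⟩], [3, 3, 3], 1, [(18, 1), (130, 1)]⟩,
⟨3, [⟨2, 2, []⟩, ⟨192, 4, []⟩], [3, 1, 1], 1, [(66, 1), (130, 1)]⟩,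
⟨0, [⟨8, 2, []⟩, ⟨16, 2, []⟩], [3, 3, 3], 1, [(24, 1)]⟩,
⟨0, [⟨48, 2, []⟩, ⟨64, 2, []⟩], [3, 3, 3], 1, [(80, 1), (96, 1)]⟩,
⟨1, [⟨72, 2, []⟩, ⟨128, 2, []⟩], [3, 3, 3], 1, [(136, 1), (192, 1)]⟩,
⟨0, [⟨1, 2, []⟩, ⟨192, 2, []⟩], [3, 3, 3], 1, [(65, 1), (129, 1)]⟩,
⟨2, [⟨20, 2, []⟩, ⟨8, 2, []⟩], [3, 3, 3], 1, [(12, 1), (24, 1)]⟩,
⟨2, [⟨12, 2, []⟩, ⟨32, 2, []⟩], [3, 3, 3], 1, [(36, 1), (40, 1)]⟩,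
⟨0, [⟨1, 2, []⟩, ⟨68, 2, []⟩], [3, 3, 3], 1, [(5, 1), (65, 1)]⟩,
⟨3, [⟨4, 3, []⟩, ⟨192, 3, []⟩], [3, 3], 1, [(68, 1), (132, 1)]⟩,
⟨3, [⟨16, 3, []⟩, ⟨96, 3, []⟩], [3, 3], 1, [(48, 1), (80, 1)]⟩,
⟨1, [⟨16, 2, []⟩, ⟨65, 2, []⟩], [3, 3, 3], 1, [(17, 1), (80, 1)]⟩,
⟨1, [⟨10, 2, []⟩, ⟨4, 2, []⟩], [3, 3, 3], 1, [(6, 1), (12, 1)]⟩,
⟨2, [⟨6, 2, []⟩, ⟨8, 2, []⟩], [3, 3, 3], 1, [(10, 1), (12, 1)]⟩,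
⟨2, [⟨16, 2, []⟩, ⟨129, 2, []⟩], [3, 3, 3], 1, [(17, 1), (144, 1)]⟩,
⟨1, [⟨24, 2, []⟩, ⟨96, 2, []⟩], [3, 3, 3], 1, [(40, 1), (48, 1), (72, 1), (80, 1)]⟩,
⟨1, [⟨8, 2, []⟩, ⟨130, 2, []⟩], [3, 3, 3], 1, [(10, 1), (136, 1)]⟩,
⟨1, [⟨40, 2, []⟩, ⟨2, 2, []⟩], [3, 3, 3], 1, [(10, 1), (34, 1)]⟩,
⟨2, [⟨2, 2, []⟩, ⟨65, 2, []⟩], [3, 3, 3], 1, [(3, 1), (66, 1)]⟩,
⟨1, [⟨4, 2, []⟩, ⟨80, 2, []⟩], [3, 3, 3], 1, [(20, 1), (68, 1)]⟩,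
⟨2, [⟨18, 2, []⟩, ⟨32, 2, []⟩], [3, 3, 3], 1, [(34, 1), (48, 1)]⟩,
⟨0, [⟨2, 2, []⟩, ⟨64, 2, []⟩], [3, 3, 3], 1, [(66, 1)]⟩,
⟨2, [⟨48, 2, []⟩, ⟨128, 2, []⟩], [3, 3, 3], 1, [(144, 1), (160, 1)]⟩,
⟨0, [⟨16, 2, []⟩, ⟨64, 2, []⟩], [3, 3, 3], 1, [(80, 1)]⟩,
⟨1, [⟨17, 2, []⟩, ⟨8, 2, []⟩], [3, 3, 3], 1, [(9, 1), (24, 1)]⟩,
⟨1, [⟨1, 2, []⟩, ⟨72, 2, []⟩], [3, 3, 3], 1, [(9, 1), (65, 1)]⟩,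
⟨1, [⟨6, 2, []⟩, ⟨128, 2, []⟩], [3, 3, 3], 1, [(130, 1), (132, 1)]⟩,
⟨1, [⟨18, 2, []⟩, ⟨4, 2, []⟩], [3, 3, 3], 1, [(6, 1), (20, 1)]⟩,
⟨0, [⟨16, 2, []⟩, ⟨32, 2, []⟩], [3, 3, 3], 1, [(48, 1)]⟩,
⟨2, [⟨8, 2, []⟩, ⟨16, 2, []⟩], [3, 3, 3], 1, [(24, 1)]⟩,
⟨2, [⟨48, 2, []⟩, ⟨136, 2, []⟩], [3, 3, 3], 1, [(24, 1), (40, 1), (144, 1), (160, 1)]⟩,
⟨3, [⟨32, 2, []⟩, ⟨128, 4, []⟩], [3, 1, 1], 1, [(160, 1)]⟩,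
⟨1, [⟨6, 2, []⟩, ⟨16, 2, []⟩], [3, 3, 3], 1, [(18, 1), (20, 1)]⟩,
⟨2, [⟨33, 2, []⟩, ⟨16, 2, []⟩], [3, 3, 3], 1, [(17, 1), (48, 1)]⟩,
⟨1, [⟨20, 2, []⟩, ⟨1, 2, []⟩], [3, 3, 3], 1, [(5, 1), (17, 1)]⟩,
⟨3, [⟨8, 2, []⟩, ⟨32, 4, []⟩], [3, 1, 1], 1, [(40, 1)]⟩,
⟨3, [⟨6, 4, []⟩, ⟨8, 2, []⟩], [3, 2, 2], 1, [(10, 1), (12, 1)]⟩,
⟨1, [⟨16, 2, []⟩, ⟨68, 2, []⟩], [3, 3, 3], 1, [(20, 1), (80, 1)]⟩,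
⟨2, [⟨3, 2, []⟩, ⟨68, 2, []⟩], [3, 3, 3], 1, [(5, 1), (6, 1), (65, 1), (66, 1)]⟩,
⟨3, [⟨4, 2, []⟩, ⟨192, 4, []⟩], [3, 1, 1], 1, [(68, 1), (132, 1)]⟩,
⟨0, [⟨40, 2, []⟩, ⟨80, 2, []⟩], [3, 3, 3], 1, [(24, 1), (48, 1), (72, 1), (96, 1)]⟩,
⟨3, [⟨4, 3, []⟩, ⟨66, 3, []⟩], [3, 3], 1, [(6, 1), (68, 1)]⟩,
⟨3, [⟨96, 4, []⟩, ⟨128, 2, []⟩], [3, 2, 2], 1, [(160, 1), (192, 1)]⟩,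
⟨3, [⟨48, 3, []⟩, ⟨8, 3, []⟩], [3, 3], 1, [(24, 1), (40, 1)]⟩,
⟨1, [⟨40, 2, []⟩, ⟨144, 2, []⟩], [3, 3, 3], 1, [(24, 1), (48, 1), (136, 1), (160, 1)]⟩,
⟨1, [⟨32, 2, []⟩, ⟨132, 2, []⟩], [3, 3, 3], 1, [(36, 1), (160, 1)]⟩,
⟨3, [⟨8, 3, []⟩, ⟨32, 3, []⟩], [3, 3], 1, [(40, 1)]⟩,
⟨1, [⟨4, 2, []⟩, ⟨32, 2, []⟩], [3, 3, 3], 1, [(36, 1)]⟩,
⟨1, [⟨17, 2, []⟩, ⟨128, 2, []⟩], [3, 3, 3], 1, [(129, 1), (144, 1)]⟩,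
⟨2, [⟨5, 2, []⟩, ⟨16, 2, []⟩], [3, 3, 3], 1, [(17, 1), (20, 1)]⟩,
⟨2, [⟨10, 2, []⟩, ⟨4, 2, []⟩], [3, 3, 3], 1, [(6, 1), (12, 1)]⟩,
⟨1, [⟨4, 2, []⟩, ⟨2, 4, []⟩], [3, 1, 1], 1, [(6, 1)]⟩,
⟨3, [⟨6, 4, []⟩, ⟨32, 2, []⟩], [3, 2, 2], 1, [(34, 1), (36, 1)]⟩,
⟨2, [⟨16, 2, []⟩, ⟨68, 2, []⟩], [3, 3, 3], 1, [(20, 1), (80, 1)]⟩,
⟨1, [⟨9, 2, []⟩, ⟨128, 2, []⟩], [3, 3, 3], 1, [(129, 1), (136, 1)]⟩,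
⟨2, [⟨132, 2, []⟩, ⟨18, 2, []⟩], [3, 3, 3], 1, [(6, 1), (20, 1), (130, 1), (144, 1)]⟩,
⟨1, [⟨132, 2, []⟩, ⟨34, 2, []⟩], [3, 3, 3], 1, [(6, 1), (36, 1), (130, 1), (160, 1)]⟩,
⟨3, [⟨4, 3, []⟩, ⟨8, 3, []⟩], [3, 3], 1, [(12, 1)]⟩,
⟨1, [⟨160, 2, []⟩, ⟨12, 2, []⟩], [3, 3, 3], 1, [(36, 1), (40, 1), (132, 1), (136, 1)]⟩,
⟨1, [⟨1, 2, []⟩, ⟨130, 2, []⟩], [3, 3, 3], 1, [(3, 1), (129, 1)]⟩,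
⟨3, [⟨1, 2, []⟩, ⟨64, 4, []⟩], [3, 1, 1], 1, [(65, 1)]⟩,
⟨1, [⟨24, 2, []⟩, ⟨4, 2, []⟩], [3, 3, 3], 1, [(12, 1), (20, 1)]⟩,
⟨3, [⟨2, 3, []⟩, ⟨128, 3, []⟩], [3, 3], 1, [(130, 1)]⟩,
⟨1, [⟨18, 2, []⟩, ⟨128, 2, []⟩], [3, 3, 3], 1, [(130, 1), (144, 1)]⟩,
⟨1, [⟨36, 2, []⟩, ⟨8, 2, []⟩], [3, 3, 3], 1, [(12, 1), (40, 1)]⟩,
⟨2, [⟨32, 2, []⟩, ⟨144, 2, []⟩], [3, 3, 3], 1, [(48, 1), (160, 1)]⟩,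
⟨3, [⟨36, 3, []⟩, ⟨64, 3, []⟩], [3, 3], 1, [(68, 1), (96, 1)]⟩,
⟨3, [⟨16, 3, []⟩, ⟨64, 3, []⟩], [3, 3], 1, [(80, 1)]⟩,
⟨1, [⟨34, 2, []⟩, ⟨24, 2, []⟩], [3, 3, 3], 1, [(10, 1), (18, 1), (40, 1), (48, 1)]⟩,
⟨0, [⟨1, 2, []⟩, ⟨72, 2, []⟩], [3, 3, 3], 1, [(9, 1), (65, 1)]⟩,
⟨3, [⟨4, 4, []⟩, ⟨64, 2, []⟩], [3, 2, 2], 1, [(68, 1)]⟩,
⟨1, [⟨8, 2, []⟩, ⟨144, 2, []⟩], [3, 3, 3], 1, [(24, 1), (136, 1)]⟩,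
⟨3, [⟨4, 3, []⟩, ⟨128, 3, []⟩], [3, 3], 1, [(132, 1)]⟩,
⟨0, [⟨24, 2, []⟩, ⟨160, 2, []⟩], [3, 3, 3], 1, [(40, 1), (48, 1), (136, 1), (144, 1)]⟩,
⟨1, [⟨16, 2, []⟩, ⟨96, 2, []⟩], [3, 3, 3], 1, [(48, 1), (80, 1)]⟩,
⟨1, [⟨12, 2, []⟩, ⟨32, 2, []⟩], [3, 3, 3], 1, [(36, 1), (40, 1)]⟩,
⟨2, [⟨16, 2, []⟩, ⟨32, 4, []⟩], [3, 1, 1], 1, [(48, 1)]⟩,
⟨2, [⟨2, 2, []⟩, ⟨64, 2, []⟩], [3, 3, 3], 1, [(66, 1)]⟩,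
⟨0, [⟨65, 2, []⟩, ⟨10, 2, []⟩], [3, 3, 3], 1, [(3, 1), (9, 1), (66, 1), (72, 1)]⟩,
⟨2, [⟨40, 2, []⟩, ⟨128, 2, []⟩], [3, 3, 3], 1, [(136, 1), (160, 1)]⟩,
⟨0, [⟨136, 2, []⟩, ⟨17, 2, []⟩], [3, 3, 3], 1, [(9, 1), (24, 1), (129, 1), (144, 1)]⟩,
⟨2, [⟨34, 2, []⟩, ⟨128, 2, []⟩], [3, 3, 3], 1, [(130, 1), (160, 1)]⟩,
⟨2, [⟨20, 2, []⟩, ⟨2, 2, []⟩], [3, 3, 3], 1, [(6, 1), (18, 1)]⟩,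
⟨0, [⟨18, 2, []⟩, ⟨64, 2, []⟩], [3, 3, 3], 1, [(66, 1), (80, 1)]⟩,
⟨3, [⟨16, 3, []⟩, ⟨32, 3, []⟩], [3, 3], 1, [(48, 1)]⟩,
⟨2, [⟨8, 2, []⟩, ⟨96, 2, []⟩], [3, 3, 3], 1, [(40, 1), (72, 1)]⟩,
⟨0, [⟨8, 4, []⟩, ⟨64, 2, []⟩], [3, 2, 2], 1, [(72, 1)]⟩,
⟨1, [⟨2, 2, []⟩, ⟨192, 2, []⟩], [3, 3, 3], 1, [(66, 1), (130, 1)]⟩,
⟨2, [⟨33, 2, []⟩, ⟨128, 2, []⟩], [3, 3, 3], 1, [(129, 1), (160, 1)]⟩,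
⟨0, [⟨129, 2, []⟩, ⟨64, 2, []⟩], [3, 3, 3], 1, [(65, 1), (192, 1)]⟩,
⟨1, [⟨4, 2, []⟩, ⟨72, 2, []⟩], [3, 3, 3], 1, [(12, 1), (68, 1)]⟩,
⟨3, [⟨4, 4, []⟩, ⟨128, 2, []⟩], [3, 2, 2], 1, [(132, 1)]⟩,
⟨0, [⟨1, 2, []⟩, ⟨66, 2, []⟩], [3, 3, 3], 1, [(3, 1), (65, 1)]⟩,
⟨3, [⟨8, 3, []⟩, ⟨192, 3, []⟩], [3, 3], 1, [(72, 1), (136, 1)]⟩,
⟨2, [⟨8, 3, []⟩, ⟨128, 3, []⟩], [3, 3], 1, [(136, 1)]⟩,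
⟨3, [⟨2, 3, []⟩, ⟨32, 3, []⟩], [3, 3], 1, [(34, 1)]⟩,
⟨2, [⟨2, 2, []⟩, ⟨4, 2, []⟩], [3, 3, 3], 1, [(6, 1)]⟩,
⟨3, [⟨34, 4, []⟩, ⟨1, 2, []⟩], [3, 2, 2], 1, [(3, 1), (33, 1)]⟩,
⟨3, [⟨12, 4, []⟩, ⟨32, 2, []⟩], [3, 2, 2], 1, [(36, 1), (40, 1)]⟩,
⟨3, [⟨34, 4, []⟩, ⟨4, 2, []⟩], [3, 2, 2], 1, [(6, 1), (36, 1)]⟩,
⟨3, [⟨3, 3, []⟩, ⟨64, 3, []⟩], [3, 3], 1, [(65, 1), (66, 1)]⟩,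
⟨0, [⟨4, 2, []⟩, ⟨128, 2, []⟩], [3, 3, 3], 1, [(132, 1)]⟩,
⟨1, [⟨10, 2, []⟩, ⟨48, 2, []⟩], [3, 3, 3], 1, [(18, 1), (24, 1), (34, 1), (40, 1)]⟩,
⟨0, [⟨1, 2, []⟩, ⟨80, 2, []⟩], [3, 3, 3], 1, [(17, 1), (65, 1)]⟩,
⟨3, [⟨3, 4, []⟩, ⟨16, 2, []⟩], [3, 2, 2], 1, [(17, 1), (18, 1)]⟩,
⟨2, [⟨2, 2, []⟩, ⟨128, 2, []⟩], [3, 3, 3], 1, [(130, 1)]⟩,
⟨1, [⟨32, 2, []⟩, ⟨65, 2, []⟩], [3, 3, 3], 1, [(33, 1), (96, 1)]⟩,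
⟨1, [⟨4, 2, []⟩, ⟨128, 2, []⟩], [3, 3, 3], 1, [(132, 1)]⟩,
⟨1, [⟨8, 2, []⟩, ⟨128, 2, []⟩], [3, 3, 3], 1, [(136, 1)]⟩,
⟨0, [⟨3, 2, []⟩, ⟨64, 2, []⟩], [3, 3, 3], 1, [(65, 1), (66, 1)]⟩,
⟨3, [⟨16, 3, []⟩, ⟨128, 3, []⟩], [3, 3], 1, [(144, 1)]⟩,
⟨3, [⟨4, 4, []⟩, ⟨32, 2, []⟩], [3, 2, 2], 1, [(36, 1)]⟩,
⟨1, [⟨12, 2, []⟩, ⟨128, 2, []⟩], [3, 3, 3], 1, [(132, 1), (136, 1)]⟩,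
⟨2, [⟨4, 2, []⟩, ⟨130, 2, []⟩], [3, 3, 3], 1, [(6, 1), (132, 1)]⟩,
⟨3, [⟨18, 4, []⟩, ⟨8, 2, []⟩], [3, 2, 2], 1, [(10, 1), (24, 1)]⟩,
⟨2, [⟨20, 2, []⟩, ⟨128, 2, []⟩], [3, 3, 3], 1, [(132, 1), (144, 1)]⟩,
⟨2, [⟨34, 2, []⟩, ⟨12, 2, []⟩], [3, 3, 3], 1, [(6, 1), (10, 1), (36, 1), (40, 1)]⟩,
⟨0, [⟨65, 2, []⟩, ⟨128, 2, []⟩], [3, 3, 3], 1, [(129, 1), (192, 1)]⟩,
⟨2, [⟨12, 2, []⟩, ⟨48, 2, []⟩], [3, 3, 3], 1, [(20, 1), (24, 1), (36, 1), (40, 1)]⟩,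
⟨0, [⟨1, 3, []⟩, ⟨64, 3, []⟩], [3, 3], 1, [(65, 1)]⟩,
⟨3, [⟨2, 3, []⟩, ⟨192, 3, []⟩], [3, 3], 1, [(66, 1), (130, 1)]⟩,
⟨3, [⟨18, 4, []⟩, ⟨4, 2, []⟩], [3, 2, 2], 1, [(6, 1), (20, 1)]⟩,
⟨0, [⟨8, 2, []⟩, ⟨80, 2, []⟩], [3, 3, 3], 1, [(24, 1), (72, 1)]⟩,
⟨3, [⟨8, 3, []⟩, ⟨80, 3, []⟩], [3, 3], 1, [(24, 1), (72, 1)]⟩,
⟨1, [⟨130, 2, []⟩, ⟨20, 2, []⟩], [3, 3, 3], 1, [(6, 1), (18, 1), (132, 1), (144, 1)]⟩,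
⟨1, [⟨1, 2, []⟩, ⟨96, 2, []⟩], [3, 3, 3], 1, [(33, 1), (65, 1)]⟩,
⟨2, [⟨2, 2, []⟩, ⟨129, 2, []⟩], [3, 3, 3], 1, [(3, 1), (130, 1)]⟩,
⟨1, [⟨65, 2, []⟩, ⟨18, 2, []⟩], [3, 3, 3], 1, [(3, 1), (17, 1), (66, 1), (80, 1)]⟩,
⟨0, [⟨4, 2, []⟩, ⟨64, 2, []⟩], [3, 3, 3], 1, [(68, 1)]⟩,
⟨1, [⟨33, 2, []⟩, ⟨4, 2, []⟩], [3, 3, 3], 1, [(5, 1), (36, 1)]⟩,
⟨2, [⟨24, 2, []⟩, ⟨96, 2, []⟩], [3, 3, 3], 1, [(40, 1), (48, 1), (72, 1), (80, 1)]⟩,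
⟨2, [⟨17, 2, []⟩, ⟨128, 2, []⟩], [3, 3, 3], 1, [(129, 1), (144, 1)]⟩,
⟨1, [⟨16, 2, []⟩, ⟨192, 2, []⟩], [3, 3, 3], 1, [(80, 1), (144, 1)]⟩,
⟨1, [⟨1, 2, []⟩, ⟨2, 2, []⟩], [3, 3, 3], 1, [(3, 1)]⟩,
⟨0, [⟨1, 3, []⟩, ⟨4, 3, []⟩], [3, 3], 1, [(5, 1)]⟩,
⟨3, [⟨16, 4, []⟩, ⟨1, 2, []⟩], [3, 2, 2], 1, [(17, 1)]⟩,
⟨0, [⟨33, 2, []⟩, ⟨128, 2, []⟩], [3, 3, 3], 1, [(129, 1), (160, 1)]⟩,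
⟨1, [⟨16, 2, []⟩, ⟨129, 2, []⟩], [3, 3, 3], 1, [(17, 1), (144, 1)]⟩,
⟨0, [⟨24, 2, []⟩, ⟨64, 2, []⟩], [3, 3, 3], 1, [(72, 1), (80, 1)]⟩,
⟨2, [⟨160, 2, []⟩, ⟨20, 2, []⟩], [3, 3, 3], 1, [(36, 1), (48, 1), (132, 1), (144, 1)]⟩,
⟨2, [⟨16, 2, []⟩, ⟨130, 2, []⟩], [3, 3, 3], 1, [(18, 1), (144, 1)]⟩,
⟨1, [⟨8, 3, []⟩, ⟨32, 3, []⟩], [3, 3], 1, [(40, 1)]⟩,
⟨2, [⟨65, 2, []⟩, ⟨128, 2, []⟩], [3, 3, 3], 1, [(129, 1), (192, 1)]⟩,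
⟨2, [⟨5, 2, []⟩, ⟨8, 2, []⟩], [3, 3, 3], 1, [(9, 1), (12, 1)]⟩,
⟨3, [⟨8, 2, []⟩, ⟨64, 4, []⟩], [3, 1, 1], 1, [(72, 1)]⟩,
⟨3, [⟨2, 4, []⟩, ⟨128, 2, []⟩], [3, 2, 2], 1, [(130, 1)]⟩,
⟨3, [⟨2, 3, []⟩, ⟨16, 3, []⟩], [3, 3], 1, [(18, 1)]⟩,
⟨3, [⟨17, 3, []⟩, ⟨64, 3, []⟩], [3, 3], 1, [(65, 1), (80, 1)]⟩,
⟨3, [⟨40, 3, []⟩, ⟨16, 3, []⟩], [3, 3], 1, [(24, 1), (48, 1)]⟩,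
⟨2, [⟨16, 2, []⟩, ⟨66, 2, []⟩], [3, 3, 3], 1, [(18, 1), (80, 1)]⟩,
⟨1, [⟨36, 2, []⟩, ⟨128, 2, []⟩], [3, 3, 3], 1, [(132, 1), (160, 1)]⟩,
⟨0, [⟨68, 2, []⟩, ⟨9, 2, []⟩], [3, 3, 3], 1, [(5, 1), (12, 1), (65, 1), (72, 1)]⟩,
⟨1, [⟨65, 2, []⟩, ⟨128, 2, []⟩], [3, 3, 3], 1, [(129, 1), (192, 1)]⟩,
⟨1, [⟨34, 2, []⟩, ⟨16, 2, []⟩], [3, 3, 3], 1, [(18, 1), (48, 1)]⟩,
⟨0, [⟨66, 2, []⟩, ⟨17, 2, []⟩], [3, 3, 3], 1, [(3, 1), (18, 1), (65, 1), (80, 1)]⟩,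
⟨0, [⟨2, 2, []⟩, ⟨4, 2, []⟩], [3, 3, 3], 1, [(6, 1)]⟩,
⟨1, [⟨2, 2, []⟩, ⟨128, 2, []⟩], [3, 3, 3], 1, [(130, 1)]⟩,
⟨3, [⟨1, 3, []⟩, ⟨128, 3, []⟩], [3, 3], 1, [(129, 1)]⟩,
⟨1, [⟨48, 2, []⟩, ⟨128, 2, []⟩], [3, 3, 3], 1, [(144, 1), (160, 1)]⟩,
⟨1, [⟨4, 2, []⟩, ⟨16, 2, []⟩], [3, 3, 3], 1, [(20, 1)]⟩,
⟨1, [⟨160, 2, []⟩, ⟨10, 2, []⟩], [3, 3, 3], 1, [(34, 1), (40, 1), (130, 1), (136, 1)]⟩,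
⟨3, [⟨1, 3, []⟩, ⟨130, 3, []⟩], [3, 3], 1, [(3, 1), (129, 1)]⟩,
⟨1, [⟨17, 2, []⟩, ⟨4, 2, []⟩], [3, 3, 3], 1, [(5, 1), (20, 1)]⟩,
⟨3, [⟨34, 4, []⟩, ⟨16, 2, []⟩], [3, 2, 2], 1, [(18, 1), (48, 1)]⟩,
⟨1, [⟨8, 2, []⟩, ⟨32, 2, []⟩], [3, 3, 3], 1, [(40, 1)]⟩,
⟨3, [⟨16, 3, []⟩, ⟨136, 3, []⟩], [3, 3], 1, [(24, 1), (144, 1)]⟩,
⟨0, [⟨80, 2, []⟩, ⟨10, 2, []⟩], [3, 3, 3], 1, [(18, 1), (24, 1), (66, 1), (72, 1)]⟩,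
⟨2, [⟨10, 2, []⟩, ⟨48, 2, []⟩], [3, 3, 3], 1, [(18, 1), (24, 1), (34, 1), (40, 1)]⟩,
⟨0, [⟨10, 2, []⟩, ⟨128, 2, []⟩], [3, 3, 3], 1, [(130, 1), (136, 1)]⟩,
⟨1, [⟨48, 2, []⟩, ⟨4, 2, []⟩], [3, 3, 3], 1, [(20, 1), (36, 1)]⟩,
⟨2, [⟨40, 2, []⟩, ⟨2, 2, []⟩], [3, 3, 3], 1, [(10, 1), (34, 1)]⟩,
⟨3, [⟨5, 3, []⟩, ⟨2, 3, []⟩], [3, 3], 1, [(3, 1), (6, 1)]⟩,
⟨2, [⟨96, 2, []⟩, ⟨128, 2, []⟩], [3, 3, 3], 1, [(160, 1), (192, 1)]⟩,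
⟨0, [⟨64, 2, []⟩, ⟨128, 2, []⟩], [3, 3, 3], 1, [(192, 1)]⟩,
⟨1, [⟨33, 2, []⟩, ⟨18, 2, []⟩], [3, 3, 3], 1, [(3, 1), (17, 1), (34, 1), (48, 1)]⟩,
⟨3, [⟨32, 4, []⟩, ⟨128, 2, []⟩], [3, 2, 2], 1, [(160, 1)]⟩,
⟨3, [⟨4, 3, []⟩, ⟨17, 3, []⟩], [3, 3], 1, [(5, 1), (20, 1)]⟩,
⟨2, [⟨8, 2, []⟩, ⟨66, 2, []⟩], [3, 3, 3], 1, [(10, 1), (72, 1)]⟩,
⟨3, [⟨10, 4, []⟩, ⟨32, 2, []⟩], [3, 2, 2], 1, [(34, 1), (40, 1)]⟩,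
⟨2, [⟨9, 2, []⟩, ⟨128, 2, []⟩], [3, 3, 3], 1, [(129, 1), (136, 1)]⟩,
⟨1, [⟨40, 2, []⟩, ⟨1, 2, []⟩], [3, 3, 3], 1, [(9, 1), (33, 1)]⟩,
⟨1, [⟨1, 2, []⟩, ⟨160, 2, []⟩], [3, 3, 3], 1, [(33, 1), (129, 1)]⟩,
⟨1, [⟨24, 2, []⟩, ⟨128, 2, []⟩], [3, 3, 3], 1, [(136, 1), (144, 1)]⟩,
⟨0, [⟨24, 2, []⟩, ⟨1, 2, []⟩], [3, 3, 3], 1, [(9, 1), (17, 1)]⟩,
⟨3, [⟨6, 3, []⟩, ⟨1, 3, []⟩], [3, 3], 1, [(3, 1), (5, 1)]⟩,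
⟨0, [⟨32, 2, []⟩, ⟨64, 2, []⟩], [3, 3, 3], 1, [(96, 1)]⟩,
⟨1, [⟨33, 2, []⟩, ⟨128, 2, []⟩], [3, 3, 3], 1, [(129, 1), (160, 1)]⟩,
⟨1, [⟨16, 2, []⟩, ⟨130, 2, []⟩], [3, 3, 3], 1, [(18, 1), (144, 1)]⟩,
⟨2, [⟨12, 2, []⟩, ⟨128, 2, []⟩], [3, 3, 3], 1, [(132, 1), (136, 1)]⟩,
⟨2, [⟨4, 2, []⟩, ⟨8, 2, []⟩], [3, 3, 3], 1, [(12, 1)]⟩,
⟨0, [⟨6, 2, []⟩, ⟨65, 2, []⟩], [3, 3, 3], 1, [(3, 1), (5, 1), (66, 1), (68, 1)]⟩,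
⟨2, [⟨4, 2, []⟩, ⟨160, 2, []⟩], [3, 3, 3], 1, [(36, 1), (132, 1)]⟩,
⟨3, [⟨1, 3, []⟩, ⟨192, 3, []⟩], [3, 3], 1, [(65, 1), (129, 1)]⟩,
⟨2, [⟨16, 2, []⟩, ⟨65, 2, []⟩], [3, 3, 3], 1, [(17, 1), (80, 1)]⟩,
⟨3, [⟨4, 3, []⟩, ⟨130, 3, []⟩], [3, 3], 1, [(6, 1), (132, 1)]⟩,
⟨1, [⟨4, 2, []⟩, ⟨64, 2, []⟩], [3, 3, 3], 1, [(68, 1)]⟩,
⟨2, [⟨4, 2, []⟩, ⟨66, 2, []⟩], [3, 3, 3], 1, [(6, 1), (68, 1)]⟩,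
⟨2, [⟨6, 2, []⟩, ⟨65, 2, []⟩], [3, 3, 3], 1, [(3, 1), (5, 1), (66, 1), (68, 1)]⟩,
⟨1, [⟨24, 2, []⟩, ⟨1, 2, []⟩], [3, 3, 3], 1, [(9, 1), (17, 1)]⟩,
⟨1, [⟨3, 2, []⟩, ⟨16, 2, []⟩], [3, 3, 3], 1, [(17, 1), (18, 1)]⟩,
⟨2, [⟨40, 2, []⟩, ⟨144, 2, []⟩], [3, 3, 3], 1, [(24, 1), (48, 1), (136, 1), (160, 1)]⟩,
⟨0, [⟨9, 2, []⟩, ⟨34, 2, []⟩], [3, 3, 3], 1, [(3, 1), (10, 1), (33, 1), (40, 1)]⟩,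
⟨1, [⟨6, 2, []⟩, ⟨32, 2, []⟩], [3, 3, 3], 1, [(34, 1), (36, 1)]⟩,
⟨3, [⟨8, 2, []⟩, ⟨16, 4, []⟩], [3, 1, 1], 1, [(24, 1)]⟩,
⟨1, [⟨18, 2, []⟩, ⟨12, 2, []⟩], [3, 3, 3], 1, [(6, 1), (10, 1), (20, 1), (24, 1)]⟩,
⟨2, [⟨48, 2, []⟩, ⟨72, 2, []⟩], [3, 3, 3], 1, [(24, 1), (40, 1), (80, 1), (96, 1)]⟩,
⟨2, [⟨9, 2, []⟩, ⟨4, 2, []⟩], [3, 3, 3], 1, [(5, 1), (12, 1)]⟩,
⟨3, [⟨32, 3, []⟩, ⟨192, 3, []⟩], [3, 3], 1, [(96, 1), (160, 1)]⟩,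
⟨3, [⟨160, 4, []⟩, ⟨64, 2, []⟩], [3, 2, 2], 1, [(96, 1), (192, 1)]⟩,
⟨1, [⟨16, 2, []⟩, ⟨160, 2, []⟩], [3, 3, 3], 1, [(48, 1), (144, 1)]⟩,
⟨1, [⟨48, 2, []⟩, ⟨1, 2, []⟩], [3, 3, 3], 1, [(17, 1), (33, 1)]⟩,
⟨1, [⟨1, 2, []⟩, ⟨32, 2, []⟩], [3, 3, 3], 1, [(33, 1)]⟩,
⟨0, [⟨40, 2, []⟩, ⟨1, 2, []⟩], [3, 3, 3], 1, [(9, 1), (33, 1)]⟩,
⟨2, [⟨36, 2, []⟩, ⟨24, 2, []⟩], [3, 3, 3], 1, [(12, 1), (20, 1), (40, 1), (48, 1)]⟩,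
⟨1, [⟨3, 2, []⟩, ⟨8, 2, []⟩], [3, 3, 3], 1, [(9, 1), (10, 1)]⟩,
⟨2, [⟨34, 2, []⟩, ⟨20, 2, []⟩], [3, 3, 3], 1, [(6, 1), (18, 1), (36, 1), (48, 1)]⟩,
⟨1, [⟨10, 2, []⟩, ⟨128, 2, []⟩], [3, 3, 3], 1, [(130, 1), (136, 1)]⟩,
⟨2, [⟨1, 2, []⟩, ⟨192, 2, []⟩], [3, 3, 3], 1, [(65, 1), (129, 1)]⟩,
⟨2, [⟨32, 2, []⟩, ⟨128, 2, []⟩], [3, 3, 3], 1, [(160, 1)]⟩,
⟨2, [⟨1, 2, []⟩, ⟨144, 2, []⟩], [3, 3, 3], 1, [(17, 1), (129, 1)]⟩,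
⟨2, [⟨18, 2, []⟩, ⟨36, 2, []⟩], [3, 3, 3], 1, [(6, 1), (20, 1), (34, 1), (48, 1)]⟩,
⟨1, [⟨1, 2, []⟩, ⟨16, 2, []⟩], [3, 3, 3], 1, [(17, 1)]⟩,
⟨1, [⟨2, 2, []⟩, ⟨32, 2, []⟩], [3, 3, 3], 1, [(34, 1)]⟩,
⟨0, [⟨96, 2, []⟩, ⟨128, 2, []⟩], [3, 3, 3], 1, [(160, 1), (192, 1)]⟩,
⟨1, [⟨10, 2, []⟩, ⟨16, 2, []⟩], [3, 3, 3], 1, [(18, 1), (24, 1)]⟩,
⟨3, [⟨8, 3, []⟩, ⟨20, 3, []⟩], [3, 3], 1, [(12, 1), (24, 1)]⟩,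
⟨2, [⟨2, 2, []⟩, ⟨136, 2, []⟩], [3, 3, 3], 1, [(10, 1), (130, 1)]⟩,
⟨3, [⟨4, 4, []⟩, ⟨8, 2, []⟩], [3, 2, 2], 1, [(12, 1)]⟩,
⟨3, [⟨1, 3, []⟩, ⟨68, 3, []⟩], [3, 3], 1, [(5, 1), (65, 1)]⟩,
⟨1, [⟨2, 2, []⟩, ⟨136, 2, []⟩], [3, 3, 3], 1, [(10, 1), (130, 1)]⟩,
⟨2, [⟨34, 2, []⟩, ⟨8, 2, []⟩], [3, 3, 3], 1, [(10, 1), (40, 1)]⟩,
⟨3, [⟨24, 3, []⟩, ⟨32, 3, []⟩], [3, 3], 1, [(40, 1), (48, 1)]⟩,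
⟨1, [⟨1, 2, []⟩, ⟨66, 2, []⟩], [3, 3, 3], 1, [(3, 1), (65, 1)]⟩,
⟨1, [⟨1, 2, []⟩, ⟨80, 2, []⟩], [3, 3, 3], 1, [(17, 1), (65, 1)]⟩,
⟨1, [⟨4, 2, []⟩, ⟨144, 2, []⟩], [3, 3, 3], 1, [(20, 1), (132, 1)]⟩,
⟨1, [⟨4, 2, []⟩, ⟨136, 2, []⟩], [3, 3, 3], 1, [(12, 1), (132, 1)]⟩,
⟨1, [⟨1, 2, []⟩, ⟨4, 2, []⟩], [3, 3, 3], 1, [(5, 1)]⟩,
⟨3, [⟨48, 4, []⟩, ⟨2, 2, []⟩], [3, 2, 2], 1, [(18, 1), (34, 1)]⟩,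
⟨1, [⟨5, 2, []⟩, ⟨32, 2, []⟩], [3, 3, 3], 1, [(33, 1), (36, 1)]⟩,
⟨1, [⟨1, 2, []⟩, ⟨192, 2, []⟩], [3, 3, 3], 1, [(65, 1), (129, 1)]⟩,
⟨2, [⟨2, 2, []⟩, ⟨132, 2, []⟩], [3, 3, 3], 1, [(6, 1), (130, 1)]⟩,
⟨2, [⟨3, 2, []⟩, ⟨132, 2, []⟩], [3, 3, 3], 1, [(5, 1), (6, 1), (129, 1), (130, 1)]⟩,
⟨3, [⟨2, 3, []⟩, ⟨64, 3, []⟩], [3, 3], 1, [(66, 1)]⟩,
⟨3, [⟨8, 3, []⟩, ⟨16, 3, []⟩], [3, 3], 1, [(24, 1)]⟩,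
⟨3, [⟨4, 4, []⟩, ⟨16, 2, []⟩], [3, 2, 2], 1, [(20, 1)]⟩,
⟨3, [⟨16, 3, []⟩, ⟨160, 3, []⟩], [3, 3], 1, [(48, 1), (144, 1)]⟩,
⟨3, [⟨24, 4, []⟩, ⟨4, 2, []⟩], [3, 2, 2], 1, [(12, 1), (20, 1)]⟩,
⟨2, [⟨34, 2, []⟩, ⟨5, 2, []⟩], [3, 3, 3], 1, [(3, 1), (6, 1), (33, 1), (36, 1)]⟩,
⟨3, [⟨1, 3, []⟩, ⟨32, 3, []⟩], [3, 3], 1, [(33, 1)]⟩,
⟨2, [⟨4, 2, []⟩, ⟨128, 2, []⟩], [3, 3, 3], 1, [(132, 1)]⟩,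
⟨2, [⟨2, 2, []⟩, ⟨160, 2, []⟩], [3, 3, 3], 1, [(34, 1), (130, 1)]⟩,
⟨3, [⟨17, 4, []⟩, ⟨8, 2, []⟩], [3, 2, 2], 1, [(9, 1), (24, 1)]⟩,
⟨3, [⟨2, 4, []⟩, ⟨32, 2, []⟩], [3, 2, 2], 1, [(34, 1)]⟩,
⟨2, [⟨1, 2, []⟩, ⟨72, 2, []⟩], [3, 3, 3], 1, [(9, 1), (65, 1)]⟩,
⟨0, [⟨3, 2, []⟩, ⟨68, 2, []⟩], [3, 3, 3], 1, [(5, 1), (6, 1), (65, 1), (66, 1)]⟩,
⟨3, [⟨24, 4, []⟩, ⟨2, 2, []⟩], [3, 2, 2], 1, [(10, 1), (18, 1)]⟩,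
⟨2, [⟨12, 2, []⟩, ⟨16, 2, []⟩], [3, 3, 3], 1, [(20, 1), (24, 1)]⟩,
⟨2, [⟨36, 2, []⟩, ⟨8, 2, []⟩], [3, 3, 3], 1, [(12, 1), (40, 1)]⟩,
⟨2, [⟨129, 2, []⟩, ⟨34, 2, []⟩], [3, 3, 3], 1, [(3, 1), (33, 1), (130, 1), (160, 1)]⟩,
⟨1, [⟨4, 2, []⟩, ⟨8, 2, []⟩], [3, 3, 3], 1, [(12, 1)]⟩,
⟨2, [⟨48, 2, []⟩, ⟨4, 2, []⟩], [3, 3, 3], 1, [(20, 1), (36, 1)]⟩,
⟨0, [⟨24, 2, []⟩, ⟨128, 2, []⟩], [3, 3, 3], 1, [(136, 1), (144, 1)]⟩,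
⟨2, [⟨32, 2, []⟩, ⟨66, 2, []⟩], [3, 3, 3], 1, [(34, 1), (96, 1)]⟩,
⟨2, [⟨4, 2, []⟩, ⟨64, 2, []⟩], [3, 3, 3], 1, [(68, 1)]⟩,
⟨0, [⟨1, 2, []⟩, ⟨4, 2, []⟩], [3, 3, 3], 1, [(5, 1)]⟩,
⟨2, [⟨10, 2, []⟩, ⟨128, 2, []⟩], [3, 3, 3], 1, [(130, 1), (136, 1)]⟩,
⟨3, [⟨2, 3, []⟩, ⟨68, 3, []⟩], [3, 3], 1, [(6, 1), (66, 1)]⟩,
⟨1, [⟨136, 2, []⟩, ⟨36, 2, []⟩], [3, 3, 3], 1, [(12, 1), (40, 1), (132, 1), (160, 1)]⟩,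
⟨1, [⟨2, 2, []⟩, ⟨4, 2, []⟩], [3, 3, 3], 1, [(6, 1)]⟩,
⟨1, [⟨8, 2, []⟩, ⟨64, 2, []⟩], [3, 3, 3], 1, [(72, 1)]⟩,
⟨2, [⟨4, 2, []⟩, ⟨96, 2, []⟩], [3, 3, 3], 1, [(36, 1), (68, 1)]⟩,
⟨3, [⟨5, 4, []⟩, ⟨16, 2, []⟩], [3, 2, 2], 1, [(17, 1), (20, 1)]⟩,
⟨2, [⟨33, 2, []⟩, ⟨4, 2, []⟩], [3, 3, 3], 1, [(5, 1), (36, 1)]⟩,
⟨1, [⟨24, 2, []⟩, ⟨2, 2, []⟩], [3, 3, 3], 1, [(10, 1), (18, 1)]⟩,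
⟨2, [⟨1, 2, []⟩, ⟨32, 2, []⟩], [3, 3, 3], 1, [(33, 1)]⟩,
⟨0, [⟨72, 2, []⟩, ⟨128, 2, []⟩], [3, 3, 3], 1, [(136, 1), (192, 1)]⟩,
⟨1, [⟨32, 2, []⟩, ⟨136, 2, []⟩], [3, 3, 3], 1, [(40, 1), (160, 1)]⟩,
⟨2, [⟨2, 2, []⟩, ⟨16, 2, []⟩], [3, 3, 3], 1, [(18, 1)]⟩,
⟨1, [⟨16, 2, []⟩, ⟨72, 2, []⟩], [3, 3, 3], 1, [(24, 1), (80, 1)]⟩,
⟨1, [⟨12, 2, []⟩, ⟨2, 2, []⟩], [3, 3, 3], 1, [(6, 1), (10, 1)]⟩,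
⟨0, [⟨48, 2, []⟩, ⟨72, 2, []⟩], [3, 3, 3], 1, [(24, 1), (40, 1), (80, 1), (96, 1)]⟩,
⟨3, [⟨1, 4, []⟩, ⟨64, 2, []⟩], [3, 2, 2], 1, [(65, 1)]⟩,
⟨2, [⟨32, 3, []⟩, ⟨128, 3, []⟩], [3, 3], 1, [(160, 1)]⟩,
⟨3, [⟨16, 2, []⟩, ⟨32, 4, []⟩], [3, 1, 1], 1, [(48, 1)]⟩,
⟨1, [⟨40, 2, []⟩, ⟨4, 2, []⟩], [3, 3, 3], 1, [(12, 1), (36, 1)]⟩,
⟨3, [⟨8, 3, []⟩, ⟨64, 3, []⟩], [3, 3], 1, [(72, 1)]⟩,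
⟨1, [⟨8, 2, []⟩, ⟨80, 2, []⟩], [3, 3, 3], 1, [(24, 1), (72, 1)]⟩,
⟨1, [⟨2, 3, []⟩, ⟨128, 3, []⟩], [3, 3], 1, [(130, 1)]⟩,
⟨2, [⟨5, 2, []⟩, ⟨66, 2, []⟩], [3, 3, 3], 1, [(3, 1), (6, 1), (65, 1), (68, 1)]⟩,
⟨2, [⟨129, 2, []⟩, ⟨12, 2, []⟩], [3, 3, 3], 1, [(5, 1), (9, 1), (132, 1), (136, 1)]⟩,
⟨2, [⟨16, 3, []⟩, ⟨32, 3, []⟩], [3, 3], 1, [(48, 1)]⟩,
⟨1, [⟨9, 2, []⟩, ⟨48, 2, []⟩], [3, 3, 3], 1, [(17, 1), (24, 1), (33, 1), (40, 1)]⟩,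
⟨1, [⟨80, 2, []⟩, ⟨128, 2, []⟩], [3, 3, 3], 1, [(144, 1), (192, 1)]⟩,
⟨3, [⟨18, 4, []⟩, ⟨1, 2, []⟩], [3, 2, 2], 1, [(3, 1), (17, 1)]⟩,
⟨1, [⟨32, 2, []⟩, ⟨192, 2, []⟩], [3, 3, 3], 1, [(96, 1), (160, 1)]⟩,
⟨2, [⟨4, 2, []⟩, ⟨144, 2, []⟩], [3, 3, 3], 1, [(20, 1), (132, 1)]⟩,
⟨3, [⟨40, 3, []⟩, ⟨64, 3, []⟩], [3, 3], 1, [(72, 1), (96, 1)]⟩,
⟨2, [⟨8, 2, []⟩, ⟨16, 4, []⟩], [3, 1, 1], 1, [(24, 1)]⟩,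
⟨1, [⟨5, 2, []⟩, ⟨128, 2, []⟩], [3, 3, 3], 1, [(129, 1), (132, 1)]⟩,
⟨2, [⟨40, 2, []⟩, ⟨80, 2, []⟩], [3, 3, 3], 1, [(24, 1), (48, 1), (72, 1), (96, 1)]⟩,
⟨2, [⟨40, 2, []⟩, ⟨4, 2, []⟩], [3, 3, 3], 1, [(12, 1), (36, 1)]⟩,
⟨0, [⟨66, 2, []⟩, ⟨128, 2, []⟩], [3, 3, 3], 1, [(130, 1), (192, 1)]⟩,
⟨1, [⟨32, 2, []⟩, ⟨130, 2, []⟩], [3, 3, 3], 1, [(34, 1), (160, 1)]⟩]

theorem base_ok : base.all (fun q => q.ok 8 4 [7, 56] big4 big4 [(0, 1, 0, 0), (0, 2, 0, 1), (0, 4, 0, 3), (0, 5, 0, 4), (0, 3, 0, 0), (1, 6, 0, 6), (2, 6, 1, 6), (3, 7, 3, 6)]) = true := by decide +kernel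

theorem gads_ok : gads.all (fun g => Nat.blt g.j 4 && g.ok 8 (([0, 0, 0, 2] : List ℕ).getD g.j 0)) = true := by
  decide +kernel

theorem cmp_ok : cmpR names cnf (cls 4 base ++ gads.map Gt.cl) = true := by decide +kernel

end D86

theorem inst_86 : instB 2 [0, 0, 0, 2] [] [(0, 1, 0, 0), (0, 2, 0, 1), (0, 4, 0, 3), (0, 5, 0, 4), (0, 3, 0, 0), (1, 6, 0, 6), (2, 6, 1, 6), (3, 7, 3, 6)] D86.base D86.gads D86.names D86.cnf D86.db D86.prf = true :=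
  instB_of D86.base_ok D86.gads_ok (by decide +kernel) D86.okc D86.cmp_ok D86.chk_ok

/-- no gadget has fewer than `2 R` new points. -/
theorem p2_86 : D86.gads.all (fun g => Nat.ble (2 * g.R) g.gs.length) = true := by decide +kernel

/-- there is no configuration of this instance. -/
theorem no_86 {V : Type v} [DecidableEq V] {ι : Type u} [Fintype ι] {B : ι → Finset V}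
    {Q : Finset V} {i j : ι} {x : ℕ → V} {D : ℕ → Finset V}
    (h : CfI B Q 2 x D i j [0, 0, 0, 2] [])
    (hs : Srt [(0, 1, 0, 0), (0, 2, 0, 1), (0, 4, 0, 3), (0, 5, 0, 4), (0, 3, 0, 0), (1, 6, 0, 6), (2, 6, 1, 6), (3, 7, 3, 6)] (ecB B x 8 D)) : False :=
  h.absurd (by decide) hs inst_86

end Pool.Agent.Hyp6
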