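import Pool.Agent.Hyp6.Tq2

/-!
# HYP6: instance 4 of the tight case: n = 1, bounds [0, 2], inner blocks [11]

100 base clauses, 8 special clauses, 42 gadgets, 26 learned clauses.
-/

set_option autoImplicit false
set_option maxRecDepth 100000

namespace Pool.Agent.Hyp6

open Rup

universe u v

namespace JD04

noncomputable def names : Tr :=
 (.node 62 (.node 30 (.node 14 (.node 6 (.node 2 (.node 0 (.leaf 130)
 (.node 1 (.leaf 258)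
 (.leaf 66)))
 (.node 4 (.node 3 (.leaf 2307)
 (.leaf 2114))
 (.node 5 (.leaf 65)
 (.leaf 2179))))
 (.node 10 (.node 8 (.node 7 (.leaf 2564)
 (.leaf 16577))
 (.node 9 (.leaf 8385)
 (.leaf 16705)))
 (.node 12 (.node 11 (.leaf 18753)
 (.leaf 8513))
 (.node 13 (.leaf 18625)
 (.leaf 2084)))))
 (.node 22 (.node 18 (.node 16 (.node 15 (.leaf 16769)
 (.leaf 129))
 (.node 17 (.leaf 2178)
 (.leaf 2115)))
 (.node 20 (.node 19 (.leaf 19041)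
 (.leaf 33))
 (.node 21 (.leaf 2113)
 (.leaf 2147))))
 (.node 26 (.node 24 (.node 23 (.leaf 514)
 (.leaf 2082))
 (.node 25 (.leaf 257)
 (.leaf 2083)))
 (.node 28 (.node 27 (.leaf 513)
 (.leaf 515))
 (.node 29 (.leaf 2563)
 (.leaf 2306))))))
 (.node 46 (.node 38 (.node 34 (.node 32 (.node 31 (.leaf 2177)
 (.leaf 34))
 (.node 33 (.leaf 19105)
 (.leaf 19233)))
 (.node 36 (.node 35 (.leaf 2627)
 (.leaf 19073))
 (.node 37 (.leaf 17025)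
 (.leaf 18721))))
 (.node 42 (.node 40 (.node 39 (.leaf 17185)
 (.leaf 18561))
 (.node 41 (.leaf 17153)
 (.leaf 18593)))
 (.node 44 (.node 43 (.leaf 2659)
 (.leaf 17))
 (.node 45 (.leaf 2308)
 (.leaf 10339)))))
 (.node 54 (.node 50 (.node 48 (.node 47 (.leaf 2305)
 (.leaf 9))
 (.node 49 (.leaf 19314)
 (.leaf 35)))
 (.node 52 (.node 51 (.leaf 2180)
 (.leaf 18689))
 (.node 53 (.leaf 19186)
 (.leaf 8265))))
 (.node 58 (.node 56 (.node 55 (.leaf 18985)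
 (.leaf 17057))
 (.node 57 (.leaf 516)
 (.leaf 18993)))
 (.node 60 (.node 59 (.leaf 8273)
 (.leaf 16409))
 (.node 61 (.leaf 10819)
 (.leaf 16545)))))))
 (.node 93 (.node 77 (.node 69 (.node 65 (.node 63 (.leaf 19201)
 (.node 64 (.leaf 82)
 (.leaf 74)))
 (.node 67 (.node 66 (.leaf 8289)
 (.leaf 16673))
 (.node 68 (.leaf 99)
 (.leaf 8353))))
 (.node 73 (.node 71 (.node 70 (.leaf 2065)
 (.leaf 2324))
 (.node 72 (.leaf 10513)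
 (.leaf 17217)))
 (.node 75 (.node 74 (.leaf 162)
 (.leaf 10337))
 (.node 76 (.leaf 2146)
 (.leaf 2562)))))
 (.node 85 (.node 81 (.node 79 (.node 78 (.leaf 10785)
 (.leaf 10818))
 (.node 80 (.leaf 16401)
 (.leaf 8833)))
 (.node 83 (.node 82 (.leaf 10561)
 (.leaf 2372))
 (.node 84 (.leaf 2244)
 (.leaf 10433))))
 (.node 89 (.node 87 (.node 86 (.leaf 260)
 (.leaf 11))
 (.node 88 (.leaf 2057)
 (.leaf 8769)))
 (.node 91 (.node 90 (.leaf 16521)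
 (.leaf 67))
 (.node 92 (.leaf 19)
 (.leaf 322))))))
 (.node 109 (.node 101 (.node 97 (.node 95 (.node 94 (.leaf 132)
 (.leaf 10385))
 (.node 96 (.leaf 8481)
 (.leaf 17089)))
 (.node 99 (.node 98 (.leaf 16393)
 (.leaf 642))
 (.node 100 (.leaf 131)
 (.leaf 16649))))
 (.node 105 (.node 103 (.node 102 (.leaf 194)
 (.leaf 16513))
 (.node 104 (.leaf 259)
 (.leaf 18977)))
 (.node 107 (.node 106 (.leaf 16529)
 (.leaf 19306))
 (.node 108 (.leaf 290)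
 (.leaf 2316)))))
 (.node 117 (.node 113 (.node 111 (.node 110 (.leaf 10505)
 (.leaf 18))
 (.node 112 (.leaf 2066)
 (.leaf 2196)))
 (.node 115 (.node 114 (.leaf 16641)
 (.leaf 16657))
 (.node 116 (.leaf 19178)
 (.leaf 2058))))
 (.node 121 (.node 119 (.node 118 (.leaf 2188)
 (.leaf 10377))
 (.node 120 (.leaf 10)
 (.leaf 578)))
 (.node 123 (.node 122 (.leaf 10338)
 (.leaf 16449))
 (.node 124 (.leaf 18497)
 (.leaf 18817))))))))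

noncomputable def base : List Rs := [
.deg 6 [1, 3],
.l2 0 20 24 4 1 1,
.join 1 2 5 4 1 3 [(1, 0)],
.part [80, 36] [0, 0] [11] [],
.mono 0 40 104 1,
.join 0 4 4 2 1 1 [(2, 0)],
.join 1 4 3 3 2 1 [(2, 0)],
.part [100, 16] [0, 0] [11] [],
.part [96, 20] [0, 0] [11] [],
.join 1 12 6 3 2 2 [(2, 0), (3, 1)],
.ab 0 1,
.l2 0 24 80 4 1 1,
.deg 5 [0, 3],
.join 1 4 3 3 3 2 [(2, 2)],
.hall [0] [1, 2, 6],
.deg 6 [2, 2],
.ab2 1 40,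
.join 1 8 5 4 2 2 [(3, 0)],
.deg 5 [1, 2],
.join 1 8 4 4 2 2 [(3, 0)],
.deg 5 [3, 0],
.hall [0] [0, 2, 6],
.deg 0 [2, 0],
.deg 3 [0, 2],
.l2 0 40 72 3 1 1,
.ab2 0 40,
.ordE 1 32 3,
.part [17, 110] [0, 1] [] [],
.deg 2 [2, 1],
.l2 1 12 72 3 1 2,
.ordE 1 16 3,
.deg 3 [2, 0],
.ordE 0 64 2,
.deg 1 [2, 0],
.ab 1 5,
.join 0 8 5 2 1 1 [(3, 0)],
.deg 4 [3, 0],
.lipl 1 76 94 1 18,
.l2 0 9 40 3 1 1,
.part [2, 69] [0, 0] [56] [],
.ab 1 4,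
.ordE 1 16 2,
.part [84, 32] [0, 0] [11] [],
.join 1 4 3 2 2 2 [(2, 2)],
.l2 0 36 40 5 1 1,
.mono 0 24 88 1,
.deg 6 [3, 1],
.le 1 12 8 3 3,
.part [1, 70] [0, 0] [56] [],
.ab 0 0,
.deg 2 [1, 2],
.lipl 1 76 110 1 34,
.l2 0 10 24 3 1 1,
.join 0 16 6 2 1 1 [(4, 0)],
.lip 1 84 94 11,
.deg 4 [0, 3],
.deg 4 [2, 1],
.part [33, 94] [0, 1] [] [],
.join 0 8 4 2 1 1 [(3, 0)],
.ab 0 4,
.lip 1 100 110 11,
.deg 5 [2, 1],
.ordE 1 32 1,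
.part [3, 68] [0, 0] [56] [],
.le 1 72 8 3 3,
.ordE 1 16 1,
.part [20, 96] [0, 0] [11] [],
.join 0 2 3 2 1 1 [(1, 0)],
.part [18, 109] [0, 1] [] [],
.join 0 4 5 2 1 1 [(2, 0)],
.deg 4 [1, 2],
.join 1 8 6 3 2 3 [(3, 2)],
.join 1 1 5 4 1 3 [(0, 0)],
.deg 1 [1, 1],
.lipl 1 76 109 1 33,
.ab2 0 24,
.join 1 2 4 4 2 2 [(1, 0)],
.join 0 1 3 2 1 1 [(0, 0)],
.ab 0 5,
.part [34, 93] [0, 1] [] [],
.l2 0 9 24 3 1 1,
.join 1 1 4 4 2 2 [(0, 0)],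
.l2 0 12 24 3 1 1,
.l2 0 10 40 3 1 1,
.part [36, 80] [0, 0] [11] [],
.deg 0 [1, 1],
.lipl 1 76 93 1 17,
.ab2 1 24,
.ordE 0 8 2,
.join 0 8 6 2 1 1 [(3, 0)],
.l2 0 12 40 3 1 1,
.join 0 4 3 3 2 1 [(2, 0)],
.l2 1 12 68 2 2 1,
.ab 0 3,
.join 1 8 6 3 1 4 [(3, 2)],
.join 1 4 3 3 2 2 [(2, 1)],
.deg 2 [0, 3],
.ab 1 3,
.ordE 1 32 2,
.deg 3 [1, 1]]

noncomputable def ext : List Xr := [
.l [8, 48],
.l [48, 8],
.l [16, 40],
.l [24, 32],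
.l [32, 24],
.h [0] [3, 4],
.l [40, 16],
.h [1] [3, 4]]

noncomputable def gads : List Gt := [
⟨0, [⟨36, 2, []⟩, ⟨16, 2, []⟩], [3, 3, 3], 1, [(20, 1), (48, 1)]⟩,
⟨1, [⟨76, 3, []⟩, ⟨32, 3, []⟩], [3, 3], 1, [(36, 1), (40, 1), (96, 1)]⟩,
⟨0, [⟨9, 2, []⟩, ⟨32, 2, []⟩], [3, 3, 3], 1, [(33, 1), (40, 1)]⟩,
⟨0, [⟨24, 2, []⟩, ⟨32, 2, []⟩], [3, 3, 3], 1, [(40, 1), (48, 1)]⟩,
⟨0, [⟨20, 2, []⟩, ⟨32, 2, []⟩], [3, 3, 3], 1, [(36, 1), (48, 1)]⟩,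
⟨1, [⟨12, 3, []⟩, ⟨32, 3, []⟩], [3, 3], 1, [(36, 1), (40, 1)]⟩,
⟨0, [⟨4, 3, []⟩, ⟨32, 4, []⟩, ⟨64, 3, []⟩], [7, 5], 1, [(100, 1)]⟩,
⟨0, [⟨1, 3, []⟩, ⟨2, 3, []⟩], [3, 3], 1, [(3, 1)]⟩,
⟨1, [⟨8, 3, []⟩, ⟨16, 3, []⟩], [3, 3], 1, [(24, 1)]⟩,
⟨1, [⟨8, 2, []⟩, ⟨16, 4, []⟩], [3, 1, 1], 1, [(24, 1)]⟩,
⟨0, [⟨12, 3, []⟩, ⟨16, 3, []⟩, ⟨64, 4, []⟩], [7, 3], 1, [(84, 1), (88, 1)]⟩,
⟨0, [⟨80, 2, []⟩, ⟨32, 2, []⟩], [3, 3, 3], 1, [(48, 1), (96, 1)]⟩,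
⟨1, [⟨34, 4, []⟩, ⟨4, 4, []⟩, ⟨64, 4, []⟩], [7], 1, [(70, 1), (100, 1)]⟩,
⟨1, [⟨33, 4, []⟩, ⟨4, 4, []⟩, ⟨64, 4, []⟩], [7], 1, [(69, 1), (100, 1)]⟩,
⟨1, [⟨4, 3, []⟩, ⟨64, 3, []⟩], [3, 3], 1, [(68, 1)]⟩,
⟨0, [⟨40, 2, []⟩, ⟨16, 2, []⟩], [3, 3, 3], 1, [(24, 1), (48, 1)]⟩,
⟨0, [⟨8, 2, []⟩, ⟨16, 2, []⟩], [3, 3, 3], 1, [(24, 1)]⟩,
⟨1, [⟨76, 3, []⟩, ⟨16, 3, []⟩], [3, 3], 1, [(20, 1), (24, 1), (80, 1)]⟩,
⟨1, [⟨72, 3, []⟩, ⟨16, 3, []⟩], [3, 3], 1, [(24, 1), (80, 1)]⟩,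
⟨0, [⟨4, 3, []⟩, ⟨16, 4, []⟩, ⟨64, 3, []⟩], [7, 5], 1, [(84, 1)]⟩,
⟨1, [⟨17, 4, []⟩, ⟨4, 4, []⟩, ⟨64, 4, []⟩], [7], 1, [(69, 1), (84, 1)]⟩,
⟨0, [⟨16, 2, []⟩, ⟨64, 2, []⟩], [3, 3, 3], 1, [(80, 1)]⟩,
⟨0, [⟨32, 2, []⟩, ⟨64, 2, []⟩], [3, 3, 3], 1, [(96, 1)]⟩,
⟨0, [⟨72, 2, []⟩, ⟨16, 2, []⟩], [3, 3, 3], 1, [(24, 1), (80, 1)]⟩,
⟨0, [⟨4, 2, []⟩, ⟨32, 2, []⟩], [3, 3, 3], 1, [(36, 1)]⟩,
⟨0, [⟨16, 2, []⟩, ⟨32, 2, []⟩], [3, 3, 3], 1, [(48, 1)]⟩,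
⟨1, [⟨8, 3, []⟩, ⟨32, 3, []⟩], [3, 3], 1, [(40, 1)]⟩,
⟨0, [⟨10, 2, []⟩, ⟨32, 2, []⟩], [3, 3, 3], 1, [(34, 1), (40, 1)]⟩,
⟨0, [⟨1, 2, []⟩, ⟨2, 2, []⟩], [3, 3, 3], 1, [(3, 1)]⟩,
⟨1, [⟨72, 3, []⟩, ⟨32, 3, []⟩], [3, 3], 1, [(40, 1), (96, 1)]⟩,
⟨1, [⟨18, 4, []⟩, ⟨4, 4, []⟩, ⟨64, 4, []⟩], [7], 1, [(70, 1), (84, 1)]⟩,
⟨1, [⟨16, 3, []⟩, ⟨32, 3, []⟩], [3, 3], 1, [(48, 1)]⟩,
⟨1, [⟨4, 4, []⟩, ⟨24, 4, []⟩, ⟨64, 4, []⟩], [7], 1, [(76, 1), (84, 1)]⟩,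
⟨0, [⟨8, 2, []⟩, ⟨32, 2, []⟩], [3, 3, 3], 1, [(40, 1)]⟩,
⟨1, [⟨12, 3, []⟩, ⟨16, 3, []⟩], [3, 3], 1, [(20, 1), (24, 1)]⟩,
⟨1, [⟨16, 3, []⟩, ⟨64, 3, []⟩], [3, 3], 1, [(80, 1)]⟩,
⟨0, [⟨12, 3, []⟩, ⟨32, 3, []⟩, ⟨64, 4, []⟩], [7, 3], 1, [(100, 1), (104, 1)]⟩,
⟨0, [⟨10, 2, []⟩, ⟨16, 2, []⟩], [3, 3, 3], 1, [(18, 1), (24, 1)]⟩,
⟨1, [⟨8, 2, []⟩, ⟨32, 4, []⟩], [3, 1, 1], 1, [(40, 1)]⟩,
⟨0, [⟨9, 2, []⟩, ⟨16, 2, []⟩], [3, 3, 3], 1, [(17, 1), (24, 1)]⟩,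
⟨0, [⟨4, 2, []⟩, ⟨16, 2, []⟩], [3, 3, 3], 1, [(20, 1)]⟩,
⟨1, [⟨4, 4, []⟩, ⟨40, 4, []⟩, ⟨64, 4, []⟩], [7], 1, [(76, 1), (100, 1)]⟩]

noncomputable def cnf : List (List ℕ) := [
[46, 14],
[139, 19, 0],
[141, 7, 142, 144],
[74, 76],
[21, 146],
[41, 33, 148, 138],
[49, 43, 44, 150],
[78, 80],
[82, 84],
[153, 155, 86, 156, 158],
[89, 161],
[19, 163, 0],
[50, 90],
[53, 9, 44, 92],
[88, 40, 54],
[56, 58],
[165, 23],
[9, 61, 166, 164],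
[2, 6],
[9, 35, 168, 170],
[172, 94],
[96, 40, 54],
[174, 176],
[10, 36],
[25, 179, 4],
[25, 21],
[91, 6],
[180, 98],
[100, 48],
[151, 159, 36],
[103, 12],
[182, 42],
[57, 46],
[184, 140],
[95, 105],
[11, 51, 186, 24],
[188, 62],
[191, 107, 38],
[109, 25, 4],
[160, 110],
[63, 81],
[13, 34],
[112, 104],
[49, 9, 152, 92],
[193, 25, 2],
[17, 194],
[114, 154],
[93, 36],
[196, 116],
[97, 197],
[64, 52],
[145, 99, 38],
[119, 19, 4],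
[33, 55, 198, 162],
[107, 66],
[32, 102],
[200, 34],
[202, 106],
[11, 33, 204, 18],
[33, 207],
[99, 68],
[208, 60],
[61, 94],
[120, 210],
[123, 36],
[35, 62],
[124, 126],
[89, 11, 128, 118],
[212, 214],
[41, 51, 216, 192],
[0, 12],
[9, 59, 70, 122],
[177, 7, 218, 220],
[222, 224],
[221, 215, 38],
[19, 17],
[225, 35, 226, 190],
[97, 11, 130, 108],
[51, 229],
[230, 232],
[109, 19, 4],
[235, 35, 236, 238],
[133, 19, 4],
[119, 25, 4],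
[134, 72],
[240, 234],
[239, 233, 38],
[171, 27],
[183, 4],
[11, 55, 242, 178],
[133, 25, 4],
[65, 11, 136, 132],
[245, 157, 52],
[11, 247],
[43, 15, 70, 122],
[49, 9, 44, 244],
[40, 28],
[43, 249],
[7, 60],
[4, 8],
[246, 250],
[30, 248],
[206, 22],
[16, 104],
[228, 26],
[10, 32],
[20, 80],
[42, 62],
[217, 1, 125, 31],
[87, 7, 77, 23, 127],
[131, 3, 203, 21],
[205, 3, 21, 31],
[149, 3, 135, 31],
[45, 7, 77, 23],
[101, 173, 57, 79],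
[175, 185, 121],
[37, 13, 27],
[9, 103, 27],
[137, 201, 115, 113, 195],
[199, 3, 31, 83],
[143, 29, 15, 117, 69],
[219, 29, 15, 111, 69],
[53, 59, 211],
[187, 1, 17, 31],
[5, 1, 17],
[87, 13, 85, 27, 73],
[71, 13, 27, 73],
[101, 189, 57, 113],
[237, 29, 15, 111, 67],
[1, 47, 75],
[3, 47, 83],
[243, 1, 17, 75],
[65, 3, 135],
[1, 3, 31],
[37, 7, 23],
[129, 3, 231, 21],
[241, 223, 121],
[71, 7, 23, 127],
[227, 29, 15, 117, 67],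
[13, 7, 251],
[29, 169, 15, 39, 67],
[5, 3, 21],
[45, 13, 85, 27],
[13, 59, 73],
[137, 209, 115, 79, 147],
[129, 1, 213, 17],
[9, 91, 23],
[131, 1, 181, 17],
[65, 1, 125],
[29, 167, 15, 39, 69]]

noncomputable def db : Tr :=
 (.node 88 (.node 44 (.node 22 (.node 11 (.node 5 (.node 2 (.node 1 (.leaf 0x100030)
 (.leaf 0x20015008d))
 (.node 3 (.leaf 0x9200900009008f)
 (.node 4 (.leaf 0x4e004c)
 (.leaf 0x940017))))
 (.node 8 (.node 6 (.leaf 0x8c00960023002b)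
 (.node 7 (.leaf 0x98002e002d0033)
 (.leaf 0x520050)))
 (.node 9 (.leaf 0x560054)
 (.node 10 (.leaf 0xa0009e0058009d009b)
 (.leaf 0xa3005b)))))
 (.node 16 (.node 13 (.node 12 (.leaf 0x200a50015)
 (.leaf 0x5c0034))
 (.node 14 (.leaf 0x5e002e000b0037)
 (.node 15 (.leaf 0x38002a005a)
 (.leaf 0x3c003a))))
 (.node 19 (.node 17 (.leaf 0x1900a7)
 (.node 18 (.leaf 0xa600a8003f000b)
 (.leaf 0x80004)))
 (.node 20 (.leaf 0xac00aa0025000b)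
 (.node 21 (.leaf 0x6000ae)
 (.leaf 0x38002a0062))))))
 (.node 33 (.node 27 (.node 24 (.node 23 (.leaf 0xb200b0)
 (.leaf 0x26000c))
 (.node 25 (.leaf 0x600b5001b)
 (.node 26 (.leaf 0x17001b)
 (.leaf 0x8005d))))
 (.node 30 (.node 28 (.leaf 0x6400b6)
 (.node 29 (.leaf 0x320066)
 (.leaf 0x2600a10099)))
 (.node 31 (.leaf 0xe0069)
 (.node 32 (.leaf 0x2c00b8)
 (.leaf 0x30003b)))))
 (.node 38 (.node 35 (.node 34 (.leaf 0x8e00ba)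
 (.leaf 0x6b0061))
 (.node 36 (.leaf 0x1a00bc0035000d)
 (.node 37 (.leaf 0x4000be)
 (.leaf 0x28006d00c1))))
 (.node 41 (.node 39 (.leaf 0x6001b006f)
 (.node 40 (.leaf 0x7000a2)
 (.leaf 0x530041)))
 (.node 42 (.leaf 0x24000f)
 (.node 43 (.leaf 0x6a0072)
 (.leaf 0x5e009a000b0033)))))))
 (.node 66 (.node 55 (.node 49 (.node 46 (.node 45 (.leaf 0x4001b00c3)
 (.leaf 0xc40013))
 (.node 47 (.leaf 0x9c0074)
 (.node 48 (.leaf 0x26005f)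
 (.leaf 0x7600c6))))
 (.node 52 (.node 50 (.leaf 0xc70063)
 (.node 51 (.leaf 0x360042)
 (.leaf 0x2800650093)))
 (.node 53 (.leaf 0x600150079)
 (.node 54 (.leaf 0xa400c800390023)
 (.leaf 0x44006d)))))
 (.node 60 (.node 57 (.node 56 (.leaf 0x680022)
 (.leaf 0x2400ca))
 (.node 58 (.leaf 0x6c00cc)
 (.node 59 (.leaf 0x1400ce0023000d)
 (.leaf 0xd10023))))
 (.node 63 (.node 61 (.leaf 0x460065)
 (.node 62 (.leaf 0x3e00d2)
 (.leaf 0x60003f)))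
 (.node 64 (.leaf 0xd4007a)
 (.node 65 (.leaf 0x26007d)
 (.leaf 0x400025))))))
 (.node 77 (.node 71 (.node 68 (.node 67 (.leaf 0x80007e)
 (.leaf 0x780082000d005b))
 (.node 69 (.leaf 0xd800d6)
 (.node 70 (.leaf 0xc200da0035002b)
 (.leaf 0xe0002))))
 (.node 74 (.node 72 (.leaf 0x7c0048003d000b)
 (.node 73 (.leaf 0xde00dc000900b3)
 (.leaf 0xe200e0)))
 (.node 75 (.leaf 0x2800d900df)
 (.node 76 (.leaf 0x130015)
 (.leaf 0xc000e4002500e3)))))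
 (.node 82 (.node 79 (.node 78 (.leaf 0x6e0084000d0063)
 (.leaf 0xe70035))
 (.node 80 (.leaf 0xea00e8)
 (.node 81 (.leaf 0x60015006f)
 (.leaf 0xf000ee002500ed))))
 (.node 85 (.node 83 (.leaf 0x600150087)
 (.node 84 (.leaf 0x6001b0079)
 (.leaf 0x4a0088)))
 (.node 86 (.leaf 0xec00f2)
 (.node 87 (.leaf 0x2800eb00f1)
 (.leaf 0x1d00ad))))))))
 (.node 132 (.node 110 (.node 99 (.node 93 (.node 90 (.node 89 (.leaf 0x600b9)
 (.leaf 0xb400f40039000d))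
 (.node 91 (.leaf 0x6001b0087)
 (.node 92 (.leaf 0x86008a000d0043)
 (.leaf 0x36009f00f7))))
 (.node 96 (.node 94 (.leaf 0xf9000d)
 (.node 95 (.leaf 0x7c00480011002d)
 (.leaf 0xf6002e000b0033)))
 (.node 97 (.leaf 0x1e002a)
 (.node 98 (.leaf 0xfb002d)
 (.leaf 0x3e0009)))))
 (.node 104 (.node 101 (.node 100 (.leaf 0xa0006)
 (.leaf 0xfc00f8))
 (.node 102 (.leaf 0xfa0020)
 (.node 103 (.leaf 0x1800d0)
 (.leaf 0x6a0012))))
 (.node 107 (.node 105 (.leaf 0x1c00e6)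
 (.node 106 (.leaf 0x22000c)
 (.leaf 0x520016)))
 (.node 108 (.leaf 0x40002c)
 (.node 109 (.leaf 0x21007f000300db)
 (.leaf 0x810019004f00090059))))))
 (.node 121 (.node 115 (.node 112 (.node 111 (.leaf 0x1700cd00050085)
 (.leaf 0x210017000500cf))
 (.node 113 (.leaf 0x21008900050097)
 (.node 114 (.leaf 0x19004f0009002f)
 (.leaf 0x51003b00af0067))))
 (.node 118 (.node 116 (.leaf 0x7b00bb00b1)
 (.node 117 (.leaf 0x1d000f0027)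
 (.leaf 0x1d0069000b)))
 (.node 119 (.leaf 0xc50073007500cb008b)
 (.node 120 (.leaf 0x550021000500c9)
 (.leaf 0x4700770011001f0091)))))
 (.node 126 (.node 123 (.node 122 (.leaf 0x4700710011001f00dd)
 (.leaf 0xd5003d0037))
 (.node 124 (.leaf 0x210013000300bd)
 (.node 125 (.leaf 0x1300030007)
 (.leaf 0x4b001d0057000f0059))))
 (.node 129 (.node 127 (.leaf 0x4b001d000f0049)
 (.node 128 (.leaf 0x73003b00bf0067)
 (.leaf 0x4500710011001f00ef)))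
 (.node 130 (.leaf 0x4d00310003)
 (.node 131 (.leaf 0x5500310005)
 (.leaf 0x4d0013000300f5)))))))
 (.node 154 (.node 143 (.node 137 (.node 134 (.node 133 (.leaf 0x8900050043)
 (.leaf 0x2100050003))
 (.node 135 (.leaf 0x1900090027)
 (.node 136 (.leaf 0x1700e900050083)
 (.leaf 0x7b00e100f3))))
 (.node 140 (.node 138 (.leaf 0x81001900090049)
 (.node 139 (.leaf 0x4500770011001f00e5)
 (.leaf 0xfd0009000f)))
 (.node 141 (.leaf 0x450029001100ab001f)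
 (.node 142 (.leaf 0x1700050007)
 (.leaf 0x1d0057000f002f)))))
 (.node 148 (.node 145 (.node 144 (.leaf 0x4b003d000f)
 (.leaf 0x950051007500d3008b))
 (.node 146 (.leaf 0x1300d700030083)
 (.node 147 (.leaf 0x19005d000b)
 (.leaf 0x1300b700030085))))
 (.node 151 (.node 149 (.leaf 0x7f00030043)
 (.node 150 (.leaf 0x470029001100a9001f)
 (.leaf 0xfd002c)))
 (.node 152 (.leaf 0x2d00af0005000f001d00f7009d004b)
 (.node 153 (.leaf 0x210008001f0089)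
 (.leaf 0x2d00af00d30005000f001d0086004b))))))
 (.node 165 (.node 159 (.node 156 (.node 155 (.leaf 0x21002d0060)
 (.leaf 0x2100fd000f))
 (.node 157 (.leaf 0x2d007300c500030009000b0019008600bf00cb0081)
 (.node 158 (.leaf 0x2100fd)
 (.leaf 0x21))))
 (.node 162 (.node 160 (.leaf 0xfa)
 (.node 161 (.leaf 0x2d)
 (.leaf 0xb8)))
 (.node 163 (.leaf 0x40)
 (.node 164 (.leaf 0xfd)
 (.leaf 0x6)))))
 (.node 170 (.node 167 (.node 166 (.leaf 0x53)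
 (.leaf 0xf8))
 (.node 168 (.leaf 0x16)
 (.node 169 (.leaf 0xd)
 (.leaf 0x5))))
 (.node 173 (.node 171 (.leaf 0x26)
 (.node 172 (.leaf 0x22)
 (.leaf 0x8)))
 (.node 174 (.leaf 0xd1)
 (.node 175 (.leaf 0x19)
 (.leaf 0x0)))))))))

noncomputable def prf : List ℕ := [
0x2e00019000730004f000570000a0003300083000080002b0006d0003d0002a00076,
0x8d000790003a000900008900019000080006b0008e0007a000140002400096000870003800007000180006700056000220008f00033000090002c0006e000550006d,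
0xf0004e000420004b0004600072000410000b0000d00017000610005e0004800029000670001000070000580004a00066000540008d0001d00082000890008800062000770009700020000150008f000090008a00065000920001300027000680008400040000960008c00063000470005d00060000220003400080000230002f000490008b0007d000280000a0002d0006f000560006e000510001200085,
0x80006a0003d0000100066000390008b0000a000900007c000160002600098000890003a000090001a000810006900058000240009100094000350000b0002e00070000570006f,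
0x39000940000100029000450000000047000980005f0006200024000360002a0000c0002f0008200071000250005800031000700004b000530008d000140007f00087000370005c0005b00085,
0x600006300083000250002600037000320002b0000d0004c000300008e000720008000088000590000f000710004f00033000780000000004,
0x6d0002500092000400007e0003f000690003c000950008e0002e0002a00070000980007f0001a0001c0009b0008c0003d0005400012000840006c0005b00015,
0x290007b000860009a000540006900052000070002300024000600008100058000090006c0000b000750005d0004f0006b000590009200022000870008e0008d000430007c0009c000190001b000990002b0003c0008f000570006a00030000080005a00000000640005b00078000740003200042000490007000076000830008400079000900006d000850008b0000a000160008c0003a00036000390008a0006100021000200001700065000560007e000010006f00035000720007a0000200006,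
0x35000290004f000570009100018000830008b0001700037000620003400086000400003900000,
0x3900000,
0x3e00000,
0x8100000,
0x3600001,
0xc00002,
0x4b00002,
0x7c00002,
0x4100002,
0x3c00001,
0x4a00001,
0x1b0000400001,
0x9200001,
0x4100002,
0x9900002,
0x7100001,
0x270000300001,
0x480000000001]

end JD04

theorem instT_04 : instT 1 [0, 2] [11] JD04.base JD04.ext JD04.gads JD04.names JD04.cnf JD04.db JD04.prf = true := by decide +kernel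

/-- there is no configuration of this instance of the tight case. -/
theorem noT_04 {V : Type v} [DecidableEq V] {ι : Type u} [Fintype ι] {B : ι → Finset V}
    {Q : Finset V} {i j : ι} {x : ℕ → V} {D : ℕ → Finset V}
    (h : CfQI B Q 1 x D i j [0, 2] [11]) : False :=
  h.absurd (by decide) instT_04

end Pool.Agent.Hyp6
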