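import Pool.Agent.Hyp6.Tq2

/-!
# HYP6: instance 9 of the tight case: n = 1, bounds [0, 2], inner blocks [73]

95 base clauses, 9 special clauses, 44 gadgets, 28 learned clauses.
-/

set_option autoImplicit false
set_option maxRecDepth 100000

namespace Pool.Agent.Hyp6

open Rup

universe u v

namespace JD09

noncomputable def names : Tr :=
 (.node 59 (.node 29 (.node 14 (.node 6 (.node 2 (.node 0 (.leaf 130)
 (.node 1 (.leaf 65)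
 (.leaf 258)))
 (.node 4 (.node 3 (.leaf 2307)
 (.leaf 66))
 (.node 5 (.leaf 2179)
 (.leaf 16769))))
 (.node 10 (.node 8 (.node 7 (.leaf 16577)
 (.leaf 2068))
 (.node 9 (.leaf 2114)
 (.leaf 129)))
 (.node 12 (.node 11 (.leaf 18753)
 (.leaf 2084))
 (.node 13 (.leaf 18625)
 (.leaf 8513)))))
 (.node 21 (.node 17 (.node 15 (.leaf 8385)
 (.node 16 (.leaf 2305)
 (.leaf 2306)))
 (.node 19 (.node 18 (.leaf 16705)
 (.leaf 257))
 (.node 20 (.leaf 17)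
 (.leaf 2178))))
 (.node 25 (.node 23 (.node 22 (.leaf 33)
 (.leaf 2113))
 (.node 24 (.leaf 34)
 (.leaf 18545)))
 (.node 27 (.node 26 (.leaf 18)
 (.leaf 8273))
 (.node 28 (.leaf 19186)
 (.leaf 19314))))))
 (.node 44 (.node 36 (.node 32 (.node 30 (.leaf 2115)
 (.node 31 (.leaf 131)
 (.leaf 18993)))
 (.node 34 (.node 33 (.leaf 2067)
 (.leaf 132))
 (.node 35 (.leaf 2083)
 (.leaf 18737))))
 (.node 40 (.node 38 (.node 37 (.leaf 18609)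
 (.leaf 18817))
 (.node 39 (.leaf 17290)
 (.leaf 2058)))
 (.node 42 (.node 41 (.leaf 16545)
 (.leaf 18705))
 (.node 43 (.leaf 2563)
 (.leaf 2820)))))
 (.node 51 (.node 47 (.node 45 (.leaf 11009)
 (.node 46 (.leaf 2562)
 (.leaf 2692)))
 (.node 49 (.node 48 (.leaf 10881)
 (.leaf 8353))
 (.node 50 (.leaf 10561)
 (.leaf 8289))))
 (.node 55 (.node 53 (.node 52 (.leaf 16561)
 (.leaf 18689))
 (.node 54 (.leaf 2177)
 (.leaf 2308)))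
 (.node 57 (.node 56 (.leaf 260)
 (.leaf 74))
 (.node 58 (.leaf 8265)
 (.leaf 19)))))))
 (.node 89 (.node 74 (.node 66 (.node 62 (.node 60 (.leaf 2180)
 (.node 61 (.leaf 10433)
 (.leaf 2147)))
 (.node 64 (.node 63 (.leaf 18561)
 (.leaf 16689))
 (.node 65 (.leaf 16657)
 (.leaf 18593))))
 (.node 70 (.node 68 (.node 67 (.leaf 16673)
 (.leaf 18577))
 (.node 69 (.leaf 515)
 (.leaf 18489)))
 (.node 72 (.node 71 (.leaf 16529)
 (.leaf 18721))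
 (.node 73 (.leaf 35)
 (.leaf 2131)))))
 (.node 81 (.node 77 (.node 75 (.leaf 322)
 (.node 76 (.leaf 10505)
 (.leaf 17025)))
 (.node 79 (.node 78 (.leaf 82)
 (.leaf 8337))
 (.node 80 (.leaf 10)
 (.leaf 16649))))
 (.node 85 (.node 83 (.node 82 (.leaf 16641)
 (.leaf 16785))
 (.node 84 (.leaf 10377)
 (.leaf 17153)))
 (.node 87 (.node 86 (.leaf 2372)
 (.leaf 16801))
 (.node 88 (.leaf 513)
 (.leaf 67))))))
 (.node 104 (.node 96 (.node 92 (.node 90 (.leaf 163)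
 (.node 91 (.leaf 10321)
 (.leaf 10338)))
 (.node 94 (.node 93 (.leaf 16905)
 (.leaf 18481))
 (.node 95 (.leaf 9)
 (.leaf 2188))))
 (.node 100 (.node 98 (.node 97 (.leaf 16897)
 (.leaf 2066))
 (.node 99 (.leaf 16609)
 (.leaf 18497)))
 (.node 102 (.node 101 (.leaf 2244)
 (.leaf 98))
 (.node 103 (.leaf 8465)
 (.leaf 16513)))))
 (.node 111 (.node 107 (.node 105 (.leaf 16449)
 (.node 106 (.leaf 2082)
 (.leaf 99)))
 (.node 109 (.node 108 (.leaf 514)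
 (.leaf 16593))
 (.node 110 (.leaf 16521)
 (.leaf 83))))
 (.node 115 (.node 113 (.node 112 (.leaf 2243)
 (.leaf 274))
 (.node 114 (.leaf 162)
 (.leaf 147)))
 (.node 117 (.node 116 (.leaf 2371)
 (.leaf 194))
 (.node 118 (.leaf 2316)
 (.leaf 259))))))))

noncomputable def base : List Rs := [
.join 0 8 5 2 1 1 [(3, 0)],
.lipl 0 80 113 1 33,
.join 0 2 3 2 1 1 [(1, 0)],
.l2 0 18 24 4 1 1,
.deg 0 [1, 1],
.part [33, 94] [0, 1] [] [],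
.ab 0 5,
.part [20, 34] [0, 0] [73] [],
.join 1 32 6 4 1 3 [(5, 0)],
.join 1 16 6 4 2 2 [(4, 0)],
.l2 0 20 24 4 1 1,
.mono 0 48 50 1,
.deg 1 [0, 3],
.lipl 0 96 113 1 17,
.join 1 8 5 4 2 2 [(3, 0)],
.mono 0 48 52 1,
.hall [0] [1, 2, 6],
.deg 3 [2, 0],
.deg 5 [1, 2],
.l2 0 12 40 3 1 1,
.join 0 4 4 3 2 1 [(2, 0)],
.part [22, 32] [0, 0] [73] [],
.lipl 1 14 110 1 96,
.l2 1 10 12 3 1 2,
.part [65, 6] [0, 0] [56] [],
.part [113, 14] [1, 0] [] [],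
.join 1 16 6 4 1 3 [(4, 0)],
.deg 5 [0, 3],
.deg 3 [0, 2],
.ordE 1 32 1,
.deg 5 [3, 0],
.join 0 1 3 2 1 1 [(0, 0)],
.join 1 1 4 4 2 2 [(0, 0)],
.ab 0 6,
.ordE 0 16 2,
.deg 4 [1, 2],
.deg 1 [2, 1],
.mono 0 24 28 1,
.lip 1 70 110 56,
.ab 1 3,
.ab2 1 40,
.deg 1 [1, 2],
.ordE 1 16 3,
.join 1 8 4 4 2 2 [(3, 0)],
.join 0 4 3 2 1 1 [(2, 0)],
.l2 0 34 40 5 1 1,
.ab 0 4,
.ab 0 3,
.deg 2 [0, 3],
.join 1 4 3 3 2 2 [(2, 1)],
.ab2 0 40,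
.deg 4 [3, 0],
.lip 1 70 94 56,
.l2 0 9 24 3 1 1,
.join 0 4 3 3 2 1 [(2, 0)],
.ab2 0 24,
.ab 1 4,
.deg 6 [1, 2],
.mono 0 24 26 1,
.part [17, 110] [0, 1] [] [],
.ab 1 5,
.join 0 2 3 3 2 1 [(1, 0)],
.ordE 1 32 2,
.part [38, 16] [0, 0] [73] [],
.part [34, 20] [0, 0] [73] [],
.deg 2 [1, 2],
.part [36, 18] [0, 0] [73] [],
.hall [0] [0, 1, 2],
.deg 6 [2, 1],
.deg 4 [0, 3],
.join 1 32 6 4 2 2 [(5, 0)],
.part [64, 7] [0, 0] [56] [],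
.lip 1 38 110 73,
.join 1 8 4 3 1 2 [(3, 0)],
.lipl 1 14 94 1 80,
.join 0 2 5 2 1 1 [(1, 0)],
.ordE 0 16 3,
.join 0 4 4 2 1 1 [(2, 0)],
.l2 0 10 24 3 1 1,
.l2 0 9 40 3 1 1,
.join 0 2 4 3 2 1 [(1, 0)],
.part [18, 36] [0, 0] [73] [],
.deg 3 [1, 1],
.lip 1 22 94 73,
.ordE 0 8 2,
.join 1 8 5 3 2 1 [(3, 0)],
.l2 0 10 40 3 1 1,
.deg 2 [2, 1],
.join 1 2 3 3 2 1 [(1, 0)],
.join 0 8 4 2 1 1 [(3, 0)],
.deg 4 [2, 1],
.ab2 1 24,
.ordE 1 32 3,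
.join 1 1 5 4 2 2 [(0, 0)],
.deg 5 [2, 1]]

noncomputable def ext : List Xr := [
.l [48, 8],
.l [16, 40],
.l [24, 32],
.h [1] [3, 5],
.l [32, 24],
.l [40, 16],
.h [0] [3, 4],
.l [8, 48],
.h [0] [3, 5]]

noncomputable def gads : List Gt := [
⟨0, [⟨8, 2, []⟩, ⟨32, 2, []⟩], [3, 3, 3], 1, [(40, 1)]⟩,
⟨0, [⟨2, 2, []⟩, ⟨32, 2, []⟩], [3, 3, 3], 1, [(34, 1)]⟩,
⟨0, [⟨2, 2, []⟩, ⟨16, 2, []⟩], [3, 3, 3], 1, [(18, 1)]⟩,
⟨0, [⟨9, 2, []⟩, ⟨16, 2, []⟩], [3, 3, 3], 1, [(17, 1), (24, 1)]⟩,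
⟨1, [⟨2, 4, []⟩, ⟨4, 4, []⟩, ⟨24, 4, []⟩], [7], 1, [(14, 1), (22, 1)]⟩,
⟨0, [⟨12, 2, []⟩, ⟨16, 2, []⟩], [3, 3, 3], 1, [(20, 1), (24, 1)]⟩,
⟨1, [⟨8, 2, []⟩, ⟨16, 4, []⟩], [3, 1, 1], 1, [(24, 1)]⟩,
⟨0, [⟨34, 2, []⟩, ⟨16, 2, []⟩], [3, 3, 3], 1, [(18, 1), (48, 1)]⟩,
⟨1, [⟨8, 3, []⟩, ⟨16, 3, []⟩], [3, 3], 1, [(24, 1)]⟩,
⟨1, [⟨8, 3, []⟩, ⟨32, 3, []⟩], [3, 3], 1, [(40, 1)]⟩,
⟨1, [⟨24, 3, []⟩, ⟨32, 3, []⟩], [3, 3], 1, [(40, 1), (48, 1)]⟩,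
⟨1, [⟨33, 4, []⟩, ⟨2, 4, []⟩, ⟨4, 4, []⟩], [7], 1, [(7, 1), (38, 1)]⟩,
⟨1, [⟨12, 3, []⟩, ⟨16, 3, []⟩], [3, 3], 1, [(20, 1), (24, 1)]⟩,
⟨1, [⟨10, 3, []⟩, ⟨32, 3, []⟩], [3, 3], 1, [(34, 1), (40, 1)]⟩,
⟨0, [⟨32, 3, []⟩, ⟨64, 3, []⟩], [3, 3], 1, [(96, 1)]⟩,
⟨0, [⟨10, 3, []⟩, ⟨4, 3, []⟩, ⟨16, 4, []⟩], [7, 3], 1, [(22, 1), (28, 1)]⟩,
⟨0, [⟨10, 2, []⟩, ⟨32, 2, []⟩], [3, 3, 3], 1, [(34, 1), (40, 1)]⟩,
⟨1, [⟨2, 4, []⟩, ⟨4, 4, []⟩, ⟨40, 4, []⟩], [7], 1, [(14, 1), (38, 1)]⟩,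
⟨1, [⟨4, 3, []⟩, ⟨16, 3, []⟩], [3, 3], 1, [(20, 1)]⟩,
⟨1, [⟨2, 3, []⟩, ⟨4, 3, []⟩], [3, 3], 1, [(6, 1)]⟩,
⟨0, [⟨20, 2, []⟩, ⟨32, 2, []⟩], [3, 3, 3], 1, [(36, 1), (48, 1)]⟩,
⟨1, [⟨2, 4, []⟩, ⟨4, 4, []⟩, ⟨96, 4, []⟩], [7], 1, [(38, 1), (70, 1)]⟩,
⟨1, [⟨4, 3, []⟩, ⟨32, 3, []⟩], [3, 3], 1, [(36, 1)]⟩,
⟨1, [⟨2, 4, []⟩, ⟨4, 4, []⟩, ⟨80, 4, []⟩], [7], 1, [(22, 1), (70, 1)]⟩,
⟨1, [⟨12, 3, []⟩, ⟨32, 3, []⟩], [3, 3], 1, [(36, 1), (40, 1)]⟩,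
⟨0, [⟨12, 3, []⟩, ⟨2, 3, []⟩, ⟨16, 4, []⟩], [7, 3], 1, [(22, 1), (26, 1)]⟩,
⟨0, [⟨8, 2, []⟩, ⟨16, 2, []⟩], [3, 3, 3], 1, [(24, 1)]⟩,
⟨1, [⟨2, 3, []⟩, ⟨32, 3, []⟩], [3, 3], 1, [(34, 1)]⟩,
⟨1, [⟨40, 3, []⟩, ⟨16, 3, []⟩], [3, 3], 1, [(24, 1), (48, 1)]⟩,
⟨0, [⟨40, 2, []⟩, ⟨16, 2, []⟩], [3, 3, 3], 1, [(24, 1), (48, 1)]⟩,
⟨1, [⟨2, 3, []⟩, ⟨16, 3, []⟩], [3, 3], 1, [(18, 1)]⟩,
⟨0, [⟨16, 3, []⟩, ⟨64, 3, []⟩], [3, 3], 1, [(80, 1)]⟩,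
⟨0, [⟨18, 3, []⟩, ⟨4, 3, []⟩, ⟨32, 4, []⟩], [7, 3], 1, [(38, 1), (52, 1)]⟩,
⟨0, [⟨1, 2, []⟩, ⟨64, 2, []⟩], [3, 3, 3], 1, [(65, 1)]⟩,
⟨0, [⟨24, 2, []⟩, ⟨32, 2, []⟩], [3, 3, 3], 1, [(40, 1), (48, 1)]⟩,
⟨0, [⟨16, 2, []⟩, ⟨32, 2, []⟩], [3, 3, 3], 1, [(48, 1)]⟩,
⟨1, [⟨17, 4, []⟩, ⟨2, 4, []⟩, ⟨4, 4, []⟩], [7], 1, [(7, 1), (22, 1)]⟩,
⟨1, [⟨16, 3, []⟩, ⟨32, 3, []⟩], [3, 3], 1, [(48, 1)]⟩,
⟨0, [⟨20, 3, []⟩, ⟨2, 3, []⟩, ⟨32, 4, []⟩], [7, 3], 1, [(38, 1), (50, 1)]⟩,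
⟨0, [⟨4, 2, []⟩, ⟨32, 2, []⟩], [3, 3, 3], 1, [(36, 1)]⟩,
⟨1, [⟨10, 3, []⟩, ⟨16, 3, []⟩], [3, 3], 1, [(18, 1), (24, 1)]⟩,
⟨0, [⟨9, 2, []⟩, ⟨32, 2, []⟩], [3, 3, 3], 1, [(33, 1), (40, 1)]⟩,
⟨0, [⟨4, 2, []⟩, ⟨16, 2, []⟩], [3, 3, 3], 1, [(20, 1)]⟩,
⟨1, [⟨8, 2, []⟩, ⟨32, 4, []⟩], [3, 1, 1], 1, [(40, 1)]⟩]

noncomputable def cnf : List (List ℕ) := [
[3, 39, 150, 28],
[153, 79, 154],
[41, 3, 156, 54],
[159, 31, 0],
[160, 80],
[162, 56],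
[39, 165],
[82, 84],
[33, 87, 88, 90],
[43, 93, 94, 96],
[99, 31, 0],
[13, 166],
[40, 16],
[169, 79, 170],
[19, 35, 172, 100],
[13, 174],
[40, 44, 176],
[178, 46],
[4, 6],
[103, 29, 8],
[49, 21, 180, 98],
[104, 106],
[91, 59, 50],
[183, 185, 60],
[186, 188],
[78, 50],
[109, 87, 94, 96],
[38, 110],
[2, 60],
[35, 32],
[112, 32],
[191, 3, 114, 116],
[81, 43, 192, 168],
[177, 195],
[63, 0],
[0, 10],
[118, 196],
[15, 198],
[59, 64],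
[47, 201],
[101, 23],
[52, 66],
[121, 10],
[19, 43, 202, 122],
[45, 3, 204, 102],
[207, 29, 4],
[21, 209],
[3, 211],
[44, 24],
[213, 19, 124, 184],
[29, 37],
[68, 108],
[57, 64],
[117, 31, 8],
[49, 3, 214, 102],
[31, 15],
[109, 127],
[216, 86],
[15, 218],
[220, 58],
[33, 107],
[53, 3, 222, 54],
[7, 34],
[128, 126],
[130, 132],
[48, 70],
[134, 136],
[190, 40, 44],
[138, 92],
[20, 120],
[35, 93, 88, 90],
[194, 140],
[59, 72],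
[47, 43, 224, 122],
[97, 57, 50],
[41, 39, 226, 206],
[69, 62],
[45, 21, 228, 98],
[55, 31, 8],
[117, 29, 8],
[53, 21, 230, 158],
[142, 144],
[8, 18],
[57, 74],
[179, 8],
[19, 33, 232, 100],
[55, 29, 8],
[146, 212],
[197, 47, 148, 182],
[3, 21, 234, 30],
[62, 42],
[123, 27],
[111, 6],
[81, 35, 236, 152],
[238, 34],
[12, 200],
[208, 22],
[14, 106],
[46, 32],
[164, 26],
[36, 126],
[2, 20],
[210, 76],
[2, 38],
[9, 5, 37],
[53, 5, 131],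
[53, 1, 143],
[115, 1, 221, 15],
[17, 25, 203, 51, 75],
[205, 1, 83, 15],
[19, 121, 27],
[227, 1, 143, 13],
[61, 11, 27],
[61, 7, 23],
[225, 7, 23, 77],
[237, 17, 25, 141, 73],
[125, 11, 133, 27],
[149, 7, 85, 23],
[239, 139, 171],
[223, 147, 69, 105, 199],
[157, 5, 131, 37],
[17, 25, 173, 51, 73],
[71, 11, 133],
[67, 71, 189],
[229, 5, 135, 13],
[17, 25, 89, 73, 65],
[71, 7, 145],
[17, 25, 95, 75, 65],
[125, 7, 145, 23],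
[215, 119, 69, 105, 219],
[9, 1, 15],
[67, 7, 85],
[233, 11, 27, 77],
[151, 1, 15, 13],
[67, 11, 137],
[63, 139, 155],
[231, 147, 113, 129, 175],
[161, 217, 187],
[235, 5, 37, 13],
[1, 5, 13],
[193, 17, 25, 141, 75],
[11, 7, 77],
[181, 119, 113, 129, 167],
[49, 5, 135],
[149, 11, 137, 27],
[115, 5, 163, 37],
[49, 1, 83],
[19, 111, 23]]

noncomputable def db : Tr :=
 (.node 88 (.node 44 (.node 22 (.node 11 (.node 5 (.node 2 (.node 1 (.leaf 0x1e009800290005)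
 (.leaf 0x9c0051009b))
 (.node 3 (.leaf 0x38009e0005002b)
 (.node 4 (.leaf 0x2002100a1)
 (.leaf 0x5200a2))))
 (.node 8 (.node 6 (.leaf 0x3a00a4)
 (.node 7 (.leaf 0xa70029)
 (.leaf 0x560054)))
 (.node 9 (.leaf 0x5c005a00590023)
 (.node 10 (.leaf 0x620060005f002d)
 (.leaf 0x200210065)))))
 (.node 16 (.node 13 (.node 12 (.leaf 0xa8000f)
 (.leaf 0x12002a))
 (.node 14 (.leaf 0xac005100ab)
 (.node 15 (.leaf 0x6600ae00250015)
 (.leaf 0xb0000f))))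
 (.node 19 (.node 17 (.leaf 0xb2002e002a)
 (.node 18 (.leaf 0x3000b4)
 (.leaf 0x80006)))
 (.node 20 (.leaf 0xa001f0069)
 (.node 21 (.leaf 0x6400b600170033)
 (.leaf 0x6c006a))))))
 (.node 33 (.node 27 (.node 24 (.node 23 (.leaf 0x34003d005d)
 (.leaf 0x3e00bb00b9))
 (.node 25 (.leaf 0xbe00bc)
 (.node 26 (.leaf 0x340050)
 (.leaf 0x6200600059006f))))
 (.node 30 (.node 28 (.leaf 0x700028)
 (.node 29 (.leaf 0x3e0004)
 (.leaf 0x220025)))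
 (.node 31 (.leaf 0x220072)
 (.node 32 (.leaf 0x760074000500c1)
 (.leaf 0xaa00c2002d0053)))))
 (.node 38 (.node 35 (.node 34 (.leaf 0xc500b3)
 (.leaf 0x20041))
 (.node 36 (.leaf 0xc0002)
 (.node 37 (.leaf 0xc60078)
 (.leaf 0xc80011))))
 (.node 41 (.node 39 (.leaf 0x42003d)
 (.node 40 (.leaf 0xcb0031)
 (.leaf 0x190067)))
 (.node 42 (.leaf 0x440036)
 (.node 43 (.leaf 0xc007b)
 (.leaf 0x7c00cc002d0015)))))))
 (.node 66 (.node 55 (.node 49 (.node 46 (.node 45 (.leaf 0x6800ce0005002f)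
 (.leaf 0x6001f00d1))
 (.node 47 (.leaf 0xd30017)
 (.node 48 (.leaf 0xd50005)
 (.leaf 0x1a002e))))
 (.node 52 (.node 50 (.leaf 0xba007e001500d7)
 (.node 51 (.leaf 0x27001f)
 (.leaf 0x6e0046)))
 (.node 53 (.leaf 0x42003b)
 (.node 54 (.leaf 0xa00210077)
 (.leaf 0x6800d800050033)))))
 (.node 60 (.node 57 (.node 56 (.leaf 0x110021)
 (.leaf 0x81006f))
 (.node 58 (.leaf 0x5800da)
 (.node 59 (.leaf 0xdc0011)
 (.leaf 0x3c00de))))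
 (.node 63 (.node 61 (.leaf 0x6d0023)
 (.node 62 (.leaf 0x3800e000050037)
 (.leaf 0x240009)))
 (.node 64 (.leaf 0x800082)
 (.node 65 (.leaf 0x860084)
 (.leaf 0x480032))))))
 (.node 77 (.node 71 (.node 68 (.node 67 (.leaf 0x8a0088)
 (.leaf 0x2e002a00c0))
 (.node 69 (.leaf 0x5e008c)
 (.node 70 (.leaf 0x7a0016)
 (.leaf 0x5c005a005f0025))))
 (.node 74 (.node 72 (.leaf 0x8e00c4)
 (.node 73 (.leaf 0x4a003d)
 (.leaf 0x7c00e2002d0031)))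
 (.node 75 (.leaf 0x34003b0063)
 (.node 76 (.leaf 0xd000e40029002b)
 (.leaf 0x400047)))))
 (.node 82 (.node 79 (.node 78 (.leaf 0x6400e60017002f)
 (.leaf 0xa00210039))
 (.node 80 (.leaf 0xa001f0077)
 (.node 81 (.leaf 0xa000e800170037)
 (.leaf 0x920090))))
 (.node 85 (.node 83 (.leaf 0x14000a)
 (.node 84 (.leaf 0x4c003b)
 (.leaf 0xa00b5)))
 (.node 86 (.leaf 0x6600ea00230015)
 (.node 87 (.leaf 0xa001f0039)
 (.leaf 0xd60094))))))))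
 (.node 132 (.node 110 (.node 99 (.node 93 (.node 90 (.node 89 (.leaf 0xb80096003100c7)
 (.leaf 0x2000ec00170005))
 (.node 91 (.leaf 0x2c0040)
 (.node 92 (.leaf 0x1d007d)
 (.leaf 0x80071))))
 (.node 96 (.node 94 (.leaf 0x9a00ee00250053)
 (.node 95 (.leaf 0x2400f0)
 (.leaf 0xca000e)))
 (.node 97 (.leaf 0x1800d2)
 (.node 98 (.leaf 0x6c0010)
 (.leaf 0x220030)))))
 (.node 104 (.node 101 (.node 100 (.leaf 0x1c00a6)
 (.leaf 0x800026))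
 (.node 102 (.leaf 0x160004)
 (.node 103 (.leaf 0x4e00d4)
 (.leaf 0x280004))))
 (.node 107 (.node 105 (.leaf 0x270007000b)
 (.node 106 (.leaf 0x8500070037)
 (.leaf 0x9100030037)))
 (.node 108 (.leaf 0x1100df00030075)
 (.node 109 (.leaf 0x4d003500cd001b0013)
 (.leaf 0x110055000300cf))))))
 (.node 121 (.node 115 (.node 112 (.node 111 (.leaf 0x1d007b0015)
 (.leaf 0xf0091000300e5))
 (.node 113 (.leaf 0x1d000d003f)
 (.node 114 (.leaf 0x190009003f)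
 (.leaf 0x4f0019000900e3))))
 (.node 118 (.node 116 (.leaf 0x4b008f001b001300ef)
 (.node 117 (.leaf 0x1d0087000d007f)
 (.leaf 0x19005700090097)))
 (.node 119 (.leaf 0xad008d00f1)
 (.node 120 (.leaf 0xc9006b0047009500e1)
 (.leaf 0x2700850007009f)))))
 (.node 126 (.node 123 (.node 122 (.leaf 0x4b003500af001b0013)
 (.leaf 0x87000d0049))
 (.node 124 (.leaf 0xbf00490045)
 (.node 125 (.leaf 0xf0089000700e7)
 (.leaf 0x43004b005b001b0013))))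
 (.node 129 (.node 127 (.leaf 0x9300090049)
 (.node 128 (.leaf 0x43004d0061001b0013)
 (.leaf 0x1900930009007f)))
 (.node 130 (.leaf 0xdd006b0047007900d9)
 (.node 131 (.leaf 0x110003000b)
 (.leaf 0x5700090045)))))))
 (.node 154 (.node 143 (.node 137 (.node 134 (.node 133 (.leaf 0x4f001d000d00eb)
 (.leaf 0xf001100030099))
 (.node 135 (.leaf 0x8b000d0045)
 (.node 136 (.leaf 0x9d008d0041)
 (.leaf 0xb100830073009500e9))))
 (.node 140 (.node 138 (.leaf 0xbd00db00a3)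
 (.node 139 (.leaf 0xf0027000700ed)
 (.leaf 0xf00070003)))
 (.node 141 (.leaf 0x4d008f001b001300c3)
 (.node 142 (.leaf 0x4f0009000d)
 (.leaf 0xa900830073007900b7)))))
 (.node 148 (.node 145 (.node 144 (.leaf 0x8900070033)
 (.leaf 0x1d008b000d0097))
 (.node 146 (.leaf 0x2700a500070075)
 (.node 147 (.leaf 0x5500030033)
 (.leaf 0x1900710015))))
 (.node 151 (.node 149 (.leaf 0x9100e50003)
 (.node 150 (.leaf 0x30030)
 (.leaf 0x4f00ed0002)))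
 (.node 152 (.leaf 0xef0003000500290055)
 (.node 153 (.leaf 0x4f00ef0003)
 (.leaf 0xd0007008300150031001d00a0006400730033))))))
 (.node 165 (.node 159 (.node 156 (.node 155 (.leaf 0x4f00f10002001d)
 (.leaf 0x4f00f10002))
 (.node 157 (.leaf 0x300ee00af0005002900410049)
 (.node 158 (.leaf 0x4f0003)
 (.leaf 0x4f))))
 (.node 162 (.node 160 (.leaf 0xd4)
 (.node 161 (.leaf 0x5)
 (.leaf 0x3e)))
 (.node 163 (.leaf 0x16)
 (.node 164 (.leaf 0x28)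
 (.leaf 0xd3)))))
 (.node 170 (.node 167 (.node 166 (.leaf 0xa7)
 (.leaf 0x18))
 (.node 168 (.leaf 0x1c)
 (.node 169 (.leaf 0x9)
 (.leaf 0xd))))
 (.node 173 (.node 171 (.leaf 0x6)
 (.node 172 (.leaf 0x2)
 (.leaf 0xf)))
 (.node 174 (.leaf 0x30)
 (.node 175 (.leaf 0xca)
 (.leaf 0x0)))))))))

noncomputable def prf : List ℕ := [
0x3200011000570003f00031000820006c0003400024,
0x330001200058000400003200083,
0x6e0008400036000410000b0002d000310005d000830006200008000490007200073,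
0x4e0005b000230002b0004f000770007500053000860008a0004b0000200066000450006a00018000550002900004000830004700014000690009600011000350005a0007900058000840000b000370006f00001,
0x73000160003f0006100080000560006600017000190004000046000200002d0005a0006e00022000140009000000000640005f00033000410008400065000970007c0007b0000400026000450003700012000150005d00072000690003600082000520005b0006d0007a0000a00059000850000c000380007000002,
0x670004100024000100005800081000480002f000400006f0007400012000080000a0005600084000090008d00089000390007100028000530002a,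
0x79000950008c000100002300060000550007f000900004f000800000d0002d0001a00046000650009400008000520007a000780005600089000690004c0001d00057000810008d000130001e00097000700002100030000590001f00058000000007b00044000710004b000640008f0009600039000400006b000540006e0002b0007d00015000290003e000030003f0005a000470003a000720008800045000310003500061000660004d00077000870000c00076,
0x3700000000940007f0003e0000d00077,
0x3e0009a000970001400012000570006200055000930008500082000220001e000530007500060000300007c000580006b0006f0002e00094000830008f0001800020000500007200007000310004a0001d000880004c000190006e0009b000160003a0005f0007e0005d00089000100003c0007400006,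
0x6b0001c000450004b0002500085000320005f00044000730007800027000190001b00095000660000a0005b000000004200069000530006400041000380003900046000890006a000960009c00081000800008e000090002b0002a000740004a0003c000170001a00062000770006e0003b000870005700060000720007f0000f0005e0008a000110003d000750000400007,
0x4400058000810002f0002d0004b000660003a000350003c000970003900061000820006500080000410008b0006a0003f000100005100002000070007a0007b00000,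
0x3800000,
0x7000000,
0x8400000,
0x3c00001,
0x3b00002,
0x7500001,
0x9e00001,
0x4500001,
0x4300001,
0x360000600001,
0x380000700001,
0x9700001,
0x8700001,
0x200000000001,
0x1700001,
0x4e00001,
0x870000100000]

end JD09

theorem instT_09 : instT 1 [0, 2] [73] JD09.base JD09.ext JD09.gads JD09.names JD09.cnf JD09.db JD09.prf = true := by decide +kernel

/-- there is no configuration of this instance of the tight case. -/
theorem noT_09 {V : Type v} [DecidableEq V] {ι : Type u} [Fintype ι] {B : ι → Finset V}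
    {Q : Finset V} {i j : ι} {x : ℕ → V} {D : ℕ → Finset V}
    (h : CfQI B Q 1 x D i j [0, 2] [73]) : False :=
  h.absurd (by decide) instT_09

end Pool.Agent.Hyp6
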