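import Pool.Agent.Hyp6.Tq2

/-!
# HYP6: instance 11 of the tight case: n = 1, bounds [0, 0], inner blocks [8, 8]

74 base clauses, 3 special clauses, 32 gadgets, 40 learned clauses.
-/

set_option autoImplicit false
set_option maxRecDepth 100000

namespace Pool.Agent.Hyp6

open Rup

universe u v

namespace JD11

noncomputable def names : Tr :=
 (.node 44 (.node 21 (.node 10 (.node 4 (.node 1 (.node 0 (.leaf 2562)
 (.leaf 2083))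
 (.node 2 (.leaf 2066)
 (.node 3 (.leaf 2059)
 (.leaf 2058))))
 (.node 7 (.node 5 (.leaf 2067)
 (.node 6 (.leaf 16441)
 (.leaf 2065)))
 (.node 8 (.leaf 2564)
 (.node 9 (.leaf 35)
 (.leaf 2082)))))
 (.node 15 (.node 12 (.node 11 (.leaf 514)
 (.leaf 11))
 (.node 13 (.leaf 18)
 (.node 14 (.leaf 2057)
 (.leaf 10))))
 (.node 18 (.node 16 (.leaf 17)
 (.node 17 (.leaf 19)
 (.leaf 9)))
 (.node 19 (.leaf 34)
 (.node 20 (.leaf 2307)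
 (.leaf 2370))))))
 (.node 32 (.node 26 (.node 23 (.node 22 (.leaf 2081)
 (.leaf 16905))
 (.node 24 (.leaf 33)
 (.node 25 (.leaf 18961)
 (.leaf 18489))))
 (.node 29 (.node 27 (.leaf 18977)
 (.node 28 (.leaf 516)
 (.leaf 2084)))
 (.node 30 (.leaf 513)
 (.node 31 (.leaf 2113)
 (.leaf 16929)))))
 (.node 38 (.node 35 (.node 33 (.leaf 258)
 (.node 34 (.leaf 16913)
 (.leaf 36)))
 (.node 36 (.leaf 18953)
 (.node 37 (.leaf 2060)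
 (.leaf 16634))))
 (.node 41 (.node 39 (.leaf 19201)
 (.node 40 (.leaf 16826)
 (.leaf 10265)))
 (.node 42 (.leaf 10289)
 (.node 43 (.leaf 16897)
 (.leaf 12)))))))
 (.node 67 (.node 55 (.node 49 (.node 46 (.node 45 (.leaf 18497)
 (.leaf 2177))
 (.node 47 (.leaf 18561)
 (.node 48 (.leaf 8217)
 (.leaf 8233))))
 (.node 52 (.node 50 (.leaf 26)
 (.node 51 (.leaf 18457)
 (.leaf 2074)))
 (.node 53 (.leaf 2563)
 (.node 54 (.leaf 16921)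
 (.leaf 18465)))))
 (.node 61 (.node 58 (.node 56 (.leaf 2115)
 (.node 57 (.leaf 16937)
 (.leaf 18449)))
 (.node 59 (.leaf 130)
 (.node 60 (.leaf 2179)
 (.leaf 2068))))
 (.node 64 (.node 62 (.leaf 66)
 (.node 63 (.leaf 18473)
 (.leaf 2565)))
 (.node 65 (.leaf 16393)
 (.node 66 (.leaf 2210)
 (.leaf 10402))))))
 (.node 78 (.node 72 (.node 69 (.node 68 (.leaf 16433)
 (.leaf 18481))
 (.node 70 (.leaf 10562)
 (.node 71 (.leaf 16945)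
 (.leaf 18441))))
 (.node 75 (.node 73 (.leaf 16762)
 (.node 74 (.leaf 16401)
 (.leaf 19073)))
 (.node 76 (.leaf 16425)
 (.node 77 (.leaf 18985)
 (.leaf 18993)))))
 (.node 84 (.node 81 (.node 79 (.leaf 20)
 (.node 80 (.leaf 10563)
 (.leaf 2306)))
 (.node 82 (.leaf 2114)
 (.node 83 (.leaf 16409)
 (.leaf 2098))))
 (.node 87 (.node 85 (.leaf 42)
 (.node 86 (.leaf 16417)
 (.leaf 18969)))
 (.node 88 (.leaf 19009)
 (.node 89 (.leaf 16769)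
 (.leaf 16705))))))))

noncomputable def base : List Rs := [
.deg 0 [2, 1],
.ordE 1 4 3,
.part [31, 96] [1, 0] [] [],
.deg 1 [1, 2],
.lip 0 7 55 56,
.l2 1 3 6 1 1 1,
.ab 0 6,
.deg 0 [3, 0],
.ab 1 3,
.ab 1 4,
.l2 0 3 5 0 1 1,
.join 0 1 1 2 1 1 [(0, 0)],
.part [68, 3] [0, 0] [56] [],
.join 1 1 1 2 1 1 [(0, 0)],
.ordE 1 2 2,
.deg 2 [1, 2],
.ordE 1 64 3,
.ordE 1 64 2,
.deg 1 [2, 1],
.ordE 1 1 1,
.part [67, 4] [0, 0] [56] [],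
.join 1 8 5 2 3 3 [(3, 4)],
.part [69, 2] [0, 0] [56] [],
.deg 4 [1, 2],
.deg 1 [0, 3],
.deg 5 [1, 2],
.deg 3 [1, 0],
.ordE 0 2 1,
.part [66, 5] [0, 0] [56] [],
.ordE 1 64 4,
.ab 0 0,
.deg 2 [3, 0],
.join 1 4 4 2 0 3 [(2, 1)],
.deg 2 [2, 1],
.part [6, 65] [0, 0] [56] [],
.ordE 1 4 2,
.deg 6 [0, 4],
.part [65, 6] [0, 0] [56] [],
.hall [0] [1, 2, 6],
.join 1 8 5 2 0 3 [(3, 1)],
.part [70, 1] [0, 0] [56] [],
.lip 0 7 47 56,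
.ab 0 1,
.part [47, 80] [1, 0] [] [],
.part [5, 66] [0, 0] [56] [],
.part [2, 69] [0, 0] [56] [],
.le 1 20 4 2 2,
.part [1, 70] [0, 0] [56] [],
.deg 2 [0, 3],
.part [64, 7] [0, 0] [56] [],
.ordE 0 4 3,
.deg 1 [3, 0],
.ordE 1 2 1,
.le 1 40 8 3 3,
.hall [1] [0, 1, 2],
.deg 0 [1, 2],
.ab 1 0,
.ordE 1 32 2,
.le 1 40 8 3 2,
.lip 0 7 31 56,
.part [3, 68] [0, 0] [56] [],
.join 1 2 2 2 1 1 [(1, 0)],
.join 0 1 2 2 1 1 [(0, 0)],
.deg 6 [3, 1],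
.deg 6 [1, 3],
.part [4, 67] [0, 0] [56] [],
.ab 1 2,
.ordE 1 1 2,
.ab 1 1,
.join 1 8 5 2 2 2 [(3, 2)],
.ordE 1 1 3,
.part [55, 72] [1, 0] [] [],
.deg 0 [0, 3],
.ab 0 2]

noncomputable def ext : List Xr := [
.l [48, 8],
.l [40, 16],
.h [1] [3, 4]]

noncomputable def gads : List Gt := [
⟨0, [⟨2, 2, []⟩, ⟨4, 2, []⟩], [3, 3, 3], 1, [(6, 1)]⟩,
⟨1, [⟨6, 2, []⟩, ⟨64, 2, []⟩], [3, 3, 3], 1, [(66, 1), (68, 1)]⟩,
⟨1, [⟨2, 2, []⟩, ⟨4, 2, []⟩], [3, 3, 3], 1, [(6, 1)]⟩,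
⟨0, [⟨1, 3, []⟩, ⟨4, 3, []⟩, ⟨64, 4, []⟩], [7, 3], 1, [(69, 1)]⟩,
⟨0, [⟨1, 3, []⟩, ⟨2, 3, []⟩, ⟨64, 4, []⟩], [7, 3], 1, [(67, 1)]⟩,
⟨1, [⟨40, 2, []⟩, ⟨64, 2, []⟩], [3, 3, 3], 1, [(72, 1), (96, 1)]⟩,
⟨1, [⟨2, 2, []⟩, ⟨64, 2, []⟩], [3, 3, 3], 1, [(66, 1)]⟩,
⟨0, [⟨1, 3, []⟩, ⟨2, 3, []⟩, ⟨4, 4, []⟩], [7, 3], 1, [(7, 1)]⟩,
⟨0, [⟨5, 2, []⟩, ⟨64, 2, []⟩], [3, 3, 3], 1, [(65, 1), (68, 1)]⟩,
⟨1, [⟨2, 3, []⟩, ⟨4, 3, []⟩, ⟨64, 4, []⟩], [7, 3], 1, [(70, 1)]⟩,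
⟨0, [⟨3, 2, []⟩, ⟨64, 2, []⟩], [3, 3, 3], 1, [(65, 1), (66, 1)]⟩,
⟨1, [⟨1, 2, []⟩, ⟨64, 2, []⟩], [3, 3, 3], 1, [(65, 1)]⟩,
⟨0, [⟨8, 2, []⟩, ⟨32, 2, []⟩], [3, 3, 3], 1, [(40, 1)]⟩,
⟨1, [⟨4, 2, []⟩, ⟨64, 2, []⟩], [3, 3, 3], 1, [(68, 1)]⟩,
⟨0, [⟨1, 2, []⟩, ⟨4, 2, []⟩], [3, 3, 3], 1, [(5, 1)]⟩,
⟨0, [⟨16, 2, []⟩, ⟨32, 2, []⟩], [3, 3, 3], 1, [(48, 1)]⟩,
⟨1, [⟨1, 3, []⟩, ⟨2, 3, []⟩, ⟨64, 4, []⟩], [7, 3], 1, [(67, 1)]⟩,
⟨1, [⟨1, 3, []⟩, ⟨4, 3, []⟩, ⟨2, 4, []⟩], [7, 3], 1, [(7, 1)]⟩,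
⟨1, [⟨20, 2, []⟩, ⟨64, 2, []⟩], [3, 3, 3], 1, [(68, 1), (80, 1)]⟩,
⟨1, [⟨1, 3, []⟩, ⟨4, 3, []⟩, ⟨64, 4, []⟩], [7, 3], 1, [(69, 1)]⟩,
⟨0, [⟨4, 2, []⟩, ⟨64, 2, []⟩], [3, 3, 3], 1, [(68, 1)]⟩,
⟨1, [⟨3, 2, []⟩, ⟨64, 2, []⟩], [3, 3, 3], 1, [(65, 1), (66, 1)]⟩,
⟨0, [⟨1, 2, []⟩, ⟨64, 2, []⟩], [3, 3, 3], 1, [(65, 1)]⟩,
⟨1, [⟨1, 2, []⟩, ⟨4, 2, []⟩], [3, 3, 3], 1, [(5, 1)]⟩,
⟨0, [⟨1, 2, []⟩, ⟨2, 2, []⟩], [3, 3, 3], 1, [(3, 1)]⟩,
⟨0, [⟨1, 3, []⟩, ⟨4, 3, []⟩, ⟨2, 4, []⟩], [7, 3], 1, [(7, 1)]⟩,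
⟨1, [⟨1, 2, []⟩, ⟨2, 2, []⟩], [3, 3, 3], 1, [(3, 1)]⟩,
⟨1, [⟨2, 3, []⟩, ⟨4, 3, []⟩, ⟨1, 4, []⟩], [7, 3], 1, [(7, 1)]⟩,
⟨0, [⟨2, 2, []⟩, ⟨64, 2, []⟩], [3, 3, 3], 1, [(66, 1)]⟩,
⟨0, [⟨2, 3, []⟩, ⟨4, 3, []⟩, ⟨1, 4, []⟩], [7, 3], 1, [(7, 1)]⟩,
⟨1, [⟨1, 3, []⟩, ⟨2, 3, []⟩, ⟨4, 4, []⟩], [7, 3], 1, [(7, 1)]⟩,
⟨0, [⟨2, 3, []⟩, ⟨4, 3, []⟩, ⟨64, 4, []⟩], [7, 3], 1, [(70, 1)]⟩]

noncomputable def cnf : List (List ℕ) := [
[24, 8],
[59, 2],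
[76, 78],
[26, 10],
[81, 12],
[83, 85, 4],
[61, 87],
[88, 28],
[63, 91],
[93, 95],
[97, 99, 30],
[37, 33, 100, 96],
[64, 102],
[29, 15, 104, 82],
[11, 4],
[38, 2],
[17, 106],
[107, 0],
[34, 4],
[9, 28],
[108, 110],
[113, 41, 42],
[114, 116],
[118, 120],
[32, 122],
[66, 40],
[124, 62],
[27, 32],
[68, 126],
[129, 16],
[37, 131],
[70, 44],
[121, 132, 134],
[18, 20],
[136, 72],
[3, 20],
[60, 128],
[46, 138],
[32, 48, 60],
[41, 42, 140],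
[142, 144],
[147, 12],
[33, 149],
[146, 150],
[152, 50],
[148, 154],
[135, 20],
[130, 156],
[48, 58],
[86, 52],
[71, 18],
[158, 14],
[5, 14],
[161, 112],
[28, 14, 44],
[30, 6],
[29, 145],
[41, 162],
[141, 164],
[77, 12],
[166, 54],
[15, 45, 168, 84],
[37, 49, 170, 98],
[56, 0],
[22, 16],
[172, 174],
[45, 111],
[7, 8],
[15, 117],
[165, 163, 42, 160],
[75, 6],
[80, 176],
[36, 74],
[49, 173],
[178, 90],
[180, 94],
[62, 92],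
[27, 39, 137],
[169, 1, 51, 55],
[5, 21, 139],
[25, 19, 57, 115],
[25, 35, 57, 109],
[43, 1, 177, 79],
[5, 1, 51],
[25, 35, 71, 13],
[171, 23, 47, 65],
[11, 3, 17, 157],
[101, 23, 47, 69],
[9, 1, 73],
[125, 67, 181],
[21, 1, 55],
[31, 39, 153],
[119, 67, 179],
[7, 11, 17, 175],
[7, 3, 123, 53],
[133, 1, 55, 151],
[7, 3, 17, 155],
[39, 23, 65],
[105, 1, 73, 51],
[31, 23, 47],
[9, 21, 127],
[31, 27, 167],
[25, 19, 159, 13],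
[9, 5, 103],
[11, 3, 75, 53],
[27, 23, 69],
[35, 19, 89, 13],
[7, 11, 59, 53],
[35, 19, 57, 143]]

noncomputable def db : Tr :=
 (.node 74 (.node 37 (.node 18 (.node 9 (.node 4 (.node 2 (.node 1 (.leaf 0xa001a)
 (.leaf 0x4003d))
 (.node 3 (.leaf 0x50004e)
 (.leaf 0xc001c)))
 (.node 6 (.node 5 (.leaf 0xe0053)
 (.leaf 0x600570055))
 (.node 7 (.leaf 0x59003f)
 (.node 8 (.leaf 0x1e005a)
 (.leaf 0x5d0041)))))
 (.node 13 (.node 11 (.node 10 (.leaf 0x61005f)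
 (.leaf 0x2000650063))
 (.node 12 (.leaf 0x62006600230027)
 (.leaf 0x680042)))
 (.node 15 (.node 14 (.leaf 0x54006a0011001f)
 (.leaf 0x6000d))
 (.node 16 (.leaf 0x40028)
 (.node 17 (.leaf 0x6c0013)
 (.leaf 0x2006d))))))
 (.node 27 (.node 22 (.node 20 (.node 19 (.leaf 0x60024)
 (.leaf 0x1e000b))
 (.node 21 (.leaf 0x70006e)
 (.leaf 0x2c002b0073)))
 (.node 24 (.node 23 (.leaf 0x760074)
 (.leaf 0x7a0078))
 (.node 25 (.leaf 0x7c0022)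
 (.node 26 (.leaf 0x2a0044)
 (.leaf 0x40007e)))))
 (.node 32 (.node 29 (.node 28 (.leaf 0x22001d)
 (.leaf 0x800046))
 (.node 30 (.leaf 0x120083)
 (.node 31 (.leaf 0x850027)
 (.leaf 0x2e0048))))
 (.node 34 (.node 33 (.leaf 0x880086007b)
 (.leaf 0x160014))
 (.node 35 (.leaf 0x4a008a)
 (.node 36 (.leaf 0x160005)
 (.leaf 0x82003e)))))))
 (.node 55 (.node 46 (.node 41 (.node 39 (.node 38 (.leaf 0x8c0030)
 (.leaf 0x3e00320022))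
 (.node 40 (.leaf 0x8e002c002b)
 (.leaf 0x920090)))
 (.node 43 (.node 42 (.leaf 0xe0095)
 (.leaf 0x970023))
 (.node 44 (.leaf 0x980094)
 (.node 45 (.leaf 0x34009a)
 (.leaf 0x9c0096)))))
 (.node 50 (.node 48 (.node 47 (.leaf 0x160089)
 (.leaf 0x9e0084))
 (.node 49 (.leaf 0x3c0032)
 (.leaf 0x360058)))
 (.node 52 (.node 51 (.leaf 0x140049)
 (.leaf 0x1000a0))
 (.node 53 (.leaf 0x100007)
 (.node 54 (.leaf 0x7200a3)
 (.leaf 0x2e0010001e))))))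
 (.node 64 (.node 59 (.node 57 (.node 56 (.leaf 0x80020)
 (.leaf 0x93001f))
 (.node 58 (.leaf 0xa4002b)
 (.leaf 0xa6008f)))
 (.node 61 (.node 60 (.leaf 0xe004f)
 (.leaf 0x3800a8))
 (.node 62 (.leaf 0x5600aa002f0011)
 (.node 63 (.leaf 0x6400ac00330027)
 (.leaf 0x2003a)))))
 (.node 69 (.node 66 (.node 65 (.leaf 0x120018)
 (.leaf 0xb000ae))
 (.node 67 (.leaf 0x71002f)
 (.node 68 (.leaf 0xa0009)
 (.leaf 0x770011))))
 (.node 71 (.node 70 (.leaf 0xa2002c00a500a7)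
 (.leaf 0x8004d))
 (.node 72 (.leaf 0xb20052)
 (.node 73 (.leaf 0x4c0026)
 (.leaf 0xaf0033))))))))
 (.node 111 (.node 92 (.node 83 (.node 78 (.node 76 (.node 75 (.leaf 0x5c00b4)
 (.leaf 0x6000b6))
 (.node 77 (.leaf 0x5e0040)
 (.leaf 0x8b0029001d)))
 (.node 80 (.node 79 (.leaf 0x390035000300ab)
 (.leaf 0x8d00170007))
 (.node 81 (.leaf 0x75003b0015001b)
 (.node 82 (.leaf 0x6f003b0025001b)
 (.leaf 0x5100b30003002d)))))
 (.node 87 (.node 85 (.node 84 (.leaf 0x3500030007)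
 (.leaf 0xf00490025001b))
 (.node 86 (.leaf 0x430031001900ad)
 (.leaf 0x9f00130005000d)))
 (.node 89 (.node 88 (.leaf 0x47003100190067)
 (.leaf 0x4b0003000b))
 (.node 90 (.leaf 0xb70045007f)
 (.node 91 (.leaf 0x3900030017)
 (.leaf 0x9b00290021))))))
 (.node 101 (.node 96 (.node 94 (.node 93 (.leaf 0xb500450079)
 (.leaf 0xb10013000d0009))
 (.node 95 (.leaf 0x37007d00050009)
 (.leaf 0x99003900030087)))
 (.node 98 (.node 97 (.leaf 0x9d001300050009)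
 (.leaf 0x4300190029))
 (.node 99 (.leaf 0x35004b0003006b)
 (.node 100 (.leaf 0x3100190021)
 (.leaf 0x810017000b)))))
 (.node 106 (.node 103 (.node 102 (.leaf 0xa9001d0021)
 (.leaf 0xf00a10015001b))
 (.node 104 (.leaf 0x690007000b)
 (.node 105 (.leaf 0x37004d0005000d)
 (.leaf 0x470019001d))))
 (.node 108 (.node 107 (.leaf 0xf005b00150025)
 (.leaf 0x37003d000d0009))
 (.node 109 (.leaf 0x91003b00150025)
 (.node 110 (.leaf 0x900b10013)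
 (.leaf 0xb0019001d)))))))
 (.node 130 (.node 120 (.node 115 (.node 113 (.node 112 (.leaf 0x4d0012)
 (.leaf 0x90013))
 (.node 114 (.leaf 0x4d)
 (.leaf 0x26)))
 (.node 117 (.node 116 (.leaf 0x85)
 (.leaf 0x9e))
 (.node 118 (.leaf 0x9)
 (.node 119 (.leaf 0x20)
 (.leaf 0x25001b003b)))))
 (.node 125 (.node 122 (.node 121 (.leaf 0x190017)
 (.leaf 0x15003b0025))
 (.node 123 (.leaf 0x19003b)
 (.node 124 (.leaf 0x2c002b)
 (.leaf 0xb500b30019000e))))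
 (.node 127 (.node 126 (.leaf 0x600aa006a002f001f0011)
 (.leaf 0xb500b30019))
 (.node 128 (.leaf 0xb500b30039000e)
 (.node 129 (.leaf 0xb500b30039)
 (.leaf 0xb500b3))))))
 (.node 139 (.node 134 (.node 132 (.node 131 (.leaf 0x3000d)
 (.leaf 0xf0003))
 (.node 133 (.leaf 0x2)
 (.leaf 0xf)))
 (.node 136 (.node 135 (.leaf 0x53)
 (.leaf 0x4f))
 (.node 137 (.leaf 0xb2)
 (.node 138 (.leaf 0x50)
 (.leaf 0xb5)))))
 (.node 144 (.node 141 (.node 140 (.leaf 0x2d)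
 (.leaf 0x5c))
 (.node 142 (.leaf 0x2b)
 (.node 143 (.leaf 0x41)
 (.leaf 0x44))))
 (.node 146 (.node 145 (.leaf 0x7e)
 (.leaf 0x5e))
 (.node 147 (.leaf 0xb7)
 (.node 148 (.leaf 0x61)
 (.leaf 0x0)))))))))

noncomputable def prf : List ℕ := [
0xc0005d0003f0001f000420004a0005100014000690005b0000f0005c00029,
0x10005b0002e0000600015000610004b0000c000200005e0004a0004c00009000510000400045000350005a,
0xd000620005f0000700006000600006b000000003d000680004a0002e000510002b00028,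
0x3e0006900011000490005700045000420000f0006e0003f000260002e00002,
0x10002a,
0x2900000,
0x5400000,
0x4400000,
0x6a00036000690001f0001d000110004f000580005c00025000100001600051000650001300068000440000d000090006600043000710006e00006000500003400057000040003100002,
0x3e00000,
0x400003e000320004e000600000a000260004400057000340006200025,
0x380001d0003b00077000120000900074000650006900028000520001400001,
0x400006500050000780000c00001,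
0x2900063000790003500012000450006700000000580006d000180006a0005600001,
0x350004000045000410005300065,
0x620001f000640005b000290001c000790005000040000520004d0003f00016000780006d000280003c000010004f000200006c000580000300005,
0x770006f0003f,
0x4a00000000760005e000130002900017000010001b0002f0005b000410007d00030000180000f0007a0006b0006f0002a0003e0000300051000220006e0005a0005c0000500007,
0x220006500067000030005e0002c0001f0007c00053000430005500050000240006d0006e0003e00000,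
0x780001500002000600004c0002b00019000000007f0001d000270005d000320007c0006d00071000310002c0005300024000700005c0005e000250006e0006f0003f0000100009,
0x2500054000710002d0002a000720007d0001b00044000000006f0007000040000020000c0000a,
0x41000090002b0005e0007200026000550002e000730000d0000b,
0x50004f0007b000630001c000180002e0008200070000200002a000340002f00060000560003500027000730005f0006100028000460001d0007f000000000c,
0x4300009000730004400072,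
0x100000,
0x8100000,
0x4b00001,
0x4000001,
0x8600001,
0x800001,
0x38000060000200001,
0x4100001,
0x1100001,
0x8500001,
0x7500001,
0x7500001,
0x4400002,
0x380000200001,
0x8900001,
0x480000000001]

end JD11

theorem instT_11 : instT 1 [0, 0] [8, 8] JD11.base JD11.ext JD11.gads JD11.names JD11.cnf JD11.db JD11.prf = true := by decide +kernel

/-- there is no configuration of this instance of the tight case. -/
theorem noT_11 {V : Type v} [DecidableEq V] {ι : Type u} [Fintype ι] {B : ι → Finset V}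
    {Q : Finset V} {i j : ι} {x : ℕ → V} {D : ℕ → Finset V}
    (h : CfQI B Q 1 x D i j [0, 0] [8, 8]) : False :=
  h.absurd (by decide) instT_11

end Pool.Agent.Hyp6
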