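import Pool.Agent.Hyp6.Cb5

/-!
# HYP6: instance 31 of the list: n = 0, bounds [0, 2], inner blocks [3, 9]

67 base clauses, 23 gadgets, 45 learned clauses.
-/

set_option autoImplicit false
set_option maxRecDepth 100000

namespace Pool.Agent.Hyp6

open Rup

universe u v

namespace D31

noncomputable def names : Tr :=
 (.node 37 (.node 18 (.node 8 (.node 3 (.node 1 (.node 0 (.leaf 130)
 (.leaf 258))
 (.node 2 (.leaf 65)
 (.leaf 2307)))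
 (.node 5 (.node 4 (.leaf 2114)
 (.leaf 66))
 (.node 6 (.leaf 2179)
 (.node 7 (.leaf 129)
 (.leaf 2113)))))
 (.node 13 (.node 10 (.node 9 (.leaf 18625)
 (.leaf 2115))
 (.node 11 (.leaf 18753)
 (.node 12 (.leaf 16577)
 (.leaf 16769))))
 (.node 15 (.node 14 (.leaf 16673)
 (.leaf 2147))
 (.node 16 (.leaf 17)
 (.node 17 (.leaf 257)
 (.leaf 2131))))))
 (.node 27 (.node 22 (.node 20 (.node 19 (.leaf 2057)
 (.leaf 34))
 (.node 21 (.leaf 33)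
 (.leaf 16705)))
 (.node 24 (.node 23 (.leaf 16545)
 (.leaf 18705))
 (.node 25 (.leaf 10321)
 (.node 26 (.leaf 2066)
 (.leaf 8385)))))
 (.node 32 (.node 29 (.node 28 (.leaf 18577)
 (.leaf 10339))
 (.node 30 (.leaf 2177)
 (.node 31 (.leaf 2308)
 (.leaf 8289))))
 (.node 34 (.node 33 (.leaf 8513)
 (.leaf 98))
 (.node 35 (.leaf 2075)
 (.node 36 (.leaf 16513)
 (.leaf 259)))))))
 (.node 56 (.node 46 (.node 41 (.node 39 (.node 38 (.leaf 18778)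
 (.leaf 18697))
 (.node 40 (.leaf 18)
 (.leaf 8337)))
 (.node 43 (.node 42 (.leaf 16449)
 (.leaf 18817))
 (.node 44 (.leaf 16433)
 (.node 45 (.leaf 18441)
 (.leaf 2084)))))
 (.node 51 (.node 48 (.node 47 (.leaf 18650)
 (.leaf 132))
 (.node 49 (.leaf 16425)
 (.node 50 (.leaf 18449)
 (.leaf 260))))
 (.node 53 (.node 52 (.leaf 18497)
 (.leaf 2305))
 (.node 54 (.leaf 18689)
 (.node 55 (.leaf 146)
 (.leaf 18561))))))
 (.node 66 (.node 61 (.node 58 (.node 57 (.leaf 16641)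
 (.leaf 10265))
 (.node 59 (.leaf 18457)
 (.node 60 (.leaf 2083)
 (.leaf 16657))))
 (.node 63 (.node 62 (.leaf 18593)
 (.leaf 8273))
 (.node 64 (.leaf 2065)
 (.node 65 (.leaf 82)
 (.leaf 194)))))
 (.node 71 (.node 68 (.node 67 (.leaf 2180)
 (.leaf 10))
 (.node 69 (.leaf 2067)
 (.node 70 (.leaf 10323)
 (.leaf 16417))))
 (.node 73 (.node 72 (.leaf 131)
 (.leaf 322))
 (.node 74 (.leaf 16529)
 (.node 75 (.leaf 18721)
 (.leaf 18569))))))))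

noncomputable def base : List Rs := [
.ab 0 4,
.ordE 1 8 1,
.part [20, 34] [0, 0] [9] [],
.ordE 0 32 2,
.lipl 1 33 43 1 10,
.deg 1 [1, 1],
.l2 0 18 24 4 1 1,
.part [36, 18] [0, 0] [9] [],
.part [8, 48] [0, 0] [7] [],
.part [6, 1] [0, 0] [56] [],
.join 1 4 3 3 4 1 [(2, 2)],
.part [36, 27] [0, 1] [] [],
.deg 4 [3, 0],
.deg 3 [1, 1],
.part [5, 2] [0, 0] [56] [],
.ordE 0 32 3,
.ab 1 3,
.deg 4 [1, 2],
.part [20, 43] [0, 1] [] [],
.ab 1 5,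
.join 0 2 4 2 1 1 [(1, 0)],
.deg 5 [0, 3],
.ab 1 4,
.part [32, 24] [0, 0] [7] [],
.hall [0] [3, 5],
.deg 3 [0, 2],
.join 1 2 3 3 2 1 [(1, 0)],
.ab2 1 3,
.join 1 4 3 3 3 2 [(2, 2)],
.l2 0 12 24 3 1 1,
.part [34, 20] [0, 0] [9] [],
.ordE 1 32 3,
.l2 0 10 40 3 1 1,
.hall [1] [0, 1],
.part [16, 40] [0, 0] [7] [],
.deg 2 [1, 2],
.join 0 2 3 2 1 1 [(1, 0)],
.join 0 8 4 2 1 1 [(3, 0)],
.hall [1] [3, 4],
.deg 4 [0, 3],
.deg 0 [1, 0],
.ab 1 1,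
.ab 0 5,
.join 1 2 3 3 3 2 [(1, 2)],
.ab 0 2,
.join 0 4 3 2 1 1 [(2, 0)],
.part [24, 32] [0, 0] [7] [],
.deg 5 [3, 0],
.ordE 0 16 1,
.ordE 0 16 2,
.join 0 8 5 2 1 1 [(3, 0)],
.hall [0] [1, 2],
.le 1 12 8 3 3,
.ab 0 3,
.ab 1 0,
.part [40, 16] [0, 0] [7] [],
.part [18, 36] [0, 0] [9] [],
.ordE 0 16 3,
.le 1 10 8 3 3,
.deg 5 [1, 2],
.part [4, 3] [0, 0] [56] [],
.join 1 1 1 3 1 2 [(0, 0)],
.part [48, 8] [0, 0] [7] [],
.deg 1 [0, 2],
.lipl 1 17 27 1 10,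
.l2 0 12 40 3 1 1,
.deg 2 [0, 3]]

noncomputable def gads : List Gt := [
⟨0, [⟨8, 2, []⟩, ⟨16, 2, []⟩], [3, 3, 3], 1, [(24, 1)]⟩,
⟨0, [⟨10, 2, []⟩, ⟨16, 2, []⟩], [3, 3, 3], 1, [(18, 1), (24, 1)]⟩,
⟨0, [⟨1, 2, []⟩, ⟨4, 2, []⟩], [3, 3, 3], 1, [(5, 1)]⟩,
⟨0, [⟨12, 2, []⟩, ⟨32, 2, []⟩], [3, 3, 3], 1, [(36, 1), (40, 1)]⟩,
⟨1, [⟨12, 3, []⟩, ⟨32, 3, []⟩], [3, 3], 1, [(36, 1), (40, 1)]⟩,
⟨1, [⟨8, 3, []⟩, ⟨16, 3, []⟩], [3, 3], 1, [(24, 1)]⟩,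
⟨1, [⟨8, 2, []⟩, ⟨32, 4, []⟩], [3, 1, 1], 1, [(40, 1)]⟩,
⟨1, [⟨16, 3, []⟩, ⟨32, 3, []⟩], [3, 3], 1, [(48, 1)]⟩,
⟨0, [⟨24, 2, []⟩, ⟨32, 2, []⟩], [3, 3, 3], 1, [(40, 1), (48, 1)]⟩,
⟨1, [⟨8, 3, []⟩, ⟨32, 3, []⟩], [3, 3], 1, [(40, 1)]⟩,
⟨1, [⟨12, 3, []⟩, ⟨16, 3, []⟩], [3, 3], 1, [(20, 1), (24, 1)]⟩,
⟨1, [⟨3, 3, []⟩, ⟨16, 3, []⟩], [3, 3], 1, [(17, 1), (18, 1)]⟩,
⟨0, [⟨40, 2, []⟩, ⟨16, 2, []⟩], [3, 3, 3], 1, [(24, 1), (48, 1)]⟩,
⟨0, [⟨18, 2, []⟩, ⟨32, 2, []⟩], [3, 3, 3], 1, [(34, 1), (48, 1)]⟩,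
⟨1, [⟨10, 3, []⟩, ⟨32, 3, []⟩], [3, 3], 1, [(34, 1), (40, 1)]⟩,
⟨0, [⟨4, 2, []⟩, ⟨32, 2, []⟩], [3, 3, 3], 1, [(36, 1)]⟩,
⟨1, [⟨3, 3, []⟩, ⟨32, 3, []⟩], [3, 3], 1, [(33, 1), (34, 1)]⟩,
⟨0, [⟨12, 2, []⟩, ⟨16, 2, []⟩], [3, 3, 3], 1, [(20, 1), (24, 1)]⟩,
⟨1, [⟨10, 3, []⟩, ⟨16, 3, []⟩], [3, 3], 1, [(18, 1), (24, 1)]⟩,
⟨0, [⟨16, 2, []⟩, ⟨32, 2, []⟩], [3, 3, 3], 1, [(48, 1)]⟩,
⟨0, [⟨8, 2, []⟩, ⟨32, 2, []⟩], [3, 3, 3], 1, [(40, 1)]⟩,
⟨0, [⟨2, 2, []⟩, ⟨4, 2, []⟩], [3, 3, 3], 1, [(6, 1)]⟩,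
⟨1, [⟨8, 2, []⟩, ⟨16, 4, []⟩], [3, 1, 1], 1, [(24, 1)]⟩]

noncomputable def cnf : List (List ℕ) := [
[15, 73],
[9, 16],
[46, 48],
[75, 2],
[51, 77, 78],
[80, 52],
[83, 55, 0],
[28, 56],
[84, 86],
[88, 90],
[93, 17, 30, 58],
[28, 94],
[96, 60],
[10, 8],
[98, 100],
[103, 74],
[17, 105],
[0, 12],
[46, 76],
[107, 109],
[33, 15, 110, 82],
[34, 62],
[61, 113],
[114, 18],
[4, 34],
[4, 20],
[53, 17, 36, 50],
[117, 119],
[121, 9, 30, 58],
[65, 55, 10],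
[122, 124],
[63, 6],
[127, 67, 10],
[38, 128],
[72, 22],
[40, 120],
[33, 5, 130, 126],
[5, 15, 132, 54],
[16, 60],
[14, 134],
[136, 38],
[129, 101],
[35, 115],
[139, 9, 36, 140],
[43, 143],
[43, 5, 68, 64],
[24, 108],
[102, 106],
[1, 14],
[145, 0],
[5, 35, 146, 66],
[32, 42],
[59, 20],
[5, 85],
[39, 91],
[44, 112],
[148, 150],
[97, 144],
[141, 20],
[2, 6],
[142, 118],
[39, 53, 70, 116],
[26, 104],
[32, 138],
[51, 95, 152],
[65, 67, 10],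
[42, 92],
[11, 1, 25],
[131, 1, 149, 25],
[137, 41, 99],
[69, 3, 29, 45],
[31, 7, 151, 23],
[21, 13, 19],
[9, 63, 23],
[13, 7, 87],
[133, 3, 45, 27],
[21, 7, 23],
[31, 13, 125, 19],
[71, 13, 153, 57],
[147, 1, 25, 27],
[111, 3, 123, 27],
[37, 7, 49, 23],
[41, 3, 29],
[71, 7, 79, 49],
[69, 1, 47, 25],
[37, 13, 57, 19],
[1, 3, 27],
[11, 3, 45],
[81, 41, 89],
[9, 135, 19]]

noncomputable def db : Tr :=
 (.node 67 (.node 33 (.node 16 (.node 8 (.node 4 (.node 2 (.node 1 (.leaf 0x4b0011)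
 (.leaf 0x12000b))
 (.node 3 (.leaf 0x320030)
 (.leaf 0x4004d)))
 (.node 6 (.node 5 (.leaf 0x50004f0035)
 (.leaf 0x360052))
 (.node 7 (.leaf 0x200390055)
 (.leaf 0x3a001e))))
 (.node 12 (.node 10 (.node 9 (.leaf 0x580056)
 (.leaf 0x5c005a))
 (.node 11 (.leaf 0x3c00200013005f)
 (.leaf 0x60001e)))
 (.node 14 (.node 13 (.leaf 0x3e0062)
 (.leaf 0xa000c))
 (.node 15 (.leaf 0x660064)
 (.leaf 0x4c0069)))))
 (.node 24 (.node 20 (.node 18 (.node 17 (.leaf 0x6b0013)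
 (.leaf 0xe0002))
 (.node 19 (.leaf 0x4e0030)
 (.leaf 0x6f006d)))
 (.node 22 (.node 21 (.leaf 0x54007000110023)
 (.leaf 0x400024))
 (.node 23 (.leaf 0x73003f)
 (.leaf 0x140074))))
 (.node 28 (.node 26 (.node 25 (.leaf 0x240006)
 (.leaf 0x160006))
 (.node 27 (.leaf 0x34002600130037)
 (.leaf 0x790077)))
 (.node 30 (.node 29 (.leaf 0x3c0020000b007b)
 (.leaf 0xc00390043))
 (.node 31 (.leaf 0x7e007c)
 (.node 32 (.leaf 0x80041)
 (.leaf 0xc00450081)))))))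
 (.node 50 (.node 41 (.node 37 (.node 35 (.node 34 (.leaf 0x820028)
 (.leaf 0x18004a))
 (.node 36 (.leaf 0x7a002a)
 (.leaf 0x80008400070023)))
 (.node 39 (.node 38 (.leaf 0x38008600110007)
 (.leaf 0x3e0012))
 (.node 40 (.leaf 0x880010)
 (.leaf 0x28008a))))
 (.node 45 (.node 43 (.node 42 (.leaf 0x670083)
 (.leaf 0x750025))
 (.node 44 (.leaf 0x8e0026000b008d)
 (.leaf 0x91002d)))
 (.node 47 (.node 46 (.leaf 0x4200460007002d)
 (.leaf 0x6e001a))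
 (.node 48 (.leaf 0x6c0068)
 (.node 49 (.leaf 0x100003)
 (.leaf 0x20093))))))
 (.node 58 (.node 54 (.node 52 (.node 51 (.leaf 0x44009400250007)
 (.leaf 0x2c0022))
 (.node 53 (.leaf 0x16003d)
 (.leaf 0x570007)))
 (.node 56 (.node 55 (.leaf 0x5d0029)
 (.leaf 0x72002e))
 (.node 57 (.leaf 0x980096)
 (.leaf 0x920063))))
 (.node 62 (.node 60 (.node 59 (.leaf 0x16008f)
 (.leaf 0x80004))
 (.node 61 (.leaf 0x780090)
 (.leaf 0x76004800370029)))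
 (.node 64 (.node 63 (.leaf 0x6a001c)
 (.leaf 0x8c0022))
 (.node 65 (.leaf 0x9a00610035)
 (.node 66 (.leaf 0xc00450043)
 (.leaf 0x5e002c))))))))
 (.node 101 (.node 84 (.node 75 (.node 71 (.node 69 (.node 68 (.leaf 0x1b0003000d)
 (.leaf 0x1b009700030085))
 (.node 70 (.leaf 0x65002b008b)
 (.leaf 0x2f001f00050047)))
 (.node 73 (.node 72 (.leaf 0x19009900090021)
 (.leaf 0x15000f0017))
 (.node 74 (.leaf 0x190041000b)
 (.leaf 0x590009000f))))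
 (.node 79 (.node 77 (.node 76 (.leaf 0x1d002f00050087)
 (.leaf 0x1900090017))
 (.node 78 (.leaf 0x15007f000f0021)
 (.leaf 0x3b009b000f0049)))
 (.node 81 (.node 80 (.leaf 0x1d001b00030095)
 (.leaf 0x1d007d00050071))
 (.node 82 (.leaf 0x19003300090027)
 (.node 83 (.leaf 0x1f0005002b)
 (.leaf 0x33005100090049))))))
 (.node 92 (.node 88 (.node 86 (.node 85 (.leaf 0x1b003100030047)
 (.leaf 0x15003b000f0027))
 (.node 87 (.leaf 0x1d00050003)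
 (.leaf 0x2f0005000d)))
 (.node 90 (.node 89 (.leaf 0x5b002b0053)
 (.leaf 0x150089000b))
 (.node 91 (.leaf 0x1d00950003)
 (.leaf 0xf0024))))
 (.node 96 (.node 94 (.node 93 (.leaf 0x1d002f0002001f0005)
 (.leaf 0x9b001d0049002f0002))
 (.node 95 (.leaf 0x9b001d00490002)
 (.leaf 0x2b0053)))
 (.node 98 (.node 97 (.leaf 0x4900030009001b00420020)
 (.leaf 0x9b001d0049))
 (.node 99 (.leaf 0x30009001b00420022)
 (.node 100 (.leaf 0x1d00480003)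
 (.leaf 0x1d0048)))))))
 (.node 118 (.node 109 (.node 105 (.node 103 (.node 102 (.leaf 0x9b001d)
 (.leaf 0xd002f))
 (.node 104 (.leaf 0x12)
 (.leaf 0x6b)))
 (.node 107 (.node 106 (.leaf 0x1c)
 (.leaf 0x9b))
 (.node 108 (.leaf 0x48)
 (.leaf 0x2))))
 (.node 113 (.node 111 (.node 110 (.leaf 0x10)
 (.leaf 0x5))
 (.node 112 (.leaf 0x95)
 (.leaf 0x4b)))
 (.node 115 (.node 114 (.leaf 0x4d)
 (.leaf 0x8))
 (.node 116 (.leaf 0x18)
 (.node 117 (.leaf 0x69)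
 (.leaf 0x17))))))
 (.node 126 (.node 122 (.node 120 (.node 119 (.leaf 0x6c)
 (.leaf 0x6))
 (.node 121 (.leaf 0x6f)
 (.leaf 0x1a)))
 (.node 124 (.node 123 (.leaf 0xd)
 (.leaf 0xa))
 (.node 125 (.leaf 0x41)
 (.leaf 0x24))))
 (.node 130 (.node 128 (.node 127 (.leaf 0x44)
 (.leaf 0x81))
 (.node 129 (.leaf 0x43)
 (.leaf 0x20)))
 (.node 132 (.node 131 (.leaf 0x22)
 (.leaf 0x99))
 (.node 133 (.leaf 0x84)
 (.node 134 (.leaf 0x96)
 (.leaf 0x0)))))))))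

noncomputable def prf : List ℕ := [
0x2a000460004a0002b000560000a00003,
0x5200010000250003b0004200045,
0x470000b000280003d0002e000550000e0003e000360003f00034000020004e00038000150001000004000090004200027000130004400031000000004a,
0x21000000001200054000270004300014000450003200001000550000e0004b,
0x47000510002600024000000002c,
0x500001900035000360003d000280005500006,
0x5a000450005b0000e0000c0004d0005d0000b000320001d0003c0005500043000460002b000130003d0005f0002f0005e000520001c,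
0x5e0000f0000c0003500033000210002d0003c0001c0002800019000000001f000400002e0004b00017000530001d000320004d00026000470003100014000510003e000250005d00060000060000a0003000002,
0x5f000100000d0003600034000220002e0004800027000150003f0006100031000540001e,
0x540001d000390003a000410002500047000260005d0003600003000200003f00058000460001b0002a0001e0003e000000002100042000300004d0001900061000550001f000340004f0002e0004900033000160005300040000270005f00062000080000c00032,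
0x550001e0003a0003b000420002600048000270005e0003700004000210004000059000470001600045000130004f0005d000240003e000380003c0000e0000a000620005c0005600007000180000c00028000190005b0002e000290002f0004a0002c0001b0004d0004c00057000390002a00008000320005200000,
0x3,
0x4c0001d000300004e0005d0003b0001b0000a0005400022000370005200036000560002a000620000e,
0x2f00050000590004000065,
0x5700000,
0x2a00000,
0x400000,
0x600001,
0x1e0004f0004d000480001b0000c00057000660002c00051000400002b00016000650006000064000460000f0002000030000440002100012000630005e0003600005000310003700052000340002300055000540005f0004100032000100003a0005a000020000400001,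
0x3c00000,
0x170000400001,
0x140000500002,
0x6f00002,
0x6d00002,
0x3600003,
0x5000002,
0x6400002,
0x280000200001,
0x4600001,
0x5d00001,
0x6400001,
0x4a00000,
0x360000d00000,
0x6d00000,
0x320000800000,
0x6700000,
0x4b0000e0000600000,
0x5e0000400000,
0x3e0000500001,
0x2000015000140000e0000700000,
0x1f000150000f0000800001,
0x3b000100000f00001,
0x5f000040000c00001,
0x4c00001,
0x41000190000c0000000001]

end D31

theorem inst_31 : instB 0 [0, 2] [3, 9] [] D31.base D31.gads D31.names D31.cnf D31.db D31.prf = true := by decide +kernel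

/-- no gadget has fewer than `2 R` new points. -/
theorem p2_31 : D31.gads.all (fun g => Nat.ble (2 * g.R) g.gs.length) = true := by decide +kernel

/-- there is no configuration of this instance. -/
theorem no_31 {V : Type v} [DecidableEq V] {ι : Type u} [Fintype ι] {B : ι → Finset V}
    {Q : Finset V} {i j : ι} {x : ℕ → V} {D : ℕ → Finset V}
    (h : CfI B Q 0 x D i j [0, 2] [3, 9]) : False :=
  h.absurd (by decide) srt_nil inst_31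

end Pool.Agent.Hyp6
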