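import Pool.Agent.Hyp6.Cb5

/-!
# HYP6: instance 47 of the list: n = 0, bounds [0, 2], inner blocks [9, 14]

64 base clauses, 20 gadgets, 23 learned clauses.
-/

set_option autoImplicit false
set_option maxRecDepth 100000

namespace Pool.Agent.Hyp6

open Rup

universe u v

namespace D47

noncomputable def names : Tr :=
 (.node 34 (.node 16 (.node 7 (.node 3 (.node 1 (.node 0 (.leaf 130)
 (.leaf 258))
 (.node 2 (.leaf 2307)
 (.leaf 16769)))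
 (.node 5 (.node 4 (.leaf 2179)
 (.leaf 2065))
 (.node 6 (.leaf 16649)
 (.leaf 66))))
 (.node 11 (.node 9 (.node 8 (.leaf 18697)
 (.leaf 18569))
 (.node 10 (.leaf 2081)
 (.leaf 16545)))
 (.node 13 (.node 12 (.leaf 9)
 (.leaf 16673))
 (.node 14 (.leaf 16657)
 (.node 15 (.leaf 16529)
 (.leaf 16521))))))
 (.node 25 (.node 20 (.node 18 (.node 17 (.leaf 19)
 (.leaf 2305))
 (.node 19 (.leaf 18689)
 (.leaf 2113)))
 (.node 22 (.node 21 (.leaf 16577)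
 (.leaf 18561))
 (.node 23 (.leaf 35)
 (.node 24 (.leaf 10)
 (.leaf 2058)))))
 (.node 29 (.node 27 (.node 26 (.leaf 18457)
 (.leaf 257))
 (.node 28 (.leaf 26)
 (.leaf 18817)))
 (.node 31 (.node 30 (.leaf 18473)
 (.leaf 2075))
 (.node 32 (.leaf 42)
 (.node 33 (.leaf 2091)
 (.leaf 2059)))))))
 (.node 52 (.node 43 (.node 38 (.node 36 (.node 35 (.leaf 260)
 (.leaf 259))
 (.node 37 (.leaf 8217)
 (.leaf 16409)))
 (.node 40 (.node 39 (.leaf 18497)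
 (.leaf 16705))
 (.node 41 (.leaf 290)
 (.node 42 (.leaf 8482)
 (.leaf 132)))))
 (.node 47 (.node 45 (.node 44 (.leaf 131)
 (.leaf 16425))
 (.node 46 (.leaf 18449)
 (.leaf 65)))
 (.node 49 (.node 48 (.leaf 16449)
 (.leaf 8233))
 (.node 50 (.leaf 162)
 (.node 51 (.leaf 8354)
 (.leaf 10265))))))
 (.node 61 (.node 56 (.node 54 (.node 53 (.leaf 129)
 (.leaf 2177))
 (.node 55 (.leaf 16513)
 (.leaf 2308)))
 (.node 58 (.node 57 (.leaf 8338)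
 (.leaf 16641))
 (.node 59 (.leaf 18465)
 (.node 60 (.leaf 18705)
 (.leaf 17)))))
 (.node 65 (.node 63 (.node 62 (.leaf 16393)
 (.leaf 18577))
 (.node 64 (.leaf 10281)
 (.leaf 82)))
 (.node 67 (.node 66 (.leaf 8274)
 (.leaf 146))
 (.node 68 (.leaf 18593)
 (.node 69 (.leaf 33)
 (.leaf 18721))))))))

noncomputable def base : List Rs := [
.ordE 0 32 3,
.ab2 0 3,
.deg 1 [2, 0],
.ab 1 5,
.ab 1 3,
.part [24, 32] [0, 0] [7] [],
.part [40, 16] [0, 0] [7] [],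
.join 0 4 5 2 3 0 [(2, 1)],
.part [48, 8] [0, 0] [7] [],
.deg 4 [1, 2],
.ordE 0 16 3,
.part [5, 2] [0, 0] [56] [],
.part [33, 16] [0, 0] [14] [],
.ab 0 3,
.ab2 0 5,
.join 0 4 4 2 3 0 [(2, 1)],
.deg 3 [1, 0],
.deg 0 [1, 1],
.ab2 1 3,
.ordE 0 16 1,
.deg 4 [3, 0],
.hall [0] [3, 5],
.ab 1 1,
.part [16, 33] [0, 0] [14] [],
.ordE 1 32 3,
.le 0 18 16 4 2,
.hall [1] [3, 5],
.part [32, 17] [0, 0] [14] [],
.ab 1 2,
.le 0 20 16 4 2,
.part [20, 34] [0, 0] [9] [],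
.join 0 1 1 2 1 1 [(0, 0)],
.part [20, 3] [0, 0] [40] [],
.ab 0 0,
.part [36, 18] [0, 0] [9] [],
.part [8, 48] [0, 0] [7] [],
.ab2 1 5,
.hall [1] [1, 2],
.deg 5 [0, 3],
.join 1 1 1 3 2 1 [(0, 0)],
.join 0 2 3 2 3 0 [(1, 1)],
.ab 1 4,
.ab 0 4,
.join 0 2 4 2 3 0 [(1, 1)],
.part [1, 48] [0, 0] [14] [],
.deg 5 [1, 2],
.ordE 0 32 2,
.part [34, 20] [0, 0] [9] [],
.deg 5 [3, 0],
.join 0 1 2 2 1 1 [(0, 0)],
.join 1 1 2 3 2 1 [(0, 0)],
.part [36, 3] [0, 0] [24] [],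
.le 0 10 8 3 2,
.part [18, 5] [0, 0] [40] [],
.hall [0] [1, 2],
.part [18, 36] [0, 0] [9] [],
.part [34, 5] [0, 0] [24] [],
.ab 0 5,
.le 0 36 32 5 2,
.ordE 0 16 2,
.part [3, 4] [0, 0] [56] [],
.deg 0 [0, 2],
.part [17, 32] [0, 0] [14] [],
.deg 2 [2, 0]]

noncomputable def gads : List Gt := [
⟨1, [⟨3, 3, []⟩, ⟨32, 3, []⟩], [3, 3], 1, [(33, 1), (34, 1)]⟩,
⟨0, [⟨3, 2, []⟩, ⟨16, 2, []⟩], [3, 3, 3], 1, [(17, 1), (18, 1)]⟩,
⟨0, [⟨16, 2, []⟩, ⟨32, 2, []⟩], [3, 3, 3], 1, [(48, 1)]⟩,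
⟨1, [⟨5, 3, []⟩, ⟨16, 3, []⟩], [3, 3], 1, [(17, 1), (20, 1)]⟩,
⟨0, [⟨8, 2, []⟩, ⟨32, 2, []⟩], [3, 3, 3], 1, [(40, 1)]⟩,
⟨0, [⟨1, 2, []⟩, ⟨32, 2, []⟩], [3, 3, 3], 1, [(33, 1)]⟩,
⟨1, [⟨16, 3, []⟩, ⟨32, 3, []⟩], [3, 3], 1, [(48, 1)]⟩,
⟨0, [⟨18, 2, []⟩, ⟨32, 2, []⟩], [3, 3, 3], 1, [(34, 1), (48, 1)]⟩,
⟨1, [⟨5, 3, []⟩, ⟨32, 3, []⟩], [3, 3], 1, [(33, 1), (36, 1)]⟩,
⟨0, [⟨5, 2, []⟩, ⟨32, 2, []⟩], [3, 3, 3], 1, [(33, 1), (36, 1)]⟩,
⟨1, [⟨1, 3, []⟩, ⟨16, 3, []⟩], [3, 3], 1, [(17, 1)]⟩,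
⟨0, [⟨5, 2, []⟩, ⟨16, 2, []⟩], [3, 3, 3], 1, [(17, 1), (20, 1)]⟩,
⟨0, [⟨36, 2, []⟩, ⟨16, 2, []⟩], [3, 3, 3], 1, [(20, 1), (48, 1)]⟩,
⟨0, [⟨20, 2, []⟩, ⟨32, 2, []⟩], [3, 3, 3], 1, [(36, 1), (48, 1)]⟩,
⟨0, [⟨10, 2, []⟩, ⟨16, 2, []⟩], [3, 3, 3], 1, [(18, 1), (24, 1)]⟩,
⟨0, [⟨1, 2, []⟩, ⟨16, 2, []⟩], [3, 3, 3], 1, [(17, 1)]⟩,
⟨0, [⟨8, 2, []⟩, ⟨16, 2, []⟩], [3, 3, 3], 1, [(24, 1)]⟩,
⟨1, [⟨3, 3, []⟩, ⟨16, 3, []⟩], [3, 3], 1, [(17, 1), (18, 1)]⟩,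
⟨1, [⟨1, 3, []⟩, ⟨32, 3, []⟩], [3, 3], 1, [(33, 1)]⟩,
⟨0, [⟨3, 2, []⟩, ⟨32, 2, []⟩], [3, 3, 3], 1, [(33, 1), (34, 1)]⟩]

noncomputable def cnf : List (List ℕ) := [
[71, 72],
[75, 77],
[34, 10],
[37, 39],
[41, 79],
[42, 38],
[80, 44],
[47, 82, 84],
[6, 78],
[0, 8],
[87, 88],
[90, 92],
[12, 44],
[95, 97],
[99, 91],
[47, 100, 102],
[14, 40],
[48, 50],
[105, 53],
[1, 106],
[86, 108],
[94, 54],
[11, 93],
[110, 16],
[113, 4],
[115, 0],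
[40, 36],
[116, 18],
[21, 119],
[103, 0],
[22, 120],
[25, 123, 56, 74],
[22, 52],
[25, 125],
[26, 126],
[96, 58],
[129, 61],
[10, 20],
[54, 112],
[51, 11, 62, 104],
[35, 130, 132],
[109, 45],
[107, 111],
[35, 134, 114],
[124, 58],
[2, 4],
[73, 2],
[28, 136],
[70, 36],
[25, 139, 64, 98],
[51, 21, 66, 128],
[26, 52],
[133, 14],
[30, 60],
[122, 138],
[30, 140],
[28, 60],
[55, 117],
[85, 2],
[89, 0],
[76, 118],
[24, 68],
[32, 38],
[46, 20],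
[63, 5, 17, 121],
[57, 1, 33, 31],
[1, 3, 7],
[67, 9, 19, 137],
[15, 3, 81],
[49, 3, 13],
[9, 5, 59],
[135, 3, 29, 7],
[67, 5, 17, 141],
[65, 3, 13, 27],
[69, 9, 19],
[65, 1, 33, 23],
[83, 1, 23, 7],
[101, 3, 27, 7],
[131, 1, 31, 43],
[49, 1, 33],
[15, 1, 43],
[63, 9, 19, 127],
[69, 5, 17],
[57, 3, 13, 29]]

noncomputable def db : Tr :=
 (.node 53 (.node 26 (.node 13 (.node 6 (.node 3 (.node 1 (.leaf 0x4a0049)
 (.node 2 (.leaf 0x4f004d)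
 (.leaf 0xc0024)))
 (.node 4 (.leaf 0x290027)
 (.node 5 (.leaf 0x51002b)
 (.leaf 0x28002c))))
 (.node 9 (.node 7 (.leaf 0x2e0052)
 (.node 8 (.leaf 0x5600540031)
 (.leaf 0x500008)))
 (.node 11 (.node 10 (.leaf 0xa0002)
 (.leaf 0x5a0059))
 (.node 12 (.leaf 0x5e005c)
 (.leaf 0x2e000e)))))
 (.node 19 (.node 16 (.node 14 (.leaf 0x630061)
 (.node 15 (.leaf 0x5d0065)
 (.leaf 0x6800660031)))
 (.node 17 (.leaf 0x2a0010)
 (.node 18 (.leaf 0x340032)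
 (.leaf 0x37006b))))
 (.node 22 (.node 20 (.leaf 0x6c0003)
 (.node 21 (.leaf 0x6e0058)
 (.leaf 0x380060)))
 (.node 24 (.node 23 (.leaf 0x5f000d)
 (.leaf 0x120070))
 (.node 25 (.leaf 0x60073)
 (.leaf 0x20075))))))
 (.node 39 (.node 32 (.node 29 (.node 27 (.leaf 0x26002a)
 (.node 28 (.leaf 0x140076)
 (.leaf 0x790017)))
 (.node 30 (.leaf 0x20069)
 (.node 31 (.leaf 0x7a0018)
 (.leaf 0x4c003a007d001b))))
 (.node 35 (.node 33 (.leaf 0x360018)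
 (.node 34 (.leaf 0x7f001b)
 (.leaf 0x80001c)))
 (.node 37 (.node 36 (.leaf 0x3c0062)
 (.leaf 0x3f0083))
 (.node 38 (.leaf 0x16000c)
 (.leaf 0x720038)))))
 (.node 46 (.node 42 (.node 40 (.leaf 0x6a0040000d0035)
 (.node 41 (.leaf 0x8600840025)
 (.leaf 0x2f006f)))
 (.node 44 (.node 43 (.leaf 0x71006d)
 (.leaf 0x7400880025))
 (.node 45 (.leaf 0x3c007e)
 (.leaf 0x60004))))
 (.node 49 (.node 47 (.leaf 0x4004b)
 (.node 48 (.leaf 0x8a001e)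
 (.leaf 0x260048)))
 (.node 51 (.node 50 (.leaf 0x640042008d001b)
 (.leaf 0x82004400170035))
 (.node 52 (.leaf 0x36001c)
 (.leaf 0x100087)))))))
 (.node 80 (.node 66 (.node 59 (.node 56 (.node 54 (.leaf 0x3e0020)
 (.node 55 (.leaf 0x8c007c)
 (.leaf 0x8e0020)))
 (.node 57 (.leaf 0x3e001e)
 (.node 58 (.leaf 0x770039)
 (.leaf 0x40057))))
 (.node 62 (.node 60 (.leaf 0x2005b)
 (.node 61 (.leaf 0x78004e)
 (.leaf 0x46001a)))
 (.node 64 (.node 63 (.leaf 0x280022)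
 (.leaf 0x160030))
 (.node 65 (.leaf 0x7b001300070041)
 (.leaf 0x2100230003003b)))))
 (.node 73 (.node 69 (.node 67 (.leaf 0x900050003)
 (.node 68 (.leaf 0x8b0015000b0045)
 (.leaf 0x5300050011)))
 (.node 71 (.node 70 (.leaf 0xf00050033)
 (.leaf 0x3d0007000b))
 (.node 72 (.leaf 0x9001f00050089)
 (.leaf 0x8f001300070045))))
 (.node 76 (.node 74 (.leaf 0x1d000f00050043)
 (.node 75 (.leaf 0x15000b0047)
 (.leaf 0x19002300030043)))
 (.node 78 (.node 77 (.leaf 0x9001900030055)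
 (.leaf 0x9001d00050067))
 (.node 79 (.leaf 0x2d002100030085)
 (.leaf 0x2300030033))))))
 (.node 93 (.node 86 (.node 83 (.node 81 (.leaf 0x2d00030011)
 (.node 82 (.leaf 0x810015000b0041)
 (.leaf 0x1300070047)))
 (.node 84 (.leaf 0x1f000f0005003b)
 (.node 85 (.leaf 0x5002a)
 (.leaf 0x47000b))))
 (.node 89 (.node 87 (.leaf 0x47)
 (.node 88 (.leaf 0x1a)
 (.leaf 0x7f)))
 (.node 91 (.node 90 (.leaf 0x3c)
 (.leaf 0x30005))
 (.node 92 (.leaf 0x70035000d0018)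
 (.leaf 0x2300070021)))))
 (.node 100 (.node 96 (.node 94 (.leaf 0x700350016)
 (.node 95 (.leaf 0x230007)
 (.leaf 0x6004c001f)))
 (.node 98 (.node 97 (.leaf 0x60017)
 (.leaf 0x6))
 (.node 99 (.leaf 0xb)
 (.leaf 0x23))))
 (.node 103 (.node 101 (.leaf 0x2)
 (.node 102 (.leaf 0x28)
 (.leaf 0x5)))
 (.node 105 (.node 104 (.leaf 0x27)
 (.leaf 0x4b))
 (.node 106 (.leaf 0x48)
 (.leaf 0x0))))))))

noncomputable def prf : List ℕ := [
0x49000180003f000030002a0004e0004d000500000f0003900043,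
0xe000310003c000470002e0003f0001b000390000a,
0x4d00051000130000100028000030003e0002b000420004c00000,
0x1900000,
0x3600000,
0x2c00000,
0x51000550001700005,
0x33000480001a0003a0003c000430003000047000510001400001,
0x1f0005a0003f0003c0001c00025000540002a0000f00010000000004d000500004500059000330000d0001a0004a0000c000210002700053000570004b0000b00056000580002b0005b0002d0000100052000150000400002,
0x1000055000010001d000370002200054000580004c0000c00057000590002c0005c0002e00002000530001600003,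
0x150002b0002600000000390002800001000460004c000330000e0004a000540001700004,
0x370004c0000d0002b0003c000150002d000500005300048000280005c0003f000330000b00017000550004500043000250003800046000560005a0000a0004d0001900052000350004a0005400023000040003100007,
0x2d0003b0001c0002700030000000005e000230004300056000440002600039000470004e0001a00053000360004b00055000240000500032,
0x390004e0000f0002d0003e0001300051000210003b000000004f0001b00054000370004c0005600058000450002500043000570005c00027000060000c0003a0003300048,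
0x1b0000800000,
0x400001,
0x5a00001,
0x2600001,
0xb00001,
0x6300001,
0x3900001,
0x3800001,
0x690000100000]

end D47

theorem inst_47 : instB 0 [0, 2] [9, 14] [] D47.base D47.gads D47.names D47.cnf D47.db D47.prf = true := by decide +kernel

/-- no gadget has fewer than `2 R` new points. -/
theorem p2_47 : D47.gads.all (fun g => Nat.ble (2 * g.R) g.gs.length) = true := by decide +kernel

/-- there is no configuration of this instance. -/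
theorem no_47 {V : Type v} [DecidableEq V] {ι : Type u} [Fintype ι] {B : ι → Finset V}
    {Q : Finset V} {i j : ι} {x : ℕ → V} {D : ℕ → Finset V}
    (h : CfI B Q 0 x D i j [0, 2] [9, 14]) : False :=
  h.absurd (by decide) srt_nil inst_47

end Pool.Agent.Hyp6
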