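import Pool.Agent.Hyp6.Cb5

/-!
# HYP6: instance 63 of the list: n = 0, bounds [0, 0], inner blocks [1, 1, 8]

30 base clauses, 6 gadgets, 21 learned clauses.
-/

set_option autoImplicit false
set_option maxRecDepth 100000

namespace Pool.Agent.Hyp6

open Rup

universe u v

namespace D63

noncomputable def names : Tr :=
 (.node 14 (.node 6 (.node 2 (.node 0 (.leaf 2178)
 (.node 1 (.leaf 258)
 (.leaf 66)))
 (.node 4 (.node 3 (.leaf 2114)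
 (.leaf 257))
 (.node 5 (.leaf 2113)
 (.leaf 2177))))
 (.node 10 (.node 8 (.node 7 (.leaf 130)
 (.leaf 129))
 (.node 9 (.leaf 259)
 (.leaf 2306)))
 (.node 12 (.node 11 (.leaf 65)
 (.leaf 2115))
 (.node 13 (.leaf 131)
 (.leaf 18561)))))
 (.node 22 (.node 18 (.node 16 (.node 15 (.leaf 16705)
 (.leaf 16449))
 (.node 17 (.leaf 67)
 (.leaf 2305)))
 (.node 20 (.node 19 (.leaf 18689)
 (.leaf 16513))
 (.node 21 (.leaf 18753)
 (.leaf 18817))))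
 (.node 26 (.node 24 (.node 23 (.leaf 16641)
 (.leaf 18625))
 (.node 25 (.leaf 16577)
 (.leaf 2180)))
 (.node 28 (.node 27 (.leaf 18497)
 (.leaf 16769))
 (.node 29 (.leaf 2179)
 (.leaf 260))))))

noncomputable def base : List Rs := [
.ordE 0 32 1,
.deg 3 [0, 2],
.hall [1] [3, 4],
.ordE 0 16 2,
.ab 1 4,
.part [40, 16] [0, 0] [7] [],
.deg 3 [1, 1],
.ab 0 3,
.deg 3 [2, 0],
.ab 1 5,
.part [16, 40] [0, 0] [7] [],
.ordE 1 8 2,
.ab 0 4,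
.part [8, 48] [0, 0] [7] [],
.deg 4 [2, 1],
.hall [0] [4, 5],
.ab 0 5,
.ordE 0 8 2,
.part [32, 24] [0, 0] [7] [],
.ordE 0 32 2,
.ordE 1 16 1,
.part [24, 32] [0, 0] [7] [],
.deg 4 [0, 3],
.ab 1 3,
.deg 5 [2, 1],
.part [48, 8] [0, 0] [7] [],
.ordE 1 16 2,
.deg 5 [3, 0],
.ordE 0 32 3,
.ordE 1 16 3]

noncomputable def gads : List Gt := [
⟨1, [⟨8, 2, []⟩, ⟨16, 2, []⟩], [3, 3, 3], 1, [(24, 1)]⟩,
⟨0, [⟨16, 2, []⟩, ⟨32, 2, []⟩], [3, 3, 3], 1, [(48, 1)]⟩,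
⟨1, [⟨8, 2, []⟩, ⟨32, 2, []⟩], [3, 3, 3], 1, [(40, 1)]⟩,
⟨1, [⟨16, 2, []⟩, ⟨32, 2, []⟩], [3, 3, 3], 1, [(48, 1)]⟩,
⟨0, [⟨8, 2, []⟩, ⟨16, 2, []⟩], [3, 3, 3], 1, [(24, 1)]⟩,
⟨0, [⟨8, 2, []⟩, ⟨32, 2, []⟩], [3, 3, 3], 1, [(40, 1)]⟩]

noncomputable def cnf : List (List ℕ) := [
[3, 8],
[22, 24],
[10, 12],
[27, 14],
[13, 29],
[30, 28],
[4, 6],
[23, 33],
[34, 10],
[37, 39],
[40, 42],
[25, 6],
[17, 41],
[32, 44],
[26, 0],
[16, 8],
[9, 47],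
[35, 4],
[46, 48],
[19, 2],
[1, 12],
[50, 38],
[16, 52],
[11, 55],
[18, 20],
[56, 54],
[59, 0],
[60, 36],
[61, 18],
[53, 58],
[7, 1, 49],
[15, 3, 57],
[7, 21, 43],
[1, 21, 45],
[5, 15, 51],
[5, 3, 31]]

noncomputable def db : Tr :=
 (.node 28 (.node 14 (.node 7 (.node 3 (.node 1 (.leaf 0xa0005)
 (.node 2 (.leaf 0x1a0018)
 (.leaf 0xe000c)))
 (.node 5 (.node 4 (.leaf 0x10001d)
 (.leaf 0x1f000f))
 (.node 6 (.leaf 0x1e0020)
 (.leaf 0x80006))))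
 (.node 10 (.node 8 (.leaf 0x230019)
 (.node 9 (.leaf 0xc0024)
 (.leaf 0x290027)))
 (.node 12 (.node 11 (.leaf 0x2c002a)
 (.leaf 0x8001b))
 (.node 13 (.leaf 0x2b0013)
 (.leaf 0x2e0022)))))
 (.node 21 (.node 17 (.node 15 (.leaf 0x2001c)
 (.node 16 (.leaf 0xa0012)
 (.leaf 0x31000b)))
 (.node 19 (.node 18 (.leaf 0x60025)
 (.leaf 0x320030))
 (.node 20 (.leaf 0x40015)
 (.leaf 0xe0003))))
 (.node 24 (.node 22 (.leaf 0x280034)
 (.node 23 (.leaf 0x360012)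
 (.leaf 0x39000d)))
 (.node 26 (.node 25 (.leaf 0x160014)
 (.leaf 0x38003a))
 (.node 27 (.leaf 0x2003d)
 (.leaf 0x26003e))))))
 (.node 42 (.node 35 (.node 31 (.node 29 (.leaf 0x14003f)
 (.node 30 (.leaf 0x3c0037)
 (.leaf 0x3300030009)))
 (.node 33 (.node 32 (.leaf 0x3b00050011)
 (.leaf 0x2d00170009))
 (.node 34 (.leaf 0x2f00170003)
 (.leaf 0x3500110007))))
 (.node 38 (.node 36 (.leaf 0x2100050007)
 (.node 37 (.leaf 0x50003)
 (.leaf 0x50011)))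
 (.node 40 (.node 39 (.leaf 0x5)
 (.leaf 0x15))
 (.node 41 (.leaf 0x16)
 (.leaf 0x3f)))))
 (.node 49 (.node 45 (.node 43 (.leaf 0x26)
 (.node 44 (.leaf 0x29)
 (.leaf 0x34)))
 (.node 47 (.node 46 (.leaf 0x30009)
 (.leaf 0x3))
 (.node 48 (.leaf 0x1c)
 (.leaf 0x3d))))
 (.node 53 (.node 51 (.node 50 (.leaf 0x10)
 (.leaf 0x37))
 (.node 52 (.leaf 0x7)
 (.leaf 0x12)))
 (.node 55 (.node 54 (.leaf 0x8)
 (.leaf 0x2b))
 (.node 56 (.leaf 0x2d)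
 (.leaf 0x0)))))))

noncomputable def prf : List ℕ := [
0x1e0001d0001f000050000f000110001300023,
0x10001f00013000200001c000220000d0000b00005,
0x220001700001,
0x1300000,
0xf00000,
0xc00001,
0xe00000,
0x2100000,
0x1600000,
0x1d000200001c000220001a0000c0000e00004,
0x220002c00026000200000c00005,
0x2000000,
0x1500001,
0x2d00001,
0x1400001,
0x100000600001,
0x1d00001,
0x2e00001,
0x2900001,
0x160000e00001,
0x2d0000000001]

end D63

theorem inst_63 : instB 0 [0, 0] [1, 1, 8] [] D63.base D63.gads D63.names D63.cnf D63.db D63.prf = true := by decide +kernel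

/-- no gadget has fewer than `2 R` new points. -/
theorem p2_63 : D63.gads.all (fun g => Nat.ble (2 * g.R) g.gs.length) = true := by decide +kernel

/-- there is no configuration of this instance. -/
theorem no_63 {V : Type v} [DecidableEq V] {ι : Type u} [Fintype ι] {B : ι → Finset V}
    {Q : Finset V} {i j : ι} {x : ℕ → V} {D : ℕ → Finset V}
    (h : CfI B Q 0 x D i j [0, 0] [1, 1, 8]) : False :=
  h.absurd (by decide) srt_nil inst_63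

end Pool.Agent.Hyp6
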